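import Pool.Agent.H212.ND.StmC

/-!
# Project ND, job AFF: affine conjugacies which respect the marked point are trivial
-/

set_option autoImplicit false

open Filter Metric Set Topology Polynomial
open scoped ComplexConjugate

namespace Pool.Agent.H212.ND

open Pool.Agent.H212.MB

namespace AFFaux

theorem isOpen_Ext : IsOpen MB.Ext := isOpen_lt continuous_const continuous_norm

theorem norm_ge (hSIG : MB.S_SIG) {φ : ℂ → ℂ} (h : Sig φ) {z : ℂ} (hz : 2 ≤ ‖z‖) :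
    ‖z‖ - 1 ≤ ‖φ z‖ := by
  have h1 := (hSIG φ h).1 z hz
  have h2 : 2 / ‖z‖ ≤ 1 := by rw [div_le_one (by linarith)]; exact hz
  have h3 : ‖z‖ ≤ ‖φ z‖ + ‖φ z - z‖ := by
    have := norm_sub_norm_le z (z - φ z)
    have e : z - (z - φ z) = φ z := by ring
    rw [e, norm_sub_rev z (φ z)] at this
    linarith
  linarith

theorem norm_le (hSIG : MB.S_SIG) {φ : ℂ → ℂ} (h : Sig φ) {z : ℂ} (hz : z ∈ MB.Ext) :
    ‖φ z‖ ≤ ‖z‖ + 3 := by
  by_cases h2 : ‖z‖ ≤ 2
  · have := (hSIG φ h).2.2.1 z hz h2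
    have := norm_nonneg z
    linarith
  · push Not at h2
    have h1 := (hSIG φ h).1 z h2.le
    have h3 : 2 / ‖z‖ ≤ 1 := by rw [div_le_one (by linarith)]; exact h2.le
    have h4 : ‖φ z‖ ≤ ‖φ z - z‖ + ‖z‖ := by
      have := norm_add_le (φ z - z) z
      rwa [sub_add_cancel] at this
    linarith

theorem pole_zero {n : ℕ} (hn : 1 ≤ n) (hBL : MB.S_BL) (hSIG : MB.S_SIG) {A : Blaschke n}
    {f : RMap n} {φ : ℂ → ℂ} (h : IsExt A f φ) {z : ℂ} (hz : z ∈ MB.Ext) (hd : A.den z = 0) :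
    f.Q.eval (φ z) = 0 := by
  by_contra hq
  obtain ⟨-, -, -, hE, hfin, hnum, -⟩ := hBL n hn A
  have hnb : (𝓝[≠] z).NeBot := inferInstance
  have hle : 𝓝[≠] z ≤ 𝓝 z := nhdsWithin_le_nhds
  -- the left side is bounded
  have hφc : ContinuousAt φ z := (h.diff.differentiableAt (isOpen_Ext.mem_nhds hz)).continuousAt
  have hev : Tendsto (fun w => f.ev (φ w)) (𝓝[≠] z) (𝓝 (f.ev (φ z))) := by
    have h1 : Tendsto (fun w => f.P.eval (φ w) / f.Q.eval (φ w)) (𝓝 z)
        (𝓝 (f.P.eval (φ z) / f.Q.eval (φ z))) :=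
      ((f.P.continuous.continuousAt.tendsto).comp hφc.tendsto).div
        ((f.Q.continuous.continuousAt.tendsto).comp hφc.tendsto) hq
    exact h1.mono_left hle
  -- the right side is unbounded
  have hnumc : Continuous A.num := by
    unfold Blaschke.num
    exact (continuous_const.mul continuous_id).mul
      (continuous_finsetProd _ fun i _ => continuous_id.sub continuous_const)
  have hdenc : Continuous A.den := by
    unfold Blaschke.den
    exact continuous_finsetProd _ fun i _ => continuous_const.sub (continuous_const.mul continuous_id)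
  have hden : ∀ᶠ w in 𝓝[≠] z, A.den w ≠ 0 := by
    have h1 : ({w | A.den w = 0} \ {z}).Finite := hfin.subset sdiff_subset
    have h2 : ({w | A.den w = 0} \ {z})ᶜ ∈ 𝓝 z :=
      h1.isClosed.isOpen_compl.mem_nhds (fun h => h.2 rfl)
    filter_upwards [hle h2, self_mem_nhdsWithin] with w hw hw' h0
    exact hw ⟨h0, hw'⟩
  have hinf : Tendsto (fun w => ‖A.num w‖ * ‖A.den w‖⁻¹) (𝓝[≠] z) atTop := by
    have h1 : Tendsto (fun w => ‖A.num w‖) (𝓝[≠] z) (𝓝 ‖A.num z‖) :=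
      (hnumc.norm.continuousAt.tendsto).mono_left hle
    have h2 : Tendsto (fun w => ‖A.den w‖) (𝓝[≠] z) (𝓝[>] 0) := by
      rw [tendsto_nhdsWithin_iff]
      constructor
      · have h3 := (hdenc.norm.continuousAt (x := z)).tendsto.mono_left hle
        rwa [hd, norm_zero] at h3
      · filter_upwards [hden] with w hw
        exact norm_pos_iff.2 hw
    exact h1.pos_mul_atTop (norm_pos_iff.2 (hnum z hz)) (tendsto_inv_nhdsGT_zero.comp h2)
  have hExt : ∀ᶠ w in 𝓝[≠] z, w ∈ MB.Ext := hle (isOpen_Ext.mem_nhds hz)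
  have hbig := hinf.eventually_ge_atTop (2 : ℝ)
  have hat : Tendsto (fun w => ‖f.ev (φ w)‖) (𝓝[≠] z) atTop := by
    refine tendsto_atTop_mono' _ ?_ (tendsto_atTop_add_const_right _ (-1) hinf)
    filter_upwards [hden, hExt, hbig] with w h1 h2 h3
    have h4 : ‖A.num w‖ * ‖A.den w‖⁻¹ = ‖A.ev w‖ := by
      unfold Blaschke.ev
      rw [norm_div]; rfl
    rw [h4] at h3 ⊢
    rw [(h.semi w h2 h1).2]
    have := norm_ge hSIG h.sig h3
    linarith
  exact not_tendsto_nhds_of_tendsto_atTop hat _ hev.norm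

theorem bdd_inv {n : ℕ} (hn : 2 ≤ n) (hBL : MB.S_BL) (hSIG : MB.S_SIG) {A : Blaschke n}
    {f : RMap n} {φ : ℂ → ℂ} (h : IsExt A f φ) (B : Set ℂ) (M : ℝ) (hB : ∀ w ∈ B, ‖w‖ ≤ M)
    (hinv : ∀ w ∈ B, f.Q.eval w ≠ 0 ∧ f.ev w ∈ B) : ∀ w ∈ B, w ∉ φ '' MB.Ext := by
  rintro _ hw ⟨z, hz, rfl⟩
  have hz1 : 1 < ‖z‖ := hz
  obtain ⟨-, -, -, hE, -, -, -, h2, -⟩ := hBL n (by omega) A
  obtain ⟨q, hq, hqE⟩ := (h2 hn).2 ‖z‖ hz1
  have claim : ∀ m : ℕ, ∃ u ∈ MB.Ext, φ u ∈ B ∧ q ^ m * ‖z‖ ≤ ‖u‖ ∧ ‖z‖ ≤ ‖u‖ := by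
    intro m
    induction m with
    | zero => exact ⟨z, hz, hw, by rw [pow_zero, one_mul], le_rfl⟩
    | succ m ih =>
      obtain ⟨u, hu, huB, hu1, hu2⟩ := ih
      have hQ := (hinv _ huB).1
      have hden : A.den u ≠ 0 := fun h0 => hQ (pole_zero (by omega) hBL hSIG h hu h0)
      have h3 := hqE u hu2 hden
      have h4 := hE u hu hden
      refine ⟨A.ev u, lt_of_lt_of_le hu h4, ?_, ?_, hu2.trans h4⟩
      · rw [← (h.semi u hu hden).2]
        exact (hinv _ huB).2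
      · calc q ^ (m + 1) * ‖z‖ = q * (q ^ m * ‖z‖) := by ring
          _ ≤ q * ‖u‖ := by gcongr
          _ ≤ _ := h3
  obtain ⟨m, hm⟩ := pow_unbounded_of_one_lt (|M| + 3) hq
  obtain ⟨u, hu, huB, hu1, -⟩ := claim m
  have h3 : |M| + 3 ≤ ‖u‖ := by
    have h4 : q ^ m * 1 ≤ q ^ m * ‖z‖ := by gcongr
    linarith
  have h5 : 0 ≤ |M| := abs_nonneg M
  have h6 := norm_ge hSIG h.sig (z := u) (by linarith)
  have h7 := hB _ huB
  have h8 := le_abs_self M
  linarith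

/-- the affine map maps the exterior part to the exterior part -/
theorem image_sub {n : ℕ} (hn : 2 ≤ n) (hBL : MB.S_BL) (hSIG : MB.S_SIG) {A : Blaschke n}
    {f f' : RMap n} {φ φ' : ℂ → ℂ} {a b : ℂ} (ha : a ≠ 0) (h : IsExt A f φ) (h' : IsExt A f' φ')
    (hc' : ∀ y, y ∉ φ' '' MB.Ext → f'.Q.eval y ≠ 0 ∧ f'.ev y ∉ φ' '' MB.Ext)
    (hL : ∀ z, (f'.Q.eval (a * z + b) = 0 ↔ f.Q.eval z = 0) ∧
      (f.Q.eval z ≠ 0 → f'.ev (a * z + b) = a * f.ev z + b)) :
    ∀ z ∈ MB.Ext, ∃ w ∈ MB.Ext, φ' w = a * φ z + b := by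
  intro z hz
  by_contra hcon
  have hy : a * φ z + b ∉ φ' '' MB.Ext := fun ⟨w, hw, hw'⟩ => hcon ⟨w, hw, hw'⟩
  obtain ⟨M, hM⟩ := (hSIG φ' h'.sig).2.2.2.2.2.isBounded.exists_norm_le
  have hapos : 0 < ‖a‖ := norm_pos_iff.2 ha
  refine bdd_inv hn hBL hSIG h {v | a * v + b ∉ φ' '' MB.Ext} ((M + ‖b‖) / ‖a‖) ?_ ?_ (φ z) hy
    ⟨z, hz, rfl⟩
  · intro v hv
    rw [le_div_iff₀ hapos]
    have h1 := hM _ hv
    have h2 : ‖a * v‖ ≤ ‖a * v + b‖ + ‖b‖ := by
      have := norm_sub_le (a * v + b) b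
      rwa [add_sub_cancel_right] at this
    rw [norm_mul] at h2
    linarith
  · intro v hv
    obtain ⟨h1, h2⟩ := hc' _ hv
    have h3 : f.Q.eval v ≠ 0 := fun h0 => h1 ((hL v).1.2 h0)
    refine ⟨h3, ?_⟩
    show a * f.ev v + b ∉ φ' '' MB.Ext
    rw [← (hL v).2 h3]
    exact h2

/-- Schwarz lemma for the exterior -/
theorem schw {χ : ℂ → ℂ} (hd : DifferentiableOn ℂ χ MB.Ext) (hm : MapsTo χ MB.Ext MB.Ext) {a : ℂ}
    (ha : a ≠ 0) (hlim : Tendsto (fun z => χ z / z) (cocompact ℂ) (𝓝 a)) :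
    1 ≤ ‖a‖ ∧ (‖a‖ = 1 → ∀ z ∈ MB.Ext, χ z = a * z) := by
  classical
  let H : ℂ → ℂ := fun w => if w = 0 then a⁻¹ else (w * χ w⁻¹)⁻¹
  have hH0 : H 0 = a⁻¹ := if_pos rfl
  have hHn : ∀ w, w ≠ 0 → H w = (w * χ w⁻¹)⁻¹ := fun w hw => if_neg hw
  have hinvE : ∀ w ∈ ball (0 : ℂ) 1, w ≠ 0 → w⁻¹ ∈ MB.Ext := by
    intro w hw hw0
    show 1 < ‖w⁻¹‖
    rw [norm_inv]
    exact (one_lt_inv₀ (norm_pos_iff.2 hw0)).2 (mem_ball_zero_iff.1 hw)
  have hχ1 : ∀ z ∈ MB.Ext, 1 < ‖χ z‖ := fun z hz => hm hz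
  have hχ0 : ∀ z ∈ MB.Ext, χ z ≠ 0 := by
    intro z hz h0
    have := hχ1 z hz
    rw [h0, norm_zero] at this
    linarith
  have hpunct : DifferentiableOn ℂ H (ball 0 1 \ {0}) := by
    have h1 : DifferentiableOn ℂ (fun w => (w * χ w⁻¹)⁻¹) (ball 0 1 \ {0}) := by
      have h2 : DifferentiableOn ℂ (fun w : ℂ => w⁻¹) (ball 0 1 \ {0}) := fun w hw =>
        (differentiableAt_inv (fun h => hw.2 h)).differentiableWithinAt
      have h3 : DifferentiableOn ℂ (fun w => χ w⁻¹) (ball 0 1 \ {0}) :=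
        hd.comp h2 (fun w hw => hinvE w hw.1 (fun h => hw.2 h))
      refine (differentiableOn_id.mul h3).inv ?_
      intro w hw
      exact mul_ne_zero (fun h => hw.2 h) (hχ0 _ (hinvE w hw.1 (fun h => hw.2 h)))
    refine h1.congr fun w hw => hHn w (fun h => hw.2 h)
  have hcont : ContinuousAt H 0 := by
    rw [continuousAt_iff_punctured_nhds, hH0]
    have h1 : Tendsto (fun w : ℂ => w⁻¹) (𝓝[≠] 0) (cocompact ℂ) := by
      have := tendsto_inv₀_nhdsNE_zero (α := ℂ)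
      rwa [Metric.cobounded_eq_cocompact] at this
    have h2 := (hlim.comp h1).inv₀ ha
    refine h2.congr' ?_
    filter_upwards [self_mem_nhdsWithin] with w hw
    show (χ w⁻¹ / w⁻¹)⁻¹ = H w
    rw [hHn w hw, div_inv_eq_mul, mul_comm]
  have hdiff : DifferentiableOn ℂ H (ball 0 1) :=
    (Complex.differentiableOn_compl_singleton_and_continuousAt_iff
      (ball_mem_nhds (0 : ℂ) one_pos)).1 ⟨hpunct, hcont⟩
  have hbound : ∀ w ∈ ball (0 : ℂ) 1, ‖H w‖ ≤ 1 := by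
    intro w hw
    have hw1 : ‖w‖ < 1 := mem_ball_zero_iff.1 hw
    have key : ∀ r : ℝ, ‖w‖ < r → 0 < r → r < 1 → ‖H w‖ ≤ 1 / r := by
      intro r hr hr0 hr1
      refine Complex.norm_le_of_forall_mem_frontier_norm_le (U := ball 0 r) isBounded_ball ?_ ?_
        (subset_closure (mem_ball_zero_iff.2 hr))
      · have h1 : DifferentiableOn ℂ H (closedBall 0 r) :=
          hdiff.mono (closedBall_subset_ball hr1)
        have h2 : DifferentiableOn ℂ H (closure (ball 0 r)) := by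
          rwa [closure_ball _ hr0.ne']
        exact h2.diffContOnCl
      · intro u hu
        rw [frontier_ball _ hr0.ne', mem_sphere_zero_iff_norm] at hu
        have hu0 : u ≠ 0 := by
          intro h
          rw [h, norm_zero] at hu
          linarith
        rw [hHn u hu0, norm_inv, norm_mul, hu, one_div]
        have h3 := hχ1 _ (hinvE u (mem_ball_zero_iff.2 (by rw [hu]; exact hr1)) hu0)
        apply inv_anti₀ hr0
        nlinarith
    by_contra hcon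
    push Not at hcon
    have hpos : 0 < ‖H w‖ := by linarith
    set r := max ((‖w‖ + 1) / 2) ((‖H w‖⁻¹ + 1) / 2) with hr
    have hinv1 : ‖H w‖⁻¹ < 1 := inv_lt_one_of_one_lt₀ hcon
    have h0 : 0 ≤ ‖w‖ := norm_nonneg w
    have hr1 : r < 1 := max_lt (by linarith) (by linarith)
    have hr2 : ‖w‖ < r := lt_of_lt_of_le (by linarith) (le_max_left _ _)
    have hr3 : ‖H w‖⁻¹ < r := lt_of_lt_of_le (by linarith) (le_max_right _ _)
    have hr0 : 0 < r := by linarith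
    have h1 := key r hr2 hr0 hr1
    rw [le_div_iff₀ hr0] at h1
    have h2 : 1 < ‖H w‖ * r := by
      calc 1 = ‖H w‖ * ‖H w‖⁻¹ := (mul_inv_cancel₀ hpos.ne').symm
        _ < ‖H w‖ * r := by gcongr
    linarith
  have hzero : (0 : ℂ) ∈ ball (0 : ℂ) 1 := mem_ball_self one_pos
  have hapos : 0 < ‖a‖ := norm_pos_iff.2 ha
  constructor
  · have h1 := hbound 0 hzero
    rw [hH0, norm_inv] at h1
    exact (inv_le_one₀ hapos).1 h1
  · intro ha1 z hz
    have hmax : IsMaxOn (norm ∘ H) (ball 0 1) 0 := by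
      intro w hw
      show ‖H w‖ ≤ ‖H 0‖
      rw [hH0, norm_inv, ha1, inv_one]
      exact hbound w hw
    have heq := Complex.eqOn_of_isPreconnected_of_isMaxOn_norm
      (convex_ball (0 : ℂ) 1).isPreconnected isOpen_ball hdiff hzero hmax
    have hz0 : z ≠ 0 := by
      rintro rfl
      have : (1 : ℝ) < ‖(0 : ℂ)‖ := hz
      rw [norm_zero] at this
      linarith
    have hzb : z⁻¹ ∈ ball (0 : ℂ) 1 := by
      rw [mem_ball_zero_iff, norm_inv]
      exact inv_lt_one_of_one_lt₀ hz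
    have h1 := heq hzb
    rw [Function.const_apply, hH0, hHn _ (inv_ne_zero hz0), inv_inv] at h1
    have h2 := inv_injective h1
    rw [← h2]
    field_simp

/-- the map of the exterior induced by the affine map -/
theorem exists_chi (hSIG : MB.S_SIG) {φ φ' : ℂ → ℂ} {a b : ℂ} (ha : a ≠ 0) (h : Sig φ)
    (h' : Sig φ') (him : ∀ z ∈ MB.Ext, ∃ w ∈ MB.Ext, φ' w = a * φ z + b) :
    1 ≤ ‖a‖ ∧ (‖a‖ = 1 → ∀ z ∈ MB.Ext, φ' (a * z) = a * φ z + b) := by
  let g : ℂ → ℂ := Function.invFunOn φ' MB.Ext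
  have hg1 : ∀ w ∈ MB.Ext, g (φ' w) = w := fun w hw => by
    have h1 : φ' w ∈ φ' '' MB.Ext := ⟨w, hw, rfl⟩
    exact h'.inj (Function.invFunOn_mem h1) hw (Function.invFunOn_eq h1)
  obtain ⟨-, -, -, hder, hopen, -⟩ := hSIG φ' h'
  have hgd : ∀ w ∈ MB.Ext, DifferentiableAt ℂ g (φ' w) := by
    intro w hw
    have hcont : ContinuousAt g (φ' w) := by
      intro U hU
      rw [hg1 w hw] at hU
      obtain ⟨V, hVU, hVo, hwV⟩ := _root_.mem_nhds_iff.1 hU
      have h1 : φ' '' (V ∩ MB.Ext) ∈ 𝓝 (φ' w) :=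
        (hopen _ inter_subset_right (hVo.inter isOpen_Ext)).mem_nhds ⟨w, ⟨hwV, hw⟩, rfl⟩
      refine Filter.mem_map.2 (mem_of_superset h1 ?_)
      rintro _ ⟨u, ⟨huV, hu⟩, rfl⟩
      show g (φ' u) ∈ U
      rw [hg1 u hu]
      exact hVU huV
    have hf : HasDerivAt φ' (deriv φ' w) (g (φ' w)) := by
      rw [hg1 w hw]
      exact (h'.diff.differentiableAt (isOpen_Ext.mem_nhds hw)).hasDerivAt
    have hev : ∀ᶠ y in 𝓝 (φ' w), φ' (g y) = y := by
      filter_upwards [(hopen _ Subset.rfl isOpen_Ext).mem_nhds ⟨w, hw, rfl⟩] with y hy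
      obtain ⟨u, hu, rfl⟩ := hy
      rw [hg1 u hu]
    exact (HasDerivAt.of_local_left_inverse hcont hf (hder w hw) hev).differentiableAt
  let χ : ℂ → ℂ := fun z => g (a * φ z + b)
  have hχ : ∀ z ∈ MB.Ext, χ z ∈ MB.Ext ∧ φ' (χ z) = a * φ z + b := by
    intro z hz
    obtain ⟨w, hw, hw'⟩ := him z hz
    show g (a * φ z + b) ∈ MB.Ext ∧ φ' (g (a * φ z + b)) = a * φ z + b
    rw [← hw', hg1 w hw]
    exact ⟨hw, rfl⟩
  have hχd : DifferentiableOn ℂ χ MB.Ext := by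
    intro z hz
    have h1 : DifferentiableAt ℂ φ z := h.diff.differentiableAt (isOpen_Ext.mem_nhds hz)
    have h2 : DifferentiableAt ℂ (fun z => a * φ z + b) z := (h1.const_mul a).add_const b
    have h3 : DifferentiableAt ℂ g (a * φ z + b) := by
      rw [← (hχ z hz).2]
      exact hgd _ (hχ z hz).1
    exact (DifferentiableAt.comp z h3 h2).differentiableWithinAt
  have hExt : ∀ᶠ z in cocompact ℂ, z ∈ MB.Ext := by
    have h1 : (closedBall (0 : ℂ) 1)ᶜ ∈ cocompact ℂ :=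
      (isCompact_closedBall (0 : ℂ) 1).compl_mem_cocompact
    filter_upwards [h1] with z hz
    show 1 < ‖z‖
    by_contra hcon
    push Not at hcon
    exact hz (mem_closedBall_zero_iff.2 hcon)
  have hnorm : Tendsto (fun z : ℂ => ‖z‖) (cocompact ℂ) atTop := tendsto_norm_cocompact_atTop
  have hapos : 0 < ‖a‖ := norm_pos_iff.2 ha
  have hχinf : Tendsto χ (cocompact ℂ) (cocompact ℂ) := by
    rw [← Metric.cobounded_eq_cocompact, ← tendsto_norm_atTop_iff_cobounded,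
      Metric.cobounded_eq_cocompact]
    have h1 : Tendsto (fun z : ℂ => ‖a‖ * ‖z‖ + (-(‖a‖ + ‖b‖ + 3))) (cocompact ℂ) atTop :=
      tendsto_atTop_add_const_right _ _ (hnorm.const_mul_atTop hapos)
    refine tendsto_atTop_mono' _ ?_ h1
    filter_upwards [hExt, hnorm.eventually_ge_atTop 2] with z hz hz2
    obtain ⟨h2, h3⟩ := hχ z hz
    have h4 := norm_le hSIG h' h2
    have h5 := norm_ge hSIG h hz2
    rw [h3] at h4
    have h6 : ‖a * φ z‖ ≤ ‖a * φ z + b‖ + ‖b‖ := by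
      have := norm_sub_le (a * φ z + b) b
      rwa [add_sub_cancel_right] at this
    rw [norm_mul] at h6
    have h7 : ‖a‖ * (‖z‖ - 1) ≤ ‖a‖ * ‖φ z‖ := by gcongr
    linarith
  have hlim : Tendsto (fun z => χ z / z) (cocompact ℂ) (𝓝 a) := by
    have h1 : Tendsto (fun z => φ' (χ z) - χ z) (cocompact ℂ) (𝓝 0) := h'.norm.comp hχinf
    have h2 : Tendsto (fun z => a * (φ z - z) + b - (φ' (χ z) - χ z)) (cocompact ℂ)
        (𝓝 (a * 0 + b - 0)) := ((h.norm.const_mul a).add_const b).sub h1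
    have h3 : Tendsto (fun z : ℂ => z⁻¹) (cocompact ℂ) (𝓝 0) := by
      have h4 : Tendsto (fun w : ℂ => w⁻¹) (Bornology.cobounded ℂ) (𝓝 0) := tendsto_inv₀_cobounded
      rwa [Metric.cobounded_eq_cocompact] at h4
    have h4 := (h2.mul h3).const_add a
    rw [mul_zero, add_zero] at h4
    refine h4.congr' ?_
    filter_upwards [hExt] with z hz
    have hz0 : z ≠ 0 := by
      rintro rfl
      have : (1 : ℝ) < ‖(0 : ℂ)‖ := hz
      rw [norm_zero] at this
      linarith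
    rw [(hχ z hz).2]
    field_simp
    ring
  obtain ⟨h1, h2⟩ := schw hχd (fun z hz => (hχ z hz).1) ha hlim
  refine ⟨h1, fun ha1 z hz => ?_⟩
  rw [← h2 ha1 z hz]
  exact (hχ z hz).2

theorem CExt_sub : CExt ⊆ closure MB.Ext := by
  intro z hz
  have hz' : 1 ≤ ‖z‖ := hz
  rw [Metric.mem_closure_iff]
  intro ε hε
  have hzpos : 0 < ‖z‖ := by linarith
  set δ := ε / (2 * ‖z‖) with hδ
  have hδ0 : 0 < δ := by positivity
  refine ⟨((1 + δ : ℝ) : ℂ) * z, ?_, ?_⟩
  · show 1 < ‖((1 + δ : ℝ) : ℂ) * z‖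
    rw [norm_mul, Complex.norm_real, Real.norm_eq_abs, abs_of_pos (by linarith)]
    nlinarith
  · rw [dist_eq_norm]
    have h1 : z - ((1 + δ : ℝ) : ℂ) * z = -((δ : ℝ) : ℂ) * z := by push_cast; ring
    rw [h1, norm_mul, norm_neg, Complex.norm_real, Real.norm_eq_abs, abs_of_pos hδ0, hδ]
    have : ε / (2 * ‖z‖) * ‖z‖ = ε / 2 := by field_simp
    rw [this]
    linarith

end AFFaux

open AFFaux

theorem t_AFF (h1 : MB.S_BL) (h2 : MB.S_SIG) (h3 : MB.S_DET) : S_AFF := by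
  intro n A f f' φ φ' a b hn ha h h' hc hc' hinj' hcompl hcompl' hL hmark
  have himg := image_sub hn h1 h2 ha h h' hcompl' hL
  have ha' : a⁻¹ ≠ 0 := inv_ne_zero ha
  have hL' : ∀ z, (f.Q.eval (a⁻¹ * z + -(b / a)) = 0 ↔ f'.Q.eval z = 0) ∧
      (f'.Q.eval z ≠ 0 → f.ev (a⁻¹ * z + -(b / a)) = a⁻¹ * f'.ev z + -(b / a)) := by
    intro w
    have hw : a * (a⁻¹ * w + -(b / a)) + b = w := by
      field_simp
      ring
    obtain ⟨e1, e2⟩ := hL (a⁻¹ * w + -(b / a))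
    rw [hw] at e1 e2
    refine ⟨e1.symm, fun hy => ?_⟩
    have e3 := e2 (fun hx => hy (e1.2 hx))
    rw [e3]
    field_simp
    ring
  have himg' := image_sub hn h1 h2 ha' h' h hcompl hL'
  obtain ⟨hn1, hχ⟩ := exists_chi h2 ha h.sig h'.sig himg
  obtain ⟨hn2, -⟩ := exists_chi h2 ha' h'.sig h.sig himg'
  have hapos : 0 < ‖a‖ := norm_pos_iff.2 ha
  have hnorm : ‖a‖ = 1 := by
    refine le_antisymm ?_ hn1
    rw [norm_inv] at hn2
    exact (one_le_inv₀ hapos).1 hn2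
  have hEq := hχ hnorm
  -- on the closed exterior
  have hsub : MB.Ext ⊆ CExt := by
    intro z hz
    have h1 : (1 : ℝ) < ‖z‖ := hz
    show 1 ≤ ‖z‖
    exact h1.le
  have hmaps : MapsTo (fun z => a * z) CExt CExt := by
    intro z hz
    show 1 ≤ ‖a * z‖
    rw [norm_mul, hnorm, one_mul]
    exact hz
  have hEqC : EqOn (fun z => φ' (a * z)) (fun z => a * φ z + b) CExt := by
    refine EqOn.of_subset_closure (s := MB.Ext) (fun z hz => hEq z hz) ?_ ?_ hsub CExt_sub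
    · exact hc'.comp (continuous_const.mul continuous_id).continuousOn hmaps
    · exact (continuousOn_const.mul hc).add continuousOn_const
  have hbE : A.b ∈ CExt := by
    show 1 ≤ ‖A.b‖
    rw [A.norm_b]
  have hb0 : A.b ≠ 0 := by
    intro h0
    have := A.norm_b
    rw [h0, norm_zero] at this
    exact zero_ne_one this
  have ha1 : a = 1 := by
    have e1 : φ' (a * A.b) = φ' A.b := by rw [hmark]; exact hEqC hbE
    have e2 := hinj' (hmaps hbE) hbE e1
    have e3 : a * A.b = 1 * A.b := by rw [one_mul]; exact e2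
    exact mul_right_cancel₀ hb0 e3
  subst ha1
  have hb : b = 0 := by
    have e1 : Tendsto (fun z => (φ' z - z) - (φ z - z)) (cocompact ℂ) (𝓝 (0 - 0)) :=
      h'.norm.sub h.norm
    have e2 : Tendsto (fun z => (φ' z - z) - (φ z - z)) (cocompact ℂ) (𝓝 b) := by
      refine tendsto_const_nhds.congr' ?_
      have hExt : ∀ᶠ z in cocompact ℂ, z ∈ MB.Ext := by
        have h1 : (closedBall (0 : ℂ) 1)ᶜ ∈ cocompact ℂ :=
          (isCompact_closedBall (0 : ℂ) 1).compl_mem_cocompact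
        filter_upwards [h1] with z hz
        show 1 < ‖z‖
        by_contra hcon
        push Not at hcon
        exact hz (mem_closedBall_zero_iff.2 hcon)
      filter_upwards [hExt] with z hz
      have := hEq z hz
      rw [one_mul, one_mul] at this
      rw [this]
      ring
    rw [sub_zero] at e1
    exact tendsto_nhds_unique e2 e1
  subst hb
  have hfin : EqOn φ φ' CExt := by
    intro z hz
    have := hEqC hz
    simp only [one_mul, add_zero] at this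
    exact this.symm
  exact ⟨h3 n (by omega) A f f' φ φ' h h' (hfin.mono hsub), hfin⟩

end Pool.Agent.H212.ND
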