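import Pool.Agent.H212.ND.StmA

/-! Job AMN: assembly of the abstract part (helper52). -/

set_option autoImplicit false

namespace Pool.Agent.H212.ND

open Pool.Agent.H212.MB

theorem t_AMN (h1 : S_KAP) (h2 : S_LAM) (h3 : S_BEA) (h4 : S_HOR) (h5 : S_LOC) : S_AMN := by
  intro n g c₀ c φ Φ ψ R C ρ S₁ Y₁ K0 hρ hg hp hf hd hL
  have hne : Nonempty (ℂ ≃ₜ ℂ) := ⟨Homeomorph.refl ℂ⟩
  choose! L hL using hL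
  have hK : ∀ S, S₁ ≤ S → ∃ κ lm : ℂ ≃ₜ ℂ, KL g c₀ Φ ψ S Y₁ (L S) κ lm := by
    intro S hS
    obtain ⟨κ, k1, k2, k3⟩ := h1 n g c₀ c φ Φ ψ R C ρ S Y₁ K0 (L S) hg hp hf (hL S hS)
    obtain ⟨lm, l1, l2, l3⟩ := h2 n g c₀ c φ Φ ψ R C ρ S Y₁ K0 (L S) hg hp hf (hL S hS)
    exact ⟨κ, lm, ⟨k1, k2, k3, l1, l2, l3⟩⟩
  choose! κ lm hK using hK
  have hA : ∀ S, S₁ ≤ S → LS g c₀ φ Φ ψ K0 ρ S Y₁ (L S) ∧ KL g c₀ Φ ψ S Y₁ (L S) (κ S) (lm S) :=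
    fun S hS => ⟨hL S hS, hK S hS⟩
  obtain ⟨β, hβ, hβ2⟩ := h3 n g c₀ c φ Φ ψ R C ρ S₁ Y₁ K0 L κ lm hρ hg hp hf hA
  exact h5 n g c₀ c φ Φ ψ R C ρ K0 β hρ hg hp hf hd hβ
    (h4 n g c₀ c φ Φ ψ R C ρ S₁ Y₁ K0 β L κ lm hρ hg hp hf hA hβ hβ2)

end Pool.Agent.H212.ND
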