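import Pool.Agent.H212.ND.StmT

/-!
# JOB BASN: the parabolic basin is connected
-/

set_option autoImplicit false

open Filter Metric Set Topology Polynomial
open scoped ComplexConjugate

namespace Pool.Agent.H212.ND

open Pool.Agent.H212.MB

namespace BASNaux

variable {n : ℕ} {g : ℂ[X]} {c₀ : ℝ} {c : ℂ}

/-- the preimage of the disc -/
def V (g : ℂ[X]) (c₀ : ℝ) (m : ℕ) : Set ℂ := {z | ‖(fun z : ℂ => g.eval z)^[m] z - c₀‖ < 1 - c₀}

/-- the preimage of the circle -/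
def L (g : ℂ[X]) (c₀ : ℝ) (m : ℕ) : Set ℂ := {z | ‖(fun z : ℂ => g.eval z)^[m] z - c₀‖ = 1 - c₀}

theorem it_cont (g : ℂ[X]) (m : ℕ) : Continuous ((fun z : ℂ => g.eval z)^[m]) :=
  g.continuous.iterate m

theorem nf_cont (g : ℂ[X]) (c₀ : ℝ) (m : ℕ) :
    Continuous fun z => ‖(fun z : ℂ => g.eval z)^[m] z - c₀‖ :=
  ((it_cont g m).sub continuous_const).norm

theorem V_open (g : ℂ[X]) (c₀ : ℝ) (m : ℕ) : IsOpen (V g c₀ m) :=
  isOpen_lt (nf_cont g c₀ m) continuous_const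

theorem Bas_eq (g : ℂ[X]) (c₀ : ℝ) : Bas g c₀ = ⋃ m, V g c₀ m := by
  ext z
  rw [mem_iUnion]
  rfl

theorem ball_le (h0 : 0 < c₀) {y : ℂ} (h : ‖y - c₀‖ < 1 - c₀) : ‖y‖ < 1 := by
  have h1 : ‖y‖ ≤ ‖y - c₀‖ + ‖(c₀ : ℂ)‖ := by
    have := norm_add_le (y - c₀) (c₀ : ℂ)
    rwa [sub_add_cancel] at this
  rw [Complex.norm_real, Real.norm_of_nonneg h0.le] at h1
  linarith

theorem step (h : Good n g c₀ c) {y : ℂ} (hy : ‖y - c₀‖ < 1 - c₀) :
    ‖g.eval y - c₀‖ < 1 - c₀ := by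
  refine h.disc y (ball_le h.c0 hy).le ?_
  rintro rfl
  have := ball_le h.c0 hy
  rw [norm_one] at this
  exact lt_irrefl _ this

theorem steps (h : Good n g c₀ c) {y : ℂ} (hy : ‖y - c₀‖ < 1 - c₀) (m : ℕ) :
    ‖(fun z : ℂ => g.eval z)^[m] y - c₀‖ < 1 - c₀ := by
  induction m with
  | zero => exact hy
  | succ m ih =>
    rw [Function.iterate_succ_apply']
    exact step h ih

theorem steps' (h : Good n g c₀ c) {y : ℂ} {i m : ℕ} (him : i ≤ m)
    (hy : ‖(fun z : ℂ => g.eval z)^[i] y - c₀‖ < 1 - c₀) :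
    ‖(fun z : ℂ => g.eval z)^[m] y - c₀‖ < 1 - c₀ := by
  have h1 := steps h hy (m - i)
  rw [← Function.iterate_add_apply] at h1
  have h2 : m - i + i = m := by omega
  rwa [h2] at h1

/-! ## the circle is connected -/

theorem mem_HP_add {X : ℂ} (hX : X ∈ HP) (t : ℝ) : X + 2 * Real.pi * Complex.I * t ∈ HP := by
  have h0 : (2 * Real.pi * Complex.I * t : ℂ).re = 0 := by simp
  show 0 ≤ (X + 2 * Real.pi * Complex.I * t).re
  rw [Complex.add_re, h0, add_zero]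
  exact hX

theorem perN {Γ : ℂ → ℂ} {C : ℝ} (hi : Inv n g c₀ Γ C) (k : ℕ) : ∀ X ∈ HP,
    Γ (X + 2 * Real.pi * Complex.I * (n * k : ℝ)) = Γ X + 2 * Real.pi * Complex.I * k := by
  induction k with
  | zero => intro X _; simp
  | succ k ih =>
    intro X hX
    have e : X + 2 * Real.pi * Complex.I * ((n * (k + 1 : ℕ) : ℝ) : ℂ) =
        (X + 2 * Real.pi * Complex.I * ((n * k : ℝ) : ℂ)) + 2 * Real.pi * Complex.I * n := by
      push_cast
      ring
    rw [e, hi.per _ (mem_HP_add hX _), ih X hX]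
    push_cast
    ring

theorem perZ {Γ : ℂ → ℂ} {C : ℝ} (hi : Inv n g c₀ Γ C) (k : ℤ) : ∀ X ∈ HP,
    Γ (X + 2 * Real.pi * Complex.I * (n * k : ℝ)) = Γ X + 2 * Real.pi * Complex.I * k := by
  intro X hX
  obtain ⟨k', rfl | rfl⟩ := Int.eq_nat_or_neg k
  · have := perN hi k' X hX
    exact_mod_cast this
  · have h1 := perN hi k' (X + 2 * Real.pi * Complex.I * ((n * ((-(k' : ℤ) : ℤ) : ℝ) : ℝ) : ℂ))
      (mem_HP_add hX _)
    have e : X + 2 * Real.pi * Complex.I * ((n * ((-(k' : ℤ) : ℤ) : ℝ) : ℝ) : ℂ) +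
        2 * Real.pi * Complex.I * ((n * k' : ℝ) : ℂ) = X := by
      push_cast
      ring
    rw [e] at h1
    rw [h1]
    push_cast
    ring

theorem maps_it {Γ : ℂ → ℂ} {C : ℝ} (hi : Inv n g c₀ Γ C) (m : ℕ) : ∀ X ∈ HP, Γ^[m] X ∈ HP := by
  induction m with
  | zero => exact fun X hX => hX
  | succ m ih =>
    intro X hX
    rw [Function.iterate_succ_apply]
    exact ih _ (hi.maps X hX)

theorem per_it {Γ : ℂ → ℂ} {C : ℝ} (hi : Inv n g c₀ Γ C) (m : ℕ) : ∀ (k : ℤ), ∀ X ∈ HP,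
    Γ^[m] (X + 2 * Real.pi * Complex.I * (n ^ m * k : ℝ)) =
      Γ^[m] X + 2 * Real.pi * Complex.I * k := by
  induction m with
  | zero => intro k X _; simp
  | succ m ih =>
    intro k X hX
    rw [Function.iterate_succ_apply, Function.iterate_succ_apply]
    have e : X + 2 * Real.pi * Complex.I * ((n ^ (m + 1) * k : ℝ) : ℂ) =
        X + 2 * Real.pi * Complex.I * ((n * ((n ^ m * k : ℤ) : ℝ) : ℝ) : ℂ) := by
      push_cast
      ring
    rw [e, perZ hi _ X hX]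
    have e2 : 2 * Real.pi * Complex.I * ((n ^ m * k : ℤ) : ℂ) =
        2 * Real.pi * Complex.I * ((n ^ m * k : ℝ) : ℂ) := by
      push_cast
      ring
    rw [e2]
    exact ih k _ (hi.maps X hX)

theorem inv_it {Γ : ℂ → ℂ} {C : ℝ} (hi : Inv n g c₀ Γ C) (m : ℕ) : ∀ X ∈ HP,
    (fun z : ℂ => g.eval z)^[m] (ch c₀ (Γ^[m] X)) = ch c₀ X := by
  induction m with
  | zero => intro X _; rfl
  | succ m ih =>
    intro X hX
    rw [Function.iterate_succ_apply, Function.iterate_succ_apply']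
    have h1 := hi.inv _ (maps_it hi m X hX)
    show (fun z : ℂ => g.eval z)^[m] (g.eval (ch c₀ (Γ (Γ^[m] X)))) = ch c₀ X
    rw [h1]
    exact ih X hX

theorem ch_norm (h1 : c₀ < 1) (X : ℂ) : ‖ch c₀ X - c₀‖ = (1 - c₀) * Real.exp X.re := by
  unfold ch
  rw [add_sub_cancel_left, norm_mul, Complex.norm_exp]
  congr 1
  have : (1 - (c₀ : ℂ)) = ((1 - c₀ : ℝ) : ℂ) := by push_cast; rfl
  rw [this, Complex.norm_real, Real.norm_of_nonneg (by linarith)]

theorem L_eq (h : Good n g c₀ c) {Γ : ℂ → ℂ} {C : ℝ} (hi : Inv n g c₀ Γ C) (m : ℕ) :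
    L g c₀ m = ch c₀ '' (Γ^[m] '' {X | X.re = 0}) := by
  apply Subset.antisymm
  · induction m with
    | zero =>
      intro x hx
      have hx' : ‖x - c₀‖ = 1 - c₀ := hx
      refine ⟨(Complex.arg (x - c₀) : ℂ) * Complex.I,
        ⟨(Complex.arg (x - c₀) : ℂ) * Complex.I, ?_, rfl⟩, ?_⟩
      · show ((Complex.arg (x - c₀) : ℂ) * Complex.I).re = 0
        simp
      · have h2 := Complex.norm_mul_exp_arg_mul_I (x - c₀)
        rw [hx'] at h2
        unfold ch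
        have : (1 - (c₀ : ℂ)) = ((1 - c₀ : ℝ) : ℂ) := by push_cast; rfl
        rw [this, h2]
        ring
    | succ m ih =>
      intro x hx
      have hx' : g.eval x ∈ L g c₀ m := hx
      obtain ⟨_, ⟨X, hX, rfl⟩, hXx⟩ := ih hx'
      have hXH : X ∈ HP := le_of_eq hX.symm
      obtain ⟨k, hk⟩ := hi.all _ (maps_it hi m X hXH) x hXx.symm
      have h2 := per_it hi m k X hXH
      rw [← h2] at hk
      refine ⟨_, ⟨X + 2 * Real.pi * Complex.I * (n ^ m * k : ℝ), ?_, rfl⟩, ?_⟩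
      · show (X + 2 * Real.pi * Complex.I * (n ^ m * k : ℝ)).re = 0
        have h0 : (2 * Real.pi * Complex.I * ((n ^ m * k : ℝ) : ℂ) : ℂ).re = 0 := by
          rw [Complex.re_mul_ofReal]
          simp
        rw [Complex.add_re, h0, add_zero]
        exact hX
      · rw [Function.iterate_succ_apply']
        exact hk.symm
  · rintro _ ⟨_, ⟨X, hX, rfl⟩, rfl⟩
    have hXH : X ∈ HP := le_of_eq hX.symm
    show ‖(fun z : ℂ => g.eval z)^[m] (ch c₀ (Γ^[m] X)) - c₀‖ = 1 - c₀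
    rw [inv_it hi m X hXH, ch_norm h.c1]
    have hX' : X.re = 0 := hX
    rw [hX', Real.exp_zero, mul_one]

theorem it_contOn {Γ : ℂ → ℂ} {C : ℝ} (hi : Inv n g c₀ Γ C) (m : ℕ) :
    ContinuousOn (Γ^[m]) HP := by
  induction m with
  | zero => exact continuousOn_id
  | succ m ih =>
    rw [Function.iterate_succ]
    exact ih.comp hi.cont (fun X hX => hi.maps X hX)

theorem L_pre (h : Good n g c₀ c) {Γ : ℂ → ℂ} {C : ℝ} (hi : Inv n g c₀ Γ C) (m : ℕ) :
    IsPreconnected (L g c₀ m) := by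
  rw [L_eq h hi m]
  have h1 : IsPreconnected {X : ℂ | X.re = 0} := by
    have h2 : Convex ℝ {X : ℂ | X.re = 0} := by
      have := (convex_singleton (𝕜 := ℝ) (0 : ℝ)).is_linear_preimage
        (f := fun z : ℂ => z.re) ⟨Complex.add_re, fun a z => by simp⟩
      exact this
    exact h2.isPreconnected
  have h2 : IsPreconnected (Γ^[m] '' {X | X.re = 0}) :=
    h1.image _ ((it_contOn hi m).mono fun X hX => le_of_eq (Eq.symm hX))
  refine h2.image _ (Continuous.continuousOn ?_)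
  unfold ch
  fun_prop

/-! ## local structure at the frontier -/

theorem der_it (h : Good n g c₀ c) (m : ℕ) {p : ℂ} (hp : p ∈ L g c₀ m) :
    ∃ G' : ℂ, G' ≠ 0 ∧ HasStrictDerivAt ((fun z : ℂ => g.eval z)^[m]) G' p := by
  have hne : ∀ i < m, g.derivative.eval ((fun z : ℂ => g.eval z)^[i] p) ≠ 0 := by
    intro i hi h0
    have h1 := steps' h hi.le (h.crit _ h0).2.1
    have h2 : ‖(fun z : ℂ => g.eval z)^[m] p - c₀‖ = 1 - c₀ := hp
    rw [h2] at h1
    exact lt_irrefl _ h1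
  clear hp
  induction m with
  | zero => exact ⟨1, one_ne_zero, hasStrictDerivAt_id p⟩
  | succ m ih =>
    obtain ⟨G', hG0, hG⟩ := ih fun i hi => hne i (by omega)
    have h1 := g.hasStrictDerivAt ((fun z : ℂ => g.eval z)^[m] p)
    refine ⟨_, mul_ne_zero (hne m (by omega)) hG0, ?_⟩
    rw [Function.iterate_succ']
    exact h1.comp p hG

theorem loc (h : Good n g c₀ c) (m : ℕ) {p : ℂ} (hp : p ∈ L g c₀ m) :
    ∃ N ∈ 𝓝 p, IsPreconnected (N ∩ V g c₀ m) := by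
  obtain ⟨G', hG0, hG⟩ := der_it h m hp
  obtain ⟨e, he⟩ : ∃ e : OpenPartialHomeomorph ℂ ℂ,
      e = (hG.hasStrictFDerivAt_equiv hG0).toOpenPartialHomeomorph _ := ⟨_, rfl⟩
  have he1 : ∀ x, e x = (fun z : ℂ => g.eval z)^[m] x := by
    intro x
    rw [he, HasStrictFDerivAt.toOpenPartialHomeomorph_coe]
  have he2 : p ∈ e.source := by
    rw [he]
    exact HasStrictFDerivAt.mem_toOpenPartialHomeomorph_source _
  have he3 : e p ∈ e.target := e.map_source he2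
  obtain ⟨ρ, hρ, hρt⟩ := Metric.isOpen_iff.1 e.open_target _ he3
  refine ⟨e.source ∩ e ⁻¹' ball (e p) ρ, ?_, ?_⟩
  · exact (e.isOpen_inter_preimage isOpen_ball).mem_nhds ⟨he2, mem_ball_self hρ⟩
  · have e1 : (e.source ∩ e ⁻¹' ball (e p) ρ) ∩ V g c₀ m =
        e.symm '' (ball (e p) ρ ∩ ball (c₀ : ℂ) (1 - c₀)) := by
      ext x
      constructor
      · rintro ⟨⟨h1, h2⟩, h3⟩
        refine ⟨e x, ⟨h2, ?_⟩, e.left_inv h1⟩
        rw [mem_ball, dist_eq_norm, he1]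
        exact h3
      · rintro ⟨y, ⟨h1, h2⟩, rfl⟩
        have h3 := hρt h1
        have h4 := e.right_inv h3
        refine ⟨⟨e.map_target h3, ?_⟩, ?_⟩
        · show e (e.symm y) ∈ ball (e p) ρ
          rw [h4]
          exact h1
        · show ‖(fun z : ℂ => g.eval z)^[m] (e.symm y) - c₀‖ < 1 - c₀
          rw [← he1, h4, ← dist_eq_norm]
          exact h2
    rw [e1]
    refine (((convex_ball _ _).inter (convex_ball _ _)).isPreconnected).image _ ?_
    exact e.continuousOn_symm.mono fun y hy => hρt hy.1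

theorem L_cl (h : Good n g c₀ c) (m : ℕ) {p : ℂ} (hp : p ∈ L g c₀ m) :
    p ∈ closure (V g c₀ m) := by
  obtain ⟨G', hG0, hG⟩ := der_it h m hp
  have h1 := hG.map_nhds_eq hG0
  have hp' : ‖(fun z : ℂ => g.eval z)^[m] p - c₀‖ = 1 - c₀ := hp
  have hR : (1 - c₀ : ℝ) ≠ 0 := by
    have := h.c1
    intro h0
    linarith
  have h2 : (fun z : ℂ => g.eval z)^[m] p ∈ closure (ball (c₀ : ℂ) (1 - c₀)) := by
    rw [closure_ball _ hR, mem_closedBall, dist_eq_norm]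
    exact hp'.le
  rw [mem_closure_iff_frequently] at h2 ⊢
  rw [← h1] at h2
  have h3 : ∃ᶠ x in 𝓝 p, (fun z : ℂ => g.eval z)^[m] x ∈ ball (c₀ : ℂ) (1 - c₀) := h2
  refine h3.mono fun x hx => ?_
  rw [mem_ball, dist_eq_norm] at hx
  exact hx

theorem cl_V (g : ℂ[X]) (c₀ : ℝ) (m : ℕ) {x : ℂ} (hx : x ∈ closure (V g c₀ m)) :
    x ∈ V g c₀ m ∨ x ∈ L g c₀ m := by
  have h1 : V g c₀ m ⊆ {z | ‖(fun z : ℂ => g.eval z)^[m] z - c₀‖ ≤ 1 - c₀} := by
    intro z hz
    have hz' : ‖(fun z : ℂ => g.eval z)^[m] z - c₀‖ < 1 - c₀ := hz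
    exact hz'.le
  have h2 : x ∈ {z | ‖(fun z : ℂ => g.eval z)^[m] z - c₀‖ ≤ 1 - c₀} :=
    closure_minimal h1 (isClosed_le (nf_cont g c₀ m) continuous_const) hx
  have h3 : ‖(fun z : ℂ => g.eval z)^[m] x - c₀‖ ≤ 1 - c₀ := h2
  exact lt_or_eq_of_le h3

theorem key (g : ℂ[X]) (c₀ : ℝ) (m : ℕ) {u v : Set ℂ} (hu : IsOpen u) (hv : IsOpen v)
    (huv : V g c₀ m ⊆ u ∪ v) (hnu : (V g c₀ m ∩ u).Nonempty) (hnv : (V g c₀ m ∩ v).Nonempty)
    (hd : ∀ x ∈ V g c₀ m, x ∈ u → x ∈ v → False)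
    (hL : ∀ p ∈ L g c₀ m, p ∉ closure (V g c₀ m ∩ u)) : False := by
  have hcl : IsClosed (V g c₀ m ∩ u) := by
    apply isClosed_of_closure_subset
    intro x hx
    rcases cl_V g c₀ m (closure_mono inter_subset_left hx) with h1 | h1
    · rcases huv h1 with h2 | h2
      · exact ⟨h1, h2⟩
      · exfalso
        obtain ⟨y, hy1, hy2⟩ := mem_closure_iff.1 hx (V g c₀ m ∩ v) ((V_open g c₀ m).inter hv)
          ⟨h1, h2⟩
        exact hd y hy2.1 hy2.2 hy1.2
    · exact absurd hx (hL x h1)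
  rcases isClopen_iff.1 ⟨hcl, (V_open g c₀ m).inter hu⟩ with h1 | h1
  · rw [h1] at hnu
    exact Set.not_nonempty_empty hnu
  · obtain ⟨y, hy1, hy2⟩ := hnv
    have hy3 : y ∈ V g c₀ m ∩ u := by rw [h1]; exact mem_univ y
    exact hd y hy1 hy3.2 hy2

theorem V_pre (h : Good n g c₀ c) (m : ℕ) (hL : IsPreconnected (L g c₀ m)) :
    IsPreconnected (V g c₀ m) := by
  intro u v hu hv huv hnu hnv
  by_contra hne
  have hd : ∀ x ∈ V g c₀ m, x ∈ u → x ∈ v → False := fun x h1 h2 h3 => hne ⟨x, h1, h2, h3⟩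
  have hcl : ∀ p ∈ L g c₀ m, p ∈ closure (V g c₀ m ∩ u) → p ∈ closure (V g c₀ m ∩ v) →
      False := by
    intro p hp h1 h2
    obtain ⟨N, hN, hpre⟩ := loc h m hp
    obtain ⟨x1, hx1⟩ := mem_closure_iff_nhds.1 h1 N hN
    obtain ⟨x2, hx2⟩ := mem_closure_iff_nhds.1 h2 N hN
    obtain ⟨x, hx⟩ := hpre u v hu hv (fun x hx => huv hx.2) ⟨x1, ⟨hx1.1, hx1.2.1⟩, hx1.2.2⟩
      ⟨x2, ⟨hx2.1, hx2.2.1⟩, hx2.2.2⟩
    exact hd x hx.1.2 hx.2.1 hx.2.2
  have hcov : L g c₀ m ⊆ closure (V g c₀ m ∩ u) ∪ closure (V g c₀ m ∩ v) := by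
    intro p hp
    rw [← closure_union, ← inter_union_distrib_left, inter_eq_left.2 huv]
    exact L_cl h m hp
  by_cases h1 : (L g c₀ m ∩ closure (V g c₀ m ∩ u)).Nonempty
  · by_cases h2 : (L g c₀ m ∩ closure (V g c₀ m ∩ v)).Nonempty
    · obtain ⟨p, hp, hp1, hp2⟩ := isPreconnected_closed_iff.1 hL _ _ isClosed_closure
        isClosed_closure hcov h1 h2
      exact hcl p hp hp1 hp2
    · exact key g c₀ m hv hu (by rw [union_comm]; exact huv) hnv hnu
        (fun x a b d => hd x a d b) (fun p hp hp' => h2 ⟨p, hp, hp'⟩)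
  · exact key g c₀ m hu hv huv hnu hnv hd (fun p hp hp' => h1 ⟨p, hp, hp'⟩)

/-! ## convergence -/

theorem inv_disc (h : Good n g c₀ c) {y : ℂ} (hy : ‖y‖ ≤ 1) : ‖g.eval y‖ ≤ 1 := by
  by_cases h1 : y = 1
  · rw [h1, h.fix, norm_one]
  · exact (ball_le h.c0 (h.disc y hy h1)).le

theorem strict (h : Good n g c₀ c) {y : ℂ} (hy : ‖y‖ ≤ 1) (hy1 : y ≠ 1) :
    ‖g.eval (g.eval y) - 1‖ < ‖g.eval y - 1‖ := by
  have hw := ball_le h.c0 (h.disc y hy hy1)
  obtain ⟨w, hwe⟩ : ∃ w : ℂ, w = g.eval y := ⟨_, rfl⟩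
  rw [← hwe] at hw ⊢
  have hw1 : w ≠ 1 := by
    intro h0
    rw [h0, norm_one] at hw
    exact lt_irrefl _ hw
  have hdvd : (X - C 1 : ℂ[X]) ∣ g - C 1 := by
    rw [dvd_iff_isRoot, IsRoot.def, eval_sub, h.fix, eval_C, sub_self]
  obtain ⟨F, hF⟩ := hdvd
  have hFe : ∀ z : ℂ, g.eval z - 1 = (z - 1) * F.eval z := by
    intro z
    have := congrArg (fun q : ℂ[X] => q.eval z) hF
    simpa using this
  have hF1 : F.eval 1 = 1 := by
    have h1 := congrArg (fun q : ℂ[X] => q.derivative.eval 1) hF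
    simp at h1
    rw [← h1]
    exact h.der
  have hFle : ∀ z : ℂ, ‖z‖ ≤ 1 → ‖F.eval z‖ ≤ 1 := by
    intro z hz
    by_cases hz1 : z = 1
    · rw [hz1, hF1, norm_one]
    · have h1 := h.lip z hz
      rw [hFe, norm_mul] at h1
      have h2 : 0 < ‖z - 1‖ := norm_pos_iff.2 (sub_ne_zero.2 hz1)
      exact le_of_mul_le_mul_left (by linarith) h2
  rw [hFe w, norm_mul]
  have h2 : 0 < ‖w - 1‖ := norm_pos_iff.2 (sub_ne_zero.2 hw1)
  refine mul_lt_of_lt_one_right h2 ?_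
  by_contra hcon
  push Not at hcon
  have hmax : IsMaxOn (norm ∘ fun z : ℂ => F.eval z) (ball (0 : ℂ) 1) w := by
    intro z hz
    rw [mem_ball_zero_iff] at hz
    exact (hFle z hz.le).trans hcon
  have hcon2 := Complex.eqOn_closure_of_isPreconnected_of_isMaxOn_norm
    (convex_ball (0 : ℂ) 1).isPreconnected isOpen_ball
    (F.differentiable.diffContOnCl) (mem_ball_zero_iff.2 hw) hmax
  rw [closure_ball (0 : ℂ) one_ne_zero] at hcon2
  have h3 : F.eval w = 1 := by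
    have := hcon2 (show (1 : ℂ) ∈ closedBall (0 : ℂ) 1 by simp)
    rw [← hF1]
    exact this.symm
  have h4 : F = 1 := by
    apply Polynomial.eq_of_infinite_eval_eq
    refine Set.Infinite.mono ?_ (infinite_of_mem_nhds (0 : ℂ) (ball_mem_nhds (0 : ℂ) one_pos))
    intro z hz
    have h5 : F.eval z = F.eval w := hcon2 (ball_subset_closedBall hz)
    show F.eval z = (1 : ℂ[X]).eval z
    rw [h5, h3, eval_one]
  rw [h4, mul_one] at hF
  have h5 : g = X := by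
    have := sub_left_injective hF
    exact this
  have h6 := h.deg
  rw [h5, natDegree_X] at h6
  have := h.n3
  omega

theorem conv (h : Good n g c₀ c) {z : ℂ} (hz : ‖z‖ ≤ 1) :
    Tendsto (fun m => (fun z : ℂ => g.eval z)^[m] z) atTop (𝓝 1) := by
  obtain ⟨f, hf⟩ : ∃ f : ℂ → ℂ, f = fun z : ℂ => g.eval z := ⟨_, rfl⟩
  have hfe : ∀ y, f y = g.eval y := fun y => by rw [hf]
  rw [← hf]
  have hfc : Continuous f := by rw [hf]; exact g.continuous
  have hall : ∀ m, ‖f^[m] z‖ ≤ 1 := by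
    intro m
    induction m with
    | zero => exact hz
    | succ m ih =>
      rw [Function.iterate_succ_apply', hfe]
      exact inv_disc h ih
  have hanti : Antitone fun m => ‖f^[m] z - 1‖ := by
    refine antitone_nat_of_succ_le fun m => ?_
    rw [Function.iterate_succ_apply', hfe]
    exact h.lip _ (hall m)
  rw [Metric.tendsto_atTop]
  intro ε hε
  by_contra hcon
  push Not at hcon
  have hge : ∀ m, ε ≤ ‖f^[m] z - 1‖ := by
    intro m
    obtain ⟨k, hk, hd⟩ := hcon m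
    rw [dist_eq_norm] at hd
    exact hd.trans (hanti hk)
  have hK : IsCompact (closedBall (0 : ℂ) 1 ∩ {y : ℂ | ε ≤ ‖y - 1‖}) :=
    (isCompact_closedBall _ _).inter_right (isClosed_le continuous_const (by fun_prop))
  have hKm : ∀ m, f^[m] z ∈ closedBall (0 : ℂ) 1 ∩ {y : ℂ | ε ≤ ‖y - 1‖} := fun m =>
    ⟨mem_closedBall_zero_iff.2 (hall m), hge m⟩
  obtain ⟨y₀, hy₀, hmin⟩ := hK.exists_isMinOn ⟨z, hKm 0⟩
    (f := fun y => ‖f y - 1‖ - ‖f (f y) - 1‖) (Continuous.continuousOn (by fun_prop))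
  obtain ⟨δ, hδ⟩ : ∃ δ : ℝ, δ = ‖f y₀ - 1‖ - ‖f (f y₀) - 1‖ := ⟨_, rfl⟩
  have hδ0 : 0 < δ := by
    rw [hδ, hfe, hfe]
    have h1 : y₀ ≠ 1 := by
      intro h0
      have h2 : ε ≤ ‖y₀ - 1‖ := hy₀.2
      rw [h0, sub_self, norm_zero] at h2
      linarith
    have := strict h (mem_closedBall_zero_iff.1 hy₀.1) h1
    linarith
  have hdec : ∀ m : ℕ, ‖f^[m + 1] z - 1‖ ≤ ‖f z - 1‖ - m * δ := by
    intro m
    induction m with
    | zero => simp
    | succ m ih =>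
      have h1 : δ ≤ ‖f (f^[m] z) - 1‖ - ‖f (f (f^[m] z)) - 1‖ := by
        rw [hδ]
        exact hmin (hKm m)
      rw [Function.iterate_succ_apply'] at ih
      rw [Function.iterate_succ_apply', Function.iterate_succ_apply']
      push_cast
      linarith
  obtain ⟨m, hm⟩ := exists_nat_gt (‖f z - 1‖ / δ)
  rw [div_lt_iff₀ hδ0] at hm
  have h1 := hdec m
  have h2 := norm_nonneg (f^[m + 1] z - 1)
  linarith

theorem eval_conj (h : Good n g c₀ c) (y : ℂ) : g.eval (conj y) = conj (g.eval y) := by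
  have h1 : g.map (starRingEnd ℂ) = g := by
    ext i
    rw [coeff_map]
    exact Complex.conj_eq_iff_im.2 (h.real i)
  have h2 := eval₂_at_apply (p := g) (starRingEnd ℂ) y
  rw [← h2, ← eval_map, h1]

theorem it_conj (h : Good n g c₀ c) (m : ℕ) (y : ℂ) :
    (fun z : ℂ => g.eval z)^[m] (conj y) = conj ((fun z : ℂ => g.eval z)^[m] y) := by
  induction m with
  | zero => rfl
  | succ m ih =>
    rw [Function.iterate_succ_apply', Function.iterate_succ_apply', ih]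
    exact eval_conj h _

theorem real_it (h : Good n g c₀ c) (m : ℕ) {y : ℝ} (hy : 1 ≤ y) :
    ∃ t : ℝ, 1 ≤ t ∧ (fun z : ℂ => g.eval z)^[m] (y : ℂ) = t := by
  induction m with
  | zero => exact ⟨y, hy, rfl⟩
  | succ m ih =>
    obtain ⟨t, ht, hte⟩ := ih
    rw [Function.iterate_succ_apply', hte]
    have h1 : (g.eval (t : ℂ)) = (((g.eval (t : ℂ)).re : ℝ) : ℂ) := by
      have h2 := eval_conj h (t : ℂ)
      rw [Complex.conj_ofReal] at h2
      exact (Complex.conj_eq_iff_re.1 h2.symm).symm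
    refine ⟨(g.eval (t : ℂ)).re, ?_, h1⟩
    rcases eq_or_lt_of_le ht with h2 | h2
    · rw [← h2, Complex.ofReal_one, h.fix, Complex.one_re]
    · exact (ht.trans (h.esc t h2).le)

end BASNaux

open BASNaux in
theorem t_BASN (h1 : S_CH1) : S_BASN := by
  intro n g c₀ c h
  obtain ⟨Γ, C, hi⟩ := h1 n g c₀ c h
  have hR : 0 < 1 - c₀ := by
    have := h.c1
    linarith
  have hself : ∀ m : ℕ, (c₀ : ℂ) ∈ V g c₀ m := by
    intro m
    refine steps h ?_ m
    rw [sub_self, norm_zero]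
    exact hR
  have hreal : ∀ y : ℝ, 1 ≤ y → (y : ℂ) ∉ Bas g c₀ := by
    rintro y hy ⟨m, hm⟩
    obtain ⟨t, ht, hte⟩ := real_it h m hy
    rw [hte] at hm
    have h2 : ((t : ℂ) - c₀) = ((t - c₀ : ℝ) : ℂ) := by push_cast; rfl
    rw [h2, Complex.norm_real] at hm
    have h3 := le_abs_self (t - c₀)
    rw [← Real.norm_eq_abs] at h3
    linarith
  refine ⟨?_, ?_, ?_, ?_, ?_, ?_, hreal, ?_, ?_⟩
  · rw [Bas_eq]
    exact isOpen_iUnion fun m => V_open g c₀ m
  · rw [Bas_eq]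
    refine isPreconnected_iUnion ⟨(c₀ : ℂ), mem_iInter.2 hself⟩ fun m => ?_
    exact V_pre h m (L_pre h hi m)
  · intro y
    constructor
    · rintro ⟨m, hm⟩
      exact ⟨m + 1, hm⟩
    · rintro ⟨m, hm⟩
      exact ⟨m, steps' (i := m) (m := m + 1) h (by omega) hm⟩
  · intro y hy
    exact ⟨0, (h.crit y hy).2.1⟩
  · intro y hy hy1
    exact ⟨1, h.disc y hy hy1⟩
  · have := hreal 1 le_rfl
    rwa [Complex.ofReal_one] at this
  · rintro y ⟨m, hm⟩
    refine ⟨m, ?_⟩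
    rw [it_conj h m y]
    have h2 : conj ((fun z : ℂ => g.eval z)^[m] y) - (c₀ : ℂ) =
        conj ((fun z : ℂ => g.eval z)^[m] y - c₀) := by
      rw [map_sub, Complex.conj_ofReal]
    rw [h2, RCLike.norm_conj]
    exact hm
  · rintro y ⟨m, hm⟩
    have h2 := conv h (ball_le h.c0 hm).le
    rw [← tendsto_add_atTop_iff_nat m]
    refine h2.congr fun k => ?_
    rw [← Function.iterate_add_apply]

end Pool.Agent.H212.ND
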