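import Pool.Agent.H212.ND.StmA

/-! # Project ND, job BEA: the normalised `β` -/

set_option autoImplicit false

open Filter Metric Set Topology Polynomial
open scoped ComplexConjugate

namespace Pool.Agent.H212.ND

open Pool.Agent.H212.MB

namespace BEAaux

/-- `κ W - W → l` at the lower end of the cylinder -/
def LowLim (κ : ℂ → ℂ) (l : ℂ) : Prop := ∀ ε : ℝ, 0 < ε → ∃ Y : ℝ, ∀ W : ℂ, W.im < -Y → ‖κ W - W - l‖ ≤ ε

lemma per_int (κ : ℂ → ℂ) (h : ∀ W, κ (W + 1) = κ W + 1) (W : ℂ) (m : ℤ) : κ (W + m) = κ W + m := by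
  induction m using Int.induction_on with
  | zero => simp
  | succ i hi =>
      have := h (W + (i : ℤ))
      push_cast at this hi ⊢
      rw [← add_assoc, this, hi, add_assoc]
  | pred i hi =>
      have := h (W + ((-(i : ℤ) - 1 : ℤ) : ℂ))
      push_cast at this hi ⊢
      have e : W + (-(i : ℂ) - 1) + 1 = W + -(i : ℂ) := by ring
      rw [e, hi] at this
      linear_combination -this

lemma per_symm (κ : ℂ ≃ₜ ℂ) (h : ∀ W, κ (W + 1) = κ W + 1) (W : ℂ) : κ.symm (W + 1) = κ.symm W + 1 := by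
  apply κ.injective
  rw [h, κ.apply_symm_apply, κ.apply_symm_apply]

/-- the preimages of low points are low -/
lemma low_symm (κ : ℂ ≃ₜ ℂ) (h : ∀ W, κ (W + 1) = κ W + 1) (l : ℂ) (hl : LowLim κ l) (Y : ℝ) :
    ∃ Y' : ℝ, ∀ W : ℂ, W.im < -Y' → (κ.symm W).im < -Y := by
  -- the imaginary parts on the line
  have hc : Continuous fun x : ℝ => (κ ((x : ℂ) - Y * Complex.I)).im := by fun_prop
  obtain ⟨M, hM⟩ := (isCompact_Icc (a := (0 : ℝ)) (b := 1)).exists_bound_of_continuousOn hc.continuousOn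
  have hline : ∀ x : ℝ, -M ≤ (κ ((x : ℂ) - Y * Complex.I)).im := by
    intro x
    have e : ((x : ℂ) - Y * Complex.I) = ((Int.fract x : ℝ) : ℂ) - Y * Complex.I + ((⌊x⌋ : ℤ) : ℂ) := by
      have : (x : ℂ) = ((Int.fract x : ℝ) : ℂ) + ((⌊x⌋ : ℤ) : ℂ) := by
        rw [← Complex.ofReal_intCast, ← Complex.ofReal_add, Int.fract_add_floor]
      rw [this]; ring
    rw [e, per_int κ h]
    have := hM (Int.fract x) ⟨Int.fract_nonneg x, (Int.fract_lt_one x).le⟩
    rw [Real.norm_eq_abs] at this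
    have h2 := (abs_le.mp this).1
    simpa using h2
  obtain ⟨Y₁, hY₁⟩ := hl 1 one_pos
  refine ⟨max (M + 1) 0, fun W hW => ?_⟩
  -- the half plane
  set H : Set ℂ := {W | W.im < -max (M + 1) 0} with hH
  have hconv : IsPreconnected H := by
    have : Convex ℝ H := by
      have := (convex_halfSpace_im_lt (-max (M + 1) 0))
      exact this
    exact this.isPreconnected
  by_contra hcon
  push Not at hcon
  -- a low point
  set t : ℝ := max (max Y₁ Y) (max (M + 1) 0 + ‖l‖ + 1) + 1 with ht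
  have ht1 : Y₁ < t := by
    have := le_max_left (max Y₁ Y) (max (M + 1) 0 + ‖l‖ + 1); have := le_max_left Y₁ Y; linarith
  have ht2 : Y < t := by
    have := le_max_left (max Y₁ Y) (max (M + 1) 0 + ‖l‖ + 1); have := le_max_right Y₁ Y; linarith
  have ht3 : max (M + 1) 0 + ‖l‖ + 1 < t := by
    have := le_max_right (max Y₁ Y) (max (M + 1) 0 + ‖l‖ + 1); linarith
  set W₀ : ℂ := -(t : ℂ) * Complex.I with hW₀
  have im0 : W₀.im = -t := by simp [hW₀]
  have h1 := hY₁ W₀ (by rw [im0]; linarith)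
  have h2 : (κ W₀).im ≤ -t + ‖l‖ + 1 := by
    have e1 : (κ W₀).im = (κ W₀ - W₀ - l).im + W₀.im + l.im := by simp only [Complex.sub_im]; ring
    have e2 := (Complex.abs_im_le_norm (κ W₀ - W₀ - l))
    have e3 := (Complex.abs_im_le_norm l)
    have e4 := le_abs_self (κ W₀ - W₀ - l).im
    have e5 := le_abs_self l.im
    rw [e1, im0]; linarith
  have hmem0 : κ W₀ ∈ H := by
    show (κ W₀).im < _
    linarith
  have hmemW : W ∈ H := hW
  have hcont : ContinuousOn (fun z => (κ.symm z).im) H := by fun_prop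
  have ivt := hconv.intermediate_value hmem0 hmemW hcont
  have hv : (-Y) ∈ Icc ((fun z => (κ.symm z).im) (κ W₀)) ((fun z => (κ.symm z).im) W) := by
    refine ⟨?_, hcon⟩
    simp only [κ.symm_apply_apply, im0]; linarith
  obtain ⟨Z, hZ, hZ2⟩ := ivt hv
  simp only at hZ2
  have hZ3 := hline (κ.symm Z).re
  have e : (((κ.symm Z).re : ℂ) - Y * Complex.I) = κ.symm Z := by
    apply Complex.ext <;> simp [hZ2]
  rw [e, κ.apply_symm_apply] at hZ3
  have hZ4 : Z.im < -max (M + 1) 0 := hZ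
  have := le_max_left (M + 1) 0
  linarith

lemma lim_symm (κ : ℂ ≃ₜ ℂ) (h : ∀ W, κ (W + 1) = κ W + 1) (l : ℂ) (hl : LowLim κ l) : LowLim κ.symm (-l) := by
  intro ε hε
  obtain ⟨Y, hY⟩ := hl ε hε
  obtain ⟨Y', hY'⟩ := low_symm κ h l hl Y
  refine ⟨Y', fun W hW => ?_⟩
  have := hY _ (hY' W hW)
  rw [κ.apply_symm_apply] at this
  rw [show κ.symm W - W - -l = -(W - κ.symm W - l) by ring, norm_neg]
  exact this

lemma diff_symm (κ : ℂ ≃ₜ ℂ) (h : ∀ W, κ (W + 1) = κ W + 1) (l : ℂ) (hl : LowLim κ l) (b : ℝ)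
    (hd : DifferentiableOn ℂ κ {W | W.im < b}) : ∃ Y : ℝ, DifferentiableOn ℂ κ.symm {W | W.im < -Y} := by
  obtain ⟨Y, hY⟩ := hl (1 / 2) (by norm_num)
  obtain ⟨Y', hY'⟩ := low_symm κ h l hl (max Y (-b) + 2)
  refine ⟨Y', fun W hW => ?_⟩
  set Z := κ.symm W with hZ
  have hZ1 : Z.im < -(max Y (-b) + 2) := hY' W hW
  have hYm := le_max_left Y (-b)
  have hbm := le_max_right Y (-b)
  have hopen : IsOpen {W : ℂ | W.im < b} := isOpen_lt Complex.continuous_im continuous_const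
  have himle : ∀ z ∈ closedBall Z 1, z.im < -(max Y (-b)) := by
    intro z hz
    have h1 : ‖z - Z‖ ≤ 1 := by simpa [dist_eq_norm] using hz
    have h2 := Complex.abs_im_le_norm (z - Z)
    have h3 := le_abs_self (z - Z).im
    have h4 : z.im = (z - Z).im + Z.im := by simp
    rw [h4]; linarith
  have hd1 : DifferentiableOn ℂ (fun z => κ z - z - l) (closedBall Z 1) := by
    have h1 : DifferentiableOn ℂ κ (closedBall Z 1) := hd.mono fun z hz => by
      have := himle z hz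
      show z.im < b
      linarith
    exact (h1.sub differentiableOn_id).sub (differentiableOn_const l)
  have hdc : DiffContOnCl ℂ (fun z => κ z - z - l) (ball Z 1) := by
    apply DifferentiableOn.diffContOnCl
    rw [closure_ball Z one_ne_zero]
    exact hd1
  have hder := Complex.norm_deriv_le_of_forall_mem_sphere_norm_le (C := 1 / 2) one_pos hdc (fun z hz => by
    exact hY z (by have := himle z (sphere_subset_closedBall hz); linarith))
  have hκd : DifferentiableAt ℂ κ Z := hd.differentiableAt (hopen.mem_nhds (by show Z.im < b; linarith))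
  have hderiv : deriv (fun z => κ z - z - l) Z = deriv κ Z - 1 := by
    have := ((hκd.hasDerivAt.sub (hasDerivAt_id Z)).sub_const l).deriv
    simpa using this
  have hne : deriv κ Z ≠ 0 := by
    intro h0
    rw [hderiv, h0] at hder
    norm_num at hder
  have := κ.toOpenPartialHomeomorph.hasDerivAt_symm (a := W) (f' := deriv κ Z) (by simp) hne
    (by simpa [hZ] using hκd.hasDerivAt)
  exact this.differentiableAt.differentiableWithinAt

lemma tendsto_phi {n : ℕ} {g : ℂ[X]} {c₀ : ℝ} {c : ℂ} {φ : ℂ → ℂ} (hg : Good n g c₀ c)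
    (hp : Pic n g c₀ φ) : Tendsto φ (cocompact ℂ) (cocompact ℂ) := by
  have ha : aa n g ≠ 0 := by
    unfold aa
    exact_mod_cast (Real.rpow_pos_of_pos hg.lead _).ne'
  have h1 := hp.bot.asym
  have h2 : Tendsto (fun z : ℂ => z / aa n g) (cocompact ℂ) (cocompact ℂ) := by
    have : Tendsto (Homeomorph.mulRight₀ (aa n g)⁻¹ (inv_ne_zero ha)) (cocompact ℂ) (cocompact ℂ) :=
      (Homeomorph.mulRight₀ (aa n g)⁻¹ (inv_ne_zero ha)).isClosedEmbedding.tendsto_cocompact
    simpa [div_eq_mul_inv] using this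
  rw [← Metric.cobounded_eq_cocompact, ← tendsto_norm_atTop_iff_cobounded] at h2 ⊢
  rw [← Metric.cobounded_eq_cocompact] at h1
  have h3 : Tendsto (fun z => ‖φ z - z / aa n g‖) (Bornology.cobounded ℂ) (𝓝 ‖bb n g‖) := h1.norm
  have h4 : ∀ᶠ z in Bornology.cobounded ℂ, ‖φ z - z / aa n g‖ ≤ ‖bb n g‖ + 1 :=
    h3.eventually_le_const (by linarith)
  refine tendsto_atTop.mpr fun M => ?_
  filter_upwards [h4, tendsto_atTop.mp h2 (M + ‖bb n g‖ + 1)] with z hz1 hz2
  have : ‖z / aa n g‖ ≤ ‖φ z‖ + ‖φ z - z / aa n g‖ := by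
    calc ‖z / aa n g‖ = ‖φ z - (φ z - z / aa n g)‖ := by congr 1; ring
      _ ≤ _ := norm_sub_le _ _
  linarith

lemma Nn_open {n : ℕ} {g : ℂ[X]} {c₀ : ℝ} {c : ℂ} {φ : ℂ → ℂ} (hg : Good n g c₀ c)
    (hp : Pic n g c₀ φ) {ρ : ℝ} (hρ : 1 < ρ) : IsOpen (Nn φ ρ) := by
  set A : Set ℂ := {z | ρ ≤ ‖z‖} with hA
  have hAc : IsClosed A := isClosed_le continuous_const continuous_norm
  have hcont : Continuous (A.domRestrict φ) := by
    rw [← continuousOn_iff_continuous_domRestrict]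
    exact hp.bot.cont.mono fun z hz => by
      show 1 ≤ ‖z‖
      exact hρ.le.trans hz
  have hprop : IsProperMap (A.domRestrict φ) := by
    rw [isProperMap_iff_tendsto_cocompact]
    refine ⟨hcont, ?_⟩
    exact (tendsto_phi hg hp).comp hAc.isClosedEmbedding_subtypeVal.tendsto_cocompact
  have hcl : IsClosed (φ '' A) := by
    have := hprop.isClosedMap.isClosed_range
    rwa [Set.range_domRestrict] at this
  have : Nn φ ρ = (φ '' A)ᶜ := by
    ext y
    simp only [Nn, mem_setOf_eq, mem_compl_iff, mem_image, hA, not_exists, not_and]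
    exact ⟨fun h z hz he => h z hz he.symm, fun h z hz he => h z hz he.symm⟩
  rw [this]
  exact hcl.isOpen_compl

lemma one_mem_Nn {n : ℕ} {g : ℂ[X]} {c₀ : ℝ} {φ : ℂ → ℂ} (hp : Pic n g c₀ φ) {ρ : ℝ} (hρ : 1 < ρ) :
    (1 : ℂ) ∈ Nn φ ρ := by
  intro z hz he
  rw [← hp.bot.one] at he
  have h1 : (1 : ℂ) ∈ CExt := by show 1 ≤ ‖(1 : ℂ)‖; simp
  have h2 : z ∈ CExt := hρ.le.trans hz
  have := hp.inj h1 h2 he
  rw [← this] at hz
  simp at hz
  linarith

/-- `κ` and `lm` have the same limits at the lower end -/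
lemma same_limit {g : ℂ[X]} {c₀ : ℝ} {Φ ψ : ℂ → ℂ} {R C S Y₁ : ℝ} {L κ lm : ℂ ≃ₜ ℂ}
    (hF : FC g c₀ Φ ψ R C) (hK : KL g c₀ Φ ψ S Y₁ L κ lm) {k l : ℂ} (hk : LowLim κ k) (hl : LowLim lm l) :
    k = l := by
  have key : ∀ ε : ℝ, 0 < ε → ‖k - l‖ ≤ 4 * ε := by
    intro ε hε
    obtain ⟨Y₀, hY₀⟩ := hF.low ε hε
    obtain ⟨Ya, hYa⟩ := hk ε hε
    obtain ⟨Yb, hYb⟩ := hl ε hε
    -- a low point
    set t : ℝ := |Y₀| + |Ya| + |Yb| + ‖l‖ + ε + 1 with ht
    set w : ℂ := -(t : ℂ) * Complex.I with hw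
    have imw : w.im = -t := by simp [hw]
    have a0 := le_abs_self Y₀; have a1 := le_abs_self Ya; have a2 := le_abs_self Yb
    have b0 := abs_nonneg Y₀; have b1 := abs_nonneg Ya; have b2 := abs_nonneg Yb
    have c0 := norm_nonneg l
    have h1 := hY₀ w (by rw [imw]; linarith)
    have h2 := hYb w (by rw [imw]; linarith)
    have im_le : ∀ x y : ℂ, ∀ r : ℝ, ‖x - y‖ ≤ r → x.im ≤ y.im + r := by
      intro x y r hr
      have h1 := (le_abs_self _).trans ((Complex.abs_im_le_norm (x - y)).trans hr)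
      rw [Complex.sub_im] at h1; linarith
    have h3 : (lm w).im ≤ w.im + (‖l‖ + ε) := by
      apply im_le
      calc ‖lm w - w‖ = ‖(lm w - w - l) + l‖ := by congr 1; ring
        _ ≤ ‖lm w - w - l‖ + ‖l‖ := norm_add_le _ _
        _ ≤ _ := by linarith
    have h4 := hY₀ (lm w) (by rw [imw] at h3; linarith)
    have h5 := im_le _ _ _ h1.2
    have h6 := hYa (Φ (ψ w)) (by rw [imw] at h5; linarith)
    have h7 : κ (Φ (ψ w)) = Φ (ψ (lm w)) := by
      rw [← (hK.semκ _ h1.1).2, hK.seml]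
    rw [h7] at h6
    have e : k - l = -(Φ (ψ (lm w)) - Φ (ψ w) - k) + (Φ (ψ (lm w)) - lm w) + (lm w - w - l) - (Φ (ψ w) - w) := by ring
    calc ‖k - l‖ = ‖-(Φ (ψ (lm w)) - Φ (ψ w) - k) + (Φ (ψ (lm w)) - lm w) + (lm w - w - l) - (Φ (ψ w) - w)‖ := by
          rw [← e]
      _ ≤ ‖-(Φ (ψ (lm w)) - Φ (ψ w) - k)‖ + ‖Φ (ψ (lm w)) - lm w‖ + ‖lm w - w - l‖ + ‖Φ (ψ w) - w‖ := by
          refine (norm_sub_le _ _).trans ?_
          refine add_le_add_left ((norm_add_le _ _).trans (add_le_add_left (norm_add_le _ _) _)) _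
      _ ≤ 4 * ε := by rw [norm_neg]; linarith [h4.2, h1.2]
  by_contra hne
  have hpos : 0 < ‖k - l‖ := norm_pos_iff.mpr (sub_ne_zero.mpr hne)
  have := key (‖k - l‖ / 8) (by positivity)
  linarith

/-- the map `β_S` -/
noncomputable def bS (κ lm : ℂ ≃ₜ ℂ) (S : ℝ) : ℂ ≃ₜ ℂ :=
  (κ.symm.trans (Homeomorph.addRight (-(Complex.I * S)))).trans lm

lemma bS_apply (κ lm : ℂ ≃ₜ ℂ) (S : ℝ) (W : ℂ) : bS κ lm S W = lm (κ.symm W - Complex.I * S) := by
  simp [bS, sub_eq_add_neg]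

lemma bS_per {κ lm : ℂ ≃ₜ ℂ} (S : ℝ) (hκ : ∀ W, κ (W + 1) = κ W + 1) (hl : ∀ W, lm (W + 1) = lm W + 1) (W : ℂ) :
    bS κ lm S (W + 1) = bS κ lm S W + 1 := by
  rw [bS_apply, bS_apply, per_symm κ hκ, ← hl]
  congr 1; ring

lemma bS_lim {κ lm : ℂ ≃ₜ ℂ} (S : ℝ) (hκ : ∀ W, κ (W + 1) = κ W + 1) {l : ℂ} (hk : LowLim κ l) (hl : LowLim lm l) :
    LowLim (bS κ lm S) (-(Complex.I * S)) := by
  intro ε hε
  have hs := lim_symm κ hκ l hk
  obtain ⟨Ya, hYa⟩ := hs (ε / 2) (by positivity)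
  obtain ⟨Yb, hYb⟩ := hl (ε / 2) (by positivity)
  refine ⟨|Ya| + |Yb| + ‖l‖ + ε + |S|, fun W hW => ?_⟩
  have a1 := le_abs_self Ya; have a2 := le_abs_self Yb
  have b1 := abs_nonneg Ya; have b2 := abs_nonneg Yb
  have c0 := norm_nonneg l
  have s1 := neg_abs_le S
  have s2 := abs_nonneg S
  have h1 := hYa W (by linarith)
  have im_le : ∀ x y : ℂ, ∀ r : ℝ, ‖x - y‖ ≤ r → x.im ≤ y.im + r := by
    intro x y r hr
    have h1 := (le_abs_self _).trans ((Complex.abs_im_le_norm (x - y)).trans hr)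
    rw [Complex.sub_im] at h1; linarith
  have h3 : (κ.symm W).im ≤ W.im + (‖l‖ + ε / 2) := by
    apply im_le
    calc ‖κ.symm W - W‖ = ‖(κ.symm W - W - -l) - l‖ := by congr 1; ring
      _ ≤ ‖κ.symm W - W - -l‖ + ‖l‖ := norm_sub_le _ _
      _ ≤ _ := by linarith
  have h4 : (κ.symm W - Complex.I * S).im = (κ.symm W).im - S := by simp
  have h5 := hYb (κ.symm W - Complex.I * S) (by rw [h4]; linarith)
  rw [bS_apply]
  have e : lm (κ.symm W - Complex.I * S) - W - -(Complex.I * S) =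
      (lm (κ.symm W - Complex.I * S) - (κ.symm W - Complex.I * S) - l) + (κ.symm W - W - -l) := by ring
  rw [e]
  exact (norm_add_le _ _).trans (by linarith)

lemma bS_diff {κ lm : ℂ ≃ₜ ℂ} (S : ℝ) (hκ : ∀ W, κ (W + 1) = κ W + 1) {l : ℂ} (hk : LowLim κ l)
    {b : ℝ} (hd : DifferentiableOn ℂ κ {W | W.im < b}) (hd' : ∃ Y : ℝ, DifferentiableOn ℂ lm {W | W.im < -Y}) :
    ∃ Y : ℝ, DifferentiableOn ℂ (bS κ lm S) {W | W.im < -Y} := by
  obtain ⟨Ya, hYa⟩ := diff_symm κ hκ l hk b hd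
  obtain ⟨Yb, hYb⟩ := hd'
  obtain ⟨Yc, hYc⟩ := low_symm κ hκ l hk (Yb + |S|)
  refine ⟨max Ya Yc, fun W hW => ?_⟩
  have hW' : W.im < -(max Ya Yc) := hW
  have m1 := le_max_left Ya Yc
  have m2 := le_max_right Ya Yc
  have o1 : IsOpen {W : ℂ | W.im < -Ya} := isOpen_lt Complex.continuous_im continuous_const
  have o2 : IsOpen {W : ℂ | W.im < -Yb} := isOpen_lt Complex.continuous_im continuous_const
  have h1 : DifferentiableAt ℂ κ.symm W := hYa.differentiableAt (o1.mem_nhds (by show W.im < _; linarith))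
  have h2 := hYc W (by linarith)
  have s1 := neg_abs_le S
  have h3 : DifferentiableAt ℂ lm (κ.symm W - Complex.I * S) := hYb.differentiableAt (o2.mem_nhds (by
    show (κ.symm W - Complex.I * S).im < _
    have h4 : (κ.symm W - Complex.I * S).im = (κ.symm W).im - S := by simp
    rw [h4]; linarith))
  have h5 : DifferentiableAt ℂ (fun W => lm (κ.symm W - Complex.I * S)) W :=
    h3.comp W (h1.sub_const _)
  have h6 : (bS κ lm S : ℂ → ℂ) = fun W => lm (κ.symm W - Complex.I * S) := funext (bS_apply κ lm S)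
  rw [h6]
  exact h5.differentiableWithinAt

end BEAaux

open BEAaux in
theorem t_BEA (h1 : S_END) (h2 : S_BES) (h3 : S_BEU) : S_BEA := by
  intro n g c₀ c φ Φ ψ R C ρ S₁ Y₁ K0 L κ lm hρ hg hp hF hall
  -- the limits
  have hlim : ∀ S, S₁ ≤ S → ∃ l : ℂ, LowLim (κ S) l ∧ LowLim (lm S) l := by
    intro S hS
    have hK := (hall S hS).2
    obtain ⟨k, hk⟩ := h1 (κ S) (S - Y₁) hK.holκ (κ S).injective.injOn (fun W _ => hK.perκ W)
    obtain ⟨Y, hY⟩ := hK.holl
    obtain ⟨l, hl⟩ := h1 (lm S) (-Y) hY (lm S).injective.injOn (fun W _ => hK.perl W)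
    have := same_limit hF hK hk hl
    subst this
    exact ⟨k, hk, hl⟩
  have hper : ∀ S, S₁ ≤ S → ∀ W, bS (κ S) (lm S) S (W + 1) = bS (κ S) (lm S) S W + 1 := fun S hS W =>
    bS_per S (hall S hS).2.perκ (hall S hS).2.perl W
  have hbl : ∀ S, S₁ ≤ S → LowLim (bS (κ S) (lm S) S) (-(Complex.I * S)) := by
    intro S hS
    obtain ⟨l, hk, hl⟩ := hlim S hS
    exact bS_lim S (hall S hS).2.perκ hk hl
  have hhol : ∀ S, S₁ ≤ S → DifferentiableOn ℂ (fun W => K0 (ψ (bS (κ S) (lm S) S W)))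
      {W | ψ (bS (κ S) (lm S) S W) ∈ Nn φ ρ} := by
    intro S hS
    have := h2 n g c₀ c φ Φ ψ R C ρ S Y₁ K0 (L S) (κ S) (lm S) hρ hg hp hF (hall S hS).1 (hall S hS).2
    simpa only [bS_apply] using this
  -- comparison
  have hcmp : ∀ S, S₁ ≤ S → ∀ W, bS (κ S) (lm S) S W = bS (κ S₁) (lm S₁) S₁ (W + (Complex.I * S₁ - Complex.I * S)) := by
    intro S hS
    obtain ⟨s, hs⟩ := h3 g c₀ Φ ψ R C (Nn φ ρ) K0 (bS (κ S₁) (lm S₁) S₁) (bS (κ S) (lm S) S) hF
      (Nn_open hg hp hρ) (one_mem_Nn hp hρ) (hper S₁ le_rfl) (hper S hS) (hhol S₁ le_rfl) (hhol S hS)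
    have hse : s = Complex.I * S₁ - Complex.I * S := by
      by_contra hne
      have hpos : 0 < ‖s - (Complex.I * S₁ - Complex.I * S)‖ := norm_pos_iff.mpr (sub_ne_zero.mpr hne)
      set ε := ‖s - (Complex.I * S₁ - Complex.I * S)‖ / 4 with hε
      obtain ⟨Ya, hYa⟩ := hbl S hS ε (by positivity)
      obtain ⟨Yb, hYb⟩ := hbl S₁ le_rfl ε (by positivity)
      set t : ℝ := |Ya| + |Yb| + |s.im| + 1 with ht
      set w : ℂ := -(t : ℂ) * Complex.I with hw
      have imw : w.im = -t := by simp [hw]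
      have a1 := le_abs_self Ya; have a2 := le_abs_self Yb; have a3 := le_abs_self s.im
      have b1 := abs_nonneg Ya; have b2 := abs_nonneg Yb; have b3 := abs_nonneg s.im
      have e1 := hYa w (by rw [imw]; linarith)
      have e2 := hYb (w + s) (by rw [Complex.add_im, imw]; linarith)
      rw [hs w] at e1
      have e3 : s - (Complex.I * S₁ - Complex.I * S) =
          (bS (κ S₁) (lm S₁) S₁ (w + s) - w - -(Complex.I * S)) -
            (bS (κ S₁) (lm S₁) S₁ (w + s) - (w + s) - -(Complex.I * S₁)) := by ring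
      have e4 : ‖s - (Complex.I * S₁ - Complex.I * S)‖ ≤ ε + ε := by
        rw [e3]; exact (norm_sub_le _ _).trans (add_le_add e1 e2)
      linarith
    subst hse
    exact hs
  refine ⟨(Homeomorph.addRight (Complex.I * S₁)).trans (bS (κ S₁) (lm S₁) S₁), ⟨?_, ?_, ?_, ?_⟩, ?_⟩
  · intro W
    simp only [Homeomorph.trans_apply, Homeomorph.coe_addRight]
    rw [← hper S₁ le_rfl]
    congr 1; ring
  · intro ε hε
    obtain ⟨Y, hY⟩ := hbl S₁ le_rfl ε hε
    refine ⟨Y + |S₁|, fun W hW => ?_⟩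
    have s1 := le_abs_self S₁
    have := hY (W + Complex.I * S₁) (by
      have : (W + Complex.I * S₁).im = W.im + S₁ := by simp
      rw [this]; linarith)
    simp only [Homeomorph.trans_apply, Homeomorph.coe_addRight]
    convert this using 2
    ring
  · obtain ⟨l, hk, hl⟩ := hlim S₁ le_rfl
    obtain ⟨Y, hY⟩ := bS_diff S₁ (hall S₁ le_rfl).2.perκ hk (hall S₁ le_rfl).2.holκ (hall S₁ le_rfl).2.holl
    refine ⟨Y + |S₁|, ?_⟩
    have hc : ((Homeomorph.addRight (Complex.I * (S₁ : ℂ))).trans (bS (κ S₁) (lm S₁) S₁) : ℂ → ℂ) =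
        (bS (κ S₁) (lm S₁) S₁) ∘ (fun W => W + Complex.I * S₁) := by
      funext W; simp
    rw [hc]
    refine hY.comp ((differentiable_id.add_const _).differentiableOn) fun W hW => ?_
    have hW' : W.im < -(Y + |S₁|) := hW
    have s1 := le_abs_self S₁
    show (W + Complex.I * S₁).im < -Y
    have : (W + Complex.I * S₁).im = W.im + S₁ := by simp
    rw [this]; linarith
  · have hc : (fun W => K0 (ψ (((Homeomorph.addRight (Complex.I * (S₁ : ℂ))).trans (bS (κ S₁) (lm S₁) S₁)) W))) =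
        (fun W => K0 (ψ (bS (κ S₁) (lm S₁) S₁ W))) ∘ (fun W => W + Complex.I * S₁) := by
      funext W; simp
    rw [hc]
    refine (hhol S₁ le_rfl).comp ((differentiable_id.add_const _).differentiableOn) fun W hW => ?_
    simpa using hW
  · intro S hS W
    have := hcmp S hS (κ S W)
    rw [bS_apply, (κ S).symm_apply_apply] at this
    rw [this]
    simp only [Homeomorph.trans_apply, Homeomorph.coe_addRight]
    congr 1; ring

end Pool.Agent.H212.ND
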