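import Pool.Agent.H212.ND.StmA

/-!
# Project ND, job BES: holomorphy of `K0 ∘ ψ ∘ β_S`
-/

set_option autoImplicit false

open Filter Metric Set Topology Polynomial
open scoped ComplexConjugate

namespace Pool.Agent.H212.ND

open Pool.Agent.H212.MB

namespace BESaux

theorem aa_ne {n : ℕ} {g : ℂ[X]} {c₀ : ℝ} {c : ℂ} (hG : Good n g c₀ c) : aa n g ≠ 0 := by
  unfold aa
  have h := Real.rpow_pos_of_pos hG.lead (1 / ((n : ℝ) - 1))
  exact_mod_cast h.ne'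

theorem Nn_open {n : ℕ} {g : ℂ[X]} {c₀ : ℝ} {c : ℂ} {φ : ℂ → ℂ} {ρ : ℝ} (hρ : 1 < ρ)
    (hG : Good n g c₀ c) (hB : Bot n g c₀ φ) : IsOpen (Nn φ ρ) := by
  rw [isOpen_iff_mem_nhds]
  intro y0 hy0
  have ha := aa_ne hG
  have ha' : 0 < ‖aa n g‖ := norm_pos_iff.2 ha
  set M : ℝ := ‖y0‖ + 1 with hM
  have ev1 : ∀ᶠ z in cocompact ℂ, ‖φ z - z / aa n g - bb n g‖ < 1 := by
    have h := hB.asym.eventually (ball_mem_nhds (bb n g) one_pos)
    filter_upwards [h] with z hz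
    rw [← dist_eq_norm]
    exact hz
  have ev2 : ∀ᶠ z in cocompact ℂ, (M + ‖bb n g‖ + 1) * ‖aa n g‖ < ‖z‖ :=
    (tendsto_norm_cocompact_atTop (E := ℂ)).eventually_gt_atTop _
  have ev : ∀ᶠ z in cocompact ℂ, M < ‖φ z‖ := by
    filter_upwards [ev1, ev2] with z h1 h2
    have h3 : M + ‖bb n g‖ + 1 < ‖z / aa n g‖ := by
      rw [norm_div, lt_div_iff₀ ha']
      exact h2
    have h4 : ‖z / aa n g‖ ≤ ‖φ z‖ + ‖φ z - z / aa n g - bb n g‖ + ‖bb n g‖ := by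
      have e : z / aa n g = φ z - (φ z - z / aa n g - bb n g) - bb n g := by ring
      calc ‖z / aa n g‖ = ‖φ z - (φ z - z / aa n g - bb n g) - bb n g‖ := by rw [← e]
        _ ≤ ‖φ z - (φ z - z / aa n g - bb n g)‖ + ‖bb n g‖ := norm_sub_le _ _
        _ ≤ ‖φ z‖ + ‖φ z - z / aa n g - bb n g‖ + ‖bb n g‖ :=
          add_le_add (norm_sub_le _ _) le_rfl
    linarith
  obtain ⟨K, hK, hKs⟩ := Filter.mem_cocompact.1 ev
  have hcl : IsClosed {z : ℂ | ρ ≤ ‖z‖} := isClosed_le continuous_const continuous_norm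
  have hc : IsCompact (φ '' (K ∩ {z : ℂ | ρ ≤ ‖z‖})) := by
    refine (hK.inter_right hcl).image_of_continuousOn (hB.cont.mono ?_)
    rintro z ⟨-, hz⟩
    have hz' : ρ ≤ ‖z‖ := hz
    show 1 ≤ ‖z‖
    linarith
  have hy0' : y0 ∈ (φ '' (K ∩ {z : ℂ | ρ ≤ ‖z‖}))ᶜ := by
    rintro ⟨z, ⟨-, hz⟩, hzy⟩
    exact hy0 z hz hzy.symm
  have hy0'' : y0 ∈ ball (0 : ℂ) M := by
    rw [mem_ball_zero_iff, hM]
    linarith
  filter_upwards [isOpen_ball.mem_nhds hy0'', hc.isClosed.isOpen_compl.mem_nhds hy0'] with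
    y h1 h2 z hz hy
  by_cases hzK : z ∈ K
  · exact h2 ⟨z, ⟨hzK, hz⟩, hy.symm⟩
  · have h3 : M < ‖φ z‖ := hKs hzK
    rw [mem_ball_zero_iff, hy] at h1
    linarith

/-- `Φ` is not locally constant. -/
theorem notconst {g : ℂ[X]} {c₀ : ℝ} {Φ ψ : ℂ → ℂ} {R C : ℝ} (ho : IsOpen (Bas g c₀))
    (hc : IsPreconnected (Bas g c₀)) (hi : ∀ y, g.eval y ∈ Bas g c₀ ↔ y ∈ Bas g c₀)
    (hF : FC g c₀ Φ ψ R C) {z₀ : ℂ} (hz₀ : z₀ ∈ Bas g c₀) : ¬ ∀ᶠ z in 𝓝 z₀, Φ z = Φ z₀ := by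
  intro h
  have h1 : AnalyticOnNhd ℂ Φ (Bas g c₀) := hF.dΦ.analyticOnNhd ho
  have h2 : EqOn Φ (fun _ => Φ z₀) (Bas g c₀) :=
    h1.eqOn_of_preconnected_of_eventuallyEq analyticOnNhd_const hc hz₀ h
  have h3 := hF.semΦ z₀ hz₀
  rw [h2 ((hi z₀).2 hz₀)] at h3
  simp at h3

end BESaux

open BESaux in
theorem t_BES : S_BES := by
  intro n g c₀ c φ Φ ψ R C ρ S Y₁ K0 L κ lm hρ hG hP hF hL hK
  have hNo : IsOpen (Nn φ ρ) := Nn_open hρ hG hP.bot
  set N : Set ℂ := Nn φ ρ with hN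
  set E : ℂ → ℂ := fun W => K0 (ψ (lm (κ.symm W - Complex.I * S))) with hE
  have hinner : Continuous fun W : ℂ => ψ (lm (κ.symm W - Complex.I * S)) :=
    hF.dψ.continuous.comp (lm.continuous.comp (κ.symm.continuous.sub continuous_const))
  have hEc : Continuous E := K0.continuous.comp hinner
  have hOo : IsOpen {W : ℂ | ψ (lm (κ.symm W - Complex.I * S)) ∈ N} := hNo.preimage hinner
  set O : Set ℂ := {W : ℂ | ψ (lm (κ.symm W - Complex.I * S)) ∈ N} with hO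
  -- the basin is contained in `N`
  have hBN : ∀ y ∈ Bas g c₀, y ∈ N := by
    intro y hy z hz hyz
    rw [← hP.bot.bas] at hy
    refine hy ⟨z, ?_, hyz.symm⟩
    show 1 ≤ ‖z‖
    linarith
  have hLN : ∀ y, L y ∈ N ↔ y ∈ N := by
    intro y
    by_cases hy : y ∈ Bas g c₀
    · exact ⟨fun _ => hBN y hy, fun _ => hBN _ (hK.semκ y hy).1⟩
    · rw [hL.fix y hy]
  -- `κ.symm`
  have hsym : ∀ z ∈ Bas g c₀, Φ (L.symm z) = κ.symm (Φ z) := by
    intro z hz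
    have h1 : L (L.symm z) = z := L.apply_symm_apply z
    have h2 : L.symm z ∈ Bas g c₀ := by
      by_contra hne
      have h3 := hL.fix _ hne
      rw [h1] at h3
      rw [← h3] at hne
      exact hne hz
    have h3 := (hK.semκ _ h2).2
    rw [h1] at h3
    rw [h3, κ.symm_apply_apply]
  have hEΦ : ∀ z ∈ Bas g c₀, K0 (L (ψ (Φ (L.symm z) - Complex.I * S))) = E (Φ z) := by
    intro z hz
    rw [hsym z hz, hK.seml]
  have hset : {z | z ∈ Bas g c₀ ∧ ψ (Φ (L.symm z) - Complex.I * S) ∈ Nn φ ρ} =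
      {z | z ∈ Bas g c₀ ∧ Φ z ∈ O} := by
    ext z
    constructor
    · rintro ⟨h1, h2⟩
      refine ⟨h1, ?_⟩
      show ψ (lm (κ.symm (Φ z) - Complex.I * S)) ∈ N
      rw [← hK.seml, hLN, ← hsym z h1]
      exact h2
    · rintro ⟨h1, h2⟩
      refine ⟨h1, ?_⟩
      have h3 : ψ (lm (κ.symm (Φ z) - Complex.I * S)) ∈ N := h2
      rw [← hK.seml, hLN, ← hsym z h1] at h3
      exact h3
  have hlav : DifferentiableOn ℂ (fun z => E (Φ z)) {z | z ∈ Bas g c₀ ∧ Φ z ∈ O} := by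
    have h := hL.lav
    rw [hset] at h
    exact h.congr fun z hz => (hEΦ z hz.1).symm
  have hZo : IsOpen {z | z ∈ Bas g c₀ ∧ Φ z ∈ O} :=
    hF.dΦ.continuousOn.isOpen_inter_preimage hP.opn hOo
  set Z : Set ℂ := {z | z ∈ Bas g c₀ ∧ Φ z ∈ O} with hZ
  have hΦa : AnalyticOnNhd ℂ Φ (Bas g c₀) := hF.dΦ.analyticOnNhd hP.opn
  -- the local inverse
  have hloc : ∀ z ∈ Z, deriv Φ z ≠ 0 → DifferentiableAt ℂ E (Φ z) := by
    intro z hz hd
    have h1 : HasStrictDerivAt Φ (deriv Φ z) z := (hΦa z hz.1).hasStrictDerivAt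
    have h2 := h1.hasStrictFDerivAt_equiv hd
    set σ := h2.localInverse Φ _ z with hσ
    have h3 : σ (Φ z) = z := h2.localInverse_apply_image
    have h4 : ∀ᶠ w in 𝓝 (Φ z), Φ (σ w) = w := h2.eventually_right_inverse
    have h5 : DifferentiableAt ℂ σ (Φ z) := h2.to_localInverse.hasFDerivAt.differentiableAt
    have h6 : DifferentiableAt ℂ (fun z => E (Φ z)) (σ (Φ z)) := by
      rw [h3]
      exact (hlav z hz).differentiableAt (hZo.mem_nhds hz)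
    have h7 : DifferentiableAt ℂ (fun w => E (Φ (σ w))) (Φ z) := h6.comp (Φ z) h5
    refine h7.congr_of_eventuallyEq ?_
    filter_upwards [h4] with w hw
    rw [hw]
  intro W₀ hW₀
  refine DifferentiableAt.differentiableWithinAt ?_
  obtain ⟨z₀, hz₀, hΦz₀⟩ := hF.surj W₀
  have hz₀Z : z₀ ∈ Z := ⟨hz₀, by rw [hΦz₀]; exact hW₀⟩
  have hnc := notconst hP.opn hP.conn hP.inv hF hz₀
  have hopen : 𝓝 (Φ z₀) ≤ map Φ (𝓝 z₀) :=
    ((hΦa z₀ hz₀).eventually_constant_or_nhds_le_map_nhds).resolve_left hnc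
  have hder : ∀ᶠ z in 𝓝[≠] z₀, deriv Φ z ≠ 0 := by
    refine ((hΦa.deriv z₀ hz₀).eventually_eq_zero_or_eventually_ne_zero).resolve_left ?_
    intro h
    apply hnc
    obtain ⟨r, hr, hball⟩ := Metric.eventually_nhds_iff_ball.1
      (h.and (hP.opn.mem_nhds hz₀))
    refine Metric.eventually_nhds_iff_ball.2 ⟨r, hr, fun z hz => ?_⟩
    have h1 : DifferentiableOn ℂ Φ (ball z₀ r) :=
      hF.dΦ.mono fun w hw => (hball w hw).2
    refine IsOpen.is_const_of_deriv_eq_zero isOpen_ball (convex_ball z₀ r).isPreconnected h1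
      (fun w hw => (hball w hw).1) hz (mem_ball_self hr)
  obtain ⟨r, hr, hball⟩ := Metric.eventually_nhds_iff_ball.1
    ((eventually_nhdsWithin_iff.1 hder).and (hZo.mem_nhds hz₀Z))
  have hV : Φ '' ball z₀ r ∈ 𝓝 W₀ := by
    rw [← hΦz₀]
    exact hopen (image_mem_map (ball_mem_nhds z₀ hr))
  have hmain : DifferentiableOn ℂ E (Φ '' ball z₀ r) := by
    refine (Complex.differentiableOn_compl_singleton_and_continuousAt_iff hV).1
      ⟨?_, hEc.continuousAt⟩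
    rintro W ⟨⟨z, hz, rfl⟩, hW⟩
    have hne : z ≠ z₀ := by
      rintro rfl
      exact hW hΦz₀
    exact (hloc z (hball z hz).2 ((hball z hz).1 hne)).differentiableWithinAt
  exact (hmain W₀ (mem_of_mem_nhds hV)).differentiableAt hV

end Pool.Agent.H212.ND
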