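import Pool.Agent.H212.ND.StmA
import Pool.Graph.R_seed8.Helper240.ZFM.ConvA

/-!
# Job BEU: uniqueness of the repelling coordinate up to translation (by helper284)
-/

set_option autoImplicit false

open Filter Metric Set Topology Polynomial
open scoped ComplexConjugate

namespace Pool.Agent.H212.ND

open Pool.Agent.H212.MB

namespace BEUaux

/-- an entire injective function with `χ 0 = 0` which tends to infinity is linear -/
theorem linear_of_proper {χ : ℂ → ℂ} (hd : Differentiable ℂ χ) (hi : Function.Injective χ)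
    (h0 : χ 0 = 0) (ht : Tendsto (fun z => ‖χ z‖) (cocompact ℂ) atTop) :
    ∃ c : ℂ, ∀ z, χ z = c * z := by
  have hder : deriv χ 0 ≠ 0 :=
    Pool.Agent.Helper405.Conv.deriv_ne_zero_of_injOn isOpen_univ hd.differentiableOn
      (hi.injOn) (mem_univ 0)
  have hds : Differentiable ℂ (dslope χ 0) := by
    have h1 : DifferentiableOn ℂ (dslope χ 0) univ :=
      (Complex.differentiableOn_dslope univ_mem).2 hd.differentiableOn
    exact differentiableOn_univ.1 h1
  have hval : ∀ z, z ≠ 0 → dslope χ 0 z = χ z / z := by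
    intro z hz
    rw [dslope_of_ne _ hz, slope_def_field, h0, sub_zero, sub_zero]
  have hne : ∀ z, dslope χ 0 z ≠ 0 := by
    intro z
    by_cases hz : z = 0
    · rw [hz, dslope_same]
      exact hder
    · rw [hval z hz]
      refine div_ne_zero (fun h => hz (hi ?_)) hz
      rw [h, h0]
  obtain ⟨k, hk⟩ : ∃ k : ℂ → ℂ, k = fun z => (dslope χ 0 z)⁻¹ := ⟨_, rfl⟩
  have hkd : Differentiable ℂ k := by
    rw [hk]
    exact hds.inv hne
  have hkne : ∀ z, k z ≠ 0 := by
    intro z
    rw [hk]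
    exact inv_ne_zero (hne z)
  -- growth
  have hbig : ∃ R : ℝ, 1 ≤ R ∧ ∀ z, R < ‖z‖ → 1 ≤ ‖χ z‖ := by
    have h1 : ∀ᶠ z in cocompact ℂ, 1 ≤ ‖χ z‖ := ht.eventually_ge_atTop 1
    obtain ⟨t, ht1, ht2⟩ := mem_cocompact.1 h1
    obtain ⟨R, hR⟩ := ht1.isBounded.exists_norm_le
    refine ⟨max R 1, le_max_right _ _, fun z hz => ht2 fun hzt => ?_⟩
    have h2 := hR z hzt
    have h3 := le_max_left R 1
    linarith
  obtain ⟨R, hR1, hR⟩ := hbig
  have hkb : ∀ z, R < ‖z‖ → ‖k z‖ ≤ ‖z‖ := by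
    intro z hz
    have hz0 : z ≠ 0 := by
      intro h
      rw [h, norm_zero] at hz
      linarith
    have h1 : k z = z / χ z := by
      rw [hk]
      show (dslope χ 0 z)⁻¹ = z / χ z
      rw [hval z hz0, inv_div]
    rw [h1, norm_div]
    exact div_le_self (norm_nonneg _) (hR z hz)
  have hds2 : Differentiable ℂ (dslope k 0) := by
    have h1 : DifferentiableOn ℂ (dslope k 0) univ :=
      (Complex.differentiableOn_dslope univ_mem).2 hkd.differentiableOn
    exact differentiableOn_univ.1 h1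
  have hbdd : Bornology.IsBounded (range (dslope k 0)) := by
    obtain ⟨M, hM⟩ := (isCompact_closedBall (0 : ℂ) R).exists_bound_of_continuousOn
      hds2.continuous.continuousOn
    rw [isBounded_iff_forall_norm_le]
    refine ⟨max M (1 + ‖k 0‖), ?_⟩
    rintro _ ⟨z, rfl⟩
    by_cases hz : ‖z‖ ≤ R
    · exact (hM z (by rwa [mem_closedBall_zero_iff])).trans (le_max_left _ _)
    · push Not at hz
      have hz0 : z ≠ 0 := by
        intro h
        rw [h, norm_zero] at hz
        linarith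
      have hzn : 0 < ‖z‖ := norm_pos_iff.2 hz0
      refine le_trans ?_ (le_max_right _ _)
      rw [dslope_of_ne _ hz0, slope_def_field, sub_zero, norm_div, div_le_iff₀ hzn]
      have h1 := norm_sub_le (k z) (k 0)
      have h2 := hkb z hz
      have h3 : ‖k 0‖ ≤ ‖k 0‖ * ‖z‖ := le_mul_of_one_le_right (norm_nonneg _) (by linarith)
      nlinarith
  obtain ⟨b, hb⟩ := hds2.exists_const_forall_eq_of_bounded hbdd
  have hkz : ∀ z, k z = k 0 + b * z := by
    intro z
    by_cases hz : z = 0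
    · rw [hz, mul_zero, add_zero]
    · have h1 := hb z
      rw [dslope_of_ne _ hz, slope_def_field, sub_zero, div_eq_iff hz] at h1
      rw [← h1]
      ring
  have hb0 : b = 0 := by
    by_contra hb0
    have h1 := hkz (-k 0 / b)
    rw [mul_div_cancel₀ _ hb0, add_neg_cancel] at h1
    exact hkne _ h1
  refine ⟨(k 0)⁻¹, fun z => ?_⟩
  by_cases hz : z = 0
  · rw [hz, h0, mul_zero]
  · have h1 : k z = k 0 := by
      rw [hkz z, hb0, zero_mul, add_zero]
    rw [← h1, hk]
    show χ z = ((dslope χ 0 z)⁻¹)⁻¹ * z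
    rw [inv_inv, hval z hz, div_mul_cancel₀ _ hz]

/-- a holomorphic homeomorphism of the plane is affine -/
theorem affine_of_homeo (χ : ℂ ≃ₜ ℂ) (hd : Differentiable ℂ χ) : ∃ c b : ℂ, ∀ z, χ z = c * z + b := by
  have ht : Tendsto (fun z => ‖χ z - χ 0‖) (cocompact ℂ) atTop := by
    have h1 : Tendsto χ (cocompact ℂ) (cocompact ℂ) := χ.isClosedEmbedding.tendsto_cocompact
    have h2 : Tendsto (fun z => ‖χ z‖) (cocompact ℂ) atTop :=
      tendsto_norm_cocompact_atTop.comp h1
    have h3 : Tendsto (fun z => ‖χ z‖ + -‖χ 0‖) (cocompact ℂ) atTop :=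
      tendsto_atTop_add_const_right _ _ h2
    refine tendsto_atTop_mono (fun z => ?_) h3
    have := norm_sub_norm_le (χ z) (χ 0)
    linarith
  obtain ⟨c, hc⟩ := linear_of_proper (χ := fun z => χ z - χ 0) (hd.sub_const _)
    (fun x y h => χ.injective (sub_left_injective h)) (sub_self _) ht
  exact ⟨c, χ 0, fun z => by rw [← hc z, sub_add_cancel]⟩

theorem per_nat {β : ℂ ≃ₜ ℂ} (h : ∀ W, β (W + 1) = β W + 1) (m : ℕ) :
    ∀ W, β (W + m) = β W + m := by
  induction m with
  | zero =>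
    intro W
    rw [Nat.cast_zero, add_zero, add_zero]
  | succ m ih =>
    intro W
    have h1 : W + ((m + 1 : ℕ) : ℂ) = (W + m) + 1 := by
      push_cast
      ring
    rw [h1, h, ih]
    push_cast
    ring

theorem per_sub {β : ℂ ≃ₜ ℂ} (h : ∀ W, β (W + 1) = β W + 1) (m : ℕ) (W : ℂ) :
    β (W - m) = β W - m := by
  have h1 := per_nat h m (W - m)
  rw [sub_add_cancel] at h1
  rw [h1, add_sub_cancel_right]

end BEUaux

open BEUaux in
theorem t_BEU : S_BEU := by
  intro g c₀ Φ ψ R C N K0 β β' hF hN h1N hβ hβ' hd hd'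
  obtain ⟨χ, hχ⟩ : ∃ χ : ℂ ≃ₜ ℂ, χ = β'.trans β.symm := ⟨_, rfl⟩
  have hβχ : ∀ W, β (χ W) = β' W := by
    intro W
    rw [hχ]
    exact β.apply_symm_apply _
  have hχp : ∀ W, χ (W + 1) = χ W + 1 := by
    intro W
    refine β.injective ?_
    rw [hβχ, hβ', hβ, hβχ]
  have hψc : Continuous ψ := hF.dψ.continuous
  have hdiff : Differentiable ℂ χ := by
    intro W
    -- a suitable translate
    obtain ⟨m, hm1, hm2⟩ : ∃ m : ℕ, (β' W - m).re < -R ∧ ψ (β' W - m) ∈ N := by
      have h1 : ∀ᶠ m : ℕ in atTop, ψ (β' W - m) ∈ N := (hF.limψ (β' W)) (hN.mem_nhds h1N)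
      have h2 : ∀ᶠ m : ℕ in atTop, (β' W).re + R < m :=
        (tendsto_natCast_atTop_atTop (R := ℝ)).eventually_gt_atTop _
      obtain ⟨m, hm, hm'⟩ := (h1.and h2).exists
      refine ⟨m, ?_, hm⟩
      rw [Complex.sub_re, Complex.natCast_re]
      linarith
    obtain ⟨W₁, hW₁⟩ : ∃ W₁ : ℂ, W₁ = W - m := ⟨_, rfl⟩
    have hβW : β' W₁ = β' W - m := by rw [hW₁, per_sub hβ']
    obtain ⟨U₁, hU₁⟩ : ∃ U₁ : Set ℂ, U₁ = {V | (β V).re < -R} ∩ {V | ψ (β V) ∈ N} := ⟨_, rfl⟩
    have hU₁o : IsOpen U₁ := by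
      rw [hU₁]
      exact (isOpen_lt (Complex.continuous_re.comp β.continuous) continuous_const).inter
        (hN.preimage (hψc.comp β.continuous))
    have hmem : χ W₁ ∈ U₁ := by
      rw [hU₁]
      refine ⟨?_, ?_⟩
      · show (β (χ W₁)).re < -R
        rw [hβχ, hβW]
        exact hm1
      · show ψ (β (χ W₁)) ∈ N
        rw [hβχ, hβW]
        exact hm2
    obtain ⟨h, hh⟩ : ∃ h : ℂ → ℂ, h = fun W => K0 (ψ (β W)) := ⟨_, rfl⟩
    rw [← hh] at hd
    have hhd : DifferentiableOn ℂ h U₁ := hd.mono (by rw [hU₁]; exact inter_subset_right)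
    have hhi : InjOn h U₁ := by
      intro x hx y hy hxy
      rw [hh] at hxy
      rw [hU₁] at hx hy
      exact β.injective (hF.injψ hx.1 hy.1 (K0.injective hxy))
    have hder := Pool.Agent.Helper405.Conv.deriv_ne_zero_of_injOn hU₁o hhd hhi hmem
    have hana : AnalyticAt ℂ h (χ W₁) := hhd.analyticAt (hU₁o.mem_nhds hmem)
    have hs : HasStrictDerivAt h (deriv h (χ W₁)) (χ W₁) := hana.hasStrictDerivAt
    have hinv := hs.to_localInverse hder
    have hleft := (hs.hasStrictFDerivAt_equiv hder).eventually_left_inverse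
    -- `h' = h ∘ χ`
    have hd'W : DifferentiableAt ℂ (fun W => K0 (ψ (β' W))) W₁ := by
      refine hd'.differentiableAt ((hN.preimage (hψc.comp β'.continuous)).mem_nhds ?_)
      show ψ (β' W₁) ∈ N
      rw [hβW]
      exact hm2
    have hcomp : ∀ x, h (χ x) = K0 (ψ (β' x)) := by
      intro x
      rw [hh, ← hβχ]
    have hfun : (fun x => hs.localInverse h (deriv h (χ W₁)) (χ W₁) hder (K0 (ψ (β' x)))) =ᶠ[𝓝 W₁]
        χ := by
      have h1 : ∀ᶠ x in 𝓝 W₁, hs.localInverse h (deriv h (χ W₁)) (χ W₁) hder (h (χ x)) = χ x :=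
        χ.continuous.continuousAt.eventually hleft
      filter_upwards [h1] with x hx
      rw [← hcomp]
      exact hx
    have hχW₁ : DifferentiableAt ℂ χ W₁ := by
      refine DifferentiableAt.congr_of_eventuallyEq ?_ hfun.symm
      have h2 : DifferentiableAt ℂ (hs.localInverse h (deriv h (χ W₁)) (χ W₁) hder)
          (K0 (ψ (β' W₁))) := by
        rw [← hcomp]
        exact hinv.hasDerivAt.differentiableAt
      exact h2.comp W₁ hd'W
    -- translate back
    have h3 : (χ : ℂ → ℂ) = fun x => χ (x - m) + m := by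
      funext x
      rw [per_sub hχp, sub_add_cancel]
    rw [h3]
    have h4 : DifferentiableAt ℂ (fun x : ℂ => χ (x - m)) W := by
      have h5 : DifferentiableAt ℂ χ (W - m) := by rwa [← hW₁]
      exact h5.comp W (differentiableAt_id.sub_const _)
    exact h4.add_const _
  obtain ⟨c, s, hcs⟩ := affine_of_homeo χ hdiff
  have hc : c = 1 := by
    have h1 := hχp 0
    rw [hcs, hcs, zero_add, mul_one, mul_zero, zero_add, add_comm s 1] at h1
    exact add_right_cancel h1
  refine ⟨s, fun W => ?_⟩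
  rw [← hβχ, hcs, hc, one_mul]

end Pool.Agent.H212.ND
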