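import Pool.Agent.H212.ND.StmM

set_option autoImplicit false

open Filter Metric Set Topology Polynomial
open scoped ComplexConjugate

namespace Pool.Agent.H212.ND

open Pool.Agent.H212.MB

namespace CENaux

lemma tend_cocompact {k : ℕ} (hk : 1 ≤ k) : Tendsto (fun t : ℝ => ((t : ℂ)) ^ k) atTop (cocompact ℂ) := by
  rw [← Metric.cobounded_eq_cocompact, ← tendsto_norm_atTop_iff_cobounded]
  have h : Tendsto (fun t : ℝ => |t| ^ k) atTop atTop :=
    (tendsto_pow_atTop (by omega)).comp tendsto_abs_atTop_atTop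
  refine h.congr fun t => ?_
  rw [norm_pow, Complex.norm_real, Real.norm_eq_abs]

end CENaux

open CENaux in
theorem t_CEN (hBL : MB.S_BL) (hQ : MB.S_QFORM) : S_CEN := by
  intro n hn g φ hφ
  obtain ⟨h1, -, -, h4⟩ := hQ n (by omega) (zn n) g φ hφ
  have hgQ : g.Q = 1 := by rw [h1, h4]
  refine ⟨hgQ, ?_⟩
  obtain ⟨-, -, -, -, -, -, -, -, hzn⟩ := hBL n (by omega) (zn n)
  -- the functional equation
  have hsemi : ∀ t : ℝ, 1 < t → g.P.eval (φ t) = φ ((t : ℂ) ^ n) := by
    intro t ht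
    have hE : (t : ℂ) ∈ MB.Ext := by
      show 1 < ‖(t : ℂ)‖
      rw [Complex.norm_real, Real.norm_eq_abs]
      exact ht.trans_le (le_abs_self t)
    have h := (hφ.semi t hE (by rw [(hzn t).1]; exact one_ne_zero)).2
    rw [(hzn t).2] at h
    unfold RMap.ev at h
    rw [hgQ] at h
    simpa using h
  set y : ℝ → ℂ := fun t => φ t with hy
  have e1 : Tendsto (fun t : ℝ => y t - t) atTop (𝓝 0) := by
    have := hφ.norm.comp (tend_cocompact (k := 1) le_rfl)
    simpa [Function.comp_def] using this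
  have e2 : Tendsto (fun t : ℝ => φ ((t : ℂ) ^ n) - (t : ℂ) ^ n) atTop (𝓝 0) :=
    hφ.norm.comp (tend_cocompact (k := n) (by omega))
  have inv0 : Tendsto (fun t : ℝ => ((t : ℂ))⁻¹) atTop (𝓝 0) := by
    have : Tendsto (fun t : ℝ => ((t⁻¹ : ℝ) : ℂ)) atTop (𝓝 ((0 : ℝ) : ℂ)) :=
      (Complex.continuous_ofReal.tendsto 0).comp tendsto_inv_atTop_zero
    simpa using this
  have e3 : Tendsto (fun t : ℝ => y t * (t : ℂ)⁻¹) atTop (𝓝 1) := by
    have h := (e1.mul inv0).add_const (1 : ℂ)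
    rw [zero_mul, zero_add] at h
    refine h.congr' ?_
    filter_upwards [eventually_gt_atTop (0 : ℝ)] with t ht
    have : (t : ℂ) ≠ 0 := by exact_mod_cast ht.ne'
    field_simp
    ring
  -- the coefficient as a limit
  have hdeg : g.P.natDegree = n := g.natDegree
  have hlead : g.P.coeff n = 1 := by
    have := g.monic
    unfold Polynomial.Monic Polynomial.leadingCoeff at this
    rwa [hdeg] at this
  have hsum : ∀ w : ℂ, g.P.eval w = w ^ n + ∑ i ∈ Finset.range n, g.P.coeff i * w ^ i := by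
    intro w
    rw [Polynomial.eval_eq_sum_range, hdeg, Finset.sum_range_succ, hlead]
    ring
  have L1 : Tendsto (fun t : ℝ => ∑ i ∈ Finset.range n, g.P.coeff i * (y t) ^ i * ((t : ℂ)⁻¹) ^ (n - 1)) atTop
      (𝓝 (∑ i ∈ Finset.range n, if i = n - 1 then g.P.coeff i else 0)) := by
    refine tendsto_finsetSum _ fun i hi => ?_
    have hin : i < n := Finset.mem_range.1 hi
    have hsplit : ∀ t : ℝ, g.P.coeff i * (y t) ^ i * ((t : ℂ)⁻¹) ^ (n - 1) =
        g.P.coeff i * (y t * (t : ℂ)⁻¹) ^ i * ((t : ℂ)⁻¹) ^ (n - 1 - i) := by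
      intro t
      have : n - 1 = i + (n - 1 - i) := by omega
      conv_lhs => rw [this, pow_add]
      rw [mul_pow]
      ring
    simp only [hsplit]
    have h := ((e3.pow i).const_mul (g.P.coeff i)).mul (inv0.pow (n - 1 - i))
    rw [one_pow, mul_one] at h
    split_ifs with hc
    · have : n - 1 - i = 0 := by omega
      rw [this, pow_zero, mul_one] at h
      rw [this]
      exact h
    · rw [zero_pow (by omega), mul_zero] at h
      exact h
  have L2 : Tendsto (fun t : ℝ => ∑ i ∈ Finset.range n, g.P.coeff i * (y t) ^ i * ((t : ℂ)⁻¹) ^ (n - 1)) atTop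
      (𝓝 0) := by
    -- the sum is `(φ (t ^ n) - t ^ n) / t ^ (n-1) - (y ^ n - t ^ n) / t ^ (n - 1)`
    have hA : Tendsto (fun t : ℝ => (φ ((t : ℂ) ^ n) - (t : ℂ) ^ n) * ((t : ℂ)⁻¹) ^ (n - 1)) atTop (𝓝 0) := by
      have := e2.mul (inv0.pow (n - 1))
      rwa [zero_mul] at this
    have hB : Tendsto (fun t : ℝ => (y t - t) * ∑ i ∈ Finset.range n, (y t * (t : ℂ)⁻¹) ^ i) atTop (𝓝 0) := by
      have := e1.mul (tendsto_finsetSum (Finset.range n) fun i _ => e3.pow i)
      rwa [zero_mul] at this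
    have h := hA.sub hB
    rw [sub_zero] at h
    refine h.congr' ?_
    filter_upwards [eventually_gt_atTop (1 : ℝ)] with t ht
    have ht0 : (t : ℂ) ≠ 0 := by exact_mod_cast (by linarith : t ≠ 0)
    have g1 := hsemi t ht
    rw [hsum] at g1
    have g2 : (y t) ^ n - (t : ℂ) ^ n = (y t - t) * ∑ i ∈ Finset.range n, (y t) ^ i * (t : ℂ) ^ (n - 1 - i) := by
      rw [mul_comm]
      exact (Commute.all (y t) (t : ℂ)).geom_sum₂_mul n |>.symm
    have g3 : (∑ i ∈ Finset.range n, (y t) ^ i * (t : ℂ) ^ (n - 1 - i)) * ((t : ℂ)⁻¹) ^ (n - 1) =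
        ∑ i ∈ Finset.range n, (y t * (t : ℂ)⁻¹) ^ i := by
      rw [Finset.sum_mul]
      refine Finset.sum_congr rfl fun i hi => ?_
      have hin : i < n := Finset.mem_range.1 hi
      have e : n - 1 = i + (n - 1 - i) := by omega
      have e' : ((t : ℂ)⁻¹) ^ (n - 1) = ((t : ℂ)⁻¹) ^ i * ((t : ℂ)⁻¹) ^ (n - 1 - i) := by
        rw [← pow_add, ← e]
      rw [e', mul_pow, inv_pow (t : ℂ) (n - 1 - i)]
      field_simp
    have g4 : ∑ i ∈ Finset.range n, g.P.coeff i * (y t) ^ i * ((t : ℂ)⁻¹) ^ (n - 1) =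
        (∑ i ∈ Finset.range n, g.P.coeff i * (y t) ^ i) * ((t : ℂ)⁻¹) ^ (n - 1) := by
      rw [Finset.sum_mul]
    rw [g4]
    have g5 : ∑ i ∈ Finset.range n, g.P.coeff i * (y t) ^ i = φ ((t : ℂ) ^ n) - (y t) ^ n := by
      rw [← g1]; ring
    rw [g5, ← g3]
    have g6 : φ ((t : ℂ) ^ n) - (y t) ^ n = (φ ((t : ℂ) ^ n) - (t : ℂ) ^ n) - ((y t) ^ n - (t : ℂ) ^ n) := by ring
    rw [g6, g2]
    ring
  have := tendsto_nhds_unique L1 L2
  rw [Finset.sum_ite_eq' (Finset.range n) (n - 1)] at this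
  simpa [show n - 1 < n by omega] using this

end Pool.Agent.H212.ND
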