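import Pool.Agent.H212.ND.StmT

set_option autoImplicit false

open Filter Metric Set Topology Polynomial
open scoped ComplexConjugate

namespace Pool.Agent.H212.ND

namespace CH1aux

/-- the half plane `re X > -ε` -/
def Dm (ε : ℝ) : Set ℂ := {X | -ε < X.re}

theorem Dm_open (ε : ℝ) : IsOpen (Dm ε) := isOpen_lt continuous_const Complex.continuous_re

theorem Dm_convex (ε : ℝ) : Convex ℝ (Dm ε) := convex_halfSpace_re_gt _

theorem HP_sub {ε : ℝ} (hε : 0 < ε) : HP ⊆ Dm ε := fun X (hX : 0 ≤ X.re) => by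
  show -ε < X.re
  linarith

theorem lift_aux {p : ℂ → ℂ} {s : Set ℂ} (cov : IsCoveringMapOn p s) {ε : ℝ} {f : ℂ → ℂ}
    (hf : ContinuousOn f (Dm ε)) (hs : ∀ X ∈ Dm ε, f X ∈ s) {a e : ℂ} (ha : a ∈ Dm ε)
    (he : p e = f a) :
    ∃ F : ℂ → ℂ, ContinuousOn F (Dm ε) ∧ F a = e ∧ ∀ X ∈ Dm ε, p (F X) = f X := by
  classical
  have : ContractibleSpace (Dm ε) := (Dm_convex ε).contractibleSpace ⟨a, ha⟩
  have : LocallyPathConnectedSpace (Dm ε) := (Dm_open ε).locallyPathConnectedSpace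
  obtain ⟨F, ⟨h1, h2⟩, -⟩ := cov.existsUnique_continuousMap_lifts (A := Dm ε)
    ⟨fun x => f x, continuousOn_iff_continuous_domRestrict.1 hf⟩ (a₀ := ⟨a, ha⟩) (e₀ := e) he
    (fun x => hs _ x.2)
  refine ⟨fun X => if h : X ∈ Dm ε then F ⟨X, h⟩ else 0, ?_, ?_, ?_⟩
  · rw [continuousOn_iff_continuous_domRestrict]
    have : (Dm ε).domRestrict (fun X => if h : X ∈ Dm ε then F ⟨X, h⟩ else 0) = F := by
      funext x
      simp [Set.domRestrict_apply]
    rw [this]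
    exact F.continuous
  · simp only [ha, dif_pos, h1]
  · intro X hX
    simp only [hX, dif_pos]
    exact congrFun h2 ⟨X, hX⟩

theorem diff_aux {p f F : ℂ → ℂ} {p' f' x : ℂ} (hp : HasStrictDerivAt p p' (F x)) (h0 : p' ≠ 0)
    (hf : HasDerivAt f f' x) (hF : ContinuousAt F x) (h : ∀ᶠ y in 𝓝 x, p (F y) = f y) :
    HasDerivAt F (p'⁻¹ * f') x := by
  have h1 := hp.to_localInverse h0
  have h2 : ∀ᶠ y in 𝓝 x, hp.localInverse p p' (F x) h0 (f y) = F y := by
    filter_upwards [hF.eventually (hp.eventually_left_inverse h0), h] with y hy hy'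
    rw [← hy', hy]
  have h3 : p (F x) = f x := h.self_of_nhds
  rw [h3] at h1
  have h4 := h1.hasDerivAt.comp x hf
  exact h4.congr_of_eventuallyEq (h2.mono fun y hy => hy.symm)

/-- the map `g` in the chart -/
noncomputable def Q (g : ℂ[X]) (c₀ : ℝ) (Z : ℂ) : ℂ := g.eval (ch c₀ Z)

theorem ch_deriv (c₀ : ℝ) (Z : ℂ) : HasStrictDerivAt (ch c₀) ((1 - c₀) * Complex.exp Z) Z := by
  have := ((Complex.hasStrictDerivAt_exp Z).const_mul ((1 : ℂ) - c₀)).const_add (c₀ : ℂ)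
  exact this

theorem Q_deriv (g : ℂ[X]) (c₀ : ℝ) (Z : ℂ) : HasStrictDerivAt (Q g c₀)
    (g.derivative.eval (ch c₀ Z) * ((1 - c₀) * Complex.exp Z)) Z :=
  (g.hasStrictDerivAt (ch c₀ Z)).comp Z (ch_deriv c₀ Z)

theorem ch_cont (c₀ : ℝ) : Continuous (ch c₀) :=
  continuous_const.add (continuous_const.mul Complex.continuous_exp)

theorem norm_ch {c₀ : ℝ} (hc : c₀ < 1) (Z : ℂ) : ‖ch c₀ Z - c₀‖ = (1 - c₀) * Real.exp Z.re := by
  have h : ch c₀ Z - c₀ = ((1 - c₀ : ℝ) : ℂ) * Complex.exp Z := by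
    simp [ch]
  rw [h, norm_mul, Complex.norm_exp, Complex.norm_real, Real.norm_of_nonneg (by linarith)]

theorem ch_zero (c₀ : ℝ) : ch c₀ 0 = 1 := by
  simp [ch]

theorem ch_int (c₀ : ℝ) (X : ℂ) (k : ℤ) : ch c₀ (X + 2 * Real.pi * Complex.I * k) = ch c₀ X := by
  have : Complex.exp (X + 2 * Real.pi * Complex.I * k) = Complex.exp X := by
    rw [Complex.exp_eq_exp_iff_exists_int]
    exact ⟨k, by ring⟩
  simp [ch, this]

theorem ch_eq {c₀ : ℝ} (hc : c₀ < 1) {X X' : ℂ} (h : ch c₀ X = ch c₀ X') :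
    ∃ k : ℤ, X' = X + 2 * Real.pi * Complex.I * k := by
  have hR : ((1 : ℂ) - c₀) ≠ 0 := by
    have : ((1 - c₀ : ℝ) : ℂ) ≠ 0 := by
      rw [Complex.ofReal_ne_zero]
      linarith
    simpa using this
  have h1 : Complex.exp X' = Complex.exp X := by
    unfold ch at h
    exact (mul_left_cancel₀ hR (add_left_cancel h)).symm
  obtain ⟨k, hk⟩ := Complex.exp_eq_exp_iff_exists_int.1 h1
  exact ⟨k, by rw [hk]; ring⟩

theorem exists_eps {n : ℕ} {g : ℂ[X]} {c₀ : ℝ} {c : ℂ} (h : Good n g c₀ c) : ∃ ε : ℝ, 0 < ε ∧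
    (∀ y, g.derivative.eval y = 0 → ‖g.eval y - c₀‖ < (1 - c₀) * Real.exp (-ε)) ∧
    ‖g.eval (c₀ : ℂ) - c₀‖ < (1 - c₀) * Real.exp (-ε) := by
  classical
  have key : ∀ y : ℂ, ‖g.eval y - c₀‖ < 1 - c₀ →
      ∀ᶠ ε : ℝ in 𝓝[>] 0, ‖g.eval y - c₀‖ < (1 - c₀) * Real.exp (-ε) := by
    intro y hy
    have h1 : Tendsto (fun ε : ℝ => (1 - c₀) * Real.exp (-ε)) (𝓝[>] 0) (𝓝 ((1 - c₀) * Real.exp (-0))) := by
      apply Tendsto.mono_left _ nhdsWithin_le_nhds
      apply Continuous.tendsto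
      fun_prop
    rw [neg_zero, Real.exp_zero, mul_one] at h1
    exact h1.eventually_const_lt hy
  have hd : g.derivative ≠ 0 := by
    intro h0
    have := h.der
    rw [h0] at this
    simp at this
  have h1 : ∀ᶠ ε : ℝ in 𝓝[>] 0, ∀ y ∈ g.derivative.roots.toFinset,
      ‖g.eval y - c₀‖ < (1 - c₀) * Real.exp (-ε) := by
    rw [Filter.eventually_all_finset]
    intro y hy
    rw [Multiset.mem_toFinset, mem_roots hd] at hy
    have hc := h.crit y hy
    have hy1 : y ≠ 1 := by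
      rintro rfl
      simp at hc
    exact key y (h.disc y hc.1.le hy1)
  have h2 : ∀ᶠ ε : ℝ in 𝓝[>] 0, ‖g.eval (c₀ : ℂ) - c₀‖ < (1 - c₀) * Real.exp (-ε) := by
    apply key
    apply h.disc
    · rw [Complex.norm_real, Real.norm_of_nonneg h.c0.le]
      exact h.c1.le
    · intro h1
      have : c₀ = 1 := by exact_mod_cast h1
      linarith [h.c1]
  have h0 : ∀ᶠ ε : ℝ in 𝓝[>] 0, 0 < ε := self_mem_nhdsWithin
  obtain ⟨ε, hε, h3, h4⟩ := (h0.and (h1.and h2)).exists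
  refine ⟨ε, hε, fun y hy => h3 y ?_, h4⟩
  rw [Multiset.mem_toFinset, mem_roots hd]
  exact hy

/-- a lift of the chart -/
structure IsL (g : ℂ[X]) (c₀ ε : ℝ) (F : ℂ → ℂ) : Prop where
  diff : DifferentiableOn ℂ F (Dm ε)
  eq : ∀ X ∈ Dm ε, g.eval (ch c₀ (F X)) = ch c₀ X

/-- the data -/
structure Dat (n : ℕ) (g : ℂ[X]) (c₀ : ℝ) (c : ℂ) (ε : ℝ) : Prop where
  good : Good n g c₀ c
  pos : 0 < ε
  crit : ∀ y, g.derivative.eval y = 0 → ‖g.eval y - c₀‖ < (1 - c₀) * Real.exp (-ε)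
  ctr : ‖g.eval (c₀ : ℂ) - c₀‖ < (1 - c₀) * Real.exp (-ε)

variable {n : ℕ} {g : ℂ[X]} {c₀ : ℝ} {c : ℂ} {ε : ℝ}

theorem Dat.low (h : Dat n g c₀ c ε) {X : ℂ} (hX : X ∈ Dm ε) :
    (1 - c₀) * Real.exp (-ε) < ‖ch c₀ X - c₀‖ := by
  rw [norm_ch h.good.c1]
  exact mul_lt_mul_of_pos_left (Real.exp_lt_exp.2 hX) (by linarith [h.good.c1])

theorem Dat.der_ne (h : Dat n g c₀ c ε) {X : ℂ} (hX : X ∈ Dm ε) {y : ℂ} (hy : g.eval y = ch c₀ X) :
    g.derivative.eval y ≠ 0 := by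
  intro h0
  have h1 := h.crit y h0
  rw [hy] at h1
  exact lt_irrefl _ (h1.trans (h.low hX))

theorem Dat.R_ne (h : Dat n g c₀ c ε) : ((1 : ℂ) - c₀) ≠ 0 := by
  have : ((1 - c₀ : ℝ) : ℂ) ≠ 0 := by
    rw [Complex.ofReal_ne_zero]
    linarith [h.good.c1]
  simpa using this

theorem IsL.hasDeriv (h : Dat n g c₀ c ε) {F : ℂ → ℂ} (hF : ContinuousOn F (Dm ε))
    (hF' : ∀ X ∈ Dm ε, g.eval (ch c₀ (F X)) = ch c₀ X) {X : ℂ} (hX : X ∈ Dm ε) :
    HasDerivAt F ((g.derivative.eval (ch c₀ (F X)) * ((1 - c₀) * Complex.exp (F X)))⁻¹ *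
      ((1 - c₀) * Complex.exp X)) X := by
  apply diff_aux (p := Q g c₀) (f := ch c₀) (Q_deriv g c₀ (F X))
  · exact mul_ne_zero (h.der_ne hX (hF' X hX)) (mul_ne_zero h.R_ne (Complex.exp_ne_zero _))
  · exact (ch_deriv c₀ X).hasDerivAt
  · exact hF.continuousAt ((Dm_open ε).mem_nhds hX)
  · filter_upwards [(Dm_open ε).mem_nhds hX] with Y hY
    exact hF' Y hY

theorem exists_lift (h : Dat n g c₀ c ε) {X₀ Z₀ : ℂ} (hX : X₀ ∈ Dm ε)
    (h0 : g.eval (ch c₀ Z₀) = ch c₀ X₀) : ∃ F, IsL g c₀ ε F ∧ F X₀ = Z₀ := by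
  have hR := h.R_ne
  obtain ⟨Y, hY1, hY2, hY3⟩ := lift_aux (p := fun y => g.eval y) (f := ch c₀) (e := ch c₀ Z₀)
    g.isCoveringMapOn_eval (ch_cont c₀).continuousOn (by
      rintro X hX ⟨y, hy, hy'⟩
      exact h.der_ne hX hy' hy) hX h0
  have hne : ∀ X ∈ Dm ε, Y X - c₀ ≠ 0 := by
    intro X hX h0
    have h1 := h.ctr
    rw [sub_eq_zero] at h0
    rw [← h0, hY3 X hX, h0] at h1
    exact lt_irrefl _ (h1.trans (h.low hX))
  obtain ⟨F, hF1, hF2, hF3⟩ := lift_aux (p := Complex.exp) (f := fun X => (Y X - c₀) / (1 - c₀))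
    (e := Z₀) Complex.isCoveringMapOn_exp
    ((hY1.sub continuousOn_const).div_const _) (by
      intro X hX
      exact div_ne_zero (hne X hX) hR) hX (by
      show Complex.exp Z₀ = (Y X₀ - c₀) / (1 - c₀)
      rw [hY2, ch]
      field_simp
      ring)
  have hF4 : ∀ X ∈ Dm ε, g.eval (ch c₀ (F X)) = ch c₀ X := by
    intro X hX
    rw [← hY3 X hX]
    congr 1
    rw [ch, hF3 X hX]
    field_simp
    ring
  exact ⟨F, ⟨fun X hX => (IsL.hasDeriv h hF1 hF4 hX).differentiableAt.differentiableWithinAt, hF4⟩, hF2⟩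

theorem lift_unique (h : Dat n g c₀ c ε) {F₁ F₂ : ℂ → ℂ} (h1 : IsL g c₀ ε F₁) (h2 : IsL g c₀ ε F₂)
    {X₀ : ℂ} (hX : X₀ ∈ Dm ε) (h0 : F₁ X₀ = F₂ X₀) : ∀ X ∈ Dm ε, F₁ X = F₂ X := by
  have hne : g.derivative.eval (ch c₀ (F₁ X₀)) * ((1 - c₀) * Complex.exp (F₁ X₀)) ≠ 0 :=
    mul_ne_zero (h.der_ne hX (h1.eq X₀ hX)) (mul_ne_zero h.R_ne (Complex.exp_ne_zero _))
  have hp := Q_deriv g c₀ (F₁ X₀)
  have e1 := (h1.diff.continuousOn.continuousAt ((Dm_open ε).mem_nhds hX)).eventually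
    (hp.eventually_left_inverse hne)
  have hc2 := h2.diff.continuousOn.continuousAt ((Dm_open ε).mem_nhds hX)
  rw [ContinuousAt, ← h0] at hc2
  have e2 := hc2.eventually (hp.eventually_left_inverse hne)
  have e3 : F₁ =ᶠ[𝓝 X₀] F₂ := by
    filter_upwards [e1, e2, (Dm_open ε).mem_nhds hX] with X a1 a2 a3
    rw [← a1, ← a2]
    have : Q g c₀ (F₁ X) = Q g c₀ (F₂ X) := by
      rw [Q, Q, h1.eq X a3, h2.eq X a3]
    rw [this]
  exact (h1.diff.analyticOnNhd (Dm_open ε)).eqOn_of_preconnected_of_eventuallyEq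
    (h2.diff.analyticOnNhd (Dm_open ε)) (Dm_convex ε).isPreconnected hX e3

theorem Dm_shift {X : ℂ} (hX : X ∈ Dm ε) (k : ℤ) : X + 2 * Real.pi * Complex.I * k ∈ Dm ε := by
  have : (X + 2 * Real.pi * Complex.I * k).re = X.re := by simp
  show -ε < (X + 2 * Real.pi * Complex.I * k).re
  rw [this]
  exact hX

theorem IsL.shift {F : ℂ → ℂ} (hF : IsL g c₀ ε F) (k : ℤ) :
    IsL g c₀ ε (fun X => F (X + 2 * Real.pi * Complex.I * k)) := by
  constructor
  · apply hF.diff.comp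
    · fun_prop
    · exact fun X hX => Dm_shift hX k
  · intro X hX
    show g.eval (ch c₀ (F (X + 2 * Real.pi * Complex.I * k))) = ch c₀ X
    rw [hF.eq _ (Dm_shift hX k), ch_int]

theorem IsL.add {F : ℂ → ℂ} (hF : IsL g c₀ ε F) (k : ℤ) :
    IsL g c₀ ε (fun X => F X + 2 * Real.pi * Complex.I * k) := by
  constructor
  · exact hF.diff.add_const _
  · intro X hX
    show g.eval (ch c₀ (F X + 2 * Real.pi * Complex.I * k)) = ch c₀ X
    rw [ch_int, hF.eq _ hX]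

theorem exists_P (h : Good n g c₀ c) : ∃ P : ℂ[X], 0 < (P.eval 0).re ∧ (P.eval 0).im = 0 ∧
    ∀ Z, g.eval (ch c₀ Z) - c₀ = (1 - c₀) * (Complex.exp (n * Z) * P.eval (Complex.exp (-Z))) := by
  have hR : ((1 : ℂ) - c₀) ≠ 0 := by
    have : ((1 - c₀ : ℝ) : ℂ) ≠ 0 := by
      rw [Complex.ofReal_ne_zero]
      linarith [h.c1]
    simpa using this
  have hn := h.n3
  set L : ℂ[X] := C ((1 : ℂ) - c₀) * X + C (c₀ : ℂ) with hL
  have hL1 : L.natDegree = 1 := natDegree_linear hR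
  have hL2 : L.leadingCoeff = (1 : ℂ) - c₀ := leadingCoeff_linear hR
  set G : ℂ[X] := g.comp L - C (c₀ : ℂ) with hG
  have hG1 : G.natDegree = n := by
    rw [hG, natDegree_sub_C, natDegree_comp, hL1, mul_one, h.deg]
  have hG2 : G.leadingCoeff = g.coeff n * ((1 : ℂ) - c₀) ^ n := by
    have h1 : (g.comp L).coeff n = g.coeff n * ((1 : ℂ) - c₀) ^ n := by
      have h2 : (g.comp L).natDegree = n := by rw [natDegree_comp, hL1, mul_one, h.deg]
      have h3 := leadingCoeff_comp (p := g) (q := L) (by rw [hL1]; exact one_ne_zero)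
      rw [leadingCoeff, h2, leadingCoeff, h.deg, hL2] at h3
      exact h3
    rw [leadingCoeff, hG1, hG, coeff_sub, h1, coeff_C, if_neg (by omega), sub_zero]
  refine ⟨C ((1 : ℂ) - c₀)⁻¹ * G.reverse, ?_, ?_, ?_⟩
  · rw [eval_mul, eval_C, ← coeff_zero_eq_eval_zero, coeff_zero_reverse, hG2]
    have h1 : ((1 : ℂ) - c₀)⁻¹ * (g.coeff n * ((1 : ℂ) - c₀) ^ n) =
        (((1 - c₀)⁻¹ * ((g.coeff n).re * (1 - c₀) ^ n) : ℝ) : ℂ) := by
      have h2 : g.coeff n = ((g.coeff n).re : ℂ) := by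
        apply Complex.ext
        · simp
        · simp [h.real n]
      rw [h2]
      push_cast
      simp
    rw [h1, Complex.ofReal_re]
    have := h.c1
    have := h.lead
    have h3 : 0 < 1 - c₀ := by linarith
    positivity
  · rw [eval_mul, eval_C, ← coeff_zero_eq_eval_zero, coeff_zero_reverse, hG2]
    have h1 : ((1 : ℂ) - c₀)⁻¹ * (g.coeff n * ((1 : ℂ) - c₀) ^ n) =
        (((1 - c₀)⁻¹ * ((g.coeff n).re * (1 - c₀) ^ n) : ℝ) : ℂ) := by
      have h2 : g.coeff n = ((g.coeff n).re : ℂ) := by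
        apply Complex.ext
        · simp
        · simp [h.real n]
      rw [h2]
      push_cast
      simp
    rw [h1, Complex.ofReal_im]
  · intro Z
    let _ : Invertible (Complex.exp Z) := invertibleOfNonzero (Complex.exp_ne_zero Z)
    have h1 := eval₂_reverse_mul_pow (RingHom.id ℂ) (Complex.exp Z) G
    rw [hG1, invOf_eq_inv, ← Complex.exp_neg, ← Complex.exp_nat_mul] at h1
    have h2 : eval₂ (RingHom.id ℂ) (Complex.exp Z) G = g.eval (ch c₀ Z) - c₀ := by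
      show eval (Complex.exp Z) G = g.eval (ch c₀ Z) - c₀
      rw [hG, eval_sub, eval_comp, hL]
      simp only [eval_add, eval_mul, eval_C, eval_X]
      rw [ch, add_comm]
    rw [← h2, ← h1, eval_mul, eval_C]
    show eval (Complex.exp (-Z)) G.reverse * Complex.exp (n * Z) = _
    field_simp

theorem exists_H (h : Good n g c₀ c) : ∃ (H : ℂ → ℂ) (R₁ : ℝ) (l : ℂ),
    (∀ Z : ℂ, R₁ < Z.re → Complex.exp (H Z) = (g.eval (ch c₀ Z) - c₀) / (1 - c₀)) ∧
    (∀ Z : ℂ, R₁ < Z.re → DifferentiableAt ℂ H Z) ∧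
    (∀ Z : ℂ, R₁ < Z.re → ∀ Z' : ℂ, R₁ < Z'.re → H Z = H Z' → Z = Z') ∧
    (∀ Z : ℂ, ∀ k : ℤ, H (Z + 2 * Real.pi * Complex.I * k) =
      H Z + 2 * Real.pi * Complex.I * (n * k)) ∧
    (∀ e : ℝ, 0 < e → ∃ R' : ℝ, ∀ Z : ℂ, R' ≤ Z.re → ‖H Z - n * Z - l‖ ≤ e) := by
  obtain ⟨P, hP1, hP2, hP⟩ := exists_P h
  have hR : ((1 : ℂ) - c₀) ≠ 0 := by
    have : ((1 - c₀ : ℝ) : ℂ) ≠ 0 := by
      rw [Complex.ofReal_ne_zero]
      linarith [h.c1]
    simpa using this
  have hn := h.n3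
  have hsl : P.eval 0 ∈ Complex.slitPlane := Or.inl hP1
  have hP0 : P.eval 0 ≠ 0 := Complex.slitPlane_ne_zero hsl
  have e1 : ∀ᶠ t : ℂ in 𝓝 0, P.eval t ∈ Complex.slitPlane :=
    P.continuous.continuousAt.eventually (Complex.isOpen_slitPlane.mem_nhds hsl)
  have e2 : ∀ᶠ t : ℂ in 𝓝 0, ‖t * P.derivative.eval t / P.eval t‖ < 1 / 2 := by
    have hc : ContinuousAt (fun t : ℂ => ‖t * P.derivative.eval t / P.eval t‖) 0 := by
      apply ContinuousAt.norm
      apply ContinuousAt.div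
      · exact continuousAt_id.mul P.derivative.continuous.continuousAt
      · exact P.continuous.continuousAt
      · exact hP0
    have h0 : ‖(0 : ℂ) * P.derivative.eval 0 / P.eval 0‖ < 1 / 2 := by
      simp
    exact hc.eventually (gt_mem_nhds h0)
  obtain ⟨δ, hδ, hδ1⟩ := Metric.eventually_nhds_iff_ball.1 (e1.and e2)
  have hexp : ∀ δ : ℝ, 0 < δ → ∀ Z : ℂ, -Real.log δ < Z.re → Complex.exp (-Z) ∈ ball (0 : ℂ) δ := by
    intro δ hδ Z hZ
    rw [mem_ball_zero_iff, Complex.norm_exp, Complex.neg_re]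
    calc Real.exp (-Z.re) < Real.exp (Real.log δ) := Real.exp_lt_exp.2 (by linarith)
      _ = δ := Real.exp_log hδ
  set R₁ : ℝ := -Real.log δ with hR₁
  have hd : ∀ Z : ℂ, R₁ < Z.re → HasDerivAt (fun Z => Complex.log (P.eval (Complex.exp (-Z))))
      (-(Complex.exp (-Z) * P.derivative.eval (Complex.exp (-Z)) / P.eval (Complex.exp (-Z)))) Z := by
    intro Z hZ
    have h1 : HasDerivAt (fun Z : ℂ => Complex.exp (-Z)) (Complex.exp (-Z) * -1) Z :=
      (hasDerivAt_neg Z).cexp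
    have h2 := (P.hasDerivAt (Complex.exp (-Z))).comp Z h1
    have h3 := h2.clog (hδ1 _ (hexp δ hδ Z hZ)).1
    refine h3.congr_deriv ?_
    simp only [Function.comp]
    ring
  refine ⟨fun Z => n * Z + Complex.log (P.eval (Complex.exp (-Z))), R₁, Complex.log (P.eval 0),
    ?_, ?_, ?_, ?_, ?_⟩
  · intro Z hZ
    have h1 := (hδ1 _ (hexp δ hδ Z hZ)).1
    rw [Complex.exp_add, Complex.exp_log (Complex.slitPlane_ne_zero h1), hP Z]
    field_simp
  · intro Z hZ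
    exact (differentiableAt_id.const_mul _).add (hd Z hZ).differentiableAt
  · intro Z hZ Z' hZ' he
    have h1 : ‖Complex.log (P.eval (Complex.exp (-Z'))) - Complex.log (P.eval (Complex.exp (-Z)))‖ ≤
        1 / 2 * ‖Z' - Z‖ := by
      refine (convex_halfSpace_re_gt R₁).norm_image_sub_le_of_norm_hasDerivWithin_le
        (f := fun Z => Complex.log (P.eval (Complex.exp (-Z))))
        (fun X hX => (hd X hX).hasDerivWithinAt) ?_ hZ hZ'
      intro X hX
      rw [norm_neg]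
      exact (hδ1 _ (hexp δ hδ X hX)).2.le
    have h2 : Complex.log (P.eval (Complex.exp (-Z'))) - Complex.log (P.eval (Complex.exp (-Z))) =
        -(n * (Z' - Z)) := by
      have he' : n * Z + Complex.log (P.eval (Complex.exp (-Z))) =
        n * Z' + Complex.log (P.eval (Complex.exp (-Z'))) := he
      linear_combination -1 * he'
    rw [h2, norm_neg, norm_mul, Complex.norm_natCast] at h1
    have h3 : (3 : ℝ) ≤ n := by exact_mod_cast hn
    have h4 : ‖Z' - Z‖ = 0 := by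
      nlinarith [norm_nonneg (Z' - Z)]
    exact (sub_eq_zero.1 (norm_eq_zero.1 h4)).symm
  · intro Z k
    have h1 : Complex.exp (-(Z + 2 * Real.pi * Complex.I * k)) = Complex.exp (-Z) := by
      rw [Complex.exp_eq_exp_iff_exists_int]
      exact ⟨-k, by push_cast; ring⟩
    simp only [h1]
    ring
  · intro e he
    have hc : ContinuousAt (fun t : ℂ => Complex.log (P.eval t)) 0 :=
      P.continuous.continuousAt.clog hsl
    obtain ⟨δ', hδ', h1⟩ := Metric.continuousAt_iff.1 hc e he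
    refine ⟨-Real.log δ' + 1, fun Z hZ => ?_⟩
    have h2 := hexp δ' hδ' Z (by linarith)
    have h3 := h1 h2
    rw [dist_eq_norm] at h3
    have h4 : n * Z + Complex.log (P.eval (Complex.exp (-Z))) - n * Z - Complex.log (P.eval 0) =
      Complex.log (P.eval (Complex.exp (-Z))) - Complex.log (P.eval 0) := by ring
    rw [h4]
    exact h3.le

theorem asym (h : Dat n g c₀ c ε) {H : ℂ → ℂ} {R₁ : ℝ}
    (h1 : ∀ Z : ℂ, R₁ < Z.re → Complex.exp (H Z) = (g.eval (ch c₀ Z) - c₀) / (1 - c₀))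
    (h2 : ∀ Z : ℂ, R₁ < Z.re → DifferentiableAt ℂ H Z) :
    ∃ R₂ : ℝ, 0 < R₂ ∧ ∀ F, IsL g c₀ ε F → ∃ k : ℤ, ∀ X : ℂ, R₂ < X.re →
      R₁ < (F X).re ∧ H (F X) = X + 2 * Real.pi * Complex.I * k := by
  have hR := h.R_ne
  have hR0 : 0 < 1 - c₀ := by linarith [h.good.c1]
  obtain ⟨M, hM⟩ := (isCompact_closedBall (c₀ : ℂ) ((1 - c₀) * Real.exp R₁)).exists_bound_of_continuousOn
    (f := fun y => g.eval y - c₀) (g.continuous.sub continuous_const).continuousOn
  obtain ⟨R₂, hR2, hR2'⟩ : ∃ R₂ : ℝ, 0 < R₂ ∧ M < (1 - c₀) * Real.exp R₂ := by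
    refine ⟨max 1 (M / (1 - c₀)), lt_of_lt_of_le one_pos (le_max_left _ _), ?_⟩
    have h3 : M / (1 - c₀) < Real.exp (max 1 (M / (1 - c₀))) := by
      have := Real.add_one_le_exp (max 1 (M / (1 - c₀)))
      have := le_max_right 1 (M / (1 - c₀))
      linarith
    rw [div_lt_iff₀ hR0] at h3
    linarith
  refine ⟨R₂, hR2, fun F hF => ?_⟩
  have hDm : ∀ X : ℂ, R₂ < X.re → X ∈ Dm ε := fun X hX => by
    show -ε < X.re
    linarith [h.pos]
  have h3 : ∀ X : ℂ, R₂ < X.re → R₁ < (F X).re := by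
    intro X hX
    by_contra hcon
    push Not at hcon
    have h4 : ch c₀ (F X) ∈ closedBall (c₀ : ℂ) ((1 - c₀) * Real.exp R₁) := by
      rw [mem_closedBall, dist_eq_norm, norm_ch h.good.c1]
      exact mul_le_mul_of_nonneg_left (Real.exp_le_exp.2 hcon) hR0.le
    have h5 : ‖g.eval (ch c₀ (F X)) - c₀‖ ≤ M := hM _ h4
    rw [hF.eq X (hDm X hX), norm_ch h.good.c1] at h5
    have h6 : (1 - c₀) * Real.exp R₂ < (1 - c₀) * Real.exp X.re :=
      mul_lt_mul_of_pos_left (Real.exp_lt_exp.2 hX) hR0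
    linarith
  set S : Set ℂ := {X | R₂ < X.re} with hS
  have hSo : IsOpen S := isOpen_lt continuous_const Complex.continuous_re
  have hSc : IsPreconnected S := (convex_halfSpace_re_gt R₂).isPreconnected
  set T : ℂ → ℂ := fun X => H (F X) - X with hT
  have hTd : ∀ X ∈ S, DifferentiableAt ℂ T X := by
    intro X hX
    have hFd := hF.diff.differentiableAt ((Dm_open ε).mem_nhds (hDm X hX))
    exact ((h2 _ (h3 X hX)).comp X hFd).sub differentiableAt_id
  have hTe : ∀ X ∈ S, Complex.exp (T X) = 1 := by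
    intro X hX
    have h4 : Complex.exp (T X) = Complex.exp (H (F X)) / Complex.exp X := Complex.exp_sub _ _
    rw [h4, h1 _ (h3 X hX), hF.eq X (hDm X hX), ch]
    have := Complex.exp_ne_zero X
    field_simp
    ring
  have hT0 : S.EqOn (deriv T) 0 := by
    intro X hX
    have h5 := (hTd X hX).hasDerivAt.cexp
    have h6 : (fun X => Complex.exp (T X)) =ᶠ[𝓝 X] fun _ => (1 : ℂ) := by
      filter_upwards [hSo.mem_nhds hX] with Y hY
      exact hTe Y hY
    have h7 := h5.congr_of_eventuallyEq h6.symm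
    have h8 := h7.unique (hasDerivAt_const X (1 : ℂ))
    rw [hTe X hX, one_mul] at h8
    exact h8
  set X₁ : ℂ := ((R₂ + 1 : ℝ) : ℂ) with hX₁
  have hX1 : X₁ ∈ S := by
    show R₂ < X₁.re
    rw [hX₁, Complex.ofReal_re]
    linarith
  obtain ⟨k, hk⟩ := Complex.exp_eq_one_iff.1 (hTe X₁ hX1)
  refine ⟨k, fun X hX => ⟨h3 X hX, ?_⟩⟩
  have h9 : T X = T X₁ := hSo.is_const_of_deriv_eq_zero hSc
    (fun X hX => (hTd X hX).differentiableWithinAt) hT0 hX hX1
  have h10 : H (F X) = X + T X := by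
    rw [hT]
    ring
  rw [h10, h9, hk]
  ring

theorem contr_aux {Γ Γ' : ℂ → ℂ} (h1 : ∀ X ∈ HP, HasDerivAt Γ (Γ' X) X)
    (h2 : ∀ X ∈ HP, ‖Γ' X‖ ≤ 1) (h3 : ∀ X ∈ HP, Complex.exp X ≠ 1 → ‖Γ' X‖ < 1) :
    ∀ X ∈ HP, ∀ X' ∈ HP, X ≠ X' → ‖Γ X - Γ X'‖ < ‖X - X'‖ := by
  have hconv : Convex ℝ HP := convex_halfSpace_re_ge 0
  have hle : ∀ X ∈ HP, ∀ X' ∈ HP, ‖Γ X - Γ X'‖ ≤ ‖X - X'‖ := by
    intro X hX X' hX'
    have := hconv.norm_image_sub_le_of_norm_hasDerivWithin_le (f := Γ) (f' := Γ') (C := 1)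
      (fun Y hY => (h1 Y hY).hasDerivWithinAt) h2 hX' hX
    rwa [one_mul] at this
  intro X hX X' hX' hne
  -- the segment
  set W : ℝ → ℂ := fun t => X + t * (X' - X) with hW
  have hd0 : X' - X ≠ 0 := sub_ne_zero.2 (Ne.symm hne)
  have hWHP : ∀ t : ℝ, 0 ≤ t → t ≤ 1 → W t ∈ HP := by
    intro t h0 h1
    show 0 ≤ (X + t * (X' - X)).re
    have e : (X + t * (X' - X)).re = (1 - t) * X.re + t * X'.re := by
      simp
      ring
    rw [e]
    have hX0 : 0 ≤ X.re := hX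
    have hX1 : 0 ≤ X'.re := hX'
    have : 0 ≤ 1 - t := by linarith
    positivity
  have hWs : ∀ s t : ℝ, W s - W t = ((s - t : ℝ) : ℂ) * (X' - X) := by
    intro s t
    rw [hW]
    push_cast
    ring
  -- a parameter with `exp (W t) ≠ 1`
  obtain ⟨t, ht0, ht1, ht⟩ : ∃ t : ℝ, 0 < t ∧ t < 1 ∧ Complex.exp (W t) ≠ 1 := by
    by_contra hcon
    push Not at hcon
    have hder : HasDerivAt (fun t : ℝ => Complex.exp (W t)) (Complex.exp (W (1 / 2)) * (X' - X))
        (1 / 2 : ℝ) := by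
      have h5 : HasDerivAt W (X' - X) (1 / 2 : ℝ) := by
        have h6 : HasDerivAt (fun t : ℝ => (t : ℂ)) 1 (1 / 2 : ℝ) := Complex.ofRealCLM.hasDerivAt
        have h7 := (h6.mul_const (X' - X)).const_add X
        rw [one_mul] at h7
        exact h7
      exact h5.cexp
    have hev : (fun _ : ℝ => (1 : ℂ)) =ᶠ[𝓝 (1 / 2 : ℝ)] (fun t : ℝ => Complex.exp (W t)) := by
      filter_upwards [Ioo_mem_nhds (show (0 : ℝ) < 1 / 2 by norm_num)
        (show (1 / 2 : ℝ) < 1 by norm_num)] with t ht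
      exact (hcon t ht.1 ht.2).symm
    have h8 := (hder.congr_of_eventuallyEq hev).unique (hasDerivAt_const _ _)
    exact hd0 ((mul_eq_zero.1 h8).resolve_left (Complex.exp_ne_zero _))
  have htHP := hWHP t ht0.le ht1.le
  have hlt := h3 _ htHP ht
  -- a nearby point with strict inequality
  have hlo : ∀ᶠ Y in 𝓝 (W t), ‖Γ Y - Γ (W t)‖ ≤ (1 + ‖Γ' (W t)‖) / 2 * ‖Y - W t‖ := by
    have h5 := (h1 _ htHP).isLittleO
    have h6 := h5.def (show 0 < (1 - ‖Γ' (W t)‖) / 2 by linarith)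
    filter_upwards [h6] with Y hY
    have h7 : ‖Γ Y - Γ (W t)‖ ≤ ‖Γ Y - Γ (W t) - (Y - W t) • Γ' (W t)‖ + ‖(Y - W t) • Γ' (W t)‖ := by
      have := norm_add_le (Γ Y - Γ (W t) - (Y - W t) • Γ' (W t)) ((Y - W t) • Γ' (W t))
      rwa [sub_add_cancel] at this
    rw [norm_smul] at h7
    have h8 : ‖Γ Y - Γ (W t) - (Y - W t) • Γ' (W t)‖ ≤ (1 - ‖Γ' (W t)‖) / 2 * ‖Y - W t‖ := by
      simpa using hY
    nlinarith [norm_nonneg (Y - W t)]
  have hWc : ContinuousAt W t := by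
    apply Continuous.continuousAt
    rw [hW]
    fun_prop
  have hev : ∀ᶠ s in 𝓝 t, ‖Γ (W s) - Γ (W t)‖ ≤ (1 + ‖Γ' (W t)‖) / 2 * ‖W s - W t‖ :=
    hWc.eventually hlo
  obtain ⟨δ, hδ, hδ1⟩ := Metric.eventually_nhds_iff_ball.1 hev
  obtain ⟨s, hs1, hs2⟩ : ∃ s, t < s ∧ s < min 1 (t + δ) :=
    exists_between (lt_min ht1 (by linarith))
  have hsb : s ∈ ball t δ := by
    rw [mem_ball, Real.dist_eq, abs_lt]
    constructor <;> linarith [hs2.trans_le (min_le_right _ _)]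
  have hs3 := hδ1 s hsb
  have hs4 : s < 1 := hs2.trans_le (min_le_left _ _)
  have hsHP := hWHP s (by linarith) hs4.le
  have hpos : 0 < ‖W s - W t‖ := by
    rw [norm_pos_iff, hWs]
    exact mul_ne_zero (by rw [Complex.ofReal_ne_zero]; linarith) hd0
  have hs5 : ‖Γ (W s) - Γ (W t)‖ < ‖W s - W t‖ := by
    nlinarith
  have hW0 : W 0 = X := by simp [hW]
  have hW1 : W 1 = X' := by simp [hW]
  have a1 : ‖Γ X - Γ (W t)‖ ≤ ‖X - W t‖ := hle X hX _ htHP
  have a2 : ‖Γ (W s) - Γ X'‖ ≤ ‖W s - X'‖ := hle _ hsHP X' hX'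
  have b1 : ‖X - W t‖ = t * ‖X' - X‖ := by
    rw [← hW0, hWs, hW0, norm_mul, Complex.norm_real, Real.norm_eq_abs, zero_sub, abs_neg,
      abs_of_pos ht0]
  have b2 : ‖W s - X'‖ = (1 - s) * ‖X' - X‖ := by
    rw [← hW1, hWs, hW1, norm_mul, Complex.norm_real, Real.norm_eq_abs, abs_sub_comm,
      abs_of_pos (by linarith)]
  have b3 : ‖W s - W t‖ = (s - t) * ‖X' - X‖ := by
    rw [hWs, norm_mul, Complex.norm_real, Real.norm_eq_abs, abs_of_pos (by linarith)]
  have c1 : ‖Γ X - Γ X'‖ ≤ ‖Γ X - Γ (W t)‖ + ‖Γ (W s) - Γ (W t)‖ + ‖Γ (W s) - Γ X'‖ := by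
    have d1 : Γ X - Γ X' = (Γ X - Γ (W t)) + -(Γ (W s) - Γ (W t)) + (Γ (W s) - Γ X') := by ring
    rw [d1]
    refine (norm_add_le _ _).trans (add_le_add ((norm_add_le _ _).trans ?_) le_rfl)
    rw [norm_neg]
  rw [norm_sub_rev X X']
  linarith

theorem conj_eval (h : Good n g c₀ c) (y : ℂ) : g.eval (conj y) = conj (g.eval y) := by
  rw [eval_eq_sum_range, eval_eq_sum_range, map_sum]
  apply Finset.sum_congr rfl
  intro i _
  have h2 : conj (g.coeff i) = g.coeff i := by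
    apply Complex.ext
    · simp
    · simp [h.real i]
  rw [map_mul, map_pow, h2]

theorem conj_ch (c₀ : ℝ) (X : ℂ) : ch c₀ (conj X) = conj (ch c₀ X) := by
  unfold ch
  rw [Complex.exp_conj]
  simp

end CH1aux

open CH1aux in
theorem t_CH1 : S_CH1 := by
  intro n g c₀ c hg
  obtain ⟨ε, hε, hcr, hct⟩ := exists_eps hg
  have h : Dat n g c₀ c ε := ⟨hg, hε, hcr, hct⟩
  have hn := hg.n3
  have hn0 : (n : ℂ) ≠ 0 := by
    rw [Nat.cast_ne_zero]
    omega
  have hR0 : 0 < 1 - c₀ := by linarith [hg.c1]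
  have hR := h.R_ne
  have hHD := HP_sub hε
  have h00 : (0 : ℂ) ∈ Dm ε := by
    show -ε < (0 : ℂ).re
    simpa using hε
  obtain ⟨Γ, hΓ, hΓ0⟩ := exists_lift h (X₀ := 0) (Z₀ := 0) h00 (by rw [ch_zero, hg.fix])
  obtain ⟨H, R₁, l, hH1, hH2, hH3, hH4, hH5⟩ := exists_H hg
  obtain ⟨R₂, hR2, has⟩ := asym h hH1 hH2
  have hDm2 : ∀ X : ℂ, R₂ < X.re → X ∈ Dm ε := fun X hX => by
    show -ε < X.re
    linarith [h.pos]
  -- two lifts differ by a shift
  have huni : ∀ F₁ F₂ : ℂ → ℂ, IsL g c₀ ε F₁ → IsL g c₀ ε F₂ → ∀ k₁ k₂ : ℤ,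
      (∀ X : ℂ, R₂ < X.re → H (F₁ X) = X + 2 * Real.pi * Complex.I * k₁) →
      (∀ X : ℂ, R₂ < X.re → H (F₂ X) = X + 2 * Real.pi * Complex.I * k₂) →
      ∀ X ∈ Dm ε, F₁ X = F₂ (X + 2 * Real.pi * Complex.I * (k₁ - k₂ : ℤ)) := by
    intro F₁ F₂ hF₁ hF₂ k₁ k₂ e1 e2
    set X₁ : ℂ := ((R₂ + 1 : ℝ) : ℂ) with hX₁
    have hX1 : R₂ < X₁.re := by
      rw [hX₁, Complex.ofReal_re]
      linarith
    have hX1' : R₂ < (X₁ + 2 * Real.pi * Complex.I * (k₁ - k₂ : ℤ)).re := by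
      have e : (X₁ + 2 * Real.pi * Complex.I * (k₁ - k₂ : ℤ)).re = X₁.re := by
        simp
      rw [e]
      exact hX1
    obtain ⟨k₁', hk₁⟩ := has F₁ hF₁
    obtain ⟨k₂', hk₂⟩ := has F₂ hF₂
    refine lift_unique h hF₁ (hF₂.shift (k₁ - k₂)) (hDm2 X₁ hX1) ?_
    apply hH3 _ (hk₁ X₁ hX1).1 _ (hk₂ _ hX1').1
    rw [e1 X₁ hX1, e2 _ hX1']
    push_cast
    ring
  obtain ⟨k, hk⟩ := has Γ hΓ
  have hk1 : ∀ X : ℂ, R₂ < X.re → R₁ < (Γ X).re := fun X hX => (hk X hX).1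
  have hk2 : ∀ X : ℂ, R₂ < X.re → H (Γ X) = X + 2 * Real.pi * Complex.I * k :=
    fun X hX => (hk X hX).2
  have hmaps : ∀ X ∈ HP, Γ X ∈ HP := by
    intro X hX
    by_contra hcon
    have hcon' : (Γ X).re < 0 := not_le.1 hcon
    have h1 : ‖ch c₀ (Γ X) - c₀‖ < 1 - c₀ := by
      rw [norm_ch hg.c1]
      calc (1 - c₀) * Real.exp (Γ X).re < (1 - c₀) * 1 :=
            mul_lt_mul_of_pos_left (by rw [← Real.exp_zero]; exact Real.exp_lt_exp.2 hcon') hR0
        _ = 1 - c₀ := mul_one _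
    have h2 : ‖ch c₀ (Γ X)‖ < 1 := by
      have h3 : ch c₀ (Γ X) = (ch c₀ (Γ X) - c₀) + c₀ := by ring
      rw [h3]
      refine (norm_add_le _ _).trans_lt ?_
      rw [Complex.norm_real, Real.norm_of_nonneg hg.c0.le]
      linarith
    have h4 := hg.disc _ h2.le (by
      intro h5
      rw [h5] at h2
      simp at h2)
    rw [hΓ.eq X (hHD hX), norm_ch hg.c1] at h4
    have h5 : (1 : ℝ) ≤ Real.exp X.re := Real.one_le_exp hX
    nlinarith
  have hcont : ContinuousOn Γ HP := hΓ.diff.continuousOn.mono hHD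
  have hper : ∀ X ∈ HP, Γ (X + 2 * Real.pi * Complex.I * n) = Γ X + 2 * Real.pi * Complex.I := by
    intro X hX
    have h1 := huni _ _ (hΓ.add 1) hΓ (k + n) k (by
      intro X hX
      show H (Γ X + 2 * Real.pi * Complex.I * (1 : ℤ)) = _
      rw [hH4, hk2 X hX]
      push_cast
      ring) hk2 X (hHD hX)
    have h2 : (k + n - k : ℤ) = n := by ring
    rw [h2] at h1
    simp only [Int.cast_natCast, Int.cast_one, mul_one] at h1
    exact h1.symm
  have hlim : ∃ L : ℂ, ∀ ε : ℝ, 0 < ε → ∃ R : ℝ, ∀ X : ℂ, R ≤ X.re → ‖Γ X - X / n - L‖ ≤ ε := by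
    refine ⟨(2 * Real.pi * Complex.I * k - l) / n, fun e he => ?_⟩
    obtain ⟨R', hR'⟩ := hH5 e he
    -- `Γ X` has large real part
    obtain ⟨M, hM⟩ := (isCompact_closedBall (c₀ : ℂ) ((1 - c₀) * Real.exp R')).exists_bound_of_continuousOn
      (f := fun y => g.eval y - c₀) (g.continuous.sub continuous_const).continuousOn
    refine ⟨max (R₂ + 1) (M / (1 - c₀)), fun X hX => ?_⟩
    have hX1 : R₂ < X.re := by linarith [le_max_left (R₂ + 1) (M / (1 - c₀))]
    have hX2 : M / (1 - c₀) ≤ X.re := (le_max_right _ _).trans hX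
    have hX3 : R' ≤ (Γ X).re := by
      by_contra hcon
      push Not at hcon
      have h4 : ch c₀ (Γ X) ∈ closedBall (c₀ : ℂ) ((1 - c₀) * Real.exp R') := by
        rw [mem_closedBall, dist_eq_norm, norm_ch hg.c1]
        exact mul_le_mul_of_nonneg_left (Real.exp_le_exp.2 hcon.le) hR0.le
      have h5 : ‖g.eval (ch c₀ (Γ X)) - c₀‖ ≤ M := hM _ h4
      rw [hΓ.eq X (hDm2 X hX1), norm_ch hg.c1] at h5
      rw [div_le_iff₀ hR0] at hX2
      have h6 := Real.add_one_le_exp X.re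
      nlinarith
    have h7 := hR' _ hX3
    rw [hk2 X hX1] at h7
    have h8 : Γ X - X / n - (2 * Real.pi * Complex.I * k - l) / n =
        -(X + 2 * Real.pi * Complex.I * k - n * Γ X - l) / n := by
      field_simp
      ring
    rw [h8, norm_div, norm_neg, Complex.norm_natCast]
    have h9 : (1 : ℝ) ≤ n := by exact_mod_cast (by omega : 1 ≤ n)
    calc _ ≤ ‖X + 2 * Real.pi * Complex.I * k - n * Γ X - l‖ := div_le_self (norm_nonneg _) h9
      _ ≤ e := h7
  have hinj : InjOn Γ HP := by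
    intro X hX X' hX' he
    have h1 : ch c₀ X = ch c₀ X' := by
      rw [← hΓ.eq X (hHD hX), ← hΓ.eq X' (hHD hX'), he]
    obtain ⟨j, hj⟩ := ch_eq hg.c1 h1
    have h2 : ∀ Y ∈ Dm ε, Γ (Y + 2 * Real.pi * Complex.I * j) = Γ Y :=
      lift_unique h (hΓ.shift j) hΓ (hHD hX) (by
        show Γ (X + 2 * Real.pi * Complex.I * j) = Γ X
        rw [← hj, he])
    set X₁ : ℂ := ((R₂ + 1 : ℝ) : ℂ) with hX₁
    have hX1 : R₂ < X₁.re := by
      rw [hX₁, Complex.ofReal_re]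
      linarith
    have hX1' : R₂ < (X₁ + 2 * Real.pi * Complex.I * j).re := by
      have e : (X₁ + 2 * Real.pi * Complex.I * j).re = X₁.re := by
        simp
      rw [e]
      exact hX1
    have h3 := hk2 _ hX1'
    rw [h2 X₁ (hDm2 X₁ hX1), hk2 X₁ hX1] at h3
    have h4 : 2 * Real.pi * Complex.I * j = 0 := by linear_combination -h3
    rw [hj, h4, add_zero]
  have hsymm : ∀ X ∈ HP, Γ (conj X) = conj (Γ X) := by
    intro X hX
    have hmem : ∀ Y ∈ Dm ε, conj Y ∈ Dm ε := by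
      intro Y hY
      show -ε < (conj Y).re
      rw [Complex.conj_re]
      exact hY
    have hF : IsL g c₀ ε (fun X => conj (Γ (conj X))) := by
      constructor
      · intro Y hY
        have h1 := hΓ.diff.differentiableAt ((Dm_open ε).mem_nhds (hmem Y hY))
        have h2 := h1.conj_conj
        rw [Complex.conj_conj] at h2
        exact h2.differentiableWithinAt
      · intro Y hY
        show g.eval (ch c₀ (conj (Γ (conj Y)))) = ch c₀ Y
        rw [conj_ch, conj_eval hg, hΓ.eq _ (hmem Y hY), conj_ch, Complex.conj_conj]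
    have h3 := lift_unique h hF hΓ h00 (by
      show conj (Γ (conj 0)) = Γ 0
      rw [map_zero, hΓ0, map_zero]) X (hHD hX)
    rw [← h3, Complex.conj_conj]
  have hall : ∀ X ∈ HP, ∀ y : ℂ, g.eval y = ch c₀ X →
      ∃ k : ℤ, y = ch c₀ (Γ (X + 2 * Real.pi * Complex.I * k)) := by
    intro X hX y hy
    have hyc : y - c₀ ≠ 0 := by
      intro h0
      have h1 := hct
      rw [sub_eq_zero] at h0
      rw [← h0, hy, h0] at h1
      exact lt_irrefl _ (h1.trans (h.low (hHD hX)))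
    have hch : ch c₀ (Complex.log ((y - c₀) / (1 - c₀))) = y := by
      rw [ch, Complex.exp_log (div_ne_zero hyc hR)]
      field_simp
      ring
    obtain ⟨F, hF, hF0⟩ := exists_lift h (X₀ := X) (Z₀ := Complex.log ((y - c₀) / (1 - c₀)))
      (hHD hX) (by rw [hch, hy])
    obtain ⟨k', hk'⟩ := has F hF
    refine ⟨k' - k, ?_⟩
    rw [← huni F Γ hF hΓ k' k (fun X hX => (hk' X hX).2) hk2 X (hHD hX), hF0, hch]
  have hcontr : ∀ X ∈ HP, ∀ X' ∈ HP, X ≠ X' → ‖Γ X - Γ X'‖ < ‖X - X'‖ := by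
    have hval : ∀ X ∈ HP, ch c₀ (Γ X) ≠ 1 →
        ‖(g.derivative.eval (ch c₀ (Γ X)) * ((1 - c₀) * Complex.exp (Γ X)))⁻¹ *
          ((1 - c₀) * Complex.exp X)‖ < 1 := by
      intro X hX hne
      have h1 : ((1 : ℂ) - c₀) * Complex.exp X = g.eval (ch c₀ (Γ X)) - c₀ := by
        rw [hΓ.eq X (hHD hX), ch]
        ring
      have h2 : ((1 : ℂ) - c₀) * Complex.exp (Γ X) = ch c₀ (Γ X) - c₀ := by
        rw [ch]
        ring
      have h3 : 1 - c₀ ≤ ‖g.eval (ch c₀ (Γ X)) - c₀‖ := by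
        rw [hΓ.eq X (hHD hX), norm_ch hg.c1]
        have h5 : (1 : ℝ) ≤ Real.exp X.re := Real.one_le_exp hX
        nlinarith
      have h4 := hg.expd _ hne h3
      rw [h1, h2, norm_mul, norm_inv, norm_mul, inv_mul_lt_iff₀ (by linarith [norm_nonneg (g.eval (ch c₀ (Γ X)) - c₀)]),
        mul_one]
      exact h4
    apply contr_aux (Γ' := fun X => (g.derivative.eval (ch c₀ (Γ X)) *
      ((1 - c₀) * Complex.exp (Γ X)))⁻¹ * ((1 - c₀) * Complex.exp X))
    · intro X hX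
      exact IsL.hasDeriv h hΓ.diff.continuousOn hΓ.eq (hHD hX)
    · intro X hX
      by_cases hne : ch c₀ (Γ X) = 1
      · have h1 : ((1 : ℂ) - c₀) * Complex.exp X = g.eval (ch c₀ (Γ X)) - c₀ := by
          rw [hΓ.eq X (hHD hX), ch]
          ring
        have h2 : ((1 : ℂ) - c₀) * Complex.exp (Γ X) = ch c₀ (Γ X) - c₀ := by
          rw [ch]
          ring
        rw [h1, h2, hne, hg.fix, hg.der, one_mul, inv_mul_cancel₀ hR, norm_one]
      · exact (hval X hX hne).le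
    · intro X hX hX1
      apply hval X hX
      intro hne
      apply hX1
      have h1 := hΓ.eq X (hHD hX)
      rw [hne, hg.fix] at h1
      have h2 : ((1 : ℂ) - c₀) * (Complex.exp X - 1) = 0 := by
        rw [ch] at h1
        linear_combination -h1
      exact sub_eq_zero.1 ((mul_eq_zero.1 h2).resolve_left hR)
  -- the bound
  have hfar : ∃ C : ℝ, ∀ X ∈ HP, ‖Γ X - X / n‖ ≤ C := by
    obtain ⟨L, hL⟩ := hlim
    obtain ⟨R, hRR⟩ := hL 1 one_pos
    set K : Set ℂ := {X : ℂ | 0 ≤ X.re ∧ X.re ≤ R ∧ 0 ≤ X.im ∧ X.im ≤ 2 * Real.pi * n} with hK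
    have hKc : IsCompact K := by
      have : K = (Icc 0 R) ×ℂ (Icc 0 (2 * Real.pi * n)) := by
        ext X
        simp [hK, Complex.mem_reProdIm, and_assoc]
      rw [this]
      exact isCompact_Icc.reProdIm isCompact_Icc
    have hKH : K ⊆ HP := fun X hX => hX.1
    obtain ⟨M, hM⟩ := hKc.exists_bound_of_continuousOn (f := fun X => Γ X - X / n)
      ((hcont.mono hKH).sub (by fun_prop))
    refine ⟨max M (‖L‖ + 1), fun X hX => ?_⟩
    by_cases hXR : R ≤ X.re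
    · have h1 := hRR X hXR
      have h2 : ‖Γ X - X / n‖ ≤ ‖Γ X - X / n - L‖ + ‖L‖ := by
        have := norm_add_le (Γ X - X / n - L) L
        rwa [sub_add_cancel] at this
      exact (by linarith : ‖Γ X - X / n‖ ≤ ‖L‖ + 1).trans (le_max_right _ _)
    · push Not at hXR
      -- periodicity
      have hstep : ∀ m : ℤ, ∀ Y ∈ HP, Γ (Y + 2 * Real.pi * Complex.I * n * m) -
          (Y + 2 * Real.pi * Complex.I * n * m) / n = Γ Y - Y / n := by
        have hHPs : ∀ m : ℤ, ∀ Y ∈ HP, Y + 2 * Real.pi * Complex.I * n * m ∈ HP := by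
          intro m Y hY
          have e : (Y + 2 * Real.pi * Complex.I * n * m).re = Y.re := by
            simp
          show 0 ≤ (Y + 2 * Real.pi * Complex.I * n * m).re
          rw [e]
          exact hY
        have h1 : ∀ Y ∈ HP, Γ (Y + 2 * Real.pi * Complex.I * n) - (Y + 2 * Real.pi * Complex.I * n) / n
            = Γ Y - Y / n := by
          intro Y hY
          rw [hper Y hY]
          field_simp
          ring
        intro m
        induction m using Int.induction_on with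
        | zero => intro Y _; simp
        | succ m ih =>
          intro Y hY
          rw [← ih Y hY, ← h1 _ (hHPs m Y hY)]
          push_cast
          have e : Y + 2 * Real.pi * Complex.I * n * (m + 1) =
            Y + 2 * Real.pi * Complex.I * n * m + 2 * Real.pi * Complex.I * n := by ring
          rw [e]
        | pred m ih =>
          intro Y hY
          rw [← ih Y hY, ← h1 _ (hHPs (-m - 1) Y hY)]
          push_cast
          have e : Y + 2 * Real.pi * Complex.I * n * (-m - 1) + 2 * Real.pi * Complex.I * n =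
            Y + 2 * Real.pi * Complex.I * n * (-m) := by ring
          rw [e]
      have hpn : (0 : ℝ) < 2 * Real.pi * n := by
        have : (0 : ℝ) < n := by exact_mod_cast (by omega : 0 < n)
        have := Real.pi_pos
        positivity
      set m : ℤ := ⌊X.im / (2 * Real.pi * n)⌋ with hm
      have hm1 := Int.floor_le (X.im / (2 * Real.pi * n))
      have hm2 := Int.lt_floor_add_one (X.im / (2 * Real.pi * n))
      rw [← hm, le_div_iff₀ hpn] at hm1
      rw [← hm, div_lt_iff₀ hpn] at hm2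
      set Y : ℂ := X + 2 * Real.pi * Complex.I * n * (-m : ℤ) with hY
      have hYre : Y.re = X.re := by simp [hY]
      have hYim : Y.im = X.im - 2 * Real.pi * n * m := by
        simp [hY]
        ring
      have hYK : Y ∈ K := by
        refine ⟨?_, ?_, ?_, ?_⟩
        · rw [hYre]; exact hX
        · rw [hYre]; exact hXR.le
        · rw [hYim]; linarith
        · rw [hYim]; linarith
      have h2 := hM Y hYK
      rw [← hstep (-m) X hX]
      exact h2.trans (le_max_left _ _)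
  obtain ⟨C, hC⟩ := hfar
  exact ⟨Γ, C, ⟨hcont, hΓ.diff.mono fun X (hX : 0 < X.re) => hHD hX.le, hmaps,
    fun X hX => hΓ.eq X (hHD hX), hper, hΓ0, hinj, hsymm, hall, hcontr, hC, hlim⟩⟩

end Pool.Agent.H212.ND
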