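import Pool.Agent.H212.ND.StmT

/-!
# Project ND (helper212), job CH2: uniform contraction
-/

set_option autoImplicit false

open Filter Metric Set Topology Polynomial
open scoped ComplexConjugate

namespace Pool.Agent.H212.ND

namespace CH2aux

variable {n : ℕ} {g : ℂ[X]} {c₀ : ℝ} {Γ : ℂ → ℂ} {C : ℝ}

theorem hp_shift {X : ℂ} (hX : X ∈ HP) (k : ℤ) : X + 2 * Real.pi * Complex.I * n * k ∈ HP := by
  show 0 ≤ (X + 2 * Real.pi * Complex.I * n * k).re
  have h : (X + 2 * Real.pi * Complex.I * n * k).re = X.re := by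
    simp [Complex.add_re, Complex.mul_re, Complex.mul_im]
  rw [h]
  exact hX

theorem per_nat (h : Inv n g c₀ Γ C) (k : ℕ) : ∀ X ∈ HP,
    Γ (X + 2 * Real.pi * Complex.I * n * (k : ℤ)) = Γ X + 2 * Real.pi * Complex.I * (k : ℤ) := by
  induction k with
  | zero => intro X _; simp
  | succ k ih =>
    intro X hX
    have h1 := h.per _ (hp_shift (n := n) hX (k : ℤ))
    rw [ih X hX] at h1
    have h2 : X + 2 * Real.pi * Complex.I * n * ((k + 1 : ℕ) : ℤ) =
        X + 2 * Real.pi * Complex.I * n * (k : ℤ) + 2 * Real.pi * Complex.I * n := by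
      push_cast
      ring
    rw [h2, h1]
    push_cast
    ring

theorem per_int (h : Inv n g c₀ Γ C) (k : ℤ) : ∀ X ∈ HP,
    Γ (X + 2 * Real.pi * Complex.I * n * k) = Γ X + 2 * Real.pi * Complex.I * k := by
  intro X hX
  rcases Int.eq_nat_or_neg k with ⟨j, rfl | rfl⟩
  · exact per_nat h j X hX
  · have h1 := per_nat h j _ (hp_shift (n := n) hX (-(j : ℤ)))
    have h2 : X + 2 * Real.pi * Complex.I * n * ((-(j : ℤ) : ℤ) : ℂ) +
        2 * Real.pi * Complex.I * n * ((j : ℤ) : ℂ) = X := by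
      push_cast
      ring
    rw [h2] at h1
    rw [h1]
    push_cast
    ring

/-- the compact set of pairs -/
def K (n : ℕ) (R C₁ ε : ℝ) : Set (ℂ × ℂ) :=
  {p | 0 ≤ p.1.re ∧ p.1.re ≤ R ∧ 0 ≤ p.1.im ∧ p.1.im ≤ 2 * Real.pi * n ∧ 0 ≤ p.2.re ∧
    ε ≤ ‖p.1 - p.2‖ ∧ ‖p.1 - p.2‖ ≤ C₁}

theorem K_compact (n : ℕ) (R C₁ ε : ℝ) : IsCompact (K n R C₁ ε) := by
  have hcl : IsClosed (K n R C₁ ε) := by
    unfold K
    have c1 : Continuous fun p : ℂ × ℂ => p.1.re := Complex.continuous_re.comp continuous_fst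
    have c2 : Continuous fun p : ℂ × ℂ => p.1.im := Complex.continuous_im.comp continuous_fst
    have c3 : Continuous fun p : ℂ × ℂ => p.2.re := Complex.continuous_re.comp continuous_snd
    have c4 : Continuous fun p : ℂ × ℂ => ‖p.1 - p.2‖ :=
      (continuous_fst.sub continuous_snd).norm
    exact (isClosed_le continuous_const c1).inter ((isClosed_le c1 continuous_const).inter
      ((isClosed_le continuous_const c2).inter ((isClosed_le c2 continuous_const).inter
      ((isClosed_le continuous_const c3).inter ((isClosed_le continuous_const c4).inter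
      (isClosed_le c4 continuous_const))))))
  refine (isCompact_closedBall (0 : ℂ × ℂ) (|R| + 2 * Real.pi * n + |C₁|)).of_isClosed_subset hcl ?_
  rintro ⟨X, Y⟩ ⟨h1, h2, h3, h4, h5, h6, h7⟩
  have hX : ‖X‖ ≤ |R| + 2 * Real.pi * n := by
    have h8 := Complex.norm_le_abs_re_add_abs_im X
    have h9 : |X.re| ≤ |R| := by
      rw [abs_of_nonneg h1]
      exact h2.trans (le_abs_self R)
    have h10 : |X.im| ≤ 2 * Real.pi * n := by
      rw [abs_of_nonneg h3]
      exact h4
    linarith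
  have hC : (0 : ℝ) ≤ |C₁| := abs_nonneg _
  have hY : ‖Y‖ ≤ |R| + 2 * Real.pi * n + |C₁| := by
    have h8 : ‖Y‖ ≤ ‖X‖ + ‖X - Y‖ := by
      have h9 : Y = X - (X - Y) := by ring
      calc ‖Y‖ = ‖X - (X - Y)‖ := by rw [← h9]
        _ ≤ _ := norm_sub_le _ _
    have h10 : ‖X - Y‖ ≤ |C₁| := le_trans h7 (le_abs_self _)
    linarith
  rw [mem_closedBall_zero_iff, Prod.norm_def]
  exact max_le (by linarith) hY

/-- the contraction by a definite amount -/
theorem step (hn : 3 ≤ n) (h : Inv n g c₀ Γ C) (C₁ ε : ℝ) (hε : 0 < ε) :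
    ∃ δ : ℝ, 0 < δ ∧ ∀ X ∈ HP, ∀ Y ∈ HP, ε ≤ ‖X - Y‖ → ‖X - Y‖ ≤ C₁ →
      ‖Γ X - Γ Y‖ ≤ ‖X - Y‖ - δ := by
  obtain ⟨L, hL⟩ := h.lim
  obtain ⟨R, hR⟩ := hL (ε / 8) (by positivity)
  have hn0 : (0 : ℝ) < n := by exact_mod_cast (by omega : 0 < n)
  have hpi := Real.pi_pos
  -- the compact part
  have hcomp : ∃ δ : ℝ, 0 < δ ∧ ∀ p ∈ K n (R + C₁) C₁ ε, ‖Γ p.1 - Γ p.2‖ ≤ ‖p.1 - p.2‖ - δ := by
    rcases (K n (R + C₁) C₁ ε).eq_empty_or_nonempty with hE | hE
    · refine ⟨1, one_pos, fun p hp => ?_⟩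
      rw [hE] at hp
      exact absurd hp (Set.notMem_empty p)
    · have hcont : ContinuousOn (fun p : ℂ × ℂ => ‖p.1 - p.2‖ - ‖Γ p.1 - Γ p.2‖)
          (K n (R + C₁) C₁ ε) := by
        refine ContinuousOn.sub ((continuous_fst.sub continuous_snd).norm.continuousOn) ?_
        refine ContinuousOn.norm (ContinuousOn.sub ?_ ?_)
        · exact h.cont.comp continuous_fst.continuousOn fun p hp => hp.1
        · exact h.cont.comp continuous_snd.continuousOn fun p hp => hp.2.2.2.2.1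
      obtain ⟨p, hp, hmin⟩ := (K_compact n (R + C₁) C₁ ε).exists_isMinOn hE hcont
      refine ⟨‖p.1 - p.2‖ - ‖Γ p.1 - Γ p.2‖, ?_, fun q hq => ?_⟩
      · have hne : p.1 ≠ p.2 := by
          intro h0
          have h1 := hp.2.2.2.2.2.1
          rw [h0, sub_self, norm_zero] at h1
          linarith
        have h1 := h.contr p.1 hp.1 p.2 hp.2.2.2.2.1 hne
        linarith
      · have h1 := hmin hq
        simp only at h1
        have h2 : ‖p.1 - p.2‖ - ‖Γ p.1 - Γ p.2‖ ≤ ‖q.1 - q.2‖ - ‖Γ q.1 - Γ q.2‖ := h1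
        linarith
  obtain ⟨δ, hδ, hδ2⟩ := hcomp
  refine ⟨min δ (ε / 4), lt_min hδ (by positivity), fun X hX Y hY h1 h2 => ?_⟩
  by_cases hcase : X.re ≤ R + C₁
  · -- translate
    obtain ⟨k, hk1, hk2⟩ : ∃ k : ℤ, 0 ≤ X.im + 2 * Real.pi * n * k ∧
        X.im + 2 * Real.pi * n * k ≤ 2 * Real.pi * n := by
      refine ⟨-⌊X.im / (2 * Real.pi * n)⌋, ?_, ?_⟩
      · have h3 := Int.floor_le (X.im / (2 * Real.pi * n))
        rw [le_div_iff₀ (by positivity)] at h3
        push_cast
        linarith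
      · have h3 := Int.lt_floor_add_one (X.im / (2 * Real.pi * n))
        rw [div_lt_iff₀ (by positivity)] at h3
        push_cast
        linarith
    have h4 : (X + 2 * Real.pi * Complex.I * n * k) - (Y + 2 * Real.pi * Complex.I * n * k) =
        X - Y := by ring
    have h5 := hδ2 (X + 2 * Real.pi * Complex.I * n * k, Y + 2 * Real.pi * Complex.I * n * k)
      (by
        have hre : (X + 2 * Real.pi * Complex.I * n * k).re = X.re := by
          simp [Complex.add_re, Complex.mul_re, Complex.mul_im]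
        have him : (X + 2 * Real.pi * Complex.I * n * k).im = X.im + 2 * Real.pi * n * k := by
          simp [Complex.add_im, Complex.mul_re, Complex.mul_im]
        refine ⟨?_, ?_, ?_, ?_, ?_, ?_, ?_⟩
        · exact hp_shift (n := n) hX k
        · rw [hre]; exact hcase
        · rw [him]; exact hk1
        · rw [him]; exact hk2
        · exact hp_shift (n := n) hY k
        · rw [h4]; exact h1
        · rw [h4]; exact h2)
    simp only at h5
    rw [per_int h k X hX, per_int h k Y hY, h4] at h5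
    have h6 : Γ X + 2 * Real.pi * Complex.I * k - (Γ Y + 2 * Real.pi * Complex.I * k) =
        Γ X - Γ Y := by ring
    rw [h6] at h5
    have h7 := min_le_left δ (ε / 4)
    linarith
  · push Not at hcase
    have h3 : R ≤ X.re := by linarith [norm_nonneg (X - Y)]
    have h4 : R ≤ Y.re := by
      have h5 := (Complex.abs_re_le_norm (X - Y)).trans h2
      rw [Complex.sub_re] at h5
      have h6 := (abs_le.1 h5).2
      linarith
    have h5 := hR X h3
    have h6 := hR Y h4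
    have h7 : Γ X - Γ Y = (Γ X - X / n - L) - (Γ Y - Y / n - L) + (X - Y) / n := by ring
    have h8 : ‖(X - Y) / (n : ℂ)‖ ≤ ‖X - Y‖ / 2 := by
      rw [norm_div, Complex.norm_natCast]
      refine div_le_div_of_nonneg_left (norm_nonneg _) two_pos ?_
      exact_mod_cast (by omega : 2 ≤ n)
    have h9 : ‖Γ X - Γ Y‖ ≤ ε / 8 + ε / 8 + ‖X - Y‖ / 2 := by
      rw [h7]
      refine (norm_add_le _ _).trans (add_le_add ((norm_sub_le _ _).trans (add_le_add h5 h6)) h8)
    have h10 := min_le_right δ (ε / 4)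
    linarith

theorem iter_mem (h : Inv n g c₀ Γ C) (m : ℕ) : ∀ X ∈ HP, Γ^[m] X ∈ HP := by
  induction m with
  | zero => intro X hX; exact hX
  | succ m ih =>
    intro X hX
    rw [Function.iterate_succ_apply']
    exact h.maps _ (ih X hX)

theorem contr_le (h : Inv n g c₀ Γ C) {X Y : ℂ} (hX : X ∈ HP) (hY : Y ∈ HP) :
    ‖Γ X - Γ Y‖ ≤ ‖X - Y‖ := by
  rcases eq_or_ne X Y with rfl | hne
  · rw [sub_self, sub_self]
  · exact (h.contr X hX Y hY hne).le

end CH2aux

open CH2aux

theorem t_CH2 : S_CH2 := by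
  intro n g c₀ c Γ C hG h C₁ ε hε
  obtain ⟨δ, hδ, hstep⟩ := step hG.n3 h C₁ ε hε
  obtain ⟨M, hM⟩ := exists_nat_gt (C₁ / δ)
  rw [div_lt_iff₀ hδ] at hM
  refine ⟨M, fun m hm X hX Y hY hXY => ?_⟩
  have key : ∀ j : ℕ, ‖Γ^[j] X - Γ^[j] Y‖ ≤ C₁ ∧
      (‖Γ^[j] X - Γ^[j] Y‖ ≤ ε ∨ ‖Γ^[j] X - Γ^[j] Y‖ ≤ C₁ - j * δ) := by
    intro j
    induction j with
    | zero =>
      refine ⟨hXY, Or.inr ?_⟩
      simpa using hXY
    | succ j ih =>
      obtain ⟨ih1, ih2⟩ := ih
      have hX' := iter_mem h j X hX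
      have hY' := iter_mem h j Y hY
      rw [Function.iterate_succ_apply', Function.iterate_succ_apply']
      have h1 := contr_le h hX' hY'
      refine ⟨h1.trans ih1, ?_⟩
      by_cases h2 : ‖Γ^[j] X - Γ^[j] Y‖ ≤ ε
      · exact Or.inl (h1.trans h2)
      · have h3 : ‖Γ^[j] X - Γ^[j] Y‖ ≤ C₁ - j * δ := by
          rcases ih2 with h4 | h4
          · exact absurd h4 h2
          · exact h4
        right
        push Not at h2
        have h4 := hstep _ hX' _ hY' h2.le ih1
        push_cast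
        linarith
  rcases (key m).2 with h1 | h1
  · exact h1
  · exfalso
    have h2 : (M : ℝ) ≤ m := by exact_mod_cast hm
    have h3 := norm_nonneg (Γ^[m] X - Γ^[m] Y)
    nlinarith

end Pool.Agent.H212.ND
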