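import Pool.Agent.H212.ND.StmT

/-!
The Böttcher map of the parabolic polynomial is continuous on the closed exterior (job CH4).
-/

set_option autoImplicit false
set_option linter.unusedSectionVars false

open Filter Metric Set Topology Polynomial
open scoped ComplexConjugate

namespace Pool.Agent.H212.ND

open Pool.Agent.H212.MB

namespace CH4aux

theorem add_mem {T : ℂ} (hT : T.re = 0) {X : ℂ} (hX : X ∈ HP) (k : ℤ) : X + T * k ∈ HP := by
  have h : 0 ≤ X.re := hX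
  show 0 ≤ (X + T * k).re
  simp [Complex.add_re, Complex.mul_re, hT, h]

theorem per_int {f : ℂ → ℂ} {T T' : ℂ} (hT : T.re = 0) (h : ∀ X ∈ HP, f (X + T) = f X + T')
    (k : ℤ) : ∀ X ∈ HP, f (X + T * k) = f X + T' * k := by
  induction k using Int.induction_on with
  | zero => intro X _; simp
  | succ k ih =>
    intro X hX
    have e : X + T * ((k : ℤ) + 1 : ℤ) = (X + T * ((k : ℤ) : ℂ)) + T := by push_cast; ring
    rw [e, h _ (add_mem hT hX k), ih X hX]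
    push_cast
    ring
  | pred k ih =>
    intro X hX
    have h1 := h _ (add_mem hT hX (-(k : ℤ) - 1))
    have e : X + T * ((-(k : ℤ) - 1 : ℤ) : ℂ) + T = X + T * ((-(k : ℤ) : ℤ) : ℂ) := by
      push_cast; ring
    rw [e, ih X hX] at h1
    have h2 : f (X + T * ((-(k : ℤ) - 1 : ℤ) : ℂ)) = f X + T' * ((-(k : ℤ) : ℤ) : ℂ) - T' := by
      rw [h1]; ring
    rw [h2]
    push_cast
    ring

theorem ch_per (c₀ : ℝ) (Y : ℂ) (k : ℤ) : ch c₀ (Y + 2 * Real.pi * Complex.I * k) = ch c₀ Y := by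
  unfold ch
  have : 2 * (Real.pi : ℂ) * Complex.I * k = k * (2 * Real.pi * Complex.I) := by ring
  rw [this, Complex.exp_add, Complex.exp_int_mul_two_pi_mul_I, mul_one]

theorem ch_eq {c₀ : ℝ} (h1 : c₀ < 1) {Y Y' : ℂ} (h : ch c₀ Y = ch c₀ Y') :
    ∃ k : ℤ, Y = Y' + 2 * Real.pi * Complex.I * k := by
  unfold ch at h
  have hR : (1 - (c₀ : ℂ)) ≠ 0 := by
    rw [sub_ne_zero]
    exact_mod_cast h1.ne'
  have h2 := mul_left_cancel₀ hR (add_left_cancel h)
  obtain ⟨k, hk⟩ := Complex.exp_eq_exp_iff_exists_int.1 h2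
  exact ⟨k, by rw [hk]; ring⟩

theorem norm_ch {c₀ : ℝ} (h1 : c₀ < 1) (X : ℂ) : ‖ch c₀ X - c₀‖ = (1 - c₀) * Real.exp X.re := by
  unfold ch
  rw [add_sub_cancel_left, norm_mul, Complex.norm_exp]
  congr 1
  have : (1 - (c₀ : ℂ)) = ((1 - c₀ : ℝ) : ℂ) := by push_cast; ring
  rw [this, Complex.norm_real, Real.norm_eq_abs, abs_of_pos (by linarith)]

theorem continuous_ch (c₀ : ℝ) : Continuous (ch c₀) := by
  unfold ch
  fun_prop

theorem exists_ch {c₀ : ℝ} (h1 : c₀ < 1) {y : ℂ} (hy : 1 - c₀ ≤ ‖y - c₀‖) :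
    ∃ X ∈ HP, ch c₀ X = y := by
  have hR : (1 - (c₀ : ℂ)) ≠ 0 := by
    rw [sub_ne_zero]
    exact_mod_cast h1.ne'
  have hy0 : y - c₀ ≠ 0 := by
    intro h
    rw [h, norm_zero] at hy
    linarith
  have he : ch c₀ (Complex.log ((y - c₀) / (1 - c₀))) = y := by
    unfold ch
    rw [Complex.exp_log (div_ne_zero hy0 hR), mul_div_cancel₀ _ hR]
    ring
  refine ⟨Complex.log ((y - c₀) / (1 - c₀)), ?_, he⟩
  have h2 := norm_ch h1 (Complex.log ((y - c₀) / (1 - c₀)))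
  rw [he] at h2
  rw [h2] at hy
  have h3 : 1 ≤ Real.exp (Complex.log ((y - c₀) / (1 - c₀))).re := by
    have : 0 < 1 - c₀ := by linarith
    by_contra hcon
    push Not at hcon
    nlinarith
  exact Real.one_le_exp_iff.1 h3

theorem exp_mem_CExt {X : ℂ} : Complex.exp X ∈ CExt ↔ X ∈ HP := by
  show 1 ≤ ‖Complex.exp X‖ ↔ 0 ≤ X.re
  rw [Complex.norm_exp, Real.one_le_exp_iff]

theorem exp_mem_Ext {X : ℂ} : Complex.exp X ∈ MB.Ext ↔ 0 < X.re := by
  show 1 < ‖Complex.exp X‖ ↔ 0 < X.re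
  rw [Complex.norm_exp, Real.one_lt_exp_iff]

theorem ne_zero_of_CExt {z : ℂ} (hz : z ∈ CExt) : z ≠ 0 := by
  rintro rfl
  have : (1 : ℝ) ≤ ‖(0 : ℂ)‖ := hz
  rw [norm_zero] at this
  linarith

theorem Ext_sub {z : ℂ} (hz : z ∈ MB.Ext) : z ∈ CExt := le_of_lt (show 1 < ‖z‖ from hz)

theorem exists_exp {z : ℂ} (hz : z ∈ CExt) : ∃ X ∈ HP, Complex.exp X = z := by
  have h := Complex.exp_log (ne_zero_of_CExt hz)
  refine ⟨Complex.log z, ?_, h⟩
  rw [← exp_mem_CExt, h]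
  exact hz

/-- the Böttcher map -/
noncomputable def phi (c₀ : ℝ) (Φ : ℂ → ℂ) (z : ℂ) : ℂ := ch c₀ (Φ (Complex.log z))

section

variable {n : ℕ} {g : ℂ[X]} {c₀ : ℝ} {c : ℂ} {Γ Φ : ℂ → ℂ} {C : ℝ}

theorem two_pi_re : (2 * (Real.pi : ℂ) * Complex.I).re = 0 := by simp

theorem perPhi (hL : Lim n Γ C Φ) (k : ℤ) (X : ℂ) (hX : X ∈ HP) :
    Φ (X + 2 * Real.pi * Complex.I * k) = Φ X + 2 * Real.pi * Complex.I * k :=
  per_int two_pi_re hL.per k X hX

theorem phi_exp (hL : Lim n Γ C Φ) {X : ℂ} (hX : X ∈ HP) :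
    phi c₀ Φ (Complex.exp X) = ch c₀ (Φ X) := by
  unfold phi
  obtain ⟨k, hk⟩ := Complex.exp_eq_exp_iff_exists_int.1
    (Complex.exp_log (Complex.exp_ne_zero X))
  have e : Complex.log (Complex.exp X) = X + 2 * Real.pi * Complex.I * k := by rw [hk]; ring
  rw [e, perPhi hL k X hX, ch_per]

/-- a local logarithm -/
noncomputable def ell (z0 z : ℂ) : ℂ := Complex.log (z / z0) + Complex.log z0

theorem exp_ell {z0 z : ℂ} (h0 : z0 ≠ 0) (hz : z ≠ 0) : Complex.exp (ell z0 z) = z := by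
  unfold ell
  rw [Complex.exp_add, Complex.exp_log (div_ne_zero hz h0), Complex.exp_log h0,
    div_mul_cancel₀ _ h0]

theorem diff_ell {z0 : ℂ} (h0 : z0 ≠ 0) : DifferentiableAt ℂ (ell z0) z0 := by
  unfold ell
  refine DifferentiableAt.add_const _ (DifferentiableAt.clog (by fun_prop) ?_)
  rw [div_self h0]
  exact Complex.one_mem_slitPlane

theorem phi_ell (hL : Lim n Γ C Φ) {z0 z : ℂ} (h0 : z0 ≠ 0) (hz : z ∈ CExt) :
    ell z0 z ∈ HP ∧ phi c₀ Φ z = ch c₀ (Φ (ell z0 z)) := by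
  have he := exp_ell h0 (ne_zero_of_CExt hz)
  have hHP : ell z0 z ∈ HP := by
    rw [← exp_mem_CExt, he]
    exact hz
  refine ⟨hHP, ?_⟩
  rw [← phi_exp hL hHP, he]

theorem phi_cont (hL : Lim n Γ C Φ) : ContinuousOn (phi c₀ Φ) CExt := by
  intro z0 hz0
  have h0 := ne_zero_of_CExt hz0
  have h1 : ContinuousWithinAt (ell z0) CExt z0 :=
    (diff_ell h0).continuousAt.continuousWithinAt
  have h2 : ContinuousWithinAt (fun z => Φ (ell z0 z)) CExt z0 :=
    (hL.cont (ell z0 z0) (phi_ell (c₀ := c₀) hL h0 hz0).1).comp h1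
      (fun z hz => (phi_ell (c₀ := c₀) hL h0 hz).1)
  have h3 : ContinuousWithinAt (fun z => ch c₀ (Φ (ell z0 z))) CExt z0 :=
    (continuous_ch c₀).continuousAt.comp_continuousWithinAt h2
  exact h3.congr (fun z hz => (phi_ell hL h0 hz).2) (phi_ell hL h0 hz0).2

theorem phi_diff (hL : Lim n Γ C Φ) : DifferentiableOn ℂ (phi c₀ Φ) MB.Ext := by
  intro z0 hz0
  have h0 := ne_zero_of_CExt (Ext_sub hz0)
  have hopen : IsOpen MB.Ext := isOpen_lt continuous_const continuous_norm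
  have hpos : 0 < (ell z0 z0).re := by
    rw [← exp_mem_Ext, exp_ell h0 h0]
    exact hz0
  have hHo : IsOpen {X : ℂ | 0 < X.re} := isOpen_lt continuous_const Complex.continuous_re
  have h2 : DifferentiableAt ℂ Φ (ell z0 z0) :=
    (hL.diff (ell z0 z0) hpos).differentiableAt (hHo.mem_nhds hpos)
  have h3 : DifferentiableAt ℂ (fun z => Φ (ell z0 z)) z0 :=
    DifferentiableAt.comp z0 h2 (diff_ell h0)
  have h4 : DifferentiableAt ℂ (fun z => ch c₀ (Φ (ell z0 z))) z0 :=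
    (h3.cexp.const_mul _).const_add _
  have h5 : phi c₀ Φ =ᶠ[𝓝 z0] fun z => ch c₀ (Φ (ell z0 z)) := by
    filter_upwards [hopen.mem_nhds hz0] with z hz
    exact (phi_ell hL h0 (Ext_sub hz)).2
  exact (h4.congr_of_eventuallyEq h5).differentiableWithinAt

theorem phi_inj (h1 : c₀ < 1) (hL : Lim n Γ C Φ) : InjOn (phi c₀ Φ) MB.Ext := by
  intro z hz z' hz' h
  obtain ⟨X, hX, rfl⟩ := exists_exp (Ext_sub hz)
  obtain ⟨X', hX', rfl⟩ := exists_exp (Ext_sub hz')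
  rw [phi_exp hL hX, phi_exp hL hX'] at h
  obtain ⟨k, hk⟩ := ch_eq h1 h
  rw [← perPhi hL k X' hX'] at hk
  have hre : (X' + 2 * Real.pi * Complex.I * k).re = X'.re := by simp
  have h2 := hL.inj (exp_mem_Ext.1 hz)
    (show 0 < (X' + 2 * Real.pi * Complex.I * k).re by rw [hre]; exact exp_mem_Ext.1 hz') hk
  rw [h2]
  have : 2 * (Real.pi : ℂ) * Complex.I * k = k * (2 * Real.pi * Complex.I) := by ring
  rw [this, Complex.exp_add, Complex.exp_int_mul_two_pi_mul_I, mul_one]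

theorem nmul_mem {X : ℂ} (hX : X ∈ HP) (m : ℕ) : (m : ℂ) * X ∈ HP := by
  have h : 0 ≤ X.re := hX
  show 0 ≤ ((m : ℂ) * X).re
  simp only [Complex.mul_re, Complex.natCast_re, Complex.natCast_im, zero_mul, sub_zero]
  positivity

theorem phi_semi (hI : Inv n g c₀ Γ C) (hL : Lim n Γ C Φ) :
    ∀ z ∈ CExt, g.eval (phi c₀ Φ z) = phi c₀ Φ (z ^ n) := by
  intro z hz
  obtain ⟨X, hX, rfl⟩ := exists_exp hz
  have hnX := nmul_mem hX n
  rw [← Complex.exp_nat_mul, phi_exp hL hX, phi_exp hL hnX, ← hL.eq X hX]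
  exact hI.inv _ (hL.maps _ hnX)

theorem phi_one (hL : Lim n Γ C Φ) : phi c₀ Φ 1 = 1 := by
  unfold phi
  rw [Complex.log_one, hL.zero]
  unfold ch
  rw [Complex.exp_zero]
  ring

theorem re_le (hL : Lim n Γ C Φ) {X : ℂ} (hX : X ∈ HP) :
    X.re - 2 * C ≤ (Φ X).re ∧ (Φ X).re ≤ X.re + 2 * C := by
  have h := hL.disp X hX
  have h2 : |(Φ X - X).re| ≤ 2 * C := (Complex.abs_re_le_norm _).trans h
  rw [Complex.sub_re, abs_le] at h2
  constructor <;> linarith [h2.1, h2.2]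

theorem phi_bds (h1 : c₀ < 1) (hL : Lim n Γ C Φ) {z : ℂ} (hz : z ∈ CExt) :
    (1 - c₀) * Real.exp (-(2 * C)) * ‖z‖ ≤ ‖phi c₀ Φ z - c₀‖ ∧
      ‖phi c₀ Φ z - c₀‖ ≤ (1 - c₀) * Real.exp (2 * C) * ‖z‖ := by
  obtain ⟨X, hX, rfl⟩ := exists_exp hz
  rw [phi_exp hL hX, norm_ch h1, Complex.norm_exp, mul_assoc, mul_assoc, ← Real.exp_add,
    ← Real.exp_add]
  obtain ⟨h2, h3⟩ := re_le hL hX
  have h4 : 0 < 1 - c₀ := by linarith
  constructor
  · exact mul_le_mul_of_nonneg_left (Real.exp_le_exp.2 (by linarith)) h4.le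
  · exact mul_le_mul_of_nonneg_left (Real.exp_le_exp.2 (by linarith)) h4.le

/-- iterates -/
theorem phi_iter (hI : Inv n g c₀ Γ C) (hL : Lim n Γ C Φ) (m : ℕ) :
    ∀ z ∈ CExt, (fun z : ℂ => g.eval z)^[m] (phi c₀ Φ z) = phi c₀ Φ (z ^ n ^ m) := by
  induction m with
  | zero => intro z _; simp
  | succ m ih =>
    intro z hz
    rw [Function.iterate_succ_apply]
    show (fun z : ℂ => g.eval z)^[m] (g.eval (phi c₀ Φ z)) = _
    have hz' : z ^ n ∈ CExt := by
      show 1 ≤ ‖z ^ n‖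
      rw [norm_pow]
      exact one_le_pow₀ hz
    rw [phi_semi hI hL z hz, ih _ hz', ← pow_mul, pow_succ']

theorem gam_iter_mem (hI : Inv n g c₀ Γ C) (m : ℕ) : ∀ X ∈ HP, Γ^[m] X ∈ HP := by
  induction m with
  | zero => intro X hX; exact hX
  | succ m ih =>
    intro X hX
    rw [Function.iterate_succ_apply]
    exact ih _ (hI.maps X hX)

/-- iterates of `g` undo the iterates of `Γ` -/
theorem g_iter (hI : Inv n g c₀ Γ C) (m : ℕ) :
    ∀ X ∈ HP, (fun z : ℂ => g.eval z)^[m] (ch c₀ (Γ^[m] X)) = ch c₀ X := by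
  induction m with
  | zero => intro X _; rfl
  | succ m ih =>
    intro X hX
    rw [Function.iterate_succ_apply' (f := Γ), Function.iterate_succ_apply]
    show (fun z : ℂ => g.eval z)^[m] (g.eval (ch c₀ (Γ (Γ^[m] X)))) = _
    rw [hI.inv _ (gam_iter_mem hI m X hX), ih X hX]

/-- lifting of the orbit of a point outside of the basin -/
theorem lift_orbit (h1 : c₀ < 1) (hI : Inv n g c₀ Γ C) (m : ℕ) : ∀ Y ∈ HP, ch c₀ Y ∉ Bas g c₀ →
    ∃ X ∈ HP, Γ^[m] X = Y ∧ ch c₀ X ∉ Bas g c₀ := by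
  induction m with
  | zero => intro Y hY hB; exact ⟨Y, hY, rfl, hB⟩
  | succ m ih =>
    intro Y hY hB
    obtain ⟨Y', hY', hYY, hB'⟩ := ih Y hY hB
    have hgB : g.eval (ch c₀ Y') ∉ Bas g c₀ := by
      rintro ⟨k, hk⟩
      exact hB' ⟨k + 1, by rw [Function.iterate_succ_apply]; exact hk⟩
    have hge : 1 - c₀ ≤ ‖g.eval (ch c₀ Y') - c₀‖ := by
      by_contra hcon
      push Not at hcon
      exact hgB ⟨0, hcon⟩
    obtain ⟨X0, hX0, hX0e⟩ := exists_ch h1 hge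
    obtain ⟨k, hk⟩ := hI.all X0 hX0 (ch c₀ Y') hX0e.symm
    obtain ⟨j, hj⟩ := ch_eq h1 hk
    have hX1 := add_mem two_pi_re hX0 k
    have hTn : (2 * (Real.pi : ℂ) * Complex.I * n).re = 0 := by simp
    have h3 := per_int hTn hI.per j _ hX1
    refine ⟨X0 + 2 * Real.pi * Complex.I * k + 2 * Real.pi * Complex.I * n * j,
      add_mem hTn hX1 j, ?_, ?_⟩
    · rw [Function.iterate_succ_apply, h3, ← hj, hYY]
    · have e : X0 + 2 * Real.pi * Complex.I * k + 2 * Real.pi * Complex.I * n * j =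
          X0 + 2 * Real.pi * Complex.I * ((k + n * j : ℤ) : ℂ) := by
        push_cast; ring
      rw [e, ch_per, hX0e]
      exact hgB

theorem closed_HP : IsClosed HP := isClosed_le continuous_const Complex.continuous_re

/-- `Φ` is onto the complement of the basin -/
theorem Phi_surj (hn : 0 < n) (h1 : c₀ < 1) (hI : Inv n g c₀ Γ C) (hL : Lim n Γ C Φ) {Y : ℂ}
    (hY : Y ∈ HP) (hB : ch c₀ Y ∉ Bas g c₀) : ∃ X ∈ HP, Φ X = Y := by
  choose X hX hXe _ using fun m => lift_orbit h1 hI m Y hY hB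
  have hn0 : (n : ℂ) ≠ 0 := by exact_mod_cast hn.ne'
  -- the rescaled points
  have hθ : ∀ m, X m / (n : ℂ) ^ m ∈ HP := by
    intro m
    have h2 : (0 : ℝ) ≤ (X m).re := hX m
    show 0 ≤ (X m / (n : ℂ) ^ m).re
    have h3 : (n : ℂ) ^ m = (((n : ℝ) ^ m : ℝ) : ℂ) := by push_cast; rfl
    rw [h3, Complex.div_ofReal_re]
    positivity
  have hlim : Tendsto (fun m => Φ (X m / (n : ℂ) ^ m)) atTop (𝓝 Y) := by
    rw [Metric.tendsto_atTop]
    intro ε hε
    obtain ⟨M, hM⟩ := hL.lim (ε / 2) (by linarith)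
    refine ⟨M, fun m hm => ?_⟩
    have h2 := hM m hm _ (hθ m)
    rw [mul_div_cancel₀ _ (pow_ne_zero m hn0), hXe m] at h2
    rw [dist_comm, dist_eq_norm]
    linarith
  have hbd : ∃ K : ℝ, ∀ m, ‖X m / (n : ℂ) ^ m‖ ≤ K := by
    obtain ⟨K, hK⟩ := hlim.norm.bddAbove_range
    refine ⟨K + 2 * C, fun m => ?_⟩
    have h2 := hL.disp _ (hθ m)
    have h3 : ‖Φ (X m / (n : ℂ) ^ m)‖ ≤ K := hK ⟨m, rfl⟩
    have h4 : X m / (n : ℂ) ^ m = Φ (X m / (n : ℂ) ^ m) - (Φ (X m / (n : ℂ) ^ m) - X m / (n : ℂ) ^ m) := by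
      ring
    calc ‖X m / (n : ℂ) ^ m‖ = ‖Φ (X m / (n : ℂ) ^ m) - (Φ (X m / (n : ℂ) ^ m) - X m / (n : ℂ) ^ m)‖ := by
          rw [← h4]
      _ ≤ ‖Φ (X m / (n : ℂ) ^ m)‖ + ‖Φ (X m / (n : ℂ) ^ m) - X m / (n : ℂ) ^ m‖ := norm_sub_le _ _
      _ ≤ K + 2 * C := add_le_add h3 h2
  obtain ⟨K, hK⟩ := hbd
  have hcomp : IsCompact (closedBall (0 : ℂ) K ∩ HP) := (isCompact_closedBall 0 K).inter_right closed_HP
  obtain ⟨θ, hθm, ψ, hψ, hψt⟩ := hcomp.tendsto_subseq
    (x := fun m => X m / (n : ℂ) ^ m) (fun m => ⟨by rw [mem_closedBall, dist_zero_right]; exact hK m, hθ m⟩)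
  refine ⟨θ, hθm.2, ?_⟩
  have h5 : Tendsto (fun m => Φ (X (ψ m) / (n : ℂ) ^ (ψ m))) atTop (𝓝 (Φ θ)) := by
    refine (hL.cont θ hθm.2).tendsto.comp ?_
    rw [tendsto_nhdsWithin_iff]
    exact ⟨hψt, Eventually.of_forall fun m => hθ (ψ m)⟩
  exact tendsto_nhds_unique h5 (hlim.comp hψ.tendsto_atTop)

theorem phi_bas (hn : 0 < n) (h1 : c₀ < 1) (hI : Inv n g c₀ Γ C) (hL : Lim n Γ C Φ) :
    (phi c₀ Φ '' CExt)ᶜ = Bas g c₀ := by
  ext y
  rw [mem_compl_iff]
  constructor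
  · intro hy
    by_contra hB
    have hge : 1 - c₀ ≤ ‖y - c₀‖ := by
      by_contra hcon
      push Not at hcon
      exact hB ⟨0, hcon⟩
    obtain ⟨Y, hY, rfl⟩ := exists_ch h1 hge
    obtain ⟨X, hX, rfl⟩ := Phi_surj hn h1 hI hL hY hB
    exact hy ⟨Complex.exp X, exp_mem_CExt.2 hX, phi_exp hL hX⟩
  · rintro ⟨m, hm⟩ ⟨z, hz, rfl⟩
    rw [phi_iter hI hL m z hz] at hm
    have hz' : z ^ n ^ m ∈ CExt := by
      show 1 ≤ ‖z ^ n ^ m‖
      rw [norm_pow]
      exact one_le_pow₀ hz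
    obtain ⟨X, hX, hXe⟩ := exists_exp hz'
    rw [← hXe, phi_exp hL hX, norm_ch h1] at hm
    have h2 : 0 ≤ (Φ X).re := hL.maps X hX
    have h3 := Real.one_le_exp h2
    nlinarith

theorem phi_disj (hn : 2 ≤ n) (h1 : c₀ < 1) (hI : Inv n g c₀ Γ C) (hL : Lim n Γ C Φ) :
    ∀ z ∈ MB.Ext, ∀ ζ : ℂ, ‖ζ‖ = 1 → phi c₀ Φ z ≠ phi c₀ Φ ζ := by
  intro z hz ζ hζ h
  have hζ' : ζ ∈ CExt := show 1 ≤ ‖ζ‖ from hζ.ge
  have hR : 0 < 1 - c₀ := by linarith
  have hkey : ∀ m : ℕ, ‖z‖ ^ n ^ m ≤ Real.exp (4 * C) := by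
    intro m
    have h2 : phi c₀ Φ (z ^ n ^ m) = phi c₀ Φ (ζ ^ n ^ m) := by
      rw [← phi_iter hI hL m z (Ext_sub hz), ← phi_iter hI hL m ζ hζ', h]
    have hz' : z ^ n ^ m ∈ CExt := by
      show 1 ≤ ‖z ^ n ^ m‖
      rw [norm_pow]
      exact one_le_pow₀ (Ext_sub hz)
    have hζ2 : ζ ^ n ^ m ∈ CExt := by
      show 1 ≤ ‖ζ ^ n ^ m‖
      rw [norm_pow, hζ, one_pow]
    have h3 := (phi_bds h1 hL hz').1
    have h4 := (phi_bds h1 hL hζ2).2
    rw [h2] at h3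
    rw [norm_pow, hζ, one_pow, mul_one] at h4
    rw [norm_pow] at h3
    have h5 := h3.trans h4
    rw [mul_assoc] at h5
    have h6 := le_of_mul_le_mul_left h5 hR
    have h7 : ‖z‖ ^ n ^ m = Real.exp (2 * C) * (Real.exp (-(2 * C)) * ‖z‖ ^ n ^ m) := by
      rw [← mul_assoc, ← Real.exp_add, add_neg_cancel, Real.exp_zero, one_mul]
    rw [h7]
    calc Real.exp (2 * C) * (Real.exp (-(2 * C)) * ‖z‖ ^ n ^ m)
        ≤ Real.exp (2 * C) * Real.exp (2 * C) := mul_le_mul_of_nonneg_left h6 (Real.exp_pos _).le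
      _ = Real.exp (4 * C) := by rw [← Real.exp_add]; congr 1; ring
  have hz1 : 1 < ‖z‖ := hz
  have h8 : Tendsto (fun m : ℕ => ‖z‖ ^ n ^ m) atTop atTop :=
    (tendsto_pow_atTop_atTop_of_one_lt hz1).comp
      (tendsto_pow_atTop_atTop_of_one_lt (by omega))
  obtain ⟨m, hm⟩ := (h8.eventually_gt_atTop (Real.exp (4 * C))).exists
  exact absurd (hkey m) (not_le.2 hm)

theorem phi_clos (hG : Good n g c₀ c) (hI : Inv n g c₀ Γ C) (hL : Lim n Γ C Φ)
    (h2 : ∀ C₁ ε : ℝ, 0 < ε → ∃ M : ℕ, ∀ m : ℕ, M ≤ m → ∀ X ∈ HP, ∀ X' ∈ HP, ‖X - X'‖ ≤ C₁ →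
      ‖Γ^[m] X - Γ^[m] X'‖ ≤ ε) :
    ∀ ζ : ℂ, ‖ζ‖ = 1 → phi c₀ Φ ζ ∈ closure (Bas g c₀) := by
  intro ζ hζ
  have h1 := hG.c1
  have hζ' : ζ ∈ CExt := show 1 ≤ ‖ζ‖ from hζ.ge
  obtain ⟨X, hX, rfl⟩ := exists_exp hζ'
  rw [Complex.norm_exp, Real.exp_eq_one_iff] at hζ
  rw [phi_exp hL hX]
  -- the points on the imaginary axis
  have hex : ∀ m : ℕ, ∃ W ∈ HP, ‖W - (n : ℂ) ^ m * X‖ ≤ 1 ∧ W.re = 0 ∧ Complex.exp W ≠ 1 := by
    intro m
    have hm : ((n : ℂ) ^ m * X).re = 0 := by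
      have h3 : (n : ℂ) ^ m = (((n : ℝ) ^ m : ℝ) : ℂ) := by push_cast; rfl
      rw [h3, Complex.re_ofReal_mul, hζ, mul_zero]
    by_cases he : Complex.exp ((n : ℂ) ^ m * X) = 1
    · refine ⟨(n : ℂ) ^ m * X + Complex.I, ?_, ?_, ?_, ?_⟩
      · show 0 ≤ ((n : ℂ) ^ m * X + Complex.I).re
        rw [Complex.add_re, hm, Complex.I_re, add_zero]
      · rw [add_sub_cancel_left, Complex.norm_I]
      · rw [Complex.add_re, hm, Complex.I_re, add_zero]
      · rw [Complex.exp_add, he, one_mul]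
        intro h3
        rw [Complex.exp_eq_one_iff] at h3
        obtain ⟨k, hk⟩ := h3
        have h4 := congrArg Complex.im hk
        simp only [Complex.I_im, Complex.mul_im, Complex.intCast_re, Complex.intCast_im,
          Complex.mul_re, Complex.ofReal_re, Complex.ofReal_im, Complex.I_re, zero_mul,
          mul_zero, add_zero, mul_one, sub_zero, Complex.re_ofNat, Complex.im_ofNat] at h4
        have h5 := Real.pi_gt_three
        rcases lt_trichotomy k 0 with hk0 | hk0 | hk0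
        · have h6 : (k : ℝ) ≤ -1 := by exact_mod_cast (by omega : k ≤ -1)
          nlinarith
        · rw [hk0] at h4
          simp at h4
        · have h6 : (1 : ℝ) ≤ k := by exact_mod_cast (by omega : 1 ≤ k)
          nlinarith
    · refine ⟨(n : ℂ) ^ m * X, ?_, ?_, hm, he⟩
      · show 0 ≤ ((n : ℂ) ^ m * X).re
        rw [hm]
      · rw [sub_self, norm_zero]
        exact zero_le_one
  choose W hW hWX hWre hWe using hex
  have hmem : ∀ m, ch c₀ (Γ^[m] (W m)) ∈ Bas g c₀ := by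
    intro m
    refine ⟨m + 1, ?_⟩
    rw [Function.iterate_succ_apply', g_iter hI m _ (hW m)]
    have hn1 : ‖ch c₀ (W m) - c₀‖ = 1 - c₀ := by
      rw [norm_ch h1, hWre m, Real.exp_zero, mul_one]
    refine hG.disc _ ?_ ?_
    · calc ‖ch c₀ (W m)‖ = ‖(ch c₀ (W m) - c₀) + c₀‖ := by rw [sub_add_cancel]
        _ ≤ ‖ch c₀ (W m) - c₀‖ + ‖(c₀ : ℂ)‖ := norm_add_le _ _
        _ = 1 := by
          rw [hn1, Complex.norm_real, Real.norm_eq_abs, abs_of_pos hG.c0]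
          ring
    · intro h3
      unfold ch at h3
      have hR : (1 - (c₀ : ℂ)) ≠ 0 := by
        rw [sub_ne_zero]
        exact_mod_cast h1.ne'
      apply hWe m
      have h4 : (1 - (c₀ : ℂ)) * Complex.exp (W m) = (1 - c₀) * 1 := by
        linear_combination h3
      exact mul_left_cancel₀ hR h4
  have hlim : Tendsto (fun m => Γ^[m] (W m)) atTop (𝓝 (Φ X)) := by
    rw [Metric.tendsto_atTop]
    intro ε hε
    obtain ⟨M, hM⟩ := h2 1 (ε / 3) (by linarith)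
    obtain ⟨M', hM'⟩ := hL.lim (ε / 3) (by linarith)
    refine ⟨max M M', fun m hm => ?_⟩
    have hnX : (n : ℂ) ^ m * X ∈ HP := by
      have := nmul_mem hX (n ^ m)
      push_cast at this
      exact this
    have a1 := hM m ((le_max_left _ _).trans hm) _ (hW m) _ hnX (hWX m)
    have a2 := hM' m ((le_max_right _ _).trans hm) X hX
    rw [dist_eq_norm]
    calc ‖Γ^[m] (W m) - Φ X‖ = ‖(Γ^[m] (W m) - Γ^[m] ((n : ℂ) ^ m * X)) +
          (Γ^[m] ((n : ℂ) ^ m * X) - Φ X)‖ := by rw [sub_add_sub_cancel]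
      _ ≤ ε / 3 + ε / 3 := (norm_add_le _ _).trans (add_le_add a1 a2)
      _ < ε := by linarith
  exact mem_closure_of_tendsto (((continuous_ch c₀).tendsto (Φ X)).comp hlim)
    (Eventually.of_forall hmem)

/-! ### The behaviour at infinity -/

open Bornology in
theorem exists_Lb (h1 : c₀ < 1) (h0 : 0 < c₀) (hL : Lim n Γ C Φ) : ∃ L b : ℂ, L ≠ 0 ∧
    Tendsto (fun z => phi c₀ Φ z - L * z) (cobounded ℂ) (𝓝 b) ∧
    Tendsto (fun z => phi c₀ Φ z / z) (cobounded ℂ) (𝓝 L) := by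
  have hR : 0 < 1 - c₀ := by linarith
  let F : ℂ → ℂ := fun w => w * phi c₀ Φ w⁻¹
  have hinv : ∀ w ∈ ball (0 : ℂ) 1 \ {0}, w⁻¹ ∈ MB.Ext := by
    rintro w ⟨hw, hw0⟩
    rw [mem_ball, dist_zero_right] at hw
    show 1 < ‖w⁻¹‖
    rw [norm_inv]
    exact (one_lt_inv₀ (norm_pos_iff.2 hw0)).2 hw
  have hopen : IsOpen MB.Ext := isOpen_lt continuous_const continuous_norm
  have hd : DifferentiableOn ℂ F (ball (0 : ℂ) 1 \ {0}) := by
    intro w hw
    have h2 : DifferentiableAt ℂ (phi c₀ Φ) w⁻¹ :=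
      (phi_diff hL _ (hinv w hw)).differentiableAt (hopen.mem_nhds (hinv w hw))
    have h3 : DifferentiableAt ℂ (phi c₀ Φ ∘ fun w : ℂ => w⁻¹) w :=
      DifferentiableAt.comp w h2 (differentiableAt_inv hw.2)
    exact (differentiableAt_id.mul h3).differentiableWithinAt
  have hb : BddAbove (norm ∘ F '' (ball (0 : ℂ) 1 \ {0})) := by
    refine ⟨c₀ + (1 - c₀) * Real.exp (2 * C), ?_⟩
    rintro _ ⟨w, hw, rfl⟩
    have hw0 : w ≠ 0 := hw.2
    have hwn : ‖w‖ ≤ 1 := by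
      have := hw.1
      rw [mem_ball, dist_zero_right] at this
      exact this.le
    have h2 := (phi_bds h1 hL (Ext_sub (hinv w hw))).2
    rw [norm_inv] at h2
    show ‖w * phi c₀ Φ w⁻¹‖ ≤ _
    have h3 : w * phi c₀ Φ w⁻¹ = w * c₀ + w * (phi c₀ Φ w⁻¹ - c₀) := by ring
    rw [h3]
    refine (norm_add_le _ _).trans (add_le_add ?_ ?_)
    · rw [norm_mul, Complex.norm_real, Real.norm_eq_abs, abs_of_pos h0]
      nlinarith
    · rw [norm_mul]
      have h4 : 0 < ‖w‖ := norm_pos_iff.2 hw0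
      calc ‖w‖ * ‖phi c₀ Φ w⁻¹ - c₀‖ ≤ ‖w‖ * ((1 - c₀) * Real.exp (2 * C) * ‖w‖⁻¹) :=
            mul_le_mul_of_nonneg_left h2 h4.le
        _ = (1 - c₀) * Real.exp (2 * C) := by field_simp
  have hrem := Complex.differentiableOn_update_limUnder_of_bddAbove
    (ball_mem_nhds (0 : ℂ) one_pos) hd hb
  set L : ℂ := limUnder (𝓝[≠] 0) F with hLdef
  have hda : DifferentiableAt ℂ (Function.update F 0 L) 0 :=
    (hrem 0 (mem_ball_self one_pos)).differentiableAt (ball_mem_nhds (0 : ℂ) one_pos)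
  have hslope := hasDerivAt_iff_tendsto_slope.1 hda.hasDerivAt
  set b : ℂ := deriv (Function.update F 0 L) 0 with hbdef
  have h5 : Tendsto (fun z => phi c₀ Φ z - L * z) (cobounded ℂ) (𝓝 b) := by
    have h6 := hslope.comp (tendsto_inv₀_cobounded' (α := ℂ))
    refine h6.congr' ?_
    filter_upwards [eventually_cobounded_le_norm (E := ℂ) 1] with z hz
    have hz0 : z ≠ 0 := by
      rintro rfl
      rw [norm_zero] at hz
      linarith
    show slope (Function.update F 0 L) 0 z⁻¹ = _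
    rw [slope_def_field, Function.update_self, Function.update_of_ne (inv_ne_zero hz0)]
    show (z⁻¹ * phi c₀ Φ (z⁻¹)⁻¹ - L) / (z⁻¹ - 0) = _
    rw [inv_inv, sub_zero]
    field_simp
  have h7 : Tendsto (fun z => phi c₀ Φ z / z) (cobounded ℂ) (𝓝 L) := by
    have h8 := (h5.mul (tendsto_inv₀_cobounded (α := ℂ))).add_const L
    rw [mul_zero, zero_add] at h8
    refine h8.congr' ?_
    filter_upwards [eventually_cobounded_le_norm (E := ℂ) 1] with z hz
    have hz0 : z ≠ 0 := by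
      rintro rfl
      rw [norm_zero] at hz
      linarith
    field_simp
    ring
  refine ⟨L, b, ?_, h5, h7⟩
  -- the limit is not zero
  have h8 : (1 - c₀) * Real.exp (-(2 * C)) ≤ ‖L‖ := by
    have h9 : Tendsto (fun z : ℂ => ‖phi c₀ Φ z / z - c₀ * z⁻¹‖) (cobounded ℂ) (𝓝 ‖L‖) := by
      have h10 := (h7.sub ((tendsto_inv₀_cobounded (α := ℂ)).const_mul (c₀ : ℂ))).norm
      rw [mul_zero, sub_zero] at h10
      exact h10
    refine ge_of_tendsto h9 ?_
    filter_upwards [eventually_cobounded_le_norm (E := ℂ) 1] with z hz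
    have hz0 : z ≠ 0 := by
      rintro rfl
      rw [norm_zero] at hz
      linarith
    have h10 := (phi_bds h1 hL (show z ∈ CExt from hz)).1
    have h11 : phi c₀ Φ z / z - c₀ * z⁻¹ = (phi c₀ Φ z - c₀) / z := by
      field_simp
    rw [h11, norm_div, le_div_iff₀ (norm_pos_iff.2 hz0)]
    exact h10
  intro h9
  rw [h9, norm_zero] at h8
  have : 0 < (1 - c₀) * Real.exp (-(2 * C)) := by positivity
  linarith

/-- the map is real and positive on the real axis -/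
theorem phi_real (h1 : c₀ < 1) (h0 : 0 < c₀) (hL : Lim n Γ C Φ) {x : ℝ} (hx : 1 ≤ x) :
    0 ≤ (phi c₀ Φ x / x).re ∧ (phi c₀ Φ x / x).im = 0 := by
  have hx0 : 0 < x := by linarith
  have e : Complex.exp ((Real.log x : ℝ) : ℂ) = x := by
    rw [← Complex.ofReal_exp, Real.exp_log hx0]
  have hX : ((Real.log x : ℝ) : ℂ) ∈ HP := by
    show 0 ≤ (((Real.log x : ℝ) : ℂ)).re
    rw [Complex.ofReal_re]
    exact Real.log_nonneg hx
  have h2 := hL.symm _ hX
  rw [Complex.conj_ofReal] at h2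
  have h3 : Φ ((Real.log x : ℝ) : ℂ) = (((Φ ((Real.log x : ℝ) : ℂ)).re : ℝ) : ℂ) :=
    (Complex.conj_eq_iff_real.1 h2.symm).elim fun r hr => by rw [hr, Complex.ofReal_re]
  have h4 : phi c₀ Φ x / x =
      (((c₀ + (1 - c₀) * Real.exp (Φ ((Real.log x : ℝ) : ℂ)).re) / x : ℝ) : ℂ) := by
    rw [← e, phi_exp hL hX, e]
    unfold ch
    rw [h3]
    push_cast
    rfl
  rw [h4]
  constructor
  · rw [Complex.ofReal_re]
    have : 0 < 1 - c₀ := by linarith
    positivity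
  · exact Complex.ofReal_im _

open Bornology in
theorem L_real (h1 : c₀ < 1) (h0 : 0 < c₀) (hL : Lim n Γ C Φ) {L : ℂ}
    (h : Tendsto (fun z => phi c₀ Φ z / z) (cobounded ℂ) (𝓝 L)) : 0 ≤ L.re ∧ L.im = 0 := by
  have h2 : Tendsto (fun x : ℝ => (x : ℂ)) atTop (cobounded ℂ) := by
    rw [← tendsto_norm_atTop_iff_cobounded]
    refine tendsto_id.congr' ?_
    filter_upwards [eventually_ge_atTop 0] with x hx
    rw [Complex.norm_real, Real.norm_eq_abs, abs_of_nonneg hx]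
    rfl
  have h3 := h.comp h2
  constructor
  · refine ge_of_tendsto ((Complex.continuous_re.tendsto L).comp h3) ?_
    filter_upwards [eventually_ge_atTop 1] with x hx
    exact (phi_real h1 h0 hL hx).1
  · refine tendsto_nhds_unique ((Complex.continuous_im.tendsto L).comp h3) ?_
    refine tendsto_const_nhds.congr' ?_
    filter_upwards [eventually_ge_atTop 1] with x hx
    exact (phi_real h1 h0 hL hx).2.symm

open Bornology in
/-- comparison of the coefficients -/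
theorem coeffs (hn : 2 ≤ n) (hdeg : g.natDegree = n) {L b : ℂ} (f : ℂ → ℂ)
    (hsemi : ∀ z ∈ CExt, g.eval (f z) = f (z ^ n))
    (h5 : Tendsto (fun z => f z - L * z) (cobounded ℂ) (𝓝 b))
    (h7 : Tendsto (fun z => f z / z) (cobounded ℂ) (𝓝 L)) :
    g.coeff n * L ^ n = L ∧ g.coeff (n - 1) * L ^ (n - 1) + g.coeff n * (n * L ^ (n - 1) * b) = 0 := by
  have hinv := tendsto_inv₀_cobounded (α := ℂ)
  have hne : ∀ᶠ z : ℂ in cobounded ℂ, 1 ≤ ‖z‖ := eventually_cobounded_le_norm 1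
  have hne0 : ∀ {z : ℂ}, 1 ≤ ‖z‖ → z ≠ 0 := by
    rintro z hz rfl
    rw [norm_zero] at hz
    linarith
  have hpow : Tendsto (fun z : ℂ => z ^ n) (cobounded ℂ) (cobounded ℂ) := by
    rw [← tendsto_norm_atTop_iff_cobounded]
    simp only [norm_pow]
    exact (tendsto_pow_atTop (by omega : n ≠ 0)).comp tendsto_norm_cobounded_atTop
  -- small terms
  have hsmall : ∀ i j : ℕ, i < j → Tendsto (fun z : ℂ => f z ^ i / z ^ j) (cobounded ℂ) (𝓝 0) := by
    intro i j hij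
    have h2 := (h7.pow i).mul (hinv.pow (j - i))
    rw [zero_pow (by omega), mul_zero] at h2
    refine h2.congr' ?_
    filter_upwards [hne] with z hz
    have hz0 := hne0 hz
    have : z ^ j = z ^ i * z ^ (j - i) := by rw [← pow_add]; congr 1; omega
    rw [this, div_pow, inv_pow]
    field_simp
  have heq : ∀ i : ℕ, Tendsto (fun z : ℂ => f z ^ i / z ^ i) (cobounded ℂ) (𝓝 (L ^ i)) := by
    intro i
    refine (h7.pow i).congr fun z => ?_
    rw [div_pow]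
  have hev : ∀ y : ℂ, g.eval y = ∑ i ∈ Finset.range (n + 1), g.coeff i * y ^ i := by
    intro y
    rw [eval_eq_sum_range, hdeg]
  have hA : g.coeff n * L ^ n = L := by
    have a1 : Tendsto (fun z : ℂ => g.eval (f z) / z ^ n) (cobounded ℂ) (𝓝 (g.coeff n * L ^ n)) := by
      have a2 : Tendsto (fun z : ℂ => ∑ i ∈ Finset.range n, g.coeff i * (f z ^ i / z ^ n) +
          g.coeff n * (f z ^ n / z ^ n)) (cobounded ℂ) (𝓝 (∑ i ∈ Finset.range n, g.coeff i * 0 +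
          g.coeff n * L ^ n)) := by
        refine Tendsto.add (tendsto_finsetSum _ fun i hi => ?_) ((heq n).const_mul _)
        exact (hsmall i n (Finset.mem_range.1 hi)).const_mul _
      simp only [mul_zero, Finset.sum_const_zero, zero_add] at a2
      refine a2.congr fun z => ?_
      rw [hev, Finset.sum_range_succ, add_div, Finset.sum_div]
      congr 1
      · exact Finset.sum_congr rfl fun i _ => by rw [mul_div_assoc]
      · rw [mul_div_assoc]
    have a3 : Tendsto (fun z : ℂ => g.eval (f z) / z ^ n) (cobounded ℂ) (𝓝 L) := by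
      refine (h7.comp hpow).congr' ?_
      filter_upwards [hne] with z hz
      show f (z ^ n) / z ^ n = _
      rw [hsemi z hz]
    exact tendsto_nhds_unique a1 a3
  refine ⟨hA, ?_⟩
  obtain ⟨m, rfl⟩ : ∃ m, n = m + 2 := ⟨n - 2, by omega⟩
  have e1 : m + 2 - 1 = m + 1 := by omega
  rw [e1]
  -- all terms divided by `z ^ (m + 1)`
  have b1 : Tendsto (fun z : ℂ => ∑ i ∈ Finset.range (m + 1), g.coeff i * (f z ^ i / z ^ (m + 1)) +
      g.coeff (m + 1) * (f z ^ (m + 1) / z ^ (m + 1)) +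
      g.coeff (m + 2) * ((f z - L * z) * ∑ i ∈ Finset.range (m + 2),
        (f z / z) ^ i * L ^ (m + 2 - 1 - i)) -
      (f (z ^ (m + 2)) - L * z ^ (m + 2)) * (z⁻¹) ^ (m + 1)) (cobounded ℂ)
      (𝓝 (∑ i ∈ Finset.range (m + 1), g.coeff i * 0 + g.coeff (m + 1) * L ^ (m + 1) +
        g.coeff (m + 2) * (b * ∑ i ∈ Finset.range (m + 2), L ^ i * L ^ (m + 2 - 1 - i)) -
        b * 0 ^ (m + 1))) := by
    refine Tendsto.sub (Tendsto.add (Tendsto.add (tendsto_finsetSum _ fun i hi => ?_)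
      ((heq (m + 1)).const_mul _)) (Tendsto.const_mul _ (h5.mul (tendsto_finsetSum _
        fun i _ => (h7.pow i).mul_const _)))) ((h5.comp hpow).mul (hinv.pow (m + 1)))
    exact (hsmall i (m + 1) (Finset.mem_range.1 hi)).const_mul _
  have b2 : Tendsto (fun z : ℂ => ∑ i ∈ Finset.range (m + 1), g.coeff i * (f z ^ i / z ^ (m + 1)) +
      g.coeff (m + 1) * (f z ^ (m + 1) / z ^ (m + 1)) +
      g.coeff (m + 2) * ((f z - L * z) * ∑ i ∈ Finset.range (m + 2),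
        (f z / z) ^ i * L ^ (m + 2 - 1 - i)) -
      (f (z ^ (m + 2)) - L * z ^ (m + 2)) * (z⁻¹) ^ (m + 1)) (cobounded ℂ) (𝓝 0) := by
    refine tendsto_const_nhds.congr' ?_
    filter_upwards [hne] with z hz
    have hz0 := hne0 hz
    have c1 := hsemi z hz
    rw [hev, Finset.sum_range_succ, Finset.sum_range_succ] at c1
    have c2 : (f z - L * z) * ∑ i ∈ Finset.range (m + 2), (f z / z) ^ i * L ^ (m + 2 - 1 - i) =
        ((f z / z) ^ (m + 2) - L ^ (m + 2)) * z := by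
      have c3 := Commute.geom_sum₂_mul (Commute.all (f z / z) L) (m + 2)
      have c4 : f z - L * z = (f z / z - L) * z := by field_simp
      rw [c4, ← c3]
      ring
    rw [c2, ← c1]
    have c5 : ∑ i ∈ Finset.range (m + 1), g.coeff i * (f z ^ i / z ^ (m + 1)) =
        (∑ i ∈ Finset.range (m + 1), g.coeff i * f z ^ i) / z ^ (m + 1) := by
      rw [Finset.sum_div]
      exact Finset.sum_congr rfl fun i _ => by rw [mul_div_assoc]
    rw [c5]
    have hA' : L * z ^ (m + 2) = g.coeff (m + 2) * L ^ (m + 2) * z ^ (m + 2) := by rw [hA]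
    rw [hA']
    have hzm : z ^ (m + 1) ≠ 0 := pow_ne_zero _ hz0
    have hz2 : z ^ (m + 2) = z ^ (m + 1) * z := pow_succ _ _
    rw [div_pow, inv_pow, hz2]
    field_simp
    ring
  have b3 := tendsto_nhds_unique b1 b2
  have b4 : ∑ i ∈ Finset.range (m + 2), L ^ i * L ^ (m + 2 - 1 - i) = ((m + 2 : ℕ) : ℂ) * L ^ (m + 1) := by
    rw [← nsmul_eq_mul, ← Finset.card_range (m + 2), ← Finset.sum_const]
    rw [Finset.card_range]
    refine Finset.sum_congr rfl fun i hi => ?_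
    rw [← pow_add]
    congr 1
    have := Finset.mem_range.1 hi
    omega
  rw [b4] at b3
  simp only [mul_zero, Finset.sum_const_zero, zero_add, ne_eq, Nat.add_eq_zero_iff, one_ne_zero,
    and_false, not_false_eq_true, zero_pow, sub_zero] at b3
  linear_combination b3

theorem phi_asym (hG : Good n g c₀ c) (hI : Inv n g c₀ Γ C) (hL : Lim n Γ C Φ) :
    Tendsto (fun z => phi c₀ Φ z - z / aa n g) (cocompact ℂ) (𝓝 (bb n g)) := by
  have h1 := hG.c1
  have h0 := hG.c0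
  have hn3 := hG.n3
  obtain ⟨L, b, hL0, h5, h7⟩ := exists_Lb h1 h0 hL
  obtain ⟨hre, him⟩ := L_real h1 h0 hL h7
  obtain ⟨k1, k2⟩ := coeffs (by omega) hG.deg (phi c₀ Φ) (phi_semi hI hL) h5 h7
  rw [← Metric.cobounded_eq_cocompact]
  have hlead := hG.lead
  have hA0 : g.coeff n ≠ 0 := by
    intro h
    rw [h, Complex.zero_re] at hlead
    exact lt_irrefl _ hlead
  have hLn : g.coeff n * L ^ (n - 1) = 1 := by
    have e : L ^ n = L ^ (n - 1) * L := by rw [← pow_succ]; congr 1; omega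
    rw [e, ← mul_assoc] at k1
    exact mul_right_cancel₀ hL0 (by rw [k1, one_mul])
  have hb : b = bb n g := by
    have hn0 : (n : ℂ) ≠ 0 := by exact_mod_cast (by omega : n ≠ 0)
    have h2 : L ^ (n - 1) ≠ 0 := pow_ne_zero _ hL0
    unfold bb
    rw [eq_div_iff (mul_ne_zero hn0 hA0)]
    have h3 : L ^ (n - 1) * (b * (n * g.coeff n)) = L ^ (n - 1) * -g.coeff (n - 1) := by
      linear_combination k2
    exact mul_left_cancel₀ h2 h3
  have hLa : L * aa n g = 1 := by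
    have hLr : L = ((L.re : ℝ) : ℂ) := by
      apply Complex.ext
      · rw [Complex.ofReal_re]
      · rw [Complex.ofReal_im, him]
    have hAr : g.coeff n = (((g.coeff n).re : ℝ) : ℂ) := by
      apply Complex.ext
      · rw [Complex.ofReal_re]
      · rw [Complex.ofReal_im, hG.real]
    have hn1 : ((n - 1 : ℕ) : ℝ) = (n : ℝ) - 1 := by
      rw [Nat.cast_sub (by omega), Nat.cast_one]
    have hpow : ((g.coeff n).re ^ (1 / ((n : ℝ) - 1))) ^ (n - 1) = (g.coeff n).re := by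
      rw [← Real.rpow_natCast, ← Real.rpow_mul hlead.le, hn1, one_div, inv_mul_cancel₀, Real.rpow_one]
      have : (3 : ℝ) ≤ n := by exact_mod_cast hn3
      linarith
    have h2 : (L.re * (g.coeff n).re ^ (1 / ((n : ℝ) - 1))) ^ (n - 1) = 1 := by
      rw [mul_pow, hpow, mul_comm]
      rw [hLr, hAr] at hLn
      exact_mod_cast hLn
    have h3 : L.re * (g.coeff n).re ^ (1 / ((n : ℝ) - 1)) = 1 :=
      (pow_eq_one_iff_of_nonneg (by positivity) (by omega)).1 h2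
    unfold aa
    rw [hLr]
    exact_mod_cast h3
  rw [← hb]
  refine h5.congr fun z => ?_
  have haa : aa n g ≠ 0 := right_ne_zero_of_mul (hLa ▸ one_ne_zero)
  congr 1
  rw [eq_div_iff haa]
  linear_combination z * hLa

end

end CH4aux

theorem t_CH4 (h1 : S_CH1) (h2 : S_CH2) (h3 : S_CH3) : S_CH4 := by
  intro n g c₀ c hG
  obtain ⟨Γ, C, hI⟩ := h1 n g c₀ c hG
  obtain ⟨Φ, hL⟩ := h3 n g c₀ c Γ C hG hI
  have hn3 := hG.n3
  exact ⟨CH4aux.phi c₀ Φ,
    { cont := CH4aux.phi_cont hL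
      diff := CH4aux.phi_diff hL
      injE := CH4aux.phi_inj hG.c1 hL
      semi := CH4aux.phi_semi hI hL
      one := CH4aux.phi_one hL
      asym := CH4aux.phi_asym hG hI hL
      bas := CH4aux.phi_bas (by omega) hG.c1 hI hL
      disj := CH4aux.phi_disj (by omega) hG.c1 hI hL
      clos := CH4aux.phi_clos hG hI hL (h2 n g c₀ c Γ C hG hI) }⟩

end Pool.Agent.H212.ND
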