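import Pool.Agent.H212.ND.StmM
import Pool.Graph.R_seed8.Helper523.LL.Univ

/-!
# Job CLO: limits of matings with an attracting fixed point are matings
-/

set_option autoImplicit false

open Filter Metric Set Topology Polynomial
open scoped ComplexConjugate

namespace Pool.Agent.H212.ND

open Pool.Agent.H212.MB

namespace CLOaux

/-! ## Convergence -/

section conv

variable {n : ℕ} {p : ℕ → RMap n} {f : RMap n} {l : Filter ℕ} {z : ℕ → ℂ} {x : ℂ}

theorem conv_eval (h6 : MB.S_RTOP) (hp : Tendsto p atTop (𝓝 f)) (hl : l ≤ atTop)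
    (hz : Tendsto z l (𝓝 x)) : Tendsto (fun k => (p k).P.eval (z k)) l (𝓝 (f.P.eval x)) :=
  (((h6 n).2 ℕ l p f).2 (hp.mono_left hl) z x hz).1

theorem conv_coeff (h6 : MB.S_RTOP) (hp : Tendsto p atTop (𝓝 f)) (j : ℕ) :
    Tendsto (fun k => (p k).P.coeff j) atTop (𝓝 (f.P.coeff j)) :=
  (((h6 n).2 ℕ atTop p f).1.1 hp).1 j

theorem der_eq (q : RMap n) (y : ℂ) : q.P.derivative.eval y =
    ∑ i ∈ Finset.range (n + 1), q.P.coeff (i + 1) * (i + 1) * y ^ i := by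
  rw [eval_eq_sum_range' (n := n + 1) _ y]
  · refine Finset.sum_congr rfl fun i _ => ?_
    rw [coeff_derivative]
  · have h1 := natDegree_derivative_le q.P
    rw [q.natDegree] at h1
    omega

theorem conv_der (h6 : MB.S_RTOP) (hp : Tendsto p atTop (𝓝 f)) (hl : l ≤ atTop)
    (hz : Tendsto z l (𝓝 x)) :
    Tendsto (fun k => (p k).P.derivative.eval (z k)) l (𝓝 (f.P.derivative.eval x)) := by
  simp_rw [der_eq]
  refine tendsto_finsetSum _ fun i _ => ?_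
  exact (((conv_coeff h6 hp (i + 1)).mono_left hl).mul tendsto_const_nhds).mul (hz.pow i)

theorem conv_iter (h6 : MB.S_RTOP) (hp : Tendsto p atTop (𝓝 f)) (hl : l ≤ atTop)
    (hz : Tendsto z l (𝓝 x)) (m : ℕ) :
    Tendsto (fun k => (fun w : ℂ => (p k).P.eval w)^[m] (z k)) l
      (𝓝 ((fun w : ℂ => f.P.eval w)^[m] x)) := by
  induction m with
  | zero => exact hz
  | succ m ih =>
    simp_rw [Function.iterate_succ_apply']
    exact conv_eval h6 hp hl ih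

end conv

theorem ev_open {C U : Set ℂ} (hC : IsCompact C) (hU : IsOpen U) {g : ℕ → ℂ → ℂ} {G : ℂ → ℂ}
    (hg : ∀ (l : Filter ℕ), l ≤ atTop → ∀ (z : ℕ → ℂ) (x : ℂ), Tendsto z l (𝓝 x) →
      Tendsto (fun k => g k (z k)) l (𝓝 (G x))) (h : ∀ y ∈ C, G y ∈ U) :
    ∀ᶠ k in atTop, ∀ y ∈ C, g k y ∈ U := by
  classical
  by_contra hc
  rw [not_eventually] at hc
  set S : Set ℕ := {k | ¬ ∀ y ∈ C, g k y ∈ U} with hS
  have hne : NeBot (atTop ⊓ 𝓟 S) := frequently_mem_iff_neBot.1 hc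
  set u : Ultrafilter ℕ := Ultrafilter.of (atTop ⊓ 𝓟 S) with hu
  have hu1 : (u : Filter ℕ) ≤ atTop := (Ultrafilter.of_le _).trans inf_le_left
  have hu2 : ∀ᶠ k in (u : Filter ℕ), k ∈ S :=
    (Ultrafilter.of_le _).trans inf_le_right (mem_principal_self S)
  have hex : ∀ k : ℕ, ∃ y : ℂ, k ∈ S → y ∈ C ∧ g k y ∉ U := by
    intro k
    by_cases hk : k ∈ S
    · have hk' : ¬ ∀ y ∈ C, g k y ∈ U := hk
      push Not at hk'
      obtain ⟨y, hy, hy'⟩ := hk'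
      exact ⟨y, fun _ => ⟨hy, hy'⟩⟩
    · exact ⟨0, fun h => absurd h hk⟩
  choose z hz using hex
  have h1 : C ∈ u.map z := hu2.mono fun k hk => (hz k hk).1
  obtain ⟨x, hx, hle⟩ := hC.ultrafilter_le_nhds' (u.map z) h1
  have h2 : Tendsto z (u : Filter ℕ) (𝓝 x) := hle
  have h3 := hg u hu1 z x h2
  have h4 : ∀ᶠ k in (u : Filter ℕ), g k (z k) ∈ U := h3.eventually (hU.mem_nhds (h x hx))
  obtain ⟨k, hk1, hk2⟩ := (h4.and hu2).exists
  exact (hz k hk2).2 hk1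

/-! ## The distortion -/

theorem pid (a b : ℂ) :
    ‖1 - conj a * b‖ ^ 2 - ‖b - a‖ ^ 2 = (1 - ‖a‖ ^ 2) * (1 - ‖b‖ ^ 2) := by
  rw [← Complex.normSq_eq_norm_sq, ← Complex.normSq_eq_norm_sq, ← Complex.normSq_eq_norm_sq,
    ← Complex.normSq_eq_norm_sq, Complex.normSq_apply, Complex.normSq_apply, Complex.normSq_apply,
    Complex.normSq_apply]
  simp
  ring

theorem harn {χ : ℂ → ℂ} {c : ℂ} {R : ℝ} (hR : 0 < R) (hd : DifferentiableOn ℂ χ (ball c R))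
    (hm : ∀ w ∈ ball c R, ‖χ w‖ < 1) {w : ℂ} (hw : dist w c ≤ R / 2) :
    3 / 16 * (1 - ‖χ c‖) ≤ 1 - ‖χ w‖ := by
  have hcb : c ∈ ball c R := mem_ball_self hR
  have hwb : w ∈ ball c R := by
    rw [mem_ball]
    linarith
  set a := χ c with ha
  have ha1 : ‖a‖ < 1 := hm c hcb
  have hden : ∀ y ∈ ball c R, 1 - conj a * χ y ≠ 0 := by
    intro y hy h0
    have h1 : ‖conj a * χ y‖ = 1 := by
      rw [← sub_eq_zero.1 h0, norm_one]
    rw [norm_mul, Complex.norm_conj] at h1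
    have h2 := hm y hy
    nlinarith [norm_nonneg a, norm_nonneg (χ y)]
  set F : ℂ → ℂ := fun y => (χ y - a) / (1 - conj a * χ y) with hF
  have hFd : DifferentiableOn ℂ F (ball c R) :=
    (hd.sub_const a).div ((differentiableOn_const _).sub (hd.const_mul _)) hden
  have hF0 : F c = 0 := by
    rw [hF]
    simp only
    rw [← ha, sub_self, zero_div]
  have hmaps : MapsTo F (ball c R) (closedBall (F c) 1) := by
    intro y hy
    rw [hF0, mem_closedBall_zero_iff, hF]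
    simp only
    rw [norm_div]
    have h1 := pid a (χ y)
    have h2 : 0 ≤ (1 - ‖a‖ ^ 2) * (1 - ‖χ y‖ ^ 2) := by
      have := hm y hy
      have h3 : 0 ≤ 1 - ‖a‖ ^ 2 := by nlinarith [norm_nonneg a]
      have h4 : 0 ≤ 1 - ‖χ y‖ ^ 2 := by nlinarith [norm_nonneg (χ y)]
      exact mul_nonneg h3 h4
    have h5 : 0 < ‖1 - conj a * χ y‖ := norm_pos_iff.2 (hden y hy)
    rw [div_le_one h5]
    nlinarith [norm_nonneg (χ y - a)]
  have h1 := Complex.dist_le_div_mul_dist_of_mapsTo_ball hFd hmaps hwb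
  rw [hF0, dist_zero_right] at h1
  have h2 : ‖F w‖ ≤ 1 / 2 := by
    refine h1.trans ?_
    rw [one_div, inv_mul_le_iff₀ hR]
    linarith
  have h3 : ‖χ w - a‖ ≤ 1 / 2 * ‖1 - conj a * χ w‖ := by
    have h4 : 0 < ‖1 - conj a * χ w‖ := norm_pos_iff.2 (hden w hwb)
    rw [hF] at h2
    simp only at h2
    rw [norm_div, div_le_iff₀ h4] at h2
    exact h2
  have hb1 := hm w hwb
  have h5 := pid a (χ w)
  have h6 : 1 - ‖a‖ ≤ ‖1 - conj a * χ w‖ := by
    have h7 := norm_sub_norm_le (1 : ℂ) (conj a * χ w)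
    rw [norm_one, norm_mul, Complex.norm_conj] at h7
    nlinarith [norm_nonneg a, norm_nonneg (χ w)]
  have ha0 := norm_nonneg a
  have hb0 := norm_nonneg (χ w)
  have h7 : 3 / 4 * (1 - ‖a‖) ^ 2 ≤ (1 - ‖a‖ ^ 2) * (1 - ‖χ w‖ ^ 2) := by
    rw [← h5]
    have h8 : ‖χ w - a‖ ^ 2 ≤ (1 / 2 * ‖1 - conj a * χ w‖) ^ 2 :=
      pow_le_pow_left₀ (norm_nonneg _) h3 2
    have h9 : (1 - ‖a‖) ^ 2 ≤ ‖1 - conj a * χ w‖ ^ 2 :=
      pow_le_pow_left₀ (by linarith) h6 2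
    nlinarith
  have h8 : 3 / 4 * (1 - ‖a‖) ≤ (1 + ‖a‖) * (1 - ‖χ w‖ ^ 2) := by
    have h9 : 0 < 1 - ‖a‖ := by linarith
    have h10 : (1 - ‖a‖) * (3 / 4 * (1 - ‖a‖)) ≤ (1 - ‖a‖) * ((1 + ‖a‖) * (1 - ‖χ w‖ ^ 2)) := by
      nlinarith
    exact le_of_mul_le_mul_left h10 h9
  have h9 : 0 ≤ 1 - ‖χ w‖ := by linarith
  have h10 : (1 + ‖a‖) * (1 - ‖χ w‖ ^ 2) ≤ 2 * (2 * (1 - ‖χ w‖)) := by
    have h11 : 1 - ‖χ w‖ ^ 2 ≤ 2 * (1 - ‖χ w‖) := by nlinarith
    have h12 : 0 ≤ 1 - ‖χ w‖ ^ 2 := by nlinarith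
    nlinarith
  linarith

theorem chain {ι : Type} {K : Set ℂ} (hK : IsCompact K) (hKc : IsPreconnected K) {x : ℂ}
    (hx : x ∈ K) {δ κ : ℝ} (hδ : 0 < δ) (hκ : 0 < κ) (v : ι → ℂ → ℝ) (h0 : ∀ i, κ ≤ v i x)
    (hv : ∀ i, ∀ c ∈ K, ∀ w ∈ K, dist w c ≤ δ → κ * v i c ≤ v i w) :
    ∃ μ : ℝ, 0 < μ ∧ ∀ i, ∀ w ∈ K, μ ≤ v i w := by
  set U : Set ℂ := {c | c ∈ K ∧ ∃ μ : ℝ, 0 < μ ∧ ∀ i, μ ≤ v i c} with hU
  have hstep : ∀ c ∈ U, ∀ w ∈ K, dist w c ≤ δ → w ∈ U := by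
    rintro c ⟨hc, μ, hμ, hμc⟩ w hw hd
    refine ⟨hw, κ * μ, mul_pos hκ hμ, fun i => ?_⟩
    exact (mul_le_mul_of_nonneg_left (hμc i) hκ.le).trans (hv i c hc w hw hd)
  have hxU : x ∈ U := ⟨hx, κ, hκ, h0⟩
  have hsub : K ⊆ thickening (δ / 2) U := by
    refine hKc.subset_of_closure_inter_subset isOpen_thickening ⟨x, hx, ?_⟩ ?_
    · exact self_subset_thickening (by linarith) U hxU
    · rintro w ⟨hw1, hw2⟩
      obtain ⟨w', hw', hd⟩ := Metric.mem_closure_iff.1 hw1 (δ / 2) (by linarith)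
      obtain ⟨c, hc, hd'⟩ := mem_thickening_iff.1 hw'
      have h1 : dist w c ≤ δ := by
        have := dist_triangle w w' c
        linarith
      exact self_subset_thickening (by linarith) U (hstep c hc w hw2 h1)
  have hall : ∀ w ∈ K, w ∈ U := by
    intro w hw
    obtain ⟨c, hc, hd⟩ := mem_thickening_iff.1 (hsub hw)
    exact hstep c hc w hw (by linarith)
  refine hK.induction_on (p := fun s => ∃ μ : ℝ, 0 < μ ∧ ∀ i, ∀ w ∈ s, μ ≤ v i w)
    ⟨1, one_pos, fun _ w hw => absurd hw (notMem_empty w)⟩ ?_ ?_ ?_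
  · rintro s t hst ⟨μ, hμ, h⟩
    exact ⟨μ, hμ, fun i w hw => h i w (hst hw)⟩
  · rintro s t ⟨μ, hμ, h⟩ ⟨μ', hμ', h'⟩
    refine ⟨min μ μ', lt_min hμ hμ', fun i w hw => ?_⟩
    rcases hw with hw | hw
    · exact (min_le_left _ _).trans (h i w hw)
    · exact (min_le_right _ _).trans (h' i w hw)
  · intro c hc
    obtain ⟨-, μ, hμ, hμc⟩ := hall c hc
    refine ⟨ball c δ ∩ K, inter_mem (mem_nhdsWithin_of_mem_nhds (ball_mem_nhds c hδ))
      self_mem_nhdsWithin, κ * μ, mul_pos hκ hμ, fun i w hw => ?_⟩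
    exact (mul_le_mul_of_nonneg_left (hμc i) hκ.le).trans (hv i c hc w hw.2 (mem_ball.1 hw.1).le)

/-! ## The inverse of the inner map -/

theorem inv_props {ψ : ℂ → ℂ} (hd : DifferentiableOn ℂ ψ (ball 0 1)) (hi : InjOn ψ (ball 0 1)) :
    IsOpen (ψ '' ball 0 1) ∧
    DifferentiableOn ℂ (Function.invFunOn ψ (ball 0 1)) (ψ '' ball 0 1) ∧
    ∀ z ∈ ball (0 : ℂ) 1, Function.invFunOn ψ (ball 0 1) (ψ z) = z := by
  have hl := hi.leftInvOn_invFunOn
  have hder : ∀ z ∈ ball (0 : ℂ) 1, deriv ψ z ≠ 0 := fun z hz =>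
    Pool.Agent.Helper523.LL.deriv_ne_zero_of_injOn isOpen_ball hd hi hz
  have hmap : ∀ z ∈ ball (0 : ℂ) 1, map ψ (𝓝 z) = 𝓝 (ψ z) := fun z hz =>
    (hd.analyticAt (isOpen_ball.mem_nhds hz)).hasStrictDerivAt.map_nhds_eq (hder z hz)
  have hopen : IsOpen (ψ '' ball 0 1) := by
    rw [isOpen_iff_mem_nhds]
    rintro _ ⟨z, hz, rfl⟩
    rw [← hmap z hz]
    exact image_mem_map (isOpen_ball.mem_nhds hz)
  refine ⟨hopen, ?_, fun z hz => hl hz⟩
  rintro _ ⟨z, hz, rfl⟩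
  apply DifferentiableAt.differentiableWithinAt
  have hcont : ContinuousAt (Function.invFunOn ψ (ball 0 1)) (ψ z) := by
    rw [ContinuousAt, hl hz, ← hmap z hz, tendsto_map'_iff]
    refine tendsto_id.congr' ?_
    filter_upwards [isOpen_ball.mem_nhds hz] with y hy
    exact (hl hy).symm
  have h1 : HasDerivAt ψ (deriv ψ z) (Function.invFunOn ψ (ball 0 1) (ψ z)) := by
    rw [hl hz]
    exact (hd.differentiableAt (isOpen_ball.mem_nhds hz)).hasDerivAt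
  refine (h1.of_local_left_inverse hcont (hder z hz) ?_).differentiableAt
  filter_upwards [hopen.mem_nhds (mem_image_of_mem ψ hz)] with y hy
  obtain ⟨w, hw, rfl⟩ := hy
  rw [hl hw]

/-! ## The exterior -/

theorem escape (h4 : MB.S_BL) {n : ℕ} (hn : 2 ≤ n) {g : RMap n} (hQ : g.Q = 1) {φ : ℂ → ℂ}
    (hφ : IsExt (zn n) g φ) {z : ℂ} (hz : z ∈ MB.Ext) (m : ℕ) (x : ℂ) (ρ : ℝ) :
    ¬ ∀ j, (fun w : ℂ => g.P.eval w)^[m + j] (φ z) ∈ closedBall x ρ := by
  intro hcon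
  have hz1 : 1 < ‖z‖ := hz
  have hBL := (h4 n (by omega) (zn n)).2.2.2.2.2.2.2.2
  have hext : ∀ j : ℕ, z ^ n ^ j ∈ MB.Ext := by
    intro j
    change 1 < ‖z ^ n ^ j‖
    rw [norm_pow]
    exact one_lt_pow₀ hz1 (pow_ne_zero _ (by omega))
  have hit : ∀ j : ℕ, (fun w : ℂ => g.P.eval w)^[j] (φ z) = φ (z ^ n ^ j) := by
    intro j
    induction j with
    | zero => simp
    | succ j ih =>
      rw [Function.iterate_succ_apply', ih]
      obtain ⟨-, h2⟩ := hφ.semi (z ^ n ^ j) (hext j) (by rw [(hBL _).1]; exact one_ne_zero)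
      rw [RMap.ev, hQ, eval_one, div_one, (hBL _).2, ← pow_mul, ← pow_succ] at h2
      exact h2
  have hn1 : Tendsto (fun j : ℕ => n ^ j) atTop atTop := tendsto_pow_atTop_atTop_of_one_lt (by omega : 1 < n)
  have hnorm : Tendsto (fun j : ℕ => ‖z ^ n ^ j‖) atTop atTop := by
    simp_rw [norm_pow]
    exact (tendsto_pow_atTop_atTop_of_one_lt hz1).comp hn1
  have hco : Tendsto (fun j : ℕ => z ^ n ^ j) atTop (cocompact ℂ) := by
    rw [← Metric.cobounded_eq_cocompact, ← tendsto_norm_atTop_iff_cobounded]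
    exact hnorm
  have hdiff := (hφ.norm.comp hco).norm
  rw [norm_zero] at hdiff
  have h1 : ∀ᶠ j : ℕ in atTop, ‖φ (z ^ n ^ j) - z ^ n ^ j‖ < 1 :=
    hdiff.eventually (gt_mem_nhds one_pos)
  have h2 : ∀ᶠ j : ℕ in atTop, ‖x‖ + ρ + 1 < ‖z ^ n ^ j‖ := hnorm.eventually_gt_atTop _
  obtain ⟨j, ⟨hj1, hj2⟩, hj3⟩ := ((h1.and h2).and (eventually_ge_atTop m)).exists
  have h3 := hcon (j - m)
  rw [Nat.add_sub_cancel' hj3, hit, mem_closedBall, dist_eq_norm] at h3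
  have h4 : ‖z ^ n ^ j‖ ≤ ‖φ (z ^ n ^ j) - x‖ + ‖x‖ + ‖φ (z ^ n ^ j) - z ^ n ^ j‖ := by
    have h5 : z ^ n ^ j = (φ (z ^ n ^ j) - x) + x - (φ (z ^ n ^ j) - z ^ n ^ j) := by ring
    calc ‖z ^ n ^ j‖ = ‖(φ (z ^ n ^ j) - x) + x - (φ (z ^ n ^ j) - z ^ n ^ j)‖ := by rw [← h5]
      _ ≤ ‖(φ (z ^ n ^ j) - x) + x‖ + ‖φ (z ^ n ^ j) - z ^ n ^ j‖ := norm_sub_le _ _
      _ ≤ _ := by
        have := norm_add_le (φ (z ^ n ^ j) - x) x
        linarith
  linarith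

theorem surj_h {h : ℝ → ℝ} (hc : Continuous h)
    (hp : ∀ x, h (x + 2 * Real.pi) = h x + 2 * Real.pi) (θ : ℝ) : ∃ t, h t = θ := by
  have hpi : 0 < 2 * Real.pi := by positivity
  have hk : ∀ k : ℤ, h (k * (2 * Real.pi)) = h 0 + k * (2 * Real.pi) := by
    intro k
    induction k using Int.induction_on with
    | zero => simp
    | succ k ih =>
      have e : (((k : ℤ) + 1 : ℤ) : ℝ) * (2 * Real.pi) =
          (((k : ℤ) : ℝ)) * (2 * Real.pi) + 2 * Real.pi := by push_cast; ring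
      rw [e, hp, ih]
      ring
    | pred k ih =>
      have e : ((-(k : ℤ) : ℤ) : ℝ) * (2 * Real.pi) =
          ((-(k : ℤ) - 1 : ℤ) : ℝ) * (2 * Real.pi) + 2 * Real.pi := by push_cast; ring
      have h1 := hp (((-(k : ℤ) - 1 : ℤ) : ℝ) * (2 * Real.pi))
      rw [← e, ih] at h1
      push_cast at h1 ⊢
      linarith
  set k : ℤ := ⌊(θ - h 0) / (2 * Real.pi)⌋ with hkdef
  have h1 : (k : ℝ) * (2 * Real.pi) ≤ θ - h 0 := (le_div_iff₀ hpi).1 (Int.floor_le _)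
  have h2 : θ - h 0 < ((k : ℝ) + 1) * (2 * Real.pi) := (div_lt_iff₀ hpi).1 (Int.lt_floor_add_one _)
  have h3 := intermediate_value_Icc (a := (k : ℝ) * (2 * Real.pi))
    (b := ((k + 1 : ℤ) : ℝ) * (2 * Real.pi)) (f := h) (by push_cast; nlinarith) hc.continuousOn
  obtain ⟨t, -, ht⟩ := h3 (show θ ∈ _ by
    rw [hk, hk]
    constructor
    · linarith
    · push_cast
      linarith)
  exact ⟨t, ht⟩

theorem mem_G {n : ℕ} {B : Blaschke n} {g : RMap n} {φ ψ : ℂ → ℂ} {h : ℝ → ℝ}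
    (hM : IsMatingData (zn n) B g φ ψ h) {O : Set ℂ} (hO : IsOpen O)
    (hdis : ∀ y ∈ O, y ∉ φ '' MB.Ext) : O ⊆ ψ '' ball 0 1 := by
  intro y hy
  have h1 : y ∈ ψ '' closedBall 0 1 := by
    by_contra hcon
    apply hdis y hy
    rw [hM.compl]
    exact hcon
  obtain ⟨ζ, hζ, rfl⟩ := h1
  rw [mem_closedBall_zero_iff] at hζ
  rcases lt_or_eq_of_le hζ with h2 | h2
  · exact ⟨ζ, mem_ball_zero_iff.2 h2, rfl⟩
  · exfalso
    obtain ⟨t, ht⟩ := surj_h hM.conth hM.perh (Complex.arg ζ)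
    have h3 := hM.glue t
    have h4 : Complex.exp (h t * Complex.I) = ζ := by
      have h5 := Complex.norm_mul_exp_arg_mul_I ζ
      rw [h2, Complex.ofReal_one, one_mul] at h5
      rw [ht, h5]
    rw [h4] at h3
    have hc : Complex.exp (t * Complex.I) ∈ closure MB.Ext := by
      have e : MB.Ext = (closedBall (0 : ℂ) 1)ᶜ := by
        ext w
        simp [MB.Ext]
      rw [e, closure_compl, interior_closedBall _ one_ne_zero, mem_compl_iff, mem_ball_zero_iff,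
        Complex.norm_exp_ofReal_mul_I]
      exact lt_irrefl 1
    have hCE : Complex.exp (t * Complex.I) ∈ CExt := by
      change 1 ≤ ‖Complex.exp (t * Complex.I)‖
      rw [Complex.norm_exp_ofReal_mul_I]
    have hcw : ContinuousWithinAt φ MB.Ext (Complex.exp (t * Complex.I)) :=
      (hM.contφ _ hCE).mono fun w hw => le_of_lt (show 1 < ‖w‖ from hw)
    have h6 := hcw.mem_closure_image hc
    rw [h3] at h6
    obtain ⟨w, hw1, hw2⟩ := mem_closure_iff.1 h6 O hO hy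
    exact hdis w hw1 hw2

/-! ## The attracting disc -/

theorem inv_disc {P : ℂ[X]} {x : ℂ} {ρ lam : ℝ} (hρ : 0 ≤ ρ)
    (hder : ∀ y ∈ closedBall x ρ, ‖P.derivative.eval y‖ ≤ lam)
    (hx : ‖P.eval x - x‖ ≤ (1 - lam) * ρ) (hl : 0 ≤ lam) :
    (∀ y ∈ closedBall x ρ, ∀ y' ∈ closedBall x ρ, ‖P.eval y' - P.eval y‖ ≤ lam * ‖y' - y‖) ∧
    MapsTo (fun w : ℂ => P.eval w) (closedBall x ρ) (closedBall x ρ) := by
  have h1 : ∀ y ∈ closedBall x ρ, ∀ y' ∈ closedBall x ρ,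
      ‖P.eval y' - P.eval y‖ ≤ lam * ‖y' - y‖ := by
    intro y hy y' hy'
    refine Convex.norm_image_sub_le_of_norm_deriv_le (f := fun w : ℂ => P.eval w)
      (fun w _ => P.differentiableAt) (fun w hw => ?_) (convex_closedBall x ρ) hy hy'
    rw [Polynomial.deriv]
    exact hder w hw
  refine ⟨h1, fun y hy => ?_⟩
  have h2 := h1 x (mem_closedBall_self hρ) y hy
  rw [mem_closedBall, dist_eq_norm] at hy ⊢
  have h3 : ‖P.eval y - x‖ ≤ ‖P.eval y - P.eval x‖ + ‖P.eval x - x‖ := norm_sub_le_norm_sub_add_norm_sub _ _ _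
  have h4 : lam * ‖y - x‖ ≤ lam * ρ := mul_le_mul_of_nonneg_left hy hl
  linarith

theorem exists_fix {P : ℂ[X]} {x : ℂ} {ρ lam : ℝ} (hρ : 0 ≤ ρ)
    (hder : ∀ y ∈ closedBall x ρ, ‖P.derivative.eval y‖ ≤ lam)
    (hx : ‖P.eval x - x‖ ≤ (1 - lam) * ρ) (hl : 0 ≤ lam) (hl1 : lam < 1) :
    ∃ y ∈ closedBall x ρ, P.eval y = y := by
  obtain ⟨h1, h2⟩ := inv_disc hρ hder hx hl
  have hcon : ContractingWith ⟨lam, hl⟩ (h2.restrict (fun w : ℂ => P.eval w) _ _) := by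
    refine ⟨hl1, LipschitzWith.of_dist_le_mul fun y y' => ?_⟩
    change dist (P.eval y.1) (P.eval y'.1) ≤ lam * dist y.1 y'.1
    rw [dist_eq_norm, dist_eq_norm]
    exact h1 y'.1 y'.2 y.1 y.2
  obtain ⟨y, hy, hfix, -⟩ := hcon.exists_fixedPoint' isClosed_closedBall.isComplete h2
    (mem_closedBall_self hρ) (edist_ne_top _ _)
  exact ⟨y, hy, hfix⟩

theorem exists_m {F : ℂ → ℂ} (hF : Continuous F) {K V : Set ℂ} (hK : IsCompact K) (hV : IsOpen V)
    (hVF : MapsTo F V V) (h : ∀ z ∈ K, ∃ m : ℕ, F^[m] z ∈ V) : ∃ m : ℕ, ∀ z ∈ K, F^[m] z ∈ V := by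
  have hmono : ∀ (z : ℂ) (m m' : ℕ), m ≤ m' → F^[m] z ∈ V → F^[m'] z ∈ V := by
    intro z m m' hm hz
    rw [← Nat.sub_add_cancel hm, Function.iterate_add_apply]
    exact hVF.iterate _ hz
  refine hK.induction_on (p := fun s => ∃ m : ℕ, ∀ z ∈ s, F^[m] z ∈ V)
    ⟨0, fun z hz => absurd hz (notMem_empty z)⟩ ?_ ?_ ?_
  · rintro s t hst ⟨m, hm⟩
    exact ⟨m, fun z hz => hm z (hst hz)⟩
  · rintro s t ⟨m, hm⟩ ⟨m', hm'⟩
    refine ⟨max m m', fun z hz => ?_⟩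
    rcases hz with hz | hz
    · exact hmono z m _ (le_max_left _ _) (hm z hz)
    · exact hmono z m' _ (le_max_right _ _) (hm' z hz)
  · intro z hz
    obtain ⟨m, hm⟩ := h z hz
    exact ⟨F^[m] ⁻¹' V, mem_nhdsWithin_of_mem_nhds
      ((hV.preimage (hF.iterate m)).mem_nhds hm), m, fun w hw => hw⟩

/-! ## Critical points -/

theorem crit_bound (h6 : MB.S_RTOP) {n : ℕ} (hn : 2 ≤ n) {p : ℕ → RMap n} {f : RMap n}
    (hp : Tendsto p atTop (𝓝 f)) :
    ∃ R : ℝ, ∀ᶠ k in atTop, ∀ w, (p k).P.derivative.eval w = 0 → ‖w‖ ≤ R := by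
  set S : ℝ := ∑ j ∈ Finset.range (n + 1), (‖f.P.coeff j‖ + 1) with hS
  have h1 : ∀ᶠ k in atTop, ∀ j ∈ Finset.range (n + 1), ‖(p k).P.coeff j‖ < ‖f.P.coeff j‖ + 1 := by
    rw [Filter.eventually_all_finset]
    intro j _
    exact (conv_coeff h6 hp j).norm.eventually (gt_mem_nhds (lt_add_one _))
  refine ⟨n * S + 1, h1.mono fun k hk w hw => ?_⟩
  set q := (p k).P.derivative with hq
  have hdeg : q.natDegree = n - 1 := by
    rw [hq, natDegree_derivative, (p k).natDegree]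
  have hlc : q.leadingCoeff = n := by
    rw [leadingCoeff, hdeg, hq, coeff_derivative]
    have e : n - 1 + 1 = n := by omega
    have h2 : (p k).P.coeff n = 1 := by
      have := (p k).monic
      rw [Monic, leadingCoeff, (p k).natDegree] at this
      exact this
    rw [e, h2, one_mul]
    have e2 : ((n - 1 : ℕ) : ℂ) + 1 = ((n - 1 + 1 : ℕ) : ℂ) := by push_cast; ring
    rw [e2, e]
  have hq0 : q ≠ 0 := by
    intro h0
    rw [h0, leadingCoeff_zero] at hlc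
    have : (n : ℂ) ≠ 0 := Nat.cast_ne_zero.2 (by omega)
    exact this hlc.symm
  have h3 : ‖w‖₊ < cauchyBound q := IsRoot.norm_lt_cauchyBound hq0 hw
  have h4 : (‖w‖ : ℝ) < (cauchyBound q : ℝ) := by exact_mod_cast h3
  refine h4.le.trans ?_
  rw [cauchyBound, NNReal.coe_add, NNReal.coe_one, NNReal.coe_div, hlc]
  have hn1 : (1 : ℝ) ≤ n := by exact_mod_cast (by omega : 1 ≤ n)
  have hnn : ((‖(n : ℂ)‖₊ : NNReal) : ℝ) = n := by
    rw [coe_nnnorm, Complex.norm_natCast]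
  rw [hnn]
  have hS0 : 0 ≤ S := Finset.sum_nonneg fun j _ => by positivity
  have hsup : ((Finset.sup (Finset.range q.natDegree) (fun j => ‖q.coeff j‖₊) : NNReal) : ℝ) ≤
      n * S := by
    have h5 : Finset.sup (Finset.range q.natDegree) (fun j => ‖q.coeff j‖₊) ≤
        Real.toNNReal (n * S) := by
      refine Finset.sup_le fun j hj => ?_
      rw [← NNReal.coe_le_coe, coe_nnnorm, Real.coe_toNNReal _ (by positivity)]
      rw [hdeg, Finset.mem_range] at hj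
      rw [hq, coeff_derivative, norm_mul]
      have h6 : ‖(p k).P.coeff (j + 1)‖ ≤ S := by
        refine (hk (j + 1) (Finset.mem_range.2 (by omega))).le.trans ?_
        exact Finset.single_le_sum (f := fun j => ‖f.P.coeff j‖ + 1)
          (fun i _ => by positivity) (Finset.mem_range.2 (by omega))
      have h7 : ‖((j : ℂ) + 1)‖ ≤ n := by
        have e : ((j : ℂ) + 1) = ((j + 1 : ℕ) : ℂ) := by push_cast; ring
        rw [e, Complex.norm_natCast]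
        exact_mod_cast (by omega : j + 1 ≤ n)
      calc ‖(p k).P.coeff (j + 1)‖ * ‖((j : ℂ) + 1)‖ ≤ S * n :=
            mul_le_mul h6 h7 (norm_nonneg _) hS0
        _ = n * S := mul_comm _ _
    have h9 := NNReal.coe_le_coe.2 h5
    rwa [Real.coe_toNNReal _ (by positivity)] at h9
  have h8 : ((Finset.sup (Finset.range q.natDegree) (fun j => ‖q.coeff j‖₊) : NNReal) : ℝ) / n ≤
      n * S := by
    rw [div_le_iff₀ (by linarith)]
    have : 0 ≤ n * S := by positivity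
    nlinarith
  linarith

/-! ## Mating data of a single map -/

theorem fix_zero (h4 : MB.S_BL) {n : ℕ} (hn : 2 ≤ n) {B : Blaschke n} {g : RMap n} {φ ψ : ℂ → ℂ}
    {h : ℝ → ℝ} (hQ : g.Q = 1) (hM : IsMatingData (zn n) B g φ ψ h) {y : ℂ}
    (hy : y ∈ ψ '' ball 0 1) (hfix : g.P.eval y = y) :
    Function.invFunOn ψ (ball 0 1) y = 0 := by
  obtain ⟨z, hz, rfl⟩ := hy
  have hi : InjOn ψ (ball 0 1) := hM.injψ.mono ball_subset_closedBall
  rw [(inv_props hM.diffψ hi).2.2 z hz]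
  obtain ⟨-, hB1, -, -, -, -, -, hB2, -⟩ := h4 n (by omega) B
  have hz1 : ‖z‖ < 1 := mem_ball_zero_iff.1 hz
  obtain ⟨-, hs⟩ := hM.semiψ z (ball_subset_closedBall hz)
  rw [RMap.ev, hQ, eval_one, div_one, hfix] at hs
  have hBz : B.ev z ∈ closedBall (0 : ℂ) 1 :=
    mem_closedBall_zero_iff.2 ((hB1 z hz1.le).trans hz1.le)
  have he : z = B.ev z := hM.injψ (ball_subset_closedBall hz) hBz hs
  obtain ⟨q, hq, hq2⟩ := (hB2 hn).1 ‖z‖ hz1
  have h7 := hq2 z le_rfl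
  rw [← he] at h7
  by_contra hne
  have hpos : 0 < ‖z‖ := norm_pos_iff.2 hne
  nlinarith

theorem crit_of (h4 : MB.S_BL) {n : ℕ} (hn : 2 ≤ n) {B : Blaschke n} {g : RMap n} {φ ψ : ℂ → ℂ}
    {h : ℝ → ℝ} (hQ : g.Q = 1) (hM : IsMatingData (zn n) B g φ ψ h) {z : ℂ} (hz : ‖z‖ < 1)
    (hd : deriv B.ev z = 0) : g.P.derivative.eval (ψ z) = 0 := by
  obtain ⟨hB0, hB1, -⟩ := h4 n (by omega) B
  have hi : InjOn ψ (ball 0 1) := hM.injψ.mono ball_subset_closedBall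
  have hzb : z ∈ ball (0 : ℂ) 1 := mem_ball_zero_iff.2 hz
  have hBz : B.ev z ∈ ball (0 : ℂ) 1 := mem_ball_zero_iff.2 ((hB1 z hz.le).trans_lt hz)
  have hder : deriv ψ z ≠ 0 :=
    Pool.Agent.Helper523.LL.deriv_ne_zero_of_injOn isOpen_ball hM.diffψ hi hzb
  have hBd : DifferentiableAt ℂ B.ev z := by
    have h1 : DifferentiableAt ℂ B.num z := by
      unfold Blaschke.num
      fun_prop
    have h2 : DifferentiableAt ℂ B.den z := by
      unfold Blaschke.den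
      fun_prop
    exact h1.div h2 (hB0 z hz.le)
  have h1 : HasDerivAt ψ (deriv ψ z) z :=
    (hM.diffψ.differentiableAt (isOpen_ball.mem_nhds hzb)).hasDerivAt
  have h2 : HasDerivAt ψ (deriv ψ (B.ev z)) (B.ev z) :=
    (hM.diffψ.differentiableAt (isOpen_ball.mem_nhds hBz)).hasDerivAt
  have h3 : HasDerivAt (fun w => ψ (B.ev w)) (deriv ψ (B.ev z) * deriv B.ev z) z :=
    h2.comp z hBd.hasDerivAt
  have h4' : HasDerivAt (fun w => g.P.eval (ψ w)) (g.P.derivative.eval (ψ z) * deriv ψ z) z :=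
    (g.P.hasDerivAt (ψ z)).comp z h1
  have h5 : (fun w => g.P.eval (ψ w)) =ᶠ[𝓝 z] fun w => ψ (B.ev w) := by
    filter_upwards [isOpen_ball.mem_nhds hzb] with w hw
    have := (hM.semiψ w (ball_subset_closedBall hw)).2
    rwa [RMap.ev, hQ, eval_one, div_one] at this
  have h6 := h5.deriv_eq
  rw [h4'.deriv, h3.deriv, hd, mul_zero] at h6
  exact (mul_eq_zero.1 h6).resolve_right hder

theorem sub_G (h4 : MB.S_BL) {n : ℕ} (hn : 2 ≤ n) {B : Blaschke n} {g : RMap n} {φ ψ : ℂ → ℂ}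
    {h : ℝ → ℝ} (hQ : g.Q = 1) (hM : IsMatingData (zn n) B g φ ψ h) {O : Set ℂ} (hO : IsOpen O)
    {m : ℕ} {x : ℂ} {ρ : ℝ} (hm : ∀ y ∈ O, (fun w : ℂ => g.P.eval w)^[m] y ∈ closedBall x ρ)
    (hD : MapsTo (fun w : ℂ => g.P.eval w) (closedBall x ρ) (closedBall x ρ)) :
    O ⊆ ψ '' ball 0 1 := by
  refine mem_G hM hO ?_
  rintro y hy ⟨z, hz, rfl⟩
  refine escape h4 hn hQ hM.ext hz m x ρ fun j => ?_
  rw [add_comm, Function.iterate_add_apply]
  exact hD.iterate j (hm _ hy)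

theorem harn' {ψ : ℂ → ℂ} (hd : DifferentiableOn ℂ ψ (ball 0 1)) (hi : InjOn ψ (ball 0 1)) {c : ℂ}
    {R : ℝ} (hR : 0 < R) (hsub : ball c R ⊆ ψ '' ball 0 1) {w : ℂ} (hw : dist w c ≤ R / 2) :
    3 / 16 * (1 - ‖Function.invFunOn ψ (ball 0 1) c‖) ≤
      1 - ‖Function.invFunOn ψ (ball 0 1) w‖ := by
  obtain ⟨-, h1, h2⟩ := inv_props hd hi
  refine harn hR (h1.mono hsub) (fun y hy => ?_) hw
  obtain ⟨z, hz, rfl⟩ := hsub hy
  rw [h2 z hz]
  exact mem_ball_zero_iff.1 hz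

end CLOaux

open CLOaux in
theorem t_CLO (h1 : S_CTY) (h2 : S_CEN) (h3 : S_ZCR) (h4 : MB.S_BL) (h5 : MB.S_QFORM)
    (h6 : MB.S_RTOP) : S_CLO := by
  intro n hn p f K x hpB hp hK hKc hxK hfx hfd hcrit hbas
  have hpB' : ∀ k, ∃ (B : Blaschke n) (φ ψ : ℂ → ℂ) (h : ℝ → ℝ), IsMatingData (zn n) B (p k) φ ψ h :=
    hpB
  choose B φ ψ h hM using hpB'
  have hQ : ∀ k, (p k).Q = 1 := fun k => (h2 n hn _ _ (hM k).ext).1
  -- the constants
  set lam : ℝ := (‖f.P.derivative.eval x‖ + 1) / 2 with hlam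
  have hlam1 : lam < 1 := by rw [hlam]; linarith
  have hlam0 : 0 ≤ lam := by rw [hlam]; positivity
  have hlamx : ‖f.P.derivative.eval x‖ < lam := by rw [hlam]; linarith
  obtain ⟨ρ, hρ, hρd⟩ : ∃ ρ : ℝ, 0 < ρ ∧ ∀ y ∈ closedBall x ρ, ‖f.P.derivative.eval y‖ < lam := by
    have hcont : ContinuousAt (fun y : ℂ => ‖f.P.derivative.eval y‖) x :=
      (f.P.derivative.continuous.norm).continuousAt
    have hev : ∀ᶠ y in 𝓝 x, ‖f.P.derivative.eval y‖ < lam := hcont.eventually (gt_mem_nhds hlamx)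
    obtain ⟨ε, hε, hb⟩ := Metric.eventually_nhds_iff_ball.1 hev
    exact ⟨ε / 2, by positivity, fun y hy => hb y (closedBall_subset_ball (by linarith) hy)⟩
  have hE : ∀ ρ' : ℝ, 0 < ρ' → ρ' ≤ ρ → ∀ᶠ k in atTop,
      (∀ y ∈ closedBall x ρ', ‖(p k).P.derivative.eval y‖ ≤ lam) ∧
      ‖(p k).P.eval x - x‖ ≤ (1 - lam) * ρ' := by
    intro ρ' hρ' hle
    have e1 : ∀ᶠ k in atTop, ∀ y ∈ closedBall x ρ', (p k).P.derivative.eval y ∈ ball (0 : ℂ) lam := by
      refine ev_open (isCompact_closedBall x ρ') isOpen_ball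
        (g := fun k y => (p k).P.derivative.eval y) (G := fun y => f.P.derivative.eval y)
        (fun l hl z x hz => conv_der h6 hp hl hz) fun y hy => ?_
      exact mem_ball_zero_iff.2 (hρd y (closedBall_subset_closedBall hle hy))
    have e2 : ∀ᶠ k in atTop, (p k).P.eval x ∈ ball x ((1 - lam) * ρ') := by
      have e3 := conv_eval (z := fun _ => x) h6 hp le_rfl tendsto_const_nhds
      rw [hfx] at e3
      exact e3.eventually (ball_mem_nhds x (mul_pos (by linarith) hρ'))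
    filter_upwards [e1, e2] with k hk1 hk2
    refine ⟨fun y hy => (mem_ball_zero_iff.1 (hk1 y hy)).le, ?_⟩
    rw [mem_ball, dist_eq_norm] at hk2
    exact hk2.le
  -- the limit map
  set F : ℂ → ℂ := fun w => f.P.eval w with hF
  have hFc : Continuous F := f.P.continuous
  have hVF : MapsTo F (ball x ρ) (ball x ρ) := by
    intro y hy
    obtain ⟨k1, -⟩ := inv_disc (P := f.P) hρ.le (fun y hy => (hρd y hy).le)
      (by rw [hfx, sub_self, norm_zero]; exact mul_nonneg (by linarith) hρ.le) hlam0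
    have k2 := k1 x (mem_closedBall_self hρ.le) y (ball_subset_closedBall hy)
    rw [hfx] at k2
    rw [mem_ball, dist_eq_norm] at hy ⊢
    change ‖f.P.eval y - x‖ < ρ
    nlinarith [norm_nonneg (y - x)]
  obtain ⟨m, hm⟩ := exists_m hFc hK isOpen_ball hVF fun z hz =>
    ((hbas z hz).eventually (ball_mem_nhds x hρ)).exists
  obtain ⟨δ', hδ', hsub⟩ := hK.exists_cthickening_subset_open
    (isOpen_ball.preimage (hFc.iterate m)) (show K ⊆ F^[m] ⁻¹' ball x ρ from hm)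
  have hKcomp : IsCompact (cthickening δ' K) := hK.cthickening
  have ev1 : ∀ᶠ k in atTop, ∀ y ∈ cthickening δ' K,
      (fun w : ℂ => (p k).P.eval w)^[m] y ∈ ball x ρ :=
    ev_open hKcomp isOpen_ball (g := fun k y => (fun w : ℂ => (p k).P.eval w)^[m] y) (G := F^[m])
      (fun l hl z x hz => conv_iter h6 hp hl hz m) hsub
  -- the domains
  have ev2 : ∀ᶠ k in atTop, thickening δ' K ⊆ ψ k '' ball 0 1 := by
    filter_upwards [ev1, hE ρ hρ le_rfl] with k hk1 hk2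
    refine sub_G h4 hn (hQ k) (hM k) isOpen_thickening (m := m) (x := x) (ρ := ρ) (fun y hy => ?_)
      (inv_disc hρ.le hk2.1 hk2.2 hlam0).2
    exact ball_subset_closedBall (hk1 y (thickening_subset_cthickening _ _ hy))
  set δ : ℝ := δ' / 3 with hδ
  have hδ0 : 0 < δ := by rw [hδ]; positivity
  -- the base point
  have ev3 : ∀ᶠ k in atTop, 3 / 16 ≤ 1 - ‖Function.invFunOn (ψ k) (ball 0 1) x‖ := by
    filter_upwards [ev2, hE (min ρ δ) (lt_min hρ hδ0) (min_le_left _ _)] with k hk1 hk2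
    obtain ⟨y, hy, hfix⟩ := exists_fix (lt_min hρ hδ0).le hk2.1 hk2.2 hlam0 hlam1
    have hyd : dist y x ≤ δ := (mem_closedBall.1 hy).trans (min_le_right _ _)
    have hi : InjOn (ψ k) (ball 0 1) := (hM k).injψ.mono ball_subset_closedBall
    have hyG : y ∈ ψ k '' ball 0 1 := hk1 (mem_thickening_iff.2 ⟨x, hxK, by linarith⟩)
    have k1 := harn' (hM k).diffψ hi (c := y) (R := 2 * δ) (by linarith) (fun w hw => hk1
      (mem_thickening_iff.2 ⟨x, hxK, by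
        have := dist_triangle w y x
        rw [mem_ball] at hw
        linarith⟩)) (w := x) (by rw [dist_comm]; linarith)
    rw [fix_zero h4 hn (hQ k) (hM k) hyG hfix, norm_zero, sub_zero, mul_one] at k1
    exact k1
  have ev4 : ∀ᶠ k in atTop, ∀ c ∈ K, ∀ w, dist w c ≤ δ →
      3 / 16 * (1 - ‖Function.invFunOn (ψ k) (ball 0 1) c‖) ≤
        1 - ‖Function.invFunOn (ψ k) (ball 0 1) w‖ := by
    filter_upwards [ev2] with k hk1 c hc w hw
    refine harn' (hM k).diffψ ((hM k).injψ.mono ball_subset_closedBall) (R := 2 * δ) (by linarith)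
      (fun y hy => hk1 (mem_thickening_iff.2 ⟨c, hc, by
        rw [mem_ball] at hy
        linarith⟩)) (by linarith)
  obtain ⟨N, hN⟩ := eventually_atTop.1 (ev3.and ev4)
  obtain ⟨μ, hμ, hμK⟩ := chain (ι := {k : ℕ // N ≤ k}) hK hKc hxK hδ0
    (show (0 : ℝ) < 3 / 16 by norm_num)
    (fun k w => 1 - ‖Function.invFunOn (ψ k.1) (ball 0 1) w‖) (fun k => (hN k.1 k.2).1)
    (fun k c hc w _ hd => (hN k.1 k.2).2 c hc w hd)
  -- critical points
  obtain ⟨R, hR⟩ := crit_bound h6 hn hp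
  have hCc : IsCompact (closedBall (0 : ℂ) R \ thickening δ K) :=
    (isCompact_closedBall 0 R).diff isOpen_thickening
  have ev5 : ∀ᶠ k in atTop, ∀ y ∈ closedBall (0 : ℂ) R \ thickening δ K,
      (p k).P.derivative.eval y ∈ ({0}ᶜ : Set ℂ) := by
    refine ev_open hCc isOpen_compl_singleton (g := fun k y => (p k).P.derivative.eval y)
      (G := fun y => f.P.derivative.eval y) (fun l hl z x hz => conv_der h6 hp hl hz) fun y hy => ?_
    intro h0
    exact hy.2 (self_subset_thickening hδ0 K (hcrit y h0))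
  have hr1 : 1 - 3 / 16 * μ < 1 := by linarith
  have ev6 : ∀ᶠ k in atTop, ∀ z : ℂ, ‖z‖ < 1 → deriv (B k).ev z = 0 → ‖z‖ ≤ 1 - 3 / 16 * μ := by
    filter_upwards [hR, ev5, eventually_ge_atTop N] with k hk1 hk2 hk3 z hz hdz
    have c1 := crit_of h4 hn (hQ k) (hM k) hz hdz
    have c2 : ψ k z ∈ thickening δ K := by
      by_contra hcon
      exact hk2 (ψ k z) ⟨mem_closedBall_zero_iff.2 (hk1 _ c1), hcon⟩ c1
    obtain ⟨c, hc, hd⟩ := mem_thickening_iff.1 c2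
    have c3 := (hN k hk3).2 c hc _ hd.le
    have c4 := hμK ⟨k, hk3⟩ c hc
    rw [(inv_props (hM k).diffψ ((hM k).injψ.mono ball_subset_closedBall)).2.2 z
      (mem_ball_zero_iff.2 hz)] at c3
    simp only at c4
    linarith
  -- the end
  obtain ⟨r', hr', hz⟩ := h3 n hn _ hr1
  set u : Ultrafilter ℕ := Ultrafilter.of atTop with hu
  have hule : (u : Filter ℕ) ≤ atTop := Ultrafilter.of_le _
  have ev7 : ∀ᶠ k in (u : Filter ℕ), (∀ j, ‖(B k).a j‖ ≤ r') ∧ IsMating (zn n) (B k) (p k) := by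
    apply hule
    filter_upwards [ev6] with k hk
    exact ⟨hz (B k) hk, φ k, ψ k, h k, hM k⟩
  obtain ⟨B₀, F₀, hmat, hlim, -, -⟩ := h1 n hn r' hr' ℕ u B p ev7
  have := (h6 n).1
  have hFf : F₀ = f := tendsto_nhds_unique hlim (hp.mono_left hule)
  exact ⟨B₀, hFf ▸ hmat⟩

end Pool.Agent.H212.ND
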