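import Pool.Agent.H212.ND.StmC

/-!
# Job COU: a continuous extension makes the partners of the parabolic polynomial unique
-/

set_option autoImplicit false

open Filter Metric Set Topology Polynomial
open scoped ComplexConjugate

namespace Pool.Agent.H212.ND

open Pool.Agent.H212.MB

namespace COUaux

theorem bfix {n : ℕ} (B : Blaschke n) : B.ev B.b = B.b := by
  have h := B.fix
  rw [Finset.prod_div_distrib] at h
  rw [Blaschke.ev, Blaschke.num, Blaschke.den, mul_div_assoc]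
  exact h

theorem mark_fix {n : ℕ} {A B : Blaschke n} {f : RMap n} {φ ψ : ℂ → ℂ} {h : ℝ → ℝ}
    (hM : IsMatingData A B f φ ψ h) : f.Q.eval (φ A.b) ≠ 0 ∧ f.ev (φ A.b) = φ A.b := by
  rw [hM.mark]
  have h1 := hM.semiψ B.b (mem_closedBall_zero_iff.2 B.norm_b.le)
  rwa [bfix] at h1

theorem CExt_sub : CExt ⊆ closure MB.Ext := by
  intro w hw
  have e : MB.Ext = (closedBall (0 : ℂ) 1)ᶜ := by
    ext w
    simp [MB.Ext]
  rw [e, closure_compl, interior_closedBall _ one_ne_zero, mem_compl_iff, mem_ball_zero_iff, not_lt]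
  exact hw

theorem Ext_sub : MB.Ext ⊆ CExt := fun z hz => le_of_lt (show 1 < ‖z‖ from hz)

theorem T_CExt {n : ℕ} {A : Blaschke n} {k : ℝ} {T : ℂ ≃ₜ ℂ} (hT : IsTr (zn n) A k T) (z : ℂ) :
    T z ∈ CExt ↔ z ∈ CExt := by
  change 1 ≤ ‖T z‖ ↔ 1 ≤ ‖z‖
  rw [← not_lt, hT.inn z, not_lt]

theorem T_one {n : ℕ} {A : Blaschke n} {k : ℝ} {T : ℂ ≃ₜ ℂ} (hT : IsTr (zn n) A k T) :
    T 1 = A.b := hT.mark

theorem link_mark (h9 : MB.S_EXTU) {n : ℕ} (hn : 2 ≤ n) {A B : Blaschke n} {k C : ℝ} {T : ℂ ≃ₜ ℂ}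
    (hT : IsTr (zn n) A k T) {g f : RMap n} {H : ℂ ≃ₜ ℂ} {φ₁ φ₁' : ℂ → ℂ}
    (hL : Link A T C g f H φ₁ φ₁') {φ ψ φ' ψ' : ℂ → ℂ} {h h' : ℝ → ℝ}
    (hg : IsMatingData (zn n) B g φ ψ h) (hf : IsMatingData A B f φ' ψ' h') :
    H (φ 1) = φ' A.b := by
  have e1 := h9 n hn (zn n) g _ _ hL.extg hg.ext
  have e2 := h9 n hn A f _ _ hL.extf hf.ext
  have hE : EqOn (fun z => H (φ z)) (fun z => φ' (T z)) MB.Ext := by
    intro z hz
    have hTz : T z ∈ MB.Ext := (hT.out z).2 hz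
    simp only
    rw [← e1 hz, ← e2 hTz]
    exact hL.out z hz
  have hE' := hE.of_subset_closure (H.continuous.comp_continuousOn hg.contφ)
    (hf.contφ.comp T.continuous.continuousOn fun z hz => (T_CExt hT z).2 hz) Ext_sub CExt_sub
  have h1 : (1 : ℂ) ∈ CExt := by
    change 1 ≤ ‖(1 : ℂ)‖
    rw [norm_one]
  have h2 := hE' h1
  simp only at h2
  rw [h2, T_one hT]

theorem gmap {n : ℕ} {g : ℂ[X]} {c₀ : ℝ} {φ : ℂ → ℂ} (hP : Pic n g c₀ φ) (y : ℂ)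
    (hy : y ∉ φ '' MB.Ext) : g.eval y ∉ φ '' MB.Ext := by
  by_cases hc : y ∈ φ '' CExt
  · obtain ⟨ζ, hζ, rfl⟩ := hc
    have h1 : ‖ζ‖ = 1 := by
      refine le_antisymm ?_ hζ
      by_contra hcon
      exact hy ⟨ζ, not_le.1 hcon, rfl⟩
    rw [hP.bot.semi ζ hζ]
    rintro ⟨z, hz, he⟩
    exact hP.bot.disj z hz (ζ ^ n) (by rw [norm_pow, h1, one_pow]) he
  · have h1 : y ∈ Bas g c₀ := by
      rw [← hP.bot.bas]
      exact hc
    have h2 := (hP.inv y).2 h1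
    rw [← hP.bot.bas] at h2
    rintro ⟨z, hz, he⟩
    exact h2 ⟨z, Ext_sub hz, he⟩

theorem bext (h11 : MB.S_BL) {n : ℕ} (hn : 1 ≤ n) {A : Blaschke n} {f : RMap n} {φ φ' : ℂ → ℂ}
    (h : IsExt A f φ') (he : EqOn φ φ' MB.Ext) : IsExt A f φ where
  diff := h.diff.congr he
  inj := h.inj.congr he.symm
  norm := by
    refine h.norm.congr' ?_
    have h1 : ∀ᶠ z : ℂ in cocompact ℂ, 1 < ‖z‖ := (tendsto_norm_cocompact_atTop (E := ℂ)).eventually_gt_atTop 1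
    filter_upwards [h1] with z hz
    rw [he hz]
  semi := by
    intro z hz hd
    have h1 := h.semi z hz hd
    have h2 : A.ev z ∈ MB.Ext :=
      (show 1 < ‖z‖ from hz).trans_le ((h11 n hn A).2.2.2.1 z hz hd)
    rw [he hz, he h2]
    exact h1

theorem tend_MPt {n : ℕ} {ι : Type} {l : Filter ι} {x : ι → MPt n} {a : MPt n} :
    Tendsto x l (𝓝 a) ↔ Tendsto (fun i => (x i).1) l (𝓝 a.1) :=
  tendsto_subtype_rng

theorem cls_cont {n : ℕ} : Continuous (cls : MPt n → MM n) := continuous_quot_mk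

/-- the exterior map on the closed exterior obtained from a link -/
theorem ext_data (h11 : MB.S_BL) {n : ℕ} (hn : 2 ≤ n) {g : ℂ[X]} {c₀ : ℝ} {φ : ℂ → ℂ}
    {A : Blaschke n} {k : ℝ} {T : ℂ ≃ₜ ℂ} {f : RMap n} {φ' : ℂ → ℂ} {K0 : ℂ ≃ₜ ℂ}
    (hP : Pic n g c₀ φ) (hT : IsTr (zn n) A k T) (hL : Lnk A T g φ f φ' K0) :
    IsExt A f (fun w => K0 (φ (T.symm w))) ∧ ContinuousOn (fun w => K0 (φ (T.symm w))) CExt ∧
    InjOn (fun w => K0 (φ (T.symm w))) CExt ∧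
    (∀ y, y ∉ (fun w => K0 (φ (T.symm w))) '' MB.Ext → f.Q.eval y ≠ 0 ∧
      f.ev y ∉ (fun w => K0 (φ (T.symm w))) '' MB.Ext) ∧ K0 (φ (T.symm A.b)) = K0 1 := by
  have hTs : ∀ w ∈ CExt, T.symm w ∈ CExt := by
    intro w hw
    rw [← T_CExt hT, T.apply_symm_apply]
    exact hw
  have hTe : ∀ w ∈ MB.Ext, T.symm w ∈ MB.Ext := by
    intro w hw
    change 1 < ‖T.symm w‖
    rw [← hT.out, T.apply_symm_apply]
    exact hw
  refine ⟨bext h11 (by omega) hL.ext ?_, ?_, ?_, ?_, ?_⟩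
  · intro w hw
    have h1 := hL.out _ (hTe w hw)
    rw [T.apply_symm_apply] at h1
    exact h1
  · exact K0.continuous.comp_continuousOn (hP.bot.cont.comp T.symm.continuous.continuousOn hTs)
  · intro w hw w' hw' he
    exact T.symm.injective (hP.inj (hTs w hw) (hTs w' hw') (K0.injective he))
  · intro y hy
    have h1 : K0.symm y ∉ φ '' MB.Ext := by
      rintro ⟨z, hz, he⟩
      apply hy
      refine ⟨T z, (hT.out z).2 hz, ?_⟩
      simp only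
      rw [T.symm_apply_apply, he, K0.apply_symm_apply]
    have h2 := hL.inn _ h1
    rw [K0.apply_symm_apply] at h2
    refine ⟨h2.1, ?_⟩
    rw [h2.2]
    rintro ⟨w, hw, he⟩
    exact gmap hP _ h1 ⟨T.symm w, hTe w hw, K0.injective he⟩
  · rw [← T_one hT, T.symm_apply_apply, hP.bot.one]

theorem partner (h2 : S_HAU) (h3 : S_GDF) (h4 : S_STR) (h6 : S_LNK) (h8 : MB.S_LIM)
    (h9 : MB.S_EXTU) (h10 : MB.S_QFORM) {n : ℕ} {g : ℂ[X]} {c₀ : ℝ} {c : ℂ} {φ : ℂ → ℂ}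
    {F : ℂ → RMap n} {A : Blaschke n} (hG : Good n g c₀ c) (hP : Pic n g c₀ φ) (hF : Fam n g F)
    {Fb : {c : MM n // c ∈ closure (BM (zn n)) ∧ c ∈ PP n} → MM n} (hFb : Continuous Fb)
    (hFb2 : ∀ (B : Blaschke n) (x y : MPt n), IsMark (zn n) B x → IsMark A B y →
      ∀ c : {c : MM n // c ∈ closure (BM (zn n)) ∧ c ∈ PP n}, (c : MM n) = cls x → Fb c = cls y)
    {k C : ℝ} {T : ℂ ≃ₜ ℂ} (hT : IsTr (zn n) A k T)
    (hlk : ∀ g f, Rel A g f → ∃ (H : ℂ ≃ₜ ℂ) (φ φ' : ℂ → ℂ), Link A T C g f H φ φ')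
    (xh : MPt n) (hxh : xh.1 = (F (aa n g), aa n g * (1 - bb n g)))
    {f : RMap n} (hf : (F (aa n g), f) ∈ EE A) :
    ∃ (K0 : ℂ ≃ₜ ℂ) (φ' : ℂ → ℂ), Lnk A T g φ f φ' K0 ∧
      ∃ (hmem : cls xh ∈ closure (BM (zn n)) ∧ cls xh ∈ PP n) (y : MPt n), y.1 = (f, K0 1) ∧
        Fb ⟨cls xh, hmem⟩ = cls y := by
  classical
  have hn : 2 ≤ n := by
    have := hG.n3
    omega
  obtain ⟨u, hu1, hu2⟩ := mem_closure_iff_ultrafilter.1 hf
  have hS : ∀ᶠ p in (u : Filter (RMap n × RMap n)), Rel A p.1 p.2 := hu1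
  have hex : ∀ p : RMap n × RMap n, ∃ (B : Blaschke n) (φ₁ ψ₁ : ℂ → ℂ) (k₁ : ℝ → ℝ) (φ₂ ψ₂ : ℂ → ℂ)
      (k₂ : ℝ → ℝ) (H : ℂ ≃ₜ ℂ) (φ₃ φ₄ : ℂ → ℂ), Rel A p.1 p.2 →
      IsMatingData (zn n) B p.1 φ₁ ψ₁ k₁ ∧ IsMatingData A B p.2 φ₂ ψ₂ k₂ ∧
      Link A T C p.1 p.2 H φ₃ φ₄ := by
    intro p
    by_cases hp : Rel A p.1 p.2
    · obtain ⟨H, φ₃, φ₄, hL⟩ := hlk p.1 p.2 hp
      obtain ⟨B, ⟨φ₁, ψ₁, k₁, hM1⟩, ⟨φ₂, ψ₂, k₂, hM2⟩⟩ := hp
      exact ⟨B, φ₁, ψ₁, k₁, φ₂, ψ₂, k₂, H, φ₃, φ₄, fun _ => ⟨hM1, hM2, hL⟩⟩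
    · exact ⟨zn n, id, id, id, id, id, id, Homeomorph.refl ℂ, id, id, fun h => absurd h hp⟩
  choose B φ₁ ψ₁ k₁ φ₂ ψ₂ k₂ H φ₃ φ₄ hp using hex
  have hlim1 : Tendsto (fun p : RMap n × RMap n => p.1) (u : Filter (RMap n × RMap n))
      (𝓝 (F (aa n g))) := (continuous_fst.tendsto _).mono_left hu2
  have hlim2 : Tendsto (fun p : RMap n × RMap n => p.2) (u : Filter (RMap n × RMap n))
      (𝓝 f) := (continuous_snd.tendsto _).mono_left hu2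
  have hstr := h4 n g c₀ c φ F (RMap n × RMap n) u (fun p => p.1) B φ₁ ψ₁ k₁ hG hP hF
    (hS.mono fun p h => (hp p h).1) hlim1
  obtain ⟨K, Φ, Φ', hK, hKc, -⟩ := h8 n hn A k C T hT (RMap n × RMap n) u (fun p => p.1)
    (fun p => p.2) H φ₃ φ₄ _ _ (hS.mono fun p h => (hp p h).2.2) hlim1 hlim2
  obtain ⟨-, K0, hK0, hLnk⟩ := h6 n g c₀ c φ F A C T K f Φ Φ' hG hP hF hK
  have hK01 : K (aa n g * (1 - bb n g)) = K0 1 := (hK0 1).symm
  have h1n : (1 : ℂ) ∉ φ '' MB.Ext := by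
    rintro ⟨z, hz, he⟩
    exact hP.bot.disj z hz 1 norm_one (he.trans hP.bot.one.symm)
  have hyp := hLnk.inn 1 h1n
  rw [hG.fix] at hyp
  have hlim3 : Tendsto (fun p => φ₂ p A.b) (u : Filter (RMap n × RMap n)) (𝓝 (K0 1)) := by
    have h := hKc.tendsto_comp K.continuous.continuousAt hstr
    rw [hK01] at h
    refine h.congr' ?_
    filter_upwards [hS] with p h
    exact link_mark h9 hn hT (hp p h).2.2 (hp p h).1 (hp p h).2.1
  -- the points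
  set yh : MPt n := ⟨(f, K0 1), hyp⟩ with hyh
  have hx : ∀ p : RMap n × RMap n, ∃ x : MPt n, (Rel A p.1 p.2 → x.1 = (p.1, φ₁ p 1)) ∧
      (¬ Rel A p.1 p.2 → x = xh) := by
    intro p
    by_cases h : Rel A p.1 p.2
    · exact ⟨⟨(p.1, φ₁ p (zn n).b), mark_fix (hp p h).1⟩, fun _ => rfl, fun h' => absurd h h'⟩
    · exact ⟨xh, fun h' => absurd h' h, fun _ => rfl⟩
  choose x hxp hxn using hx
  have hy : ∀ p : RMap n × RMap n, ∃ y : MPt n, (Rel A p.1 p.2 → y.1 = (p.2, φ₂ p A.b)) := by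
    intro p
    by_cases h : Rel A p.1 p.2
    · exact ⟨⟨(p.2, φ₂ p A.b), mark_fix (hp p h).2.1⟩, fun _ => rfl⟩
    · exact ⟨xh, fun h' => absurd h' h⟩
  choose y hyp' using hy
  have hxt : Tendsto x (u : Filter (RMap n × RMap n)) (𝓝 xh) := by
    rw [tend_MPt, hxh]
    refine (hlim1.prodMk_nhds hstr).congr' ?_
    filter_upwards [hS] with p h
    exact (hxp p h).symm
  have hyt : Tendsto y (u : Filter (RMap n × RMap n)) (𝓝 yh) := by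
    rw [tend_MPt]
    refine (hlim2.prodMk_nhds hlim3).congr' ?_
    filter_upwards [hS] with p h
    exact (hyp' p h).symm
  have hmx : ∀ p, Rel A p.1 p.2 → IsMark (zn n) (B p) (x p) := by
    intro p h
    refine ⟨φ₁ p, ψ₁ p, k₁ p, ?_, ?_⟩
    · rw [hxp p h]
      exact (hp p h).1
    · rw [hxp p h]
      rfl
  have hmy : ∀ p, Rel A p.1 p.2 → IsMark A (B p) (y p) := by
    intro p h
    refine ⟨φ₂ p, ψ₂ p, k₂ p, ?_, ?_⟩
    · rw [hyp' p h]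
      exact (hp p h).2.1
    · rw [hyp' p h]
  have hxB : ∀ p, Rel A p.1 p.2 → cls (x p) ∈ BM (zn n) := fun p h => ⟨B p, x p, hmx p h, rfl⟩
  have hcx : Tendsto (fun p => cls (x p)) (u : Filter (RMap n × RMap n)) (𝓝 (cls xh)) :=
    (cls_cont.tendsto xh).comp hxt
  have hmem1 : cls xh ∈ closure (BM (zn n)) := mem_closure_of_tendsto hcx (hS.mono hxB)
  have hmem2 : cls xh ∈ PP n := ⟨xh, by rw [hxh]; simp only; rw [hF.Q, natDegree_one], rfl⟩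
  have hcp : ∀ p, cls (x p) ∈ closure (BM (zn n)) ∧ cls (x p) ∈ PP n := by
    intro p
    by_cases h : Rel A p.1 p.2
    · refine ⟨subset_closure (hxB p h), x p, ?_, rfl⟩
      obtain ⟨h01, -, -, h02⟩ := h10 n (by omega) (zn n) p.1 (φ₁ p) (hp p h).1.ext
      rw [hxp p h]
      simp only
      rw [h01, h02, natDegree_one]
    · rw [hxn p h]
      exact ⟨hmem1, hmem2⟩
  have hct : Tendsto (fun p => (⟨cls (x p), hcp p⟩ :
      {c : MM n // c ∈ closure (BM (zn n)) ∧ c ∈ PP n})) (u : Filter (RMap n × RMap n))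
      (𝓝 ⟨cls xh, hmem1, hmem2⟩) := tendsto_subtype_rng.2 hcx
  have hcy : Tendsto (fun p => cls (y p)) (u : Filter (RMap n × RMap n))
      (𝓝 (Fb ⟨cls xh, hmem1, hmem2⟩)) := by
    refine ((hFb.tendsto _).comp hct).congr' ?_
    filter_upwards [hS] with p h
    exact hFb2 (B p) (x p) (y p) (hmx p h) (hmy p h) _ rfl
  have hGd : Gd yh.1.1 := h3 n g c₀ c φ A k T f Φ' K0 hG hP hT hLnk
  exact ⟨K0, Φ', hLnk, ⟨hmem1, hmem2⟩, yh, rfl, h2 n yh _ _ u y hn hGd hyt hcy⟩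

end COUaux

open COUaux in
theorem t_COU (h1 : S_EQU) (h2 : S_HAU) (h3 : S_GDF) (h4 : S_STR) (h5 : S_AFF) (h6 : S_LNK)
    (h7 : MB.S_REL) (h8 : MB.S_LIM) (h9 : MB.S_EXTU) (h10 : MB.S_QFORM) (h11 : MB.S_BL) : S_COU := by
  rintro n g c₀ c φ F A hG hP hF ⟨Fb, hFb, hFb2⟩ f f' hf hf'
  have hn : 2 ≤ n := by
    have := hG.n3
    omega
  obtain ⟨-, -, -, -, -, k, C, T, -, -, hT, hlk⟩ := h7 n hn A
  have hlk' : ∀ g f, Rel A g f → ∃ (H : ℂ ≃ₜ ℂ) (φ φ' : ℂ → ℂ), Link A T C g f H φ φ' := by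
    intro g f h
    obtain ⟨H, φ, φ', hL, -⟩ := hlk g f h
    exact ⟨H, φ, φ', hL⟩
  have haa : aa n g ≠ 0 := by
    rw [aa]
    exact Complex.ofReal_ne_zero.2 (Real.rpow_pos_of_pos hG.lead _).ne'
  have hxf : (F (aa n g)).Q.eval (aa n g * (1 - bb n g)) ≠ 0 ∧
      (F (aa n g)).ev (aa n g * (1 - bb n g)) = aa n g * (1 - bb n g) := by
    rw [RMap.ev, hF.Q, eval_one, div_one, hF.ev _ _ haa, mul_div_cancel_left₀ _ haa,
      sub_add_cancel, plam, hG.fix, sub_self, mul_zero, add_zero]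
    exact ⟨one_ne_zero, rfl⟩
  obtain ⟨K, φ₁, hL, hmem, y, hy, hFy⟩ := partner h2 h3 h4 h6 h8 h9 h10 hG hP hF hFb hFb2 hT hlk'
    ⟨(F (aa n g), aa n g * (1 - bb n g)), hxf⟩ rfl hf
  obtain ⟨K', φ₁', hL', hmem', y', hy', hFy'⟩ := partner h2 h3 h4 h6 h8 h9 h10 hG hP hF hFb hFb2 hT
    hlk' ⟨(F (aa n g), aa n g * (1 - bb n g)), hxf⟩ rfl hf'
  have he : cls y = cls y' := hFy.symm.trans hFy'
  have hc : AffConj n y y' := ((h1 n).quot_mk_eq_iff y y').1 he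
  obtain ⟨a, b, ha, hab, hconj⟩ := hc
  rw [hy, hy'] at hab hconj
  obtain ⟨e1, e2, e3, e4, e5⟩ := ext_data h11 hn hP hT hL
  obtain ⟨e1', e2', e3', e4', e5'⟩ := ext_data h11 hn hP hT hL'
  refine (h5 n A f f' _ _ a b hn ha e1 e1' e2 e2' e3' e4 e4' hconj ?_).1
  rw [e5, e5']
  exact hab

end Pool.Agent.H212.ND
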