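import Pool.Agent.H212.ND.StmN

/-!
# Project ND, job CRT: a compact connected set in the basin of the perturbed map
-/

set_option autoImplicit false

open Filter Metric Set Topology Polynomial
open scoped ComplexConjugate

namespace Pool.Agent.H212.ND

open Pool.Agent.H212.MB

namespace CRTaux

theorem im_coeff_derivative {p : ℂ[X]} (h : ∀ i, (p.coeff i).im = 0) (i : ℕ) :
    (p.derivative.coeff i).im = 0 := by
  rw [coeff_derivative]
  have h1 : ((i : ℂ) + 1) = (((i : ℝ) + 1 : ℝ) : ℂ) := by push_cast; ring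
  rw [h1, Complex.im_mul_ofReal, h, zero_mul]

theorem im_eval_one {p : ℂ[X]} (h : ∀ i, (p.coeff i).im = 0) : (p.eval 1).im = 0 := by
  rw [eval_eq_sum_range, Complex.im_sum]
  exact Finset.sum_eq_zero fun i _ => by simp [h]

theorem al_real {n : ℕ} {g : ℂ[X]} {c₀ : ℝ} {c : ℂ} (hg : Good n g c₀ c) :
    ∃ a : ℝ, 0 < a ∧ al g = (a : ℂ) := by
  have h1 : (g.derivative.derivative.eval 1).im = 0 :=
    im_eval_one (im_coeff_derivative (im_coeff_derivative hg.real))
  refine ⟨(g.derivative.derivative.eval 1).re / 2, by linarith [hg.der2], ?_⟩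
  unfold al
  apply Complex.ext
  · rw [Complex.ofReal_re, Complex.div_ofNat_re]
  · rw [Complex.ofReal_im, Complex.div_ofNat_im, h1, zero_div]

/-- expansion at `1` -/
theorem expand {n : ℕ} {g : ℂ[X]} {c₀ : ℝ} {c : ℂ} (hg : Good n g c₀ c) :
    ∃ h : ℂ[X], h.eval 0 = al g ∧
      ∀ y, g.eval y = 1 + (y - 1) + (y - 1) ^ 2 * h.eval (y - 1) := by
  refine ⟨(taylor 1 g).divX.divX, ?_, fun y => ?_⟩
  · rw [← coeff_zero_eq_eval_zero, coeff_divX, coeff_divX, taylor_coeff]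
    have h1 := congrFun (factorial_smul_hasseDeriv (R := ℂ) (k := 2)) g
    have h2 : (2 : ℂ) * (hasseDeriv 2 g).eval 1 = g.derivative.derivative.eval 1 := by
      have h3 : g.derivative.derivative = (derivative (R := ℂ))^[2] g := rfl
      rw [h3, ← h1]
      simp [Nat.factorial, two_mul, two_smul]
    unfold al
    rw [← h2]
    simp
  · have h0 : (taylor 1 g).coeff 0 = 1 := by rw [taylor_coeff_zero]; exact hg.fix
    have h1 : (taylor 1 g).coeff 1 = 1 := by rw [taylor_coeff_one]; exact hg.der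
    have e1 := congrArg (eval (y - 1)) (divX_mul_X_add (taylor 1 g))
    have e2 := congrArg (eval (y - 1)) (divX_mul_X_add (taylor 1 g).divX)
    have e3 : g.eval y = (taylor 1 g).eval (y - 1) := by
      rw [taylor_eval]
      congr 1
      ring
    rw [coeff_divX, zero_add, h1] at e2
    rw [h0] at e1
    simp only [eval_add, eval_mul, eval_X, eval_C] at e1 e2
    rw [e3, ← e1, ← e2]
    ring

/-- one step near infinity -/
theorem step {n : ℕ} {g : ℂ[X]} {c₀ : ℝ} {c : ℂ} (hg : Good n g c₀ c) {a : ℝ} (ha : 0 < a)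
    (hal : al g = (a : ℂ)) : ∃ R : ℝ, 0 < R ∧ ∀ y : ℂ, y ≠ 1 → R ≤ ‖(1 - y)⁻¹‖ →
      ((1 - y)⁻¹).re + a / 2 ≤ ((1 - g.eval y)⁻¹).re := by
  obtain ⟨h, h0, hexp⟩ := expand hg
  have hcont : ContinuousAt (fun u : ℂ => h.eval (-u) / (1 - u * h.eval (-u))) 0 := by
    apply ContinuousAt.div
    · exact (h.continuous.comp continuous_neg).continuousAt
    · exact (continuous_const.sub (continuous_id.mul (h.continuous.comp continuous_neg))).continuousAt
    · simp
  have hval : h.eval (-(0 : ℂ)) / (1 - 0 * h.eval (-(0 : ℂ))) = (a : ℂ) := by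
    simp [h0, hal]
  have hcont2 : ContinuousAt (fun u : ℂ => 1 - u * h.eval (-u)) 0 :=
    (continuous_const.sub (continuous_id.mul (h.continuous.comp continuous_neg))).continuousAt
  have ev1 : ∀ᶠ u in 𝓝 (0 : ℂ), ‖h.eval (-u) / (1 - u * h.eval (-u)) - a‖ < a / 2 := by
    have := hcont.tendsto
    rw [hval] at this
    have h2 := Metric.tendsto_nhds.mp this (a / 2) (by linarith)
    simpa [dist_eq_norm] using h2
  have ev2 : ∀ᶠ u in 𝓝 (0 : ℂ), 1 - u * h.eval (-u) ≠ 0 :=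
    hcont2.eventually_ne (by simp)
  obtain ⟨δ, hδ, hball⟩ := Metric.eventually_nhds_iff.mp (ev1.and ev2)
  refine ⟨2 / δ, by positivity, fun y hy hR => ?_⟩
  have hu : 1 - y ≠ 0 := sub_ne_zero.mpr (Ne.symm hy)
  have hun : 0 < ‖1 - y‖ := norm_pos_iff.mpr hu
  have hsmall : dist (1 - y) 0 < δ := by
    rw [dist_zero_right]
    rw [norm_inv] at hR
    have h3 : 2 / δ * ‖1 - y‖ ≤ 1 := by
      have := mul_le_mul_of_nonneg_right hR hun.le
      rwa [inv_mul_cancel₀ hun.ne'] at this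
    rw [div_mul_eq_mul_div, div_le_one hδ] at h3
    linarith
  obtain ⟨hb1, hb2⟩ := hball hsmall
  have hneg : -(1 - y) = y - 1 := by ring
  rw [hneg] at hb1 hb2
  have hge : 1 - g.eval y = (1 - y) * (1 - (1 - y) * h.eval (y - 1)) := by
    rw [hexp y]
    ring
  have hdiff : (1 - g.eval y)⁻¹ - (1 - y)⁻¹ =
      h.eval (y - 1) / (1 - (1 - y) * h.eval (y - 1)) := by
    rw [hge]
    field_simp
    ring
  rw [← hdiff] at hb1
  have h5 : |((1 - g.eval y)⁻¹ - (1 - y)⁻¹ - (a : ℂ)).re| < a / 2 :=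
    lt_of_le_of_lt (Complex.abs_re_le_norm _) hb1
  rw [Complex.sub_re, Complex.sub_re, Complex.ofReal_re] at h5
  have := (abs_lt.mp h5).1
  linarith

/-- iterates on compact subsets of the basin -/
theorem enter (h3 : S_BASN) {n : ℕ} {g : ℂ[X]} {c₀ : ℝ} {c : ℂ} (hg : Good n g c₀ c)
    {K : Set ℂ} (hK : IsCompact K) (hKB : K ⊆ Bas g c₀) (R₀ : ℝ) :
    ∃ m : ℕ, ∀ z ∈ K, (fun z : ℂ => g.eval z)^[m] z ≠ 1 ∧
      R₀ < ((1 - (fun z : ℂ => g.eval z)^[m] z)⁻¹).re := by
  obtain ⟨hop, -, hinv, -, -, h1B, -, -, htend⟩ := h3 n g c₀ c hg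
  obtain ⟨a, ha, hal⟩ := al_real hg
  obtain ⟨R₁, hR₁, hstep⟩ := step hg ha hal
  set R := max R₀ R₁ with hR
  have hRR₁ : R₁ ≤ R := le_max_right _ _
  have hmem : ∀ (m : ℕ) (z : ℂ), z ∈ Bas g c₀ → (fun z : ℂ => g.eval z)^[m] z ∈ Bas g c₀ := by
    intro m
    induction m with
    | zero => intro z hz; simpa using hz
    | succ m ih =>
      intro z hz
      rw [Function.iterate_succ_apply']
      exact (hinv _).mpr (ih z hz)
  have hne : ∀ (m : ℕ) (z : ℂ), z ∈ Bas g c₀ → (fun z : ℂ => g.eval z)^[m] z ≠ 1 := by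
    intro m z hz h1
    have := hmem m z hz
    rw [h1] at this
    exact h1B this
  have hcit : ∀ m : ℕ, Continuous ((fun z : ℂ => g.eval z)^[m]) := fun m =>
    g.continuous.iterate m
  set U : ℕ → Set ℂ := fun m => Bas g c₀ ∩
    {z | R < ((1 - (fun z : ℂ => g.eval z)^[m] z)⁻¹).re} with hU
  have hUo : ∀ m, IsOpen (U m) := by
    intro m
    have hc : ContinuousOn (fun z : ℂ => ((1 - (fun z : ℂ => g.eval z)^[m] z)⁻¹).re)
        (Bas g c₀) := by
      apply Complex.continuous_re.comp_continuousOn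
      apply ContinuousOn.inv₀
      · exact (continuous_const.sub (hcit m)).continuousOn
      · intro z hz
        exact sub_ne_zero.mpr (Ne.symm (hne m z hz))
    exact hc.isOpen_inter_preimage hop isOpen_Ioi
  have hmono1 : ∀ m z, z ∈ U m → z ∈ U (m + 1) := by
    intro m z hz
    refine ⟨hz.1, ?_⟩
    have h4 : R < ((1 - (fun z : ℂ => g.eval z)^[m] z)⁻¹).re := hz.2
    have h5 : R₁ ≤ ‖(1 - (fun z : ℂ => g.eval z)^[m] z)⁻¹‖ :=
      (hRR₁.trans h4.le).trans (Complex.re_le_norm _)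
    have h6 := hstep _ (hne m z hz.1) h5
    have h7 : (fun z : ℂ => g.eval z)^[m + 1] z = g.eval ((fun z : ℂ => g.eval z)^[m] z) := by
      rw [Function.iterate_succ_apply']
    show R < ((1 - (fun z : ℂ => g.eval z)^[m + 1] z)⁻¹).re
    rw [h7]
    linarith
  have hmono : Monotone U := monotone_nat_of_le_succ fun m z hz => hmono1 m z hz
  have hcov : K ⊆ ⋃ m, U m := by
    intro z hz
    have hzB := hKB hz
    have ht := htend z hzB
    have hti : Tendsto (fun m => ‖(1 - (fun z : ℂ => g.eval z)^[m] z)⁻¹‖) atTop atTop := by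
      have h4 : Tendsto (fun m => 1 - (fun z : ℂ => g.eval z)^[m] z) atTop (𝓝[≠] 0) := by
        rw [tendsto_nhdsWithin_iff]
        refine ⟨?_, Eventually.of_forall fun m => sub_ne_zero.mpr (Ne.symm (hne m z hzB))⟩
        have h5 := (tendsto_const_nhds (x := (1 : ℂ))).sub ht
        simpa using h5
      exact tendsto_norm_inv_nhdsNE_zero_atTop.comp h4
    obtain ⟨m₁, hm₁⟩ := (hti.eventually_ge_atTop R₁).exists_forall_of_atTop
    have hgrow : ∀ k : ℕ, ((1 - (fun z : ℂ => g.eval z)^[m₁] z)⁻¹).re + k * (a / 2) ≤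
        ((1 - (fun z : ℂ => g.eval z)^[m₁ + k] z)⁻¹).re := by
      intro k
      induction k with
      | zero => simp
      | succ k ih =>
        have h6 := hstep _ (hne (m₁ + k) z hzB) (hm₁ (m₁ + k) (by omega))
        have h7 : (fun z : ℂ => g.eval z)^[m₁ + (k + 1)] z =
            g.eval ((fun z : ℂ => g.eval z)^[m₁ + k] z) := by
          rw [← Nat.add_assoc, Function.iterate_succ_apply']
        rw [h7]
        push_cast
        linarith
    obtain ⟨k, hk⟩ := exists_nat_gt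
      ((R - ((1 - (fun z : ℂ => g.eval z)^[m₁] z)⁻¹).re) / (a / 2))
    rw [div_lt_iff₀ (by positivity)] at hk
    refine mem_iUnion.mpr ⟨m₁ + k, hzB, ?_⟩
    show R < ((1 - (fun z : ℂ => g.eval z)^[m₁ + k] z)⁻¹).re
    have := hgrow k
    linarith
  obtain ⟨m, hm⟩ := hK.elim_directed_cover U hUo hcov (directed_of_isDirected_le hmono)
  refine ⟨m, fun z hz => ⟨hne m z (hKB hz), ?_⟩⟩
  have h4 : R < ((1 - (fun z : ℂ => g.eval z)^[m] z)⁻¹).re := (hm hz).2
  exact lt_of_le_of_lt (le_max_left _ _) h4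

/-- the coordinate `Z` of a bounded point `al τ` -/
theorem zlem (T : ℝ) (hT : 0 ≤ T) : ∃ δ : ℝ, 0 < δ ∧ δ ≤ 1 ∧ ∀ l : ℂ, l ≠ 0 → ‖l‖ < δ → ∀ τ : ℂ,
    ‖τ‖ ≤ T → 1 + τ * (1 - Complex.exp l) ≠ 0 ∧
      ‖-l⁻¹ * Complex.log (1 + τ * (1 - Complex.exp l)) - τ‖ ≤ 1 := by
  have hden : 0 < 4 * T ^ 2 + 4 * T + 1 := by positivity
  refine ⟨1 / (4 * T ^ 2 + 4 * T + 1), by positivity, ?_, fun l hl0 hl τ hτ => ?_⟩
  · rw [div_le_one hden]
    nlinarith [sq_nonneg T]
  have hln : 0 < ‖l‖ := norm_pos_iff.mpr hl0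
  have hl' : ‖l‖ * (4 * T ^ 2 + 4 * T + 1) < 1 := by
    rwa [lt_div_iff₀ hden] at hl
  have hl1 : ‖l‖ ≤ 1 := by nlinarith [mul_nonneg hln.le (by positivity : 0 ≤ 4 * T ^ 2 + 4 * T)]
  have hD : ‖1 - Complex.exp l‖ ≤ 2 * ‖l‖ := by
    rw [norm_sub_rev]
    exact Complex.norm_exp_sub_one_le hl1
  have hD2 : ‖1 - Complex.exp l + l‖ ≤ ‖l‖ ^ 2 := by
    have h1 := Complex.norm_exp_sub_one_sub_id_le hl1
    rw [← norm_neg] at h1
    have h2 : -(Complex.exp l - 1 - l) = 1 - Complex.exp l + l := by ring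
    rwa [h2] at h1
  set x := τ * (1 - Complex.exp l) with hx
  have hxn : ‖x‖ ≤ 2 * T * ‖l‖ := by
    rw [hx, norm_mul]
    have := mul_le_mul hτ hD (norm_nonneg _) hT
    linarith
  have hx2 : ‖x‖ ≤ 1 / 2 := by
    refine hxn.trans ?_
    nlinarith [mul_nonneg hln.le (sq_nonneg T), mul_nonneg hln.le hT]
  have hlog : ‖Complex.log (1 + x) - x‖ ≤ ‖x‖ ^ 2 := by
    have h1 := Complex.norm_log_one_add_sub_self_le (by linarith : ‖x‖ < 1)
    refine h1.trans ?_
    have h2 : (1 - ‖x‖)⁻¹ ≤ 2 := by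
      rw [inv_le_comm₀ (by linarith) (by norm_num)]
      linarith
    have h3 := mul_le_mul_of_nonneg_left h2 (sq_nonneg ‖x‖)
    linarith
  have hx1 : 1 + x ≠ 0 := by
    intro h0
    have h1 : x = -1 := by linear_combination h0
    rw [h1, norm_neg, norm_one] at hx2
    norm_num at hx2
  refine ⟨hx1, ?_⟩
  have h1 : -l⁻¹ * Complex.log (1 + x) - τ = -l⁻¹ * ((Complex.log (1 + x) - x) +
      τ * (1 - Complex.exp l + l)) := by
    rw [hx]
    field_simp
    ring
  rw [h1, norm_mul, norm_neg, norm_inv, ← div_eq_inv_mul, div_le_one hln]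
  have h2 : ‖τ * (1 - Complex.exp l + l)‖ ≤ T * ‖l‖ ^ 2 := by
    rw [norm_mul]
    exact mul_le_mul hτ hD2 (norm_nonneg _) hT
  have h3 : ‖x‖ ^ 2 ≤ (2 * T * ‖l‖) ^ 2 := pow_le_pow_left₀ (norm_nonneg _) hxn 2
  have h4 := norm_add_le (Complex.log (1 + x) - x) (τ * (1 - Complex.exp l + l))
  have h5 : (2 * T * ‖l‖) ^ 2 + T * ‖l‖ ^ 2 ≤ ‖l‖ := by
    have h6 : ‖l‖ * (‖l‖ * (4 * T ^ 2 + 4 * T + 1)) ≤ ‖l‖ * 1 :=
      mul_le_mul_of_nonneg_left hl'.le hln.le
    have h7 : 0 ≤ ‖l‖ ^ 2 * (3 * T + 1) := by positivity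
    nlinarith
  linarith

/-- the point with the coordinate `Z` -/
theorem vv_val {g : ℂ[X]} {P τ : ℂ} (hP : 2 * Real.pi * Complex.I / P ≠ 0)
    (he : Complex.exp (2 * Real.pi * Complex.I / P) ≠ 1)
    (hw : 1 + τ * (1 - Complex.exp (2 * Real.pi * Complex.I / P)) ≠ 0) :
    VV g P (-(2 * Real.pi * Complex.I / P)⁻¹ *
      Complex.log (1 + τ * (1 - Complex.exp (2 * Real.pi * Complex.I / P)))) = al g * τ := by
  unfold VV
  generalize 2 * Real.pi * Complex.I / P = l at *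
  have h1 : -l * (-l⁻¹ * Complex.log (1 + τ * (1 - Complex.exp l))) =
      Complex.log (1 + τ * (1 - Complex.exp l)) := by
    field_simp
  rw [h1, Complex.exp_log hw]
  have h2 : Complex.exp l - 1 ≠ 0 := sub_ne_zero.mpr he
  field_simp
  ring

theorem norm_le_of_re_im {z w : ℂ} (h1 : 0 ≤ z.re) (h2 : z.re ≤ w.re) (h3 : |z.im| ≤ |w.im|) :
    ‖z‖ ≤ ‖w‖ := by
  rw [← sq_le_sq₀ (norm_nonneg _) (norm_nonneg _), Complex.sq_norm, Complex.sq_norm,
    Complex.normSq_apply, Complex.normSq_apply]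
  have h4 : z.im * z.im ≤ w.im * w.im := by
    rw [← abs_mul_abs_self z.im, ← abs_mul_abs_self w.im]
    exact mul_le_mul h3 h3 (abs_nonneg _) (abs_nonneg _)
  nlinarith

/-- monotonicity along the ray `1 + τ D` -/
theorem ray {D : ℂ} (hx : 0 ≤ D.re) (hy : 0 ≤ D.im) {s t : ℝ} (hs : 0 ≤ s) (hst : s ≤ t) :
    Real.log ‖1 + s * D‖ ≤ Real.log ‖1 + t * D‖ ∧ (1 + s * D).arg ≤ (1 + t * D).arg := by
  have hsre : (1 + (s : ℂ) * D).re = 1 + s * D.re := by simp
  have hsim : (1 + (s : ℂ) * D).im = s * D.im := by simp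
  have htre : (1 + (t : ℂ) * D).re = 1 + t * D.re := by simp
  have htim : (1 + (t : ℂ) * D).im = t * D.im := by simp
  have ht : 0 ≤ t := hs.trans hst
  have h1 : s * D.re ≤ t * D.re := mul_le_mul_of_nonneg_right hst hx
  have h2 : s * D.im ≤ t * D.im := mul_le_mul_of_nonneg_right hst hy
  have h3 : 0 ≤ s * D.re := mul_nonneg hs hx
  have h4 : 0 ≤ s * D.im := mul_nonneg hs hy
  have hspos : 0 < ‖1 + (s : ℂ) * D‖ := by
    have := Complex.re_le_norm (1 + (s : ℂ) * D)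
    rw [hsre] at this
    linarith
  have htpos : 0 < ‖1 + (t : ℂ) * D‖ := by
    have := Complex.re_le_norm (1 + (t : ℂ) * D)
    rw [htre] at this
    linarith
  refine ⟨Real.log_le_log hspos ?_, ?_⟩
  · refine norm_le_of_re_im (by rw [hsre]; linarith) (by rw [hsre, htre]; linarith) ?_
    rw [hsim, htim, abs_of_nonneg h4, abs_of_nonneg (h4.trans h2)]
    exact h2
  · rw [Complex.arg_of_re_nonneg (by rw [hsre]; linarith),
      Complex.arg_of_re_nonneg (by rw [htre]; linarith), hsim, htim]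
    apply Real.arcsin_le_arcsin
    rw [div_le_div_iff₀ hspos htpos]
    have h5 : ‖(s : ℂ) * (1 + t * D)‖ ≤ ‖(t : ℂ) * (1 + s * D)‖ := by
      refine norm_le_of_re_im ?_ ?_ ?_
      · rw [Complex.re_ofReal_mul, htre]
        exact mul_nonneg hs (by linarith [h3.trans h1])
      · rw [Complex.re_ofReal_mul, Complex.re_ofReal_mul, htre, hsre]
        nlinarith
      · rw [Complex.im_ofReal_mul, Complex.im_ofReal_mul, htim, hsim]
        apply le_of_eq
        congr 1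
        ring
    rw [norm_mul, norm_mul, Complex.norm_real, Complex.norm_real, Real.norm_of_nonneg hs,
      Real.norm_of_nonneg ht] at h5
    have h6 := mul_le_mul_of_nonneg_right h5 hy
    nlinarith

theorem re_Z (P L : ℂ) : (-(2 * Real.pi * Complex.I / P)⁻¹ * L).re =
    (-P.re * L.im + -P.im * L.re) / (2 * Real.pi) := by
  have hpi : (Real.pi : ℂ) ≠ 0 := by exact_mod_cast Real.pi_ne_zero
  have h1 : -(2 * Real.pi * Complex.I / P)⁻¹ * L = ((1 / (2 * Real.pi) : ℝ) : ℂ) * (Complex.I * (P * L)) := by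
    push_cast
    rw [inv_div]
    have hI : Complex.I ≠ 0 := Complex.I_ne_zero
    field_simp
    linear_combination (-(P * L)) * Complex.I_sq
  rw [h1, Complex.re_ofReal_mul, Complex.I_mul_re, Complex.mul_im]
  ring

theorem im_Z (P L : ℂ) : (-(2 * Real.pi * Complex.I / P)⁻¹ * L).im =
    (P.re * L.re - P.im * L.im) / (2 * Real.pi) := by
  have hpi : (Real.pi : ℂ) ≠ 0 := by exact_mod_cast Real.pi_ne_zero
  have h1 : -(2 * Real.pi * Complex.I / P)⁻¹ * L = ((1 / (2 * Real.pi) : ℝ) : ℂ) * (Complex.I * (P * L)) := by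
    push_cast
    rw [inv_div]
    have hI : Complex.I ≠ 0 := Complex.I_ne_zero
    field_simp
    linear_combination (-(P * L)) * Complex.I_sq
  rw [h1, Complex.im_ofReal_mul, Complex.I_mul_im, Complex.mul_re]
  ring

theorem ell_re_im (P : ℂ) : (2 * Real.pi * Complex.I / P).re = 2 * Real.pi * P.im / Complex.normSq P ∧
    (2 * Real.pi * Complex.I / P).im = 2 * Real.pi * P.re / Complex.normSq P := by
  have h1 : 2 * Real.pi * Complex.I / P = ((2 * Real.pi : ℝ) : ℂ) * (Complex.I * P⁻¹) := by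
    push_cast
    rw [div_eq_mul_inv]
    ring
  rw [h1, Complex.re_ofReal_mul, Complex.im_ofReal_mul, Complex.I_mul_re, Complex.I_mul_im,
    Complex.inv_im, Complex.inv_re]
  constructor <;> ring

/-- the sign of `1 - exp l` -/
theorem dsign {P : ℂ} (h2 : 2 ≤ ‖P‖) (him : P.im < 0) (hre : P.re ≤ 0) :
    0 < (1 - Complex.exp (2 * Real.pi * Complex.I / P)).re ∧
      0 ≤ (1 - Complex.exp (2 * Real.pi * Complex.I / P)).im := by
  obtain ⟨e1, e2⟩ := ell_re_im P
  have hn : 0 < Complex.normSq P := by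
    rw [← Complex.sq_norm]
    positivity
  have hpi := Real.pi_pos
  have hl1 : (2 * Real.pi * Complex.I / P).re < 0 := by
    rw [e1]
    exact div_neg_of_neg_of_pos (by nlinarith) hn
  have hl2 : (2 * Real.pi * Complex.I / P).im ≤ 0 := by
    rw [e2]
    exact div_nonpos_of_nonpos_of_nonneg (by nlinarith) hn.le
  have hl3 : -Real.pi ≤ (2 * Real.pi * Complex.I / P).im := by
    rw [e2, le_div_iff₀ hn, ← Complex.sq_norm]
    have h3 : -‖P‖ ≤ P.re := (abs_le.mp (Complex.abs_re_le_norm P)).1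
    have h4 : ‖P‖ * 2 ≤ ‖P‖ ^ 2 := by nlinarith
    nlinarith
  constructor
  · rw [Complex.sub_re, Complex.one_re, Complex.exp_re]
    have h3 : Real.exp (2 * Real.pi * Complex.I / P).re < 1 := by
      rw [← Real.exp_zero]
      exact Real.exp_lt_exp.mpr hl1
    have h4 := Real.cos_le_one (2 * Real.pi * Complex.I / P).im
    have h5 := Real.exp_pos (2 * Real.pi * Complex.I / P).re
    nlinarith
  · rw [Complex.sub_im, Complex.one_im, Complex.exp_im]
    have h3 := Real.sin_nonpos_of_nonpos_of_neg_pi_le hl2 hl3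
    have h5 := Real.exp_pos (2 * Real.pi * Complex.I / P).re
    nlinarith

/-- the largest modulus of the critical points -/
theorem crit_bound {n : ℕ} {g : ℂ[X]} {c₀ : ℝ} {c : ℂ} (hg : Good n g c₀ c) :
    ∃ ρ : ℝ, 0 ≤ ρ ∧ ρ < 1 ∧ ∀ y : ℂ, g.derivative.eval y = 0 → ‖y‖ ≤ ρ := by
  have hd : g.derivative ≠ 0 := by
    intro h0
    have := hg.der
    rw [h0, eval_zero] at this
    exact zero_ne_one this
  have hmem : c ∈ g.derivative.roots.toFinset := by
    rw [Multiset.mem_toFinset, mem_roots hd]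
    exact hg.cc
  obtain ⟨y₀, hy₀, hmax⟩ := Finset.exists_max_image g.derivative.roots.toFinset (fun y => ‖y‖) ⟨c, hmem⟩
  refine ⟨‖y₀‖, norm_nonneg _, ?_, fun y hy => ?_⟩
  · rw [Multiset.mem_toFinset, mem_roots hd] at hy₀
    exact (hg.crit y₀ hy₀).1
  · apply hmax
    rw [Multiset.mem_toFinset, mem_roots hd]
    exact hy

theorem plam_cont (g : ℂ[X]) (m : ℕ) : Continuous (fun q : ℂ × ℂ => (plam g q.1)^[m] q.2) := by
  induction m with
  | zero => simpa using continuous_snd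
  | succ m ih =>
    have h1 : (fun q : ℂ × ℂ => (plam g q.1)^[m + 1] q.2) =
        fun q : ℂ × ℂ => 1 + q.1 * (g.eval ((plam g q.1)^[m] q.2) - 1) := by
      funext q
      rw [Function.iterate_succ_apply']
      rfl
    rw [h1]
    exact continuous_const.add (continuous_fst.mul ((g.continuous.comp ih).sub continuous_const))

theorem plam_one (g : ℂ[X]) : plam g 1 = fun z : ℂ => g.eval z := by
  funext z
  unfold plam
  ring

end CRTaux

open CRTaux in
theorem t_CRT (h1 : S_ORA) (_h2 : S_FCA) (h3 : S_BASN) : S_CRT := by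
  intro n g c₀ c hg
  obtain ⟨R₀, Y₀, S₁, hR₀, hY₀, hS₁, hora⟩ := h1 n g c₀ c hg
  obtain ⟨a, ha, hal⟩ := al_real hg
  obtain ⟨ρ, hρ0, hρ1, hρ⟩ := crit_bound hg
  have hac : (a : ℂ) ≠ 0 := by exact_mod_cast ha.ne'
  have hv₀ : 0 < a * (R₀ + 1) := by positivity
  set K₀ : Set ℂ := closedBall 0 ρ ∪ (fun t : ℝ => (t : ℂ)) '' Icc 0 (1 - 1 / (a * (R₀ + 1))) with hK₀
  have hK₀c : IsCompact K₀ :=
    (isCompact_closedBall _ _).union (isCompact_Icc.image Complex.continuous_ofReal)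
  have hBall := (h3 n g c₀ c hg).2.2.2.2.1
  have hK₀B : K₀ ⊆ Bas g c₀ := by
    rintro z (hz | ⟨t, ht, rfl⟩)
    · have hz' : ‖z‖ ≤ ρ := by simpa using hz
      refine hBall z (by linarith) ?_
      intro h0
      rw [h0, norm_one] at hz'
      linarith
    · have ht1 : t < 1 := by
        have h4 : 0 < 1 / (a * (R₀ + 1)) := by positivity
        linarith [ht.2]
      refine hBall _ ?_ ?_
      · rw [Complex.norm_real, Real.norm_of_nonneg ht.1]
        exact ht1.le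
      · intro h0
        have h5 : (t : ℂ) = 1 := h0
        have h6 : t = 1 := by exact_mod_cast h5
        linarith
  obtain ⟨m, hm⟩ := enter h3 hg hK₀c hK₀B (a * (R₀ + 3))
  have hcit : Continuous ((fun z : ℂ => g.eval z)^[m]) := g.continuous.iterate m
  have hcon : ContinuousOn (fun z : ℂ => (1 - (fun z : ℂ => g.eval z)^[m] z)⁻¹) K₀ := by
    apply ContinuousOn.inv₀
    · exact (continuous_const.sub hcit).continuousOn
    · intro z hz
      exact sub_ne_zero.mpr (Ne.symm (hm z hz).1)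
  obtain ⟨B₀, hB₀⟩ := hK₀c.exists_bound_of_continuousOn hcon
  set T : ℝ := (|B₀| + 1) / a + R₀ + 1 with hT
  have hT0 : 0 ≤ T := by positivity
  have hTa : |B₀| + 1 ≤ a * T := by
    rw [hT]
    have : a * ((|B₀| + 1) / a + R₀ + 1) = (|B₀| + 1) + a * (R₀ + 1) := by
      field_simp
      ring
    rw [this]
    linarith
  have hTR : R₀ + 1 ≤ T := by
    rw [hT]
    have : 0 ≤ (|B₀| + 1) / a := by positivity
    linarith
  have htube : ∀ᶠ lam in 𝓝 (1 : ℂ), ∀ z ∈ K₀, (plam g lam)^[m] z ≠ 1 ∧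
      a * (R₀ + 1) < ((1 - (plam g lam)^[m] z)⁻¹).re ∧
      ‖(1 - (plam g lam)^[m] z)⁻¹‖ < a * T := by
    apply hK₀c.eventually_forall_of_forall_eventually
    intro z hz
    have hc := plam_cont g m
    have hv : (plam g 1)^[m] z = (fun z : ℂ => g.eval z)^[m] z := by rw [plam_one]
    have hne : (plam g 1)^[m] z ≠ 1 := by
      rw [hv]
      exact (hm z hz).1
    have hci : ContinuousAt (fun q : ℂ × ℂ => (1 - (plam g q.1)^[m] q.2)⁻¹) (1, z) := by
      apply ContinuousAt.inv₀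
      · exact (continuous_const.sub hc).continuousAt
      · exact sub_ne_zero.mpr (Ne.symm hne)
    have ev1 : ∀ᶠ q : ℂ × ℂ in 𝓝 (1, z), (plam g q.1)^[m] q.2 ≠ 1 :=
      hc.continuousAt.eventually_ne hne
    have ev2 : ∀ᶠ q : ℂ × ℂ in 𝓝 (1, z), a * (R₀ + 1) < ((1 - (plam g q.1)^[m] q.2)⁻¹).re := by
      have hcr : ContinuousAt (fun q : ℂ × ℂ => ((1 - (plam g q.1)^[m] q.2)⁻¹).re) (1, z) :=
        Complex.continuous_re.continuousAt.comp hci
      apply hcr.eventually_const_lt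
      show a * (R₀ + 1) < ((1 - (plam g 1)^[m] z)⁻¹).re
      rw [hv]
      have := (hm z hz).2
      nlinarith
    have ev3 : ∀ᶠ q : ℂ × ℂ in 𝓝 (1, z), ‖(1 - (plam g q.1)^[m] q.2)⁻¹‖ < a * T := by
      apply hci.norm.eventually_lt_const
      show ‖(1 - (plam g 1)^[m] z)⁻¹‖ < a * T
      rw [hv]
      have h4 := hB₀ z hz
      have h5 := le_abs_self B₀
      linarith
    exact ev1.and (ev2.and ev3)
  obtain ⟨δ, hδ, hδ1, hz⟩ := zlem T hT0
  obtain ⟨δ', hδ', hexp⟩ : ∃ δ' : ℝ, 0 < δ' ∧ ∀ l : ℂ, ‖l‖ < δ' → ∀ z ∈ K₀,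
      (plam g (Complex.exp l))^[m] z ≠ 1 ∧
      a * (R₀ + 1) < ((1 - (plam g (Complex.exp l))^[m] z)⁻¹).re ∧
      ‖(1 - (plam g (Complex.exp l))^[m] z)⁻¹‖ < a * T := by
    have h4 : Tendsto Complex.exp (𝓝 0) (𝓝 1) := by
      have := Complex.continuous_exp.tendsto 0
      rwa [Complex.exp_zero] at this
    obtain ⟨δ', hδ', h5⟩ := Metric.eventually_nhds_iff.mp (h4.eventually htube)
    exact ⟨δ', hδ', fun l hl => h5 (by simpa using hl)⟩
  set δ₀ := min δ δ' with hδ₀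
  have hδ₀pos : 0 < δ₀ := lt_min hδ hδ'
  have hpi := Real.pi_pos
  refine ⟨S₁ + 2 * Y₀ + T + 2 + (2 * Real.pi / δ₀ + 1), by positivity, fun P him hre => ?_⟩
  have hq : 0 < 2 * Real.pi / δ₀ := by positivity
  have him0 : P.im < 0 := by linarith
  have hPn : -P.im ≤ ‖P‖ := (neg_le_abs P.im).trans (Complex.abs_im_le_norm P)
  have hP2 : 2 ≤ ‖P‖ := by linarith
  have hP0 : P ≠ 0 := by
    intro h0
    rw [h0, norm_zero] at hP2
    linarith
  have hPpos : 0 < ‖P‖ := by linarith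
  have hpic : (Real.pi : ℂ) ≠ 0 := by exact_mod_cast hpi.ne'
  have hl0 : 2 * Real.pi * Complex.I / P ≠ 0 := by
    exact div_ne_zero (mul_ne_zero (mul_ne_zero two_ne_zero hpic) Complex.I_ne_zero) hP0
  have hln : ‖2 * Real.pi * Complex.I / P‖ < δ₀ := by
    rw [norm_div, norm_mul, norm_mul, Complex.norm_I, mul_one, Complex.norm_real,
      Real.norm_of_nonneg hpi.le, Complex.norm_ofNat, div_lt_iff₀ hPpos]
    have h4 : 2 * Real.pi / δ₀ < ‖P‖ := by linarith
    rw [div_lt_iff₀ hδ₀pos] at h4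
    linarith [mul_comm ‖P‖ δ₀]
  obtain ⟨hDre, hDim⟩ := dsign hP2 him0 hre
  have hexp1 : Complex.exp (2 * Real.pi * Complex.I / P) ≠ 1 := by
    intro h0
    rw [h0, sub_self, Complex.zero_re] at hDre
    exact lt_irrefl _ hDre
  have hS₁' : P.im ≤ -S₁ := by linarith
  -- points of `K₀`
  have hK₀t : ∀ z ∈ K₀, Tendsto (fun j => (pl g P)^[j] z) atTop (𝓝 1) := by
    intro z hzK
    obtain ⟨hy1, hy2, hy3⟩ := hexp _ (hln.trans_le (min_le_right _ _)) z hzK
    have hpl : plam g (Complex.exp (2 * Real.pi * Complex.I / P)) = pl g P := rfl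
    rw [hpl] at hy1 hy2 hy3
    set y := (pl g P)^[m] z with hy
    have hτ : ‖(1 - y)⁻¹ / a‖ ≤ T := by
      rw [norm_div, Complex.norm_real, Real.norm_of_nonneg ha.le, div_le_iff₀ ha]
      linarith
    obtain ⟨hw, hZ⟩ := hz _ hl0 (hln.trans_le (min_le_left _ _)) _ hτ
    have hval := vv_val (g := g) hl0 hexp1 hw
    set Z := -(2 * Real.pi * Complex.I / P)⁻¹ * Complex.log (1 + (1 - y)⁻¹ / a *
      (1 - Complex.exp (2 * Real.pi * Complex.I / P))) with hZdef
    have hZre : R₀ ≤ Z.re := by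
      have h4 := (abs_le.mp ((Complex.abs_re_le_norm _).trans hZ)).1
      rw [Complex.sub_re, Complex.div_ofReal_re] at h4
      have h5 : R₀ + 1 < ((1 - y)⁻¹).re / a := by
        rw [lt_div_iff₀ ha]
        linarith
      linarith
    have hZim : Z.im ≤ -P.im - Y₀ := by
      have h4 : ‖Z‖ ≤ T + 1 := by
        have h5 : Z = (Z - (1 - y)⁻¹ / a) + (1 - y)⁻¹ / a := by ring
        rw [h5]
        exact (norm_add_le _ _).trans (by linarith)
      have h5 := (Complex.im_le_norm Z).trans h4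
      linarith
    obtain ⟨-, ht⟩ := hora P hS₁' hre Z hZre hZim
    have hyy : 1 - (VV g P Z)⁻¹ = y := by
      rw [hval, hal]
      have h4 : (1 - y) ≠ 0 := sub_ne_zero.mpr (Ne.symm hy1)
      field_simp
      ring
    rw [hyy] at ht
    rw [← tendsto_add_atTop_iff_nat m]
    refine ht.congr fun j => ?_
    rw [hy, ← Function.iterate_add_apply]
  -- real points near `1`
  refine ⟨closedBall 0 ρ ∪ (fun t : ℝ => (t : ℂ)) '' Icc 0 1,
    (isCompact_closedBall _ _).union (isCompact_Icc.image Complex.continuous_ofReal), ?_, ?_, ?_, ?_⟩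
  · refine IsPreconnected.union 0 (mem_closedBall_self hρ0) ⟨0, ⟨le_refl _, zero_le_one⟩, by simp⟩
      (convex_closedBall _ _).isPreconnected
      (isPreconnected_Icc.image _ Complex.continuous_ofReal.continuousOn)
  · exact Or.inr ⟨1, ⟨zero_le_one, le_refl _⟩, by simp⟩
  · intro z hz0
    refine Or.inl ?_
    rw [mem_closedBall, dist_zero_right]
    exact hρ z hz0
  rintro z (hzb | ⟨t, ⟨ht0, ht1⟩, rfl⟩)
  · exact hK₀t z (Or.inl hzb)
  show Tendsto (fun j => (pl g P)^[j] (t : ℂ)) atTop (𝓝 1)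
  rcases ht1.eq_or_lt with ht | ht
  · have hfix : pl g P 1 = 1 := by
      unfold pl
      rw [hg.fix]
      ring
    rw [ht, Complex.ofReal_one]
    have h4 : ∀ j : ℕ, (pl g P)^[j] 1 = 1 := fun j => Function.iterate_fixed hfix j
    simp only [h4]
    exact tendsto_const_nhds
  by_cases hcase : t ≤ 1 - 1 / (a * (R₀ + 1))
  · exact hK₀t _ (Or.inr ⟨t, ⟨ht0, hcase⟩, rfl⟩)
  rw [not_le] at hcase
  have h1t : 0 < 1 - t := by linarith
  set τ : ℝ := (1 - t)⁻¹ / a with hτdef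
  have hτ1 : R₀ + 1 ≤ τ := by
    rw [hτdef, le_div_iff₀ ha, le_inv_comm₀ (by positivity) h1t]
    rw [one_div] at hcase
    have h4 : (a * (R₀ + 1))⁻¹ = ((R₀ + 1) * a)⁻¹ := by rw [mul_comm]
    linarith
  have hτ0 : 0 ≤ τ := by linarith
  set D : ℂ := 1 - Complex.exp (2 * Real.pi * Complex.I / P) with hD
  have hw1 : 1 ≤ (1 + (τ : ℂ) * D).re := by
    have h4 : (1 + (τ : ℂ) * D).re = 1 + τ * D.re := by simp
    rw [h4]
    have := mul_nonneg hτ0 hDre.le
    linarith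
  have hw0 : 1 + (τ : ℂ) * D ≠ 0 := by
    intro h0
    rw [h0, Complex.zero_re] at hw1
    linarith
  have hval := vv_val (g := g) hl0 hexp1 hw0
  rw [← hD] at hval
  set Z := -(2 * Real.pi * Complex.I / P)⁻¹ * Complex.log (1 + (τ : ℂ) * D) with hZdef
  obtain ⟨hmA, hmB⟩ := ray hDre.le hDim (by linarith : 0 ≤ R₀ + 1) hτ1
  have hτ₀n : ‖(((R₀ + 1 : ℝ)) : ℂ)‖ ≤ T := by
    rw [Complex.norm_real, Real.norm_of_nonneg (by linarith)]
    exact hTR
  obtain ⟨-, hZ₀⟩ := hz _ hl0 (hln.trans_le (min_le_left _ _)) _ hτ₀n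
  rw [← hD] at hZ₀
  have hZre : R₀ ≤ Z.re := by
    have h4 := (abs_le.mp ((Complex.abs_re_le_norm _).trans hZ₀)).1
    rw [Complex.sub_re, Complex.ofReal_re, re_Z, Complex.log_im, Complex.log_re] at h4
    have h5 : (-P.re * (1 + (((R₀ + 1 : ℝ)) : ℂ) * D).arg + -P.im * Real.log ‖1 + (((R₀ + 1 : ℝ)) : ℂ) * D‖) /
        (2 * Real.pi) ≤ Z.re := by
      rw [hZdef, re_Z, Complex.log_im, Complex.log_re]
      apply div_le_div_of_nonneg_right _ (by positivity)
      exact add_le_add (mul_le_mul_of_nonneg_left hmB (by linarith))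
        (mul_le_mul_of_nonneg_left hmA (by linarith))
    linarith
  have hZim : Z.im ≤ -P.im - Y₀ := by
    rw [hZdef, im_Z, Complex.log_im, Complex.log_re, div_le_iff₀ (by positivity)]
    have h4 : 0 ≤ Real.log ‖1 + (τ : ℂ) * D‖ :=
      Real.log_nonneg (hw1.trans (Complex.re_le_norm _))
    have h5 : (1 + (τ : ℂ) * D).arg ≤ Real.pi / 2 :=
      (abs_le.mp (Complex.abs_arg_le_pi_div_two_iff.mpr (by linarith))).2
    have h6 : P.re * Real.log ‖1 + (τ : ℂ) * D‖ ≤ 0 := mul_nonpos_of_nonpos_of_nonneg hre h4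
    have h7 : -P.im * (1 + (τ : ℂ) * D).arg ≤ -P.im * (Real.pi / 2) :=
      mul_le_mul_of_nonneg_left h5 (by linarith)
    have h8 : -P.im * (Real.pi / 2) ≤ (-P.im - Y₀) * (2 * Real.pi) := by nlinarith
    linarith
  obtain ⟨-, hten⟩ := hora P hS₁' hre Z hZre hZim
  have hyy : 1 - (VV g P Z)⁻¹ = (t : ℂ) := by
    rw [hval, hal, hτdef]
    have h4 : (1 - (t : ℂ)) ≠ 0 := by
      have : ((1 - t : ℝ) : ℂ) ≠ 0 := by exact_mod_cast h1t.ne'
      simpa using this
    push_cast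
    field_simp
    ring
  rw [hyy] at hten
  exact hten

end Pool.Agent.H212.ND
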