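import Pool.Agent.H212.ND.StmM

/-!
# Project ND (helper212), job CTY: continuity of the mating in `B` (helper331)
-/

set_option autoImplicit false

open Filter Metric Set Topology MeasureTheory Polynomial
open scoped ContDiff ComplexConjugate ENNReal

namespace Pool.Agent.H212.ND

open Pool.Agent.H212.MB

namespace CTYaux

/-- continuous convergence from locally uniform convergence -/
lemma cc_of_tlu {ι : Type} {p : Filter ι} {F : ι → ℂ → ℂ} {f : ℂ → ℂ}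
    (h : TendstoLocallyUniformly F f p) (hf : Continuous f) (x : ℂ) :
    Tendsto (fun y : ι × ℂ => F y.1 y.2) (p ×ˢ 𝓝 x) (𝓝 (f x)) := by
  have h1 := tendstoLocallyUniformly_iff_forall_tendsto.1 h x
  have h2 : Tendsto (fun y : ι × ℂ => f y.2) (p ×ˢ 𝓝 x) (𝓝 (f x)) :=
    (hf.tendsto x).comp tendsto_snd
  rw [Uniform.tendsto_nhds_right] at h2 ⊢
  exact h2.uniformity_trans h1

/-- locally uniform convergence from continuous convergence -/
lemma tlu_of_cc {ι : Type} {p : Filter ι} {F : ι → ℂ → ℂ} {f : ℂ → ℂ} {s : Set ℂ}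
    (h : ∀ x ∈ s, Tendsto (fun y : ι × ℂ => F y.1 y.2) (p ×ˢ 𝓝[s] x) (𝓝 (f x)))
    (hf : ContinuousOn f s) : TendstoLocallyUniformlyOn F f p s := by
  rw [tendstoLocallyUniformlyOn_iff_forall_tendsto]
  intro x hx
  have h1 := h x hx
  have h2 : Tendsto (fun y : ι × ℂ => f y.2) (p ×ˢ 𝓝[s] x) (𝓝 (f x)) :=
    (hf x hx).tendsto.comp tendsto_snd
  rw [Uniform.tendsto_nhds_right] at h1
  rw [Uniform.tendsto_nhds_left] at h2
  exact h2.uniformity_trans h1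

/-- limits of bounded functions along an ultrafilter -/
lemma exists_lim {ι : Type} (u : Ultrafilter ι) (g : ι → ℂ) {r : ℝ}
    (h : ∀ᶠ i in (u : Filter ι), ‖g i‖ ≤ r) : ∃ x, ‖x‖ ≤ r ∧ Tendsto g u (𝓝 x) := by
  have hK : IsCompact (closedBall (0 : ℂ) r) := isCompact_closedBall _ _
  have hwK : closedBall (0 : ℂ) r ∈ u.map g := by
    rw [Ultrafilter.mem_map]
    filter_upwards [h] with i hi
    exact mem_closedBall_zero_iff.2 hi
  obtain ⟨x, hx, hlim⟩ := hK.ultrafilter_le_nhds' (u.map g) hwK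
  exact ⟨x, mem_closedBall_zero_iff.1 hx, hlim⟩

lemma exists_lim_real {ι : Type} (u : Ultrafilter ι) (g : ι → ℝ) {r : ℝ}
    (h : ∀ᶠ i in (u : Filter ι), |g i| ≤ r) : ∃ x : ℝ, Tendsto g u (𝓝 x) := by
  have hK : IsCompact (closedBall (0 : ℝ) r) := isCompact_closedBall _ _
  have hwK : closedBall (0 : ℝ) r ∈ u.map g := by
    rw [Ultrafilter.mem_map]
    filter_upwards [h] with i hi
    exact mem_closedBall_zero_iff.2 hi
  obtain ⟨x, hx, hlim⟩ := hK.ultrafilter_le_nhds' (u.map g) hwK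
  exact ⟨x, hlim⟩

lemma den_ne {a z : ℂ} (ha : ‖a‖ < 1) (hz : ‖z‖ ≤ 1) : 1 - conj a * z ≠ 0 := by
  intro h
  have h1 : conj a * z = 1 := (sub_eq_zero.1 h).symm
  have h2 : ‖a‖ * ‖z‖ = 1 := by
    rw [← Complex.norm_conj a, ← norm_mul, h1, norm_one]
  have h3 : ‖a‖ * ‖z‖ ≤ ‖a‖ * 1 := mul_le_mul_of_nonneg_left hz (norm_nonneg _)
  linarith

/-- periodicity with integer multiples -/
lemma per_int {s : ℝ → ℝ} (h : ∀ x, s (x + 2 * Real.pi) = s x + 2 * Real.pi) (k : ℤ) (x : ℝ) :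
    s (x + k * (2 * Real.pi)) = s x + k * (2 * Real.pi) := by
  have h1 : Function.Periodic (fun x => s x - x) (2 * Real.pi) := by
    intro y
    show s (y + 2 * Real.pi) - (y + 2 * Real.pi) = s y - y
    rw [h]
    ring
  have h2 := h1.int_mul k x
  have h3 : s (x + k * (2 * Real.pi)) - (x + k * (2 * Real.pi)) = s x - x := h2
  linarith

/-- limits of lifts of circle homeomorphisms -/
lemma lift_limit {ι : Type} (u : Ultrafilter ι) (S : ι → ℂ ≃ₜ ℂ) (S' : ℂ ≃ₜ ℂ)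
    (hlim : ∀ z, Tendsto (fun i => S i z) u (𝓝 (S' z)))
    (hS' : ∀ z, ‖z‖ = 1 → ‖S'.symm z‖ = 1)
    (hl : ∀ᶠ i in (u : Filter ι), ∃ t : ℝ → ℝ, Continuous t ∧ StrictMono t ∧
      (∀ x, t (x + 2 * Real.pi) = t x + 2 * Real.pi) ∧
      ∀ x : ℝ, S i (Complex.exp (x * Complex.I)) = Complex.exp (t x * Complex.I)) :
    ∃ s : ℝ → ℝ, Continuous s ∧ StrictMono s ∧ (∀ x, s (x + 2 * Real.pi) = s x + 2 * Real.pi) ∧
      ∀ x : ℝ, S' (Complex.exp (x * Complex.I)) = Complex.exp (s x * Complex.I) := by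
  have hpi : 0 < 2 * Real.pi := by positivity
  -- normalised lifts
  have hl2 : ∀ᶠ i in (u : Filter ι), ∃ t : ℝ → ℝ, (0 ≤ t 0 ∧ t 0 ≤ 2 * Real.pi) ∧ Monotone t ∧
      (∀ x, t (x + 2 * Real.pi) = t x + 2 * Real.pi) ∧
      ∀ x : ℝ, S i (Complex.exp (x * Complex.I)) = Complex.exp (t x * Complex.I) := by
    filter_upwards [hl] with i hi
    obtain ⟨t, -, ht2, ht3, ht4⟩ := hi
    let m : ℤ := ⌊t 0 / (2 * Real.pi)⌋
    refine ⟨fun x => t x - m * (2 * Real.pi), ⟨?_, ?_⟩, ?_, ?_, ?_⟩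
    · have h1 : (m : ℝ) ≤ t 0 / (2 * Real.pi) := Int.floor_le _
      rw [le_div_iff₀ hpi] at h1
      show 0 ≤ t 0 - m * (2 * Real.pi)
      linarith
    · have h1 : t 0 / (2 * Real.pi) < (m : ℝ) + 1 := Int.lt_floor_add_one _
      rw [div_lt_iff₀ hpi] at h1
      show t 0 - m * (2 * Real.pi) ≤ 2 * Real.pi
      linarith
    · intro x y hxy
      show t x - m * (2 * Real.pi) ≤ t y - m * (2 * Real.pi)
      have := ht2.monotone hxy
      linarith
    · intro x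
      show t (x + 2 * Real.pi) - m * (2 * Real.pi) = t x - m * (2 * Real.pi) + 2 * Real.pi
      rw [ht3]
      ring
    · intro x
      rw [ht4, Complex.exp_eq_exp_iff_exists_int]
      refine ⟨m, ?_⟩
      push_cast
      ring
  obtain ⟨t, ht⟩ := hl2.choice
  -- pointwise limits
  have hbd : ∀ x : ℝ, ∃ y : ℝ, Tendsto (fun i => t i x) u (𝓝 y) := by
    intro x
    obtain ⟨N, hN⟩ := exists_nat_ge (|x| / (2 * Real.pi))
    rw [div_le_iff₀ hpi] at hN
    apply exists_lim_real u (fun i => t i x) (r := 2 * Real.pi + N * (2 * Real.pi))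
    filter_upwards [ht] with i hi
    obtain ⟨⟨h1, h2⟩, h3, h4, -⟩ := hi
    have h5 := per_int h4 N 0
    have h6 := per_int h4 (-N) 0
    rw [zero_add] at h5 h6
    push_cast at h5 h6
    have h7 : t i x ≤ t i (N * (2 * Real.pi)) := h3 (by linarith [le_abs_self x])
    have h8 : t i (-N * (2 * Real.pi)) ≤ t i x := h3 (by linarith [neg_abs_le x])
    rw [abs_le]
    constructor
    · linarith
    · linarith
  choose s hs using hbd
  have hper : ∀ x, s (x + 2 * Real.pi) = s x + 2 * Real.pi := by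
    intro x
    refine tendsto_nhds_unique (hs _) (((hs x).add_const (2 * Real.pi)).congr' ?_)
    filter_upwards [ht] with i hi
    exact (hi.2.2.1 x).symm
  have hmono : Monotone s := by
    intro x y hxy
    refine le_of_tendsto_of_tendsto (hs x) (hs y) ?_
    filter_upwards [ht] with i hi
    exact hi.2.1 hxy
  have hexp : ∀ x : ℝ, S' (Complex.exp (x * Complex.I)) = Complex.exp (s x * Complex.I) := by
    intro x
    have h1 : Tendsto (fun i => Complex.exp (t i x * Complex.I)) u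
        (𝓝 (Complex.exp (s x * Complex.I))) := by
      have h2 : Continuous fun y : ℝ => Complex.exp (y * Complex.I) := by fun_prop
      exact (h2.tendsto (s x)).comp (hs x)
    refine tendsto_nhds_unique (hlim _) (h1.congr' ?_)
    filter_upwards [ht] with i hi
    exact (hi.2.2.2 x).symm
  have hstrict : StrictMono s := by
    intro x y hxy
    refine lt_of_le_of_ne (hmono hxy.le) fun heq => ?_
    let z : ℝ := min y (x + 1)
    have hxz : x < z := lt_min hxy (by linarith)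
    have hzy : z ≤ y := min_le_left _ _
    have hz1 : z ≤ x + 1 := min_le_right _ _
    have h1 : s z = s x := le_antisymm ((hmono hzy).trans heq.ge) (hmono hxz.le)
    have h2 : S' (Complex.exp (z * Complex.I)) = S' (Complex.exp (x * Complex.I)) := by
      rw [hexp, hexp, h1]
    have h3 := S'.injective h2
    rw [Complex.exp_eq_exp_iff_exists_int] at h3
    obtain ⟨k, hk⟩ := h3
    have h4 : z = x + k * (2 * Real.pi) := by
      have h5 := congrArg Complex.im hk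
      simpa using h5
    have h6 : 0 < (k : ℝ) * (2 * Real.pi) := by linarith
    have h7 : (k : ℝ) * (2 * Real.pi) ≤ 1 := by linarith
    have h8 : (0 : ℝ) < k := by
      by_contra hc
      push Not at hc
      have := mul_nonpos_of_nonpos_of_nonneg hc hpi.le
      linarith
    have h9 : (1 : ℝ) ≤ k := by exact_mod_cast (Int.cast_pos.1 h8 : 0 < k)
    have h10 := Real.pi_gt_three
    nlinarith
  have hsurj : Function.Surjective s := by
    intro y
    have h1 : ‖S'.symm (Complex.exp (y * Complex.I))‖ = 1 :=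
      hS' _ (Complex.norm_exp_ofReal_mul_I y)
    obtain ⟨x, hx⟩ := (Complex.norm_eq_one_iff _).1 h1
    have h2 : S' (Complex.exp (x * Complex.I)) = Complex.exp (y * Complex.I) := by
      rw [hx, Homeomorph.apply_symm_apply]
    rw [hexp, Complex.exp_eq_exp_iff_exists_int] at h2
    obtain ⟨k, hk⟩ := h2
    have h4 : s x = y + k * (2 * Real.pi) := by
      have h5 := congrArg Complex.im hk
      simpa using h5
    refine ⟨x + (-k : ℤ) * (2 * Real.pi), ?_⟩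
    rw [per_int hper, h4]
    push_cast
    ring
  exact ⟨s, hmono.continuous_of_surjective hsurj, hstrict, hper, hexp⟩

/-- the limit of Blaschke products -/
lemma exists_blaschke {n : ℕ} {r : ℝ} (hr : r < 1) {ι : Type} (u : Ultrafilter ι)
    (B : ι → Blaschke n) (h : ∀ᶠ i in (u : Filter ι), ∀ j, ‖(B i).a j‖ ≤ r) :
    ∃ B₀ : Blaschke n, (∀ j, ‖B₀.a j‖ ≤ r) ∧ (∀ j, Tendsto (fun i => (B i).a j) u (𝓝 (B₀.a j))) ∧
      Tendsto (fun i => (B i).b) u (𝓝 B₀.b) ∧ Tendsto (fun i => (B i).c) u (𝓝 B₀.c) := by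
  have ha : ∀ j, ∃ x, ‖x‖ ≤ r ∧ Tendsto (fun i => (B i).a j) u (𝓝 x) := fun j =>
    exists_lim u _ (h.mono fun i hi => hi j)
  choose a ha1 ha2 using ha
  obtain ⟨b, -, hb⟩ := exists_lim u (fun i => (B i).b) (r := 1)
    (Eventually.of_forall fun i => (B i).norm_b.le)
  obtain ⟨c, -, hc⟩ := exists_lim u (fun i => (B i).c) (r := 1)
    (Eventually.of_forall fun i => (B i).norm_c.le)
  have hb1 : ‖b‖ = 1 := by
    refine tendsto_nhds_unique hb.norm (tendsto_const_nhds.congr fun i => (B i).norm_b.symm)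
  have hc1 : ‖c‖ = 1 := by
    refine tendsto_nhds_unique hc.norm (tendsto_const_nhds.congr fun i => (B i).norm_c.symm)
  have ha3 : ∀ j, ‖a j‖ < 1 := fun j => (ha1 j).trans_lt hr
  have hfix : c * b * ∏ j, ((b - a j) / (1 - conj (a j) * b)) = b := by
    have h1 : Tendsto (fun i => (B i).c * (B i).b *
        ∏ j, (((B i).b - (B i).a j) / (1 - conj ((B i).a j) * (B i).b))) u
        (𝓝 (c * b * ∏ j, ((b - a j) / (1 - conj (a j) * b)))) := by
      refine (hc.mul hb).mul (tendsto_finsetProd _ fun j _ => ?_)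
      refine (hb.sub (ha2 j)).div (tendsto_const_nhds.sub
        (((Complex.continuous_conj.tendsto _).comp (ha2 j)).mul hb)) (den_ne (ha3 j) hb1.le)
    refine tendsto_nhds_unique (h1.congr fun i => (B i).fix) hb
  exact ⟨⟨c, a, b, hc1, ha3, hb1, hfix⟩, ha1, ha2, hb, hc⟩

/-- convergence of the values of Blaschke products -/
lemma tendsto_ev {n : ℕ} {ι : Type} {u : Ultrafilter ι} {B : ι → Blaschke n} {B₀ : Blaschke n}
    (ha : ∀ j, Tendsto (fun i => (B i).a j) u (𝓝 (B₀.a j)))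
    (hc : Tendsto (fun i => (B i).c) u (𝓝 B₀.c)) {z : ι → ℂ} {z₀ : ℂ} (hz : Tendsto z u (𝓝 z₀))
    (hz1 : ‖z₀‖ ≤ 1) : Tendsto (fun i => (B i).ev (z i)) u (𝓝 (B₀.ev z₀)) := by
  unfold Blaschke.ev Blaschke.num Blaschke.den
  refine ((hc.mul hz).mul (tendsto_finsetProd _ fun j _ => hz.sub (ha j))).div
    (tendsto_finsetProd _ fun j _ => tendsto_const_nhds.sub
      (((Complex.continuous_conj.tendsto _).comp (ha j)).mul hz)) ?_
  rw [Finset.prod_ne_zero_iff]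
  intro j _
  exact den_ne (B₀.norm_a j) hz1

lemma norm_eq_one_of {n : ℕ} {A₁ A₂ : Blaschke n} {k : ℝ} {T : ℂ ≃ₜ ℂ} (h : IsTr A₁ A₂ k T) {z : ℂ}
    (hz : ‖z‖ = 1) : ‖T z‖ = 1 := by
  have h1 := h.out z
  have h2 := h.inn z
  rw [hz] at h1 h2
  apply le_antisymm
  · exact not_lt.1 fun h3 => lt_irrefl _ (h1.1 h3)
  · exact not_lt.1 fun h3 => lt_irrefl _ (h2.1 h3)

lemma norm_le_one_of {n : ℕ} {A₁ A₂ : Blaschke n} {k : ℝ} {T : ℂ ≃ₜ ℂ} (h : IsTr A₁ A₂ k T) {z : ℂ}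
    (hz : ‖z‖ ≤ 1) : ‖T z‖ ≤ 1 :=
  not_lt.1 fun h3 => absurd ((h.out z).1 h3) (not_lt.2 hz)

lemma qcoff_of {n : ℕ} {A₁ A₂ : Blaschke n} {k : ℝ} {T : ℂ ≃ₜ ℂ} (h : IsTr A₁ A₂ k T) :
    QCOff k T := ⟨h.smooth.of_le (by norm_cast), h.nd, h.dil⟩

lemma zero_of {n : ℕ} {A₁ A₂ : Blaschke n} {k : ℝ} {T : ℂ ≃ₜ ℂ} (h : IsTr A₁ A₂ k T) : T 0 = 0 := by
  obtain ⟨ρ, hρ, -, h2⟩ := h.ident
  apply h2
  rw [norm_zero]
  positivity

/-- the limit of the transition maps is the identity on the circle -/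
lemma id_circle (h6 : S_TRALG) (h10 : S_CIRC) {n : ℕ} (hn : 2 ≤ n) {k k' : ℝ} {B₀ : Blaschke n}
    {T₀ : ℂ ≃ₜ ℂ} (hT₀ : IsTr (zn n) B₀ k T₀) (hk : k < 1) {ι : Type} {u : Ultrafilter ι}
    {B : ι → Blaschke n} (ha : ∀ j, Tendsto (fun i => (B i).a j) u (𝓝 (B₀.a j)))
    (hb : Tendsto (fun i => (B i).b) u (𝓝 B₀.b))
    (hc : Tendsto (fun i => (B i).c) u (𝓝 B₀.c)) {S : ι → ℂ ≃ₜ ℂ} {S' : ℂ ≃ₜ ℂ}
    (hS : ∀ᶠ i in (u : Filter ι), IsTr B₀ (B i) k' (S i))
    (hlim : ∀ z, Tendsto (fun i => S i z) u (𝓝 (S' z)))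
    (hlim' : ∀ z, ‖z‖ = 1 → ‖S'.symm z‖ = 1) (hBL : S_BL) {z : ℂ} (hz : ‖z‖ = 1) : S' z = z := by
  obtain ⟨s, hs1, hs2, hs3, hs4⟩ := lift_limit u S S' hlim hlim' (hS.mono fun i hi => hi.lift)
  obtain ⟨t, ht1, ht2, ht3, ht4⟩ := hT₀.lift
  have hn1 : 1 ≤ n := by omega
  have hbl0 := (hBL n hn1 B₀)
  -- semiconjugacies on the circle
  have hsemiT : ∀ z : ℂ, ‖z‖ = 1 → T₀ (z ^ n) = B₀.ev (T₀ z) := by
    intro z hz
    obtain ⟨ρ, hρ, h⟩ := hT₀.semi
    have h1 := (h z (by rw [hz]; exact inv_lt_one_of_one_lt₀ hρ) (by rw [hz]; exact hρ)).2.2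
    rwa [((hBL n hn1 (zn n)).2.2.2.2.2.2.2.2 z).2] at h1
  have hsemiS : ∀ z : ℂ, ‖z‖ = 1 → S' (B₀.ev z) = B₀.ev (S' z) := by
    intro z hz
    have h1 : Tendsto (fun i => (B i).ev (S i z)) u (𝓝 (B₀.ev (S' z))) := by
      refine tendsto_ev ha hc (hlim z) ?_
      refine le_of_tendsto (hlim z).norm ?_
      filter_upwards [hS] with i hi
      exact (norm_eq_one_of hi hz).le
    refine tendsto_nhds_unique (hlim _) (h1.congr' ?_)
    filter_upwards [hS] with i hi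
    obtain ⟨ρ, hρ, h⟩ := hi.semi
    exact (h z (by rw [hz]; exact inv_lt_one_of_one_lt₀ hρ) (by rw [hz]; exact hρ)).2.2.symm
  have hmark : S' B₀.b = B₀.b := by
    refine tendsto_nhds_unique (hlim _) (hb.congr' ?_)
    filter_upwards [hS] with i hi
    exact hi.mark.symm
  have hT1 : T₀ 1 = B₀.b := hT₀.mark
  have hexp0 : ∀ x : ℝ, ‖Complex.exp (x * Complex.I)‖ = 1 := fun x =>
    Complex.norm_exp_ofReal_mul_I x
  have hpow : ∀ x : ℝ, Complex.exp (((n * x : ℝ) : ℂ) * Complex.I) =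
      Complex.exp (x * Complex.I) ^ n := by
    intro x
    rw [← Complex.exp_nat_mul]
    congr 1
    push_cast
    ring
  have key := h10 n hn B₀.ev t (fun x => s (t x)) ht1 ht2 ht3 (hs1.comp ht1) (hs2.comp ht2)
    (fun x => by rw [ht3, hs3]) (fun x => by
      rw [← ht4, hpow, hsemiT _ (hexp0 x), ht4]) (fun x => by
      rw [← hs4, ← ht4, hpow, hsemiT _ (hexp0 x), hsemiS _ (norm_eq_one_of hT₀ (hexp0 x)), ht4,
        hs4]) (by
      rw [← hs4, ← ht4]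
      rw [Complex.ofReal_zero, zero_mul, Complex.exp_zero, hT1, hmark])
  -- every point of the circle
  have h1 : ‖T₀.symm z‖ = 1 := norm_eq_one_of ((h6 n hn1).2.1 (zn n) B₀ k T₀ hk hT₀) hz
  obtain ⟨x, hx⟩ := (Complex.norm_eq_one_iff _).1 h1
  have h2 : Complex.exp (t x * Complex.I) = z := by
    rw [← ht4, hx, Homeomorph.apply_symm_apply]
  have h3 := key x
  rw [← hs4, h2] at h3
  exact h3.symm

end CTYaux

open CTYaux

theorem t_CTY (h : S_UTR) (h1 : S_BL) (h2 : S_SIG) (h3 : S_RTOP) (h4 : S_QSLIM) (h5 : S_LA)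
    (h6 : S_TRALG) (h7 : S_SURG) (h8 : S_CPT) (h9 : S_UNIQ) (h10 : S_CIRC) (h11 : S_QFORM)
    (h12 : S_REL) : S_CTY := by
  intro n hn r hr ι u B f hyp
  have hn1 : 1 ≤ n := by omega
  obtain ⟨B₀, hB₀r, ha, hb, hc⟩ := exists_blaschke hr u B (hyp.mono fun i hi => hi.1)
  -- a mating for the limit
  obtain ⟨f₀, φ₀, ψ₀, h₀, hM⟩ := (h12 n hn (zn n)).1 B₀
  -- the transition maps
  obtain ⟨k, hk0, hk1, hk⟩ := h n hn r hr
  obtain ⟨T₀, hT₀⟩ := hk B₀ hB₀r
  obtain ⟨k', hk0', hk1', hcomp⟩ := (h6 n hn1).2.2 k k hk0 hk1 hk0 hk1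
  have hT : ∀ᶠ i in (u : Filter ι), ∃ T : ℂ ≃ₜ ℂ, IsTr (zn n) (B i) k T := by
    filter_upwards [hyp] with i hi
    exact hk (B i) hi.1
  obtain ⟨T, hT⟩ := hT.choice
  let S : ι → ℂ ≃ₜ ℂ := fun i => T₀.symm.trans (T i)
  have hS : ∀ᶠ i in (u : Filter ι), IsTr B₀ (B i) k' (S i) := by
    filter_upwards [hT] with i hi
    exact hcomp B₀ (zn n) (B i) T₀.symm (T i) ((h6 n hn1).2.1 (zn n) B₀ k T₀ hk1 hT₀) hi
  -- surgery
  obtain ⟨C, hC⟩ := h7 k' hk0' hk1'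
  have hrefl : IsTr (zn n) (zn n) k' (Homeomorph.refl ℂ) := (h6 n hn1).1 (zn n) k' hk0'
  have hsurg : ∀ᶠ i in (u : Filter ι), ∃ x : (ℂ ≃ₜ ℂ) × (ℂ → ℂ) × (ℂ → ℂ), WQS C x.1 ∧
      (∀ z ∈ CExt, x.1 (φ₀ z) = x.2.1 z) ∧ (∀ z ∈ closedBall (0 : ℂ) 1, x.1 (ψ₀ z) = x.2.2 (S i z)) ∧
      ∃ h₂, IsMatingData (zn n) (B i) (f i) x.2.1 x.2.2 h₂ := by
    filter_upwards [hS, hyp] with i hi hi2
    obtain ⟨H, φ₂, ψ₂, f₂, h₂, a1, -, a3, a4, a5⟩ :=
      hC n hn (zn n) (zn n) B₀ (B i) f₀ φ₀ ψ₀ h₀ _ (S i) hM hrefl hi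
    have e : f₂ = f i := h9 n hn (zn n) (B i) f₂ (f i) ⟨φ₂, ψ₂, h₂, a5⟩ hi2.2
    rw [e] at a5
    exact ⟨(H, φ₂, ψ₂), a1, a3, a4, h₂, a5⟩
  obtain ⟨X, hX⟩ := hsurg.choice
  -- the limits
  obtain ⟨F, Φ, hF, hfF, hφ⟩ := h8 n hn1 (zn n) ι u f (fun i => (X i).2.1)
    (hX.mono fun i hi => by
      obtain ⟨-, -, -, h₂, hd⟩ := hi
      exact hd.ext)
  have hsig : ∀ ψ : ℂ → ℂ, Sig ψ → ‖ψ 2‖ ≤ 10 ∧ ‖ψ 8‖ ≤ 10 ∧ (10 : ℝ)⁻¹ ≤ ‖ψ 2 - ψ 8‖ := by
    intro ψ hψ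
    have e1 := (h2 ψ hψ).1 2 (by rw [Complex.norm_ofNat])
    have e2 := (h2 ψ hψ).1 8 (by rw [Complex.norm_ofNat]; norm_num)
    rw [Complex.norm_ofNat] at e1 e2
    have e3 := norm_sub_norm_le (ψ 2) 2
    have e4 := norm_sub_norm_le (ψ 8) 8
    rw [Complex.norm_ofNat] at e3 e4
    have e5 : ‖(2 : ℂ) - 8‖ ≤ ‖ψ 2 - ψ 8‖ + ‖ψ 2 - 2‖ + ‖ψ 8 - 8‖ := by
      have e6 : (2 : ℂ) - 8 = (ψ 2 - ψ 8) - (ψ 2 - 2) + (ψ 8 - 8) := by ring
      rw [e6]
      refine (norm_add_le _ _).trans ?_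
      gcongr
      exact norm_sub_le _ _
    have e7 : ‖(2 : ℂ) - 8‖ = 6 := by
      rw [show (2 : ℂ) - 8 = -6 by norm_num, norm_neg, Complex.norm_ofNat]
    rw [e7] at e5
    refine ⟨by linarith, by linarith, ?_⟩
    have e8 : (10 : ℝ)⁻¹ ≤ 1 := by norm_num
    linarith
  have h2E : (2 : ℂ) ∈ MB.Ext := by
    show 1 < ‖(2 : ℂ)‖
    rw [Complex.norm_ofNat]
    norm_num
  have h8E : (8 : ℂ) ∈ MB.Ext := by
    show 1 < ‖(8 : ℂ)‖
    rw [Complex.norm_ofNat]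
    norm_num
  have hEC : ∀ z ∈ MB.Ext, z ∈ CExt := fun z hz => (le_of_lt hz : (1 : ℝ) ≤ ‖z‖)
  obtain ⟨H, hHC, hHlim, hHlim'⟩ := h4 C 10 (by norm_num) ι u (fun i => (X i).1) (fun _ => φ₀ 2)
    (fun _ => φ₀ 8) (by
      filter_upwards [hX] with i hi
      obtain ⟨a1, a2, a3, h₂, a4⟩ := hi
      obtain ⟨b1, b2, b3⟩ := hsig φ₀ hM.ext.sig
      obtain ⟨c1, c2, c3⟩ := hsig (X i).2.1 a4.ext.sig
      rw [a2 2 (hEC _ h2E), a2 8 (hEC _ h8E)]
      exact ⟨a1, b1, b2, b3, c1, c2, c3⟩)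
  obtain ⟨C', hC'0, hC'⟩ := h5 k' hk0' hk1'
  obtain ⟨S', hS'C, hSlim, hSlim'⟩ := h4 C' 1 (by norm_num) ι u S (fun _ => 0)
    (fun _ => 1) (by
      filter_upwards [hS] with i hi
      have e0 := zero_of hi
      have e1 : ‖S i 1‖ = 1 := norm_eq_one_of hi norm_one
      refine ⟨(hC' (S i) (qcoff_of hi)).1, ?_, ?_, ?_, ?_, ?_, ?_⟩
      · rw [norm_zero]
        exact zero_le_one
      · rw [norm_one]
      · rw [zero_sub, norm_neg, norm_one, inv_one]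
      · rw [e0, norm_zero]
        exact zero_le_one
      · rw [e1]
      · rw [e0, zero_sub, norm_neg, e1, inv_one])
  -- pointwise limits
  have hHp : ∀ z, Tendsto (fun i => (X i).1 z) u (𝓝 (H z)) := fun z =>
    hHlim.tendsto_comp H.continuous.continuousAt tendsto_const_nhds
  have hSp : ∀ z, Tendsto (fun i => S i z) u (𝓝 (S' z)) := fun z =>
    hSlim.tendsto_comp S'.continuous.continuousAt tendsto_const_nhds
  have hSp' : ∀ z, Tendsto (fun i => (S i).symm z) u (𝓝 (S'.symm z)) := fun z =>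
    hSlim'.tendsto_comp S'.symm.continuous.continuousAt tendsto_const_nhds
  have hSinv : ∀ᶠ i in (u : Filter ι), IsTr (B i) B₀ k' (S i).symm := by
    filter_upwards [hS] with i hi
    exact (h6 n hn1).2.1 B₀ (B i) k' (S i) hk1' hi
  have hS'le : ∀ z, ‖z‖ ≤ 1 → ‖S' z‖ ≤ 1 := by
    intro z hz
    refine le_of_tendsto (hSp z).norm ?_
    filter_upwards [hS] with i hi
    exact norm_le_one_of hi hz
  have hS'le' : ∀ z, ‖z‖ ≤ 1 → ‖S'.symm z‖ ≤ 1 := by
    intro z hz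
    refine le_of_tendsto (hSp' z).norm ?_
    filter_upwards [hSinv] with i hi
    exact norm_le_one_of hi hz
  have hS'eq' : ∀ z, ‖z‖ = 1 → ‖S'.symm z‖ = 1 := by
    intro z hz
    refine tendsto_nhds_unique (hSp' z).norm (tendsto_const_nhds.congr' ?_)
    filter_upwards [hSinv] with i hi
    exact (norm_eq_one_of hi hz).symm
  have hid : ∀ z, ‖z‖ = 1 → S' z = z := fun z hz =>
    id_circle h6 h10 hn hT₀ hk1 ha hb hc hS hSp hS'eq' h1 hz
  have hid' : ∀ z, ‖z‖ = 1 → S'.symm z = z := fun z hz => by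
    have e := hid z hz
    rw [← e, Homeomorph.symm_apply_apply, e]
  -- the limit of the inner maps
  let Ψ : ℂ → ℂ := fun z => H (ψ₀ (S'.symm z))
  have hball : ∀ z, z ∈ closedBall (0 : ℂ) 1 ↔ ‖z‖ ≤ 1 := fun z => mem_closedBall_zero_iff
  have hψX : ∀ᶠ i in (u : Filter ι), ∀ z ∈ closedBall (0 : ℂ) 1,
      (X i).2.2 z = (X i).1 (ψ₀ ((S i).symm z)) := by
    filter_upwards [hX, hSinv] with i hi hi2 z hz
    obtain ⟨-, -, a3, -⟩ := hi
    have e1 : (S i).symm z ∈ closedBall (0 : ℂ) 1 := by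
      rw [hball] at hz ⊢
      exact norm_le_one_of hi2 hz
    rw [a3 _ e1, Homeomorph.apply_symm_apply]
  have hΨcont : ContinuousOn Ψ (closedBall 0 1) := by
    refine H.continuous.comp_continuousOn (hM.contψ.comp S'.symm.continuous.continuousOn ?_)
    intro z hz
    rw [hball] at hz ⊢
    exact hS'le' z hz
  have hψcc : ∀ x ∈ closedBall (0 : ℂ) 1, Tendsto (fun y : ι × ℂ => (X y.1).2.2 y.2)
      ((u : Filter ι) ×ˢ 𝓝[closedBall 0 1] x) (𝓝 (Ψ x)) := by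
    intro x hx
    have e1 : Tendsto (fun y : ι × ℂ => (S y.1).symm y.2)
        ((u : Filter ι) ×ˢ 𝓝[closedBall 0 1] x) (𝓝[closedBall 0 1] (S'.symm x)) := by
      rw [tendsto_nhdsWithin_iff]
      refine ⟨(cc_of_tlu hSlim' S'.symm.continuous x).mono_left
        (Filter.prod_mono le_rfl nhdsWithin_le_nhds), ?_⟩
      have e2 : ∀ᶠ y : ι × ℂ in (u : Filter ι) ×ˢ 𝓝[closedBall 0 1] x,
          IsTr (B y.1) B₀ k' (S y.1).symm ∧ y.2 ∈ closedBall (0 : ℂ) 1 :=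
        (hSinv.prod_mk self_mem_nhdsWithin)
      filter_upwards [e2] with y hy
      rw [hball] at hy ⊢
      exact norm_le_one_of hy.1 hy.2
    have hx' : S'.symm x ∈ closedBall (0 : ℂ) 1 := by
      rw [hball] at hx ⊢
      exact hS'le' x hx
    have e3 : Tendsto (fun y : ι × ℂ => ψ₀ ((S y.1).symm y.2))
        ((u : Filter ι) ×ˢ 𝓝[closedBall 0 1] x) (𝓝 (ψ₀ (S'.symm x))) :=
      (hM.contψ _ hx').tendsto.comp e1
    have e4 : Tendsto (fun y : ι × ℂ => (y.1, ψ₀ ((S y.1).symm y.2)))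
        ((u : Filter ι) ×ˢ 𝓝[closedBall 0 1] x) ((u : Filter ι) ×ˢ 𝓝 (ψ₀ (S'.symm x))) :=
      tendsto_fst.prodMk e3
    have e5 := (cc_of_tlu hHlim H.continuous (ψ₀ (S'.symm x))).comp e4
    refine e5.congr' ?_
    have e2 : ∀ᶠ y : ι × ℂ in (u : Filter ι) ×ˢ 𝓝[closedBall 0 1] x,
        (∀ z ∈ closedBall (0 : ℂ) 1, (X y.1).2.2 z = (X y.1).1 (ψ₀ ((S y.1).symm z))) ∧
        y.2 ∈ closedBall (0 : ℂ) 1 :=
      (hψX.prod_mk self_mem_nhdsWithin)
    filter_upwards [e2] with y hy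
    exact (hy.1 y.2 hy.2).symm
  have hΨdiff : DifferentiableOn ℂ Ψ (ball 0 1) := by
    have e1 : TendstoLocallyUniformlyOn (fun i => (X i).2.2) Ψ (u : Filter ι) (ball 0 1) := by
      refine tlu_of_cc (fun x hx => ?_) (hΨcont.mono ball_subset_closedBall)
      exact (hψcc x (ball_subset_closedBall hx)).mono_left
        (Filter.prod_mono le_rfl (nhdsWithin_mono x ball_subset_closedBall))
    refine e1.differentiableOn ?_ isOpen_ball
    filter_upwards [hX] with i hi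
    obtain ⟨-, -, -, h₂, hd⟩ := hi
    exact hd.diffψ
  -- the exterior map
  have hΦ : ∀ z ∈ MB.Ext, Φ z = H (φ₀ z) := by
    intro z hz
    refine tendsto_nhds_unique (hφ.tendsto_at hz) ((hHp (φ₀ z)).congr' ?_)
    filter_upwards [hX] with i hi
    exact hi.2.1 z (hEC z hz)
  have hzn : ∀ z, (zn n).den z = 1 ∧ (zn n).ev z = z ^ n := (h1 n hn1 (zn n)).2.2.2.2.2.2.2.2
  have hpowE : ∀ z ∈ MB.Ext, z ^ n ∈ MB.Ext := by
    intro z hz
    show 1 < ‖z ^ n‖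
    rw [norm_pow]
    exact one_lt_pow₀ hz (by omega)
  have hext : IsExt (zn n) F (fun z => H (φ₀ z)) := by
    refine ⟨hF.diff.congr fun z hz => (hΦ z hz).symm, ?_, ?_, ?_⟩
    · intro z hz w hw hzw
      apply hF.inj hz hw
      rw [hΦ z hz, hΦ w hw]
      exact hzw
    · refine hF.norm.congr' ?_
      have e1 : ∀ᶠ z in cocompact ℂ, z ∈ MB.Ext := by
        have e2 := (isCompact_closedBall (0 : ℂ) 1).compl_mem_cocompact
        filter_upwards [e2] with z hz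
        have e3 : ¬ ‖z‖ ≤ 1 := fun e4 => hz ((hball z).2 e4)
        exact not_le.1 e3
      filter_upwards [e1] with z hz
      rw [hΦ z hz]
    · intro z hz hd
      have e1 := hF.semi z hz hd
      have e2 : (zn n).ev z ∈ MB.Ext := by
        rw [(hzn z).2]
        exact hpowE z hz
      rw [hΦ z hz, hΦ _ e2] at e1
      exact e1
  have hFQ : F.Q = 1 := by
    have e := h11 n hn1 (zn n) F Φ hF
    rw [e.1, e.2.2.2]
  have hfQ : ∀ᶠ i in (u : Filter ι), (f i).Q = 1 := by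
    filter_upwards [hX] with i hi
    obtain ⟨-, -, -, h₂, hd⟩ := hi
    have e := h11 n hn1 (zn n) (f i) _ hd.ext
    rw [e.1, e.2.2.2]
  have hψp : ∀ (z : ι → ℂ) (z₀ : ℂ), (∀ᶠ i in (u : Filter ι), ‖z i‖ ≤ 1) → ‖z₀‖ ≤ 1 →
      Tendsto z u (𝓝 z₀) → Tendsto (fun i => (X i).2.2 (z i)) u (𝓝 (Ψ z₀)) := by
    intro z z₀ hz hz₀ hlim
    have e1 : Tendsto z u (𝓝[closedBall 0 1] z₀) := by
      rw [tendsto_nhdsWithin_iff]
      refine ⟨hlim, ?_⟩
      filter_upwards [hz] with i hi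
      exact (hball _).2 hi
    have e2 : Tendsto (fun i => (i, z i)) (u : Filter ι)
        ((u : Filter ι) ×ˢ 𝓝[closedBall 0 1] z₀) := tendsto_id.prodMk e1
    exact (hψcc z₀ ((hball _).2 hz₀)).comp e2
  have hsemi : ∀ z ∈ closedBall (0 : ℂ) 1, F.Q.eval (Ψ z) ≠ 0 ∧ F.ev (Ψ z) = Ψ (B₀.ev z) := by
    intro z hz
    rw [hball] at hz
    rw [hFQ, eval_one]
    refine ⟨one_ne_zero, ?_⟩
    have e1 : F.ev (Ψ z) = F.P.eval (Ψ z) := by
      rw [RMap.ev, hFQ, eval_one, div_one]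
    rw [e1]
    have e2 : Tendsto (fun i => (X i).2.2 z) u (𝓝 (Ψ z)) :=
      hψp (fun _ => z) z (Eventually.of_forall fun _ => hz) hz tendsto_const_nhds
    have e3 := (((h3 n).2 ι u f F).2 hfF _ _ e2).1
    have e4 : Tendsto (fun i => (X i).2.2 ((B i).ev z)) u (𝓝 (Ψ (B₀.ev z))) := by
      refine hψp _ _ (Eventually.of_forall fun i => ?_) ?_ (tendsto_ev ha hc tendsto_const_nhds hz)
      · exact ((h1 n hn1 (B i)).2.1 z hz).trans hz
      · exact ((h1 n hn1 B₀).2.1 z hz).trans hz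
    refine tendsto_nhds_unique e3 (e4.congr' ?_)
    filter_upwards [hX, hfQ] with i hi hQ
    obtain ⟨-, -, -, h₂, hd⟩ := hi
    have e5 := (hd.semiψ z ((hball z).2 hz)).2
    rw [RMap.ev, hQ, eval_one, div_one] at e5
    exact e5.symm
  have himg : Ψ '' closedBall 0 1 = H '' (ψ₀ '' closedBall 0 1) := by
    ext y
    constructor
    · rintro ⟨z, hz, rfl⟩
      refine ⟨ψ₀ (S'.symm z), ⟨S'.symm z, ?_, rfl⟩, rfl⟩
      rw [hball] at hz ⊢
      exact hS'le' z hz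
    · rintro ⟨-, ⟨z, hz, rfl⟩, rfl⟩
      refine ⟨S' z, ?_, ?_⟩
      · rw [hball] at hz ⊢
        exact hS'le z hz
      · show H (ψ₀ (S'.symm (S' z))) = H (ψ₀ z)
        rw [Homeomorph.symm_apply_apply]
  refine ⟨B₀, F, ⟨fun z => H (φ₀ z), Ψ, h₀, ?_⟩, hfF, ha, hb⟩
  refine
    { ext := hext
      contφ := H.continuous.comp_continuousOn hM.contφ
      diffψ := hΨdiff
      contψ := hΨcont
      injψ := ?_
      semiψ := hsemi
      compl := ?_
      conth := hM.conth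
      monoh := hM.monoh
      perh := hM.perh
      glue := ?_
      mark := ?_ }
  · intro z hz w hw hzw
    rw [hball] at hz hw
    have e1 : ψ₀ (S'.symm z) = ψ₀ (S'.symm w) := H.injective hzw
    exact S'.symm.injective (hM.injψ ((hball _).2 (hS'le' z hz)) ((hball _).2 (hS'le' w hw)) e1)
  · rw [himg, ← Set.image_compl_eq H.bijective, ← hM.compl, Set.image_image]
  · intro x
    show H (φ₀ (Complex.exp (x * Complex.I))) =
      H (ψ₀ (S'.symm (Complex.exp (h₀ x * Complex.I))))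
    rw [hid' _ (Complex.norm_exp_ofReal_mul_I (h₀ x)), hM.glue]
  · show H (φ₀ (zn n).b) = H (ψ₀ (S'.symm B₀.b))
    rw [hid' _ B₀.norm_b, hM.mark]

end Pool.Agent.H212.ND
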