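import Pool.Agent.H212.ND.StmT
import Pool.Graph.R_pool_sql_team_668148b0.Helper682.JPoly.B3

set_option autoImplicit false

open Filter Metric Set Topology Polynomial
open scoped ComplexConjugate

namespace Pool.Agent.H212.ND

namespace ECRaux

/-- `(z - y) / (z - y')` has a continuous logarithm on `F` -/
def Rel (F : Set ℂ) (y y' : ℂ) : Prop :=
  ∃ u : ℂ → ℂ, ContinuousOn u F ∧ ∀ z ∈ F, Complex.exp (u z) = (z - y) / (z - y')

theorem Rel.refl {F : Set ℂ} {y : ℂ} (hy : y ∉ F) : Rel F y y := by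
  refine ⟨fun _ => 0, continuousOn_const, fun z hz => ?_⟩
  have : z - y ≠ 0 := fun h => hy (by rw [sub_eq_zero] at h; rwa [← h])
  rw [Complex.exp_zero, div_self this]

theorem Rel.symm {F : Set ℂ} {y y' : ℂ} (h : Rel F y y') : Rel F y' y := by
  obtain ⟨u, hu, he⟩ := h
  refine ⟨fun z => -u z, hu.neg, fun z hz => ?_⟩
  rw [Complex.exp_neg, he z hz, inv_div]

theorem Rel.trans {F : Set ℂ} {y y' y'' : ℂ} (hy' : y' ∉ F) (h : Rel F y y') (h' : Rel F y' y'') :
    Rel F y y'' := by
  obtain ⟨u, hu, he⟩ := h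
  obtain ⟨v, hv, he'⟩ := h'
  refine ⟨fun z => u z + v z, hu.add hv, fun z hz => ?_⟩
  have h1 : z - y' ≠ 0 := fun h => hy' (by rw [sub_eq_zero] at h; rwa [← h])
  rw [Complex.exp_add, he z hz, he' z hz, div_mul_div_cancel₀ h1]

theorem rel_near {F : Set ℂ} (hF : IsClosed F) {y : ℂ} (hy : y ∉ F) :
    ∃ r : ℝ, 0 < r ∧ ball y r ⊆ Fᶜ ∧ ∀ y' ∈ ball y r, Rel F y y' := by
  obtain ⟨r, hr, hb⟩ := Metric.isOpen_iff.1 hF.isOpen_compl y hy
  refine ⟨r / 2, by positivity, (ball_subset_ball (by linarith)).trans hb, fun y' hy' => ?_⟩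
  have hz : ∀ z ∈ F, r ≤ ‖z - y‖ := by
    intro z hz
    by_contra hcon
    push Not at hcon
    exact hb (by rwa [mem_ball, dist_eq_norm]) hz
  have hne : ∀ z ∈ F, z - y ≠ 0 := by
    intro z hzF h
    have := hz z hzF
    rw [h, norm_zero] at this
    linarith
  have hq : ∀ z ∈ F, ‖(y' - y) / (z - y)‖ < 1 := by
    intro z hzF
    rw [norm_div, div_lt_one (norm_pos_iff.2 (hne z hzF))]
    rw [mem_ball, dist_eq_norm] at hy'
    have := hz z hzF
    linarith
  have hs : ∀ z ∈ F, 1 - (y' - y) / (z - y) ∈ Complex.slitPlane := by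
    intro z hzF
    left
    have h1 := Complex.re_le_norm ((y' - y) / (z - y))
    have h2 := hq z hzF
    rw [Complex.sub_re, Complex.one_re]
    linarith
  refine ⟨fun z => -Complex.log (1 - (y' - y) / (z - y)), ?_, ?_⟩
  · apply ContinuousOn.neg
    apply ContinuousOn.clog _ hs
    apply ContinuousOn.sub continuousOn_const
    apply ContinuousOn.div continuousOn_const (by fun_prop)
    exact hne
  · intro z hzF
    have h0 : 1 - (y' - y) / (z - y) ≠ 0 := Complex.slitPlane_ne_zero (hs z hzF)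
    rw [Complex.exp_neg, Complex.exp_log h0]
    have h1 := hne z hzF
    have h2 : 1 - (y' - y) / (z - y) = (z - y') / (z - y) := by
      field_simp
      ring
    rw [h2, inv_div]

theorem part_a {F : Set ℂ} (hF : IsCompact F) {y₁ y₂ : ℂ} {S : Set ℂ} (hS : IsPreconnected S)
    (hSF : S ⊆ Fᶜ) (h1 : y₁ ∈ S) (h2 : y₂ ∈ S) : Rel F y₁ y₂ := by
  have hcl := hF.isClosed
  set T : Set ℂ := {y | y ∉ F ∧ Rel F y₁ y} with hT
  set T' : Set ℂ := {y | y ∉ F ∧ ¬ Rel F y₁ y} with hT'
  have hTo : IsOpen T := by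
    rw [Metric.isOpen_iff]
    rintro y ⟨hy, hr⟩
    obtain ⟨r, hr0, hb, hn⟩ := rel_near hcl hy
    exact ⟨r, hr0, fun y' hy' => ⟨hb hy', hr.trans hy (hn y' hy')⟩⟩
  have hTo' : IsOpen T' := by
    rw [Metric.isOpen_iff]
    rintro y ⟨hy, hr⟩
    obtain ⟨r, hr0, hb, hn⟩ := rel_near hcl hy
    exact ⟨r, hr0, fun y' hy' => ⟨hb hy', fun h => hr (h.trans (hb hy') (hn y' hy').symm)⟩⟩
  have hST : S ⊆ T ∪ T' := by
    intro y hy
    by_cases h : Rel F y₁ y
    · left; exact ⟨hSF hy, h⟩
    · right; exact ⟨hSF hy, h⟩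
  by_contra hcon
  obtain ⟨y, -, hy1, hy2⟩ := hS T T' hTo hTo' hST ⟨y₁, h1, hSF h1, Rel.refl (hSF h1)⟩
    ⟨y₂, h2, hSF h2, hcon⟩
  exact hy2.2 hy1.2

theorem frontier_comp {F : Set ℂ} (hF : IsClosed F) (q : ℂ) :
    frontier (connectedComponentIn Fᶜ q) ⊆ F := by
  intro p hp
  by_contra hpK
  have hKo : IsOpen Fᶜ := hF.isOpen_compl
  have hpc : p ∈ connectedComponentIn Fᶜ p := mem_connectedComponentIn hpK
  have hpo : IsOpen (connectedComponentIn Fᶜ p) := hKo.connectedComponentIn
  rw [(hKo.connectedComponentIn (x := q)).frontier_eq] at hp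
  obtain ⟨y, hy1, hy2⟩ := mem_closure_iff.1 hp.1 _ hpo hpc
  have h1 := connectedComponentIn_eq hy1
  have h2 := connectedComponentIn_eq hy2
  apply hp.2
  rw [h2, ← h1]
  exact hpc

theorem bounded_case {F : Set ℂ} (hF : IsCompact F) {y₁ y₂ : ℂ} (hy1 : y₁ ∉ F) (hy2 : y₂ ∉ F)
    (h : Rel F y₁ y₂) (hb : Bornology.IsBounded (connectedComponentIn Fᶜ y₁)) :
    y₂ ∈ connectedComponentIn Fᶜ y₁ := by
  by_contra hn
  obtain ⟨φ, hφ, hexp⟩ := h
  set O := connectedComponentIn Fᶜ y₁ with hOdef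
  have hO : IsOpen O := hF.isClosed.isOpen_compl.connectedComponentIn
  have hyO : y₁ ∈ O := mem_connectedComponentIn hy1
  have hfr : frontier O ⊆ F := frontier_comp hF.isClosed y₁
  have hcl : IsClosed (frontier O) := isClosed_frontier
  set f0 : C(frontier O, ℂ) := ⟨fun x => φ x, (hφ.mono hfr).comp_continuous continuous_subtype_val
    (fun x => x.2)⟩ with hf0
  obtain ⟨g, hg⟩ := f0.exists_restrict_eq hcl
  have hgφ : ∀ z ∈ frontier O, g z = φ z := by
    intro z hz
    have := congrArg (fun F : C(frontier O, ℂ) => F ⟨z, hz⟩) hg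
    simpa [hf0] using this
  classical
  set H : ℂ → ℂ := fun z => if z ∈ O then Complex.exp (g z) * (z - y₂) else z - y₁ with hHdef
  have honO : EqOn H (fun z => Complex.exp (g z) * (z - y₂)) (closure O) := by
    intro z hz
    by_cases h : z ∈ O
    · simp only [hHdef, h, if_true]
    · have hzf : z ∈ frontier O := by
        rw [hO.frontier_eq]; exact ⟨hz, h⟩
      simp only [hHdef, h, if_false]
      have hne : z - y₂ ≠ 0 := fun h0 => hy2 (by rw [sub_eq_zero] at h0; rw [← h0]; exact hfr hzf)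
      rw [hgφ z hzf, hexp z (hfr hzf), div_mul_cancel₀ _ hne]
  have honOc : EqOn H (fun z => z - y₁) Oᶜ := by
    intro z hz
    have : z ∉ O := hz
    simp only [hHdef, this, if_false]
  have hHc : Continuous H := by
    rw [← continuousOn_univ]
    have hu : (univ : Set ℂ) = closure O ∪ Oᶜ := by
      ext z
      simp only [mem_univ, mem_union, mem_compl_iff, true_iff]
      by_cases h : z ∈ O
      · left; exact subset_closure h
      · right; exact h
    rw [hu]
    refine ContinuousOn.union_of_isClosed ?_ ?_ isClosed_closure hO.isClosed_compl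
    · refine ContinuousOn.congr ?_ honO
      exact ((Complex.continuous_exp.comp g.continuous).mul
        (continuous_id.sub continuous_const)).continuousOn
    · exact (continuous_id.sub continuous_const).continuousOn.congr honOc
  have hH0 : ∀ z, H z ≠ 0 := by
    intro z
    by_cases h : z ∈ O
    · simp only [hHdef, h, if_true]
      refine mul_ne_zero (Complex.exp_ne_zero _) fun h0 => hn ?_
      rw [sub_eq_zero] at h0
      rwa [← h0]
    · simp only [hHdef, h, if_false]
      intro h0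
      rw [sub_eq_zero] at h0
      rw [h0] at h
      exact h hyO
  obtain ⟨R, hR⟩ := hb.subset_ball y₁
  have hRpos : 0 < R := by
    have := hR hyO
    rw [mem_ball, dist_self] at this
    exact this
  refine Pool.Agent.Helper682.JPoly.no_ext (y := y₁) hHc hH0 hRpos fun z hz => ?_
  have hzO : z ∉ O := by
    intro h
    have := hR h
    rw [mem_ball, dist_eq_norm, hz] at this
    exact lt_irrefl _ this
  exact honOc hzO

theorem far_preconnected {R : ℝ} (hR : 0 ≤ R) : IsPreconnected {z : ℂ | R < ‖z‖} := by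
  have h1 : {z : ℂ | R < ‖z‖} =
      (fun p : ℝ × ℝ => (p.1 : ℂ) * Complex.exp (p.2 * Complex.I)) '' (Ioi R ×ˢ univ) := by
    ext z
    constructor
    · intro hz
      refine ⟨(‖z‖, Complex.arg z), ⟨hz, trivial⟩, ?_⟩
      exact Complex.norm_mul_exp_arg_mul_I z
    · rintro ⟨⟨r, θ⟩, ⟨hr, -⟩, rfl⟩
      simp only [mem_Ioi] at hr
      change R < ‖(r : ℂ) * Complex.exp (θ * Complex.I)‖
      rw [norm_mul, Complex.norm_exp_ofReal_mul_I, mul_one, Complex.norm_real,
        Real.norm_of_nonneg (hR.trans hr.le)]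
      exact hr
  rw [h1]
  apply IsPreconnected.image
  · exact isPreconnected_Ioi.prod isPreconnected_univ
  · fun_prop

theorem part_b {F : Set ℂ} (hF : IsCompact F) {y₁ y₂ : ℂ} (hy1 : y₁ ∉ F) (hy2 : y₂ ∉ F)
    (h : Rel F y₁ y₂) : ∃ S : Set ℂ, IsPreconnected S ∧ S ⊆ Fᶜ ∧ y₁ ∈ S ∧ y₂ ∈ S := by
  by_cases hb1 : Bornology.IsBounded (connectedComponentIn Fᶜ y₁)
  · exact ⟨_, isPreconnected_connectedComponentIn, connectedComponentIn_subset _ _,
      mem_connectedComponentIn hy1, bounded_case hF hy1 hy2 h hb1⟩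
  by_cases hb2 : Bornology.IsBounded (connectedComponentIn Fᶜ y₂)
  · exact ⟨_, isPreconnected_connectedComponentIn, connectedComponentIn_subset _ _,
      bounded_case hF hy2 hy1 h.symm hb2, mem_connectedComponentIn hy2⟩
  obtain ⟨R0, hR0⟩ := hF.isBounded.subset_closedBall (0 : ℂ)
  set R : ℝ := max R0 0 with hR
  have hR00 : 0 ≤ R := le_max_right _ _
  have hKR : F ⊆ closedBall 0 R := hR0.trans (closedBall_subset_closedBall (le_max_left _ _))
  have hFK : {z : ℂ | R < ‖z‖} ⊆ Fᶜ := by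
    intro z hz hzK
    have := hKR hzK
    rw [mem_closedBall_zero_iff] at this
    exact absurd this (not_le.2 hz)
  have hF' := far_preconnected hR00
  have key : ∀ y : ℂ, ¬ Bornology.IsBounded (connectedComponentIn Fᶜ y) →
      ∃ w, R < ‖w‖ ∧ w ∈ connectedComponentIn Fᶜ y := by
    intro y hy
    by_contra hcon
    push Not at hcon
    apply hy
    refine (isBounded_closedBall (x := (0 : ℂ)) (r := R)).subset fun w hw => ?_
    rw [mem_closedBall_zero_iff]
    by_contra h1
    push Not at h1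
    exact hcon w h1 hw
  obtain ⟨w1, hw1, hw1'⟩ := key y₁ hb1
  obtain ⟨w2, hw2, hw2'⟩ := key y₂ hb2
  have e1 := connectedComponentIn_eq hw1'
  have e2 := connectedComponentIn_eq hw2'
  have e3 : w2 ∈ connectedComponentIn Fᶜ w1 := hF'.subset_connectedComponentIn hw1 hFK hw2
  have e4 := connectedComponentIn_eq e3
  refine ⟨_, isPreconnected_connectedComponentIn, connectedComponentIn_subset _ _,
      mem_connectedComponentIn hy1, ?_⟩
  rw [e1, e4, ← e2]
  exact mem_connectedComponentIn hy2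

end ECRaux

/-- JOB ECR -/
theorem t_ECR : S_ECR := by
  intro F hF y₁ y₂ hy1 hy2
  constructor
  · rintro ⟨S, hS, hSF, h1, h2⟩
    exact ECRaux.part_a hF hS hSF h1 h2
  · intro h
    exact ECRaux.part_b hF hy1 hy2 h

end Pool.Agent.H212.ND
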