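import Pool.Agent.H212.ND.StmA

/-! JOB END: univalent maps near the end of a cylinder (helper441). -/

set_option autoImplicit false

open Filter Metric Set Topology
open scoped ComplexConjugate Real

namespace Pool.Agent.H212.ND

namespace ENDaux

open Function.Periodic

/-- translation by integers -/
theorem int_per {κ : ℂ → ℂ} {b : ℝ} (hp : ∀ W : ℂ, W.im < b → κ (W + 1) = κ W + 1) (k : ℤ) :
    ∀ W : ℂ, W.im < b → κ (W + k) = κ W + k := by
  induction k using Int.induction_on with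
  | zero => intro W _; simp
  | succ k ih =>
    intro W hW
    have h1 := hp (W + k) (by simpa using hW)
    have h2 := ih W hW
    push_cast at h2 ⊢
    rw [← add_assoc, h1, h2, add_assoc]
  | pred k ih =>
    intro W hW
    have h1 := hp (W + (-k - 1)) (by simpa using hW)
    have h2 := ih W hW
    push_cast at h2 ⊢
    rw [show W + (-(k : ℂ) - 1) + 1 = W + -(k : ℂ) by ring, h2] at h1
    linear_combination -h1

/-- `exp (-2πi κ (-z))` -/
noncomputable def P (κ : ℂ → ℂ) (b : ℝ) (z : ℂ) : ℂ :=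
  if -b < z.im then Complex.exp (-(2 * π * Complex.I * κ (-z))) else 0

variable {κ : ℂ → ℂ} {b : ℝ}

theorem P_per (hp : ∀ W : ℂ, W.im < b → κ (W + 1) = κ W + 1) :
    Function.Periodic (P κ b) ((1 : ℝ) : ℂ) := by
  intro z
  unfold P
  have e : (z + ((1 : ℝ) : ℂ)).im = z.im := by simp
  rw [e]
  split_ifs with h
  · have h1 := hp (-(z + 1)) (by simp; linarith)
    have e1 : -(z + 1) + 1 = -z := by ring
    rw [e1] at h1
    push_cast
    rw [h1, show -(2 * (π : ℂ) * Complex.I * (κ (-(z + 1)) + 1)) =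
      -(2 * π * Complex.I * κ (-(z + 1))) - 2 * π * Complex.I by ring,
      Complex.exp_sub, Complex.exp_two_pi_mul_I, div_one]
  · rfl

/-- the map of the punctured disc -/
noncomputable def Q (κ : ℂ → ℂ) (b : ℝ) : ℂ → ℂ := cuspFunction 1 (P κ b)

theorem Q_q (hp : ∀ W : ℂ, W.im < b → κ (W + 1) = κ W + 1) {W : ℂ} (hW : W.im < b) :
    Q κ b (qParam 1 (-W)) = Complex.exp (-(2 * π * Complex.I * κ W)) := by
  unfold Q
  rw [eq_cuspFunction one_ne_zero (P_per hp), P, if_pos (by simpa using hW), neg_neg]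

/-- points of the punctured disc -/
theorem exists_W {X : ℂ} (h0 : X ≠ 0) (hX : ‖X‖ < Real.exp (-2 * π * (-b) / 1)) :
    ∃ W : ℂ, W.im < b ∧ qParam 1 (-W) = X := by
  refine ⟨-invQParam 1 X, ?_, by rw [neg_neg]; exact qParam_right_inv one_ne_zero h0⟩
  have h1 := (norm_qParam_lt_iff one_pos (-b) (invQParam 1 X)).1
    (by rw [qParam_right_inv one_ne_zero h0]; exact hX)
  rw [Complex.neg_im]
  linarith

theorem Q_diff (hd : DifferentiableOn ℂ κ {W | W.im < b})
    (hp : ∀ W : ℂ, W.im < b → κ (W + 1) = κ W + 1) {X : ℂ} (h0 : X ≠ 0)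
    (hX : ‖X‖ < Real.exp (-2 * π * (-b) / 1)) : DifferentiableAt ℂ (Q κ b) X := by
  obtain ⟨W, hW, rfl⟩ := exists_W h0 hX
  refine differentiableAt_cuspFunction one_ne_zero (P_per hp) ?_
  have ho : IsOpen {W : ℂ | W.im < b} := isOpen_lt Complex.continuous_im continuous_const
  have h1 : DifferentiableAt ℂ κ (-(-W)) := by
    rw [neg_neg]
    exact hd.differentiableAt (ho.mem_nhds hW)
  have h2 : DifferentiableAt ℂ (fun z => κ (-z)) (-W) := h1.comp (-W) (differentiable_id.neg).differentiableAt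
  have h3 : (P κ b) =ᶠ[𝓝 (-W)] fun z => Complex.exp (-(2 * π * Complex.I * κ (-z))) := by
    have ho' : IsOpen {z : ℂ | -b < z.im} := isOpen_lt continuous_const Complex.continuous_im
    filter_upwards [ho'.mem_nhds (by simpa using hW)] with z hz
    exact if_pos hz
  refine DifferentiableAt.congr_of_eventuallyEq ?_ h3
  exact ((h2.const_mul _).neg).cexp

theorem Q_inj (hi : InjOn κ {W | W.im < b}) (hp : ∀ W : ℂ, W.im < b → κ (W + 1) = κ W + 1)
    {X X' : ℂ} (h0 : X ≠ 0) (hX : ‖X‖ < Real.exp (-2 * π * (-b) / 1)) (h0' : X' ≠ 0)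
    (hX' : ‖X'‖ < Real.exp (-2 * π * (-b) / 1)) (h : Q κ b X = Q κ b X') : X = X' := by
  obtain ⟨W, hW, rfl⟩ := exists_W h0 hX
  obtain ⟨W', hW', rfl⟩ := exists_W h0' hX'
  rw [Q_q hp hW, Q_q hp hW', Complex.exp_eq_exp_iff_exists_int] at h
  obtain ⟨k, hk⟩ := h
  have hpi := Complex.two_pi_I_ne_zero
  have h1 : κ W = κ (W' + ((-k : ℤ) : ℂ)) := by
    rw [int_per hp (-k) W' hW']
    have : (2 * (π : ℂ) * Complex.I) * (κ W - κ W' + k) = 0 := by linear_combination -hk
    rcases mul_eq_zero.1 this with h | h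
    · exact absurd h hpi
    · push_cast
      linear_combination h
  have h2 := hi hW (by simpa using hW' : (W' + ((-k : ℤ) : ℂ)).im < b) h1
  rw [h2]
  unfold qParam
  rw [Complex.exp_eq_exp_iff_exists_int]
  refine ⟨k, ?_⟩
  push_cast
  field_simp
  ring

theorem Q_ne (hp : ∀ W : ℂ, W.im < b → κ (W + 1) = κ W + 1) {X : ℂ} (h0 : X ≠ 0)
    (hX : ‖X‖ < Real.exp (-2 * π * (-b) / 1)) : Q κ b X ≠ 0 := by
  obtain ⟨W, hW, rfl⟩ := exists_W h0 hX
  rw [Q_q hp hW]
  exact Complex.exp_ne_zero _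

/-- the map is meromorphic at the puncture -/
theorem Q_mero (hd : DifferentiableOn ℂ κ {W | W.im < b}) (hi : InjOn κ {W | W.im < b})
    (hp : ∀ W : ℂ, W.im < b → κ (W + 1) = κ W + 1) : MeromorphicAt (Q κ b) 0 := by
  set r : ℝ := Real.exp (-2 * π * (-b) / 1) with hr
  have hr0 : 0 < r := Real.exp_pos _
  set X₁ : ℂ := ((r / 2 : ℝ) : ℂ) with hX₁
  have hn1 : ‖X₁‖ = r / 2 := by
    rw [hX₁, Complex.norm_real, Real.norm_of_nonneg (by positivity)]
  have h10 : X₁ ≠ 0 := by
    rw [← norm_pos_iff, hn1]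
    positivity
  set U : Set ℂ := {X | r / 4 < ‖X‖ ∧ ‖X‖ < r} with hU
  have hUo : IsOpen U := (isOpen_lt continuous_const continuous_norm).inter
    (isOpen_lt continuous_norm continuous_const)
  have hU1 : X₁ ∈ U := ⟨by rw [hn1]; linarith, by rw [hn1]; linarith⟩
  have hUne : ∀ X ∈ U, X ≠ 0 := fun X hX h => by
    have := hX.1
    rw [h, norm_zero] at this
    linarith
  have han : AnalyticAt ℂ (Q κ b) X₁ := by
    have : DifferentiableOn ℂ (Q κ b) U := fun X hX =>
      (Q_diff hd hp (hUne X hX) hX.2).differentiableWithinAt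
    exact this.analyticAt (hUo.mem_nhds hU1)
  have hnc : ¬ ∀ᶠ z in 𝓝 X₁, Q κ b z = Q κ b X₁ := by
    intro h
    have h1 : ∀ᶠ z in 𝓝 X₁, z = X₁ := by
      filter_upwards [h, hUo.mem_nhds hU1] with z hz hzU
      exact Q_inj hi hp (hUne z hzU) hzU.2 h10 (by rw [hn1]; linarith) hz
    have h2 : (𝓝[≠] X₁).NeBot := inferInstance
    have h3 : ∀ᶠ z in 𝓝[≠] X₁, False := by
      filter_upwards [nhdsWithin_le_nhds h1, self_mem_nhdsWithin] with z hz hz'
      exact hz' hz
    exact h2.ne (Filter.eventually_false_iff_eq_bot.1 h3)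
  have hmap := han.eventually_constant_or_nhds_le_map_nhds.resolve_left hnc
  have himg : Q κ b '' U ∈ 𝓝 (Q κ b X₁) := hmap (image_mem_map (hUo.mem_nhds hU1))
  obtain ⟨ε, hε, hball⟩ := Metric.mem_nhds_iff.1 himg
  -- the function `1 / (Q - c)` is bounded near `0`
  set G : ℂ → ℂ := fun X => (Q κ b X - Q κ b X₁)⁻¹ with hG
  have hfar : ∀ X : ℂ, X ≠ 0 → ‖X‖ < r / 4 → ε ≤ ‖Q κ b X - Q κ b X₁‖ := by
    intro X h0 hX
    by_contra hcon
    push Not at hcon
    obtain ⟨X', hX'U, hX'⟩ := hball (by rw [mem_ball, dist_eq_norm]; exact hcon : Q κ b X ∈ _)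
    have := Q_inj hi hp (hUne X' hX'U) hX'U.2 h0 (by linarith) hX'
    rw [this] at hX'U
    linarith [hX'U.1]
  have hGd : DifferentiableOn ℂ G (ball 0 (r / 4) \ {0}) := by
    intro X hX
    have h0 : X ≠ 0 := hX.2
    have hX1 : ‖X‖ < r / 4 := by simpa using hX.1
    have h1 := (Q_diff hd hp h0 (by linarith : ‖X‖ < r)).sub_const (Q κ b X₁)
    have h2 : Q κ b X - Q κ b X₁ ≠ 0 := by
      rw [← norm_pos_iff]
      exact lt_of_lt_of_le hε (hfar X h0 hX1)
    exact (h1.inv h2).differentiableWithinAt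
  have hGb : BddAbove (norm ∘ G '' (ball 0 (r / 4) \ {0})) := by
    refine ⟨ε⁻¹, ?_⟩
    rintro _ ⟨X, hX, rfl⟩
    have h0 : X ≠ 0 := hX.2
    have hX1 : ‖X‖ < r / 4 := by simpa using hX.1
    simp only [Function.comp_apply, hG, norm_inv]
    exact inv_anti₀ hε (hfar X h0 hX1)
  have hnb : ball (0 : ℂ) (r / 4) ∈ 𝓝 (0 : ℂ) := ball_mem_nhds _ (by positivity)
  have hrem := Complex.differentiableOn_update_limUnder_of_bddAbove hnb hGd hGb
  set G0 := Function.update G 0 (limUnder (𝓝[≠] 0) G) with hG0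
  have hG0a : AnalyticAt ℂ G0 0 := hrem.analyticAt hnb
  have h5 : MeromorphicAt (fun X => G0⁻¹ X + Q κ b X₁) 0 :=
    hG0a.meromorphicAt.inv.add (MeromorphicAt.const _ _)
  refine h5.congr ?_
  filter_upwards [self_mem_nhdsWithin] with X hX
  have hX0 : X ≠ 0 := hX
  rw [Pi.inv_apply, hG0, Function.update_of_ne hX0, hG, inv_inv, sub_add_cancel]

/-- the normal form at the puncture -/
theorem Q_form (hd : DifferentiableOn ℂ κ {W | W.im < b}) (hi : InjOn κ {W | W.im < b})
    (hp : ∀ W : ℂ, W.im < b → κ (W + 1) = κ W + 1) : ∃ (k : ℤ) (h : ℂ → ℂ), AnalyticAt ℂ h 0 ∧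
      h 0 ≠ 0 ∧ ∀ᶠ z in 𝓝[≠] (0 : ℂ), Q κ b z = z ^ k * h z := by
  have hm := Q_mero hd hi hp
  have hne : meromorphicOrderAt (Q κ b) 0 ≠ ⊤ := by
    intro h
    rw [meromorphicOrderAt_eq_top_iff] at h
    have h2 : (𝓝[≠] (0 : ℂ)).NeBot := inferInstance
    have h3 : ∀ᶠ z in 𝓝[≠] (0 : ℂ), False := by
      have hnb : ball (0 : ℂ) (Real.exp (-2 * π * (-b) / 1)) ∈ 𝓝 (0 : ℂ) :=
        ball_mem_nhds _ (Real.exp_pos _)
      filter_upwards [h, nhdsWithin_le_nhds hnb, self_mem_nhdsWithin] with z hz hzb hz0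
      exact Q_ne hp hz0 (by simpa using hzb) hz
    exact h2.ne (Filter.eventually_false_iff_eq_bot.1 h3)
  obtain ⟨k, hk⟩ := WithTop.ne_top_iff_exists.1 hne
  obtain ⟨h, h1, h2, h3⟩ := (meromorphicOrderAt_eq_int_iff hm).1 hk.symm
  refine ⟨k, h, h1, h2, ?_⟩
  filter_upwards [h3] with z hz
  rw [hz, sub_zero, smul_eq_mul]

end ENDaux

open ENDaux Function.Periodic in
theorem t_END : S_END := by
  intro κ b hd hi hp
  obtain ⟨k, h, hh, hh0, hQ⟩ := Q_form hd hi hp
  have hpi := Complex.two_pi_I_ne_zero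
  -- the logarithm of `h / h 0`
  set H : ℂ → ℂ := fun X => Complex.log (h X / h 0) with hH
  have hHc : ContinuousAt H 0 := by
    have h1 : ContinuousAt (fun X => h X / h 0) 0 := hh.continuousAt.div_const _
    refine ContinuousAt.clog h1 ?_
    rw [div_self hh0]
    exact Complex.one_mem_slitPlane
  have hH0 : H 0 = 0 := by rw [hH]; simp only []; rw [div_self hh0, Complex.log_one]
  -- a small disc
  have hcont : ∀ᶠ X in 𝓝 (0 : ℂ), ContinuousAt H X := by
    have h1 : ∀ᶠ X in 𝓝 (0 : ℂ), AnalyticAt ℂ h X := hh.eventually_analyticAt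
    have h2 : ∀ᶠ X in 𝓝 (0 : ℂ), h X / h 0 ∈ Complex.slitPlane := by
      have h3 : ContinuousAt (fun X => h X / h 0) 0 := hh.continuousAt.div_const _
      refine h3.eventually_mem (Complex.isOpen_slitPlane.mem_nhds ?_)
      rw [div_self hh0]
      exact Complex.one_mem_slitPlane
    filter_upwards [h1, h2] with X hX1 hX2
    exact (hX1.continuousAt.div_const _).clog hX2
  have hne : ∀ᶠ X in 𝓝 (0 : ℂ), h X ≠ 0 := hh.continuousAt.eventually_ne hh0
  rw [eventually_nhdsWithin_iff] at hQ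
  obtain ⟨r, hr, hball⟩ := Metric.eventually_nhds_iff.1 (hcont.and (hne.and hQ))
  -- the lower half plane
  have hqn : ∀ W : ℂ, ‖qParam 1 (-W)‖ = Real.exp (2 * π * W.im) := by
    intro W
    rw [norm_qParam]
    simp
  have hsmall : ∀ r' : ℝ, 0 < r' → ∃ Y : ℝ, ∀ W : ℂ, W.im < -Y → ‖qParam 1 (-W)‖ < r' := by
    intro r' hr'
    refine ⟨-(Real.log r' / (2 * π)), fun W hW => ?_⟩
    rw [hqn, ← Real.exp_log hr', Real.exp_lt_exp]
    rw [neg_neg, lt_div_iff₀ (by positivity)] at hW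
    linarith
  obtain ⟨Y₀, hY₀⟩ := hsmall r hr
  set Y := max Y₀ (-b) with hY
  set S : Set ℂ := {W | W.im < -Y} with hS
  have hSb : ∀ W ∈ S, W.im < b := by
    intro W hW
    have h1 : W.im < -Y := hW
    have : -b ≤ Y := le_max_right _ _
    linarith
  have hS0 : ∀ W ∈ S, W.im < -Y₀ := by
    intro W hW
    have h1 : W.im < -Y := hW
    have : Y₀ ≤ Y := le_max_left _ _
    linarith
  set D : ℂ → ℂ := fun W => -(2 * π * Complex.I * κ W) + 2 * π * Complex.I * k * W -
    Complex.log (h 0) - H (qParam 1 (-W)) with hD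
  have hDexp : ∀ W ∈ S, ∃ j : ℤ, D W = j * (2 * π * Complex.I) := by
    intro W hW
    have hn := hY₀ W (hS0 W hW)
    obtain ⟨-, h2, h3⟩ := hball (by rw [dist_zero_right]; exact hn : dist (qParam 1 (-W)) 0 < r)
    have h4 := h3 (qParam_ne_zero _)
    rw [Q_q hp (hSb W hW)] at h4
    rw [← Complex.exp_eq_one_iff]
    have e1 : Complex.exp (H (qParam 1 (-W))) = h (qParam 1 (-W)) / h 0 := by
      rw [hH]
      exact Complex.exp_log (div_ne_zero h2 hh0)
    have e2 : Complex.exp (2 * π * Complex.I * k * W) = (qParam 1 (-W) ^ k)⁻¹ := by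
      unfold qParam
      rw [← Complex.exp_int_mul, ← Complex.exp_neg]
      congr 1
      push_cast
      ring
    rw [hD]
    simp only []
    rw [Complex.exp_sub, Complex.exp_sub, Complex.exp_add, Complex.exp_log hh0, e1, h4, e2]
    have h5 : qParam 1 (-W) ^ k ≠ 0 := zpow_ne_zero _ (qParam_ne_zero _)
    field_simp
  have hDc : ContinuousOn D S := by
    intro W hW
    have ho : IsOpen {W : ℂ | W.im < b} := isOpen_lt Complex.continuous_im continuous_const
    have h1 : ContinuousAt κ W := (hd.differentiableAt (ho.mem_nhds (hSb W hW))).continuousAt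
    have h2 : ContinuousAt H (qParam 1 (-W)) :=
      (hball (by rw [dist_zero_right]; exact hY₀ W (hS0 W hW))).1
    have h3 : ContinuousAt (fun W : ℂ => H (qParam 1 (-W))) W :=
      ContinuousAt.comp (f := fun W : ℂ => qParam 1 (-W)) (g := H) h2
        (continuous_qParam.comp continuous_neg).continuousAt
    refine ContinuousAt.continuousWithinAt ?_
    exact ((((h1.const_mul _).neg).add (continuousAt_const.mul continuousAt_id)).sub
      continuousAt_const).sub h3
  have hSpre : IsPreconnected S := (convex_halfSpace_im_lt (-Y)).isPreconnected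
  have hsub : (D '' S).Subsingleton := by
    have hc : (range fun j : ℤ => (j : ℂ) * (2 * π * Complex.I)).Countable := countable_range _
    refine hc.isTotallyDisconnected _ ?_ (hSpre.image D hDc)
    rintro _ ⟨W, hW, rfl⟩
    obtain ⟨j, hj⟩ := hDexp W hW
    exact ⟨j, hj.symm⟩
  -- the order is one
  set W₀ : ℂ := -(Y + 1) * Complex.I with hW₀
  have hW₀S : W₀ ∈ S := by
    change W₀.im < -Y
    rw [hW₀]
    simp
  have hW₁S : W₀ + 1 ∈ S := by
    change (W₀ + 1).im < -Y
    have : (W₀ + 1).im = W₀.im := by simp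
    rw [this]
    exact hW₀S
  have hq1 : qParam 1 (-(W₀ + 1)) = qParam 1 (-W₀) := by
    unfold qParam
    rw [Complex.exp_eq_exp_iff_exists_int]
    refine ⟨-1, ?_⟩
    push_cast
    ring
  have hk : (k : ℂ) = 1 := by
    have h1 := hsub (mem_image_of_mem D hW₁S) (mem_image_of_mem D hW₀S)
    rw [hD] at h1
    simp only [] at h1
    rw [hq1, hp W₀ (hSb _ hW₀S)] at h1
    have h2 : (2 * (π : ℂ) * Complex.I) * ((k : ℂ) - 1) = 0 := by linear_combination h1
    rcases mul_eq_zero.1 h2 with h | h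
    · exact absurd h hpi
    · linear_combination h
  refine ⟨-(D W₀ + Complex.log (h 0)) / (2 * π * Complex.I), fun ε hε => ?_⟩
  have h6 : ∀ᶠ X in 𝓝 (0 : ℂ), ‖H X‖ < ε := by
    have := hHc.tendsto
    rw [hH0] at this
    exact (tendsto_zero_iff_norm_tendsto_zero.1 this).eventually_lt_const hε
  obtain ⟨r', hr', hb'⟩ := Metric.eventually_nhds_iff.1 h6
  obtain ⟨Y₁, hY₁⟩ := hsmall r' hr'
  refine ⟨max Y Y₁, fun W hW => ?_⟩
  have hWS : W ∈ S := by
    change W.im < -Y
    have : Y ≤ max Y Y₁ := le_max_left _ _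
    linarith
  have h7 := hb' (by
    rw [dist_zero_right]
    refine hY₁ W ?_
    have : Y₁ ≤ max Y Y₁ := le_max_right _ _
    linarith : dist (qParam 1 (-W)) 0 < r')
  have h8 := hsub (mem_image_of_mem D hWS) (mem_image_of_mem D hW₀S)
  have h9 : κ W - W - -(D W₀ + Complex.log (h 0)) / (2 * π * Complex.I) =
      -(H (qParam 1 (-W)) / (2 * π * Complex.I)) := by
    have h10 : D W = -(2 * π * Complex.I * κ W) + 2 * π * Complex.I * k * W -
      Complex.log (h 0) - H (qParam 1 (-W)) := rfl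
    rw [← h8, h10, hk]
    field_simp
    ring
  rw [h9, norm_neg, norm_div]
  have h11 : (1 : ℝ) ≤ ‖2 * (π : ℂ) * Complex.I‖ := by
    rw [norm_mul, norm_mul, Complex.norm_I, mul_one, Complex.norm_ofNat, Complex.norm_real,
      Real.norm_of_nonneg Real.pi_pos.le]
    linarith [Real.pi_gt_three]
  exact (div_le_self (norm_nonneg _) h11).trans h7.le

end Pool.Agent.H212.ND
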