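import Pool.Agent.H212.ND.StmC

/-!
# Project ND, job EQU
-/

set_option autoImplicit false

open Filter Metric Set Topology Polynomial

namespace Pool.Agent.H212.ND

open Pool.Agent.H212.MB

theorem t_EQU : S_EQU := by
  intro n
  refine ⟨?_, ?_, ?_⟩
  · intro x
    refine ⟨1, 0, one_ne_zero, by simp, fun z => ?_⟩
    rw [one_mul, add_zero, one_mul, add_zero]
    exact ⟨Iff.rfl, fun _ => rfl⟩
  · rintro x y ⟨a, b, ha, hp, h⟩
    refine ⟨a⁻¹, -(b / a), inv_ne_zero ha, ?_, fun w => ?_⟩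
    · rw [hp]
      field_simp
      ring
    · have hw : a * (a⁻¹ * w + -(b / a)) + b = w := by
        field_simp
        ring
      obtain ⟨h1, h2⟩ := h (a⁻¹ * w + -(b / a))
      rw [hw] at h1 h2
      refine ⟨h1.symm, fun hy => ?_⟩
      have h3 := h2 (fun hx => hy (h1.2 hx))
      rw [h3]
      field_simp
      ring
  · rintro x y z ⟨a, b, ha, hp, h⟩ ⟨a', b', ha', hp', h'⟩
    refine ⟨a' * a, a' * b + b', mul_ne_zero ha' ha, ?_, fun w => ?_⟩
    · rw [hp', hp]; ring
    · have e : a' * a * w + (a' * b + b') = a' * (a * w + b) + b' := by ring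
      obtain ⟨h1, h2⟩ := h w
      obtain ⟨h3, h4⟩ := h' (a * w + b)
      rw [e]
      refine ⟨h3.trans h1, fun hx => ?_⟩
      rw [h4 (fun h5 => hx (h1.1 h5)), h2 hx]
      ring

end Pool.Agent.H212.ND
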