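import Pool.Agent.H212.ND.StmT

/-! JOB FAM: the family of centred monic polynomials (helper441). -/

set_option autoImplicit false

open Filter Metric Set Topology Polynomial
open scoped ComplexConjugate

namespace Pool.Agent.H212.ND

open Pool.Agent.H212.MB

namespace FAMaux

/-- the lower part of the polynomial -/
noncomputable def low (n : ℕ) (g : ℂ[X]) (a : ℂ) : ℂ[X] :=
  ∑ j ∈ Finset.range (n - 1), C ((taylor (bb n g) g).coeff j / g.coeff n * a ^ (n - j)) * X ^ j +
    C (a * (1 - bb n g) - a ^ n / g.coeff n)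

theorem low_coeff (n : ℕ) (g : ℂ[X]) (a : ℂ) (i : ℕ) : (low n g a).coeff i =
    (if i < n - 1 then (taylor (bb n g) g).coeff i / g.coeff n * a ^ (n - i) else 0) +
      (if i = 0 then a * (1 - bb n g) - a ^ n / g.coeff n else 0) := by
  unfold low
  rw [coeff_add, finsetSum_coeff, coeff_C]
  congr 1
  simp only [coeff_C_mul, coeff_X_pow, mul_ite, mul_one, mul_zero]
  rw [Finset.sum_ite_eq (Finset.range (n - 1)) i]
  simp only [Finset.mem_range]

theorem low_degree {n : ℕ} (hn : 3 ≤ n) (g : ℂ[X]) (a : ℂ) : (low n g a).degree < n := by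
  rw [degree_lt_iff_coeff_zero]
  intro i hi
  rw [low_coeff, if_neg (by omega), if_neg (by omega), add_zero]

/-- the family -/
noncomputable def F {n : ℕ} (hn : 3 ≤ n) (g : ℂ[X]) (a : ℂ) : RMap n where
  P := X ^ n + low n g a
  Q := 1
  monic := monic_X_pow_add (low_degree hn g a)
  natDegree := by
    refine natDegree_eq_of_degree_eq_some ?_
    rw [degree_add_eq_left_of_degree_lt, degree_X_pow]
    rw [degree_X_pow]
    exact low_degree hn g a
  degree_lt := by
    rw [degree_one]
    exact_mod_cast (by omega : 0 < n)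
  coprime := isCoprime_one_right

theorem cont {n : ℕ} (hn : 3 ≤ n) (g : ℂ[X]) : Continuous (F hn g) := by
  refine continuous_induced_rng.2 ?_
  refine Continuous.prodMk (continuous_pi fun i => ?_) (continuous_pi fun i => continuous_const)
  have e : (fun a => (F hn g a).P.coeff i) = fun a => (X ^ n : ℂ[X]).coeff i +
      ((if i < n - 1 then (taylor (bb n g) g).coeff i / g.coeff n * a ^ (n - i) else 0) +
      (if i = 0 then a * (1 - bb n g) - a ^ n / g.coeff n else 0)) := by
    funext a
    rw [← low_coeff, ← coeff_add]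
    rfl
  rw [e]
  refine continuous_const.add (Continuous.add ?_ ?_)
  · split_ifs
    · fun_prop
    · exact continuous_const
  · split_ifs
    · fun_prop
    · exact continuous_const

theorem sub_coeff {n : ℕ} (hn : 3 ≤ n) {g : ℂ[X]} (hg : g.natDegree = n) (hA : g.coeff n ≠ 0) :
    (taylor (bb n g) g).coeff (n - 1) = 0 := by
  rw [taylor_coeff]
  have h1 : (hasseDeriv (n - 1) g).natDegree ≤ 1 := by
    have := natDegree_hasseDeriv_le g (n - 1)
    omega
  have h2 : hasseDeriv (n - 1) g = C (g.coeff (n - 1)) + C ((n : ℂ) * g.coeff n) * X := by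
    obtain ⟨k, rfl⟩ : ∃ k, n = k + 1 := ⟨n - 1, by omega⟩
    ext i
    rw [hasseDeriv_coeff, coeff_add, coeff_C, coeff_C_mul, coeff_X]
    rcases i with _ | _ | i
    · simp
    · simp [add_comm 1 k]
    · have : g.coeff (i + 1 + 1 + (k + 1 - 1)) = 0 := coeff_eq_zero_of_natDegree_lt (by omega)
      rw [this]
      simp
  rw [h2]
  simp only [eval_add, eval_mul, eval_C, eval_X, bb]
  have hn0 : (n : ℂ) ≠ 0 := by exact_mod_cast (by omega : n ≠ 0)
  field_simp
  ring

theorem eval_g {n : ℕ} (hn : 3 ≤ n) {g : ℂ[X]} (hg : g.natDegree = n) (hA : g.coeff n ≠ 0) (x : ℂ) :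
    g.eval (x + bb n g) = ∑ j ∈ Finset.range (n - 1), (taylor (bb n g) g).coeff j * x ^ j +
      g.coeff n * x ^ n := by
  have h1 : g.eval (x + bb n g) = (taylor (bb n g) g).eval x := (taylor_eval _ _ _).symm
  have h2 : (taylor (bb n g) g).natDegree = n := by rw [natDegree_taylor, hg]
  have h3 : (taylor (bb n g) g).coeff n = g.coeff n := by
    have := coeff_taylor_natDegree (r := bb n g) (f := g)
    rw [hg] at this
    rw [this, leadingCoeff, hg]
  obtain ⟨k, rfl⟩ : ∃ k, n = k + 1 := ⟨n - 1, by omega⟩
  rw [h1, eval_eq_sum_range, h2, Finset.sum_range_succ, Finset.sum_range_succ, h3]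
  have := sub_coeff hn hg hA
  rw [Nat.add_sub_cancel] at this ⊢
  rw [this, zero_mul, add_zero]

end FAMaux

open FAMaux in
theorem t_FAM : S_FAM := by
  intro n g c₀ c hG
  have hn := hG.n3
  have hA : g.coeff n ≠ 0 := by
    intro h
    have := hG.lead
    rw [h] at this
    simp at this
  refine ⟨F hn g, cont hn g, ?_, fun _ => rfl, fun a => ?_, fun a z ha => ?_⟩
  · change X ^ n + low n g 0 = X ^ n
    have : low n g 0 = 0 := by
      ext i
      rw [low_coeff, coeff_zero]
      have h1 : (if i < n - 1 then (taylor (bb n g) g).coeff i / g.coeff n * (0 : ℂ) ^ (n - i)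
          else 0) = 0 := by
        split_ifs
        · rw [zero_pow (by omega), mul_zero]
        · rfl
      rw [h1, zero_mul, zero_pow (by omega), zero_div, sub_zero, ite_self, add_zero]
    rw [this, add_zero]
  · change (X ^ n + low n g a).coeff (n - 1) = 0
    rw [coeff_add, low_coeff, coeff_X_pow, if_neg (by omega), if_neg (by omega), if_neg (by omega)]
    simp
  · change (X ^ n + low n g a).eval z = _
    rw [plam, eval_g hn hG.deg hA]
    unfold low
    rw [eval_add, eval_pow, eval_X, eval_add, eval_C, eval_finsetSum]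
    simp only [eval_mul, eval_C, eval_pow, eval_X]
    have e1 : ∀ j ∈ Finset.range (n - 1), (taylor (bb n g) g).coeff j / g.coeff n * a ^ (n - j) * z ^ j
        = a * (a ^ (n - 1) / g.coeff n) * ((taylor (bb n g) g).coeff j * (z / a) ^ j) := by
      intro j hj
      rw [Finset.mem_range] at hj
      have : a ^ n = a ^ (n - j) * a ^ j := by rw [← pow_add]; congr 1; omega
      have h2 : a * a ^ (n - 1) = a ^ n := by rw [← pow_succ']; congr 1; omega
      have h3 : a ^ (n - j) = a * a ^ (n - 1) / a ^ j := by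
        rw [h2, this, mul_div_cancel_right₀ _ (pow_ne_zero _ ha)]
      rw [h3, div_pow]
      ring
    rw [Finset.sum_congr rfl e1, ← Finset.mul_sum]
    have h2 : a * a ^ (n - 1) = a ^ n := by rw [← pow_succ']; congr 1; omega
    have h4 : z ^ n = a * (a ^ (n - 1) / g.coeff n) * (g.coeff n * (z / a) ^ n) := by
      rw [div_pow]
      have : a ^ n ≠ 0 := pow_ne_zero _ ha
      rw [show a * (a ^ (n - 1) / g.coeff n) * (g.coeff n * (z ^ n / a ^ n)) =
        (a * a ^ (n - 1)) * z ^ n * (g.coeff n / g.coeff n) / a ^ n from by ring, h2, div_self hA]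
      field_simp
    rw [h4, ← h2]
    ring

end Pool.Agent.H212.ND
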