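import Pool.Agent.H212.ND.StmN

/-!
# JOB FAT: Fatou coordinates for a map near infinity (helper100)
-/

set_option autoImplicit false

open Filter Metric Set Topology

namespace Pool.Agent.H212.ND

namespace FATaux

/-! ### the sector -/

/-- the function which defines the sector -/
def sf (v : ℂ) : ℝ := v.re + |v.im|

theorem mem_Sec {R : ℝ} {v : ℂ} : v ∈ Sec R ↔ R < sf v := Iff.rfl

theorem re_im_le (z : ℂ) : |z.re| + |z.im| ≤ 3 / 2 * ‖z‖ := by
  have h1 : ‖z‖ ^ 2 = z.re ^ 2 + z.im ^ 2 := by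
    rw [Complex.sq_norm, Complex.normSq_apply]
    ring
  have h2 : (|z.re| + |z.im|) ^ 2 ≤ (3 / 2 * ‖z‖) ^ 2 := by
    have h3 := sq_abs z.re
    have h4 := sq_abs z.im
    nlinarith [sq_nonneg (|z.re| - |z.im|), sq_nonneg z.re, sq_nonneg z.im]
  exact abs_le_of_sq_le_sq' h2 (by positivity) |>.2

theorem sf_lip (v w : ℂ) : sf v ≤ sf w + 3 / 2 * ‖v - w‖ := by
  have h1 := re_im_le (v - w)
  have h2 : v.re - w.re ≤ |(v - w).re| := by
    rw [Complex.sub_re]
    exact le_abs_self _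
  have h3 : |v.im| - |w.im| ≤ |(v - w).im| := by
    rw [Complex.sub_im]
    exact abs_sub_abs_le_abs_sub _ _
  unfold sf
  linarith

theorem sf_add (v : ℂ) (t : ℝ) : sf (v + t) = sf v + t := by
  unfold sf
  rw [Complex.add_re, Complex.add_im, Complex.ofReal_re, Complex.ofReal_im, add_zero]
  ring

theorem sf_le (v : ℂ) : sf v ≤ 3 / 2 * ‖v‖ := by
  have h := sf_lip v 0
  unfold sf at h ⊢
  simpa using h

theorem norm_add_ge {v : ℂ} (hv : 0 < sf v) {t : ℝ} (ht : 0 ≤ t) :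
    (‖v‖ + t) / 3 ≤ ‖v + t‖ := by
  have h1 : ‖v‖ ^ 2 = v.re ^ 2 + v.im ^ 2 := by
    rw [Complex.sq_norm, Complex.normSq_apply]
    ring
  have h2 : ‖v + t‖ ^ 2 = (v.re + t) ^ 2 + v.im ^ 2 := by
    rw [Complex.sq_norm, Complex.normSq_apply, Complex.add_re, Complex.add_im,
      Complex.ofReal_re, Complex.ofReal_im]
    ring
  have h0 : 0 ≤ ‖v‖ := norm_nonneg v
  have h3 : -(3 / 4 * ‖v‖) ≤ v.re := by
    by_contra hc
    push Not at hc
    have h4 : -v.re < |v.im| := by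
      unfold sf at hv
      linarith
    have h5 : (3 / 4 * ‖v‖) ^ 2 < v.re ^ 2 := by
      nlinarith
    have h6 : v.re ^ 2 < v.im ^ 2 := by
      have h7 := sq_abs v.im
      nlinarith
    nlinarith
  have h8 : ((‖v‖ + t) / 3) ^ 2 ≤ ‖v + t‖ ^ 2 := by
    rw [h2]
    nlinarith [sq_nonneg (‖v‖ - t), mul_nonneg h0 ht]
  exact abs_le_of_sq_le_sq' h8 (norm_nonneg _) |>.2

theorem isOpen_Sec (R : ℝ) : IsOpen (Sec R) := by
  refine isOpen_lt continuous_const ?_
  exact Complex.continuous_re.add Complex.continuous_im.abs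

theorem slit {R : ℝ} (hR : 0 ≤ R) {v : ℂ} (hv : v ∈ Sec R) : v ∈ Complex.slitPlane := by
  rw [mem_Sec] at hv
  unfold sf at hv
  by_cases h : v.im = 0
  · left
    rw [h, abs_zero] at hv
    linarith
  · right
    exact h

/-! ### the data -/

/-- the hypotheses -/
structure Dat (G : ℂ → ℂ) (α : ℝ) (γ : ℂ) (R₀ B : ℝ) : Prop where
  α0 : 0 < α
  R0 : 0 < R₀
  B0 : 0 < B
  d : DifferentiableOn ℂ G {v | R₀ < ‖v‖}
  γB : ‖γ‖ ≤ B
  h1 : ∀ v : ℂ, R₀ < ‖v‖ → ‖G v - v - α‖ ≤ B / ‖v‖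
  h2 : ∀ v : ℂ, R₀ < ‖v‖ → ‖G v - v - α - γ / v‖ ≤ B / ‖v‖ ^ 2

/-- `R` is large -/
structure Big (α R₀ B R : ℝ) : Prop where
  b1 : 2 * R₀ < R
  b2 : 12 * B ≤ α * R
  b3 : 6 * α ≤ R

theorem Big.mono {α R₀ B R R' : ℝ} (h : Big α R₀ B R) (hα : 0 < α) (hR : R ≤ R') :
    Big α R₀ B R' := by
  refine ⟨by linarith [h.b1], ?_, by linarith [h.b3]⟩
  nlinarith [h.b2]

section

variable {G : ℂ → ℂ} {α : ℝ} {γ : ℂ} {R₀ B R : ℝ}

theorem Big.pos (hD : Dat G α γ R₀ B) (hR : Big α R₀ B R) : 0 < R := by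
  linarith [hR.b1, hD.R0]

theorem norm_gt {v : ℂ} (hv : v ∈ Sec R) : 2 / 3 * R < ‖v‖ := by
  have h1 := sf_le v
  rw [mem_Sec] at hv
  linarith

theorem R0_lt (hD : Dat G α γ R₀ B) (hR : Big α R₀ B R) {v : ℂ} (hv : v ∈ Sec R) : R₀ < ‖v‖ := by
  have := norm_gt hv
  linarith [hR.b1, hD.R0]

theorem step_le (hD : Dat G α γ R₀ B) (hR : Big α R₀ B R) {v : ℂ} (hv : v ∈ Sec R) :
    ‖G v - v - α‖ ≤ α / 8 := by
  have h1 := norm_gt hv
  have h2 := hD.h1 v (R0_lt hD hR hv)
  have h3 := hR.pos hD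
  refine h2.trans ?_
  rw [div_le_iff₀ (by linarith)]
  have h4 := hR.b2
  have h5 := hD.α0
  nlinarith

theorem sf_G (hD : Dat G α γ R₀ B) (hR : Big α R₀ B R) {v : ℂ} (hv : v ∈ Sec R) :
    sf v + α / 2 ≤ sf (G v) := by
  have h1 := step_le hD hR hv
  have h2 := sf_lip (v + α) (G v)
  rw [sf_add] at h2
  have h3 : ‖v + α - G v‖ = ‖G v - v - α‖ := by
    rw [← norm_neg]
    congr 1
    ring
  rw [h3] at h2
  have h5 := hD.α0
  linarith

theorem mapsTo (hD : Dat G α γ R₀ B) (hR : Big α R₀ B R) : MapsTo G (Sec R) (Sec R) := by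
  intro v hv
  have h1 := sf_G hD hR hv
  rw [mem_Sec] at hv ⊢
  linarith [hD.α0]

theorem iter_mem (hD : Dat G α γ R₀ B) (hR : Big α R₀ B R) {v : ℂ} (hv : v ∈ Sec R) (m : ℕ) :
    G^[m] v ∈ Sec R := (mapsTo hD hR).iterate m hv

theorem iter_near (hD : Dat G α γ R₀ B) (hR : Big α R₀ B R) {v : ℂ} (hv : v ∈ Sec R) (m : ℕ) :
    ‖G^[m] v - v - ((m * α : ℝ) : ℂ)‖ ≤ m * α / 8 := by
  induction m with
  | zero => simp
  | succ m ih =>
    rw [Function.iterate_succ_apply']
    have h1 := step_le hD hR (iter_mem hD hR hv m)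
    have e : G (G^[m] v) - v - (((m + 1 : ℕ) * α : ℝ) : ℂ) =
        (G (G^[m] v) - G^[m] v - α) + (G^[m] v - v - ((m * α : ℝ) : ℂ)) := by
      push_cast
      ring
    have e6 : ((m + 1 : ℕ) : ℝ) * α / 8 = m * α / 8 + α / 8 := by
      push_cast
      ring
    rw [e, e6]
    refine (norm_add_le _ _).trans ?_
    linarith

theorem iter_norm (hD : Dat G α γ R₀ B) (hR : Big α R₀ B R) {v : ℂ} (hv : v ∈ Sec R) (m : ℕ) :
    (‖v‖ + m * α) / 6 ≤ ‖G^[m] v‖ := by
  have h0 : 0 < sf v := by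
    rw [mem_Sec] at hv
    linarith [hR.pos hD]
  have h3 : (0 : ℝ) ≤ m * α := by
    have := hD.α0
    positivity
  have h1 := norm_add_ge h0 h3
  have h2 := iter_near hD hR hv m
  have h4 : ‖v + ((m * α : ℝ) : ℂ)‖ ≤ ‖G^[m] v‖ + ‖G^[m] v - v - ((m * α : ℝ) : ℂ)‖ := by
    have e : v + ((m * α : ℝ) : ℂ) = G^[m] v - (G^[m] v - v - ((m * α : ℝ) : ℂ)) := by ring
    rw [e]
    exact norm_sub_le _ _
  have h5 := norm_nonneg v
  linarith

theorem iter_re (hD : Dat G α γ R₀ B) (hR : Big α R₀ B R) {v : ℂ} (hv : v ∈ Sec R) (m : ℕ) :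
    v.re + m * α / 2 ≤ (G^[m] v).re := by
  have h2 := iter_near hD hR hv m
  have h3 := (Complex.abs_re_le_norm (G^[m] v - v - ((m * α : ℝ) : ℂ))).trans h2
  rw [abs_le] at h3
  have h4 := h3.1
  rw [Complex.sub_re, Complex.sub_re, Complex.ofReal_re] at h4
  have : (0 : ℝ) ≤ m * α := by
    have := hD.α0
    positivity
  linarith

/-! ### the coordinate -/

/-- the leading part of the coordinate -/
noncomputable def uu (α : ℝ) (γ : ℂ) (v : ℂ) : ℂ := v / α - γ / α ^ 2 * Complex.log v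

/-- the error of the leading part -/
noncomputable def ww (G : ℂ → ℂ) (α : ℝ) (γ : ℂ) (v : ℂ) : ℂ := uu α γ (G v) - uu α γ v - 1

/-- the correction -/
noncomputable def DD (G : ℂ → ℂ) (α : ℝ) (γ : ℂ) (v : ℂ) : ℂ := ∑' m : ℕ, ww G α γ (G^[m] v)

/-- the coordinate -/
noncomputable def Ph (G : ℂ → ℂ) (α : ℝ) (γ : ℂ) (v : ℂ) : ℂ := uu α γ v + DD G α γ v

theorem log_step (hD : Dat G α γ R₀ B) (hR : Big α R₀ B R) {v : ℂ} (hv : v ∈ Sec R) :
    ‖Complex.log (G v) - Complex.log v - (G v - v) / v‖ ≤ 8 * α ^ 2 / ‖v‖ ^ 2 := by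
  have hα := hD.α0
  have h1 := step_le hD hR hv
  have hn := norm_gt hv
  have hb := hR.b3
  have hv0 : 0 < ‖v‖ := by linarith [hR.pos hD]
  have hvne : v ≠ 0 := norm_pos_iff.1 hv0
  have hδ : ‖G v - v‖ ≤ 2 * α := by
    have e : G v - v = (G v - v - α) + α := by ring
    rw [e]
    refine (norm_add_le _ _).trans ?_
    rw [Complex.norm_real, Real.norm_eq_abs, abs_of_pos hα]
    linarith
  -- the segment
  have hseg : ∀ w ∈ segment ℝ v (G v), w ∈ Sec R ∧ ‖w - v‖ ≤ ‖G v - v‖ := by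
    intro w hw
    rw [segment_eq_image'] at hw
    obtain ⟨t, ⟨ht0, ht1⟩, rfl⟩ := hw
    have e1 : v + t • (G v - v) - v = t • (G v - v) := by ring
    have e2 : ‖v + t • (G v - v) - v‖ ≤ ‖G v - v‖ := by
      rw [e1, norm_smul, Real.norm_eq_abs, abs_of_nonneg ht0]
      have := norm_nonneg (G v - v)
      nlinarith
    refine ⟨?_, e2⟩
    have h3 := sf_lip (v + ((t * α : ℝ) : ℂ)) (v + t • (G v - v))
    rw [sf_add] at h3
    have e3 : v + ((t * α : ℝ) : ℂ) - (v + t • (G v - v)) = -(t • (G v - v - α)) := by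
      rw [Complex.real_smul, Complex.real_smul]
      push_cast
      ring
    rw [e3, norm_neg, norm_smul, Real.norm_eq_abs, abs_of_nonneg ht0] at h3
    have h4 : t * ‖G v - v - α‖ ≤ t * (α / 8) := mul_le_mul_of_nonneg_left h1 ht0
    have h5 : 0 ≤ t * α := by positivity
    rw [mem_Sec] at hv ⊢
    linarith
  have hge : ∀ w ∈ segment ℝ v (G v), ‖v‖ / 2 ≤ ‖w‖ := by
    intro w hw
    have h3 := (hseg w hw).2
    have h4 := norm_sub_norm_le v w
    rw [norm_sub_rev] at h4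
    linarith
  have key := (convex_segment (𝕜 := ℝ) v (G v)).norm_image_sub_le_of_norm_hasDerivWithin_le
    (f := fun w => Complex.log w - w / v) (f' := fun w => w⁻¹ - 1 / v)
    (C := 4 * α / ‖v‖ ^ 2) (fun w hw => ?_) (fun w hw => ?_) (left_mem_segment ℝ v (G v))
    (right_mem_segment ℝ v (G v))
  · have e4 : Complex.log (G v) - G v / v - (Complex.log v - v / v) =
        Complex.log (G v) - Complex.log v - (G v - v) / v := by
      rw [sub_div]
      ring
    rw [e4] at key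
    refine key.trans ?_
    have h6 : 4 * α / ‖v‖ ^ 2 * ‖G v - v‖ ≤ 4 * α / ‖v‖ ^ 2 * (2 * α) :=
      mul_le_mul_of_nonneg_left hδ (by positivity)
    refine h6.trans (le_of_eq ?_)
    ring
  · have hw1 := slit (hR.pos hD).le (hseg w hw).1
    exact ((Complex.hasDerivAt_log hw1).sub ((hasDerivAt_id w).div_const v)).hasDerivWithinAt
  · have hw2 := hge w hw
    have hw0 : 0 < ‖w‖ := by linarith
    have hwne : w ≠ 0 := norm_pos_iff.1 hw0
    have e5 : w⁻¹ - 1 / v = (v - w) / (w * v) := by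
      field_simp
    rw [e5, norm_div, norm_mul, div_le_div_iff₀ (by positivity) (by positivity)]
    have h7 := (hseg w hw).2
    rw [norm_sub_rev] at h7
    have h8 : ‖v - w‖ ≤ 2 * α := h7.trans hδ
    have h9 : ‖v - w‖ * ‖v‖ ^ 2 ≤ 2 * α * ‖v‖ ^ 2 := mul_le_mul_of_nonneg_right h8 (by positivity)
    have h10 : 2 * α * ‖v‖ ^ 2 ≤ 4 * α * (‖w‖ * ‖v‖) := by
      nlinarith [mul_nonneg (mul_pos hα hv0).le (sub_nonneg.2 hw2)]
    exact h9.trans h10

/-- the constant in the bound for `ww` -/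
noncomputable def C2 (α B : ℝ) : ℝ := B / α + B * (8 * α ^ 2 + B) / α ^ 2

theorem C2_pos (hD : Dat G α γ R₀ B) : 0 < C2 α B := by
  have := hD.α0
  have := hD.B0
  unfold C2
  positivity

theorem ww_le (hD : Dat G α γ R₀ B) (hR : Big α R₀ B R) {v : ℂ} (hv : v ∈ Sec R) :
    ‖ww G α γ v‖ ≤ C2 α B / ‖v‖ ^ 2 := by
  have hα := hD.α0
  have hB := hD.B0
  have hn := norm_gt hv
  have hv0 : 0 < ‖v‖ := by linarith [hR.pos hD]
  have hvne : v ≠ 0 := norm_pos_iff.1 hv0
  have hαne : (α : ℂ) ≠ 0 := by exact_mod_cast hα.ne'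
  have h1 := log_step hD hR hv
  have h2 := hD.h1 v (R0_lt hD hR hv)
  have h3 := hD.h2 v (R0_lt hD hR hv)
  have e : ww G α γ v = (G v - v - α - γ / v) / α - γ / α ^ 2 *
      ((Complex.log (G v) - Complex.log v - (G v - v) / v) + (G v - v - α) / v) := by
    unfold ww uu
    field_simp
    ring
  have h4 : ‖(G v - v - α - γ / v) / α‖ ≤ B / α / ‖v‖ ^ 2 := by
    rw [norm_div, Complex.norm_real, Real.norm_eq_abs, abs_of_pos hα, div_right_comm]
    exact div_le_div_of_nonneg_right h3 hα.le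
  have h5 : ‖(G v - v - α) / v‖ ≤ B / ‖v‖ ^ 2 := by
    rw [norm_div, div_le_iff₀ hv0]
    refine h2.trans (le_of_eq ?_)
    field_simp
  have h6 : ‖γ / α ^ 2‖ ≤ B / α ^ 2 := by
    rw [norm_div, norm_pow, Complex.norm_real, Real.norm_eq_abs, abs_of_pos hα]
    exact div_le_div_of_nonneg_right hD.γB (by positivity)
  rw [e]
  refine (norm_sub_le _ _).trans ?_
  rw [norm_mul]
  have h7 : ‖(Complex.log (G v) - Complex.log v - (G v - v) / v) + (G v - v - α) / v‖ ≤
      (8 * α ^ 2 + B) / ‖v‖ ^ 2 := by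
    refine (norm_add_le _ _).trans ?_
    rw [add_div]
    exact add_le_add h1 h5
  have h8 := mul_le_mul h6 h7 (norm_nonneg _) (by positivity)
  have e2 : C2 α B / ‖v‖ ^ 2 = B / α / ‖v‖ ^ 2 + B / α ^ 2 * ((8 * α ^ 2 + B) / ‖v‖ ^ 2) := by
    unfold C2
    ring
  rw [e2]
  exact add_le_add h4 h8

/-! ### the series -/

theorem sum_range_le {x : ℝ} (hα : 0 < α) (hx : 2 * α ≤ x) (n : ℕ) :
    ∑ m ∈ Finset.range n, 1 / (x + m * α) ^ 2 ≤ 1 / α * (1 / (x - α) - 1 / (x - α + n * α)) := by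
  induction n with
  | zero => simp
  | succ n ih =>
    rw [Finset.sum_range_succ]
    have h1 : 0 < x - α + n * α := by
      have : (0 : ℝ) ≤ n * α := by positivity
      linarith
    have h2 : 0 < x + n * α := by linarith
    have e1 : x - α + ((n + 1 : ℕ) : ℝ) * α = x + n * α := by
      push_cast
      ring
    rw [e1]
    have h3 : 1 / (x + n * α) ^ 2 ≤ 1 / α * (1 / (x - α + n * α) - 1 / (x + n * α)) := by
      have e2 : 1 / α * (1 / (x - α + n * α) - 1 / (x + n * α)) =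
          1 / ((x - α + n * α) * (x + n * α)) := by
        rw [div_sub_div _ _ h1.ne' h2.ne']
        have e5 : 1 * (x + n * α) - (x - α + n * α) * 1 = α := by ring
        rw [e5, one_div_mul_eq_div, div_right_comm, div_self hα.ne']
      rw [e2]
      refine one_div_le_one_div_of_le (by positivity) ?_
      nlinarith
    have e3 : 1 / α * (1 / (x - α) - 1 / (x + n * α)) =
        1 / α * (1 / (x - α) - 1 / (x - α + n * α)) +
          1 / α * (1 / (x - α + n * α) - 1 / (x + n * α)) := by ring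
    rw [e3]
    exact add_le_add ih h3

theorem sum_range_le' {x : ℝ} (hα : 0 < α) (hx : 2 * α ≤ x) (n : ℕ) :
    ∑ m ∈ Finset.range n, 1 / (x + m * α) ^ 2 ≤ 2 / α / x := by
  refine (sum_range_le hα hx n).trans ?_
  have h0 : 0 < x := by linarith
  have h1 : 0 < x - α := by linarith
  have h2 : 0 < x - α + n * α := by
    have : (0 : ℝ) ≤ n * α := by positivity
    linarith
  have h3 : 1 / (x - α) ≤ 2 / x := by
    rw [div_le_div_iff₀ h1 h0]
    linarith
  have h4 : 0 ≤ 1 / (x - α + n * α) := by positivity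
  have e : 2 / α / x = 1 / α * (2 / x) := by ring
  rw [e]
  exact mul_le_mul_of_nonneg_left (by linarith) (by positivity)

theorem sum_inv {x : ℝ} (hα : 0 < α) (hx : 2 * α ≤ x) :
    Summable (fun m : ℕ => 1 / (x + m * α) ^ 2) ∧ ∑' m : ℕ, 1 / (x + m * α) ^ 2 ≤ 2 / α / x :=
  ⟨summable_of_sum_range_le (fun _ => by positivity) (sum_range_le' hα hx),
    Real.tsum_le_of_sum_range_le (fun _ => by positivity) (sum_range_le' hα hx)⟩

theorem two_le (hD : Dat G α γ R₀ B) (hR : Big α R₀ B R) {v : ℂ} (hv : v ∈ Sec R) :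
    2 * α ≤ ‖v‖ := by
  have := norm_gt hv
  linarith [hR.b3, hD.α0]

theorem term_le (hD : Dat G α γ R₀ B) (hR : Big α R₀ B R) {v : ℂ} (hv : v ∈ Sec R) {x : ℝ}
    (hx0 : 0 < x) (hx : x ≤ ‖v‖) (m : ℕ) :
    ‖ww G α γ (G^[m] v)‖ ≤ 36 * C2 α B * (1 / (x + m * α) ^ 2) := by
  have h1 := ww_le hD hR (iter_mem hD hR hv m)
  have h2 := iter_norm hD hR hv m
  have hC := C2_pos hD
  have h3 : (0 : ℝ) ≤ m * α := by
    have := hD.α0
    positivity
  have h4 : (x + m * α) / 6 ≤ ‖G^[m] v‖ := by linarith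
  have h5 : 0 < (x + m * α) / 6 := by positivity
  refine h1.trans ?_
  have h6 : C2 α B / ‖G^[m] v‖ ^ 2 ≤ C2 α B / ((x + m * α) / 6) ^ 2 :=
    div_le_div_of_nonneg_left hC.le (by positivity) (pow_le_pow_left₀ h5.le h4 2)
  refine h6.trans (le_of_eq ?_)
  field_simp
  norm_num

theorem summable_ww (hD : Dat G α γ R₀ B) (hR : Big α R₀ B R) {v : ℂ} (hv : v ∈ Sec R) :
    Summable (fun m : ℕ => ww G α γ (G^[m] v)) := by
  have h2 := two_le hD hR hv
  have hα := hD.α0
  refine Summable.of_norm_bounded ((sum_inv hα h2).1.mul_left (36 * C2 α B)) fun m => ?_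
  exact term_le hD hR hv (by linarith) le_rfl m

theorem DD_le (hD : Dat G α γ R₀ B) (hR : Big α R₀ B R) {v : ℂ} (hv : v ∈ Sec R) :
    ‖DD G α γ v‖ ≤ 72 * C2 α B / α / ‖v‖ := by
  have h2 := two_le hD hR hv
  have hα := hD.α0
  have hC := C2_pos hD
  have h3 := sum_inv hα h2
  unfold DD
  refine (tsum_of_norm_bounded (h3.1.mul_left (36 * C2 α B)).hasSum fun m =>
    term_le hD hR hv (by linarith) le_rfl m).trans ?_
  rw [tsum_mul_left]
  refine (mul_le_mul_of_nonneg_left h3.2 (by positivity)).trans (le_of_eq ?_)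
  ring

theorem Ph_G (hD : Dat G α γ R₀ B) (hR : Big α R₀ B R) {v : ℂ} (hv : v ∈ Sec R) :
    Ph G α γ (G v) = Ph G α γ v + 1 := by
  have h1 := (summable_ww hD hR hv).tsum_eq_zero_add
  have h2 : ∀ m : ℕ, G^[m + 1] v = G^[m] (G v) := fun m => Function.iterate_succ_apply G m v
  simp only [h2] at h1
  unfold Ph DD
  rw [h1]
  simp only [Function.iterate_zero, id_eq]
  unfold ww
  ring

theorem diff_iter (hD : Dat G α γ R₀ B) (hR : Big α R₀ B R) (m : ℕ) :
    DifferentiableOn ℂ (fun v => G^[m] v) (Sec R) := by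
  have hG : DifferentiableOn ℂ G (Sec R) := hD.d.mono fun v hv => R0_lt hD hR hv
  induction m with
  | zero => exact differentiableOn_id
  | succ m ih =>
    simp only [Function.iterate_succ_apply']
    exact hG.comp ih fun v hv => iter_mem hD hR hv m

theorem diff_uu (hD : Dat G α γ R₀ B) (hR : Big α R₀ B R) :
    DifferentiableOn ℂ (uu α γ) (Sec R) := by
  intro v hv
  have h1 := (Complex.hasDerivAt_log (slit (hR.pos hD).le hv)).differentiableAt
  unfold uu
  exact (((differentiableAt_id).div_const _).sub (h1.const_mul _)).differentiableWithinAt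

theorem diff_ww (hD : Dat G α γ R₀ B) (hR : Big α R₀ B R) (m : ℕ) :
    DifferentiableOn ℂ (fun v => ww G α γ (G^[m] v)) (Sec R) := by
  have h1 := (diff_uu hD hR).comp (diff_iter hD hR (m + 1)) fun v hv => iter_mem hD hR hv (m + 1)
  have h2 := (diff_uu hD hR).comp (diff_iter hD hR m) fun v hv => iter_mem hD hR hv m
  have h3 := (h1.sub h2).sub_const 1
  refine h3.congr fun v hv => ?_
  unfold ww
  simp only [Function.comp_apply, Function.iterate_succ_apply', Pi.sub_apply]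

theorem diff_DD (hD : Dat G α γ R₀ B) (hR : Big α R₀ B R) :
    DifferentiableOn ℂ (DD G α γ) (Sec R) := by
  have hα := hD.α0
  have h2 : 2 * α ≤ 2 / 3 * R := by linarith [hR.b3]
  unfold DD
  refine Complex.differentiableOn_tsum_of_summable_norm
    ((sum_inv hα h2).1.mul_left (36 * C2 α B)) (diff_ww hD hR) (isOpen_Sec R) fun m v hv => ?_
  exact term_le hD hR hv (by linarith) (norm_gt hv).le m

theorem diff_Ph (hD : Dat G α γ R₀ B) (hR : Big α R₀ B R) :
    DifferentiableOn ℂ (Ph G α γ) (Sec R) := (diff_uu hD hR).add (diff_DD hD hR)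

/-! ### derivatives -/

/-- `Ph` minus the linear part -/
noncomputable def EE (G : ℂ → ℂ) (α : ℝ) (γ : ℂ) (v : ℂ) : ℂ := Ph G α γ v - v / α

theorem diff_EE (hD : Dat G α γ R₀ B) (hR : Big α R₀ B R) :
    DifferentiableOn ℂ (EE G α γ) (Sec R) := (diff_Ph hD hR).sub (differentiableOn_id.div_const _)

/-- the constant in the bound for the derivative -/
noncomputable def K1 (α B : ℝ) : ℝ := 36 * C2 α B / α ^ 2 + 2 * B / α ^ 2

theorem deriv_EE (hD : Dat G α γ R₀ B) (hR : Big α R₀ B R) {v : ℂ} (hv : v ∈ Sec (2 * R)) :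
    ‖deriv (EE G α γ) v‖ ≤ K1 α B / R := by
  have hα := hD.α0
  have hB := hD.B0
  have hC := C2_pos hD
  have hRp := hR.pos hD
  have hR6 := hR.b3
  have hv2 : v ∈ Sec R := by
    rw [mem_Sec] at hv ⊢
    linarith
  have hsl := slit hRp.le hv2
  have hball : ∀ w : ℂ, ‖w - v‖ ≤ R / 2 → w ∈ Sec R := by
    intro w hw
    have h1 := sf_lip v w
    rw [norm_sub_rev] at h1
    rw [mem_Sec] at hv ⊢
    linarith
  have hd : DifferentiableAt ℂ (DD G α γ) v :=
    (diff_DD hD hR).differentiableAt ((isOpen_Sec R).mem_nhds hv2)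
  have e : deriv (EE G α γ) v = deriv (DD G α γ) v - γ / α ^ 2 * v⁻¹ := by
    have h2 : HasDerivAt (EE G α γ) (deriv (DD G α γ) v - γ / α ^ 2 * v⁻¹) v := by
      have h3 := hd.hasDerivAt.sub ((Complex.hasDerivAt_log hsl).const_mul (γ / (α : ℂ) ^ 2))
      refine h3.congr_of_eventuallyEq (Eventually.of_forall fun w => ?_)
      unfold EE Ph uu
      simp only [Pi.sub_apply]
      ring
    exact h2.deriv
  have h4 : ‖deriv (DD G α γ) v‖ ≤ 108 * C2 α B / α / R / (R / 2) := by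
    refine Complex.norm_deriv_le_of_forall_mem_sphere_norm_le (by positivity) ?_ ?_
    · refine DifferentiableOn.diffContOnCl ?_
      rw [closure_ball _ (by positivity)]
      refine (diff_DD hD hR).mono fun w hw => hball w ?_
      rw [mem_closedBall, dist_eq_norm] at hw
      exact hw
    · intro w hw
      rw [mem_sphere, dist_eq_norm] at hw
      have h5 := DD_le hD hR (hball w hw.le)
      have h6 := norm_gt (hball w hw.le)
      refine h5.trans ?_
      rw [div_le_div_iff₀ (by linarith) hRp]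
      have h7 : 0 ≤ C2 α B / α := by positivity
      have e7 : 72 * C2 α B / α * R = (C2 α B / α) * (72 * R) := by ring
      have e8 : 108 * C2 α B / α * ‖w‖ = (C2 α B / α) * (108 * ‖w‖) := by ring
      rw [e7, e8]
      exact mul_le_mul_of_nonneg_left (by linarith) h7
  have h8 : 108 * C2 α B / α / R / (R / 2) ≤ 36 * C2 α B / α ^ 2 / R := by
    have e9 : 108 * C2 α B / α / R / (R / 2) = (216 * C2 α B / α / R) * (1 / R) := by
      field_simp
      norm_num
    have e10 : 36 * C2 α B / α ^ 2 / R = (216 * C2 α B / α / R) * (1 / (6 * α)) := by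
      field_simp
      norm_num
    rw [e9, e10]
    exact mul_le_mul_of_nonneg_left (one_div_le_one_div_of_le (by positivity) hR6) (by positivity)
  have h9 : ‖γ / (α : ℂ) ^ 2 * v⁻¹‖ ≤ 2 * B / α ^ 2 / R := by
    have h6 := norm_gt hv2
    have h6' : 0 < ‖v‖ := by linarith
    rw [norm_mul, norm_div, norm_pow, Complex.norm_real, Real.norm_eq_abs, abs_of_pos hα, norm_inv]
    have h10 : ‖γ‖ / α ^ 2 ≤ B / α ^ 2 := div_le_div_of_nonneg_right hD.γB (by positivity)
    have h11 : ‖v‖⁻¹ ≤ 2 / R := by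
      rw [inv_eq_one_div, div_le_div_iff₀ h6' hRp]
      linarith
    refine (mul_le_mul h10 h11 (by positivity) (by positivity)).trans (le_of_eq ?_)
    ring
  rw [e]
  refine (norm_sub_le _ _).trans ?_
  have e11 : K1 α B / R = 36 * C2 α B / α ^ 2 / R + 2 * B / α ^ 2 / R := by
    unfold K1
    ring
  rw [e11]
  exact add_le_add (h4.trans h8) h9

/-- the error term of `G` -/
noncomputable def hh (G : ℂ → ℂ) (α : ℝ) (v : ℂ) : ℂ := G v - v - α

theorem diff_hh (hD : Dat G α γ R₀ B) (hR : Big α R₀ B R) : DifferentiableOn ℂ (hh G α) (Sec R) := by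
  have hG : DifferentiableOn ℂ G (Sec R) := hD.d.mono fun v hv => R0_lt hD hR hv
  exact (hG.sub differentiableOn_id).sub_const _

theorem deriv_hh (hD : Dat G α γ R₀ B) (hR : Big α R₀ B R) {v : ℂ} (hv : v ∈ Sec (2 * R)) :
    ‖deriv (hh G α) v‖ ≤ 1 / 2 := by
  have hα := hD.α0
  have hB := hD.B0
  have hRp := hR.pos hD
  have hR6 := hR.b3
  have hball : ∀ w : ℂ, ‖w - v‖ ≤ R / 2 → w ∈ Sec R := by
    intro w hw
    have h1 := sf_lip v w
    rw [norm_sub_rev] at h1
    rw [mem_Sec] at hv ⊢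
    linarith
  have h4 : ‖deriv (hh G α) v‖ ≤ α / 8 / (R / 2) := by
    refine Complex.norm_deriv_le_of_forall_mem_sphere_norm_le (by positivity) ?_ ?_
    · refine DifferentiableOn.diffContOnCl ?_
      rw [closure_ball _ (by positivity)]
      refine (diff_hh hD hR).mono fun w hw => hball w ?_
      rw [mem_closedBall, dist_eq_norm] at hw
      exact hw
    · intro w hw
      rw [mem_sphere, dist_eq_norm] at hw
      exact step_le hD hR (hball w hw.le)
  refine h4.trans ?_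
  rw [div_le_iff₀ (by positivity)]
  linarith

theorem inj_G (hD : Dat G α γ R₀ B) (hR : Big α R₀ B R) : InjOn G (Sec (3 * R)) := by
  intro v hv v' hv' h
  have hα := hD.α0
  have hRp := hR.pos hD
  have hR6 := hR.b3
  have hv2 : v ∈ Sec R := by
    rw [mem_Sec] at hv ⊢
    linarith
  have hv2' : v' ∈ Sec R := by
    rw [mem_Sec] at hv' ⊢
    linarith
  have e : v' - v = hh G α v - hh G α v' := by
    unfold hh
    rw [h]
    ring
  have h1 : ‖v' - v‖ ≤ α / 4 := by
    rw [e]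
    refine (norm_sub_le _ _).trans ?_
    have h2 : ‖hh G α v‖ ≤ α / 8 := step_le hD hR hv2
    have h3 : ‖hh G α v'‖ ≤ α / 8 := step_le hD hR hv2'
    linarith
  have hsub : ∀ w ∈ closedBall v (α / 4), w ∈ Sec (2 * R) := by
    intro w hw
    rw [mem_closedBall, dist_eq_norm] at hw
    have h4 := sf_lip v w
    rw [norm_sub_rev] at h4
    rw [mem_Sec] at hv ⊢
    linarith
  have h5 := (convex_closedBall v (α / 4)).norm_image_sub_le_of_norm_deriv_le
    (f := hh G α) (C := 1 / 2) (fun w hw => ?_) (fun w hw => deriv_hh hD hR (hsub w hw))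
    (x := v) (y := v') (mem_closedBall_self (by positivity)) (by
      rw [mem_closedBall, dist_eq_norm]
      exact h1)
  · rw [norm_sub_rev (hh G α v') (hh G α v), ← e] at h5
    have h6 := norm_nonneg (v' - v)
    have h7 : ‖v' - v‖ = 0 := by linarith
    rw [norm_eq_zero, sub_eq_zero] at h7
    exact h7.symm
  · have hw2 : w ∈ Sec R := by
      have := hsub w hw
      rw [mem_Sec] at this ⊢
      linarith
    exact (diff_hh hD hR).differentiableAt ((isOpen_Sec R).mem_nhds hw2)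

theorem inj_iter (hD : Dat G α γ R₀ B) (hR : Big α R₀ B R) (m : ℕ) :
    InjOn (fun v => G^[m] v) (Sec (3 * R)) := by
  have hR3 : Big α R₀ B (3 * R) := hR.mono hD.α0 (by linarith [hR.pos hD])
  induction m with
  | zero =>
    intro v _ v' _ h
    exact h
  | succ m ih =>
    intro v hv v' hv' h
    simp only [Function.iterate_succ_apply'] at h
    exact ih hv hv' (inj_G hD hR (iter_mem hD hR3 hv m) (iter_mem hD hR3 hv' m) h)

/-- `R` is very large -/
def Big2 (α B R : ℝ) : Prop := K1 α B / R ≤ 1 / (4 * α)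

theorem dE (hD : Dat G α γ R₀ B) (hR : Big α R₀ B R) (h2 : Big2 α B R) {v : ℂ}
    (hv : v ∈ Sec (2 * R)) : ‖deriv (EE G α γ) v‖ ≤ 1 / (4 * α) := (deriv_EE hD hR hv).trans h2

theorem deriv_Ph (hD : Dat G α γ R₀ B) (hR : Big α R₀ B R) (h2 : Big2 α B R) {v : ℂ}
    (hv : v ∈ Sec (2 * R)) : deriv (Ph G α γ) v ≠ 0 := by
  have hα := hD.α0
  have hv2 : v ∈ Sec R := by
    have := hR.pos hD
    rw [mem_Sec] at hv ⊢
    linarith
  have hd : DifferentiableAt ℂ (Ph G α γ) v :=
    (diff_Ph hD hR).differentiableAt ((isOpen_Sec R).mem_nhds hv2)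
  have e : deriv (EE G α γ) v = deriv (Ph G α γ) v - 1 / α := by
    have h3 := hd.hasDerivAt.sub ((hasDerivAt_id v).div_const (α : ℂ))
    exact h3.deriv
  intro h0
  have h4 := dE hD hR h2 hv
  rw [e, h0, zero_sub, norm_neg, norm_div, norm_one, Complex.norm_real, Real.norm_eq_abs,
    abs_of_pos hα] at h4
  have h5 : 1 / (4 * α) = 1 / α / 4 := by
    field_simp
  rw [h5] at h4
  have h6 : 0 < 1 / α := by positivity
  linarith

theorem E_lip (hD : Dat G α γ R₀ B) (hR : Big α R₀ B R) (h2 : Big2 α B R) {s : Set ℂ}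
    (hs : Convex ℝ s) (hsub : s ⊆ Sec (2 * R)) {v v' : ℂ} (hv : v ∈ s) (hv' : v' ∈ s) :
    ‖EE G α γ v' - EE G α γ v‖ ≤ 1 / (4 * α) * ‖v' - v‖ := by
  refine hs.norm_image_sub_le_of_norm_deriv_le (fun w hw => ?_)
    (fun w hw => dE hD hR h2 (hsub hw)) hv hv'
  have hw2 : w ∈ Sec R := by
    have h3 := hsub hw
    have := hR.pos hD
    rw [mem_Sec] at h3 ⊢
    linarith
  exact (diff_EE hD hR).differentiableAt ((isOpen_Sec R).mem_nhds hw2)

theorem inj_half (hD : Dat G α γ R₀ B) (hR : Big α R₀ B R) (h2 : Big2 α B R) :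
    InjOn (Ph G α γ) {v | 2 * R < v.re} := by
  intro v hv v' hv' h
  have hα := hD.α0
  have hαne : (α : ℂ) ≠ 0 := by exact_mod_cast hα.ne'
  have h3 := E_lip hD hR h2 (convex_halfSpace_re_gt (2 * R)) (fun w hw => by
    rw [mem_Sec]
    unfold sf
    have : 2 * R < w.re := hw
    have := abs_nonneg w.im
    linarith) hv hv'
  have e : EE G α γ v' - EE G α γ v = -((v' - v) / α) := by
    unfold EE
    rw [h]
    ring
  rw [e, norm_neg, norm_div, Complex.norm_real, Real.norm_eq_abs, abs_of_pos hα] at h3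
  have h4 : 1 / (4 * α) * ‖v' - v‖ = ‖v' - v‖ / α / 4 := by
    field_simp
  rw [h4] at h3
  have h5 : 0 ≤ ‖v' - v‖ / α := by positivity
  have h6 : ‖v' - v‖ / α = 0 := by linarith
  rw [div_eq_zero_iff] at h6
  rcases h6 with h6 | h6
  · rw [norm_eq_zero, sub_eq_zero] at h6
    exact h6.symm
  · exact absurd h6 hα.ne'

theorem Ph_iter (hD : Dat G α γ R₀ B) (hR : Big α R₀ B R) {v : ℂ} (hv : v ∈ Sec R) (m : ℕ) :
    Ph G α γ (G^[m] v) = Ph G α γ v + m := by
  induction m with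
  | zero => simp
  | succ m ih =>
    rw [Function.iterate_succ_apply', Ph_G hD hR (iter_mem hD hR hv m), ih]
    push_cast
    ring

theorem inj_Ph (hD : Dat G α γ R₀ B) (hR : Big α R₀ B R) (h2 : Big2 α B R) :
    InjOn (Ph G α γ) (Sec (3 * R)) := by
  intro v hv v' hv' h
  have hα := hD.α0
  have hRp := hR.pos hD
  have hv2 : v ∈ Sec R := by
    rw [mem_Sec] at hv ⊢
    linarith
  have hv2' : v' ∈ Sec R := by
    rw [mem_Sec] at hv' ⊢
    linarith
  obtain ⟨m, hm⟩ := exists_nat_gt ((2 * R + |v.re| + |v'.re|) / (α / 2))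
  rw [div_lt_iff₀ (by positivity)] at hm
  have h3 := iter_re hD hR hv2 m
  have h4 := iter_re hD hR hv2' m
  have h5 := neg_abs_le v.re
  have h6 := neg_abs_le v'.re
  have h7 := abs_nonneg v.re
  have h8 := abs_nonneg v'.re
  have h9 : G^[m] v = G^[m] v' := by
    refine inj_half hD hR h2 ?_ ?_ ?_
    · change 2 * R < _
      linarith
    · change 2 * R < _
      linarith
    · rw [Ph_iter hD hR hv2, Ph_iter hD hR hv2', h]
  exact inj_iter hD hR m hv hv' h9

/-! ### surjectivity -/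

theorem norm_log_le {v : ℂ} (hv : v ≠ 0) : ‖Complex.log v‖ ≤ |Real.log ‖v‖| + Real.pi := by
  refine (Complex.norm_le_abs_re_add_abs_im _).trans ?_
  rw [Complex.log_re, Complex.log_im]
  exact add_le_add le_rfl (Complex.abs_arg_le_pi v)

theorem E_small (hD : Dat G α γ R₀ B) (hR : Big α R₀ B R) : ∃ M : ℝ, 0 < M ∧ ∀ v ∈ Sec R,
    M ≤ ‖v‖ → ‖EE G α γ v‖ ≤ ‖v‖ / (40 * α) := by
  have hα := hD.α0
  have hB := hD.B0
  have hC := C2_pos hD
  set c : ℝ := α / (120 * B) with hc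
  have hc0 : 0 < c := by positivity
  have h1 : ∀ᶠ x : ℝ in atTop, ‖Real.log x‖ ≤ c * ‖x‖ :=
    Real.isLittleO_log_id_atTop.def hc0
  obtain ⟨M₁, hM₁⟩ := eventually_atTop.1 h1
  refine ⟨max (max M₁ 1) (max (120 * B * Real.pi / α) (120 * 72 * C2 α B)), by positivity, ?_⟩
  intro v hv hMv
  have g1 : M₁ ≤ ‖v‖ := (le_max_left _ _).trans ((le_max_left _ _).trans hMv)
  have g2 : 1 ≤ ‖v‖ := (le_max_right _ _).trans ((le_max_left _ _).trans hMv)
  have g3 : 120 * B * Real.pi / α ≤ ‖v‖ := (le_max_left _ _).trans ((le_max_right _ _).trans hMv)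
  have g4 : 120 * 72 * C2 α B ≤ ‖v‖ := (le_max_right _ _).trans ((le_max_right _ _).trans hMv)
  have hv0 : 0 < ‖v‖ := by linarith
  have hvne : v ≠ 0 := norm_pos_iff.1 hv0
  have e : EE G α γ v = DD G α γ v - γ / α ^ 2 * Complex.log v := by
    unfold EE Ph uu
    ring
  have h2 := hM₁ ‖v‖ g1
  rw [Real.norm_eq_abs, Real.norm_eq_abs, abs_of_pos hv0] at h2
  have h3 := norm_log_le hvne
  have h4 : ‖Complex.log v‖ ≤ c * ‖v‖ + Real.pi := by linarith
  have h5 : ‖γ / (α : ℂ) ^ 2 * Complex.log v‖ ≤ B / α ^ 2 * (c * ‖v‖ + Real.pi) := by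
    rw [norm_mul, norm_div, norm_pow, Complex.norm_real, Real.norm_eq_abs, abs_of_pos hα]
    exact mul_le_mul (div_le_div_of_nonneg_right hD.γB (by positivity)) h4 (norm_nonneg _)
      (by positivity)
  have h6 : B / α ^ 2 * (c * ‖v‖) = ‖v‖ / (120 * α) := by
    rw [hc]
    field_simp
  have h7 : B / α ^ 2 * Real.pi ≤ ‖v‖ / (120 * α) := by
    rw [div_le_iff₀ hα] at g3
    rw [div_mul_eq_mul_div, div_le_div_iff₀ (by positivity) (by positivity)]
    nlinarith [hα]
  have h8 : 72 * C2 α B / α / ‖v‖ ≤ ‖v‖ / (120 * α) := by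
    rw [div_div, div_le_div_iff₀ (by positivity) (by positivity)]
    have h9 : 120 * 72 * C2 α B * α ≤ ‖v‖ * α := mul_le_mul_of_nonneg_right g4 hα.le
    have h10 : ‖v‖ * α ≤ ‖v‖ * (α * ‖v‖) := by
      refine mul_le_mul_of_nonneg_left ?_ hv0.le
      nlinarith
    linarith
  have h11 := DD_le hD hR hv
  rw [e]
  refine (norm_sub_le _ _).trans ?_
  have e2 : ‖v‖ / (40 * α) = ‖v‖ / (120 * α) + (‖v‖ / (120 * α) + ‖v‖ / (120 * α)) := by
    field_simp
    norm_num
  rw [e2]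
  refine add_le_add (h11.trans h8) (h5.trans ?_)
  rw [mul_add]
  exact add_le_add h6.le h7

theorem norm_le_sf {W : ℂ} (hW : 0 < W.re + |W.im| / 2) : 2 / 5 * ‖W‖ ≤ sf W := by
  have h1 : ‖W‖ ^ 2 = W.re ^ 2 + W.im ^ 2 := by
    rw [Complex.sq_norm, Complex.normSq_apply]
    ring
  have h0 : 0 < sf W := by
    unfold sf
    have := abs_nonneg W.im
    linarith
  have h2 : (2 / 5 * ‖W‖) ^ 2 ≤ sf W ^ 2 := by
    rw [mul_pow, h1]
    unfold sf
    have h3 := sq_abs W.im
    have h4 := abs_nonneg W.im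
    rw [← h3]
    rcases le_total 0 W.re with h5 | h5
    · nlinarith
    · nlinarith
  exact abs_le_of_sq_le_sq' h2 h0.le |>.2

theorem surj (hD : Dat G α γ R₀ B) (hR : Big α R₀ B R) (h2 : Big2 α B R) : ∃ R₂ : ℝ, ∀ W : ℂ,
    R₂ < W.re + |W.im| / 2 → ∃ v ∈ Sec (3 * R), Ph G α γ v = W := by
  have hα := hD.α0
  have hαne : (α : ℂ) ≠ 0 := by exact_mod_cast hα.ne'
  have hRp := hR.pos hD
  obtain ⟨M, hM, hE⟩ := E_small hD hR
  refine ⟨max (4 * R / α) (2 * M / α), fun W hW => ?_⟩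
  have hW1 : 4 * R / α < W.re + |W.im| / 2 := (le_max_left _ _).trans_lt hW
  have hW2 : 2 * M / α < W.re + |W.im| / 2 := (le_max_right _ _).trans_lt hW
  rw [div_lt_iff₀ hα] at hW1 hW2
  have hpos : 0 < W.re + |W.im| / 2 := by
    by_contra hc
    push Not at hc
    nlinarith
  have hWn : 2 / 5 * ‖W‖ ≤ sf W := norm_le_sf hpos
  have hWs : sf W ≤ 3 / 2 * ‖W‖ := sf_le W
  have hWs2 : W.re + |W.im| / 2 ≤ sf W := by
    unfold sf
    have := abs_nonneg W.im
    linarith
  set z : ℂ := α * W with hz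
  have hzn : ‖z‖ = α * ‖W‖ := by
    rw [hz, norm_mul, Complex.norm_real, Real.norm_eq_abs, abs_of_pos hα]
  have hzs : sf z = α * sf W := by
    rw [hz]
    unfold sf
    rw [Complex.re_ofReal_mul, Complex.im_ofReal_mul, abs_mul, abs_of_pos hα]
    ring
  set r : ℝ := ‖z‖ / 20 with hr
  have hz1 : 4 * R < sf z := by
    rw [hzs]
    nlinarith
  have hz2 : 2 / 5 * ‖z‖ ≤ sf z := by
    rw [hzn, hzs]
    nlinarith
  have hz3 : M ≤ ‖z‖ := by
    rw [hzn]
    nlinarith
  have hz0 : 0 < ‖z‖ := by linarith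
  have hsub : ∀ w ∈ closedBall z r, w ∈ Sec (3 * R) := by
    intro w hw
    rw [mem_closedBall, dist_eq_norm] at hw
    have h4 := sf_lip z w
    rw [norm_sub_rev] at h4
    rw [mem_Sec]
    rw [hr] at hw
    linarith
  have hsub2 : closedBall z r ⊆ Sec (2 * R) := by
    intro w hw
    have := hsub w hw
    rw [mem_Sec] at this ⊢
    linarith
  have hzR : z ∈ Sec R := by
    rw [mem_Sec]
    linarith
  have hEz : ‖EE G α γ z‖ ≤ ‖z‖ / (40 * α) := hE z hzR hz3
  have hlip : ∀ w ∈ closedBall z r, ∀ w' ∈ closedBall z r,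
      ‖EE G α γ w' - EE G α γ w‖ ≤ 1 / (4 * α) * ‖w' - w‖ := fun w hw w' hw' =>
    E_lip hD hR h2 (convex_closedBall z r) hsub2 hw hw'
  let T : ℂ → ℂ := fun w => z - α * EE G α γ w
  have hT : MapsTo T (closedBall z r) (closedBall z r) := by
    intro w hw
    have h3 := hlip z (mem_closedBall_self (by positivity)) w hw
    rw [mem_closedBall, dist_eq_norm] at hw ⊢
    have e1 : T w - z = -(α * EE G α γ w) := by
      change z - α * EE G α γ w - z = _
      ring
    rw [e1, norm_neg, norm_mul, Complex.norm_real, Real.norm_eq_abs, abs_of_pos hα]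
    have h4 : ‖EE G α γ w‖ ≤ ‖EE G α γ z‖ + ‖EE G α γ w - EE G α γ z‖ := by
      have e2 : EE G α γ w = EE G α γ z + (EE G α γ w - EE G α γ z) := by ring
      conv_lhs => rw [e2]
      exact norm_add_le _ _
    have h5 : ‖EE G α γ w‖ ≤ ‖z‖ / (40 * α) + 1 / (4 * α) * r := by
      have h6 : 1 / (4 * α) * ‖w - z‖ ≤ 1 / (4 * α) * r :=
        mul_le_mul_of_nonneg_left hw (by positivity)
      linarith
    have h7 : α * (‖z‖ / (40 * α) + 1 / (4 * α) * r) = ‖z‖ * (3 / 80) := by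
      rw [hr]
      field_simp
      norm_num
    have h8 := mul_le_mul_of_nonneg_left h5 hα.le
    rw [h7] at h8
    refine h8.trans ?_
    rw [hr]
    linarith
  have hcontr : ContractingWith (1 / 4) (hT.restrict T (closedBall z r) (closedBall z r)) := by
    refine ⟨by norm_num, LipschitzWith.of_dist_le_mul ?_⟩
    rintro ⟨w, hw⟩ ⟨w', hw'⟩
    rw [Subtype.dist_eq, Subtype.dist_eq]
    change dist (T w) (T w') ≤ _ * dist w w'
    rw [dist_eq_norm, dist_eq_norm]
    have e1 : T w - T w' = α * (EE G α γ w' - EE G α γ w) := by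
      change z - α * EE G α γ w - (z - α * EE G α γ w') = _
      ring
    rw [e1, norm_mul, Complex.norm_real, Real.norm_eq_abs, abs_of_pos hα]
    have h3 := mul_le_mul_of_nonneg_left (hlip w hw w' hw') hα.le
    refine h3.trans (le_of_eq ?_)
    rw [norm_sub_rev]
    have e5 : ((1 / 4 : NNReal) : ℝ) = 1 / 4 := by
      push_cast
      norm_num
    rw [e5]
    field_simp
  obtain ⟨v, hv, hfix, -⟩ := hcontr.exists_fixedPoint' (isClosed_closedBall.isComplete) hT
    (mem_closedBall_self (by positivity)) (edist_ne_top _ _)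
  refine ⟨v, hsub v hv, ?_⟩
  have h9 : z - α * EE G α γ v = v := hfix
  have h10 : (α : ℂ) * Ph G α γ v = α * W := by
    unfold EE at h9
    have e6 : (α : ℂ) * (Ph G α γ v - v / α) = α * Ph G α γ v - v := by
      field_simp
    rw [e6] at h9
    have e7 : (α : ℂ) * Ph G α γ v = z - (z - (α * Ph G α γ v - v)) + v := by ring
    rw [e7, h9]
    ring
  exact mul_left_cancel₀ hαne h10

end

end FATaux

open FATaux in
theorem t_FAT : S_FAT := by
  intro G α γ R₀ C₀ hα hR₀ hd hG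
  -- the data
  obtain ⟨B, hB, hB1, hB2⟩ : ∃ B : ℝ, 0 < B ∧ ‖γ‖ + |C₀| / R₀ ≤ B ∧ |C₀| ≤ B := by
    refine ⟨‖γ‖ + |C₀| / R₀ + |C₀| + 1, by positivity, ?_, ?_⟩
    · have := abs_nonneg C₀
      linarith
    · have : 0 ≤ ‖γ‖ + |C₀| / R₀ := by positivity
      linarith
  have hD : Dat G α γ R₀ B := by
    have h2 : ∀ v : ℂ, R₀ < ‖v‖ → ‖G v - v - α - γ / v‖ ≤ |C₀| / ‖v‖ ^ 2 := by
      intro v hv
      have e : G v - v - α - γ / v = G v - (v + α + γ / v) := by ring
      rw [e]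
      exact (hG v hv).trans (div_le_div_of_nonneg_right (le_abs_self _) (by positivity))
    refine ⟨hα, hR₀, hB, hd, ?_, ?_, ?_⟩
    · have : 0 ≤ |C₀| / R₀ := by positivity
      linarith
    · intro v hv
      have hv0 : 0 < ‖v‖ := by linarith
      have e : G v - v - α = (G v - v - α - γ / v) + γ / v := by ring
      rw [e]
      refine (norm_add_le _ _).trans ?_
      rw [norm_div]
      have h3 : |C₀| / ‖v‖ ^ 2 ≤ |C₀| / R₀ / ‖v‖ := by
        rw [div_div]
        refine div_le_div_of_nonneg_left (abs_nonneg _) (by positivity) ?_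
        nlinarith
      have h4 := h2 v hv
      have h5 : B / ‖v‖ ≥ (‖γ‖ + |C₀| / R₀) / ‖v‖ := div_le_div_of_nonneg_right hB1 hv0.le
      rw [add_div] at h5
      linarith
    · intro v hv
      exact (h2 v hv).trans (div_le_div_of_nonneg_right hB2 (by positivity))
  -- the radius
  obtain ⟨R, hR, hR2⟩ : ∃ R : ℝ, Big α R₀ B R ∧ Big2 α B R := by
    have hK : 0 ≤ K1 α B := by
      have := C2_pos hD
      unfold K1
      positivity
    refine ⟨2 * R₀ + 12 * B / α + 6 * α + 4 * α * K1 α B, ⟨?_, ?_, ?_⟩, ?_⟩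
    · have : 0 ≤ 4 * α * K1 α B := by positivity
      have : 0 < 12 * B / α := by positivity
      linarith
    · have e : α * (2 * R₀ + 12 * B / α + 6 * α + 4 * α * K1 α B) =
          12 * B + α * (2 * R₀ + 6 * α + 4 * α * K1 α B) := by
        field_simp
        ring
      rw [e]
      have : 0 ≤ α * (2 * R₀ + 6 * α + 4 * α * K1 α B) := by positivity
      linarith
    · have : 0 ≤ 4 * α * K1 α B := by positivity
      have : 0 < 12 * B / α := by positivity
      linarith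
    · unfold Big2
      rw [div_le_div_iff₀ (by positivity) (by positivity)]
      have : 0 < 2 * R₀ + 12 * B / α + 6 * α := by positivity
      linarith
  have hRp := hR.pos hD
  have hR3 : Big α R₀ B (3 * R) := hR.mono hα (by linarith)
  obtain ⟨R₂, hR₂⟩ := surj hD hR hR2
  have hC := C2_pos hD
  refine ⟨3 * R, R₂, 72 * C2 α B / α, Ph G α γ, by linarith, by linarith [hR.b1], by positivity,
    diff_Ph hD hR3, mapsTo hD hR3, fun v hv => Ph_G hD hR3 hv, inj_Ph hD hR hR2, inj_G hD hR,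
    fun v hv => deriv_Ph hD hR hR2 ?_, fun v hv => ?_, hR₂⟩
  · rw [mem_Sec] at hv ⊢
    linarith
  · have e : Ph G α γ v - (v / α - γ / α ^ 2 * Complex.log v) = DD G α γ v := by
      unfold Ph uu
      ring
    rw [e]
    exact DD_le hD hR3 hv

end Pool.Agent.H212.ND
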