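import Pool.Agent.H212.ND.StmN

/-!
# JOB FCA: the attracting Fatou coordinate on the basin
-/

set_option autoImplicit false

open Filter Metric Set Topology Polynomial
open scoped ComplexConjugate

namespace Pool.Agent.H212.ND

open Pool.Agent.H212.MB

namespace FCAaux

/-- the Taylor expansion of order four at `1` -/
theorem taylor4 (g : ℂ[X]) : ∃ h : ℂ[X], ∀ x : ℂ, g.eval (1 + x) = g.eval 1 + x * (g.derivative.eval 1 +
    x * (g.derivative.derivative.eval 1 / 2 + x * (g.derivative.derivative.derivative.eval 1 / 6 + x * h.eval x))) := by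
  set T := Polynomial.taylor 1 g with hT
  have hTe : ∀ x : ℂ, T.eval x = g.eval (1 + x) := by
    intro x
    rw [hT, Polynomial.taylor_eval, add_comm]
  have c0 : T.coeff 0 = g.eval 1 := by
    rw [hT, Polynomial.taylor_coeff_zero]
  have c1 : T.coeff 1 = g.derivative.eval 1 := by
    rw [hT, Polynomial.taylor_coeff_one]
  have c2 : T.coeff 2 = g.derivative.derivative.eval 1 / 2 := by
    rw [hT, Polynomial.taylor_coeff]
    have h0 : (Nat.factorial 2) • Polynomial.hasseDeriv 2 g = Polynomial.derivative^[2] g := by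
      rw [← Polynomial.factorial_smul_hasseDeriv]
      rfl
    have h := congrArg (fun f : ℂ[X] => f.eval 1) h0
    simp only [Function.iterate_succ, Function.iterate_zero, Function.comp, id, Nat.factorial,
      nsmul_eq_mul, Polynomial.eval_mul, Polynomial.eval_natCast] at h
    rw [← h]
    push_cast
    ring
  have c3 : T.coeff 3 = g.derivative.derivative.derivative.eval 1 / 6 := by
    rw [hT, Polynomial.taylor_coeff]
    have h0 : (Nat.factorial 3) • Polynomial.hasseDeriv 3 g = Polynomial.derivative^[3] g := by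
      rw [← Polynomial.factorial_smul_hasseDeriv]
      rfl
    have h := congrArg (fun f : ℂ[X] => f.eval 1) h0
    simp only [Function.iterate_succ, Function.iterate_zero, Function.comp, id, Nat.factorial,
      nsmul_eq_mul, Polynomial.eval_mul, Polynomial.eval_natCast] at h
    rw [← h]
    push_cast
    ring
  refine ⟨T.divX.divX.divX.divX, fun x => ?_⟩
  have e : ∀ p : ℂ[X], p.eval x = p.coeff 0 + x * p.divX.eval x := by
    intro p
    conv_lhs => rw [← Polynomial.divX_mul_X_add p]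
    simp
    ring
  rw [← hTe, e T, e T.divX, e T.divX.divX, e T.divX.divX.divX]
  simp only [Polynomial.coeff_divX]
  rw [c0, c1, c2, c3]

/-- a polynomial is bounded on the unit disc -/
theorem poly_bdd (h : ℂ[X]) : ∃ M : ℝ, 0 ≤ M ∧ ∀ x : ℂ, ‖x‖ ≤ 1 → ‖h.eval x‖ ≤ M := by
  obtain ⟨M, hM⟩ := (isCompact_closedBall (0 : ℂ) 1).exists_bound_of_continuousOn
    (f := fun x => h.eval x) h.continuous.continuousOn
  refine ⟨max M 0, le_max_right _ _, fun x hx => ?_⟩
  exact (hM x (by simpa using hx)).trans (le_max_left _ _)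

/-- the map in the coordinate `v` -/
noncomputable def GG (g : ℂ[X]) (v : ℂ) : ℂ := (1 - g.eval (1 - v⁻¹))⁻¹

theorem GG_spec (g : ℂ[X]) (v : ℂ) : 1 - (GG g v)⁻¹ = g.eval (1 - v⁻¹) := by
  unfold GG
  rw [inv_inv]
  ring

theorem GG_iter (g : ℂ[X]) (v : ℂ) (m : ℕ) :
    1 - ((GG g)^[m] v)⁻¹ = (fun z : ℂ => g.eval z)^[m] (1 - v⁻¹) := by
  induction m with
  | zero => rfl
  | succ m ih => rw [Function.iterate_succ_apply', Function.iterate_succ_apply', ← ih, GG_spec]

/-- the asymptotics at infinity -/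
theorem asy (g : ℂ[X]) (h1 : g.eval 1 = 1) (h2 : g.derivative.eval 1 = 1) :
    ∃ R₀ C₀ : ℝ, 1 ≤ R₀ ∧ 0 < C₀ ∧ ∀ v : ℂ, R₀ < ‖v‖ → g.eval (1 - v⁻¹) ≠ 1 ∧
      ‖GG g v - (v + al g + ga g / v)‖ ≤ C₀ / ‖v‖ ^ 2 := by
  obtain ⟨h, hh⟩ := taylor4 g
  obtain ⟨M, hM0, hM⟩ := poly_bdd h
  set t2 : ℂ := al g with ht2
  set t3 : ℂ := g.derivative.derivative.derivative.eval 1 / 6 with ht3
  have hga : ga g = t2 ^ 2 - t3 := rfl
  -- the expansion of `1 - g (1 - u)`
  have hexp : ∀ u : ℂ, 1 - g.eval (1 - u) = u * (1 - t2 * u + t3 * u ^ 2 - u ^ 3 * h.eval (-u)) := by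
    intro u
    have := hh (-u)
    rw [← sub_eq_add_neg] at this
    rw [this, h1, h2, ht2, al, ht3]
    ring
  set K : ℝ := 1 + ‖t2‖ + ‖t3‖ + M with hK
  have hK1 : 1 ≤ K := by
    have := norm_nonneg t2
    have := norm_nonneg t3
    linarith
  refine ⟨2 * K, 2 * (K * K * K * 3), by linarith, by positivity, ?_⟩
  intro v hv
  have hv0 : 0 < ‖v‖ := by linarith
  have hvn : v ≠ 0 := norm_pos_iff.1 hv0
  set u : ℂ := v⁻¹ with hu
  have hun : ‖u‖ = ‖v‖⁻¹ := by rw [hu, norm_inv]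
  have hu0 : u ≠ 0 := inv_ne_zero hvn
  have hup : 0 < ‖u‖ := norm_pos_iff.2 hu0
  have huK : ‖u‖ * K ≤ 1 / 2 := by
    rw [hun, inv_mul_le_iff₀ hv0]
    linarith
  have hu1 : ‖u‖ ≤ 1 := by nlinarith
  set H : ℂ := h.eval (-u) with hH
  have hHM : ‖H‖ ≤ M := hM _ (by rw [norm_neg]; exact hu1)
  set q : ℂ := 1 - t2 * u + t3 * u ^ 2 - u ^ 3 * H with hq
  have hq1 : ‖1 - q‖ ≤ 1 / 2 := by
    have e1 : 1 - q = u * (t2 - t3 * u + u ^ 2 * H) := by rw [hq]; ring
    rw [e1, norm_mul]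
    have e2 : ‖t2 - t3 * u + u ^ 2 * H‖ ≤ K := by
      calc ‖t2 - t3 * u + u ^ 2 * H‖ ≤ ‖t2‖ + ‖t3 * u‖ + ‖u ^ 2 * H‖ :=
            (norm_add_le _ _).trans (add_le_add_left (norm_sub_le _ _) _)
        _ ≤ ‖t2‖ + ‖t3‖ + M := by
            rw [norm_mul, norm_mul, norm_pow]
            have a1 : ‖t3‖ * ‖u‖ ≤ ‖t3‖ := mul_le_of_le_one_right (norm_nonneg _) hu1
            have a2 : ‖u‖ ^ 2 * ‖H‖ ≤ 1 * M := mul_le_mul (pow_le_one₀ hup.le hu1) hHM (norm_nonneg _) zero_le_one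
            linarith
        _ ≤ K := by rw [hK]; linarith
    calc ‖u‖ * ‖t2 - t3 * u + u ^ 2 * H‖ ≤ ‖u‖ * K := mul_le_mul_of_nonneg_left e2 hup.le
      _ ≤ 1 / 2 := huK
  have hqn : 1 / 2 ≤ ‖q‖ := by
    have := norm_sub_norm_le (1 : ℂ) (1 - q)
    rw [norm_one, sub_sub_cancel] at this
    linarith
  have hq0 : q ≠ 0 := norm_pos_iff.1 (by linarith)
  have hG1 : 1 - g.eval (1 - u) = u * q := hexp u
  refine ⟨?_, ?_⟩
  · intro h3
    rw [h3, sub_self] at hG1
    exact mul_ne_zero hu0 hq0 hG1.symm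
  · have hGG : GG g v = (u * q)⁻¹ := by
      unfold GG
      rw [← hu, hG1]
    have hvu : v = u⁻¹ := by rw [hu, inv_inv]
    set s : ℂ := t2 ^ 2 - t3 with hs
    set B : ℂ := t2 * s - t3 * t2 + H - u * (t3 * s - H * t2) + u ^ 2 * (H * s) with hB
    have e3 : GG g v - (v + al g + ga g / v) = u ^ 2 * (q⁻¹ * B) := by
      rw [hGG, hga, hvu]
      field_simp
      rw [hB, hq]
      ring
    rw [e3, norm_mul, norm_pow, hun, norm_mul, norm_inv]
    have hqi : ‖q‖⁻¹ ≤ 2 := by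
      rw [inv_le_comm₀ (by linarith) (by norm_num)]
      linarith
    have ht2K : ‖t2‖ ≤ K - 1 := by
      have := norm_nonneg t3
      linarith
    have ht3K : ‖t3‖ ≤ K - 1 := by
      have := norm_nonneg t2
      linarith
    have hHK : ‖H‖ ≤ K - 1 := by
      have := norm_nonneg t2
      have := norm_nonneg t3
      linarith
    have hsum : ‖t2‖ + ‖t3‖ + ‖H‖ ≤ K - 1 := by linarith
    have hsK : ‖s‖ ≤ ‖t2‖ ^ 2 + ‖t3‖ := by
      rw [hs, ← norm_pow]
      exact norm_sub_le _ _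
    have hBK : ‖B‖ ≤ K * K * K * 3 := by
      have n2 := norm_nonneg t2
      have n3 := norm_nonneg t3
      have nH := norm_nonneg H
      have ns := norm_nonneg s
      have hs2 : ‖s‖ ≤ K * K := by nlinarith
      have b1 : ‖B‖ ≤ ‖t2‖ * ‖s‖ + ‖t3‖ * ‖t2‖ + ‖H‖ + (‖t3‖ * ‖s‖ + ‖H‖ * ‖t2‖) + ‖H‖ * ‖s‖ := by
        have c1 : ‖t2 * s - t3 * t2 + H‖ ≤ ‖t2‖ * ‖s‖ + ‖t3‖ * ‖t2‖ + ‖H‖ := by
          rw [← norm_mul, ← norm_mul]
          exact (norm_add_le _ _).trans (add_le_add_left (norm_sub_le _ _) _)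
        have c2 : ‖u * (t3 * s - H * t2)‖ ≤ ‖t3‖ * ‖s‖ + ‖H‖ * ‖t2‖ := by
          rw [norm_mul]
          calc ‖u‖ * ‖t3 * s - H * t2‖ ≤ 1 * ‖t3 * s - H * t2‖ :=
                mul_le_mul_of_nonneg_right hu1 (norm_nonneg _)
            _ ≤ ‖t3‖ * ‖s‖ + ‖H‖ * ‖t2‖ := by
                rw [one_mul, ← norm_mul, ← norm_mul]
                exact norm_sub_le _ _
        have c3 : ‖u ^ 2 * (H * s)‖ ≤ ‖H‖ * ‖s‖ := by
          rw [norm_mul, norm_pow, norm_mul]
          exact mul_le_of_le_one_left (by positivity) (pow_le_one₀ hup.le hu1)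
        calc ‖B‖ ≤ ‖t2 * s - t3 * t2 + H‖ + ‖u * (t3 * s - H * t2)‖ + ‖u ^ 2 * (H * s)‖ :=
              (norm_add_le _ _).trans (add_le_add_left (norm_sub_le _ _) _)
          _ ≤ _ := by linarith
      have b2 : (‖t2‖ + ‖t3‖ + ‖H‖) * ‖s‖ ≤ K * (K * K) :=
        mul_le_mul (by linarith) hs2 ns (by linarith)
      have b3 : (‖t3‖ + ‖H‖) * ‖t2‖ ≤ K * K := mul_le_mul (by linarith) (by linarith) n2 (by linarith)
      have b4 : K ≤ K * K := by nlinarith
      have b5 : K * K ≤ K * K * K := by nlinarith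
      nlinarith
    rw [inv_pow, div_eq_mul_inv, mul_comm]
    refine mul_le_mul_of_nonneg_right ?_ (by positivity)
    exact mul_le_mul hqi hBK (norm_nonneg _) (by norm_num)

/-- in the sector the norm is large -/
theorem sec_norm {R : ℝ} {v : ℂ} (hv : v ∈ Sec R) : R / 2 < ‖v‖ := by
  have h : R < v.re + |v.im| := hv
  have h1 := (le_abs_self v.re).trans (Complex.abs_re_le_norm v)
  have h2 := Complex.abs_im_le_norm v
  linarith

theorem sec_open (R : ℝ) : IsOpen (Sec R) :=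
  isOpen_lt continuous_const (Complex.continuous_re.add Complex.continuous_im.abs)

theorem conj_eval {p : ℂ[X]} (hp : p.map (starRingEnd ℂ) = p) (z : ℂ) : p.eval (conj z) = conj (p.eval z) := by
  conv_lhs => rw [← hp]
  exact Polynomial.eval_map_apply (starRingEnd ℂ) z

theorem map_der {p : ℂ[X]} (hp : p.map (starRingEnd ℂ) = p) :
    p.derivative.map (starRingEnd ℂ) = p.derivative := by
  rw [← Polynomial.derivative_map, hp]

theorem eval_one_real {p : ℂ[X]} (hp : p.map (starRingEnd ℂ) = p) : conj (p.eval 1) = p.eval 1 := by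
  rw [← conj_eval hp, map_one]

theorem map_conj_of_real {p : ℂ[X]} (hp : ∀ i, (p.coeff i).im = 0) : p.map (starRingEnd ℂ) = p := by
  ext i
  rw [Polynomial.coeff_map]
  exact Complex.conj_eq_iff_im.2 (hp i)

/-- the orbit in the coordinate `v` -/
noncomputable def ww (g : ℂ[X]) (z : ℂ) (m : ℕ) : ℂ := (1 - (fun x : ℂ => g.eval x)^[m] z)⁻¹

theorem ww_succ (g : ℂ[X]) (z : ℂ) (m : ℕ) : ww g z (m + 1) = GG g (ww g z m) := by
  unfold ww GG
  rw [Function.iterate_succ_apply', inv_inv, sub_sub_cancel]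

theorem ww_shift (g : ℂ[X]) (z : ℂ) (m : ℕ) : ww g (g.eval z) m = ww g z (m + 1) := by
  unfold ww
  rw [Function.iterate_succ_apply]

theorem ww_inv (g : ℂ[X]) (z : ℂ) (m : ℕ) : 1 - (ww g z m)⁻¹ = (fun x : ℂ => g.eval x)^[m] z := by
  unfold ww
  rw [inv_inv, sub_sub_cancel]

theorem ww_zero (g : ℂ[X]) (v : ℂ) : ww g (1 - v⁻¹) 0 = v := by
  unfold ww
  rw [Function.iterate_zero, id, sub_sub_cancel, inv_inv]

end FCAaux

open FCAaux in
theorem t_FCA (h1 : S_FAT) (h2 : S_BASN) : S_FCA := by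
  intro n g c₀ c hg
  obtain ⟨bo, -, binv, -, bdisc, b1, -, bconj, btend⟩ := h2 n g c₀ c hg
  have hgc : g.map (starRingEnd ℂ) = g := map_conj_of_real hg.real
  have hE2 : conj (g.derivative.derivative.eval 1) = g.derivative.derivative.eval 1 :=
    eval_one_real (map_der (map_der hgc))
  have hE3 : conj (g.derivative.derivative.derivative.eval 1) = g.derivative.derivative.derivative.eval 1 :=
    eval_one_real (map_der (map_der (map_der hgc)))
  have halc : conj (al g) = al g := by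
    unfold al
    rw [map_div₀, hE2, Complex.conj_ofNat]
  have hgac : conj (ga g) = ga g := by
    unfold ga
    rw [map_sub, map_pow, halc, map_div₀, hE3, Complex.conj_ofNat]
  have hkac : conj (ka g) = ka g := by
    unfold ka
    rw [map_div₀, map_pow, halc, hgac]
  set a : ℝ := (al g).re with ha
  have hal : al g = (a : ℂ) := (Complex.conj_eq_iff_re.1 halc).symm
  have hapos : 0 < a := by
    have h3 : g.derivative.derivative.eval 1 = 2 * al g := by
      unfold al
      ring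
    have h4 := hg.der2
    rw [h3, hal] at h4
    have h5 : ((2 : ℂ) * (a : ℂ)).re = 2 * a := by
      simp
    rw [h5] at h4
    linarith
  obtain ⟨R₁, C₀, hR1, hC0, hasy⟩ := asy g hg.fix hg.der
  set R₀ : ℝ := max R₁ (2 * (‖ga g‖ + C₀) / a) with hR0
  have hR01 : 1 ≤ R₀ := hR1.trans (le_max_left _ _)
  have hR0R1 : R₁ ≤ R₀ := le_max_left _ _
  -- one step goes to the right
  have hstep : ∀ v : ℂ, R₀ < ‖v‖ → v.re + a / 2 ≤ (GG g v).re := by
    intro v hv
    have hv1 : 1 < ‖v‖ := hR01.trans_lt hv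
    have hv0 : 0 < ‖v‖ := by linarith
    have e1 := (hasy v (hR0R1.trans_lt hv)).2
    have e2 : ‖ga g / v‖ = ‖ga g‖ / ‖v‖ := norm_div _ _
    have e3 : C₀ / ‖v‖ ^ 2 ≤ C₀ / ‖v‖ := by
      refine div_le_div_of_nonneg_left hC0.le hv0 ?_
      nlinarith
    have e4 : (‖ga g‖ + C₀) / ‖v‖ ≤ a / 2 := by
      rw [div_le_iff₀ hv0]
      have e5 : 2 * (‖ga g‖ + C₀) / a ≤ ‖v‖ := (le_max_right _ _).trans hv.le
      rw [div_le_iff₀ hapos] at e5
      linarith
    have e6 : ‖GG g v - (v + a)‖ ≤ a / 2 := by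
      have e7 : GG g v - (v + a) = (GG g v - (v + al g + ga g / v)) + ga g / v := by
        rw [hal]
        ring
      rw [e7]
      calc _ ≤ ‖GG g v - (v + al g + ga g / v)‖ + ‖ga g / v‖ := norm_add_le _ _
        _ ≤ C₀ / ‖v‖ + ‖ga g‖ / ‖v‖ := by rw [e2]; linarith
        _ = (‖ga g‖ + C₀) / ‖v‖ := by ring
        _ ≤ a / 2 := e4
    have e8 := (Complex.abs_re_le_norm _).trans e6
    have e9 := (abs_le.1 e8).1
    simp only [Complex.sub_re, Complex.add_re, Complex.ofReal_re] at e9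
    linarith
  have hGd : DifferentiableOn ℂ (GG g) {v | R₀ < ‖v‖} := by
    intro v hv
    have hv' : R₀ < ‖v‖ := hv
    have hv0 : v ≠ 0 := norm_pos_iff.1 (by linarith)
    have hv1 := (hasy v (hR0R1.trans_lt hv')).1
    refine DifferentiableAt.differentiableWithinAt ?_
    unfold GG
    refine DifferentiableAt.inv ?_ (sub_ne_zero.2 (Ne.symm hv1))
    refine (differentiableAt_const _).sub ?_
    exact (g.differentiable.differentiableAt (x := 1 - v⁻¹)).comp v
      ((differentiableAt_const _).sub (differentiableAt_inv hv0))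
  obtain ⟨R, R₂, C, Φ₀, hRpos, hRR, hCpos, dΦ₀, hmaps, hsem, hinj, -, hder, hasyΦ, hsurj⟩ :=
    h1 (GG g) a (ga g) R₀ C₀ hapos (by linarith) hGd (fun v hv => by
      have := (hasy v (hR0R1.trans_lt hv)).2
      rwa [hal] at this)
  have hsecn : ∀ v ∈ Sec R, R₀ < ‖v‖ := fun v hv => hRR.trans (sec_norm hv)
  have hsec0 : ∀ v ∈ Sec R, v ≠ 0 := fun v hv => norm_pos_iff.1 (by have := hsecn v hv; linarith)
  -- orbits in the sector
  have horb : ∀ z : ℂ, ∀ m : ℕ, ww g z m ∈ Sec R → ∀ k : ℕ, ww g z (m + k) ∈ Sec R ∧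
      Φ₀ (ww g z (m + k)) = Φ₀ (ww g z m) + k ∧ (ww g z m).re + k * (a / 2) ≤ (ww g z (m + k)).re := by
    intro z m hm k
    induction k with
    | zero => exact ⟨hm, by simp, by simp⟩
    | succ k ih =>
      obtain ⟨i1, i2, i3⟩ := ih
      rw [← add_assoc, ww_succ]
      refine ⟨hmaps i1, ?_, ?_⟩
      · rw [hsem _ i1, i2]
        push_cast
        ring
      · have := hstep _ (hsecn _ i1)
        push_cast
        linarith
  have hiter : ∀ m : ℕ, ∀ z : ℂ, (fun x : ℂ => g.eval x)^[m] z ∈ Bas g c₀ ↔ z ∈ Bas g c₀ := by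
    intro m z
    induction m with
    | zero => rfl
    | succ m ih =>
      rw [Function.iterate_succ_apply']
      exact (binv _).trans ih
  -- the points of the sector are in the basin
  have hsecB : ∀ v ∈ Sec R, (1 - v⁻¹) ∈ Bas g c₀ := by
    intro v hv
    have hw0 : ww g (1 - v⁻¹) 0 = v := ww_zero g v
    obtain ⟨k, hk⟩ := exists_nat_gt ((1 - v.re) / (a / 2))
    rw [div_lt_iff₀ (by positivity)] at hk
    obtain ⟨-, -, o3⟩ := horb (1 - v⁻¹) 0 (by rw [hw0]; exact hv) k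
    rw [hw0, zero_add] at o3
    have hre : 1 < (ww g (1 - v⁻¹) k).re := by linarith
    set u := ww g (1 - v⁻¹) k with hu
    have hu0 : u ≠ 0 := by
      intro h
      rw [h] at hre
      simp at hre
      linarith
    rw [← hiter k, ← ww_inv, ← hu]
    refine bdisc _ ?_ ?_
    · have e1 : (1 : ℂ) - u⁻¹ = (u - 1) / u := by
        field_simp
      rw [e1, norm_div, div_le_one (norm_pos_iff.2 hu0)]
      rw [← sq_le_sq₀ (norm_nonneg _) (norm_nonneg _), ← Complex.normSq_eq_norm_sq, ← Complex.normSq_eq_norm_sq,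
        Complex.normSq_apply, Complex.normSq_apply]
      simp only [Complex.sub_re, Complex.one_re, Complex.sub_im, Complex.one_im]
      nlinarith
    · intro h
      rw [sub_eq_self] at h
      exact hu0 (inv_eq_zero.1 h)
  -- the orbits of the points of the basin reach the sector
  have hne1 : ∀ z ∈ Bas g c₀, ∀ m : ℕ, (fun x : ℂ => g.eval x)^[m] z ≠ 1 := by
    intro z hz m h
    exact b1 (h ▸ (hiter m z).2 hz)
  have hreach : ∀ z ∈ Bas g c₀, ∃ m : ℕ, ww g z m ∈ Sec R := by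
    intro z hz
    have t1 : Tendsto (fun m => 1 - (fun x : ℂ => g.eval x)^[m] z) atTop (𝓝 0) := by
      have := (tendsto_const_nhds (x := (1 : ℂ))).sub (btend z hz)
      rwa [sub_self] at this
    have t2 : ∀ᶠ m in atTop, ‖1 - (fun x : ℂ => g.eval x)^[m] z‖ < 1 / (R₀ + 1) := by
      have := (tendsto_order.1 (tendsto_norm_zero.comp t1)).2 (1 / (R₀ + 1)) (by positivity)
      exact this
    obtain ⟨M, hM⟩ := eventually_atTop.1 t2
    have hbig : ∀ m ≥ M, R₀ < ‖ww g z m‖ := by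
      intro m hm
      have h3 := hM m hm
      have h4 : 0 < ‖1 - (fun x : ℂ => g.eval x)^[m] z‖ := norm_pos_iff.2 (sub_ne_zero.2 (hne1 z hz m).symm)
      unfold ww
      rw [norm_inv, lt_inv_comm₀ (by linarith) h4]
      refine h3.trans ?_
      rw [one_div]
      exact inv_strictAnti₀ (by linarith) (by linarith)
    have hre : ∀ k : ℕ, (ww g z M).re + k * (a / 2) ≤ (ww g z (M + k)).re := by
      intro k
      induction k with
      | zero => simp
      | succ k ih =>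
        rw [← add_assoc, ww_succ]
        have := hstep _ (hbig (M + k) (by omega))
        push_cast
        linarith
    obtain ⟨k, hk⟩ := exists_nat_gt ((R - (ww g z M).re) / (a / 2))
    rw [div_lt_iff₀ (by positivity)] at hk
    refine ⟨M + k, ?_⟩
    show R < (ww g z (M + k)).re + |(ww g z (M + k)).im|
    have := hre k
    have := abs_nonneg (ww g z (M + k)).im
    linarith
  classical
  -- the coordinate
  obtain ⟨Φ, hΦ⟩ : ∃ Φ : ℂ → ℂ, ∀ (z : ℂ) (m : ℕ), ww g z m ∈ Sec R → Φ z = Φ₀ (ww g z m) - m := by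
    refine ⟨fun z => if h : ∃ m, ww g z m ∈ Sec R then Φ₀ (ww g z (Nat.find h)) - Nat.find h else 0, ?_⟩
    intro z m hm
    have hex : ∃ m, ww g z m ∈ Sec R := ⟨m, hm⟩
    simp only [dif_pos hex]
    have h3 := Nat.find_min' hex hm
    obtain ⟨k, hk⟩ := Nat.exists_eq_add_of_le h3
    obtain ⟨-, o2, -⟩ := horb z (Nat.find hex) (Nat.find_spec hex) k
    rw [← hk] at o2
    rw [o2]
    have h4 : ((m : ℕ) : ℂ) = (Nat.find hex : ℂ) + k := by
      exact_mod_cast hk
    rw [h4]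
    ring
  have hev : ∀ z ∈ Bas g c₀, ∃ m₀ : ℕ, ∀ m ≥ m₀, ww g z m ∈ Sec R := by
    intro z hz
    obtain ⟨m, hm⟩ := hreach z hz
    refine ⟨m, fun k hk => ?_⟩
    obtain ⟨j, rfl⟩ := Nat.exists_eq_add_of_le hk
    exact (horb z m hm j).1
  have hdiffw : ∀ z ∈ Bas g c₀, ∀ m : ℕ, DifferentiableAt ℂ (fun y => ww g y m) z := by
    intro z hz m
    have hd : Differentiable ℂ (fun x : ℂ => g.eval x)^[m] := by
      have : Differentiable ℂ (fun x : ℂ => g.eval x) := g.differentiable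
      exact this.iterate m
    unfold ww
    exact ((differentiableAt_const _).sub (hd z)).inv (sub_ne_zero.2 (hne1 z hz m).symm)
  have hloc : ∀ z ∈ Bas g c₀, ∀ m : ℕ, ww g z m ∈ Sec R → Φ =ᶠ[𝓝 z] fun y => Φ₀ (ww g y m) - m := by
    intro z hz m hm
    filter_upwards [(hdiffw z hz m).continuousAt.eventually ((sec_open R).mem_nhds hm)] with y hy
    exact hΦ y m hy
  have hd0 : ∀ v ∈ Sec R, DifferentiableAt ℂ Φ₀ v := fun v hv => (dΦ₀ v hv).differentiableAt ((sec_open R).mem_nhds hv)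
  have hsemΦ : ∀ z ∈ Bas g c₀, Φ (g.eval z) = Φ z + 1 := by
    intro z hz
    obtain ⟨m, hm⟩ := hev z hz
    have e1 := hΦ (g.eval z) m (by rw [ww_shift]; exact hm (m + 1) (by omega))
    have e2 := hΦ z (m + 1) (hm (m + 1) (by omega))
    rw [e1, e2, ww_shift]
    push_cast
    ring
  have hfib : ∀ z ∈ Bas g c₀, ∀ z' ∈ Bas g c₀, Φ z = Φ z' →
      ∃ m : ℕ, (fun x : ℂ => g.eval x)^[m] z = (fun x : ℂ => g.eval x)^[m] z' := by
    intro z hz z' hz' h
    obtain ⟨m, hm⟩ := hev z hz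
    obtain ⟨m', hm'⟩ := hev z' hz'
    have k1 := hm (m + m') (by omega)
    have k2 := hm' (m + m') (by omega)
    refine ⟨m + m', ?_⟩
    rw [hΦ z _ k1, hΦ z' _ k2] at h
    have e1 : ww g z (m + m') = ww g z' (m + m') := hinj k1 k2 (by linear_combination h)
    rw [← ww_inv, ← ww_inv, e1]
  have hsurjg : Function.Surjective (fun x : ℂ => g.eval x) := by
    intro y
    have hdeg : 0 < g.degree := by
      rw [← Polynomial.natDegree_pos_iff_degree_pos, hg.deg]
      have := hg.n3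
      omega
    obtain ⟨x, hx⟩ := IsAlgClosed.exists_root (g - Polynomial.C y) (by
      rw [Polynomial.degree_sub_C hdeg]
      exact hdeg.ne')
    refine ⟨x, ?_⟩
    have : g.eval x - y = 0 := by simpa [Polynomial.IsRoot] using hx
    exact sub_eq_zero.1 this
  have hbig : ∀ W : ℂ, ∃ m : ℕ, R₂ < (W + m).re + |(W + m).im| / 2 := by
    intro W
    obtain ⟨m, hm⟩ := exists_nat_gt (R₂ - W.re)
    refine ⟨m, ?_⟩
    simp only [Complex.add_re, Complex.natCast_re]
    have := abs_nonneg (W + m).im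
    linarith
  have hΦsec : ∀ v ∈ Sec R, Φ (1 - v⁻¹) = Φ₀ v := by
    intro v hv
    have h3 := hΦ (1 - v⁻¹) 0 (by rw [ww_zero]; exact hv)
    rw [h3, ww_zero]
    simp
  -- the limit formula
  have hlim : ∀ z ∈ Bas g c₀, Tendsto (fun m : ℕ => ww g z m / a - ka g * Complex.log (ww g z m) - m) atTop
      (𝓝 (Φ z)) := by
    intro z hz
    obtain ⟨m₀, hm₀⟩ := hev z hz
    have hn : Tendsto (fun m : ℕ => ‖ww g z m‖) atTop atTop := by
      have t1 : Tendsto (fun k : ℕ => (ww g z m₀).re + k * (a / 2)) atTop atTop :=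
        tendsto_atTop_add_const_left _ _ (tendsto_natCast_atTop_atTop.atTop_mul_const (by positivity))
      have t2 : Tendsto (fun k : ℕ => ‖ww g z (k + m₀)‖) atTop atTop := by
        refine tendsto_atTop_mono (fun k => ?_) t1
        have h3 := (horb z m₀ (hm₀ m₀ le_rfl) k).2.2
        rw [add_comm k m₀]
        exact h3.trans ((le_abs_self _).trans (Complex.abs_re_le_norm _))
      exact (tendsto_add_atTop_iff_nat m₀).1 t2
    rw [tendsto_iff_norm_sub_tendsto_zero]
    have t3 : Tendsto (fun m : ℕ => C / ‖ww g z m‖) atTop (𝓝 0) := hn.const_div_atTop C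
    refine squeeze_zero' (Eventually.of_forall fun m => norm_nonneg _) ?_ t3
    filter_upwards [eventually_ge_atTop m₀] with m hm
    have h3 := hm₀ m hm
    have h4 := hasyΦ _ h3
    rw [hΦ z m h3]
    have h5 : ka g = ga g / (a : ℂ) ^ 2 := by
      unfold ka
      rw [hal]
    rw [h5, ← norm_neg]
    have e : -(ww g z m / (a : ℂ) - ga g / (a : ℂ) ^ 2 * Complex.log (ww g z m) - m - (Φ₀ (ww g z m) - m)) =
      Φ₀ (ww g z m) - (ww g z m / (a : ℂ) - ga g / (a : ℂ) ^ 2 * Complex.log (ww g z m)) := by ring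
    rw [e]
    exact h4
  have hconjE : ∀ z : ℂ, ∀ m : ℕ, (fun x : ℂ => g.eval x)^[m] (conj z) = conj ((fun x : ℂ => g.eval x)^[m] z) := by
    intro z m
    induction m with
    | zero => rfl
    | succ m ih =>
      rw [Function.iterate_succ_apply', Function.iterate_succ_apply', ih]
      exact conj_eval hgc _
  have hrealΦ : ∀ z ∈ Bas g c₀, Φ (conj z) = conj (Φ z) := by
    intro z hz
    have t1 := hlim z hz
    have t2 := hlim (conj z) (bconj z hz)
    have t3 : Tendsto (fun m : ℕ => conj (ww g z m / a - ka g * Complex.log (ww g z m) - m)) atTop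
      (𝓝 (conj (Φ z))) := (Complex.continuous_conj.tendsto _).comp t1
    refine tendsto_nhds_unique t2 (t3.congr' ?_)
    obtain ⟨m₀, hm₀⟩ := hev z hz
    obtain ⟨k, hk⟩ := exists_nat_gt ((0 - (ww g z m₀).re) / (a / 2))
    rw [div_lt_iff₀ (by positivity)] at hk
    filter_upwards [eventually_ge_atTop (m₀ + k)] with m hm
    obtain ⟨j, rfl⟩ := Nat.exists_eq_add_of_le hm
    have h3 := (horb z m₀ (hm₀ m₀ le_rfl) (k + j)).2.2
    rw [← add_assoc] at h3
    push_cast at h3
    have h4 : (0 : ℝ) ≤ j * (a / 2) := by positivity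
    have hre : 0 < (ww g z (m₀ + k + j)).re := by nlinarith
    have h5 : ww g (conj z) (m₀ + k + j) = conj (ww g z (m₀ + k + j)) := by
      unfold ww
      rw [hconjE, map_inv₀, map_sub, map_one]
    have h6 : (ww g z (m₀ + k + j)).arg ≠ Real.pi := by
      intro h7
      have := (Complex.arg_eq_pi_iff.1 h7).1
      linarith
    rw [h5, Complex.log_conj _ h6, map_sub, map_sub, map_mul, hkac, map_div₀, Complex.conj_ofReal, Complex.conj_natCast]
  refine ⟨Φ, R, C, ?_⟩
  refine ⟨hRpos, hCpos, ?_, hsemΦ, hfib, ?_, ?_, hrealΦ, ?_, ?_⟩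
  · intro z hz
    obtain ⟨m, hm⟩ := hreach z hz
    have hd1 : DifferentiableAt ℂ (fun y => Φ₀ (ww g y m) - m) z :=
      (DifferentiableAt.comp (g := Φ₀) z (hd0 _ hm) (hdiffw z hz m)).sub_const _
    exact (hd1.congr_of_eventuallyEq (hloc z hz m hm)).differentiableWithinAt
  · intro W
    obtain ⟨m, hm⟩ := hbig W
    obtain ⟨v, hv, hvW⟩ := hsurj _ hm
    obtain ⟨z, hz⟩ := (hsurjg.iterate m) (1 - v⁻¹)
    have hw : ww g z m = v := by
      unfold ww
      rw [hz, sub_sub_cancel, inv_inv]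
    refine ⟨z, ?_, ?_⟩
    · rw [← hiter m, hz]
      exact hsecB v hv
    · rw [hΦ z m (by rw [hw]; exact hv), hw, hvW]
      ring
  · intro W
    obtain ⟨m, hm⟩ := hbig W
    obtain ⟨v, hv, hvW⟩ := hsurj _ hm
    have hv0 : v ≠ 0 := hsec0 v hv
    refine ⟨m, 1 - v⁻¹, hsecB v hv, ?_, ?_⟩
    · rw [hΦsec v hv, hvW]
    · have hw0 : ww g (1 - v⁻¹) 0 = v := ww_zero g v
      have hl := hloc (1 - v⁻¹) (hsecB v hv) 0 (by rw [hw0]; exact hv)
      rw [hl.deriv_eq]
      have d1 : HasDerivAt (fun y : ℂ => ww g y 0) (v ^ 2) (1 - v⁻¹) := by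
        have d2 : HasDerivAt (fun y : ℂ => 1 - y) (-1) (1 - v⁻¹) := by
          simpa using (hasDerivAt_id (1 - v⁻¹)).const_sub 1
        have d3 := d2.inv (by rw [sub_sub_cancel]; exact inv_ne_zero hv0)
        have e1 : -(-1 : ℂ) / (1 - (1 - v⁻¹)) ^ 2 = v ^ 2 := by
          rw [sub_sub_cancel]
          field_simp
        rw [e1] at d3
        exact d3
      have d4 : HasDerivAt Φ₀ (deriv Φ₀ v) (ww g (1 - v⁻¹) 0) := by
        rw [hw0]
        exact (hd0 v hv).hasDerivAt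
      have d5 := (d4.comp (1 - v⁻¹) d1).sub_const ((0 : ℕ) : ℂ)
      have d6 : HasDerivAt (fun y => Φ₀ (ww g y 0) - ((0 : ℕ) : ℂ)) (deriv Φ₀ v * v ^ 2) (1 - v⁻¹) := d5
      rw [d6.deriv]
      exact mul_ne_zero (hder v hv) (pow_ne_zero _ hv0)
  · intro z hz h
    have e1 : Φ (conj z) = Φ z := by
      rw [hrealΦ z hz]
      exact Complex.conj_eq_iff_im.2 h
    obtain ⟨m, hm⟩ := hfib _ (bconj z hz) z hz e1
    refine ⟨m, ?_⟩
    rw [hconjE] at hm
    exact Complex.conj_eq_iff_im.1 hm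
  · intro v hv
    have hv' : v ∈ Sec R := hv
    refine ⟨hsecB v hv', ?_⟩
    rw [hΦsec v hv']
    have h4 := hasyΦ v hv'
    have h5 : ka g = ga g / (a : ℂ) ^ 2 := by
      unfold ka
      rw [hal]
    rw [h5, hal]
    exact h4

end Pool.Agent.H212.ND
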