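import Pool.Agent.H212.ND.StmN

/-!
# JOB FCC: Fatou coordinates, assembly and the lower end of the cylinder
-/

set_option autoImplicit false

open Filter Metric Set Topology Polynomial
open scoped ComplexConjugate

namespace Pool.Agent.H212.ND

open Pool.Agent.H212.MB

namespace FCCaux

theorem eval_one_im (g : ℂ[X]) (h : ∀ i, (g.coeff i).im = 0) : (g.eval 1).im = 0 := by
  rw [Polynomial.eval_eq_sum_range]
  simp only [one_pow, mul_one]
  rw [Complex.im_sum]
  exact Finset.sum_eq_zero fun i _ => h i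

theorem der_im (g : ℂ[X]) (h : ∀ i, (g.coeff i).im = 0) : ∀ i, (g.derivative.coeff i).im = 0 := by
  intro i
  rw [Polynomial.coeff_derivative]
  have h1 : ((i : ℂ) + 1) = (((i : ℝ) + 1 : ℝ) : ℂ) := by push_cast; rfl
  rw [h1, Complex.im_mul_ofReal, h (i + 1), zero_mul]

theorem of_im {z : ℂ} (h : z.im = 0) : z = ((z.re : ℝ) : ℂ) := by
  apply Complex.ext
  · simp
  · simp [h]

theorem al_real {n : ℕ} {g : ℂ[X]} {c₀ : ℝ} {c : ℂ} (hg : Good n g c₀ c) :
    ∃ a : ℝ, 0 < a ∧ al g = (a : ℂ) := by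
  have h1 := eval_one_im _ (der_im _ (der_im _ hg.real))
  refine ⟨(g.derivative.derivative.eval 1).re / 2, by have := hg.der2; linarith, ?_⟩
  rw [al]
  conv_lhs => rw [of_im h1]
  push_cast
  rfl

theorem ka_real {n : ℕ} {g : ℂ[X]} {c₀ : ℝ} {c : ℂ} (hg : Good n g c₀ c) :
    ∃ κ : ℝ, ka g = (κ : ℂ) := by
  obtain ⟨a, -, ha⟩ := al_real hg
  have h1 := eval_one_im _ (der_im _ (der_im _ (der_im _ hg.real)))
  refine ⟨(a ^ 2 - (g.derivative.derivative.derivative.eval 1).re / 6) / a ^ 2, ?_⟩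
  rw [ka, ga, ha]
  conv_lhs => rw [of_im h1]
  push_cast
  rfl

/-- The point `v` is in the attracting region. -/
theorem low_aux {a κ R C : ℝ} (ha : 0 < a) (hR : 0 < R) (hC : 0 < C) : ∃ Y : ℝ, 1 ≤ Y ∧
    ∀ w v : ℂ, -R - 2 ≤ w.re → w.re ≤ -R - 1 → w.im < -Y → ‖w‖ ≤ C * ‖v‖ → ‖v‖ ≤ C * ‖w‖ →
      ‖v / a - κ * Complex.log (-v) + Complex.I * Real.pi * κ - w‖ ≤ C / ‖w‖ →
        v.im < 0 ∧ R < v.re + |v.im| := by
  set δ : ℝ := 1 / (2 * (|κ| + 1) * C) with hδ
  have hκ0 : 0 ≤ |κ| := abs_nonneg κ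
  have hδ0 : 0 < δ := by positivity
  have hδ1 : |κ| * (δ * C) ≤ 1 / 2 := by
    have e : δ * C = 1 / (2 * (|κ| + 1)) := by
      rw [hδ]
      field_simp
    rw [e, mul_one_div, div_le_div_iff₀ (by positivity) (by norm_num)]
    linarith
  have hL0 : 0 ≤ |Real.log δ| := abs_nonneg _
  refine ⟨2 * (R / a + 2 * Real.pi * |κ| + 2 * C + R + 2 + (R + 2) / 2 + |κ| * |Real.log δ|)
    + C + 1, ?_, ?_⟩
  · have := Real.pi_pos
    have h1 : 0 ≤ R / a := by positivity
    have h2 : 0 ≤ 2 * Real.pi * |κ| := by positivity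
    have h3 : 0 ≤ |κ| * |Real.log δ| := by positivity
    linarith
  intro w v h1 h2 h3 h4 h5 h6
  have hpi := Real.pi_pos
  have p1 : 0 ≤ R / a := by positivity
  have p2 : 0 ≤ 2 * Real.pi * |κ| := by positivity
  have p3 : 0 ≤ |κ| * |Real.log δ| := by positivity
  set y : ℝ := -w.im with hy
  have hyY : 2 * (R / a + 2 * Real.pi * |κ| + 2 * C + R + 2 + (R + 2) / 2 + |κ| * |Real.log δ|)
    + C + 1 < y := by linarith
  have hy0 : 0 < y := by linarith
  have hyw : y ≤ ‖w‖ := by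
    have := Complex.abs_im_le_norm w
    have h7 := neg_abs_le w.im
    linarith
  have hw0 : 0 < ‖w‖ := lt_of_lt_of_le hy0 hyw
  have hwy : ‖w‖ ≤ R + 2 + y := by
    refine (Complex.norm_le_abs_re_add_abs_im w).trans ?_
    rw [abs_of_nonpos (by linarith : w.re ≤ 0), abs_of_nonpos (by linarith : w.im ≤ 0)]
    linarith
  have hv0 : 0 < ‖v‖ := by
    by_contra hcon
    have : ‖v‖ = 0 := le_antisymm (not_lt.1 hcon) (norm_nonneg _)
    rw [this, mul_zero] at h4
    linarith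
  have hv1 : 1 ≤ ‖v‖ := by
    by_contra hcon
    push Not at hcon
    have : C * ‖v‖ < C * 1 := mul_lt_mul_of_pos_left hcon hC
    linarith
  set E : ℂ := v / a - κ * Complex.log (-v) + Complex.I * Real.pi * κ - w with hE
  have hEn : ‖E‖ ≤ C := by
    refine h6.trans ?_
    rw [div_le_iff₀ hw0]
    have : C * 1 ≤ C * ‖w‖ := mul_le_mul_of_nonneg_left (by linarith) hC.le
    linarith
  have hEre := (abs_le.1 ((Complex.abs_re_le_norm E).trans hEn))
  have hEim := (abs_le.1 ((Complex.abs_im_le_norm E).trans hEn))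
  have ha' : (a : ℂ) ≠ 0 := by exact_mod_cast ha.ne'
  have hv : v = a * (w + κ * Complex.log (-v) - Complex.I * Real.pi * κ + E) := by
    rw [hE]
    field_simp
    ring
  have hlre : (Complex.log (-v)).re = Real.log ‖v‖ := by
    rw [Complex.log_re, norm_neg]
  have hvre : v.re = a * (w.re + κ * Real.log ‖v‖ + E.re) := by
    conv_lhs => rw [hv]
    rw [Complex.re_ofReal_mul]
    congr 1
    simp only [Complex.add_re, Complex.sub_re, Complex.re_ofReal_mul, hlre, Complex.mul_re,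
      Complex.mul_im, Complex.I_re, Complex.I_im, Complex.ofReal_re, Complex.ofReal_im]
    ring
  have hvim : v.im = a * (w.im + κ * (Complex.log (-v)).im - Real.pi * κ + E.im) := by
    conv_lhs => rw [hv]
    rw [Complex.im_ofReal_mul]
    congr 1
    simp only [Complex.add_im, Complex.sub_im, Complex.im_ofReal_mul, Complex.mul_re,
      Complex.mul_im, Complex.I_re, Complex.I_im, Complex.ofReal_re, Complex.ofReal_im]
    ring
  have hlim : |(Complex.log (-v)).im| ≤ Real.pi := by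
    rw [Complex.log_im]
    exact Complex.abs_arg_le_pi _
  have hκl : κ * (Complex.log (-v)).im ≤ |κ| * Real.pi := by
    refine (le_abs_self _).trans ?_
    rw [abs_mul]
    exact mul_le_mul_of_nonneg_left hlim hκ0
  have hκp : -(Real.pi * κ) ≤ Real.pi * |κ| := by
    have := neg_abs_le κ
    nlinarith
  have him : v.im ≤ a * (-y + 2 * Real.pi * |κ| + C) := by
    rw [hvim]
    refine mul_le_mul_of_nonneg_left ?_ ha.le
    linarith [hEim.2]
  have hlog0 : 0 ≤ Real.log ‖v‖ := Real.log_nonneg hv1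
  have hlog : Real.log ‖v‖ ≤ δ * (C * (R + 2 + y)) + |Real.log δ| := by
    have q1 : ‖v‖ ≤ C * (R + 2 + y) := h5.trans (mul_le_mul_of_nonneg_left hwy hC.le)
    have q2 : Real.log (δ * ‖v‖) ≤ δ * ‖v‖ - 1 :=
      Real.log_le_sub_one_of_pos (by positivity)
    rw [Real.log_mul hδ0.ne' hv0.ne'] at q2
    have q3 : δ * ‖v‖ ≤ δ * (C * (R + 2 + y)) := mul_le_mul_of_nonneg_left q1 hδ0.le
    have q4 := neg_abs_le (Real.log δ)
    linarith
  have hκlog : -(κ * Real.log ‖v‖) ≤ (R + 2 + y) / 2 + |κ| * |Real.log δ| := by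
    have q1 : -(κ * Real.log ‖v‖) ≤ |κ| * Real.log ‖v‖ := by
      have := neg_abs_le κ
      nlinarith
    have q2 : |κ| * Real.log ‖v‖ ≤ |κ| * (δ * (C * (R + 2 + y)) + |Real.log δ|) :=
      mul_le_mul_of_nonneg_left hlog hκ0
    have q3 : |κ| * (δ * C) * (R + 2 + y) ≤ 1 / 2 * (R + 2 + y) :=
      mul_le_mul_of_nonneg_right hδ1 (by linarith)
    have q4 : |κ| * (δ * (C * (R + 2 + y)) + |Real.log δ|) =
      |κ| * (δ * C) * (R + 2 + y) + |κ| * |Real.log δ| := by ring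
    linarith
  have hre : a * (-(R + 2) - ((R + 2 + y) / 2 + |κ| * |Real.log δ|) - C) ≤ v.re := by
    rw [hvre]
    refine mul_le_mul_of_nonneg_left ?_ ha.le
    linarith [hEre.1]
  have hneg : v.im < 0 := by
    refine lt_of_le_of_lt him ?_
    apply mul_neg_of_pos_of_neg ha
    linarith
  refine ⟨hneg, ?_⟩
  rw [abs_of_neg hneg]
  have key : R < a * ((y - 2 * Real.pi * |κ| - C) +
      (-(R + 2) - ((R + 2 + y) / 2 + |κ| * |Real.log δ|) - C)) := by
    have q1 : R / a < (y - 2 * Real.pi * |κ| - C) +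
      (-(R + 2) - ((R + 2 + y) / 2 + |κ| * |Real.log δ|) - C) := by linarith
    rwa [div_lt_iff₀ ha, mul_comm] at q1
  have : a * ((y - 2 * Real.pi * |κ| - C) +
      (-(R + 2) - ((R + 2 + y) / 2 + |κ| * |Real.log δ|) - C)) =
      -(a * (-y + 2 * Real.pi * |κ| + C)) +
        a * (-(R + 2) - ((R + 2 + y) / 2 + |κ| * |Real.log δ|) - C) := by ring
  linarith

theorem log_neg_of_im {v : ℂ} (h : v.im < 0) :
    Complex.log (-v) = Complex.log v + Real.pi * Complex.I := by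
  rw [Complex.log, Complex.log, norm_neg, Complex.arg_neg_eq_arg_add_pi_of_im_neg h]
  push_cast
  ring

end FCCaux

open FCCaux in
theorem t_FCC (h1 : S_FCA) (h2 : S_FCR) (h3 : S_BASN) : S_FCC := by
  intro n g c₀ c hg
  obtain ⟨Φ, R₁, C₁, hA⟩ := h1 n g c₀ c hg
  obtain ⟨ψ, R₂, C₂, hB⟩ := h2 n g c₀ c hg
  obtain ⟨-, -, hinv, -, -, -, hge, -, -⟩ := h3 n g c₀ c hg
  obtain ⟨a, ha, hal⟩ := al_real hg
  obtain ⟨κ, hκ⟩ := ka_real hg
  set R := max R₁ R₂ with hR
  set C := max C₁ C₂ with hC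
  have hRpos : 0 < R := lt_of_lt_of_le hA.Rpos (le_max_left _ _)
  have hCpos : 0 < C := lt_of_lt_of_le hA.Cpos (le_max_left _ _)
  have asyΦ : ∀ v : ℂ, R < v.re + |v.im| → (1 - v⁻¹) ∈ Bas g c₀ ∧
      ‖Φ (1 - v⁻¹) - (v / al g - ka g * Complex.log v)‖ ≤ C / ‖v‖ := by
    intro v hv
    obtain ⟨k1, k2⟩ := hA.asyΦ v (lt_of_le_of_lt (le_max_left _ _) hv)
    exact ⟨k1, k2.trans (div_le_div_of_nonneg_right (le_max_left _ _) (norm_nonneg _))⟩
  have asyψ : ∀ w : ℂ, R < -w.re + |w.im| → ψ w ≠ 1 ∧ ‖w‖ ≤ C * ‖(1 - ψ w)⁻¹‖ ∧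
      ‖(1 - ψ w)⁻¹‖ ≤ C * ‖w‖ ∧
      ‖(1 - ψ w)⁻¹ / al g - ka g * Complex.log (-(1 - ψ w)⁻¹) +
        Complex.I * Real.pi * ka g - w‖ ≤ C / ‖w‖ := by
    intro w hw
    obtain ⟨k1, k2, k3, k4⟩ := hB.asyψ w (lt_of_le_of_lt (le_max_right _ _) hw)
    exact ⟨k1, k2.trans (mul_le_mul_of_nonneg_right (le_max_right _ _) (norm_nonneg _)),
      k3.trans (mul_le_mul_of_nonneg_right (le_max_right _ _) (norm_nonneg _)),
      k4.trans (div_le_div_of_nonneg_right (le_max_right _ _) (norm_nonneg _))⟩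
  -- periodicity
  have per : ∀ (w : ℂ) (k : ℕ), (ψ (w + k) ∈ Bas g c₀ ↔ ψ w ∈ Bas g c₀) ∧
      (ψ w ∈ Bas g c₀ → Φ (ψ (w + k)) = Φ (ψ w) + k) := by
    intro w k
    induction k with
    | zero => simp
    | succ k ih =>
      have e : w + ((k + 1 : ℕ) : ℂ) = (w + k) + 1 := by push_cast; ring
      rw [e, hB.semψ]
      refine ⟨(hinv _).trans ih.1, fun hw => ?_⟩
      rw [hA.semΦ _ (ih.1.2 hw), ih.2 hw]
      push_cast
      ring
  have perZ : ∀ (w : ℂ) (k : ℤ), ψ (w + k) ∈ Bas g c₀ →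
      ψ w ∈ Bas g c₀ ∧ Φ (ψ (w + k)) - (w + k) = Φ (ψ w) - w := by
    intro w k hk
    obtain ⟨m, rfl | rfl⟩ := k.eq_nat_or_neg
    · have := per w m
      push_cast at hk ⊢
      refine ⟨this.1.1 hk, ?_⟩
      rw [this.2 (this.1.1 hk)]
      ring
    · have := per (w + ((-(m : ℤ) : ℤ) : ℂ)) m
      have e : w + ((-(m : ℤ) : ℤ) : ℂ) + m = w := by push_cast; ring
      rw [e] at this
      refine ⟨this.1.2 hk, ?_⟩
      rw [this.2 hk]
      push_cast
      ring
  refine ⟨Φ, ψ, R, C, hRpos, hCpos, hA.dΦ, hA.semΦ, hA.fib, hA.surj, hA.petal, hA.realΦ, hA.imΦ,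
    asyΦ, hB.dψ, hB.semψ, ?_, hB.limψ, hB.back, asyψ, ?_, ?_⟩
  · refine hB.injψ.mono fun w hw => ?_
    have h4 : w.re < -R := hw
    have h5 : R₂ ≤ R := le_max_right _ _
    show w.re < -R₂
    linarith
  · intro ε hε
    obtain ⟨Y, hY1, hY⟩ := low_aux (κ := κ) ha hRpos hCpos
    refine ⟨max Y ((C * C + C) / ε), fun w hw => ?_⟩
    have main : ∀ w : ℂ, -R - 2 ≤ w.re → w.re ≤ -R - 1 → w.im < -max Y ((C * C + C) / ε) →
        ψ w ∈ Bas g c₀ ∧ ‖Φ (ψ w) - w‖ ≤ ε := by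
      intro w w1 w2 w3
      have w4 : w.im < -Y := lt_of_lt_of_le w3 (neg_le_neg (le_max_left _ _))
      have w5 : w.im < -((C * C + C) / ε) := lt_of_lt_of_le w3 (neg_le_neg (le_max_right _ _))
      obtain ⟨k1, k2, k3, k4⟩ := asyψ w (by have := abs_nonneg w.im; linarith)
      set v := (1 - ψ w)⁻¹ with hv
      have k4' := k4
      rw [hal, hκ] at k4'
      obtain ⟨m1, m2⟩ := hY w v w1 w2 w4 k2 k3 k4'
      have hvv : 1 - v⁻¹ = ψ w := by rw [hv, inv_inv]; ring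
      obtain ⟨n1, n2⟩ := asyΦ v m2
      rw [hvv] at n1 n2
      refine ⟨n1, ?_⟩
      have hyw : -w.im ≤ ‖w‖ := by
        have h6 := Complex.abs_im_le_norm w
        have h7 := neg_abs_le w.im
        linarith
      have hw0 : 0 < ‖w‖ := by linarith
      have hv0 : 0 < ‖v‖ := by
        by_contra hcon
        have : ‖v‖ = 0 := le_antisymm (not_lt.1 hcon) (norm_nonneg _)
        rw [this, mul_zero] at k2
        linarith
      have e1 : Φ (ψ w) - w = (Φ (ψ w) - (v / al g - ka g * Complex.log v)) +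
          (v / al g - ka g * Complex.log (-v) + Complex.I * Real.pi * ka g - w) := by
        rw [log_neg_of_im m1]
        ring
      have e2 : C / ‖v‖ ≤ C * C / ‖w‖ := by
        rw [div_le_div_iff₀ hv0 hw0]
        have := mul_le_mul_of_nonneg_left k2 hCpos.le
        linarith
      have e3 : C * C / ‖w‖ + C / ‖w‖ ≤ ε := by
        rw [← add_div, div_le_iff₀ hw0]
        have h8 : (C * C + C) / ε ≤ ‖w‖ := by linarith
        rw [div_le_iff₀ hε] at h8
        linarith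
      calc ‖Φ (ψ w) - w‖ = ‖(Φ (ψ w) - (v / al g - ka g * Complex.log v)) +
          (v / al g - ka g * Complex.log (-v) + Complex.I * Real.pi * ka g - w)‖ := by rw [← e1]
        _ ≤ C / ‖v‖ + C / ‖w‖ := (norm_add_le _ _).trans (add_le_add n2 k4)
        _ ≤ C * C / ‖w‖ + C / ‖w‖ := by linarith
        _ ≤ ε := e3
    set k : ℤ := ⌊-R - 1 - w.re⌋ with hk
    have f1 : (k : ℝ) ≤ -R - 1 - w.re := Int.floor_le _
    have f2 : -R - 1 - w.re < k + 1 := Int.lt_floor_add_one _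
    have f3 : (w + (k : ℂ)).re = w.re + k := by simp
    have f4 : (w + (k : ℂ)).im = w.im := by simp
    obtain ⟨g1, g2⟩ := main (w + k) (by rw [f3]; linarith) (by rw [f3]; linarith) (by rw [f4]; exact hw)
    obtain ⟨g3, g4⟩ := perZ w k g1
    rw [g4] at g2
    exact ⟨g3, g2⟩
  · refine ⟨Real.pi * κ, fun x => ?_⟩
    obtain ⟨y, hy1, hy2⟩ := hB.real x
    have e : (x : ℂ) + ((Real.pi * κ : ℝ) : ℂ) * Complex.I =
        x + Complex.I * Real.pi * ka g := by
      rw [hκ]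
      push_cast
      ring
    rw [e, hy2]
    exact hge y hy1.le

end Pool.Agent.H212.ND
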