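import Pool.Agent.H212.ND.T_FCRc

/-!
# Job FCR: the repelling Fatou coordinate
-/

set_option autoImplicit false

open Filter Metric Set Topology Polynomial
open scoped ComplexConjugate

namespace Pool.Agent.H212.ND

open Pool.Agent.H212.MB

namespace FCRaux

theorem real_der {g : ℂ[X]} (hr : ∀ i, (g.coeff i).im = 0) (i : ℕ) :
    (g.derivative.coeff i).im = 0 := by
  rw [Polynomial.coeff_derivative]
  have h : ((i : ℂ) + 1) = (((i : ℝ) + 1 : ℝ) : ℂ) := by push_cast; ring
  rw [h, Complex.im_mul_ofReal, hr, zero_mul]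

theorem real_real {g : ℂ[X]} (hr : ∀ i, (g.coeff i).im = 0) (x : ℝ) :
    (g.eval (x : ℂ)).im = 0 := by
  have h := eval_conj hr (x : ℂ)
  rw [Complex.conj_ofReal] at h
  exact Complex.conj_eq_iff_im.1 h.symm

theorem real_one {g : ℂ[X]} (hr : ∀ i, (g.coeff i).im = 0) : (g.eval 1).im = 0 := by
  have h := real_real hr 1
  rwa [Complex.ofReal_one] at h

section fin

variable {g : ℂ[X]} {H Φ S : ℂ → ℂ} {R₀ C₀ r₁ a κ R R₂ C : ℝ}

theorem back_aux (L : Loc g H R₀ C₀ r₁) (F : Fat H Φ a κ R R₂ C) (I : Inv Φ S R R₂)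
    (hR : R₀ < R / 2) (hal : al g = a) (h1 : g.eval 1 = 1) (z : ℕ → ℂ)
    (hz : ∀ m, g.eval (z (m + 1)) = z m) (hlim : Tendsto z atTop (𝓝 1)) (hne : ∃ m, z m ≠ 1) :
    ∃ w : ℂ, ∀ m : ℕ, z m = Psi g S R₂ (w - m) := by
  have ha := F.apos
  have hC0 := L.C0
  obtain ⟨m₀, hm₀⟩ := hne
  have hne' : ∀ j : ℕ, z (m₀ + j) ≠ 1 := by
    intro j
    induction j with
    | zero => exact hm₀
    | succ j ih =>
      intro h0
      apply ih
      rw [← hz (m₀ + j)]
      have h2 : m₀ + j + 1 = m₀ + (j + 1) := by ring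
      rw [h2, h0, h1]
  set Q : ℝ := 1 + 2 * (‖ga g‖ + C₀) / a with hQ
  have hQ1 : 1 ≤ Q := by
    have : 0 ≤ 2 * (‖ga g‖ + C₀) / a := by positivity
    linarith
  have hsm : ∀ᶠ m in atTop, ‖z m - 1‖ < r₁ ∧ ‖z m - 1‖ < Q⁻¹ := by
    have h2 : Tendsto (fun m => ‖z m - 1‖) atTop (𝓝 0) := by
      have h3 := (hlim.sub_const 1).norm
      rwa [sub_self, norm_zero] at h3
    exact (h2.eventually (gt_mem_nhds L.r1)).and
      (h2.eventually (gt_mem_nhds (inv_pos.2 (by linarith))))
  obtain ⟨m₁, hm₁⟩ := eventually_atTop.1 hsm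
  obtain ⟨m₂, hm₂⟩ : ∃ m₂, m₀ ≤ m₂ ∧ m₁ ≤ m₂ := ⟨max m₀ m₁, le_max_left _ _, le_max_right _ _⟩
  have ht0 : ∀ m, m₂ ≤ m → z m - 1 ≠ 0 := by
    intro m hm h0
    obtain ⟨j, hj⟩ := Nat.exists_eq_add_of_le (hm₂.1.trans hm)
    apply hne' j
    rw [← hj]
    exact sub_eq_zero.1 h0
  set x : ℕ → ℂ := fun m => (z m - 1)⁻¹ with hx
  have hxH : ∀ m, m₂ ≤ m → R₀ < ‖x m‖ ∧ H (x m) = x (m + 1) := by
    intro m hm
    obtain ⟨h3, h4⟩ := hm₁ (m + 1) (by omega)
    obtain ⟨-, h5, h6⟩ := L.bwd (z (m + 1) - 1) (ht0 (m + 1) (by omega)) h3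
    have h7 : g.eval (1 + (z (m + 1) - 1)) - 1 = z m - 1 := by
      have : (1 : ℂ) + (z (m + 1) - 1) = z (m + 1) := by ring
      rw [this, hz m]
    rw [h7] at h5 h6
    exact ⟨h5, h6⟩
  have hxQ : ∀ m, m₂ ≤ m → Q < ‖x m‖ := by
    intro m hm
    obtain ⟨h3, h4⟩ := hm₁ m (by omega)
    have h5 : 0 < ‖z m - 1‖ := norm_pos_iff.2 (ht0 m hm)
    show Q < ‖(z m - 1)⁻¹‖
    rw [norm_inv]
    exact (lt_inv_comm₀ (by linarith) h5).2 h4
  have hre : ∀ m, m₂ ≤ m → (x m).re + a / 2 ≤ (x (m + 1)).re := by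
    intro m hm
    obtain ⟨h3, h4⟩ := hxH m hm
    have h5 := hxQ m hm
    have h6 := L.exp (x m) h3
    rw [h4, hal] at h6
    have hxp : 0 < ‖x m‖ := by linarith
    have h7 : ‖x (m + 1) - x m - a‖ ≤ a / 2 := by
      have h8 : x (m + 1) - x m - a = (x (m + 1) - (x m + a + (-ga g) / x m)) + (-ga g) / x m := by
        ring
      rw [h8]
      refine (norm_add_le _ _).trans ?_
      rw [norm_div, norm_neg]
      have h9 : C₀ / ‖x m‖ ^ 2 ≤ C₀ / ‖x m‖ := by
        apply div_le_div_of_nonneg_left hC0.le hxp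
        nlinarith
      have h10 : (‖ga g‖ + C₀) / ‖x m‖ ≤ a / 2 := by
        rw [div_le_iff₀ hxp]
        have h11 : 2 * (‖ga g‖ + C₀) / a ≤ ‖x m‖ := by linarith
        rw [div_le_iff₀ ha] at h11
        linarith
      rw [add_div] at h10
      linarith
    have h8 := (Complex.abs_re_le_norm _).trans h7
    rw [Complex.sub_re, Complex.sub_re, Complex.ofReal_re, abs_le] at h8
    linarith [h8.1]
  have hgrow : ∀ j : ℕ, (x m₂).re + j * (a / 2) ≤ (x (m₂ + j)).re := by
    intro j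
    induction j with
    | zero => simp
    | succ j ih =>
      have h3 := hre (m₂ + j) (by omega)
      have h4 : m₂ + (j + 1) = m₂ + j + 1 := by ring
      rw [h4]
      push_cast
      linarith
  obtain ⟨j₁, hj₁⟩ := exists_nat_gt ((R - (x m₂).re) / (a / 2))
  rw [div_lt_iff₀ (by linarith)] at hj₁
  have hm₃ : R < (x (m₂ + j₁)).re := by
    have := hgrow j₁
    linarith
  obtain ⟨m₃, hm₃e⟩ : ∃ m₃, m₃ = m₂ + j₁ := ⟨_, rfl⟩
  rw [← hm₃e] at hm₃
  have hS₃ : x m₃ ∈ Sec R := by
    show R < (x m₃).re + |(x m₃).im|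
    have := abs_nonneg (x m₃).im
    linarith
  have hiter : ∀ j : ℕ, x (m₃ + j) ∈ Sec R ∧ Φ (x (m₃ + j)) = Φ (x m₃) + j := by
    intro j
    induction j with
    | zero => exact ⟨hS₃, by simp⟩
    | succ j ih =>
      obtain ⟨-, h4⟩ := hxH (m₃ + j) (by omega)
      have h5 : m₃ + (j + 1) = m₃ + j + 1 := by ring
      rw [h5, ← h4]
      refine ⟨F.maps ih.1, ?_⟩
      rw [F.sem _ ih.1, ih.2]
      push_cast
      ring
  obtain ⟨j₀, hj₀⟩ := exists_nat_gt (R₂ - (Φ (x m₃)).re)
  refine ⟨m₃ - Φ (x m₃), ?_⟩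
  have hlarge : ∀ j : ℕ, j₀ ≤ j →
      z (m₃ + j) = Psi g S R₂ (m₃ - Φ (x m₃) - (m₃ + j : ℕ)) := by
    intro j hj
    have e1 : -((m₃ : ℂ) - Φ (x m₃) - (m₃ + j : ℕ)) = Φ (x m₃) + j := by push_cast; ring
    have hD : R₂ < (-((m₃ : ℂ) - Φ (x m₃) - (m₃ + j : ℕ))).re +
        |(-((m₃ : ℂ) - Φ (x m₃) - (m₃ + j : ℕ))).im| / 2 := by
      rw [e1, Complex.add_re, Complex.natCast_re]
      have h3 : (j₀ : ℝ) ≤ j := by exact_mod_cast hj
      have h4 := abs_nonneg (Φ (x m₃) + j).im
      linarith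
    rw [Psi_near L F I hR hD]
    have h5 : S (-((m₃ : ℂ) - Φ (x m₃) - (m₃ + j : ℕ))) = x (m₃ + j) := by
      apply F.inj (I.mem _ hD) (hiter j).1
      rw [I.app _ hD, e1, (hiter j).2]
    rw [h5]
    show z (m₃ + j) = 1 + (z (m₃ + j) - 1)⁻¹⁻¹
    rw [inv_inv]
    ring
  have hdown : ∀ l m : ℕ, m₃ + j₀ ≤ m + l → z m = Psi g S R₂ (m₃ - Φ (x m₃) - m) := by
    intro l
    induction l with
    | zero =>
      intro m hm
      obtain ⟨j, hj⟩ := Nat.exists_eq_add_of_le (show m₃ ≤ m by omega)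
      rw [hj]
      exact hlarge j (by omega)
    | succ l ih =>
      intro m hm
      rw [← hz m, ih (m + 1) (by omega), ← Psi_succ L F I hR]
      congr 1
      push_cast
      ring
  intro m
  exact hdown (m₃ + j₀) m (by omega)

theorem iter_real {g : ℂ[X]} (hr : ∀ i, (g.coeff i).im = 0)
    (hesc : ∀ y : ℝ, 1 < y → y < (g.eval (y : ℂ)).re) (m : ℕ) : ∀ y : ℝ, 1 < y →
    ∃ y' : ℝ, 1 < y' ∧ (fun z : ℂ => g.eval z)^[m] (y : ℂ) = y' := by
  induction m with
  | zero => exact fun y hy => ⟨y, hy, rfl⟩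
  | succ m ih =>
    intro y hy
    rw [Function.iterate_succ_apply]
    have h1 : g.eval (y : ℂ) = (((g.eval (y : ℂ)).re : ℝ) : ℂ) := by
      apply Complex.ext
      · rw [Complex.ofReal_re]
      · rw [Complex.ofReal_im]
        exact real_real hr y
    have h2 := ih (g.eval (y : ℂ)).re (hy.trans (hesc y hy))
    rw [← h1] at h2
    exact h2

theorem real_aux (L : Loc g H R₀ C₀ r₁) (F : Fat H Φ a κ R R₂ C) (I : Inv Φ S R R₂)
    (hR : R₀ < R / 2) (hr : ∀ i, (g.coeff i).im = 0)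
    (hesc : ∀ y : ℝ, 1 < y → y < (g.eval (y : ℂ)).re) (x : ℝ) :
    ∃ y : ℝ, 1 < y ∧ Psi g S R₂ (x : ℂ) = y := by
  obtain ⟨m, hW⟩ : ∃ m : ℕ, R₂ < ((m : ℂ) - (x : ℂ)).re + |((m : ℂ) - (x : ℂ)).im| / 2 :=
    ⟨_, dom_M (R₂ := R₂) (x : ℂ)⟩
  rw [Psi_eq L F I hR hW]
  have hv := I.mem _ hW
  have hΦ := I.app _ hW
  unfold Fm
  set v := S ((m : ℂ) - (x : ℂ)) with hvdef
  have hcv : conj v ∈ Sec R := by
    show R < (conj v).re + |(conj v).im|
    rw [Complex.conj_re, Complex.conj_im, abs_neg]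
    exact hv
  have h1 : conj v = v := by
    apply F.inj hcv hv
    rw [Phi_conj L F hR hv, hΦ, map_sub, Complex.conj_ofReal, Complex.conj_natCast]
  have h2 : v.im = 0 := Complex.conj_eq_iff_im.1 h1
  have h3 : R < v.re := by
    have h4 : R < v.re + |v.im| := hv
    rw [h2, abs_zero, add_zero] at h4
    exact h4
  have h4 : v = ((v.re : ℝ) : ℂ) := by
    apply Complex.ext
    · rw [Complex.ofReal_re]
    · rw [Complex.ofReal_im]; exact h2
  have h5 : 1 + v⁻¹ = ((1 + v.re⁻¹ : ℝ) : ℂ) := by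
    rw [h4]
    push_cast
    simp
  rw [h5]
  apply iter_real hr hesc m
  have h6 : 0 < v.re⁻¹ := inv_pos.2 (F.Rpos.trans h3)
  linarith

theorem lim_aux (L : Loc g H R₀ C₀ r₁) (F : Fat H Φ a κ R R₂ C) (I : Inv Φ S R R₂)
    (hR : R₀ < R / 2) (w : ℂ) : Tendsto (fun m : ℕ => Psi g S R₂ (w - m)) atTop (𝓝 1) := by
  obtain ⟨A, hA, hgr⟩ := growth F
  have hAp : 0 < A := by linarith
  have hdom : ∀ᶠ m : ℕ in atTop, R₂ < (-(w - m)).re + |(-(w - m)).im| / 2 := by
    obtain ⟨m₀, hm₀⟩ := exists_nat_gt (R₂ + w.re)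
    filter_upwards [eventually_ge_atTop m₀] with m hm
    have h1 : (-(w - m)).re = m - w.re := by simp
    rw [h1]
    have h2 : (m₀ : ℝ) ≤ m := by exact_mod_cast hm
    have h3 := abs_nonneg (-(w - m)).im
    linarith
  have heq : ∀ᶠ m : ℕ in atTop, 1 + (S (-(w - m)))⁻¹ = Psi g S R₂ (w - m) := by
    filter_upwards [hdom] with m hm
    exact (Psi_near L F I hR hm).symm
  refine Tendsto.congr' heq ?_
  have hlarge : Tendsto (fun m : ℕ => ‖S (-(w - m))‖) atTop atTop := by
    have h1 : Tendsto (fun m : ℕ => ((m : ℝ) - ‖w‖) / A - 1) atTop atTop := by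
      apply tendsto_atTop_add_const_right
      apply Tendsto.atTop_div_const hAp
      exact tendsto_atTop_add_const_right _ _ tendsto_natCast_atTop_atTop
    refine tendsto_atTop_mono' _ ?_ h1
    filter_upwards [hdom] with m hm
    have h2 := hgr _ (I.mem _ hm)
    rw [I.app _ hm, norm_neg] at h2
    have h3 : (m : ℝ) - ‖w‖ ≤ ‖w - m‖ := by
      have := norm_sub_norm_le (m : ℂ) w
      rw [Complex.norm_natCast, norm_sub_rev] at this
      exact this
    have h4 : ((m : ℝ) - ‖w‖) / A ≤ ‖S (-(w - m))‖ + 1 := by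
      rw [div_le_iff₀ hAp]
      linarith
    linarith
  have h1 : Tendsto (fun m : ℕ => (S (-(w - m)))⁻¹) atTop (𝓝 0) := by
    rw [tendsto_zero_iff_norm_tendsto_zero]
    simp only [norm_inv]
    exact tendsto_inv_atTop_zero.comp hlarge
  have h2 := h1.const_add 1
  rwa [add_zero] at h2

end fin

end FCRaux

open FCRaux in
theorem t_FCR (hFAT : S_FAT) : S_FCR := by
  intro n g c₀ c hg
  obtain ⟨H, R₀, C₀, r₁, L⟩ := loc g hg.real hg.fix hg.der
  -- the coefficients are real
  have hr1 := real_der hg.real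
  have hr2 := real_der hr1
  have hr3 := real_der hr2
  have him2 := real_one hr2
  have him3 := real_one hr3
  obtain ⟨a, hadef⟩ : ∃ a : ℝ, a = (g.derivative.derivative.eval 1).re / 2 := ⟨_, rfl⟩
  have ha : 0 < a := by
    have := hg.der2
    rw [hadef]; linarith
  have hal : al g = a := by
    unfold al
    apply Complex.ext
    · rw [Complex.ofReal_re, hadef]; simp
    · rw [Complex.ofReal_im]; simp [him2]
  obtain ⟨γ, hγ⟩ : ∃ γ : ℝ, ga g = γ := by
    refine ⟨(ga g).re, ?_⟩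
    apply Complex.ext
    · rw [Complex.ofReal_re]
    · rw [Complex.ofReal_im]
      unfold ga
      rw [hal, ← Complex.ofReal_pow, Complex.sub_im, Complex.ofReal_im]
      simp [him3]
  obtain ⟨κ, hκ⟩ : ∃ κ : ℝ, κ = γ / a ^ 2 := ⟨_, rfl⟩
  have hga : ga g = κ * a ^ 2 := by
    rw [hγ, hκ]
    push_cast
    have : (a : ℂ) ≠ 0 := by exact_mod_cast ha.ne'
    field_simp
  have hka : ka g = κ := by
    unfold ka
    rw [hga, hal]
    have : (a : ℂ) ≠ 0 := by exact_mod_cast ha.ne'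
    field_simp
  have hexp := L.exp
  rw [hal] at hexp
  obtain ⟨R, R₂, C, Φ, hRp, hR, hC, hdΦ, hmaps, hsem, hinj, -, hder, hasy, hsurj⟩ :=
    hFAT H a (-ga g) R₀ C₀ ha L.R0 L.diff hexp
  have F : Fat H Φ a κ R R₂ C :=
    { apos := ha
      Rpos := hRp
      Cpos := hC
      dΦ := hdΦ
      maps := hmaps
      sem := hsem
      inj := hinj
      der := hder
      asy := fun v hv => by
        have h1 := hasy v hv
        have h2 : v / (a : ℂ) - (-ga g) / (a : ℂ) ^ 2 * Complex.log v = UU a κ v := by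
          unfold UU
          rw [hga]
          have : (a : ℂ) ≠ 0 := by exact_mod_cast ha.ne'
          field_simp
          ring
        rw [h2] at h1
        exact h1
      surj := hsurj }
  obtain ⟨S, I⟩ := exists_S F
  obtain ⟨R', C', hR', hC', hreg⟩ := region L F I hR hal hga
  set sh : ℂ := Complex.I * Real.pi * ka g with hsh
  obtain ⟨τ, hτ⟩ : ∃ τ : ℝ, τ = Real.pi * κ := ⟨_, rfl⟩
  have hshτ : sh = Complex.I * τ := by rw [hsh, hka, hτ]; push_cast; ring
  have hshre : ∀ w : ℂ, (w - sh).re = w.re := by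
    intro w
    rw [hshτ]
    simp
  have hshim : ∀ w : ℂ, (w - sh).im = w.im - τ := by
    intro w
    rw [hshτ]
    simp
  have hshn : ‖sh‖ = |τ| := by
    rw [hshτ, norm_mul, Complex.norm_I, one_mul, Complex.norm_real, Real.norm_eq_abs]
  have hτ0 := abs_nonneg τ
  have hR20 := abs_nonneg R₂
  refine ⟨fun w => Psi g S R₂ (w - sh), R' + 4 * |τ| + |R₂|, 2 * C', ?_⟩
  exact
    { Rpos := by positivity
      Cpos := by positivity
      dψ := (Psi_diff L F I hR).comp (differentiable_id.sub_const sh)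
      semψ := fun w => by
        show Psi g S R₂ (w + 1 - sh) = g.eval (Psi g S R₂ (w - sh))
        rw [← Psi_succ L F I hR]
        congr 1
        ring
      injψ := by
        intro w hw w' hw' h
        have hD : ∀ w : ℂ, w.re < -(R' + 4 * |τ| + |R₂|) →
            R₂ < (-(w - sh)).re + |(-(w - sh)).im| / 2 := by
          intro w hw
          rw [Complex.neg_re, hshre]
          have h1 := abs_nonneg (-(w - sh)).im
          have h2 := le_abs_self R₂
          linarith
        have h1 := hD w hw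
        have h2 := hD w' hw'
        have h3 : Psi g S R₂ (w - sh) = Psi g S R₂ (w' - sh) := h
        rw [Psi_near L F I hR h1, Psi_near L F I hR h2] at h3
        have h4 := inv_injective (add_left_cancel h3)
        have h5 := congrArg Φ h4
        rw [I.app _ h1, I.app _ h2] at h5
        linear_combination -h5
      limψ := fun w => by
        have h1 := lim_aux L F I hR (w - sh)
        refine h1.congr fun m => ?_
        show Psi g S R₂ (w - sh - m) = Psi g S R₂ (w - m - sh)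
        congr 1
        ring
      back := fun z hz hlim hne => by
        obtain ⟨w, hw⟩ := back_aux L F I hR hal hg.fix z hz hlim hne
        refine ⟨w + sh, fun m => ?_⟩
        rw [hw m]
        show Psi g S R₂ (w - m) = Psi g S R₂ (w + sh - m - sh)
        congr 1
        ring
      asyψ := fun w hw => by
        have h1 : R' < -(w - sh).re + |(w - sh).im| := by
          rw [hshre, hshim]
          have h2 : |w.im| ≤ |w.im - τ| + |τ| := by
            have := abs_add_le (w.im - τ) τ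
            rwa [sub_add_cancel] at this
          linarith
        obtain ⟨x, hx0, hx1, hx2, hx3, hx4⟩ := hreg (w - sh) h1
        have hwn : 2 * |τ| ≤ ‖w‖ := by
          have h2 := Complex.abs_re_le_norm w
          have h3 := Complex.abs_im_le_norm w
          have h4 := neg_abs_le w.re
          linarith
        have hwp : 0 < ‖w‖ := by
          have h2 := Complex.abs_re_le_norm w
          have h3 := Complex.abs_im_le_norm w
          have h4 := neg_abs_le w.re
          linarith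
        have hn1 : ‖w‖ ≤ 2 * ‖w - sh‖ := by
          have h2 := norm_add_le (w - sh) sh
          rw [sub_add_cancel, hshn] at h2
          linarith
        have hn2 : ‖w - sh‖ ≤ 2 * ‖w‖ := by
          have h2 := norm_sub_le w sh
          rw [hshn] at h2
          linarith
        have hinv : (1 - Psi g S R₂ (w - sh))⁻¹ = -x := by
          rw [hx1]
          have h2 : (1 : ℂ) - (1 + x⁻¹) = -x⁻¹ := by ring
          rw [h2, inv_neg, inv_inv]
        show Psi g S R₂ (w - sh) ≠ 1 ∧ ‖w‖ ≤ 2 * C' * ‖(1 - Psi g S R₂ (w - sh))⁻¹‖ ∧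
          ‖(1 - Psi g S R₂ (w - sh))⁻¹‖ ≤ 2 * C' * ‖w‖ ∧
          ‖(1 - Psi g S R₂ (w - sh))⁻¹ / al g -
            ka g * Complex.log (-(1 - Psi g S R₂ (w - sh))⁻¹) +
            Complex.I * Real.pi * ka g - w‖ ≤ 2 * C' / ‖w‖
        rw [hinv, norm_neg, neg_neg]
        refine ⟨?_, ?_, ?_, ?_⟩
        · rw [hx1]
          intro h0
          apply inv_ne_zero hx0
          linear_combination h0
        · nlinarith
        · nlinarith
        · have h2 : -x / al g - ka g * Complex.log x + Complex.I * Real.pi * ka g - w =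
              -(UU a κ x + (w - sh)) := by
            rw [hal, ← hsh, hka]
            unfold UU
            ring
          rw [h2, norm_neg]
          refine hx2.trans ?_
          rw [div_le_div_iff₀ (by linarith) hwp]
          nlinarith
      real := fun x => by
        obtain ⟨y, hy1, hy2⟩ := real_aux L F I hR hg.real hg.esc x
        refine ⟨y, hy1, ?_⟩
        show Psi g S R₂ (x + sh - sh) = y
        rw [add_sub_cancel_right]
        exact hy2 }

end Pool.Agent.H212.ND
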