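import Pool.Agent.H212.ND.StmC

/-!
# Project ND (MP_395436_an), job FIN: the final assembly
-/

set_option autoImplicit false

open Filter Metric Set Topology Polynomial
open scoped ComplexConjugate

namespace Pool.Agent.H212.ND

open Pool.Agent.H212.MB

theorem t_FIN (h1 : S_GEX) (h2 : S_FAM) (h3 : S_PIC) (h4 : S_EQU) (h5 : S_WEL) (h6 : S_COU) (h7 : S_MAI) : Final := by
  intro n hn A hA
  obtain ⟨h8, h9⟩ := h5 n A hn.le
  refine ⟨h4 n, h8, h9, fun h10 => ?_⟩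
  obtain ⟨g, c₀, c, hg⟩ := h1 n hn
  obtain ⟨F, hF⟩ := h2 n g c₀ c hg
  obtain ⟨φ, hφ⟩ := h3 n g c₀ c hg
  obtain ⟨i, hi⟩ := hA
  exact hi (h7 n g c₀ c F A hg hF (h6 n g c₀ c φ F A hg hφ hF h10) i)

end Pool.Agent.H212.ND
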