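import Pool.Agent.H212.ND.StmT

/-!
# Job GEX: existence of the special parabolic polynomial

`g y = p + A y^(k+3) + B y^(k+2) + D y^(k+1)`, `g' y = K y^k (y² + s y + q)`, `s = 2 r cos θ`, `q = r²`,
`c₀ = 1/4`.  The expansion inequality follows from the triangle inequality:
`|g y - c₀| ≤ g |y| - c₀ ≤ g' |y| (|y| - c₀) ≤ |g' y| |y - c₀|` for `|y| ≥ 1`; the last inequality holds since the loss in
`|g' y|` is `O(r)` times the gain in `|y - c₀|`.
-/

set_option autoImplicit false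

open Filter Metric Set Topology Polynomial
open scoped ComplexConjugate

namespace Pool.Agent.H212.ND

open Pool.Agent.H212.MB

namespace GEXaux

/-- the polynomial -/
noncomputable def gp (k : ℕ) (p A B D : ℝ) : ℂ[X] :=
  C (p : ℂ) + C (A : ℂ) * X ^ (k + 3) + C (B : ℂ) * X ^ (k + 2) + C (D : ℂ) * X ^ (k + 1)

variable {k : ℕ} {p A B D K s q : ℝ}

theorem gp_eval (y : ℂ) : (gp k p A B D).eval y = p + A * y ^ (k + 3) + B * y ^ (k + 2) + D * y ^ (k + 1) := by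
  unfold gp
  simp

theorem gp_real (i : ℕ) : ((gp k p A B D).coeff i).im = 0 := by
  have h : gp k p A B D = (C p + C A * X ^ (k + 3) + C B * X ^ (k + 2) + C D * X ^ (k + 1) : ℝ[X]).map
      Complex.ofRealHom := by
    unfold gp
    simp [Polynomial.map_add, Polynomial.map_mul, Polynomial.map_pow]
  rw [h, coeff_map]
  exact Complex.ofReal_im _

theorem gp_coeff : (gp k p A B D).coeff (k + 3) = A := by
  unfold gp
  simp [coeff_X_pow]

theorem gp_deg (hA : A ≠ 0) : (gp k p A B D).natDegree = k + 3 := by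
  apply natDegree_eq_of_le_of_coeff_ne_zero
  · unfold gp
    compute_degree
  · rw [gp_coeff]
    exact_mod_cast hA

/-- the relations between the parameters -/
structure Par (k : ℕ) (p A B D K s q : ℝ) : Prop where
  K0 : 0 < K
  s0 : 0 < s
  q0 : 0 < q
  hA : ((k : ℝ) + 3) * A = K
  hB : ((k : ℝ) + 2) * B = s * K
  hD : ((k : ℝ) + 1) * D = q * K
  K1 : K * (1 + s + q) = 1
  hp : p + A + B + D = 1
  p4 : 1 / 4 < p
  sm : 2 * s + 2 * s * q + 8 * q < 1 / 8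

variable (P : Par k p A B D K s q)
include P

theorem Par.A0 : 0 < A := by
  have h := P.hA
  have h1 := P.K0
  by_contra hc
  push Not at hc
  have : ((k : ℝ) + 3) * A ≤ 0 := mul_nonpos_of_nonneg_of_nonpos (by positivity) hc
  linarith

theorem Par.B0 : 0 < B := by
  have h := P.hB
  have h1 := mul_pos P.s0 P.K0
  by_contra hc
  push Not at hc
  have : ((k : ℝ) + 2) * B ≤ 0 := mul_nonpos_of_nonneg_of_nonpos (by positivity) hc
  linarith

theorem Par.D0 : 0 < D := by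
  have h := P.hD
  have h1 := mul_pos P.q0 P.K0
  by_contra hc
  push Not at hc
  have : ((k : ℝ) + 1) * D ≤ 0 := mul_nonpos_of_nonneg_of_nonpos (by positivity) hc
  linarith

theorem Par.mean : ((k : ℝ) + 3) * A + ((k : ℝ) + 2) * B + ((k : ℝ) + 1) * D = 1 := by
  rw [P.hA, P.hB, P.hD, ← P.K1]
  ring

theorem gp_der : (gp k p A B D).derivative =
    C (K : ℂ) * X ^ (k + 2) + C ((s * K : ℝ) : ℂ) * X ^ (k + 1) + C ((q * K : ℝ) : ℂ) * X ^ k := by
  unfold gp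
  rw [← P.hB, ← P.hD, ← P.hA]
  simp only [derivative_add, derivative_C, derivative_C_mul_X_pow, zero_add]
  push_cast
  ring_nf

theorem gp_der_eval (y : ℂ) : (gp k p A B D).derivative.eval y = K * y ^ k * (y ^ 2 + s * y + q) := by
  rw [gp_der P]
  simp
  ring

theorem gp_der2 : 0 < ((gp k p A B D).derivative.derivative.eval 1).re := by
  rw [gp_der P]
  simp only [derivative_add, derivative_C_mul_X_pow]
  have h1 := P.K0
  have h2 := mul_pos P.s0 P.K0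
  have h3 := mul_pos P.q0 P.K0
  have e : (eval 1 (C ((K : ℂ) * ((k + 2 : ℕ) : ℂ)) * X ^ (k + 2 - 1) +
      C (((s * K : ℝ) : ℂ) * ((k + 1 : ℕ) : ℂ)) * X ^ (k + 1 - 1) +
      C (((q * K : ℝ) : ℂ) * ((k : ℕ) : ℂ)) * X ^ (k - 1))) =
      ((K * (k + 2) + s * K * (k + 1) + q * K * k : ℝ) : ℂ) := by
    simp
  rw [e, Complex.ofReal_re]
  positivity

/-! ### the critical points -/

omit P in
theorem fac (y c : ℂ) (s q : ℝ) (h1 : c + conj c = -s) (h2 : c * conj c = q) :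
    y ^ 2 + s * y + q = (y - c) * (y - conj c) := by
  have : (s : ℂ) = -(c + conj c) := by rw [h1, neg_neg]
  rw [← h2, this]
  ring

theorem crit (c : ℂ) (h1 : c + conj c = -s) (h2 : c * conj c = q) (hc : ‖c‖ < 1 / 2) (y : ℂ)
    (h : (gp k p A B D).derivative.eval y = 0) :
    ‖y‖ < 1 ∧ ‖y - ((1 / 4 : ℝ) : ℂ)‖ < 1 - 1 / 4 ∧ (y.im = 0 ∨ y = c ∨ y = conj c) := by
  rw [gp_der_eval P, fac y c s q h1 h2] at h
  have hy : y = 0 ∨ y = c ∨ y = conj c := by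
    rcases mul_eq_zero.1 h with h | h
    · rcases mul_eq_zero.1 h with h | h
      · exact absurd (Complex.ofReal_eq_zero.1 h) P.K0.ne'
      · exact Or.inl (eq_zero_of_pow_eq_zero h)
    · rcases mul_eq_zero.1 h with h | h
      · exact Or.inr (Or.inl (sub_eq_zero.1 h))
      · exact Or.inr (Or.inr (sub_eq_zero.1 h))
  have hn : ‖y‖ < 1 / 2 := by
    rcases hy with rfl | rfl | rfl
    · simp
    · exact hc
    · rw [Complex.norm_conj]
      exact hc
  refine ⟨by linarith, ?_, ?_⟩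
  · refine (norm_sub_le _ _).trans_lt ?_
    rw [Complex.norm_real, Real.norm_of_nonneg (by norm_num)]
    linarith
  · rcases hy with rfl | rfl | rfl
    · left
      simp
    · right; left; rfl
    · right; right; rfl

/-! ### estimates in the disc -/

omit P in
theorem strict {a b : ℝ} (ha : 0 < a) (hb : 0 < b) {z : ℂ} (hz : ‖z‖ ≤ 1) (h1 : z ≠ 1) :
    ‖(a : ℂ) + b * z‖ < a + b := by
  have hre : z.re < 1 := by
    rcases lt_or_eq_of_le ((Complex.re_le_norm z).trans hz) with h | h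
    · exact h
    · exfalso
      apply h1
      have h2 : ‖z‖ ^ 2 = z.re * z.re + z.im * z.im := by
        rw [← Complex.normSq_eq_norm_sq, Complex.normSq_apply]
      have h3 : ‖z‖ ^ 2 ≤ 1 := pow_le_one₀ (norm_nonneg _) hz
      rw [h2, h] at h3
      have h4 : z.im = 0 := by nlinarith
      exact Complex.ext h h4
  have h2 : ‖(a : ℂ) + b * z‖ ^ 2 = a ^ 2 + 2 * a * b * z.re + b ^ 2 * ‖z‖ ^ 2 := by
    rw [← Complex.normSq_eq_norm_sq, ← Complex.normSq_eq_norm_sq, Complex.normSq_apply,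
      Complex.normSq_apply]
    simp
    ring
  have h3 : ‖z‖ ^ 2 ≤ 1 := pow_le_one₀ (norm_nonneg _) hz
  have h4 : ‖(a : ℂ) + b * z‖ ^ 2 < (a + b) ^ 2 := by
    rw [h2]
    have h5 : b ^ 2 * ‖z‖ ^ 2 ≤ b ^ 2 * 1 := mul_le_mul_of_nonneg_left h3 (sq_nonneg b)
    have h6 : 2 * a * b * z.re < 2 * a * b * 1 := mul_lt_mul_of_pos_left hre (by positivity)
    nlinarith
  exact lt_of_pow_lt_pow_left₀ 2 (by positivity) h4

theorem disc (y : ℂ) (hy : ‖y‖ ≤ 1) (h1 : y ≠ 1) :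
    ‖(gp k p A B D).eval y - ((1 / 4 : ℝ) : ℂ)‖ < 1 - 1 / 4 := by
  have hA := P.A0
  have hB := P.B0
  have hD := P.D0
  have hp := P.hp
  have hp4 : 0 < p - 1 / 4 := by linarith [P.p4]
  have hpow : ∀ j : ℕ, ‖y ^ j‖ ≤ 1 := fun j => by
    rw [norm_pow]
    exact pow_le_one₀ (norm_nonneg _) hy
  have hb : ∀ (c : ℝ) (j : ℕ), 0 < c → ‖(c : ℂ) * y ^ j‖ ≤ c := by
    intro c j hc
    rw [norm_mul, Complex.norm_real, Real.norm_of_nonneg hc.le]
    calc c * ‖y ^ j‖ ≤ c * 1 := mul_le_mul_of_nonneg_left (hpow j) hc.le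
      _ = c := mul_one c
  rw [gp_eval]
  have hne : y ^ (k + 3) ≠ 1 ∨ y ^ (k + 2) ≠ 1 := by
    by_contra hc
    push Not at hc
    apply h1
    have h2 : y ^ (k + 3) = y ^ (k + 2) * y := pow_succ _ _
    rw [hc.1, hc.2, one_mul] at h2
    exact h2.symm
  rcases hne with h | h
  · have e : (p : ℂ) + A * y ^ (k + 3) + B * y ^ (k + 2) + D * y ^ (k + 1) - ((1 / 4 : ℝ) : ℂ) =
        (((p - 1 / 4 : ℝ) : ℂ) + A * y ^ (k + 3)) + (B * y ^ (k + 2) + D * y ^ (k + 1)) := by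
      push_cast
      ring
    rw [e]
    have n1 := strict hp4 hA (hpow _) h
    have n2 := (norm_add_le ((B : ℂ) * y ^ (k + 2)) (D * y ^ (k + 1))).trans
      (add_le_add (hb B _ hB) (hb D _ hD))
    have n3 := norm_add_le ((((p - 1 / 4 : ℝ) : ℂ) + A * y ^ (k + 3)))
      ((B : ℂ) * y ^ (k + 2) + D * y ^ (k + 1))
    linarith
  · have e : (p : ℂ) + A * y ^ (k + 3) + B * y ^ (k + 2) + D * y ^ (k + 1) - ((1 / 4 : ℝ) : ℂ) =
        (((p - 1 / 4 : ℝ) : ℂ) + B * y ^ (k + 2)) + (A * y ^ (k + 3) + D * y ^ (k + 1)) := by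
      push_cast
      ring
    rw [e]
    have n1 := strict hp4 hB (hpow _) h
    have n2 := (norm_add_le ((A : ℂ) * y ^ (k + 3)) (D * y ^ (k + 1))).trans
      (add_le_add (hb A _ hA) (hb D _ hD))
    have n3 := norm_add_le ((((p - 1 / 4 : ℝ) : ℂ) + B * y ^ (k + 2)))
      ((A : ℂ) * y ^ (k + 3) + D * y ^ (k + 1))
    linarith

omit P in
theorem pow_sub_one_le {y : ℂ} (hy : ‖y‖ ≤ 1) (j : ℕ) : ‖y ^ j - 1‖ ≤ j * ‖y - 1‖ := by
  induction j with
  | zero => simp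
  | succ j ih =>
    have e : y ^ (j + 1) - 1 = y ^ j * (y - 1) + (y ^ j - 1) := by ring
    rw [e]
    refine (norm_add_le _ _).trans ?_
    rw [norm_mul, norm_pow]
    have h1 : ‖y‖ ^ j * ‖y - 1‖ ≤ 1 * ‖y - 1‖ :=
      mul_le_mul_of_nonneg_right (pow_le_one₀ (norm_nonneg _) hy) (norm_nonneg _)
    push_cast
    linarith

theorem sub_one (y : ℂ) : (gp k p A B D).eval y - 1 =
    A * (y ^ (k + 3) - 1) + B * (y ^ (k + 2) - 1) + D * (y ^ (k + 1) - 1) := by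
  rw [gp_eval]
  have h : (1 : ℂ) = ((p + A + B + D : ℝ) : ℂ) := by rw [P.hp]; simp
  have h2 : (p : ℂ) = 1 - A - B - D := by
    rw [h]
    push_cast
    ring
  rw [h2]
  ring

theorem lip (y : ℂ) (hy : ‖y‖ ≤ 1) : ‖(gp k p A B D).eval y - 1‖ ≤ ‖y - 1‖ := by
  rw [sub_one P]
  have hb : ∀ (c : ℝ) (j : ℕ), 0 < c → ‖(c : ℂ) * (y ^ j - 1)‖ ≤ j * c * ‖y - 1‖ := by
    intro c j hc
    rw [norm_mul, Complex.norm_real, Real.norm_of_nonneg hc.le]
    calc c * ‖y ^ j - 1‖ ≤ c * (j * ‖y - 1‖) :=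
          mul_le_mul_of_nonneg_left (pow_sub_one_le hy j) hc.le
      _ = j * c * ‖y - 1‖ := by ring
  have h1 := hb A (k + 3) P.A0
  have h2 := hb B (k + 2) P.B0
  have h3 := hb D (k + 1) P.D0
  have h4 := norm_add₃_le (a := (A : ℂ) * (y ^ (k + 3) - 1)) (b := (B : ℂ) * (y ^ (k + 2) - 1))
    (c := (D : ℂ) * (y ^ (k + 1) - 1))
  push_cast at h1 h2 h3
  have h5 : ‖y - 1‖ = (((k : ℝ) + 3) * A + ((k : ℝ) + 2) * B + ((k : ℝ) + 1) * D) * ‖y - 1‖ := by
    rw [P.mean, one_mul]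
  rw [h5]
  linarith

/-! ### estimates on the positive half line -/

omit P in
theorem conv1 {ρ : ℝ} (h : 1 ≤ ρ) (j : ℕ) : ρ ^ (j + 1) - 1 ≤ (j + 1) * ρ ^ j * (ρ - 1) := by
  induction j with
  | zero => simp
  | succ j ih =>
    have h0 : 0 ≤ ρ - 1 := by linarith
    have h1 : ρ * (ρ ^ (j + 1) - 1) ≤ ρ * ((j + 1) * ρ ^ j * (ρ - 1)) :=
      mul_le_mul_of_nonneg_left ih (by linarith)
    have h2 : 1 ≤ ρ ^ (j + 1) := one_le_pow₀ h
    have h3 : (ρ - 1) ≤ ρ ^ (j + 1) * (ρ - 1) := by nlinarith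
    push_cast
    have e1 : ρ ^ (j + 1 + 1) - 1 = ρ * (ρ ^ (j + 1) - 1) + (ρ - 1) := by ring
    have e2 : ((j : ℝ) + 1 + 1) * ρ ^ (j + 1) * (ρ - 1) =
        ρ * ((j + 1) * ρ ^ j * (ρ - 1)) + ρ ^ (j + 1) * (ρ - 1) := by ring
    rw [e1, e2]
    linarith

omit P in
theorem conv2 {ρ : ℝ} (h : 1 ≤ ρ) (j : ℕ) : (j + 1) * (ρ - 1) ≤ ρ ^ (j + 1) - 1 := by
  induction j with
  | zero => simp
  | succ j ih =>
    have h0 : 0 ≤ ρ - 1 := by linarith
    have h1 : ρ ^ (j + 1) - 1 ≤ ρ * (ρ ^ (j + 1) - 1) := by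
      have : 0 ≤ ρ ^ (j + 1) - 1 := by
        have := one_le_pow₀ h (n := j + 1)
        linarith
      nlinarith
    push_cast
    have e1 : ρ ^ (j + 1 + 1) - 1 = ρ * (ρ ^ (j + 1) - 1) + (ρ - 1) := by ring
    rw [e1]
    linarith

omit P in
/-- the real polynomial minus `1` -/
theorem term_le {ρ : ℝ} (h : 1 ≤ ρ) {a : ℝ} (ha : 0 < a) (j : ℕ) :
    a * (ρ ^ (j + 1) - 1) + ((j + 1) * a) * (3 / 4) ≤ ((j + 1) * a) * ρ ^ j * (ρ - 1 / 4) := by
  have h1 := mul_le_mul_of_nonneg_left (conv1 h j) ha.le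
  have h2 : 1 ≤ ρ ^ j := one_le_pow₀ h
  have h3 : 0 ≤ ((j : ℝ) + 1) * a := by positivity
  have h4 : (((j : ℝ) + 1) * a) * (3 / 4) ≤ (((j : ℝ) + 1) * a) * ρ ^ j * (3 / 4) := by
    have := mul_le_mul_of_nonneg_left h2 h3
    linarith
  have e : (((j : ℝ) + 1) * a) * ρ ^ j * (ρ - 1 / 4) =
      a * (((j : ℝ) + 1) * ρ ^ j * (ρ - 1)) + (((j : ℝ) + 1) * a) * ρ ^ j * (3 / 4) := by ring
  rw [e]
  linarith

omit P in
theorem term_lt {ρ : ℝ} (h : 1 < ρ) {a : ℝ} (ha : 0 < a) (j : ℕ) :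
    a * (ρ ^ (j + 1 + 1) - 1) + ((j + 1 + 1) * a) * (3 / 4) <
      ((j + 1 + 1) * a) * ρ ^ (j + 1) * (ρ - 1 / 4) := by
  have h1 := mul_le_mul_of_nonneg_left (conv1 h.le (j + 1)) ha.le
  have h2 : 1 < ρ ^ (j + 1) := one_lt_pow₀ h (by omega)
  have h3 : 0 < ((j : ℝ) + 1 + 1) * a := by positivity
  have h4 : (((j : ℝ) + 1 + 1) * a) * (3 / 4) < (((j : ℝ) + 1 + 1) * a) * ρ ^ (j + 1) * (3 / 4) := by
    have := mul_lt_mul_of_pos_left h2 h3
    linarith
  push_cast at h1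
  have e : (((j : ℝ) + 1 + 1) * a) * ρ ^ (j + 1) * (ρ - 1 / 4) =
      a * (((j : ℝ) + 1 + 1) * ρ ^ (j + 1) * (ρ - 1)) +
        (((j : ℝ) + 1 + 1) * a) * ρ ^ (j + 1) * (3 / 4) := by ring
  rw [e]
  linarith

/-- the value of the majorant -/
theorem maj {ρ : ℝ} (h : 1 ≤ ρ) :
    (p - 1 / 4) + A * ρ ^ (k + 3) + B * ρ ^ (k + 2) + D * ρ ^ (k + 1) ≤
      K * ρ ^ k * (ρ ^ 2 + s * ρ + q) * (ρ - 1 / 4) ∧
    (1 < ρ → (p - 1 / 4) + A * ρ ^ (k + 3) + B * ρ ^ (k + 2) + D * ρ ^ (k + 1) <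
      K * ρ ^ k * (ρ ^ 2 + s * ρ + q) * (ρ - 1 / 4)) := by
  have t1 := term_le h P.A0 (k + 2)
  have t2 := term_le h P.B0 (k + 1)
  have t3 := term_le h P.D0 k
  push_cast at t1 t2
  have e1 : (k : ℝ) + 2 + 1 = k + 3 := by ring
  have e2 : (k : ℝ) + 1 + 1 = k + 2 := by ring
  rw [e1, P.hA] at t1
  rw [e2, P.hB] at t2
  rw [P.hD] at t3
  have hp := P.hp
  have hK := P.K1
  have e3 : (p - 1 / 4) + A * ρ ^ (k + 3) + B * ρ ^ (k + 2) + D * ρ ^ (k + 1) =
      A * (ρ ^ (k + 2 + 1) - 1) + B * (ρ ^ (k + 1 + 1) - 1) + D * (ρ ^ (k + 1) - 1) + 3 / 4 := by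
    have : p = 1 - A - B - D := by linarith
    rw [this]
    ring
  have e4 : K * ρ ^ k * (ρ ^ 2 + s * ρ + q) * (ρ - 1 / 4) = K * ρ ^ (k + 2) * (ρ - 1 / 4) +
      s * K * ρ ^ (k + 1) * (ρ - 1 / 4) + q * K * ρ ^ k * (ρ - 1 / 4) := by ring
  have e5 : (3 / 4 : ℝ) = K * (3 / 4) + s * K * (3 / 4) + q * K * (3 / 4) := by
    calc (3 / 4 : ℝ) = (K * (1 + s + q)) * (3 / 4) := by rw [hK, one_mul]
      _ = _ := by ring
  rw [e3, e4]
  refine ⟨by linarith, fun h1 => ?_⟩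
  have t4 := term_lt h1 P.A0 (k + 1)
  push_cast at t4
  have e6 : (k : ℝ) + 1 + 1 + 1 = k + 3 := by ring
  rw [e6, P.hA] at t4
  have e7 : k + 1 + 1 = k + 2 := rfl
  rw [e7] at t4
  linarith

/-- the value at a point of the positive half line -/
theorem esc {y : ℝ} (h : 1 < y) : y < ((gp k p A B D).eval (y : ℂ)).re := by
  have e : (gp k p A B D).eval (y : ℂ) =
      ((p + A * y ^ (k + 3) + B * y ^ (k + 2) + D * y ^ (k + 1) : ℝ) : ℂ) := by
    rw [gp_eval]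
    push_cast
    ring
  rw [e, Complex.ofReal_re]
  have hy0 : 0 < y - 1 := by linarith
  have c1 := conv2 h.le (k + 1)
  have c2 := conv2 h.le (k + 1)
  have c3 := conv2 h.le k
  push_cast at c1 c2
  -- strict inequality for the leading term
  have c0 : ((k : ℝ) + 3) * (y - 1) < y ^ (k + 3) - 1 := by
    have h1 : y ^ (k + 3) - 1 = y * (y ^ (k + 1 + 1) - 1) + (y - 1) := by ring
    have h2 : 0 < y ^ (k + 1 + 1) - 1 := by
      have := one_lt_pow₀ h (n := k + 1 + 1) (by omega)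
      linarith
    have h3 : y ^ (k + 1 + 1) - 1 < y * (y ^ (k + 1 + 1) - 1) := by nlinarith
    rw [h1]
    linarith
  have d1 := mul_lt_mul_of_pos_left c0 P.A0
  have d2 := mul_le_mul_of_nonneg_left c2 P.B0.le
  have d3 := mul_le_mul_of_nonneg_left c3 P.D0.le
  have hp := P.hp
  have hm : y - 1 = (((k : ℝ) + 3) * A + ((k : ℝ) + 2) * B + ((k : ℝ) + 1) * D) * (y - 1) := by
    rw [P.mean, one_mul]
  have e7 : k + 1 + 1 = k + 2 := rfl
  rw [e7] at d2
  have : p = 1 - A - B - D := by linarith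
  rw [this]
  nlinarith

/-! ### the expansion inequality -/

theorem main_b (y : ℂ) (hy : 1 ≤ ‖y‖) (hne : y ≠ (‖y‖ : ℂ)) :
    (‖y‖ ^ 2 + s * ‖y‖ + q) * (‖y‖ - 1 / 4) < ‖y ^ 2 + s * y + q‖ * ‖y - ((1 / 4 : ℝ) : ℂ)‖ := by
  obtain ⟨ρ, hρ⟩ : ∃ ρ : ℝ, ρ = ‖y‖ := ⟨_, rfl⟩
  rw [← hρ] at hne hy ⊢
  have hs := P.s0
  have hq := P.q0
  have hsm := P.sm
  have hY : y.im * y.im = ρ ^ 2 - y.re * y.re := by
    have h2 : ‖y‖ ^ 2 = y.re * y.re + y.im * y.im := by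
      rw [← Complex.normSq_eq_norm_sq, Complex.normSq_apply]
    rw [hρ]
    linarith
  have hX1 : y.re ≤ ρ := by
    rw [hρ]
    exact Complex.re_le_norm y
  have hX2 : -ρ ≤ y.re := by
    rw [hρ]
    exact (abs_le.1 (Complex.abs_re_le_norm y)).1
  have hX : y.re < ρ := by
    rcases lt_or_eq_of_le hX1 with h | h
    · exact h
    · exfalso
      apply hne
      have h4 : y.im = 0 := by
        rw [h] at hY
        nlinarith
      exact Complex.ext (by rw [Complex.ofReal_re]; exact h) (by rw [Complex.ofReal_im]; exact h4)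
  obtain ⟨x, hx⟩ : ∃ x : ℝ, x = y.re := ⟨_, rfl⟩
  obtain ⟨z, hz⟩ : ∃ z : ℝ, z = y.im := ⟨_, rfl⟩
  rw [← hx] at hX hX1 hX2
  rw [← hx, ← hz] at hY
  have n1 : ‖y ^ 2 + s * y + q‖ ^ 2 =
      (ρ ^ 2 + s * ρ + q) ^ 2 - (ρ - x) * (2 * s * ρ ^ 2 + 2 * s * q + 4 * q * (ρ + x)) := by
    rw [← Complex.normSq_eq_norm_sq, Complex.normSq_apply]
    have e1 : (y ^ 2 + s * y + q).re = x * x - z * z + s * x + q := by
      rw [sq]
      simp [← hx, ← hz]
    have e2 : (y ^ 2 + s * y + q).im = 2 * x * z + s * z := by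
      rw [sq]
      simp [← hx, ← hz]
      ring
    rw [e1, e2]
    linear_combination ((z * z + (ρ ^ 2 - x * x) - 2 * (x * x + s * x + q)) + (2 * x + s) ^ 2) * hY
  have n2 : ‖y - ((1 / 4 : ℝ) : ℂ)‖ ^ 2 = (ρ - 1 / 4) ^ 2 + (ρ - x) / 2 := by
    rw [← Complex.normSq_eq_norm_sq, Complex.normSq_apply]
    have e1 : (y - ((1 / 4 : ℝ) : ℂ)).re = x - 1 / 4 := by
      rw [Complex.sub_re, Complex.ofReal_re, ← hx]
    have e2 : (y - ((1 / 4 : ℝ) : ℂ)).im = z := by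
      rw [Complex.sub_im, Complex.ofReal_im, ← hz, sub_zero]
    rw [e1, e2]
    linear_combination hY
  obtain ⟨m, hm⟩ : ∃ m : ℝ, m = 2 * s * ρ ^ 2 + 2 * s * q + 4 * q * (ρ + x) := ⟨_, rfl⟩
  rw [← hm] at n1
  have hm0 : 0 ≤ m := by
    rw [hm]
    have : 0 ≤ ρ + x := by linarith
    positivity
  have hρ2 : 1 ≤ ρ ^ 2 := one_le_pow₀ hy
  have hρ1 : ρ ≤ ρ ^ 2 := by nlinarith
  have hm1 : m < ρ ^ 2 / 8 := by
    have h1 : m ≤ ρ ^ 2 * (2 * s + 2 * s * q + 8 * q) := by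
      rw [hm]
      have h2 : 2 * s * q ≤ ρ ^ 2 * (2 * s * q) := by
        have : 0 ≤ 2 * s * q := by positivity
        nlinarith
      have h3 : 4 * q * (ρ + x) ≤ ρ ^ 2 * (8 * q) := by
        have h5 : ρ + x ≤ 2 * ρ ^ 2 := by linarith
        have := mul_le_mul_of_nonneg_left h5 (by positivity : 0 ≤ 4 * q)
        linarith
      linarith
    have h4 : ρ ^ 2 * (2 * s + 2 * s * q + 8 * q) < ρ ^ 2 * (1 / 8) :=
      mul_lt_mul_of_pos_left hsm (by positivity)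
    linarith
  have hb : (ρ - 1 / 4) ^ 2 + (ρ - x) / 2 ≤ 4 * ρ ^ 2 := by nlinarith
  have hb0 : 0 ≤ (ρ - 1 / 4) ^ 2 + (ρ - x) / 2 := by
    have : 0 ≤ ρ - x := by linarith
    positivity
  have ha : ρ ^ 2 ≤ ρ ^ 2 + s * ρ + q := by
    have : 0 ≤ s * ρ := by positivity
    linarith
  have ha2 : ρ ^ 2 * ρ ^ 2 ≤ (ρ ^ 2 + s * ρ + q) ^ 2 := by
    rw [sq (ρ ^ 2 + s * ρ + q)]
    exact mul_le_mul ha ha (by positivity) (by linarith)
  have key : m * ((ρ - 1 / 4) ^ 2 + (ρ - x) / 2) < (ρ ^ 2 + s * ρ + q) ^ 2 / 2 := by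
    calc m * ((ρ - 1 / 4) ^ 2 + (ρ - x) / 2) ≤ m * (4 * ρ ^ 2) :=
          mul_le_mul_of_nonneg_left hb hm0
      _ < ρ ^ 2 / 8 * (4 * ρ ^ 2) := mul_lt_mul_of_pos_right hm1 (by positivity)
      _ = ρ ^ 2 * ρ ^ 2 / 2 := by ring
      _ ≤ (ρ ^ 2 + s * ρ + q) ^ 2 / 2 := by linarith
  have hw : 0 < ρ - x := by linarith
  have h6 : ((ρ ^ 2 + s * ρ + q) * (ρ - 1 / 4)) ^ 2 <
      (‖y ^ 2 + s * y + q‖ * ‖y - ((1 / 4 : ℝ) : ℂ)‖) ^ 2 := by
    rw [mul_pow, mul_pow, n1, n2]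
    have h7 := mul_lt_mul_of_pos_left key hw
    have e : ((ρ ^ 2 + s * ρ + q) ^ 2 - (ρ - x) * m) * ((ρ - 1 / 4) ^ 2 + (ρ - x) / 2) =
        (ρ ^ 2 + s * ρ + q) ^ 2 * (ρ - 1 / 4) ^ 2 + ((ρ - x) * ((ρ ^ 2 + s * ρ + q) ^ 2 / 2) -
          (ρ - x) * (m * ((ρ - 1 / 4) ^ 2 + (ρ - x) / 2))) := by ring
    rw [e]
    linarith
  exact lt_of_pow_lt_pow_left₀ 2 (by positivity) h6

theorem expd (y : ℂ) (h1 : y ≠ 1)
    (h : 1 - 1 / 4 ≤ ‖(gp k p A B D).eval y - ((1 / 4 : ℝ) : ℂ)‖) :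
    ‖(gp k p A B D).eval y - ((1 / 4 : ℝ) : ℂ)‖ <
      ‖(gp k p A B D).derivative.eval y‖ * ‖y - ((1 / 4 : ℝ) : ℂ)‖ := by
  have hy : 1 ≤ ‖y‖ := by
    by_contra hc
    push Not at hc
    exact absurd (disc P y hc.le h1) (not_lt.2 h)
  have hK := P.K0
  have hs := P.s0
  have hq := P.q0
  have hmaj := maj P hy
  have hup : ‖(gp k p A B D).eval y - ((1 / 4 : ℝ) : ℂ)‖ ≤
      (p - 1 / 4) + A * ‖y‖ ^ (k + 3) + B * ‖y‖ ^ (k + 2) + D * ‖y‖ ^ (k + 1) := by
    rw [gp_eval]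
    have e : (p : ℂ) + A * y ^ (k + 3) + B * y ^ (k + 2) + D * y ^ (k + 1) - ((1 / 4 : ℝ) : ℂ) =
        (((p - 1 / 4 : ℝ) : ℂ) + A * y ^ (k + 3)) + (B * y ^ (k + 2) + D * y ^ (k + 1)) := by
      push_cast
      ring
    rw [e]
    have hp4 : 0 < p - 1 / 4 := by linarith [P.p4]
    have n1 := norm_add_le ((((p - 1 / 4 : ℝ) : ℂ) + A * y ^ (k + 3)))
      ((B : ℂ) * y ^ (k + 2) + D * y ^ (k + 1))
    have n2 := norm_add_le (((p - 1 / 4 : ℝ) : ℂ)) ((A : ℂ) * y ^ (k + 3))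
    have n3 := norm_add_le ((B : ℂ) * y ^ (k + 2)) ((D : ℂ) * y ^ (k + 1))
    rw [norm_mul, Complex.norm_real, Complex.norm_real, norm_pow, Real.norm_of_nonneg hp4.le,
      Real.norm_of_nonneg P.A0.le] at n2
    rw [norm_mul, norm_mul, Complex.norm_real, Complex.norm_real, norm_pow, norm_pow,
      Real.norm_of_nonneg P.B0.le, Real.norm_of_nonneg P.D0.le] at n3
    linarith
  have hder : ‖(gp k p A B D).derivative.eval y‖ = K * ‖y‖ ^ k * ‖y ^ 2 + s * y + q‖ := by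
    rw [gp_der_eval P, norm_mul, norm_mul, norm_pow, Complex.norm_real, Real.norm_of_nonneg hK.le]
  rw [hder]
  by_cases hne : y = (‖y‖ : ℂ)
  · have hy1 : 1 < ‖y‖ := by
      rcases lt_or_eq_of_le hy with h2 | h2
      · exact h2
      · exfalso
        apply h1
        rw [hne, ← h2]
        simp
    have e1 : ‖y ^ 2 + s * y + q‖ = ‖y‖ ^ 2 + s * ‖y‖ + q := by
      have e2 : y ^ 2 + s * y + q = ((‖y‖ ^ 2 + s * ‖y‖ + q : ℝ) : ℂ) := by
        push_cast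
        rw [← hne]
      rw [e2, Complex.norm_real, Real.norm_of_nonneg (by positivity)]
    have e3 : ‖y - ((1 / 4 : ℝ) : ℂ)‖ = ‖y‖ - 1 / 4 := by
      have e2 : y - ((1 / 4 : ℝ) : ℂ) = ((‖y‖ - 1 / 4 : ℝ) : ℂ) := by
        rw [Complex.ofReal_sub, ← hne]
      rw [e2, Complex.norm_real, Real.norm_of_nonneg (by linarith)]
    rw [e1, e3]
    exact lt_of_le_of_lt hup (hmaj.2 hy1)
  · have h2 := main_b P y hy hne
    have h3 : 0 < K * ‖y‖ ^ k := by positivity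
    have h4 := mul_lt_mul_of_pos_left h2 h3
    calc ‖(gp k p A B D).eval y - ((1 / 4 : ℝ) : ℂ)‖
        ≤ K * ‖y‖ ^ k * (‖y‖ ^ 2 + s * ‖y‖ + q) * (‖y‖ - 1 / 4) := hup.trans hmaj.1
      _ = K * ‖y‖ ^ k * ((‖y‖ ^ 2 + s * ‖y‖ + q) * (‖y‖ - 1 / 4)) := by ring
      _ < K * ‖y‖ ^ k * (‖y ^ 2 + s * y + q‖ * ‖y - ((1 / 4 : ℝ) : ℂ)‖) := h4
      _ = _ := by ring

/-! ### the orbit of the critical point -/

omit P in
/-- the sign of the imaginary part of a power in the sector -/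
theorem sec_pow {y : ℂ} {N j : ℕ} (hj : 1 ≤ j) (hjN : j ≤ N) (hN : 1 ≤ N)
    (h : |y.arg| < Real.pi / N) (h0 : y.im ≠ 0) : 0 < y.arg * (y ^ j).im := by
  have hy0 : y ≠ 0 := by
    rintro rfl
    simp at h0
  have hn : 0 < ‖y‖ := norm_pos_iff.2 hy0
  have ha : y.arg ≠ 0 := by
    intro ha
    apply h0
    have := Complex.norm_mul_sin_arg y
    rw [ha, Real.sin_zero, mul_zero] at this
    exact this.symm
  have hN0 : (0 : ℝ) < N := by exact_mod_cast hN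
  have hj0 : (0 : ℝ) < j := by exact_mod_cast hj
  have e : (y ^ j).im = ‖y‖ ^ j * Real.sin (j * y.arg) := by
    conv_lhs => rw [← Complex.norm_mul_exp_arg_mul_I y]
    rw [mul_pow, ← Complex.exp_nat_mul, ← Complex.ofReal_pow, Complex.im_ofReal_mul]
    have e1 : (j : ℂ) * ((y.arg : ℂ) * Complex.I) = ((j * y.arg : ℝ) : ℂ) * Complex.I := by
      push_cast
      ring
    rw [e1, Complex.exp_ofReal_mul_I_im]
  rw [e]
  have h1 : |j * y.arg| < Real.pi := by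
    rw [abs_mul, abs_of_pos hj0]
    have h2 : (j : ℝ) * |y.arg| ≤ N * |y.arg| := by
      refine mul_le_mul_of_nonneg_right ?_ (abs_nonneg _)
      exact_mod_cast hjN
    have h3 : (N : ℝ) * |y.arg| < Real.pi := by
      rw [lt_div_iff₀ hN0] at h
      linarith
    linarith
  have h4 : 0 < y.arg * Real.sin (j * y.arg) := by
    rcases lt_or_gt_of_ne ha with hlt | hgt
    · have h5 : Real.sin (j * y.arg) < 0 := by
        refine Real.sin_neg_of_neg_of_neg_pi_lt ?_ ?_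
        · exact mul_neg_of_pos_of_neg hj0 hlt
        · exact (abs_lt.1 h1).1
      exact mul_pos_of_neg_of_neg hlt h5
    · have h5 : 0 < Real.sin (j * y.arg) :=
        Real.sin_pos_of_pos_of_lt_pi (mul_pos hj0 hgt) (abs_lt.1 h1).2
      exact mul_pos hgt h5
  calc (0 : ℝ) < ‖y‖ ^ j * (y.arg * Real.sin (j * y.arg)) := by positivity
    _ = y.arg * (‖y‖ ^ j * Real.sin (j * y.arg)) := by ring

/-- the image of the disc is in the sector -/
theorem sec_img (hsec : ((k : ℝ) + 3) * (1 - p) < 2 * p) (y : ℂ) (hy : ‖y‖ ≤ 1) :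
    ‖(gp k p A B D).eval y‖ ≤ 1 ∧
      |((gp k p A B D).eval y).arg| < Real.pi / ((k + 3 : ℕ) : ℝ) := by
  have hA := P.A0
  have hB := P.B0
  have hD := P.D0
  have hp := P.hp
  have hp0 : 0 < p := by linarith [P.p4]
  have hb : ∀ (c : ℝ) (j : ℕ), 0 < c → ‖(c : ℂ) * y ^ j‖ ≤ c := by
    intro c j hc
    rw [norm_mul, Complex.norm_real, Real.norm_of_nonneg hc.le, norm_pow]
    calc c * ‖y‖ ^ j ≤ c * 1 :=
          mul_le_mul_of_nonneg_left (pow_le_one₀ (norm_nonneg _) hy) hc.le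
      _ = c := mul_one c
  obtain ⟨w, hw⟩ : ∃ w, w = (gp k p A B D).eval y := ⟨_, rfl⟩
  rw [← hw]
  have h1 : ‖w - p‖ ≤ 1 - p := by
    rw [hw, gp_eval]
    have e : (p : ℂ) + A * y ^ (k + 3) + B * y ^ (k + 2) + D * y ^ (k + 1) - p =
        A * y ^ (k + 3) + B * y ^ (k + 2) + D * y ^ (k + 1) := by ring
    rw [e]
    refine norm_add₃_le.trans ?_
    have := hb A (k + 3) hA
    have := hb B (k + 2) hB
    have := hb D (k + 1) hD
    linarith
  have hk0 : (0 : ℝ) ≤ k := Nat.cast_nonneg k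
  have hp12 : 1 - p < p := by nlinarith
  constructor
  · have e : w = (w - p) + (p : ℂ) := by ring
    rw [e]
    refine (norm_add_le _ _).trans ?_
    rw [Complex.norm_real, Real.norm_of_nonneg hp0.le]
    linarith
  · have hre : 0 < w.re := by
      have h2 := Complex.abs_re_le_norm (w - p)
      rw [Complex.sub_re, Complex.ofReal_re] at h2
      have := (abs_le.1 (h2.trans h1)).1
      linarith
    have harg : |w.arg| < Real.pi / 2 := Complex.abs_arg_lt_pi_div_two_iff.2 (Or.inl hre)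
    have hN0 : (0 : ℝ) < ((k + 3 : ℕ) : ℝ) := by positivity
    have hcast : ((k + 3 : ℕ) : ℝ) = (k : ℝ) + 3 := by push_cast; ring
    have hpi := Real.pi_pos
    -- Jordan's inequality
    have hj : 2 / ((k : ℝ) + 3) ≤ Real.sin (Real.pi / ((k + 3 : ℕ) : ℝ)) := by
      have h2 := Real.mul_le_sin (x := Real.pi / ((k + 3 : ℕ) : ℝ)) (by positivity) (by
        rw [hcast]
        exact div_le_div_of_nonneg_left hpi.le (by norm_num) (by linarith))
      refine le_trans (le_of_eq ?_) h2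
      rw [hcast]
      field_simp
    have h3 : p * |Real.sin w.arg| ≤ ‖w - p‖ := by
      have e1 := Complex.norm_mul_sin_arg w
      have e2 := Complex.norm_mul_cos_arg w
      have e3 : ‖w - p‖ ^ 2 = (‖w‖ - p * Real.cos w.arg) ^ 2 + p ^ 2 * Real.sin w.arg ^ 2 := by
        rw [← Complex.normSq_eq_norm_sq, Complex.normSq_apply, Complex.sub_re, Complex.sub_im,
          Complex.ofReal_re, Complex.ofReal_im, ← e1, ← e2]
        have e4 := Real.sin_sq_add_cos_sq w.arg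
        linear_combination (‖w‖ ^ 2 - p ^ 2) * e4
      have e5 : (p * |Real.sin w.arg|) ^ 2 ≤ ‖w - p‖ ^ 2 := by
        rw [e3, mul_pow, sq_abs]
        nlinarith [sq_nonneg (‖w‖ - p * Real.cos w.arg)]
      exact le_of_sq_le_sq e5 (norm_nonneg _)
    have h4 : |Real.sin w.arg| < Real.sin (Real.pi / ((k + 3 : ℕ) : ℝ)) := by
      have h5 : p * |Real.sin w.arg| < p * (2 / ((k : ℝ) + 3)) := by
        refine lt_of_le_of_lt (h3.trans h1) ?_
        rw [mul_div_assoc', lt_div_iff₀ (by positivity)]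
        linarith
      exact (lt_of_mul_lt_mul_left h5 hp0.le).trans_le hj
    by_contra hc
    push Not at hc
    have h5 : Real.sin (Real.pi / ((k + 3 : ℕ) : ℝ)) ≤ Real.sin |w.arg| := by
      refine Real.sin_le_sin_of_le_of_le_pi_div_two ?_ harg.le hc
      have : 0 ≤ Real.pi / ((k + 3 : ℕ) : ℝ) := by positivity
      linarith
    have h6 : Real.sin |w.arg| ≤ |Real.sin w.arg| := by
      rcases abs_cases w.arg with ⟨h, _⟩ | ⟨h, _⟩
      · rw [h]
        exact le_abs_self _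
      · rw [h, Real.sin_neg]
        exact neg_le_abs _
    linarith

/-- the imaginary part does not vanish in the sector -/
theorem sec_im (y : ℂ) (h : |y.arg| < Real.pi / ((k + 3 : ℕ) : ℝ)) (h0 : y.im ≠ 0) :
    ((gp k p A B D).eval y).im ≠ 0 := by
  intro hc
  rw [gp_eval] at hc
  have e : ((p : ℂ) + A * y ^ (k + 3) + B * y ^ (k + 2) + D * y ^ (k + 1)).im =
      A * (y ^ (k + 3)).im + B * (y ^ (k + 2)).im + D * (y ^ (k + 1)).im := by
    rw [Complex.add_im, Complex.add_im, Complex.add_im, Complex.ofReal_im, Complex.im_ofReal_mul,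
      Complex.im_ofReal_mul, Complex.im_ofReal_mul, zero_add]
  rw [e] at hc
  have h1 := mul_pos P.A0 (sec_pow (N := k + 3) (j := k + 3) (by omega) le_rfl (by omega) h h0)
  have h2 := mul_pos P.B0 (sec_pow (N := k + 3) (j := k + 2) (by omega) (by omega) (by omega) h h0)
  have h3 := mul_pos P.D0 (sec_pow (N := k + 3) (j := k + 1) (by omega) (by omega) (by omega) h h0)
  have h4 : y.arg * (A * (y ^ (k + 3)).im + B * (y ^ (k + 2)).im + D * (y ^ (k + 1)).im) = 0 := by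
    rw [hc, mul_zero]
  nlinarith

theorem nonreal (hsec : ((k : ℝ) + 3) * (1 - p) < 2 * p) (c : ℂ) (hc : ‖c‖ ≤ 1) (hc0 : c.im ≠ 0)
    (hc1 : ((gp k p A B D).eval c).im ≠ 0) (m : ℕ) :
    ((fun z : ℂ => (gp k p A B D).eval z)^[m] c).im ≠ 0 := by
  rcases Nat.eq_zero_or_pos m with h | h
  · rw [h]
    exact hc0
  · obtain ⟨m, rfl⟩ : ∃ j, m = j + 1 := ⟨m - 1, by omega⟩
    have key : ∀ j : ℕ, ‖(fun z : ℂ => (gp k p A B D).eval z)^[j + 1] c‖ ≤ 1 ∧
        |((fun z : ℂ => (gp k p A B D).eval z)^[j + 1] c).arg| < Real.pi / ((k + 3 : ℕ) : ℝ) ∧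
        ((fun z : ℂ => (gp k p A B D).eval z)^[j + 1] c).im ≠ 0 := by
      intro j
      induction j with
      | zero =>
        obtain ⟨h1, h2⟩ := sec_img P hsec c hc
        exact ⟨h1, h2, hc1⟩
      | succ j ih =>
        obtain ⟨h1, h2, h3⟩ := ih
        rw [Function.iterate_succ_apply']
        obtain ⟨h4, h5⟩ := sec_img P hsec _ h1
        exact ⟨h4, h5, sec_im P _ h2 h3⟩
    exact (key m).2.2

/-! ### the choice of the parameters -/

omit P in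
theorem params (k : ℕ) : ∃ (p A B D K s q r θ : ℝ), Par k p A B D K s q ∧ 0 < r ∧ r ≤ 1 / 100 ∧
    θ = Real.pi / (k + 3) ∧ s = 2 * r * Real.cos θ ∧ q = r ^ 2 ∧ ((k : ℝ) + 3) * (1 - p) < 2 * p := by
  have hk0 : (0 : ℝ) ≤ k := Nat.cast_nonneg k
  have hpi := Real.pi_pos
  obtain ⟨n, hn⟩ : ∃ n : ℝ, n = (k : ℝ) + 3 := ⟨_, rfl⟩
  have hn3 : 3 ≤ n := by linarith
  obtain ⟨r, hr⟩ : ∃ r : ℝ, r = 1 / (200 * n ^ 2) := ⟨_, rfl⟩
  have hr0 : 0 < r := by rw [hr]; positivity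
  have hr1 : r ≤ 1 / 1800 := by
    rw [hr]
    apply one_div_le_one_div_of_le (by norm_num)
    nlinarith
  obtain ⟨θ, hθ⟩ : ∃ θ : ℝ, θ = Real.pi / (k + 3) := ⟨_, rfl⟩
  have hθ0 : 0 < θ := by rw [hθ]; positivity
  have hθ1 : θ < Real.pi / 2 := by
    rw [hθ]
    exact div_lt_div_of_pos_left hpi (by norm_num) (by linarith)
  have hcos : 0 < Real.cos θ := Real.cos_pos_of_mem_Ioo ⟨by linarith, hθ1⟩
  have hcos1 : Real.cos θ ≤ 1 := Real.cos_le_one θ
  obtain ⟨s, hs⟩ : ∃ s : ℝ, s = 2 * r * Real.cos θ := ⟨_, rfl⟩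
  obtain ⟨q, hq⟩ : ∃ q : ℝ, q = r ^ 2 := ⟨_, rfl⟩
  have hs0 : 0 < s := by rw [hs]; positivity
  have hq0 : 0 < q := by rw [hq]; positivity
  have hs2 : s ≤ 2 * r := by
    rw [hs]
    nlinarith
  have hq2 : q ≤ r := by
    rw [hq]
    nlinarith
  obtain ⟨K, hK⟩ : ∃ K : ℝ, K = 1 / (1 + s + q) := ⟨_, rfl⟩
  have hK0 : 0 < K := by rw [hK]; positivity
  have hK1 : K * (1 + s + q) = 1 := by
    rw [hK]
    field_simp
  have hKle : K ≤ 1 := by
    rw [hK, div_le_one (by positivity)]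
    linarith
  obtain ⟨A, hA⟩ : ∃ A : ℝ, A = K / ((k : ℝ) + 3) := ⟨_, rfl⟩
  obtain ⟨B, hB⟩ : ∃ B : ℝ, B = s * K / ((k : ℝ) + 2) := ⟨_, rfl⟩
  obtain ⟨D, hD⟩ : ∃ D : ℝ, D = q * K / ((k : ℝ) + 1) := ⟨_, rfl⟩
  have hA1 : A ≤ 1 / n := by
    rw [hA, hn]
    exact div_le_div_of_nonneg_right hKle (by positivity)
  have hB1 : B ≤ s := by
    rw [hB, div_le_iff₀ (by positivity)]
    have h1 : s * K ≤ s * 1 := mul_le_mul_of_nonneg_left hKle hs0.le
    nlinarith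
  have hD1 : D ≤ q := by
    rw [hD, div_le_iff₀ (by positivity)]
    have h1 : q * K ≤ q * 1 := mul_le_mul_of_nonneg_left hKle hq0.le
    nlinarith
  have hsum : A + B + D ≤ 1 / n + 3 * r := by linarith
  -- `(n + 2) (A + B + D) < 2`
  have hmain : (n + 2) * (A + B + D) < 2 := by
    have h1 : (n + 2) * (A + B + D) ≤ (n + 2) * (1 / n + 3 * r) :=
      mul_le_mul_of_nonneg_left hsum (by linarith)
    have h2 : (n + 2) * (1 / n + 3 * r) < 2 := by
      have e : (n + 2) * (1 / n + 3 * r) = 1 + 2 / n + (n + 2) * 3 / (200 * n ^ 2) := by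
        rw [hr]
        field_simp
      rw [e]
      have h3 : 2 / n ≤ 2 / 3 := div_le_div_of_nonneg_left (by norm_num) (by norm_num) hn3
      have h4 : (n + 2) * 3 / (200 * n ^ 2) < 1 / 3 := by
        rw [div_lt_div_iff₀ (by positivity) (by norm_num)]
        nlinarith
      linarith
    linarith
  obtain ⟨p, hp⟩ : ∃ p : ℝ, p = 1 - (A + B + D) := ⟨_, rfl⟩
  have hp1 : 1 / 4 < p := by
    rw [hp]
    have : 0 ≤ A + B + D := by
      rw [hA, hB, hD]
      positivity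
    nlinarith
  refine ⟨p, A, B, D, K, s, q, r, θ, ⟨hK0, hs0, hq0, ?_, ?_, ?_, hK1, ?_, hp1, ?_⟩, hr0, ?_, hθ, hs,
    hq, ?_⟩
  · rw [hA]
    field_simp
  · rw [hB]
    field_simp
  · rw [hD]
    field_simp
  · rw [hp]
    ring
  · have h1 : s * q ≤ 1 := by nlinarith
    have h2 : s * q ≤ s * 1 := mul_le_mul_of_nonneg_left (by linarith) hs0.le
    nlinarith
  · linarith
  · rw [← hn]
    have : 1 - p = A + B + D := by rw [hp]; ring
    nlinarith

omit P in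
theorem im_mul_ofReal' (u : ℝ) (z : ℂ) : ((u : ℂ) * z).im = u * z.im := Complex.im_ofReal_mul u z

end GEXaux

open GEXaux in
theorem t_GEX : S_GEX := by
  intro n hn
  obtain ⟨k, rfl⟩ : ∃ k, n = k + 3 := ⟨n - 3, by omega⟩
  obtain ⟨p, A, B, D, K, s, q, r, θ, P, hr0, hr1, hθ, hs, hq, hsec⟩ := params k
  have hpi := Real.pi_pos
  have hk0 : (0 : ℝ) ≤ k := Nat.cast_nonneg k
  -- the critical point
  obtain ⟨E, hE⟩ : ∃ E : ℂ, E = Complex.exp (θ * Complex.I) := ⟨_, rfl⟩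
  have hEn : ‖E‖ = 1 := by rw [hE, Complex.norm_exp_ofReal_mul_I]
  have hE0 : E ≠ 0 := by rw [hE]; exact Complex.exp_ne_zero _
  have hEc : E * conj E = 1 := by
    rw [Complex.mul_conj, Complex.normSq_eq_norm_sq, hEn]
    simp
  have hEre : E.re = Real.cos θ := by rw [hE, Complex.exp_ofReal_mul_I_re]
  have hEim : E.im = Real.sin θ := by rw [hE, Complex.exp_ofReal_mul_I_im]
  obtain ⟨c, hc⟩ : ∃ c : ℂ, c = -(r : ℂ) * conj E := ⟨_, rfl⟩
  have hcc : conj c = -(r : ℂ) * E := by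
    rw [hc, map_mul, map_neg, Complex.conj_ofReal, Complex.conj_conj]
  have hcn : ‖c‖ = r := by
    rw [hc, norm_mul, norm_neg, Complex.norm_real, Complex.norm_conj, hEn, mul_one,
      Real.norm_of_nonneg hr0.le]
  have hrc : (r : ℂ) ≠ 0 := by exact_mod_cast hr0.ne'
  have h1 : c + conj c = -(s : ℂ) := by
    have e : E + conj E = ((2 * Real.cos θ : ℝ) : ℂ) := by
      rw [Complex.add_conj, hEre]
    rw [hcc, hc, hs]
    calc -(r : ℂ) * conj E + -(r : ℂ) * E = -(r : ℂ) * (E + conj E) := by ring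
      _ = _ := by
        rw [e]
        push_cast
        ring
  have h2 : c * conj c = (q : ℂ) := by
    rw [hcc, hc, hq]
    calc -(r : ℂ) * conj E * (-(r : ℂ) * E) = (r : ℂ) ^ 2 * (E * conj E) := by ring
      _ = _ := by
        rw [hEc]
        push_cast
        ring
  have hθ0 : 0 < θ := by rw [hθ]; positivity
  have hθ1 : θ < Real.pi / 2 := by
    rw [hθ]
    exact div_lt_div_of_pos_left hpi (by norm_num) (by linarith)
  have hsin : 0 < Real.sin θ := Real.sin_pos_of_pos_of_lt_pi hθ0 (by linarith)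
  have hcos : 0 < Real.cos θ := Real.cos_pos_of_mem_Ioo ⟨by linarith, hθ1⟩
  have hcim : c.im = r * Real.sin θ := by
    rw [hc, ← Complex.ofReal_neg, Complex.im_ofReal_mul, Complex.conj_im, hEim]
    ring
  have hcim0 : c.im ≠ 0 := by
    rw [hcim]
    positivity
  -- the power of `c`
  have hEN : E ^ (k + 3) = -1 := by
    rw [hE, ← Complex.exp_nat_mul]
    have e : ((k + 3 : ℕ) : ℂ) * ((θ : ℂ) * Complex.I) = Real.pi * Complex.I := by
      have e1 : ((k : ℝ) + 3) * θ = Real.pi := by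
        rw [hθ]
        field_simp
      rw [← e1]
      push_cast
      ring
    rw [e, Complex.exp_pi_mul_I]
  have hcE : c * (-(E / r)) = 1 := by
    rw [hc]
    field_simp
    rw [mul_comm]
    exact hEc
  obtain ⟨u, hu⟩ : ∃ u : ℝ, u = -((-r) ^ (k + 3)) := ⟨_, rfl⟩
  have hu0 : u ≠ 0 := by
    rw [hu, neg_ne_zero]
    exact pow_ne_zero _ (neg_ne_zero.2 hr0.ne')
  have hcN : c ^ (k + 3) = (u : ℂ) := by
    have e : conj E ^ (k + 3) = -1 := by
      rw [← map_pow, hEN, map_neg, map_one]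
    rw [hc, mul_pow, e, hu]
    push_cast
    ring
  have hc2 : c ^ (k + 2) = (u : ℂ) * (-(E / r)) := by
    rw [← hcN, pow_succ c (k + 2), mul_assoc, hcE, mul_one]
  have hc1 : c ^ (k + 1) = (u : ℂ) * (-(E / r)) ^ 2 := by
    have : c ^ (k + 1) = c ^ (k + 2) * (-(E / r)) := by
      rw [pow_succ c (k + 1), mul_assoc, hcE, mul_one]
    rw [this, hc2]
    ring
  have hgc : ((gp k p A B D).eval c).im ≠ 0 := by
    have e1 : (-(E / r)).im = -(Real.sin θ / r) := by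
      rw [Complex.neg_im, Complex.div_ofReal_im, hEim]
    have e2 : ((-(E / r)) ^ 2).im = 2 * (Real.cos θ / r) * (Real.sin θ / r) := by
      have e3 : (-(E / (r : ℂ))).re = -(Real.cos θ / r) := by
        rw [Complex.neg_re, Complex.div_ofReal_re, hEre]
      rw [sq, Complex.mul_im, e1, e3]
      ring
    have e4 : ((gp k p A B D).eval c).im =
        u * (B * (-(Real.sin θ / r)) + D * (2 * (Real.cos θ / r) * (Real.sin θ / r))) := by
      rw [gp_eval, hcN, hc2, hc1, Complex.add_im, Complex.add_im, Complex.add_im, Complex.ofReal_im,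
        Complex.im_ofReal_mul, Complex.im_ofReal_mul, Complex.im_ofReal_mul, Complex.im_ofReal_mul,
        Complex.im_ofReal_mul, Complex.ofReal_im, e1, e2]
      ring
    rw [e4]
    refine mul_ne_zero hu0 ?_
    have hB : B = 2 * r * Real.cos θ * K / (k + 2) := by
      have := P.hB
      rw [← hs, ← this]
      field_simp
    have hD : D = r ^ 2 * K / (k + 1) := by
      have := P.hD
      rw [← hq, ← this]
      field_simp
    have e5 : B * (-(Real.sin θ / r)) + D * (2 * (Real.cos θ / r) * (Real.sin θ / r)) =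
        2 * K * Real.sin θ * Real.cos θ / (((k : ℝ) + 1) * (k + 2)) := by
      rw [hB, hD]
      field_simp
      ring
    rw [e5]
    have := P.K0
    positivity
  have hA0 := P.A0
  refine ⟨gp k p A B D, 1 / 4, c, ?_⟩
  refine ⟨hn, gp_deg hA0.ne', gp_real, ?_, ?_, ?_, gp_der2 P, by norm_num, by norm_num, disc P,
    lip P, expd P, ?_, ?_, ?_, fun y hy => esc P hy⟩
  · rw [gp_coeff, Complex.ofReal_re]
    exact hA0
  · have := sub_one P 1
    rw [← sub_eq_zero, this]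
    simp
  · rw [gp_der_eval P]
    have := P.K1
    have e : (K : ℂ) * 1 ^ k * (1 ^ 2 + s * 1 + q) = ((K * (1 + s + q) : ℝ) : ℂ) := by
      push_cast
      ring
    rw [e, this, Complex.ofReal_one]
  · intro y hy
    exact crit P c h1 h2 (by rw [hcn]; linarith) y hy
  · rw [gp_der_eval P, fac c c s q h1 h2]
    ring
  · exact nonreal P hsec c (by rw [hcn]; linarith) hcim0 hgc

end Pool.Agent.H212.ND
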