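import Pool.Agent.H212.ND.StmC

/-!
# JOB HAU: limits in the quotient are unique at nondegenerate points
-/

set_option autoImplicit false

open Filter Metric Set Topology Polynomial
open scoped ComplexConjugate

namespace Pool.Agent.H212.ND

open Pool.Agent.H212.MB

namespace HAUaux

variable {n : ℕ}

theorem rmap_ext {f f' : RMap n} (hP : f.P = f'.P) (hQ : f.Q = f'.Q) : f = f' := by
  cases f
  cases f'
  simp only at hP hQ
  subst hP
  subst hQ
  rfl

theorem Q_ne_zero (hn : 1 ≤ n) (f : RMap n) : f.Q ≠ 0 := by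
  intro h
  have h1 := f.coprime
  rw [h, isCoprime_zero_right] at h1
  have h2 := Polynomial.natDegree_eq_zero_of_isUnit h1
  rw [f.natDegree] at h2
  omega

theorem Q_natDegree_lt (hn : 1 ≤ n) (f : RMap n) : f.Q.natDegree < n :=
  (Polynomial.natDegree_lt_iff_degree_lt (Q_ne_zero hn f)).2 f.degree_lt

/-- a rational map is determined by its values -/
theorem rmap_det (hn : 1 ≤ n) {f f' : RMap n} (h : ∀ w, (f'.Q.eval w = 0 ↔ f.Q.eval w = 0) ∧
    (f.Q.eval w ≠ 0 → f'.ev w = f.ev w)) : f' = f := by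
  have e1 : f'.P * f.Q = f.P * f'.Q := by
    have e2 : (f'.P * f.Q - f.P * f'.Q) * f.Q = 0 := by
      refine Polynomial.funext fun w => ?_
      rw [Polynomial.eval_mul, Polynomial.eval_sub, Polynomial.eval_mul, Polynomial.eval_mul, Polynomial.eval_zero]
      by_cases hw : f.Q.eval w = 0
      · rw [hw, mul_zero]
      · have hw' : f'.Q.eval w ≠ 0 := fun h' => hw ((h w).1.1 h')
        have h3 := (h w).2 hw
        unfold RMap.ev at h3
        rw [div_eq_div_iff hw' hw] at h3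
        rw [h3]
        ring
    rcases mul_eq_zero.1 e2 with e3 | e3
    · exact sub_eq_zero.1 e3
    · exact absurd e3 (Q_ne_zero hn f)
  have e4 : f.P ∣ f'.P := by
    refine f.coprime.dvd_of_dvd_mul_right ?_
    rw [e1]
    exact dvd_mul_right _ _
  have e5 : f'.P = f.P := by
    refine Polynomial.eq_of_monic_of_dvd_of_natDegree_le f.monic f'.monic e4 ?_
    rw [f.natDegree, f'.natDegree]
  rw [e5] at e1
  exact rmap_ext e5 (mul_left_cancel₀ f.monic.ne_zero e1).symm

/-- the inverse of the affine map -/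
noncomputable def LL' (a b : ℂ) : ℂ[X] := C a⁻¹ * (X - C b)

theorem LL'_eval {a : ℂ} (ha : a ≠ 0) (b z : ℂ) : (LL' a b).eval (a * z + b) = z := by
  unfold LL'
  simp only [Polynomial.eval_mul, Polynomial.eval_C, Polynomial.eval_sub, Polynomial.eval_X]
  field_simp
  ring

theorem LL'_natDegree {a : ℂ} (ha : a ≠ 0) (b : ℂ) : (LL' a b).natDegree = 1 := by
  unfold LL'
  rw [Polynomial.natDegree_C_mul (inv_ne_zero ha), Polynomial.natDegree_X_sub_C]

theorem LL'_lc (a b : ℂ) : (LL' a b).leadingCoeff = a⁻¹ := by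
  unfold LL'
  rw [Polynomial.leadingCoeff_mul, Polynomial.leadingCoeff_C, Polynomial.leadingCoeff_X_sub_C, mul_one]

/-- the conjugate of a rational map by `z ↦ a z + b` -/
noncomputable def tr (hn : 1 ≤ n) (a b : ℂ) (ha : a ≠ 0) (f : RMap n) : RMap n where
  P := C (a ^ n) * f.P.comp (LL' a b) + C (b * a ^ (n - 1)) * f.Q.comp (LL' a b)
  Q := C (a ^ (n - 1)) * f.Q.comp (LL' a b)
  monic := by
    have h1 : (C (a ^ n) * f.P.comp (LL' a b)).Monic := by
      unfold Polynomial.Monic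
      rw [Polynomial.leadingCoeff_mul, Polynomial.leadingCoeff_C, Polynomial.leadingCoeff_comp
        (by rw [LL'_natDegree ha]; exact one_ne_zero), LL'_lc, f.monic, one_mul, f.natDegree, ← mul_pow,
        mul_inv_cancel₀ ha, one_pow]
    refine h1.add_of_left ?_
    refine Polynomial.degree_lt_degree ?_
    rw [Polynomial.natDegree_C_mul (pow_ne_zero _ ha), Polynomial.natDegree_comp, LL'_natDegree ha, f.natDegree]
    refine (Polynomial.natDegree_C_mul_le _ _).trans_lt ?_
    rw [Polynomial.natDegree_comp, LL'_natDegree ha]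
    have := Q_natDegree_lt hn f
    omega
  natDegree := by
    rw [Polynomial.natDegree_add_eq_left_of_natDegree_lt]
    · rw [Polynomial.natDegree_C_mul (pow_ne_zero _ ha), Polynomial.natDegree_comp, LL'_natDegree ha, f.natDegree,
        mul_one]
    · rw [Polynomial.natDegree_C_mul (pow_ne_zero _ ha), Polynomial.natDegree_comp, LL'_natDegree ha, f.natDegree]
      refine (Polynomial.natDegree_C_mul_le _ _).trans_lt ?_
      rw [Polynomial.natDegree_comp, LL'_natDegree ha]
      have := Q_natDegree_lt hn f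
      omega
  degree_lt := by
    refine lt_of_le_of_lt Polynomial.degree_le_natDegree ?_
    rw [Polynomial.natDegree_C_mul (pow_ne_zero _ ha), Polynomial.natDegree_comp, LL'_natDegree ha, mul_one]
    exact_mod_cast Q_natDegree_lt hn f
  coprime := by
    have h1 : IsCoprime (f.P.comp (LL' a b)) (f.Q.comp (LL' a b)) := by
      have := f.coprime.map (Polynomial.compRingHom (LL' a b))
      simpa using this
    have u1 : IsUnit (C (a ^ (n - 1)) : ℂ[X]) := Polynomial.isUnit_C.2 (pow_ne_zero _ ha).isUnit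
    have u2 : IsUnit (C (a ^ n) : ℂ[X]) := Polynomial.isUnit_C.2 (pow_ne_zero _ ha).isUnit
    rw [isCoprime_mul_unit_left_right u1]
    have h2 := (isCoprime_mul_unit_left_left u2 (f.P.comp (LL' a b)) (f.Q.comp (LL' a b))).2 h1
    exact h2.add_mul_right_left _

theorem tr_Q (hn : 1 ≤ n) {a : ℂ} (b : ℂ) (ha : a ≠ 0) (f : RMap n) (z : ℂ) :
    (tr hn a b ha f).Q.eval (a * z + b) = a ^ (n - 1) * f.Q.eval z := by
  show (C (a ^ (n - 1)) * f.Q.comp (LL' a b)).eval (a * z + b) = _
  rw [Polynomial.eval_mul, Polynomial.eval_C, Polynomial.eval_comp, LL'_eval ha]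

theorem tr_P (hn : 1 ≤ n) {a : ℂ} (b : ℂ) (ha : a ≠ 0) (f : RMap n) (z : ℂ) :
    (tr hn a b ha f).P.eval (a * z + b) = a ^ n * f.P.eval z + b * a ^ (n - 1) * f.Q.eval z := by
  show (C (a ^ n) * f.P.comp (LL' a b) + C (b * a ^ (n - 1)) * f.Q.comp (LL' a b)).eval (a * z + b) = _
  rw [Polynomial.eval_add, Polynomial.eval_mul, Polynomial.eval_C, Polynomial.eval_comp, LL'_eval ha,
    Polynomial.eval_mul, Polynomial.eval_C, Polynomial.eval_comp, LL'_eval ha]

theorem tr_ev (hn : 1 ≤ n) {a : ℂ} (b : ℂ) (ha : a ≠ 0) (f : RMap n) (z : ℂ) (hz : f.Q.eval z ≠ 0) :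
    (tr hn a b ha f).ev (a * z + b) = a * f.ev z + b := by
  unfold RMap.ev
  rw [tr_P, tr_Q]
  have h1 : a ^ (n - 1) ≠ 0 := pow_ne_zero _ ha
  have h2 : a ^ n = a ^ (n - 1) * a := by
    rw [← pow_succ]
    congr 1
    omega
  rw [h2]
  field_simp

/-- the conjugate determines the map -/
theorem tr_det (hn : 1 ≤ n) {a b : ℂ} (ha : a ≠ 0) {f f' : RMap n}
    (h : ∀ z, (f'.Q.eval (a * z + b) = 0 ↔ f.Q.eval z = 0) ∧
      (f.Q.eval z ≠ 0 → f'.ev (a * z + b) = a * f.ev z + b)) : f' = tr hn a b ha f := by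
  refine rmap_det hn fun w => ?_
  obtain ⟨z, rfl⟩ : ∃ z, w = a * z + b := ⟨(w - b) / a, by field_simp; ring⟩
  have h1 : a ^ (n - 1) ≠ 0 := pow_ne_zero _ ha
  have h2 : (tr hn a b ha f).Q.eval (a * z + b) = 0 ↔ f.Q.eval z = 0 := by
    rw [tr_Q]
    simp [h1]
  refine ⟨(h z).1.trans h2.symm, fun h3 => ?_⟩
  have h4 : f.Q.eval z ≠ 0 := fun h5 => h3 (h2.2 h5)
  rw [(h z).2 h4, tr_ev hn b ha f z h4]

/-! ### continuity -/

theorem cont_coeffs : Continuous (RMap.coeffs (n := n)) := continuous_induced_dom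

theorem cont_P (j : ℕ) : Continuous fun f : RMap n => f.P.coeff j := by
  have h : Continuous fun f : RMap n => (RMap.coeffs f).1 j :=
    (continuous_apply j).comp (continuous_fst.comp cont_coeffs)
  exact h

theorem cont_Q (j : ℕ) : Continuous fun f : RMap n => f.Q.coeff j := by
  have h : Continuous fun f : RMap n => (RMap.coeffs f).2 j :=
    (continuous_apply j).comp (continuous_snd.comp cont_coeffs)
  exact h

theorem comp_eq {p : ℂ[X]} (hp : p.natDegree < n + 1) (q : ℂ[X]) (i : ℕ) :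
    (p.comp q).coeff i = ∑ j ∈ Finset.range (n + 1), p.coeff j * (q ^ j).coeff i := by
  unfold Polynomial.comp
  rw [Polynomial.eval₂_eq_sum_range' C hp, Polynomial.finsetSum_coeff]
  simp only [Polynomial.coeff_C_mul]

theorem tr_cont (hn : 1 ≤ n) {a : ℂ} (b : ℂ) (ha : a ≠ 0) : Continuous (tr hn a b ha) := by
  have hP : ∀ i, Continuous fun f : RMap n => (f.P.comp (LL' a b)).coeff i := by
    intro i
    have : (fun f : RMap n => (f.P.comp (LL' a b)).coeff i) =
        fun f => ∑ j ∈ Finset.range (n + 1), f.P.coeff j * ((LL' a b) ^ j).coeff i :=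
      funext fun f => comp_eq (by rw [f.natDegree]; omega) _ _
    rw [this]
    exact continuous_finsetSum _ fun j _ => (cont_P j).mul continuous_const
  have hQ : ∀ i, Continuous fun f : RMap n => (f.Q.comp (LL' a b)).coeff i := by
    intro i
    have : (fun f : RMap n => (f.Q.comp (LL' a b)).coeff i) =
        fun f => ∑ j ∈ Finset.range (n + 1), f.Q.coeff j * ((LL' a b) ^ j).coeff i :=
      funext fun f => comp_eq (by have := Q_natDegree_lt hn f; omega) _ _
    rw [this]
    exact continuous_finsetSum _ fun j _ => (cont_Q j).mul continuous_const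
  refine continuous_induced_rng.2 ?_
  refine Continuous.prodMk (continuous_pi fun i => ?_) (continuous_pi fun i => ?_)
  · show Continuous fun f : RMap n => (C (a ^ n) * f.P.comp (LL' a b) + C (b * a ^ (n - 1)) * f.Q.comp (LL' a b)).coeff i
    simp only [Polynomial.coeff_add, Polynomial.coeff_C_mul]
    exact (continuous_const.mul (hP i)).add (continuous_const.mul (hQ i))
  · show Continuous fun f : RMap n => (C (a ^ (n - 1)) * f.Q.comp (LL' a b)).coeff i
    simp only [Polynomial.coeff_C_mul]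
    exact continuous_const.mul (hQ i)

/-- the conjugation on `MPt n` -/
noncomputable def Tr (hn : 1 ≤ n) (a b : ℂ) (ha : a ≠ 0) (x : MPt n) : MPt n :=
  ⟨(tr hn a b ha x.1.1, a * x.1.2 + b), by
    refine ⟨?_, ?_⟩
    · show (tr hn a b ha x.1.1).Q.eval (a * x.1.2 + b) ≠ 0
      rw [tr_Q]
      exact mul_ne_zero (pow_ne_zero _ ha) x.2.1
    · show (tr hn a b ha x.1.1).ev (a * x.1.2 + b) = a * x.1.2 + b
      rw [tr_ev hn b ha _ _ x.2.1, x.2.2]⟩

theorem mpt_ext {x y : MPt n} (h1 : x.1.1 = y.1.1) (h2 : x.1.2 = y.1.2) : x = y :=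
  Subtype.ext (Prod.ext h1 h2)

theorem Tr_cont (hn : 1 ≤ n) {a : ℂ} (b : ℂ) (ha : a ≠ 0) : Continuous (Tr hn a b ha) := by
  have h1 : Continuous fun x : MPt n => x.1 := continuous_subtype_val
  refine Continuous.subtype_mk ?_ _
  exact ((tr_cont hn b ha).comp (continuous_fst.comp h1)).prodMk
    ((continuous_const.mul (continuous_snd.comp h1)).add continuous_const)

theorem Tr_aff (hn : 1 ≤ n) {a : ℂ} (b : ℂ) (ha : a ≠ 0) (x : MPt n) : AffConj n x (Tr hn a b ha x) := by
  refine ⟨a, b, ha, rfl, fun z => ⟨?_, fun hz => ?_⟩⟩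
  · show (tr hn a b ha x.1.1).Q.eval (a * z + b) = 0 ↔ _
    rw [tr_Q]
    simp [pow_ne_zero _ ha]
  · exact tr_ev hn b ha x.1.1 z hz

theorem aff_Tr (hn : 1 ≤ n) {x y : MPt n} (h : AffConj n x y) : ∃ (a b : ℂ) (ha : a ≠ 0), y = Tr hn a b ha x := by
  obtain ⟨a, b, ha, h1, h2⟩ := h
  exact ⟨a, b, ha, mpt_ext (tr_det hn ha h2) h1⟩

/-- the quotient map is open -/
theorem cls_open (hn : 1 ≤ n) (hE : Equivalence (AffConj n)) {V : Set (MPt n)} (hV : IsOpen V) :
    IsOpen (cls '' V) := by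
  have h1 : IsOpen (cls ⁻¹' (cls '' V)) := by
    rw [isOpen_iff_mem_nhds]
    rintro y ⟨x, hx, hxy⟩
    have h2 : AffConj n y x := (hE.quot_mk_eq_iff _ _).1 hxy.symm
    obtain ⟨a, b, ha, h3⟩ := aff_Tr hn h2
    have h4 : (Tr hn a b ha) ⁻¹' V ∈ 𝓝 y := by
      refine (Tr_cont hn b ha).continuousAt.preimage_mem_nhds ?_
      rw [← h3]
      exact hV.mem_nhds hx
    filter_upwards [h4] with z hz
    refine ⟨_, hz, ?_⟩
    exact ((hE.quot_mk_eq_iff _ _).2 (Tr_aff hn b ha z)).symm
  exact isQuotientMap_quot_mk.isOpen_preimage.1 h1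

/-! ### limits of polynomials -/

theorem tend_eval {ι : Type} {l : Filter ι} {N : ℕ} {F : ι → ℂ[X]} {F0 : ℂ[X]} (hF : ∀ i, (F i).natDegree ≤ N)
    (hF0 : F0.natDegree ≤ N) (hc : ∀ j, Tendsto (fun i => (F i).coeff j) l (𝓝 (F0.coeff j))) {z : ι → ℂ} {w : ℂ}
    (hz : Tendsto z l (𝓝 w)) : Tendsto (fun i => (F i).eval (z i)) l (𝓝 (F0.eval w)) := by
  have h1 : (fun i => (F i).eval (z i)) = fun i => ∑ j ∈ Finset.range (N + 1), (F i).coeff j * z i ^ j :=
    funext fun i => Polynomial.eval_eq_sum_range' (by have := hF i; omega) _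
  rw [h1, Polynomial.eval_eq_sum_range' (n := N + 1) (by omega)]
  exact tendsto_finsetSum _ fun j _ => (hc j).mul (hz.pow j)

/-- the homogeneous form -/
noncomputable def HH (N : ℕ) (p : ℂ[X]) (s t : ℂ) : ℂ := ∑ j ∈ Finset.range (N + 1), p.coeff j * s ^ j * t ^ (N - j)

theorem HH_eq {N : ℕ} {p : ℂ[X]} (hp : p.natDegree ≤ N) {t : ℂ} (ht : t ≠ 0) (s : ℂ) :
    HH N p s t = t ^ N * p.eval (s / t) := by
  unfold HH
  rw [Polynomial.eval_eq_sum_range' (n := N + 1) (by omega), Finset.mul_sum]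
  refine Finset.sum_congr rfl fun j hj => ?_
  have hj' : j ≤ N := Nat.lt_succ_iff.1 (Finset.mem_range.1 hj)
  have h1 : t ^ N = t ^ (N - j) * t ^ j := by
    rw [← pow_add]
    congr 1
    omega
  rw [h1, div_pow]
  field_simp

theorem HH_zero (N : ℕ) (p : ℂ[X]) (s : ℂ) : HH N p s 0 = p.coeff N * s ^ N := by
  unfold HH
  rw [Finset.sum_range_succ, Finset.sum_eq_zero, zero_add, Nat.sub_self, pow_zero, mul_one]
  intro j hj
  have hj' : j < N := Finset.mem_range.1 hj
  rw [zero_pow (by omega), mul_zero]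

theorem tend_HH {ι : Type} {l : Filter ι} {N : ℕ} {F : ι → ℂ[X]} {F0 : ℂ[X]}
    (hc : ∀ j, Tendsto (fun i => (F i).coeff j) l (𝓝 (F0.coeff j))) {s t : ι → ℂ} {s0 t0 : ℂ}
    (hs : Tendsto s l (𝓝 s0)) (ht : Tendsto t l (𝓝 t0)) :
    Tendsto (fun i => HH N (F i) (s i) (t i)) l (𝓝 (HH N F0 s0 t0)) := by
  unfold HH
  exact tendsto_finsetSum _ fun j _ => ((hc j).mul (hs.pow j)).mul (ht.pow _)

/-- a sequence converges along an ultrafilter, or it tends to infinity -/
theorem dich {ι : Type} (u : Ultrafilter ι) (g : ι → ℂ) : (∃ z, Tendsto g u (𝓝 z)) ∨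
    (Tendsto (fun i => (g i)⁻¹) u (𝓝 0) ∧ ∀ᶠ i in (u : Filter ι), g i ≠ 0) := by
  by_cases h : ∃ M : ℝ, ∀ᶠ i in (u : Filter ι), ‖g i‖ ≤ M
  · left
    obtain ⟨M, hM⟩ := h
    have h1 : ((u.map g : Ultrafilter ℂ) : Filter ℂ) ≤ 𝓟 (closedBall 0 M) := by
      rw [le_principal_iff]
      show ∀ᶠ i in (u : Filter ι), g i ∈ closedBall (0 : ℂ) M
      filter_upwards [hM] with i hi
      simpa using hi
    obtain ⟨z, -, hz⟩ := (isCompact_closedBall (0 : ℂ) M).ultrafilter_le_nhds (u.map g) h1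
    exact ⟨z, hz⟩
  · right
    have h1 : ∀ M : ℝ, ∀ᶠ i in (u : Filter ι), M < ‖g i‖ := by
      intro M
      have h2 : ¬ ∀ᶠ i in (u : Filter ι), ‖g i‖ ≤ M := fun h3 => h ⟨M, h3⟩
      rw [← Ultrafilter.eventually_not] at h2
      exact h2.mono fun i hi => not_le.1 hi
    refine ⟨?_, ?_⟩
    · rw [tendsto_zero_iff_norm_tendsto_zero]
      have h3 : Tendsto (fun i => ‖g i‖) u atTop := tendsto_atTop.2 fun M => (h1 M).mono fun i hi => hi.le
      have h4 := h3.inv_tendsto_atTop
      refine h4.congr fun i => ?_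
      simp
    · filter_upwards [h1 0] with i hi
      exact norm_pos_iff.1 hi

/-- boundedness -/
theorem bddB {ι : Type} (u : Ultrafilter ι) {N : ℕ} (hN : 1 ≤ N) {F : ι → ℂ[X]} {F0 : ℂ[X]}
    (hF : ∀ i, (F i).natDegree ≤ N)
    (hc : ∀ j, Tendsto (fun i => (F i).coeff j) u (𝓝 (F0.coeff j))) (h0 : F0.coeff N ≠ 0) {β : ι → ℂ} {K : ℂ}
    (hK : Tendsto (fun i => (F i).eval (β i)) u (𝓝 K)) : ∃ z, Tendsto β u (𝓝 z) := by
  rcases dich u β with h | ⟨h1, h2⟩
  · exact h
  · exfalso
    have h3 : Tendsto (fun i => HH N (F i) 1 (β i)⁻¹) u (𝓝 (HH N F0 1 0)) := tend_HH hc tendsto_const_nhds h1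
    rw [HH_zero, one_pow, mul_one] at h3
    have h4 : Tendsto (fun i => ((β i)⁻¹) ^ N * (F i).eval (β i)) u (𝓝 (0 ^ N * K)) := (h1.pow N).mul hK
    rw [zero_pow (by omega), zero_mul] at h4
    have h5 : Tendsto (fun i => HH N (F i) 1 (β i)⁻¹) u (𝓝 0) := by
      refine h4.congr' ?_
      filter_upwards [h2] with i hi
      rw [HH_eq (hF i) (inv_ne_zero hi)]
      simp
    exact h0 (tendsto_nhds_unique h3 h5)

/-- the polynomial of the fixed points -/
noncomputable def DD (f : RMap n) : ℂ[X] := f.P - X * f.Q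

theorem DD_natDegree (hn : 1 ≤ n) (f : RMap n) : (DD f).natDegree ≤ n := by
  unfold DD
  refine (Polynomial.natDegree_sub_le _ _).trans (max_le f.natDegree.le ?_)
  refine Polynomial.natDegree_mul_le.trans ?_
  rw [Polynomial.natDegree_X]
  have := Q_natDegree_lt hn f
  omega

theorem DD_coeff (hn : 1 ≤ n) (f : RMap n) : (DD f).coeff n = 1 - f.Q.coeff (n - 1) := by
  unfold DD
  obtain ⟨m, rfl⟩ : ∃ m, n = m + 1 := ⟨n - 1, by omega⟩
  have h := f.monic
  unfold Polynomial.Monic Polynomial.leadingCoeff at h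
  rw [f.natDegree] at h
  rw [Polynomial.coeff_sub, Polynomial.coeff_X_mul, h]
  rfl

theorem DD_eval (f : RMap n) (z : ℂ) : (DD f).eval z = f.P.eval z - z * f.Q.eval z := by
  unfold DD
  simp

theorem DD_der (f : RMap n) (z : ℂ) :
    (DD f).derivative.eval z = f.P.derivative.eval z - f.Q.eval z - z * f.Q.derivative.eval z := by
  unfold DD
  simp
  ring

theorem DD_tr (hn : 1 ≤ n) {a : ℂ} (b : ℂ) (ha : a ≠ 0) (f : RMap n) (z : ℂ) :
    (DD (tr hn a b ha f)).eval (a * z + b) = a ^ n * (DD f).eval z := by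
  rw [DD_eval, DD_eval, tr_P, tr_Q]
  have h2 : a ^ n = a ^ (n - 1) * a := by
    rw [← pow_succ]
    congr 1
    omega
  rw [h2]
  ring

theorem DD_tr_coeff (hn : 1 ≤ n) {a : ℂ} (b : ℂ) (ha : a ≠ 0) (f : RMap n) :
    (DD (tr hn a b ha f)).coeff n = (DD f).coeff n := by
  rw [DD_coeff hn, DD_coeff hn]
  show 1 - (C (a ^ (n - 1)) * f.Q.comp (LL' a b)).coeff (n - 1) = _
  rw [Polynomial.coeff_C_mul]
  have h1 : (f.Q.comp (LL' a b)).coeff (n - 1) = f.Q.coeff (n - 1) * (a⁻¹) ^ (n - 1) := by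
    have hd := Q_natDegree_lt hn f
    rcases (Nat.le_sub_one_of_lt hd).eq_or_lt with h | h
    · have h2 := Polynomial.coeff_comp_degree_mul_degree (p := f.Q) (q := LL' a b)
        (by rw [LL'_natDegree ha]; exact one_ne_zero)
      rw [LL'_natDegree ha, mul_one, LL'_lc, h] at h2
      rw [h2]
      unfold Polynomial.leadingCoeff
      rw [h]
    · rw [Polynomial.coeff_eq_zero_of_natDegree_lt h, zero_mul]
      refine Polynomial.coeff_eq_zero_of_natDegree_lt ?_
      rw [Polynomial.natDegree_comp, LL'_natDegree ha, mul_one]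
      exact h
  rw [h1, inv_pow]
  have h3 : a ^ (n - 1) ≠ 0 := pow_ne_zero _ ha
  field_simp

/-- differentiated relation -/
theorem DD_tr_der (hn : 1 ≤ n) {a : ℂ} (b : ℂ) (ha : a ≠ 0) (f : RMap n) (z : ℂ) :
    (DD (tr hn a b ha f)).derivative.eval (a * z + b) * f.Q.eval z =
      (tr hn a b ha f).Q.eval (a * z + b) * (DD f).derivative.eval z := by
  have h1 : (DD (tr hn a b ha f)).comp (C a * X + C b) = C (a ^ n) * DD f := by
    refine Polynomial.funext fun w => ?_
    rw [Polynomial.eval_comp, Polynomial.eval_mul, Polynomial.eval_C]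
    have := DD_tr hn b ha f w
    simpa using this
  have h2 := congrArg (fun p : ℂ[X] => p.derivative.eval z) h1
  simp only [Polynomial.derivative_comp, Polynomial.derivative_mul, Polynomial.derivative_C, zero_mul,
    zero_add, Polynomial.derivative_add, Polynomial.derivative_X, mul_one, add_zero, Polynomial.eval_mul,
    Polynomial.eval_C, Polynomial.eval_comp, Polynomial.eval_add, Polynomial.eval_X] at h2
  rw [tr_Q]
  have h3 : a ^ n = a * a ^ (n - 1) := by
    rw [← pow_succ']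
    congr 1
    omega
  rw [h3, mul_assoc] at h2
  have h4 := mul_left_cancel₀ ha h2
  rw [h4]
  ring

/-- the multiplier at a fixed point -/
theorem deriv_fix (f : RMap n) {r : ℂ} (h1 : f.P.eval r = r * f.Q.eval r) (h2 : f.Q.eval r ≠ 0)
    (h3 : (DD f).derivative.eval r = 0) : deriv f.ev r = 1 := by
  have h4 : HasDerivAt f.ev ((f.P.derivative.eval r * f.Q.eval r - f.P.eval r * f.Q.derivative.eval r) /
      f.Q.eval r ^ 2) r := (f.P.hasDerivAt r).div (f.Q.hasDerivAt r) h2
  rw [h4.deriv, h1]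
  rw [DD_der] at h3
  have h5 : f.P.derivative.eval r = f.Q.eval r + r * f.Q.derivative.eval r := by linear_combination h3
  rw [h5]
  field_simp
  ring

/-- the relation is closed at nondegenerate points -/
theorem claim (h2 : MB.S_RTOP) (hn : 2 ≤ n) {ι : Type} (u : Ultrafilter ι) {X Y : ι → MPt n} {x y : MPt n}
    (hG : Gd x.1.1) (hX : Tendsto X u (𝓝 x)) (hY : Tendsto Y u (𝓝 y))
    (hXY : ∀ᶠ i in (u : Filter ι), AffConj n (X i) (Y i)) : AffConj n x y := by
  have hn1 : 1 ≤ n := by omega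
  -- the affine maps
  have hc : ∀ i, ∃ ab : ℂ × ℂ, ab.1 ≠ 0 ∧ (AffConj n (X i) (Y i) → ∀ ha : ab.1 ≠ 0, Y i = Tr hn1 ab.1 ab.2 ha (X i)) := by
    intro i
    by_cases h : AffConj n (X i) (Y i)
    · obtain ⟨a, b, ha, e⟩ := aff_Tr hn1 h
      exact ⟨(a, b), ha, fun _ _ => e⟩
    · exact ⟨(1, 0), one_ne_zero, fun h' => absurd h' h⟩
  choose ab hab0 hab using hc
  set a : ι → ℂ := fun i => (ab i).1 with ha
  set b : ι → ℂ := fun i => (ab i).2 with hb
  have ha0 : ∀ i, a i ≠ 0 := hab0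
  have hTr : ∀ᶠ i in (u : Filter ι), Y i = Tr hn1 (a i) (b i) (ha0 i) (X i) := by
    filter_upwards [hXY] with i hi
    exact hab i hi (ha0 i)
  have htr : ∀ᶠ i in (u : Filter ι), (Y i).1.1 = tr hn1 (a i) (b i) (ha0 i) (X i).1.1 ∧
      (Y i).1.2 = a i * (X i).1.2 + b i := by
    filter_upwards [hTr] with i hi
    rw [hi]
    exact ⟨rfl, rfl⟩
  -- the convergence
  have v1 : Continuous fun m : MPt n => m.1 := continuous_subtype_val
  have hXf : Tendsto (fun i => (X i).1.1) u (𝓝 x.1.1) := ((continuous_fst.comp v1).tendsto x).comp hX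
  have hYf : Tendsto (fun i => (Y i).1.1) u (𝓝 y.1.1) := ((continuous_fst.comp v1).tendsto y).comp hY
  have hXp : Tendsto (fun i => (X i).1.2) u (𝓝 x.1.2) := ((continuous_snd.comp v1).tendsto x).comp hX
  have hYp : Tendsto (fun i => (Y i).1.2) u (𝓝 y.1.2) := ((continuous_snd.comp v1).tendsto y).comp hY
  obtain ⟨-, hR⟩ := h2 n
  obtain ⟨hXc, hXe⟩ := hR ι u (fun i => (X i).1.1) x.1.1
  obtain ⟨hYc, hYe⟩ := hR ι u (fun i => (Y i).1.1) y.1.1
  obtain ⟨hXP, hXQ⟩ := hXc.1 hXf
  obtain ⟨hYP, hYQ⟩ := hYc.1 hYf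
  have hXev := hXe hXf
  have hYev := hYe hYf
  have hDc : ∀ (F : ι → MPt n) (f : MPt n), (∀ j, Tendsto (fun i => (F i).1.1.P.coeff j) u (𝓝 (f.1.1.P.coeff j))) →
      (∀ j, Tendsto (fun i => (F i).1.1.Q.coeff j) u (𝓝 (f.1.1.Q.coeff j))) →
      ∀ j, Tendsto (fun i => (DD (F i).1.1).coeff j) u (𝓝 ((DD f.1.1).coeff j)) := by
    intro F f hP hQ j
    unfold DD
    simp only [Polynomial.coeff_sub]
    refine (hP j).sub ?_
    rcases j with _ | j
    · simp only [Polynomial.coeff_X_mul_zero]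
      exact tendsto_const_nhds
    · simp only [Polynomial.coeff_X_mul]
      exact hQ j
  have hd := hDc X x hXP hXQ
  have he := hDc Y y hYP hYQ
  have hdl : (DD x.1.1).coeff n ≠ 0 := by
    rw [DD_coeff hn1]
    exact sub_ne_zero.2 (Ne.symm hG.1)
  have hel : (DD y.1.1).coeff n = (DD x.1.1).coeff n := by
    refine tendsto_nhds_unique (he n) ((hd n).congr' ?_)
    filter_upwards [htr] with i hi
    rw [hi.1, DD_tr_coeff]
  have hrel : ∀ᶠ i in (u : Filter ι), ∀ z, (DD (Y i).1.1).eval (a i * z + b i) = a i ^ n * (DD (X i).1.1).eval z := by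
    filter_upwards [htr] with i hi
    intro z
    rw [hi.1, DD_tr]
  have hdN : ∀ i, (DD (X i).1.1).natDegree ≤ n := fun i => DD_natDegree hn1 _
  have heN : ∀ i, (DD (Y i).1.1).natDegree ≤ n := fun i => DD_natDegree hn1 _
  obtain ⟨-, r₁, r₂, hr, hf1, hf2, hQ1, hder⟩ := hG
  rcases dich u a with ⟨a₀, ha₀⟩ | ⟨hainf, -⟩
  · -- `b` converges
    obtain ⟨b₁, hb₁⟩ : ∃ z, Tendsto b u (𝓝 z) := by
      refine bddB u hn1 heN he (by rw [hel]; exact hdl) (K := a₀ ^ n * (DD x.1.1).eval 0) ?_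
      have h3 : Tendsto (fun i => a i ^ n * (DD (X i).1.1).eval 0) u (𝓝 (a₀ ^ n * (DD x.1.1).eval 0)) :=
        (ha₀.pow n).mul (tend_eval hdN (DD_natDegree hn1 _) hd tendsto_const_nhds)
      refine h3.congr' ?_
      filter_upwards [hrel] with i hi
      rw [← hi 0]
      simp
    have hlin : ∀ z, Tendsto (fun i => a i * z + b i) u (𝓝 (a₀ * z + b₁)) := fun z =>
      (ha₀.mul tendsto_const_nhds).add hb₁
    -- the relations in the limit
    have hQlim : ∀ z, y.1.1.Q.eval (a₀ * z + b₁) = a₀ ^ (n - 1) * x.1.1.Q.eval z := by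
      intro z
      have h3 := (hYev _ _ (hlin z)).2
      have h4 : Tendsto (fun i => a i ^ (n - 1) * (X i).1.1.Q.eval z) u (𝓝 (a₀ ^ (n - 1) * x.1.1.Q.eval z)) :=
        (ha₀.pow (n - 1)).mul (hXev _ _ tendsto_const_nhds).2
      refine tendsto_nhds_unique h3 (h4.congr' ?_)
      filter_upwards [htr] with i hi
      rw [hi.1, tr_Q]
    have hPlim : ∀ z, y.1.1.P.eval (a₀ * z + b₁) = a₀ ^ n * x.1.1.P.eval z + b₁ * a₀ ^ (n - 1) * x.1.1.Q.eval z := by
      intro z
      have h3 := (hYev _ _ (hlin z)).1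
      have h4 : Tendsto (fun i => a i ^ n * (X i).1.1.P.eval z + b i * a i ^ (n - 1) * (X i).1.1.Q.eval z) u
          (𝓝 (a₀ ^ n * x.1.1.P.eval z + b₁ * a₀ ^ (n - 1) * x.1.1.Q.eval z)) :=
        ((ha₀.pow n).mul (hXev _ _ tendsto_const_nhds).1).add
          ((hb₁.mul (ha₀.pow (n - 1))).mul (hXev _ _ tendsto_const_nhds).2)
      refine tendsto_nhds_unique h3 (h4.congr' ?_)
      filter_upwards [htr] with i hi
      rw [hi.1, tr_P]
    by_cases hz : a₀ = 0
    · exfalso
      -- the polynomial of the fixed points of `y`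
      have hE : ∀ w, (DD y.1.1).eval w = (DD x.1.1).coeff n * (w - b₁) ^ n := by
        intro w
        have h3 : Tendsto (fun i => (DD (Y i).1.1).eval w) u (𝓝 ((DD y.1.1).eval w)) :=
          tend_eval heN (DD_natDegree hn1 _) he tendsto_const_nhds
        have h4 : Tendsto (fun i => HH n (DD (X i).1.1) (w - b i) (a i)) u
            (𝓝 (HH n (DD x.1.1) (w - b₁) a₀)) := tend_HH hd (tendsto_const_nhds.sub hb₁) ha₀
        rw [hz, HH_zero] at h4
        refine tendsto_nhds_unique h3 (h4.congr' ?_)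
        filter_upwards [hrel] with i hi
        rw [HH_eq (hdN i) (ha0 i), ← hi]
        congr 1
        have := ha0 i
        field_simp
        ring
      have hE2 : DD y.1.1 = C ((DD x.1.1).coeff n) * (Polynomial.X - C b₁) ^ n := by
        refine Polynomial.funext fun w => ?_
        rw [hE w]
        simp
      have hE3 : (DD y.1.1).derivative.eval b₁ = 0 := by
        rw [hE2, Polynomial.derivative_C_mul, Polynomial.derivative_X_sub_C_pow]
        simp only [Polynomial.eval_mul, Polynomial.eval_C, Polynomial.eval_pow, Polynomial.eval_sub,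
          Polynomial.eval_X, sub_self]
        rw [zero_pow (by omega)]
        ring
      have hQy : y.1.1.Q.eval b₁ ≠ 0 := by
        intro h3
        have h4 := hE b₁
        rw [DD_eval, h3, mul_zero, sub_zero, sub_self, zero_pow (by omega), mul_zero] at h4
        obtain ⟨p, q, hpq⟩ := y.1.1.coprime
        have h5 := congrArg (fun P : ℂ[X] => P.eval b₁) hpq
        simp only [Polynomial.eval_add, Polynomial.eval_mul, h3, h4, mul_zero, add_zero, Polynomial.eval_one] at h5
        exact zero_ne_one h5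
      -- the relation between the derivatives
      have h6 : (DD y.1.1).derivative.eval b₁ * x.1.1.Q.eval r₁ = y.1.1.Q.eval b₁ * (DD x.1.1).derivative.eval r₁ := by
        have hl := hlin r₁
        rw [hz, zero_mul, zero_add] at hl
        have hNd : ∀ f : RMap n, (DD f).derivative.natDegree ≤ n := fun f =>
          (Polynomial.natDegree_derivative_le _).trans ((Nat.sub_le _ _).trans (DD_natDegree hn1 f))
        have hcd : ∀ (F : ι → MPt n) (f : MPt n), (∀ j, Tendsto (fun i => (DD (F i).1.1).coeff j) u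
            (𝓝 ((DD f.1.1).coeff j))) → ∀ j, Tendsto (fun i => (DD (F i).1.1).derivative.coeff j) u
            (𝓝 ((DD f.1.1).derivative.coeff j)) := by
          intro F f hF j
          simp only [Polynomial.coeff_derivative]
          exact (hF (j + 1)).mul tendsto_const_nhds
        have t1 := tend_eval (fun i => hNd (Y i).1.1) (hNd _) (hcd Y y he) hl
        have t2 := tend_eval (fun i => hNd (X i).1.1) (hNd _) (hcd X x hd) (tendsto_const_nhds (x := r₁))
        have t3 := (hXev _ _ (tendsto_const_nhds (x := r₁))).2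
        have t4 := (hYev _ _ hl).2
        refine tendsto_nhds_unique (t1.mul t3) ((t4.mul t2).congr' ?_)
        filter_upwards [htr] with i hi
        rw [hi.1, DD_tr_der]
      rw [hE3, zero_mul] at h6
      have h7 : (DD x.1.1).derivative.eval r₁ = 0 := by
        rcases mul_eq_zero.1 h6.symm with h8 | h8
        · exact absurd h8 hQy
        · exact h8
      exact hder (deriv_fix _ hf1 hQ1 h7)
    · refine ⟨a₀, b₁, hz, ?_, fun z => ⟨?_, fun hz' => ?_⟩⟩
      · have h3 : Tendsto (fun i => a i * (X i).1.2 + b i) u (𝓝 (a₀ * x.1.2 + b₁)) := (ha₀.mul hXp).add hb₁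
        refine tendsto_nhds_unique hYp (h3.congr' ?_)
        filter_upwards [htr] with i hi
        exact hi.2.symm
      · rw [hQlim]
        simp [hz]
      · unfold RMap.ev
        rw [hQlim, hPlim]
        have h3 : a₀ ^ (n - 1) ≠ 0 := pow_ne_zero _ hz
        have h4 : a₀ ^ n = a₀ ^ (n - 1) * a₀ := by
          rw [← pow_succ]
          congr 1
          omega
        rw [h4]
        field_simp
  · exfalso
    -- `a → ∞`
    set β : ι → ℂ := fun i => -(b i) / a i with hβ
    obtain ⟨β₀, hβ₀⟩ : ∃ z, Tendsto β u (𝓝 z) := by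
      refine bddB u hn1 hdN hd hdl (K := 0 ^ n * (DD y.1.1).eval 0) ?_
      have h3 : Tendsto (fun i => (a i)⁻¹ ^ n * (DD (Y i).1.1).eval 0) u (𝓝 (0 ^ n * (DD y.1.1).eval 0)) :=
        (hainf.pow n).mul (tend_eval heN (DD_natDegree hn1 _) he tendsto_const_nhds)
      refine h3.congr' ?_
      filter_upwards [hrel] with i hi
      have h4 := hi (β i)
      have h5 : a i * β i + b i = 0 := by
        rw [hβ]
        have := ha0 i
        field_simp
        ring
      rw [h5] at h4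
      rw [h4, inv_pow, inv_mul_cancel_left₀ (pow_ne_zero _ (ha0 i))]
    have hE : ∀ z, (DD x.1.1).eval z = (DD y.1.1).coeff n * (z - β₀) ^ n := by
      intro z
      have h3 : Tendsto (fun i => (DD (X i).1.1).eval z) u (𝓝 ((DD x.1.1).eval z)) :=
        tend_eval hdN (DD_natDegree hn1 _) hd tendsto_const_nhds
      have h4 : Tendsto (fun i => HH n (DD (Y i).1.1) (z - β i) (a i)⁻¹) u
          (𝓝 (HH n (DD y.1.1) (z - β₀) 0)) := tend_HH he (tendsto_const_nhds.sub hβ₀) hainf
      rw [HH_zero] at h4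
      refine tendsto_nhds_unique h3 (h4.congr' ?_)
      filter_upwards [hrel] with i hi
      rw [HH_eq (heN i) (inv_ne_zero (ha0 i))]
      have h5 : (z - β i) / (a i)⁻¹ = a i * z + b i := by
        rw [hβ]
        have := ha0 i
        field_simp
        ring
      rw [h5, hi z, inv_pow, inv_mul_cancel_left₀ (pow_ne_zero _ (ha0 i))]
    have hroot : ∀ r, x.1.1.P.eval r = r * x.1.1.Q.eval r → r = β₀ := by
      intro r h3
      have h4 := hE r
      rw [DD_eval, h3, sub_self] at h4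
      rcases mul_eq_zero.1 h4.symm with h5 | h5
      · exact absurd h5 (by rw [hel]; exact hdl)
      · exact sub_eq_zero.1 (pow_eq_zero_iff (by omega) |>.1 h5)
    exact hr ((hroot r₁ hf1).trans (hroot r₂ hf2).symm)

end HAUaux

open HAUaux in
theorem t_HAU (h1 : S_EQU) (h2 : MB.S_RTOP) : S_HAU := by
  intro n x c ι u xs hn hG hx hc
  obtain ⟨y, rfl⟩ := Quot.exists_rep c
  have hE := h1 n
  show cls y = cls x
  have hNB : ((𝓝 x ×ˢ 𝓝 y) ⊓ 𝓟 {p : MPt n × MPt n | AffConj n p.1 p.2}).NeBot := by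
    rw [Filter.inf_principal_neBot_iff]
    intro U hU
    obtain ⟨U₁, hU₁, V₁, hV₁, hUV⟩ := Filter.mem_prod_iff.1 hU
    have h3 : ∀ᶠ i in (u : Filter ι), xs i ∈ U₁ := hx hU₁
    have h4 : cls '' (interior V₁) ∈ 𝓝 (cls y) :=
      (cls_open (by omega) hE isOpen_interior).mem_nhds ⟨y, mem_interior_iff_mem_nhds.2 hV₁, rfl⟩
    have h5 : ∀ᶠ i in (u : Filter ι), cls (xs i) ∈ cls '' (interior V₁) := hc h4
    obtain ⟨i, hi1, y', hy', hi2⟩ := (h3.and h5).exists
    refine ⟨(xs i, y'), hUV ⟨hi1, interior_subset hy'⟩, ?_⟩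
    exact (hE.quot_mk_eq_iff _ _).1 hi2.symm
  set u' : Ultrafilter (MPt n × MPt n) := @Ultrafilter.of _ _ hNB with hu'
  have hle : (u' : Filter (MPt n × MPt n)) ≤ (𝓝 x ×ˢ 𝓝 y) ⊓ 𝓟 {p : MPt n × MPt n | AffConj n p.1 p.2} :=
    @Ultrafilter.of_le _ _ hNB
  have t1 : Tendsto (Prod.fst : MPt n × MPt n → MPt n) u' (𝓝 x) := tendsto_fst.mono_left (hle.trans inf_le_left)
  have t2 : Tendsto (Prod.snd : MPt n × MPt n → MPt n) u' (𝓝 y) := tendsto_snd.mono_left (hle.trans inf_le_left)
  have t3 : ∀ᶠ p in (u' : Filter (MPt n × MPt n)), AffConj n p.1 p.2 := le_principal_iff.1 (hle.trans inf_le_right)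
  exact ((hE.quot_mk_eq_iff _ _).2 (claim h2 hn u' hG t1 t2 t3)).symm

end Pool.Agent.H212.ND
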