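import Pool.Agent.H212.ND.StmA

/-!
# Project ND (MP_395436_an), job HOR: the horn maps agree
-/

set_option autoImplicit false

open Filter Metric Set Topology Polynomial
open scoped ComplexConjugate

namespace Pool.Agent.H212.ND

open Pool.Agent.H212.MB

namespace HORaux

/-! ## Injective holomorphic functions have no critical points -/

theorem deriv_ne {f : ℂ → ℂ} {U : Set ℂ} {z : ℂ} (hU : IsOpen U) (hz : z ∈ U)
    (hf : DifferentiableOn ℂ f U) (hi : InjOn f U) : deriv f z ≠ 0 := by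
  intro hd
  have hUz : U ∈ 𝓝 z := hU.mem_nhds hz
  have ha : AnalyticAt ℂ f z := hf.analyticAt hUz
  have hF : AnalyticAt ℂ (fun y => f y - f z) z := ha.sub analyticAt_const
  obtain ⟨k, q, hq, hqz, hk⟩ := hF.exists_eventuallyEq_pow_smul_nonzero_iff.2 (by
    intro h
    have h3 : ∀ᶠ y in 𝓝[≠] z, y ∈ U ∧ f y - f z = 0 :=
      ((show ∀ᶠ y in 𝓝 z, y ∈ U from hUz).and h).filter_mono nhdsWithin_le_nhds
    obtain ⟨y, ⟨hyU, hy0⟩, hyz⟩ := (h3.and self_mem_nhdsWithin).exists
    exact hyz (hi hyU hz (sub_eq_zero.1 hy0)))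
  have hk0 : k ≠ 0 := by
    rintro rfl
    have h3 := hk.self_of_nhds
    simp at h3
    exact hqz h3.symm
  have hk1 : k ≠ 1 := by
    rintro rfl
    have h3 : HasDerivAt (fun y => (y - z) ^ 1 • q y) (q z) z := by
      have h4 := ((hasDerivAt_id z).sub_const z).fun_mul hq.differentiableAt.hasDerivAt
      simpa using h4
    have h5 : HasDerivAt (fun y => f y - f z) (q z) z := h3.congr_of_eventuallyEq hk
    have h6 : HasDerivAt (fun y => f y - f z) (deriv f z) z :=
      ha.differentiableAt.hasDerivAt.sub_const _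
    exact hqz ((h5.unique h6).trans hd)
  have hk2 : 1 < k := by omega
  have hkc : (k : ℂ) ≠ 0 := by exact_mod_cast hk0
  set d : ℂ := Complex.exp (Complex.log (q z) / k) with hdd
  have hdk : d ^ k = q z := by
    rw [hdd, ← Complex.exp_nat_mul, mul_div_cancel₀ _ hkc, Complex.exp_log hqz]
  have hd0 : d ≠ 0 := Complex.exp_ne_zero _
  let r : ℂ → ℂ := fun y => (y - z) * (d * Complex.exp (Complex.log (q y / q z) / k))
  have hra : AnalyticAt ℂ r z := by
    have h3 : AnalyticAt ℂ (fun y => Complex.log (q y / q z)) z := by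
      apply (hq.div analyticAt_const hqz).clog
      simp [div_self hqz]
    exact (analyticAt_id.sub analyticAt_const).mul (analyticAt_const.mul
      ((h3.div analyticAt_const hkc).cexp))
  have hrd : deriv r z = d := by
    have h3 : AnalyticAt ℂ (fun y => d * Complex.exp (Complex.log (q y / q z) / k)) z := by
      have h3 : AnalyticAt ℂ (fun y => Complex.log (q y / q z)) z := by
        apply (hq.div analyticAt_const hqz).clog
        simp [div_self hqz]
      exact analyticAt_const.mul ((h3.div analyticAt_const hkc).cexp)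
    have h4 := ((hasDerivAt_id z).sub_const z).fun_mul h3.differentiableAt.hasDerivAt
    have h5 : HasDerivAt r d z := by
      simpa [r, div_self hqz] using h4
    exact h5.deriv
  have hrs : HasStrictDerivAt r d z := by
    have := hra.hasStrictDerivAt
    rwa [hrd] at this
  have hmap : map r (𝓝 z) = 𝓝 0 := by
    have := hrs.map_nhds_eq hd0
    rw [this]
    simp [r]
  have hN : ∀ᶠ y in 𝓝 z, y ∈ U ∧ f y - f z = r y ^ k := by
    filter_upwards [hUz, hk, hq.continuousAt.eventually_ne hqz] with y hyU hyk hy0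
    refine ⟨hyU, ?_⟩
    rw [hyk]
    simp only [r]
    rw [mul_pow, mul_pow, hdk, ← Complex.exp_nat_mul, mul_div_cancel₀ _ hkc,
      Complex.exp_log (div_ne_zero hy0 hqz), mul_div_cancel₀ _ hqz, smul_eq_mul]
  have himg : r '' {y | y ∈ U ∧ f y - f z = r y ^ k} ∈ 𝓝 (0 : ℂ) := by
    rw [← hmap]
    exact image_mem_map hN
  set ζ : ℂ := Complex.exp (2 * Real.pi * Complex.I / k) with hζ
  have hprim : IsPrimitiveRoot ζ k := Complex.isPrimitiveRoot_exp k hk0
  have hζ1 : ζ ≠ 1 := hprim.ne_one hk2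
  have hcont : Tendsto (fun w : ℂ => ζ * w) (𝓝 0) (𝓝 0) := by
    have : Continuous (fun w : ℂ => ζ * w) := by fun_prop
    simpa using this.tendsto 0
  have h7 : ∀ᶠ w in 𝓝[≠] (0 : ℂ), w ∈ r '' {y | y ∈ U ∧ f y - f z = r y ^ k} ∧
      ζ * w ∈ r '' {y | y ∈ U ∧ f y - f z = r y ^ k} :=
    ((show ∀ᶠ w in 𝓝 (0 : ℂ), w ∈ r '' {y | y ∈ U ∧ f y - f z = r y ^ k} from himg).and
      (hcont himg)).filter_mono nhdsWithin_le_nhds
  obtain ⟨w, ⟨⟨y₁, ⟨h8, h9⟩, h10⟩, ⟨y₂, ⟨h11, h12⟩, h13⟩⟩, hw0⟩ := (h7.and self_mem_nhdsWithin).exists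
  have h14 : f y₁ = f y₂ := by
    have h15 : f y₁ - f z = f y₂ - f z := by
      rw [h9, h12, h10, h13, mul_pow, hprim.pow_eq_one, one_mul]
    linear_combination h15
  have h16 : y₁ = y₂ := hi h8 h11 h14
  rw [h16, h13] at h10
  have h17 : (ζ - 1) * w = 0 := by linear_combination h10
  rcases mul_eq_zero.1 h17 with h18 | h18
  · exact hζ1 (sub_eq_zero.1 h18)
  · exact hw0 h18

/-- a homeomorphism which commutes with `g` maps critical points to critical points -/
theorem crit_map {g : ℂ[X]} {L : ℂ ≃ₜ ℂ} (hc : ∀ y, L (g.eval y) = g.eval (L y)) {z : ℂ}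
    (hz : g.derivative.eval z = 0) : g.derivative.eval (L z) = 0 := by
  by_contra h0
  have h1 : HasStrictDerivAt (fun y => g.eval y) (g.derivative.eval (L z)) (L z) := g.hasStrictDerivAt _
  have h2 := h1.hasStrictFDerivAt_equiv h0
  have h3 : L ⁻¹' (h2.toOpenPartialHomeomorph (fun y => g.eval y)).source ∈ 𝓝 z :=
    L.continuous.continuousAt.preimage_mem_nhds
      ((h2.toOpenPartialHomeomorph (fun y => g.eval y)).open_source.mem_nhds
        (h2.mem_toOpenPartialHomeomorph_source))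
  have h4 : InjOn (fun y => g.eval y) (L ⁻¹' (h2.toOpenPartialHomeomorph (fun y => g.eval y)).source) := by
    intro y hy y' hy' hyy
    have h5 : g.eval (L y) = g.eval (L y') := by
      rw [← hc, ← hc]
      exact congrArg L hyy
    exact L.injective ((h2.toOpenPartialHomeomorph (fun y => g.eval y)).injOn hy hy' h5)
  have h6 := deriv_ne (f := fun y => g.eval y)
    ((h2.toOpenPartialHomeomorph (fun y => g.eval y)).open_source.preimage L.continuous)
    (mem_of_mem_nhds h3) g.differentiable.differentiableOn h4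
  exact h6 (by rw [Polynomial.deriv]; exact hz)

/-! ## The exponential coordinate at the end of the cylinder -/

/-- `exp (-2 π i W)` -/
noncomputable def ex (W : ℂ) : ℂ := Complex.exp (-(2 * Real.pi * Complex.I * W))

/-- an inverse -/
noncomputable def lg (X : ℂ) : ℂ := Complex.log X * Complex.I / (2 * Real.pi)

theorem ex_ne (W : ℂ) : ex W ≠ 0 := Complex.exp_ne_zero _

theorem ex_add (W V : ℂ) : ex (W + V) = ex W * ex V := by
  rw [ex, ex, ex, ← Complex.exp_add]
  congr 1
  ring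

theorem ex_sub (W V : ℂ) : ex (W - V) = ex W / ex V := by
  rw [ex, ex, ex, ← Complex.exp_sub]
  congr 1
  ring

theorem ex_zero : ex 0 = 1 := by simp [ex]

theorem norm_ex (W : ℂ) : ‖ex W‖ = Real.exp (2 * Real.pi * W.im) := by
  rw [ex, Complex.norm_exp]
  congr 1
  simp

theorem norm_ex_lt {W : ℂ} {b : ℝ} : ‖ex W‖ < Real.exp (2 * Real.pi * b) ↔ W.im < b := by
  rw [norm_ex, Real.exp_lt_exp]
  exact mul_lt_mul_iff_of_pos_left (by positivity)

theorem ex_int (k : ℤ) : ex k = 1 := by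
  rw [ex, Complex.exp_eq_one_iff]
  exact ⟨-k, by push_cast; ring⟩

theorem ex_eq {W V : ℂ} (h : ex W = ex V) : ∃ k : ℤ, W = V + k := by
  obtain ⟨k, hk⟩ := Complex.exp_eq_exp_iff_exists_int.1 h
  refine ⟨-k, ?_⟩
  have h1 : (2 * Real.pi * Complex.I : ℂ) ≠ 0 := Complex.two_pi_I_ne_zero
  apply mul_left_cancel₀ h1
  push_cast
  linear_combination -hk

theorem ex_lg {X : ℂ} (h : X ≠ 0) : ex (lg X) = X := by
  have hpi : (Real.pi : ℂ) ≠ 0 := by exact_mod_cast Real.pi_ne_zero
  have h1 : -(2 * Real.pi * Complex.I * lg X) = Complex.log X := by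
    rw [lg]
    field_simp
    linear_combination -Complex.log X * Complex.I_sq
  rw [ex, h1, Complex.exp_log h]

theorem ex_diff : Differentiable ℂ ex := by
  unfold ex
  fun_prop

/-- the map induced on the punctured disc, with the value `0` at `0` -/
noncomputable def E (f : ℂ → ℂ) (X : ℂ) : ℂ := if X = 0 then 0 else ex (f (lg X))

theorem E_zero (f : ℂ → ℂ) : E f 0 = 0 := by simp [E]

theorem per_int {f : ℂ → ℂ} {b : ℝ} (hp : ∀ W : ℂ, W.im < b → f (W + 1) = f W + 1) :
    ∀ k : ℤ, ∀ W : ℂ, W.im < b → f (W + k) = f W + k := by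
  intro k
  induction k using Int.induction_on with
  | zero => intro W _; simp
  | succ i ih =>
    intro W hW
    have h1 := hp (W + (i : ℤ)) (by simpa using hW)
    rw [ih W hW] at h1
    push_cast at h1 ⊢
    rw [← add_assoc, h1]
    ring
  | pred i ih =>
    intro W hW
    have h1 := hp (W + (-(i : ℤ) - 1 : ℤ)) (by simpa using hW)
    have h2 : W + ((-(i : ℤ) - 1 : ℤ) : ℂ) + 1 = W + ((-(i : ℤ) : ℤ) : ℂ) := by
      push_cast
      ring
    rw [h2, ih W hW] at h1
    push_cast at h1 ⊢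
    linear_combination -h1

theorem E_ex {f : ℂ → ℂ} {b : ℝ} (hp : ∀ W : ℂ, W.im < b → f (W + 1) = f W + 1) {W : ℂ} (hW : W.im < b) :
    E f (ex W) = ex (f W) := by
  rw [E, if_neg (ex_ne W)]
  obtain ⟨k, hk⟩ := ex_eq (ex_lg (ex_ne W))
  rw [hk, per_int hp k W hW, ex_add, ex_int, mul_one]

theorem E_ne {f : ℂ → ℂ} {X : ℂ} (h : X ≠ 0) : E f X ≠ 0 := by
  rw [E, if_neg h]
  exact ex_ne _

theorem lg_im_lt {X : ℂ} {b : ℝ} (h : X ≠ 0) (hX : ‖X‖ < Real.exp (2 * Real.pi * b)) : (lg X).im < b := by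
  rw [← norm_ex_lt, ex_lg h]
  exact hX

theorem E_hasDerivAt_zero {f : ℂ → ℂ} {l : ℂ}
    (hl : ∀ ε : ℝ, 0 < ε → ∃ Y : ℝ, ∀ W : ℂ, W.im < -Y → ‖f W - W - l‖ ≤ ε) :
    HasDerivAt (E f) (ex l) 0 := by
  rw [hasDerivAt_iff_tendsto_slope_zero]
  have h1 : ∀ᶠ t in 𝓝[≠] (0 : ℂ), ex (f (lg t) - lg t) = t⁻¹ • (E f (0 + t) - E f 0) := by
    filter_upwards [self_mem_nhdsWithin] with t ht
    have ht0 : t ≠ 0 := ht
    rw [zero_add, E_zero, sub_zero, E, if_neg ht0, ex_sub, ex_lg ht0, smul_eq_mul]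
    field_simp
  refine Tendsto.congr' h1 ?_
  apply (ex_diff.continuous.tendsto l).comp
  rw [Metric.tendsto_nhds]
  intro ε hε
  obtain ⟨Y, hY⟩ := hl (ε / 2) (by positivity)
  have h2 : ∀ᶠ t in 𝓝[≠] (0 : ℂ), t ∈ ball (0 : ℂ) (Real.exp (2 * Real.pi * (-Y))) :=
    nhdsWithin_le_nhds (ball_mem_nhds _ (Real.exp_pos _))
  filter_upwards [h2, self_mem_nhdsWithin] with t ht ht0
  rw [dist_eq_norm]
  rw [mem_ball_zero_iff] at ht
  exact (hY _ (lg_im_lt ht0 ht)).trans_lt (by linarith)

theorem E_diff {f : ℂ → ℂ} {b : ℝ} {l : ℂ} (hd : DifferentiableOn ℂ f {W | W.im < b})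
    (hp : ∀ W : ℂ, W.im < b → f (W + 1) = f W + 1)
    (hl : ∀ ε : ℝ, 0 < ε → ∃ Y : ℝ, ∀ W : ℂ, W.im < -Y → ‖f W - W - l‖ ≤ ε) :
    DifferentiableOn ℂ (E f) (ball 0 (Real.exp (2 * Real.pi * b))) := by
  intro X₀ hX₀
  rw [mem_ball_zero_iff] at hX₀
  apply DifferentiableAt.differentiableWithinAt
  by_cases h0 : X₀ = 0
  · rw [h0]
    exact (E_hasDerivAt_zero hl).differentiableAt
  · have hpi : (Real.pi : ℂ) ≠ 0 := by exact_mod_cast Real.pi_ne_zero
    have hV : ∀ X : ℂ, X ≠ 0 → ex (lg X₀ + lg (X / X₀)) = X := by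
      intro X hX
      rw [ex_add, ex_lg h0, ex_lg (div_ne_zero hX h0), mul_div_cancel₀ _ h0]
    have h1 : E f =ᶠ[𝓝 X₀] fun X => ex (f (lg X₀ + lg (X / X₀))) := by
      have h2 : ∀ᶠ X in 𝓝 X₀, ‖X‖ < Real.exp (2 * Real.pi * b) :=
        continuous_norm.continuousAt.eventually_lt continuousAt_const hX₀
      filter_upwards [h2, eventually_ne_nhds h0] with X hX hX0
      have h3 := hV X hX0
      rw [← E_ex hp (by rw [← norm_ex_lt, h3]; exact hX), h3]
    apply DifferentiableAt.congr_of_eventuallyEq _ h1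
    have h4 : DifferentiableAt ℂ (fun X => lg X₀ + lg (X / X₀)) X₀ := by
      unfold lg
      have h5 : DifferentiableAt ℂ (fun X => Complex.log (X / X₀)) X₀ := by
        apply DifferentiableAt.clog
        · exact differentiableAt_id.div_const _
        · simp [div_self h0]
      exact (differentiableAt_const _).add ((h5.mul_const _).div_const _)
    have h6 : DifferentiableAt ℂ f (lg X₀ + lg (X₀ / X₀)) := by
      apply hd.differentiableAt
      apply (isOpen_lt Complex.continuous_im continuous_const).mem_nhds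
      show (lg X₀ + lg (X₀ / X₀)).im < b
      rw [← norm_ex_lt, hV X₀ h0]
      exact hX₀
    exact ex_diff.differentiableAt.comp X₀ (h6.comp X₀ h4)

theorem E_inj {f : ℂ → ℂ} {b : ℝ} (hp : ∀ W : ℂ, W.im < b → f (W + 1) = f W + 1)
    (hi : InjOn f {W | W.im < b}) : InjOn (E f) (ball 0 (Real.exp (2 * Real.pi * b))) := by
  intro X hX X' hX' h
  rw [mem_ball_zero_iff] at hX hX'
  by_cases h0 : X = 0
  · by_contra h1
    apply E_ne (f := f) (X := X') (fun h2 => h1 (h0.trans h2.symm))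
    rw [← h, h0, E_zero]
  by_cases h0' : X' = 0
  · exact absurd (h.trans (by rw [h0', E_zero])) (E_ne h0)
  have h1 := lg_im_lt h0 hX
  have h1' := lg_im_lt h0' hX'
  rw [E, if_neg h0, E, if_neg h0'] at h
  obtain ⟨k, hk⟩ := ex_eq h
  rw [← per_int hp k _ h1'] at hk
  have h2 : lg X = lg X' + k := hi h1 (by show (lg X' + k).im < b; simpa using h1') hk
  rw [← ex_lg h0, h2, ex_add, ex_int, mul_one, ex_lg h0']

/-! ## Maps close to the identity are injective -/

theorem inj_low {h : ℂ → ℂ} {b : ℝ} (hd : DifferentiableOn ℂ h {W | W.im < b})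
    (hl : ∀ W : ℂ, W.im < b → ‖h W - W‖ ≤ 1 / 4) : InjOn h {W | W.im < b - 1} := by
  have ho : IsOpen {W : ℂ | W.im < b} := isOpen_lt Complex.continuous_im continuous_const
  have hdu : DifferentiableOn ℂ (fun W => h W - W) {W | W.im < b} := hd.sub differentiableOn_id
  have h1 : ∀ W ∈ {W : ℂ | W.im < b - 1}, ‖deriv (fun W => h W - W) W‖ ≤ 1 / 2 := by
    intro W hW
    have hW' : W.im < b - 1 := hW
    have h2 : closedBall W 1 ⊆ {W : ℂ | W.im < b} := by
      intro V hV
      rw [mem_closedBall, dist_eq_norm] at hV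
      have h3 := (Complex.abs_im_le_norm (V - W)).trans hV
      rw [Complex.sub_im, abs_le] at h3
      show V.im < b
      linarith [h3.2]
    have h4 : DiffContOnCl ℂ (fun W => h W - W) (ball W 1) := by
      refine ⟨hdu.mono (ball_subset_closedBall.trans h2), ?_⟩
      rw [closure_ball W one_ne_zero]
      exact hdu.continuousOn.mono h2
    have h5 := Complex.norm_deriv_le_of_forall_mem_sphere_norm_le (c := W) (R := 1) (C := 1 / 4)
      one_pos h4 (fun V hV => hl V (h2 (sphere_subset_closedBall hV)))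
    linarith
  have hconv : Convex ℝ {W : ℂ | W.im < b - 1} := by
    have : {W : ℂ | W.im < b - 1} = Complex.imLm ⁻¹' (Iio (b - 1)) := by
      ext w
      simp only [mem_ofPred_eq, mem_preimage, mem_Iio]
      rfl
    rw [this]
    exact (convex_Iio _).linear_preimage _
  intro W hW V hV hWV
  have h6 := hconv.norm_image_sub_le_of_norm_deriv_le (f := fun W => h W - W) (C := 1 / 2)
    (fun x hx => hdu.differentiableAt (ho.mem_nhds (by
      have hx' : x.im < b - 1 := hx
      show x.im < b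
      linarith))) h1 hW hV
  have hWV' : h W = h V := hWV
  simp only [hWV'] at h6
  have h7 : h V - V - (h V - W) = W - V := by ring
  rw [h7, norm_sub_rev] at h6
  have h8 : ‖V - W‖ = 0 := by
    have := norm_nonneg (V - W)
    linarith
  exact (sub_eq_zero.1 (norm_eq_zero.1 h8)).symm

/-- a real polynomial commutes with the conjugation -/
theorem eval_conj {p : ℂ[X]} (hp : ∀ i, (p.coeff i).im = 0) (z : ℂ) :
    p.derivative.eval (conj z) = conj (p.derivative.eval z) := by
  have h1 : p.map (starRingEnd ℂ) = p := by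
    ext i
    rw [coeff_map]
    exact Complex.conj_eq_iff_im.2 (hp i)
  have h2 : p.derivative.map (starRingEnd ℂ) = p.derivative := by
    rw [← derivative_map, h1]
  have h3 := Polynomial.eval₂_at_apply (p := p.derivative) (starRingEnd ℂ) z
  rw [← eval_map, h2] at h3
  exact h3

theorem ex_mul_q (W : ℂ) (S : ℝ) : (Real.exp (-(2 * Real.pi * S)) : ℂ) * ex W = ex (W - Complex.I * S) := by
  rw [ex, ex, Complex.ofReal_exp, ← Complex.exp_add]
  congr 1
  push_cast
  linear_combination -(2 * Real.pi * S) * Complex.I_sq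

end HORaux

open HORaux

theorem t_HOR (h1 : S_END) (h2 : S_PSL) : S_HOR := by
  intro n g c₀ c φ Φ ψ R C ρ S₁ Y₁ K0 β L κ lm hρ hG hP hF hLK hB hrel
  obtain ⟨Ya, hYa⟩ := hF.low (1 / 8) (by norm_num)
  obtain ⟨Yb, hYb⟩ := hB.asy (1 / 8) (by norm_num)
  obtain ⟨Yc, hYc⟩ := hB.hol
  obtain ⟨b, hb1, hb2, hb3, hb4⟩ : ∃ b : ℝ, b ≤ -Ya - 2 ∧ b ≤ -Yb ∧ b ≤ -Yc ∧ b ≤ -Y₁ :=
    ⟨min (min (-Ya - 2) (-Yb)) (min (-Yc) (-Y₁)), (min_le_left _ _).trans (min_le_left _ _),
      (min_le_left _ _).trans (min_le_right _ _), (min_le_right _ _).trans (min_le_left _ _),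
      (min_le_right _ _).trans (min_le_right _ _)⟩
  -- the horn map
  let h : ℂ → ℂ := fun W => Φ (ψ W)
  have hbas : ∀ W : ℂ, W.im < -Ya → ψ W ∈ Bas g c₀ := fun W hW => (hYa W hW).1
  have hdiff : DifferentiableOn ℂ h {W | W.im < -Ya} :=
    hF.dΦ.comp hF.dψ.differentiableOn (fun W hW => hbas W hW)
  have hper : ∀ W : ℂ, W.im < -Ya → h (W + 1) = h W + 1 := by
    intro W hW
    show Φ (ψ (W + 1)) = Φ (ψ W) + 1
    rw [hF.semψ, hF.semΦ _ (hbas W hW)]
  have hlim : ∀ ε : ℝ, 0 < ε → ∃ Y : ℝ, ∀ W : ℂ, W.im < -Y → ‖h W - W - 0‖ ≤ ε := by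
    intro ε hε
    obtain ⟨Y, hY⟩ := hF.low ε hε
    exact ⟨Y, fun W hW => by rw [sub_zero]; exact (hY W hW).2⟩
  have hclose : ∀ W : ℂ, W.im < -Ya → ‖h W - W‖ ≤ 1 / 4 := fun W hW => (hYa W hW).2.trans (by norm_num)
  -- the second one
  have hbim : ∀ W : ℂ, W.im < b → (β W).im < W.im + 1 := by
    intro W hW
    have h3 := (Complex.abs_im_le_norm (β W - W)).trans (hYb W (by linarith))
    rw [Complex.sub_im, abs_le] at h3
    linarith [h3.2]
  let hf : ℂ → ℂ := fun W => h (β W)
  have hfdiff : DifferentiableOn ℂ hf {W | W.im < b} := by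
    apply hdiff.comp (hYc.mono _)
    · intro W hW
      have h3 := hbim W hW
      have hW' : W.im < b := hW
      show (β W).im < -Ya
      linarith
    · intro W hW
      have hW' : W.im < b := hW
      show W.im < -Yc
      linarith
  have hfper : ∀ W : ℂ, W.im < b → hf (W + 1) = hf W + 1 := by
    intro W hW
    show h (β (W + 1)) = h (β W) + 1
    rw [hB.per]
    exact hper _ (by linarith [hbim W hW])
  have hflim : ∀ ε : ℝ, 0 < ε → ∃ Y : ℝ, ∀ W : ℂ, W.im < -Y → ‖hf W - W - 0‖ ≤ ε := by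
    intro ε hε
    obtain ⟨Y, hY⟩ := hF.low (ε / 2) (by positivity)
    obtain ⟨Y', hY'⟩ := hB.asy (ε / 2) (by positivity)
    refine ⟨max (Y + ε) Y', fun W hW => ?_⟩
    have h4 := le_max_left (Y + ε) Y'
    have h5 := le_max_right (Y + ε) Y'
    have h6 := hY' W (by linarith)
    have h7 := (Complex.abs_im_le_norm (β W - W)).trans h6
    rw [Complex.sub_im, abs_le] at h7
    have h8 := (hY (β W) (by linarith [h7.2])).2
    have h9 : hf W - W - 0 = (Φ (ψ (β W)) - β W) + (β W - W) := by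
      show Φ (ψ (β W)) - W - 0 = _
      ring
    rw [h9]
    exact (norm_add_le _ _).trans (by linarith)
  -- the critical points
  have hg0 : g.derivative ≠ 0 := by
    intro h0
    have := hG.der
    rw [h0] at this
    simp at this
  let X0 : Finset ℂ := g.derivative.roots.toFinset.image (fun z => ex (Φ z))
  have hX0 : ∀ x, x ∈ X0 ↔ ∃ z, g.derivative.eval z = 0 ∧ ex (Φ z) = x := by
    intro x
    simp only [X0, Finset.mem_image, Multiset.mem_toFinset, mem_roots hg0, IsRoot.def]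
  have hcb : ∀ z, g.derivative.eval z = 0 → z ∈ Bas g c₀ := fun z hz => ⟨0, (hG.crit z hz).2.1⟩
  have hcc : g.derivative.eval (conj c) = 0 := by
    rw [eval_conj hG.real, hG.cc, map_zero]
  have him : (Φ c).im ≠ 0 := by
    intro h0
    obtain ⟨m, hm⟩ := hF.imΦ c (hcb c hG.cc) h0
    exact hG.nonreal m hm
  have him' : (Φ (conj c)).im = -(Φ c).im := by
    rw [hF.realΦ c (hcb c hG.cc), Complex.conj_im]
  have hreal : ∀ z, g.derivative.eval z = 0 → z.im = 0 → (Φ z).im = 0 := by
    intro z hz hz0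
    have h3 := hF.realΦ z (hcb z hz)
    rw [Complex.conj_eq_iff_im.2 hz0] at h3
    exact Complex.conj_eq_iff_im.1 h3.symm
  have hnorm : ∀ z z' : ℂ, ‖ex (Φ z)‖ = ‖ex (Φ z')‖ → (Φ z).im = (Φ z').im := by
    intro z z' hzz
    rw [norm_ex, norm_ex] at hzz
    exact mul_left_cancel₀ (by positivity : (2 * Real.pi) ≠ 0) (Real.exp_injective hzz)
  have hev := h2 (E h) (E hf) (Real.exp (2 * Real.pi * b)) (Real.exp (-(2 * Real.pi * S₁))) X0
    (ex (Φ c)) (ex (Φ (conj c))) (Real.exp_pos _) (Real.exp_pos _)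
    (E_diff (hdiff.mono (fun W hW => by
      have hW' : W.im < b := hW
      show W.im < -Ya
      linarith)) (fun W hW => hper W (by linarith)) hlim)
    (E_diff hfdiff hfper hflim) (E_zero _) (E_zero _)
    ((E_hasDerivAt_zero hlim).deriv.trans ex_zero) ((E_hasDerivAt_zero hflim).deriv.trans ex_zero)
    (by
      rw [hX0]
      rintro ⟨z, -, hz⟩
      exact ex_ne _ hz)
    ((hX0 _).2 ⟨c, hG.cc, rfl⟩) ((hX0 _).2 ⟨conj c, hcc, rfl⟩)
    (by
      intro h0
      have h3 := hnorm _ _ h0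
      rw [him'] at h3
      exact him (by linarith))
    (by
      intro x hx hxn
      obtain ⟨z, hz, rfl⟩ := (hX0 x).1 hx
      have h3 := hnorm _ _ hxn
      rcases (hG.crit z hz).2.2 with h4 | h4 | h4
      · rw [hreal z hz h4] at h3
        exact absurd h3.symm him
      · rw [h4]
      · rw [h4, him'] at h3
        exact absurd (by linarith) him)
    (by
      intro x hx hxn
      obtain ⟨z, hz, rfl⟩ := (hX0 x).1 hx
      have h3 := hnorm _ _ hxn
      rw [him'] at h3
      rcases (hG.crit z hz).2.2 with h4 | h4 | h4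
      · rw [hreal z hz h4] at h3
        exact absurd (by linarith) him
      · rw [h4] at h3
        exact absurd (by linarith) him
      · rw [h4])
    (by
      intro q hq0 hq1
      -- the translation
      obtain ⟨S, rfl⟩ : ∃ S : ℝ, Real.exp (-(2 * Real.pi * S)) = q := by
        refine ⟨-Real.log q / (2 * Real.pi), ?_⟩
        rw [mul_div_cancel₀ _ (by positivity), neg_neg, Real.exp_log hq0]
      have hS : S₁ ≤ S := by
        rw [Real.exp_lt_exp] at hq1
        have h3 : 2 * Real.pi * S₁ < 2 * Real.pi * S := by linarith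
        exact (lt_of_mul_lt_mul_left h3 (by positivity)).le
      obtain ⟨hLS, hKL⟩ := hLK S hS
      have hκp : ∀ (b' : ℝ) (W : ℂ), W.im < b' → κ S (W + 1) = κ S W + 1 := fun _ W _ => hKL.perκ W
      obtain ⟨l, hl⟩ := h1 (κ S) (S - Y₁) hKL.holκ (κ S).injective.injOn (hκp _)
      have hsub : ball (0 : ℂ) (Real.exp (2 * Real.pi * b) / Real.exp (-(2 * Real.pi * S))) ⊆
          ball 0 (Real.exp (2 * Real.pi * (S - Y₁))) := by
        apply ball_subset_ball
        rw [← Real.exp_sub, Real.exp_le_exp]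
        have h3 : 2 * Real.pi * b ≤ 2 * Real.pi * (-Y₁) :=
          mul_le_mul_of_nonneg_left hb4 (by positivity)
        linarith
      have hκE : ∀ W : ℂ, E (κ S) (ex W) = ex (κ S W) := fun W => E_ex (hκp (W.im + 1)) (lt_add_one _)
      refine ⟨E (κ S), (E_diff hKL.holκ (hκp _) hl).mono hsub,
        (E_inj (hκp _) (κ S).injective.injOn).mono hsub, E_zero _, ?_, ?_⟩
      · intro x hx
        obtain ⟨z, hz, rfl⟩ := (hX0 x).1 hx
        rw [hκE, hX0]
        exact ⟨L S z, crit_map hLS.comm hz, by rw [(hKL.semκ z (hcb z hz)).2]⟩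
      · intro x hx hx'
        by_cases hx0 : x = 0
        · simp only [hx0, mul_zero, E_zero]
        obtain ⟨W, rfl⟩ : ∃ W, ex W = x := ⟨lg x, ex_lg hx0⟩
        have h3 : (W - Complex.I * S).im < b := by
          rw [← norm_ex_lt, ← ex_mul_q, norm_mul, Complex.norm_real, Real.norm_of_nonneg (Real.exp_pos _).le]
          rw [mem_ball_zero_iff, lt_div_iff₀ (Real.exp_pos _)] at hx
          linarith
        rw [hκE, ex_mul_q, norm_ex_lt] at hx'
        rw [hκE, ex_mul_q, ex_mul_q, E_ex (f := h) (b := b) (fun W hW => hper W (by linarith)) h3,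
          E_ex hfper hx', hκE]
        show ex (κ S (Φ (ψ (W - Complex.I * S)))) = ex (Φ (ψ (β (κ S W - Complex.I * S))))
        rw [← hrel S hS, ← hKL.seml, (hKL.semκ _ (hbas _ (by linarith))).2])
  obtain ⟨r, hr, hball⟩ := Metric.eventually_nhds_iff_ball.1 hev
  obtain ⟨b₂, hb₂⟩ : ∃ b₂ : ℝ, Real.exp (2 * Real.pi * b₂) = r := by
    refine ⟨Real.log r / (2 * Real.pi), ?_⟩
    rw [mul_div_cancel₀ _ (by positivity), Real.exp_log hr]
  refine ⟨-min b b₂, fun W hW => ?_⟩
  rw [neg_neg] at hW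
  have hW1 : W.im < b := hW.trans_le (min_le_left _ _)
  have hW2 : W.im < b₂ := hW.trans_le (min_le_right _ _)
  have h3 := hball (ex W) (by
    rw [mem_ball_zero_iff, ← hb₂]
    exact norm_ex_lt.2 hW2)
  rw [E_ex (f := h) (b := b) (fun W hW => hper W (by linarith)) hW1, E_ex hfper hW1] at h3
  obtain ⟨k, hk⟩ := ex_eq h3
  have h4 := (hYa W (by linarith)).2
  have h5 := (hYa (β W) (by linarith [hbim W hW1])).2
  have h6 := hYb W (by linarith)
  have h7 : (k : ℂ) = (Φ (ψ W) - W) - (Φ (ψ (β W)) - β W) - (β W - W) := by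
    have hk' : Φ (ψ W) = Φ (ψ (β W)) + k := hk
    rw [hk']
    ring
  have h8 : ‖(k : ℂ)‖ < 1 := by
    rw [h7]
    refine (norm_sub_le _ _).trans_lt ?_
    have := norm_sub_le (Φ (ψ W) - W) (Φ (ψ (β W)) - β W)
    linarith
  have h9 : k = 0 := by
    rw [Complex.norm_intCast] at h8
    have h10 : |k| < 1 := by exact_mod_cast h8
    exact Int.abs_lt_one_iff.1 h10
  rw [h9] at hk
  have h10 : h W = h (β W) := by
    rw [hk]
    simp [hf]
  have h11 : W.im < -Ya - 1 := by linarith
  have h12 : (β W).im < -Ya - 1 := by linarith [hbim W hW1]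
  exact (inj_low hdiff hclose h11 h12 h10).symm

end Pool.Agent.H212.ND
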