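import Pool.Agent.H212.ND.StmM
import Pool.Graph.R_pool_sql_team_5be1d20b.H19.Univ

/-!
# Project ND, job INB: the inner Blaschke product is determined by the polynomial
-/

set_option autoImplicit false

open Filter Metric Set Topology Polynomial
open scoped ComplexConjugate

namespace Pool.Agent.H212.ND

open Pool.Agent.H212.MB

namespace INBaux

/-! ### The exterior -/

theorem CExt_subset : CExt ⊆ closure MB.Ext := by
  have h1 : MB.Ext = (closedBall (0 : ℂ) 1)ᶜ := by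
    ext z
    simp [MB.Ext]
  rw [h1, closure_compl, interior_closedBall _ one_ne_zero]
  intro z hz
  simpa [CExt] using hz

theorem Ext_subset : MB.Ext ⊆ CExt := by
  intro z (hz : 1 < ‖z‖)
  exact (le_of_lt hz : 1 ≤ ‖z‖)

/-! ### The gluing map is onto -/

theorem surj_of_per {h : ℝ → ℝ} (hc : Continuous h) (hp : ∀ x, h (x + 2 * Real.pi) = h x + 2 * Real.pi) :
    Function.Surjective h := by
  have h1 : ∀ (k : ℕ) (x : ℝ), h (x + k * (2 * Real.pi)) = h x + k * (2 * Real.pi) := by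
    intro k
    induction k with
    | zero => intro x; simp
    | succ k ih =>
      intro x
      have h2 : x + ((k + 1 : ℕ) : ℝ) * (2 * Real.pi) = (x + k * (2 * Real.pi)) + 2 * Real.pi := by
        push_cast
        ring
      rw [h2, hp, ih]
      push_cast
      ring
  have hpi : 0 < 2 * Real.pi := by positivity
  intro y
  obtain ⟨k, hk⟩ := exists_nat_gt (|y - h 0| / (2 * Real.pi))
  rw [div_lt_iff₀ hpi] at hk
  have h3 := h1 k 0
  have h4 := h1 k (-(k * (2 * Real.pi)))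
  rw [neg_add_cancel] at h4
  rw [zero_add] at h3
  have h5 : y ∈ Icc (h (-(k * (2 * Real.pi)))) (h (k * (2 * Real.pi))) := by
    constructor
    · have := neg_abs_le (y - h 0)
      linarith
    · have := le_abs_self (y - h 0)
      linarith
  have h6 : -(k * (2 * Real.pi)) ≤ (k * (2 * Real.pi)) := by
    have : 0 ≤ (k * (2 * Real.pi)) := by positivity
    linarith
  obtain ⟨x, -, hx⟩ := intermediate_value_Icc h6 hc.continuousOn h5
  exact ⟨x, hx⟩

/-- the image of the circle -/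
theorem image_sphere {n : ℕ} {A B : Blaschke n} {f : RMap n} {φ ψ : ℂ → ℂ} {h : ℝ → ℝ}
    (hM : IsMatingData A B f φ ψ h) : ψ '' sphere 0 1 = φ '' sphere 0 1 := by
  have hs := surj_of_per hM.conth hM.perh
  have hz : ∀ z : ℂ, z ∈ sphere (0 : ℂ) 1 → ∃ x : ℝ, z = Complex.exp (x * Complex.I) := by
    intro z hz
    rw [mem_sphere_zero_iff_norm] at hz
    refine ⟨z.arg, ?_⟩
    have := Complex.norm_mul_exp_arg_mul_I z
    rw [hz, Complex.ofReal_one, one_mul] at this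
    exact this.symm
  have he : ∀ x : ℝ, Complex.exp (x * Complex.I) ∈ sphere (0 : ℂ) 1 := by
    intro x
    rw [mem_sphere_zero_iff_norm, Complex.norm_exp_ofReal_mul_I]
  apply Subset.antisymm
  · rintro _ ⟨z, hz1, rfl⟩
    obtain ⟨y, rfl⟩ := hz z hz1
    obtain ⟨x, rfl⟩ := hs y
    rw [← hM.glue]
    exact mem_image_of_mem _ (he x)
  · rintro _ ⟨z, hz1, rfl⟩
    obtain ⟨x, rfl⟩ := hz z hz1
    rw [hM.glue]
    exact mem_image_of_mem _ (he _)

theorem image_ball {n : ℕ} {A B : Blaschke n} {f : RMap n} {φ ψ : ℂ → ℂ} {h : ℝ → ℝ}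
    (hM : IsMatingData A B f φ ψ h) : ψ '' ball 0 1 = (φ '' CExt)ᶜ := by
  have h1 : CExt = MB.Ext ∪ sphere 0 1 := by
    ext z
    simp only [CExt, MB.Ext, mem_ofPred_eq, mem_union, mem_sphere_zero_iff_norm]
    constructor
    · intro h
      rcases h.lt_or_eq with h | h
      · exact Or.inl h
      · exact Or.inr h.symm
    · rintro (h | h)
      · exact h.le
      · exact h.ge
  have h2 : closedBall (0 : ℂ) 1 = ball 0 1 ∪ sphere 0 1 := by
    rw [ball_union_sphere]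
  rw [h1, image_union, hM.compl, ← image_sphere hM, compl_union, compl_compl]
  ext w
  constructor
  · rintro ⟨z, hz, rfl⟩
    refine ⟨mem_image_of_mem _ (ball_subset_closedBall hz), ?_⟩
    rintro ⟨z', hz', hzz⟩
    have := hM.injψ (sphere_subset_closedBall hz') (ball_subset_closedBall hz) hzz
    subst this
    rw [mem_sphere_zero_iff_norm] at hz'
    rw [mem_ball_zero_iff] at hz
    linarith
  · rintro ⟨⟨z, hz, rfl⟩, hw⟩
    rw [h2] at hz
    rcases hz with hz | hz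
    · exact mem_image_of_mem _ hz
    · exact absurd (mem_image_of_mem _ hz) hw

/-! ### The comparison of the inner maps -/

/-- the comparison of the inner maps with the Schwarz lemma -/
theorem schwarz {n : ℕ} {B B' : Blaschke n} {f : RMap n} {ψ ψ' : ℂ → ℂ}
    (hB' : ∀ r : ℝ, r < 1 → ∃ q : ℝ, q < 1 ∧ ∀ z : ℂ, ‖z‖ ≤ r → ‖B'.ev z‖ ≤ q * ‖z‖)
    (hBe' : ∀ z : ℂ, ‖z‖ ≤ 1 → ‖B'.ev z‖ ≤ ‖z‖)
    (hd : DifferentiableOn ℂ ψ (ball 0 1)) (hd' : DifferentiableOn ℂ ψ' (ball 0 1))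
    (hi' : InjOn ψ' (closedBall 0 1))
    (hs : ∀ z ∈ closedBall (0 : ℂ) 1, f.Q.eval (ψ z) ≠ 0 ∧ f.ev (ψ z) = ψ (B.ev z))
    (hs' : ∀ z ∈ closedBall (0 : ℂ) 1, f.Q.eval (ψ' z) ≠ 0 ∧ f.ev (ψ' z) = ψ' (B'.ev z))
    (him : ψ '' ball 0 1 = ψ' '' ball 0 1) :
    DifferentiableOn ℂ (fun z => Function.invFunOn ψ' (ball 0 1) (ψ z)) (ball 0 1) ∧
    MapsTo (fun z => Function.invFunOn ψ' (ball 0 1) (ψ z)) (ball 0 1) (ball 0 1) ∧
    Function.invFunOn ψ' (ball 0 1) (ψ 0) = 0 ∧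
    ∀ z ∈ ball (0 : ℂ) 1, ψ' (Function.invFunOn ψ' (ball 0 1) (ψ z)) = ψ z ∧
      ‖Function.invFunOn ψ' (ball 0 1) (ψ z)‖ ≤ ‖z‖ := by
  have hi : InjOn ψ' (ball 0 1) := hi'.mono ball_subset_closedBall
  have hmem : ∀ z ∈ ball (0 : ℂ) 1, ψ z ∈ ψ' '' ball 0 1 := fun z hz => him ▸ mem_image_of_mem _ hz
  have h1 : ∀ z ∈ ball (0 : ℂ) 1, Function.invFunOn ψ' (ball 0 1) (ψ z) ∈ ball (0 : ℂ) 1 := fun z hz =>
    Function.invFunOn_mem (hmem z hz)
  have h2 : ∀ z ∈ ball (0 : ℂ) 1, ψ' (Function.invFunOn ψ' (ball 0 1) (ψ z)) = ψ z := fun z hz =>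
    Function.invFunOn_eq (hmem z hz)
  have h3 : DifferentiableOn ℂ (fun z => Function.invFunOn ψ' (ball 0 1) (ψ z)) (ball 0 1) := by
    intro z hz
    have h4 := Pool.Agent.H19.hasDerivAt_inverse isOpen_ball hd' hi (h1 z hz)
    rw [h2 z hz] at h4
    have h5 := (hd z hz).differentiableAt (isOpen_ball.mem_nhds hz)
    exact (h4.differentiableAt.comp z h5).differentiableWithinAt
  have h0 : (0 : ℂ) ∈ ball (0 : ℂ) 1 := by simp
  have h0e : B.ev 0 = 0 := by
    simp [Blaschke.ev, Blaschke.num]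
  have h6 : Function.invFunOn ψ' (ball 0 1) (ψ 0) = 0 := by
    have h7 := (hs 0 (ball_subset_closedBall h0)).2
    rw [h0e, ← h2 0 h0] at h7
    have h8 := (hs' _ (ball_subset_closedBall (h1 0 h0))).2
    rw [h7] at h8
    have h9 : ‖B'.ev (Function.invFunOn ψ' (ball 0 1) (ψ 0))‖ ≤ ‖Function.invFunOn ψ' (ball 0 1) (ψ 0)‖ := by
      apply hBe'
      have := h1 0 h0
      rw [mem_ball_zero_iff] at this
      exact this.le
    have h10 : B'.ev (Function.invFunOn ψ' (ball 0 1) (ψ 0)) ∈ ball (0 : ℂ) 1 := by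
      have := h1 0 h0
      rw [mem_ball_zero_iff] at this ⊢
      linarith
    have h11 := hi (h1 0 h0) h10 h8
    have h12 := h1 0 h0
    rw [mem_ball_zero_iff] at h12
    obtain ⟨q, hq, hq2⟩ := hB' _ h12
    have h13 := hq2 _ le_rfl
    rw [← h11] at h13
    by_contra h14
    have h15 : 0 < ‖Function.invFunOn ψ' (ball 0 1) (ψ 0)‖ := norm_pos_iff.2 h14
    nlinarith
  refine ⟨h3, h1, h6, fun z hz => ⟨h2 z hz, ?_⟩⟩
  have h7 := Complex.dist_le_dist_of_mapsTo_ball (f := fun z => Function.invFunOn ψ' (ball 0 1) (ψ z)) (c := 0)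
    (R := 1) (z := z) h3 (by
      simp only [h6]
      exact fun z hz => ball_subset_closedBall (h1 z hz)) (by simpa using hz)
  simpa [h6] using h7

/-- the inner maps agree up to a rotation -/
theorem rotation {n : ℕ} {B B' : Blaschke n} {f : RMap n} {ψ ψ' : ℂ → ℂ}
    (hB : ∀ r : ℝ, r < 1 → ∃ q : ℝ, q < 1 ∧ ∀ z : ℂ, ‖z‖ ≤ r → ‖B.ev z‖ ≤ q * ‖z‖)
    (hBe : ∀ z : ℂ, ‖z‖ ≤ 1 → ‖B.ev z‖ ≤ ‖z‖)
    (hB' : ∀ r : ℝ, r < 1 → ∃ q : ℝ, q < 1 ∧ ∀ z : ℂ, ‖z‖ ≤ r → ‖B'.ev z‖ ≤ q * ‖z‖)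
    (hBe' : ∀ z : ℂ, ‖z‖ ≤ 1 → ‖B'.ev z‖ ≤ ‖z‖)
    (hd : DifferentiableOn ℂ ψ (ball 0 1)) (hd' : DifferentiableOn ℂ ψ' (ball 0 1))
    (hi : InjOn ψ (closedBall 0 1)) (hi' : InjOn ψ' (closedBall 0 1))
    (hs : ∀ z ∈ closedBall (0 : ℂ) 1, f.Q.eval (ψ z) ≠ 0 ∧ f.ev (ψ z) = ψ (B.ev z))
    (hs' : ∀ z ∈ closedBall (0 : ℂ) 1, f.Q.eval (ψ' z) ≠ 0 ∧ f.ev (ψ' z) = ψ' (B'.ev z))
    (him : ψ '' ball 0 1 = ψ' '' ball 0 1) :
    ∃ C : ℂ, ‖C‖ = 1 ∧ ∀ z ∈ ball (0 : ℂ) 1, ψ z = ψ' (z * C) := by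
  obtain ⟨a1, a2, a3, a4⟩ := schwarz hB' hBe' hd hd' hi' hs hs' him
  obtain ⟨b1, b2, b3, b4⟩ := schwarz hB hBe hd' hd hi hs' hs him.symm
  have h1 : ∀ z ∈ ball (0 : ℂ) 1, ‖Function.invFunOn ψ' (ball 0 1) (ψ z)‖ = ‖z‖ := by
    intro z hz
    refine le_antisymm (a4 z hz).2 ?_
    have h2 := b4 _ (a2 hz)
    simp only at h2
    rw [(a4 z hz).1] at h2
    have h3 : Function.invFunOn ψ (ball 0 1) (ψ z) = z :=
      (hi.mono ball_subset_closedBall).leftInvOn_invFunOn hz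
    rw [h3] at h2
    exact h2.2
  have h2 := Complex.affine_of_mapsTo_ball_of_exists_norm_dslope_eq_div'
    (f := fun z => Function.invFunOn ψ' (ball 0 1) (ψ z)) (c := 0) (R₁ := 1) (R₂ := 1) a1
    (by
      simp only [a3]
      exact fun z hz => ball_subset_closedBall (a2 hz))
    (by
      have hh : (1 / 2 : ℂ) ∈ ball (0 : ℂ) 1 := by
        rw [mem_ball_zero_iff]
        norm_num
      refine ⟨1 / 2, hh, ?_⟩
      rw [dslope_of_ne _ (by norm_num), slope_def_field]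
      simp only [a3, sub_zero]
      rw [norm_div, h1 _ hh]
      norm_num)
  obtain ⟨C, hC, hC2⟩ := h2
  refine ⟨C, by simpa using hC, fun z hz => ?_⟩
  have h3 := hC2 hz
  simp only [a3, sub_zero, zero_add, smul_eq_mul] at h3
  rw [← h3]
  exact (a4 z hz).1.symm

/-! ### The polynomials -/

/-- the numerator without the factor `z` -/
noncomputable def pN {n : ℕ} (B : Blaschke n) : ℂ[X] := ∏ i, (X - C (B.a i))

/-- the denominator -/
noncomputable def pD {n : ℕ} (B : Blaschke n) : ℂ[X] := ∏ i, (1 - C (conj (B.a i)) * X)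

theorem eval_pN {n : ℕ} (B : Blaschke n) (z : ℂ) : B.num z = (C B.c * X * pN B).eval z := by
  simp [Blaschke.num, pN, eval_prod]

theorem eval_pD {n : ℕ} (B : Blaschke n) (z : ℂ) : B.den z = (pD B).eval z := by
  simp [Blaschke.den, pD, eval_prod]

theorem coprime {n : ℕ} (B B' : Blaschke n) : IsCoprime (pN B) (pD B') := by
  unfold pN pD
  refine IsCoprime.prod_left fun i _ => IsCoprime.prod_right fun j _ => ?_
  have h1 : 1 - conj (B'.a j) * B.a i ≠ 0 := by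
    intro h
    have h2 : ‖conj (B'.a j) * B.a i‖ = 1 := by
      rw [← sub_eq_zero.1 h, norm_one]
    rw [norm_mul, Complex.norm_conj] at h2
    have h3 := B.norm_a i
    have h4 := B'.norm_a j
    have h5 := norm_nonneg (B.a i)
    have h6 := norm_nonneg (B'.a j)
    nlinarith
  refine ⟨C ((1 - conj (B'.a j) * B.a i)⁻¹) * C (conj (B'.a j)), C ((1 - conj (B'.a j) * B.a i)⁻¹), ?_⟩
  have h2 : C ((1 - conj (B'.a j) * B.a i)⁻¹) * C (1 - conj (B'.a j) * B.a i) = (1 : ℂ[X]) := by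
    rw [← C_mul, inv_mul_cancel₀ h1, C_1]
  rw [C_sub, C_mul, C_1] at h2
  linear_combination h2

theorem monic_pN {n : ℕ} (B : Blaschke n) : (pN B).Monic := monic_prod_of_monic _ _ fun _ _ => monic_X_sub_C _

theorem natDegree_pN {n : ℕ} (B : Blaschke n) : (pN B).natDegree = n - 1 := by
  unfold pN
  rw [natDegree_prod_of_monic _ _ fun _ _ => monic_X_sub_C _]
  simp

theorem pN_eq {n : ℕ} (B B' : Blaschke n) (hd : ∀ z : ℂ, ‖z‖ < 1 → B.den z ≠ 0)
    (hd' : ∀ z : ℂ, ‖z‖ < 1 → B'.den z ≠ 0) (h : ∀ z : ℂ, ‖z‖ < 1 → B.ev z = B'.ev z) : pN B = pN B' := by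
  have h1 : (C B.c * X * pN B) * pD B' = (C B'.c * X * pN B') * pD B := by
    apply Polynomial.eq_of_infinite_eval_eq
    refine Set.Infinite.mono (s := ball (0 : ℂ) 1) ?_ ?_
    · intro z hz
      rw [mem_ball_zero_iff] at hz
      have h2 := h z hz
      unfold Blaschke.ev at h2
      rw [div_eq_div_iff (hd z hz) (hd' z hz)] at h2
      simp only [mem_ofPred_eq, eval_mul (q := pD B'), eval_mul (q := pD B)]
      rw [← eval_pN, ← eval_pN, ← eval_pD, ← eval_pD]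
      exact h2
    · exact infinite_of_mem_nhds (0 : ℂ) (ball_mem_nhds _ one_pos)
  have h2 : C B.c * pN B * pD B' = C B'.c * pN B' * pD B := by
    have h3 : (X : ℂ[X]) * (C B.c * pN B * pD B') = X * (C B'.c * pN B' * pD B) := by
      linear_combination h1
    exact mul_left_cancel₀ X_ne_zero h3
  have hc : B'.c ≠ 0 := by
    intro hc
    have := B'.norm_c
    rw [hc, norm_zero] at this
    exact zero_ne_one this
  have h4 : pN B ∣ pN B' := by
    have h5 : pN B ∣ C B'.c * pN B' * pD B := ⟨C B.c * pD B', by rw [← h2]; ring⟩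
    have h6 : pN B ∣ C B'.c * pN B' := (coprime B B).dvd_of_dvd_mul_right h5
    have h7 : pN B ∣ C (B'.c)⁻¹ * (C B'.c * pN B') := h6.mul_left _
    rwa [← mul_assoc, ← C_mul, inv_mul_cancel₀ hc, C_1, one_mul] at h7
  exact (eq_of_monic_of_dvd_of_natDegree_le (monic_pN B) (monic_pN B') h4
    (by rw [natDegree_pN, natDegree_pN])).symm

end INBaux

open INBaux in
theorem t_INB (h1 : MB.S_BL) (h2 : MB.S_EXTU) : S_INB := by
  intro n hn B B' g hb hb' hm hm'
  obtain ⟨φ, ψ, h, hM⟩ := hm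
  obtain ⟨φ', ψ', h', hM'⟩ := hm'
  obtain ⟨e1, e2, -, -, -, -, -, e3, -⟩ := h1 n (by omega) B
  obtain ⟨e1', e2', -, -, -, -, -, e3', -⟩ := h1 n (by omega) B'
  have hE : EqOn φ φ' MB.Ext := h2 n hn (zn n) g φ φ' hM.ext hM'.ext
  have hC : EqOn φ φ' CExt :=
    hE.of_subset_closure hM.contφ hM'.contφ Ext_subset CExt_subset
  have him : ψ '' ball 0 1 = ψ' '' ball 0 1 := by
    rw [image_ball hM, image_ball hM', hC.image_eq]
  obtain ⟨C, hC1, hC2⟩ := rotation (e3 hn).1 e2 (e3' hn).1 e2' hM.diffψ hM'.diffψ hM.injψ hM'.injψ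
    hM.semiψ hM'.semiψ him
  have hcb : closedBall (0 : ℂ) 1 ⊆ closure (ball 0 1) := by rw [closure_ball _ one_ne_zero]
  have hmC : MapsTo (fun z : ℂ => z * C) (closedBall 0 1) (closedBall 0 1) := by
    intro z hz
    rw [mem_closedBall_zero_iff] at hz ⊢
    rw [norm_mul, hC1, mul_one]
    exact hz
  have hEq : EqOn ψ (fun z => ψ' (z * C)) (closedBall 0 1) := by
    refine EqOn.of_subset_closure (s := ball (0 : ℂ) 1) hC2 hM.contψ ?_ ball_subset_closedBall hcb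
    exact hM'.contψ.comp (continuous_id.mul continuous_const).continuousOn hmC
  have hC3 : C = 1 := by
    have h3 := hM.mark
    have h4 := hM'.mark
    rw [hb] at h3
    rw [hb'] at h4
    have h5 : (zn n).b = 1 := rfl
    rw [h5] at h3 h4
    have h6 : φ 1 = φ' 1 := hC (by simp [CExt])
    have h7 := hEq (show (1 : ℂ) ∈ closedBall (0 : ℂ) 1 by simp)
    simp only [one_mul] at h7
    apply hM'.injψ
    · rw [mem_closedBall_zero_iff, hC1]
    · simp
    · rw [← h7, ← h3, h6, h4]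
  rw [hC3] at hEq
  simp only [mul_one] at hEq
  apply pN_eq B B' (fun z hz => e1 z hz.le) (fun z hz => e1' z hz.le)
  intro z hz
  have hz2 : z ∈ closedBall (0 : ℂ) 1 := by
    rw [mem_closedBall_zero_iff]
    exact hz.le
  have h3 := (hM.semiψ z hz2).2
  have h4 := (hM'.semiψ z hz2).2
  have h5 : ψ z = ψ' z := hEq hz2
  have h6 : B.ev z ∈ closedBall (0 : ℂ) 1 := by
    rw [mem_closedBall_zero_iff]
    exact (e2 z hz.le).trans hz.le
  have h7 : B'.ev z ∈ closedBall (0 : ℂ) 1 := by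
    rw [mem_closedBall_zero_iff]
    exact (e2' z hz.le).trans hz.le
  apply hM'.injψ h6 h7
  rw [← h4, ← h5, h3]
  exact (hEq h6).symm

end Pool.Agent.H212.ND
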