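import Pool.Agent.H212.ND.StmT

/-!
# Project ND, job INJ: two rays which land together separate the plane
-/

set_option autoImplicit false

open Filter Metric Set Topology
open scoped ComplexConjugate

namespace Pool.Agent.H212.ND

open Pool.Agent.H212.MB

namespace INJaux

/-- continuous logarithms on `[0, 1]` are unique -/
theorem exp_unique {f g : ℝ → ℂ} (hf : ContinuousOn f (Icc 0 1)) (hg : ContinuousOn g (Icc 0 1))
    (h : ∀ a ∈ Icc (0 : ℝ) 1, Complex.exp (f a) = Complex.exp (g a)) (h0 : f 0 = g 0) :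
    ∀ a ∈ Icc (0 : ℝ) 1, f a = g a := by
  set d : ℝ → ℝ := fun a => ((f a - g a).im / (2 * Real.pi)) ^ 2 with hd
  have hdint : ∀ a ∈ Icc (0 : ℝ) 1, ∃ n : ℤ, f a = g a + n * (2 * Real.pi * Complex.I) ∧
      d a = (n : ℝ) ^ 2 := by
    intro a ha
    obtain ⟨n, hn⟩ := Complex.exp_eq_exp_iff_exists_int.mp (h a ha)
    refine ⟨n, hn, ?_⟩
    have h1 : f a - g a = ((n * (2 * Real.pi) : ℝ) : ℂ) * Complex.I := by
      rw [hn]; push_cast; ring
    have h2 : (f a - g a).im = n * (2 * Real.pi) := by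
      rw [h1, Complex.im_ofReal_mul, Complex.I_im, mul_one]
    show ((f a - g a).im / (2 * Real.pi)) ^ 2 = (n : ℝ) ^ 2
    rw [h2, mul_div_assoc, div_self (by positivity), mul_one]
  intro a ha
  by_contra hne
  have hda : 1 ≤ d a := by
    obtain ⟨n, hn, hn2⟩ := hdint a ha
    have hn0 : n ≠ 0 := by
      rintro rfl
      apply hne
      rw [hn]; simp
    rw [hn2]
    have : (1 : ℤ) ≤ n ^ 2 := by
      have := sq_nonneg n
      have h3 : n ^ 2 ≠ 0 := pow_ne_zero 2 hn0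
      omega
    exact_mod_cast this
  have hd0 : d 0 = 0 := by
    simp only [hd, h0, sub_self, Complex.zero_im, zero_div]
    norm_num
  have hdc : ContinuousOn d (Icc 0 a) := by
    have hsub : Icc (0 : ℝ) a ⊆ Icc 0 1 := Icc_subset_Icc le_rfl ha.2
    exact ((Complex.continuous_im.comp_continuousOn ((hf.mono hsub).sub (hg.mono hsub))).div_const _).pow 2
  obtain ⟨c, hc, hdc⟩ := intermediate_value_Icc ha.1 hdc
    (show (1 / 2 : ℝ) ∈ Icc (d 0) (d a) from ⟨by rw [hd0]; norm_num, by linarith⟩)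
  obtain ⟨n, -, hn2⟩ := hdint c ⟨hc.1, hc.2.trans ha.2⟩
  rw [hdc] at hn2
  have h4 : (2 * n ^ 2 : ℤ) = 1 := by
    have : (2 * (n : ℝ) ^ 2) = 1 := by rw [← hn2]; norm_num
    exact_mod_cast this
  omega

/-- existence of a continuous logarithm on the unit square -/
theorem exists_log {Q : ℝ × ℝ → ℂ} (hQ : ContinuousOn Q (Icc 0 1 ×ˢ Icc 0 1))
    (hQ0 : ∀ p ∈ (Icc (0 : ℝ) 1 ×ˢ Icc (0 : ℝ) 1), Q p ≠ 0) (h00 : Q (0, 0) = 1) :
    ∃ k : ℝ × ℝ → ℂ, Continuous k ∧ (∀ p ∈ (Icc (0 : ℝ) 1 ×ˢ Icc (0 : ℝ) 1), Complex.exp (k p) = Q p) ∧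
      k (0, 0) = 0 := by
  let cl : ℝ → ℝ := fun a => max 0 (min a 1)
  have hcl : Continuous cl := continuous_const.max (continuous_id.min continuous_const)
  have hclm : ∀ a, cl a ∈ Icc (0 : ℝ) 1 := fun a =>
    ⟨le_max_left _ _, max_le zero_le_one (min_le_right _ _)⟩
  have hcle : ∀ a ∈ Icc (0 : ℝ) 1, cl a = a := by
    intro a ha
    show max 0 (min a 1) = a
    rw [min_eq_left ha.2, max_eq_right ha.1]
  let Q' : ℝ × ℝ → ℂ := fun p => Q (cl p.1, cl p.2)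
  have hQ' : Continuous Q' := by
    have h1 : Continuous fun p : ℝ × ℝ => (cl p.1, cl p.2) :=
      (hcl.comp continuous_fst).prodMk (hcl.comp continuous_snd)
    exact hQ.comp_continuous h1 fun p => ⟨hclm _, hclm _⟩
  have hQ'0 : ∀ p, Q' p ≠ 0 := fun p => hQ0 _ ⟨hclm _, hclm _⟩
  have h1 : Complex.exp 0 = Q' (0, 0) := by
    show _ = Q (cl 0, cl 0)
    rw [hcle 0 ⟨le_rfl, zero_le_one⟩, h00, Complex.exp_zero]
  obtain ⟨k, ⟨hk0, hk⟩, -⟩ := Complex.isCoveringMapOn_exp.existsUnique_continuousMap_lifts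
    (⟨Q', hQ'⟩ : C(ℝ × ℝ, ℂ)) (a₀ := ((0 : ℝ), (0 : ℝ))) (e₀ := 0) h1 (fun p => hQ'0 p)
  refine ⟨k, k.continuous, fun p hp => ?_, hk0⟩
  have h2 : Complex.exp (k p) = Q' p := congrFun hk p
  rw [h2]
  show Q (cl p.1, cl p.2) = Q p
  rw [hcle _ hp.1, hcle _ hp.2]

/-- a continuity lemma -/
theorem cont_of_bound {X : Type} [TopologicalSpace X] {S : Set X} {f : X → ℂ} {g : X → ℝ} {C : ℝ}
    (hg : Continuous g) (h0 : ∀ p ∈ S, 0 ≤ g p) (hb : ∀ p ∈ S, ‖f p - 1‖ ≤ C * g p)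
    (h : ContinuousOn f (S ∩ {p | 0 < g p})) : ContinuousOn f S := by
  intro p hp
  rcases (h0 p hp).eq_or_lt with h1 | h1
  · have hfp : f p = 1 := by
      have := hb p hp
      rw [← h1, mul_zero] at this
      exact sub_eq_zero.mp (norm_le_zero_iff.mp this)
    unfold ContinuousWithinAt
    rw [hfp, tendsto_iff_norm_sub_tendsto_zero]
    refine squeeze_zero' (Eventually.of_forall fun _ => norm_nonneg _)
      (eventually_mem_nhdsWithin.mono fun q hq => hb q hq) ?_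
    have h2 : Tendsto (fun q => C * g q) (𝓝[S] p) (𝓝 (C * g p)) :=
      ((continuous_const.mul hg).continuousAt).mono_left nhdsWithin_le_nhds
    rwa [← h1, mul_zero] at h2
  · have hU : {p | 0 < g p} ∈ 𝓝 p := (isOpen_lt continuous_const hg).mem_nhds h1
    exact (continuousWithinAt_inter hU).mp (h p ⟨hp, h1⟩)

/-- the hypotheses used -/
structure Hyp (φ : ℂ → ℂ) (L : ℂ) (M : ℝ) : Prop where
  L0 : L ≠ 0
  cont : ContinuousOn φ CExt
  injE : InjOn φ MB.Ext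
  disj : ∀ z ∈ MB.Ext, ∀ ζ : ℂ, ‖ζ‖ = 1 → φ z ≠ φ ζ
  bd : ∀ z ∈ CExt, ‖φ z - L * z‖ ≤ M

/-- the error term -/
noncomputable def ee (φ : ℂ → ℂ) (L z : ℂ) : ℂ := φ z - L * z

/-- `(φ (ζ / a) - y) / (L ζ / a)` -/
noncomputable def RR (φ : ℂ → ℂ) (L ζ y : ℂ) (a : ℝ) : ℂ := 1 + a * (ee φ L (ζ / a) - y) / (L * ζ)

/-- `(φ (ζ' / a) - φ (ζ / b)) / (L (ζ' / a - ζ / b))` -/
noncomputable def QQ (φ : ℂ → ℂ) (L ζ' ζ : ℂ) (p : ℝ × ℝ) : ℂ :=
  1 + p.1 * p.2 * (ee φ L (ζ' / p.1) - ee φ L (ζ / p.2)) / (L * (p.2 * ζ' - p.1 * ζ))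

section

variable {φ : ℂ → ℂ} {L : ℂ} {M : ℝ}

theorem div_mem {ζ : ℂ} (hζ : ‖ζ‖ = 1) {a : ℝ} (h0 : 0 < a) (h1 : a ≤ 1) : ζ / a ∈ CExt := by
  show 1 ≤ ‖ζ / a‖
  rw [norm_div, hζ, Complex.norm_real, Real.norm_of_nonneg h0.le]
  exact one_le_one_div h0 h1

theorem div_mem' {ζ : ℂ} (hζ : ‖ζ‖ = 1) {a : ℝ} (h0 : 0 < a) (h1 : a < 1) : ζ / a ∈ MB.Ext := by
  show 1 < ‖ζ / a‖
  rw [norm_div, hζ, Complex.norm_real, Real.norm_of_nonneg h0.le]
  exact one_lt_one_div h0 h1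

theorem ee_cont (H : Hyp φ L M) : ContinuousOn (ee φ L) CExt :=
  H.cont.sub (continuousOn_const.mul continuousOn_id)

theorem ray_cont (H : Hyp φ L M) {ζ : ℂ} (hζ : ‖ζ‖ = 1) :
    ContinuousOn (fun a : ℝ => ee φ L (ζ / a)) (Ioc 0 1) := by
  refine (ee_cont H).comp (ContinuousOn.div continuousOn_const
    Complex.continuous_ofReal.continuousOn fun a ha => ?_) fun a ha => div_mem hζ ha.1 ha.2
  exact_mod_cast ha.1.ne'

theorem M_nonneg (H : Hyp φ L M) : 0 ≤ M :=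
  (norm_nonneg _).trans (H.bd 1 (by show 1 ≤ ‖(1 : ℂ)‖; simp))

theorem RR_zero (ζ y : ℂ) : RR φ L ζ y 0 = 1 := by simp [RR]

theorem RR_cont (H : Hyp φ L M) {ζ : ℂ} (hζ : ‖ζ‖ = 1) (y : ℂ) :
    ContinuousOn (RR φ L ζ y) (Icc 0 1) := by
  have hL : 0 < ‖L‖ := norm_pos_iff.mpr H.L0
  refine cont_of_bound (g := fun a => a) (C := (M + ‖y‖) / ‖L‖) continuous_id (fun a ha => ha.1) ?_ ?_
  · intro a ha
    rcases ha.1.eq_or_lt with h1 | h1
    · rw [← h1, RR_zero]; simp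
    · have h2 : RR φ L ζ y a - 1 = a * (ee φ L (ζ / a) - y) / (L * ζ) := by
        unfold RR; ring
      rw [h2, norm_div, norm_mul, norm_mul, hζ, mul_one, Complex.norm_real,
        Real.norm_of_nonneg h1.le, div_mul_eq_mul_div, mul_comm a]
      gcongr
      exact (norm_sub_le _ _).trans (add_le_add (H.bd _ (div_mem hζ h1 ha.2)) le_rfl)
  · have h3 : ContinuousOn (RR φ L ζ y) (Ioc 0 1) :=
      continuousOn_const.add (((Complex.continuous_ofReal.continuousOn).mul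
        ((ray_cont H hζ).sub continuousOn_const)).div_const _)
    exact h3.mono fun a ha => ⟨ha.2, ha.1.2⟩

theorem den_bd {ζ' ζ : ℂ} (h' : ‖ζ'‖ = 1) (h : ‖ζ‖ = 1) {a b : ℝ} (ha : 0 ≤ a) (hb : 0 ≤ b) :
    ‖ζ' - ζ‖ * max a b ≤ 2 * ‖(b : ℂ) * ζ' - a * ζ‖ := by
  have h1 : |b - a| ≤ ‖(b : ℂ) * ζ' - a * ζ‖ := by
    have := abs_norm_sub_norm_le ((b : ℂ) * ζ') (a * ζ)
    rwa [norm_mul, norm_mul, h', h, mul_one, mul_one, Complex.norm_real, Complex.norm_real,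
      Real.norm_of_nonneg ha, Real.norm_of_nonneg hb] at this
  have h2 : ‖((a : ℂ) - b)‖ = |b - a| := by
    rw [← Complex.ofReal_sub, Complex.norm_real, Real.norm_eq_abs, abs_sub_comm]
  have h3 : ‖ζ' - ζ‖ * b ≤ 2 * ‖(b : ℂ) * ζ' - a * ζ‖ := by
    have e1 : (b : ℂ) * (ζ' - ζ) = ((b : ℂ) * ζ' - a * ζ) + ((a : ℂ) - b) * ζ := by ring
    have e2 := norm_add_le ((b : ℂ) * ζ' - a * ζ) (((a : ℂ) - b) * ζ)
    rw [← e1, norm_mul, norm_mul, h, h2, Complex.norm_real, Real.norm_of_nonneg hb] at e2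
    linarith
  have h4 : ‖ζ' - ζ‖ * a ≤ 2 * ‖(b : ℂ) * ζ' - a * ζ‖ := by
    have e1 : (a : ℂ) * (ζ' - ζ) = ((b : ℂ) * ζ' - a * ζ) + ((a : ℂ) - b) * ζ' := by ring
    have e2 := norm_add_le ((b : ℂ) * ζ' - a * ζ) (((a : ℂ) - b) * ζ')
    rw [← e1, norm_mul, norm_mul, h', h2, Complex.norm_real, Real.norm_of_nonneg ha] at e2
    linarith
  rcases le_total a b with h5 | h5
  · rw [max_eq_right h5]; exact h3
  · rw [max_eq_left h5]; exact h4

theorem QQ_left (ζ' ζ : ℂ) (b : ℝ) : QQ φ L ζ' ζ (0, b) = 1 := by simp [QQ]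

theorem QQ_right (ζ' ζ : ℂ) (a : ℝ) : QQ φ L ζ' ζ (a, 0) = 1 := by simp [QQ]

theorem QQ_cont (H : Hyp φ L M) {ζ' ζ : ℂ} (h' : ‖ζ'‖ = 1) (h : ‖ζ‖ = 1) (hne : ζ' ≠ ζ) :
    ContinuousOn (QQ φ L ζ' ζ) (Icc 0 1 ×ˢ Icc 0 1) := by
  have hL : 0 < ‖L‖ := norm_pos_iff.mpr H.L0
  have hc : 0 < ‖ζ' - ζ‖ := norm_pos_iff.mpr (sub_ne_zero.mpr hne)
  have hM := M_nonneg H
  refine cont_of_bound (g := fun p => min p.1 p.2) (C := 4 * M / (‖L‖ * ‖ζ' - ζ‖))
    (continuous_fst.min continuous_snd) (fun p hp => le_min hp.1.1 hp.2.1) ?_ ?_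
  · rintro ⟨a, b⟩ ⟨ha, hb⟩
    simp only at ha hb ⊢
    rcases ha.1.eq_or_lt with h1 | h1
    · rw [← h1, QQ_left, min_eq_left hb.1]; simp
    rcases hb.1.eq_or_lt with h2 | h2
    · rw [← h2, QQ_right, min_eq_right h1.le]; simp
    have hD := den_bd h' h h1.le h2.le
    set D := ‖(b : ℂ) * ζ' - a * ζ‖ with hDd
    have hx : 0 < max a b := lt_max_of_lt_left h1
    have hD0 : 0 < D := by
      have : 0 < ‖ζ' - ζ‖ * max a b := mul_pos hc hx
      linarith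
    have e1 : QQ φ L ζ' ζ (a, b) - 1 =
        a * b * (ee φ L (ζ' / a) - ee φ L (ζ / b)) / (L * (b * ζ' - a * ζ)) := by
      unfold QQ; ring
    have e2 : ‖ee φ L (ζ' / a) - ee φ L (ζ / b)‖ ≤ 2 * M := by
      refine (norm_sub_le _ _).trans ?_
      have := H.bd _ (div_mem h' h1 ha.2)
      have := H.bd _ (div_mem h h2 hb.2)
      unfold ee
      linarith
    rw [e1, norm_div, norm_mul, norm_mul, norm_mul, ← hDd, Complex.norm_real, Complex.norm_real,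
      Real.norm_of_nonneg h1.le, Real.norm_of_nonneg h2.le, div_le_iff₀ (mul_pos hL hD0)]
    have e3 : a * b = max a b * min a b := (max_mul_min a b).symm
    have e4 : 4 * M / (‖L‖ * ‖ζ' - ζ‖) * min a b * (‖L‖ * D) = 2 * M * min a b * (2 * D) / ‖ζ' - ζ‖ := by
      field_simp; ring
    rw [e3, e4, le_div_iff₀ hc]
    have hm : 0 ≤ min a b := le_min h1.le h2.le
    calc max a b * min a b * ‖ee φ L (ζ' / a) - ee φ L (ζ / b)‖ * ‖ζ' - ζ‖
        = min a b * ‖ee φ L (ζ' / a) - ee φ L (ζ / b)‖ * (‖ζ' - ζ‖ * max a b) := by ring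
      _ ≤ min a b * (2 * M) * (2 * D) := by gcongr
      _ = 2 * M * min a b * (2 * D) := by ring
  · have h3 : ContinuousOn (QQ φ L ζ' ζ) (Ioc 0 1 ×ˢ Ioc 0 1) := by
      refine continuousOn_const.add (ContinuousOn.div ?_ ?_ ?_)
      · refine ContinuousOn.mul (Continuous.continuousOn (by fun_prop)) (ContinuousOn.sub ?_ ?_)
        · exact (ray_cont H h').comp continuousOn_fst fun p hp => hp.1
        · exact (ray_cont H h).comp continuousOn_snd fun p hp => hp.2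
      · exact Continuous.continuousOn (by fun_prop)
      · rintro ⟨a, b⟩ ⟨ha, hb⟩
        have hD := den_bd h' h ha.1.le hb.1.le
        have hx : 0 < max a b := lt_max_of_lt_left ha.1
        have h5 : 0 < ‖ζ' - ζ‖ * max a b := mul_pos hc hx
        have hD0 : 0 < ‖(b : ℂ) * ζ' - a * ζ‖ := by linarith
        exact mul_ne_zero H.L0 (norm_pos_iff.mp hD0)
    refine h3.mono fun p hp => ?_
    have h4 : 0 < min p.1 p.2 := hp.2
    exact ⟨⟨(lt_min_iff.mp h4).1, hp.1.1.2⟩, ⟨(lt_min_iff.mp h4).2, hp.1.2.2⟩⟩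

theorem ne_zero_of_norm {ζ : ℂ} (h : ‖ζ‖ = 1) : ζ ≠ 0 := by
  rintro rfl
  simp at h

theorem RR_pos (H : Hyp φ L M) {ζ : ℂ} (hζ : ‖ζ‖ = 1) (y : ℂ) {a : ℝ} (h0 : 0 < a) :
    RR φ L ζ y a = a * (φ (ζ / a) - y) / (L * ζ) := by
  have hL := H.L0
  have hζ0 := ne_zero_of_norm hζ
  have ha : (a : ℂ) ≠ 0 := by exact_mod_cast h0.ne'
  unfold RR ee
  rw [eq_div_iff (mul_ne_zero hL hζ0), add_mul, div_mul_cancel₀ _ (mul_ne_zero hL hζ0)]
  have : (a : ℂ) * (L * (ζ / a)) = L * ζ := by field_simp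
  linear_combination -this

/-- `v` is the value at `1` of the logarithm of `RR` -/
def Pv (φ : ℂ → ℂ) (L ζ y v : ℂ) : Prop := ∃ h : ℝ → ℂ, ContinuousOn h (Icc 0 1) ∧ h 0 = 0 ∧
  (∀ a ∈ Icc (0 : ℝ) 1, Complex.exp (h a) = RR φ L ζ y a) ∧ h 1 = v

theorem Pv_unique {ζ y v v' : ℂ} (h : Pv φ L ζ y v) (h' : Pv φ L ζ y v') : v = v' := by
  obtain ⟨f, hf, hf0, hfe, rfl⟩ := h
  obtain ⟨g, hg, hg0, hge, rfl⟩ := h'
  exact exp_unique hf hg (fun a ha => by rw [hfe a ha, hge a ha]) (by rw [hf0, hg0]) 1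
    ⟨zero_le_one, le_rfl⟩

theorem Pv_exists (H : Hyp φ L M) {ζ y : ℂ} (hζ : ‖ζ‖ = 1)
    (hy : ∀ a : ℝ, 0 < a → a ≤ 1 → φ (ζ / a) ≠ y) : ∃ v, Pv φ L ζ y v := by
  have hne : ∀ a ∈ Icc (0 : ℝ) 1, RR φ L ζ y a ≠ 0 := by
    intro a ha
    rcases ha.1.eq_or_lt with h1 | h1
    · rw [← h1, RR_zero]; exact one_ne_zero
    · rw [RR_pos H hζ y h1]
      refine div_ne_zero (mul_ne_zero ?_ (sub_ne_zero.mpr (hy a h1 ha.2)))
        (mul_ne_zero H.L0 (ne_zero_of_norm hζ))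
      exact_mod_cast h1.ne'
  obtain ⟨k, hk, hke, hk0⟩ := exists_log (Q := fun p => RR φ L ζ y p.1)
    ((RR_cont H hζ y).comp continuousOn_fst fun p hp => hp.1) (fun p hp => hne _ hp.1)
    (RR_zero ζ y)
  refine ⟨k (1, 0), fun a => k (a, 0), ?_, hk0, fun a ha => hke (a, 0) ⟨ha, ⟨le_rfl, zero_le_one⟩⟩, rfl⟩
  exact (hk.comp (continuous_id.prodMk continuous_const)).continuousOn

theorem Pv_loc (H : Hyp φ L M) {ζ y₀ v : ℂ} (hζ : ‖ζ‖ = 1) (hP : Pv φ L ζ y₀ v) :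
    ∃ r > 0, ∀ y, ‖y - y₀‖ < r → Pv φ L ζ y (v + Complex.log ((φ ζ - y) / (φ ζ - y₀))) := by
  obtain ⟨h, hc, h0, he, rfl⟩ := hP
  have hL : 0 < ‖L‖ := norm_pos_iff.mpr H.L0
  have hne : ∀ a ∈ Icc (0 : ℝ) 1, RR φ L ζ y₀ a ≠ 0 := fun a ha => by
    rw [← he a ha]; exact Complex.exp_ne_zero _
  obtain ⟨a₀, ha₀, hmin⟩ := isCompact_Icc.exists_isMinOn (nonempty_Icc.mpr zero_le_one)
    (RR_cont H hζ y₀).norm
  refine ⟨‖RR φ L ζ y₀ a₀‖ * ‖L‖, mul_pos (norm_pos_iff.mpr (hne a₀ ha₀)) hL, fun y hy => ?_⟩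
  have hslit : ∀ a ∈ Icc (0 : ℝ) 1, RR φ L ζ y a / RR φ L ζ y₀ a ∈ Complex.slitPlane := by
    intro a ha
    have h1 : RR φ L ζ y a / RR φ L ζ y₀ a = 1 + (RR φ L ζ y a - RR φ L ζ y₀ a) / RR φ L ζ y₀ a := by
      rw [sub_div, div_self (hne a ha)]; ring
    rw [h1]
    apply Complex.mem_slitPlane_of_norm_lt_one
    have h2 : RR φ L ζ y a - RR φ L ζ y₀ a = -(a * (y - y₀)) / (L * ζ) := by
      unfold RR; ring
    rw [norm_div, div_lt_one (norm_pos_iff.mpr (hne a ha)), h2, norm_div, norm_neg, norm_mul,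
      norm_mul, hζ, mul_one, Complex.norm_real, Real.norm_of_nonneg ha.1, div_lt_iff₀ hL]
    have h3 : ‖RR φ L ζ y₀ a₀‖ ≤ ‖RR φ L ζ y₀ a‖ := hmin ha
    calc a * ‖y - y₀‖ ≤ 1 * ‖y - y₀‖ := by gcongr; exact ha.2
      _ < ‖RR φ L ζ y₀ a₀‖ * ‖L‖ := by rw [one_mul]; exact hy
      _ ≤ ‖RR φ L ζ y₀ a‖ * ‖L‖ := by gcongr
  refine ⟨fun a => h a + Complex.log (RR φ L ζ y a / RR φ L ζ y₀ a), ?_, ?_, ?_, ?_⟩
  · exact hc.add (((RR_cont H hζ y).div (RR_cont H hζ y₀) hne).clog hslit)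
  · simp only [RR_zero, h0, div_one, Complex.log_one, add_zero]
  · intro a ha
    rw [Complex.exp_add, he a ha, Complex.exp_log (Complex.slitPlane_ne_zero (hslit a ha)),
      mul_div_cancel₀ _ (hne a ha)]
  · show h 1 + Complex.log (RR φ L ζ y 1 / RR φ L ζ y₀ 1) = _
    have h1 : (1 : ℝ) ∈ Icc (0 : ℝ) 1 := ⟨zero_le_one, le_rfl⟩
    have h2 := hne 1 h1
    rw [RR_pos H hζ y zero_lt_one, RR_pos H hζ y₀ zero_lt_one]
    rw [RR_pos H hζ y₀ zero_lt_one] at h2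
    congr 2
    simp only [Complex.ofReal_one, div_one, one_mul]
    have hLζ : L * ζ ≠ 0 := mul_ne_zero H.L0 (ne_zero_of_norm hζ)
    rw [div_div_div_cancel_right₀ hLζ]

/-- the difference is constant on preconnected sets -/
theorem Pv_const (H : Hyp φ L M) {ζ₁ ζ₂ : ℂ} (h1 : ‖ζ₁‖ = 1) (h2 : ‖ζ₂‖ = 1) (hx : φ ζ₁ = φ ζ₂)
    {T : Set ℂ} (hT : IsPreconnected T) (hT1 : ∀ y ∈ T, ∃ v, Pv φ L ζ₁ y v)
    (hT2 : ∀ y ∈ T, ∃ v, Pv φ L ζ₂ y v) {y y' v₁ v₂ v₁' v₂' : ℂ} (hy : y ∈ T) (hy' : y' ∈ T)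
    (a1 : Pv φ L ζ₁ y v₁) (a2 : Pv φ L ζ₂ y v₂) (a1' : Pv φ L ζ₁ y' v₁') (a2' : Pv φ L ζ₂ y' v₂') :
    v₁ - v₂ = v₁' - v₂' := by
  by_contra hne
  have key : ∀ P : ℂ → Prop,
      IsOpen {y | ∃ w₁ w₂, Pv φ L ζ₁ y w₁ ∧ Pv φ L ζ₂ y w₂ ∧ P (w₁ - w₂)} := by
    intro P
    rw [Metric.isOpen_iff]
    rintro z ⟨w₁, w₂, hw₁, hw₂, hP⟩
    obtain ⟨r₁, hr₁, b1⟩ := Pv_loc H h1 hw₁
    obtain ⟨r₂, hr₂, b2⟩ := Pv_loc H h2 hw₂
    refine ⟨min r₁ r₂, lt_min hr₁ hr₂, fun z' hz' => ?_⟩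
    rw [mem_ball, dist_eq_norm] at hz'
    refine ⟨_, _, b1 z' (hz'.trans_le (min_le_left _ _)), b2 z' (hz'.trans_le (min_le_right _ _)), ?_⟩
    rw [hx, add_sub_add_right_eq_sub]
    exact hP
  obtain ⟨z, -, ⟨w₁, w₂, hw₁, hw₂, hw⟩, ⟨u₁, u₂, hu₁, hu₂, hu⟩⟩ :=
    hT _ _ (key fun d => d = v₁ - v₂) (key fun d => d ≠ v₁ - v₂) (by
      intro z hz
      obtain ⟨w₁, hw₁⟩ := hT1 z hz
      obtain ⟨w₂, hw₂⟩ := hT2 z hz
      by_cases hd : w₁ - w₂ = v₁ - v₂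
      · exact Or.inl ⟨w₁, w₂, hw₁, hw₂, hd⟩
      · exact Or.inr ⟨w₁, w₂, hw₁, hw₂, hd⟩) ⟨y, hy, v₁, v₂, a1, a2, rfl⟩
      ⟨y', hy', v₁', v₂', a1', a2', fun e => hne e.symm⟩
  rw [Pv_unique hu₁ hw₁, Pv_unique hu₂ hw₂] at hu
  exact hu hw

theorem slit {ζ ζ' : ℂ} (h : ‖ζ‖ = 1) (h' : ‖ζ'‖ = 1) (hne : ζ' ≠ ζ) {a : ℝ}
    (ha : a ∈ Icc (0 : ℝ) 1) : 1 - a * (ζ / ζ') ∈ Complex.slitPlane := by
  set u := ζ / ζ' with hu
  have hun : ‖u‖ = 1 := by rw [hu, norm_div, h, h', div_one]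
  have hre : u.re < 1 := by
    refine lt_of_le_of_ne ((Complex.re_le_norm u).trans_eq hun) fun h1 => hne ?_
    have h2 : u.re * u.re + u.im * u.im = 1 := by
      have := Complex.sq_norm u
      rw [hun] at this
      rw [← Complex.normSq_apply, ← this, one_pow]
    have h3 : u.im = 0 := by
      rw [h1] at h2
      have : u.im * u.im = 0 := by linarith
      exact mul_self_eq_zero.mp this
    have h4 : u = 1 := Complex.ext h1 h3
    rw [hu, div_eq_one_iff_eq (ne_zero_of_norm h')] at h4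
    exact h4.symm
  rw [Complex.mem_slitPlane_iff]
  left
  rw [Complex.sub_re, Complex.one_re, Complex.re_ofReal_mul]
  rcases ha.1.eq_or_lt with h1 | h1
  · rw [← h1]; simp
  · have : a * u.re < a * 1 := mul_lt_mul_of_pos_left hre h1
    linarith [ha.2]

theorem log_cont {ζ ζ' : ℂ} (h : ‖ζ‖ = 1) (h' : ‖ζ'‖ = 1) (hne : ζ' ≠ ζ) :
    ContinuousOn (fun a : ℝ => Complex.log (1 - a * (ζ / ζ'))) (Icc 0 1) :=
  ContinuousOn.clog (Continuous.continuousOn (by fun_prop)) fun _ ha => slit h h' hne ha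

theorem den_ne {ζ' ζ : ℂ} (h' : ‖ζ'‖ = 1) (h : ‖ζ‖ = 1) (hne : ζ' ≠ ζ) {a b : ℝ} (ha : 0 ≤ a)
    (hb : 0 ≤ b) (hab : 0 < max a b) : (b : ℂ) * ζ' - a * ζ ≠ 0 := by
  have hD := den_bd h' h ha hb
  have hc : 0 < ‖ζ' - ζ‖ := norm_pos_iff.mpr (sub_ne_zero.mpr hne)
  have h5 : 0 < ‖ζ' - ζ‖ * max a b := mul_pos hc hab
  have hD0 : 0 < ‖(b : ℂ) * ζ' - a * ζ‖ := by linarith
  exact norm_pos_iff.mp hD0

theorem QQ_mul (H : Hyp φ L M) {ζ' ζ : ℂ} (h' : ‖ζ'‖ = 1) (h : ‖ζ‖ = 1) (hne : ζ' ≠ ζ)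
    {a b : ℝ} (ha : 0 < a) (hb : 0 < b) :
    QQ φ L ζ' ζ (a, b) * (L * (b * ζ' - a * ζ)) = a * b * (φ (ζ' / a) - φ (ζ / b)) := by
  have hd : L * ((b : ℂ) * ζ' - a * ζ) ≠ 0 :=
    mul_ne_zero H.L0 (den_ne h' h hne ha.le hb.le (lt_max_of_lt_left ha))
  have ha0 : (a : ℂ) ≠ 0 := by exact_mod_cast ha.ne'
  have hb0 : (b : ℂ) ≠ 0 := by exact_mod_cast hb.ne'
  unfold QQ
  rw [add_mul, div_mul_cancel₀ _ hd]
  unfold ee
  have e1 : (a : ℂ) * (ζ' / a) = ζ' := by field_simp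
  have e2 : (b : ℂ) * (ζ / b) = ζ := by field_simp
  simp only
  linear_combination (-(b : ℂ) * L) * e1 + (a * L) * e2

theorem QQ_ne (H : Hyp φ L M) {ζ' ζ : ℂ} (h' : ‖ζ'‖ = 1) (h : ‖ζ‖ = 1) (hne : φ ζ' ≠ φ ζ) :
    ∀ p ∈ (Icc (0 : ℝ) 1 ×ˢ Icc (0 : ℝ) 1), QQ φ L ζ' ζ p ≠ 0 := by
  have hne' : ζ' ≠ ζ := fun e => hne (by rw [e])
  rintro ⟨a, b⟩ ⟨ha, hb⟩ hQ
  simp only at ha hb
  rcases ha.1.eq_or_lt with h1 | h1
  · rw [← h1, QQ_left] at hQ; exact one_ne_zero hQ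
  rcases hb.1.eq_or_lt with h2 | h2
  · rw [← h2, QQ_right] at hQ; exact one_ne_zero hQ
  have h3 := QQ_mul H h' h hne' h1 h2
  rw [hQ, zero_mul] at h3
  have ha0 : (a : ℂ) ≠ 0 := by exact_mod_cast h1.ne'
  have hb0 : (b : ℂ) ≠ 0 := by exact_mod_cast h2.ne'
  have h4 : φ (ζ' / a) = φ (ζ / b) := by
    have := (mul_eq_zero.mp h3.symm).resolve_left (mul_ne_zero ha0 hb0)
    exact sub_eq_zero.mp this
  rcases ha.2.eq_or_lt with h5 | h5 <;> rcases hb.2.eq_or_lt with h6 | h6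
  · rw [h5, h6] at h4
    simp only [Complex.ofReal_one, div_one] at h4
    exact hne h4
  · rw [h5] at h4
    simp only [Complex.ofReal_one, div_one] at h4
    exact H.disj _ (div_mem' h h2 h6) ζ' h' h4.symm
  · rw [h6] at h4
    simp only [Complex.ofReal_one, div_one] at h4
    exact H.disj _ (div_mem' h' h1 h5) ζ h h4
  · have h7 := H.injE (div_mem' h' h1 h5) (div_mem' h h2 h6) h4
    apply den_ne h' h hne' h1.le h2.le (lt_max_of_lt_left h1)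
    rw [div_eq_div_iff ha0 hb0] at h7
    linear_combination h7

theorem edge0 {ζ' ζ : ℂ} {k : ℝ × ℝ → ℂ} (hk : Continuous k)
    (hke : ∀ p ∈ (Icc (0 : ℝ) 1 ×ˢ Icc (0 : ℝ) 1), Complex.exp (k p) = QQ φ L ζ' ζ p)
    (hk0 : k (0, 0) = 0) : k (0, 1) = 0 ∧ k (1, 0) = 0 := by
  have h01 : (0 : ℝ) ∈ Icc (0 : ℝ) 1 := ⟨le_rfl, zero_le_one⟩
  constructor
  · exact exp_unique (f := fun b => k (0, b)) (g := fun _ => 0)
      (hk.comp (continuous_const.prodMk continuous_id)).continuousOn continuousOn_const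
      (fun b hb => by rw [hke (0, b) ⟨h01, hb⟩, QQ_left, Complex.exp_zero]) hk0 1 ⟨zero_le_one, le_rfl⟩
  · exact exp_unique (f := fun a => k (a, 0)) (g := fun _ => 0)
      (hk.comp (continuous_id.prodMk continuous_const)).continuousOn continuousOn_const
      (fun a ha => by rw [hke (a, 0) ⟨ha, h01⟩, QQ_right, Complex.exp_zero]) hk0 1 ⟨zero_le_one, le_rfl⟩

theorem Pv_circle (H : Hyp φ L M) {ζ' ζ : ℂ} (h' : ‖ζ'‖ = 1) (h : ‖ζ‖ = 1) (hne : ζ' ≠ ζ)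
    {k : ℝ × ℝ → ℂ} (hk : Continuous k)
    (hke : ∀ p ∈ (Icc (0 : ℝ) 1 ×ˢ Icc (0 : ℝ) 1), Complex.exp (k p) = QQ φ L ζ' ζ p)
    (hk0 : k (0, 0) = 0) : Pv φ L ζ' (φ ζ) (k (1, 1) + Complex.log (1 - ζ / ζ')) := by
  have h11 : (1 : ℝ) ∈ Icc (0 : ℝ) 1 := ⟨zero_le_one, le_rfl⟩
  have hL := H.L0
  have hζ0 := ne_zero_of_norm h'
  refine ⟨fun a => k (a, 1) + Complex.log (1 - a * (ζ / ζ')), ?_, ?_, ?_, ?_⟩
  · exact (hk.comp (continuous_id.prodMk continuous_const)).continuousOn.add (log_cont h h' hne)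
  · simp only [Complex.ofReal_zero, zero_mul, sub_zero, Complex.log_one, add_zero]
    exact (edge0 hk hke hk0).1
  · intro a ha
    rw [Complex.exp_add, hke (a, 1) ⟨ha, h11⟩,
      Complex.exp_log (Complex.slitPlane_ne_zero (slit h h' hne ha))]
    have hd : ζ' - a * ζ ≠ 0 := by
      have := den_ne h' h hne ha.1 zero_le_one (lt_max_of_lt_right zero_lt_one)
      rwa [Complex.ofReal_one, one_mul] at this
    unfold QQ RR
    simp only [Complex.ofReal_one, mul_one, one_mul, div_one]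
    have he : ee φ L ζ = φ ζ - L * ζ := rfl
    rw [he]
    generalize ee φ L (ζ' / a) = E
    field_simp
    ring
  · show k (1, 1) + Complex.log (1 - (1 : ℝ) * (ζ / ζ')) = _
    rw [Complex.ofReal_one, one_mul]

theorem QQ_one_mul (H : Hyp φ L M) {ζ' ζ : ℂ} (h' : ‖ζ'‖ = 1) (h : ‖ζ‖ = 1) (hne : ζ' ≠ ζ)
    {b : ℝ} (hb : b ∈ Icc (0 : ℝ) 1) :
    QQ φ L ζ' ζ (1, b) * (1 - b * (ζ' / ζ)) = 1 - b * (φ ζ' - ee φ L (ζ / b)) / (L * ζ) := by
  have hL := H.L0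
  have hζ0 := ne_zero_of_norm h
  have hd : b * ζ' - ζ ≠ 0 := by
    have := den_ne h' h hne zero_le_one hb.1 (lt_max_of_lt_left zero_lt_one)
    rwa [Complex.ofReal_one, one_mul] at this
  unfold QQ
  simp only [Complex.ofReal_one, one_mul, div_one]
  have he : ee φ L ζ' = φ ζ' - L * ζ' := rfl
  rw [he]
  generalize ee φ L (ζ / b) = E
  field_simp
  ring

theorem edge1 (H : Hyp φ L M) {ζ₁ ζ₂ ζ : ℂ} (h1 : ‖ζ₁‖ = 1) (h2 : ‖ζ₂‖ = 1) (h : ‖ζ‖ = 1)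
    (hne1 : ζ₁ ≠ ζ) (hne2 : ζ₂ ≠ ζ) (hx : φ ζ₁ = φ ζ₂) {k₁ k₂ : ℝ × ℝ → ℂ}
    (hk₁ : Continuous k₁) (hk₂ : Continuous k₂)
    (hke₁ : ∀ p ∈ (Icc (0 : ℝ) 1 ×ˢ Icc (0 : ℝ) 1), Complex.exp (k₁ p) = QQ φ L ζ₁ ζ p)
    (hke₂ : ∀ p ∈ (Icc (0 : ℝ) 1 ×ˢ Icc (0 : ℝ) 1), Complex.exp (k₂ p) = QQ φ L ζ₂ ζ p)
    (hk0₁ : k₁ (0, 0) = 0) (hk0₂ : k₂ (0, 0) = 0) :
    k₁ (1, 1) + Complex.log (1 - ζ₁ / ζ) = k₂ (1, 1) + Complex.log (1 - ζ₂ / ζ) := by
  have h11 : (1 : ℝ) ∈ Icc (0 : ℝ) 1 := ⟨zero_le_one, le_rfl⟩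
  have key := exp_unique (f := fun b => k₁ (1, b) + Complex.log (1 - b * (ζ₁ / ζ)))
    (g := fun b => k₂ (1, b) + Complex.log (1 - b * (ζ₂ / ζ)))
    ((hk₁.comp (continuous_const.prodMk continuous_id)).continuousOn.add (log_cont h1 h hne1.symm))
    ((hk₂.comp (continuous_const.prodMk continuous_id)).continuousOn.add (log_cont h2 h hne2.symm))
    (fun b hb => by
      rw [Complex.exp_add, Complex.exp_add, hke₁ (1, b) ⟨h11, hb⟩, hke₂ (1, b) ⟨h11, hb⟩,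
        Complex.exp_log (Complex.slitPlane_ne_zero (slit h1 h hne1.symm hb)),
        Complex.exp_log (Complex.slitPlane_ne_zero (slit h2 h hne2.symm hb)),
        QQ_one_mul H h1 h hne1 hb, QQ_one_mul H h2 h hne2 hb, hx])
    (by
      simp only [Complex.ofReal_zero, zero_mul, sub_zero, Complex.log_one, add_zero]
      rw [(edge0 hk₁ hke₁ hk0₁).2, (edge0 hk₂ hke₂ hk0₂).2]) 1 h11
  simpa only [Complex.ofReal_one, one_mul] using key

theorem diff_val (H : Hyp φ L M) {ζ₁ ζ₂ ζ : ℂ} (h1 : ‖ζ₁‖ = 1) (h2 : ‖ζ₂‖ = 1) (h : ‖ζ‖ = 1)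
    (hne : φ ζ₁ ≠ φ ζ) (hx : φ ζ₁ = φ ζ₂) :
    ∃ v₁ v₂, Pv φ L ζ₁ (φ ζ) v₁ ∧ Pv φ L ζ₂ (φ ζ) v₂ ∧
      v₁ - v₂ = (Complex.log (1 - ζ / ζ₁) - Complex.log (1 - ζ₁ / ζ)) -
        (Complex.log (1 - ζ / ζ₂) - Complex.log (1 - ζ₂ / ζ)) := by
  have hne1 : ζ₁ ≠ ζ := fun e => hne (by rw [e])
  have hne2 : ζ₂ ≠ ζ := fun e => hne (by rw [hx, e])
  obtain ⟨k₁, hk₁, hke₁, hk0₁⟩ := exists_log (QQ_cont H h1 h hne1) (QQ_ne H h1 h hne)
    (QQ_left ζ₁ ζ 0)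
  obtain ⟨k₂, hk₂, hke₂, hk0₂⟩ := exists_log (QQ_cont H h2 h hne2)
    (QQ_ne H h2 h (by rw [← hx]; exact hne)) (QQ_left ζ₂ ζ 0)
  have he := edge1 H h1 h2 h hne1 hne2 hx hk₁ hk₂ hke₁ hke₂ hk0₁ hk0₂
  refine ⟨_, _, Pv_circle H h1 h hne1 hk₁ hke₁ hk0₁, Pv_circle H h2 h hne2 hk₂ hke₂ hk0₂, ?_⟩
  linear_combination he

end

theorem one_sub_exp (β : ℝ) : 1 - Complex.exp ((2 * β : ℝ) * Complex.I) =
    ((2 * Real.sin β : ℝ) : ℂ) * Complex.exp (((β - Real.pi / 2 : ℝ) : ℂ) * Complex.I) := by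
  have e1 : Complex.exp ((2 * β : ℝ) * Complex.I) =
      (Complex.cos β + Complex.sin β * Complex.I) ^ 2 := by
    rw [← Complex.exp_mul_I, ← Complex.exp_nat_mul]
    congr 1
    push_cast
    ring
  have e2 : Complex.exp (((β - Real.pi / 2 : ℝ) : ℂ) * Complex.I) =
      Complex.sin β - Complex.cos β * Complex.I := by
    rw [Complex.exp_mul_I]
    push_cast
    rw [Complex.cos_sub_pi_div_two, Complex.sin_sub_pi_div_two]
    ring
  rw [e1, e2]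
  push_cast
  linear_combination (-1 : ℂ) * Complex.sin_sq_add_cos_sq (β : ℂ) -
    Complex.sin (β : ℂ) ^ 2 * Complex.I_sq

theorem one_sub_exp' (β : ℝ) : 1 - Complex.exp (-((2 * β : ℝ) * Complex.I)) =
    ((2 * Real.sin β : ℝ) : ℂ) * Complex.exp (((Real.pi / 2 - β : ℝ) : ℂ) * Complex.I) := by
  have e1 : Complex.exp (-((2 * β : ℝ) * Complex.I)) =
      (Complex.cos β - Complex.sin β * Complex.I) ^ 2 := by
    have : Complex.cos β - Complex.sin β * Complex.I = Complex.exp (-(β : ℂ) * Complex.I) := by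
      rw [Complex.exp_mul_I, Complex.cos_neg, Complex.sin_neg]
      ring
    rw [this, ← Complex.exp_nat_mul]
    congr 1
    push_cast
    ring
  have e2 : Complex.exp (((Real.pi / 2 - β : ℝ) : ℂ) * Complex.I) =
      Complex.sin β + Complex.cos β * Complex.I := by
    rw [Complex.exp_mul_I]
    push_cast
    rw [Complex.cos_pi_div_two_sub, Complex.sin_pi_div_two_sub]
  rw [e1, e2]
  push_cast
  linear_combination (-1 : ℂ) * Complex.sin_sq_add_cos_sq (β : ℂ) -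
    Complex.sin (β : ℂ) ^ 2 * Complex.I_sq

theorem log_formula {α : ℝ} (h0 : 0 < α) (h1 : α < 2 * Real.pi) :
    Complex.log (1 - Complex.exp (α * Complex.I)) - Complex.log (1 - Complex.exp (-(α * Complex.I))) =
      ((α - Real.pi : ℝ) : ℂ) * Complex.I := by
  have hα : α = 2 * (α / 2) := by ring
  have hs : 0 < 2 * Real.sin (α / 2) := by
    have := Real.sin_pos_of_pos_of_lt_pi (show 0 < α / 2 by linarith) (by linarith)
    linarith
  have e1 := one_sub_exp (α / 2)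
  have e2 := one_sub_exp' (α / 2)
  rw [← hα] at e1 e2
  rw [e1, e2, Complex.log_ofReal_mul hs (Complex.exp_ne_zero _),
    Complex.log_ofReal_mul hs (Complex.exp_ne_zero _), Complex.log_exp, Complex.log_exp]
  · push_cast
    ring
  all_goals
    simp only [Complex.mul_I_im, Complex.ofReal_re]
    linarith [Real.pi_pos]

theorem log_ang {θ θ₁ α : ℝ} (h0 : 0 < α) (h1 : α < 2 * Real.pi)
    (hα : Complex.exp (((θ - θ₁ : ℝ) : ℂ) * Complex.I) = Complex.exp (α * Complex.I)) :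
    Complex.log (1 - Complex.exp (θ * Complex.I) / Complex.exp (θ₁ * Complex.I)) -
      Complex.log (1 - Complex.exp (θ₁ * Complex.I) / Complex.exp (θ * Complex.I)) =
      ((α - Real.pi : ℝ) : ℂ) * Complex.I := by
  have e1 : Complex.exp (θ * Complex.I) / Complex.exp (θ₁ * Complex.I) =
      Complex.exp (α * Complex.I) := by
    rw [← hα, ← Complex.exp_sub]
    congr 1
    push_cast
    ring
  have e2 : Complex.exp (θ₁ * Complex.I) / Complex.exp (θ * Complex.I) =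
      Complex.exp (-(α * Complex.I)) := by
    rw [Complex.exp_neg, ← e1, inv_div]
  rw [e1, e2]
  exact log_formula h0 h1

section

variable {φ : ℂ → ℂ} {L : ℂ} {M : ℝ}

/-- `φ` is not constant on the circle -/
theorem circle_const (H : Hyp φ L M) (hd : DifferentiableOn ℂ φ MB.Ext) {c : ℂ}
    (hc : ∀ ζ : ℂ, ‖ζ‖ = 1 → φ ζ = c) : False := by
  have hL := H.L0
  have hLn : 0 < ‖L‖ := norm_pos_iff.mpr H.L0
  set ψ : ℂ → ℂ := fun w => 1 + w * (ee φ L (1 / w) - c) / L with hψ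
  have hmem : ∀ w : ℂ, 0 < ‖w‖ → ‖w‖ ≤ 1 → 1 / w ∈ CExt := by
    intro w h0 h1
    show 1 ≤ ‖1 / w‖
    rw [norm_div, norm_one]
    exact one_le_one_div h0 h1
  have hcont : ContinuousOn ψ (closedBall 0 1) := by
    refine cont_of_bound (g := fun w => ‖w‖) (C := (M + ‖c‖) / ‖L‖) continuous_norm
      (fun _ _ => norm_nonneg _) ?_ ?_
    · intro w hw
      rw [mem_closedBall, dist_zero_right] at hw
      have e1 : ψ w - 1 = w * (ee φ L (1 / w) - c) / L := by simp only [hψ]; ring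
      rcases (norm_nonneg w).eq_or_lt with h0 | h0
      · have : w = 0 := norm_eq_zero.mp h0.symm
        rw [e1, this]; simp
      · rw [e1, norm_div, norm_mul, div_mul_eq_mul_div, mul_comm ‖w‖]
        gcongr
        exact (norm_sub_le _ _).trans (add_le_add (H.bd _ (hmem w h0 hw)) le_rfl)
    · refine continuousOn_const.add ((continuousOn_id.mul (ContinuousOn.sub ?_
        continuousOn_const)).div_const _)
      refine (ee_cont H).comp (continuousOn_const.div continuousOn_id fun w hw => ?_) fun w hw => ?_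
      · exact norm_pos_iff.mp hw.2
      · have h1 := hw.1
        rw [mem_closedBall, dist_zero_right] at h1
        exact hmem w hw.2 h1
  have hdiff : DifferentiableOn ℂ ψ (ball 0 1) := by
    rw [← Complex.differentiableOn_compl_singleton_and_continuousAt_iff (c := 0)
      (ball_mem_nhds (0 : ℂ) zero_lt_one)]
    constructor
    · refine (differentiableOn_const _).add ((differentiableOn_id.mul (DifferentiableOn.sub ?_
        (differentiableOn_const _))).div_const _)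
      have he : DifferentiableOn ℂ (ee φ L) MB.Ext :=
        hd.sub ((differentiableOn_const _).mul differentiableOn_id)
      refine he.comp ((differentiableOn_const _).div differentiableOn_id fun w hw => hw.2)
        fun w hw => ?_
      have h1 := hw.1
      rw [mem_ball, dist_zero_right] at h1
      have h0 : 0 < ‖w‖ := norm_pos_iff.mpr hw.2
      show 1 < ‖1 / w‖
      rw [norm_div, norm_one]
      exact one_lt_one_div h0 h1
    · exact (hcont.continuousAt (closedBall_mem_nhds (0 : ℂ) zero_lt_one))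
  have hdc : DiffContOnCl ℂ ψ (ball 0 1) :=
    ⟨hdiff, by rw [closure_ball (0 : ℂ) one_ne_zero]; exact hcont⟩
  have hfr : ∀ z ∈ frontier (ball (0 : ℂ) 1), ‖ψ z‖ ≤ 0 := by
    intro z hz
    rw [frontier_ball (0 : ℂ) one_ne_zero, mem_sphere, dist_zero_right] at hz
    have hz0 := ne_zero_of_norm hz
    have h1 : ‖1 / z‖ = 1 := by rw [norm_div, hz, norm_one, div_one]
    have h2 : ψ z = 0 := by
      simp only [hψ, ee]
      rw [hc _ h1]
      field_simp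
      ring
    rw [h2, norm_zero]
  have h3 := Complex.norm_le_of_forall_mem_frontier_norm_le isBounded_ball hdc hfr
    (subset_closure (mem_ball_self zero_lt_one) : (0 : ℂ) ∈ closure (ball (0 : ℂ) 1))
  have h4 : ψ 0 = 1 := by simp [hψ]
  rw [h4, norm_one] at h3
  linarith

theorem nonconst (H : Hyp φ L M) (hd : DifferentiableOn ℂ φ MB.Ext) {G : ℂ → ℂ} {n : ℕ}
    (hn : 2 ≤ n) (hG : ∀ z ∈ CExt, G (φ z) = φ (z ^ n)) (x : ℂ) {α β : ℝ} (hαβ : α < β) :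
    ∃ θ : ℝ, α < θ ∧ θ < β ∧ φ (Complex.exp (θ * Complex.I)) ≠ x := by
  by_contra hcon
  push Not at hcon
  have hpow : ∀ z ∈ CExt, ∀ k : ℕ, z ^ k ∈ CExt := by
    intro z hz k
    show 1 ≤ ‖z ^ k‖
    rw [norm_pow]
    exact one_le_pow₀ hz
  have hiter : ∀ m : ℕ, ∀ z ∈ CExt, G^[m] (φ z) = φ (z ^ (n ^ m)) := by
    intro m
    induction m with
    | zero => intro z _; simp
    | succ m ih =>
      intro z hz
      rw [Function.iterate_succ_apply', ih z hz, hG _ (hpow z hz _), ← pow_mul, ← pow_succ]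
  obtain ⟨m, hm⟩ := pow_unbounded_of_one_lt (2 * Real.pi / (β - α))
    (show (1 : ℝ) < n by exact_mod_cast hn)
  have hβα : 0 < β - α := by linarith
  have hN : 0 < (n : ℝ) ^ m := lt_trans (div_pos (by positivity) hβα) hm
  rw [div_lt_iff₀ hβα] at hm
  refine circle_const H hd (c := G^[m] x) fun ζ hζ => ?_
  obtain ⟨γ, rfl⟩ := (Complex.norm_eq_one_iff ζ).mp hζ
  set N : ℝ := (n : ℝ) ^ m with hNd
  have hpi := Real.pi_pos
  set k : ℤ := ⌊(N * α - γ) / (2 * Real.pi)⌋ + 1 with hk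
  have hk1 : N * α - γ < 2 * Real.pi * k := by
    have := Int.lt_floor_add_one ((N * α - γ) / (2 * Real.pi))
    rw [div_lt_iff₀ (by positivity)] at this
    rw [hk]; push_cast
    linarith
  have hk2 : 2 * Real.pi * k ≤ N * α - γ + 2 * Real.pi := by
    have := Int.floor_le ((N * α - γ) / (2 * Real.pi))
    rw [le_div_iff₀ (by positivity)] at this
    rw [hk]; push_cast
    linarith
  set θ : ℝ := (γ + 2 * Real.pi * k) / N with hθ
  have h1 : α < θ := by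
    rw [hθ, lt_div_iff₀ hN]; linarith
  have h2 : θ < β := by
    rw [hθ, div_lt_iff₀ hN]; linarith
  have h3 := hcon θ h1 h2
  have hz : Complex.exp (θ * Complex.I) ∈ CExt := by
    show 1 ≤ ‖Complex.exp (θ * Complex.I)‖
    rw [Complex.norm_exp_ofReal_mul_I]
  have h4 := hiter m _ hz
  rw [h3] at h4
  rw [h4]
  congr 1
  rw [← Complex.exp_nat_mul, Complex.exp_eq_exp_iff_exists_int]
  refine ⟨-k, ?_⟩
  have h5 : ((n ^ m : ℕ) : ℂ) * (θ : ℂ) = γ + 2 * Real.pi * k := by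
    have : N * θ = γ + 2 * Real.pi * k := by
      rw [hθ]; field_simp
    have h6 : ((N * θ : ℝ) : ℂ) = ((γ + 2 * Real.pi * k : ℝ) : ℂ) := by rw [this]
    rw [hNd] at h6
    push_cast at h6 ⊢
    exact h6
  rw [← mul_assoc, h5]
  push_cast
  ring

theorem circle_false (H : Hyp φ L M) (hd : DifferentiableOn ℂ φ MB.Ext) {G : ℂ → ℂ} {n : ℕ}
    (hn : 2 ≤ n) (hG : ∀ z ∈ CExt, G (φ z) = φ (z ^ n)) {Bs : Set ℂ} (hBc : IsPreconnected Bs)
    (hBφ : ∀ z ∈ CExt, φ z ∉ Bs) (hBcl : ∀ ζ : ℂ, ‖ζ‖ = 1 → φ ζ ∈ closure Bs)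
    {θ₁ θ₂ : ℝ} (h12 : θ₁ < θ₂) (h21 : θ₂ < θ₁ + 2 * Real.pi)
    (hx : φ (Complex.exp (θ₁ * Complex.I)) = φ (Complex.exp (θ₂ * Complex.I))) : False := by
  have hpi := Real.pi_pos
  obtain ⟨θ, a1, a2, a3⟩ := nonconst H hd hn hG (φ (Complex.exp (θ₁ * Complex.I))) h12
  obtain ⟨θ', b1, b2, b3⟩ := nonconst H hd hn hG (φ (Complex.exp (θ₁ * Complex.I))) h21
  have hnorm : ∀ t : ℝ, ‖Complex.exp (t * Complex.I)‖ = 1 := Complex.norm_exp_ofReal_mul_I
  set ζ := Complex.exp (θ * Complex.I) with hζ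
  set ζ' := Complex.exp (θ' * Complex.I) with hζ'
  obtain ⟨v₁, v₂, c1, c2, c3⟩ := diff_val H (hnorm θ₁) (hnorm θ₂) (hnorm θ) a3.symm hx
  obtain ⟨w₁, w₂, d1, d2, d3⟩ := diff_val H (hnorm θ₁) (hnorm θ₂) (hnorm θ') b3.symm hx
  have hT : IsPreconnected (insert (φ ζ) (insert (φ ζ') Bs)) := by
    refine hBc.subset_closure (fun y hy => Or.inr (Or.inr hy)) ?_
    rintro y (rfl | rfl | hy)
    · exact hBcl _ (hnorm θ)
    · exact hBcl _ (hnorm θ')
    · exact subset_closure hy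
  have hex : ∀ t : ℝ, φ ζ ≠ φ (Complex.exp (t * Complex.I)) →
      φ ζ' ≠ φ (Complex.exp (t * Complex.I)) → ∀ y ∈ insert (φ ζ) (insert (φ ζ') Bs),
      ∃ v, Pv φ L (Complex.exp (t * Complex.I)) y v := by
    intro t ht ht' y hy
    refine Pv_exists H (hnorm t) fun a h0 h1 heq => ?_
    have hcirc : ∀ s : ℝ, φ (Complex.exp (s * Complex.I)) ≠ φ (Complex.exp (t * Complex.I)) →
        φ (Complex.exp (t * Complex.I) / a) ≠ φ (Complex.exp (s * Complex.I)) := by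
      intro s hs he
      rcases h1.eq_or_lt with h2 | h2
      · rw [h2, Complex.ofReal_one, div_one] at he
        exact hs he.symm
      · exact H.disj _ (div_mem' (hnorm t) h0 h2) _ (hnorm s) he
    rcases hy with rfl | rfl | hy
    · exact hcirc θ ht heq
    · exact hcirc θ' ht' heq
    · exact hBφ _ (div_mem (hnorm t) h0 h1) (by rw [heq]; exact hy)
  have key := Pv_const H (hnorm θ₁) (hnorm θ₂) hx hT (hex θ₁ a3 b3)
    (hex θ₂ (by rw [← hx]; exact a3) (by rw [← hx]; exact b3))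
    (Or.inl rfl) (Or.inr (Or.inl rfl)) c1 c2 d1 d2
  have per : ∀ t : ℝ, Complex.exp ((t : ℂ) * Complex.I) =
      Complex.exp (((t + 2 * Real.pi : ℝ) : ℂ) * Complex.I) := by
    intro t
    rw [Complex.exp_eq_exp_iff_exists_int]
    refine ⟨-1, ?_⟩
    push_cast
    ring
  rw [c3, d3, log_ang (α := θ - θ₁) (by linarith) (by linarith) rfl,
    log_ang (α := θ - θ₂ + 2 * Real.pi) (by linarith) (by linarith) (per _),
    log_ang (α := θ' - θ₁) (by linarith) (by linarith) rfl,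
    log_ang (α := θ' - θ₂) (by linarith) (by linarith) rfl] at key
  have h5 := congrArg Complex.im key
  simp only [← sub_mul, ← Complex.ofReal_sub, Complex.mul_I_im, Complex.ofReal_re] at h5
  linarith

end

end INJaux

open INJaux in
theorem t_INJ : S_INJ := by
  intro n φ G Bs L b hn hL hcont hdiff hinj hG hlim hdisj hBo hBc hBne hBφ hBcl
  obtain ⟨M, hM⟩ : ∃ M, ∀ z ∈ CExt, ‖φ z - L * z‖ ≤ M := by
    have h1 : ∀ᶠ z in cocompact ℂ, ‖φ z - L * z‖ < ‖b‖ + 1 :=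
      hlim.norm.eventually_lt_const (lt_add_one _)
    obtain ⟨K, hK, hKs⟩ := Filter.mem_cocompact.mp h1
    have hclosed : IsClosed CExt := isClosed_le continuous_const continuous_norm
    obtain ⟨C, hC⟩ := (hK.inter_right hclosed).exists_bound_of_continuousOn
      (f := fun z => φ z - L * z)
      ((hcont.sub (continuousOn_const.mul continuousOn_id)).mono inter_subset_right)
    refine ⟨max (‖b‖ + 1) C, fun z hz => ?_⟩
    by_cases hzK : z ∈ K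
    · exact (hC z ⟨hzK, hz⟩).trans (le_max_right _ _)
    · exact (le_of_lt (hKs hzK)).trans (le_max_left _ _)
  have H : Hyp φ L M := ⟨hL, hcont, hinj, hdisj, hM⟩
  have main : ∀ z w : ℂ, ‖z‖ = 1 → ‖w‖ = 1 → φ z = φ w → z.arg < w.arg → False := by
    intro z w hz hw h harg
    have ez : Complex.exp (z.arg * Complex.I) = z := by
      have := Complex.norm_mul_exp_arg_mul_I z
      rwa [hz, Complex.ofReal_one, one_mul] at this
    have ew : Complex.exp (w.arg * Complex.I) = w := by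
      have := Complex.norm_mul_exp_arg_mul_I w
      rwa [hw, Complex.ofReal_one, one_mul] at this
    have h1 := (Complex.arg_mem_Ioc z).1
    have h2 := (Complex.arg_mem_Ioc w).2
    exact circle_false H hdiff hn hG hBc hBφ hBcl harg (by linarith) (by rw [ez, ew]; exact h)
  intro z hz w hw h
  have hz' : 1 ≤ ‖z‖ := hz
  have hw' : 1 ≤ ‖w‖ := hw
  rcases hz'.eq_or_lt with h1 | h1 <;> rcases hw'.eq_or_lt with h2 | h2
  · by_contra hne
    rcases lt_trichotomy z.arg w.arg with h3 | h3 | h3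
    · exact main z w h1.symm h2.symm h h3
    · exact hne (Complex.ext_norm_arg (h1.symm.trans h2) h3)
    · exact main w z h2.symm h1.symm h.symm h3
  · exact absurd h.symm (hdisj w h2 z h1.symm)
  · exact absurd h (hdisj z h1 w h2.symm)
  · exact hinj h1 h2 h

end Pool.Agent.H212.ND
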