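import Pool.Agent.H212.ND.StmT

set_option autoImplicit false

open Filter Metric Set Topology Polynomial
open scoped ComplexConjugate

namespace Pool.Agent.H212.ND

namespace JLCaux

/-- the closed arc opposite to `ζ₀` is connected -/
theorem arc_conn (ζ₀ : ℂ) (h₀ : ‖ζ₀‖ = 1) (η : ℝ) :
    IsPreconnected {ζ : ℂ | ‖ζ‖ = 1 ∧ η ≤ ‖ζ - ζ₀‖} := by
  have key : ∀ t : ℝ, t ∈ Icc 0 Real.pi → ‖ζ₀ * Complex.exp (2 * t * Complex.I) - ζ₀‖ = 2 * Real.sin t := by
    intro t ht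
    have h1 : ζ₀ * Complex.exp (2 * t * Complex.I) - ζ₀ =
        ζ₀ * Complex.exp (t * Complex.I) * (2 * Complex.I * Complex.sin t) := by
      have e1 : Complex.exp (2 * t * Complex.I) = Complex.exp (t * Complex.I) * Complex.exp (t * Complex.I) := by
        rw [← Complex.exp_add]; congr 1; ring
      have e2 : Complex.exp (t * Complex.I) * Complex.exp (-(t * Complex.I)) = 1 := by
        rw [← Complex.exp_add]; simp
      have e3 : Complex.sin t = (Complex.exp (-(t * Complex.I)) - Complex.exp (t * Complex.I)) * Complex.I / 2 := by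
        rw [Complex.sin]; ring_nf
      rw [e1, e3]
      have hI : Complex.I * Complex.I = -1 := Complex.I_mul_I
      linear_combination (-ζ₀ * (Complex.exp (t * Complex.I) * Complex.exp (-(t * Complex.I)) -
        Complex.exp (t * Complex.I) * Complex.exp (t * Complex.I))) * hI + ζ₀ * e2
    rw [h1, norm_mul, norm_mul, h₀, norm_mul, norm_mul, Complex.norm_I, Complex.norm_exp_ofReal_mul_I]
    rw [← Complex.ofReal_sin, Complex.norm_real, Real.norm_of_nonneg (Real.sin_nonneg_of_mem_Icc ht)]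
    simp
  have hT : IsPreconnected {t ∈ Icc 0 Real.pi | η / 2 ≤ Real.sin t} :=
    (strictConcaveOn_sin_Icc.concaveOn.convex_ge (η / 2)).isPreconnected
  have himg : {ζ : ℂ | ‖ζ‖ = 1 ∧ η ≤ ‖ζ - ζ₀‖} =
      (fun t : ℝ => ζ₀ * Complex.exp (2 * t * Complex.I)) '' {t ∈ Icc 0 Real.pi | η / 2 ≤ Real.sin t} := by
    have hζ₀ : ζ₀ ≠ 0 := by
      intro h; rw [h] at h₀; simp at h₀
    ext ζ
    simp only [mem_ofPred_eq, mem_image]
    constructor
    · rintro ⟨hz, hη⟩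
      -- the argument of ζ / ζ₀
      set w : ℂ := ζ / ζ₀ with hw
      have hwn : ‖w‖ = 1 := by rw [hw, norm_div, hz, h₀]; simp
      have hζ : ζ₀ * w = ζ := by rw [hw]; field_simp
      have hwe : Complex.exp (w.arg * Complex.I) = w := by
        have := Complex.norm_mul_exp_arg_mul_I w
        rw [hwn] at this
        simpa using this
      -- choose t
      obtain ⟨t, ht, hte⟩ : ∃ t : ℝ, t ∈ Icc 0 Real.pi ∧ Complex.exp (2 * t * Complex.I) = w := by
        by_cases ha : 0 ≤ w.arg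
        · refine ⟨w.arg / 2, ⟨by linarith, by linarith [Complex.arg_le_pi w, Real.pi_pos]⟩, ?_⟩
          have e : (2 * ((w.arg / 2 : ℝ) : ℂ) * Complex.I) = w.arg * Complex.I := by push_cast; ring
          rw [e, hwe]
        · refine ⟨w.arg / 2 + Real.pi, ⟨by linarith [Complex.neg_pi_lt_arg w, Real.pi_pos], by linarith⟩, ?_⟩
          have : (2 * ((w.arg / 2 + Real.pi : ℝ) : ℂ) * Complex.I) = w.arg * Complex.I + 2 * Real.pi * Complex.I := by
            push_cast; ring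
          rw [this, Complex.exp_add, Complex.exp_two_pi_mul_I, mul_one, hwe]
      refine ⟨t, ⟨ht, ?_⟩, ?_⟩
      · have := key t ht
        rw [hte, hζ] at this
        rw [this] at hη
        linarith
      · rw [hte, hζ]
    · rintro ⟨t, ⟨ht, hs⟩, rfl⟩
      refine ⟨?_, ?_⟩
      · rw [norm_mul, h₀]
        have : (2 * (t : ℂ) * Complex.I) = ((2 * t : ℝ) : ℂ) * Complex.I := by push_cast; ring
        rw [this, Complex.norm_exp_ofReal_mul_I]; simp
      · rw [key t ht]; linarith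
  rw [himg]
  refine hT.image _ (Continuous.continuousOn ?_)
  fun_prop

/-- two logarithms on a preconnected set differ by a constant -/
theorem const_diff {K : Set ℂ} (hK : IsPreconnected K) {u₁ u₂ : ℂ → ℂ} (h1 : ContinuousOn u₁ K)
    (h2 : ContinuousOn u₂ K) (he : ∀ z ∈ K, Complex.exp (u₁ z) = Complex.exp (u₂ z)) :
    ∃ n : ℤ, ∀ z ∈ K, u₁ z = u₂ z + n * (2 * Real.pi * Complex.I) := by
  have hn : ∀ z ∈ K, ∃ n : ℤ, u₁ z = u₂ z + n * (2 * Real.pi * Complex.I) := fun z hz =>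
    Complex.exp_eq_exp_iff_exists_int.1 (he z hz)
  rcases K.eq_empty_or_nonempty with rfl | ⟨z₀, hz₀⟩
  · exact ⟨0, by simp⟩
  obtain ⟨n₀, hn₀⟩ := hn z₀ hz₀
  refine ⟨n₀, fun z hz => ?_⟩
  obtain ⟨n, hnz⟩ := hn z hz
  have hf : ContinuousOn (fun z => (u₁ z - u₂ z).im / (2 * Real.pi)) K :=
    (Complex.continuous_im.comp_continuousOn (h1.sub h2)).div_const _
  have hval : ∀ z ∈ K, ∀ n : ℤ, u₁ z = u₂ z + n * (2 * Real.pi * Complex.I) → (u₁ z - u₂ z).im / (2 * Real.pi) = n := by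
    intro z hz n h
    rw [h]
    have : (u₂ z + n * (2 * Real.pi * Complex.I) - u₂ z) = ((n * (2 * Real.pi) : ℝ) : ℂ) * Complex.I := by
      push_cast; ring
    rw [this]
    have hpi : (2 * Real.pi) ≠ 0 := by positivity
    simp only [Complex.mul_im, Complex.ofReal_re, Complex.I_im, Complex.ofReal_im, Complex.I_re]
    field_simp
    ring
  have hoc : OrdConnected ((fun z => (u₁ z - u₂ z).im / (2 * Real.pi)) '' K) :=
    (hK.image _ hf).ordConnected
  have hnn : n = n₀ := by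
    by_contra hne
    have aux : ∀ a b : ℤ, a < b → (a : ℝ) ∈ ((fun z => (u₁ z - u₂ z).im / (2 * Real.pi)) '' K) →
        (b : ℝ) ∈ ((fun z => (u₁ z - u₂ z).im / (2 * Real.pi)) '' K) → False := by
      intro a b hab ha hb
      have hab' : (a : ℝ) + 1 ≤ b := by exact_mod_cast hab
      have hm := hoc.out ha hb (show (a : ℝ) + 1 / 2 ∈ Icc (a : ℝ) b from ⟨by linarith, by linarith⟩)
      obtain ⟨w, hw, hwe⟩ := hm
      obtain ⟨m, hm⟩ := hn w hw
      have h3 := hval w hw m hm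
      simp only at hwe
      rw [h3] at hwe
      have h4 : (2 * m : ℝ) = 2 * a + 1 := by linarith
      have h5 : 2 * m = 2 * a + 1 := by exact_mod_cast h4
      omega
    rcases lt_or_gt_of_ne hne with h | h
    · exact aux n n₀ h ⟨z, hz, hval z hz n hnz⟩ ⟨z₀, hz₀, hval z₀ hz₀ n₀ hn₀⟩
    · exact aux n₀ n h ⟨z₀, hz₀, hval z₀ hz₀ n₀ hn₀⟩ ⟨z, hz, hval z hz n hnz⟩
  rw [hnz, hnn]

end JLCaux

theorem t_JLC (h : S_ECR) : S_JLC := by
  intro φ hc hi ζ₀ h₀ ε hε
  set C : Set ℂ := {z : ℂ | ‖z‖ = 1} with hC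
  have hCc : IsCompact C := by
    have : C = sphere (0 : ℂ) 1 := by ext z; simp [hC]
    rw [this]; exact isCompact_sphere _ _
  set x := φ ζ₀ with hx
  obtain ⟨η, hη, hηs⟩ : ∃ η : ℝ, 0 < η ∧ ∀ ζ ∈ C, ‖ζ - ζ₀‖ < η → φ ζ ∈ ball x ε := by
    have h1 := Metric.continuousOn_iff.1 hc ζ₀ h₀ ε hε
    obtain ⟨η, hη, h2⟩ := h1
    refine ⟨η, hη, fun ζ hζ hd => ?_⟩
    have := h2 ζ hζ (by rw [dist_eq_norm]; exact hd)
    exact mem_ball.2 this
  set A : Set ℂ := {ζ : ℂ | ‖ζ‖ = 1 ∧ η ≤ ‖ζ - ζ₀‖} with hA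
  have hAC : A ⊆ C := fun ζ hζ => hζ.1
  have hAc : IsCompact A := by
    have : A = C ∩ {ζ : ℂ | η ≤ ‖ζ - ζ₀‖} := by ext ζ; simp [hA, hC]
    rw [this]
    exact hCc.inter_right (isClosed_le continuous_const (by fun_prop))
  have hAp : IsPreconnected (φ '' A) := (JLCaux.arc_conn ζ₀ h₀ η).image _ (hc.mono hAC)
  have hAK : IsCompact (φ '' A) := hAc.image_of_continuousOn (hc.mono hAC)
  have hxA : x ∉ φ '' A := by
    rintro ⟨ζ, hζ, he⟩
    have : ζ = ζ₀ := hi (hAC hζ) h₀ he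
    have h3 := hζ.2
    rw [this] at h3
    simp at h3
    linarith
  obtain ⟨δ₀, hδ₀, hδs⟩ : ∃ δ₀ : ℝ, 0 < δ₀ ∧ ball x δ₀ ⊆ (φ '' A)ᶜ :=
    Metric.isOpen_iff.1 hAK.isClosed.isOpen_compl x hxA
  refine ⟨min δ₀ ε, lt_min hδ₀ hε, ?_⟩
  rintro y₁ hy₁ y₂ hy₂ ⟨S, hSp, hSd, hS1, hS2⟩
  have hb1 : ball x (min δ₀ ε) ⊆ (φ '' A)ᶜ := (ball_subset_ball (min_le_left _ _)).trans hδs
  have hb2 : ball x (min δ₀ ε) ⊆ ball x ε := ball_subset_ball (min_le_right _ _)
  have hJc : IsCompact (φ '' C) := hCc.image_of_continuousOn hc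
  have hF2c : IsCompact (φ '' A ∪ sphere x ε) := hAK.union (isCompact_sphere _ _)
  have hS' : S ⊆ (φ '' C)ᶜ := fun z hz hz' => (Set.disjoint_left.1 hSd) hz hz'
  have hsub2 : ball x (min δ₀ ε) ⊆ (φ '' A ∪ sphere x ε)ᶜ := by
    intro z hz hz'
    rcases hz' with hz' | hz'
    · exact hb1 hz hz'
    · have := hb2 hz
      rw [mem_ball] at this
      rw [mem_sphere] at hz'
      linarith
  obtain ⟨u₁, hu1, hu1e⟩ := (h (φ '' C) hJc y₁ y₂ (hS' hS1) (hS' hS2)).1 ⟨S, hSp, hS', hS1, hS2⟩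
  obtain ⟨u₂, hu2, hu2e⟩ := (h (φ '' A ∪ sphere x ε) hF2c y₁ y₂ (hsub2 hy₁) (hsub2 hy₂)).1
    ⟨ball x (min δ₀ ε), (convex_ball _ _).isPreconnected, hsub2, hy₁, hy₂⟩
  have hinter : φ '' C ∩ (φ '' A ∪ sphere x ε) ⊆ φ '' A := by
    rintro z ⟨⟨ζ, hζ, rfl⟩, hz | hz⟩
    · exact hz
    · refine ⟨ζ, ⟨hζ, ?_⟩, rfl⟩
      by_contra hlt
      have := hηs ζ hζ (not_le.1 hlt)
      rw [mem_ball] at this
      rw [mem_sphere] at hz
      linarith
  have hAJ : φ '' A ⊆ φ '' C := image_mono hAC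
  obtain ⟨n, hn⟩ := JLCaux.const_diff hAp (hu1.mono hAJ) (hu2.mono subset_union_left) (fun z hz => by
    rw [hu1e z (hAJ hz), hu2e z (Or.inl hz)])
  classical
  let u : ℂ → ℂ := fun z => if z ∈ φ '' C then u₁ z else u₂ z + n * (2 * Real.pi * Complex.I)
  have hue1 : ∀ z ∈ φ '' C, u z = u₁ z := fun z hz => by simp only [u, if_pos hz]
  have hue2 : ∀ z ∈ φ '' A ∪ sphere x ε, u z = u₂ z + n * (2 * Real.pi * Complex.I) := by
    intro z hz
    by_cases hzC : z ∈ φ '' C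
    · rw [hue1 z hzC]
      exact hn z (hinter ⟨hzC, hz⟩)
    · simp only [u, if_neg hzC]
  have hc1 : ContinuousOn u (φ '' C) := hu1.congr hue1
  have hc2 : ContinuousOn u (φ '' A ∪ sphere x ε) := (hu2.add continuousOn_const).congr hue2
  have hcu : ContinuousOn u (φ '' C ∪ (φ '' A ∪ sphere x ε)) :=
    hc1.union_of_isClosed hc2 hJc.isClosed hF2c.isClosed
  have hFc : IsCompact (φ '' C ∪ (φ '' A ∪ sphere x ε)) := hJc.union hF2c
  have hy1F : y₁ ∉ φ '' C ∪ (φ '' A ∪ sphere x ε) := by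
    rintro (hz | hz)
    · exact hS' hS1 hz
    · exact hsub2 hy₁ hz
  have hy2F : y₂ ∉ φ '' C ∪ (φ '' A ∪ sphere x ε) := by
    rintro (hz | hz)
    · exact hS' hS2 hz
    · exact hsub2 hy₂ hz
  obtain ⟨S', hSp', hSs', hS1', hS2'⟩ := (h _ hFc y₁ y₂ hy1F hy2F).2 ⟨u, hcu, by
    rintro z (hz | hz)
    · rw [hue1 z hz, hu1e z hz]
    · rw [hue2 z hz, Complex.exp_add, hu2e z hz, Complex.exp_int_mul_two_pi_mul_I, mul_one]⟩
  refine ⟨S', hSp', ?_, ?_, hS1', hS2'⟩
  · rw [Set.disjoint_left]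
    intro z hz hz'
    exact hSs' hz (Or.inl hz')
  · have hcov : S' ⊆ ball x ε ∪ (closedBall x ε)ᶜ := by
      intro z hz
      by_cases hzb : z ∈ ball x ε
      · exact Or.inl hzb
      · right
        intro hzc
        apply hSs' hz
        right; right
        rw [mem_sphere]
        rw [mem_closedBall] at hzc
        rw [mem_ball] at hzb
        exact le_antisymm hzc (not_lt.1 hzb)
    refine hSp'.subset_left_of_subset_union isOpen_ball isClosed_closedBall.isOpen_compl ?_ hcov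
      ⟨y₁, hS1', hb2 hy₁⟩
    rw [Set.disjoint_left]
    intro z hz hz'
    exact hz' (ball_subset_closedBall hz)

end Pool.Agent.H212.ND
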