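import Pool.Agent.H212.ND.StmA

/-!
# Project ND (MP_395436_an), job KAP: the map induced by `L` in the attracting Fatou coordinate
-/

set_option autoImplicit false

open Filter Metric Set Topology Polynomial
open scoped ComplexConjugate

namespace Pool.Agent.H212.ND

open Pool.Agent.H212.MB

namespace KAPaux

/-- what is used of the data -/
structure Dt (g : ℂ[X]) (B : Set ℂ) (Φ : ℂ → ℂ) : Prop where
  opn : IsOpen B
  conn : IsPreconnected B
  inv : ∀ y, g.eval y ∈ B ↔ y ∈ B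
  dΦ : DifferentiableOn ℂ Φ B
  semΦ : ∀ z ∈ B, Φ (g.eval z) = Φ z + 1
  fib : ∀ z ∈ B, ∀ z' ∈ B, Φ z = Φ z' →
    ∃ m : ℕ, (fun x : ℂ => g.eval x)^[m] z = (fun x : ℂ => g.eval x)^[m] z'
  surj : ∀ W : ℂ, ∃ z ∈ B, Φ z = W

/-- homeomorphisms which commute with `g` and are the identity off `B` -/
structure Cm (g : ℂ[X]) (B : Set ℂ) (L : ℂ ≃ₜ ℂ) : Prop where
  fix : ∀ y, y ∉ B → L y = y
  comm : ∀ y, L (g.eval y) = g.eval (L y)

variable {g : ℂ[X]} {B : Set ℂ} {Φ : ℂ → ℂ} {L : ℂ ≃ₜ ℂ}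

theorem Cm.symm (h : Cm g B L) : Cm g B L.symm where
  fix y hy := by
    rw [Homeomorph.symm_apply_eq]
    exact (h.fix y hy).symm
  comm y := by
    rw [Homeomorph.symm_apply_eq, h.comm, Homeomorph.apply_symm_apply]

theorem Cm.mem (h : Cm g B L) {z : ℂ} (hz : z ∈ B) : L z ∈ B := by
  by_contra h1
  have h2 := h.fix _ h1
  have h3 := L.injective h2
  exact h1 (by rw [h3]; exact hz)

theorem iter_mem (h : Dt g B Φ) {z : ℂ} (hz : z ∈ B) (m : ℕ) :
    (fun x : ℂ => g.eval x)^[m] z ∈ B := by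
  induction m with
  | zero => exact hz
  | succ m ih =>
    rw [Function.iterate_succ_apply']
    exact (h.inv _).2 ih

theorem iter_sem (h : Dt g B Φ) {z : ℂ} (hz : z ∈ B) (m : ℕ) :
    Φ ((fun x : ℂ => g.eval x)^[m] z) = Φ z + m := by
  induction m with
  | zero => simp
  | succ m ih =>
    rw [Function.iterate_succ_apply']
    have h1 := h.semΦ _ (iter_mem h hz m)
    rw [h1, ih]
    push_cast
    ring

theorem Cm.iter (h : Cm g B L) (z : ℂ) (m : ℕ) :
    L ((fun x : ℂ => g.eval x)^[m] z) = (fun x : ℂ => g.eval x)^[m] (L z) := by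
  induction m with
  | zero => rfl
  | succ m ih =>
    rw [Function.iterate_succ_apply', Function.iterate_succ_apply', ← ih]
    exact h.comm _

/-- a section of `Φ` -/
noncomputable def sec (h : Dt g B Φ) (W : ℂ) : ℂ := (h.surj W).choose

theorem sec_mem (h : Dt g B Φ) (W : ℂ) : sec h W ∈ B := (h.surj W).choose_spec.1

theorem sec_eq (h : Dt g B Φ) (W : ℂ) : Φ (sec h W) = W := (h.surj W).choose_spec.2

/-- the induced map -/
noncomputable def kp (h : Dt g B Φ) (L : ℂ ≃ₜ ℂ) (W : ℂ) : ℂ := Φ (L (sec h W))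

theorem kp_eq (h : Dt g B Φ) (hL : Cm g B L) {z : ℂ} (hz : z ∈ B) : Φ (L z) = kp h L (Φ z) := by
  unfold kp
  have hs := sec_mem h (Φ z)
  obtain ⟨m, hm⟩ := h.fib z hz (sec h (Φ z)) hs (sec_eq h (Φ z)).symm
  have h1 : (fun x : ℂ => g.eval x)^[m] (L z) = (fun x : ℂ => g.eval x)^[m] (L (sec h (Φ z))) := by
    rw [← hL.iter, ← hL.iter, hm]
  have h2 := iter_sem h (hL.mem hz) m
  have h3 := iter_sem h (hL.mem hs) m
  rw [h1, h3] at h2
  exact (add_right_cancel h2).symm

theorem nhds_le (h : Dt g B Φ) {z : ℂ} (hz : z ∈ B) : 𝓝 (Φ z) ≤ map Φ (𝓝 z) := by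
  have han : AnalyticOnNhd ℂ Φ B := h.dΦ.analyticOnNhd h.opn
  rcases (han z hz).eventually_constant_or_nhds_le_map_nhds with h1 | h1
  · exfalso
    have h2 : EqOn Φ (fun _ => Φ z) B :=
      han.eqOn_of_preconnected_of_eventuallyEq (analyticOnNhd_const) h.conn hz h1
    have h3 := h2 ((h.inv z).2 hz)
    rw [h.semΦ z hz] at h3
    have h4 : (1 : ℂ) = 0 := by
      have h5 : Φ z + 1 = Φ z + 0 := by rw [h3, add_zero]
      exact add_left_cancel h5
    exact one_ne_zero h4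
  · exact h1

theorem kp_cont (h : Dt g B Φ) (hL : Cm g B L) : Continuous (kp h L) := by
  rw [continuous_iff_continuousAt]
  intro W
  obtain ⟨z, hz, rfl⟩ := h.surj W
  unfold ContinuousAt
  refine Tendsto.mono_left ?_ (nhds_le h hz)
  rw [tendsto_map'_iff]
  have h1 : Tendsto (fun x => Φ (L x)) (𝓝 z) (𝓝 (Φ (L z))) := by
    have h2 : ContinuousAt Φ (L z) :=
      (h.dΦ.differentiableAt (h.opn.mem_nhds (hL.mem hz))).continuousAt
    exact ContinuousAt.comp (g := Φ) (f := L) h2 L.continuous.continuousAt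
  rw [kp_eq h hL hz] at h1
  refine h1.congr' ?_
  filter_upwards [h.opn.mem_nhds hz] with x hx
  exact kp_eq h hL hx

theorem kp_inv (h : Dt g B Φ) (hL : Cm g B L) (W : ℂ) : kp h L.symm (kp h L W) = W := by
  obtain ⟨z, hz, rfl⟩ := h.surj W
  rw [← kp_eq h hL hz, ← kp_eq h hL.symm (hL.mem hz), Homeomorph.symm_apply_apply]

/-- the induced homeomorphism -/
noncomputable def kh (h : Dt g B Φ) (hL : Cm g B L) : ℂ ≃ₜ ℂ where
  toFun := kp h L
  invFun := kp h L.symm
  left_inv := kp_inv h hL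
  right_inv W := by
    have h1 := kp_inv h hL.symm W
    rw [Homeomorph.symm_symm] at h1
    exact h1
  continuous_toFun := kp_cont h hL
  continuous_invFun := kp_cont h hL.symm

theorem kp_per (h : Dt g B Φ) (hL : Cm g B L) (W : ℂ) : kp h L (W + 1) = kp h L W + 1 := by
  obtain ⟨z, hz, rfl⟩ := h.surj W
  rw [← h.semΦ z hz, ← kp_eq h hL ((h.inv z).2 hz), hL.comm, h.semΦ _ (hL.mem hz), kp_eq h hL hz]

theorem kp_perm (h : Dt g B Φ) (hL : Cm g B L) (W : ℂ) (m : ℕ) :
    kp h L (W + m) = kp h L W + m := by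
  induction m with
  | zero => simp
  | succ m ih =>
    have h1 := kp_per h hL (W + m)
    push_cast
    rw [← add_assoc, h1, ih, add_assoc]

theorem kp_diff (h : Dt g B Φ) (hL : Cm g B L) {z : ℂ} (hz : z ∈ B) (hd : deriv Φ z ≠ 0)
    (hLd : DifferentiableAt ℂ L z) : DifferentiableAt ℂ (kp h L) (Φ z) := by
  have han : AnalyticAt ℂ Φ z := (h.dΦ.analyticOnNhd h.opn) z hz
  have hst : HasStrictDerivAt Φ (deriv Φ z) z := han.hasStrictDerivAt
  have e1 := hst.to_localInverse hd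
  have e2 := (hst.hasStrictFDerivAt_equiv hd).eventually_right_inverse
  have e3 : hst.localInverse Φ (deriv Φ z) z hd (Φ z) = z :=
    (hst.hasStrictFDerivAt_equiv hd).localInverse_apply_image
  have h1 : DifferentiableAt ℂ (fun x => Φ (L x)) z := by
    have h2 : DifferentiableAt ℂ Φ (L z) := h.dΦ.differentiableAt (h.opn.mem_nhds (hL.mem hz))
    exact DifferentiableAt.comp z (g := Φ) (f := L) h2 hLd
  have h3 : DifferentiableAt ℂ (fun y => Φ (L (hst.localInverse Φ (deriv Φ z) z hd y))) (Φ z) := by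
    have h4 : DifferentiableAt ℂ (fun x => Φ (L x)) (hst.localInverse Φ (deriv Φ z) z hd (Φ z)) := by
      rw [e3]; exact h1
    exact DifferentiableAt.comp (Φ z) (g := fun x => Φ (L x)) h4 e1.hasDerivAt.differentiableAt
  refine h3.congr_of_eventuallyEq ?_
  have e4 : ∀ᶠ y in 𝓝 (Φ z), hst.localInverse Φ (deriv Φ z) z hd y ∈ B := by
    have h5 : ContinuousAt (hst.localInverse Φ (deriv Φ z) z hd) (Φ z) :=
      e1.hasDerivAt.differentiableAt.continuousAt
    apply h5
    rw [e3]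
    exact h.opn.mem_nhds hz
  filter_upwards [e2, e4] with y h6 h7
  rw [kp_eq h hL h7]
  exact congrArg _ h6.symm

end KAPaux

open KAPaux in
theorem t_KAP : S_KAP := by
  intro n g c₀ c φ Φ ψ R C ρ S Y₁ K0 L hG hP hF hL
  have h : Dt g (Bas g c₀) Φ := ⟨hP.opn, hP.conn, hP.inv, hF.dΦ, hF.semΦ, hF.fib, hF.surj⟩
  have hc : Cm g (Bas g c₀) L := ⟨hL.fix, hL.comm⟩
  refine ⟨kh h hc, fun z hz => ⟨hc.mem hz, kp_eq h hc hz⟩, kp_per h hc, ?_⟩
  intro W hW
  have hW' : W.im < S - Y₁ := hW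
  apply DifferentiableAt.differentiableWithinAt
  change DifferentiableAt ℂ (kp h L) W
  obtain ⟨m, z, hz, hzW, hd⟩ := hF.petal W
  have hop : IsOpen {z | z ∈ Bas g c₀ ∧ (Φ z).im < S - Y₁} := by
    have h1 : ContinuousOn (fun z => (Φ z).im) (Bas g c₀) :=
      Complex.continuous_im.comp_continuousOn h.dΦ.continuousOn
    exact h1.isOpen_inter_preimage h.opn isOpen_Iio
  have hmem : z ∈ {z | z ∈ Bas g c₀ ∧ (Φ z).im < S - Y₁} := by
    refine ⟨hz, ?_⟩
    rw [hzW]
    simpa using hW'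
  have hLd : DifferentiableAt ℂ L z := hL.hol.differentiableAt (hop.mem_nhds hmem)
  have h2 := kp_diff h hc hz hd hLd
  rw [hzW] at h2
  have h3 : DifferentiableAt ℂ (fun W' : ℂ => kp h L (W' + m) - m) W := by
    apply DifferentiableAt.sub_const
    exact DifferentiableAt.comp W (g := kp h L) (f := fun W' : ℂ => W' + m) h2 (by fun_prop)
  refine h3.congr_of_eventuallyEq (Eventually.of_forall fun W' => ?_)
  show kp h L W' = kp h L (W' + m) - m
  rw [kp_perm h hc, add_sub_cancel_right]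

end Pool.Agent.H212.ND
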