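import Pool.Agent.H212.ND.StmA

/-! Job LAM (helper415). -/

set_option autoImplicit false

open Filter Metric Set Topology Polynomial
open scoped ComplexConjugate

namespace Pool.Agent.H212.ND

open Pool.Agent.H212.MB

namespace LAMaux

/-- an injective holomorphic function is an open map -/
theorem img_open {f : ℂ → ℂ} {U : Set ℂ} (hU : IsOpen U) (hUc : IsPreconnected U)
    (hf : DifferentiableOn ℂ f U) (hi : InjOn f U) {p : ℂ} (hp : p ∈ U) {s : Set ℂ} (hs : s ⊆ U)
    (hso : IsOpen s) : IsOpen (f '' s) := by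
  rcases (hf.analyticOnNhd hU).is_constant_or_isOpen hUc with ⟨w, hw⟩ | h
  · exfalso
    obtain ⟨r, hr, hball⟩ := Metric.isOpen_iff.1 hU p hp
    have hw' : p + (r / 2 : ℝ) ∈ ball p r := by
      rw [mem_ball_iff_norm, add_sub_cancel_left, Complex.norm_real, Real.norm_eq_abs,
        abs_of_pos (by positivity)]
      linarith
    have h1 := hi hp (hball hw') ((hw p hp).trans (hw _ (hball hw')).symm)
    have h3 : ((r / 2 : ℝ) : ℂ) = 0 := by linear_combination -h1
    rw [Complex.ofReal_eq_zero] at h3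
    linarith
  · exact h s hs hso

theorem inv_left {f : ℂ → ℂ} {U : Set ℂ} (hi : InjOn f U) {p : ℂ} (hp : p ∈ U) :
    Function.invFunOn f U (f p) = p := hi.leftInvOn_invFunOn hp

theorem inv_cont {f : ℂ → ℂ} {U : Set ℂ} (hU : IsOpen U) (hUc : IsPreconnected U)
    (hf : DifferentiableOn ℂ f U) (hi : InjOn f U) {p : ℂ} (hp : p ∈ U) :
    ContinuousAt (Function.invFunOn f U) (f p) := by
  intro N hN
  rw [inv_left hi hp] at hN
  obtain ⟨s, hsN, hso, hps⟩ := _root_.mem_nhds_iff.1 (inter_mem hN (hU.mem_nhds hp))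
  have h1 : IsOpen (f '' s) := img_open hU hUc hf hi hp (fun x hx => (hsN hx).2) hso
  rw [Filter.mem_map]
  filter_upwards [h1.mem_nhds ⟨p, hps, rfl⟩] with y hy
  obtain ⟨x, hx, rfl⟩ := hy
  rw [mem_preimage, inv_left hi (hsN hx).2]
  exact (hsN hx).1

theorem inv_diff {f : ℂ → ℂ} {U : Set ℂ} (hU : IsOpen U) (hUc : IsPreconnected U)
    (hf : DifferentiableOn ℂ f U) (hi : InjOn f U) {p : ℂ} (hp : p ∈ U) :
    DifferentiableAt ℂ (Function.invFunOn f U) (f p) := by
  set σ := Function.invFunOn f U with hσ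
  have hfz : ∀ w ∈ U, HasDerivAt f (deriv f w) w := fun w hw =>
    (hf.differentiableAt (hU.mem_nhds hw)).hasDerivAt
  have himg : ∀ w ∈ U, ∀ᶠ y in 𝓝 (f w), y ∈ f '' U := fun w hw =>
    (img_open hU hUc hf hi hp (Subset.refl U) hU).mem_nhds ⟨w, hw, rfl⟩
  have hinv : ∀ w ∈ U, deriv f w ≠ 0 → HasDerivAt σ (deriv f w)⁻¹ (f w) := by
    intro w hw hne
    refine HasDerivAt.of_local_left_inverse (f := f) (inv_cont hU hUc hf hi hw) ?_ hne ?_
    · rw [hσ, inv_left hi hw]
      exact hfz w hw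
    · filter_upwards [himg w hw] with y hy
      obtain ⟨x, hx, rfl⟩ := hy
      rw [hσ, inv_left hi hx]
  have han : AnalyticAt ℂ (deriv f) p := (hf.analyticAt (hU.mem_nhds hp)).deriv
  rcases han.eventually_eq_zero_or_eventually_ne_zero with h | h
  · exfalso
    obtain ⟨r, hr, hball⟩ := Metric.eventually_nhds_iff_ball.1 (h.and (hU.mem_nhds hp))
    have hd : DifferentiableOn ℂ f (ball p r) := hf.mono fun w hw => (hball w hw).2
    have hw : p + (r / 2 : ℝ) ∈ ball p r := by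
      rw [mem_ball_iff_norm, add_sub_cancel_left, Complex.norm_real, Real.norm_eq_abs,
        abs_of_pos (by positivity)]
      linarith
    have h0 := isOpen_ball.is_const_of_deriv_eq_zero (convex_ball p r).isPreconnected hd
      (fun w hw => (hball w hw).1) (mem_ball_self hr) hw
    have h2 := hi hp (hball _ hw).2 h0
    have h3 : ((r / 2 : ℝ) : ℂ) = 0 := by linear_combination -h2
    rw [Complex.ofReal_eq_zero] at h3
    linarith
  · have h1 : ∀ᶠ w in 𝓝[≠] p, DifferentiableAt ℂ σ (f w) := by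
      filter_upwards [h, mem_nhdsWithin_of_mem_nhds (hU.mem_nhds hp)] with w hw hwU
      exact (hinv w hwU hw).differentiableAt
    have h2 : ∀ᶠ y in 𝓝[≠] (f p), DifferentiableAt ℂ σ y := by
      have hfσ : ∀ᶠ y in 𝓝[≠] (f p), f (σ y) = y := by
        filter_upwards [mem_nhdsWithin_of_mem_nhds (himg p hp)] with y hy
        obtain ⟨x, hx, rfl⟩ := hy
        rw [hσ, inv_left hi hx]
      have ht : Tendsto σ (𝓝[≠] (f p)) (𝓝[≠] p) := by
        refine tendsto_nhdsWithin_iff.2 ⟨?_, ?_⟩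
        · have := (inv_cont hU hUc hf hi hp).tendsto.mono_left
            (nhdsWithin_le_nhds (s := {f p}ᶜ))
          rwa [inv_left hi hp] at this
        · filter_upwards [self_mem_nhdsWithin, hfσ] with y hy hy2 hy'
          apply hy
          rw [mem_singleton_iff] at hy' ⊢
          rw [← hy2, hy']
      filter_upwards [ht.eventually h1, hfσ] with y hy hy2
      rwa [hy2] at hy
    exact (Complex.analyticAt_of_differentiable_on_punctured_nhds_of_continuousAt h2
        (inv_cont hU hUc hf hi hp)).differentiableAt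

/-- a self map of the plane which commutes with `g` and fixes `1` -/
structure HM (g : ℂ[X]) (M : ℂ → ℂ) : Prop where
  cont : Continuous M
  one : M 1 = 1
  inj : Function.Injective M
  comm : ∀ y, M (g.eval y) = g.eval (M y)

variable {g : ℂ[X]} {c₀ : ℝ} {Φ ψ : ℂ → ℂ} {R C : ℝ}

theorem sem_succ (F : FC g c₀ Φ ψ R C) (w : ℂ) (m : ℕ) :
    g.eval (ψ (w - ((m + 1 : ℕ) : ℂ))) = ψ (w - m) := by
  rw [← F.semψ]
  congr 1
  push_cast
  ring

theorem ne_one (F : FC g c₀ Φ ψ R C) {w : ℂ} (hw : w.re < -R) : ψ w ≠ 1 := by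
  refine (F.asyψ w ?_).1
  have := abs_nonneg w.im
  linarith

theorem bound (F : FC g c₀ Φ ψ R C) {T : ℝ} (hT : R < T) {w : ℂ} (hw : w.re ≤ -T) :
    ‖ψ w - 1‖ ≤ C / T := by
  have hR := F.Rpos
  have hT0 : 0 < T := hR.trans hT
  obtain ⟨h1, h2, -, -⟩ := F.asyψ w (by have := abs_nonneg w.im; linarith)
  have h3 : T ≤ ‖w‖ := by
    have h4 := Complex.abs_re_le_norm w
    have h5 := neg_abs_le w.re
    linarith
  have h4 : 0 < ‖1 - ψ w‖ := norm_pos_iff.2 (sub_ne_zero.2 (Ne.symm h1))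
  rw [norm_inv] at h2
  have h5 : T ≤ C * ‖1 - ψ w‖⁻¹ := h3.trans h2
  rw [norm_sub_rev, le_div_iff₀ hT0]
  calc ‖1 - ψ w‖ * T ≤ ‖1 - ψ w‖ * (C * ‖1 - ψ w‖⁻¹) := mul_le_mul_of_nonneg_left h5 h4.le
    _ = C := by field_simp

theorem uniq (F : FC g c₀ Φ ψ R C) {w w' : ℂ} (N : ℕ)
    (h : ∀ m : ℕ, N ≤ m → ψ (w - m) = ψ (w' - m)) : w = w' := by
  obtain ⟨m, hm⟩ := exists_nat_gt (max (N : ℝ) (max (w.re + R) (w'.re + R)))
  have h1 : (N : ℝ) < m := (le_max_left _ _).trans_lt hm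
  have h2 : w.re + R < m := ((le_max_left _ _).trans (le_max_right _ _)).trans_lt hm
  have h3 : w'.re + R < m := ((le_max_right _ _).trans (le_max_right _ _)).trans_lt hm
  have h4 := h m (by exact_mod_cast h1.le)
  have h5 : w - m = w' - m := by
    refine F.injψ ?_ ?_ h4
    · show (w - m).re < -R
      rw [Complex.sub_re, Complex.natCast_re]
      linarith
    · show (w' - m).re < -R
      rw [Complex.sub_re, Complex.natCast_re]
      linarith
  linear_combination h5

theorem exists_lm (F : FC g c₀ Φ ψ R C) {M : ℂ → ℂ} (hM : HM g M) (w : ℂ) :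
    ∃ w' : ℂ, ∀ m : ℕ, M (ψ (w - m)) = ψ (w' - m) := by
  refine F.back (fun m : ℕ => M (ψ (w - m))) ?_ ?_ ?_
  · intro m
    show g.eval (M (ψ (w - ((m + 1 : ℕ) : ℂ)))) = M (ψ (w - m))
    rw [← hM.comm, sem_succ F]
  · have := (hM.cont.tendsto 1).comp (F.limψ w)
    rw [hM.one] at this
    exact this
  · obtain ⟨m, hm⟩ := exists_nat_gt (w.re + R)
    refine ⟨m, fun h => ?_⟩
    have h1 : ψ (w - m) ≠ 1 := by
      apply ne_one F
      rw [Complex.sub_re, Complex.natCast_re]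
      linarith
    exact h1 (hM.inj (h.trans hM.one.symm))

theorem g_inj (g : ℂ[X]) (h1 : g.derivative.eval 1 = 1) :
    ∃ δ : ℝ, 0 < δ ∧ InjOn (fun y : ℂ => g.eval y) (ball 1 δ) := by
  have h := g.hasStrictDerivAt (1 : ℂ)
  rw [h1] at h
  have h2 := h.hasStrictFDerivAt.isLittleO
  have h3 := h2.def (show (0 : ℝ) < 1 / 2 by norm_num)
  obtain ⟨δ, hδ, hb⟩ := Metric.eventually_nhds_iff.1 h3
  refine ⟨δ, hδ, fun x hx y hy hxy => ?_⟩
  have h4 := @hb (x, y) (by
    rw [Prod.dist_eq]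
    exact max_lt hx hy)
  simp only at h4 hxy
  have h5 : ‖x - y‖ ≤ 1 / 2 * ‖x - y‖ := by
    rw [norm_sub_rev]
    simpa [hxy, norm_sub_rev x y] using h4
  have h6 : ‖x - y‖ ≤ 0 := by linarith
  exact sub_eq_zero.1 (norm_le_zero_iff.1 h6)

/-- the local form of `lm` -/
theorem local_form (F : FC g c₀ Φ ψ R C) (h1 : g.derivative.eval 1 = 1) {M : ℂ → ℂ} (hM : HM g M)
    (lm : ℂ → ℂ) (hlm : ∀ w, ∀ m : ℕ, M (ψ (w - m)) = ψ (lm w - m)) (w0 : ℂ) :
    ∃ m : ℕ, (lm w0 - m).re < -R ∧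
      ∀ᶠ x in 𝓝 w0, lm x = Function.invFunOn ψ {w | w.re < -R} (M (ψ (x - m))) + m := by
  have hU : IsOpen {w : ℂ | w.re < -R} := isOpen_lt Complex.continuous_re continuous_const
  have hUc : IsPreconnected {w : ℂ | w.re < -R} := (convex_halfSpace_re_lt (-R)).isPreconnected
  have hψ : DifferentiableOn ℂ ψ {w | w.re < -R} := F.dψ.differentiableOn
  obtain ⟨δ, hδ, hinj⟩ := g_inj g h1
  obtain ⟨δ', hδ', hMb⟩ : ∃ δ' : ℝ, 0 < δ' ∧ ∀ y : ℂ, ‖y - 1‖ < δ' → ‖M y - 1‖ < δ := by
    have h2 := hM.cont.tendsto 1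
    rw [hM.one] at h2
    obtain ⟨δ', hδ', hb⟩ := Metric.tendsto_nhds_nhds.1 h2 δ hδ
    refine ⟨δ', hδ', fun y hy => ?_⟩
    rw [← dist_eq_norm] at hy ⊢
    exact hb hy
  obtain ⟨T, hTR, hTb⟩ : ∃ T : ℝ, R < T ∧ C / T < min δ δ' := by
    have hmin : 0 < min δ δ' := lt_min hδ hδ'
    refine ⟨max (R + 1) (C / min δ δ' + 1), by
      have := le_max_left (R + 1) (C / min δ δ' + 1); linarith, ?_⟩
    have h3 : 0 < max (R + 1) (C / min δ δ' + 1) := by
      have := le_max_left (R + 1) (C / min δ δ' + 1)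
      have := F.Rpos
      linarith
    rw [div_lt_iff₀ h3]
    have h4 := le_max_right (R + 1) (C / min δ δ' + 1)
    have h5 : C / min δ δ' < max (R + 1) (C / min δ δ' + 1) := by linarith
    rw [div_lt_iff₀ hmin] at h5
    linarith
  obtain ⟨m, hm⟩ := exists_nat_gt (max (w0.re + T + 1) ((lm w0).re + T + 1))
  have hm1 : w0.re + T + 1 < m := (le_max_left _ _).trans_lt hm
  have hm2 : (lm w0).re + T + 1 < m := (le_max_right _ _).trans_lt hm
  have hmU : (lm w0 - m).re < -R := by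
    rw [Complex.sub_re, Complex.natCast_re]
    linarith
  refine ⟨m, hmU, ?_⟩
  set σ := Function.invFunOn ψ {w : ℂ | w.re < -R} with hσ
  have hmU' : (lm w0 - m) ∈ {w : ℂ | w.re < -R} := hmU
  -- continuity of the two maps
  have hc1 : ContinuousAt (fun x : ℂ => M (ψ (x - m))) w0 :=
    (hM.cont.comp (F.dψ.continuous.comp (continuous_id.sub continuous_const))).continuousAt
  have hval : M (ψ (w0 - m)) = ψ (lm w0 - m) := hlm w0 m
  have hc2 : ContinuousAt σ (M (ψ (w0 - m))) := by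
    rw [hval]
    exact inv_cont hU hUc hψ F.injψ hmU'
  have hc3 : ContinuousAt (fun x : ℂ => σ (M (ψ (x - m)))) w0 :=
    ContinuousAt.comp (f := fun x : ℂ => M (ψ (x - m))) (g := σ) hc2 hc1
  have hval3 : σ (M (ψ (w0 - m))) = lm w0 - m := by
    rw [hval]
    exact inv_left F.injψ hmU'
  have e1 : ∀ᶠ x : ℂ in 𝓝 w0, (x - m).re ≤ -T := by
    have h5 : ContinuousAt (fun x : ℂ => (x - m).re) w0 :=
      (Complex.continuous_re.comp (continuous_id.sub continuous_const)).continuousAt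
    have h6 : (w0 - m).re < -T := by
      rw [Complex.sub_re, Complex.natCast_re]
      linarith
    filter_upwards [h5.eventually_lt_const h6] with x hx using hx.le
  have e2 : ∀ᶠ x in 𝓝 w0, (σ (M (ψ (x - m)))).re ≤ -T := by
    have h5 : ContinuousAt (fun x : ℂ => (σ (M (ψ (x - m)))).re) w0 :=
      ContinuousAt.comp Complex.continuous_re.continuousAt hc3
    have h6 : (σ (M (ψ (w0 - m)))).re < -T := by
      rw [hval3, Complex.sub_re, Complex.natCast_re]
      linarith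
    filter_upwards [h5.eventually_lt_const h6] with x hx using hx.le
  have e3 : ∀ᶠ x in 𝓝 w0, M (ψ (x - m)) ∈ ψ '' {w : ℂ | w.re < -R} := by
    have h5 : IsOpen (ψ '' {w : ℂ | w.re < -R}) :=
      img_open hU hUc hψ F.injψ hmU' (Subset.refl _) hU
    have h6 : M (ψ (w0 - m)) ∈ ψ '' {w : ℂ | w.re < -R} := by
      rw [hval]
      exact ⟨_, hmU', rfl⟩
    exact hc1.eventually (h5.mem_nhds h6)
  filter_upwards [e1, e2, e3] with x hx1 hx2 hx3
  set x'' := σ (M (ψ (x - m))) with hx''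
  have hψx : ψ x'' = M (ψ (x - m)) := by
    obtain ⟨u, hu, hu2⟩ := hx3
    rw [hx'', ← hu2, hσ, inv_left F.injψ hu]
  have key : ∀ j : ℕ, ψ (x'' - j) = M (ψ (x - m - j)) := by
    intro j
    induction j with
    | zero => simpa using hψx
    | succ j ih =>
      refine hinj ?_ ?_ ?_
      · rw [mem_ball_iff_norm]
        refine (bound F hTR ?_).trans_lt (hTb.trans_le (min_le_left _ _))
        rw [Complex.sub_re, Complex.natCast_re]
        have : (0 : ℝ) ≤ ((j + 1 : ℕ) : ℝ) := Nat.cast_nonneg _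
        linarith
      · rw [mem_ball_iff_norm]
        apply hMb
        refine (bound F hTR ?_).trans_lt (hTb.trans_le (min_le_right _ _))
        rw [Complex.sub_re, Complex.natCast_re]
        have : (0 : ℝ) ≤ ((j + 1 : ℕ) : ℝ) := Nat.cast_nonneg _
        linarith
      · show g.eval (ψ (x'' - ((j + 1 : ℕ) : ℂ))) = g.eval (M (ψ (x - m - ((j + 1 : ℕ) : ℂ))))
        rw [sem_succ F, ← hM.comm, sem_succ F, ih]
  have h7 : x'' = lm x - m := by
    refine uniq F 0 fun j _ => ?_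
    rw [key j]
    have h8 := hlm x (m + j)
    have e : x - m - j = x - ((m + j : ℕ) : ℂ) := by push_cast; ring
    have e' : lm x - m - j = lm x - ((m + j : ℕ) : ℂ) := by push_cast; ring
    rw [e, e', h8]
  rw [h7]
  ring

theorem lm_cont (F : FC g c₀ Φ ψ R C) (h1 : g.derivative.eval 1 = 1) {M : ℂ → ℂ} (hM : HM g M)
    (lm : ℂ → ℂ) (hlm : ∀ w, ∀ m : ℕ, M (ψ (w - m)) = ψ (lm w - m)) : Continuous lm := by
  have hU : IsOpen {w : ℂ | w.re < -R} := isOpen_lt Complex.continuous_re continuous_const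
  have hUc : IsPreconnected {w : ℂ | w.re < -R} := (convex_halfSpace_re_lt (-R)).isPreconnected
  have hψ : DifferentiableOn ℂ ψ {w | w.re < -R} := F.dψ.differentiableOn
  rw [continuous_iff_continuousAt]
  intro w0
  obtain ⟨m, hm, he⟩ := local_form F h1 hM lm hlm w0
  refine ContinuousAt.congr ?_ (he.mono fun x hx => hx.symm)
  have hc1 : ContinuousAt (fun x : ℂ => M (ψ (x - m))) w0 :=
    (hM.cont.comp (F.dψ.continuous.comp (continuous_id.sub continuous_const))).continuousAt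
  have hc2 : ContinuousAt (Function.invFunOn ψ {w : ℂ | w.re < -R}) (M (ψ (w0 - m))) := by
    rw [hlm w0 m]
    exact inv_cont hU hUc hψ F.injψ hm
  have hc3 : ContinuousAt (fun x : ℂ => Function.invFunOn ψ {w : ℂ | w.re < -R} (M (ψ (x - m)))) w0 :=
    ContinuousAt.comp (f := fun x : ℂ => M (ψ (x - m))) (g := Function.invFunOn ψ {w : ℂ | w.re < -R})
      hc2 hc1
  exact hc3.add continuousAt_const

theorem lm_diff (F : FC g c₀ Φ ψ R C) (h1 : g.derivative.eval 1 = 1) {M : ℂ → ℂ} (hM : HM g M)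
    (lm : ℂ → ℂ) (hlm : ∀ w, ∀ m : ℕ, M (ψ (w - m)) = ψ (lm w - m)) {w0 : ℂ}
    (hd : ∀ m : ℕ, DifferentiableAt ℂ M (ψ (w0 - m))) : DifferentiableAt ℂ lm w0 := by
  have hU : IsOpen {w : ℂ | w.re < -R} := isOpen_lt Complex.continuous_re continuous_const
  have hUc : IsPreconnected {w : ℂ | w.re < -R} := (convex_halfSpace_re_lt (-R)).isPreconnected
  have hψ : DifferentiableOn ℂ ψ {w | w.re < -R} := F.dψ.differentiableOn
  obtain ⟨m, hm, he⟩ := local_form F h1 hM lm hlm w0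
  refine DifferentiableAt.congr_of_eventuallyEq ?_ he
  have hc1 : DifferentiableAt ℂ (fun x : ℂ => M (ψ (x - m))) w0 := by
    have h2 : DifferentiableAt ℂ (fun x : ℂ => ψ (x - m)) w0 :=
      DifferentiableAt.comp w0 (F.dψ (w0 - m)) (differentiableAt_id.sub_const _)
    exact DifferentiableAt.comp w0 (hd m) h2
  have hc2 : DifferentiableAt ℂ (Function.invFunOn ψ {w : ℂ | w.re < -R}) (M (ψ (w0 - m))) := by
    rw [hlm w0 m]
    exact inv_diff hU hUc hψ F.injψ hm
  have hc3 : DifferentiableAt ℂ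
      (fun x : ℂ => Function.invFunOn ψ {w : ℂ | w.re < -R} (M (ψ (x - m)))) w0 :=
    DifferentiableAt.comp (f := fun x : ℂ => M (ψ (x - m)))
      (g := Function.invFunOn ψ {w : ℂ | w.re < -R}) w0 hc2 hc1
  exact hc3.add_const _

theorem one_notMem (G1 : g.eval 1 = 1) (hc : c₀ < 1) : (1 : ℂ) ∉ Bas g c₀ := by
  rintro ⟨m, hm⟩
  have h1 : (fun z : ℂ => g.eval z)^[m] 1 = 1 := Function.iterate_fixed G1 m
  rw [h1] at hm
  have h2 : ‖(1 : ℂ) - c₀‖ = 1 - c₀ := by
    rw [show (1 : ℂ) - c₀ = ((1 - c₀ : ℝ) : ℂ) by push_cast; ring, Complex.norm_real,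
      Real.norm_eq_abs, abs_of_pos (by linarith)]
  rw [h2] at hm
  exact lt_irrefl _ hm

end LAMaux

open LAMaux

theorem t_LAM : S_LAM := by
  intro n g c₀ c φ Φ ψ R C ρ S Y₁ K0 L G P F H
  have hL1 : L 1 = 1 := H.fix 1 (one_notMem G.fix G.c1)
  have hML : HM g L := ⟨L.continuous, hL1, L.injective, H.comm⟩
  have hMS : HM g L.symm := by
    refine ⟨L.symm.continuous, ?_, L.symm.injective, fun y => ?_⟩
    · rw [Homeomorph.symm_apply_eq, hL1]
    · rw [Homeomorph.symm_apply_eq, H.comm, L.apply_symm_apply]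
  choose lmL hlmL using fun w => exists_lm F hML w
  choose lmS hlmS using fun w => exists_lm F hMS w
  have h0 : ∀ w, L (ψ w) = ψ (lmL w) := fun w => by simpa using hlmL w 0
  have hl : ∀ w, lmS (lmL w) = w := fun w => by
    refine uniq F 0 fun m _ => ?_
    rw [← hlmS, ← hlmL, L.symm_apply_apply]
  have hr : ∀ w, lmL (lmS w) = w := fun w => by
    refine uniq F 0 fun m _ => ?_
    rw [← hlmL, ← hlmS, L.apply_symm_apply]
  refine ⟨⟨⟨lmL, lmS, hl, hr⟩, lm_cont F G.der hML lmL hlmL, lm_cont F G.der hMS lmS hlmS⟩,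
    h0, fun w => ?_, ?_⟩
  · show lmL (w + 1) = lmL w + 1
    refine uniq F 1 fun m hm => ?_
    obtain ⟨k, rfl⟩ := Nat.exists_eq_add_of_le' hm
    rw [← hlmL]
    have e : w + 1 - ((k + 1 : ℕ) : ℂ) = w - k := by push_cast; ring
    have e' : lmL w + 1 - ((k + 1 : ℕ) : ℂ) = lmL w - k := by push_cast; ring
    rw [e, e', hlmL]
  · obtain ⟨Y0, hY0⟩ := F.low 1 one_pos
    refine ⟨max Y0 (Y₁ - S + 1), fun w hw => DifferentiableAt.differentiableWithinAt ?_⟩
    have hw' : w.im < -max Y0 (Y₁ - S + 1) := hw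
    show DifferentiableAt ℂ lmL w
    refine lm_diff F G.der hML lmL hlmL fun m => ?_
    have him : (w - m).im = w.im := by rw [Complex.sub_im, Complex.natCast_im, sub_zero]
    have hm1 : (w - m).im < -Y0 := by
      rw [him]
      have := le_max_left Y0 (Y₁ - S + 1)
      linarith
    obtain ⟨hb, hn⟩ := hY0 (w - m) hm1
    have hopen : IsOpen {z | z ∈ Bas g c₀ ∧ (Φ z).im < S - Y₁} := by
      have h3 : ContinuousOn (fun z => (Φ z).im) (Bas g c₀) :=
        Complex.continuous_im.comp_continuousOn F.dΦ.continuousOn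
      exact h3.isOpen_inter_preimage P.opn isOpen_Iio
    refine H.hol.differentiableAt (hopen.mem_nhds ⟨hb, ?_⟩)
    have h4 := (Complex.abs_im_le_norm (Φ (ψ (w - m)) - (w - m))).trans hn
    rw [Complex.sub_im, him] at h4
    have h5 := (abs_le.1 h4).2
    have h6 := le_max_right Y0 (Y₁ - S + 1)
    linarith

end Pool.Agent.H212.ND
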