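import Pool.Agent.H212.ND.StmC

/-!
# Project ND, job LNK: links in the coordinate `y`
-/

set_option autoImplicit false

open Filter Metric Set Topology Polynomial
open scoped ComplexConjugate

namespace Pool.Agent.H212.ND

open Pool.Agent.H212.MB

namespace LNKaux

theorem aa_pos {n : ℕ} {g : ℂ[X]} {c₀ : ℝ} {c : ℂ} (h : Good n g c₀ c) :
    0 < (g.coeff n).re ^ (1 / ((n : ℝ) - 1)) := Real.rpow_pos_of_pos h.lead _

theorem aa_ne {n : ℕ} {g : ℂ[X]} {c₀ : ℝ} {c : ℂ} (h : Good n g c₀ c) : aa n g ≠ 0 := by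
  unfold aa
  exact_mod_cast (aa_pos h).ne'

theorem aa_pow {n : ℕ} {g : ℂ[X]} {c₀ : ℝ} {c : ℂ} (h : Good n g c₀ c) :
    aa n g ^ (n - 1) = g.coeff n := by
  have h3 := h.n3
  have e1 : ((g.coeff n).re ^ (1 / ((n : ℝ) - 1))) ^ (n - 1) = (g.coeff n).re := by
    rw [← Real.rpow_natCast, ← Real.rpow_mul h.lead.le]
    have e2 : ((n - 1 : ℕ) : ℝ) = (n : ℝ) - 1 := by
      rw [Nat.cast_sub (by omega)]; simp
    have e3 : (n : ℝ) - 1 ≠ 0 := by
      have : (3 : ℝ) ≤ n := by exact_mod_cast h3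
      linarith
    rw [e2, one_div, inv_mul_cancel₀ e3, Real.rpow_one]
  have e4 : g.coeff n = (((g.coeff n).re : ℝ) : ℂ) := by
    apply Complex.ext
    · simp
    · simp [h.real n]
  unfold aa
  rw [← Complex.ofReal_pow, e1]
  exact e4.symm

theorem Fev {n : ℕ} {g : ℂ[X]} {c₀ : ℝ} {c : ℂ} {F : ℂ → RMap n} (h : Good n g c₀ c)
    (hF : Fam n g F) (y : ℂ) :
    (F (aa n g)).ev (aa n g * (y - bb n g)) = aa n g * (g.eval y - bb n g) := by
  have ha := aa_ne h
  have hc : g.coeff n ≠ 0 := by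
    rw [← aa_pow h]
    exact pow_ne_zero _ ha
  have e1 : aa n g * (y - bb n g) / aa n g + bb n g = y := by
    field_simp
    ring
  unfold RMap.ev
  rw [hF.Q, hF.ev _ _ ha, aa_pow h, div_self hc, e1, eval_one, div_one]
  unfold plam
  ring

theorem zn_ev {n : ℕ} (hn : 1 ≤ n) (z : ℂ) : (zn n).ev z = z ^ n := by
  unfold Blaschke.ev Blaschke.num Blaschke.den
  simp only [zn, sub_zero, one_mul, map_zero, zero_mul, Finset.prod_const, Finset.card_univ,
    Fintype.card_fin, one_pow, div_one]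
  rw [← pow_succ']
  congr 1
  omega

theorem isExt {n : ℕ} {g : ℂ[X]} {c₀ : ℝ} {c : ℂ} {φ : ℂ → ℂ} {F : ℂ → RMap n}
    (h : Good n g c₀ c) (hP : Pic n g c₀ φ) (hF : Fam n g F) :
    IsExt (zn n) (F (aa n g)) (fun z => aa n g * (φ z - bb n g)) := by
  have ha := aa_ne h
  refine ⟨?_, ?_, ?_, ?_⟩
  · exact (hP.bot.diff.sub_const _).const_mul _
  · intro z hz w hw hzw
    have h1 : aa n g * (φ z - bb n g) = aa n g * (φ w - bb n g) := hzw
    have h2 := mul_left_cancel₀ ha h1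
    exact hP.bot.injE hz hw (sub_left_injective h2)
  · have h1 := (hP.bot.asym.sub_const (bb n g)).const_mul (aa n g)
    rw [sub_self, mul_zero] at h1
    refine h1.congr fun z => ?_
    field_simp
    ring
  · intro z hz _
    refine ⟨by rw [hF.Q, eval_one]; exact one_ne_zero, ?_⟩
    have h3 := h.n3
    have hz' : z ∈ CExt := by
      have h4 : 1 < ‖z‖ := hz
      exact h4.le
    rw [Fev h hF, zn_ev (by omega), hP.bot.semi z hz']

end LNKaux

open LNKaux in
theorem t_LNK (h1 : MB.S_EXTU) : S_LNK := by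
  intro n g c₀ c φ F A C T K f Φ φ' hG hP hF hL
  have ha := aa_ne hG
  have h3 := hG.n3
  have hΦ : ∀ z ∈ MB.Ext, Φ z = aa n g * (φ z - bb n g) :=
    h1 n (by omega) (zn n) (F (aa n g)) Φ _ hL.extg (isExt hG hP hF)
  refine ⟨hΦ, (Homeomorph.subRight (bb n g)).trans ((Homeomorph.mulLeft₀ (aa n g) ha).trans K),
    fun y => rfl, hL.extf, ?_, ?_⟩
  · intro z hz
    change K (aa n g * (φ z - bb n g)) = φ' (T z)
    rw [← hΦ z hz]
    exact hL.out z hz
  · intro y hy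
    have hz : aa n g * (y - bb n g) ∉ Φ '' MB.Ext := by
      rintro ⟨w, hw, hwy⟩
      rw [hΦ w hw] at hwy
      exact hy ⟨w, hw, sub_left_injective (mul_left_cancel₀ ha hwy)⟩
    obtain ⟨h4, h5⟩ := hL.inn _ hz
    refine ⟨h4, ?_⟩
    change f.ev (K (aa n g * (y - bb n g))) = K (aa n g * (g.eval y - bb n g))
    rw [h5, Fev hG hF]

end Pool.Agent.H212.ND
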