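import Pool.Agent.H212.ND.StmA
import Pool.Graph.R_pool_sql_team_e98a72b3.H28.Univalent

/-!
# Project ND, job LOC (by helper357): from the end of the cylinder to a point of the Julia set
-/

set_option autoImplicit false

open Filter Metric Set Topology Polynomial
open scoped ComplexConjugate

namespace Pool.Agent.H212.ND

open Pool.Agent.H212.MB

namespace LOCaux

open Pool.Agent.H28.Univalent

theorem aa_ne {n : ℕ} {g : ℂ[X]} {c₀ : ℝ} {c : ℂ} (h : Good n g c₀ c) : aa n g ≠ 0 := by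
  unfold aa
  rw [Complex.ofReal_ne_zero]
  exact (Real.rpow_pos_of_pos h.lead _).ne'

theorem norm_tendsto {n : ℕ} {g : ℂ[X]} {c₀ : ℝ} {c : ℂ} {φ : ℂ → ℂ} (h : Good n g c₀ c)
    (hb : Bot n g c₀ φ) : Tendsto (fun z => ‖φ z‖) (cocompact ℂ) atTop := by
  have ha := aa_ne h
  have h1 : Tendsto (fun z : ℂ => ‖z / aa n g‖) (cocompact ℂ) atTop := by
    have h2 : Tendsto (fun z : ℂ => ‖z‖) (cocompact ℂ) atTop := tendsto_norm_cocompact_atTop
    have h3 := h2.atTop_div_const (norm_pos_iff.2 ha)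
    refine h3.congr fun z => ?_
    rw [norm_div]
  have h4 : Tendsto (fun z : ℂ => -‖φ z - z / aa n g‖) (cocompact ℂ) (𝓝 (-‖bb n g‖)) :=
    (hb.asym.norm).neg
  have h5 := h1.atTop_add h4
  refine tendsto_atTop_mono (fun z => ?_) h5
  have h6 : z / aa n g = φ z - (φ z - z / aa n g) := by ring
  have h7 : ‖z / aa n g‖ ≤ ‖φ z‖ + ‖φ z - z / aa n g‖ := by
    conv_lhs => rw [h6]
    exact norm_sub_le _ _
  linarith

theorem Nn_open {n : ℕ} {g : ℂ[X]} {c₀ : ℝ} {c : ℂ} {φ : ℂ → ℂ} {ρ : ℝ} (h : Good n g c₀ c)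
    (hb : Bot n g c₀ φ) (hρ : 1 < ρ) : IsOpen (Nn φ ρ) := by
  have e : Nn φ ρ = (φ '' {z | ρ ≤ ‖z‖})ᶜ := by
    ext y
    constructor
    · rintro hy ⟨z, hz, rfl⟩
      exact hy z hz rfl
    · intro hy z hz hyz
      exact hy ⟨z, hz, hyz.symm⟩
  rw [e, isOpen_compl_iff]
  have hcl : IsClosed {z : ℂ | ρ ≤ ‖z‖} := isClosed_le continuous_const continuous_norm
  have hcont : ContinuousOn φ {z : ℂ | ρ ≤ ‖z‖} := by
    refine hb.cont.mono fun z hz => ?_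
    have hz' : ρ ≤ ‖z‖ := hz
    exact (hρ.le.trans hz' : 1 ≤ ‖z‖)
  refine isClosed_of_closure_subset fun y hy => ?_
  have h1 : {z : ℂ | ‖y‖ + 1 < ‖φ z‖} ∈ cocompact ℂ :=
    (norm_tendsto h hb).eventually_gt_atTop (‖y‖ + 1)
  obtain ⟨t, ht, hts⟩ := mem_cocompact.1 h1
  have h2 : ball y 1 ∩ φ '' {z | ρ ≤ ‖z‖} ⊆ φ '' ({z | ρ ≤ ‖z‖} ∩ t) := by
    rintro _ ⟨hx, z, hz, rfl⟩
    refine ⟨z, ⟨hz, ?_⟩, rfl⟩
    by_contra hzt
    have h3 : ‖y‖ + 1 < ‖φ z‖ := hts hzt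
    have h4 : ‖φ z - y‖ < 1 := by
      rw [mem_ball, dist_eq_norm] at hx
      exact hx
    have h5 : ‖φ z‖ ≤ ‖φ z - y‖ + ‖y‖ := by
      have h6 : φ z = (φ z - y) + y := by ring
      conv_lhs => rw [h6]
      exact norm_add_le _ _
    linarith
  have h3 : IsCompact (φ '' ({z | ρ ≤ ‖z‖} ∩ t)) := by
    refine IsCompact.image_of_continuousOn (ht.inter_left hcl) (hcont.mono inter_subset_left)
  have h4 : y ∈ closure (ball y 1 ∩ φ '' {z | ρ ≤ ‖z‖}) :=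
    isOpen_ball.inter_closure ⟨mem_ball_self one_pos, hy⟩
  have h5 : y ∈ φ '' ({z | ρ ≤ ‖z‖} ∩ t) := by
    have h6 := closure_mono h2 h4
    rwa [h3.isClosed.closure_eq] at h6
  exact image_mono inter_subset_left h5

theorem Bas_sub {n : ℕ} {g : ℂ[X]} {c₀ : ℝ} {φ : ℂ → ℂ} {ρ : ℝ} (hb : Bot n g c₀ φ) (hρ : 1 < ρ) :
    Bas g c₀ ⊆ Nn φ ρ := by
  intro y hy z hz hyz
  rw [← hb.bas] at hy
  exact hy ⟨z, (hρ.le.trans hz : 1 ≤ ‖z‖), hyz.symm⟩

section transl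

variable {β : ℂ → ℂ} (hper : ∀ W, β (W + 1) = β W + 1)
include hper

theorem per_nat (m : ℕ) (W : ℂ) : β (W + m) = β W + m := by
  induction m with
  | zero => simp
  | succ m ih =>
    push_cast
    rw [← add_assoc, hper, ih, add_assoc]

theorem per_sub (m : ℕ) (W : ℂ) : β (W - m) = β W - m := by
  have h := per_nat hper m (W - m)
  rw [sub_add_cancel] at h
  rw [h]
  ring

/-- the set of the points near which `β` is the identity is translation invariant -/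
theorem O_sub (m : ℕ) {W : ℂ} (h : ∀ᶠ x in 𝓝 W, β x = x) : ∀ᶠ x in 𝓝 (W - m), β x = x := by
  have hc : Tendsto (fun x : ℂ => x + (m : ℂ)) (𝓝 (W - m)) (𝓝 W) := by
    have h1 : Continuous (fun x : ℂ => x + (m : ℂ)) := by fun_prop
    have h2 := h1.tendsto (W - m)
    rw [sub_add_cancel] at h2
    exact h2
  filter_upwards [hc.eventually h] with x hx
  rw [per_nat hper] at hx
  exact add_right_cancel hx

theorem O_add (m : ℕ) {W : ℂ} (h : ∀ᶠ x in 𝓝 (W - m), β x = x) : ∀ᶠ x in 𝓝 W, β x = x := by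
  have hc : Tendsto (fun x : ℂ => x - (m : ℂ)) (𝓝 W) (𝓝 (W - m)) := by
    have h1 : Continuous (fun x : ℂ => x - (m : ℂ)) := by fun_prop
    exact h1.tendsto W
  filter_upwards [hc.eventually h] with x hx
  rw [per_sub hper] at hx
  exact sub_left_injective hx

end transl

theorem V_sub {n : ℕ} {g : ℂ[X]} {c₀ : ℝ} {φ ψ : ℂ → ℂ} (hP : Pic n g c₀ φ)
    (hs : ∀ w, ψ (w + 1) = g.eval (ψ w)) (m : ℕ) {W : ℂ} (h : ψ W ∈ Bas g c₀) :
    ψ (W - m) ∈ Bas g c₀ := by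
  induction m with
  | zero => simpa using h
  | succ m ih =>
    have h1 : W - m = (W - ((m + 1 : ℕ) : ℂ)) + 1 := by
      push_cast
      ring
    rw [h1, hs] at ih
    exact (hP.inv _).1 ih

end LOCaux

open LOCaux Pool.Agent.H28.Univalent in
theorem t_LOC : S_LOC := by
  intro n g c₀ c φ Φ ψ R C ρ K0 β hρ hG hP hF hK hB hend
  obtain ⟨Y, hY⟩ := hend
  obtain ⟨Y', hY'⟩ := hF.low 1 one_pos
  have hNo : IsOpen (Nn φ ρ) := Nn_open hG hP.bot hρ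
  have hBN : Bas g c₀ ⊆ Nn φ ρ := Bas_sub hP.bot hρ
  have hψc : Continuous ψ := hF.dψ.continuous
  have hβc : Continuous β := β.continuous
  set V : Set ℂ := {W | ψ W ∈ Bas g c₀} with hV
  have hVo : IsOpen V := hP.opn.preimage hψc
  set U : Set ℂ := {W | W.re < -R} with hU
  have hUo : IsOpen U := isOpen_lt Complex.continuous_re continuous_const
  have hψU : InjOn ψ U := hF.injψ
  -- the low half plane
  set H : Set ℂ := {W | W.im < -(max Y Y')} with hH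
  have hHc : IsPreconnected H := (convex_halfSpace_im_lt _).isPreconnected
  have hHV : H ⊆ V := fun W hW => (hY' W (by
    have : W.im < -(max Y Y') := hW
    linarith [le_max_right Y Y'])).1
  have hHo : IsOpen H := isOpen_lt Complex.continuous_im continuous_const
  set w₁ : ℂ := ⟨-R - 2, -(max Y Y') - 1⟩ with hw₁
  have hw₁H : w₁ ∈ H := by
    change -(max Y Y') - 1 < -(max Y Y')
    linarith
  set Vo : Set ℂ := connectedComponentIn V w₁ with hVodef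
  have hVoV : Vo ⊆ V := connectedComponentIn_subset _ _
  have hVoo : IsOpen Vo := hVo.connectedComponentIn
  have hw₁Vo : w₁ ∈ Vo := mem_connectedComponentIn (hHV hw₁H)
  -- (1)
  set O : Set ℂ := {W | ∀ᶠ x in 𝓝 W, β x = x} with hO
  have hOo : IsOpen O := isOpen_setOfPred_eventually_nhds
  have hOcl : ∀ x ∈ closure O, β x = x := by
    intro x hx
    have h1 : IsClosed {x : ℂ | β x = x} := isClosed_eq hβc continuous_id
    have h2 : O ⊆ {x : ℂ | β x = x} := fun x hx => hx.self_of_nhds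
    exact closure_minimal h2 h1 hx
  have hw₁O : w₁ ∈ O := by
    filter_upwards [hHo.mem_nhds hw₁H] with x hx
    have h1 : x.im < -(max Y Y') := hx
    exact hY x (by linarith [le_max_left Y Y'])
  have hVoO : Vo ⊆ O := by
    refine isPreconnected_connectedComponentIn.subset_of_closure_inter_subset hOo
      ⟨w₁, hw₁Vo, hw₁O⟩ ?_
    rintro W ⟨hWO, hWV⟩
    obtain ⟨m, hm⟩ := exists_nat_gt (W.re + R + 1)
    refine O_add hB.per m ?_
    set W₁ : ℂ := W - m with hW₁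
    have hW₁O : W₁ ∈ closure O :=
      map_mem_closure (f := fun x : ℂ => x - (m : ℂ)) (by fun_prop) hWO
        (fun x hx => O_sub hB.per m hx)
    have hβW₁ : β W₁ = W₁ := hOcl W₁ hW₁O
    have hW₁V : ψ W₁ ∈ Bas g c₀ := V_sub hP hF.semψ m (hVoV hWV)
    have hW₁U : W₁ ∈ U := by
      change (W - m).re < -R
      rw [Complex.sub_re, Complex.natCast_re]
      linarith
    have hNo1 : IsOpen (V ∩ {x | ψ (β x) ∈ Bas g c₀} ∩ (U ∩ {x | β x ∈ U})) :=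
      (hVo.inter (hP.opn.preimage (hψc.comp hβc))).inter (hUo.inter (hUo.preimage hβc))
    have hW₁N : W₁ ∈ V ∩ {x | ψ (β x) ∈ Bas g c₀} ∩ (U ∩ {x | β x ∈ U}) := by
      refine ⟨⟨hW₁V, ?_⟩, hW₁U, ?_⟩
      · change ψ (β W₁) ∈ Bas g c₀
        rw [hβW₁]
        exact hW₁V
      · change β W₁ ∈ U
        rw [hβW₁]
        exact hW₁U
    obtain ⟨r, hr, hball⟩ := Metric.isOpen_iff.1 hNo1 W₁ hW₁N
    have hf1 : AnalyticOnNhd ℂ (fun x => K0 (ψ (β x))) (ball W₁ r) := by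
      refine DifferentiableOn.analyticOnNhd (hB.holK.mono fun x hx => ?_) isOpen_ball
      exact hBN (hball hx).1.2
    have hf2 : AnalyticOnNhd ℂ (fun x => K0 (ψ x)) (ball W₁ r) := by
      refine DifferentiableOn.analyticOnNhd ?_ isOpen_ball
      exact hK.comp hF.dψ.differentiableOn (fun x hx => (hball hx).1.1)
    obtain ⟨x₀, hx₀, hx₀O⟩ := mem_closure_iff_nhds.1 hW₁O _ (ball_mem_nhds W₁ hr)
    have heq : (fun x => K0 (ψ (β x))) =ᶠ[𝓝 x₀] fun x => K0 (ψ x) := by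
      have h1 : ∀ᶠ x in 𝓝 x₀, β x = x := hx₀O
      filter_upwards [h1] with x hx
      rw [hx]
    have h2 := hf1.eqOn_of_preconnected_of_eventuallyEq hf2
      (convex_ball W₁ r).isPreconnected hx₀ heq
    filter_upwards [ball_mem_nhds W₁ hr] with x hx
    have h3 : K0 (ψ (β x)) = K0 (ψ x) := h2 hx
    exact hψU (hball hx).2.2 (hball hx).2.1 (K0.injective h3)
  have hVocl : ∀ x ∈ closure Vo, β x = x := fun x hx => hOcl x (closure_mono hVoO hx)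
  -- (2)
  obtain ⟨τ, hτ⟩ := hF.out
  obtain ⟨w₀, hw₀L, hw₀cl, hw₀n⟩ : ∃ w₀ : ℂ, w₀.re = -R - 2 ∧ w₀ ∈ closure Vo ∧ w₀ ∉ Vo := by
    by_contra hcon
    have hLc : IsPreconnected {W : ℂ | W.re = -R - 2} := by
      have h1 : {W : ℂ | W.re = -R - 2} = {W : ℂ | W.re ≤ -R - 2} ∩ {W : ℂ | -R - 2 ≤ W.re} := by
        ext W
        exact ⟨fun h => ⟨le_of_eq h, le_of_eq (Eq.symm h)⟩, fun h => le_antisymm h.1 h.2⟩
      rw [h1]
      exact ((convex_halfSpace_re_le _).inter (convex_halfSpace_re_ge _)).isPreconnected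
    have h2 : {W : ℂ | W.re = -R - 2} ⊆ Vo := by
      refine hLc.subset_of_closure_inter_subset hVoo ⟨w₁, rfl, hw₁Vo⟩ ?_
      rintro W ⟨hW1, hW2⟩
      by_contra hW3
      exact hcon ⟨W, hW2, hW1, hW3⟩
    have h3 : (((-R - 2 : ℝ) : ℂ) + τ * Complex.I) ∈ Vo := by
      apply h2
      change (((-R - 2 : ℝ) : ℂ) + τ * Complex.I).re = -R - 2
      simp
    exact hτ _ (hVoV h3)
  have hw₀V : w₀ ∉ V := by
    intro h
    have h1 : IsOpen (connectedComponentIn V w₀) := hVo.connectedComponentIn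
    obtain ⟨x, hx1, hx2⟩ := mem_closure_iff_nhds.1 hw₀cl _ (h1.mem_nhds (mem_connectedComponentIn h))
    have h2 := connectedComponentIn_eq hx1
    have h3 := connectedComponentIn_eq hx2
    apply hw₀n
    rw [hVodef, h3, ← h2]
    exact mem_connectedComponentIn h
  have hβw₀ : β w₀ = w₀ := hVocl w₀ hw₀cl
  have hw₀U : w₀ ∈ U := by
    change w₀.re < -R
    rw [hw₀L]
    linarith
  set z₀ : ℂ := ψ w₀ with hz₀
  have hz₀B : z₀ ∉ Bas g c₀ := hw₀V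
  have hz₀cl : z₀ ∈ closure (Bas g c₀) := map_mem_closure hψc hw₀cl (fun x hx => hVoV hx)
  have hExto : IsOpen MB.Ext := isOpen_lt continuous_const continuous_norm
  have hφE : IsOpen (φ '' MB.Ext) := isOpen_image hExto hP.bot.diff hP.bot.injE
  have hEC : MB.Ext ⊆ CExt := fun z hz => le_of_lt (show 1 < ‖z‖ from hz)
  have hdisj : ∀ y ∈ φ '' MB.Ext, y ∉ closure (Bas g c₀) := by
    intro y hy hy2
    obtain ⟨x, hx1, hx2⟩ := mem_closure_iff_nhds.1 hy2 _ (hφE.mem_nhds hy)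
    rw [← hP.bot.bas] at hx2
    exact hx2 (image_mono hEC hx1)
  have hcompl : ∀ y, y ∉ φ '' MB.Ext → y ∈ closure (Bas g c₀) := by
    intro y hy
    by_cases hyB : y ∈ Bas g c₀
    · exact subset_closure hyB
    · rw [← hP.bot.bas, notMem_compl_iff] at hyB
      obtain ⟨z, hz, rfl⟩ := hyB
      have hz1 : 1 ≤ ‖z‖ := hz
      rcases hz1.eq_or_lt with h1 | h1
      · exact hP.bot.clos z h1.symm
      · exact absurd ⟨z, h1, rfl⟩ hy
  obtain ⟨ζ₀, hζ₀1, hζ₀⟩ : ∃ ζ₀ : ℂ, ‖ζ₀‖ = 1 ∧ φ ζ₀ = z₀ := by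
    have h1 := hz₀B
    rw [← hP.bot.bas, notMem_compl_iff] at h1
    obtain ⟨z, hz, hzz⟩ := h1
    have hz1 : 1 ≤ ‖z‖ := hz
    rcases hz1.eq_or_lt with h2 | h2
    · exact ⟨z, h2.symm, hzz⟩
    · exact absurd hz₀cl (hdisj z₀ ⟨z, h2, hzz⟩)
  have hz₀N : z₀ ∈ Nn φ ρ := by
    intro z hz hzz
    rw [← hζ₀] at hzz
    exact hP.bot.disj z (lt_of_lt_of_le hρ hz) ζ₀ hζ₀1 hzz.symm
  -- (3)
  set B' : Set ℂ := U ∩ ({x | β x ∈ U} ∩ {x | ψ (β x) ∈ Nn φ ρ}) with hB'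
  have hB'o : IsOpen B' :=
    hUo.inter ((hUo.preimage hβc).inter (hNo.preimage (hψc.comp hβc)))
  have hB'U : B' ⊆ U := inter_subset_left
  have hw₀B' : w₀ ∈ B' := by
    refine ⟨hw₀U, ?_, ?_⟩
    · change β w₀ ∈ U
      rw [hβw₀]
      exact hw₀U
    · change ψ (β w₀) ∈ Nn φ ρ
      rw [hβw₀]
      exact hz₀N
  have hψB' : IsOpen (ψ '' B') :=
    isOpen_image hB'o hF.dψ.differentiableOn (hψU.mono hB'U)
  obtain ⟨ε, hε, hεB⟩ := Metric.isOpen_iff.1 hψB' z₀ ⟨w₀, hw₀B', rfl⟩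
  set σ : ℂ → ℂ := Function.invFunOn ψ U with hσ
  have hσψ : ∀ x ∈ U, σ (ψ x) = x := fun x hx => hψU.leftInvOn_invFunOn hx
  have hσ1 : ∀ y ∈ ball z₀ ε, σ y ∈ B' ∧ ψ (σ y) = y := by
    intro y hy
    obtain ⟨x, hx, rfl⟩ := hεB hy
    rw [hσψ x (hB'U hx)]
    exact ⟨hx, rfl⟩
  have hσd : DifferentiableOn ℂ σ (ball z₀ ε) := by
    refine (inv_differentiableOn hUo hF.dψ.differentiableOn hψU).mono fun y hy => ?_
    obtain ⟨x, hx, rfl⟩ := hεB hy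
    exact ⟨x, hB'U hx, rfl⟩
  have hσc : ContinuousOn σ (ball z₀ ε) := hσd.continuousOn
  obtain ⟨δ, hδ, hlc⟩ := hP.lc ζ₀ hζ₀1 ε hε
  rw [hζ₀] at hlc
  set δ' : ℝ := min δ ε with hδ'
  have hδ'0 : 0 < δ' := lt_min hδ hε
  have hδ'δ : ball z₀ δ' ⊆ ball z₀ δ := ball_subset_ball (min_le_left _ _)
  have hδ'ε : ball z₀ δ' ⊆ ball z₀ ε := ball_subset_ball (min_le_right _ _)
  obtain ⟨x₁, hx₁B, hx₁V⟩ : ∃ x₁, x₁ ∈ B' ∩ {x | ψ x ∈ ball z₀ δ'} ∧ x₁ ∈ Vo := by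
    have h1 : IsOpen (B' ∩ {x | ψ x ∈ ball z₀ δ'}) := hB'o.inter (isOpen_ball.preimage hψc)
    have h2 : w₀ ∈ B' ∩ {x | ψ x ∈ ball z₀ δ'} := ⟨hw₀B', mem_ball_self hδ'0⟩
    obtain ⟨x, hx1, hx2⟩ := mem_closure_iff_nhds.1 hw₀cl _ (h1.mem_nhds h2)
    exact ⟨x, hx1, hx2⟩
  have hσx₁ : σ (ψ x₁) = x₁ := hσψ x₁ (hB'U hx₁B.1)
  have claim1 : ∀ y ∈ Bas g c₀ ∩ ball z₀ δ', σ y ∈ Vo := by
    rintro y ⟨hyB, hyδ⟩
    obtain ⟨S, hSc, hSB, hyS, hy1S⟩ := hlc y ⟨hyB, hδ'δ hyδ⟩ (ψ x₁) ⟨hVoV hx₁V, hδ'δ hx₁B.2⟩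
    have h1 : IsPreconnected (σ '' S) := hSc.image σ (hσc.mono fun s hs => (hSB hs).2)
    have h2 : σ '' S ⊆ V := by
      rintro _ ⟨s, hs, rfl⟩
      change ψ (σ s) ∈ Bas g c₀
      rw [(hσ1 s (hSB hs).2).2]
      exact (hSB hs).1
    have h3 : x₁ ∈ σ '' S := ⟨ψ x₁, hy1S, hσx₁⟩
    have h4 := h1.subset_connectedComponentIn h3 h2
    rw [← connectedComponentIn_eq hx₁V] at h4
    exact h4 ⟨y, hyS, rfl⟩
  have claim2 : ∀ y ∈ closure (Bas g c₀) ∩ ball z₀ δ', β (σ y) = σ y := by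
    rintro y ⟨hyB, hyδ⟩
    have h1 : y ∈ closure (ball z₀ δ' ∩ Bas g c₀) := isOpen_ball.inter_closure ⟨hyδ, hyB⟩
    obtain ⟨u, hu1, hu2⟩ := mem_closure_iff_seq_limit.1 h1
    have h2 : ContinuousAt σ y := hσc.continuousAt (isOpen_ball.mem_nhds (hδ'ε hyδ))
    have h3 : Tendsto (fun k => σ (u k)) atTop (𝓝 (σ y)) := h2.tendsto.comp hu2
    have h4 : Tendsto (fun k => β (σ (u k))) atTop (𝓝 (β (σ y))) :=
      (hβc.tendsto (σ y)).comp h3
    have h5 : (fun k => β (σ (u k))) = fun k => σ (u k) := by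
      funext k
      exact hVocl _ (subset_closure (claim1 (u k) ⟨(hu1 k).2, (hu1 k).1⟩))
    rw [h5] at h4
    exact tendsto_nhds_unique h4 h3
  -- (4)
  have hσz₀ : σ z₀ = w₀ := hσψ w₀ hw₀U
  have hcont : ContinuousAt (fun y => ψ (β (σ y))) z₀ :=
    (hψc.comp hβc).continuousAt.comp
      (hσc.continuousAt (isOpen_ball.mem_nhds (mem_ball_self hε)))
  have hval : ψ (β (σ z₀)) = z₀ := by rw [hσz₀, hβw₀]
  obtain ⟨r₀, hr₀, hr₀b⟩ : ∃ r₀ : ℝ, 0 < r₀ ∧ ∀ y ∈ ball z₀ r₀, ψ (β (σ y)) ∈ ball z₀ δ' := by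
    have h1 : ∀ᶠ y in 𝓝 z₀, ψ (β (σ y)) ∈ ball z₀ δ' := by
      have h0 : ball z₀ δ' ∈ 𝓝 (ψ (β (σ z₀))) := by
        rw [hval]
        exact isOpen_ball.mem_nhds (mem_ball_self hδ'0)
      exact hcont.eventually_mem h0
    obtain ⟨r₀, h2, h3⟩ := Metric.eventually_nhds_iff_ball.1 h1
    exact ⟨r₀, h2, h3⟩
  set r : ℝ := min r₀ δ' with hr
  have hr0 : 0 < r := lt_min hr₀ hδ'0
  have hrr : ball z₀ r ⊆ ball z₀ r₀ := ball_subset_ball (min_le_left _ _)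
  have hrδ : ball z₀ r ⊆ ball z₀ δ' := ball_subset_ball (min_le_right _ _)
  have hrε : ball z₀ r ⊆ ball z₀ ε := hrδ.trans hδ'ε
  refine ⟨ζ₀, r, fun y => K0 (ψ (β (σ y))), hζ₀1, hr0, ?_, ?_, ?_⟩
  · rw [hζ₀]
    refine DifferentiableOn.comp (g := fun W => K0 (ψ (β W))) (f := σ) hB.holK (hσd.mono hrε) ?_
    intro y hy
    exact (hσ1 y (hrε hy)).1.2.2
  · rw [hζ₀]
    intro y hy y' hy' hyy
    obtain ⟨h1, h2⟩ := hσ1 y (hrε hy)
    obtain ⟨h1', h2'⟩ := hσ1 y' (hrε hy')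
    have h3 : ψ (β (σ y)) = ψ (β (σ y')) := K0.injective hyy
    have h4 : β (σ y) = β (σ y') := hψU h1.2.1 h1'.2.1 h3
    have h5 : σ y = σ y' := β.injective h4
    rw [← h2, ← h2', h5]
  · rw [hζ₀]
    intro y hy
    obtain ⟨h1, h2⟩ := hσ1 y (hrε hy)
    constructor
    · intro hyE
      have h3 := claim2 y ⟨hcompl y hyE, hrδ hy⟩
      change K0 (ψ (β (σ y))) = K0 y
      rw [h3, h2]
    · intro hyE
      have h3 : ψ (β (σ y)) ∈ ball z₀ δ' := hr₀b y (hrr hy)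
      refine ⟨ψ (β (σ y)), ?_, rfl⟩
      by_contra h4
      have h5 := claim2 _ ⟨hcompl _ h4, h3⟩
      obtain ⟨h6, h7⟩ := hσ1 _ (hδ'ε h3)
      have h8 : β (σ (ψ (β (σ y)))) = β (σ y) := by
        refine hψU ?_ h1.2.1 ?_
        · exact h6.2.1
        · rw [h5, h7]
      have h9 : σ (ψ (β (σ y))) = σ y := β.injective h8
      have h10 : ψ (β (σ y)) = y := by
        rw [← h7, h9, h2]
      rw [h10] at h4
      exact h4 hyE

end Pool.Agent.H212.ND
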