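import Pool.Agent.H212.ND.StmC
import Pool.Graph.R_seed8.Helper240.ZFM.ConvA

/-!
From the links to the self-conjugacy `L`.
-/

set_option autoImplicit false

open Filter Metric Set Topology Polynomial
open scoped ComplexConjugate

namespace Pool.Agent.H212.ND

open Pool.Agent.H212.MB

namespace LSSaux

variable {n : ℕ} {A : Blaschke n} {T : ℂ ≃ₜ ℂ} {g : ℂ[X]} {φ : ℂ → ℂ} {f : RMap n} {φ' : ℂ → ℂ}
  {K0 KS : ℂ ≃ₜ ℂ} {c₀ : ℝ}

theorem eqExt (h0 : Lnk A T g φ f φ' K0) (hS : Lnk A T g φ f φ' KS) {z : ℂ} (hz : z ∈ MB.Ext) :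
    KS (φ z) = K0 (φ z) := by
  rw [h0.out z hz, hS.out z hz]

theorem eqCExt (hφ : ContinuousOn φ CExt) (h0 : Lnk A T g φ f φ' K0) (hS : Lnk A T g φ f φ' KS)
    {z : ℂ} (hz : z ∈ CExt) : KS (φ z) = K0 (φ z) := by
  have hz' : 1 ≤ ‖z‖ := hz
  have hz0 : 0 < ‖z‖ := by linarith
  -- the sequence `(1 + 1/(k+1)) z`
  set s : ℕ → ℂ := fun k => ((1 + 1 / ((k : ℝ) + 1) : ℝ) : ℂ) * z with hs
  have hsE : ∀ k, s k ∈ MB.Ext := by
    intro k
    have h1 : (0 : ℝ) < 1 / ((k : ℝ) + 1) := by positivity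
    show 1 < ‖s k‖
    rw [hs]
    simp only
    rw [norm_mul, Complex.norm_real, Real.norm_eq_abs, abs_of_pos (by linarith)]
    nlinarith
  have hsC : ∀ k, s k ∈ CExt := fun k => (show 1 ≤ ‖s k‖ from le_of_lt (hsE k))
  have hlim : Tendsto s atTop (𝓝 z) := by
    have h1 : Tendsto (fun k : ℕ => (1 + 1 / ((k : ℝ) + 1) : ℝ)) atTop (𝓝 (1 + 0)) :=
      tendsto_const_nhds.add tendsto_one_div_add_atTop_nhds_zero_nat
    have h2 : Tendsto (fun k : ℕ => ((1 + 1 / ((k : ℝ) + 1) : ℝ) : ℂ)) atTop (𝓝 ((1 + 0 : ℝ) : ℂ)) :=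
      (Complex.continuous_ofReal.tendsto _).comp h1
    have h3 := h2.mul_const z
    rw [add_zero, Complex.ofReal_one, one_mul] at h3
    exact h3
  have hφs : Tendsto (fun k => φ (s k)) atTop (𝓝 (φ z)) := by
    have h1 := hφ z hz
    exact h1.tendsto.comp (tendsto_nhdsWithin_iff.2 ⟨hlim, Eventually.of_forall hsC⟩)
  have hK0 : Tendsto (fun k => K0 (φ (s k))) atTop (𝓝 (K0 (φ z))) :=
    (K0.continuous.tendsto _).comp hφs
  have hKS : Tendsto (fun k => KS (φ (s k))) atTop (𝓝 (KS (φ z))) :=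
    (KS.continuous.tendsto _).comp hφs
  have he : (fun k => KS (φ (s k))) = fun k => K0 (φ (s k)) := funext fun k => eqExt h0 hS (hsE k)
  rw [he] at hKS
  exact tendsto_nhds_unique hKS hK0

/-- the inverse of an injective holomorphic map -/
theorem symm_diff (U : Set ℂ) (hU : IsOpen U) (K : ℂ ≃ₜ ℂ) (hK : DifferentiableOn ℂ K U) {y : ℂ}
    (hy : y ∈ U) : DifferentiableAt ℂ K.symm (K y) := by
  have h1 : deriv K y ≠ 0 :=
    Pool.Agent.Helper405.Conv.deriv_ne_zero_of_injOn hU hK K.injective.injOn hy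
  have h2 : HasDerivAt K (deriv K y) (K.symm (K y)) := by
    rw [K.symm_apply_apply]
    exact (hK.differentiableAt (hU.mem_nhds hy)).hasDerivAt
  have h3 : HasDerivAt K.symm (deriv K y)⁻¹ (K y) :=
    HasDerivAt.of_local_left_inverse K.symm.continuous.continuousAt h2 h1
      (Eventually.of_forall fun w => K.apply_symm_apply w)
  exact h3.differentiableAt

end LSSaux

open LSSaux in
theorem t_LSS : S_LSS := by
  intro n g c₀ c φ Φ ψ A T f φ' K0 KS S Y₁ ρ hg hp h0 hd0 hS hdS hlav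
  set L : ℂ ≃ₜ ℂ := KS.trans K0.symm with hL
  have hLy : ∀ y, L y = K0.symm (KS y) := fun y => rfl
  have hK0L : ∀ y, K0 (L y) = KS y := fun y => by rw [hLy, K0.apply_symm_apply]
  have hLs : ∀ y, L.symm y = KS.symm (K0 y) := fun y => rfl
  have hfix : ∀ z ∈ CExt, L (φ z) = φ z := by
    intro z hz
    rw [hLy, eqCExt hp.bot.cont h0 hS hz, K0.symm_apply_apply]
  have hfixB : ∀ y, y ∉ Bas g c₀ → L y = y := by
    intro y hy
    rw [← hp.bot.bas, mem_compl_iff, not_not] at hy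
    obtain ⟨z, hz, rfl⟩ := hy
    exact hfix z hz
  -- `L` preserves the basin
  have hLB : ∀ y ∈ Bas g c₀, L y ∈ Bas g c₀ := by
    intro y hy
    by_contra hcon
    have h1 := hfixB _ hcon
    have h2 := L.injective h1
    rw [h2] at hcon
    exact hcon hy
  have hLsB : ∀ y ∈ Bas g c₀, L.symm y ∈ Bas g c₀ := by
    intro y hy
    by_contra hcon
    have h1 := hfixB _ hcon
    rw [L.apply_symm_apply] at h1
    rw [← h1] at hcon
    exact hcon hy
  have hExt : ∀ z : ℂ, z ∈ MB.Ext → z ∈ CExt := fun z hz => le_of_lt (show 1 < ‖z‖ from hz)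
  refine ⟨L, hfixB, ?_, ?_, ?_⟩
  · intro y
    by_cases hy : y ∈ φ '' MB.Ext
    · obtain ⟨z, hz, rfl⟩ := hy
      have hz1 : 1 < ‖z‖ := hz
      have hzn : z ^ n ∈ CExt := by
        show 1 ≤ ‖z ^ n‖
        rw [norm_pow]
        exact one_le_pow₀ hz1.le
      rw [hp.bot.semi z (hExt z hz), hfix _ hzn, hfix _ (hExt z hz), hp.bot.semi z (hExt z hz)]
    · have hLyn : L y ∉ φ '' MB.Ext := by
        rintro ⟨z, hz, he⟩
        apply hy
        refine ⟨z, hz, ?_⟩
        apply L.injective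
        rw [hfix _ (hExt z hz), he]
      have h1 := (hS.inn y hy).2
      have h2 := (h0.inn (L y) hLyn).2
      rw [hK0L] at h2
      apply K0.injective
      rw [hK0L, ← h1, h2]
  · intro z hz
    have hzB := hz.1
    have h1 : DifferentiableAt ℂ K0.symm (K0 (L z)) :=
      symm_diff _ hp.opn K0 hd0 (hLB z hzB)
    rw [hK0L] at h1
    have h2 := hdS z hz
    exact h1.comp_differentiableWithinAt z h2
  · have he : (fun z => K0 (L (ψ (Φ (L.symm z) - Complex.I * S)))) =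
        (fun x => KS (ψ (Φ (KS.symm x) - Complex.I * S))) ∘ K0 := by
      funext z
      rw [hK0L]
      rfl
    rw [he]
    refine hlav.comp (hd0.mono fun z hz => hz.1) ?_
    intro z hz
    refine ⟨L.symm z, ⟨hLsB z hz.1, hz.2⟩, ?_⟩
    rw [hLs, KS.apply_symm_apply]

end Pool.Agent.H212.ND
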