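import Pool.Agent.H212.ND.StmC
import Pool.Agent.H212.MB.Stm3

/-! # ND MAI: uniqueness of the partners implies that `A` is a rotation of `z ^ n` (helper746) -/

set_option autoImplicit false

open Filter Metric Set Topology Polynomial
open scoped ComplexConjugate

namespace Pool.Agent.H212.ND

open Pool.Agent.H212.MB

namespace MAIaux

theorem zn_ev {n : ℕ} (hn : 1 ≤ n) (z : ℂ) : (zn n).ev z = z ^ n := by
  unfold Blaschke.ev Blaschke.num Blaschke.den zn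
  simp only [sub_zero, map_zero, zero_mul, Finset.prod_const_one, div_one, one_mul,
    Finset.prod_const, Finset.card_univ, Fintype.card_fin]
  rw [← pow_succ']
  congr 1
  omega

end MAIaux

theorem t_MAI (h1 : S_PIC) (h2 : S_FCC') (h3 : S_RDL) (h4 : S_TNL) (h5 : S_AMN) (h6 : S_LSS)
    (h7 : S_REF) (h8 : S_TIN) (h9 : MB.S_REL) : S_MAI := by
  intro n g c₀ c F A hG hF hU
  obtain ⟨φ, hφ⟩ := h1 n g c₀ c hG
  obtain ⟨Φ, ψ, R, C', hFC⟩ := h2 n g c₀ c hG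
  have hn3 : 3 ≤ n := hG.n3
  obtain ⟨_, _, _, _, _, k, C, T, hk0, hk1, hT, hlk⟩ := h9 n (by omega) A
  have hTRL : TRL A k C T := ⟨hk0, hk1, hT, hlk⟩
  obtain ⟨f, φ', K0, hE, hL0, hK0⟩ := h3 n g c₀ c φ F A k C T hG hφ hF hTRL
  obtain ⟨S₁, Y₁, ρ, _, hρ, hS⟩ :=
    h4 n g c₀ c φ Φ ψ R C' F A k C T f φ' hG hφ hFC hF hTRL hU hE hL0.ext
  have hC : Concl g c₀ φ K0 := by
    refine h5 n g c₀ c φ Φ ψ R C' ρ S₁ Y₁ K0 hρ hG hφ hFC hK0 fun S hSS => ?_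
    obtain ⟨KS, hLS, hd1, hd2⟩ := hS S hSS
    exact h6 n g c₀ c φ Φ ψ A T f φ' K0 KS S Y₁ ρ hG hφ hL0 hK0 hLS hd1 hd2
  obtain ⟨t, x₀, δ, hδ, htc, htm, htp, htT, htC⟩ := h7 n g c₀ c φ A k T f φ' K0 hG hφ hT hL0 hC
  refine h8 n A t (x₀ - δ) (x₀ + δ) (by omega) (by linarith) htc htm htp (fun x => ?_) htC
  obtain ⟨ρ', hρ', hsemi⟩ := hT.semi
  have hnorm : ‖Complex.exp (x * Complex.I)‖ = 1 := Complex.norm_exp_ofReal_mul_I x
  have h := (hsemi (Complex.exp (x * Complex.I)) (by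
    rw [hnorm]
    exact inv_lt_one_of_one_lt₀ hρ') (by rw [hnorm]; exact hρ')).2.2
  rw [MAIaux.zn_ev (by omega), ← Complex.exp_nat_mul] at h
  have e : (n : ℂ) * (x * Complex.I) = ((n * x : ℝ) : ℂ) * Complex.I := by
    push_cast
    ring
  rw [e, htT, htT] at h
  exact h

end Pool.Agent.H212.ND
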