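import Pool.Agent.H212.ND.StmM

set_option autoImplicit false

open Filter Metric Set Topology Polynomial
open scoped ComplexConjugate

namespace Pool.Agent.H212.ND

open Pool.Agent.H212.MB

namespace MEMaux

lemma coeff_ne {n : ℕ} {g : ℂ[X]} {c₀ : ℝ} {c : ℂ} (hg : Good n g c₀ c) : g.coeff n ≠ 0 := by
  intro h
  have := hg.lead
  rw [h] at this
  simp at this

lemma coeff_real {n : ℕ} {g : ℂ[X]} {c₀ : ℝ} {c : ℂ} (hg : Good n g c₀ c) :
    g.coeff n = (((g.coeff n).re : ℝ) : ℂ) := by
  apply Complex.ext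
  · simp
  · simpa using hg.real n

lemma aa_pow {n : ℕ} {g : ℂ[X]} {c₀ : ℝ} {c : ℂ} (hg : Good n g c₀ c) : aa n g ^ (n - 1) = g.coeff n := by
  have hn := hg.n3
  have hn1 : ((n - 1 : ℕ) : ℝ) = (n : ℝ) - 1 := by
    rw [Nat.cast_sub (by omega)]; simp
  have hn0 : (n : ℝ) - 1 ≠ 0 := by
    have : (3 : ℝ) ≤ n := by exact_mod_cast hn
    linarith
  conv_rhs => rw [coeff_real hg]
  unfold aa
  rw [← Complex.ofReal_pow]
  congr 1
  rw [← Real.rpow_natCast, ← Real.rpow_mul hg.lead.le, hn1, one_div, inv_mul_cancel₀ hn0, Real.rpow_one]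

lemma aa_ne {n : ℕ} {g : ℂ[X]} {c₀ : ℝ} {c : ℂ} (hg : Good n g c₀ c) : aa n g ≠ 0 := by
  unfold aa
  exact_mod_cast (Real.rpow_pos_of_pos hg.lead _).ne'

/-- `X ^ n` is the mating of `z ^ n` and `z ^ n` -/
lemma zero_mem {n : ℕ} (hn : 1 ≤ n) (f : RMap n) (hP : f.P = X ^ n) (hQ : f.Q = 1) : f ∈ BB (zn n) := by
  have hev : ∀ z : ℂ, (zn n).ev z = z ^ n := by
    intro z
    unfold Blaschke.ev Blaschke.num Blaschke.den zn
    simp
    rw [← pow_succ']
    congr 1
    omega
  have hf : ∀ z : ℂ, f.Q.eval z ≠ 0 ∧ f.ev z = z ^ n := by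
    intro z
    unfold RMap.ev
    rw [hP, hQ]
    simp
  refine ⟨zn n, fun z => z, fun z => z, fun x => x, ?_⟩
  exact
    { ext := ⟨differentiableOn_id, fun x _ y _ h => h, by simp,
        fun z _ _ => ⟨(hf z).1, by rw [(hf z).2, hev]⟩⟩
      contφ := continuousOn_id
      diffψ := differentiableOn_id
      contψ := continuousOn_id
      injψ := fun x _ y _ h => h
      semiψ := fun z _ => ⟨(hf z).1, by rw [(hf z).2, hev]⟩
      compl := by
        ext z
        simp [MB.Ext]
      conth := continuous_id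
      monoh := strictMono_id
      perh := fun x => rfl
      glue := fun x => rfl
      mark := rfl }

/-- the set of the parameters with `F a ∈ BB (zn n)` is open -/
lemma open_par (hO : S_OPE) (hR : MB.S_RTOP) {n : ℕ} (hn : 2 ≤ n) {g : ℂ[X]} {F : ℂ → RMap n}
    (hF : Fam n g F) : IsOpen {a : ℂ | F a ∈ BB (zn n)} := by
  rw [isOpen_iff_mem_nhds]
  intro a ha
  obtain ⟨ε, hε, h⟩ := hO n hn (F a) ha
  have hc : ∀ j, Tendsto (fun a' => (F a').P.coeff j) (𝓝 a) (𝓝 ((F a).P.coeff j)) := by
    intro j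
    have := (((hR n).2 ℂ (𝓝 a) F (F a)).1.1 (hF.cont.tendsto a)).1 j
    exact this
  have hall : ∀ᶠ a' in 𝓝 a, ∀ j ∈ Finset.range n, ‖(F a').P.coeff j - (F a).P.coeff j‖ < ε := by
    rw [Filter.eventually_all_finset]
    intro j _
    have h1 := (Metric.tendsto_nhds.1 (hc j)) ε hε
    filter_upwards [h1] with a' ha'
    rwa [dist_eq_norm] at ha'
  filter_upwards [hall] with a' ha'
  exact h (F a') (hF.Q a') (hF.cen a') fun j hj => ha' j (Finset.mem_range.2 hj)

/-- the set of the parameters with `F a ∈ BB (zn n)` is closed at good parameters -/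
lemma closed_par (hC : S_CLO) {n : ℕ} {g : ℂ[X]} {c₀ : ℝ} {c : ℂ} (hg : Good n g c₀ c) {F : ℂ → RMap n}
    (hF : Fam n g F) {a : ℂ} (ha : a ≠ 0) (hl : ‖a ^ (n - 1) / g.coeff n‖ < 1) {K : Set ℂ} (hK : IsCompact K)
    (hKc : IsPreconnected K) (h1 : (1 : ℂ) ∈ K) (hcr : ∀ z, g.derivative.eval z = 0 → z ∈ K)
    (hit : ∀ z ∈ K, Tendsto (fun m => (plam g (a ^ (n - 1) / g.coeff n))^[m] z) atTop (𝓝 1))
    (s : ℕ → ℂ) (hs : ∀ k, F (s k) ∈ BB (zn n)) (hsa : Tendsto s atTop (𝓝 a)) : F a ∈ BB (zn n) := by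
  set lam : ℂ := a ^ (n - 1) / g.coeff n with hlam
  set b : ℂ := bb n g with hb
  have hlam0 : lam ≠ 0 := div_ne_zero (pow_ne_zero _ ha) (coeff_ne hg)
  set L : ℂ → ℂ := fun y => a * (y - b) with hL
  have hLc : Continuous L := by fun_prop
  have hLi : ∀ z : ℂ, L (z / a + b) = z := by
    intro z
    simp only [hL]
    field_simp
    ring
  have hLi' : ∀ y : ℂ, L y / a + b = y := by
    intro y
    simp only [hL]
    field_simp
    ring
  have hev : ∀ z : ℂ, (F a).P.eval z = L (plam g lam (z / a + b)) := fun z => hF.ev a z ha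
  have hder : ∀ z : ℂ, (F a).P.derivative.eval z = lam * g.derivative.eval (z / a + b) := by
    intro z
    have d1 := (F a).P.hasDerivAt z
    have d2 : HasDerivAt (fun z : ℂ => L (plam g lam (z / a + b)))
        (a * (lam * (g.derivative.eval (z / a + b) * (1 / a)))) z := by
      have e1 : HasDerivAt (fun z : ℂ => z / a + b) (1 / a) z := ((hasDerivAt_id z).div_const a).add_const b
      have e2 := (g.hasDerivAt (z / a + b)).comp z e1
      have e3 := ((e2.sub_const (1 : ℂ)).const_mul lam).const_add (1 : ℂ)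
      have e4 := (e3.sub_const b).const_mul a
      exact e4
    have d3 : (fun z : ℂ => (F a).P.eval z) = fun z : ℂ => L (plam g lam (z / a + b)) := funext hev
    rw [d3] at d1
    have := d1.unique d2
    rw [this]
    field_simp
  have hiter : ∀ (m : ℕ) (y : ℂ), (fun w : ℂ => (F a).P.eval w)^[m] (L y) = L ((plam g lam)^[m] y) := by
    intro m
    induction m with
    | zero => intro y; rfl
    | succ m ih =>
      intro y
      rw [Function.iterate_succ_apply, Function.iterate_succ_apply]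
      have : (F a).P.eval (L y) = L (plam g lam y) := by rw [hev, hLi']
      simp only [this]
      exact ih _
  have hn := hg.n3
  refine hC n (by omega) (fun k => F (s k)) (F a) (L '' K) (L 1) hs ((hF.cont.tendsto a).comp hsa) (hK.image hLc)
    (hKc.image _ hLc.continuousOn) (mem_image_of_mem _ h1) ?_ ?_ ?_ ?_
  · rw [hev, hLi']
    unfold plam
    rw [hg.fix]
    simp
  · rw [hder, hLi', hg.der, mul_one]
    exact hl
  · intro z hz
    rw [hder] at hz
    have h := (mul_eq_zero.1 hz).resolve_left hlam0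
    exact ⟨z / a + b, hcr _ h, hLi z⟩
  · rintro _ ⟨y, hy, rfl⟩
    simp only [hiter]
    exact (hLc.tendsto 1).comp (hit y hy)

end MEMaux

open MEMaux in
theorem t_MEM (hR : MB.S_RTOP) (hO : S_OPE) (hC : S_CLO) (hCE : S_CERT) : S_MEM := by
  intro n g c₀ c F hg hF
  have hn := hg.n3
  have hopen := open_par hO hR (by omega : 2 ≤ n) hF
  have hn1 : (n - 1 : ℂ) ≠ 0 := by
    have : (3 : ℝ) ≤ n := by exact_mod_cast hn
    have h : ((n : ℝ) - 1) ≠ 0 := by linarith
    exact_mod_cast h
  -- part one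
  have part1 : ∀ t : ℝ, 0 < t → t < 1 → F (t * aa n g) ∈ BB (zn n) := by
    set u : Set ℝ := {t : ℝ | F (t * aa n g) ∈ BB (zn n)} with hu
    have huo : IsOpen u := hopen.preimage (by fun_prop : Continuous fun t : ℝ => (t : ℂ) * aa n g)
    have h0 : (0 : ℝ) ∈ u := by
      show F (((0 : ℝ) : ℂ) * aa n g) ∈ BB (zn n)
      rw [Complex.ofReal_zero, zero_mul]
      exact zero_mem (by omega) (F 0) hF.zero (hF.Q 0)
    have hsub : Ico (0 : ℝ) 1 ⊆ u := by
      refine isPreconnected_Ico.subset_of_closure_inter_subset huo ⟨0, ⟨le_rfl, one_pos⟩, h0⟩ ?_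
      rintro t ⟨htc, ht0, ht1⟩
      rcases eq_or_lt_of_le ht0 with h | htpos
      · rw [← h]; exact h0
      obtain ⟨x, hx, hxt⟩ := mem_closure_iff_seq_limit.1 htc
      have ha : (t : ℂ) * aa n g ≠ 0 := mul_ne_zero (by exact_mod_cast htpos.ne') (aa_ne hg)
      have hlam : ((t : ℂ) * aa n g) ^ (n - 1) / g.coeff n = ((t ^ (n - 1) : ℝ) : ℂ) := by
        rw [mul_pow, aa_pow hg, mul_div_assoc, div_self (coeff_ne hg), mul_one]
        push_cast
        rfl
      have hlt : t ^ (n - 1) < 1 := pow_lt_one₀ htpos.le ht1 (by omega)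
      have hl0 : 0 < t ^ (n - 1) := by positivity
      set lam : ℝ := t ^ (n - 1) with hlamdef
      have hgd : ∀ y : ℂ, ‖y‖ ≤ 1 → ‖g.eval y‖ ≤ 1 := by
        intro y hy
        by_cases h : y = 1
        · rw [h, hg.fix]; simp
        · have h1 := hg.disc y hy h
          have h2 : ‖g.eval y‖ ≤ ‖g.eval y - c₀‖ + ‖(c₀ : ℂ)‖ := by
            have := norm_add_le (g.eval y - c₀) (c₀ : ℂ)
            simpa using this
          rw [Complex.norm_real, Real.norm_eq_abs, abs_of_pos hg.c0] at h2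
          linarith
      have hpd : ∀ y : ℂ, ‖y‖ ≤ 1 → ‖plam g lam y‖ ≤ 1 ∧ ‖plam g lam y - 1‖ ≤ lam * ‖y - 1‖ := by
        intro y hy
        constructor
        · have e : plam g lam y = ((1 - lam : ℝ) : ℂ) + (lam : ℂ) * g.eval y := by
            unfold plam; push_cast; ring
          rw [e]
          refine (norm_add_le _ _).trans ?_
          rw [norm_mul, Complex.norm_real, Complex.norm_real, Real.norm_eq_abs, Real.norm_eq_abs,
            abs_of_pos (by linarith), abs_of_pos hl0]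
          have := hgd y hy
          nlinarith
        · have e : plam g lam y - 1 = (lam : ℂ) * (g.eval y - 1) := by
            unfold plam; ring
          rw [e, norm_mul, Complex.norm_real, Real.norm_eq_abs, abs_of_pos hl0]
          have := hg.lip y hy
          gcongr
      have hiter : ∀ (m : ℕ) (y : ℂ), ‖y‖ ≤ 1 → ‖(plam g lam)^[m] y‖ ≤ 1 ∧
          ‖(plam g lam)^[m] y - 1‖ ≤ lam ^ m * ‖y - 1‖ := by
        intro m
        induction m with
        | zero => intro y hy; simpa using hy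
        | succ m ih =>
          intro y hy
          obtain ⟨i1, i2⟩ := ih y hy
          rw [Function.iterate_succ_apply']
          obtain ⟨j1, j2⟩ := hpd _ i1
          refine ⟨j1, j2.trans ?_⟩
          calc lam * ‖(plam g lam)^[m] y - 1‖ ≤ lam * (lam ^ m * ‖y - 1‖) := by gcongr
            _ = lam ^ (m + 1) * ‖y - 1‖ := by ring
      refine closed_par hC hg hF ha ?_ (K := closedBall 0 1) (isCompact_closedBall 0 1)
        (convex_closedBall 0 1).isPreconnected (by simp) ?_ ?_ (fun k => (x k : ℂ) * aa n g) hx ?_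
      · rw [hlam, Complex.norm_real, Real.norm_eq_abs, abs_of_pos hl0]
        exact hlt
      · intro z hz
        rw [mem_closedBall_zero_iff]
        exact (hg.crit z hz).1.le
      · intro z hz
        rw [mem_closedBall_zero_iff] at hz
        rw [hlam]
        rw [tendsto_iff_norm_sub_tendsto_zero]
        refine squeeze_zero (fun m => norm_nonneg _) (fun m => (hiter m z hz).2) ?_
        have := (tendsto_pow_atTop_nhds_zero_of_lt_one hl0.le hlt).mul_const ‖z - 1‖
        rwa [zero_mul] at this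
      · exact ((Complex.continuous_ofReal.tendsto t).comp hxt).mul_const _
    intro t ht0 ht1
    exact hsub ⟨ht0.le, ht1⟩
  refine ⟨part1, ?_⟩
  obtain ⟨S₀, hS₀, hcert⟩ := hCE n g c₀ c hg
  refine ⟨S₀, hS₀, ?_⟩
  intro P hPim hPre
  have him : P.im < 0 := by linarith
  set PP : ℝ → ℂ := fun τ => ⟨τ * P.re, P.im⟩ with hPP
  have hPPne : ∀ τ, PP τ ≠ 0 := by
    intro τ h
    have := congrArg Complex.im h
    simp [hPP] at this
    linarith
  have hPPc : Continuous PP := by
    have : PP = fun τ : ℝ => ((τ * P.re : ℝ) : ℂ) + (P.im : ℂ) * Complex.I := by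
      funext τ
      apply Complex.ext <;> simp [hPP]
    rw [this]
    fun_prop
  have hapc : Continuous fun τ => ap n g (PP τ) := by
    unfold ap
    refine continuous_const.mul (Complex.continuous_exp.comp ?_)
    refine continuous_const.div (continuous_const.mul hPPc) ?_
    intro τ
    exact mul_ne_zero hn1 (hPPne τ)
  have hap : ∀ Q : ℂ, Q ≠ 0 → (ap n g Q) ^ (n - 1) / g.coeff n = Complex.exp (2 * Real.pi * Complex.I / Q) := by
    intro Q hQ
    unfold ap
    rw [mul_pow, aa_pow hg, mul_comm, mul_div_assoc, div_self (coeff_ne hg), mul_one, ← Complex.exp_nat_mul]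
    congr 1
    rw [Nat.cast_sub (by omega), Nat.cast_one]
    field_simp
  set u : Set ℝ := {τ : ℝ | F (ap n g (PP τ)) ∈ BB (zn n)} with hu
  have huo : IsOpen u := hopen.preimage hapc
  have h0 : (0 : ℝ) ∈ u := by
    show F (ap n g (PP 0)) ∈ BB (zn n)
    have e0 : PP 0 = (P.im : ℂ) * Complex.I := by
      apply Complex.ext <;> simp [hPP]
    have hnr : (0 : ℝ) < (n : ℝ) - 1 := by
      have : (3 : ℝ) ≤ n := by exact_mod_cast hn
      linarith
    have e1 : ap n g (PP 0) = ((Real.exp (2 * Real.pi / (((n : ℝ) - 1) * P.im)) : ℝ) : ℂ) * aa n g := by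
      unfold ap
      rw [e0, mul_comm (aa n g)]
      congr 1
      rw [Complex.ofReal_exp]
      congr 1
      push_cast
      have him' : (P.im : ℂ) ≠ 0 := by exact_mod_cast him.ne
      have hI := Complex.I_ne_zero
      field_simp
    rw [e1]
    refine part1 _ (Real.exp_pos _) ?_
    rw [Real.exp_lt_one_iff]
    exact div_neg_of_pos_of_neg (by positivity) (mul_neg_of_pos_of_neg hnr him)
  have hsub : Icc (0 : ℝ) 1 ⊆ u := by
    refine isPreconnected_Icc.subset_of_closure_inter_subset huo ⟨0, ⟨le_rfl, zero_le_one⟩, h0⟩ ?_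
    rintro τ ⟨hτc, hτ0, hτ1⟩
    obtain ⟨x, hx, hxt⟩ := mem_closure_iff_seq_limit.1 hτc
    obtain ⟨K, hK, hKc, hK1, hKcr, hKit⟩ := hcert (PP τ) hPim (mul_nonpos_of_nonneg_of_nonpos hτ0 hPre)
    have ha : ap n g (PP τ) ≠ 0 := mul_ne_zero (aa_ne hg) (Complex.exp_ne_zero _)
    have hlam := hap (PP τ) (hPPne τ)
    refine closed_par hC hg hF ha ?_ hK hKc hK1 hKcr ?_ (fun k => ap n g (PP (x k))) hx ?_
    · rw [hlam, Complex.norm_exp, Real.exp_lt_one_iff]
      have hns : 0 < Complex.normSq (PP τ) := Complex.normSq_pos.2 (hPPne τ)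
      have e : (2 * Real.pi * Complex.I / PP τ).re = 2 * Real.pi * (P.im / Complex.normSq (PP τ)) := by
        rw [Complex.div_re]
        simp [hPP]
        ring
      rw [e]
      exact mul_neg_of_pos_of_neg (by positivity) (div_neg_of_neg_of_pos him hns)
    · intro z hz
      rw [hlam]
      exact hKit z hz
    · exact (hapc.tendsto τ).comp hxt
  have h1 := hsub (⟨zero_le_one, le_rfl⟩ : (1 : ℝ) ∈ Icc (0 : ℝ) 1)
  have e : PP 1 = P := by
    apply Complex.ext <;> simp [hPP]
  have h1' : F (ap n g (PP 1)) ∈ BB (zn n) := h1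
  rwa [e] at h1'

end Pool.Agent.H212.ND
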