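import Pool.Agent.H212.ND.StmN

set_option autoImplicit false

open Filter Metric Set Topology Polynomial
open scoped ComplexConjugate

namespace Pool.Agent.H212.ND

open Pool.Agent.H212.MB

namespace ORAaux

theorem sq_exp_sub_one {a : ℝ} (h : |a| ≤ 1) : a ^ 2 / 4 ≤ (1 - Real.exp a) ^ 2 := by
  rcases le_or_gt 0 a with h0 | h0
  · have := Real.add_one_le_exp a
    nlinarith
  · have h1 : Real.exp a ≤ 1 + a / 2 := by
      have h2 := Real.add_one_le_exp (-a)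
      have h3 : Real.exp a * Real.exp (-a) = 1 := by rw [← Real.exp_add]; simp
      have h4 : 0 < Real.exp a := Real.exp_pos a
      have h5 : -1 ≤ a := (abs_le.1 h).1
      have h6 : Real.exp a * (1 - a) ≤ (1 + a / 2) * (1 - a) := by nlinarith
      exact le_of_mul_le_mul_right h6 (by linarith)
    nlinarith

theorem norm_sq_one_sub_exp (w : ℂ) : ‖1 - Complex.exp w‖ ^ 2 =
    (1 - Real.exp w.re) ^ 2 + 2 * Real.exp w.re * (1 - Real.cos w.im) := by
  rw [← Complex.normSq_eq_norm_sq, Complex.normSq_apply]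
  have h1 : (1 - Complex.exp w).re = 1 - Real.exp w.re * Real.cos w.im := by
    rw [Complex.sub_re, Complex.one_re, Complex.exp_re]
  have h2 : (1 - Complex.exp w).im = - (Real.exp w.re * Real.sin w.im) := by
    rw [Complex.sub_im, Complex.one_im, Complex.exp_im, zero_sub]
  rw [h1, h2]
  have h3 := Real.sin_sq_add_cos_sq w.im
  linear_combination Real.exp w.re ^ 2 * h3

theorem lowexp' {w : ℂ} {δ : ℝ} (h0 : 0 ≤ δ) (h1 : δ ≤ 1) (hw : |w.im| ≤ Real.pi) (h : δ ≤ ‖w‖) :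
    δ / 3 ≤ ‖1 - Complex.exp w‖ := by
  have hn := norm_sq_one_sub_exp w
  have hc := Real.cos_le_one_sub_mul_cos_sq hw
  have he := Real.exp_pos w.re
  have hpi := Real.pi_pos
  have hpi2 : Real.pi ^ 2 ≤ 12 := by nlinarith [Real.pi_lt_d2]
  have hcc : 0 ≤ 1 - Real.cos w.im := by linarith [Real.cos_le_one w.im]
  rcases le_or_gt 1 |w.re| with h2 | h2
  · have h3 : 1 / 2 ≤ |1 - Real.exp w.re| := by
      rcases le_abs.1 h2 with h4 | h4
      · have := Real.add_one_le_exp w.re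
        rw [abs_sub_comm]
        refine le_trans ?_ (le_abs_self _)
        linarith
      · refine le_trans ?_ (le_abs_self _)
        have h5 : Real.exp w.re ≤ Real.exp (-1) := Real.exp_le_exp.2 (by linarith)
        have h6 : Real.exp (-1) ≤ 1 / 2 := by
          rw [Real.exp_neg, inv_eq_one_div]
          apply one_div_le_one_div_of_le (by norm_num)
          have := Real.add_one_le_exp 1
          linarith
        linarith
    have h4 : (1 / 2) ^ 2 ≤ ‖1 - Complex.exp w‖ ^ 2 := by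
      rw [hn, ← sq_abs (1 - Real.exp w.re)]
      have h5 : (1 / 2 : ℝ) ^ 2 ≤ |1 - Real.exp w.re| ^ 2 := pow_le_pow_left₀ (by norm_num) h3 2
      have h6 : 0 ≤ 2 * Real.exp w.re * (1 - Real.cos w.im) := by positivity
      linarith
    have h5 := (pow_le_pow_iff_left₀ (by norm_num) (norm_nonneg _) two_ne_zero).1 h4
    linarith
  · have h3 := sq_exp_sub_one h2.le
    have h4 : 1 / 3 ≤ Real.exp w.re := by
      have h5 : Real.exp (-1) ≤ Real.exp w.re := Real.exp_le_exp.2 (by linarith [(abs_lt.1 h2).1])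
      have h6 : 1 / 3 ≤ Real.exp (-1) := by
        rw [Real.exp_neg, inv_eq_one_div]
        apply one_div_le_one_div_of_le (Real.exp_pos _)
        linarith [Real.exp_one_lt_d9]
      linarith
    have h5 : 2 / 12 * w.im ^ 2 ≤ 1 - Real.cos w.im := by
      have h6 : 2 / 12 * w.im ^ 2 ≤ 2 / Real.pi ^ 2 * w.im ^ 2 := by
        apply mul_le_mul_of_nonneg_right _ (sq_nonneg _)
        exact div_le_div_of_nonneg_left (by norm_num) (by positivity) hpi2
      linarith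
    have h6 : w.im ^ 2 / 9 ≤ 2 * Real.exp w.re * (1 - Real.cos w.im) := by
      nlinarith [sq_nonneg w.im, mul_le_mul_of_nonneg_right h4 hcc]
    have h7 : (δ / 3) ^ 2 ≤ ‖1 - Complex.exp w‖ ^ 2 := by
      have h8 : δ ^ 2 ≤ ‖w‖ ^ 2 := pow_le_pow_left₀ h0 h 2
      rw [← Complex.normSq_eq_norm_sq w, Complex.normSq_apply] at h8
      rw [hn]
      nlinarith [sq_nonneg w.re, sq_nonneg w.im]
    exact (pow_le_pow_iff_left₀ (by positivity) (norm_nonneg _) two_ne_zero).1 h7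

theorem lowexp {w : ℂ} {δ : ℝ} (h0 : 0 ≤ δ) (h1 : δ ≤ 1)
    (h : ∀ k : ℤ, δ ≤ ‖w - k * (2 * Real.pi * Complex.I)‖) : δ / 3 ≤ ‖1 - Complex.exp w‖ := by
  have hpi := Real.pi_pos
  set k := round (w.im / (2 * Real.pi)) with hk
  have e : Complex.exp w = Complex.exp (w - k * (2 * Real.pi * Complex.I)) := by
    rw [Complex.exp_sub, Complex.exp_int_mul_two_pi_mul_I, div_one]
  rw [e]
  apply lowexp' h0 h1 _ (h k)
  have e2 : (w - k * (2 * Real.pi * Complex.I)).im = w.im - k * (2 * Real.pi) := by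
    simp
  rw [e2]
  have h2 := abs_sub_round (w.im / (2 * Real.pi))
  rw [← hk] at h2
  have e3 : w.im - k * (2 * Real.pi) = (w.im / (2 * Real.pi) - k) * (2 * Real.pi) := by
    field_simp
  rw [e3, abs_mul, abs_of_pos (by positivity : 0 < 2 * Real.pi)]
  nlinarith

theorem real_eval {p : ℂ[X]} (h : ∀ i, (p.coeff i).im = 0) : (p.eval 1).im = 0 := by
  rw [Polynomial.eval_eq_sum_range, Complex.im_sum]
  apply Finset.sum_eq_zero
  intro i _
  rw [one_pow, mul_one]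
  exact h i

theorem real_der {p : ℂ[X]} (h : ∀ i, (p.coeff i).im = 0) : ∀ i, (p.derivative.coeff i).im = 0 := by
  intro i
  rw [Polynomial.coeff_derivative]
  have e : ((i : ℂ) + 1) = (((i : ℝ) + 1 : ℝ) : ℂ) := by push_cast; rfl
  rw [e, Complex.im_mul_ofReal, h, zero_mul]

theorem div_real {a b : ℂ} (ha : a.im = 0) (hb : b.im = 0) : (a / b).im = 0 := by
  rw [Complex.div_im, ha, hb]
  simp

theorem mul_real {a b : ℂ} (ha : a.im = 0) (hb : b.im = 0) : (a * b).im = 0 := by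
  rw [Complex.mul_im, ha, hb]
  simp

theorem al_real {n : ℕ} {g : ℂ[X]} {c₀ : ℝ} {c : ℂ} (h : Good n g c₀ c) : (al g).im = 0 := by
  unfold al
  exact div_real (real_eval (real_der (real_der h.real))) (by simp)

theorem ka_real {n : ℕ} {g : ℂ[X]} {c₀ : ℝ} {c : ℂ} (h : Good n g c₀ c) : (ka g).im = 0 := by
  have h2 : (al g ^ 2).im = 0 := by
    rw [sq]
    exact mul_real (al_real h) (al_real h)
  unfold ka ga
  apply div_real _ h2
  rw [Complex.sub_im, h2, div_real (real_eval (real_der (real_der (real_der h.real)))) (by simp)]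
  simp


theorem ell_mul {P : ℂ} {N S : ℝ} (hP : P = -(N : ℂ) - Complex.I * S) (hS : 0 < S) :
    P ≠ 0 ∧ 2 * Real.pi * Complex.I / P =
      ((2 * Real.pi / (N ^ 2 + S ^ 2) : ℝ) : ℂ) * (-(S : ℂ) - Complex.I * N) := by
  have hP0 : P ≠ 0 := by
    intro h
    have := congrArg Complex.im (hP.symm.trans h)
    simp at this
    exact hS.ne' this
  refine ⟨hP0, ?_⟩
  have hne : ((N : ℂ) ^ 2 + (S : ℂ) ^ 2) ≠ 0 := by
    have : (N ^ 2 + S ^ 2 : ℝ) ≠ 0 := by positivity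
    exact_mod_cast this
  have key : (-(S : ℂ) - Complex.I * N) * P = Complex.I * ((N : ℂ) ^ 2 + (S : ℂ) ^ 2) := by
    rw [hP]
    linear_combination ((S : ℂ) * N) * Complex.I_sq
  rw [div_eq_iff hP0]
  push_cast
  rw [mul_assoc (2 * (Real.pi : ℂ) / ((N : ℂ) ^ 2 + (S : ℂ) ^ 2)), key]
  field_simp

theorem ell_re {P : ℂ} {N S : ℝ} (hP : P = -(N : ℂ) - Complex.I * S) (hS : 0 < S) (Z : ℂ) :
    (2 * Real.pi * Complex.I / P * Z).re =
      2 * Real.pi / (N ^ 2 + S ^ 2) * (N * Z.im - S * Z.re) := by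
  rw [(ell_mul hP hS).2, mul_assoc, Complex.re_ofReal_mul]
  congr 1
  rw [Complex.mul_re]
  simp
  ring

theorem norm_P {P : ℂ} {N S : ℝ} (hP : P = -(N : ℂ) - Complex.I * S) : ‖P‖ ^ 2 = N ^ 2 + S ^ 2 := by
  rw [← Complex.normSq_eq_norm_sq, Complex.normSq_apply, hP]
  simp
  ring

theorem norm_P' {P : ℂ} {N S : ℝ} (hP : P = -(N : ℂ) - Complex.I * S) :
    ‖P‖ = Real.sqrt (N ^ 2 + S ^ 2) := by
  rw [← norm_P hP, Real.sqrt_sq (norm_nonneg _)]

theorem le_norm_P {P : ℂ} {N S : ℝ} (hP : P = -(N : ℂ) - Complex.I * S) (hN : 0 ≤ N) (hS : 0 < S) :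
    N ≤ ‖P‖ ∧ S ≤ ‖P‖ := by
  have h := norm_P hP
  constructor
  · exact (pow_le_pow_iff_left₀ hN (norm_nonneg _) two_ne_zero).1 (by nlinarith)
  · exact (pow_le_pow_iff_left₀ hS.le (norm_nonneg _) two_ne_zero).1 (by nlinarith)

/-- the region avoids the cuts -/
theorem slit {P : ℂ} {N S Y : ℝ} (hP : P = -(N : ℂ) - Complex.I * S) (hN : 0 ≤ N) (hS : 2 ≤ S)
    (hY : 2 ≤ Y) {Z : ℂ} (hx : 0 < Z.re) (hy : Z.im ≤ S - Y / 2 + Z.re / (4 * ‖P‖)) :
    1 - Complex.exp (2 * Real.pi * Complex.I / P * Z) ∈ Complex.slitPlane := by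
  have hS0 : 0 < S := by linarith
  have hP0 := (ell_mul hP hS0).1
  have hpi := Real.pi_pos
  obtain ⟨hNP, hSP⟩ := le_norm_P hP hN hS0
  have hP1 : 0 < ‖P‖ := by linarith
  rw [Complex.mem_slitPlane_iff]
  by_contra hcon
  push Not at hcon
  obtain ⟨h1, h2⟩ := hcon
  rw [Complex.sub_re, Complex.one_re] at h1
  rw [Complex.sub_im, Complex.one_im, zero_sub, neg_eq_zero] at h2
  obtain ⟨w, hw⟩ : ∃ w, w = 2 * Real.pi * Complex.I / P * Z := ⟨_, rfl⟩
  rw [← hw] at h1 h2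
  obtain ⟨r, hr⟩ : ∃ r, r = (Complex.exp w).re := ⟨_, rfl⟩
  have hr1 : 1 ≤ r := by rw [hr]; linarith
  have hexp : Complex.exp w = Complex.exp ((Real.log r : ℝ) : ℂ) := by
    rw [← Complex.ofReal_exp, Real.exp_log (by linarith)]
    apply Complex.ext
    · rw [Complex.ofReal_re, hr]
    · rw [Complex.ofReal_im, h2]
  obtain ⟨n, hn⟩ := Complex.exp_eq_exp_iff_exists_int.1 hexp
  obtain ⟨τ, hτ⟩ : ∃ τ : ℝ, τ = Real.log r / (2 * Real.pi) := ⟨_, rfl⟩
  have hτ0 : 0 ≤ τ := by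
    rw [hτ]
    exact div_nonneg (Real.log_nonneg hr1) (by positivity)
  have hlog : Real.log r = 2 * Real.pi * τ := by
    rw [hτ]
    field_simp
  have hZ : Z = P * ((n : ℂ) - Complex.I * τ) := by
    have h3 : 2 * Real.pi * Complex.I / P * Z = 2 * Real.pi * Complex.I * ((n : ℂ) - Complex.I * τ) := by
      rw [← hw, hn, hlog]
      push_cast
      linear_combination (2 * (Real.pi : ℂ) * τ) * Complex.I_sq
    have hc : (2 * Real.pi * Complex.I : ℂ) ≠ 0 := by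
      simp [hpi.ne']
    have h4 : 2 * Real.pi * Complex.I * (Z / P) =
        2 * Real.pi * Complex.I * ((n : ℂ) - Complex.I * τ) := by
      rw [← h3]
      ring
    have h5 := mul_left_cancel₀ hc h4
    rw [← h5]
    field_simp
  have hre : Z.re = -(N * n) - S * τ := by
    rw [hZ, hP]
    simp [Complex.mul_re]
  have him : Z.im = N * τ - S * n := by
    rw [hZ, hP]
    simp [Complex.mul_im]
    ring
  have hn1 : n ≤ -1 := by
    by_contra h
    push Not at h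
    have h3 : (0 : ℤ) ≤ n := by omega
    have h4 : (0 : ℝ) ≤ n := by exact_mod_cast h3
    have h5 : 0 ≤ N * n := mul_nonneg hN h4
    have h6 : 0 ≤ S * τ := mul_nonneg hS0.le hτ0
    linarith
  have hn2 : (n : ℝ) ≤ -1 := by exact_mod_cast hn1
  have h3 : Z.re / (4 * ‖P‖) ≤ -n / 4 := by
    rw [div_le_iff₀ (by positivity)]
    have h4 : Z.re ≤ N * (-n) := by
      have h6 : 0 ≤ S * τ := mul_nonneg hS0.le hτ0
      linarith
    have h5 : N * (-(n : ℝ)) ≤ ‖P‖ * (-n) := mul_le_mul_of_nonneg_right hNP (by linarith)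
    linarith
  have h4 : 0 ≤ N * τ := mul_nonneg hN hτ0
  have h5 : S * (-(n : ℝ)) ≤ S - Y / 2 + -n / 4 := by linarith
  have h6 : 2 * (-(n : ℝ) - 1) ≤ S * (-(n : ℝ) - 1) := mul_le_mul_of_nonneg_right hS (by linarith)
  linarith

/-- the exponential is bounded on the region -/
theorem exp_bd {P : ℂ} {N S Y : ℝ} (hP : P = -(N : ℂ) - Complex.I * S) (hN : 0 ≤ N) (hS : 2 ≤ S)
    (hY : 0 ≤ Y) {Z : ℂ} (hx : 0 < Z.re) (hy : Z.im ≤ S - Y / 2 + Z.re / (4 * ‖P‖)) :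
    ‖Complex.exp (2 * Real.pi * Complex.I / P * Z)‖ ≤ 30 := by
  have hS0 : 0 < S := by linarith
  have hpi := Real.pi_pos
  obtain ⟨hNP, hSP⟩ := le_norm_P hP hN hS0
  have hP1 : 0 < ‖P‖ := by linarith
  have hsq : 0 < N ^ 2 + S ^ 2 := by positivity
  rw [Complex.norm_exp, ell_re hP hS0]
  have h1 : N * Z.im - S * Z.re ≤ (N ^ 2 + S ^ 2) / 2 := by
    have h2 : N * Z.im ≤ N * (S - Y / 2 + Z.re / (4 * ‖P‖)) := mul_le_mul_of_nonneg_left hy hN
    have h3 : N * (Z.re / (4 * ‖P‖)) ≤ Z.re / 4 := by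
      have e : N * (Z.re / (4 * ‖P‖)) = Z.re / 4 * (N / ‖P‖) := by field_simp
      rw [e]
      apply mul_le_of_le_one_right (by positivity)
      rw [div_le_one hP1]
      exact hNP
    have h4 : 0 ≤ N * (Y / 2) := by positivity
    nlinarith [sq_nonneg (N - S), mul_le_mul_of_nonneg_right hS hx.le]
  have h2 : 2 * Real.pi / (N ^ 2 + S ^ 2) * (N * Z.im - S * Z.re) ≤ Real.pi := by
    calc 2 * Real.pi / (N ^ 2 + S ^ 2) * (N * Z.im - S * Z.re)
        ≤ 2 * Real.pi / (N ^ 2 + S ^ 2) * ((N ^ 2 + S ^ 2) / 2) :=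
          mul_le_mul_of_nonneg_left h1 (by positivity)
      _ = Real.pi := by field_simp
  have h3 : Real.exp Real.pi ≤ 30 := by
    have h4 : Real.exp Real.pi ≤ Real.exp (1 + 1 + 1 + 1 / 5) :=
      Real.exp_le_exp.2 (by linarith [Real.pi_lt_d2])
    rw [Real.exp_add, Real.exp_add, Real.exp_add] at h4
    have h5 := Real.exp_one_lt_d9
    have h6 : Real.exp (1 / 5) ≤ 5 / 4 := by
      have h7 := Real.add_one_le_exp (-(1 / 5 : ℝ))
      have h8 : Real.exp (1 / 5) * Real.exp (-(1 / 5 : ℝ)) = 1 := by rw [← Real.exp_add]; simp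
      have h9 : 0 < Real.exp (1 / 5 : ℝ) := Real.exp_pos _
      nlinarith
    have h7 : 0 < Real.exp 1 := Real.exp_pos 1
    have h8 : Real.exp 1 * Real.exp 1 * Real.exp 1 ≤ 2.72 * 2.72 * 2.72 := by
      have h9 : Real.exp 1 ≤ 2.72 := by linarith
      gcongr
    have h10 : Real.exp 1 * Real.exp 1 * Real.exp 1 * Real.exp (1 / 5) ≤ 2.72 * 2.72 * 2.72 * (5 / 4) :=
      mul_le_mul h8 h6 (Real.exp_pos _).le (by norm_num)
    refine h4.trans (h10.trans ?_)
    norm_num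
  exact (Real.exp_le_exp.2 h2).trans h3

/-- `WW` and the identity have almost the same imaginary part -/
theorem imWW {n : ℕ} {g : ℂ[X]} {c₀ : ℝ} {c : ℂ} (hg : Good n g c₀ c) {P : ℂ} (hP : 7 ≤ ‖P‖) {Z : ℂ}
    (h30 : ‖Complex.exp (2 * Real.pi * Complex.I / P * Z)‖ ≤ 30) (hd : ∀ j : ℤ, 1 ≤ ‖Z - j * P‖) :
    |(WW g P Z).im - Z.im| ≤ 400 * ‖ka g‖ := by
  have hpi := Real.pi_pos
  have hP1 : 0 < ‖P‖ := by linarith
  have hP0 : P ≠ 0 := norm_pos_iff.1 hP1
  obtain ⟨l, hl⟩ : ∃ l, l = 2 * Real.pi * Complex.I / P := ⟨_, rfl⟩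
  rw [← hl] at h30
  have hnl : ‖l‖ = 2 * Real.pi / ‖P‖ := by
    rw [hl, norm_div, norm_mul, norm_mul, Complex.norm_I, Complex.norm_real, Real.norm_eq_abs,
      abs_of_pos hpi]
    simp
  have hl0 : 0 < ‖l‖ := by rw [hnl]; positivity
  have hl1 : ‖l‖ ≤ 1 := by
    rw [hnl, div_le_one hP1]
    linarith [Real.pi_lt_d2]
  have hlne : l ≠ 0 := norm_pos_iff.1 hl0
  obtain ⟨u, hu⟩ : ∃ u, u = (Complex.exp l - 1) / l := ⟨_, rfl⟩
  have hu1 : ‖u - 1‖ ≤ ‖l‖ := by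
    have h1 := Complex.norm_exp_sub_one_sub_id_le hl1
    have e : u - 1 = (Complex.exp l - 1 - l) / l := by
      rw [hu]
      field_simp
    rw [e, norm_div, div_le_iff₀ hl0]
    nlinarith
  have hu2 : ‖u ^ 2 - 1‖ ≤ 3 * ‖l‖ := by
    have e : u ^ 2 - 1 = (u - 1) * ((u - 1) + 2) := by ring
    rw [e, norm_mul]
    have h2 : ‖(u - 1) + 2‖ ≤ 3 := by
      refine (norm_add_le _ _).trans ?_
      have : ‖(2 : ℂ)‖ = 2 := by simp
      linarith
    nlinarith [norm_nonneg (u - 1)]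
  have hK : KP g P = ka g * u ^ 2 := by
    rw [KP, ka, hu, ← hl]
    field_simp
  have hKk : ‖KP g P - ka g‖ ≤ 3 * ‖ka g‖ * ‖l‖ := by
    have e : KP g P - ka g = ka g * (u ^ 2 - 1) := by rw [hK]; ring
    rw [e, norm_mul]
    nlinarith [norm_nonneg (ka g)]
  have hKim : |(KP g P).im| ≤ 3 * ‖ka g‖ * ‖l‖ := by
    have e : (KP g P).im = (KP g P - ka g).im := by rw [Complex.sub_im, ka_real hg, sub_zero]
    rw [e]
    exact (Complex.abs_im_le_norm _).trans hKk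
  have hKre : |(KP g P).re| ≤ 4 * ‖ka g‖ := by
    refine (Complex.abs_re_le_norm _).trans ?_
    have h3 : ‖KP g P‖ ≤ ‖KP g P - ka g‖ + ‖ka g‖ := by
      have := norm_add_le (KP g P - ka g) (ka g)
      rwa [sub_add_cancel] at this
    have h4 : 3 * ‖ka g‖ * ‖l‖ ≤ 3 * ‖ka g‖ := mul_le_of_le_one_right (by positivity) hl1
    linarith
  obtain ⟨om, hom⟩ : ∃ om, om = Complex.exp (l * Z) := ⟨_, rfl⟩
  rw [← hom] at h30
  have hlow : ‖l‖ / 3 ≤ ‖1 - om‖ := by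
    rw [hom]
    apply lowexp hl0.le hl1
    intro k
    have e : l * Z - k * (2 * Real.pi * Complex.I) = l * (Z - k * P) := by
      have h5 : l * P = 2 * Real.pi * Complex.I := by
        rw [hl]
        field_simp
      rw [← h5]
      ring
    rw [e, norm_mul]
    exact le_mul_of_one_le_right hl0.le (hd k)
  have hpos : 0 < ‖1 - om‖ := lt_of_lt_of_le (by positivity) hlow
  have hup : ‖1 - om‖ ≤ 31 := by
    refine (norm_sub_le _ _).trans ?_
    rw [norm_one]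
    linarith
  obtain ⟨L, hL⟩ : ∃ L, L = Complex.log (1 - om) + om := ⟨_, rfl⟩
  have hLim : |L.im| ≤ 34 := by
    rw [hL, Complex.add_im]
    refine (abs_add_le _ _).trans ?_
    have h5 : |(Complex.log (1 - om)).im| ≤ Real.pi := by
      rw [Complex.log_im]
      exact Complex.abs_arg_le_pi _
    have h6 := (Complex.abs_im_le_norm om).trans h30
    linarith [Real.pi_lt_d2]
  have hLre : ‖l‖ * |L.re| ≤ 63 := by
    have h5 : |(Complex.log (1 - om)).re| ≤ 3 / ‖l‖ + 30 := by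
      rw [Complex.log_re, abs_le]
      constructor
      · have h6 : Real.log (‖1 - om‖⁻¹) ≤ ‖1 - om‖⁻¹ - 1 := Real.log_le_sub_one_of_pos (by positivity)
        rw [Real.log_inv] at h6
        have h7 : ‖1 - om‖⁻¹ ≤ 3 / ‖l‖ := by
          rw [inv_le_comm₀ hpos (by positivity), inv_div]
          exact hlow
        linarith
      · have h6 := Real.log_le_sub_one_of_pos hpos
        have h7 : 0 < 3 / ‖l‖ := by positivity
        linarith
    have h6 : |L.re| ≤ 3 / ‖l‖ + 60 := by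
      rw [hL, Complex.add_re]
      refine (abs_add_le _ _).trans ?_
      have h7 := (Complex.abs_re_le_norm om).trans h30
      linarith
    have h7 : ‖l‖ * |L.re| ≤ ‖l‖ * (3 / ‖l‖ + 60) := mul_le_mul_of_nonneg_left h6 hl0.le
    have h8 : ‖l‖ * (3 / ‖l‖ + 60) = 3 + 60 * ‖l‖ := by
      field_simp
    linarith
  have hW : (WW g P Z).im - Z.im = -(KP g P * L).im := by
    rw [WW, ← hl, ← hom, ← hL, Complex.sub_im]
    ring
  rw [hW, abs_neg, Complex.mul_im]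
  refine (abs_add_le _ _).trans ?_
  rw [abs_mul, abs_mul]
  have h9 : |(KP g P).re| * |L.im| ≤ 4 * ‖ka g‖ * 34 :=
    mul_le_mul hKre hLim (abs_nonneg _) (by positivity)
  have h10 : |(KP g P).im| * |L.re| ≤ 3 * ‖ka g‖ * 63 := by
    calc |(KP g P).im| * |L.re| ≤ (3 * ‖ka g‖ * ‖l‖) * |L.re| :=
          mul_le_mul_of_nonneg_right hKim (abs_nonneg _)
      _ = 3 * ‖ka g‖ * (‖l‖ * |L.re|) := by ring
      _ ≤ _ := mul_le_mul_of_nonneg_left hLre (by positivity)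
  nlinarith [norm_nonneg (ka g)]

/-- the relation between consecutive points -/
def St (g : ℂ[X]) (P : ℂ) (C₁ : ℝ) (Z Z' : ℂ) : Prop :=
  VV g P Z ≠ 0 ∧ VV g P Z' ≠ 0 ∧
    pl g P (1 - (VV g P Z)⁻¹) = 1 - (VV g P Z')⁻¹ ∧ ‖Z' - Z - 1‖ ≤ 1 / 4 ∧
    ∀ d : ℝ, 0 < d → (∀ j : ℤ, d ≤ ‖Z - j * P‖) → ‖Z' - Z - 1‖ ≤ C₁ * (1 / d + 1 / ‖P‖) ∧
      ((∀ t : ℝ, 0 ≤ t → t ≤ 1 → 1 - Complex.exp (2 * Real.pi * Complex.I / P * (Z + t * (Z' - Z))) ∈ Complex.slitPlane) →
        ‖WW g P Z' - WW g P Z - 1‖ ≤ C₁ * (1 / d ^ 2 + 1 / ‖P‖ ^ 2))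

theorem St.re {g : ℂ[X]} {P : ℂ} {C₁ : ℝ} {Z Z' : ℂ} (h : St g P C₁ Z Z') :
    3 / 4 ≤ Z'.re - Z.re ∧ Z'.re - Z.re ≤ 5 / 4 ∧ Z'.im ≤ Z.im + 1 / 4 := by
  have h1 := h.2.2.2.1
  have h2 := abs_le.1 ((Complex.abs_re_le_norm _).trans h1)
  have h3 := abs_le.1 ((Complex.abs_im_le_norm _).trans h1)
  simp only [Complex.sub_re, Complex.sub_im, Complex.one_re, Complex.one_im] at h2 h3
  exact ⟨by linarith [h2.1], by linarith [h2.2], by linarith [h3.2]⟩

/-- the trapped orbit -/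
theorem orbit {n : ℕ} {g : ℂ[X]} {c₀ : ℝ} {c : ℂ} (hg : Good n g c₀ c) {R₁ C₁ cc CC A N S : ℝ}
    (hR₁ : 0 < R₁) (hC₁ : 0 < C₁) (hcc : 0 < cc) (hCC : 0 < CC)
    (hors : ∀ (N S Y R : ℝ) (m : ℕ) (Z : ℕ → ℂ), 0 ≤ N → 2 ≤ S → 2 ≤ Y → 1 ≤ R →
      R ≤ (Z 0).re → (∀ i, i < m → 3 / 4 ≤ (Z (i + 1)).re - (Z i).re ∧ (Z (i + 1)).re - (Z i).re ≤ 5 / 4) →
      (∀ i, i ≤ m → (Z i).im ≤ S - Y / 2 + (Z i).re / (4 * Real.sqrt (N ^ 2 + S ^ 2))) →
      ∃ d : ℕ → ℝ, (∀ i, i ≤ m → 0 < d i ∧ cc * min R (min Y S) ≤ d i ∧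
        ∀ j : ℤ, d i ≤ ‖Z i - j * (-(N : ℂ) - Complex.I * S)‖) ∧
        ∑ i ∈ Finset.range m, 1 / d i ^ 2 ≤ CC * (1 / R + 1 / Y + 1 / S + m / (S * Real.sqrt (N ^ 2 + S ^ 2))))
    (hA10 : 10 ≤ A) (hA1 : max R₁ 1 ≤ cc * A) (hA2 : 12 * C₁ * (CC + 1) + 1600 * ‖ka g‖ ≤ A)
    {P : ℂ} (hP : P = -(N : ℂ) - Complex.I * S) (hN : 0 ≤ N) (hS : A ≤ S)
    {f : ℂ → ℂ} (hf : ∀ Z : ℂ, ‖Complex.exp (2 * Real.pi * Complex.I / P * Z)‖ ≤ 30 →
      (∀ j : ℤ, R₁ ≤ ‖Z - j * P‖) → St g P C₁ Z (f Z)) (Zs : ℕ → ℂ) (hZs : ∀ i, Zs (i + 1) = f (Zs i))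
    (hZre : A ≤ (Zs 0).re) (hZim : (Zs 0).im ≤ S - (A + 1 / 2)) (m : ℕ) :
    ((∀ i, i ≤ m → (Zs i).im ≤ S - (A + 1 / 2) / 2 + (Zs i).re / (4 * ‖P‖)) ∧
      (∀ i, i < m → 3 / 4 ≤ (Zs (i + 1)).re - (Zs i).re ∧ (Zs (i + 1)).re - (Zs i).re ≤ 5 / 4)) ∧
      St g P C₁ (Zs m) (Zs (m + 1)) := by
  have hS0 : 0 < S := by linarith
  have hA0 : 0 < A := by linarith
  obtain ⟨hNP, hSP⟩ := le_norm_P hP hN hS0
  have hP1 : 0 < ‖P‖ := by linarith
  have hx : ∀ m, (∀ i, i < m → 3 / 4 ≤ (Zs (i + 1)).re - (Zs i).re ∧ (Zs (i + 1)).re - (Zs i).re ≤ 5 / 4) →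
      ∀ i, i ≤ m → (Zs 0).re + 3 / 4 * i ≤ (Zs i).re := by
    intro m h i
    induction i with
    | zero => intro _; simp
    | succ i ih =>
      intro hi
      have h1 := ih (by omega)
      have h2 := (h i (by omega)).1
      push_cast
      linarith
  have hdist : ∀ m, (∀ i, i < m → 3 / 4 ≤ (Zs (i + 1)).re - (Zs i).re ∧
      (Zs (i + 1)).re - (Zs i).re ≤ 5 / 4) →
      (∀ i, i ≤ m → (Zs i).im ≤ S - A / 2 + (Zs i).re / (4 * ‖P‖)) →
      ∃ d : ℕ → ℝ, (∀ i, i ≤ m → 0 < d i ∧ max R₁ 1 ≤ d i ∧ ∀ j : ℤ, d i ≤ ‖Zs i - j * P‖) ∧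
        ∑ i ∈ Finset.range m, 1 / d i ^ 2 ≤ CC * (1 / A + 1 / A + 1 / S + m / (S * ‖P‖)) := by
    intro m h1 h2
    have h3 := hors N S A A m Zs hN (by linarith) (by linarith) (by linarith) hZre h1
    rw [← norm_P' hP] at h3
    obtain ⟨d, hd, hsum⟩ := h3 h2
    refine ⟨d, fun i hi => ⟨(hd i hi).1, ?_, ?_⟩, hsum⟩
    · have h4 := (hd i hi).2.1
      rw [min_eq_left hS, min_self] at h4
      exact hA1.trans h4
    · intro j
      rw [hP]
      exact (hd i hi).2.2 j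
  have hwk : ∀ Z : ℂ, Z.im ≤ S - (A + 1 / 2) / 2 + Z.re / (4 * ‖P‖) →
      Z.im ≤ S - A / 2 + Z.re / (4 * ‖P‖) := fun Z h => by linarith
  -- a step is possible
  have hstep : ∀ m, (∀ i, i < m → 3 / 4 ≤ (Zs (i + 1)).re - (Zs i).re ∧
      (Zs (i + 1)).re - (Zs i).re ≤ 5 / 4) →
      (∀ i, i ≤ m → (Zs i).im ≤ S - A / 2 + (Zs i).re / (4 * ‖P‖)) →
      ∀ i, i ≤ m → St g P C₁ (Zs i) (Zs (i + 1)) := by
    intro m h1 h2 i hi
    obtain ⟨d, hd, -⟩ := hdist m h1 h2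
    rw [hZs]
    have hxi := hx m h1 i hi
    have hi0 : (0 : ℝ) ≤ i := Nat.cast_nonneg i
    apply hf
    · exact exp_bd hP hN (by linarith) hA0.le (by linarith) (h2 i hi)
    · intro j
      exact ((le_max_left _ _).trans (hd i hi).2.1).trans ((hd i hi).2.2 j)
  have hInv : (∀ i, i ≤ m → (Zs i).im ≤ S - (A + 1 / 2) / 2 + (Zs i).re / (4 * ‖P‖)) ∧
      (∀ i, i < m → 3 / 4 ≤ (Zs (i + 1)).re - (Zs i).re ∧ (Zs (i + 1)).re - (Zs i).re ≤ 5 / 4) := by
    induction m with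
    | zero =>
      refine ⟨fun i hi => ?_, fun i hi => absurd hi (Nat.not_lt_zero i)⟩
      obtain rfl : i = 0 := by omega
      have h1 : 0 ≤ (Zs 0).re / (4 * ‖P‖) := by
        apply div_nonneg (by linarith) (by positivity)
      linarith
    | succ m ih =>
      obtain ⟨ih1, ih2⟩ := ih
      have hst := hstep m ih2 (fun i hi => hwk _ (ih1 i hi)) m le_rfl
      have hinc : ∀ i, i < m + 1 → 3 / 4 ≤ (Zs (i + 1)).re - (Zs i).re ∧
          (Zs (i + 1)).re - (Zs i).re ≤ 5 / 4 := by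
        intro i hi
        rcases Nat.lt_succ_iff_lt_or_eq.1 hi with h | h
        · exact ih2 i h
        · rw [h]
          exact ⟨hst.re.1, hst.re.2.1⟩
      have hwk1 : (Zs (m + 1)).im ≤ S - A / 2 + (Zs (m + 1)).re / (4 * ‖P‖) := by
        have h1 := hst.re
        have h2 := ih1 m le_rfl
        have h3 : (Zs m).re / (4 * ‖P‖) ≤ (Zs (m + 1)).re / (4 * ‖P‖) := by
          apply div_le_div_of_nonneg_right _ (by positivity)
          linarith [h1.1]
        linarith [h1.2.2]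
      have hwk2 : ∀ i, i ≤ m + 1 → (Zs i).im ≤ S - A / 2 + (Zs i).re / (4 * ‖P‖) := by
        intro i hi
        rcases Nat.le_succ_iff.1 hi with h | h
        · exact hwk _ (ih1 i h)
        · rw [h]; exact hwk1
      have hxx := hx (m + 1) hinc
      obtain ⟨d, hd, hsum⟩ := hdist (m + 1) hinc hwk2
      have hW : ∀ i, i ≤ m → ‖WW g P (Zs (i + 1)) - WW g P (Zs i) - 1‖ ≤
          C₁ * (1 / d i ^ 2 + 1 / ‖P‖ ^ 2) := by
        intro i hi
        have h1 := hstep m ih2 (fun i hi => hwk _ (ih1 i hi)) i hi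
        refine (h1.2.2.2.2 (d i) (hd i (by omega)).1 (hd i (by omega)).2.2).2 ?_
        intro t ht0 ht1
        have h3 := hwk2 i (by omega)
        have h4 := hwk2 (i + 1) (by omega)
        have h5 := hxx i (by omega)
        have h6 := (hinc i (by omega)).1
        have hi0 : (0 : ℝ) ≤ i := Nat.cast_nonneg i
        have e1 : (Zs i + t * (Zs (i + 1) - Zs i)).re = (Zs i).re + t * ((Zs (i + 1)).re - (Zs i).re) := by
          simp
        have e2 : (Zs i + t * (Zs (i + 1) - Zs i)).im = (Zs i).im + t * ((Zs (i + 1)).im - (Zs i).im) := by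
          simp
        apply slit hP hN (by linarith : 2 ≤ S) (by linarith : 2 ≤ A)
        · rw [e1]
          have : 0 ≤ t * ((Zs (i + 1)).re - (Zs i).re) := mul_nonneg ht0 (by linarith)
          linarith
        · rw [e1, e2]
          have h7 : (1 - t) * (Zs i).im ≤ (1 - t) * (S - A / 2 + (Zs i).re / (4 * ‖P‖)) :=
            mul_le_mul_of_nonneg_left h3 (by linarith)
          have h8 : t * (Zs (i + 1)).im ≤ t * (S - A / 2 + (Zs (i + 1)).re / (4 * ‖P‖)) :=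
            mul_le_mul_of_nonneg_left h4 ht0
          have e3 : ((Zs i).re + t * ((Zs (i + 1)).re - (Zs i).re)) / (4 * ‖P‖) =
              (1 - t) * ((Zs i).re / (4 * ‖P‖)) + t * ((Zs (i + 1)).re / (4 * ‖P‖)) := by
            field_simp
            ring
          rw [e3]
          nlinarith
      have htel : ‖WW g P (Zs (m + 1)) - WW g P (Zs 0) - ((m + 1 : ℕ) : ℂ)‖ ≤
          ∑ i ∈ Finset.range (m + 1), C₁ * (1 / d i ^ 2 + 1 / ‖P‖ ^ 2) := by
        have e : WW g P (Zs (m + 1)) - WW g P (Zs 0) - ((m + 1 : ℕ) : ℂ) =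
            ∑ i ∈ Finset.range (m + 1), (WW g P (Zs (i + 1)) - WW g P (Zs i) - 1) := by
          rw [Finset.sum_sub_distrib, Finset.sum_range_sub (fun i => WW g P (Zs i))]
          simp
        rw [e]
        refine (norm_sum_le _ _).trans (Finset.sum_le_sum fun i hi => hW i ?_)
        have := Finset.mem_range.1 hi
        omega
      have hsum2 : ∑ i ∈ Finset.range (m + 1), C₁ * (1 / d i ^ 2 + 1 / ‖P‖ ^ 2) ≤
          C₁ * (CC * 3) + C₁ * (CC + 1) * ((m + 1 : ℕ) : ℝ) / (A * ‖P‖) := by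
        rw [← Finset.mul_sum, Finset.sum_add_distrib, Finset.sum_const, Finset.card_range, nsmul_eq_mul]
        have h1 : CC * (1 / A + 1 / A + 1 / S + ((m + 1 : ℕ) : ℝ) / (S * ‖P‖)) ≤
            CC * (3 + ((m + 1 : ℕ) : ℝ) / (A * ‖P‖)) := by
          apply mul_le_mul_of_nonneg_left _ hCC.le
          have h2 : 1 / A ≤ 1 := by
            rw [div_le_one hA0]; linarith
          have h3 : 1 / S ≤ 1 := by
            rw [div_le_one hS0]; linarith
          have h4 : ((m + 1 : ℕ) : ℝ) / (S * ‖P‖) ≤ ((m + 1 : ℕ) : ℝ) / (A * ‖P‖) := by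
            apply div_le_div_of_nonneg_left (by positivity) (by positivity)
            exact mul_le_mul_of_nonneg_right hS hP1.le
          linarith
        have h5 : ((m + 1 : ℕ) : ℝ) * (1 / ‖P‖ ^ 2) ≤ ((m + 1 : ℕ) : ℝ) / (A * ‖P‖) := by
          rw [mul_one_div]
          apply div_le_div_of_nonneg_left (by positivity) (by positivity)
          rw [sq]
          exact mul_le_mul_of_nonneg_right (hS.trans hSP) hP1.le
        have h6 : ∑ i ∈ Finset.range (m + 1), 1 / d i ^ 2 + ((m + 1 : ℕ) : ℝ) * (1 / ‖P‖ ^ 2) ≤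
            CC * (3 + ((m + 1 : ℕ) : ℝ) / (A * ‖P‖)) + ((m + 1 : ℕ) : ℝ) / (A * ‖P‖) := by
          linarith [hsum.trans h1]
        refine (mul_le_mul_of_nonneg_left h6 hC₁.le).trans (le_of_eq ?_)
        ring
      have him : (WW g P (Zs (m + 1))).im - (WW g P (Zs 0)).im ≤
          C₁ * (CC * 3) + C₁ * (CC + 1) * ((m + 1 : ℕ) : ℝ) / (A * ‖P‖) := by
        have h1 := (Complex.abs_im_le_norm _).trans (htel.trans hsum2)
        have h2 := (abs_le.1 h1).2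
        rw [Complex.sub_im, Complex.sub_im, Complex.natCast_im, sub_zero] at h2
        exact h2
      have hP7 : 7 ≤ ‖P‖ := by linarith
      have hk : ∀ i, i ≤ m + 1 → |(WW g P (Zs i)).im - (Zs i).im| ≤ 400 * ‖ka g‖ := by
        intro i hi
        have h5 := hxx i hi
        have hi0 : (0 : ℝ) ≤ i := Nat.cast_nonneg i
        apply imWW hg hP7 (exp_bd hP hN (by linarith) hA0.le (by linarith) (hwk2 i hi))
        intro j
        exact ((le_max_right _ _).trans (hd i hi).2.1).trans ((hd i hi).2.2 j)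
      have hk0 := abs_le.1 (hk 0 (by omega))
      have hk1 := abs_le.1 (hk (m + 1) le_rfl)
      have hlast : C₁ * (CC + 1) * ((m + 1 : ℕ) : ℝ) / (A * ‖P‖) ≤ (Zs (m + 1)).re / (4 * ‖P‖) := by
        have h1 := hxx (m + 1) le_rfl
        have h2 : ((m + 1 : ℕ) : ℝ) ≤ 4 / 3 * (Zs (m + 1)).re := by linarith
        have h3 : 0 ≤ (Zs (m + 1)).re := by
          have : (0 : ℝ) ≤ ((m + 1 : ℕ) : ℝ) := Nat.cast_nonneg _
          linarith
        rw [div_le_div_iff₀ (by positivity) (by positivity)]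
        have h4 : 12 * (C₁ * (CC + 1)) ≤ A := by
          have := norm_nonneg (ka g)
          linarith
        have h5 : C₁ * (CC + 1) * ((m + 1 : ℕ) : ℝ) ≤ C₁ * (CC + 1) * (4 / 3 * (Zs (m + 1)).re) :=
          mul_le_mul_of_nonneg_left h2 (by positivity)
        have h6 : 4 * (C₁ * (CC + 1) * (4 / 3 * (Zs (m + 1)).re)) ≤ A * (Zs (m + 1)).re := by
          nlinarith [mul_le_mul_of_nonneg_right h4 h3, mul_pos hC₁ (by linarith : 0 < CC + 1)]
        calc C₁ * (CC + 1) * ((m + 1 : ℕ) : ℝ) * (4 * ‖P‖) =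
            4 * (C₁ * (CC + 1) * ((m + 1 : ℕ) : ℝ)) * ‖P‖ := by ring
          _ ≤ (A * (Zs (m + 1)).re) * ‖P‖ := by
            apply mul_le_mul_of_nonneg_right _ hP1.le
            linarith
          _ = _ := by ring
      refine ⟨fun i hi => ?_, hinc⟩
      rcases Nat.le_succ_iff.1 hi with h | h
      · exact ih1 i h
      · rw [h]
        have h7 : 12 * C₁ * (CC + 1) + 1600 * ‖ka g‖ ≤ A := hA2
        nlinarith [hk0.1, hk0.2, hk1.1, hk1.2]
  exact ⟨hInv, hstep m hInv.2 (fun i hi => hwk _ (hInv.1 i hi)) m le_rfl⟩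

end ORAaux

open ORAaux in
theorem t_ORA (h1 : S_STP) (h2 : S_ORS) : S_ORA := by
  intro n g c₀ c hg
  obtain ⟨R₁, C₁, S₁, hR₁, hC₁, hS₁, hstp⟩ := h1 n g c₀ c hg
  obtain ⟨cc, CC, hcc, hCC, hors⟩ := h2
  have hka := norm_nonneg (ka g)
  obtain ⟨A, hA⟩ : ∃ A, A = (max R₁ 1) / cc + 10 + S₁ + 12 * C₁ * (CC + 1) + 1600 * ‖ka g‖ :=
    ⟨_, rfl⟩
  have hm : 0 < max R₁ 1 := lt_of_lt_of_le one_pos (le_max_right _ _)
  have hmc : 0 < max R₁ 1 / cc := div_pos hm hcc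
  have hCp : 0 < 12 * C₁ * (CC + 1) := by positivity
  have hA10 : 10 ≤ A := by rw [hA]; linarith
  have hA1 : max R₁ 1 ≤ cc * A := by
    have h3 : max R₁ 1 / cc ≤ A := by rw [hA]; linarith
    rw [div_le_iff₀ hcc] at h3
    linarith
  have hA2 : 12 * C₁ * (CC + 1) + 1600 * ‖ka g‖ ≤ A := by rw [hA]; linarith
  have hAS : S₁ ≤ A := by rw [hA]; linarith
  refine ⟨A, A + 1 / 2, A, by linarith, by linarith, by linarith, fun P hPim hPre Z hZre hZim => ?_⟩
  obtain ⟨N, hN⟩ : ∃ N, N = -P.re := ⟨_, rfl⟩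
  obtain ⟨S, hS⟩ : ∃ S, S = -P.im := ⟨_, rfl⟩
  have hP : P = -(N : ℂ) - Complex.I * S := by
    rw [hN, hS]
    apply Complex.ext <;> simp
  have hN0 : 0 ≤ N := by linarith
  have hSA : A ≤ S := by linarith
  have hS0 : 0 < S := by linarith
  obtain ⟨hNP, hSP⟩ := le_norm_P hP hN0 hS0
  have hP1 : 0 < ‖P‖ := by linarith
  have hex : ∀ Z : ℂ, ∃ Z' : ℂ, ‖Complex.exp (2 * Real.pi * Complex.I / P * Z)‖ ≤ 30 →
      (∀ j : ℤ, R₁ ≤ ‖Z - j * P‖) → St g P C₁ Z Z' := by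
    intro Z
    by_cases h : ‖Complex.exp (2 * Real.pi * Complex.I / P * Z)‖ ≤ 30 ∧
      (∀ j : ℤ, R₁ ≤ ‖Z - j * P‖)
    · obtain ⟨Z', hZ'⟩ := hstp P (by linarith) Z h.1 h.2
      exact ⟨Z', fun _ _ => hZ'⟩
    · exact ⟨0, fun h3 h4 => absurd ⟨h3, h4⟩ h⟩
  choose f hf using hex
  obtain ⟨Zs, hZs0, hZs⟩ : ∃ Zs : ℕ → ℂ, Zs 0 = Z ∧ ∀ i, Zs (i + 1) = f (Zs i) :=
    ⟨fun i => f^[i] Z, rfl, fun i => Function.iterate_succ_apply' f i Z⟩
  have key := fun m => orbit hg hR₁ hC₁ hcc hCC hors hA10 hA1 hA2 hP hN0 hSA hf Zs hZs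
    (by rw [hZs0]; exact hZre) (by rw [hZs0]; linarith) m
  have hst : ∀ m, St g P C₁ (Zs m) (Zs (m + 1)) := fun m => (key m).2
  have hV : ∀ m, VV g P (Zs m) ≠ 0 := fun m => (hst m).1
  refine ⟨by rw [← hZs0]; exact hV 0, ?_⟩
  have hpl : ∀ m, (pl g P)^[m] (1 - (VV g P Z)⁻¹) = 1 - (VV g P (Zs m))⁻¹ := by
    intro m
    induction m with
    | zero => rw [hZs0]; rfl
    | succ m ih => rw [Function.iterate_succ_apply', ih, (hst m).2.2.1]
  have hxm : ∀ m : ℕ, 3 / 4 * (m : ℝ) ≤ (Zs m).re := by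
    intro m
    induction m with
    | zero =>
      rw [hZs0]
      push_cast
      linarith
    | succ m ih =>
      have := (hst m).re.1
      push_cast
      linarith
  -- divergence
  have hsq : 0 < N ^ 2 + S ^ 2 := by positivity
  have hre : ∀ m : ℕ, 2 * Real.pi / (N ^ 2 + S ^ 2) * (3 / 4 * (m : ℝ) - N * S) ≤
      (-(2 * Real.pi * Complex.I / P) * Zs m).re := by
    intro m
    rw [neg_mul, Complex.neg_re, ell_re hP hS0, ← mul_neg]
    apply mul_le_mul_of_nonneg_left _ (by positivity)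
    have h3 := (key m).1.1 m le_rfl
    have h4 : N * (Zs m).im ≤ N * (S - (A + 1 / 2) / 2 + (Zs m).re / (4 * ‖P‖)) :=
      mul_le_mul_of_nonneg_left h3 hN0
    have hx0 : 0 ≤ (Zs m).re := by
      have h5 := hxm m
      have : (0 : ℝ) ≤ m := Nat.cast_nonneg m
      linarith
    have h5 : N * ((Zs m).re / (4 * ‖P‖)) ≤ (Zs m).re / 4 := by
      have e : N * ((Zs m).re / (4 * ‖P‖)) = (Zs m).re / 4 * (N / ‖P‖) := by field_simp
      rw [e]
      apply mul_le_of_le_one_right (by positivity)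
      rw [div_le_one hP1]
      exact hNP
    have h6 : 0 ≤ N * ((A + 1 / 2) / 2) := mul_nonneg hN0 (by linarith)
    have h7 : 10 * (Zs m).re ≤ S * (Zs m).re := mul_le_mul_of_nonneg_right (by linarith) hx0
    nlinarith [hxm m]
  have htop : Tendsto (fun m : ℕ => (-(2 * Real.pi * Complex.I / P) * Zs m).re) atTop atTop := by
    refine tendsto_atTop_mono hre ?_
    apply Tendsto.const_mul_atTop (by positivity)
    apply tendsto_atTop_add_const_right
    exact Tendsto.const_mul_atTop (by norm_num) tendsto_natCast_atTop_atTop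
  obtain ⟨K, hK⟩ : ∃ K, K = al g / (Complex.exp (2 * Real.pi * Complex.I / P) - 1) := ⟨_, rfl⟩
  have hVV : ∀ Z, VV g P Z = K * (1 - Complex.exp (-(2 * Real.pi * Complex.I / P) * Z)) := by
    intro Z
    rw [VV, hK]
  have hK0 : K ≠ 0 := by
    intro h
    apply hV 0
    rw [hVV, h, zero_mul]
  have hKn : 0 < ‖K‖ := norm_pos_iff.2 hK0
  have hVtop : Tendsto (fun m : ℕ => ‖VV g P (Zs m)‖) atTop atTop := by
    have h3 : ∀ m : ℕ, ‖K‖ * (Real.exp (-(2 * Real.pi * Complex.I / P) * Zs m).re - 1) ≤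
        ‖VV g P (Zs m)‖ := by
      intro m
      rw [hVV, norm_mul]
      apply mul_le_mul_of_nonneg_left _ hKn.le
      rw [← Complex.norm_exp, ← norm_one (α := ℂ), norm_sub_rev]
      have := norm_sub_norm_le (Complex.exp (-(2 * Real.pi * Complex.I / P) * Zs m)) 1
      rw [norm_one] at this ⊢
      exact this
    refine tendsto_atTop_mono h3 ?_
    apply Tendsto.const_mul_atTop hKn
    apply tendsto_atTop_add_const_right
    exact Real.tendsto_exp_atTop.comp htop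
  have hinv : Tendsto (fun m : ℕ => (VV g P (Zs m))⁻¹) atTop (𝓝 0) := by
    rw [tendsto_zero_iff_norm_tendsto_zero]
    simp only [norm_inv]
    exact hVtop.inv_tendsto_atTop
  have hlim : Tendsto (fun m : ℕ => 1 - (VV g P (Zs m))⁻¹) atTop (𝓝 (1 - 0)) :=
    tendsto_const_nhds.sub hinv
  rw [sub_zero] at hlim
  exact hlim.congr fun m => (hpl m).symm

end Pool.Agent.H212.ND
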