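import Pool.Agent.H212.ND.StmA

/-!
# Project ND (MP_395436_an): Fatou coordinates and near-parabolic dynamics

The coordinate near `1` is `v = 1 / (1 - y)`, `y = 1 - 1 / v`; `g` becomes `G v = v + al + ga / v + O(v^(-2))`, `al = al g > 0`, `ga = ga g`
real (all coefficients of `g` are real, `al g = g''(1)/2`), `p_λ` becomes `μ G v`, `μ = 1 / λ`.  Notation: `ℓ = 2πi / P`, `λ = exp ℓ`,
`vs = al / (λ - 1)` (a fixed point of `v ↦ μ (v + al)`), `ω = vs / (vs - v) = exp (ℓ Z)`, so `v = vs (1 - exp (-ℓ Z)) = VV g P Z`;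
`κ₀ = ka g = ga / al²` (real).  `P = - N - i S` with `N ≥ 0`, `S > 0`.
-/

set_option autoImplicit false

open Filter Metric Set Topology Polynomial
open scoped ComplexConjugate

namespace Pool.Agent.H212.ND

open Pool.Agent.H212.MB

/-! ## Fatou coordinates -/

/-- a wide sector -/
def Sec (R : ℝ) : Set ℂ := {v | R < v.re + |v.im|}

/-- JOB FAT.  Fatou coordinates for a map near infinity.  Proof.  For `R` large and `v ∈ Sec R`: `‖v‖ ≥ R/√2`, `G v - v = α + e`,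
`‖e‖ ≤ C₁/‖v‖ ≤ α/8`, so `G v ∈ Sec (R + α/2)`.  With `v_m = G^[m] v`: `‖v_m - v - m α‖ ≤ m α/8` and `‖v + t‖ ≥ 0.38 (‖v‖ + t)` for `t ≥ 0`
(`|arg v| ≤ 3π/4`), so `‖v_m‖ ≥ (‖v‖ + m α)/4`.  `u v = v/α - (γ/α²) log v`: `u (G v) - u v - 1 = O(1/‖v‖²)` (`log (G v) - log v = log (G v/v)`).
So `Φ v = lim (u (v_m) - m)` exists uniformly, `‖Φ v - u v‖ ≤ C ∑ 1/‖v_m‖² ≤ C'/‖v‖`, `Φ` is holomorphic.  On `Sec (2R)` the derivative of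
`Φ - u` is `O(1/‖v‖)` (Cauchy on `ball v (R/2) ⊆ Sec R`), so `Φ' → 1/α`; replace `R` by a larger number: `‖Φ' - 1/α‖ ≤ 1/(2α)`.  `G` injective on
`Sec R`: `h = G - id - α` satisfies `‖h v‖ ≤ C/‖v‖`, `‖h' v‖ ≤ C/‖v‖²`; if `G v = G v'` then `‖v - v'‖ = ‖h v - h v'‖` is small, the segment
is in `Sec (R-1)`, so `‖h v - h v'‖ < ‖v - v'‖` unless `v = v'`.  `Φ` injective: it is injective on the convex set `{R < re v}`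
(`re (α Φ') > 0`), and if `Φ v = Φ v'` then `Φ (v_m) = Φ (v'_m)` with both in this half plane for large `m`, so `v_m = v'_m`, `v = v'`.  Surjectivity:
for `R₂ < re W + |im W|/2`, `R₂` large, `v ↦ α W - α (Φ v - v/α)` maps a ball `closedBall (α W) (‖α W‖/20)`, contained in `Sec (2R)`, into
itself (`Φ v - v/α = O(log ‖v‖)`) and is a contraction (derivative small; convex). -/
def S_FAT : Prop := ∀ (G : ℂ → ℂ) (α : ℝ) (γ : ℂ) (R₀ C₀ : ℝ), 0 < α → 0 < R₀ → DifferentiableOn ℂ G {v | R₀ < ‖v‖} →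
  (∀ v : ℂ, R₀ < ‖v‖ → ‖G v - (v + α + γ / v)‖ ≤ C₀ / ‖v‖ ^ 2) →
    ∃ (R R₂ C : ℝ) (Φ : ℂ → ℂ), 0 < R ∧ R₀ < R / 2 ∧ 0 < C ∧ DifferentiableOn ℂ Φ (Sec R) ∧ MapsTo G (Sec R) (Sec R) ∧
      (∀ v ∈ Sec R, Φ (G v) = Φ v + 1) ∧ InjOn Φ (Sec R) ∧ InjOn G (Sec R) ∧ (∀ v ∈ Sec R, deriv Φ v ≠ 0) ∧
      (∀ v ∈ Sec R, ‖Φ v - (v / α - γ / α ^ 2 * Complex.log v)‖ ≤ C / ‖v‖) ∧
      ∀ W : ℂ, R₂ < W.re + |W.im| / 2 → ∃ v ∈ Sec R, Φ v = W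

/-- the attracting part of `FC` -/
structure FA (g : ℂ[X]) (c₀ : ℝ) (Φ : ℂ → ℂ) (R C : ℝ) : Prop where
  Rpos : 0 < R
  Cpos : 0 < C
  dΦ : DifferentiableOn ℂ Φ (Bas g c₀)
  semΦ : ∀ z ∈ Bas g c₀, Φ (g.eval z) = Φ z + 1
  fib : ∀ z ∈ Bas g c₀, ∀ z' ∈ Bas g c₀, Φ z = Φ z' →
    ∃ m : ℕ, (fun x : ℂ => g.eval x)^[m] z = (fun x : ℂ => g.eval x)^[m] z'
  surj : ∀ W : ℂ, ∃ z ∈ Bas g c₀, Φ z = W
  petal : ∀ W : ℂ, ∃ m : ℕ, ∃ z ∈ Bas g c₀, Φ z = W + m ∧ deriv Φ z ≠ 0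
  realΦ : ∀ z ∈ Bas g c₀, Φ (conj z) = conj (Φ z)
  imΦ : ∀ z ∈ Bas g c₀, (Φ z).im = 0 → ∃ m : ℕ, ((fun x : ℂ => g.eval x)^[m] z).im = 0
  asyΦ : ∀ v : ℂ, R < v.re + |v.im| → (1 - v⁻¹) ∈ Bas g c₀ ∧
    ‖Φ (1 - v⁻¹) - (v / al g - ka g * Complex.log v)‖ ≤ C / ‖v‖

/-- JOB FCA (uses `S_FAT`, `S_BASN`).  The attracting Fatou coordinate.  Proof.  `G v = 1 / (1 - g (1 - 1/v))` satisfies the
hypotheses of `S_FAT` with `α = al g` (real, positive), `γ = ga g`: `1 - g (1 - u) = u - a₂ u² + a₃ u³ - …`, its inverse is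
`1/u + a₂ + (a₂² - a₃) u + O(u²)`.  Let `Φ₀` be the coordinate on `Sec R`.  `1 - 1/v ∈ Bas` for `v ∈ Sec R` (`R` large): the orbit has `re v_m → ∞`,
and `1/2 < re v` means `‖y‖ < 1`… (`re v > 1/2 ↔ ‖1 - 1/v‖ < 1`), `closedBall 0 1 \ {1} ⊆ Bas` (`S_BASN`).  Every `z ∈ Bas` has
`g^[m] z → 1` (`S_BASN`), and `v_m = 1/(1 - g^[m] z) → ∞`, `v_(m+1) - v_m → α`, so `v_m ∈ Sec R` for large `m`; `Φ z = Φ₀ (v_m) - m`, well defined,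
holomorphic (locally the same `m`).  `fib`: `Φ₀` injective.  `surj`: `W + m` is in the image of `Φ₀` for large `m`, `= Φ₀ v`, and
`g^[m] z = 1 - 1/v` has a solution `z` (`g` is surjective), in `Bas` (`S_BASN`).  `petal`: `Φ₀' ≠ 0`.  `realΦ`: `v ↦ conj (Φ₀ (conj v))` is the limit of
the same expressions (`u` and `G` commute with conjugation on `Sec R`), or by uniqueness: prove `Φ₀ v = lim (u (G^[m] v) - m)` from the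
asymptotics.  `imΦ`: `Φ (conj z) = conj (Φ z) = Φ z`, so `g^[m] z = g^[m] (conj z) = conj (g^[m] z)` by `fib`. -/
def S_FCA : Prop := ∀ (n : ℕ) (g : ℂ[X]) (c₀ : ℝ) (c : ℂ), Good n g c₀ c → ∃ (Φ : ℂ → ℂ) (R C : ℝ), FA g c₀ Φ R C

/-- the repelling part of `FC` -/
structure FR (g : ℂ[X]) (ψ : ℂ → ℂ) (R C : ℝ) : Prop where
  Rpos : 0 < R
  Cpos : 0 < C
  dψ : Differentiable ℂ ψ
  semψ : ∀ w, ψ (w + 1) = g.eval (ψ w)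
  injψ : InjOn ψ {w | w.re < -R}
  limψ : ∀ w, Tendsto (fun m : ℕ => ψ (w - m)) atTop (𝓝 1)
  back : ∀ z : ℕ → ℂ, (∀ m, g.eval (z (m + 1)) = z m) → Tendsto z atTop (𝓝 1) → (∃ m, z m ≠ 1) →
    ∃ w, ∀ m : ℕ, z m = ψ (w - m)
  asyψ : ∀ w : ℂ, R < -w.re + |w.im| → ψ w ≠ 1 ∧ ‖w‖ ≤ C * ‖(1 - ψ w)⁻¹‖ ∧ ‖(1 - ψ w)⁻¹‖ ≤ C * ‖w‖ ∧
    ‖(1 - ψ w)⁻¹ / al g - ka g * Complex.log (-(1 - ψ w)⁻¹) + Complex.I * Real.pi * ka g - w‖ ≤ C / ‖w‖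
  real : ∀ x : ℝ, ∃ y : ℝ, 1 < y ∧ ψ (x + Complex.I * Real.pi * ka g) = y

/-- JOB FCR (uses `S_FAT`).  The repelling Fatou coordinate.  Proof.  `G v = v + α + γ/v + O(v⁻²)` as in `S_FCA` is injective near
infinity, with inverse `G⁻¹ v = v - α - γ/v + O(v⁻²)`, holomorphic for `‖v‖ > R₀'` (Rouché / inverse function at infinity: in the coordinate
`u = 1/v` it is a germ `u - α u² + …` with inverse germ).  `H v = - G⁻¹ (-v) = v + α - γ/v + O(v⁻²)`; let `Φ_H` be its coordinate (`S_FAT`, constant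
`-γ`), `ρ v = - Φ_H (-v)`: `ρ (G v) = ρ v + 1`, `ρ v = v/α - κ₀ log (-v) + O(1/‖v‖)` for `-v ∈ Sec R`.  For `R₂ < -re w + |im w|/2` let `v(w)` be
the solution of `ρ v = w` in `-Sec R`, `ψraw w = 1 - 1/v(w)`; for the other `w` `ψraw w = g^[m] (ψraw (w - m))`, any large `m`.
`ψ w = ψraw (w - iπ κ₀)` (`κ₀` real).  Entire, `semψ` clear.  `injψ`, `limψ` clear (`v(w) ≈ α w`).  `asyψ`: in the region `-re w + |im w|/2 > R₂'`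
directly; if `-re w + |im w| > R'` but not that, then `|im w| ≥ ‖w‖/3`, apply at most `2‖w‖ + 2` steps of `G`, starting in the first
region, the points stay in `{|im v| ≥ α |im w|/2}` where `v/α - κ₀ log (-v)` changes by `1 + O(1/‖v‖²)`.  `back`: `v_m = 1/(1 - z_m) → ∞`
(once `z_m ≠ 1` all later ones are `≠ 1`), `v_(m+1) = v_m - α + O(1/‖v_m‖)`, so `re v_m → -∞`, `v_(m+1) = G⁻¹ (v_m)`, `ρ (v_m) + m` is constant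
for large `m`.  `real`: `ψraw` is real on the real axis (symmetry), with `v(w) < 0` for `w → -∞`, i.e. `ψraw > 1`, and `g` maps
`(1, ∞)` into itself (`Good.esc`). -/
def S_FCR : Prop := ∀ (n : ℕ) (g : ℂ[X]) (c₀ : ℝ) (c : ℂ), Good n g c₀ c → ∃ (ψ : ℂ → ℂ) (R C : ℝ), FR g ψ R C

/-- JOB FCC (uses `S_FCA`, `S_FCR`, `S_BASN`).  Proof.  Take the maximum of the two `R`, of the two `C` (all the fields are monotone, `asyψ`, `asyΦ` in `R`, `C`; `injψ`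
in `R`).  `low`: `Φ (ψ w) - w` is `1`-periodic where `ψ w ∈ Bas` (and `ψ (w+1) = g (ψ w) ∈ Bas ↔ ψ w ∈ Bas`), so let
`-R - 2 ≤ re w ≤ -R - 1`, `im w → -∞`.  `v = (1 - ψ w)⁻¹`: `v/al - κ₀ log (-v) + iπ κ₀ = w + O(1/‖w‖)`, so `v = al w + O(log ‖w‖)`,
`im v → -∞`, `v.re + |v.im| > R`, `log (-v) = log v + iπ` (`im v < 0`), so `asyΦ` gives `Φ (ψ w) = w + O(1/‖w‖)`.  `out`: `τ = π κ₀.re` (`ka g` is real)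
and `S_BASN` (no real number `≥ 1` is in `Bas`). -/
def S_FCC : Prop := ∀ (n : ℕ) (g : ℂ[X]) (c₀ : ℝ) (c : ℂ), Good n g c₀ c → ∃ (Φ ψ : ℂ → ℂ) (R C : ℝ), FC g c₀ Φ ψ R C

/-- JOB REP.  Points near `1` in the repelling direction.  Proof.  `v₀ = v`, `v_(m+1) = G⁻¹ (v_m)` with the local inverse `G⁻¹ v = v - al - ga/v + …` of `G`
near infinity; `re v_m ≤ re v - m al/2`; `u v = v/al - κ₀ log (-v)` satisfies `u (v_m) - u (v_(m+1)) = 1 + O(1/‖v_m‖²)`, so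
`u v - u (v_m) - m = O(1/‖v‖)`.  `z_m = 1 - 1/v_m → 1` is a backward orbit: `z_m = ψ (w - m)` (`back`), and by `asyψ` at `w - m`
`u (v_m) + iπ κ₀ - (w - m) → 0`. -/
def S_REP : Prop := ∀ (n : ℕ) (g : ℂ[X]) (c₀ : ℝ) (c : ℂ) (Φ ψ : ℂ → ℂ) (R C : ℝ), Good n g c₀ c → FC g c₀ Φ ψ R C →
  ∃ R' C' : ℝ, 0 < R' ∧ 0 < C' ∧ ∀ v : ℂ, v.re < -R' → ∃ w : ℂ, ψ w = 1 - v⁻¹ ∧
    ‖v / al g - ka g * Complex.log (-v) + Complex.I * Real.pi * ka g - w‖ ≤ C' / ‖v‖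

/-! ## The perturbed map -/

/-- `v` as a function of `Z` -/
noncomputable def VV (g : ℂ[X]) (P Z : ℂ) : ℂ :=
  al g / (Complex.exp (2 * Real.pi * Complex.I / P) - 1) * (1 - Complex.exp (-(2 * Real.pi * Complex.I / P) * Z))

/-- the coefficient `κ_P → κ₀` -/
noncomputable def KP (g : ℂ[X]) (P : ℂ) : ℂ :=
  ga g * (Complex.exp (2 * Real.pi * Complex.I / P) - 1) ^ 2 / (al g ^ 2 * (2 * Real.pi * Complex.I / P) ^ 2)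

/-- the approximate Fatou coordinate of the perturbed map -/
noncomputable def WW (g : ℂ[X]) (P Z : ℂ) : ℂ := Z - KP g P * (Complex.log (1 - Complex.exp (2 * Real.pi * Complex.I / P * Z)) +
  Complex.exp (2 * Real.pi * Complex.I / P * Z))

/-- JOB STP.  One step.  Proof.  `ω = exp (ℓ Z)`, `v = VV g P Z = vs (ω - 1)/ω`, `vs = al/(λ-1)`, `c/|ℓ| ≤ |vs| ≤ C/|ℓ|`; for `‖ω‖ ≤ 30`:
`|ω - 1| ≥ c min 1 (|ℓ| d)` with `d` = distance of `Z` to `ℤ P`, so `|v|` is large if `R₁`, `S₁` are.  The map is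
`F v = μ G v = μ (v + al) + η`, `λ η = ga/v + O(1/|v|²)`; `vs - F v = μ (vs - v) - η`, so `ω' = vs/(vs - F v) = λ ω/(1 - λ η ω/vs)`, and
`|λ η ω/vs| ≤ C |ω|²|ℓ|²/|ω - 1|` is small; put `Z' = Z + 1 - ℓ⁻¹ log (1 - λ η ω/vs)`, so `exp (ℓ Z') = ω'`, `VV g P Z' = F v` and
`|Z' - Z - 1| ≤ C |ℓ| |ω|²/|ω - 1| ≤ C (|ℓ| + 1/d)`.  With `𝓛 ω = log (1 - ω) + ω`, `𝓛' = ω/(ω - 1)`, `𝓛'' = -1/(ω-1)²`, `κ = KP g P`,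
`κ ℓ = ga/(vs² ℓ)`: `Z' - Z - 1 = ga ω²/(ℓ vs² (ω - 1)) + O(|ℓ|² |ω|³/|ω-1|²)`,
`𝓛 ω' - 𝓛 ω = 𝓛' ω (ω' - ω) + O(|ω' - ω|²/|ω-1|²)` (path `exp (ℓ (Z + t (Z' - Z)))`, on which `1 - ω` is in the slit plane),
`ω' - ω = ω (ℓ + O(|ℓ| |Z' - Z - 1|) + O(|ℓ|²))`.  The main terms cancel and the rest is `O(|ℓ|² (1 + 1/|ω-1|²)) = O(1/‖P‖² + 1/d²)`.
(`1 - (VV Z)⁻¹` is the point `y`, and `pl g P y = 1 - 1/(μ G v)`.) -/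
def S_STP : Prop := ∀ (n : ℕ) (g : ℂ[X]) (c₀ : ℝ) (c : ℂ), Good n g c₀ c → ∃ R₁ C₁ S₁ : ℝ, 0 < R₁ ∧ 0 < C₁ ∧ 0 < S₁ ∧
  ∀ P : ℂ, S₁ ≤ ‖P‖ → ∀ Z : ℂ, ‖Complex.exp (2 * Real.pi * Complex.I / P * Z)‖ ≤ 30 →
    (∀ j : ℤ, R₁ ≤ ‖Z - j * P‖) → ∃ Z' : ℂ, VV g P Z ≠ 0 ∧ VV g P Z' ≠ 0 ∧
      pl g P (1 - (VV g P Z)⁻¹) = 1 - (VV g P Z')⁻¹ ∧ ‖Z' - Z - 1‖ ≤ 1 / 4 ∧
      ∀ d : ℝ, 0 < d → (∀ j : ℤ, d ≤ ‖Z - j * P‖) → ‖Z' - Z - 1‖ ≤ C₁ * (1 / d + 1 / ‖P‖) ∧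
        ((∀ t : ℝ, 0 ≤ t → t ≤ 1 → 1 - Complex.exp (2 * Real.pi * Complex.I / P * (Z + t * (Z' - Z))) ∈ Complex.slitPlane) →
          ‖WW g P Z' - WW g P Z - 1‖ ≤ C₁ * (1 / d ^ 2 + 1 / ‖P‖ ^ 2))

/-- JOB ORS.  Distances to the lattice along a nearly horizontal orbit.  `P = - N - i S`, `Q_j = - j P = j (N + i S)`.  Proof.  `x_i = re Z_i`,
`y_i = im Z_i`, `‖P‖² = N² + S²`.  (1) `j ≤ 0`: `‖Z_i - Q_j‖ ≥ x_i`.  (2) `j = 1`: if `x_i ≤ Y ‖P‖` then `S - y_i ≥ Y/2 - x_i/(4‖P‖) ≥ Y/4`; otherwise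
`x_i - N ≥ x_i/2 ≥ Y ‖P‖/2`; in both cases `‖Z_i - Q_1‖² ≥ c (Y² + (x_i - N)²)`.  (3) `j ≥ 2`: `j S - y_i ≥ (j-1) S - x_i/(4‖P‖)`: if
`x_i ≤ 2 (j-1) S ‖P‖` it is `≥ (j-1) S/2`; otherwise `x_i - j N ≥ x_i - 2 (j-1) ‖P‖ ≥ x_i/2 ≥ (j-1) S ‖P‖`; so
`‖Z_i - Q_j‖² ≥ c ((j-1)² S² + (x_i - j N)²)`.  So `d_i` (the minimum of the distances, attained) satisfies
`1/d_i² ≤ 1/x_i² + C/(Y² + (x_i - N)²) + max_{j ≥ 2}`; if `N < S` the last term is `≤ C/S² ≤ C'/‖P‖²`.  If `N ≥ S`: let `j ≥ 2` be the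
index of the maximum; if `|x_i - j N| > N/2` the term is `≤ C/N² ≤ C'/‖P‖²`, otherwise it is `≤ C/(S² + (x_i - j N)²)`; for each `j` the sum
over these `i` is `≤ C/S` (the `x_i` are `3/4`-separated), and the number of the `j` that occur is `≤ (x_m - x_0)/N + 1 ≤ 2 m √2/‖P‖ + 1`.
The sums of the first two terms are `≤ C/R`, `≤ C/Y` (separation). -/
def S_ORS : Prop := ∃ c C : ℝ, 0 < c ∧ 0 < C ∧ ∀ (N S Y R : ℝ) (m : ℕ) (Z : ℕ → ℂ), 0 ≤ N → 2 ≤ S → 2 ≤ Y → 1 ≤ R →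
  R ≤ (Z 0).re → (∀ i, i < m → 3 / 4 ≤ (Z (i + 1)).re - (Z i).re ∧ (Z (i + 1)).re - (Z i).re ≤ 5 / 4) →
  (∀ i, i ≤ m → (Z i).im ≤ S - Y / 2 + (Z i).re / (4 * Real.sqrt (N ^ 2 + S ^ 2))) →
    ∃ d : ℕ → ℝ, (∀ i, i ≤ m → 0 < d i ∧ c * min R (min Y S) ≤ d i ∧
      ∀ j : ℤ, d i ≤ ‖Z i - j * (-(N : ℂ) - Complex.I * S)‖) ∧
      ∑ i ∈ Finset.range m, 1 / d i ^ 2 ≤ C * (1 / R + 1 / Y + 1 / S + m / (S * Real.sqrt (N ^ 2 + S ^ 2)))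

/-- JOB ORA (uses `S_STP`, `S_ORS`).  Trapping.  Proof.  `P = - N - i S`, `N = -P.re ≥ 0`, `S = -P.im ≥ S₀`.
`re (ℓ Z) = 2π (y N - x S)/‖P‖²` for `Z = x + i y`.  Region `𝓡 = {x > 0, y < h x}`, `h x = S - Y₀/2 + x/(4‖P‖)` (convex).  On `𝓡`
`‖exp (ℓ Z)‖ ≤ exp (2π S N/‖P‖²) ≤ e^π < 30`, and `1 - exp (ℓ Z) ∈ slitPlane`: otherwise `Z = k P + t (- S + i N)/(2π)`, `t ≥ 0`, `k ∈ ℤ`; for `k ≥ 0`
`re Z ≤ 0`; for `k = -j`, `j ≥ 1`: `x ≤ j N`, `y ≥ j S > h (j N) ≥ h x`.  Let `C₂` be a bound for `|im (κ_P (log (1 - ω) + ω))|` on the set of the `Z ∈ 𝓡` with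
distance `≥ 1` to `ℤ P`: `|im log| ≤ π`, `κ_P = κ₀ + O(|ℓ|)` with `κ₀` real, `|log |1 - ω|| ≤ C + log (1/|ℓ|)` (`|1 - ω| ≥ c min 1 |ℓ|`).
So `|im Z - im WW Z| ≤ C₂`.  Start at `Z_0`, `x_0 ≥ R₀`, `y_0 ≤ S - Y₀`; `Z_(i+1)` from `S_STP`.  Induction: `Z_0, …, Z_m ∈ 𝓡`, with the
distances `≥ c min (R₀, Y₀, S₀) ≥ max R₁ 1` (`S_ORS`).  Then `|WW Z_(m+1) - WW Z_0 - (m+1)| ≤ C₁ ∑ (1/d_i² + 1/‖P‖²)
≤ C₁ C (1/R₀ + 1/Y₀ + 1/S₀) + C₁ (C + 1) (m+1)/(S₀ ‖P‖)` — (the segments `[Z_i, Z_(i+1)]` must be in `𝓡`: for the last step first note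
that `|Z_(m+1) - Z_m - 1| ≤ 1/4` puts `Z_(m+1)` in the slightly larger region with `Y₀/2` replaced by `Y₀/2 - 1/4`, where the same
arguments hold) — so `y_(m+1) ≤ y_0 + 2 C₂ + 1 + (x_(m+1) - x_0)/(4‖P‖) < h (x_(m+1))` if `R₀, Y₀, S₀` are large (`Y₀/2 > 2 C₂ + 1`).
So all `Z_m ∈ 𝓡`, `x_m → ∞`, and `re (ℓ Z_m) ≤ 2π (S N - x_m (S - 1/4))/‖P‖² → -∞`, so `VV g P Z_m = vs (1 - 1/ω_m) → ∞`. -/
def S_ORA : Prop := ∀ (n : ℕ) (g : ℂ[X]) (c₀ : ℝ) (c : ℂ), Good n g c₀ c → ∃ R₀ Y₀ S₀ : ℝ, 0 < R₀ ∧ 0 < Y₀ ∧ 0 < S₀ ∧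
  ∀ P : ℂ, P.im ≤ -S₀ → P.re ≤ 0 → ∀ Z : ℂ, R₀ ≤ Z.re → Z.im ≤ -P.im - Y₀ → VV g P Z ≠ 0 ∧
    Tendsto (fun m => (pl g P)^[m] (1 - (VV g P Z)⁻¹)) atTop (𝓝 1)

/-- JOB CRT (uses `S_ORA`, `S_FCA`, `S_BASN`; the statement is `S_CERT` of `StmM`, repeated here as `S_CRT`).  Proof.  Let `ρ₁ < 1` be larger than the moduli
of the critical points (finitely many, `crit`), `K = closedBall 0 ρ₁ ∪ {real numbers in [0, 1]}`.  (a) `y` real, `v = 1/(1 - y) ≥ v₀ := al (R₀ + 1)`: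
`Z = -ℓ⁻¹ log (1 - v/vs)`.  `-v/vs = (v/al) D`, `D = 1 - exp ℓ = ρ' exp (iθ')`, `ℓ = -2π (S + i N)/‖P‖²`, `-1/ℓ = (‖P‖/2π) exp (-iθ)`,
`θ = arg (S + iN) ∈ [0, π/2)`, `θ' = θ + O(‖P‖⁻¹)`, and `0 ≤ θ' < π/2` for large `S₀` (`θ' = θ + im ℓ/2 + O(|im ℓ| |ℓ|)`, `θ ≤ π/2 - c S/‖P‖`; `θ' = 0` if `N = 0`).
With `log (1 + τ exp (iθ')) = A + iB`, `τ = v ρ'/al`: `A, B ≥ 0` increase with `τ`, `B ≤ θ'`.  `re Z = (‖P‖/2π)(A cos θ + B sin θ)` increases with `v`, and it is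
`≥ R₀` at `v₀` (where `Z → v₀/al` as `‖P‖ → ∞`, uniformly); `im Z ≤ (‖P‖/2π) B cos θ = B S/(2π) ≤ S/4 ≤ S - Y₀`.  So `S_ORA` applies.
(b) `K₀ = closedBall 0 ρ₁ ∪ [0, 1 - 1/v₀]`, compact, in `Bas` (`S_BASN`).  With `Φ` from `S_FCA`: for large `m` and `z ∈ K₀`
`v_m = 1/(1 - g^[m] z)` satisfies `v_m/al = Φ z + m + κ₀ log v_m + O(1/‖v_m‖)`, `re v_m → ∞` uniformly (`g^[m] z → 1` locally uniformly on `Bas`, `v_(m+1) - v_m → al`), so `|im v_m| ≤ C₅` with `C₅` independent of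
`m`.  Fix `m` with `re v_m ≥ al (R₀ + 3)` on `K₀`.  As `‖P‖ → ∞` (`‖P‖ ≥ S₀`) `(pl g P)^[m] → g^[m]` uniformly on `K₀`, and
`Z = -ℓ⁻¹ log (1 - v/vs) → v/al` uniformly on bounded sets of `v`; so for `S₀` large `re Z ≥ R₀`, `im Z ≤ C₅/al + 2 ≤ S₀ - Y₀`, `S_ORA`.
(c) `1` is fixed. -/
def S_CRT : Prop := ∀ (n : ℕ) (g : ℂ[X]) (c₀ : ℝ) (c : ℂ), Good n g c₀ c → ∃ S₀ : ℝ, 0 < S₀ ∧ ∀ P : ℂ, P.im ≤ -S₀ →
  P.re ≤ 0 → ∃ K : Set ℂ, IsCompact K ∧ IsPreconnected K ∧ (1 : ℂ) ∈ K ∧ (∀ z, g.derivative.eval z = 0 → z ∈ K) ∧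
    ∀ z ∈ K, Tendsto (fun m => (pl g P)^[m] z) atTop (𝓝 1)

/-- JOB TRC (uses `S_ORA`, `S_BASN`).  Trapping of compact sets.  Proof.  Let `E` be given.  For `m` large and `z ∈ E`, `v_m = 1/(1 - g^[m] z)`, `Φ (g^[m] z) = Φ z + m`
and `asyΦ` give `im (v_m/al) = im Φ z + κ₀ arg v_m + O(1/‖v_m‖) ≤ im Φ z + C₆` (`C₆ = π |κ₀| + 1`), `re v_m → ∞` uniformly on `E`.  Fix `m` with
`re v_m ≥ al (R₀ + 3)`; for `k → ∞` `(pl g (-k - iS))^[m] → g^[m]` uniformly on `E` and `Z = -ℓ⁻¹ log (1 - v/vs) → v/al` uniformly for bounded `v`; so for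
large `k` `re Z ≥ R₀`, `im Z ≤ im Φ z + C₆ + 1 < S - Y₁ + C₆ + 1 = S - Y₀` with `Y₁ = Y₀ + C₆ + 1`. -/
def S_TRC : Prop := ∀ (n : ℕ) (g : ℂ[X]) (c₀ : ℝ) (c : ℂ) (Φ ψ : ℂ → ℂ) (R C : ℝ), Good n g c₀ c → FC g c₀ Φ ψ R C →
  ∃ S₁ Y₁ : ℝ, 0 < S₁ ∧ 0 < Y₁ ∧ ∀ S : ℝ, S₁ ≤ S → ∀ E : Set ℂ, IsCompact E → E ⊆ {z | z ∈ Bas g c₀ ∧ (Φ z).im < S - Y₁} →
    ∀ᶠ k : ℕ in atTop, ∀ z ∈ E, Tendsto (fun m => (pl g (-(k : ℂ) - Complex.I * S))^[m] z) atTop (𝓝 1)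

/-- JOB LAV (uses `S_STP`, `S_REP`, `S_BASN`).  The Lavaurs map (checked numerically).  Proof.  `K ⊆ Bas` compact, `ε > 0`.  `P = - k - i S`, `ℓ = 2πi/P ≈ -2πi/k`, `Q = -P = k + i S`.
(1) Choose `M₁` large: `v = 1/(1 - g^[M₁] z)`, `re v ≥ al x₀` large for `z ∈ K`.  For `k → ∞` the point `v^(k) = 1/(1 - (pl g P)^[M₁] z)` tends to `v`
uniformly, `Z_0 = -ℓ⁻¹ log (1 - v^(k)/vs) → v/al`.  `WW g P Z_0 = Z_0 - κ_P (log (1 - exp (ℓ Z_0)) + exp (ℓ Z_0)) = v/al - κ₀ log v + C_P + o(1)`,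
`C_P = -κ_P (log (-ℓ/al) + 1)` (`arg (-ℓ) → π/2`, `|arg v| < π/2`), `= Φ z + M₁ + C_P + O(1/x₀) + o(1)` by `asyΦ`.
(2) Follow `Z_i` by `S_STP` as long as `re Z_i ≤ k - M`: `im Z_i` stays bounded (as in `S_ORA`: `|im Z - im WW Z|` is bounded), the distances to `ℤ P` are
`≥ c min (re Z_i, k - re Z_i)`, the segments do not meet the cuts `j P + t (-S + i k)/(2π)`, `t ≥ 0` (those of `0` have `re ≤ 0`, the one of `Q` stays to the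
right of `k - C/k` in the bounded strip), so `|WW Z_i - WW Z_0 - i| ≤ C (1/x₀ + 1/M) + o(1)`.  `WW Z_i = Z_i - κ_P (log (1 - exp (ℓ Z_i)) + …)`:
`re Z_i = re Z_0 + i + κ₀ (log |1 - ω_i| - log |1 - ω_0|) + O(1)`, `|1 - ω| ≈ 2π |Z - Q|/k` near `Q`, `≈ 2π |Z|/k` near `0`; so there is `M₂`
(depending on `M`, `M₁`, `K`, not on `k`), `M₂ ≥ M₁`, such that `re Z_i ≤ k - M` for all `i ≤ k - M₂` (look at the first violation), and `|Z_i - Q|` is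
bounded for `i = k - M₂`.
(3) `i = k - M₂`, `Z' = Z_i - Q`, `re Z' ≤ -M`, bounded; `exp (ℓ Z_i) = exp (ℓ Z')`; `v_i = VV g P Z_i = vs (1 - exp (-ℓ Z')) = al Z' + o(1)`;
`WW Z_i = Q + v_i/al - κ₀ log (-v_i) + C'_P + o(1)`, `C'_P = -κ_P (log (ℓ/al) + 1)` (`arg ℓ → -π/2`, `|arg (-v_i)| < π/2`);
`C_P - C'_P = -κ_P iπ`.  So `v_i/al - κ₀ log (-v_i) + iπ κ₀ = Φ z + M₁ - M₂ - i S + O(1/x₀ + 1/M) + o(1)` (`k - Q = -iS`).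
(4) `S_REP`: `1 - 1/v_i = ψ w_k`, `w_k = Φ z - i S + M₁ - M₂ + O(1/x₀ + 1/M) + o(1)`; `1 - 1/v_i = (pl g P)^[M₁ + k - M₂] z`.  So
`(pl g P)^[k] z = (pl g P)^[M₂ - M₁] (ψ w_k) = g^[M₂ - M₁] (ψ w_k) + o(1) = ψ (w_k + M₂ - M₁) + o(1)` and `w_k + M₂ - M₁ = Φ z - iS + O(1/x₀ + 1/M) + o(1)`,
where the constants in `O` do not depend on `M`, `M₁` (for `x₀, M ≥` some constant); `ψ` is uniformly continuous on compact sets.  Let `x₀, M → ∞`. -/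
def S_LAV : Prop := ∀ (n : ℕ) (g : ℂ[X]) (c₀ : ℝ) (c : ℂ) (Φ ψ : ℂ → ℂ) (R C : ℝ), Good n g c₀ c → FC g c₀ Φ ψ R C →
  ∀ S : ℝ, 0 < S → TendstoLocallyUniformlyOn (fun (k : ℕ) (z : ℂ) => (pl g (-(k : ℂ) - Complex.I * S))^[k] z)
    (fun z => ψ (Φ z - Complex.I * S)) atTop (Bas g c₀)

end Pool.Agent.H212.ND
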