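import Mathlib
import Pool.Agent.H212.ND.StmN

open Set Filter Topology

namespace Pool.Agent.H212.ND

namespace ORSaux

/-- one step of the arctan telescope -/
lemma step_arctan (A u v : ℝ) (hA : 2 ≤ A) (h1 : 3 / 4 ≤ v - u) (h2 : v - u ≤ 5 / 4) :
    1 / (A ^ 2 + u ^ 2) ≤ 8 / 3 / A * (Real.arctan (v / A) - Real.arctan (u / A)) := by
  have hA0 : 0 < A := by linarith
  have huv : u / A < v / A := by
    apply div_lt_div_of_pos_right _ hA0
    linarith
  obtain ⟨ξ, hξ, hd⟩ := exists_hasDerivAt_eq_slope Real.arctan (fun x => 1 / (1 + x ^ 2)) huv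
    Real.continuous_arctan.continuousOn (fun x _ => Real.hasDerivAt_arctan x)
  have hsl : 0 < v / A - u / A := by linarith
  have hd' : Real.arctan (v / A) - Real.arctan (u / A) = (v / A - u / A) * (1 / (1 + ξ ^ 2)) := by
    rw [hd]
    field_simp
  obtain ⟨w, hw⟩ : ∃ w, w = ξ * A := ⟨_, rfl⟩
  have hξw : ξ = w / A := by rw [hw]; field_simp
  have hw1 : u < w := by
    rw [hw]
    exact (div_lt_iff₀ hA0).mp hξ.1
  have hw2 : w < v := by
    rw [hw]
    exact (lt_div_iff₀ hA0).mp hξ.2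
  have hww : A ^ 2 + w ^ 2 ≤ 2 * (A ^ 2 + u ^ 2) := by
    nlinarith [sq_nonneg (u - (w - u)), sq_nonneg (w - u), mul_nonneg (sub_nonneg.2 hw1.le) (sub_nonneg.2 hw2.le)]
  have hpos : 0 < A ^ 2 + u ^ 2 := by positivity
  have hpos2 : 0 < A ^ 2 + w ^ 2 := by positivity
  have e1 : (1 / (1 + ξ ^ 2)) = A ^ 2 / (A ^ 2 + w ^ 2) := by
    rw [hξw]
    field_simp
  have e2 : v / A - u / A = (v - u) / A := by ring
  rw [hd', e1, e2]
  have e3 : 8 / 3 / A * ((v - u) / A * (A ^ 2 / (A ^ 2 + w ^ 2))) = 8 / 3 * (v - u) / (A ^ 2 + w ^ 2) := by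
    field_simp
  rw [e3, div_le_div_iff₀ hpos hpos2]
  nlinarith

/-- the sum of `1/(A² + (x_i - t)²)` over an increasing sequence -/
lemma sum_arctan (A t : ℝ) (hA : 2 ≤ A) (m : ℕ) (x : ℕ → ℝ)
    (hx : ∀ i, i < m → 3 / 4 ≤ x (i + 1) - x i ∧ x (i + 1) - x i ≤ 5 / 4) :
    ∑ i ∈ Finset.range m, 1 / (A ^ 2 + (x i - t) ^ 2) ≤ 9 / A := by
  have hA0 : 0 < A := by linarith
  have h1 : ∑ i ∈ Finset.range m, 1 / (A ^ 2 + (x i - t) ^ 2) ≤
      ∑ i ∈ Finset.range m, 8 / 3 / A * (Real.arctan ((x (i + 1) - t) / A) - Real.arctan ((x i - t) / A)) := by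
    apply Finset.sum_le_sum
    intro i hi
    have := hx i (Finset.mem_range.mp hi)
    apply step_arctan A (x i - t) (x (i + 1) - t) hA
    · linarith [this.1]
    · linarith [this.2]
  rw [← Finset.mul_sum, Finset.sum_range_sub (fun i => Real.arctan ((x i - t) / A))] at h1
  refine h1.trans ?_
  have h2 : Real.arctan ((x m - t) / A) < Real.pi / 2 := Real.arctan_lt_pi_div_two _
  have h3 : -(Real.pi / 2) < Real.arctan ((x 0 - t) / A) := Real.neg_pi_div_two_lt_arctan _
  have h4 : Real.pi < 3.15 := Real.pi_lt_d2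
  have h5 : 8 / 3 / A * (Real.arctan ((x m - t) / A) - Real.arctan ((x 0 - t) / A)) ≤ 8 / 3 / A * 3.15 := by
    apply mul_le_mul_of_nonneg_left _ (by positivity)
    linarith
  refine h5.trans ?_
  rw [div_div, div_mul_eq_mul_div, div_le_div_iff₀ (by positivity) hA0]
  nlinarith

/-- the sum of `1/x_i²` -/
lemma sum_inv_sq (R : ℝ) (hR : 1 ≤ R) (m : ℕ) (x : ℕ → ℝ) (h0 : R ≤ x 0)
    (hx : ∀ i, i < m → 3 / 4 ≤ x (i + 1) - x i ∧ x (i + 1) - x i ≤ 5 / 4) :
    (∀ i, i ≤ m → R ≤ x i) ∧ ∑ i ∈ Finset.range m, 1 / (x i) ^ 2 ≤ 3 / R := by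
  have hge : ∀ i, i ≤ m → R ≤ x i := by
    intro i
    induction i with
    | zero => intro _; exact h0
    | succ i ih =>
      intro hi
      have h1 := ih (by omega)
      have h2 := hx i (by omega)
      linarith [h2.1]
  refine ⟨hge, ?_⟩
  have h1 : ∑ i ∈ Finset.range m, 1 / (x i) ^ 2 ≤
      ∑ i ∈ Finset.range m, 3 * ((-(1 / x (i + 1))) - (-(1 / x i))) := by
    apply Finset.sum_le_sum
    intro i hi
    have hi' := Finset.mem_range.mp hi
    have h2 := hx i hi'
    have h3 := hge i hi'.le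
    have h4 := hge (i + 1) hi'
    have p1 : 0 < x i := by linarith
    have p2 : 0 < x (i + 1) := by linarith
    have e : 3 * ((-(1 / x (i + 1))) - (-(1 / x i))) = 3 * (x (i + 1) - x i) / (x i * x (i + 1)) := by
      field_simp
      ring
    rw [e, div_le_div_iff₀ (by positivity) (by positivity)]
    have h5 : x (i + 1) ≤ 9 / 4 * x i := by linarith [h2.2]
    have h6 : x (i + 1) ≤ 3 * (x (i + 1) - x i) * x i := by
      nlinarith [h2.1]
    nlinarith [mul_le_mul_of_nonneg_left h6 p1.le]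
  rw [← Finset.mul_sum, Finset.sum_range_sub (fun i => -(1 / x i))] at h1
  refine h1.trans ?_
  have hm := hge m le_rfl
  have p1 : 0 < 1 / x m := by
    apply one_div_pos.mpr
    linarith
  have p2 : 1 / x 0 ≤ 1 / R := one_div_le_one_div_of_le (by linarith) h0
  have : (3 : ℝ) / R = 3 * (1 / R) := by ring
  rw [this]
  linarith

/-- growth of the real parts -/
lemma x_le (m : ℕ) (x : ℕ → ℝ)
    (hx : ∀ i, i < m → 3 / 4 ≤ x (i + 1) - x i ∧ x (i + 1) - x i ≤ 5 / 4) :
    ∀ i, i ≤ m → x 0 ≤ x i ∧ x i ≤ x 0 + 5 / 4 * i := by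
  intro i
  induction i with
  | zero => intro _; simp
  | succ i ih =>
    intro hi
    have h1 := ih (by omega)
    have h2 := hx i (by omega)
    push_cast
    constructor
    · linarith [h2.1, h1.1]
    · linarith [h2.2, h1.2]

/-- the sum over the cells -/
lemma sum_cells (S N : ℝ) (hS : 2 ≤ S) (hN : 0 < N) (m : ℕ) (x : ℕ → ℝ)
    (hx : ∀ i, i < m → 3 / 4 ≤ x (i + 1) - x i ∧ x (i + 1) - x i ≤ 5 / 4) :
    ∑ i ∈ Finset.range m, 1 / (S ^ 2 + (x i - (round (x i / N) : ℤ) * N) ^ 2) ≤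
      (5 / 4 * m / N + 2) * (9 / S) := by
  have hS0 : 0 < S := by linarith
  set k : ℕ → ℤ := fun i => round (x i / N) with hk
  set T : Finset ℤ := Finset.Icc (k 0) (k m) with hT
  have hmono : ∀ a b : ℝ, a ≤ b → round (a / N) ≤ round (b / N) := by
    intro a b hab
    rw [round_eq, round_eq]
    apply Int.floor_le_floor
    have := div_le_div_of_nonneg_right hab hN.le
    linarith
  have hmem : ∀ i ∈ Finset.range m, k i ∈ T := by
    intro i hi
    have hi' := Finset.mem_range.mp hi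
    rw [hT, Finset.mem_Icc]
    constructor
    · exact hmono _ _ (x_le m x hx i hi'.le).1
    · apply hmono
      have : ∀ j, i + j ≤ m → x i ≤ x (i + j) := by
        intro j
        induction j with
        | zero => intro _; simp
        | succ j ih =>
          intro hj
          have h1 := ih (by omega)
          have h2 := hx (i + j) (by omega)
          have h3 : i + (j + 1) = i + j + 1 := by ring
          rw [h3]
          linarith [h2.1]
      have h := this (m - i) (by omega)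
      have e : i + (m - i) = m := by omega
      rw [e] at h
      exact h
  have h1 : ∑ i ∈ Finset.range m, 1 / (S ^ 2 + (x i - (round (x i / N) : ℤ) * N) ^ 2) =
      ∑ l ∈ T, ∑ i ∈ Finset.range m with k i = l, 1 / (S ^ 2 + (x i - (round (x i / N) : ℤ) * N) ^ 2) := by
    rw [Finset.sum_fiberwise_of_maps_to hmem]
  have h2 : ∀ l ∈ T, ∑ i ∈ Finset.range m with k i = l, 1 / (S ^ 2 + (x i - (round (x i / N) : ℤ) * N) ^ 2) ≤
      9 / S := by
    intro l _
    have h3 : ∑ i ∈ Finset.range m with k i = l, 1 / (S ^ 2 + (x i - (round (x i / N) : ℤ) * N) ^ 2) =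
        ∑ i ∈ Finset.range m with k i = l, 1 / (S ^ 2 + (x i - (l : ℝ) * N) ^ 2) := by
      apply Finset.sum_congr rfl
      intro i hi
      have : round (x i / N) = l := (Finset.mem_filter.mp hi).2
      rw [this]
    rw [h3]
    refine le_trans ?_ (sum_arctan S ((l : ℝ) * N) hS m x hx)
    apply Finset.sum_le_sum_of_subset_of_nonneg (Finset.filter_subset _ _)
    intro i _ _
    positivity
  rw [h1]
  refine (Finset.sum_le_sum h2).trans ?_
  rw [Finset.sum_const, nsmul_eq_mul]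
  apply mul_le_mul_of_nonneg_right _ (by positivity)
  have hle : k 0 ≤ k m := hmono _ _ (x_le m x hx m le_rfl).1
  have hcard : ((Finset.card T : ℕ) : ℝ) = (k m : ℝ) - k 0 + 1 := by
    rw [hT, Int.card_Icc]
    have : ((k m + 1 - k 0).toNat : ℤ) = k m + 1 - k 0 := Int.toNat_of_nonneg (by omega)
    have h' : (((k m + 1 - k 0).toNat : ℤ) : ℝ) = ((k m + 1 - k 0 : ℤ) : ℝ) := by rw [this]
    push_cast at h'
    rw [h']
    ring
  rw [hcard]
  have ha : (k m : ℝ) ≤ x m / N + 1 / 2 := by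
    have := abs_sub_round (x m / N)
    have h' := (abs_le.mp this).1
    have e : (k m : ℝ) = ((round (x m / N) : ℤ) : ℝ) := rfl
    rw [e]
    linarith
  have hb : x 0 / N - 1 / 2 ≤ (k 0 : ℝ) := by
    have := abs_sub_round (x 0 / N)
    have h' := (abs_le.mp this).2
    have e : (k 0 : ℝ) = ((round (x 0 / N) : ℤ) : ℝ) := rfl
    rw [e]
    linarith
  have hc : x m / N ≤ x 0 / N + 5 / 4 * m / N := by
    rw [← add_div]
    apply div_le_div_of_nonneg_right _ hN.le
    exact (x_le m x hx m le_rfl).2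
  linarith

/-- the nearest multiple -/
lemma near_mult (x N : ℝ) (hN : 0 < N) (k : ℤ) : (x - (round (x / N) : ℤ) * N) ^ 2 ≤ (x - k * N) ^ 2 := by
  have h := round_le (x / N) k
  have e1 : x - (round (x / N) : ℤ) * N = N * (x / N - (round (x / N) : ℤ)) := by field_simp
  have e2 : x - k * N = N * (x / N - k) := by field_simp
  rw [e1, e2, mul_pow, mul_pow]
  apply mul_le_mul_of_nonneg_left _ (by positivity)
  exact sq_le_sq.mpr h

/-- the lower bounds for the squared distances -/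
lemma low_bd (N S Y L x y : ℝ) (hN : 0 ≤ N) (hS : 2 ≤ S) (hY : 2 ≤ Y) (hL0 : 0 < L) (hNL : N ≤ L) (hSL : S ≤ L)
    (hx : 1 ≤ x) (hy : y ≤ S - Y / 2 + x / (4 * L)) (j : ℤ) :
    (0 ≤ j → x ^ 2 ≤ (x + j * N) ^ 2 + (y + j * S) ^ 2) ∧
    (j = -1 → 1 / 16 * (Y ^ 2 + (x - N) ^ 2) ≤ (x + j * N) ^ 2 + (y + j * S) ^ 2) ∧
    (j ≤ -2 → 1 / 4 * (S ^ 2 + (x + j * N) ^ 2) ≤ (x + j * N) ^ 2 + (y + j * S) ^ 2) := by
  have hxL : x / (4 * L) * (4 * L) = x := by field_simp
  set q := x / (4 * L) with hq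
  have hq0 : 0 < q := by positivity
  refine ⟨?_, ?_, ?_⟩
  · intro hj
    have hj' : (0 : ℝ) ≤ j := by exact_mod_cast hj
    nlinarith [mul_nonneg hj' hN, sq_nonneg (y + j * S), mul_nonneg (mul_nonneg hj' hN) (by linarith : (0:ℝ) ≤ x),
      sq_nonneg ((j : ℝ) * N)]
  · intro hj
    rw [hj]
    push_cast
    by_cases h : x ≤ Y * L
    · have h1 : q ≤ Y / 4 := by
        rw [hq, div_le_div_iff₀ (by positivity) (by norm_num)]
        nlinarith
      have h2 : Y / 4 ≤ S - y := by linarith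
      have h3 : (Y / 4) ^ 2 ≤ (S - y) ^ 2 := pow_le_pow_left₀ (by linarith) h2 2
      nlinarith [sq_nonneg (x - N)]
    · push Not at h
      have h1 : x / 2 ≤ x - N := by nlinarith
      have h2 : Y ≤ x - N := by nlinarith
      have h3 : Y ^ 2 ≤ (x - N) ^ 2 := pow_le_pow_left₀ (by linarith) h2 2
      nlinarith [sq_nonneg (y + (-1) * S), sq_nonneg (x - N)]
  · intro hj
    obtain ⟨k, hk⟩ : ∃ k : ℝ, k = -(j : ℝ) - 1 := ⟨_, rfl⟩
    have hj' : (j : ℝ) ≤ -2 := by exact_mod_cast hj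
    have hk1 : 1 ≤ k := by linarith
    have hjk : (j : ℝ) = -(k + 1) := by linarith
    rw [hjk]
    by_cases h : x ≤ 2 * k * S * L
    · have h1 : q ≤ k * S / 2 := by
        rw [hq, div_le_div_iff₀ (by positivity) (by norm_num)]
        nlinarith
      have h2 : k * S / 2 ≤ (k + 1) * S - y := by nlinarith
      have h3 : S / 2 ≤ (k + 1) * S - y := by nlinarith
      have h4 : (S / 2) ^ 2 ≤ ((k + 1) * S - y) ^ 2 := pow_le_pow_left₀ (by linarith) h3 2
      nlinarith [sq_nonneg (x + -(k + 1) * N)]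
    · push Not at h
      have hkL : 0 < k * L := by positivity
      have hL2 : L ≤ k * L := by nlinarith
      have h0 : 4 * (k * L) ≤ 2 * k * S * L := by nlinarith
      have h5 : (k + 1) * N ≤ 2 * (k * L) := by nlinarith
      have h1 : x / 2 ≤ x - (k + 1) * N := by linarith
      have h6 : 2 * S ≤ 2 * k * S * L := by
        have : 1 ≤ k * L := by nlinarith
        nlinarith
      have h2 : S ≤ x - (k + 1) * N := by linarith
      have h3 : S ^ 2 ≤ (x - (k + 1) * N) ^ 2 := pow_le_pow_left₀ (by linarith) h2 2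
      nlinarith [sq_nonneg (y + -(k + 1) * S), sq_nonneg (x - (k + 1) * N)]

/-- assembling -/
lemma assemble (N S Y R L : ℝ) (m : ℕ) (Z : ℕ → ℂ) (t : ℕ → ℝ) (T : ℝ) (hN : 0 ≤ N) (hS : 2 ≤ S) (hY : 2 ≤ Y)
    (hR : 1 ≤ R) (hL0 : 0 < L) (hNL : N ≤ L) (hSL : S ≤ L)
    (h0 : R ≤ (Z 0).re) (hx : ∀ i, i < m → 3 / 4 ≤ (Z (i + 1)).re - (Z i).re ∧ (Z (i + 1)).re - (Z i).re ≤ 5 / 4)
    (hy : ∀ i, i ≤ m → (Z i).im ≤ S - Y / 2 + (Z i).re / (4 * L))
    (ht0 : ∀ i, 0 < t i) (ht1 : ∀ i, t i ≤ 1 / S ^ 2)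
    (ht2 : ∀ i, ∀ k : ℤ, 1 / (S ^ 2 + ((Z i).re - k * N) ^ 2) ≤ t i)
    (hT : ∑ i ∈ Finset.range m, t i ≤ T) :
    ∃ d : ℕ → ℝ, (∀ i, i ≤ m → 0 < d i ∧ 1 / 5 * min R (min Y S) ≤ d i ∧
      ∀ j : ℤ, d i ≤ ‖Z i - j * (-(N : ℂ) - Complex.I * S)‖) ∧
      ∑ i ∈ Finset.range m, 1 / d i ^ 2 ≤ 3 / R + 144 / Y + 4 * T := by
  obtain ⟨hge, hs1⟩ := sum_inv_sq R hR m (fun i => (Z i).re) h0 hx
  have hs2 := sum_arctan Y N hY m (fun i => (Z i).re) hx
  set e : ℕ → ℝ := fun i => 1 / (Z i).re ^ 2 + 16 * (1 / (Y ^ 2 + ((Z i).re - N) ^ 2)) + 4 * t i with he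
  have hepos : ∀ i, i ≤ m → 0 < e i := by
    intro i hi
    have h1 := hge i hi
    have p1 : 0 < (Z i).re := by
      have : R ≤ (Z i).re := h1
      linarith
    have p2 := ht0 i
    simp only [he]
    positivity
  refine ⟨fun i => 1 / Real.sqrt (e i), ?_, ?_⟩
  · intro i hi
    have hei := hepos i hi
    have hx1 : R ≤ (Z i).re := hge i hi
    have p1 : 0 < (Z i).re := by linarith
    refine ⟨by positivity, ?_, ?_⟩
    · set M := min R (min Y S) with hM
      have hM0 : 0 < M := by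
        rw [hM]
        exact lt_min (by linarith) (lt_min (by linarith) (by linarith))
      have hM1 : M ≤ (Z i).re := le_trans (min_le_left _ _) hx1
      have hM2 : M ≤ Y := le_trans (min_le_right _ _) (min_le_left _ _)
      have hM3 : M ≤ S := le_trans (min_le_right _ _) (min_le_right _ _)
      have b1 : 1 / (Z i).re ^ 2 ≤ 1 / M ^ 2 := one_div_le_one_div_of_le (by positivity) (pow_le_pow_left₀ hM0.le hM1 2)
      have b2 : 1 / (Y ^ 2 + ((Z i).re - N) ^ 2) ≤ 1 / M ^ 2 := by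
        apply one_div_le_one_div_of_le (by positivity)
        nlinarith [pow_le_pow_left₀ hM0.le hM2 2, sq_nonneg ((Z i).re - N)]
      have b3 : t i ≤ 1 / M ^ 2 :=
        (ht1 i).trans (one_div_le_one_div_of_le (by positivity) (pow_le_pow_left₀ hM0.le hM3 2))
      have b4 : e i ≤ 25 * (1 / M ^ 2) := by
        simp only [he]
        have : 0 < 1 / M ^ 2 := by positivity
        linarith
      have b5 : Real.sqrt (e i) ≤ 5 / M := by
        rw [Real.sqrt_le_left (by positivity)]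
        refine b4.trans (le_of_eq ?_)
        field_simp
        norm_num
      calc 1 / 5 * M = 1 / (5 / M) := by field_simp
        _ ≤ 1 / Real.sqrt (e i) := one_div_le_one_div_of_le (Real.sqrt_pos.mpr hei) b5
    · intro j
      have hb := low_bd N S Y L (Z i).re (Z i).im hN hS hY hL0 hNL hSL (by linarith) (hy i hi) j
      have hnorm : ‖Z i - j * (-(N : ℂ) - Complex.I * S)‖ ^ 2 = ((Z i).re + j * N) ^ 2 + ((Z i).im + j * S) ^ 2 := by
        rw [Complex.sq_norm, Complex.normSq_apply]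
        simp
        ring
      have p2 := ht0 i
      have hQ : 1 / e i ≤ ((Z i).re + j * N) ^ 2 + ((Z i).im + j * S) ^ 2 := by
        rcases lt_trichotomy j (-1) with hj | hj | hj
        · refine le_trans ?_ (hb.2.2 (by omega))
          have h3 := ht2 i (-j)
          push_cast at h3
          have h4 : (Z i).re - -(j : ℝ) * N = (Z i).re + j * N := by ring
          rw [h4] at h3
          have h5 : 4 * (1 / (S ^ 2 + ((Z i).re + j * N) ^ 2)) ≤ e i := by
            simp only [he]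
            have q1 : 0 < 1 / (Z i).re ^ 2 := by positivity
            have q2 : 0 < 1 / (Y ^ 2 + ((Z i).re - N) ^ 2) := by positivity
            linarith
          calc 1 / e i ≤ 1 / (4 * (1 / (S ^ 2 + ((Z i).re + j * N) ^ 2))) :=
                one_div_le_one_div_of_le (by positivity) h5
            _ = 1 / 4 * (S ^ 2 + ((Z i).re + j * N) ^ 2) := by
                field_simp
        · refine le_trans ?_ (hb.2.1 hj)
          have h5 : 16 * (1 / (Y ^ 2 + ((Z i).re - N) ^ 2)) ≤ e i := by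
            simp only [he]
            have q1 : 0 < 1 / (Z i).re ^ 2 := by positivity
            linarith
          calc 1 / e i ≤ 1 / (16 * (1 / (Y ^ 2 + ((Z i).re - N) ^ 2))) :=
                one_div_le_one_div_of_le (by positivity) h5
            _ = 1 / 16 * (Y ^ 2 + ((Z i).re - N) ^ 2) := by
                field_simp
        · refine le_trans ?_ (hb.1 (by omega))
          have h5 : 1 / (Z i).re ^ 2 ≤ e i := by
            simp only [he]
            have q2 : 0 < 1 / (Y ^ 2 + ((Z i).re - N) ^ 2) := by positivity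
            linarith
          calc 1 / e i ≤ 1 / (1 / (Z i).re ^ 2) :=
                one_div_le_one_div_of_le (by positivity) h5
            _ = (Z i).re ^ 2 := by
                field_simp
      rw [← hnorm] at hQ
      have hsq : (1 / Real.sqrt (e i)) ^ 2 ≤ ‖Z i - j * (-(N : ℂ) - Complex.I * S)‖ ^ 2 := by
        rw [div_pow, Real.sq_sqrt hei.le, one_pow]
        exact hQ
      exact (sq_le_sq₀ (by positivity) (norm_nonneg _)).mp hsq
  · have h1 : ∑ i ∈ Finset.range m, 1 / (1 / Real.sqrt (e i)) ^ 2 = ∑ i ∈ Finset.range m, e i := by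
      apply Finset.sum_congr rfl
      intro i hi
      have hei := hepos i (Finset.mem_range.mp hi).le
      rw [div_pow, Real.sq_sqrt hei.le, one_pow, one_div_one_div]
    show ∑ i ∈ Finset.range m, 1 / (1 / Real.sqrt (e i)) ^ 2 ≤ _
    rw [h1]
    simp only [he]
    rw [Finset.sum_add_distrib, Finset.sum_add_distrib, ← Finset.mul_sum, ← Finset.mul_sum]
    have h2 : (144 : ℝ) / Y = 16 * (9 / Y) := by ring
    rw [h2]
    have h3 : ∑ i ∈ Finset.range m, 1 / (Z i).re ^ 2 ≤ 3 / R := hs1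
    have h4 : ∑ i ∈ Finset.range m, 1 / (Y ^ 2 + ((Z i).re - N) ^ 2) ≤ 9 / Y := hs2
    linarith

end ORSaux

open ORSaux in
theorem t_ORS : S_ORS := by
  refine ⟨1 / 5, 144, by norm_num, by norm_num, ?_⟩
  intro N S Y R m Z hN hS hY hR h0 hx hy
  set L := Real.sqrt (N ^ 2 + S ^ 2) with hL
  have hLsq : L ^ 2 = N ^ 2 + S ^ 2 := Real.sq_sqrt (by positivity)
  have hL0 : 0 < L := Real.sqrt_pos.mpr (by positivity)
  have hNL : N ≤ L := Real.le_sqrt_of_sq_le (by nlinarith)
  have hSL : S ≤ L := Real.le_sqrt_of_sq_le (by nlinarith)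
  have hS0 : 0 < S := by linarith
  by_cases hNS : N < S
  · have hLS : L ≤ 2 * S := by nlinarith
    obtain ⟨d, hd1, hd2⟩ := assemble N S Y R L m Z (fun _ => 1 / S ^ 2) (m * (1 / S ^ 2)) hN hS hY hR hL0 hNL hSL h0 hx hy
      (fun _ => by positivity) (fun _ => le_rfl)
      (fun i k => one_div_le_one_div_of_le (by positivity) (by nlinarith [sq_nonneg ((Z i).re - k * N)]))
      (by simp)
    refine ⟨d, hd1, hd2.trans ?_⟩
    have h1 : (m : ℝ) * (1 / S ^ 2) ≤ 2 * (m / (S * L)) := by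
      have : 1 / S ^ 2 ≤ 2 / (S * L) := by
        rw [div_le_div_iff₀ (by positivity) (by positivity)]
        nlinarith
      calc (m : ℝ) * (1 / S ^ 2) ≤ m * (2 / (S * L)) := mul_le_mul_of_nonneg_left this (Nat.cast_nonneg m)
        _ = 2 * (m / (S * L)) := by ring
    have h2 : 0 < 1 / R := by positivity
    have h3 : 0 < 1 / S := by positivity
    have h4 : (0 : ℝ) ≤ m / (S * L) := by positivity
    have h5 : (3 : ℝ) / R = 3 * (1 / R) := by ring
    have h6 : (144 : ℝ) / Y = 144 * (1 / Y) := by ring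
    rw [h5, h6]
    linarith
  · push Not at hNS
    have hN0 : 0 < N := by linarith
    have hLN : L ≤ 3 / 2 * N := by nlinarith
    have hcells := sum_cells S N hS hN0 m (fun i => (Z i).re) hx
    obtain ⟨d, hd1, hd2⟩ := assemble N S Y R L m Z
      (fun i => 1 / (S ^ 2 + ((Z i).re - (round ((Z i).re / N) : ℤ) * N) ^ 2)) ((5 / 4 * m / N + 2) * (9 / S))
      hN hS hY hR hL0 hNL hSL h0 hx hy
      (fun _ => by positivity)
      (fun i => one_div_le_one_div_of_le (by positivity)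
        (by nlinarith [sq_nonneg ((Z i).re - (round ((Z i).re / N) : ℤ) * N)]))
      (fun i k => one_div_le_one_div_of_le (by positivity) (by linarith [near_mult (Z i).re N hN0 k]))
      hcells
    refine ⟨d, hd1, hd2.trans ?_⟩
    have h1 : (5 / 4 * m / N + 2) * (9 / S) ≤ 18 * (1 / S) + 18 * (m / (S * L)) := by
      have h : 1 / N ≤ 3 / 2 * (1 / L) := by
        rw [one_div, one_div, inv_le_iff_one_le_mul₀ hN0]
        have : (3 : ℝ) / 2 * L⁻¹ * N = (3 / 2 * N) / L := by ring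
        rw [this, le_div_iff₀ hL0]
        linarith
      have h' : 5 / 4 * (m : ℝ) / N * (9 / S) = 45 / 4 * m * (1 / S) * (1 / N) := by ring
      have h'' : 45 / 4 * (m : ℝ) * (1 / S) * (1 / N) ≤ 45 / 4 * m * (1 / S) * (3 / 2 * (1 / L)) :=
        mul_le_mul_of_nonneg_left h (by positivity)
      have h''' : 45 / 4 * (m : ℝ) * (1 / S) * (3 / 2 * (1 / L)) = 135 / 8 * (m / (S * L)) := by
        field_simp
        ring
      have h4 : (0 : ℝ) ≤ m / (S * L) := by positivity
      have e : (5 / 4 * m / N + 2) * (9 / S) = 5 / 4 * (m : ℝ) / N * (9 / S) + 18 * (1 / S) := by ring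
      rw [e, h']
      linarith
    have h2 : 0 < 1 / R := by positivity
    have h3 : 0 < 1 / S := by positivity
    have h4 : (0 : ℝ) ≤ m / (S * L) := by positivity
    have h5 : (3 : ℝ) / R = 3 * (1 / R) := by ring
    have h6 : (144 : ℝ) / Y = 144 * (1 / Y) := by ring
    rw [h5, h6]
    linarith

end Pool.Agent.H212.ND
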