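import Pool.Agent.H212.ND.StmT

/-! JOB PIC: the properties of the Julia set of `g` put together. -/

set_option autoImplicit false

open Filter Metric Set Topology Polynomial
open scoped ComplexConjugate

namespace Pool.Agent.H212.ND

open Pool.Agent.H212.MB

theorem PIC_openExt : IsOpen MB.Ext := isOpen_lt continuous_const continuous_norm

theorem PIC_preExt : IsPreconnected MB.Ext := by
  have h : MB.Ext = Complex.exp '' {X : ℂ | 0 < X.re} := by
    ext z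
    constructor
    · intro hz
      have hz' : 1 < ‖z‖ := hz
      have hz0 : z ≠ 0 := by
        rintro rfl
        rw [norm_zero] at hz'
        linarith
      refine ⟨Complex.log z, ?_, Complex.exp_log hz0⟩
      show 0 < (Complex.log z).re
      rw [Complex.log_re]
      exact Real.log_pos hz'
    · rintro ⟨X, hX, rfl⟩
      show 1 < ‖Complex.exp X‖
      rw [Complex.norm_exp]
      exact Real.one_lt_exp_iff.2 hX
  rw [h]
  exact (convex_halfSpace_re_gt 0).isPreconnected.image _ Complex.continuous_exp.continuousOn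

theorem PIC_openImage (φ : ℂ → ℂ) (hd : DifferentiableOn ℂ φ MB.Ext) (hi : InjOn φ MB.Ext) :
    IsOpen (φ '' MB.Ext) := by
  have ha : AnalyticOnNhd ℂ φ MB.Ext := hd.analyticOnNhd PIC_openExt
  rcases ha.is_constant_or_isOpen PIC_preExt with ⟨w, hw⟩ | h
  · exfalso
    have h2 : (2 : ℂ) ∈ MB.Ext := by
      show 1 < ‖(2 : ℂ)‖
      rw [Complex.norm_ofNat]
      norm_num
    have h3 : (3 : ℂ) ∈ MB.Ext := by
      show 1 < ‖(3 : ℂ)‖
      rw [Complex.norm_ofNat]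
      norm_num
    have h4 := hi h2 h3 (by rw [hw _ h2, hw _ h3])
    norm_num at h4
  · exact h _ Subset.rfl PIC_openExt

theorem t_PIC (h1 : S_CH4) (h2 : S_BASN) (h3 : S_INJ) (h4 : S_JLC) : S_PIC := by
  intro n g c₀ c hg
  obtain ⟨φ, hφ⟩ := h1 n g c₀ c hg
  obtain ⟨hop, hpre, hinv, -, hunit, -, -, -, -⟩ := h2 n g c₀ c hg
  have hne : (Bas g c₀).Nonempty := ⟨0, hunit 0 (by rw [norm_zero]; exact zero_le_one) zero_ne_one⟩
  have hnot : ∀ z ∈ CExt, φ z ∉ Bas g c₀ := by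
    intro z hz h
    rw [← hφ.bas] at h
    exact h ⟨z, hz, rfl⟩
  have haa : aa n g ≠ 0 := by
    unfold aa
    exact_mod_cast (Real.rpow_pos_of_pos hg.lead _).ne'
  have hinj : InjOn φ CExt := by
    refine h3 n φ (fun z => g.eval z) (Bas g c₀) (aa n g)⁻¹ (bb n g) (by have := hg.n3; omega)
      (inv_ne_zero haa) hφ.cont hφ.diff hφ.injE hφ.semi ?_ hφ.disj hop hpre hne hnot hφ.clos
    refine hφ.asym.congr fun z => ?_
    rw [div_eq_mul_inv, mul_comm z]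
  have hcirc : {z : ℂ | ‖z‖ = 1} ⊆ CExt := fun z hz => by
    have hz' : ‖z‖ = 1 := hz
    show 1 ≤ ‖z‖
    rw [hz']
  refine ⟨φ, hφ, hop, hpre, hinv, hinj, ?_⟩
  intro ζ₀ hζ₀ ε hε
  obtain ⟨δ, hδ, hS⟩ := h4 φ (hφ.cont.mono hcirc) (hinj.mono hcirc) ζ₀ hζ₀ ε hε
  refine ⟨δ, hδ, ?_⟩
  intro y₁ hy₁ y₂ hy₂
  have hdisj : Disjoint (Bas g c₀) (φ '' {z | ‖z‖ = 1}) := by
    rw [Set.disjoint_left]
    rintro y hy ⟨z, hz, rfl⟩
    exact hnot z (hcirc hz) hy
  obtain ⟨S, hSp, hSd, hSb, hS1, hS2⟩ := hS y₁ hy₁.2 y₂ hy₂.2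
    ⟨Bas g c₀, hpre, hdisj, hy₁.1, hy₂.1⟩
  refine ⟨S, hSp, ?_, hS1, hS2⟩
  refine Set.subset_inter ?_ hSb
  refine IsPreconnected.subset_left_of_subset_union hop (PIC_openImage φ hφ.diff hφ.injE) ?_ ?_
    ⟨y₁, hS1, hy₁.1⟩ hSp
  · rw [Set.disjoint_left]
    rintro y hy ⟨z, hz, rfl⟩
    have hz1 : 1 < ‖z‖ := hz
    have hz2 : z ∈ CExt := show 1 ≤ ‖z‖ from hz1.le
    exact hnot z hz2 hy
  · intro y hy
    by_cases hyB : y ∈ Bas g c₀
    · exact Or.inl hyB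
    · right
      rw [← hφ.bas, Set.notMem_compl_iff] at hyB
      obtain ⟨z, hz, rfl⟩ := hyB
      have hz' : 1 ≤ ‖z‖ := hz
      rcases hz'.lt_or_eq with hlt | heq
      · exact ⟨z, hlt, rfl⟩
      · exact absurd ⟨z, heq.symm, rfl⟩ (Set.disjoint_left.1 hSd hy)

end Pool.Agent.H212.ND
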