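import Pool.Agent.H212.ND.StmA
import Pool.Graph.R_seed8.W746.LD.Koebe

/-! JOB PSL: rigidity of the horn map (helper441). -/

set_option autoImplicit false

open Filter Metric Set Topology

namespace Pool.Agent.H212.ND

namespace PSLaux

open Pool.Agent.W746.LD (Univ KC exists_KC)

/-- a univalent function on a large disc is nearly linear -/
theorem slope_bound {C0 c0 : ℝ} (K : KC C0 c0) {κ : ℂ → ℂ} {r : ℝ} (hr : 0 < r)
    (hd : DifferentiableOn ℂ κ (ball 0 r)) (hi : InjOn κ (ball 0 r)) (h0 : κ 0 = 0) {x : ℂ}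
    (hx : ‖x‖ < r / 4) :
    ‖dslope κ 0 x - deriv κ 0‖ ≤ 8 * C0 * ‖deriv κ 0‖ / r * ‖x‖ := by
  have hC := K.one_le
  have hb : ∀ y ∈ ball (0 : ℂ) (r / 4), ‖dslope κ 0 y‖ ≤ C0 * ‖deriv κ 0‖ := by
    intro y hy
    rw [mem_ball_zero_iff] at hy
    by_cases h : y = 0
    · rw [h, dslope_same]
      exact le_mul_of_one_le_left (norm_nonneg _) hC
    · have h1 := K.lip hr ⟨hd, hi⟩ (w := y) (by rw [sub_zero]; exact hy.le)
      rw [h0, sub_zero, sub_zero] at h1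
      rw [dslope_of_ne _ h, slope_def_field, h0, sub_zero, sub_zero, norm_div,
        div_le_iff₀ (norm_pos_iff.2 h)]
      exact h1
  have hsub : ball (0 : ℂ) (r / 4) ⊆ ball 0 r := ball_subset_ball (by linarith)
  have hdd : DifferentiableOn ℂ (dslope κ 0) (ball 0 (r / 4)) := by
    rw [Complex.differentiableOn_dslope (ball_mem_nhds _ (by positivity))]
    exact hd.mono hsub
  have h2 := Complex.dist_le_div_mul_dist_of_mapsTo_ball (R₂ := 2 * (C0 * ‖deriv κ 0‖)) hdd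
    (fun y hy => by
      rw [mem_closedBall, dist_eq_norm]
      calc ‖dslope κ 0 y - dslope κ 0 0‖ ≤ ‖dslope κ 0 y‖ + ‖dslope κ 0 0‖ := norm_sub_le _ _
        _ ≤ C0 * ‖deriv κ 0‖ + C0 * ‖deriv κ 0‖ :=
          add_le_add (hb y hy) (hb 0 (mem_ball_self (by positivity)))
        _ = 2 * (C0 * ‖deriv κ 0‖) := by ring)
    (by rwa [mem_ball_zero_iff] : x ∈ ball (0 : ℂ) (r / 4))
  rw [dist_eq_norm, dist_eq_norm, dslope_same, sub_zero] at h2
  refine h2.trans (le_of_eq ?_)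
  field_simp
  ring

theorem mul_slope {f : ℂ → ℂ} (h0 : f 0 = 0) (x : ℂ) : f x = x * dslope f 0 x := by
  have := sub_smul_dslope f 0 x
  rw [sub_zero, h0, sub_zero, smul_eq_mul] at this
  exact this.symm

/-- the normalisation -/
theorem norm_bounds {X0 : Finset ℂ} {x₁ : ℂ} (h1 : x₁ ∈ X0) (h0 : (0 : ℂ) ∉ X0) {κ F : ℂ → ℂ} {a : ℂ}
    {η R : ℝ} (hη : η ≤ 1 / 2) (hη0 : 0 ≤ η) (hR : ∀ x ∈ X0, ‖x‖ ≤ R)
    (hF : ∀ x, κ x = x * F x) (hFa : ∀ x ∈ X0, ‖F x - a‖ ≤ η * ‖a‖) (hX : ∀ x ∈ X0, κ x ∈ X0) :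
    ‖a‖ ≤ 2 ∧ ∀ x ∈ X0, |‖κ x‖ - ‖x‖| ≤ 4 * η * R := by
  have hpos : ∀ x ∈ X0, 0 < ‖x‖ := fun x hx => norm_pos_iff.2 fun h => h0 (h ▸ hx)
  obtain ⟨u, hu, hmax⟩ := Finset.exists_max_image X0 (fun x => ‖x‖) ⟨x₁, h1⟩
  obtain ⟨v, hv, hmin⟩ := Finset.exists_min_image X0 (fun x => ‖x‖) ⟨x₁, h1⟩
  have e1 : ‖a‖ * (1 - η) ≤ 1 := by
    have h2 := hmax _ (hX u hu)
    rw [hF, norm_mul] at h2
    have h3 : ‖F u‖ ≤ 1 := by
      have := hpos u hu
      by_contra hcon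
      push Not at hcon
      have : ‖u‖ * 1 < ‖u‖ * ‖F u‖ := mul_lt_mul_of_pos_left hcon this
      linarith
    have h4 : ‖a‖ - ‖F u‖ ≤ ‖F u - a‖ := by
      rw [norm_sub_rev]
      exact norm_sub_norm_le _ _
    have := hFa u hu
    linarith
  have e2 : 1 ≤ ‖a‖ * (1 + η) := by
    have h2 := hmin _ (hX v hv)
    rw [hF, norm_mul] at h2
    have h3 : 1 ≤ ‖F v‖ := by
      have := hpos v hv
      by_contra hcon
      push Not at hcon
      have : ‖v‖ * ‖F v‖ < ‖v‖ * 1 := mul_lt_mul_of_pos_left hcon this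
      linarith
    have h4 : ‖F v‖ - ‖a‖ ≤ ‖F v - a‖ := norm_sub_norm_le _ _
    have := hFa v hv
    linarith
  have ha0 := norm_nonneg a
  have e3 : ‖a‖ ≤ 2 := by nlinarith
  have e4 : η * ‖a‖ ≤ 2 * η := by nlinarith
  refine ⟨e3, fun x hx => ?_⟩
  have h5 : |‖F x‖ - 1| ≤ 4 * η := by
    have h6 : |‖F x‖ - ‖a‖| ≤ ‖F x - a‖ := abs_norm_sub_norm_le _ _
    have h7 := hFa x hx
    have h8 := abs_le.1 h6
    rw [abs_le]
    constructor <;> nlinarith [h8.1, h8.2]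
  rw [hF, norm_mul, show ‖x‖ * ‖F x‖ - ‖x‖ = ‖x‖ * (‖F x‖ - 1) by ring, abs_mul,
    abs_of_nonneg (norm_nonneg _)]
  calc ‖x‖ * |‖F x‖ - 1| ≤ R * (4 * η) := mul_le_mul (hR x hx) h5 (abs_nonneg _)
        ((norm_nonneg _).trans (hR x hx))
    _ = 4 * η * R := by ring

/-- first order expansion of `G` -/
theorem expand_G {G : ℂ → ℂ} (hG : AnalyticAt ℂ G 0) (h0 : G 0 = 0) (h1 : deriv G 0 = 1) :
    ∃ L : ℝ, 0 ≤ L ∧ ∀ᶠ y in 𝓝 (0 : ℂ), ‖dslope G 0 y - 1‖ ≤ L * ‖y‖ ∧ ‖G y‖ ≤ 2 * ‖y‖ := by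
  obtain ⟨s, hs, hd⟩ : ∃ s > 0, DifferentiableOn ℂ G (ball 0 s) := by
    obtain ⟨s, hs, h⟩ := Metric.eventually_nhds_iff_ball.1 hG.eventually_analyticAt
    exact ⟨s, hs, fun y hy => (h y hy).differentiableAt.differentiableWithinAt⟩
  have hnb : ball (0 : ℂ) s ∈ 𝓝 (0 : ℂ) := ball_mem_nhds _ hs
  have hdd : DifferentiableAt ℂ (dslope G 0) 0 := by
    have : DifferentiableOn ℂ (dslope G 0) (ball 0 s) := by
      rwa [Complex.differentiableOn_dslope hnb]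
    exact this.differentiableAt hnb
  have hO := hdd.isBigO_sub
  obtain ⟨L, hL, hL'⟩ := hO.exists_nonneg
  refine ⟨L, hL, ?_⟩
  have h2 : ∀ᶠ y in 𝓝 (0 : ℂ), L * ‖y‖ < 1 := by
    have : Tendsto (fun y : ℂ => L * ‖y‖) (𝓝 0) (𝓝 (L * ‖(0 : ℂ)‖)) :=
      (continuous_const.mul continuous_norm).tendsto 0
    rw [norm_zero, mul_zero] at this
    exact this.eventually_lt_const one_pos
  filter_upwards [hL'.bound, h2] with y hy hy2
  rw [dslope_same, h1, sub_zero] at hy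
  refine ⟨hy, ?_⟩
  rw [mul_slope h0 y, norm_mul]
  have h3 : ‖dslope G 0 y‖ ≤ 2 := by
    calc ‖dslope G 0 y‖ = ‖(dslope G 0 y - 1) + 1‖ := by rw [sub_add_cancel]
      _ ≤ ‖dslope G 0 y - 1‖ + ‖(1 : ℂ)‖ := norm_add_le _ _
      _ ≤ 2 := by rw [norm_one]; linarith
  nlinarith [norm_nonneg y]

/-- the increments of `Fh` -/
theorem expand_F {Fh : ℂ → ℂ} (hF : AnalyticAt ℂ Fh 0) (h1 : deriv Fh 0 = 1) :
    ∃ L s : ℝ, 0 ≤ L ∧ 0 < s ∧ ∀ y h : ℂ, ‖y‖ + ‖h‖ < s →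
      ‖Fh (y + h) - Fh y - h‖ ≤ L * (‖y‖ + ‖h‖) * ‖h‖ := by
  have hd : DifferentiableAt ℂ (deriv Fh) 0 := hF.deriv.differentiableAt
  obtain ⟨L, hL, hL'⟩ := hd.isBigO_sub.exists_nonneg
  obtain ⟨s, hs, hs'⟩ := Metric.eventually_nhds_iff_ball.1 (hL'.bound.and hF.eventually_analyticAt)
  refine ⟨L, s, hL, hs, fun y h hyh => ?_⟩
  have hsub : closedBall (0 : ℂ) (‖y‖ + ‖h‖) ⊆ ball 0 s := closedBall_subset_ball hyh
  have hder : ∀ z ∈ closedBall (0 : ℂ) (‖y‖ + ‖h‖),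
      HasDerivAt (fun z => Fh z - z) (deriv Fh z - 1) z := fun z hz =>
    ((hs' z (hsub hz)).2.differentiableAt.hasDerivAt).sub (hasDerivAt_id z)
  have key := (convex_closedBall (0 : ℂ) (‖y‖ + ‖h‖)).norm_image_sub_le_of_norm_hasDerivWithin_le
    (f := fun z => Fh z - z) (f' := fun z => deriv Fh z - 1) (C := L * (‖y‖ + ‖h‖))
    (fun z hz => (hder z hz).hasDerivWithinAt) (fun z hz => by
      have h2 := (hs' z (hsub hz)).1
      rw [h1, sub_zero] at h2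
      refine h2.trans ?_
      rw [mem_closedBall_zero_iff] at hz
      gcongr) (x := y) (y := y + h)
    (by rw [mem_closedBall_zero_iff]; linarith [norm_nonneg h])
    (by rw [mem_closedBall_zero_iff]; exact norm_add_le _ _)
  have e1 : Fh (y + h) - (y + h) - (Fh y - y) = Fh (y + h) - Fh y - h := by ring
  have e2 : y + h - y = h := by ring
  rw [e1, e2] at key
  exact key

/-- the core estimate -/
theorem core {κ F G Fh e : ℂ → ℂ} {a x : ℂ} {q R D L : ℝ} {N : ℕ} (hq : 0 < q) (hq2 : q < 1 / 2)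
    (hR : 0 < R) (hD1 : D ≤ 1) (hL : 0 ≤ L)
    (hF : ∀ x, κ x = x * F x) (hDb : ∀ x : ℂ, ‖x‖ ≤ R → ‖F x - 1‖ ≤ D)
    (hsch : ∀ u : ℂ, ‖u‖ < R → ‖F u - a‖ ≤ 2 * D / R * ‖u‖)
    (hx0 : x ≠ 0) (hxR : ‖x‖ ≤ R)
    (hG0 : G 0 = 0)
    (hG : ‖dslope G 0 (q * x) - 1‖ ≤ L * ‖(q : ℂ) * x‖ ∧ ‖G (q * x)‖ ≤ 2 * ‖(q : ℂ) * x‖)
    (hFh : ‖Fh (q * x + q * x * (F x - 1)) - Fh (q * x) - q * x * (F x - 1)‖ ≤
      L * (‖(q : ℂ) * x‖ + ‖(q : ℂ) * x * (F x - 1)‖) * ‖(q : ℂ) * x * (F x - 1)‖)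
    (hE : G (q * x) - Fh (q * x) = (q * x) ^ (N + 1) * e (q * x))
    (heq : κ (G (q * x)) = Fh (q * κ x)) :
    ‖F x - 1 - (a - 1) - (q * x) ^ N * e (q * x)‖ ≤ (3 * L * R + 4) * q * D := by
  set y : ℂ := (q : ℂ) * x with hy
  have hy0 : y ≠ 0 := mul_ne_zero (by exact_mod_cast hq.ne') hx0
  have hyn : ‖y‖ = q * ‖x‖ := by rw [hy, norm_mul, Complex.norm_real, Real.norm_of_nonneg hq.le]
  have hyR : ‖y‖ ≤ q * R := by rw [hyn]; gcongr
  have hD0 : 0 ≤ D := (norm_nonneg _).trans (hDb x hxR)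
  have hGy : ‖G y‖ < R := by
    have := hG.2
    nlinarith
  set err := Fh (y + y * (F x - 1)) - Fh y - y * (F x - 1) with herr
  have hqk : (q : ℂ) * κ x = y + y * (F x - 1) := by rw [hF, hy]; ring
  rw [hqk, hF (G y)] at heq
  have hGs : G y = y * dslope G 0 y := mul_slope hG0 y
  have h1 : F x - 1 - (a - 1) - y ^ N * e y =
      dslope G 0 y * (F (G y) - 1) - (a - 1) - err / y := by
    have h2 : y * (F x - 1) = y ^ (N + 1) * e y + y * (dslope G 0 y * (F (G y) - 1)) - err := by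
      rw [← hE, herr, ← heq]
      have : y * (dslope G 0 y * (F (G y) - 1)) = G y * (F (G y) - 1) := by
        rw [← mul_assoc, ← hGs]
      rw [this]
      ring
    have h3 : F x - 1 = y ^ N * e y + dslope G 0 y * (F (G y) - 1) - err / y := by
      apply mul_left_cancel₀ hy0
      rw [h2, pow_succ]
      field_simp
    rw [h3]
    ring
  rw [h1]
  have h4 : dslope G 0 y * (F (G y) - 1) - (a - 1) - err / y =
      (dslope G 0 y - 1) * (F (G y) - 1) + (F (G y) - a) - err / y := by ring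
  rw [h4]
  have b1 : ‖(dslope G 0 y - 1) * (F (G y) - 1)‖ ≤ L * R * q * D := by
    rw [norm_mul]
    calc ‖dslope G 0 y - 1‖ * ‖F (G y) - 1‖ ≤ (L * (q * R)) * D := by
          refine mul_le_mul ?_ (hDb _ hGy.le) (norm_nonneg _) (by positivity)
          exact hG.1.trans (mul_le_mul_of_nonneg_left hyR hL)
      _ = L * R * q * D := by ring
  have b2 : ‖F (G y) - a‖ ≤ 4 * q * D := by
    calc ‖F (G y) - a‖ ≤ 2 * D / R * ‖G y‖ := hsch _ hGy
      _ ≤ 2 * D / R * (2 * (q * R)) := by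
          refine mul_le_mul_of_nonneg_left ?_ (by positivity)
          exact hG.2.trans (by linarith)
      _ = 4 * q * D := by
          field_simp
          ring
  have b3 : ‖err / y‖ ≤ 2 * L * R * q * D := by
    have hyp : 0 < ‖y‖ := norm_pos_iff.2 hy0
    rw [norm_div, div_le_iff₀ hyp]
    have h5 : ‖y * (F x - 1)‖ ≤ ‖y‖ * D := by
      rw [norm_mul]
      exact mul_le_mul_of_nonneg_left (hDb x hxR) (norm_nonneg _)
    have h6 : ‖y‖ + ‖y * (F x - 1)‖ ≤ 2 * (q * R) := by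
      have : ‖y‖ * D ≤ ‖y‖ * 1 := mul_le_mul_of_nonneg_left hD1 (norm_nonneg _)
      linarith
    calc ‖err‖ ≤ L * (‖y‖ + ‖y * (F x - 1)‖) * ‖y * (F x - 1)‖ := hFh
      _ ≤ L * (2 * (q * R)) * (‖y‖ * D) := by gcongr
      _ = 2 * L * R * q * D * ‖y‖ := by ring
  calc ‖(dslope G 0 y - 1) * (F (G y) - 1) + (F (G y) - a) - err / y‖ ≤
        ‖(dslope G 0 y - 1) * (F (G y) - 1)‖ + ‖F (G y) - a‖ + ‖err / y‖ :=
        (norm_sub_le _ _).trans (add_le_add_left (norm_add_le _ _) _)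
    _ ≤ L * R * q * D + 4 * q * D + 2 * L * R * q * D := add_le_add (add_le_add b1 b2) b3
    _ = (3 * L * R + 4) * q * D := by ring

/-- elimination of the supremum -/
theorem final_est {F e : ℂ → ℂ} {a x₁ x₂ xs : ℂ} {q R D B K2 : ℝ} {N : ℕ} (hq : 0 < q)
    (hK2 : 0 ≤ K2) (hB : 0 ≤ B) (hR : 0 ≤ R) (hqK : K2 * q ≤ 1 / 4) (hxs : ‖xs‖ ≤ R)
    (hDs : ‖F xs - 1‖ = D) (hF0 : F 0 = a)
    (h1 : F x₁ = 1) (h2 : F x₂ = 1) (h10 : x₁ ≠ 0) (h20 : x₂ ≠ 0) (h1R : ‖x₁‖ ≤ R) (h2R : ‖x₂‖ ≤ R)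
    (he : ∀ x : ℂ, ‖x‖ ≤ R → ‖e (q * x)‖ ≤ B)
    (hcore : ∀ x : ℂ, x ≠ 0 → ‖x‖ ≤ R →
      ‖F x - 1 - (a - 1) - (q * x) ^ N * e (q * x)‖ ≤ K2 * q * D) :
    ‖x₁ ^ N * e (q * x₁) - x₂ ^ N * e (q * x₂)‖ ≤ 8 * K2 * (B * R ^ N) * q := by
  have hpow : ∀ x : ℂ, ‖x‖ ≤ R → ‖(q * x) ^ N * e (q * x)‖ ≤ B * R ^ N * q ^ N := by
    intro x hx
    rw [norm_mul, norm_pow, norm_mul, Complex.norm_real, Real.norm_of_nonneg hq.le, mul_pow]
    calc q ^ N * ‖x‖ ^ N * ‖e (q * x)‖ ≤ q ^ N * R ^ N * B := by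
          have := he x hx
          gcongr
      _ = B * R ^ N * q ^ N := by ring
  set W := B * R ^ N * q ^ N with hW
  have hW0 : 0 ≤ W := by positivity
  have hD0 : 0 ≤ D := by rw [← hDs]; exact norm_nonneg _
  have c1 := hcore x₁ h10 h1R
  have c2 := hcore x₂ h20 h2R
  rw [h1, sub_self, zero_sub] at c1
  rw [h2, sub_self, zero_sub] at c2
  have hβ : ‖a - 1‖ ≤ W + K2 * q * D := by
    have e1 : a - 1 = -(-(a - 1) - (q * x₁) ^ N * e (q * x₁)) - (q * x₁) ^ N * e (q * x₁) := by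
      ring
    rw [e1]
    refine (norm_sub_le _ _).trans ?_
    rw [norm_neg]
    linarith [hpow x₁ h1R]
  have hD : D ≤ 2 * W + 2 * (K2 * q * D) := by
    by_cases h : xs = 0
    · rw [← hDs, h, hF0]
      have : 0 ≤ K2 * q * D := by positivity
      rw [← hDs, h, hF0] at this hβ
      linarith
    · have e1 : F xs - 1 = (F xs - 1 - (a - 1) - (q * xs) ^ N * e (q * xs)) + (a - 1) +
          (q * xs) ^ N * e (q * xs) := by ring
      have e2 : ‖F xs - 1‖ ≤ K2 * q * D + (W + K2 * q * D) + W := by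
        conv_lhs => rw [e1]
        refine (norm_add_le _ _).trans (add_le_add ((norm_add_le _ _).trans
          (add_le_add (hcore xs h hxs) hβ)) (hpow xs hxs))
      linarith
  have hD4 : D ≤ 4 * W := by nlinarith
  have e3 : ((q : ℂ) ^ N) * (x₁ ^ N * e (q * x₁) - x₂ ^ N * e (q * x₂)) =
      (-(a - 1) - (q * x₂) ^ N * e (q * x₂)) - (-(a - 1) - (q * x₁) ^ N * e (q * x₁)) := by
    rw [mul_pow, mul_pow]
    ring
  have e4 : ‖((q : ℂ) ^ N) * (x₁ ^ N * e (q * x₁) - x₂ ^ N * e (q * x₂))‖ ≤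
      q ^ N * (8 * K2 * (B * R ^ N) * q) := by
    rw [e3]
    calc _ ≤ K2 * q * D + K2 * q * D := (norm_sub_le _ _).trans (add_le_add c2 c1)
      _ ≤ K2 * q * (4 * W) + K2 * q * (4 * W) := by gcongr
      _ = q ^ N * (8 * K2 * (B * R ^ N) * q) := by rw [hW]; ring
  rw [norm_mul, norm_pow, Complex.norm_real, Real.norm_of_nonneg hq.le] at e4
  exact le_of_mul_le_mul_left e4 (by positivity)

end PSLaux

open PSLaux Pool.Agent.W746.LD in
theorem t_PSL : S_PSL := by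
  intro G Fh ρ q₀ X0 x₁ x₂ hρ hq₀ hG hF hG0 hF0 hG1 hF1 h0 hx₁ hx₂ hne hu₁ hu₂ hκ
  by_contra hcon
  obtain ⟨C0, c0, K⟩ := exists_KC
  have hC0 := K.one_le
  have hnb : ball (0 : ℂ) ρ ∈ 𝓝 (0 : ℂ) := ball_mem_nhds _ hρ
  have hGa : AnalyticAt ℂ G 0 := hG.analyticAt hnb
  have hFa : AnalyticAt ℂ Fh 0 := hF.analyticAt hnb
  -- the difference
  have hEa : AnalyticAt ℂ (fun z => G z - Fh z) 0 := hGa.sub hFa
  obtain ⟨m, e, hea, he0, hE⟩ := hEa.exists_eventuallyEq_pow_smul_nonzero_iff.2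
    (fun h => hcon (h.mono fun z hz => sub_eq_zero.1 hz))
  obtain ⟨N, rfl, hN⟩ : ∃ N, m = N + 1 ∧ N ≠ 0 := by
    rcases m with _ | _ | m
    · exfalso
      have := hE.self_of_nhds
      rw [hG0, hF0] at this
      simp at this
      exact he0 this.symm
    · exfalso
      have h1 : HasDerivAt (fun z => G z - Fh z) (1 - 1) 0 := by
        have a1 := (hGa.differentiableAt).hasDerivAt
        have a2 := (hFa.differentiableAt).hasDerivAt
        rw [hG1] at a1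
        rw [hF1] at a2
        exact a1.sub a2
      have h2 : HasDerivAt (fun z : ℂ => (z - 0) ^ (0 + 1) • e z) (e 0) 0 := by
        have a1 : HasDerivAt (fun z : ℂ => z * e z) (1 * e 0 + 0 * deriv e 0) 0 :=
          (hasDerivAt_id (0 : ℂ)).mul hea.differentiableAt.hasDerivAt
        rw [one_mul, zero_mul, add_zero] at a1
        refine a1.congr_of_eventuallyEq (Eventually.of_forall fun z => ?_)
        simp
      have h3 := (h1.congr_of_eventuallyEq (EventuallyEq.symm hE)).unique h2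
      rw [sub_self] at h3
      exact he0 h3.symm
    · exact ⟨m + 1, rfl, by omega⟩
  obtain ⟨LG, hLG, hLG'⟩ := expand_G hGa hG0 hG1
  obtain ⟨LF, s, hLF, hs, hLF'⟩ := expand_F hFa hF1
  -- constants
  set R : ℝ := 1 + ∑ x ∈ X0, ‖x‖ with hR
  have hR1 : 1 ≤ R := by
    have : 0 ≤ ∑ x ∈ X0, ‖x‖ := Finset.sum_nonneg fun x _ => norm_nonneg x
    linarith
  have hXR : ∀ x ∈ X0, ‖x‖ ≤ R := by
    intro x hx
    have : ‖x‖ ≤ ∑ x ∈ X0, ‖x‖ :=
      Finset.single_le_sum (f := fun x : ℂ => ‖x‖) (fun x _ => norm_nonneg x) hx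
    linarith
  set L := max LG LF with hL
  have hL0 : 0 ≤ L := hLG.trans (le_max_left _ _)
  set K1 : ℝ := 8 * C0 * R / ρ with hK1
  have hK10 : 0 < K1 := by positivity
  set K2 : ℝ := 3 * L * R + 4 with hK2
  have hK20 : 0 < K2 := by positivity
  set B : ℝ := ‖e 0‖ + 1 with hB
  have hB0 : 0 ≤ B := by positivity
  have heB : ∀ᶠ y in 𝓝 (0 : ℂ), ‖e y‖ ≤ B := by
    have := hea.continuousAt.norm.tendsto.eventually_lt_const (show ‖e 0‖ < B by linarith)
    exact this.mono fun y hy => hy.le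
  obtain ⟨s', hs', hloc⟩ := Metric.eventually_nhds_iff_ball.1 (hLG'.and (hE.and heB))
  -- small `q`
  have hsm : ∀ c : ℝ, 0 < c → ∀ d : ℝ, 0 ≤ d → ∀ᶠ q : ℝ in 𝓝[>] 0, d * q < c := by
    intro c hc d _
    have : Tendsto (fun q : ℝ => d * q) (𝓝[>] 0) (𝓝 (d * 0)) :=
      ((continuous_const.mul continuous_id).tendsto 0).mono_left nhdsWithin_le_nhds
    rw [mul_zero] at this
    exact this.eventually_lt_const hc
  have hgap : ∀ x' ∈ X0, ∀ᶠ q : ℝ in 𝓝[>] 0, ∀ x ∈ X0, ‖x‖ ≠ ‖x'‖ →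
      4 * (K1 * q) * R < |‖x‖ - ‖x'‖| := by
    intro x' _
    rw [Filter.eventually_all_finset]
    intro x _
    by_cases h : ‖x‖ = ‖x'‖
    · exact Eventually.of_forall fun q h' => absurd h h'
    · have h1 : 0 < |‖x‖ - ‖x'‖| := abs_pos.2 (sub_ne_zero.2 h)
      filter_upwards [hsm _ h1 (4 * K1 * R) (by positivity)] with q hq _
      calc 4 * (K1 * q) * R = 4 * K1 * R * q := by ring
        _ < _ := hq
  have main : ∀ᶠ q : ℝ in 𝓝[>] 0,
      ‖x₁ ^ N * e (q * x₁) - x₂ ^ N * e (q * x₂)‖ ≤ 8 * K2 * (B * R ^ N) * q := by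
    filter_upwards [hgap x₁ hx₁, hgap x₂ hx₂, self_mem_nhdsWithin, hsm q₀ hq₀ 1 (by norm_num),
      hsm (1 / 2) (by norm_num) 1 (by norm_num), hsm (1 / 4) (by norm_num) K1 hK10.le,
      hsm ρ hρ (4 * R) (by positivity), hsm s hs (2 * R) (by positivity), hsm s' hs' R (by positivity),
      hsm (1 / 4) (by norm_num) K2 hK20.le] with q g1 g2 hq a1 a2 a3 a4 a5 a6 a7
    have hq : 0 < q := hq
    rw [one_mul] at a1 a2
    obtain ⟨κ, hd, hi, hκ0, hκX, hκe⟩ := hκ q hq a1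
    have hr : 0 < ρ / q := by positivity
    have hRr : R < ρ / q / 4 := by
      rw [lt_div_iff₀ (by norm_num : (0 : ℝ) < 4), lt_div_iff₀ hq]
      linarith
    set F := dslope κ 0 with hFd
    set a := deriv κ 0 with ha
    have hFm : ∀ x, κ x = x * F x := mul_slope hκ0
    have hFK : ∀ x : ℂ, ‖x‖ ≤ R → ‖F x - a‖ ≤ (K1 * q) * ‖a‖ := by
      intro x hx
      have h1 := slope_bound K hr hd hi hκ0 (x := x) (by linarith)
      refine h1.trans ?_
      calc 8 * C0 * ‖a‖ / (ρ / q) * ‖x‖ ≤ 8 * C0 * ‖a‖ / (ρ / q) * R := by gcongr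
        _ = (K1 * q) * ‖a‖ := by
          rw [hK1]
          field_simp
    obtain ⟨ha2, hmod⟩ := norm_bounds hx₁ h0 (η := K1 * q) (by linarith) (by positivity) hXR hFm
      (fun x hx => hFK x (hXR x hx)) hκX
    have hfix₁ : κ x₁ = x₁ := by
      apply hu₁ _ (hκX _ hx₁)
      by_contra hc
      have h2 := g1 _ (hκX _ hx₁) hc
      linarith [hmod x₁ hx₁]
    have hfix₂ : κ x₂ = x₂ := by
      apply hu₂ _ (hκX _ hx₂)
      by_contra hc
      have h2 := g2 _ (hκX _ hx₂) hc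
      linarith [hmod x₂ hx₂]
    have h10 : x₁ ≠ 0 := fun h => h0 (h ▸ hx₁)
    have h20 : x₂ ≠ 0 := fun h => h0 (h ▸ hx₂)
    have hF₁ : F x₁ = 1 := by
      have := hFm x₁
      rw [hfix₁] at this
      exact mul_left_cancel₀ h10 (by rw [mul_one]; exact this.symm)
    have hF₂ : F x₂ = 1 := by
      have := hFm x₂
      rw [hfix₂] at this
      exact mul_left_cancel₀ h20 (by rw [mul_one]; exact this.symm)
    have hFc : DifferentiableOn ℂ F (ball 0 (ρ / q)) := by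
      rw [hFd, Complex.differentiableOn_dslope (ball_mem_nhds _ hr)]
      exact hd
    have hsub : closedBall (0 : ℂ) R ⊆ ball 0 (ρ / q) := closedBall_subset_ball (by linarith)
    obtain ⟨xs, hxs, hmax⟩ := (isCompact_closedBall (0 : ℂ) R).exists_isMaxOn
      ⟨0, mem_closedBall_self (by linarith)⟩
      (f := fun x => ‖F x - 1‖) ((hFc.continuousOn.mono hsub).sub continuousOn_const).norm
    set D := ‖F xs - 1‖ with hD
    have hDb : ∀ x : ℂ, ‖x‖ ≤ R → ‖F x - 1‖ ≤ D := fun x hx =>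
      hmax (mem_closedBall_zero_iff.2 hx)
    have hF1a : ‖1 - a‖ ≤ 2 * (K1 * q) := by
      have h1 := hFK x₁ (hXR x₁ hx₁)
      rw [hF₁] at h1
      nlinarith [norm_nonneg a, mul_nonneg hK10.le hq.le]
    have hD1 : D ≤ 1 := by
      have h1 := hFK xs (mem_closedBall_zero_iff.1 hxs)
      have h2 : F xs - 1 = (F xs - a) - (1 - a) := by ring
      rw [hD, h2]
      refine (norm_sub_le _ _).trans ?_
      nlinarith [norm_nonneg a, mul_nonneg hK10.le hq.le]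
    have hsch : ∀ u : ℂ, ‖u‖ < R → ‖F u - a‖ ≤ 2 * D / R * ‖u‖ := by
      intro u hu
      have h1 := Complex.dist_le_div_mul_dist_of_mapsTo_ball (f := F) (c := 0) (R₁ := R)
        (R₂ := 2 * D) (hFc.mono (ball_subset_closedBall.trans hsub)) (fun y hy => by
          rw [mem_closedBall, dist_eq_norm]
          have e1 : F y - F 0 = (F y - 1) - (F 0 - 1) := by ring
          rw [e1]
          refine (norm_sub_le _ _).trans ?_
          have := hDb y (mem_ball_zero_iff.1 hy).le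
          have := hDb 0 (by rw [norm_zero]; linarith)
          linarith) (mem_ball_zero_iff.2 hu)
      rw [dist_eq_norm, dist_eq_norm, sub_zero, hFd, dslope_same] at h1
      exact h1
    refine final_est (F := F) (a := a) (xs := xs) (D := D) hq hK20.le hB0 (by linarith)
      (by linarith) (mem_closedBall_zero_iff.1 hxs) rfl (by rw [hFd, dslope_same]) hF₁ hF₂ h10 h20
      (hXR x₁ hx₁) (hXR x₂ hx₂) (fun x hx => ?_) (fun x hx0 hx => ?_)
    · refine (hloc (q * x) ?_).2.2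
      rw [mem_ball_zero_iff, norm_mul, Complex.norm_real, Real.norm_of_nonneg hq.le]
      nlinarith
    · have hqx : ‖(q : ℂ) * x‖ ≤ R * q := by
        rw [norm_mul, Complex.norm_real, Real.norm_of_nonneg hq.le]
        nlinarith
      have hl := hloc (q * x) (by rw [mem_ball_zero_iff]; linarith)
      have hh : ‖(q : ℂ) * x * (F x - 1)‖ ≤ R * q := by
        rw [norm_mul]
        have := hDb x hx
        nlinarith [norm_nonneg ((q : ℂ) * x), norm_nonneg (F x - 1)]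
      refine core (κ := κ) (G := G) (Fh := Fh) hq a2 (by linarith) hD1 hL0 hFm hDb hsch hx0 hx hG0
        ⟨hl.1.1.trans (by gcongr; exact le_max_left _ _), hl.1.2⟩ ?_ ?_ ?_
      · refine (hLF' _ _ (by linarith)).trans ?_
        gcongr
        exact le_max_right _ _
      · have := hl.2.1
        rw [sub_zero, smul_eq_mul] at this
        exact this
      · refine hκe x (mem_ball_zero_iff.2 (by linarith)) ?_
        have e1 : (q : ℂ) * κ x = q * x + q * x * (F x - 1) := by rw [hFm]; ring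
        rw [e1]
        refine (norm_add_le _ _).trans_lt ?_
        linarith
  -- the limit
  have hlim1 : ∀ x : ℂ, Tendsto (fun q : ℝ => x ^ N * e (q * x)) (𝓝[>] 0) (𝓝 (x ^ N * e 0)) := by
    intro x
    have h1 : Tendsto (fun q : ℝ => (q : ℂ) * x) (𝓝[>] 0) (𝓝 0) := by
      have : Tendsto (fun q : ℝ => (q : ℂ) * x) (𝓝 0) (𝓝 (((0 : ℝ) : ℂ) * x)) :=
        (Complex.continuous_ofReal.mul continuous_const).tendsto 0
      rw [Complex.ofReal_zero, zero_mul] at this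
      exact this.mono_left nhdsWithin_le_nhds
    exact (hea.continuousAt.tendsto.comp h1).const_mul _
  have hlim2 : Tendsto (fun q : ℝ => 8 * K2 * (B * R ^ N) * q) (𝓝[>] 0) (𝓝 0) := by
    have : Tendsto (fun q : ℝ => 8 * K2 * (B * R ^ N) * q) (𝓝 0) (𝓝 (8 * K2 * (B * R ^ N) * 0)) :=
      (continuous_const.mul continuous_id).tendsto 0
    rw [mul_zero] at this
    exact this.mono_left nhdsWithin_le_nhds
  have hle := le_of_tendsto_of_tendsto ((hlim1 x₁).sub (hlim1 x₂)).norm hlim2 main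
  have h5 : x₁ ^ N * e 0 - x₂ ^ N * e 0 = 0 := norm_le_zero_iff.1 hle
  have h6 : x₁ ^ N = x₂ ^ N := mul_right_cancel₀ he0 (sub_eq_zero.1 h5)
  apply hne
  have h7 : ‖x₁‖ ^ N = ‖x₂‖ ^ N := by rw [← norm_pow, ← norm_pow, h6]
  exact (pow_left_inj₀ (norm_nonneg _) (norm_nonneg _) hN).1 h7

end Pool.Agent.H212.ND
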