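import Pool.Agent.H212.ND.StmT
import Pool.Agent.H212.MB.Stm3

/-!
# Project ND (MP_395436_an): membership of the perturbed polynomials in `B(z^n)`

Statements of project MB (all proved there: `MB.t_X`, or for `S_QSLIM`, `S_LA`, `S_TR`, `S_SURG`, … the theorems `hX` of
`Pool.Agent.H212.MB.All`) are used as hypotheses `(h : MB.S_X)`; every `MB.S_X` may be used as a hypothesis even if the docstring does
not name it (put these hypotheses first and tell me their order).
-/

set_option autoImplicit false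

open Filter Metric Set Topology Polynomial
open scoped ComplexConjugate

namespace Pool.Agent.H212.ND

open Pool.Agent.H212.MB

/-- JOB UTR (uses `MB.S_STEP`, `MB.S_FUND`, `MB.S_HALF`, `MB.S_PROP`, `MB.S_DISC`; or their proofs in `Pool/Agent/H212/MB/T_*.lean` on
origin/main, which you may import or copy and adapt).  Transition maps with a uniform constant.  Proof.  Otherwise there are
`B_j` with `‖(B_j).a i‖ ≤ r` and no transition map with constant `1 - 1/j`; wlog `a`, `b` (and so `c`, which is determined by `fix`)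
converge to those of a Blaschke product `B`.  It suffices to find `k < 1` which works for all large `j`.
(1) Lifts: as in `MB.S_LIFT`, `α_j w = γ_j + n w - i ∑_i [log (1 - a_i exp (-iw)) - log (1 - conj a_i exp (iw))]` on the strip
`|im w| < η₀ = log (1/r)` (`r > 0`), `α_j → α` uniformly on smaller strips with all derivatives, for a suitable choice of the
`γ_j` and of the fixed points `x_j → x₀`.  (2) Inverse branches: in `MB.S_INVB` the numbers `m`, `η₂`, `M` with `re α' ≥ m > 1`,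
`‖α'‖ ≤ M` on `|im w| ≤ η₂` can be chosen for all large `j` at the same time (with `m` a little smaller), so (repeat the proof
of `t_INVB`) `InvBr n η₂ α_j G_j η₁ m c` and `InvBr n η₂ α G η₁ m c` with common constants, and `G_j → G` uniformly on the strip
(`‖G_j w - G w‖ ≤ ‖α_j (G w) - α (G w)‖ / m`), with derivatives on smaller strips.  (3) `MB.S_FUND` for `G` gives `η, θ, k, C, T₁` (`Fund n G η₁ …`); wlog
`n θ > 1` (the structure is monotone in `θ < 1`: replace `θ` by `max θ ((n+1)/(2n))`).  Let `χ : ℝ → ℝ` be smooth, `χ = 1` on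
`(-∞, η]`, `χ = 0` on `[η', ∞)` with `η < η' < θ n η`, and `T₁^j w = T₁ w + χ(im w) (G_j (n w) - G (n w))` (the last term is `0` for
`im w ≥ η'`).  For large `j` it is `C¹` close to `T₁` on `θ η < im w` (uniformly, periodicity), so `Fund n G_j η₁ η θ ((k+1)/2) (C+1) T₁^j`:
for `imp`, `iml`, `nd`, `dil` use that on the closed region `θ'η ≤ im w ≤ n η`, `θ' > θ`, `im T₁`, `η₁ - im T₁`, `‖dz T₁‖` are bounded below by
compactness and periodicity (so first replace `θ` by a slightly larger number).  (4) `MB.S_HALF`, `MB.S_DISC` with the constant `(k+1)/2`. -/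
def S_UTR : Prop := ∀ n : ℕ, 2 ≤ n → ∀ r : ℝ, r < 1 → ∃ k : ℝ, 0 ≤ k ∧ k < 1 ∧ ∀ B : Blaschke n,
  (∀ i, ‖B.a i‖ ≤ r) → ∃ T : ℂ ≃ₜ ℂ, IsTr (zn n) B k T

/-- JOB CTY (uses `S_UTR` and, from MB, `S_BL, S_SIG, S_RTOP, S_QSLIM, S_LA, S_TRALG, S_SURG, S_CPT, S_UNIQ, S_CIRC, S_QFORM, S_REL`).
Continuity of the mating in `B`.  Proof.  Let `a_j = lim (B i).a j`, `b = lim (B i).b` along `u` (compactness), `B₀` the Blaschke product with
these data (`c = 1 / ∏ ((b - a_j)/(1 - conj a_j b))` is the limit of the `(B i).c`).  `f₀` a mating of `zn n` and `B₀` (`MB.S_REL`), with data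
`φ₀, ψ₀, h₀`.  `T i`, `T₀` from `S_UTR` with the common `k`; `S' i = T₀.symm.trans (T i)` is a transition map from `B₀` to `B i` with a
common constant `k'` (`MB.S_TRALG`).  Surgery (`MB.S_SURG`, `S = Homeomorph.refl`): `H i` (WQS with a common constant), `φ i`, `ψ i` mating data
of a mating of `zn n` and `B i`, which is `f i` (`MB.S_UNIQ`); `H i (φ₀ z) = φ i z`, `H i (ψ₀ z) = ψ i (S' i z)`.  `MB.S_CPT`: `f i → F`, `φ i → Φ`
on `Ext`, `IsExt (zn n) F Φ`.  `MB.S_QSLIM` (normalised at `φ₀ 2`, `φ₀ 8` with `‖φ i z - z‖ ≤ 2/‖z‖`, `MB.S_SIG`) `H i → H`; `Φ = H ∘ φ₀` on `Ext`.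
`S' i` is WQS with a common constant (`MB.S_LA`; `IsTr` gives `QCOff`), fixes `0` (`ident`) and maps the unit circle to itself, so `S' i → S'`
(`MB.S_QSLIM` with `p = 0`, `q = 1`), with the inverses.  On the circle `S' (B₀ z) = B₀ (S' z)` (limit of `semi`), `S' b = b`; the lifts of the `S' i`
to the line (`IsTr.lift`, normalised to be bounded) converge to a lift of `S'`, continuous and strictly increasing as `S'` is injective on the
circle; by `MB.S_CIRC` (compare `S' ∘ s` and `s`, where `s` is the lift of `T₀`) `S' = id` on the circle.  `Ψ = H ∘ ψ₀ ∘ S'.symm` is the uniform limit of the `ψ i`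
on the closed disc, so it is holomorphic in the disc; injective, continuous; `F.ev (Ψ z) = Ψ (B₀.ev z)` (limit; `F.Q = 1`).  So
`IsMatingData (zn n) B₀ F Φ' Ψ h₀` with `Φ' = H ∘ φ₀` on `CExt`, and `F` is a mating of `zn n` and `B₀`. -/
def S_CTY : Prop := ∀ n : ℕ, 2 ≤ n → ∀ r : ℝ, r < 1 → ∀ (ι : Type) (u : Ultrafilter ι) (B : ι → Blaschke n)
  (f : ι → RMap n), (∀ᶠ i in (u : Filter ι), (∀ j, ‖(B i).a j‖ ≤ r) ∧ IsMating (zn n) (B i) (f i)) →
    ∃ (B₀ : Blaschke n) (F : RMap n), IsMating (zn n) B₀ F ∧ Tendsto f u (𝓝 F) ∧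
      (∀ j, Tendsto (fun i => (B i).a j) u (𝓝 (B₀.a j))) ∧ Tendsto (fun i => (B i).b) u (𝓝 B₀.b)

/-- JOB CEN (uses `MB.S_QFORM`, `MB.S_SIG`).  Proof.  `g.Q = qpol = 1`.  `g.P (φ z) = φ (z^n) = z^n + o(1)` and
`φ z = z + o(1)`, even `φ z = z + O(1/z)` (`MB.S_SIG`), so `g.P (φ z) = z^n + coeff (n-1) z^(n-1) + O(z^(n-2))`. -/
def S_CEN : Prop := ∀ n : ℕ, 2 ≤ n → ∀ (g : RMap n) (φ : ℂ → ℂ), IsExt (zn n) g φ → g.Q = 1 ∧ g.P.coeff (n - 1) = 0

/-- JOB INB (uses `MB.S_BL`, `MB.S_EXTU`).  `B` is determined by the polynomial.  Proof.  Mating data `φ, ψ, h` and `φ', ψ', h'`.  `φ = φ'` on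
`Ext` (`MB.S_EXTU`) and on `CExt`.  `ψ '' closedBall = ψ' '' closedBall`, the interiors are `ψ '' ball`, `ψ' '' ball` (the points `ψ ζ` are limits
of points of `φ '' Ext` by `glue`).  `χ = ψ'⁻¹ ∘ ψ` is a homeomorphism of the closed disc, holomorphic inside, `χ ∘ B.ev = B'.ev ∘ χ`;
`χ 0` is a fixed point of `B'.ev` in the disc, so it is `0` (`‖B' z‖ < ‖z‖` for `z ≠ 0`, `n ≥ 2`); Schwarz: `χ` is a rotation; `ψ 1 = φ 1 = ψ' 1`, so
`χ 1 = 1`, `χ = id`.  So `B.ev = B'.ev` on the disc, `num * den' = num' * den` as polynomials; compare the zeros in the open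
unit disc with multiplicities. -/
def S_INB : Prop := ∀ n : ℕ, 2 ≤ n → ∀ (B B' : Blaschke n) (g : RMap n), B.b = 1 → B'.b = 1 → IsMating (zn n) B g →
  IsMating (zn n) B' g → ∏ i, (X - C (B.a i)) = ∏ i, (X - C (B'.a i))

/-- JOB OPE (uses `S_CTY`, `S_CEN`, `S_INB`, `MB.S_REL`, `MB.S_UNIQ`, `MB.S_RTOP`).  `B(z^n)` is open in the space of the monic centred polynomials.
Proof.  `m = n - 1`.  `D` = the set of the `e : Fin m → ℂ` such that all the roots of `q_e = X^m + ∑ e_j X^j` are in the open unit disc, an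
open set (continuity of the roots: e.g. `D` is open since roots are bounded and limits of roots are roots).  For `e ∈ D` let `B_e`
be the Blaschke product with the zeros the roots of `q_e` and `b = 1` (`c = ∏ (1 - conj a_i)/(1 - a_i)`), and `E e : Fin m → ℂ` the
coefficients `0, …, n - 2` of the polynomial `f_e.P`, `f_e` the mating of `zn n` and `B_e` (exists and is unique by `MB.S_REL`, `MB.S_UNIQ`; it does
not depend on the order of the roots: `IsMatingData` depends only on `B.ev`, `B.b`).  `E` is continuous by `S_CTY` (locally `‖roots‖ ≤ r < 1`;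
the limit `B₀` has `∏ (X - a_i) = q_e`, `b = 1`) and injective by `S_CEN`, `S_INB`.  By invariance of domain (library:
Pool/Graph/R_seed8/Helper514/IoD.lean) `E '' D` is open in `ℂ^m`.  If `g ∈ BB (zn n)`, `IsMatingData (zn n) B g φ ψ h`, then with
`ψ' z = ψ (B.b z)`, `B'` with the zeros `a_i / B.b`, `b = 1`, `h' = h - arg`: `g` is in the family.  `g'` of the statement has the coefficients
of a point of `E '' D`, `Q = 1`, `coeff (n-1) = 0`, so it is equal to `f_e`. -/
def S_OPE : Prop := ∀ n : ℕ, 2 ≤ n → ∀ g ∈ BB (zn n), ∃ ε : ℝ, 0 < ε ∧ ∀ g' : RMap n, g'.Q = 1 →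
  g'.P.coeff (n - 1) = 0 → (∀ j, j < n → ‖g'.P.coeff j - g.P.coeff j‖ < ε) → g' ∈ BB (zn n)

/-- JOB ZCR.  If the critical points stay away from the circle, so do the zeros.  Proof.  Otherwise there are `B_j` with the
critical points in the open unit disc all of modulus `≤ r` and a zero tending to a point `ζ` of the circle; wlog `a → a°`, `c → c°`
(`a°_i = ζ` for some `i`).  Let `P_j = c X ∏ (X - a_i)`, `Q_j = ∏ (1 - conj a_i X)`, `N_j = P_j' Q_j - P_j Q_j'`, of degree `≤ 2n - 2`.  `N_j z = 0`,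
`‖z‖ < 1`, iff `deriv B z = 0`.  `N_j` has no zeros with `r < ‖z‖ < 1` (hypothesis), none on the circle (there
`‖B' z‖ = ∑ …≥ 1`: `z B'/B = 1 + ∑ (1 - ‖a_i‖²)/‖z - a_i‖²`), none with `1 < ‖z‖ < 1/r` (symmetry: `z^(2n-2) conj (N (1/conj z)) = const N z`).
So with the factorisation into linear factors `max_circle ‖N_j‖ ≤ K min_circle ‖N_j‖`, `K = ((1+r)/(1-r))^(2n-2)` (for `‖z₀‖ ≤ r` or
`‖z₀‖ ≥ 1/r` the ratio of the maximum and the minimum of `‖z - z₀‖` on the circle is `≤ (1+r)/(1-r)`).  In the limit `N = P' Q - P Q'`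
(coefficientwise) satisfies the same inequality and `N ζ = 0` (`P ζ = Q ζ = 0`), so `N = 0` on the circle, `N = 0`, so `(P/Q)' = 0`, but
`P 0 = 0`, `Q 0 = 1`, so `P = 0`, a contradiction. -/
def S_ZCR : Prop := ∀ n : ℕ, 2 ≤ n → ∀ r : ℝ, r < 1 → ∃ r' : ℝ, r' < 1 ∧ ∀ B : Blaschke n,
  (∀ z : ℂ, ‖z‖ < 1 → deriv B.ev z = 0 → ‖z‖ ≤ r) → ∀ i, ‖B.a i‖ ≤ r'

/-- JOB CLO (uses `S_CTY`, `S_CEN`, `S_ZCR`, `MB.S_BL`, `MB.S_QFORM`, `MB.S_RTOP`).  A limit of matings with an attracting fixed point `x` whose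
basin contains a connected compact set with `x` and the critical points is a mating.  Proof.  `f.Q = 1` (limit of `(p k).Q = 1`).  Let `D` be a small closed disc
around `x` with `f '' D ⊆ interior D` (`‖f' x‖ < 1`), `m` with `f^[m] '' K ⊆ interior D` (compactness).  Let `O` be the union of the balls of radius `δ`
around the points of `K`, connected, open, and `O'` the same with `2δ`, with `f^[m] '' closure O' ⊆ interior D`.  For large `k`:
`(p k)^[m] '' O' ⊆ D`, `p k '' D ⊆ D`, the critical points of `p k` are in the `δ/2`-neighbourhood of those of `f` (roots of converging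
polynomials of the same degree).  Mating data `φ k, ψ k, h k` of `p k`: the points of `O'` and `D` have bounded orbits, so they are not in
`φ k '' Ext`, so they are in the interior `ψ k '' ball 0 1` of the complement; `χ k = (ψ k)⁻¹ : O' ∪ interior D → ball 0 1` is
holomorphic.  `p k` has a fixed point `x k ∈ D`, `x k → x` (Brouwer is not needed: `p k` is a contraction of `D`, or Rouché), and `χ k (x k)` is a fixed point of
`B_k` in the disc, so it is `0` (`MB.S_BL`).  Along an ultrafilter `χ k → χ` locally uniformly on `O'` (Montel; library ZFM/Riem.lean), `‖χ‖ ≤ 1`, `χ x = 0`, `O` connected: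
by the maximum principle `‖χ‖ < 1` on `O`, so `‖χ‖ ≤ r₀ < 1` on the compact `δ/2`-neighbourhood `K'` of `K`, and for `u`-most `k` `‖χ k‖ ≤ r = (1 + r₀)/2` on `K'`.
A critical point `z` of `B_k` in the disc gives a critical point `ψ k z` of `p k` (`p k ∘ ψ k = ψ k ∘ B_k`, `ψ k' ≠ 0`), in `K'`, so
`‖z‖ ≤ r`.  `S_ZCR`: the zeros of `B_k` have modulus `≤ r' < 1`.  `S_CTY`: `p k` converges along `u` to a mating of `zn n` and some `B₀`; the
limit is `f`. -/
def S_CLO : Prop := ∀ n : ℕ, 2 ≤ n → ∀ (p : ℕ → RMap n) (f : RMap n) (K : Set ℂ) (x : ℂ), (∀ k, p k ∈ BB (zn n)) →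
  Tendsto p atTop (𝓝 f) → IsCompact K → IsPreconnected K → x ∈ K → f.P.eval x = x → ‖f.P.derivative.eval x‖ < 1 →
  (∀ z, f.P.derivative.eval z = 0 → z ∈ K) →
  (∀ z ∈ K, Tendsto (fun m => (fun w : ℂ => f.P.eval w)^[m] z) atTop (𝓝 x)) → f ∈ BB (zn n)

/-- the certificate for the perturbed map (proved in `StmN`) -/
def S_CERT : Prop := ∀ (n : ℕ) (g : ℂ[X]) (c₀ : ℝ) (c : ℂ), Good n g c₀ c → ∃ S₀ : ℝ, 0 < S₀ ∧ ∀ P : ℂ, P.im ≤ -S₀ →
  P.re ≤ 0 → ∃ K : Set ℂ, IsCompact K ∧ IsPreconnected K ∧ (1 : ℂ) ∈ K ∧ (∀ z, g.derivative.eval z = 0 → z ∈ K) ∧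
    ∀ z ∈ K, Tendsto (fun m => (pl g P)^[m] z) atTop (𝓝 1)

/-- JOB MEM (uses `S_OPE`, `S_CLO`, `S_CERT`, `MB.S_RTOP`).  Membership.  Proof.  (0) `F 0`, `P = X^n`, `Q = 1`, is the mating of `zn n` and `zn n`
(`φ = ψ = id`, `h = id`).  (i) The set of the `t ∈ [0, 1)` with `F (t * aa n g) ∈ BB (zn n)` contains `0`; it is open in `[0, 1)` by
`S_OPE` (`Fam.cont`, `Q`, `cen`), and closed in `[0, 1)` by `S_CLO`: for `0 < t < 1`, `a = t aa`, `λ = t^(n-1)` (`aa^(n-1) = coeff n`),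
`z ↦ y = z/a + b₀` conjugates `F a` to `plam g λ` (`Fam.ev`); let `K` be the preimage of the closed unit disc, `x` that of `1`: for `‖y‖ ≤ 1`
`‖g y‖ ≤ 1` (`disc`), so `‖p y‖ ≤ 1` (`p y` is a convex combination of `1` and `g y`), `‖p y - 1‖ ≤ λ ‖y - 1‖` (`lip`); the derivative at
`1` is `λ`; `crit`.  (ii) For `P` as in the statement, `P_τ = τ P.re + i P.im`, `τ ∈ [0, 1]`; `a = ap n g P_τ`, `a^(n-1) / coeff n = exp (2πi/P_τ)`,
`‖exp (2πi/P_τ)‖ < 1`; at `τ = 0` it is (i): `ap n g (i P.im) = aa * exp (2π / ((n-1) P.im))`, `P.im < 0`.  Open and closed by `S_OPE`,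
`S_CLO` with `S_CERT`. -/
def S_MEM : Prop := ∀ (n : ℕ) (g : ℂ[X]) (c₀ : ℝ) (c : ℂ) (F : ℂ → RMap n), Good n g c₀ c → Fam n g F →
  (∀ t : ℝ, 0 < t → t < 1 → F (t * aa n g) ∈ BB (zn n)) ∧
  ∃ S₀ : ℝ, 0 < S₀ ∧ ∀ P : ℂ, P.im ≤ -S₀ → P.re ≤ 0 → F (ap n g P) ∈ BB (zn n)

end Pool.Agent.H212.ND
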