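import Pool.Agent.H212.ND.StmA
import Pool.Agent.H212.ND.StmM

/-!
# Project ND (MP_395436_an): links at the parabolic polynomial, rigidity, and the final theorem

`ĝ = F (aa n g)` is the monic centred polynomial conjugate to `g` by `y = z / a + b₀`, `a = aa n g`, `b₀ = bb n g` (`Fam.ev` with
`a^(n-1) / g.coeff n = 1`).
-/

set_option autoImplicit false

open Filter Metric Set Topology Polynomial
open scoped ComplexConjugate

namespace Pool.Agent.H212.ND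

open Pool.Agent.H212.MB

/-- the limits of the partners of `g` are unique -/
def Uniq {n : ℕ} (A : Blaschke n) (g : RMap n) : Prop := ∀ f f' : RMap n, (g, f) ∈ EE A → (g, f') ∈ EE A → f = f'

/-- `K` links `g` (in the coordinate `y`) and `f` -/
structure Lnk {n : ℕ} (A : Blaschke n) (T : ℂ ≃ₜ ℂ) (g : ℂ[X]) (φ : ℂ → ℂ) (f : RMap n) (φ' : ℂ → ℂ) (K : ℂ ≃ₜ ℂ) :
    Prop where
  ext : IsExt A f φ'
  out : ∀ z ∈ MB.Ext, K (φ z) = φ' (T z)
  inn : ∀ y, y ∉ φ '' MB.Ext → f.Q.eval (K y) ≠ 0 ∧ f.ev (K y) = K (g.eval y)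

/-- the package of `MB.S_REL`: a transition map and the links of all pairs -/
structure TRL {n : ℕ} (A : Blaschke n) (k C : ℝ) (T : ℂ ≃ₜ ℂ) : Prop where
  k0 : 0 ≤ k
  k1 : k < 1
  tr : IsTr (zn n) A k T
  lk : ∀ g f, Rel A g f → ∃ (H : ℂ ≃ₜ ℂ) (φ φ' : ℂ → ℂ), Link A T C g f H φ φ' ∧
    DifferentiableOn ℂ H (interior (φ '' MB.Ext)ᶜ)

/-- JOB LNK (uses `MB.S_EXTU`).  Change of coordinates.  Proof.  `a = aa n g ≠ 0`, `a^(n-1) = g.coeff n`.  `φ̂ z = a (φ z - b₀)` satisfies `IsExt (zn n) (F a) φ̂`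
(`Bot.asym`, `Bot.semi`, `Fam.ev`, `Q = 1`), so `Φ = φ̂` on `Ext` (`MB.S_EXTU`).  `K0 y = K (a (y - b₀))`.  Everything is a computation:
`(F a).ev z = a (g (z/a + b₀) - b₀)`. -/
def S_LNK : Prop := ∀ (n : ℕ) (g : ℂ[X]) (c₀ : ℝ) (c : ℂ) (φ : ℂ → ℂ) (F : ℂ → RMap n) (A : Blaschke n) (C : ℝ) (T K : ℂ ≃ₜ ℂ)
  (f : RMap n) (Φ φ' : ℂ → ℂ), Good n g c₀ c → Pic n g c₀ φ → Fam n g F → Link A T C (F (aa n g)) f K Φ φ' →
    (∀ z ∈ MB.Ext, Φ z = aa n g * (φ z - bb n g)) ∧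
    ∃ K0 : ℂ ≃ₜ ℂ, (∀ y, K0 y = K (aa n g * (y - bb n g))) ∧ Lnk A T g φ f φ' K0

/-- JOB RDL (uses `S_MEM`, `S_LNK`, `S_BASN`, `MB.S_REL`, `MB.S_CLOS`, `MB.S_LIM`, `MB.S_RTOP`).  The radial link.  Proof.
`t_k = 1 - 1/(k+2)`, `a_k = t_k aa n g`, `g_k = F (a_k) ∈ BB (zn n)` (`S_MEM`), `g_k → ĝ = F (aa n g)`.  `f_k` with `Rel A g_k f_k`
(`MB.S_REL`), `EE A` is compact (`MB.S_CLOS`): along an ultrafilter `u ≤ atTop` `f_k → f`, `(ĝ, f) ∈ EE A`.  Links `H_k` (`TRL.lk`), limit `K`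
(`MB.S_LIM`), `K0` from `S_LNK`.  Holomorphy: let `D ⊆ Bas` be a closed disc; `g^[m] '' D ⊆ ball c₀ (1 - c₀)` for some `m` (compactness; the sets
increase, `disc`), so for large `k`, `λ_k = t_k^(n-1) → 1`, `(plam g λ_k)^[m] '' D ⊆ ball c₀ (1 - c₀) ⊆ closedBall 0 1`, and `closedBall 0 1` is mapped into
itself by `plam g λ`, `0 < λ < 1` (convex combination of `1` and `g y`).  So for `y ∈ D` the point `z = a_k (y - b₀)` has a bounded orbit under `g_k`, so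
`z ∉ φ_k '' Ext`; so `y ↦ H_k (a_k (y - b₀))` is holomorphic in the interior of `D`, and converges locally uniformly to `K0`. -/
def S_RDL : Prop := ∀ (n : ℕ) (g : ℂ[X]) (c₀ : ℝ) (c : ℂ) (φ : ℂ → ℂ) (F : ℂ → RMap n) (A : Blaschke n) (k C : ℝ) (T : ℂ ≃ₜ ℂ),
  Good n g c₀ c → Pic n g c₀ φ → Fam n g F → TRL A k C T →
    ∃ (f : RMap n) (φ' : ℂ → ℂ) (K0 : ℂ ≃ₜ ℂ), (F (aa n g), f) ∈ EE A ∧ Lnk A T g φ f φ' K0 ∧
      DifferentiableOn ℂ K0 (Bas g c₀)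

/-- JOB TNL (uses `S_MEM`, `S_LNK`, `S_BASN`, `S_TRC'`, `S_LAV'` (the statements of `StmN`, repeated below), `MB.S_REL`, `MB.S_CLOS`, `MB.S_LIM`,
`MB.S_EXTU`, `MB.S_SIG`, `MB.S_RTOP`).  The tangential links.  Proof.  `S₁ ≥` the `S₀` of `S_MEM` and the `S₁` of `S_TRC`; `ρ` from `IsTr.semi` of `T`, `S ≥ S₁`.
`P_k = -k - i S`, `a_k = ap n g P_k → aa n g`, `g_k = F (a_k) ∈ BB (zn n)`, `g_k → ĝ`; partners `f_k`, along an ultrafilter
`f_k → f₁`, `(ĝ, f₁) ∈ EE A`, so `f₁ = f` (`Uniq`).  Links `H_k → K`, `(H_k)⁻¹ → K⁻¹` (`MB.S_LIM`), `K_S` from `S_LNK`, with an exterior map which agrees with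
`φ'` on `Ext` (`MB.S_EXTU`), so `Lnk` holds with `φ'`.  Coordinates: `y = z/a_k + b₀` conjugates `g_k` to `pl g P_k`.  Holomorphy below the level `S - Y₁`: for a
closed disc `E` in the (open) set, by `S_TRC` for large `k` the orbits of the `y ∈ E` under `pl g P_k` are bounded, so `H_k` is holomorphic in the
interior of `a_k (E - b₀)`, as in RDL.  Lavaurs map: (a) `H_k` conjugates `g_k` and `f_k` also at the points `x = φ_k w`, `1 < ‖w‖ < ρ`: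
`f_k.ev (H_k x) = f_k.ev (φ'_k (T w)) = φ'_k (A.ev (T w)) = φ'_k (T (w^n)) = H_k (g_k.ev x)`, `f_k.Q ≠ 0` there (`IsTr.semi`, `MB.S_QFORM` or
`IsExt.semi`).  So at all `x ∉ φ_k '' {ρ ≤ ‖w‖}`.  If `g_k^[j] x ∉ φ_k '' {ρ ≤ ‖w‖}` for `j = k` then also for all `j ≤ k` (`g_k (φ_k w) = φ_k (w^n)`), and then
`f_k.ev^[k] (H_k x) = H_k (g_k^[k] x)`, and `f_k.ev^[k]` is holomorphic at `H_k x`.  (b) Let `y₀ ∈ Bas`, `ψ (Φ y₀ - i S) ∈ Nn φ ρ`; for a small closed disc `D`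
around `y₀` the compact set `(ψ (Φ · - iS)) '' D` is in the open set `Nn φ ρ`, and by `S_LAV` `(pl g P_k)^[k]` is uniformly close to this map on `D`; so for
large `k` and `x = a_k (y - b₀)`, `y ∈ D`, `g_k^[k] x ∉ φ_k '' {ρ ≤ ‖w‖}` (otherwise, along the ultrafilter, `w_k → w` bounded (`MB.S_SIG`), `‖w‖ ≥ ρ`, and the limit
point would be `φ w`).  So `H_k ∘ g_k^[k] ∘ H_k⁻¹` is holomorphic on `H_k '' (a_k (int D - b₀))`, and it converges uniformly near `K_S y₀` to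
`x ↦ K_S (ψ (Φ (K_S⁻¹ x) - i S))`. -/
def S_TNL : Prop := ∀ (n : ℕ) (g : ℂ[X]) (c₀ : ℝ) (c : ℂ) (φ Φ ψ : ℂ → ℂ) (R C' : ℝ) (F : ℂ → RMap n) (A : Blaschke n)
  (k C : ℝ) (T : ℂ ≃ₜ ℂ) (f : RMap n) (φ' : ℂ → ℂ), Good n g c₀ c → Pic n g c₀ φ → FC g c₀ Φ ψ R C' → Fam n g F →
  TRL A k C T → Uniq A (F (aa n g)) → (F (aa n g), f) ∈ EE A → IsExt A f φ' →
    ∃ S₁ Y₁ ρ : ℝ, 0 < S₁ ∧ 1 < ρ ∧ ∀ S : ℝ, S₁ ≤ S → ∃ KS : ℂ ≃ₜ ℂ, Lnk A T g φ f φ' KS ∧
      DifferentiableOn ℂ KS {z | z ∈ Bas g c₀ ∧ (Φ z).im < S - Y₁} ∧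
      DifferentiableOn ℂ (fun x => KS (ψ (Φ (KS.symm x) - Complex.I * S)))
        (KS '' {y | y ∈ Bas g c₀ ∧ ψ (Φ y - Complex.I * S) ∈ Nn φ ρ})

/-- the statement `S_TRC` of `StmN` -/
def S_TRC' : Prop := ∀ (n : ℕ) (g : ℂ[X]) (c₀ : ℝ) (c : ℂ) (Φ ψ : ℂ → ℂ) (R C : ℝ), Good n g c₀ c → FC g c₀ Φ ψ R C →
  ∃ S₁ Y₁ : ℝ, 0 < S₁ ∧ 0 < Y₁ ∧ ∀ S : ℝ, S₁ ≤ S → ∀ E : Set ℂ, IsCompact E → E ⊆ {z | z ∈ Bas g c₀ ∧ (Φ z).im < S - Y₁} →
    ∀ᶠ k : ℕ in atTop, ∀ z ∈ E, Tendsto (fun m => (pl g (-(k : ℂ) - Complex.I * S))^[m] z) atTop (𝓝 1)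

/-- the statement `S_LAV` of `StmN` -/
def S_LAV' : Prop := ∀ (n : ℕ) (g : ℂ[X]) (c₀ : ℝ) (c : ℂ) (Φ ψ : ℂ → ℂ) (R C : ℝ), Good n g c₀ c → FC g c₀ Φ ψ R C →
  ∀ S : ℝ, 0 < S → TendstoLocallyUniformlyOn (fun (k : ℕ) (z : ℂ) => (pl g (-(k : ℂ) - Complex.I * S))^[k] z)
    (fun z => ψ (Φ z - Complex.I * S)) atTop (Bas g c₀)

/-- JOB LSS.  From the links to `LS`.  Proof.  `L = KS.trans K0.symm`, `L y = K0⁻¹ (KS y)`.  `fix`: for `y = φ z`, `z ∈ Ext`: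
`KS (φ z) = φ' (T z) = K0 (φ z)`; for `y = φ ζ`, `‖ζ‖ = 1`, by continuity of `φ` on `CExt`; the complement of `Bas` is `φ '' CExt`.  So `L` maps `Bas` onto `Bas`, and
preserves `Bas ∪ φ '' circle`, the complement of `φ '' Ext`.  `comm`: for `y ∈ φ '' Ext` clear (`g (φ z) = φ (z^n)`); otherwise
`K0 (L (g y)) = KS (g y) = f.ev (KS y) = f.ev (K0 (L y)) = K0 (g (L y))`.  `hol`: `K0.symm` is holomorphic on `K0 '' Bas` (inverse of an injective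
holomorphic map) and `KS` maps `Bas` into it.  `lav`: for `z ∈ Bas`, `x = K0 z = KS (L⁻¹ z)`:
`K0 (L (ψ (Φ (L⁻¹ z) - iS))) = KS (ψ (Φ (KS⁻¹ x) - iS))`, composition with the holomorphic `K0` on `Bas`. -/
def S_LSS : Prop := ∀ (n : ℕ) (g : ℂ[X]) (c₀ : ℝ) (c : ℂ) (φ Φ ψ : ℂ → ℂ) (A : Blaschke n) (T : ℂ ≃ₜ ℂ) (f : RMap n)
  (φ' : ℂ → ℂ) (K0 KS : ℂ ≃ₜ ℂ) (S Y₁ ρ : ℝ), Good n g c₀ c → Pic n g c₀ φ → Lnk A T g φ f φ' K0 →
  DifferentiableOn ℂ K0 (Bas g c₀) → Lnk A T g φ f φ' KS →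
  DifferentiableOn ℂ KS {z | z ∈ Bas g c₀ ∧ (Φ z).im < S - Y₁} →
  DifferentiableOn ℂ (fun x => KS (ψ (Φ (KS.symm x) - Complex.I * S)))
    (KS '' {y | y ∈ Bas g c₀ ∧ ψ (Φ y - Complex.I * S) ∈ Nn φ ρ}) →
    ∃ L : ℂ ≃ₜ ℂ, LS g c₀ φ Φ ψ K0 ρ S Y₁ L

/-- JOB REF.  Reflection.  Proof.  `φb = K0 ∘ φ ∘ T.symm` on `CExt`: continuous, injective, `= φ'` on `Ext`, proper (`φ' z - z → 0`), so a
homeomorphism onto its closed image (`T` maps `CExt` onto `CExt`, `Ext` onto `Ext`).  Let `ζ₀, r, Kh` be from `Concl`.  For `z ∈ CExt` near `ζ₀` `φ z ∈ ball (φ ζ₀) r`, and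
`Kh (φ z) ∈ φb '' CExt`: for `z ∈ Ext` it is in `K0 '' (φ '' Ext) = φ' '' Ext`, for `‖z‖ = 1` it is `K0 (φ z) = φb (T z)` (`φ z ∉ φ '' Ext`, `disj`).  So
`σ z = φb⁻¹ (Kh (φ z))` is continuous on `CExt ∩ ball ζ₀ η`, holomorphic in `Ext ∩ ball ζ₀ η` with values in `Ext`, and `σ = T` on the circle.  Schwarz
reflection (`σ (1/conj z) = 1/conj (σ z)`; library: Pool/Graph/R_seed8/H18R3/Refl.lean, Pool/Graph/R_pool_sql_team_seeded_63374d34/N550/KH/Refl.lean; in the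
coordinate `z = exp (iX)` it is reflection in the real axis): `σ` extends holomorphically to a neighbourhood of `ζ₀`.  With the lift `t` of `T` (`IsTr.lift`):
`exp (i t x) = σ (exp (i x))` for `x` near `x₀`, `exp (i x₀) = ζ₀`, so `t x = -i log (σ (exp (i x)) / σ ζ₀) + t x₀` near `x₀` (continuity), a real
analytic function. -/
def S_REF : Prop := ∀ (n : ℕ) (g : ℂ[X]) (c₀ : ℝ) (c : ℂ) (φ : ℂ → ℂ) (A : Blaschke n) (k : ℝ) (T : ℂ ≃ₜ ℂ) (f : RMap n)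
  (φ' : ℂ → ℂ) (K0 : ℂ ≃ₜ ℂ), Good n g c₀ c → Pic n g c₀ φ → IsTr (zn n) A k T → Lnk A T g φ f φ' K0 →
  Concl g c₀ φ K0 → ∃ (t : ℝ → ℝ) (x₀ δ : ℝ), 0 < δ ∧ Continuous t ∧ StrictMono t ∧
    (∀ x, t (x + 2 * Real.pi) = t x + 2 * Real.pi) ∧
    (∀ x : ℝ, T (Complex.exp (x * Complex.I)) = Complex.exp (t x * Complex.I)) ∧ ContDiffOn ℝ 1 t (Ioo (x₀ - δ) (x₀ + δ))

/-- JOB TIN (uses `MB.S_LIFT`, `MB.S_BL`).  A smooth conjugacy from `z^n` to `A` is a rotation.  Proof.  Let `α` be the lift of `A` (`MB.S_LIFT`; on the real axis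
`α` is real analytic, `α' > 1`, `α (y + 2π) = α y + 2π n`, `exp (i α y) = A.ev (exp (i y))`); `α (t x) - t (n x)` is continuous with values in `2πℤ`, so constant;
change `α` by this constant: `α (t x) = t (n x)`.  (1) `t` is `C¹` on the line: for `x ∈ ℝ` there are `m` and `j ∈ ℤ` with
`x' = (x + 2π j)/n^m ∈ Ioo (x₀ - δ) (x₀ + δ)`, and `t (x + 2πj) = α^[m] (t x')` also near these points.  (2) `∑_(A z = w) 1/|A' z| = 1` for `‖w‖ = 1`: i.e.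
`∑_(i < n) 1/α' (y_i) = 1` for `y_i = t (x + 2π i/n)` (the `n` preimages of `α (t x)` modulo `2π n`): the function `F z = z / A.ev'…`; proof by residues or partial
fractions: for `‖w‖ = 1` `A.num z - w A.den z` is a polynomial of degree `n` with the `n` simple roots `z_i`, and
`∑ A.den (z_i) z_i / (z_i (num' - w den') (z_i)) ` is the coefficient of the leading terms: by Lagrange interpolation
`∑_i p (z_i)/q' (z_i) = 0` or the ratio of the leading coefficients for polynomials `p`, `q` with `deg p ≤ n - 1`, `deg q = n`; take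
`q = A.num - w A.den`, `p = A.num / z` (a polynomial of degree `n - 1`, with the leading coefficient `c` of `A.num`; `A.den` has degree `≤ n - 1`, so `q` has
the leading coefficient `c`): `∑ (A.num z_i / z_i)/q' (z_i) = 1`, and `A.num z_i = w A.den z_i`, `q' z_i = A.den z_i * A.ev' (z_i)`, so `∑ w/(z_i A.ev' z_i) = 1`,
and `z_i A.ev' z_i / w = α' (y_i)`.  (Or: Lebesgue measure is invariant.)  (3) Differentiate `t (n x) = α (t x)` : `n t' (n x) = α' (t x) t' x`, so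
`(1/n) ∑_(i<n) t' (x + 2πi/n) = t' (n x) ∑ 1/α' (y_i) = t' (n x)`.  (4) `t'` is continuous and `2π`-periodic; let `M` be its maximum; if `t' y = M` then
`t' = M` at all the points `(y + 2π i)/n`; iterating, at a dense set; so `t'` is constant, `t x = x + t 0`.  (5) So
`A.ev (exp (i (x + t 0))) = exp (i (n x + t 0))`: `A.ev u = κ u^n` on the circle, `c u ∏ (u - a_i) = κ u^n ∏ (1 - conj a_i u)` as polynomials; a zero
`a_i ≠ 0` of the left side is not a zero of the right side. -/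
def S_TIN : Prop := ∀ (n : ℕ) (A : Blaschke n) (t : ℝ → ℝ) (a b : ℝ), 2 ≤ n → a < b → Continuous t → StrictMono t →
  (∀ x, t (x + 2 * Real.pi) = t x + 2 * Real.pi) →
  (∀ x : ℝ, Complex.exp (t (n * x) * Complex.I) = A.ev (Complex.exp (t x * Complex.I))) → ContDiffOn ℝ 1 t (Ioo a b) →
    ∀ i, A.a i = 0

/-- JOB MAI (uses `S_PIC`, `S_FCC'` (the statement of `StmN`), `S_RDL`, `S_TNL`, `S_AMN`, `S_LSS`, `S_REF`, `S_TIN`, `MB.S_REL`).  Proof.  `TRL A k C T` from `MB.S_REL`.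
`S_RDL`, `S_TNL`, `S_LSS`, `S_AMN` give `Concl`, `S_REF`, `S_TIN` (`IsTr.semi` on the circle gives the functional equation of `t`: `A.den ≠ 0`,
`T (z^n) = A.ev (T z)`; `(zn n).ev z = z^n`). -/
def S_MAI : Prop := ∀ (n : ℕ) (g : ℂ[X]) (c₀ : ℝ) (c : ℂ) (F : ℂ → RMap n) (A : Blaschke n), Good n g c₀ c →
  Fam n g F → Uniq A (F (aa n g)) → ∀ i, A.a i = 0

/-- the statement `S_FCC` of `StmN` -/
def S_FCC' : Prop := ∀ (n : ℕ) (g : ℂ[X]) (c₀ : ℝ) (c : ℂ), Good n g c₀ c → ∃ (Φ ψ : ℂ → ℂ) (R C : ℝ), FC g c₀ Φ ψ R C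

/-! ## The spaces -/

/-- JOB EQU.  Proof: inverse and composition of affine maps. -/
def S_EQU : Prop := ∀ n : ℕ, Equivalence (AffConj n)

/-- a nondegeneracy condition: two different finite fixed points, one of them with multiplier `≠ 1`, and the multiplier at infinity is not `1` -/
def Gd {n : ℕ} (f : RMap n) : Prop := f.Q.coeff (n - 1) ≠ 1 ∧ ∃ r₁ r₂ : ℂ, r₁ ≠ r₂ ∧ f.P.eval r₁ = r₁ * f.Q.eval r₁ ∧
  f.P.eval r₂ = r₂ * f.Q.eval r₂ ∧ f.Q.eval r₁ ≠ 0 ∧ deriv f.ev r₁ ≠ 1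

/-- JOB HAU (uses `S_EQU`, `MB.S_RTOP`).  Limits in the quotient are unique at nondegenerate points.  Proof.  Let `c = cls y`.  The map `cls` is open: the
saturation of an open set `V` is the union of its images under the homeomorphisms of `MPt n` given by the affine maps
(`(f, p) ↦ (f^(a,b), a p + b)`, `f^(a,b) = (a^n P((z-b)/a) + b a^(n-1) Q((z-b)/a)) / (a^(n-1) Q((z-b)/a))`; the numerator is monic of degree `n`).  Suppose
`¬ AffConj n x y`.  CLAIM: there are neighbourhoods `U` of `x`, `V` of `y` without `AffConj` pairs.  Then `cls '' V` is a neighbourhood of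
`c`, so eventually `cls (xs i) ∈ cls '' V` and `xs i ∈ U`, a contradiction (`S_EQU`).  Proof of the claim: otherwise there is an ultrafilter of pairs `x_i → x`, `y_i → y`,
`y_i = (a_i, b_i) x_i`.  `f_i = x_i.1.1 → f`, `q_i = Q_i.coeff (n-1) → q ≠ 1`.  The fixed points of `f_i` are the roots of `P_i - X Q_i`, of degree `n`
with leading coefficient `1 - q_i → 1 - q ≠ 0`; so they are bounded and there are roots `r_1^i → r₁`, `r_2^i → r₂` (continuity of roots).  The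
coefficient `q` does not change under affine conjugacy (`Q` becomes `a^(n-1) Q((z-b)/a)`), so the fixed points of `y_i` are bounded as well:
`a_i r_1^i + b_i`, `a_i r_2^i + b_i` are bounded, so `a_i`, `b_i` are bounded; `a_i → a₀`, `b_i → b₁` along the ultrafilter.  If `a₀ ≠ 0` then `y_i → (a₀, b₁) x`, so
`y = (a₀, b₁) x` (Hausdorff), contradiction.  If `a₀ = 0`: all the fixed points of `y_i` (`n` with multiplicity) tend to `b₁`, so `P_y - X Q_y = (1-q)(X - b₁)^n`,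
`n ≥ 2`, `Q_y b₁ ≠ 0` (coprime), so `f_y' b₁ = 1`.  But the multiplier of `y_i` at `a_i r_1^i + b_i` is `f_i' (r_1^i) → f' r₁ ≠ 1`, and it tends to `f_y' b₁`. -/
def S_HAU : Prop := ∀ (n : ℕ) (x : MPt n) (c : MM n) (ι : Type) (u : Ultrafilter ι) (xs : ι → MPt n), 2 ≤ n → Gd x.1.1 →
  Tendsto xs u (𝓝 x) → Tendsto (fun i => cls (xs i)) u (𝓝 c) → c = cls x

/-- JOB GDF (uses `MB.S_QFORM`, `S_BASN`).  The partners of `g` are nondegenerate.  Proof.  `f.Q = qpol A φ'` (`MB.S_QFORM`): the coefficient `n - 1` is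
`c⁻¹ ∏ (-conj a_i)` if all `a_i ≠ 0` and `0` otherwise, of modulus `< 1` (`n ≥ 3`, so there is an `i`).  `g y - y` has degree `n ≥ 3` and a root of multiplicity exactly `2` at `1`
(`der`, `der2`), so there is a root `r ≠ 1`.  `r ∉ Bas` (points of `Bas` tend to `1`), so `‖r - c₀‖ ≥ 1 - c₀` and `expd` gives `‖g' r‖ > 1`; `r ∉ φ '' Ext` (orbits there are
unbounded).  `r₁ = K0 r`, `r₂ = K0 1` are fixed points of `f` (`Lnk.inn`; `f.ev x = x`, `Q x ≠ 0`).  Multiplier at `r₁`: `K0` conjugates `g` to `f` on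
`Nn φ ρ`, a neighbourhood of the filled Julia set (`inn`, and for `y = φ z`, `1 < ‖z‖ < ρ`, by `IsTr.semi`).  Let `V = ball r ε` with `g` injective on
`V`, `V ⊆ Nn φ ρ`, `closure V ⊆ g '' V`.  `U = K0 '' V`: `f.ev` is injective on `U` and maps it onto a set which contains `closure U`; the
inverse branch `b : U → U` is holomorphic and `b^[m] → r₁` uniformly on `U` (conjugate to the inverse branch of `g` on `V`, a contraction),
so `(b^[m])' r₁ = (b' r₁)^m → 0` (Cauchy), `‖b' r₁‖ < 1`, `‖f' r₁‖ > 1`. -/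
def S_GDF : Prop := ∀ (n : ℕ) (g : ℂ[X]) (c₀ : ℝ) (c : ℂ) (φ : ℂ → ℂ) (A : Blaschke n) (k : ℝ) (T : ℂ ≃ₜ ℂ) (f : RMap n)
  (φ' : ℂ → ℂ) (K0 : ℂ ≃ₜ ℂ), Good n g c₀ c → Pic n g c₀ φ → IsTr (zn n) A k T → Lnk A T g φ f φ' K0 → Gd f

/-- JOB STR (uses `MB.S_EXTU`, `MB.S_CPT`, `MB.S_RTOP`, `MB.S_QFORM`, `S_BASN`).  The marked fixed points converge.  Proof.  `ĝ = F a`, `a = aa n g`,
`φ̂ z = a (φ z - b₀)`.  `φs i → φ̂` locally uniformly on `Ext` (`MB.S_CPT`, `MB.S_EXTU`).  The fixed points of `g` are: `1` (double root of `g y - y`) and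
the `n - 2` others, all simple: the points `φ ζ`, `ζ^(n-1) = 1`, are `n - 1` different fixed points (`Bot.semi`, `Pic.inj`), and the total multiplicity is `n`.
For `ζ ≠ 1` `x = φ ζ` is repelling: `x ∉ Bas`, `‖x - c₀‖ ≥ 1 - c₀`, `expd`.  (1) `φs i ζ → φ̂ ζ` for `ζ^(n-1) = 1`, `ζ ≠ 1`: `x̂ = φ̂ ζ`,
`ball x̂ s` small: for most `i` `gs i` is injective on `ball x̂ s` and its image contains `ball x̂ s`, with an inverse branch `b_i : ball x̂ s → ball x̂ s`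
which is a contraction with factor `q < 1` (`‖ĝ' x̂‖ > 1`, `gs i → ĝ` with derivatives).  Choose `t₀ > 1` with `φ̂ (t ζ) ∈ ball x̂ (s/2)` for `1 < t ≤ t₀`.  For most
`i` `φs i (t ζ) ∈ ball x̂ s` for `t ∈ [t₀^(1/n), t₀]`.  Then `φs i (t^(1/n) ζ) = b_i (φs i (t ζ))` for all `t ∈ (1, t₀]`: the set of these `t` is closed, open in
`(1, t₀]`, and contains `t₀` (both sides are mapped to `φs i (t ζ)` by `gs i`, `ζ^n = ζ`, and `φs i (t₀^(1/n) ζ) ∈ ball x̂ s`); so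
`φs i (t^(1/n^m) ζ) = b_i^[m] (φs i (t ζ))`, `m → ∞`: `φs i ζ` is the fixed point of `b_i` in `closedBall x̂ s`.  `s → 0`.
(2) `φs i 1` is a fixed point of `gs i`, different from `φs i ζ`, `ζ ≠ 1` (`IsMatingData`: `φs i` is injective on the circle by `glue`, `injψ`, `monoh`), bounded, so along `u` it converges to a
fixed point of `ĝ`; if the limit were `φ̂ ζ`, `ζ ≠ 1`, then the simple root `φ̂ ζ` of `ĝ z - z` would be a limit of two different roots `φs i 1`, `φs i ζ`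
of `gs i z - z` (contradiction: `(p z - p z')/(z - z')` tends to `p' (φ̂ ζ) ≠ 0`).  So the limit is `φ̂ 1 = a (1 - b₀)`. -/
def S_STR : Prop := ∀ (n : ℕ) (g : ℂ[X]) (c₀ : ℝ) (c : ℂ) (φ : ℂ → ℂ) (F : ℂ → RMap n) (ι : Type) (u : Ultrafilter ι)
  (gs : ι → RMap n) (Bs : ι → Blaschke n) (φs ψs : ι → ℂ → ℂ) (hs : ι → ℝ → ℝ), Good n g c₀ c → Pic n g c₀ φ → Fam n g F →
  (∀ᶠ i in (u : Filter ι), IsMatingData (zn n) (Bs i) (gs i) (φs i) (ψs i) (hs i)) → Tendsto gs u (𝓝 (F (aa n g))) →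
    Tendsto (fun i => φs i 1) u (𝓝 (aa n g * (1 - bb n g)))

/-- JOB AFF (uses `MB.S_BL`, `MB.S_SIG`, `MB.S_DET`).  Affine conjugacies which respect the marked point are trivial.  Proof.  `L z = a z + b`.  `y ∈ φ '' Ext` iff the
orbit of `y` under `f.ev` meets a pole or is unbounded: for `y = φ z` the orbit is `φ (A.ev^[m] z)`, until a pole (`A.den = 0`) is met, and `A.ev^[m] z → ∞`
(`MB.S_BL`), where `φ w - w → 0`; for `y ∉ φ '' Ext` the orbit stays in the complement of `φ '' Ext`, a bounded set (`MB.S_SIG`), and no pole is met.  So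
`L` maps `φ '' Ext` onto `φ' '' Ext`, `χ = φ'⁻¹ ∘ L ∘ φ` is a holomorphic bijection of `Ext` with `χ z / z → a` at infinity.  Schwarz lemma (maximum
principle for `z/χ z` on `Ext ∪ {∞}`, and for the inverse): `|a| = 1` and `χ z = a z`.  So `a φ z + b = φ' (a z)` on `Ext`, and on `CExt` by continuity.  At
`z = A.b`: `φ' (a A.b) = φ' A.b`, so `a = 1` (`InjOn φ'`); `φ z + b = φ' z`, so `b = 0` (normalisation at infinity).  `MB.S_DET`. -/
def S_AFF : Prop := ∀ (n : ℕ) (A : Blaschke n) (f f' : RMap n) (φ φ' : ℂ → ℂ) (a b : ℂ), 2 ≤ n → a ≠ 0 → IsExt A f φ →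
  IsExt A f' φ' → ContinuousOn φ CExt → ContinuousOn φ' CExt → InjOn φ' CExt →
  (∀ y, y ∉ φ '' MB.Ext → f.Q.eval y ≠ 0 ∧ f.ev y ∉ φ '' MB.Ext) →
  (∀ y, y ∉ φ' '' MB.Ext → f'.Q.eval y ≠ 0 ∧ f'.ev y ∉ φ' '' MB.Ext) →
  (∀ z, (f'.Q.eval (a * z + b) = 0 ↔ f.Q.eval z = 0) ∧ (f.Q.eval z ≠ 0 → f'.ev (a * z + b) = a * f.ev z + b)) →
  φ' A.b = a * φ A.b + b → f = f' ∧ EqOn φ φ' CExt

/-- JOB WEL (uses `S_EQU`, `S_AFF`, `S_CEN`, `MB.S_REL`, `MB.S_EXTU`).  The map `F` of the problem is well defined and bijective, and `B(z^n)` consists of polynomials.  Proof.  Marks: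
for `IsMark A B y` with data `φ, ψ, h`: `f.Q ≠ 0`, `f.ev ∉ φ '' Ext` off `φ '' Ext` by `compl`, `semiψ`; `φ` is injective on `CExt` (`glue`, `injψ`, `monoh`, `compl`).  (a) If `IsMark A B y`,
`IsMark A B' y'`, `AffConj n y y'` then `y = y'` by `S_AFF`.  (b) For every `B` there are marks `x` of `(zn n, B)`, `y` of `(A, B)` (`MB.S_REL`; `φ A.b = ψ B.b` is a fixed
point, not a pole).  (c) If `IsMark (zn n) B x`, `IsMark (zn n) B' x'`, `cls x = cls x'` (so `AffConj`, `S_EQU`), `y`, `y'` the marks for `A`: `x = x'` by (a),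
`Rel A g f`, `Rel A g f'`, so `f = f'` (`MB.S_REL`), and the exterior maps agree on `Ext` (`MB.S_EXTU`) and on `CExt`, so `y = y'`.  The same in the other direction.  So
`F (cls x) = cls y` is a well defined bijection.  `Q = 1` by `S_CEN`. -/
def S_WEL : Prop := ∀ (n : ℕ) (A : Blaschke n), 2 ≤ n → BM (zn n) ⊆ PP n ∧
  ∃ F : BM (zn n) → BM A, Function.Bijective F ∧ ∀ (B : Blaschke n) (x y : MPt n), IsMark (zn n) B x →
    IsMark A B y → ∀ c : BM (zn n), (c : MM n) = cls x → (F c : MM n) = cls y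

/-- JOB COU (uses `S_EQU`, `S_HAU`, `S_GDF`, `S_STR`, `S_AFF`, `S_LNK`, `S_MEM`, `MB.S_REL`, `MB.S_CLOS`, `MB.S_LIM`, `MB.S_EXTU`).  A continuous extension makes the partners of `ĝ`
unique.  Proof.  `ĝ = F (aa n g)`, `p̂ = aa n g (1 - bb n g)`, `x̂ = (ĝ, p̂)` (`g 1 = 1`).  Let `(ĝ, f) ∈ EE A`.  An ultrafilter of pairs `(g_i, f_i) → (ĝ, f)`, `Rel A g_i f_i`, `B_i`,
mating data, `x_i = (g_i, φ_i 1)`, `y_i = (f_i, φ'_i A.b)`, marks.  `x_i → x̂` (`S_STR`).  Links `H_i` (`TRL` from `MB.S_REL`; the exterior maps are those of the mating data on `Ext`,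
`MB.S_EXTU`), `H_i (φ_i z) = φ'_i (T z)` on `Ext` and by continuity at `z = 1`: `φ'_i A.b = H_i (φ_i 1) → K p̂` (`MB.S_LIM`), `K` a link of `ĝ` and `f`.  So
`y_i → ŷ = (f, K p̂)`, `K p̂ = K0 1` (`S_LNK`), and `f` is nondegenerate (`S_GDF`).  `cls x_i → cls x̂` in the closure of `BM (zn n)`, in `PP n` (`Q = 1`), so
`cls y_i = Fb (cls x_i) → Fb (cls x̂)`, and `S_HAU`: `Fb (cls x̂) = cls ŷ`.  If also `(ĝ, f') ∈ EE A`, `ŷ'`, `K0'`, then `cls ŷ = cls ŷ'`, `AffConj n ŷ ŷ'`.  Apply `S_AFF` with the continuous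
extensions `φb = K0 ∘ φ ∘ T.symm`, `φb' = K0' ∘ φ ∘ T.symm` on `CExt` of the exterior maps (equal to them on `Ext`; `Pic.bot.cont`, `Pic.inj`; `φb A.b = K0 (φ 1) = K0 1`; outside of `CExt` keep
the exterior map or anything; the invariance of the complement: `Lnk.inn` and `g y ∉ φ '' Ext` for `y ∉ φ '' Ext`): `f = f'`. -/
def S_COU : Prop := ∀ (n : ℕ) (g : ℂ[X]) (c₀ : ℝ) (c : ℂ) (φ : ℂ → ℂ) (F : ℂ → RMap n) (A : Blaschke n), Good n g c₀ c →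
  Pic n g c₀ φ → Fam n g F →
  (∃ Fb : {c : MM n // c ∈ closure (BM (zn n)) ∧ c ∈ PP n} → MM n, Continuous Fb ∧
    ∀ (B : Blaschke n) (x y : MPt n), IsMark (zn n) B x → IsMark A B y →
      ∀ c : {c : MM n // c ∈ closure (BM (zn n)) ∧ c ∈ PP n}, (c : MM n) = cls x → Fb c = cls y) →
    Uniq A (F (aa n g))

/-- JOB FIN: `theorem t_FIN (h1 : S_GEX) (h2 : S_FAM) (h3 : S_PIC) (h4 : S_EQU) (h5 : S_WEL) (h6 : S_COU) (h7 : S_MAI) : Final`.  Proof.  Put together. -/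
def S_FIN : Prop := Final

end Pool.Agent.H212.ND
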