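import Mathlib
import Pool.Agent.H212.ND.StmC

set_option autoImplicit false

open Filter Metric Set Topology Polynomial
open scoped ComplexConjugate

namespace Pool.Agent.H212.ND

open Pool.Agent.H212.MB

namespace RDLaux

lemma aa_facts {n : ℕ} {g : ℂ[X]} {c₀ : ℝ} {c : ℂ} (hG : Good n g c₀ c) :
    aa n g ^ (n - 1) = g.coeff n ∧ aa n g ≠ 0 ∧ g.coeff n ≠ 0 := by
  have hn := hG.n3
  have hl := hG.lead
  have hr : g.coeff n = (((g.coeff n).re : ℝ) : ℂ) := by
    apply Complex.ext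
    · simp
    · simp [hG.real n]
  have h1 : ((g.coeff n).re ^ (1 / ((n : ℝ) - 1))) ^ (n - 1) = (g.coeff n).re := by
    rw [← Real.rpow_natCast, ← Real.rpow_mul hl.le]
    have : ((n - 1 : ℕ) : ℝ) = (n : ℝ) - 1 := by
      rw [Nat.cast_sub (by omega)]
      simp
    rw [this]
    have h2 : (n : ℝ) - 1 ≠ 0 := by
      have : (3 : ℝ) ≤ n := by exact_mod_cast hn
      linarith
    rw [one_div, inv_mul_cancel₀ h2, Real.rpow_one]
  refine ⟨?_, ?_, ?_⟩
  · unfold aa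
    rw [← Complex.ofReal_pow, h1]
    exact hr.symm
  · unfold aa
    rw [Complex.ofReal_ne_zero]
    exact (Real.rpow_pos_of_pos hl _).ne'
  · intro h
    rw [h] at hl
    simp at hl

/-- the closed unit disc is mapped into itself by `g` -/
lemma g_disc {n : ℕ} {g : ℂ[X]} {c₀ : ℝ} {c : ℂ} (hG : Good n g c₀ c) (y : ℂ) (hy : ‖y‖ ≤ 1) : ‖g.eval y‖ ≤ 1 := by
  by_cases h : y = 1
  · rw [h, hG.fix]
    simp
  · have h1 := hG.disc y hy h
    have h2 : ‖g.eval y‖ ≤ ‖g.eval y - c₀‖ + ‖(c₀ : ℂ)‖ := by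
      have := norm_add_le (g.eval y - c₀) (c₀ : ℂ)
      simpa using this
    have h3 : ‖(c₀ : ℂ)‖ = c₀ := by
      rw [Complex.norm_real, Real.norm_of_nonneg hG.c0.le]
    linarith

lemma plam_disc {n : ℕ} {g : ℂ[X]} {c₀ : ℝ} {c : ℂ} (hG : Good n g c₀ c) (l : ℝ) (h0 : 0 ≤ l) (h1 : l ≤ 1) (y : ℂ)
    (hy : ‖y‖ ≤ 1) : ‖plam g (l : ℂ) y‖ ≤ 1 := by
  have h2 := g_disc hG y hy
  have e : plam g (l : ℂ) y = ((1 - l : ℝ) : ℂ) + (l : ℂ) * g.eval y := by
    unfold plam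
    push_cast
    ring
  rw [e]
  refine (norm_add_le _ _).trans ?_
  rw [norm_mul, Complex.norm_real, Complex.norm_real, Real.norm_of_nonneg h0, Real.norm_of_nonneg (by linarith)]
  nlinarith

lemma small_disc {n : ℕ} {g : ℂ[X]} {c₀ : ℝ} {c : ℂ} (hG : Good n g c₀ c) (y : ℂ) (hy : ‖y - c₀‖ < 1 - c₀) :
    ‖y‖ < 1 := by
  have h2 : ‖y‖ ≤ ‖y - c₀‖ + ‖(c₀ : ℂ)‖ := by
    have := norm_add_le (y - c₀) (c₀ : ℂ)
    simpa using this
  have h3 : ‖(c₀ : ℂ)‖ = c₀ := by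
    rw [Complex.norm_real, Real.norm_of_nonneg hG.c0.le]
  linarith

lemma g_small {n : ℕ} {g : ℂ[X]} {c₀ : ℝ} {c : ℂ} (hG : Good n g c₀ c) (y : ℂ) (hy : ‖y - c₀‖ < 1 - c₀) :
    ‖g.eval y - c₀‖ < 1 - c₀ := by
  have h := small_disc hG y hy
  apply hG.disc y h.le
  intro h1
  rw [h1] at h
  simp at h

lemma cont_plam_iter (g : ℂ[X]) (m : ℕ) : Continuous (fun p : ℂ × ℂ => (plam g p.1)^[m] p.2) := by
  induction m with
  | zero => simpa using continuous_snd
  | succ m ih =>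
    have e : (fun p : ℂ × ℂ => (plam g p.1)^[m + 1] p.2) =
        fun p : ℂ × ℂ => 1 + p.1 * (g.eval ((plam g p.1)^[m] p.2) - 1) := by
      funext p
      rw [Function.iterate_succ_apply']
      rfl
    rw [e]
    have h1 : Continuous (fun p : ℂ × ℂ => g.eval ((plam g p.1)^[m] p.2)) := g.continuous.comp ih
    fun_prop

/-- uniformly on compact subsets of the basin the orbits of the perturbed map reach the unit disc -/
lemma reach {n : ℕ} {g : ℂ[X]} {c₀ : ℝ} {c : ℂ} (hG : Good n g c₀ c) (D : Set ℂ) (hD : IsCompact D)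
    (hDB : D ⊆ Bas g c₀) : ∃ m : ℕ, ∀ᶠ l : ℂ in 𝓝 1, ∀ y ∈ D, ‖(plam g l)^[m] y‖ ≤ 1 := by
  have h1 : ∃ m : ℕ, D ⊆ {y | ‖(fun z : ℂ => g.eval z)^[m] y - c₀‖ < 1 - c₀} := by
    apply hD.elim_directed_cover (fun m => {y | ‖(fun z : ℂ => g.eval z)^[m] y - c₀‖ < 1 - c₀})
    · intro m
      have hc : Continuous (fun z : ℂ => g.eval z)^[m] := g.continuous.iterate m
      exact isOpen_lt (by fun_prop) continuous_const
    · intro y hy
      obtain ⟨m, hm⟩ := hDB hy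
      exact mem_iUnion.mpr ⟨m, hm⟩
    · have hmono : ∀ m, {y | ‖(fun z : ℂ => g.eval z)^[m] y - c₀‖ < 1 - c₀} ⊆
          {y | ‖(fun z : ℂ => g.eval z)^[m + 1] y - c₀‖ < 1 - c₀} := by
        intro m y hy
        have : (fun z : ℂ => g.eval z)^[m + 1] y = g.eval ((fun z : ℂ => g.eval z)^[m] y) := by
          rw [Function.iterate_succ_apply']
        simp only [mem_ofPred_eq] at hy ⊢
        rw [this]
        exact g_small hG _ hy
      exact (monotone_nat_of_le_succ hmono).directed_le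
  obtain ⟨m, hm⟩ := h1
  refine ⟨m, ?_⟩
  have hplam1 : plam g 1 = fun z : ℂ => g.eval z := by
    funext z
    unfold plam
    ring
  have hopen : IsOpen {p : ℂ × ℂ | ‖(plam g p.1)^[m] p.2 - c₀‖ < 1 - c₀} := by
    apply isOpen_lt _ continuous_const
    exact ((cont_plam_iter g m).sub continuous_const).norm
  obtain ⟨U, V, hU, hV, hU1, hDV, hUV⟩ := generalized_tube_lemma (s := {(1 : ℂ)}) isCompact_singleton (t := D) hD hopen (by
    rintro ⟨l, y⟩ ⟨hl, hy⟩
    simp only [mem_singleton_iff] at hl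
    simp only [mem_ofPred_eq]
    rw [hl, hplam1]
    exact hm hy)
  filter_upwards [hU.mem_nhds (hU1 rfl)] with l hl y hy
  have hmem : (l, y) ∈ U ×ˢ V := ⟨hl, hDV hy⟩
  exact (small_disc hG _ (hUV hmem)).le

/-- points with bounded orbits are not in the exterior -/
lemma not_ext {n : ℕ} (hn : 2 ≤ n) (G : RMap n) (φ : ℂ → ℂ) (h : IsExt (zn n) G φ) (z : ℂ) (M : ℝ) (m : ℕ)
    (hz : ∀ j, m ≤ j → ‖(G.ev)^[j] z‖ ≤ M) : z ∉ φ '' MB.Ext := by
  rintro ⟨w, hw, rfl⟩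
  have hw1 : 1 < ‖w‖ := hw
  have hden : ∀ v : ℂ, (zn n).den v = 1 := by
    intro v
    simp [Blaschke.den, zn]
  have hev : ∀ v : ℂ, (zn n).ev v = v ^ n := by
    intro v
    unfold Blaschke.ev
    rw [hden]
    simp [Blaschke.num, zn]
    rw [← pow_succ']
    congr 1
    omega
  have horb : ∀ j, w ^ (n ^ j) ∈ MB.Ext ∧ (G.ev)^[j] (φ w) = φ (w ^ (n ^ j)) := by
    intro j
    induction j with
    | zero => simp [hw]
    | succ j ih =>
      obtain ⟨h1, h2⟩ := ih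
      have h1' : 1 < ‖w ^ (n ^ j)‖ := h1
      constructor
      · show 1 < ‖w ^ (n ^ (j + 1))‖
        rw [norm_pow]
        exact one_lt_pow₀ hw1 (by positivity)
      · rw [Function.iterate_succ_apply', h2, (h.semi _ h1 (by rw [hden]; exact one_ne_zero)).2, hev, ← pow_mul, pow_succ]
  have hlim : Tendsto (fun j : ℕ => w ^ (n ^ j)) atTop (cocompact ℂ) := by
    rw [← Metric.cobounded_eq_cocompact, ← comap_norm_atTop, tendsto_comap_iff]
    have e : (norm ∘ fun j : ℕ => w ^ (n ^ j)) = fun j : ℕ => ‖w‖ ^ (n ^ j) := by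
      funext j
      simp
    rw [e]
    exact (tendsto_pow_atTop_atTop_of_one_lt hw1).comp (tendsto_pow_atTop_atTop_of_one_lt (by omega : 1 < n))
  have h1 := h.norm.comp hlim
  have h2 : Tendsto (fun j : ℕ => ‖w ^ (n ^ j)‖) atTop atTop := tendsto_norm_cocompact_atTop.comp hlim
  have h3 : ∀ᶠ j : ℕ in atTop, ‖φ (w ^ (n ^ j)) - w ^ (n ^ j)‖ < 1 := by
    have := h1.norm
    simp only [norm_zero] at this
    exact this.eventually (gt_mem_nhds one_pos)
  have h4 := h2.eventually_gt_atTop (M + 1)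
  obtain ⟨j, hj1, hj2, hj3⟩ := (h3.and (h4.and (eventually_ge_atTop m))).exists
  have h5 := hz j hj3
  rw [(horb j).2] at h5
  have h6 : ‖w ^ (n ^ j)‖ ≤ ‖φ (w ^ (n ^ j)) - w ^ (n ^ j)‖ + ‖φ (w ^ (n ^ j))‖ := by
    have := norm_sub_le (φ (w ^ (n ^ j))) (φ (w ^ (n ^ j)) - w ^ (n ^ j))
    have e : φ (w ^ (n ^ j)) - (φ (w ^ (n ^ j)) - w ^ (n ^ j)) = w ^ (n ^ j) := by ring
    rw [e] at this
    linarith
  linarith

/-- composition with converging affine maps -/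
lemma tlu_comp (u : Filter ℕ) (H : ℕ → ℂ → ℂ) (K : ℂ → ℂ) (hK : Continuous K)
    (hH : TendstoLocallyUniformly H K u) (as : ℕ → ℂ) (a b : ℂ) (ha : Tendsto as u (𝓝 a)) (s : Set ℂ) :
    TendstoLocallyUniformlyOn (fun k y => H k (as k * (y - b))) (fun y => K (a * (y - b))) u s := by
  rw [tendstoLocallyUniformlyOn_iff_forall_tendsto]
  rw [tendstoLocallyUniformly_iff_forall_tendsto] at hH
  intro x _
  have h1 : Tendsto (fun p : ℕ × ℂ => as p.1 * (p.2 - b)) (u ×ˢ 𝓝 x) (𝓝 (a * (x - b))) :=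
    (ha.comp tendsto_fst).mul (tendsto_snd.sub_const b)
  have h2 : Tendsto (fun p : ℕ × ℂ => a * (p.2 - b)) (u ×ˢ 𝓝 x) (𝓝 (a * (x - b))) :=
    tendsto_const_nhds.mul (tendsto_snd.sub_const b)
  have h3 := (hH (a * (x - b))).comp (tendsto_fst.prodMk h1)
  have h4 : Tendsto (fun p : ℕ × ℂ => (K (a * (p.2 - b)), K (as p.1 * (p.2 - b)))) (u ×ˢ 𝓝 x) (uniformity ℂ) := by
    have h5 := ((hK.tendsto _).comp h2).prodMk_nhds ((hK.tendsto _).comp h1)
    exact h5.mono_right (nhds_le_uniformity _)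
  exact (h4.uniformity_trans h3).mono_left (prod_mono le_rfl nhdsWithin_le_nhds)

/-- the orbits of the conjugate polynomials -/
lemma orbit_conj {n : ℕ} {g : ℂ[X]} {c₀ : ℝ} {c : ℂ} (hG : Good n g c₀ c) {F : ℂ → RMap n} (hF : Fam n g F)
    (t : ℝ) (ht : 0 < t) (y : ℂ) (j : ℕ) :
    ((F (t * aa n g)).ev)^[j] (t * aa n g * (y - bb n g)) =
      t * aa n g * ((plam g (((t ^ (n - 1) : ℝ)) : ℂ))^[j] y - bb n g) := by
  obtain ⟨ha, ha0, hc0⟩ := aa_facts hG
  have hta : (t : ℂ) * aa n g ≠ 0 := mul_ne_zero (by exact_mod_cast ht.ne') ha0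
  induction j with
  | zero => simp
  | succ j ih =>
    rw [Function.iterate_succ_apply', ih, Function.iterate_succ_apply']
    unfold RMap.ev
    rw [hF.Q, eval_one, div_one, hF.ev _ _ hta]
    have e1 : ((t : ℂ) * aa n g) ^ (n - 1) / g.coeff n = ((t ^ (n - 1) : ℝ) : ℂ) := by
      rw [mul_pow, ha, mul_div_assoc, div_self hc0, mul_one]
      push_cast
      rfl
    have e2 : (t : ℂ) * aa n g * ((plam g (((t ^ (n - 1) : ℝ)) : ℂ))^[j] y - bb n g) / (t * aa n g) + bb n g =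
        (plam g (((t ^ (n - 1) : ℝ)) : ℂ))^[j] y := by
      rw [mul_div_assoc, mul_comm ((t : ℂ) * aa n g) _, div_mul_cancel₀ _ hta]
      ring
    rw [e1, e2]

/-- points of compact subsets of the basin are not in the exterior of the perturbed maps -/
lemma ev_not_ext {n : ℕ} {g : ℂ[X]} {c₀ : ℝ} {c : ℂ} (hG : Good n g c₀ c) {F : ℂ → RMap n} (hF : Fam n g F)
    (D : Set ℂ) (hD : IsCompact D) (hDB : D ⊆ Bas g c₀) (t : ℕ → ℝ) (ht0 : ∀ k, 0 < t k) (ht1 : ∀ k, t k < 1)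
    (ht : Tendsto t atTop (𝓝 1)) : ∀ᶠ k in atTop, ∀ y ∈ D, ∀ φ : ℂ → ℂ, IsExt (zn n) (F (t k * aa n g)) φ →
      (t k : ℂ) * aa n g * (y - bb n g) ∉ φ '' MB.Ext := by
  obtain ⟨m, hm⟩ := reach hG D hD hDB
  have h1 : Tendsto (fun k => (((t k) ^ (n - 1) : ℝ) : ℂ)) atTop (𝓝 1) := by
    have h2 : Tendsto (fun k => (t k) ^ (n - 1)) atTop (𝓝 (1 ^ (n - 1))) := ht.pow (n - 1)
    rw [one_pow] at h2
    have h3 := (Complex.continuous_ofReal.tendsto 1).comp h2
    rw [Complex.ofReal_one] at h3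
    exact h3
  filter_upwards [h1.eventually hm] with k hk y hy φ hφ
  have hb : ∀ j, m ≤ j → ‖(plam g (((t k) ^ (n - 1) : ℝ) : ℂ))^[j] y‖ ≤ 1 := by
    intro j hj
    induction j, hj using Nat.le_induction with
    | base => exact hk y hy
    | succ j hj ih =>
      rw [Function.iterate_succ_apply']
      apply plam_disc hG _ (pow_nonneg (ht0 k).le _) (pow_le_one₀ (ht0 k).le (ht1 k).le) _ ih
  have hn := hG.n3
  apply not_ext (by omega) (F (t k * aa n g)) φ hφ _ (‖(t k : ℂ) * aa n g‖ * (1 + ‖bb n g‖)) m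
  intro j hj
  rw [orbit_conj hG hF (t k) (ht0 k) y j, norm_mul]
  apply mul_le_mul_of_nonneg_left _ (norm_nonneg _)
  exact (norm_sub_le _ _).trans (by linarith [hb j hj])

end RDLaux

open RDLaux in
theorem t_RDL (h1 : S_MEM) (h2 : S_LNK) (h3 : S_BASN) (h4 : MB.S_REL) (h5 : MB.S_CLOS) (h6 : MB.S_LIM)
    (h7 : MB.S_RTOP) : S_RDL := by
  intro n g c₀ c φ F A k C T hG hP hF hT
  have hn3 := hG.n3
  have hn2 : 2 ≤ n := by omega
  obtain ⟨ha, ha0, hc0⟩ := aa_facts hG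
  have hBopen : IsOpen (Bas g c₀) := (h3 n g c₀ c hG).1
  obtain ⟨t, ht⟩ : ∃ t : ℕ → ℝ, t = fun k : ℕ => 1 - 1 / ((k : ℝ) + 2) := ⟨_, rfl⟩
  have ht0 : ∀ k, 0 < t k := by
    intro k
    rw [ht]
    show 0 < 1 - 1 / ((k : ℝ) + 2)
    have : 1 / ((k : ℝ) + 2) < 1 := by
      rw [div_lt_one (by positivity)]
      have : (0 : ℝ) ≤ k := Nat.cast_nonneg k
      linarith
    linarith
  have ht1 : ∀ k, t k < 1 := by
    intro k
    rw [ht]
    show 1 - 1 / ((k : ℝ) + 2) < 1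
    have : 0 < 1 / ((k : ℝ) + 2) := by positivity
    linarith
  have htl : Tendsto t atTop (𝓝 1) := by
    rw [ht]
    have h : Tendsto (fun k : ℕ => 1 / ((k : ℝ) + 2)) atTop (𝓝 0) := by
      have h' := (tendsto_const_nhds (x := (1 : ℝ))).div_atTop
        (tendsto_atTop_add_const_right atTop (2 : ℝ) tendsto_natCast_atTop_atTop)
      exact h'
    have h' := (tendsto_const_nhds (x := (1 : ℝ))).sub h
    simpa using h'
  have hmem : ∀ k, F (t k * aa n g) ∈ BB (zn n) := fun k => (h1 n g c₀ c F hG hF).1 (t k) (ht0 k) (ht1 k)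
  have hrel : ∀ k, ∃ f, Rel A (F (t k * aa n g)) f := fun k => (h4 n hn2 A).2.1 _ (hmem k)
  choose f hf using hrel
  have hlinks := fun k => hT.lk _ _ (hf k)
  choose H φk φk' hL hdiff using hlinks
  set u : Ultrafilter ℕ := Ultrafilter.of atTop with hu
  have hule : (u : Filter ℕ) ≤ atTop := Ultrafilter.of_le atTop
  have hcomp : IsCompact (EE A) := (h5 n hn2 A).1
  obtain ⟨⟨G, f'⟩, hGE, hlim⟩ := hcomp.ultrafilter_le_nhds (u.map (fun k => (F (t k * aa n g), f k))) (by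
    rw [le_principal_iff]
    show (fun k => (F (t k * aa n g), f k)) ⁻¹' (EE A) ∈ (u : Filter ℕ)
    filter_upwards with k
    exact subset_closure (hf k))
  have hlim' : Tendsto (fun k => (F (t k * aa n g), f k)) u (𝓝 (G, f')) := hlim
  have hlim1 : Tendsto (fun k => F (t k * aa n g)) u (𝓝 G) := (continuous_fst.tendsto _).comp hlim'
  have hlim2 : Tendsto f u (𝓝 f') := (continuous_snd.tendsto _).comp hlim'
  have hta : Tendsto (fun k => (t k : ℂ) * aa n g) atTop (𝓝 (aa n g)) := by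
    have h' := (Complex.continuous_ofReal.tendsto 1).comp htl
    have h'' := h'.mul_const (aa n g)
    simpa using h''
  have hFl : Tendsto (fun k => F (t k * aa n g)) u (𝓝 (F (aa n g))) :=
    ((hF.cont.tendsto _).comp hta).mono_left hule
  have : T2Space (RMap n) := (h7 n).1
  have hGF : G = F (aa n g) := tendsto_nhds_unique hlim1 hFl
  subst hGF
  obtain ⟨K, Φ, Φ', hKL, hKlim, -⟩ := h6 n hn2 A k C T hT.tr ℕ u (fun k => F (t k * aa n g)) f H φk φk' (F (aa n g)) f'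
    (Eventually.of_forall hL) hlim1 hlim2
  obtain ⟨-, K0, hK0, hK0L⟩ := h2 n g c₀ c φ F A C T K f' Φ Φ' hG hP hF hKL
  refine ⟨f', Φ', K0, hGE, hK0L, ?_⟩
  intro y₀ hy₀
  obtain ⟨r, hr, hrB⟩ := Metric.nhds_basis_closedBall.mem_iff.mp (hBopen.mem_nhds hy₀)
  have hev := ev_not_ext hG hF (closedBall y₀ r) (isCompact_closedBall y₀ r) hrB t ht0 ht1 htl
  have htlu := tlu_comp u (fun k z => H k z) (fun z => K z) K.continuous hKlim (fun k => (t k : ℂ) * aa n g) (aa n g)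
    (bb n g) (hta.mono_left hule) (ball y₀ r)
  have hdo : DifferentiableOn ℂ (fun y => K (aa n g * (y - bb n g))) (ball y₀ r) := by
    apply htlu.differentiableOn _ isOpen_ball
    filter_upwards [hule hev] with k hk
    have hta0 : (t k : ℂ) * aa n g ≠ 0 := mul_ne_zero (by exact_mod_cast (ht0 k).ne') ha0
    have hmaps : MapsTo (fun y => (t k : ℂ) * aa n g * (y - bb n g)) (ball y₀ r) (interior (φk k '' MB.Ext)ᶜ) := by
      have himg : (fun y => (t k : ℂ) * aa n g * (y - bb n g)) '' ball y₀ r ⊆ interior (φk k '' MB.Ext)ᶜ := by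
        apply interior_maximal
        · rintro _ ⟨y, hy, rfl⟩
          exact hk y (ball_subset_closedBall hy) (φk k) (hL k).extg
        · have ho1 : IsOpenMap (fun y : ℂ => y - bb n g) := (Homeomorph.subRight (bb n g)).isOpenMap
          have ho2 : IsOpenMap (fun y : ℂ => (t k : ℂ) * aa n g * y) := (Homeomorph.mulLeft₀ _ hta0).isOpenMap
          exact (ho2.comp ho1) _ isOpen_ball
      intro y hy
      exact himg ⟨y, hy, rfl⟩
    exact (hdiff k).comp (by fun_prop) hmaps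
  have h8 : DifferentiableAt ℂ (fun y => K (aa n g * (y - bb n g))) y₀ :=
    hdo.differentiableAt (isOpen_ball.mem_nhds (mem_ball_self hr))
  have h9 : (K0 : ℂ → ℂ) = fun y => K (aa n g * (y - bb n g)) := funext hK0
  rw [h9]
  exact h8.differentiableWithinAt

end Pool.Agent.H212.ND
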