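import Pool.Agent.H212.ND.StmC
import Pool.Graph.R_seed8.H18R3.Refl
import Pool.Graph.R_seed8.Helper523.LL.Univ

/-!
# JOB REF (helper271): Schwarz reflection
-/

set_option autoImplicit false

open Filter Metric Set Topology Polynomial
open scoped ComplexConjugate

namespace Pool.Agent.H212.ND

open Pool.Agent.H212.MB

namespace REFaux

theorem isOpen_Ext : IsOpen MB.Ext := isOpen_lt continuous_const continuous_norm

theorem isClosed_CExt : IsClosed CExt := isClosed_le continuous_const continuous_norm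

theorem Ext_sub : MB.Ext ⊆ CExt := fun z (hz : 1 < ‖z‖) => le_of_lt hz

theorem aa_ne {n : ℕ} {g : ℂ[X]} {c₀ : ℝ} {c : ℂ} (hG : Good n g c₀ c) : aa n g ≠ 0 := by
  unfold aa
  exact_mod_cast (Real.rpow_pos_of_pos hG.lead _).ne'

/-- `φ` is proper -/
theorem proper {φ : ℂ → ℂ} {a b : ℂ} (ha : a ≠ 0)
    (h : Tendsto (fun z => φ z - z / a) (cocompact ℂ) (𝓝 b)) (M : ℝ) :
    ∃ t : Set ℂ, IsCompact t ∧ ∀ z, ‖φ z‖ ≤ M → z ∈ t := by
  have ha0 : 0 < ‖a‖ := norm_pos_iff.2 ha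
  have h1 : ∀ᶠ z in cocompact ℂ, ‖φ z - z / a - b‖ < 1 := by
    have := (Metric.tendsto_nhds.1 h) 1 one_pos
    simpa [dist_eq_norm] using this
  have h2 : ∀ᶠ z in cocompact ℂ, (M + ‖b‖ + 1) * ‖a‖ < ‖z‖ :=
    (tendsto_norm_cocompact_atTop (E := ℂ)).eventually_gt_atTop _
  obtain ⟨t, ht, hsub⟩ := mem_cocompact.1 (h1.and h2)
  refine ⟨t, ht, fun z hz => ?_⟩
  by_contra hcon
  obtain ⟨h3, h4⟩ := hsub hcon
  have h5 : ‖z / a‖ ≤ ‖φ z‖ + ‖b‖ + ‖φ z - z / a - b‖ := by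
    have e : z / a = φ z - b - (φ z - z / a - b) := by ring
    calc ‖z / a‖ = ‖φ z - b - (φ z - z / a - b)‖ := by rw [← e]
      _ ≤ ‖φ z - b‖ + ‖φ z - z / a - b‖ := norm_sub_le _ _
      _ ≤ ‖φ z‖ + ‖b‖ + ‖φ z - z / a - b‖ := by gcongr; exact norm_sub_le _ _
  rw [norm_div, div_le_iff₀ ha0] at h5
  have h6 : (‖φ z‖ + ‖b‖ + ‖φ z - z / a - b‖) * ‖a‖ ≤ (M + ‖b‖ + 1) * ‖a‖ := by
    gcongr
  linarith

/-- continuity of the inverse of a proper injective map -/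
theorem cont_inv {φ w u : ℂ → ℂ} {s : Set ℂ} (hc : ContinuousOn φ CExt) (hi : InjOn φ CExt)
    (hp : ∀ M : ℝ, ∃ t : Set ℂ, IsCompact t ∧ ∀ z, ‖φ z‖ ≤ M → z ∈ t)
    (hw : ∀ z ∈ s, w z ∈ CExt ∧ φ (w z) = u z) (hu : ContinuousOn u s) : ContinuousOn w s := by
  intro z hz
  obtain ⟨t, ht, htm⟩ := hp (‖u z‖ + 1)
  have h1 : ∀ᶠ y in 𝓝[s] z, ‖u y‖ < ‖u z‖ + 1 :=
    (hu z hz).norm.eventually_lt_const (by linarith)
  have hmem : ∀ᶠ y in 𝓝[s] z, w y ∈ t ∩ CExt := by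
    filter_upwards [h1, self_mem_nhdsWithin] with y hy hys
    exact ⟨htm _ (by rw [(hw y hys).2]; exact hy.le), (hw y hys).1⟩
  refine (ht.inter_right isClosed_CExt).tendsto_nhds_of_unique_mapClusterPt hmem ?_
  intro x hx hcl
  obtain ⟨U, hU, hUt⟩ := mapClusterPt_iff_ultrafilter.1 hcl
  have h2 : ∀ᶠ y in (U : Filter ℂ), w y ∈ CExt :=
    hU (hmem.mono fun y hy => hy.2)
  have h3 : Tendsto (fun y => φ (w y)) U (𝓝 (φ x)) :=
    (hc x hx.2).tendsto.comp (tendsto_nhdsWithin_iff.2 ⟨hUt, h2⟩)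
  have h4 : Tendsto u U (𝓝 (u z)) := (hu z hz).mono_left hU
  have h5 : Tendsto (fun y => φ (w y)) U (𝓝 (u z)) := by
    refine h4.congr' ?_
    have h6 : ∀ᶠ y in (U : Filter ℂ), y ∈ s := hU self_mem_nhdsWithin
    filter_upwards [h6] with y hy
    exact ((hw y hy).2).symm
  have h6 : φ x = φ (w z) := by
    rw [(hw z hz).2]
    exact tendsto_nhds_unique h3 h5
  exact hi hx.2 (hw z hz).1 h6

/-- holomorphy of an inverse branch -/
theorem diff_inv {F σ G : ℂ → ℂ} {z : ℂ} (hF : DifferentiableOn ℂ F MB.Ext) (hi : InjOn F MB.Ext)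
    (hσ : ContinuousAt σ z) (hm : σ z ∈ MB.Ext) (hG : DifferentiableAt ℂ G z)
    (h : ∀ᶠ y in 𝓝 z, F (σ y) = G y) : DifferentiableAt ℂ σ z := by
  have hd := Pool.Agent.Helper523.LL.deriv_ne_zero_of_injOn isOpen_Ext hF hi hm
  have hs : HasStrictDerivAt F (deriv F (σ z)) (σ z) :=
    (hF.analyticAt (isOpen_Ext.mem_nhds hm)).hasStrictDerivAt
  have h1 := hs.to_localInverse hd
  have h2 : ∀ᶠ y in 𝓝 z, hs.localInverse F (deriv F (σ z)) (σ z) hd (F (σ y)) = σ y :=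
    hσ.eventually (HasStrictFDerivAt.eventually_left_inverse _)
  have e : F (σ z) = G z := h.self_of_nhds
  have h3 : DifferentiableAt ℂ (fun y => hs.localInverse F (deriv F (σ z)) (σ z) hd (G y)) z := by
    have h4 : DifferentiableAt ℂ (hs.localInverse F (deriv F (σ z)) (σ z) hd) (G z) := by
      rw [← e]
      exact h1.hasDerivAt.differentiableAt
    exact h4.comp z hG
  refine h3.congr_of_eventuallyEq ?_
  filter_upwards [h, h2] with y hy1 hy2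
  rw [← hy1, hy2]

/-- the reflected map in the coordinate `z = ζ₀ exp (- i ζ)` -/
theorem finish {σ : ℂ → ℂ} {t : ℝ → ℝ} {x₀ η : ℝ} (hη : 0 < η)
    (hc : ContinuousOn σ (CExt ∩ ball (Complex.exp (x₀ * Complex.I)) η))
    (hd : ∀ z ∈ MB.Ext ∩ ball (Complex.exp (x₀ * Complex.I)) η, DifferentiableAt ℂ σ z)
    (hcirc : ∀ x : ℝ, Complex.exp (x * Complex.I) ∈ ball (Complex.exp (x₀ * Complex.I)) η →
      σ (Complex.exp (x * Complex.I)) = Complex.exp (t x * Complex.I))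
    (ht : Continuous t) : ∃ δ : ℝ, 0 < δ ∧ ContDiffOn ℝ 1 t (Ioo (x₀ - δ) (x₀ + δ)) := by
  set ζ₀ : ℂ := Complex.exp (x₀ * Complex.I) with hζ₀
  have hζn : ‖ζ₀‖ = 1 := Complex.norm_exp_ofReal_mul_I x₀
  set e : ℂ → ℂ := fun ζ => ζ₀ * Complex.exp (-(Complex.I * ζ)) with he
  have hec : Continuous e := by
    rw [he]
    fun_prop
  have hed : Differentiable ℂ e := by
    rw [he]
    fun_prop
  have he0 : e 0 = ζ₀ := by simp [he]
  have hen : ∀ ζ, ‖e ζ‖ = Real.exp ζ.im := by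
    intro ζ
    simp only [he]
    rw [norm_mul, hζn, one_mul, Complex.norm_exp]
    simp
  have her : ∀ x : ℝ, e x = Complex.exp (((x₀ - x : ℝ) : ℂ) * Complex.I) := by
    intro x
    simp only [he, hζ₀]
    rw [← Complex.exp_add]
    congr 1
    push_cast
    ring
  set τ₀ : ℂ := Complex.exp (t x₀ * Complex.I) with hτ₀
  have hτn : τ₀ ≠ 0 := Complex.exp_ne_zero _
  have hσ0 : σ ζ₀ = τ₀ := hcirc x₀ (mem_ball_self hη)
  -- the first radius
  obtain ⟨a₁, ha₁, h1⟩ : ∃ a₁ : ℝ, 0 < a₁ ∧ ∀ ζ : ℂ, ‖ζ‖ < a₁ → e ζ ∈ ball ζ₀ η := by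
    have := hec.continuousAt.preimage_mem_nhds (by rw [he0]; exact ball_mem_nhds ζ₀ hη) (x := 0)
    obtain ⟨a, ha, hsub⟩ := Metric.mem_nhds_iff.1 this
    exact ⟨a, ha, fun ζ hζ => hsub (by simpa using hζ)⟩
  have hmaps : ∀ ζ : ℂ, ‖ζ‖ < a₁ → 0 ≤ ζ.im → e ζ ∈ CExt ∩ ball ζ₀ η := by
    intro ζ h2 h3
    refine ⟨?_, h1 ζ h2⟩
    show 1 ≤ ‖e ζ‖
    rw [hen]
    exact Real.one_le_exp h3
  have hσe : ContinuousOn (fun ζ => σ (e ζ) / τ₀) {ζ : ℂ | ‖ζ‖ < a₁ ∧ 0 ≤ ζ.im} := by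
    refine ContinuousOn.div_const ?_ _
    exact hc.comp hec.continuousOn fun ζ hζ => hmaps ζ hζ.1 hζ.2
  -- the second radius
  obtain ⟨a₂, ha₂, ha₂₁, h4⟩ : ∃ a₂ : ℝ, 0 < a₂ ∧ a₂ ≤ a₁ ∧ ∀ ζ : ℂ, ‖ζ‖ < a₂ → 0 ≤ ζ.im →
      σ (e ζ) / τ₀ ∈ Complex.slitPlane := by
    have h5 : σ (e 0) / τ₀ = 1 := by rw [he0, hσ0, div_self hτn]
    have h6 := Metric.continuousWithinAt_iff.1 (hσe 0 ⟨by simpa using ha₁, by simp⟩) 1 one_pos
    obtain ⟨δ, hδ, h7⟩ := h6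
    refine ⟨min δ a₁, lt_min hδ ha₁, min_le_right _ _, fun ζ h8 h9 => ?_⟩
    have h10 := h7 (x := ζ) ⟨h8.trans_le (min_le_right _ _), h9⟩ (by
      rw [dist_zero_right]
      exact h8.trans_le (min_le_left _ _))
    rw [h5, dist_eq_norm] at h10
    have h11 := Complex.mem_slitPlane_of_norm_lt_one h10
    rwa [add_sub_cancel] at h11
  -- the third radius
  obtain ⟨a, ha, ha12, h5⟩ : ∃ a : ℝ, 0 < a ∧ a ≤ a₂ ∧ ∀ x : ℝ, |x| < a →
      |t (x₀ - x) - t x₀| < Real.pi := by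
    have h6 : Continuous fun x : ℝ => t (x₀ - x) - t x₀ := by fun_prop
    have h7 := Metric.continuousAt_iff.1 (h6.continuousAt (x := 0)) Real.pi Real.pi_pos
    obtain ⟨δ, hδ, h8⟩ := h7
    refine ⟨min δ a₂, lt_min hδ ha₂, min_le_right _ _, fun x hx => ?_⟩
    have h9 := h8 (x := x) (by
      rw [Real.dist_eq, sub_zero]
      exact hx.trans_le (min_le_left _ _))
    simpa [Real.dist_eq] using h9
  have ha1 : a ≤ a₁ := ha12.trans ha₂₁
  set h : ℂ → ℂ := fun ζ => Complex.I * Complex.log (σ (e ζ) / τ₀) with hh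
  have hreal : ∀ x : ℝ, |x| < a → h x = ((-(t (x₀ - x) - t x₀) : ℝ) : ℂ) := by
    intro x hx
    have hb : e x ∈ ball ζ₀ η := h1 x (by rw [Complex.norm_real]; exact hx.trans_le ha1)
    have e1 : σ (e x) / τ₀ = Complex.exp (((t (x₀ - x) - t x₀ : ℝ) : ℂ) * Complex.I) := by
      rw [her] at hb ⊢
      rw [hcirc _ hb, hτ₀, ← Complex.exp_sub]
      congr 1
      push_cast
      ring
    obtain ⟨h6, h7⟩ := abs_lt.1 (h5 x hx)
    simp only [hh]
    rw [e1, Complex.log_exp (by simpa using h6) (by simpa using h7.le)]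
    push_cast
    have hI := Complex.I_mul_I
    linear_combination ((t (x₀ - x) : ℂ) - t x₀) * hI
  obtain ⟨H, hHd, hHe⟩ := Pool.Agent.H18R3.refl (h := h) (a := a) (by
      refine continuousOn_const.mul ?_
      refine ContinuousOn.clog (hσe.mono fun ζ hζ => ⟨hζ.1.trans_le ha1, hζ.2⟩) fun ζ hζ => ?_
      exact h4 ζ (hζ.1.trans_le ha12) hζ.2) (by
      rintro ζ ⟨h6, h7⟩
      apply DifferentiableAt.differentiableWithinAt
      have h8 : e ζ ∈ MB.Ext ∩ ball ζ₀ η := by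
        refine ⟨?_, h1 ζ (h6.trans_le ha1)⟩
        show 1 < ‖e ζ‖
        rw [hen]
        exact Real.one_lt_exp_iff.2 h7
      have h9 : DifferentiableAt ℂ (fun ζ => σ (e ζ) / τ₀) ζ :=
        ((hd _ h8).comp ζ hed.differentiableAt).div_const _
      exact (h9.clog (h4 ζ (h6.trans_le ha12) h7.le)).const_mul _) (by
      intro x hx
      rw [hreal x hx]
      exact Complex.ofReal_im _)
  refine ⟨a, ha, ?_⟩
  have hHc : ContDiffOn ℝ 1 H (ball 0 a) :=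
    ((hHd.contDiffOn (n := 1) isOpen_ball).restrict_scalars ℝ)
  have hmain : ContDiffOn ℝ 1 (fun y : ℝ => t x₀ - (H ((x₀ - y : ℝ) : ℂ)).re)
      (Ioo (x₀ - a) (x₀ + a)) := by
    refine contDiffOn_const.sub ?_
    have h6 : ContDiffOn ℝ 1 (fun y : ℝ => H ((x₀ - y : ℝ) : ℂ)) (Ioo (x₀ - a) (x₀ + a)) := by
      refine hHc.comp (t := ball 0 a) (g := H) (f := fun y : ℝ => ((x₀ - y : ℝ) : ℂ)) ?_ ?_
      · apply ContDiff.contDiffOn
        exact Complex.ofRealCLM.contDiff.comp (contDiff_const.sub contDiff_id)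
      · intro y hy
        rw [mem_ball_zero_iff, Complex.norm_real, Real.norm_eq_abs, abs_lt]
        constructor <;> linarith [hy.1, hy.2]
    exact Complex.reCLM.contDiff.comp_contDiffOn h6
  refine hmain.congr fun y hy => ?_
  have hy' : |x₀ - y| < a := by
    rw [abs_lt]
    constructor <;> linarith [hy.1, hy.2]
  rw [hHe _ (by rw [Complex.norm_real]; exact hy') (by simp), hreal _ hy', Complex.ofReal_re]
  have e2 : x₀ - (x₀ - y) = y := by ring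
  rw [e2]
  ring

end REFaux

open REFaux in
theorem t_REF : S_REF := by
  intro n g c₀ c φ A k T f φ' K0 hG hP hT hL hC
  obtain ⟨ζ₀, r, Kh, hζ₀, hr, hKd, hKi, hK⟩ := hC
  obtain ⟨t, htc, htm, htp, htT⟩ := hT.lift
  have hφc := hP.bot.cont
  have hφi := hP.inj
  have hx₀ : Complex.exp ((Complex.arg ζ₀ : ℝ) * Complex.I) = ζ₀ := by
    have := Complex.norm_mul_exp_arg_mul_I ζ₀
    rw [hζ₀] at this
    simpa using this
  have hζC : ζ₀ ∈ CExt := hζ₀.ge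
  -- a neighbourhood of `ζ₀`
  obtain ⟨η, hη, hηr⟩ : ∃ η : ℝ, 0 < η ∧ ∀ z ∈ CExt, z ∈ ball ζ₀ η → φ z ∈ ball (φ ζ₀) r := by
    obtain ⟨δ, hδ, h1⟩ := Metric.continuousWithinAt_iff.1 (hφc ζ₀ hζC) r hr
    exact ⟨δ, hδ, fun z hz hz2 => h1 hz hz2⟩
  set N : Set ℂ := CExt ∩ ball ζ₀ η with hN
  set u : ℂ → ℂ := fun z => K0.symm (Kh (φ z)) with hu
  have huc : ContinuousOn u N := by
    refine K0.symm.continuous.comp_continuousOn ?_
    refine hKd.continuousOn.comp (hφc.mono inter_subset_left) fun z hz => hηr z hz.1 hz.2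
  have hu1 : ∀ z ∈ N, z ∈ MB.Ext → ∃ z' ∈ MB.Ext, φ z' = u z := by
    intro z hz hzE
    obtain ⟨y, ⟨z', hz', rfl⟩, hy⟩ := (hK (φ z) (hηr z hz.1 hz.2)).2 (mem_image_of_mem _ hzE)
    refine ⟨z', hz', ?_⟩
    simp only [hu]
    rw [← hy, Homeomorph.symm_apply_apply]
  have hu2 : ∀ z ∈ N, ‖z‖ = 1 → u z = φ z := by
    intro z hz hz1
    have h1 : φ z ∉ φ '' MB.Ext := by
      rintro ⟨z', hz', h2⟩
      exact hP.bot.disj z' hz' z hz1 h2
    simp only [hu]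
    rw [(hK (φ z) (hηr z hz.1 hz.2)).1 h1, Homeomorph.symm_apply_apply]
  set w : ℂ → ℂ := fun z => Function.invFunOn φ CExt (u z) with hw
  have hl := hφi.leftInvOn_invFunOn
  have hw1 : ∀ z ∈ N, z ∈ MB.Ext → w z ∈ MB.Ext ∧ φ (w z) = u z := by
    intro z hz hzE
    obtain ⟨z', hz', h1⟩ := hu1 z hz hzE
    have h2 : w z = z' := by
      simp only [hw]
      rw [← h1]
      exact hl (Ext_sub hz')
    rw [h2]
    exact ⟨hz', h1⟩
  have hw2 : ∀ z ∈ N, ‖z‖ = 1 → w z = z := by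
    intro z hz hz1
    simp only [hw]
    rw [hu2 z hz hz1]
    exact hl hz.1
  have hw3 : ∀ z ∈ N, w z ∈ CExt ∧ φ (w z) = u z := by
    intro z hz
    rcases (show 1 ≤ ‖z‖ from hz.1).lt_or_eq with h1 | h1
    · exact ⟨Ext_sub (hw1 z hz h1).1, (hw1 z hz h1).2⟩
    · rw [hw2 z hz h1.symm]
      exact ⟨hz.1, (hu2 z hz h1.symm).symm⟩
  have hwc : ContinuousOn w N :=
    cont_inv hφc hφi (proper (aa_ne hG) hP.bot.asym) hw3 huc
  set σ : ℂ → ℂ := fun z => T (w z) with hσ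
  have hσc : ContinuousOn σ N := T.continuous.comp_continuousOn hwc
  have hσE : ∀ z ∈ N, z ∈ MB.Ext → σ z ∈ MB.Ext ∧ φ' (σ z) = Kh (φ z) := by
    intro z hz hzE
    obtain ⟨h1, h2⟩ := hw1 z hz hzE
    refine ⟨(hT.out (w z)).2 h1, ?_⟩
    simp only [hσ]
    rw [← hL.out (w z) h1, h2]
    simp only [hu]
    rw [Homeomorph.apply_symm_apply]
  have hNo : IsOpen (MB.Ext ∩ ball ζ₀ η) := REFaux.isOpen_Ext.inter isOpen_ball
  obtain ⟨δ, hδ, hfin⟩ := finish (σ := σ) (t := t) (x₀ := Complex.arg ζ₀) hη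
    (by rw [hx₀]; exact hσc) (by
      rw [hx₀]
      intro z hz
      have hzN : z ∈ N := ⟨Ext_sub hz.1, hz.2⟩
      have hnh := hNo.mem_nhds hz
      refine diff_inv hL.ext.diff hL.ext.inj ?_ (hσE z hzN hz.1).1 (G := fun y => Kh (φ y)) ?_ ?_
      · exact hσc.continuousAt (mem_of_superset hnh fun y hy => ⟨Ext_sub hy.1, hy.2⟩)
      · have h1 : DifferentiableAt ℂ φ z := hP.bot.diff.differentiableAt (REFaux.isOpen_Ext.mem_nhds hz.1)
        have h2 : DifferentiableAt ℂ Kh (φ z) :=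
          hKd.differentiableAt (isOpen_ball.mem_nhds (hηr z hzN.1 hzN.2))
        exact h2.comp z h1
      · filter_upwards [hnh] with y hy
        exact (hσE y ⟨Ext_sub hy.1, hy.2⟩ hy.1).2) (by
      rw [hx₀]
      intro x hx
      have hn : ‖Complex.exp (x * Complex.I)‖ = 1 := Complex.norm_exp_ofReal_mul_I x
      simp only [hσ]
      rw [hw2 _ ⟨hn.ge, hx⟩ hn]
      exact htT x) htc
  exact ⟨t, Complex.arg ζ₀, δ, hδ, htc, htm, htp, htT, hfin⟩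

end Pool.Agent.H212.ND
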