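import Pool.Agent.H212.ND.StmN

/-!
# Project ND (MP_395436_an): points near `1` in the repelling direction
-/

set_option autoImplicit false

open Filter Metric Set Topology Polynomial
open scoped ComplexConjugate

namespace Pool.Agent.H212.ND

open Pool.Agent.H212.MB

namespace REPaux

lemma eval_one_im (p : ℂ[X]) (h : ∀ i, (p.coeff i).im = 0) : (p.eval 1).im = 0 := by
  rw [Polynomial.eval_eq_sum_range]
  simp [h]

lemma der_real (p : ℂ[X]) (h : ∀ i, (p.coeff i).im = 0) : ∀ i, (p.derivative.coeff i).im = 0 := by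
  intro i
  rw [Polynomial.coeff_derivative, Complex.mul_im, h]
  simp

lemma al_eq {n : ℕ} {g : ℂ[X]} {c₀ : ℝ} {c : ℂ} (hg : Good n g c₀ c) :
    ∃ a : ℝ, 0 < a ∧ al g = (a : ℂ) := by
  have h1 : (g.derivative.derivative.eval 1).im = 0 :=
    eval_one_im _ (der_real _ (der_real _ hg.real))
  refine ⟨(g.derivative.derivative.eval 1).re / 2, by linarith [hg.der2], ?_⟩
  apply Complex.ext
  · simp [al]
  · simp [al, h1]

lemma expand (g : ℂ[X]) (h1 : g.eval 1 = 1) (h2 : g.derivative.eval 1 = 1) :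
    ∃ q : ℂ[X], ∀ u : ℂ, 1 - g.eval (1 - u) =
      u * (1 - al g * u + (al g ^ 2 - ga g) * u ^ 2 - u ^ 3 * q.eval u) := by
  have c0 : (taylor 1 g).coeff 0 = 1 := by rw [taylor_coeff_zero, h1]
  have c1 : (taylor 1 g).coeff 1 = 1 := by rw [taylor_coeff_one, h2]
  have c2 : (taylor 1 g).coeff 2 = al g := by
    rw [taylor_coeff]
    have := congrArg (fun f : ℂ[X] → ℂ[X] => (f g).eval 1) (factorial_smul_hasseDeriv (R := ℂ) (k := 2))
    simp [Nat.factorial] at this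
    rw [al, ← this]
    ring
  have c3 : (taylor 1 g).coeff 3 = al g ^ 2 - ga g := by
    rw [taylor_coeff]
    have := congrArg (fun f : ℂ[X] → ℂ[X] => (f g).eval 1) (factorial_smul_hasseDeriv (R := ℂ) (k := 3))
    simp [Nat.factorial] at this
    rw [ga, ← this]
    ring
  refine ⟨((taylor 1 g).divX.divX.divX.divX).comp (-X), fun u => ?_⟩
  have key : ∀ (p : ℂ[X]) (s : ℂ), p.eval s = p.divX.eval s * s + p.coeff 0 := by
    intro p s
    conv_lhs => rw [← divX_mul_X_add p]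
    simp
  have e : g.eval (1 - u) = (taylor 1 g).eval (-u) := by
    rw [taylor_eval]; congr 1; ring
  rw [e, key (taylor 1 g), key (taylor 1 g).divX, key (taylor 1 g).divX.divX,
    key (taylor 1 g).divX.divX.divX]
  simp only [coeff_divX, c0, eval_comp, eval_neg, eval_X]
  norm_num
  rw [h2, c2, c3]
  ring

/-- solutions of `g (1 - u) = 1 - h` for small `h` -/
lemma inv_small (g : ℂ[X]) (h1 : g.eval 1 = 1) (h2 : g.derivative.eval 1 = 1) (δ : ℝ) (hδ : 0 < δ) :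
    ∃ ε : ℝ, 0 < ε ∧ ∀ h : ℂ, ‖h‖ < ε → ∃ u : ℂ, ‖u‖ < δ ∧ 1 - g.eval (1 - u) = h := by
  have hd : HasStrictDerivAt (fun u : ℂ => 1 - g.eval (1 - u)) 1 0 := by
    have e1 : HasStrictDerivAt (fun u : ℂ => 1 - u) (-1) 0 := by
      simpa using (hasStrictDerivAt_id (0 : ℂ)).const_sub 1
    have e2 : HasStrictDerivAt (fun z : ℂ => g.eval z) (g.derivative.eval (1 - 0)) (1 - 0) :=
      g.hasStrictDerivAt _
    have e3 := (HasStrictDerivAt.comp (0 : ℂ) e2 e1).const_sub 1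
    have e4 : -(eval (1 - 0) (derivative g) * -1) = (1 : ℂ) := by
      rw [sub_zero, h2]; norm_num
    rw [e4] at e3
    exact e3
  have hm := hd.map_nhds_eq one_ne_zero
  have e0 : (1 : ℂ) - g.eval (1 - 0) = 0 := by rw [sub_zero, h1, sub_self]
  rw [e0] at hm
  have : (fun u : ℂ => 1 - g.eval (1 - u)) '' ball 0 δ ∈ 𝓝 (0 : ℂ) := by
    rw [← hm]
    exact image_mem_map (ball_mem_nhds _ hδ)
  obtain ⟨ε, hε, hb⟩ := Metric.mem_nhds_iff.1 this
  refine ⟨ε, hε, fun h hh => ?_⟩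
  obtain ⟨u, hu, e⟩ := hb (show h ∈ ball (0 : ℂ) ε by simpa using hh)
  exact ⟨u, by simpa using hu, e⟩

/-- boundedness of a polynomial on the unit disc -/
lemma poly_bound (q : ℂ[X]) : ∃ B : ℝ, 0 < B ∧ ∀ u : ℂ, ‖u‖ ≤ 1 → ‖q.eval u‖ ≤ B := by
  obtain ⟨B, hB⟩ := (isCompact_closedBall (0 : ℂ) 1).exists_bound_of_continuousOn
    (f := fun u => q.eval u) q.continuous.continuousOn
  refine ⟨max B 1, by positivity, fun u hu => (hB u (by simpa using hu)).trans (le_max_left _ _)⟩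

/-- one backward step near infinity -/
lemma step (g : ℂ[X]) (h1 : g.eval 1 = 1) (h2 : g.derivative.eval 1 = 1) :
    ∃ R₁ C₁ : ℝ, 1 < R₁ ∧ 0 < C₁ ∧ ∀ v : ℂ, R₁ ≤ ‖v‖ → ∃ v' : ℂ, 1 ≤ ‖v'‖ ∧
      g.eval (1 - v'⁻¹) = 1 - v⁻¹ ∧ ‖v‖ ≤ 2 * ‖v'‖ ∧ ‖v - (v' + al g + ga g / v')‖ ≤ C₁ / ‖v'‖ ^ 2 := by
  obtain ⟨q, hq⟩ := expand g h1 h2
  obtain ⟨B, hB, hqB⟩ := poly_bound q
  set a := al g with ha
  set b := ga g with hb
  set M := ‖a‖ + ‖a ^ 2 - b‖ + B with hM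
  have hM0 : 0 < M := by positivity
  obtain ⟨ε, hε, hinv⟩ := inv_small g h1 h2 (min 1 (1 / (2 * M))) (by positivity)
  set C₁ := 2 * (‖a‖ * ‖b‖ + ‖a‖ * ‖a ^ 2 - b‖ + ‖a ^ 2 - b‖ * ‖b‖ + B * (1 + ‖a‖ + ‖b‖)) + 1 with hC
  have hC0 : 0 < C₁ := by positivity
  refine ⟨max 2 (2 / ε), C₁, by norm_num, hC0, fun v hv => ?_⟩
  have hv2 : 2 ≤ ‖v‖ := (le_max_left _ _).trans hv
  have hvε : 2 / ε ≤ ‖v‖ := (le_max_right _ _).trans hv
  have hv0 : v ≠ 0 := by rw [← norm_pos_iff]; linarith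
  have hh : ‖v⁻¹‖ < ε := by
    rw [norm_inv, inv_lt_comm₀ (by linarith) hε]
    rw [div_le_iff₀ hε] at hvε
    rw [inv_lt_iff_one_lt_mul₀ hε]
    linarith
  obtain ⟨u, hu, e⟩ := hinv v⁻¹ hh
  have hu1 : ‖u‖ < 1 := hu.trans_le (min_le_left _ _)
  have huM : ‖u‖ < 1 / (2 * M) := hu.trans_le (min_le_right _ _)
  have huM' : M * ‖u‖ ≤ 1 / 2 := by
    rw [lt_div_iff₀ (by positivity)] at huM
    linarith
  rw [hq u] at e
  set Q := q.eval u with hQ
  have hQB : ‖Q‖ ≤ B := hqB u hu1.le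
  set D := 1 - a * u + (a ^ 2 - b) * u ^ 2 - u ^ 3 * Q with hD
  have hu0 : u ≠ 0 := by
    rintro rfl
    rw [zero_mul] at e
    exact inv_ne_zero hv0 e.symm
  have hup : 0 < ‖u‖ := norm_pos_iff.2 hu0
  have hu2 : ‖u‖ ^ 2 ≤ ‖u‖ := by nlinarith
  have hu3 : ‖u‖ ^ 3 ≤ ‖u‖ := by nlinarith [sq_nonneg ‖u‖]
  have hD1 : ‖1 - D‖ ≤ 1 / 2 := by
    have : 1 - D = a * u - (a ^ 2 - b) * u ^ 2 + u ^ 3 * Q := by rw [hD]; ring
    rw [this]
    calc ‖a * u - (a ^ 2 - b) * u ^ 2 + u ^ 3 * Q‖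
        ≤ ‖a * u - (a ^ 2 - b) * u ^ 2‖ + ‖u ^ 3 * Q‖ := norm_add_le _ _
      _ ≤ ‖a * u‖ + ‖(a ^ 2 - b) * u ^ 2‖ + ‖u ^ 3 * Q‖ := by gcongr; exact norm_sub_le _ _
      _ = ‖a‖ * ‖u‖ + ‖a ^ 2 - b‖ * ‖u‖ ^ 2 + ‖u‖ ^ 3 * ‖Q‖ := by simp only [norm_mul, norm_pow]
      _ ≤ ‖a‖ * ‖u‖ + ‖a ^ 2 - b‖ * ‖u‖ + ‖u‖ * B := by gcongr
      _ = M * ‖u‖ := by rw [hM]; ring
      _ ≤ 1 / 2 := huM'
  have hDlo : 1 / 2 ≤ ‖D‖ := by
    have : ‖(1 : ℂ)‖ ≤ ‖1 - D‖ + ‖D‖ := by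
      calc ‖(1 : ℂ)‖ = ‖(1 - D) + D‖ := by congr 1; ring
        _ ≤ _ := norm_add_le _ _
    rw [norm_one] at this
    linarith
  have hDhi : ‖D‖ ≤ 2 := by
    have : ‖D‖ ≤ ‖(1 : ℂ)‖ + ‖1 - D‖ := by
      calc ‖D‖ = ‖1 - (1 - D)‖ := by congr 1; ring
        _ ≤ _ := norm_sub_le _ _
    rw [norm_one] at this
    linarith
  have hD0 : D ≠ 0 := by rw [← norm_pos_iff]; linarith
  have hvD : v = (u * D)⁻¹ := by rw [e, inv_inv]
  refine ⟨u⁻¹, ?_, ?_, ?_, ?_⟩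
  · rw [norm_inv]; exact (one_le_inv₀ hup).2 hu1.le
  · rw [inv_inv, ← e, ← hq u]; ring
  · rw [hvD, norm_inv, norm_inv, norm_mul, mul_inv]
    have : ‖D‖⁻¹ ≤ 2 := by
      rw [inv_le_comm₀ (by linarith) (by norm_num)]; linarith
    have h3 : 0 < ‖u‖⁻¹ := by positivity
    nlinarith
  · have key : v - (u⁻¹ + a + b / u⁻¹) = u ^ 2 * (a * b - a * (a ^ 2 - b) - (a ^ 2 - b) * b * u +
        Q * (1 + a * u + b * u ^ 2)) / D := by
      rw [hvD]
      field_simp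
      rw [hD]
      ring
    rw [key, norm_div, norm_mul, norm_pow, norm_inv]
    have hN : ‖a * b - a * (a ^ 2 - b) - (a ^ 2 - b) * b * u + Q * (1 + a * u + b * u ^ 2)‖ ≤
        ‖a‖ * ‖b‖ + ‖a‖ * ‖a ^ 2 - b‖ + ‖a ^ 2 - b‖ * ‖b‖ + B * (1 + ‖a‖ + ‖b‖) := by
      calc _ ≤ ‖a * b - a * (a ^ 2 - b) - (a ^ 2 - b) * b * u‖ + ‖Q * (1 + a * u + b * u ^ 2)‖ := norm_add_le _ _
        _ ≤ ‖a * b - a * (a ^ 2 - b)‖ + ‖(a ^ 2 - b) * b * u‖ + ‖Q * (1 + a * u + b * u ^ 2)‖ := by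
            gcongr; exact norm_sub_le _ _
        _ ≤ ‖a * b‖ + ‖a * (a ^ 2 - b)‖ + ‖(a ^ 2 - b) * b * u‖ + ‖Q‖ * (‖(1 : ℂ)‖ + ‖a * u‖ + ‖b * u ^ 2‖) := by
            rw [norm_mul Q]
            gcongr
            · exact norm_sub_le _ _
            · exact norm_add₃_le
        _ = ‖a‖ * ‖b‖ + ‖a‖ * ‖a ^ 2 - b‖ + ‖a ^ 2 - b‖ * ‖b‖ * ‖u‖ + ‖Q‖ * (1 + ‖a‖ * ‖u‖ + ‖b‖ * ‖u‖ ^ 2) := by
            simp only [norm_mul, norm_pow, norm_one]
        _ ≤ ‖a‖ * ‖b‖ + ‖a‖ * ‖a ^ 2 - b‖ + ‖a ^ 2 - b‖ * ‖b‖ * 1 + B * (1 + ‖a‖ * 1 + ‖b‖ * 1) := by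
            gcongr
            exact hu2.trans hu1.le
        _ = _ := by ring
    rw [div_le_iff₀ (by linarith)]
    have e5 : C₁ / ‖u‖⁻¹ ^ 2 = C₁ * ‖u‖ ^ 2 := by field_simp
    rw [e5]
    have h6 : C₁ * ‖u‖ ^ 2 * (1 / 2) ≤ C₁ * ‖u‖ ^ 2 * ‖D‖ := by gcongr
    refine le_trans ?_ h6
    have h7 : ‖u‖ ^ 2 * ‖a * b - a * (a ^ 2 - b) - (a ^ 2 - b) * b * u + Q * (1 + a * u + b * u ^ 2)‖ ≤
      ‖u‖ ^ 2 * (‖a‖ * ‖b‖ + ‖a‖ * ‖a ^ 2 - b‖ + ‖a ^ 2 - b‖ * ‖b‖ + B * (1 + ‖a‖ + ‖b‖)) := by gcongr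
    refine h7.trans ?_
    rw [hC]
    nlinarith [sq_nonneg ‖u‖]

lemma log_neg {v v' x : ℂ} (hv' : v'.re < 0) (e : v = v' * (1 + x)) (hx : ‖x‖ ≤ 1 / 2) :
    Complex.log (-v) = Complex.log (-v') + Complex.log (1 + x) := by
  have h1 : |Complex.arg (-v')| < Real.pi / 2 := by
    rw [Complex.abs_arg_lt_pi_div_two_iff]
    left; simpa using hv'
  have hxr : -(1 / 2) ≤ x.re := by
    have := Complex.abs_re_le_norm x
    have := (abs_le.1 this).1
    linarith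
  have h2 : |Complex.arg (1 + x)| < Real.pi / 2 := by
    rw [Complex.abs_arg_lt_pi_div_two_iff]
    left; simp; linarith
  have n1 : -v' ≠ 0 := by
    intro h
    rw [neg_eq_zero] at h
    rw [h] at hv'
    simp at hv'
  have n2 : 1 + x ≠ 0 := by
    intro h
    have := congrArg Complex.re h
    simp at this
    linarith
  have e' : -v = (-v') * (1 + x) := by rw [e]; ring
  rw [e', Complex.log_mul n1 n2]
  rw [abs_lt] at h1 h2
  constructor <;> linarith [h1.1, h1.2, h2.1, h2.2, Real.pi_pos]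

/-- one backward step in the left half plane, with the approximate Fatou coordinate -/
lemma step2 (g : ℂ[X]) (h1 : g.eval 1 = 1) (h2 : g.derivative.eval 1 = 1) (a : ℝ) (ha : 0 < a)
    (hal : al g = (a : ℂ)) :
    ∃ R₂ C₂ : ℝ, 1 < R₂ ∧ 0 < C₂ ∧ ∀ v : ℂ, v.re < -R₂ → ∃ v' : ℂ, v'.re < -R₂ ∧
      g.eval (1 - v'⁻¹) = 1 - v⁻¹ ∧ ‖v' - (v - a)‖ ≤ a / 8 ∧
      ‖(v / al g - ka g * Complex.log (-v)) - (v' / al g - ka g * Complex.log (-v')) - 1‖ ≤ C₂ / ‖v'‖ ^ 2 := by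
  obtain ⟨R₁, C₁, hR₁, hC₁, hs⟩ := step g h1 h2
  set b := ga g with hb
  set M := a + ‖b‖ + C₁ with hM
  have hM0 : 0 < M := by positivity
  set R₂ := max R₁ (max (4 * M) (16 * (‖b‖ + C₁) / a + 2)) with hR2
  set k := ‖ka g‖ with hk
  set C₂ := C₁ / a + k * (M ^ 2 + ‖b‖ + C₁) + 1 with hC2
  have hR2a : R₁ ≤ R₂ := le_max_left _ _
  refine ⟨R₂, C₂, hR₁.trans_le (le_max_left _ _), by positivity, fun v hv => ?_⟩
  have hvn : R₂ < ‖v‖ := by
    have := Complex.abs_re_le_norm v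
    rw [abs_of_neg (by linarith)] at this
    linarith
  have hR2b : 4 * M ≤ R₂ := (le_max_left _ _).trans (le_max_right _ _)
  have hR2c : 16 * (‖b‖ + C₁) / a + 2 ≤ R₂ := (le_max_right _ _).trans (le_max_right _ _)
  obtain ⟨v', hv1, e, hvv, hest⟩ := hs v (by linarith)
  rw [hal] at hest
  have hpos : 0 < ‖v'‖ := by linarith
  have hv0 : v' ≠ 0 := norm_pos_iff.1 hpos
  have hv'2 : R₂ / 2 < ‖v'‖ := by linarith
  have hbig : 8 * (‖b‖ + C₁) / a ≤ ‖v'‖ := by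
    have : 8 * (‖b‖ + C₁) / a = (16 * (‖b‖ + C₁) / a) / 2 := by ring
    rw [this]; linarith
  -- the remainder
  set r := v - (v' + a + b / v') with hr
  have hinv2 : C₁ / ‖v'‖ ^ 2 ≤ C₁ / ‖v'‖ := by
    apply div_le_div_of_nonneg_left hC₁.le hpos
    nlinarith
  have hd : ‖v' - (v - a)‖ ≤ (‖b‖ + C₁) / ‖v'‖ := by
    have : v' - (v - a) = -(b / v' + r) := by rw [hr]; ring
    rw [this, norm_neg]
    calc ‖b / v' + r‖ ≤ ‖b / v'‖ + ‖r‖ := norm_add_le _ _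
      _ ≤ ‖b‖ / ‖v'‖ + C₁ / ‖v'‖ := by
          rw [norm_div]; linarith
      _ = _ := by ring
  have hd8 : ‖v' - (v - a)‖ ≤ a / 8 := by
    refine hd.trans ?_
    rw [div_le_iff₀ hpos]
    rw [div_le_iff₀ ha] at hbig
    linarith
  have hre : v'.re < -R₂ := by
    have h3 := (Complex.abs_re_le_norm (v' - (v - a))).trans hd8
    simp only [Complex.sub_re, Complex.ofReal_re] at h3
    have := (abs_le.1 h3).2
    linarith
  refine ⟨v', hre, e, hd8, ?_⟩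
  set x := (a + b / v' + r) / v' with hx
  have ex : v = v' * (1 + x) := by
    rw [hx, hr]; field_simp; ring
  have hbv : ‖b / v'‖ ≤ ‖b‖ := by
    rw [norm_div]; exact div_le_self (norm_nonneg _) hv1
  have hrC : ‖r‖ ≤ C₁ := hest.trans (div_le_self hC₁.le (one_le_pow₀ hv1))
  have hxn : ‖x‖ ≤ M / ‖v'‖ := by
    rw [hx, norm_div]
    gcongr
    refine norm_add₃_le.trans ?_
    rw [Complex.norm_real, Real.norm_of_nonneg ha.le, hM]
    linarith
  have hx2 : ‖x‖ ≤ 1 / 2 := by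
    refine hxn.trans ?_
    rw [div_le_iff₀ hpos]
    linarith
  have hlog := log_neg (by linarith) ex hx2
  have hl2 : ‖Complex.log (1 + x) - x‖ ≤ (M / ‖v'‖) ^ 2 := by
    refine (Complex.norm_log_one_add_sub_self_le (by linarith)).trans ?_
    have : (1 - ‖x‖)⁻¹ ≤ 2 := by
      rw [inv_le_comm₀ (by linarith) (by norm_num)]; linarith
    have h5 : ‖x‖ ^ 2 ≤ (M / ‖v'‖) ^ 2 := by gcongr
    calc ‖x‖ ^ 2 * (1 - ‖x‖)⁻¹ / 2 ≤ ‖x‖ ^ 2 * 2 / 2 := by gcongr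
      _ = ‖x‖ ^ 2 := by ring
      _ ≤ _ := h5
  rw [hlog]
  have hka : ka g * a = b / a := by
    rw [ka, hal, ← hb]
    have : (a : ℂ) ≠ 0 := by exact_mod_cast ha.ne'
    field_simp
  have hac : (a : ℂ) ≠ 0 := by exact_mod_cast ha.ne'
  have key : (v / al g - ka g * (Complex.log (-v') + Complex.log (1 + x))) -
      (v' / al g - ka g * Complex.log (-v')) - 1 =
      r / a - ka g * ((Complex.log (1 + x) - x) + (b / v' + r) / v') := by
    have e1 : v / al g = v' / al g + 1 + (ka g * a) / v' + r / a := by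
      rw [hka, hal, hr]
      field_simp
      ring
    rw [e1, hx]
    ring
  rw [key]
  have hfin : ‖(b / v' + r) / v'‖ ≤ (‖b‖ + C₁) / ‖v'‖ ^ 2 := by
    rw [norm_div]
    have : ‖b / v' + r‖ ≤ (‖b‖ + C₁) / ‖v'‖ := by
      calc ‖b / v' + r‖ ≤ ‖b / v'‖ + ‖r‖ := norm_add_le _ _
        _ ≤ ‖b‖ / ‖v'‖ + C₁ / ‖v'‖ := by
            rw [norm_div]; linarith
        _ = _ := by ring
    calc ‖b / v' + r‖ / ‖v'‖ ≤ ((‖b‖ + C₁) / ‖v'‖) / ‖v'‖ := by gcongr
      _ = _ := by rw [div_div, sq]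
  calc ‖r / a - ka g * ((Complex.log (1 + x) - x) + (b / v' + r) / v')‖
      ≤ ‖r / a‖ + ‖ka g * ((Complex.log (1 + x) - x) + (b / v' + r) / v')‖ := norm_sub_le _ _
    _ ≤ ‖r‖ / a + k * (‖Complex.log (1 + x) - x‖ + ‖(b / v' + r) / v'‖) := by
        rw [norm_div, norm_mul, Complex.norm_real, Real.norm_of_nonneg ha.le]
        gcongr
        exact norm_add_le _ _
    _ ≤ (C₁ / ‖v'‖ ^ 2) / a + k * ((M / ‖v'‖) ^ 2 + (‖b‖ + C₁) / ‖v'‖ ^ 2) := by gcongr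
    _ = (C₁ / a + k * (M ^ 2 + ‖b‖ + C₁)) / ‖v'‖ ^ 2 := by
        field_simp
        ring
    _ ≤ C₂ / ‖v'‖ ^ 2 := by
        gcongr
        rw [hC2]; linarith

/-- sums of inverse squares -/
lemma sum_sq (x a : ℝ) (hx : 1 ≤ x) (ha : 0 < a) (m : ℕ) :
    ∑ i ∈ Finset.range m, 1 / (x + (i + 1) * a) ^ 2 ≤ 1 / (a * x) := by
  have h : ∀ m : ℕ, ∑ i ∈ Finset.range m, 1 / (x + (i + 1) * a) ^ 2 ≤ 1 / a * (1 / x - 1 / (x + m * a)) := by
    intro m
    induction m with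
    | zero => simp
    | succ m ih =>
      rw [Finset.sum_range_succ]
      refine (add_le_add_left ih _).trans ?_
      push_cast
      have p1 : 0 < x + m * a := by positivity
      have p2 : 0 < x + (m + 1) * a := by positivity
      have e : 1 / a * (1 / x - 1 / (x + (m + 1) * a)) - 1 / a * (1 / x - 1 / (x + m * a)) =
          1 / ((x + m * a) * (x + (m + 1) * a)) := by
        field_simp
        ring
      have h3 : 1 / (x + (m + 1) * a) ^ 2 ≤ 1 / ((x + m * a) * (x + (m + 1) * a)) := by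
        apply one_div_le_one_div_of_le (by positivity)
        rw [sq]
        gcongr
        linarith
      linarith
  refine (h m).trans ?_
  have p1 : 0 < x + m * a := by positivity
  have : 1 / a * (1 / x - 1 / (x + m * a)) ≤ 1 / a * (1 / x) := by
    gcongr
    have : 0 < 1 / (x + m * a) := by positivity
    linarith
  refine this.trans (le_of_eq ?_)
  field_simp

end REPaux

open REPaux in
theorem t_REP : S_REP := by
  intro n g c₀ c Φ ψ R C hg hfc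
  obtain ⟨a, ha, hal⟩ := al_eq hg
  obtain ⟨R₂, C₂, hR₂, hC₂, hs⟩ := step2 g hg.fix hg.der a ha hal
  refine ⟨R₂, 16 * C₂ / a, by linarith, by positivity, fun v hv => ?_⟩
  -- the backward orbit
  choose! f hf1 hf2 hf3 hf4 using hs
  set V : ℕ → ℂ := fun m => f^[m] v with hV
  have hVs : ∀ m, V (m + 1) = f (V m) := fun m => Function.iterate_succ_apply' f m v
  have hVre : ∀ m, (V m).re < -R₂ := by
    intro m
    induction m with
    | zero => exact hv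
    | succ m ih => rw [hVs]; exact hf1 _ ih
  have hV0 : V 0 = v := rfl
  have hclose : ∀ m : ℕ, ‖V m - (v - m * a)‖ ≤ m * (a / 8) := by
    intro m
    induction m with
    | zero => simp [hV0]
    | succ m ih =>
      have e : V (m + 1) - (v - ((m + 1 : ℕ) : ℂ) * a) = (f (V m) - (V m - a)) + (V m - (v - m * a)) := by
        rw [hVs]; push_cast; ring
      rw [e]
      refine (norm_add_le _ _).trans ?_
      have := hf3 _ (hVre m)
      push_cast
      linarith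
  have hvn : 1 < ‖v‖ := by
    have := Complex.abs_re_le_norm v
    rw [abs_of_neg (by linarith)] at this
    linarith
  have hlow : ∀ m : ℕ, (‖v‖ + m * a) / 4 ≤ ‖V m‖ := by
    intro m
    have h1 : (‖v‖ + m * a) / 2 ≤ ‖v - m * a‖ := by
      have hm0 : (0 : ℝ) ≤ m * a := by positivity
      have e1 : ‖v - m * a‖ ^ 2 = ‖v‖ ^ 2 + (m * a) ^ 2 - 2 * (m * a) * v.re := by
        have : (m : ℂ) * a = ((m * a : ℝ) : ℂ) := by push_cast; ring
        rw [this, ← Complex.normSq_eq_norm_sq, ← Complex.normSq_eq_norm_sq, Complex.normSq_apply,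
          Complex.normSq_apply]
        simp only [Complex.sub_re, Complex.sub_im, Complex.ofReal_re, Complex.ofReal_im]
        ring
      have e2 : ((‖v‖ + m * a) / 2) ^ 2 ≤ ‖v - m * a‖ ^ 2 := by
        rw [e1]
        nlinarith [sq_nonneg (‖v‖ - m * a), mul_nonneg hm0 (show (0 : ℝ) ≤ -v.re by linarith),
          sq_nonneg (‖v‖), sq_nonneg (m * a : ℝ)]
      exact le_of_sq_le_sq e2 (norm_nonneg _)
    have h2 : ‖v - m * a‖ ≤ ‖V m‖ + ‖V m - (v - m * a)‖ := by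
      calc ‖v - m * a‖ = ‖V m - (V m - (v - m * a))‖ := by congr 1; ring
        _ ≤ _ := norm_sub_le _ _
    have h3 := hclose m
    have hm0 : (0 : ℝ) ≤ m * a := by positivity
    linarith [norm_nonneg v]
  have hVn0 : ∀ m, V m ≠ 0 := by
    intro m h
    have := hVre m
    rw [h] at this
    simp at this
    linarith
  -- the approximate coordinate
  set U : ℂ → ℂ := fun x => x / al g - ka g * Complex.log (-x) with hU
  have hstepU : ∀ m : ℕ, ‖U (V m) - U (V (m + 1)) - 1‖ ≤ 16 * C₂ * (1 / (‖v‖ + (m + 1) * a) ^ 2) := by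
    intro m
    have h1 := hf4 _ (hVre m)
    rw [← hVs] at h1
    refine h1.trans ?_
    have h2 := hlow (m + 1)
    push_cast at h2
    have h3 : 0 < (‖v‖ + (m + 1) * a) / 4 := by positivity
    calc C₂ / ‖V (m + 1)‖ ^ 2 ≤ C₂ / ((‖v‖ + (m + 1) * a) / 4) ^ 2 := by gcongr
      _ = _ := by field_simp; ring
  have hsumU : ∀ m : ℕ, ‖U v - U (V m) - m‖ ≤ 16 * C₂ * ∑ i ∈ Finset.range m, 1 / (‖v‖ + (i + 1) * a) ^ 2 := by
    intro m
    induction m with
    | zero => simp [hV0]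
    | succ m ih =>
      rw [Finset.sum_range_succ, mul_add]
      have e : U v - U (V (m + 1)) - ((m + 1 : ℕ) : ℂ) = (U v - U (V m) - m) + (U (V m) - U (V (m + 1)) - 1) := by
        push_cast; ring
      rw [e]
      exact (norm_add_le _ _).trans (add_le_add ih (hstepU m))
  have hbdU : ∀ m : ℕ, ‖U v - U (V m) - m‖ ≤ 16 * C₂ / a / ‖v‖ := by
    intro m
    refine (hsumU m).trans ?_
    calc 16 * C₂ * ∑ i ∈ Finset.range m, 1 / (‖v‖ + (i + 1) * a) ^ 2 ≤ 16 * C₂ * (1 / (a * ‖v‖)) := by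
          gcongr
          exact sum_sq _ _ hvn.le ha m
      _ = _ := by field_simp
  -- the backward orbit tends to `1`
  have hnorm : Tendsto (fun m => ‖V m‖) atTop atTop := by
    refine tendsto_atTop_mono hlow ?_
    apply Tendsto.atTop_div_const (by norm_num)
    apply tendsto_atTop_add_const_left
    exact Tendsto.atTop_mul_const ha tendsto_natCast_atTop_atTop
  have hz : Tendsto (fun m => 1 - (V m)⁻¹) atTop (𝓝 1) := by
    have h1 : Tendsto (fun m => (V m)⁻¹) atTop (𝓝 0) := by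
      rw [tendsto_zero_iff_norm_tendsto_zero]
      simp only [norm_inv]
      exact hnorm.inv_tendsto_atTop
    simpa using h1.const_sub 1
  obtain ⟨w, hw⟩ := hfc.back (fun m => 1 - (V m)⁻¹) (fun m => by
      show g.eval (1 - (V (m + 1))⁻¹) = 1 - (V m)⁻¹
      rw [hVs]
      exact hf2 _ (hVre m)) hz ⟨0, by simpa using hVn0 0⟩
  refine ⟨w, ?_, ?_⟩
  · have := hw 0
    simp only [hV0, Nat.cast_zero, sub_zero] at this
    exact this.symm
  · -- comparison at `w - m`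
    have hwn : Tendsto (fun m : ℕ => ‖w - m‖) atTop atTop := by
      have h1 : Tendsto (fun m : ℕ => (m : ℝ) - ‖w‖) atTop atTop :=
        tendsto_atTop_add_const_right _ _ tendsto_natCast_atTop_atTop
      refine tendsto_atTop_mono (fun m => ?_) h1
      have : ‖(m : ℂ)‖ ≤ ‖w‖ + ‖w - m‖ := by
        calc ‖(m : ℂ)‖ = ‖w - (w - m)‖ := by congr 1; ring
          _ ≤ _ := norm_sub_le _ _
      rw [Complex.norm_natCast] at this
      linarith
    have hlim : Tendsto (fun m : ℕ => 16 * C₂ / a / ‖v‖ + C / ‖w - m‖) atTop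
        (𝓝 (16 * C₂ / a / ‖v‖ + 0)) :=
      tendsto_const_nhds.add (Tendsto.div_atTop tendsto_const_nhds hwn)
    rw [add_zero] at hlim
    refine ge_of_tendsto hlim ?_
    have hev : ∀ᶠ m : ℕ in atTop, R < -(w - m).re + |(w - m).im| := by
      have h1 : Tendsto (fun m : ℕ => (m : ℝ) - w.re) atTop atTop :=
        tendsto_atTop_add_const_right _ _ tendsto_natCast_atTop_atTop
      filter_upwards [h1.eventually_gt_atTop R] with m hm
      simp only [Complex.sub_re, Complex.natCast_re]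
      have := abs_nonneg (w - m).im
      linarith
    filter_upwards [hev] with m hm
    obtain ⟨-, -, -, h4⟩ := hfc.asyψ (w - m) hm
    rw [← hw m] at h4
    have e1 : (1 - (1 - (V m)⁻¹))⁻¹ = V m := by rw [sub_sub_cancel, inv_inv]
    rw [e1] at h4
    have e2 : v / al g - ka g * Complex.log (-v) + Complex.I * Real.pi * ka g - w =
        (U v - U (V m) - m) + (V m / al g - ka g * Complex.log (-V m) + Complex.I * Real.pi * ka g - (w - m)) := by
      simp only [hU]; ring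
    rw [e2]
    exact (norm_add_le _ _).trans (add_le_add (hbdU m) h4)

end Pool.Agent.H212.ND
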