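import Pool.Agent.H212.ND.StmN

/-! # Project ND: one step of the perturbed map (`S_STP`) -/

set_option autoImplicit false

open Filter Metric Set Topology Polynomial
open scoped ComplexConjugate

namespace Pool.Agent.H212.ND

open Pool.Agent.H212.MB

namespace STPaux

theorem exp_low (w : ℂ) (d : ℝ) (h : ∀ j : ℤ, d ≤ ‖w - j * (2 * Real.pi * Complex.I)‖) :
    min (1 / 2) (2 / 3 * d) ≤ ‖Complex.exp w - 1‖ := by
  by_contra hc
  push Not at hc
  have h1 : ‖Complex.exp w - 1‖ < 1 / 2 := lt_of_lt_of_le hc (min_le_left _ _)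
  have h2 : ‖Complex.exp w - 1‖ < 2 / 3 * d := lt_of_lt_of_le hc (min_le_right _ _)
  have h3 := Complex.norm_log_one_add_half_le_self h1.le
  rw [show (1 : ℂ) + (Complex.exp w - 1) = Complex.exp w by ring] at h3
  have h4 : Complex.exp (Complex.log (Complex.exp w)) = Complex.exp w :=
    Complex.exp_log (Complex.exp_ne_zero w)
  obtain ⟨j, hj⟩ := Complex.exp_eq_exp_iff_exists_int.1 h4.symm
  have h5 := h j
  have h6 : w - j * (2 * Real.pi * Complex.I) = Complex.log (Complex.exp w) :=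
    sub_eq_of_eq_add hj
  rw [h6] at h5
  linarith

theorem split4 (p : ℂ[X]) : ∃ r : ℂ[X], ∀ u : ℂ, p.eval u =
    p.coeff 0 + p.coeff 1 * u + p.coeff 2 * u ^ 2 + p.coeff 3 * u ^ 3 + u ^ 4 * r.eval u := by
  have key : ∀ (q : ℂ[X]) (u : ℂ), q.eval u = q.divX.eval u * u + q.coeff 0 := by
    intro q u
    conv_lhs => rw [← q.divX_mul_X_add]
    simp only [eval_add, eval_mul, eval_X, eval_C]
  refine ⟨p.divX.divX.divX.divX, fun u => ?_⟩
  rw [key p u, key p.divX u, key p.divX.divX u, key p.divX.divX.divX u]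
  simp only [coeff_divX]
  ring

theorem taylor4 (g : ℂ[X]) (h0 : g.eval 1 = 1) (h1 : g.derivative.eval 1 = 1) :
    ∃ r : ℂ[X], ∀ u : ℂ, 1 - g.eval (1 - u) =
      u * (1 - al g * u + (g.derivative.derivative.derivative.eval 1 / 6) * u ^ 2 -
        u ^ 3 * r.eval (-u)) := by
  obtain ⟨r, hr⟩ := split4 (taylor 1 g)
  refine ⟨r, fun u => ?_⟩
  have h2 := hr (-u)
  rw [taylor_eval] at h2
  have c0 : (taylor 1 g).coeff 0 = 1 := by rw [taylor_coeff_zero, h0]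
  have c1 : (taylor 1 g).coeff 1 = 1 := by rw [taylor_coeff_one, h1]
  have c2 : (taylor 1 g).coeff 2 = al g := by
    rw [taylor_coeff]
    have h := congrFun (factorial_smul_hasseDeriv (R := ℂ) 2) g
    have h' := congrArg (fun q : ℂ[X] => q.eval 1) h
    simp only [Function.iterate_succ, Function.iterate_zero, Function.comp_apply, id_eq,
      nsmul_eq_mul] at h'
    unfold al
    rw [← h']
    norm_num [Nat.factorial]
  have c3 : (taylor 1 g).coeff 3 = g.derivative.derivative.derivative.eval 1 / 6 := by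
    rw [taylor_coeff]
    have h := congrFun (factorial_smul_hasseDeriv (R := ℂ) 3) g
    have h' := congrArg (fun q : ℂ[X] => q.eval 1) h
    simp only [Function.iterate_succ, Function.iterate_zero, Function.comp_apply, id_eq,
      nsmul_eq_mul] at h'
    rw [← h']
    norm_num [Nat.factorial]
  rw [c0, c1, c2, c3] at h2
  rw [show (1 : ℂ) - u = -u + 1 by ring, h2]
  ring

theorem expans (g : ℂ[X]) (h0 : g.eval 1 = 1) (h1 : g.derivative.eval 1 = 1) :
    ∃ Rg Cg : ℝ, 1 ≤ Rg ∧ 0 < Cg ∧ ∀ v : ℂ, Rg ≤ ‖v‖ → 1 - g.eval (1 - v⁻¹) ≠ 0 ∧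
      ‖(1 - g.eval (1 - v⁻¹))⁻¹ - (v + al g + ga g / v)‖ ≤ Cg / ‖v‖ ^ 2 := by
  obtain ⟨r, hr⟩ := taylor4 g h0 h1
  obtain ⟨M, hM⟩ := (isCompact_closedBall (0 : ℂ) 1).exists_bound_of_continuousOn
    (f := fun u : ℂ => r.eval (-u)) (by fun_prop)
  set a₃ : ℂ := g.derivative.derivative.derivative.eval 1 / 6 with ha₃
  have hM0 : 0 ≤ M := (norm_nonneg _).trans (hM 0 (by simp))
  set E₀ : ℝ := ‖al g‖ * ‖ga g‖ + ‖a₃‖ * ‖al g‖ + M + (‖a₃‖ * ‖ga g‖ + M * ‖al g‖) +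
    M * ‖ga g‖ with hE₀
  have hE₀' : 0 ≤ E₀ := by positivity
  refine ⟨2 * (‖al g‖ + ‖a₃‖ + M) + 1, 2 * E₀ + 1, ?_, by positivity, ?_⟩
  · have : 0 ≤ ‖al g‖ + ‖a₃‖ + M := by positivity
    linarith
  intro v hv
  have hv1 : 1 ≤ ‖v‖ := by
    have : 0 ≤ ‖al g‖ + ‖a₃‖ + M := by positivity
    linarith
  have hv0 : v ≠ 0 := by
    intro h
    rw [h, norm_zero] at hv1
    linarith
  set u : ℂ := v⁻¹ with hu
  have hun : ‖u‖ = ‖v‖⁻¹ := by rw [hu, norm_inv]
  have hu1 : ‖u‖ ≤ 1 := by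
    rw [hun]
    exact inv_le_one_of_one_le₀ hv1
  have hu0 : u ≠ 0 := inv_ne_zero hv0
  have hvu : v = u⁻¹ := by rw [hu, inv_inv]
  have hR : ‖r.eval (-u)‖ ≤ M := hM u (by simpa using hu1)
  set p : ℂ := r.eval (-u) with hp
  have hs : ‖al g * u - a₃ * u ^ 2 + u ^ 3 * p‖ ≤ 1 / 2 := by
    have e1 : ‖al g * u - a₃ * u ^ 2 + u ^ 3 * p‖ ≤ ‖al g‖ * ‖u‖ + ‖a₃‖ * ‖u‖ ^ 2 + ‖u‖ ^ 3 * M := by
      refine (norm_add_le _ _).trans (add_le_add ((norm_sub_le _ _).trans ?_) ?_)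
      · rw [norm_mul, norm_mul, norm_pow]
      · rw [norm_mul, norm_pow]
        gcongr
    have e2 : ‖u‖ ^ 2 ≤ ‖u‖ := by
      rw [pow_two]
      exact mul_le_of_le_one_left (norm_nonneg _) hu1
    have e3 : ‖u‖ ^ 3 ≤ ‖u‖ := by
      rw [pow_succ]
      refine (mul_le_of_le_one_left (norm_nonneg _) ?_)
      exact pow_le_one₀ (norm_nonneg _) hu1
    have e4 : ‖al g‖ * ‖u‖ + ‖a₃‖ * ‖u‖ ^ 2 + ‖u‖ ^ 3 * M ≤ (‖al g‖ + ‖a₃‖ + M) * ‖u‖ := by
      have f1 := mul_le_mul_of_nonneg_left e2 (norm_nonneg a₃)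
      have f2 := mul_le_mul_of_nonneg_right e3 hM0
      nlinarith
    refine e1.trans (e4.trans ?_)
    rw [hun, ← div_eq_mul_inv, div_le_iff₀ (by linarith)]
    linarith
  set D : ℂ := 1 - al g * u + a₃ * u ^ 2 - u ^ 3 * p with hD
  have hDn : 1 / 2 ≤ ‖D‖ := by
    have e1 : D = 1 - (al g * u - a₃ * u ^ 2 + u ^ 3 * p) := by rw [hD]; ring
    have e2 := norm_sub_norm_le (1 : ℂ) (al g * u - a₃ * u ^ 2 + u ^ 3 * p)
    rw [← e1, norm_one] at e2
    linarith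
  have hD0 : D ≠ 0 := by
    intro h
    rw [h, norm_zero] at hDn
    linarith
  have hgu : 1 - g.eval (1 - u) = u * D := hr u
  rw [hgu]
  refine ⟨mul_ne_zero hu0 hD0, ?_⟩
  have key : (u * D)⁻¹ - (v + al g + ga g / v) = -(u ^ 2 * (-(al g * ga g) + a₃ * al g - p +
      u * (a₃ * ga g - p * al g) - u ^ 2 * (p * ga g)) / D) := by
    have hga : ga g = al g ^ 2 - a₃ := rfl
    rw [hvu, hga]
    field_simp
    rw [hD]
    ring
  rw [key, norm_neg, norm_div, norm_mul, norm_pow, hun]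
  have hE : ‖-(al g * ga g) + a₃ * al g - p + u * (a₃ * ga g - p * al g) - u ^ 2 * (p * ga g)‖ ≤
      E₀ := by
    have t1 : ‖-(al g * ga g) + a₃ * al g - p‖ ≤ ‖al g‖ * ‖ga g‖ + ‖a₃‖ * ‖al g‖ + M := by
      refine (norm_sub_le _ _).trans (add_le_add ((norm_add_le _ _).trans ?_) hR)
      rw [norm_neg, norm_mul, norm_mul]
    have t2 : ‖u * (a₃ * ga g - p * al g)‖ ≤ ‖a₃‖ * ‖ga g‖ + M * ‖al g‖ := by
      rw [norm_mul]
      refine (mul_le_of_le_one_left (norm_nonneg _) hu1).trans ((norm_sub_le _ _).trans ?_)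
      rw [norm_mul, norm_mul]
      gcongr
    have t3 : ‖u ^ 2 * (p * ga g)‖ ≤ M * ‖ga g‖ := by
      rw [norm_mul, norm_pow]
      refine (mul_le_of_le_one_left (norm_nonneg _) (pow_le_one₀ (norm_nonneg _) hu1)).trans ?_
      rw [norm_mul]
      gcongr
    exact (norm_sub_le _ _).trans (add_le_add ((norm_add_le _ _).trans (add_le_add t1 t2)) t3)
  rw [inv_pow, inv_mul_eq_div, div_div, div_le_div_iff₀ (by positivity) (by positivity)]
  have hv2 : 0 < ‖v‖ ^ 2 := by positivity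
  calc ‖-(al g * ga g) + a₃ * al g - p + u * (a₃ * ga g - p * al g) - u ^ 2 * (p * ga g)‖ *
        ‖v‖ ^ 2 ≤ E₀ * ‖v‖ ^ 2 := mul_le_mul_of_nonneg_right hE hv2.le
    _ ≤ (2 * E₀ + 1) * (‖v‖ ^ 2 * ‖D‖) := by
        have e1 : E₀ ≤ (2 * E₀ + 1) * ‖D‖ := by nlinarith
        calc E₀ * ‖v‖ ^ 2 ≤ ((2 * E₀ + 1) * ‖D‖) * ‖v‖ ^ 2 := mul_le_mul_of_nonneg_right e1 hv2.le
          _ = _ := by ring

/-- `VV` as a function of `ℓ = 2 π i / P` -/
noncomputable def vv (g : ℂ[X]) (l Z : ℂ) : ℂ :=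
  al g / (Complex.exp l - 1) * (1 - Complex.exp (-l * Z))

/-- `KP` as a function of `ℓ` -/
noncomputable def kk (g : ℂ[X]) (l : ℂ) : ℂ :=
  ga g * (Complex.exp l - 1) ^ 2 / (al g ^ 2 * l ^ 2)

/-- `WW` as a function of `ℓ` -/
noncomputable def ww (g : ℂ[X]) (l Z : ℂ) : ℂ :=
  Z - kk g l * (Complex.log (1 - Complex.exp (l * Z)) + Complex.exp (l * Z))

theorem lam_bounds {l : ℂ} (hl : ‖l‖ ≤ 1 / 2) :
    ‖l‖ / 2 ≤ ‖Complex.exp l - 1‖ ∧ ‖Complex.exp l - 1‖ ≤ 2 * ‖l‖ := by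
  have h1 := Complex.norm_exp_sub_one_sub_id_le (x := l) (by linarith)
  have h2 : ‖l‖ ^ 2 ≤ ‖l‖ / 2 := by
    have := norm_nonneg l
    nlinarith
  have e1 : Complex.exp l - 1 = (Complex.exp l - 1 - l) + l := by ring
  constructor
  · have h3 := norm_sub_norm_le l (-(Complex.exp l - 1 - l))
    rw [sub_neg_eq_add, norm_neg, add_comm l, ← e1] at h3
    linarith
  · rw [e1]
    refine (norm_add_le _ _).trans ?_
    have := norm_nonneg l
    linarith

/-- the increment of the logarithm along the segment -/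
theorem log_incr {l Z Z' : ℂ} {q : ℝ} (hω : ‖Complex.exp (l * Z)‖ ≤ 30)
    (hq : q = ‖Complex.exp (l * Z) - 1‖) (hq0 : 0 < q) (hlq : 150 * ‖l‖ ≤ q)
    (hl : ‖l‖ ≤ 1 / 75) (hδ : ‖Z' - Z - 1‖ ≤ 1 / 4)
    (hslit : ∀ t : ℝ, 0 ≤ t → t ≤ 1 →
      1 - Complex.exp (l * (Z + t * (Z' - Z))) ∈ Complex.slitPlane) :
    ‖(Complex.log (1 - Complex.exp (l * Z')) + Complex.exp (l * Z')) -
      (Complex.log (1 - Complex.exp (l * Z)) + Complex.exp (l * Z)) -
        l * (Complex.exp (l * Z) ^ 2 / (Complex.exp (l * Z) - 1))‖ ≤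
      ‖l‖ * (‖Z' - Z - 1‖ * (1922 / q) + 75 * ‖l‖ * (1 + 2 / q ^ 2)) := by
  set ω : ℂ := Complex.exp (l * Z) with hωd
  set W : ℝ → ℂ := fun t => Complex.exp (l * (Z + t * (Z' - Z))) with hW
  have hZZ : ‖Z' - Z‖ ≤ 5 / 4 := by
    have : Z' - Z = (Z' - Z - 1) + 1 := by ring
    rw [this]
    refine (norm_add_le _ _).trans ?_
    rw [norm_one]
    linarith
  have hl0 := norm_nonneg l
  have hWd : ∀ t : ℝ, HasDerivAt W (l * (Z' - Z) * W t) t := by
    intro t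
    have h1 : HasDerivAt (fun t : ℝ => l * (Z + t * (Z' - Z))) (l * (1 * (Z' - Z))) t :=
      (((Complex.ofRealCLM.hasDerivAt (x := t)).mul_const (Z' - Z)).const_add Z).const_mul l
    have h2 := h1.cexp
    rw [one_mul, mul_comm] at h2
    exact h2
  have hWω : ∀ t : ℝ, 0 ≤ t → t ≤ 1 → ‖W t - ω‖ ≤ 75 * ‖l‖ := by
    intro t ht0 ht1
    have h1 : W t - ω = ω * (Complex.exp (l * (t * (Z' - Z))) - 1) := by
      have e : l * (Z + t * (Z' - Z)) = l * Z + l * (t * (Z' - Z)) := by ring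
      have e' : W t = ω * Complex.exp (l * (t * (Z' - Z))) := by
        show Complex.exp (l * (Z + t * (Z' - Z))) = _
        rw [e, Complex.exp_add]
      rw [e']
      ring
    have h2 : ‖l * (t * (Z' - Z))‖ ≤ ‖l‖ * (5 / 4) := by
      rw [norm_mul, norm_mul, Complex.norm_real, Real.norm_of_nonneg ht0]
      refine mul_le_mul_of_nonneg_left ?_ hl0
      nlinarith [norm_nonneg (Z' - Z)]
    have h3 := Complex.norm_exp_sub_one_le (x := l * (t * (Z' - Z))) (by nlinarith)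
    rw [h1, norm_mul]
    calc ‖ω‖ * ‖Complex.exp (l * (t * (Z' - Z))) - 1‖ ≤ 30 * (2 * (‖l‖ * (5 / 4))) :=
          mul_le_mul hω (h3.trans (by linarith)) (norm_nonneg _) (by norm_num)
      _ = 75 * ‖l‖ := by ring
  have hWq : ∀ t : ℝ, 0 ≤ t → t ≤ 1 → q / 2 ≤ ‖W t - 1‖ := by
    intro t ht0 ht1
    have h1 := hWω t ht0 ht1
    have h2 : ω - 1 = (W t - 1) - (W t - ω) := by ring
    have h3 : q ≤ ‖W t - 1‖ + ‖W t - ω‖ := by
      rw [hq, h2]
      exact norm_sub_le _ _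
    linarith
  have hWn : ∀ t : ℝ, 0 ≤ t → t ≤ 1 → ‖W t‖ ≤ 31 := by
    intro t ht0 ht1
    have h1 := hWω t ht0 ht1
    have h2 : W t = (W t - ω) + ω := by ring
    rw [h2]
    refine (norm_add_le _ _).trans ?_
    linarith
  have hω1 : ω - 1 ≠ 0 := by
    intro h
    rw [h, norm_zero] at hq
    linarith
  set m : ℂ := ω ^ 2 / (ω - 1) with hm
  set F : ℝ → ℂ := fun t => Complex.log (1 - W t) + W t - t * (l * m) with hF
  have hFd : ∀ t ∈ Set.Icc (0 : ℝ) 1, HasDerivWithinAt F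
      (l * (Z' - Z) * (W t ^ 2 / (W t - 1)) - l * m) (Set.Icc 0 1) t := by
    intro t ht
    have h1 := hWd t
    have h2 : HasDerivAt (fun t => Complex.log (1 - W t)) (-(l * (Z' - Z) * W t) / (1 - W t)) t :=
      (h1.const_sub 1).clog_real (hslit t ht.1 ht.2)
    have h3 : HasDerivAt (fun t : ℝ => (t : ℂ) * (l * m)) (1 * (l * m)) t :=
      (Complex.ofRealCLM.hasDerivAt (x := t)).mul_const (l * m)
    have h4 := (h2.add h1).sub h3
    have hne : W t - 1 ≠ 0 := by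
      intro h
      have := hWq t ht.1 ht.2
      rw [h, norm_zero] at this
      linarith
    have hne' : 1 - W t ≠ 0 := fun h => hne (by linear_combination -h)
    have h5 : -(l * (Z' - Z) * W t) / (1 - W t) + l * (Z' - Z) * W t - 1 * (l * m) =
        l * (Z' - Z) * (W t ^ 2 / (W t - 1)) - l * m := by
      field_simp
      ring
    rw [h5] at h4
    exact h4.hasDerivWithinAt
  have hFb : ∀ t ∈ Set.Ico (0 : ℝ) 1, ‖l * (Z' - Z) * (W t ^ 2 / (W t - 1)) - l * m‖ ≤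
      ‖l‖ * (‖Z' - Z - 1‖ * (1922 / q) + 75 * ‖l‖ * (1 + 2 / q ^ 2)) := by
    intro t ht
    have hne : W t - 1 ≠ 0 := by
      intro h
      have := hWq t ht.1 ht.2.le
      rw [h, norm_zero] at this
      linarith
    have e1 : l * (Z' - Z) * (W t ^ 2 / (W t - 1)) - l * m =
        l * ((Z' - Z - 1) * (W t ^ 2 / (W t - 1)) +
          (W t - ω) * (1 - 1 / ((W t - 1) * (ω - 1)))) := by
      rw [hm]
      field_simp
      ring
    rw [e1, norm_mul]
    refine mul_le_mul_of_nonneg_left ((norm_add_le _ _).trans (add_le_add ?_ ?_)) hl0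
    · rw [norm_mul]
      refine mul_le_mul_of_nonneg_left ?_ (norm_nonneg _)
      rw [norm_div, norm_pow, div_le_div_iff₀ (norm_pos_iff.2 hne) hq0]
      have a1 := hWn t ht.1 ht.2.le
      have a2 := hWq t ht.1 ht.2.le
      have a3 : ‖W t‖ ^ 2 ≤ 961 := by
        have := norm_nonneg (W t)
        nlinarith
      nlinarith
    · rw [norm_mul]
      refine mul_le_mul (hWω t ht.1 ht.2.le) ?_ (norm_nonneg _) (by positivity)
      refine (norm_sub_le _ _).trans ?_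
      rw [norm_one, norm_div, norm_one, norm_mul, ← hq]
      refine add_le_add le_rfl ?_
      rw [div_le_div_iff₀ (mul_pos (norm_pos_iff.2 hne) hq0) (by positivity)]
      have a2 := hWq t ht.1 ht.2.le
      nlinarith
  have h6 := norm_image_sub_le_of_norm_deriv_le_segment_01' hFd hFb
  have h7 : F 1 - F 0 = (Complex.log (1 - Complex.exp (l * Z')) + Complex.exp (l * Z')) -
      (Complex.log (1 - ω) + ω) - l * m := by
    have w1 : W 1 = Complex.exp (l * Z') := by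
      rw [hW]
      simp
    have w0 : W 0 = ω := by
      rw [hW]
      simp [hωd]
    rw [hF]
    simp only [w1, w0]
    push_cast
    ring
  rw [h7] at h6
  exact h6

theorem core (g : ℂ[X]) (h0 : g.eval 1 = 1) (h1 : g.derivative.eval 1 = 1) (ha : al g ≠ 0) :
    ∃ Q L₀ C : ℝ, 0 < Q ∧ 0 < L₀ ∧ 0 < C ∧ ∀ l : ℂ, l ≠ 0 → ‖l‖ ≤ L₀ → ∀ Z : ℂ,
      ‖Complex.exp (l * Z)‖ ≤ 30 → Q * ‖l‖ ≤ ‖Complex.exp (l * Z) - 1‖ →
      ∃ Z' : ℂ, vv g l Z ≠ 0 ∧ vv g l Z' ≠ 0 ∧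
        1 + Complex.exp l * (g.eval (1 - (vv g l Z)⁻¹) - 1) = 1 - (vv g l Z')⁻¹ ∧
        ‖Z' - Z - 1‖ ≤ 1 / 4 ∧ ‖Z' - Z - 1‖ ≤ C * (‖l‖ / ‖Complex.exp (l * Z) - 1‖) ∧
        ((∀ t : ℝ, 0 ≤ t → t ≤ 1 →
            1 - Complex.exp (l * (Z + t * (Z' - Z))) ∈ Complex.slitPlane) →
          ‖ww g l Z' - ww g l Z - 1‖ ≤
            C * (‖l‖ ^ 2 * (1 + 1 / ‖Complex.exp (l * Z) - 1‖ ^ 2))) := by
  obtain ⟨Rg, Cg, hRg, hCg, hexp⟩ := expans g h0 h1
  have ha0 : 0 < ‖al g‖ := norm_pos_iff.2 ha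
  set b : ℝ := 60 / ‖al g‖ with hb
  have hb0 : 0 < b := by positivity
  have hab : ‖al g‖ * b = 60 := by
    rw [hb]
    field_simp
  set B : ℝ := (‖ga g‖ + Cg) * b ^ 2 with hB
  have hB0 : 0 < B := by positivity
  set K : ℝ := 4 * ‖ga g‖ / ‖al g‖ ^ 2 with hK
  have hK0 : 0 ≤ K := by positivity
  refine ⟨b * Rg + 150 + 6 * B, 1 / 75,
    3 / 2 * B + (B ^ 2 + Cg * b ^ 3) + K * (2883 * B + 150), by positivity, by norm_num,
    by positivity, ?_⟩
  intro l hl0 hlL Z hω hq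
  set ω : ℂ := Complex.exp (l * Z) with hωd
  set q : ℝ := ‖ω - 1‖ with hqd
  set L : ℝ := ‖l‖ with hL
  have hL0 : 0 < L := norm_pos_iff.2 hl0
  have hbR : 0 < b * Rg := by positivity
  have hq0 : 0 < q := lt_of_lt_of_le (by positivity) hq
  have hω0 : ω ≠ 0 := Complex.exp_ne_zero _
  have hω1 : ω - 1 ≠ 0 := norm_pos_iff.1 hq0
  obtain ⟨hlam1, hlam2⟩ := lam_bounds (l := l) (by linarith)
  set lam : ℂ := Complex.exp l with hlam
  have hlam0 : lam ≠ 0 := Complex.exp_ne_zero _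
  have hlamn : 0 < ‖lam - 1‖ := lt_of_lt_of_le (by positivity) hlam1
  have hlam1' : lam - 1 ≠ 0 := norm_pos_iff.1 hlamn
  set vs : ℂ := al g / (lam - 1) with hvs
  have hvs0 : vs ≠ 0 := div_ne_zero ha hlam1'
  have hvsn : ‖vs‖ = ‖al g‖ / ‖lam - 1‖ := by rw [hvs, norm_div]
  set v : ℂ := vv g l Z with hv
  have hveq : v = vs * ((ω - 1) / ω) := by
    rw [hv]
    unfold vv
    rw [neg_mul, Complex.exp_neg, ← hωd, ← hlam, ← hvs]
    field_simp
  have hv0 : v ≠ 0 := by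
    rw [hveq]
    exact mul_ne_zero hvs0 (div_ne_zero hω1 hω0)
  have hvpos : 0 < ‖v‖ := norm_pos_iff.2 hv0
  have hωpos : 0 < ‖ω‖ := norm_pos_iff.2 hω0
  -- the ratio `r = L / q`
  set r : ℝ := L / q with hr
  have hr0 : 0 < r := by positivity
  have hrq : r * q = L := by
    rw [hr]
    field_simp
  have hvinv : ‖v‖⁻¹ ≤ b * r := by
    have e0 : ‖v‖ = ‖al g‖ / ‖lam - 1‖ * (q / ‖ω‖) := by
      rw [hveq, norm_mul, hvsn, norm_div]
    rw [e0, mul_inv, inv_div, inv_div, hb, hr, div_mul_div_comm, div_mul_div_comm]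
    refine div_le_div_of_nonneg_right ?_ (by positivity)
    have h2 := mul_le_mul hlam2 hω (norm_nonneg _) (by positivity : 0 ≤ 2 * L)
    linarith
  have hωvs : ‖ω / vs‖ ≤ b * L := by
    rw [norm_div, hvsn, hb, div_div_eq_mul_div, div_mul_eq_mul_div]
    refine div_le_div_of_nonneg_right ?_ (by positivity)
    have h2 := mul_le_mul hω hlam2 (norm_nonneg _) (by norm_num : (0:ℝ) ≤ 30)
    linarith
  have hrQ : r * (b * Rg + 150 + 6 * B) ≤ 1 := by
    have h2 : (b * Rg + 150 + 6 * B) * (r * q) ≤ q := by rw [hrq]; exact hq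
    have h3 : (r * (b * Rg + 150 + 6 * B)) * q ≤ 1 * q := by linarith
    exact le_of_mul_le_mul_right h3 hq0
  have hr1 : r * (b * Rg) ≤ 1 :=
    (mul_le_mul_of_nonneg_left (by linarith) hr0.le).trans hrQ
  have hr2 : r * 150 ≤ 1 := (mul_le_mul_of_nonneg_left (by linarith) hr0.le).trans hrQ
  have hr3 : r * (6 * B) ≤ 1 := (mul_le_mul_of_nonneg_left (by linarith) hr0.le).trans hrQ
  have hvR : Rg ≤ ‖v‖ := by
    have h2 : ‖v‖⁻¹ * Rg ≤ 1 := by
      refine (mul_le_mul_of_nonneg_right hvinv (by linarith)).trans ?_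
      linarith
    rw [inv_mul_le_iff₀ hvpos, mul_one] at h2
    exact h2
  have hbr1 : b * r ≤ 1 := by
    have : b * r * 1 ≤ b * r * Rg := mul_le_mul_of_nonneg_left hRg (by positivity)
    linarith
  obtain ⟨hG0, hGe⟩ := hexp v hvR
  set G : ℂ := (1 - g.eval (1 - v⁻¹))⁻¹ with hG
  have hGn0 : G ≠ 0 := inv_ne_zero hG0
  set θ : ℂ := (G - v - al g) * (ω / vs) with hθ
  set θ₀ : ℂ := ga g / v * (ω / vs) with hθ₀
  have hθ₀n : ‖θ₀‖ ≤ ‖ga g‖ * b ^ 2 * r * L := by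
    rw [hθ₀, norm_mul, norm_div, div_eq_mul_inv]
    calc ‖ga g‖ * ‖v‖⁻¹ * ‖ω / vs‖ ≤ ‖ga g‖ * (b * r) * (b * L) :=
          mul_le_mul (mul_le_mul_of_nonneg_left hvinv (norm_nonneg _)) hωvs (norm_nonneg _)
            (by positivity)
      _ = _ := by ring
  have hdn : ‖θ - θ₀‖ ≤ Cg * (b * r) ^ 2 * (b * L) := by
    have e1 : θ - θ₀ = (G - (v + al g + ga g / v)) * (ω / vs) := by
      rw [hθ, hθ₀]
      ring
    rw [e1, norm_mul]
    refine mul_le_mul (hGe.trans ?_) hωvs (norm_nonneg _) (by positivity)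
    rw [div_eq_mul_inv, ← inv_pow]
    gcongr
  have hθn : ‖θ‖ ≤ B * r * L := by
    have e1 : θ = θ₀ + (θ - θ₀) := by ring
    have e2 : Cg * (b * r) ^ 2 * (b * L) ≤ Cg * (b * r) * (b * L) := by
      have : (b * r) ^ 2 ≤ b * r := by
        rw [pow_two]
        exact mul_le_of_le_one_left (by positivity) hbr1
      gcongr
    rw [e1]
    refine (norm_add_le _ _).trans ((add_le_add hθ₀n (hdn.trans e2)).trans (le_of_eq ?_))
    rw [hB]
    ring
  have hθ6 : ‖θ‖ ≤ 1 / 6 := by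
    refine hθn.trans ?_
    have : B * r * L ≤ B * r * 1 := mul_le_mul_of_nonneg_left (by linarith) (by positivity)
    linarith
  have hlog1 : ‖Complex.log (1 - θ)‖ ≤ 3 / 2 * ‖θ‖ := by
    have h2 := Complex.norm_log_one_add_half_le_self (z := -θ) (by rw [norm_neg]; linarith)
    rw [norm_neg, ← sub_eq_add_neg] at h2
    exact h2
  have hlog2 : ‖Complex.log (1 - θ) + θ‖ ≤ ‖θ‖ ^ 2 := by
    have h2 := Complex.norm_log_one_add_sub_self_le (z := -θ) (by rw [norm_neg]; linarith)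
    rw [norm_neg, ← sub_eq_add_neg, sub_neg_eq_add] at h2
    refine h2.trans ?_
    have h3 : (1 - ‖θ‖)⁻¹ ≤ 2 := by
      rw [inv_le_comm₀ (by linarith) (by norm_num)]
      linarith
    have h4 := mul_le_mul_of_nonneg_left h3 (sq_nonneg ‖θ‖)
    linarith
  have hθ1 : 1 - θ ≠ 0 := by
    intro h
    have h2 : θ = 1 := by linear_combination -h
    rw [h2, norm_one] at hθ6
    norm_num at hθ6
  set Z' : ℂ := Z + 1 - Complex.log (1 - θ) / l with hZ'
  have hδeq : Z' - Z - 1 = -(Complex.log (1 - θ) / l) := by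
    rw [hZ']
    ring
  have hδ1 : ‖Z' - Z - 1‖ ≤ 3 / 2 * B * r := by
    rw [hδeq, norm_neg, norm_div, div_le_iff₀ hL0]
    refine hlog1.trans ?_
    linarith
  have hδ4 : ‖Z' - Z - 1‖ ≤ 1 / 4 := by
    refine hδ1.trans ?_
    linarith
  have hvv' : vv g l Z' = G / lam := by
    have e1 : Complex.exp (-l * Z') = (1 - θ) / (lam * ω) := by
      have e2 : -l * Z' = -(l * Z) + (-l) + Complex.log (1 - θ) := by
        rw [hZ']
        field_simp
        ring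
      rw [e2, Complex.exp_add, Complex.exp_add, Complex.exp_neg, Complex.exp_neg,
        Complex.exp_log hθ1, ← hωd, ← hlam]
      field_simp
    unfold vv
    rw [e1, ← hlam, ← hvs]
    have e3 : vs * (lam - 1) = al g := by
      rw [hvs]
      field_simp
    have e4 : vs * θ = (G - v - al g) * ω := by
      rw [hθ]
      field_simp
    have e5 : v * ω = vs * (ω - 1) := by
      rw [hveq]
      field_simp
    rw [eq_div_iff hlam0]
    have e6 : vs * (1 - (1 - θ) / (lam * ω)) * lam = (vs * lam * ω - vs + vs * θ) / ω := by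
      field_simp
      ring
    rw [e6, e4, div_eq_iff hω0]
    linear_combination (-1 : ℂ) * e5 + ω * e3
  have hvv'0 : vv g l Z' ≠ 0 := by
    rw [hvv']
    exact div_ne_zero hGn0 hlam0
  refine ⟨Z', hv0, hvv'0, ?_, hδ4, ?_, ?_⟩
  · rw [hvv', inv_div, hG, div_inv_eq_mul]
    ring
  · refine hδ1.trans ?_
    have : 0 ≤ ((B ^ 2 + Cg * b ^ 3) + K * (2883 * B + 150)) * r := by positivity
    linarith
  · intro hslit
    have h150 : 150 * ‖l‖ ≤ q := by
      have h2 := mul_le_mul_of_nonneg_right hr2 hq0.le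
      linarith
    have hinc := log_incr (l := l) (Z := Z) (Z' := Z') (q := q) hω rfl hq0
      h150 hlL hδ4 hslit
    rw [← hωd, ← hL] at hinc
    set m : ℂ := ω ^ 2 / (ω - 1) with hm
    have hkm : kk g l * (l * m) = θ₀ / l := by
      have e3 : lam - 1 = al g / vs := by
        rw [hvs]
        field_simp
      unfold kk
      rw [← hlam, e3, hθ₀, hveq, hm]
      field_simp
    have hkn : ‖kk g l‖ ≤ K := by
      unfold kk
      rw [norm_div, norm_mul, norm_mul, norm_pow, norm_pow, norm_pow, ← hlam, ← hL, hK,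
        div_le_div_iff₀ (by positivity) (by positivity)]
      have h2 : ‖lam - 1‖ ^ 2 ≤ (2 * L) ^ 2 := pow_le_pow_left₀ (norm_nonneg _) hlam2 2
      calc ‖ga g‖ * ‖lam - 1‖ ^ 2 * ‖al g‖ ^ 2 ≤ ‖ga g‖ * (2 * L) ^ 2 * ‖al g‖ ^ 2 := by gcongr
        _ = _ := by ring
    have hmain : ‖Z' - Z - 1 - θ₀ / l‖ ≤ (B ^ 2 + Cg * b ^ 3) * r ^ 2 := by
      have e1 : Z' - Z - 1 - θ₀ / l = -((Complex.log (1 - θ) + θ) - (θ - θ₀)) / l := by
        rw [hδeq]
        field_simp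
        ring
      rw [e1, norm_div, norm_neg, div_le_iff₀ hL0]
      refine (norm_sub_le _ _).trans ((add_le_add hlog2 hdn).trans ?_)
      have e2 : ‖θ‖ ^ 2 ≤ (B * r * L) ^ 2 := pow_le_pow_left₀ (norm_nonneg _) hθn 2
      have e3 : (B * r * L) ^ 2 ≤ B ^ 2 * r ^ 2 * L := by
        have : L * L ≤ 1 * L := mul_le_mul_of_nonneg_right (by linarith) hL0.le
        calc (B * r * L) ^ 2 = B ^ 2 * r ^ 2 * (L * L) := by ring
          _ ≤ B ^ 2 * r ^ 2 * (1 * L) := by gcongr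
          _ = _ := by ring
      calc ‖θ‖ ^ 2 + Cg * (b * r) ^ 2 * (b * L) ≤ B ^ 2 * r ^ 2 * L + Cg * (b * r) ^ 2 * (b * L) := by
            linarith
        _ = _ := by ring
    have hww : ww g l Z' - ww g l Z - 1 = (Z' - Z - 1 - θ₀ / l) -
        kk g l * ((Complex.log (1 - Complex.exp (l * Z')) + Complex.exp (l * Z')) -
          (Complex.log (1 - ω) + ω) - l * m) := by
      unfold ww
      rw [← hωd]
      linear_combination -hkm
    rw [hww]
    refine (norm_sub_le _ _).trans ?_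
    rw [norm_mul]
    have e1 : L * (‖Z' - Z - 1‖ * (1922 / q) + 75 * L * (1 + 2 / q ^ 2)) ≤
        (2883 * B + 150) * (L ^ 2 * (1 + 1 / q ^ 2)) := by
      have e2 : ‖Z' - Z - 1‖ * (1922 / q) ≤ 3 / 2 * B * r * (1922 / q) :=
        mul_le_mul_of_nonneg_right hδ1 (by positivity)
      have e3 : L * (3 / 2 * B * r * (1922 / q) + 75 * L * (1 + 2 / q ^ 2)) =
          L ^ 2 * (2883 * B * (1 / q ^ 2) + 75 + 150 * (1 / q ^ 2)) := by
        rw [hr]
        field_simp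
        ring
      have e4 : L ^ 2 * (2883 * B * (1 / q ^ 2) + 75 + 150 * (1 / q ^ 2)) ≤
          (2883 * B + 150) * (L ^ 2 * (1 + 1 / q ^ 2)) := by
        have e5 : 2883 * B * (1 / q ^ 2) + 75 + 150 * (1 / q ^ 2) ≤
            (2883 * B + 150) * (1 + 1 / q ^ 2) := by
          have f1 : 0 ≤ 1 / q ^ 2 := by positivity
          have f2 : (2883 * B + 150) * (1 + 1 / q ^ 2) =
            2883 * B * (1 / q ^ 2) + 75 + 150 * (1 / q ^ 2) + (2883 * B + 75) := by ring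
          rw [f2]
          linarith
        calc L ^ 2 * (2883 * B * (1 / q ^ 2) + 75 + 150 * (1 / q ^ 2)) ≤
              L ^ 2 * ((2883 * B + 150) * (1 + 1 / q ^ 2)) :=
              mul_le_mul_of_nonneg_left e5 (by positivity)
          _ = _ := by ring
      have e6 : L * (‖Z' - Z - 1‖ * (1922 / q) + 75 * L * (1 + 2 / q ^ 2)) ≤
          L * (3 / 2 * B * r * (1922 / q) + 75 * L * (1 + 2 / q ^ 2)) :=
        mul_le_mul_of_nonneg_left (by linarith) hL0.le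
      linarith
    have e7 : ‖kk g l‖ * ‖(Complex.log (1 - Complex.exp (l * Z')) + Complex.exp (l * Z')) -
          (Complex.log (1 - ω) + ω) - l * m‖ ≤
        K * ((2883 * B + 150) * (L ^ 2 * (1 + 1 / q ^ 2))) :=
      mul_le_mul hkn (hinc.trans e1) (norm_nonneg _) hK0
    have e8 : r ^ 2 ≤ L ^ 2 * (1 + 1 / q ^ 2) := by
      have : r ^ 2 = L ^ 2 * (1 / q ^ 2) := by
        rw [hr]
        field_simp
      rw [this]
      exact mul_le_mul_of_nonneg_left (by linarith) (sq_nonneg L)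
    have e9 : (B ^ 2 + Cg * b ^ 3) * r ^ 2 ≤ (B ^ 2 + Cg * b ^ 3) * (L ^ 2 * (1 + 1 / q ^ 2)) :=
      mul_le_mul_of_nonneg_left e8 (by positivity)
    have e10 : 0 ≤ 3 / 2 * B * (L ^ 2 * (1 + 1 / q ^ 2)) := by positivity
    have e11 : (3 / 2 * B + (B ^ 2 + Cg * b ^ 3) + K * (2883 * B + 150)) *
        (L ^ 2 * (1 + 1 / q ^ 2)) = 3 / 2 * B * (L ^ 2 * (1 + 1 / q ^ 2)) +
          (B ^ 2 + Cg * b ^ 3) * (L ^ 2 * (1 + 1 / q ^ 2)) +
            K * ((2883 * B + 150) * (L ^ 2 * (1 + 1 / q ^ 2))) := by ring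
    rw [e11]
    linarith

end STPaux

theorem t_STP : S_STP := by
  intro n g c₀ c hg
  have ha : al g ≠ 0 := by
    intro h
    have h1 := hg.der2
    unfold al at h
    have h2 : g.derivative.derivative.eval 1 = 0 := by
      rcases div_eq_zero_iff.1 h with h | h
      · exact h
      · norm_num at h
    rw [h2] at h1
    simp at h1
  obtain ⟨Q, L₀, C, hQ, hL₀, hC, hcore⟩ := STPaux.core g hg.fix hg.der ha
  have hpi := Real.pi_pos
  refine ⟨3 / 2 * Q, 1000 * C, 2 * Real.pi / L₀ + 4 * Real.pi * Q + 1, by positivity,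
    by positivity, by positivity, ?_⟩
  intro P hP Z hω hd
  have hPpos : 0 < ‖P‖ := lt_of_lt_of_le (by positivity) hP
  have hP0 : P ≠ 0 := norm_pos_iff.1 hPpos
  set l : ℂ := 2 * Real.pi * Complex.I / P with hl
  have hln : ‖l‖ = 2 * Real.pi / ‖P‖ := by
    rw [hl, norm_div, norm_mul, norm_mul, Complex.norm_I, Complex.norm_real,
      Real.norm_of_nonneg hpi.le]
    norm_num
  have hl0 : l ≠ 0 := by
    rw [hl]
    exact div_ne_zero (mul_ne_zero (mul_ne_zero two_ne_zero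
      (Complex.ofReal_ne_zero.2 hpi.ne')) Complex.I_ne_zero) hP0
  have hlpos : 0 < ‖l‖ := norm_pos_iff.2 hl0
  have hlP : l * P = 2 * Real.pi * Complex.I := by
    rw [hl]
    field_simp
  have hlL : ‖l‖ ≤ L₀ := by
    rw [hln, div_le_iff₀ hPpos]
    have h1 : 2 * Real.pi / L₀ ≤ ‖P‖ := by
      have : 0 < 4 * Real.pi * Q := by positivity
      linarith
    rw [div_le_iff₀ hL₀] at h1
    linarith
  have hlQ : Q * ‖l‖ ≤ 1 / 2 := by
    have h1 : 4 * Real.pi * Q ≤ ‖P‖ := by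
      have : 0 < 2 * Real.pi / L₀ := by positivity
      linarith
    rw [hln, mul_div_assoc', div_le_iff₀ hPpos]
    linarith
  have hlow : ∀ d : ℝ, (∀ j : ℤ, d ≤ ‖Z - j * P‖) →
      min (1 / 2) (2 / 3 * (‖l‖ * d)) ≤ ‖Complex.exp (l * Z) - 1‖ := by
    intro d hdj
    refine STPaux.exp_low (l * Z) (‖l‖ * d) fun j => ?_
    have e1 : l * Z - j * (2 * Real.pi * Complex.I) = l * (Z - j * P) := by
      rw [← hlP]
      ring
    rw [e1, norm_mul]
    exact mul_le_mul_of_nonneg_left (hdj j) (norm_nonneg _)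
  have hqQ : Q * ‖l‖ ≤ ‖Complex.exp (l * Z) - 1‖ := by
    refine le_trans (le_min hlQ ?_) (hlow _ hd)
    linarith
  obtain ⟨Z', hv, hv', hstep, h4, hδ, hWW⟩ := hcore l hl0 hlL Z hω hqQ
  have hqpos : 0 < ‖Complex.exp (l * Z) - 1‖ := lt_of_lt_of_le (by positivity) hqQ
  refine ⟨Z', hv, hv', hstep, h4, fun d hd0 hdj => ?_⟩
  have hmin := hlow d hdj
  set q : ℝ := ‖Complex.exp (l * Z) - 1‖ with hq
  have hpi4 : Real.pi ≤ 4 := Real.pi_le_four
  -- `1 / q ≤ 2 + 3 / (2 ‖l‖ d)`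
  have hqi : 1 / q ≤ 2 + 3 / (2 * (‖l‖ * d)) := by
    rcases min_le_iff.1 hmin with h | h
    · have h1 : 1 / q ≤ 2 := by
        rw [div_le_iff₀ hqpos]
        linarith
      have : 0 ≤ 3 / (2 * (‖l‖ * d)) := by positivity
      linarith
    · have h1 : 1 / q ≤ 3 / (2 * (‖l‖ * d)) := by
        rw [div_le_div_iff₀ hqpos (by positivity)]
        linarith
      linarith
  have hlq : ‖l‖ / q ≤ 2 * ‖l‖ + 3 / 2 * (1 / d) := by
    have h1 := mul_le_mul_of_nonneg_left hqi hlpos.le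
    have e1 : ‖l‖ * (1 / q) = ‖l‖ / q := by ring
    have e2 : ‖l‖ * (2 + 3 / (2 * (‖l‖ * d))) = 2 * ‖l‖ + 3 / 2 * (1 / d) := by
      field_simp
    rw [e1, e2] at h1
    exact h1
  have hl8 : ‖l‖ ≤ 8 * (1 / ‖P‖) := by
    rw [hln, mul_one_div]
    gcongr
    linarith
  have hdi : 0 < 1 / d := by positivity
  have hPi : 0 < 1 / ‖P‖ := by positivity
  refine ⟨?_, fun hslit => ?_⟩
  · refine hδ.trans ?_
    have h1 : ‖l‖ / q ≤ 16 * (1 / ‖P‖) + 3 / 2 * (1 / d) := by linarith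
    calc C * (‖l‖ / q) ≤ C * (16 * (1 / ‖P‖) + 3 / 2 * (1 / d)) :=
          mul_le_mul_of_nonneg_left h1 hC.le
      _ ≤ 1000 * C * (1 / d + 1 / ‖P‖) := by nlinarith [mul_pos hC hdi, mul_pos hC hPi]
  · refine (hWW hslit).trans ?_
    have h1 : (‖l‖ / q) ^ 2 ≤ (16 * (1 / ‖P‖) + 3 / 2 * (1 / d)) ^ 2 :=
      pow_le_pow_left₀ (by positivity) (by linarith) 2
    have h2 : ‖l‖ ^ 2 ≤ (8 * (1 / ‖P‖)) ^ 2 := pow_le_pow_left₀ (norm_nonneg _) hl8 2
    have e1 : ‖l‖ ^ 2 * (1 + 1 / q ^ 2) = ‖l‖ ^ 2 + (‖l‖ / q) ^ 2 := by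
      field_simp
    rw [e1]
    have e2 : 1 / d ^ 2 = (1 / d) ^ 2 := by rw [div_pow, one_pow]
    have e3 : 1 / ‖P‖ ^ 2 = (1 / ‖P‖) ^ 2 := by rw [div_pow, one_pow]
    rw [e2, e3]
    set x : ℝ := 1 / d
    set y : ℝ := 1 / ‖P‖
    have h3 : ‖l‖ ^ 2 + (‖l‖ / q) ^ 2 ≤ 1000 * (x ^ 2 + y ^ 2) := by
      nlinarith [sq_nonneg (x - y), sq_nonneg x, sq_nonneg y]
    calc C * (‖l‖ ^ 2 + (‖l‖ / q) ^ 2) ≤ C * (1000 * (x ^ 2 + y ^ 2)) :=
          mul_le_mul_of_nonneg_left h3 hC.le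
      _ = _ := by ring

end Pool.Agent.H212.ND
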