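import Pool.Agent.H212.ND.StmC
import Pool.Agent.H212.MB.Stm3

/-!
# Project ND: the marked fixed points converge (JOB STR, helper154)
-/

set_option autoImplicit false

open Filter Metric Set Topology Polynomial
open scoped ComplexConjugate

namespace Pool.Agent.H212.ND

open Pool.Agent.H212.MB

namespace STRaux

section param

variable {n : ℕ} {g : ℂ[X]} {c₀ : ℝ} {c : ℂ}

theorem aa_ne (hg : Good n g c₀ c) : aa n g ≠ 0 := by
  have h : 0 < (g.coeff n).re ^ (1 / ((n : ℝ) - 1)) := Real.rpow_pos_of_pos hg.lead _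
  unfold aa
  exact_mod_cast h.ne'

theorem aa_pow (hg : Good n g c₀ c) : aa n g ^ (n - 1) = g.coeff n := by
  have hn := hg.n3
  have h1 : ((g.coeff n).re ^ (1 / ((n : ℝ) - 1))) ^ (n - 1) = (g.coeff n).re := by
    rw [← Real.rpow_natCast, ← Real.rpow_mul hg.lead.le]
    have h2 : (1 / ((n : ℝ) - 1)) * ((n - 1 : ℕ) : ℝ) = 1 := by
      rw [Nat.cast_sub (by omega)]
      have h3 : (n : ℝ) - 1 ≠ 0 := by
        have : (3 : ℝ) ≤ n := by exact_mod_cast hn
        linarith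
      push_cast
      field_simp
    rw [h2, Real.rpow_one]
  unfold aa
  rw [← Complex.ofReal_pow, h1]
  apply Complex.ext
  · simp
  · simp [hg.real n]

theorem coeff_ne (hg : Good n g c₀ c) : g.coeff n ≠ 0 := by
  intro h
  have := hg.lead
  rw [h] at this
  simp at this

theorem ev_hat (hg : Good n g c₀ c) {F : ℂ → RMap n} (hF : Fam n g F) (z : ℂ) :
    (F (aa n g)).P.eval z = aa n g * (g.eval (z / aa n g + bb n g) - bb n g) := by
  rw [hF.ev _ _ (aa_ne hg), aa_pow hg, div_self (coeff_ne hg)]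
  unfold plam
  ring

theorem zn_den (z : ℂ) : (zn n).den z = 1 := by
  simp [Blaschke.den, zn]

theorem zn_ev (hn : 1 ≤ n) (z : ℂ) : (zn n).ev z = z ^ n := by
  unfold Blaschke.ev
  rw [zn_den]
  simp only [Blaschke.num, zn, sub_zero, one_mul, div_one, Finset.prod_const, Finset.card_univ,
    Fintype.card_fin]
  rw [← pow_succ']
  congr 1
  omega

theorem isExt_hat (hg : Good n g c₀ c) {F : ℂ → RMap n} (hF : Fam n g F) {φ : ℂ → ℂ}
    (hφ : Bot n g c₀ φ) : IsExt (zn n) (F (aa n g)) (fun z => aa n g * (φ z - bb n g)) := by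
  have ha := aa_ne hg
  refine ⟨?_, ?_, ?_, ?_⟩
  · exact (hφ.diff.sub_const _).const_mul _
  · intro z hz z' hz' h
    apply hφ.injE hz hz'
    have := mul_left_cancel₀ ha h
    exact sub_left_injective this
  · have h1 := (hφ.asym.sub_const (bb n g)).const_mul (aa n g)
    rw [sub_self, mul_zero] at h1
    refine h1.congr fun z => ?_
    field_simp
    ring
  · intro z hz _
    have hQ : (F (aa n g)).Q = 1 := hF.Q _
    refine ⟨by rw [hQ]; simp, ?_⟩
    unfold RMap.ev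
    rw [hQ, eval_one, div_one, ev_hat hg hF, mul_div_cancel_left₀ _ ha, sub_add_cancel,
      hφ.semi z (show (1 : ℝ) ≤ ‖z‖ from le_of_lt hz), zn_ev (by have := hg.n3; omega)]

/-- repelling fixed points -/
theorem repel {y₀ : ℂ} (hfix : g.eval y₀ = y₀) (hr : 1 < ‖g.derivative.eval y₀‖) :
    ∃ δ : ℝ, 0 < δ ∧ ∀ y, y ≠ y₀ → ‖y - y₀‖ < δ → ‖y - y₀‖ < ‖g.eval y - y₀‖ := by
  have h1 : HasDerivAt (fun y => g.eval y) (g.derivative.eval y₀) y₀ := g.hasDerivAt y₀
  have h2 := h1.isLittleO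
  set q := ‖g.derivative.eval y₀‖ with hq
  have hε : 0 < (q - 1) / 2 := by linarith
  have h3 := h2.def hε
  rw [Metric.eventually_nhds_iff] at h3
  obtain ⟨δ, hδ, h4⟩ := h3
  refine ⟨δ, hδ, fun y hy hyd => ?_⟩
  have h5 := h4 (show dist y y₀ < δ by rw [dist_eq_norm]; exact hyd)
  simp only [smul_eq_mul] at h5
  rw [hfix] at h5
  have hpos : 0 < ‖y - y₀‖ := norm_pos_iff.2 (sub_ne_zero.2 hy)
  have h6 : ‖(y - y₀) * g.derivative.eval y₀‖ = ‖y - y₀‖ * q := norm_mul _ _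
  have h7 : ‖(y - y₀) * g.derivative.eval y₀‖ ≤ ‖g.eval y - y₀‖ +
      ‖g.eval y - y₀ - (y - y₀) * g.derivative.eval y₀‖ := by
    have := norm_sub_le (g.eval y - y₀) (g.eval y - y₀ - (y - y₀) * g.derivative.eval y₀)
    rwa [sub_sub_cancel] at this
  rw [h6] at h7
  nlinarith

/-- fixed points outside of the basin -/
theorem fixed_points (hB : S_BASN) (hg : Good n g c₀ c) {φ : ℂ → ℂ} (hP : Pic n g c₀ φ) {y₀ : ℂ}
    (hfix : g.eval y₀ = y₀) : ∃ ζ : ℂ, ‖ζ‖ = 1 ∧ ζ ^ n = ζ ∧ φ ζ = y₀ ∧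
      (ζ ≠ 1 → 1 < ‖g.derivative.eval y₀‖) := by
  obtain ⟨-, -, -, -, -, h1B, -, -, hconv⟩ := hB n g c₀ c hg
  have hn := hg.n3
  have hyB : y₀ ∉ Bas g c₀ := by
    intro hy
    have h1 := hconv y₀ hy
    have h2 : ∀ m : ℕ, (fun z : ℂ => g.eval z)^[m] y₀ = y₀ := fun m =>
      Function.iterate_fixed hfix m
    simp only [h2] at h1
    have h3 : y₀ = 1 := tendsto_nhds_unique tendsto_const_nhds h1
    exact h1B (h3 ▸ hy)
  rw [← hP.bot.bas, mem_compl_iff, not_not] at hyB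
  obtain ⟨ζ, hζ, hζy⟩ := hyB
  have hζ1 : 1 ≤ ‖ζ‖ := hζ
  have hζn : ζ ^ n ∈ CExt := by
    show 1 ≤ ‖ζ ^ n‖
    rw [norm_pow]
    exact one_le_pow₀ hζ1
  have h1 : ζ ^ n = ζ := by
    apply hP.inj hζn hζ
    rw [← hP.bot.semi ζ hζ, hζy, hfix]
  have hnorm : ‖ζ‖ = 1 := by
    by_contra hne
    have hgt : 1 < ‖ζ‖ := lt_of_le_of_ne hζ1 (Ne.symm hne)
    have h2 : ‖ζ‖ ^ 1 < ‖ζ‖ ^ n := pow_lt_pow_right₀ hgt (by omega)
    rw [pow_one, ← norm_pow ζ n, h1] at h2
    exact lt_irrefl _ h2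
  refine ⟨ζ, hnorm, h1, hζy, fun hζne => ?_⟩
  have hy1 : y₀ ≠ 1 := by
    rintro rfl
    apply hζne
    apply hP.inj hζ (show (1 : ℂ) ∈ CExt by simp [CExt])
    rw [hζy, hP.bot.one]
  have hyB' : y₀ ∉ Bas g c₀ := by
    rw [← hP.bot.bas, mem_compl_iff, not_not]
    exact ⟨ζ, hζ, hζy⟩
  have h3 : 1 - c₀ ≤ ‖y₀ - c₀‖ := by
    by_contra hlt
    exact hyB' ⟨0, not_le.1 hlt⟩
  have h4 := hg.expd y₀ hy1 (by rw [hfix]; exact h3)
  rw [hfix] at h4
  have h5 : 0 < ‖y₀ - c₀‖ := lt_of_lt_of_le (by linarith [hg.c1]) h3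
  by_contra hle
  have h6 : ‖g.derivative.eval y₀‖ ≤ 1 := not_lt.1 hle
  nlinarith

end param

/-- the curve stays in the ball -/
theorem curve {γ : ℝ → ℂ} {G : ℂ → ℂ} {n : ℕ} {x : ℂ} {s t₀ : ℝ} (ht₀ : 1 < t₀)
    (hn : n ≠ 0) (hγ : ContinuousOn γ (Icc 1 t₀)) (hG : ∀ t, 1 ≤ t → G (γ t) = γ (t ^ n))
    (h1 : ∀ t, 1 ≤ t → t ≤ t₀ → t₀ ≤ t ^ n → ‖γ t - x‖ < s)
    (h2 : ∀ z, ‖z - x‖ = s → s < ‖G z - x‖) : ‖γ 1 - x‖ < s := by
  by_contra hcon
  have hcon' := not_lt.1 hcon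
  set A : Set ℝ := {t ∈ Icc 1 t₀ | s ≤ ‖γ t - x‖} with hA
  have hcont : ContinuousOn (fun t => ‖γ t - x‖) (Icc 1 t₀) := (hγ.sub continuousOn_const).norm
  have hAc : IsCompact A := by
    have h3 : IsClosed A := hcont.preimage_isClosed_of_isClosed isClosed_Icc isClosed_Ici
    exact isCompact_Icc.of_isClosed_subset h3 (fun t ht => ht.1)
  have hAne : A.Nonempty := ⟨1, ⟨le_rfl, ht₀.le⟩, hcon'⟩
  obtain ⟨ts, hts, hmax⟩ := hAc.exists_isMaxOn hAne continuousOn_id
  have hmax' : ∀ t ∈ A, t ≤ ts := fun t ht => hmax ht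
  have h1t : 1 ≤ ts := hts.1.1
  have htn : ts ≤ ts ^ n := le_self_pow₀ h1t hn
  have hlt : ts ^ n < t₀ := by
    by_contra hge
    exact absurd (h1 ts h1t hts.1.2 (not_lt.1 hge)) (not_lt.2 hts.2)
  have hts0 : ts < t₀ := htn.trans_lt hlt
  have hle : ∀ t, ts < t → t ≤ t₀ → ‖γ t - x‖ < s := by
    intro t h3 h4
    by_contra h5
    exact absurd (hmax' t ⟨⟨h1t.trans h3.le, h4⟩, not_lt.1 h5⟩) (not_le.2 h3)
  have heq : ‖γ ts - x‖ = s := by
    apply le_antisymm _ hts.2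
    have h3 : Tendsto (fun t => ‖γ t - x‖) (𝓝[Ioc ts t₀] ts) (𝓝 ‖γ ts - x‖) :=
      (hcont ts hts.1).mono (fun t ht => ⟨h1t.trans ht.1.le, ht.2⟩)
    have h4 : (𝓝[Ioc ts t₀] ts).NeBot := by
      rw [nhdsWithin_Ioc_eq_nhdsGT hts0]
      infer_instance
    exact le_of_tendsto h3 (by
      filter_upwards [self_mem_nhdsWithin] with t ht using (hle t ht.1 ht.2).le)
  have h3 := h2 _ heq
  rw [hG ts h1t] at h3
  rcases htn.eq_or_lt with h4 | h4
  · rw [← h4, heq] at h3
    exact lt_irrefl _ h3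
  · exact absurd (hle _ h4 hlt.le) (not_lt.2 h3.le)

/-- fixed points of converging polynomials converge along ultrafilters -/
theorem fix_lim (hR : MB.S_RTOP) {n : ℕ} (hn : 2 ≤ n) {ι : Type} (u : Ultrafilter ι)
    {f : ι → RMap n} {F : RMap n} (hf : Tendsto f u (𝓝 F)) {w : ι → ℂ}
    (hw : ∀ᶠ i in (u : Filter ι), (f i).P.eval (w i) = w i) : ∃ x, Tendsto w u (𝓝 x) := by
  by_cases hb : ∃ R : ℝ, ∀ᶠ i in (u : Filter ι), ‖w i‖ ≤ R
  · obtain ⟨R, hR'⟩ := hb
    obtain ⟨x, -, hx⟩ := (isCompact_closedBall (0 : ℂ) R).ultrafilter_le_nhds (u.map w) (by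
      rw [le_principal_iff]
      have : ∀ᶠ i in (u : Filter ι), w i ∈ closedBall (0 : ℂ) R := by
        filter_upwards [hR'] with i hi
        simpa using hi
      exact this)
    exact ⟨x, hx⟩
  · exfalso
    have h1 : Tendsto (fun i => ‖w i‖) (u : Filter ι) atTop := by
      rw [Filter.tendsto_atTop]
      intro R
      have h2 : ¬ ∀ᶠ i in (u : Filter ι), ‖w i‖ ≤ R := fun h => hb ⟨R, h⟩
      rw [← Ultrafilter.eventually_not] at h2
      filter_upwards [h2] with i hi using (not_le.1 hi).le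
    have h2 : Tendsto (fun i => (w i)⁻¹) (u : Filter ι) (𝓝 0) := by
      rw [tendsto_zero_iff_norm_tendsto_zero]
      simp only [norm_inv]
      exact tendsto_inv_atTop_zero.comp h1
    have hc := ((((hR n).2 ι u f F).1).1 hf).1
    have h3 : Tendsto (fun i => ∑ j ∈ Finset.range (n + 1), (f i).P.coeff j * (w i)⁻¹ ^ (n - j))
        (u : Filter ι) (𝓝 (∑ j ∈ Finset.range (n + 1), F.P.coeff j * 0 ^ (n - j))) :=
      tendsto_finsetSum _ fun j _ => (hc j).mul (h2.pow _)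
    have h4 : (∑ j ∈ Finset.range (n + 1), F.P.coeff j * (0 : ℂ) ^ (n - j)) = 1 := by
      rw [Finset.sum_range_succ, Finset.sum_eq_zero]
      · have : F.P.coeff n = 1 := by
          have := F.monic.coeff_natDegree
          rwa [F.natDegree] at this
        simp [this]
      · intro j hj
        rw [Finset.mem_range] at hj
        rw [zero_pow (by omega), mul_zero]
    have h5 : ∀ᶠ i in (u : Filter ι), ∑ j ∈ Finset.range (n + 1),
        (f i).P.coeff j * (w i)⁻¹ ^ (n - j) = (w i)⁻¹ ^ (n - 1) := by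
      filter_upwards [hw, h1.eventually_gt_atTop 0] with i hi hi0
      have hwi : w i ≠ 0 := norm_pos_iff.1 hi0
      have e1 : (f i).P.eval (w i) = ∑ j ∈ Finset.range (n + 1), (f i).P.coeff j * w i ^ j :=
        Polynomial.eval_eq_sum_range' (by rw [(f i).natDegree]; omega) _
      have e2 : ∑ j ∈ Finset.range (n + 1), (f i).P.coeff j * (w i)⁻¹ ^ (n - j) =
          (w i)⁻¹ ^ n * (f i).P.eval (w i) := by
        rw [e1, Finset.mul_sum]
        apply Finset.sum_congr rfl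
        intro j hj
        rw [Finset.mem_range] at hj
        have e3 : (w i)⁻¹ ^ n = (w i)⁻¹ ^ (n - j) * (w i)⁻¹ ^ j := by
          rw [← pow_add]
          congr 1
          omega
        have e4 : (w i)⁻¹ ^ j * w i ^ j = 1 := by
          rw [← mul_pow, inv_mul_cancel₀ hwi, one_pow]
        rw [e3]
        linear_combination (-(f i).P.coeff j * (w i)⁻¹ ^ (n - j)) * e4
      rw [e2, hi]
      have e5 : (w i)⁻¹ ^ n = (w i)⁻¹ ^ (n - 1) * (w i)⁻¹ := by
        rw [← pow_succ]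
        congr 1
        omega
      rw [e5, mul_assoc, inv_mul_cancel₀ hwi, mul_one]
    have h6 : Tendsto (fun i => (w i)⁻¹ ^ (n - 1)) (u : Filter ι) (𝓝 0) := by
      have := h2.pow (n - 1)
      rwa [zero_pow (by omega)] at this
    rw [h4] at h3
    have h7 := tendsto_nhds_unique (h3.congr' h5) h6
    exact one_ne_zero h7

/-- two different fixed points do not converge to the same simple fixed point -/
theorem quot_lim (hR : MB.S_RTOP) {n : ℕ} {ι : Type} (u : Ultrafilter ι)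
    {f : ι → RMap n} {F : RMap n} (hf : Tendsto f u (𝓝 F)) {w w' : ι → ℂ} {x : ℂ}
    (hw : Tendsto w u (𝓝 x)) (hw' : Tendsto w' u (𝓝 x))
    (h : ∀ᶠ i in (u : Filter ι), (f i).P.eval (w i) = w i ∧ (f i).P.eval (w' i) = w' i ∧
      w i ≠ w' i) : F.P.derivative.eval x = 1 := by
  have hc := ((((hR n).2 ι u f F).1).1 hf).1
  have h3 : Tendsto (fun i => ∑ j ∈ Finset.range (n + 1), (f i).P.coeff j *
      ∑ k ∈ Finset.range j, w i ^ k * w' i ^ (j - 1 - k)) (u : Filter ι)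
      (𝓝 (∑ j ∈ Finset.range (n + 1), F.P.coeff j *
        ∑ k ∈ Finset.range j, x ^ k * x ^ (j - 1 - k))) :=
    tendsto_finsetSum _ fun j _ => (hc j).mul (tendsto_finsetSum _ fun k _ =>
      (hw.pow _).mul (hw'.pow _))
  have h4 : (∑ j ∈ Finset.range (n + 1), F.P.coeff j *
      ∑ k ∈ Finset.range j, x ^ k * x ^ (j - 1 - k)) = F.P.derivative.eval x := by
    rw [Polynomial.derivative_eval, Polynomial.sum_over_range' _ _ (n + 1)
      (by rw [F.natDegree]; omega)]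
    · apply Finset.sum_congr rfl
      intro j _
      have : ∀ k ∈ Finset.range j, x ^ k * x ^ (j - 1 - k) = x ^ (j - 1) := by
        intro k hk
        rw [Finset.mem_range] at hk
        rw [← pow_add]
        congr 1
        omega
      rw [Finset.sum_congr rfl this, Finset.sum_const, Finset.card_range, nsmul_eq_mul, mul_assoc]
    · intro j
      simp
  have h5 : ∀ᶠ i in (u : Filter ι), ∑ j ∈ Finset.range (n + 1), (f i).P.coeff j *
      ∑ k ∈ Finset.range j, w i ^ k * w' i ^ (j - 1 - k) = 1 := by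
    filter_upwards [h] with i hi
    obtain ⟨h6, h7, h8⟩ := hi
    have e1 : ∀ z, (f i).P.eval z = ∑ j ∈ Finset.range (n + 1), (f i).P.coeff j * z ^ j := fun z =>
      Polynomial.eval_eq_sum_range' (by rw [(f i).natDegree]; omega) _
    have hne : w i - w' i ≠ 0 := sub_ne_zero.2 h8
    apply mul_right_cancel₀ hne
    rw [one_mul, Finset.sum_mul]
    have e2 : ∀ j ∈ Finset.range (n + 1), (f i).P.coeff j *
        (∑ k ∈ Finset.range j, w i ^ k * w' i ^ (j - 1 - k)) * (w i - w' i) =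
        (f i).P.coeff j * w i ^ j - (f i).P.coeff j * w' i ^ j := by
      intro j _
      rw [mul_assoc, (Commute.all (w i) (w' i)).geom_sum₂_mul, mul_sub]
    rw [Finset.sum_congr rfl e2, Finset.sum_sub_distrib, ← e1, ← e1, h6, h7]
  rw [h4] at h3
  exact tendsto_nhds_unique h3 (tendsto_const_nhds.congr' (h5.mono fun i hi => hi.symm))

/-- the functional equation up to the circle -/
theorem semiC (hQ : MB.S_QFORM) {n : ℕ} (hn : 1 ≤ n) {B : Blaschke n} {f : RMap n} {φ ψ : ℂ → ℂ}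
    {h : ℝ → ℝ} (hM : IsMatingData (zn n) B f φ ψ h) :
    ∀ z ∈ CExt, f.P.eval (φ z) = φ (z ^ n) := by
  have hq := hQ n hn (zn n) f φ hM.ext
  have hQ1 : f.Q = 1 := hq.1.trans hq.2.2.2
  have hE : ∀ z ∈ MB.Ext, f.P.eval (φ z) = φ (z ^ n) := by
    intro z hz
    have h1 := (hM.ext.semi z hz (by rw [zn_den]; exact one_ne_zero)).2
    unfold RMap.ev at h1
    rw [hQ1, eval_one, div_one, zn_ev hn] at h1
    exact h1
  intro z hz
  have hz1 : 1 ≤ ‖z‖ := hz
  rcases hz1.lt_or_eq with h1 | h1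
  · exact hE z h1
  · have hmem : ∀ t : ℝ, 1 ≤ t → ((t : ℂ) * z) ∈ CExt := by
      intro t ht
      show 1 ≤ ‖(t : ℂ) * z‖
      rw [norm_mul, Complex.norm_real, ← h1, mul_one]
      exact ht.trans (le_abs_self t)
    have hzn : z ^ n ∈ CExt := by
      show 1 ≤ ‖z ^ n‖
      rw [norm_pow, ← h1, one_pow]
    have hl0 : Tendsto (fun t : ℝ => (t : ℂ) * z) (𝓝[>] 1) (𝓝 z) := by
      have hc : Continuous (fun t : ℝ => (t : ℂ) * z) := by fun_prop
      have := (hc.tendsto 1).mono_left (nhdsWithin_le_nhds (s := Ioi (1 : ℝ)))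
      simpa using this
    have hl1 : Tendsto (fun t : ℝ => (t : ℂ) * z) (𝓝[>] 1) (𝓝[CExt] z) := by
      rw [tendsto_nhdsWithin_iff]
      refine ⟨hl0, ?_⟩
      filter_upwards [self_mem_nhdsWithin] with t ht using hmem t (le_of_lt ht)
    have hl2 : Tendsto (fun t : ℝ => ((t : ℂ) * z) ^ n) (𝓝[>] 1) (𝓝[CExt] (z ^ n)) := by
      rw [tendsto_nhdsWithin_iff]
      refine ⟨hl0.pow n, ?_⟩
      filter_upwards [self_mem_nhdsWithin] with t ht
      show 1 ≤ ‖((t : ℂ) * z) ^ n‖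
      rw [norm_pow]
      exact one_le_pow₀ (hmem t (le_of_lt ht))
    have h2 : Tendsto (fun t : ℝ => f.P.eval (φ ((t : ℂ) * z))) (𝓝[>] 1) (𝓝 (f.P.eval (φ z))) :=
      (f.P.continuous.tendsto _).comp ((hM.contφ z hz).tendsto.comp hl1)
    have h3 : Tendsto (fun t : ℝ => φ (((t : ℂ) * z) ^ n)) (𝓝[>] 1) (𝓝 (φ (z ^ n))) :=
      (hM.contφ _ hzn).tendsto.comp hl2
    refine tendsto_nhds_unique h2 (h3.congr' ?_)
    filter_upwards [self_mem_nhdsWithin] with t ht
    have ht1 : (1 : ℝ) < t := ht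
    refine (hE _ ?_).symm
    show 1 < ‖(t : ℂ) * z‖
    rw [norm_mul, Complex.norm_real, ← h1, mul_one]
    exact ht1.trans_le (le_abs_self t)

/-- the exterior map is injective on the circle -/
theorem circ_ne {n : ℕ} {A B : Blaschke n} {f : RMap n} {φ ψ : ℂ → ℂ} {h : ℝ → ℝ}
    (hM : IsMatingData A B f φ ψ h) {ζ : ℂ} (hζ : ‖ζ‖ = 1) (hne : ζ ≠ 1) : φ 1 ≠ φ ζ := by
  intro heq
  set θ := ζ.arg with hθ
  have hζe : Complex.exp (θ * Complex.I) = ζ := by
    have := Complex.norm_mul_exp_arg_mul_I ζ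
    rwa [hζ, Complex.ofReal_one, one_mul] at this
  have hθ0 : θ ≠ 0 := by
    intro h0
    apply hne
    rw [← hζe, h0]
    simp
  have hpi := Real.pi_pos
  have hθ1 : θ ≤ Real.pi := Complex.arg_le_pi ζ
  have hθ2 : -Real.pi < θ := Complex.neg_pi_lt_arg ζ
  have e0 := hM.glue 0
  have e1 := hM.glue θ
  rw [hζe] at e1
  have e0' : φ 1 = ψ (Complex.exp (h 0 * Complex.I)) := by
    simpa using e0
  rw [e0', e1] at heq
  have h1 := hM.injψ (by simp [Complex.norm_exp_ofReal_mul_I])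
    (by simp [Complex.norm_exp_ofReal_mul_I]) heq
  rw [Complex.exp_eq_exp_iff_exists_int] at h1
  obtain ⟨k, hk⟩ := h1
  have hk' : h 0 = h θ + k * (2 * Real.pi) := by
    have h2 := congrArg Complex.im hk
    simpa using h2
  have hper := hM.perh
  rcases lt_or_gt_of_ne hθ0 with h2 | h2
  · have h3 : h θ < h 0 := hM.monoh h2
    have h4 : h 0 < h θ + 2 * Real.pi := by
      rw [← hper θ]
      exact hM.monoh (by linarith)
    have h5 : (0 : ℝ) < k := by
      by_contra h6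
      have : (k : ℝ) ≤ 0 := not_lt.1 h6
      nlinarith
    have h6 : (k : ℝ) < 1 := by
      by_contra h7
      have : (1 : ℝ) ≤ k := not_lt.1 h7
      nlinarith
    have h7 : (0 : ℤ) < k := by exact_mod_cast h5
    have h8 : k < (1 : ℤ) := by exact_mod_cast h6
    omega
  · have h3 : h 0 < h θ := hM.monoh h2
    have h4 : h θ < h 0 + 2 * Real.pi := by
      rw [← hper 0]
      exact hM.monoh (by linarith)
    have h5 : (k : ℝ) < 0 := by
      by_contra h6
      have : (0 : ℝ) ≤ k := not_lt.1 h6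
      nlinarith
    have h6 : (-1 : ℝ) < k := by
      by_contra h7
      have : (k : ℝ) ≤ -1 := not_lt.1 h7
      nlinarith
    have h7 : k < (0 : ℤ) := by exact_mod_cast h5
    have h8 : (-1 : ℤ) < k := by exact_mod_cast h6
    omega

theorem der_hat {n : ℕ} {g : ℂ[X]} {c₀ : ℝ} {c : ℂ} (hg : Good n g c₀ c) {F : ℂ → RMap n}
    (hF : Fam n g F) (p : ℂ) : (F (aa n g)).P.derivative.eval p =
      g.derivative.eval (p / aa n g + bb n g) := by
  have ha := aa_ne hg
  have h1 : HasDerivAt (fun z => (F (aa n g)).P.eval z) ((F (aa n g)).P.derivative.eval p) p :=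
    (F (aa n g)).P.hasDerivAt p
  have h2 : HasDerivAt (fun z : ℂ => z / aa n g + bb n g) (1 / aa n g) p :=
    ((hasDerivAt_id p).div_const _).add_const _
  have h3 : HasDerivAt (fun z : ℂ => aa n g * (g.eval (z / aa n g + bb n g) - bb n g))
      (aa n g * (g.derivative.eval (p / aa n g + bb n g) * (1 / aa n g))) p :=
    (((g.hasDerivAt (p / aa n g + bb n g)).comp p h2).sub_const _).const_mul _
  have h4 : (fun z => (F (aa n g)).P.eval z) =
      fun z : ℂ => aa n g * (g.eval (z / aa n g + bb n g) - bb n g) :=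
    funext fun z => ev_hat hg hF z
  rw [h4] at h1
  rw [h1.unique h3]
  field_simp

end STRaux

open STRaux in
theorem t_STR (h1 : MB.S_EXTU) (h2 : MB.S_CPT) (h3 : MB.S_RTOP) (h4 : MB.S_QFORM)
    (h5 : S_BASN) : S_STR := by
  intro n g c₀ c φ F ι u gs Bs φs ψs hs hg hP hF hM hlim
  have hn := hg.n3
  have ha := aa_ne hg
  have hone : (1 : ℂ) ∈ CExt := by simp [CExt]
  have hfix1 : ∀ᶠ i in (u : Filter ι), (gs i).P.eval (φs i 1) = φs i 1 := by
    filter_upwards [hM] with i hi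
    have := semiC h4 (by omega) hi 1 hone
    rwa [one_pow] at this
  obtain ⟨p, hp⟩ := fix_lim h3 (by omega) u hlim hfix1
  have hpfix : (F (aa n g)).P.eval p = p :=
    tendsto_nhds_unique (((h3 n).2 ι u gs (F (aa n g))).2 hlim _ p hp).1
      (hp.congr' (hfix1.mono fun i hi => hi.symm))
  obtain ⟨y₀, hy₀⟩ : ∃ y₀, y₀ = p / aa n g + bb n g := ⟨_, rfl⟩
  have hpy : p = aa n g * (y₀ - bb n g) := by
    rw [hy₀]
    field_simp
    ring
  have hyfix : g.eval y₀ = y₀ := by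
    rw [ev_hat hg hF, ← hy₀] at hpfix
    have := mul_left_cancel₀ ha (hpfix.trans hpy)
    exact sub_left_injective this
  obtain ⟨ζ, hζ1, hζn, hζy, hrep⟩ := fixed_points h5 hg hP hyfix
  by_cases hζ : ζ = 1
  · rw [hζ, hP.bot.one] at hζy
    rw [hpy, ← hζy] at hp
    exact hp
  exfalso
  have hμ := hrep hζ
  have hland : Tendsto (fun i => φs i ζ) (u : Filter ι) (𝓝 p) := by
    rw [Metric.tendsto_nhds]
    intro ε hε
    obtain ⟨δ, hδ, hexp⟩ := repel hyfix hμ
    have hapos : 0 < ‖aa n g‖ := norm_pos_iff.2 ha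
    obtain ⟨s, hs0, hsε, hsδ⟩ : ∃ s : ℝ, 0 < s ∧ s ≤ ε ∧ s < ‖aa n g‖ * δ := by
      refine ⟨min ε (‖aa n g‖ * δ / 2), by positivity, min_le_left _ _, ?_⟩
      exact lt_of_le_of_lt (min_le_right _ _) (half_lt_self (by positivity))
    have hsph : ∀ z, ‖z - p‖ = s → s < ‖(F (aa n g)).P.eval z - p‖ := by
      intro z hz
      have e1 : z / aa n g + bb n g - y₀ = (z - p) / aa n g := by
        rw [hy₀]
        ring
      have e2 : (F (aa n g)).P.eval z - p =
          aa n g * (g.eval (z / aa n g + bb n g) - y₀) := by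
        rw [ev_hat hg hF, hpy]
        ring
      have e3 : ‖z / aa n g + bb n g - y₀‖ = s / ‖aa n g‖ := by
        rw [e1, norm_div, hz]
      have e4 : z / aa n g + bb n g ≠ y₀ := by
        intro h
        rw [h, sub_self, norm_zero] at e3
        exact absurd e3.symm (by positivity)
      have e5 := hexp _ e4 (by rw [e3, div_lt_iff₀ hapos]; linarith)
      rw [e3, div_lt_iff₀ hapos] at e5
      rw [e2, norm_mul]
      linarith
    have hsph' : ∀ᶠ i in (u : Filter ι), ∀ z, ‖z - p‖ = s → s < ‖(gs i).P.eval z - p‖ := by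
      by_contra hcon
      rw [← Ultrafilter.eventually_not] at hcon
      have hex : ∀ i, ∃ z : ℂ, ‖z - p‖ = s ∧ ((¬ ∀ z, ‖z - p‖ = s → s < ‖(gs i).P.eval z - p‖) →
          ‖(gs i).P.eval z - p‖ ≤ s) := by
        intro i
        by_cases hi : ∀ z, ‖z - p‖ = s → s < ‖(gs i).P.eval z - p‖
        · refine ⟨p + s, ?_, fun h => absurd hi h⟩
          rw [add_sub_cancel_left, Complex.norm_real, Real.norm_of_nonneg hs0.le]
        · obtain ⟨z, hz⟩ := not_forall.1 hi
          obtain ⟨hz1, hz2⟩ := Classical.not_imp.1 hz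
          exact ⟨z, hz1, fun _ => not_lt.1 hz2⟩
      choose z hz hz' using hex
      obtain ⟨x, hx, hxl⟩ := (isCompact_sphere p s).ultrafilter_le_nhds (u.map z) (by
        rw [le_principal_iff]
        have : ∀ᶠ i in (u : Filter ι), z i ∈ sphere p s :=
          Eventually.of_forall fun i => by rw [mem_sphere, dist_eq_norm]; exact hz i
        exact this)
      have hxl' : Tendsto z u (𝓝 x) := hxl
      have h6 := (((h3 n).2 ι u gs (F (aa n g))).2 hlim z x hxl').1
      have h7 : Tendsto (fun i => ‖(gs i).P.eval (z i) - p‖) u (𝓝 ‖(F (aa n g)).P.eval x - p‖) :=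
        (h6.sub_const p).norm
      have h8 : ‖(F (aa n g)).P.eval x - p‖ ≤ s :=
        le_of_tendsto h7 (hcon.mono fun i hi => hz' i hi)
      have h9 := hsph x (by rw [← dist_eq_norm]; exact hx)
      exact absurd h8 (not_le.2 h9)
    have hζC : ζ ∈ CExt := le_of_eq hζ1.symm
    obtain ⟨δ₁, hδ₁, hφc⟩ : ∃ δ₁ > 0, ∀ z ∈ CExt, ‖z - ζ‖ < δ₁ →
        ‖aa n g * (φ z - bb n g) - p‖ < s / 2 := by
      have hc : ContinuousWithinAt (fun z => aa n g * (φ z - bb n g)) CExt ζ :=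
        ((hP.bot.cont ζ hζC).sub continuousWithinAt_const).const_smul (aa n g)
      obtain ⟨δ₁, hδ₁, h⟩ := Metric.continuousWithinAt_iff.1 hc (s / 2) (by positivity)
      refine ⟨δ₁, hδ₁, fun z hz hzd => ?_⟩
      have := h hz (by rw [dist_eq_norm]; exact hzd)
      rw [dist_eq_norm, hζy, ← hpy] at this
      exact this
    set t₀ : ℝ := 1 + δ₁ / 2 with ht₀
    have ht₀1 : 1 < t₀ := by linarith
    set K : Set ℂ := (fun t : ℝ => (t : ℂ) * ζ) '' {t ∈ Icc 1 t₀ | t₀ ≤ t ^ n} with hK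
    have hKc : IsCompact K := by
      apply IsCompact.image
      · apply isCompact_Icc.of_isClosed_subset _ (fun t ht => ht.1)
        exact isClosed_Icc.inter (isClosed_le continuous_const (continuous_pow n))
      · fun_prop
    have hnorm : ∀ t : ℝ, 1 ≤ t → ‖(t : ℂ) * ζ‖ = t := by
      intro t ht
      rw [norm_mul, hζ1, mul_one, Complex.norm_real, Real.norm_of_nonneg (by linarith)]
    have hKE : K ⊆ MB.Ext := by
      rintro _ ⟨t, ⟨⟨ht1, ht2⟩, ht3⟩, rfl⟩
      show 1 < ‖(t : ℂ) * ζ‖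
      rw [hnorm t ht1]
      by_contra h
      have h6 : t = 1 := le_antisymm (not_lt.1 h) ht1
      rw [h6, one_pow] at ht3
      linarith
    obtain ⟨F', Φ', hext', hF', hTLU⟩ := h2 n (by omega) (zn n) ι u gs φs (hM.mono fun i hi => hi.ext)
    have hT2 := (h3 n).1
    have hFF : F' = F (aa n g) := tendsto_nhds_unique hF' hlim
    rw [hFF] at hext'
    have hEq := h1 n (by omega) (zn n) (F (aa n g)) Φ' _ hext' (isExt_hat hg hF hP.bot)
    have hopen : IsOpen MB.Ext := isOpen_lt continuous_const continuous_norm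
    have hunif := (tendstoLocallyUniformlyOn_iff_forall_isCompact hopen).1 hTLU K hKE hKc
    rw [Metric.tendstoUniformlyOn_iff] at hunif
    filter_upwards [hM, hsph', hunif (s / 2) (by positivity)] with i hMi hsi hui
    have hres := curve (γ := fun t : ℝ => φs i ((t : ℂ) * ζ)) (G := fun z => (gs i).P.eval z)
      (n := n) (x := p) (s := s) ht₀1 (by omega) ?_ ?_ ?_ hsi
    · simp only [Complex.ofReal_one, one_mul] at hres
      rw [dist_eq_norm]
      linarith
    · apply hMi.contφ.comp (by fun_prop)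
      intro t ht
      show 1 ≤ ‖(t : ℂ) * ζ‖
      rw [hnorm t ht.1]
      exact ht.1
    · intro t ht
      have hmem : ((t : ℂ) * ζ) ∈ CExt := by
        show 1 ≤ ‖(t : ℂ) * ζ‖
        rw [hnorm t ht]
        exact ht
      show (gs i).P.eval (φs i ((t : ℂ) * ζ)) = φs i (((t ^ n : ℝ) : ℂ) * ζ)
      rw [semiC h4 (by omega) hMi _ hmem, mul_pow, hζn, Complex.ofReal_pow]
    · intro t ht1 ht2 ht3
      have hmemK : ((t : ℂ) * ζ) ∈ K := ⟨t, ⟨⟨ht1, ht2⟩, ht3⟩, rfl⟩
      have e1 := hui _ hmemK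
      rw [hEq (hKE hmemK)] at e1
      have e2 := hφc ((t : ℂ) * ζ) (show (1 : ℝ) ≤ ‖(t : ℂ) * ζ‖ from le_of_lt (hKE hmemK)) (by
        have : (t : ℂ) * ζ - ζ = ((t - 1 : ℝ) : ℂ) * ζ := by push_cast; ring
        rw [this, norm_mul, hζ1, mul_one, Complex.norm_real, Real.norm_of_nonneg (by linarith)]
        linarith)
      rw [dist_eq_norm] at e1
      have e3 : φs i ((t : ℂ) * ζ) - p = (aa n g * (φ ((t : ℂ) * ζ) - bb n g) - p) -
          (aa n g * (φ ((t : ℂ) * ζ) - bb n g) - φs i ((t : ℂ) * ζ)) := by ring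
      show ‖φs i ((t : ℂ) * ζ) - p‖ < s
      rw [e3]
      have e4 := norm_sub_le (aa n g * (φ ((t : ℂ) * ζ) - bb n g) - p)
        (aa n g * (φ ((t : ℂ) * ζ) - bb n g) - φs i ((t : ℂ) * ζ))
      linarith
  have hder := quot_lim h3 u hlim hp hland (by
    filter_upwards [hM, hfix1] with i hMi hi
    refine ⟨hi, ?_, circ_ne hMi hζ1 hζ⟩
    have := semiC h4 (by omega) hMi ζ (le_of_eq hζ1.symm)
    rwa [hζn] at this)
  rw [der_hat hg hF, ← hy₀] at hder
  rw [hder, norm_one] at hμ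
  exact lt_irrefl _ hμ

end Pool.Agent.H212.ND
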