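import Pool.Agent.H212.ND.StmC

set_option autoImplicit false

open Filter Metric Set Topology Polynomial
open scoped ComplexConjugate

namespace Pool.Agent.H212.ND

open Pool.Agent.H212.MB

namespace TINaux

/-! ### polynomials -/

noncomputable def prodP {n : ℕ} (A : Blaschke n) : ℂ[X] := ∏ i, (X - C (A.a i))

noncomputable def denP {n : ℕ} (A : Blaschke n) : ℂ[X] := ∏ i, (1 - C (conj (A.a i)) * X)

theorem eval_prodP {n : ℕ} (A : Blaschke n) (z : ℂ) : A.num z = (C A.c * (X * prodP A)).eval z := by
  simp [Blaschke.num, prodP, eval_prod, mul_assoc]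

theorem eval_denP {n : ℕ} (A : Blaschke n) (z : ℂ) : A.den z = (denP A).eval z := by
  simp [Blaschke.den, denP, eval_prod]

theorem monic_prodP {n : ℕ} (A : Blaschke n) : (prodP A).Monic :=
  monic_prod_of_monic _ _ (fun i _ => monic_X_sub_C _)

theorem natDegree_prodP {n : ℕ} (A : Blaschke n) : (prodP A).natDegree = n - 1 := by
  unfold prodP
  rw [natDegree_prod_of_monic _ _ (fun _ _ => monic_X_sub_C _)]
  simp

theorem degree_denP_lt {n : ℕ} (hn : 2 ≤ n) (A : Blaschke n) : (denP A).degree < n := by
  have h1 : (denP A).natDegree ≤ n - 1 := by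
    unfold denP
    refine (natDegree_prod_le _ _).trans ?_
    refine (Finset.sum_le_card_nsmul _ _ 1 ?_).trans ?_
    · intro i _
      refine (natDegree_sub_le _ _).trans ?_
      rw [natDegree_one]
      refine max_le (by norm_num) ?_
      exact (natDegree_C_mul_le _ _).trans natDegree_X_le
    · simp
  refine lt_of_le_of_lt degree_le_natDegree ?_
  exact_mod_cast (by omega : (denP A).natDegree < n)

theorem main_sum {n : ℕ} (hn : 2 ≤ n) (A : Blaschke n) (w : ℂ) (z : Fin n → ℂ) (hz : Function.Injective z)
    (hz0 : ∀ i, z i ≠ 0) (hev : ∀ i, A.num (z i) = w * A.den (z i)) :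
    ∑ i, (A.num (z i) / z i) / (C A.c * (X * prodP A) - C w * denP A).derivative.eval (z i) = 1 := by
  classical
  have hc : A.c ≠ 0 := by
    intro h
    have := A.norm_c
    rw [h, norm_zero] at this
    exact zero_ne_one this
  have hM : (X * prodP A).Monic := monic_X.mul (monic_prodP A)
  have hMd : (X * prodP A).degree = (n : WithBot ℕ) := by
    rw [degree_mul, degree_X, degree_eq_natDegree (monic_prodP A).ne_zero, natDegree_prodP]
    have : (1 : WithBot ℕ) + ((n - 1 : ℕ) : WithBot ℕ) = ((1 + (n - 1) : ℕ) : WithBot ℕ) := by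
      push_cast; rfl
    rw [this]
    congr 1
    omega
  have hN : (Lagrange.nodal Finset.univ z).Monic := Lagrange.nodal_monic
  have hNd : (Lagrange.nodal Finset.univ z).degree = (n : WithBot ℕ) := by
    rw [Lagrange.degree_nodal]; simp
  have hq : C A.c * (X * prodP A) - C w * denP A = C A.c * Lagrange.nodal Finset.univ z := by
    rw [← sub_eq_zero]
    refine Polynomial.eq_zero_of_degree_lt_of_eval_index_eq_zero (v := z) (Finset.univ : Finset (Fin n))
      (hz.injOn) ?_ ?_
    · have e : C A.c * (X * prodP A) - C w * denP A - C A.c * Lagrange.nodal Finset.univ z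
          = C A.c * (X * prodP A - Lagrange.nodal Finset.univ z) - C w * denP A := by ring
      rw [e]
      refine lt_of_le_of_lt (degree_sub_le _ _) (max_lt ?_ ?_)
      · rw [degree_C_mul hc]
        refine lt_of_lt_of_eq (degree_sub_lt_left (by rw [hMd, hNd]) hM.ne_zero ?_) ?_
        · rw [hM.leadingCoeff, hN.leadingCoeff]
        · rw [hMd]; simp
      · refine lt_of_le_of_lt ((degree_mul_le _ _).trans ((add_le_add degree_C_le le_rfl).trans (zero_add _).le)) ?_
        refine lt_of_lt_of_eq (degree_denP_lt hn A) ?_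
        simp
    · intro i _
      rw [eval_sub, eval_sub, ← eval_prodP, eval_mul, eval_C, ← eval_denP, hev i, eval_mul,
        Lagrange.eval_nodal_at_node (Finset.mem_univ i)]
      ring
  have hL := Lagrange.coeff_eq_sum (s := Finset.univ) (v := z) (P := C A.c * prodP A)
    (hz.injOn) (by
      rw [degree_C_mul hc, degree_eq_natDegree (monic_prodP A).ne_zero, natDegree_prodP]
      have : n - 1 < n := by omega
      simpa using this)
  have hcoef : (C A.c * prodP A).coeff ((Finset.univ : Finset (Fin n)).card - 1) = A.c := by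
    rw [coeff_C_mul]
    have : (prodP A).coeff ((Finset.univ : Finset (Fin n)).card - 1) = 1 := by
      have h := (monic_prodP A).coeff_natDegree
      rw [natDegree_prodP] at h
      simpa using h
    rw [this, mul_one]
  rw [hcoef] at hL
  have hterm : ∀ i, (A.num (z i) / z i) / (C A.c * (X * prodP A) - C w * denP A).derivative.eval (z i)
      = (A.c)⁻¹ * ((C A.c * prodP A).eval (z i) / ∏ j ∈ Finset.univ.erase i, (z i - z j)) := by
    intro i
    rw [hq, derivative_C_mul, eval_C_mul, Lagrange.eval_nodal_derivative_eval_node_eq (Finset.mem_univ i),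
      Lagrange.eval_nodal, eval_prodP]
    have e : (C A.c * (X * prodP A)).eval (z i) / z i = (C A.c * prodP A).eval (z i) := by
      simp only [eval_mul, eval_C, eval_X]
      field_simp [hz0 i]
    rw [e]
    field_simp
  rw [Finset.sum_congr rfl (fun i _ => hterm i), ← Finset.mul_sum, ← hL]
  exact inv_mul_cancel₀ hc

/-! ### the lift -/

/-- The data of the lift `β` of `A` with `β (t x) = t (n x)`. -/
structure Dat (n : ℕ) (A : Blaschke n) (t β : ℝ → ℝ) : Prop where
  smooth : ContDiff ℝ 1 β
  pos : ∀ x, 0 < deriv β x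
  semi : ∀ x, β (t x) = t (n * x)
  ev : ∀ x : ℝ, A.den (Complex.exp (x * Complex.I)) ≠ 0 ∧
    Complex.exp (β x * Complex.I) = A.ev (Complex.exp (x * Complex.I))

theorem t_int {t : ℝ → ℝ} (hper : ∀ x, t (x + 2 * Real.pi) = t x + 2 * Real.pi) (x : ℝ) (k : ℤ) :
    t (x + k * (2 * Real.pi)) = t x + k * (2 * Real.pi) := by
  have h : Function.Periodic (fun x => t x - x) (2 * Real.pi) := by
    intro x
    simp only [hper]
    ring
  have := h.int_mul k x
  linarith

/-- existence of the lift -/
theorem exists_dat (h1 : MB.S_LIFT) {n : ℕ} (hn : 2 ≤ n) (A : Blaschke n) {t : ℝ → ℝ} (ht : Continuous t)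
    (hev : ∀ x : ℝ, Complex.exp (t (n * x) * Complex.I) = A.ev (Complex.exp (t x * Complex.I))) :
    ∃ β : ℝ → ℝ, Dat n A t β := by
  obtain ⟨η₀, α, x₀, hα⟩ := h1 n hn A
  have hopen : IsOpen (SH η₀) := by
    unfold SH
    exact isOpen_lt (by fun_prop) continuous_const
  have hmem : ∀ x : ℝ, (x : ℂ) ∈ SH η₀ := fun x => by
    simp [SH, hα.lift.pos]
  have hre : ∀ x : ℝ, ((α x).re : ℂ) = α x := fun x => by
    apply Complex.ext <;> simp [hα.lift.real x]
  set γ : ℝ → ℝ := fun x => (α x).re with hγ
  have hαd : ∀ x : ℝ, HasDerivAt α (deriv α x) (x : ℂ) := fun x =>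
    ((hα.lift.diff x (hmem x)).differentiableAt (hopen.mem_nhds (hmem x))).hasDerivAt
  have hγd : ∀ x : ℝ, HasDerivAt γ (deriv α x).re x := fun x => (hαd x).real_of_complex
  have hγs : ContDiff ℝ 1 γ := by
    have c1 : ContDiffOn ℂ 1 α (SH η₀) := hα.lift.diff.contDiffOn hopen
    have c2 : ContDiffOn ℝ 1 α (SH η₀) := c1.restrict_scalars ℝ
    have c3 : ContDiffOn ℝ 1 (fun x : ℝ => α x) univ :=
      c2.comp (Complex.ofRealCLM.contDiff.contDiffOn) (fun x _ => hmem x)
    have c4 : ContDiff ℝ 1 (fun x : ℝ => α x) := contDiffOn_univ.1 c3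
    exact Complex.reCLM.contDiff.comp c4
  have hγev : ∀ x : ℝ, A.den (Complex.exp (x * Complex.I)) ≠ 0 ∧
      Complex.exp (γ x * Complex.I) = A.ev (Complex.exp (x * Complex.I)) := by
    intro x
    have := hα.ev x (hmem x)
    rw [mul_comm (Complex.I) (x : ℂ), mul_comm Complex.I (α x)] at this
    rw [hγ]
    simp only [hre]
    exact this
  -- the difference is constant
  have hint : ∀ x : ℝ, ∃ k : ℤ, γ (t x) = t (n * x) + k * (2 * Real.pi) := by
    intro x
    have e : Complex.exp (γ (t x) * Complex.I) = Complex.exp (t (n * x) * Complex.I) := by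
      rw [(hγev (t x)).2, hev]
    rw [Complex.exp_eq_exp_iff_exists_int] at e
    obtain ⟨k, hk⟩ := e
    refine ⟨k, ?_⟩
    have h2 : ((γ (t x) : ℂ) - t (n * x) - k * (2 * Real.pi)) * Complex.I = 0 := by
      linear_combination hk
    rcases mul_eq_zero.1 h2 with h3 | h3
    · have h4 : ((γ (t x) - t (n * x) - k * (2 * Real.pi) : ℝ) : ℂ) = 0 := by
        push_cast
        exact h3
      have h5 := Complex.ofReal_eq_zero.1 h4
      linarith
    · exact absurd h3 Complex.I_ne_zero
  set D : ℝ → ℝ := fun x => (γ (t x) - t (n * x)) / (2 * Real.pi) with hD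
  have hDc : Continuous D := by
    have : Continuous γ := hγs.continuous
    fun_prop
  have hDi : ∀ x, ∃ k : ℤ, D x = k := by
    intro x
    obtain ⟨k, hk⟩ := hint x
    refine ⟨k, ?_⟩
    rw [hD]
    simp only [hk]
    field_simp
    ring
  have hDconst : ∀ x, D x = D 0 := by
    choose K hK using hDi
    have hKc : Continuous K := by
      have h6 : Continuous (fun x => (K x : ℝ)) := by
        have : (fun x => (K x : ℝ)) = D := by ext x; exact (hK x).symm
        rw [this]; exact hDc
      exact (Int.isClosedEmbedding_coe_real.isInducing.continuous_iff).2 h6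
    intro x
    rw [hK, hK]
    congr 1
    exact (PreconnectedSpace.constant (inferInstance : PreconnectedSpace ℝ) hKc)
  obtain ⟨k, hk⟩ := hDi 0
  refine ⟨fun x => γ x - k * (2 * Real.pi), ?_, ?_, ?_, ?_⟩
  · exact hγs.sub contDiff_const
  · intro x
    have : HasDerivAt (fun x => γ x - k * (2 * Real.pi)) (deriv α x).re x := (hγd x).sub_const _
    rw [this.deriv]
    exact lt_trans one_pos (hα.lift.expd x)
  · intro x
    have h7 := hDconst x
    rw [hk] at h7
    rw [hD] at h7
    simp only at h7
    have hpi : (2 * Real.pi) ≠ 0 := by positivity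
    rw [div_eq_iff hpi] at h7
    linarith
  · intro x
    refine ⟨(hγev x).1, ?_⟩
    rw [← (hγev x).2]
    rw [Complex.exp_eq_exp_iff_exists_int]
    refine ⟨-k, ?_⟩
    push_cast
    ring

/-- `t` is `C¹` -/
theorem t_smooth {n : ℕ} (hn : 2 ≤ n) {A : Blaschke n} {t β : ℝ → ℝ} (hD : Dat n A t β)
    (hper : ∀ x, t (x + 2 * Real.pi) = t x + 2 * Real.pi) {a b : ℝ} (hab : a < b)
    (hs : ContDiffOn ℝ 1 t (Ioo a b)) : ContDiff ℝ 1 t := by
  rw [contDiff_iff_contDiffAt]
  intro x
  have hn1 : (1 : ℝ) < n := by exact_mod_cast hn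
  obtain ⟨m, hm⟩ := pow_unbounded_of_one_lt (2 * Real.pi / (b - a)) hn1
  have hpos : (0 : ℝ) < (n : ℝ) ^ m := by positivity
  have hba : 0 < b - a := by linarith
  have hm2 : 2 * Real.pi < n ^ m * (b - a) := by
    rwa [div_lt_iff₀ hba] at hm
  have hpi : 0 < 2 * Real.pi := by positivity
  set k : ℤ := ⌊(a * n ^ m - x) / (2 * Real.pi)⌋ + 1 with hk
  have hk1 : a * n ^ m < x + k * (2 * Real.pi) := by
    have := Int.lt_floor_add_one ((a * n ^ m - x) / (2 * Real.pi))
    rw [div_lt_iff₀ hpi] at this
    rw [hk]
    push_cast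
    linarith
  have hk2 : x + k * (2 * Real.pi) < b * n ^ m := by
    have := Int.floor_le ((a * n ^ m - x) / (2 * Real.pi))
    rw [le_div_iff₀ hpi] at this
    rw [hk]
    push_cast
    nlinarith
  set x' : ℝ := (x + k * (2 * Real.pi)) / n ^ m with hx'
  have hmem : x' ∈ Ioo a b := by
    constructor
    · rw [hx', lt_div_iff₀ hpos]; exact hk1
    · rw [hx', div_lt_iff₀ hpos]; exact hk2
  have hiter : ∀ (m : ℕ) (z : ℝ), β^[m] (t z) = t (n ^ m * z) := by
    intro m
    induction m with
    | zero => intro z; simp
    | succ m ih =>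
      intro z
      rw [Function.iterate_succ_apply, hD.semi, ih]
      congr 1
      ring
  have hβm : ∀ m : ℕ, ContDiff ℝ 1 (β^[m]) := by
    intro m
    induction m with
    | zero => exact contDiff_id
    | succ m ih => rw [Function.iterate_succ]; exact ih.comp hD.smooth
  have hid : t = fun y => β^[m] (t ((y + k * (2 * Real.pi)) / n ^ m)) - k * (2 * Real.pi) := by
    ext y
    rw [hiter]
    have : (n : ℝ) ^ m * ((y + k * (2 * Real.pi)) / n ^ m) = y + k * (2 * Real.pi) := by
      field_simp
    rw [this, t_int hper]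
    ring
  rw [hid]
  have ht1 : ContDiffAt ℝ 1 t ((x + k * (2 * Real.pi)) / n ^ m) :=
    hs.contDiffAt (isOpen_Ioo.mem_nhds hmem)
  have ht2 : ContDiffAt ℝ 1 (fun y => t ((y + k * (2 * Real.pi)) / n ^ m)) x :=
    ContDiffAt.comp x ht1 (by fun_prop)
  exact ((hβm m).contDiffAt.comp x ht2).sub contDiffAt_const

/-- the sum of the inverse derivatives -/
theorem sum_inv {n : ℕ} (hn : 2 ≤ n) {A : Blaschke n} {t β : ℝ → ℝ} (hD : Dat n A t β) (htm : StrictMono t)
    (hper : ∀ x, t (x + 2 * Real.pi) = t x + 2 * Real.pi)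
    (hev : ∀ x : ℝ, Complex.exp (t (n * x) * Complex.I) = A.ev (Complex.exp (t x * Complex.I))) (x : ℝ) :
    ∑ i : Fin n, (deriv β (t (x + 2 * Real.pi * i / n)))⁻¹ = 1 := by
  have hn0 : (0 : ℝ) < n := by positivity
  have hpi : 0 < 2 * Real.pi := by positivity
  set y : Fin n → ℝ := fun i => t (x + 2 * Real.pi * i / n) with hy
  set z : Fin n → ℂ := fun i => Complex.exp (y i * Complex.I) with hz
  set w : ℂ := Complex.exp (t (n * x) * Complex.I) with hw
  have hz0 : ∀ i, z i ≠ 0 := fun i => Complex.exp_ne_zero _
  have hyb : ∀ i, t x ≤ y i ∧ y i < t x + 2 * Real.pi := by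
    intro i
    have hi : (0 : ℝ) ≤ i := by positivity
    have hi2 : ((i : ℕ) : ℝ) < n := by exact_mod_cast i.2
    constructor
    · apply htm.monotone
      have : 0 ≤ 2 * Real.pi * i / n := by positivity
      linarith
    · rw [← hper]
      apply htm
      have : 2 * Real.pi * i / n < 2 * Real.pi := by
        rw [div_lt_iff₀ hn0]
        nlinarith
      linarith
  have hinj : Function.Injective z := by
    intro i j hij
    simp only [hz] at hij
    rw [Complex.exp_eq_exp_iff_exists_int] at hij
    obtain ⟨k, hk⟩ := hij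
    have h2 : ((y i : ℂ) - y j - k * (2 * Real.pi)) * Complex.I = 0 := by
      linear_combination hk
    have h3 : y i - y j = k * (2 * Real.pi) := by
      rcases mul_eq_zero.1 h2 with h3 | h3
      · have h4 : ((y i - y j - k * (2 * Real.pi) : ℝ) : ℂ) = 0 := by
          push_cast
          exact h3
        have h5 := Complex.ofReal_eq_zero.1 h4
        linarith
      · exact absurd h3 Complex.I_ne_zero
    have hk0 : k = 0 := by
      have b1 := hyb i
      have b2 := hyb j
      have c1 : (k : ℝ) * (2 * Real.pi) < 1 * (2 * Real.pi) := by linarith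
      have c2 : (-1 : ℝ) * (2 * Real.pi) < (k : ℝ) * (2 * Real.pi) := by linarith
      have d1 := lt_of_mul_lt_mul_right c1 hpi.le
      have d2 := lt_of_mul_lt_mul_right c2 hpi.le
      have e1 : k < 1 := by exact_mod_cast d1
      have e2 : -1 < k := by exact_mod_cast d2
      omega
    rw [hk0] at h3
    have h6 : y i = y j := by
      have : y i - y j = 0 := by rw [h3]; simp
      linarith
    have h7 := htm.injective h6
    have h8 : (i : ℝ) = j := by
      have : 2 * Real.pi * (i : ℝ) / n = 2 * Real.pi * j / n := by linarith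
      field_simp at this
      exact this
    exact Fin.ext (by exact_mod_cast h8)
  have hden : ∀ i, A.den (z i) ≠ 0 := fun i => (hD.ev (y i)).1
  have hwz : ∀ i, A.ev (z i) = w := by
    intro i
    rw [hz, hy]
    simp only
    rw [← hev, hw]
    have : (n : ℝ) * (x + 2 * Real.pi * i / n) = n * x + ((i : ℕ) : ℤ) * (2 * Real.pi) := by
      push_cast
      field_simp
    rw [this, t_int hper, Complex.exp_eq_exp_iff_exists_int]
    refine ⟨(i : ℕ), ?_⟩
    push_cast
    ring
  have hnum : ∀ i, A.num (z i) = w * A.den (z i) := by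
    intro i
    have := hwz i
    unfold Blaschke.ev at this
    rw [div_eq_iff (hden i)] at this
    exact this
  have hmain := main_sum hn A w z hinj hz0 hnum
  have hterm : ∀ i, (A.num (z i) / z i) / (C A.c * (X * prodP A) - C w * denP A).derivative.eval (z i)
      = (((deriv β (y i))⁻¹ : ℝ) : ℂ) := by
    intro i
    have hNd : HasDerivAt A.num ((C A.c * (X * prodP A)).derivative.eval (z i)) (z i) := by
      have : A.num = fun z => (C A.c * (X * prodP A)).eval z := by ext z; exact eval_prodP A z
      rw [this]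
      exact Polynomial.hasDerivAt _ _
    have hDd : HasDerivAt A.den ((denP A).derivative.eval (z i)) (z i) := by
      have : A.den = fun z => (denP A).eval z := by ext z; exact eval_denP A z
      rw [this]
      exact Polynomial.hasDerivAt _ _
    have hEd := hNd.div hDd (hden i)
    have hEd' : HasDerivAt A.ev ((C A.c * (X * prodP A) - C w * denP A).derivative.eval (z i) / A.den (z i)) (z i) := by
      have e : A.ev = fun z => A.num z / A.den z := rfl
      have hval : (C A.c * (X * prodP A) - C w * denP A).derivative.eval (z i) / A.den (z i) =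
          ((C A.c * (X * prodP A)).derivative.eval (z i) * A.den (z i) -
            A.num (z i) * (denP A).derivative.eval (z i)) / A.den (z i) ^ 2 := by
        have hd0 := hden i
        rw [div_eq_div_iff hd0 (pow_ne_zero 2 hd0), hnum i, derivative_sub, eval_sub,
          derivative_C_mul (a := w), eval_C_mul]
        ring
      rw [e, hval]
      exact hEd
    have hb : HasDerivAt β (deriv β (y i)) (y i) :=
      ((hD.smooth.differentiable (by norm_num)) (y i)).hasDerivAt
    have hl : HasDerivAt (fun v : ℝ => Complex.exp (β v * Complex.I))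
        (Complex.exp (β (y i) * Complex.I) * (((deriv β (y i) : ℝ) : ℂ) * Complex.I)) (y i) := by
      have h1 : HasDerivAt (fun v : ℝ => ((β v : ℝ) : ℂ)) ((deriv β (y i) : ℝ) : ℂ) (y i) := hb.ofReal_comp
      exact (h1.mul_const Complex.I).cexp
    have hr : HasDerivAt (fun v : ℝ => A.ev (Complex.exp (v * Complex.I)))
        ((C A.c * (X * prodP A) - C w * denP A).derivative.eval (z i) / A.den (z i) *
          (Complex.exp (y i * Complex.I) * (1 * Complex.I))) (y i) := by
      have h1 : HasDerivAt (fun v : ℝ => ((v : ℝ) : ℂ)) ((1 : ℝ) : ℂ) (y i) := (hasDerivAt_id (y i)).ofReal_comp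
      have h2 : HasDerivAt (fun v : ℝ => Complex.exp (v * Complex.I)) (Complex.exp (y i * Complex.I) * (1 * Complex.I)) (y i) := by
        have := (h1.mul_const Complex.I).cexp
        simpa using this
      exact HasDerivAt.comp (y i) hEd' h2
    have hfe : (fun v : ℝ => Complex.exp (β v * Complex.I)) = fun v : ℝ => A.ev (Complex.exp (v * Complex.I)) := by
      ext v; exact (hD.ev v).2
    rw [hfe] at hl
    have hu := hl.unique hr
    have hwi : Complex.exp (β (y i) * Complex.I) = w := by rw [(hD.ev (y i)).2]; exact hwz i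
    rw [hwi] at hu
    have hzi : Complex.exp (y i * Complex.I) = z i := rfl
    rw [hzi] at hu
    set Q : ℂ := (C A.c * (X * prodP A) - C w * denP A).derivative.eval (z i) with hQ
    have hw0 : w ≠ 0 := Complex.exp_ne_zero _
    have hb0 : ((deriv β (y i) : ℝ) : ℂ) ≠ 0 := by exact_mod_cast (hD.pos (y i)).ne'
    have hu2 : w * ((deriv β (y i) : ℝ) : ℂ) = Q / A.den (z i) * z i := by
      have := hu
      have hI := Complex.I_ne_zero
      apply mul_right_cancel₀ hI
      linear_combination this
    have hd := hden i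
    have hz0i := hz0 i
    have hQ0 : Q ≠ 0 := by
      intro h
      rw [h] at hu2
      simp at hu2
      rcases hu2 with h | h
      · exact hw0 h
      · exact hb0 (by exact_mod_cast h)
    push_cast
    rw [hnum i]
    rw [← one_div, eq_div_iff hb0]
    have hu3 : w * ((deriv β (y i) : ℝ) : ℂ) * A.den (z i) = Q * z i := by
      rw [hu2]; field_simp
    field_simp
    linear_combination hu3
  rw [Finset.sum_congr rfl (fun i _ => hterm i), ← Complex.ofReal_sum] at hmain
  exact_mod_cast hmain

end TINaux

open TINaux in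
theorem t_TIN (h1 : MB.S_LIFT) (h2 : MB.S_BL) : S_TIN := by
  intro n A t a b hn hab htc htm hper hev hs
  obtain ⟨β, hD⟩ := exists_dat h1 hn A htc hev
  have hn0 : (0 : ℝ) < n := by positivity
  have hn1 : (1 : ℝ) < n := by exact_mod_cast hn
  have hpi : 0 < 2 * Real.pi := by positivity
  have hts := t_smooth hn hD hper hab hs
  have htd : ∀ x, HasDerivAt t (deriv t x) x := fun x =>
    ((hts.differentiable (by norm_num)) x).hasDerivAt
  have hu : Continuous (deriv t) := hts.continuous_deriv (by norm_num)
  have hbd : ∀ x, HasDerivAt β (deriv β x) x := fun x =>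
    ((hD.smooth.differentiable (by norm_num)) x).hasDerivAt
  -- periodicity of the derivative
  have hup : Function.Periodic (deriv t) (2 * Real.pi) := by
    intro x
    have e1 : (fun x => t (x + 2 * Real.pi)) = fun x => t x + 2 * Real.pi := by ext x; exact hper x
    have e2 : deriv (fun x => t (x + 2 * Real.pi)) x = deriv t (x + 2 * Real.pi) := deriv_comp_add_const _ _ _
    rw [← e2, e1, deriv_add_const]
  -- the functional equation
  have hfe : ∀ x, n * deriv t (n * x) = deriv β (t x) * deriv t x := by
    intro x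
    have d1 : HasDerivAt (fun y => t (n * y)) (deriv t (n * x) * n) x := by
      have hl : HasDerivAt (fun y : ℝ => (n : ℝ) * y) (n : ℝ) x := by
        simpa using (hasDerivAt_id x).const_mul (n : ℝ)
      exact (htd (n * x)).comp x hl
    have d2 : HasDerivAt (fun y => β (t y)) (deriv β (t x) * deriv t x) x := (hbd (t x)).comp x (htd x)
    have e : (fun y => β (t y)) = fun y => t (n * y) := by ext y; exact hD.semi y
    rw [e] at d2
    have := d1.unique d2
    linarith
  have havg : ∀ x, ∑ i : Fin n, deriv t (x + 2 * Real.pi * i / n) = n * deriv t (n * x) := by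
    intro x
    have hs1 := sum_inv hn hD htm hper hev x
    have : ∀ i : Fin n, deriv t (x + 2 * Real.pi * i / n) =
        n * deriv t (n * x) * (deriv β (t (x + 2 * Real.pi * i / n)))⁻¹ := by
      intro i
      have h3 := hfe (x + 2 * Real.pi * i / n)
      have h4 : (n : ℝ) * (x + 2 * Real.pi * i / n) = n * x + ((i : ℕ) : ℝ) * (2 * Real.pi) := by
        field_simp
      rw [h4, hup.nat_mul (i : ℕ) (n * x)] at h3
      have h5 := (hD.pos (t (x + 2 * Real.pi * i / n))).ne'
      rw [h3]
      exact (mul_inv_cancel_left₀ h5 _).symm.trans (by ring)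
    rw [Finset.sum_congr rfl (fun i _ => this i), ← Finset.mul_sum, hs1, mul_one]
  -- the maximum
  obtain ⟨y₀, -, hy₀⟩ := isCompact_Icc.exists_isMaxOn (s := Icc (0 : ℝ) (2 * Real.pi))
    (nonempty_Icc.2 hpi.le) hu.continuousOn
  set M := deriv t y₀ with hM
  have hmax : ∀ x, deriv t x ≤ M := by
    intro x
    obtain ⟨y, hy, hxy⟩ := hup.exists_mem_Ico₀ hpi x
    rw [hxy]
    exact hy₀ ⟨hy.1, hy.2.le⟩
  have hstep : ∀ x, deriv t (n * x) = M → deriv t x = M := by
    intro x hx
    by_contra hne
    have hlt : deriv t x < M := lt_of_le_of_ne (hmax x) hne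
    have h6 := havg x
    rw [hx] at h6
    have h7 : ∑ i : Fin n, deriv t (x + 2 * Real.pi * i / n) < ∑ _i : Fin n, M := by
      apply Finset.sum_lt_sum
      · intro i _; exact hmax _
      · refine ⟨⟨0, by omega⟩, Finset.mem_univ _, ?_⟩
        simpa using hlt
    rw [h6] at h7
    simp at h7
  have hall : ∀ (m : ℕ) (k : ℤ), deriv t ((y₀ + k * (2 * Real.pi)) / n ^ m) = M := by
    intro m
    induction m with
    | zero => intro k; simp only [pow_zero, div_one]; exact hup.int_mul k y₀
    | succ m ih =>
      intro k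
      apply hstep
      have : (n : ℝ) * ((y₀ + k * (2 * Real.pi)) / n ^ (m + 1)) = (y₀ + k * (2 * Real.pi)) / n ^ m := by
        have hne : (n : ℝ) ^ m ≠ 0 := by positivity
        rw [pow_succ, mul_div_assoc', div_eq_div_iff (by positivity) hne]
        ring
      rw [this]
      exact ih k
  have hconst : ∀ x, deriv t x = M := by
    intro x
    have hseq : Tendsto (fun m : ℕ => (y₀ + (round ((n ^ m * x - y₀) / (2 * Real.pi)) : ℤ) * (2 * Real.pi)) / n ^ m)
        atTop (𝓝 x) := by
      rw [tendsto_iff_norm_sub_tendsto_zero]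
      have hb : ∀ m : ℕ, ‖(y₀ + (round ((n ^ m * x - y₀) / (2 * Real.pi)) : ℤ) * (2 * Real.pi)) / n ^ m - x‖
          ≤ (2 * Real.pi) * ((n : ℝ)⁻¹) ^ m := by
        intro m
        have hpos : (0 : ℝ) < (n : ℝ) ^ m := by positivity
        set v := (n ^ m * x - y₀) / (2 * Real.pi) with hv
        have h8 := abs_sub_round v
        have h9 : (y₀ + (round v : ℤ) * (2 * Real.pi)) / n ^ m - x = - (v - round v) * (2 * Real.pi) / n ^ m := by
          have : (n : ℝ) ^ m * x = v * (2 * Real.pi) + y₀ := by rw [hv]; field_simp; ring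
          rw [eq_div_iff hpos.ne', sub_mul, div_mul_cancel₀ _ hpos.ne', mul_comm x, this]
          ring
        rw [h9, norm_div, norm_mul, norm_neg, Real.norm_of_nonneg hpi.le, Real.norm_of_nonneg hpos.le, inv_pow,
          ← div_eq_mul_inv]
        have h12 : ‖v - round v‖ * (2 * Real.pi) ≤ 2 * Real.pi := by
          rw [Real.norm_eq_abs]
          nlinarith
        exact div_le_div_of_nonneg_right h12 hpos.le
      refine squeeze_zero (fun _ => norm_nonneg _) hb ?_
      have := (tendsto_pow_atTop_nhds_zero_of_lt_one (inv_nonneg.2 hn0.le) (inv_lt_one_of_one_lt₀ hn1)).const_mul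
        (2 * Real.pi)
      simpa using this
    have h10 := (hu.tendsto x).comp hseq
    have h11 : (deriv t ∘ fun m : ℕ => (y₀ + (round ((n ^ m * x - y₀) / (2 * Real.pi)) : ℤ) * (2 * Real.pi)) / n ^ m)
        = fun _ => M := by
      ext m; exact hall m _
    rw [h11] at h10
    exact tendsto_nhds_unique h10 tendsto_const_nhds
  -- `t` is affine
  have haff : ∀ x, t x = M * x + t 0 := by
    have hdiff : Differentiable ℝ (fun x => t x - M * x) := by
      intro x
      exact ((htd x).differentiableAt).sub ((differentiableAt_id).const_mul M)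
    have hd0 : ∀ x, deriv (fun x => t x - M * x) x = 0 := by
      intro x
      have hl : HasDerivAt (fun y : ℝ => M * y) M x := by
        simpa using (hasDerivAt_id x).const_mul M
      have h12 : HasDerivAt (fun x => t x - M * x) (deriv t x - M) x := (htd x).sub hl
      rw [h12.deriv, hconst x, sub_self]
    intro x
    have := is_const_of_deriv_eq_zero hdiff hd0 x 0
    simp only [mul_zero, sub_zero] at this
    linarith
  have hM1 : M = 1 := by
    have h12 := hper 0
    rw [haff (0 + 2 * Real.pi)] at h12
    have h13 : (M - 1) * (2 * Real.pi) = 0 := by linarith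
    rcases mul_eq_zero.1 h13 with h | h
    · linarith
    · exact absurd h hpi.ne'
  have ht1 : ∀ x, t x = x + t 0 := by
    intro x
    have := haff x
    rw [hM1, one_mul] at this
    exact this
  -- the polynomial identity
  set κ : ℂ := Complex.exp ((t 0 - n * t 0 : ℝ) * Complex.I) with hκ
  have hcirc : ∀ s : ℝ, (C A.c * (X * prodP A) - C κ * X ^ n * denP A).eval (Complex.exp (s * Complex.I)) = 0 := by
    intro s
    have h14 := hev (s - t 0)
    rw [ht1 (s - t 0), ht1 (n * (s - t 0))] at h14
    have e1 : s - t 0 + t 0 = s := by ring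
    rw [e1] at h14
    have hden := (hD.ev s).1
    unfold Blaschke.ev at h14
    rw [eq_div_iff hden] at h14
    rw [eval_sub, ← eval_prodP, eval_mul, eval_mul, eval_C, eval_pow, eval_X, ← eval_denP, ← h14]
    have h15 : Complex.exp ((n * (s - t 0) + t 0 : ℝ) * Complex.I) = κ * Complex.exp (s * Complex.I) ^ n := by
      rw [hκ, ← Complex.exp_nat_mul, ← Complex.exp_add]
      congr 1
      push_cast
      ring
    rw [h15]
    ring
  have hzero : C A.c * (X * prodP A) - C κ * X ^ n * denP A = 0 := by
    apply Polynomial.eq_zero_of_infinite_isRoot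
    have hinj : Set.InjOn (fun s : ℝ => Complex.exp (s * Complex.I)) (Ico 0 (2 * Real.pi)) := by
      intro s hs1 s' hs2 hss
      simp only at hss
      rw [Complex.exp_eq_exp_iff_exists_int] at hss
      obtain ⟨k, hk⟩ := hss
      have h2 : ((s : ℂ) - s' - k * (2 * Real.pi)) * Complex.I = 0 := by
        linear_combination hk
      have h3 : s - s' = k * (2 * Real.pi) := by
        rcases mul_eq_zero.1 h2 with h3 | h3
        · have h4 : ((s - s' - k * (2 * Real.pi) : ℝ) : ℂ) = 0 := by
            push_cast
            exact h3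
          have h5 := Complex.ofReal_eq_zero.1 h4
          linarith
        · exact absurd h3 Complex.I_ne_zero
      have hk0 : k = 0 := by
        have c1 : (k : ℝ) * (2 * Real.pi) < 1 * (2 * Real.pi) := by linarith [hs1.1, hs1.2, hs2.1, hs2.2]
        have c2 : (-1 : ℝ) * (2 * Real.pi) < (k : ℝ) * (2 * Real.pi) := by linarith [hs1.1, hs1.2, hs2.1, hs2.2]
        have d1 := lt_of_mul_lt_mul_right c1 hpi.le
        have d2 := lt_of_mul_lt_mul_right c2 hpi.le
        have e1 : k < 1 := by exact_mod_cast d1
        have e2 : -1 < k := by exact_mod_cast d2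
        omega
      rw [hk0] at h3
      simp at h3
      linarith
    have hinf : ((fun s : ℝ => Complex.exp (s * Complex.I)) '' (Ico 0 (2 * Real.pi))).Infinite :=
      (Set.Ico_infinite hpi).image hinj
    refine hinf.mono ?_
    rintro _ ⟨s, -, rfl⟩
    exact hcirc s
  intro i
  have h16 : (C A.c * (X * prodP A) - C κ * X ^ n * denP A).eval (A.a i) = 0 := by rw [hzero, eval_zero]
  rw [eval_sub, eval_mul, eval_mul, eval_mul, eval_mul, eval_C, eval_C, eval_pow, eval_X] at h16
  have h17 : (prodP A).eval (A.a i) = 0 := by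
    unfold prodP
    rw [eval_prod]
    exact Finset.prod_eq_zero (Finset.mem_univ i) (by simp)
  have h18 : (denP A).eval (A.a i) ≠ 0 := by
    unfold denP
    rw [eval_prod, Finset.prod_ne_zero_iff]
    intro j _
    simp only [eval_sub, eval_one, eval_mul, eval_C, eval_X]
    intro h
    have h19 : conj (A.a j) * A.a i = 1 := by linear_combination -h
    have h20 : ‖conj (A.a j) * A.a i‖ < 1 := by
      rw [norm_mul, RCLike.norm_conj]
      have b1 := A.norm_a j
      have b2 := A.norm_a i
      have b3 := norm_nonneg (A.a j)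
      have b4 := norm_nonneg (A.a i)
      nlinarith
    rw [h19, norm_one] at h20
    exact lt_irrefl _ h20
  rw [h17, mul_zero, mul_zero, zero_sub, neg_eq_zero] at h16
  have hκ0 : κ ≠ 0 := Complex.exp_ne_zero _
  rcases mul_eq_zero.1 h16 with h | h
  · rcases mul_eq_zero.1 h with h | h
    · exact absurd h hκ0
    · exact pow_eq_zero_iff (by omega) |>.1 h
  · exact absurd h h18

end Pool.Agent.H212.ND
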