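import Pool.Agent.H212.ND.StmC

/-!
# Project ND (MP_395436_an): the tangential links
-/

set_option autoImplicit false

open Filter Metric Set Topology Polynomial
open scoped ComplexConjugate

namespace Pool.Agent.H212.ND

open Pool.Agent.H212.MB

namespace TNLaux

variable {n : ℕ} {g : ℂ[X]} {c₀ : ℝ} {c : ℂ}

/-! ### The parameters -/

theorem aa_ne (hg : Good n g c₀ c) : aa n g ≠ 0 := by
  unfold aa
  exact_mod_cast (Real.rpow_pos_of_pos hg.lead _).ne'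

theorem aa_pow (hg : Good n g c₀ c) : aa n g ^ (n - 1) = g.coeff n := by
  have h3 := hg.n3
  unfold aa
  rw [← Complex.ofReal_pow, ← Real.rpow_natCast, ← Real.rpow_mul hg.lead.le]
  have h4 : 1 / ((n : ℝ) - 1) * ((n - 1 : ℕ) : ℝ) = 1 := by
    rw [Nat.cast_sub (by omega), Nat.cast_one]
    have : (n : ℝ) - 1 ≠ 0 := by
      have : (3 : ℝ) ≤ n := by exact_mod_cast h3
      linarith
    field_simp
  rw [h4, Real.rpow_one]
  apply Complex.ext
  · simp
  · simp [hg.real n]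

theorem coeff_ne (hg : Good n g c₀ c) : g.coeff n ≠ 0 := by
  intro h
  have := hg.lead
  rw [h] at this
  simp at this

theorem ap_ne (hg : Good n g c₀ c) (P : ℂ) : ap n g P ≠ 0 := by
  unfold ap
  exact mul_ne_zero (aa_ne hg) (Complex.exp_ne_zero _)

theorem ap_pow (hg : Good n g c₀ c) (P : ℂ) :
    ap n g P ^ (n - 1) / g.coeff n = Complex.exp (2 * Real.pi * Complex.I / P) := by
  have h3 := hg.n3
  unfold ap
  rw [mul_pow, aa_pow hg, ← Complex.exp_nat_mul, mul_div_assoc, mul_comm,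
    div_mul_cancel₀ _ (coeff_ne hg)]
  congr 1
  have h4 : ((n - 1 : ℕ) : ℂ) = (n : ℂ) - 1 := by
    rw [Nat.cast_sub (by omega), Nat.cast_one]
  have h5 : (n : ℂ) - 1 ≠ 0 := by
    rw [← h4]
    exact_mod_cast (by omega : n - 1 ≠ 0)
  rw [h4]
  rcases eq_or_ne P 0 with rfl | hP
  · simp
  · field_simp

theorem ev_F {F : ℂ → RMap n} (hg : Good n g c₀ c) (hF : Fam n g F) (P z : ℂ) :
    (F (ap n g P)).ev z = ap n g P * (pl g P (z / ap n g P + bb n g) - bb n g) := by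
  unfold RMap.ev
  rw [hF.Q, hF.ev _ _ (ap_ne hg P), ap_pow hg, Polynomial.eval_one, div_one]
  rfl

theorem iter_F {F : ℂ → RMap n} (hg : Good n g c₀ c) (hF : Fam n g F) (P : ℂ) (m : ℕ) (y : ℂ) :
    (F (ap n g P)).ev^[m] (ap n g P * (y - bb n g)) =
      ap n g P * ((pl g P)^[m] y - bb n g) := by
  induction m generalizing y with
  | zero => rfl
  | succ m ih =>
    rw [Function.iterate_succ_apply, Function.iterate_succ_apply, ev_F hg hF]
    have : ap n g P * (y - bb n g) / ap n g P + bb n g = y := by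
      rw [mul_div_cancel_left₀ _ (ap_ne hg P)]
      ring
    rw [this, ih]

theorem tendsto_ap (n : ℕ) (g : ℂ[X]) (S : ℝ) :
    Tendsto (fun k : ℕ => ap n g (-(k : ℂ) - Complex.I * S)) atTop (𝓝 (aa n g)) := by
  have h1 : ∀ P : ℂ, ap n g P =
      aa n g * Complex.exp (2 * Real.pi * Complex.I / ((n : ℂ) - 1) * P⁻¹) := by
    intro P
    unfold ap
    rw [div_mul_eq_div_div, div_eq_mul_inv _ P]
  have h2 : Tendsto (fun k : ℕ => (-(k : ℂ) - Complex.I * S)⁻¹) atTop (𝓝 0) := by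
    refine tendsto_inv₀_cobounded.comp ?_
    rw [← tendsto_norm_atTop_iff_cobounded]
    refine tendsto_atTop_mono (fun k => ?_) tendsto_natCast_atTop_atTop
    have h3 := Complex.abs_re_le_norm (-(k : ℂ) - Complex.I * S)
    have h4 : (-(k : ℂ) - Complex.I * S).re = -(k : ℝ) := by simp
    rw [h4, abs_neg, Nat.abs_cast] at h3
    exact h3
  have h3 : Tendsto (fun k : ℕ => aa n g *
      Complex.exp (2 * Real.pi * Complex.I / ((n : ℂ) - 1) * (-(k : ℂ) - Complex.I * S)⁻¹)) atTop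
      (𝓝 (aa n g * Complex.exp (2 * Real.pi * Complex.I / ((n : ℂ) - 1) * 0))) :=
    (((h2.const_mul _).cexp).const_mul _)
  rw [mul_zero, Complex.exp_zero, mul_one] at h3
  refine h3.congr fun k => (h1 _).symm

/-! ### Escaping points and links near the circle -/

variable {A : Blaschke n} {T H : ℂ ≃ₜ ℂ} {C k ρ : ℝ} {p f : RMap n} {φ φ' : ℂ → ℂ}

theorem ext_pow (hn : 1 ≤ n) {z : ℂ} (hz : z ∈ MB.Ext) : z ^ n ∈ MB.Ext := by
  have h1 : 1 < ‖z‖ := hz
  show 1 < ‖z ^ n‖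
  rw [norm_pow]
  exact one_lt_pow₀ h1 (by omega)

theorem ev_ext (hz : ∀ z : ℂ, (zn n).den z = 1 ∧ (zn n).ev z = z ^ n) (hφ : IsExt (zn n) p φ)
    {w : ℂ} (hw : w ∈ MB.Ext) : p.ev (φ w) = φ (w ^ n) := by
  have h1 := (hφ.semi w hw (by rw [(hz w).1]; exact one_ne_zero)).2
  rwa [(hz w).2] at h1

theorem iter_ext (hn : 1 ≤ n) (hz : ∀ z : ℂ, (zn n).den z = 1 ∧ (zn n).ev z = z ^ n)
    (hφ : IsExt (zn n) p φ) (m : ℕ) : ∀ w ∈ MB.Ext, p.ev^[m] (φ w) = φ (w ^ n ^ m) := by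
  induction m with
  | zero =>
    intro w _
    simp
  | succ m ih =>
    intro w hw
    rw [Function.iterate_succ_apply, ev_ext hz hφ hw, ih _ (ext_pow hn hw), ← pow_mul, ← pow_succ']

theorem escape (hSIG : S_SIG) (hn : 2 ≤ n) (hz : ∀ z : ℂ, (zn n).den z = 1 ∧ (zn n).ev z = z ^ n)
    (hφ : IsExt (zn n) p φ) {w : ℂ} (hw : w ∈ MB.Ext) :
    Tendsto (fun m => ‖p.ev^[m] (φ w)‖) atTop atTop := by
  have h1 : 1 < ‖w‖ := hw
  have h2 : Tendsto (fun m : ℕ => ‖w‖ ^ n ^ m) atTop atTop :=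
    (tendsto_pow_atTop_atTop_of_one_lt h1).comp (tendsto_pow_atTop_atTop_of_one_lt (r := n) (by omega))
  have h3 : Tendsto (fun m : ℕ => ‖w‖ ^ n ^ m - 1) atTop atTop :=
    tendsto_atTop_add_const_right _ _ h2
  refine tendsto_atTop_mono' _ ?_ h3
  filter_upwards [h2.eventually_ge_atTop 2] with m hm
  rw [iter_ext (by omega) hz hφ m w hw]
  have h4 : ‖w ^ n ^ m‖ = ‖w‖ ^ n ^ m := norm_pow _ _
  have h5 := (hSIG φ hφ.sig).1 (w ^ n ^ m) (by rw [h4]; exact hm)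
  rw [h4] at h5
  have h6 : 2 / ‖w‖ ^ n ^ m ≤ 1 := by
    rw [div_le_one (by linarith)]
    exact hm
  have h7 : ‖w ^ n ^ m‖ ≤ ‖φ (w ^ n ^ m)‖ + ‖φ (w ^ n ^ m) - w ^ n ^ m‖ := by
    have := norm_sub_le (φ (w ^ n ^ m)) (φ (w ^ n ^ m) - w ^ n ^ m)
    rwa [sub_sub_cancel] at this
  rw [h4] at h7
  linarith

/-- the link conjugates also near the circle -/
theorem link_near (hn : 1 ≤ n) (hz : ∀ z : ℂ, (zn n).den z = 1 ∧ (zn n).ev z = z ^ n)
    (hL : Link A T C p f H φ φ') (hT : IsTr (zn n) A k T)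
    (hs : ∀ z, ρ⁻¹ < ‖z‖ → ‖z‖ < ρ →
      (zn n).den z ≠ 0 ∧ A.den (T z) ≠ 0 ∧ T ((zn n).ev z) = A.ev (T z)) (hρ : 1 < ρ)
    {x : ℂ} (hx : ∀ w : ℂ, ρ ≤ ‖w‖ → x ≠ φ w) :
    f.Q.eval (H x) ≠ 0 ∧ f.ev (H x) = H (p.ev x) := by
  by_cases h : x ∈ φ '' MB.Ext
  · obtain ⟨w, hw, rfl⟩ := h
    have hw1 : 1 < ‖w‖ := hw
    have hw2 : ‖w‖ < ρ := by
      by_contra h1
      exact hx w (not_lt.1 h1) rfl
    obtain ⟨h1, h2, h3⟩ := hs w ((inv_lt_one_of_one_lt₀ hρ).trans hw1) hw2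
    have hTw : T w ∈ MB.Ext := (hT.out w).2 hw1
    obtain ⟨h4, h5⟩ := hL.extf.semi (T w) hTw h2
    rw [hL.out w hw]
    refine ⟨h4, ?_⟩
    rw [h5, ← h3, (hz w).2, ev_ext hz hL.extg hw, hL.out _ (ext_pow hn hw)]
  · exact hL.inn x h

theorem back_near (hn : 1 ≤ n) (hz : ∀ z : ℂ, (zn n).den z = 1 ∧ (zn n).ev z = z ^ n)
    (hφ : IsExt (zn n) p φ) (hρ : 1 < ρ) {x : ℂ} (hx : ∀ w : ℂ, ρ ≤ ‖w‖ → p.ev x ≠ φ w) :
    ∀ w : ℂ, ρ ≤ ‖w‖ → x ≠ φ w := by
  rintro w hw rfl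
  have hw1 : w ∈ MB.Ext := lt_of_lt_of_le hρ hw
  refine hx (w ^ n) ?_ (ev_ext hz hφ hw1)
  rw [norm_pow]
  exact hw.trans (le_self_pow₀ (hρ.le.trans hw) (by omega))

theorem diff_ev {x : ℂ} (h : f.Q.eval x ≠ 0) : DifferentiableAt ℂ f.ev x := by
  unfold RMap.ev
  exact (f.P.differentiableAt).div (f.Q.differentiableAt) h

theorem link_iter (hn : 1 ≤ n) (hz : ∀ z : ℂ, (zn n).den z = 1 ∧ (zn n).ev z = z ^ n)
    (hL : Link A T C p f H φ φ') (hT : IsTr (zn n) A k T)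
    (hs : ∀ z, ρ⁻¹ < ‖z‖ → ‖z‖ < ρ →
      (zn n).den z ≠ 0 ∧ A.den (T z) ≠ 0 ∧ T ((zn n).ev z) = A.ev (T z)) (hρ : 1 < ρ)
    (m : ℕ) : ∀ x : ℂ, (∀ w : ℂ, ρ ≤ ‖w‖ → p.ev^[m] x ≠ φ w) →
      (∀ w : ℂ, ρ ≤ ‖w‖ → x ≠ φ w) ∧ f.ev^[m] (H x) = H (p.ev^[m] x) ∧
      DifferentiableAt ℂ (f.ev^[m]) (H x) := by
  induction m with
  | zero =>
    intro x hx
    exact ⟨hx, rfl, differentiableAt_id⟩
  | succ m ih =>
    intro x hx
    rw [Function.iterate_succ_apply] at hx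
    obtain ⟨h1, h2, h3⟩ := ih (p.ev x) hx
    have h4 := back_near hn hz hL.extg hρ h1
    obtain ⟨h5, h6⟩ := link_near hn hz hL hT hs hρ h4
    refine ⟨h4, ?_, ?_⟩
    · rw [Function.iterate_succ_apply, Function.iterate_succ_apply, h6, h2]
    · rw [Function.iterate_succ]
      refine DifferentiableAt.comp _ ?_ (diff_ev h5)
      rw [h6]
      exact h3

/-! ### Limits -/

theorem near_far (hSIG : S_SIG) {ι : Type} {u : Ultrafilter ι} {φs : ι → ℂ → ℂ} {Φ : ℂ → ℂ}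
    (hs : ∀ᶠ i in (u : Filter ι), Sig (φs i))
    (hc : TendstoLocallyUniformlyOn φs Φ (u : Filter ι) MB.Ext) (hΦ : ContinuousOn Φ MB.Ext)
    (hρ : 1 < ρ) {X₀ : ℂ} (hX : ∀ w : ℂ, ρ ≤ ‖w‖ → X₀ ≠ Φ w) :
    ∀ᶠ q : ι × ℂ in (u : Filter ι) ×ˢ 𝓝 X₀, ∀ w : ℂ, ρ ≤ ‖w‖ → q.2 ≠ φs q.1 w := by
  have hopen : IsOpen MB.Ext := isOpen_lt continuous_const continuous_norm
  set R₁ : ℝ := ‖X₀‖ + 4 with hR₁
  set 𝒜 : Set ℂ := {w | ρ ≤ ‖w‖ ∧ ‖w‖ ≤ R₁} with h𝒜
  have h𝒜c : IsCompact 𝒜 := by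
    refine (isCompact_closedBall (0 : ℂ) R₁).of_isClosed_subset
      ((isClosed_le continuous_const continuous_norm).inter
        (isClosed_le continuous_norm continuous_const)) fun w hw => ?_
    rw [mem_closedBall_zero_iff]
    exact hw.2
  have h𝒜s : 𝒜 ⊆ MB.Ext := fun w hw => lt_of_lt_of_le hρ hw.1
  obtain ⟨δ, hδ, hδ2⟩ : ∃ δ : ℝ, 0 < δ ∧ ∀ w ∈ 𝒜, 2 * δ ≤ ‖Φ w - X₀‖ := by
    rcases 𝒜.eq_empty_or_nonempty with h | h
    · refine ⟨1, one_pos, fun w hw => ?_⟩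
      rw [h] at hw
      exact absurd hw (Set.notMem_empty _)
    · obtain ⟨w₀, hw₀, hmin⟩ := h𝒜c.exists_isMinOn h
        (f := fun w => ‖Φ w - X₀‖) (((hΦ.mono h𝒜s).sub continuousOn_const).norm)
      have h1 : 0 < ‖Φ w₀ - X₀‖ := norm_pos_iff.2 (sub_ne_zero.2 (hX w₀ hw₀.1).symm)
      refine ⟨‖Φ w₀ - X₀‖ / 2, by linarith, fun w hw => ?_⟩
      have h2 : ‖Φ w₀ - X₀‖ ≤ ‖Φ w - X₀‖ := hmin hw
      linarith
  have hu : TendstoUniformlyOn φs Φ (u : Filter ι) 𝒜 :=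
    (tendstoLocallyUniformlyOn_iff_forall_isCompact hopen).1 hc 𝒜 h𝒜s h𝒜c
  have h1 : ∀ᶠ i in (u : Filter ι), ∀ w ∈ 𝒜, ‖φs i w - Φ w‖ < δ := by
    filter_upwards [Metric.tendstoUniformlyOn_iff.1 hu δ hδ] with i hi w hw
    have := hi w hw
    rwa [dist_comm, dist_eq_norm] at this
  have h2 : ∀ᶠ x in 𝓝 X₀, ‖x - X₀‖ < min δ 1 := by
    have := Metric.ball_mem_nhds X₀ (lt_min hδ one_pos)
    filter_upwards [this] with x hx
    rwa [mem_ball, dist_eq_norm] at hx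
  filter_upwards [(hs.and h1).prod_mk h2] with q hq
  obtain ⟨⟨hq1, hq2⟩, hq3⟩ := hq
  intro w hw he
  have hq4 := lt_min_iff.1 hq3
  by_cases hR : ‖w‖ ≤ R₁
  · have h3 := hq2 w ⟨hw, hR⟩
    have h4 := hδ2 w ⟨hw, hR⟩
    have h5 : ‖Φ w - X₀‖ ≤ ‖φs q.1 w - Φ w‖ + ‖q.2 - X₀‖ := by
      have : Φ w - X₀ = -(φs q.1 w - Φ w) + (q.2 - X₀) := by rw [he]; ring
      rw [this]
      refine (norm_add_le _ _).trans ?_
      rw [norm_neg]
    linarith [hq4.1]
  · rw [not_le] at hR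
    have hR2 : 2 ≤ ‖w‖ := by
      have := norm_nonneg X₀
      linarith
    have h5 := (hSIG _ hq1).1 w hR2
    have h6 : 2 / ‖w‖ ≤ 1 := by
      rw [div_le_one (by linarith)]
      exact hR2
    have h7 : ‖w‖ ≤ ‖φs q.1 w‖ + ‖φs q.1 w - w‖ := by
      have := norm_sub_le (φs q.1 w) (φs q.1 w - w)
      rwa [sub_sub_cancel] at this
    have h8 : ‖q.2‖ ≤ ‖q.2 - X₀‖ + ‖X₀‖ := by
      have := norm_add_le (q.2 - X₀) X₀
      rwa [sub_add_cancel] at this
    rw [← he] at h5 h7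
    linarith [hq4.2]

/-- a continuous limit of holomorphic functions -/
theorem hol_lim {u : Filter ℕ} [u.NeBot] {F : ℕ → ℂ → ℂ} {h : ℂ → ℂ} {O : Set ℂ} (hO : IsOpen O)
    (hh : ContinuousOn h O)
    (hc : ∀ x ∈ O, Tendsto (fun q : ℕ × ℂ => F q.1 q.2) (u ×ˢ 𝓝 x) (𝓝 (h x)))
    (hd : ∀ᶠ i in u, DifferentiableOn ℂ (F i) O) : DifferentiableOn ℂ h O := by
  have h1 : TendstoLocallyUniformlyOn F h u O := by
    rw [tendstoLocallyUniformlyOn_iff_forall_tendsto]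
    intro x hx
    have h2 : Tendsto (fun q : ℕ × ℂ => h q.2) (u ×ˢ 𝓝[O] x) (𝓝 (h x)) :=
      (hh x hx).tendsto.comp tendsto_snd
    have h3 : Tendsto (fun q : ℕ × ℂ => F q.1 q.2) (u ×ˢ 𝓝[O] x) (𝓝 (h x)) :=
      (hc x hx).mono_left (Filter.prod_mono le_rfl nhdsWithin_le_nhds)
    have h4 := h2.prodMk_nhds h3
    exact h4.mono_right (nhds_le_uniformity _)
  exact h1.differentiableOn hd hO

/-- composition of continuous limits -/
theorem cc_comp {u : Filter ℕ} {X : Type} {l : Filter X} {G : ℕ → ℂ → ℂ} {V : ℕ → X → ℂ} {v y : ℂ}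
    (hG : Tendsto (fun q : ℕ × ℂ => G q.1 q.2) (u ×ˢ 𝓝 v) (𝓝 y))
    (hV : Tendsto (fun q : ℕ × X => V q.1 q.2) (u ×ˢ l) (𝓝 v)) :
    Tendsto (fun q : ℕ × X => G q.1 (V q.1 q.2)) (u ×ˢ l) (𝓝 y) :=
  hG.comp (tendsto_fst.prodMk hV)

end TNLaux

open TNLaux in
/-- **TNL**: the tangential links. -/
theorem t_TNL (h1 : S_MEM) (h2 : S_LNK) (_h3 : S_BASN) (h4 : S_TRC') (h5 : S_LAV')
    (hBL : MB.S_BL) (hSIG : MB.S_SIG) (hRTOP : MB.S_RTOP) (hEXTU : MB.S_EXTU) (hCPT : MB.S_CPT)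
    (hLIM : MB.S_LIM) (hREL : MB.S_REL) (hCLOS : MB.S_CLOS) : S_TNL := by
  intro n g c₀ c φ Φ ψ R C' F A k C T f φ' hg hpic hfc hF htrl huniq hfE hφ'
  have hn : 2 ≤ n := by have := hg.n3; omega
  have hn1 : 1 ≤ n := by omega
  have : T2Space (RMap n) := (hRTOP n).1
  have hz : ∀ z : ℂ, (zn n).den z = 1 ∧ (zn n).ev z = z ^ n :=
    (hBL n hn1 (zn n)).2.2.2.2.2.2.2.2
  obtain ⟨S₀, hS₀, hmem⟩ := (h1 n g c₀ c F hg hF).2
  obtain ⟨S₁, Y₁, hS₁, hY₁, htrc⟩ := h4 n g c₀ c Φ ψ R C' hg hfc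
  obtain ⟨ρ, hρ, hsemi⟩ := htrl.tr.semi
  refine ⟨max S₀ S₁, Y₁, ρ, lt_max_of_lt_left hS₀, hρ, fun S hS => ?_⟩
  have hS₀' : S₀ ≤ S := (le_max_left _ _).trans hS
  have hS₁' : S₁ ≤ S := (le_max_right _ _).trans hS
  have hSpos : 0 < S := hS₀.trans_le hS₀'
  -- the sequence
  set P : ℕ → ℂ := fun j => -(j : ℂ) - Complex.I * S with hP
  set a : ℕ → ℂ := fun j => ap n g (P j) with ha
  set b₀ : ℂ := bb n g with hb₀
  set aI : ℂ := aa n g with haI
  have hane : ∀ j, a j ≠ 0 := fun j => ap_ne hg _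
  have haIne : aI ≠ 0 := aa_ne hg
  have hbb : ∀ j, F (a j) ∈ BB (zn n) := fun j => hmem (P j)
    (by simp only [hP]; simp; linarith) (by simp only [hP]; simp)
  obtain ⟨-, hex, -⟩ := hREL n hn A
  choose fk hfk using fun j => hex (F (a j)) (hbb j)
  choose H φs φs' hL hLd using fun j => htrl.lk _ _ (hfk j)
  -- the ultrafilter
  set u : Ultrafilter ℕ := hyperfilter ℕ with hu
  have hule : (u : Filter ℕ) ≤ atTop := by
    rw [hu, ← Nat.cofinite_eq_atTop]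
    exact hyperfilter_le_cofinite
  have haT : Tendsto a u (𝓝 aI) := (tendsto_ap n g S).mono_left hule
  have hgT : Tendsto (fun j => F (a j)) u (𝓝 (F aI)) := (hF.cont.tendsto aI).comp haT
  have hEc : IsCompact (EE A) := (hCLOS n hn A).1
  have hEm : ∀ j, (F (a j), fk j) ∈ EE A := fun j => subset_closure (hfk j)
  have hfT : Tendsto fk u (𝓝 f) := by
    obtain ⟨⟨g', f₁⟩, hin, hle⟩ := hEc.ultrafilter_le_nhds (u.map fun j => (F (a j), fk j)) (by
      rw [Filter.le_principal_iff]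
      exact Filter.mem_map.2 (Filter.Eventually.of_forall hEm))
    have ht : Tendsto (fun j => (F (a j), fk j)) u (𝓝 (g', f₁)) := hle
    have ht1 : Tendsto (fun j => F (a j)) u (𝓝 g') := (continuous_fst.tendsto _).comp ht
    have ht2 : Tendsto fk u (𝓝 f₁) := (continuous_snd.tendsto _).comp ht
    have e1 : g' = F aI := tendsto_nhds_unique ht1 hgT
    subst e1
    have e2 : f₁ = f := huniq _ _ hin hfE
    rwa [e2] at ht2
  obtain ⟨K, Ph, Ph', hLK, hHT, hHsT⟩ := hLIM n hn A k C T htrl.tr ℕ u (fun j => F (a j)) fk H φs φs'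
    (F aI) f (Filter.Eventually.of_forall hL) hgT hfT
  obtain ⟨hPh, K0, hK0, hLnk⟩ := h2 n g c₀ c φ F A C T K f Ph Ph' hg hpic hF hLK
  have hK0s : ∀ x, K0.symm x = K.symm x / aI + b₀ := by
    intro x
    rw [Homeomorph.symm_apply_eq, hK0, add_sub_cancel_right, mul_div_cancel₀ _ haIne,
      Homeomorph.apply_symm_apply]
  have hLnk' : Lnk A T g φ f φ' K0 := by
    refine ⟨hφ', fun z hz => ?_, hLnk.inn⟩
    rw [hLnk.out z hz]
    exact hEXTU n hn A f Ph' φ' hLK.extf hφ' ((htrl.tr.out z).2 hz)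
  -- continuous convergence
  have cH : ∀ x : ℂ, Tendsto (fun q : ℕ × ℂ => H q.1 q.2) ((u : Filter ℕ) ×ˢ 𝓝 x) (𝓝 (K x)) := by
    intro x
    have e1 := tendstoLocallyUniformly_iff_forall_tendsto.1 hHT x
    have e2 : Tendsto (fun q : ℕ × ℂ => K q.2) ((u : Filter ℕ) ×ˢ 𝓝 x) (𝓝 (K x)) :=
      (K.continuous.tendsto x).comp tendsto_snd
    exact e2.congr_uniformity e1
  have cHs : ∀ x : ℂ, Tendsto (fun q : ℕ × ℂ => (H q.1).symm q.2) ((u : Filter ℕ) ×ˢ 𝓝 x)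
      (𝓝 (K.symm x)) := by
    intro x
    have e1 := tendstoLocallyUniformly_iff_forall_tendsto.1 hHsT x
    have e2 : Tendsto (fun q : ℕ × ℂ => K.symm q.2) ((u : Filter ℕ) ×ˢ 𝓝 x) (𝓝 (K.symm x)) :=
      (K.symm.continuous.tendsto x).comp tendsto_snd
    exact e2.congr_uniformity e1
  have ca : ∀ x : ℂ, Tendsto (fun q : ℕ × ℂ => a q.1 * (q.2 - b₀)) ((u : Filter ℕ) ×ˢ 𝓝 x)
      (𝓝 (aI * (x - b₀))) := fun x =>
    (haT.comp tendsto_fst).mul ((tendsto_snd).sub_const _)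
  have cai : ∀ x : ℂ, Tendsto (fun q : ℕ × ℂ => q.2 / a q.1 + b₀) ((u : Filter ℕ) ×ˢ 𝓝 x)
      (𝓝 (x / aI + b₀)) := fun x =>
    (tendsto_snd.div (haT.comp tendsto_fst) haIne).add_const _
  have cpl : ∀ y ∈ Bas g c₀, Tendsto (fun q : ℕ × ℂ => (pl g (P q.1))^[q.1] q.2)
      ((u : Filter ℕ) ×ˢ 𝓝 y) (𝓝 (ψ (Φ y - Complex.I * S))) := by
    intro y hy
    have e0 := h5 n g c₀ c Φ ψ R C' hg hfc S hSpos
    rw [tendstoLocallyUniformlyOn_iff_forall_tendsto] at e0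
    have e1 := (e0 y hy).mono_left (Filter.prod_mono hule le_rfl)
    rw [hpic.opn.nhdsWithin_eq hy] at e1
    have e3 : ContinuousAt (fun z => ψ (Φ z - Complex.I * S)) y :=
      hfc.dψ.continuous.continuousAt.comp
        (((hfc.dΦ.continuousOn).continuousAt (hpic.opn.mem_nhds hy)).sub continuousAt_const)
    have e2 : Tendsto (fun q : ℕ × ℂ => ψ (Φ q.2 - Complex.I * S)) ((u : Filter ℕ) ×ˢ 𝓝 y)
        (𝓝 (ψ (Φ y - Complex.I * S))) := e3.tendsto.comp tendsto_snd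
    exact e2.congr_uniformity e1
  refine ⟨K0, hLnk', ?_, ?_⟩
  · -- holomorphy below the level
    intro y₀ hy₀
    have hUo : IsOpen {z | z ∈ Bas g c₀ ∧ (Φ z).im < S - Y₁} := by
      have e1 := (Complex.continuous_im.comp_continuousOn hfc.dΦ.continuousOn).isOpen_inter_preimage
        hpic.opn (isOpen_Iio (a := S - Y₁))
      exact e1
    obtain ⟨r, hr, hrs⟩ := Metric.isOpen_iff.1 hUo y₀ hy₀
    have hE : closedBall y₀ (r / 2) ⊆ {z | z ∈ Bas g c₀ ∧ (Φ z).im < S - Y₁} :=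
      (closedBall_subset_ball (by linarith)).trans hrs
    have hev := hule (htrc S hS₁' _ (isCompact_closedBall _ _) hE)
    have hd : ∀ᶠ j in (u : Filter ℕ), DifferentiableOn ℂ (fun y => H j (a j * (y - b₀)))
        (ball y₀ (r / 2)) := by
      filter_upwards [hev] with j hj
      have hmaps : MapsTo (fun y => a j * (y - b₀)) (ball y₀ (r / 2))
          (interior (φs j '' MB.Ext)ᶜ) := by
        have hopen : IsOpen ((fun y => a j * (y - b₀)) '' ball y₀ (r / 2)) := by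
          have e1 : (fun y => a j * (y - b₀)) '' ball y₀ (r / 2) =
              (fun x => x / a j + b₀) ⁻¹' ball y₀ (r / 2) := by
            ext x
            constructor
            · rintro ⟨y, hy, rfl⟩
              show a j * (y - b₀) / a j + b₀ ∈ ball y₀ (r / 2)
              rw [mul_div_cancel_left₀ _ (hane j), sub_add_cancel]
              exact hy
            · intro hx
              refine ⟨x / a j + b₀, hx, ?_⟩
              show a j * (x / a j + b₀ - b₀) = x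
              rw [add_sub_cancel_right, mul_div_cancel₀ _ (hane j)]
          rw [e1]
          exact isOpen_ball.preimage ((continuous_id.div_const _).add continuous_const)
        have hsub : (fun y => a j * (y - b₀)) '' ball y₀ (r / 2) ⊆ (φs j '' MB.Ext)ᶜ := by
          rintro _ ⟨y, hy, rfl⟩ ⟨w, hw, hwe⟩
          have e1 := escape hSIG hn hz (hL j).extg hw
          rw [hwe] at e1
          have e2 := hj y (ball_subset_closedBall hy)
          have e3 : Tendsto (fun m => (F (a j)).ev^[m] (a j * (y - b₀))) atTop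
              (𝓝 (a j * (1 - b₀))) := by
            have e4 : ∀ m, (F (a j)).ev^[m] (a j * (y - b₀)) =
                a j * ((pl g (P j))^[m] y - b₀) := fun m => iter_F hg hF (P j) m y
            simp only [e4]
            exact (e2.sub_const _).const_mul _
          exact not_tendsto_atTop_of_tendsto_nhds e3.norm e1
        intro y hy
        exact interior_maximal hsub hopen (mem_image_of_mem _ hy)
      exact (hLd j).comp ((differentiableOn_id.sub_const _).const_mul _) hmaps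
    have hlim := hol_lim (u := (u : Filter ℕ)) (F := fun j y => H j (a j * (y - b₀))) (h := K0)
      isOpen_ball K0.continuous.continuousOn (fun x _ => by
        rw [hK0 x]
        exact cc_comp (G := fun j x => H j x) (V := fun j y => a j * (y - b₀)) (cH _) (ca x)) hd
    exact (hlim.differentiableAt (isOpen_ball.mem_nhds
      (mem_ball_self (by linarith)))).differentiableWithinAt
  · -- the Lavaurs map
    rintro x₀ ⟨y₀, ⟨hy₀, hyN⟩, rfl⟩
    set LL : ℂ → ℂ := fun y => ψ (Φ y - Complex.I * S) with hLL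
    have hLLc : ContinuousOn LL (Bas g c₀) :=
      hfc.dψ.continuous.comp_continuousOn (hfc.dΦ.continuousOn.sub continuousOn_const)
    -- the maps
    have cy : ∀ x : ℂ, Tendsto (fun q : ℕ × ℂ => (H q.1).symm q.2 / a q.1 + b₀)
        ((u : Filter ℕ) ×ˢ 𝓝 x) (𝓝 (K0.symm x)) := by
      intro x
      rw [hK0s x]
      exact cc_comp (G := fun j x => x / a j + b₀) (V := fun j x => (H j).symm x) (cai _) (cHs x)
    have cx : ∀ x : ℂ, K0.symm x ∈ Bas g c₀ → Tendsto (fun q : ℕ × ℂ =>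
        a q.1 * ((pl g (P q.1))^[q.1] ((H q.1).symm q.2 / a q.1 + b₀) - b₀))
        ((u : Filter ℕ) ×ˢ 𝓝 x) (𝓝 (aI * (LL (K0.symm x) - b₀))) := by
      intro x hx
      have e1 := cc_comp (G := fun j y => (pl g (P j))^[j] y)
        (V := fun j x => (H j).symm x / a j + b₀) (cpl _ hx) (cy x)
      exact cc_comp (G := fun j y => a j * (y - b₀))
        (V := fun j x => (pl g (P j))^[j] ((H j).symm x / a j + b₀)) (ca _) e1
    -- the iterates stay near the filled Julia set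
    have hsig : ∀ᶠ j in (u : Filter ℕ), Sig (φs j) :=
      Filter.Eventually.of_forall fun j => (hL j).extg.sig
    obtain ⟨G', Ph2, hPh2, hG', hφT⟩ := hCPT n hn1 (zn n) ℕ u (fun j => F (a j)) φs
      (Filter.Eventually.of_forall fun j => (hL j).extg)
    have hGe : G' = F aI := tendsto_nhds_unique hG' hgT
    subst hGe
    have hPh2e : ∀ w ∈ MB.Ext, Ph2 w = aI * (φ w - b₀) := fun w hw => by
      rw [hEXTU n hn (zn n) _ Ph2 Ph hPh2 hLK.extg hw, hPh w hw]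
    have hfar := near_far (X₀ := aI * (LL y₀ - b₀)) hSIG hsig hφT hPh2.diff.continuousOn hρ
      (fun w hw he => by
        rw [hPh2e w (lt_of_lt_of_le hρ hw)] at he
        have e1 := mul_left_cancel₀ haIne he
        exact hyN w hw (sub_left_inj.1 e1))
    have hKy : K0.symm (K0 y₀) = y₀ := K0.symm_apply_apply y₀
    have hx := cx (K0 y₀) (by rw [hKy]; exact hy₀)
    rw [hKy] at hx
    have hgood : ∀ᶠ q : ℕ × ℂ in (u : Filter ℕ) ×ˢ 𝓝 (K0 y₀), ∀ w : ℂ, ρ ≤ ‖w‖ →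
        a q.1 * ((pl g (P q.1))^[q.1] ((H q.1).symm q.2 / a q.1 + b₀) - b₀) ≠ φs q.1 w :=
      (tendsto_fst.prodMk hx).eventually hfar
    obtain ⟨pa, hpa, pb, hpb, hab⟩ := Filter.eventually_prod_iff.1 hgood
    -- the open set
    have hBo : IsOpen (K0.symm ⁻¹' Bas g c₀) := hpic.opn.preimage K0.symm.continuous
    set O : Set ℂ := interior {x | pb x} ∩ K0.symm ⁻¹' Bas g c₀ with hO
    have hOo : IsOpen O := isOpen_interior.inter hBo
    have hx₀O : K0 y₀ ∈ O := by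
      refine ⟨mem_interior_iff_mem_nhds.2 hpb, ?_⟩
      show K0.symm (K0 y₀) ∈ Bas g c₀
      rw [hKy]
      exact hy₀
    have hkey : ∀ j, pa j → ∀ x ∈ O,
        (fk j).ev^[j] x = H j (a j * ((pl g (P j))^[j] ((H j).symm x / a j + b₀) - b₀)) ∧
        DifferentiableAt ℂ ((fk j).ev^[j]) x := by
      intro j hj x hxO
      have hpbx : pb x := interior_subset hxO.1
      have e1 := hab hj hpbx
      have e2 : (F (a j)).ev^[j] ((H j).symm x) =
          a j * ((pl g (P j))^[j] ((H j).symm x / a j + b₀) - b₀) := by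
        have e3 := iter_F hg hF (P j) j ((H j).symm x / a j + b₀)
        rw [← e3]
        congr 1
        show (H j).symm x = a j * ((H j).symm x / a j + b₀ - b₀)
        rw [add_sub_cancel_right, mul_div_cancel₀ _ (hane j)]
      obtain ⟨-, e4, e5⟩ := link_iter hn1 hz (hL j) htrl.tr hsemi hρ j ((H j).symm x) (by
        rw [e2]
        exact e1)
      rw [Homeomorph.apply_symm_apply] at e4 e5
      rw [e2] at e4
      exact ⟨e4, e5⟩
    have hlim := hol_lim (u := (u : Filter ℕ)) (F := fun j x => (fk j).ev^[j] x)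
      (h := fun x => K0 (LL (K0.symm x))) hOo
      (K0.continuous.comp_continuousOn (hLLc.comp K0.symm.continuous.continuousOn
        fun x hx => hx.2)) (fun x hxO => by
        have e1 := cc_comp (G := fun j y => H j y)
          (V := fun j x => a j * ((pl g (P j))^[j] ((H j).symm x / a j + b₀) - b₀))
          (cH _) (cx x hxO.2)
        rw [← hK0] at e1
        refine e1.congr' ?_
        have e2 : ∀ᶠ q : ℕ × ℂ in (u : Filter ℕ) ×ˢ 𝓝 x, pa q.1 ∧ q.2 ∈ O :=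
          hpa.prod_mk (hOo.mem_nhds hxO)
        filter_upwards [e2] with q hq
        exact ((hkey q.1 hq.1 q.2 hq.2).1).symm)
      (by
        filter_upwards [hpa] with j hj x hxO
        exact (hkey j hj x hxO).2.differentiableWithinAt)
    exact (hlim.differentiableAt (hOo.mem_nhds hx₀O)).differentiableWithinAt

end Pool.Agent.H212.ND
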