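import Pool.Agent.H212.ND.StmN

/-!
# Project ND: trapping of compact sets (JOB TRC, helper154)
-/

set_option autoImplicit false

open Filter Metric Set Topology Polynomial
open scoped ComplexConjugate

namespace Pool.Agent.H212.ND

open Pool.Agent.H212.MB

namespace TRCaux

theorem real_eval {q : ℂ[X]} (h : ∀ i, (q.coeff i).im = 0) : (q.eval 1).im = 0 := by
  rw [Polynomial.eval_eq_sum_range, Complex.im_sum]
  apply Finset.sum_eq_zero
  intro i _
  rw [one_pow, mul_one]
  exact h i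

theorem real_der {q : ℂ[X]} (h : ∀ i, (q.coeff i).im = 0) : ∀ i, (q.derivative.coeff i).im = 0 := by
  intro i
  rw [Polynomial.coeff_derivative, Complex.mul_im, h (i + 1)]
  simp

variable {n : ℕ} {g : ℂ[X]} {c₀ : ℝ} {c : ℂ}

theorem al_real (hg : Good n g c₀ c) : ∃ a : ℝ, 0 < a ∧ al g = a := by
  have h1 := real_eval (real_der (real_der hg.real))
  refine ⟨(g.derivative.derivative.eval 1).re / 2, by linarith [hg.der2], ?_⟩
  unfold al
  apply Complex.ext
  · simp
  · simp [h1]

theorem ka_real (hg : Good n g c₀ c) : ∃ b : ℝ, ka g = b := by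
  obtain ⟨a, _, ha⟩ := al_real hg
  have h1 := real_eval (real_der (real_der (real_der hg.real)))
  refine ⟨(a ^ 2 - (g.derivative.derivative.derivative.eval 1).re / 6) / a ^ 2, ?_⟩
  have h2 : g.derivative.derivative.derivative.eval 1 =
      ((g.derivative.derivative.derivative.eval 1).re : ℂ) := by
    apply Complex.ext
    · simp
    · simp [h1]
  unfold ka ga
  rw [ha, h2]
  push_cast
  simp

/-- the expansion of `g` at `1` -/
theorem expand (hg : Good n g c₀ c) : ∃ q : ℂ[X], ∀ u : ℂ,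
    1 - g.eval (1 - u) = u * (1 - al g * u + q.eval (-u) * u ^ 2) := by
  set p := taylor 1 g with hp
  have h0 : p.coeff 0 = 1 := by rw [hp, taylor_coeff_zero, hg.fix]
  have h1 : p.coeff 1 = 1 := by rw [hp, taylor_coeff_one, hg.der]
  have h2 : p.coeff 2 = al g := by
    rw [hp, taylor_coeff]
    have h3 := congrArg (fun D => D g) (Polynomial.factorial_smul_hasseDeriv (R := ℂ) 2)
    have h4 : (2 : ℕ) • (hasseDeriv 2 g) = g.derivative.derivative := by
      simpa using h3
    unfold al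
    rw [← h4, eval_smul]
    simp
  refine ⟨p.divX.divX.divX, fun u => ?_⟩
  have e1 : g.eval (1 - u) = p.eval (-u) := by
    rw [hp, taylor_eval]
    congr 1
    ring
  have e2 : p.eval (-u) = p.divX.eval (-u) * (-u) + 1 := by
    conv_lhs => rw [← divX_mul_X_add p]
    rw [eval_add, eval_mul, eval_X, eval_C, h0]
  have e3 : p.divX.eval (-u) = p.divX.divX.eval (-u) * (-u) + 1 := by
    conv_lhs => rw [← divX_mul_X_add p.divX]
    rw [eval_add, eval_mul, eval_X, eval_C, coeff_divX, h1]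
  have e4 : p.divX.divX.eval (-u) = p.divX.divX.divX.eval (-u) * (-u) + al g := by
    conv_lhs => rw [← divX_mul_X_add p.divX.divX]
    rw [eval_add, eval_mul, eval_X, eval_C, coeff_divX, coeff_divX, h2]
  rw [e1, e2, e3, e4]
  ring

theorem step_lim (hg : Good n g c₀ c) :
    Tendsto (fun u : ℂ => (1 - g.eval (1 - u))⁻¹ - u⁻¹) (𝓝[≠] 0) (𝓝 (al g)) := by
  obtain ⟨q, hq⟩ := expand hg
  have hD : Tendsto (fun u : ℂ => 1 - al g * u + q.eval (-u) * u ^ 2) (𝓝 0) (𝓝 1) := by
    have hc : Continuous (fun u : ℂ => 1 - al g * u + q.eval (-u) * u ^ 2) := by fun_prop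
    simpa using hc.tendsto 0
  have hN : Tendsto (fun u : ℂ => al g - q.eval (-u) * u) (𝓝 0) (𝓝 (al g)) := by
    have hc : Continuous (fun u : ℂ => al g - q.eval (-u) * u) := by fun_prop
    simpa using hc.tendsto 0
  have hF : Tendsto (fun u : ℂ => (al g - q.eval (-u) * u) /
      (1 - al g * u + q.eval (-u) * u ^ 2)) (𝓝[≠] 0) (𝓝 (al g)) := by
    have := (hN.div hD one_ne_zero).mono_left (nhdsWithin_le_nhds (s := {(0 : ℂ)}ᶜ))
    rwa [div_one] at this
  refine hF.congr' ?_
  have hne : ∀ᶠ u : ℂ in 𝓝[≠] 0, 1 - al g * u + q.eval (-u) * u ^ 2 ≠ 0 :=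
    (hD.eventually_ne one_ne_zero).filter_mono nhdsWithin_le_nhds
  filter_upwards [hne, self_mem_nhdsWithin] with u hu hu0
  have hu0' : u ≠ 0 := hu0
  rw [hq u]
  have h1 : u * (al g - q.eval (-u) * u) = 1 - (1 - al g * u + q.eval (-u) * u ^ 2) := by ring
  generalize 1 - al g * u + q.eval (-u) * u ^ 2 = D at hu h1 ⊢
  generalize al g - q.eval (-u) * u = N at h1 ⊢
  rw [mul_inv, div_eq_iff hu, sub_mul, mul_assoc, inv_mul_cancel₀ hu, ← mul_sub, ← h1,
    inv_mul_cancel_left₀ hu0']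

theorem tendsto_of_step {x : ℕ → ℝ} {d : ℝ} (hd : 0 < d) (h : ∀ᶠ m in atTop, x m + d ≤ x (m + 1)) :
    Tendsto x atTop atTop := by
  obtain ⟨m₀, hm₀⟩ := eventually_atTop.1 h
  have h1 : ∀ j : ℕ, x m₀ + j * d ≤ x (j + m₀) := by
    intro j
    induction j with
    | zero => simp
    | succ j ih =>
      have h2 := hm₀ (j + m₀) (by omega)
      have h3 : j + 1 + m₀ = j + m₀ + 1 := by ring
      rw [h3]
      push_cast
      linarith
  rw [← tendsto_add_atTop_iff_nat m₀]
  apply tendsto_atTop_mono h1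
  apply tendsto_atTop_add_const_left
  exact tendsto_natCast_atTop_atTop.atTop_mul_const hd

theorem re_lim (hg : Good n g c₀ c) {y : ℕ → ℂ} (hy : ∀ m, y (m + 1) = g.eval (y m))
    (hne : ∀ m, y m ≠ 1) (hlim : Tendsto y atTop (𝓝 1)) :
    Tendsto (fun m => ((1 - y m)⁻¹).re) atTop atTop := by
  obtain ⟨a, ha, haa⟩ := al_real hg
  have hu : Tendsto (fun m => 1 - y m) atTop (𝓝[≠] 0) := by
    rw [tendsto_nhdsWithin_iff]
    constructor
    · have := (tendsto_const_nhds (x := (1 : ℂ))).sub hlim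
      simpa using this
    · exact Eventually.of_forall fun m => sub_ne_zero.2 (hne m).symm
  have h1 := (step_lim hg).comp hu
  have h2 : Tendsto (fun m => ((1 - y (m + 1))⁻¹ - (1 - y m)⁻¹).re) atTop (𝓝 a) := by
    have h3 := (Complex.continuous_re.tendsto _).comp h1
    rw [haa, Complex.ofReal_re] at h3
    refine h3.congr fun m => ?_
    simp only [Function.comp_apply, sub_sub_cancel]
    rw [hy m]
  apply tendsto_of_step (half_pos ha)
  filter_upwards [h2.eventually_const_lt (half_lt_self ha)] with m hm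
  rw [Complex.sub_re] at hm
  linarith

/-- the points `P_k` -/
theorem ell_lim (S : ℝ) (hS : S ≠ 0) :
    Tendsto (fun k : ℕ => 2 * Real.pi * Complex.I / (-(k : ℂ) - Complex.I * S)) atTop (𝓝[≠] 0) := by
  have hP : ∀ k : ℕ, (-(k : ℂ) - Complex.I * S) ≠ 0 := by
    intro k h
    have := congrArg Complex.im h
    simp at this
    exact hS this
  rw [tendsto_nhdsWithin_iff]
  constructor
  · apply squeeze_zero_norm' (a := fun k : ℕ => 2 * Real.pi / (k : ℝ))
    · filter_upwards [eventually_gt_atTop 0] with k hk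
      have hk' : (0 : ℝ) < k := by exact_mod_cast hk
      have h1 : (k : ℝ) ≤ ‖-(k : ℂ) - Complex.I * S‖ := by
        have := Complex.abs_re_le_norm (-(k : ℂ) - Complex.I * S)
        simp at this
        exact this
      rw [norm_div]
      have h2 : ‖(2 * Real.pi * Complex.I : ℂ)‖ = 2 * Real.pi := by
        simp [abs_of_pos Real.pi_pos]
      rw [h2]
      exact div_le_div_of_nonneg_left (by positivity) hk' h1
    · exact tendsto_const_nhds.div_atTop tendsto_natCast_atTop_atTop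
  · refine Eventually.of_forall fun k => ?_
    exact div_ne_zero (by simp [Real.pi_ne_zero]) (hP k)

theorem exp_slope : Tendsto (fun l : ℂ => (Complex.exp l - 1) / l) (𝓝[≠] 0) (𝓝 1) := by
  have h := hasDerivAt_iff_tendsto_slope.1 (Complex.hasDerivAt_exp 0)
  rw [Complex.exp_zero] at h
  refine h.congr fun l => ?_
  rw [slope_def_field, Complex.exp_zero, sub_zero]

theorem log_slope : Tendsto (fun w : ℂ => Complex.log (1 - w) / w) (𝓝[≠] 0) (𝓝 (-1)) := by
  have h0 : HasDerivAt (fun w : ℂ => Complex.log (1 - w)) (-1 / (1 - 0)) 0 := by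
    have h1 : HasDerivAt (fun w : ℂ => 1 - w) (-1) 0 := by
      simpa using (hasDerivAt_id (0 : ℂ)).const_sub 1
    exact h1.clog (by simp)
  have h := hasDerivAt_iff_tendsto_slope.1 h0
  have e : (-1 : ℂ) / (1 - 0) = -1 := by norm_num
  rw [e] at h
  refine h.congr fun w => ?_
  rw [slope_def_field]
  simp

/-- the coordinate `Z` -/
theorem coord {ι : Type} {F : Filter ι} {ell v : ι → ℂ} {a v₀ : ℂ} (ha : a ≠ 0) (hv₀ : v₀ ≠ 0)
    (hl : Tendsto ell F (𝓝[≠] 0)) (hv : Tendsto v F (𝓝 v₀)) :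
    ∃ Z : ι → ℂ, Tendsto Z F (𝓝 (v₀ / a)) ∧
      ∀ᶠ i in F, a / (Complex.exp (ell i) - 1) * (1 - Complex.exp (-ell i * Z i)) = v i := by
  have he : Tendsto (fun i => (Complex.exp (ell i) - 1) / ell i) F (𝓝 1) := exp_slope.comp hl
  have hl0 : Tendsto ell F (𝓝 0) := hl.mono_right nhdsWithin_le_nhds
  have hlne : ∀ᶠ i in F, ell i ≠ 0 := hl.eventually self_mem_nhdsWithin
  have hexp0 : Tendsto (fun i => Complex.exp (ell i) - 1) F (𝓝 0) := by
    have := ((Complex.continuous_exp.tendsto 0).comp hl0).sub_const 1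
    simpa using this
  have hene : ∀ᶠ i in F, Complex.exp (ell i) - 1 ≠ 0 := by
    filter_upwards [he.eventually_ne one_ne_zero] with i hi h0
    rw [h0, zero_div] at hi
    exact hi rfl
  set w : ι → ℂ := fun i => v i * (Complex.exp (ell i) - 1) / a with hw
  have hw0 : Tendsto w F (𝓝 0) := by
    have := (hv.mul hexp0).div_const a
    simpa using this
  have hvne : ∀ᶠ i in F, v i ≠ 0 := hv.eventually_ne hv₀
  have hwne : Tendsto w F (𝓝[≠] 0) := by
    rw [tendsto_nhdsWithin_iff]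
    refine ⟨hw0, ?_⟩
    filter_upwards [hvne, hene] with i h1 h2
    exact div_ne_zero (mul_ne_zero h1 h2) ha
  have hlog : Tendsto (fun i => Complex.log (1 - w i) / w i) F (𝓝 (-1)) := log_slope.comp hwne
  refine ⟨fun i => -(Complex.log (1 - w i) / w i) * (v i * ((Complex.exp (ell i) - 1) / ell i) / a),
    ?_, ?_⟩
  · have := hlog.neg.mul ((hv.mul he).div_const a)
    simpa using this
  · have h1w : ∀ᶠ i in F, 1 - w i ≠ 0 := by
      have : Tendsto (fun i => 1 - w i) F (𝓝 (1 - 0)) := hw0.const_sub 1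
      rw [sub_zero] at this
      exact this.eventually_ne one_ne_zero
    filter_upwards [h1w, hvne, hene, hlne] with i h1 h2 h3 h4
    have hwi : w i ≠ 0 := div_ne_zero (mul_ne_zero h2 h3) ha
    have hwl : v i * ((Complex.exp (ell i) - 1) / ell i) / a = w i / ell i := by
      rw [hw]
      field_simp
    have e1 : -ell i * (-(Complex.log (1 - w i) / w i) *
        (v i * ((Complex.exp (ell i) - 1) / ell i) / a)) = Complex.log (1 - w i) := by
      rw [hwl]
      field_simp
    rw [e1, Complex.exp_log h1, sub_sub_cancel, hw]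
    field_simp

/-- the iterates of the perturbed map -/
theorem iter_lim (g : ℂ[X]) {P : ℕ → ℂ}
    (hP : Tendsto (fun k => 2 * Real.pi * Complex.I / P k) atTop (𝓝 0)) (z₀ : ℂ) (m : ℕ) :
    Tendsto (fun x : ℕ × ℂ => (pl g (P x.1))^[m] x.2) (atTop ×ˢ 𝓝 z₀)
      (𝓝 ((fun z : ℂ => g.eval z)^[m] z₀)) := by
  induction m with
  | zero => exact tendsto_snd
  | succ m ih =>
    have h1 : Tendsto (fun x : ℕ × ℂ => Complex.exp (2 * Real.pi * Complex.I / P x.1))
        (atTop ×ˢ 𝓝 z₀) (𝓝 1) := by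
      have := (Complex.continuous_exp.tendsto 0).comp (hP.comp (tendsto_fst (g := 𝓝 z₀)))
      rwa [Complex.exp_zero] at this
    have h2 : Tendsto (fun x : ℕ × ℂ => g.eval ((pl g (P x.1))^[m] x.2)) (atTop ×ˢ 𝓝 z₀)
        (𝓝 (g.eval ((fun z : ℂ => g.eval z)^[m] z₀))) :=
      (g.continuous.tendsto _).comp ih
    have h3 := (h1.mul (h2.sub_const 1)).const_add 1
    have e1 : (1 : ℂ) + 1 * (g.eval ((fun z : ℂ => g.eval z)^[m] z₀) - 1) =
        (fun z : ℂ => g.eval z)^[m + 1] z₀ := by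
      rw [Function.iterate_succ_apply']
      ring
    rw [e1] at h3
    refine h3.congr fun x => ?_
    rw [Function.iterate_succ_apply']
    rfl

end TRCaux

open TRCaux in
theorem t_TRC (h1 : S_ORA) (h2 : S_BASN) : S_TRC := by
  intro n g c₀ c Φ ψ R C hg hF
  obtain ⟨R₀, Y₀, S₀, hR₀, hY₀, hS₀, hora⟩ := h1 n g c₀ c hg
  obtain ⟨hopen, -, hinv, -, -, h1B, -, -, hconv⟩ := h2 n g c₀ c hg
  obtain ⟨a, ha, haa⟩ := al_real hg
  obtain ⟨b, hb⟩ := ka_real hg
  have hac : (a : ℂ) ≠ 0 := by exact_mod_cast ha.ne'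
  have hpi := Real.pi_pos
  refine ⟨S₀, Y₀ + (|b| * Real.pi + 1), hS₀, by positivity, fun S hS E hE hEs => ?_⟩
  have hSpos : 0 < S := lt_of_lt_of_le hS₀ hS
  have hell := ell_lim S hSpos.ne'
  refine hE.induction_on (p := fun T : Set ℂ => ∀ᶠ k : ℕ in atTop, ∀ z ∈ T,
    Tendsto (fun m => (pl g (-(k : ℂ) - Complex.I * S))^[m] z) atTop (𝓝 1)) ?_ ?_ ?_ ?_
  · exact Eventually.of_forall fun k z hz => absurd hz (Set.notMem_empty z)
  · intro s t hst ht
    filter_upwards [ht] with k hk z hz using hk z (hst hz)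
  · intro s t hs ht
    filter_upwards [hs, ht] with k hk1 hk2 z hz
    exact hz.elim (hk1 z) (hk2 z)
  · intro z₀ hz₀
    obtain ⟨hzB, hzS⟩ := hEs hz₀
    set y : ℕ → ℂ := fun m => (fun z : ℂ => g.eval z)^[m] z₀ with hy
    have hyB : ∀ m, y m ∈ Bas g c₀ := by
      intro m
      induction m with
      | zero => exact hzB
      | succ m ih =>
        have : y (m + 1) = g.eval (y m) := Function.iterate_succ_apply' _ _ _
        rw [this]
        exact (hinv _).2 ih
    have hys : ∀ m, y (m + 1) = g.eval (y m) := fun m => Function.iterate_succ_apply' _ _ _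
    have hyne : ∀ m, y m ≠ 1 := fun m h => h1B (h ▸ hyB m)
    have hΦ : ∀ m : ℕ, Φ (y m) = Φ z₀ + m := by
      intro m
      induction m with
      | zero => simp [hy]
      | succ m ih =>
        rw [hys m, hF.semΦ _ (hyB m), ih]
        push_cast
        ring
    have hre := re_lim hg hys hyne (hconv z₀ hzB)
    -- choice of `m`
    obtain ⟨m, hm1, hm2, hm3⟩ : ∃ m, R < ((1 - y m)⁻¹).re ∧ a * (R₀ + 1) ≤ ((1 - y m)⁻¹).re ∧
        C ≤ ((1 - y m)⁻¹).re := by
      obtain ⟨m, hm⟩ := ((hre.eventually_gt_atTop R).and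
        ((hre.eventually_ge_atTop (a * (R₀ + 1))).and (hre.eventually_ge_atTop C))).exists
      exact ⟨m, hm.1, hm.2.1, hm.2.2⟩
    set v₀ : ℂ := (1 - y m)⁻¹ with hv₀
    have hv₀ne : v₀ ≠ 0 := inv_ne_zero (sub_ne_zero.2 (hyne m).symm)
    have hyv : 1 - v₀⁻¹ = y m := by rw [hv₀, inv_inv, sub_sub_cancel]
    -- the imaginary part
    have him : (v₀ / a).im ≤ (Φ z₀).im + (|b| * Real.pi + 1) := by
      obtain ⟨-, hasy⟩ := hF.asyΦ v₀ (by
        have := abs_nonneg v₀.im
        linarith)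
      rw [hyv, hΦ m, haa, hb] at hasy
      have hn : C ≤ ‖v₀‖ := hm3.trans ((le_abs_self _).trans (Complex.abs_re_le_norm v₀))
      have hle : ‖Φ z₀ + m - (v₀ / a - b * Complex.log v₀)‖ ≤ 1 :=
        hasy.trans ((div_le_one (lt_of_lt_of_le hF.Cpos hn)).2 hn)
      have h3 := (Complex.abs_im_le_norm _).trans hle
      have h4 : (Φ z₀ + m - (v₀ / a - b * Complex.log v₀)).im =
          (Φ z₀).im - (v₀ / a).im + b * v₀.arg := by
        simp only [Complex.sub_im, Complex.add_im, Complex.natCast_im,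
          Complex.im_ofReal_mul, Complex.log_im]
        ring
      rw [h4] at h3
      have h5 : b * v₀.arg ≤ |b| * Real.pi := by
        calc b * v₀.arg ≤ |b * v₀.arg| := le_abs_self _
          _ = |b| * |v₀.arg| := abs_mul _ _
          _ ≤ |b| * Real.pi := mul_le_mul_of_nonneg_left (Complex.abs_arg_le_pi _) (abs_nonneg _)
      have h6 := (abs_le.1 h3).1
      linarith
    have hrea : R₀ + 1 ≤ (v₀ / a).re := by
      have : (v₀ / a).re = v₀.re / a := Complex.div_ofReal_re _ _
      rw [this, le_div_iff₀ ha]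
      linarith
    -- the limits
    set F : Filter (ℕ × ℂ) := atTop ×ˢ 𝓝 z₀ with hFdef
    have hl : Tendsto (fun x : ℕ × ℂ => 2 * Real.pi * Complex.I / (-(x.1 : ℂ) - Complex.I * S)) F
        (𝓝[≠] 0) := hell.comp (tendsto_fst (g := 𝓝 z₀))
    have hit := iter_lim g (P := fun k : ℕ => -(k : ℂ) - Complex.I * S)
      (hell.mono_right nhdsWithin_le_nhds) z₀ m
    have hv : Tendsto (fun x : ℕ × ℂ => (1 - (pl g (-(x.1 : ℂ) - Complex.I * S))^[m] x.2)⁻¹) F
        (𝓝 v₀) := (hit.const_sub 1).inv₀ (sub_ne_zero.2 (hyne m).symm)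
    obtain ⟨Z, hZ, hZv⟩ := coord hac hv₀ne hl hv
    have hZre : ∀ᶠ x in F, R₀ ≤ (Z x).re := by
      have h3 : Tendsto (fun x => (Z x).re) F (𝓝 (v₀ / a).re) :=
        (Complex.continuous_re.tendsto _).comp hZ
      filter_upwards [h3.eventually_const_lt (show R₀ < (v₀ / a).re by linarith)] with x hx
        using hx.le
    have hZim : ∀ᶠ x in F, (Z x).im ≤ S - Y₀ := by
      have h3 : Tendsto (fun x => (Z x).im) F (𝓝 (v₀ / a).im) :=
        (Complex.continuous_im.tendsto _).comp hZ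
      filter_upwards [h3.eventually_lt_const (show (v₀ / a).im < S - Y₀ by linarith)] with x hx
        using hx.le
    have hall : ∀ᶠ x in F, Tendsto
        (fun j => (pl g (-(x.1 : ℂ) - Complex.I * S))^[j] x.2) atTop (𝓝 1) := by
      filter_upwards [hZre, hZim, hZv] with x hx1 hx2 hx3
      have hPim : (-(x.1 : ℂ) - Complex.I * S).im = -S := by simp
      have hPre : (-(x.1 : ℂ) - Complex.I * S).re ≤ 0 := by simp
      obtain ⟨-, h4⟩ := hora (-(x.1 : ℂ) - Complex.I * S) (by rw [hPim]; linarith) hPre (Z x) hx1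
        (by rw [hPim]; linarith)
      have h5 : VV g (-(x.1 : ℂ) - Complex.I * S) (Z x) =
          (1 - (pl g (-(x.1 : ℂ) - Complex.I * S))^[m] x.2)⁻¹ := by
        rw [← hx3, ← haa]
        rfl
      rw [h5, inv_inv, sub_sub_cancel] at h4
      rw [← tendsto_add_atTop_iff_nat m]
      refine h4.congr fun j => ?_
      rw [Function.iterate_add_apply]
    rw [hFdef, Filter.eventually_prod_iff] at hall
    obtain ⟨pa, hpa, pb, hpb, hab⟩ := hall
    refine ⟨{z | pb z}, mem_nhdsWithin_of_mem_nhds hpb, ?_⟩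
    filter_upwards [hpa] with k hk z hz
    exact hab hk hz

end Pool.Agent.H212.ND
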