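import Pool.Agent.H212.MB.T_LIFT
import Pool.Agent.H212.MB.T_INVB
import Pool.Agent.H212.MB.T_FUND
import Pool.Agent.H212.MB.T_HALF

/-!
# Project ND, JOB UTR, part a: perturbation of the map on the fundamental domain
-/

set_option autoImplicit false

open Filter Metric Set Topology MeasureTheory
open scoped ContDiff ComplexConjugate

namespace Pool.Agent.H212.ND

open Pool.Agent.H212.MB

namespace UTRaux

/-- a positive periodic continuous function on a closed strip is bounded below -/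
theorem per_pos {a b : ℝ} {f : ℂ → ℝ} (hf : ContinuousOn f {w | a ≤ w.im ∧ w.im ≤ b})
    (hper : ∀ w : ℂ, w.im ∈ Icc a b → f (w + 2 * Real.pi) = f w)
    (hpos : ∀ w : ℂ, a ≤ w.im → w.im ≤ b → 0 < f w) :
    ∃ δ : ℝ, 0 < δ ∧ ∀ w : ℂ, a ≤ w.im → w.im ≤ b → δ ≤ f w := by
  have hK : IsCompact (Icc 0 (2 * Real.pi) ×ℂ Icc a b) := isCompact_Icc.reProdIm isCompact_Icc
  have hper' : ∀ w : ℂ, w.im ∈ Icc a b → f (w + ((2 * Real.pi : ℝ) : ℂ)) = f w := by
    intro w hw
    have := hper w hw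
    push_cast
    exact this
  rcases (Icc 0 (2 * Real.pi) ×ℂ Icc a b).eq_empty_or_nonempty with h0 | hne
  · refine ⟨1, one_pos, fun w h1 h2 => ?_⟩
    exfalso
    have : ((w.im : ℂ) * Complex.I) ∈ (Icc 0 (2 * Real.pi) ×ℂ Icc a b) := by
      rw [Complex.mem_reProdIm]
      have hp := Real.pi_pos
      constructor
      · simp
        positivity
      · simp
        exact ⟨h1, h2⟩
    rw [h0] at this
    exact this
  · have hsub : (Icc 0 (2 * Real.pi) ×ℂ Icc a b) ⊆ {w | a ≤ w.im ∧ w.im ≤ b} := by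
      intro w hw
      rw [Complex.mem_reProdIm] at hw
      exact hw.2
    obtain ⟨p, hp, hmin⟩ := hK.exists_isMinOn hne (hf.mono hsub)
    refine ⟨f p, hpos p (hsub hp).1 (hsub hp).2, fun w h1 h2 => ?_⟩
    obtain ⟨w', e1, e2, e3, e4⟩ := FUNDaux.red (Icc a b) Real.two_pi_pos f hper' w ⟨h1, h2⟩
    rw [← e4]
    refine hmin ?_
    rw [Complex.mem_reProdIm]
    exact ⟨⟨e1, e2⟩, by rw [e3]; exact ⟨h1, h2⟩⟩

/-- Cauchy's estimate on a strip -/
theorem cauchy {H : ℂ → ℂ} {a b ε : ℝ} (hab : a < b) (hH : DifferentiableOn ℂ H (SH b))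
    (hε : ∀ w ∈ SH b, ‖H w‖ ≤ ε) {w : ℂ} (hw : |w.im| ≤ a) : ‖deriv H w‖ ≤ ε / ((b - a) / 2) := by
  have hR : 0 < (b - a) / 2 := by linarith
  have hsub : closedBall w ((b - a) / 2) ⊆ SH b := by
    intro z hz
    rw [mem_closedBall, dist_eq_norm] at hz
    change |z.im| < b
    have h1 : |z.im - w.im| ≤ ‖z - w‖ := by
      have := Complex.abs_im_le_norm (z - w)
      rwa [Complex.sub_im] at this
    have h2 : |z.im| ≤ |z.im - w.im| + |w.im| := by
      have := abs_add_le (z.im - w.im) w.im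
      rwa [sub_add_cancel] at this
    linarith
  refine Complex.norm_deriv_le_of_forall_mem_sphere_norm_le hR ?_ ?_
  · exact (hH.mono hsub).diffContOnCl_ball subset_rfl
  · intro z hz
    exact hε z (hsub (sphere_subset_closedBall hz))

theorem dz_add {f g : ℂ → ℂ} {z : ℂ} (hf : DifferentiableAt ℝ f z) (hg : DifferentiableAt ℝ g z) :
    dz (fun w => f w + g w) z = dz f z + dz g z ∧ dzb (fun w => f w + g w) z = dzb f z + dzb g z := by
  unfold dz dzb
  have h : fderiv ℝ (fun w => f w + g w) z = fderiv ℝ f z + fderiv ℝ g z := fderiv_add hf hg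
  rw [h]
  simp only [add_apply]
  constructor <;> ring

/-- the perturbation term -/
theorem fderiv_term {χ : ℝ → ℝ} {D : ℂ → ℂ} {w : ℂ} {L e₀ e₁ : ℝ} (hχ : DifferentiableAt ℝ χ w.im)
    (hχb : |χ w.im| ≤ 1) (hL : |deriv χ w.im| ≤ L) (hD : DifferentiableAt ℂ D w) (h0 : ‖D w‖ ≤ e₀)
    (h1 : ‖deriv D w‖ ≤ e₁) :
    DifferentiableAt ℝ (fun w : ℂ => ((χ w.im : ℝ) : ℂ) * D w) w ∧
      ‖fderiv ℝ (fun w : ℂ => ((χ w.im : ℝ) : ℂ) * D w) w‖ ≤ L * e₀ + e₁ := by
  have hL0 : 0 ≤ L := (abs_nonneg _).trans hL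
  have he0 : 0 ≤ e₀ := (norm_nonneg _).trans h0
  have he1 : 0 ≤ e₁ := (norm_nonneg _).trans h1
  have f1 : HasFDerivAt (fun w : ℂ => w.im) (Complex.imCLM : ℂ →L[ℝ] ℝ) w := Complex.imCLM.hasFDerivAt
  have f2 : HasFDerivAt (fun w : ℂ => χ w.im) (deriv χ w.im • (Complex.imCLM : ℂ →L[ℝ] ℝ)) w :=
    hχ.hasDerivAt.comp_hasFDerivAt w f1
  have f3 : HasFDerivAt (fun w : ℂ => ((χ w.im : ℝ) : ℂ))
      (Complex.ofRealCLM.comp (deriv χ w.im • (Complex.imCLM : ℂ →L[ℝ] ℝ))) w :=
    Complex.ofRealCLM.hasFDerivAt.comp w f2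
  have f4 : HasFDerivAt D
      (ContinuousLinearMap.restrictScalars ℝ (ContinuousLinearMap.toSpanSingleton ℂ (deriv D w))) w :=
    hD.hasDerivAt.hasFDerivAt.restrictScalars ℝ
  have f5 := f3.mul f4
  refine ⟨f5.differentiableAt, ?_⟩
  have f6 : fderiv ℝ (fun w : ℂ => ((χ w.im : ℝ) : ℂ) * D w) w = _ := f5.fderiv
  rw [f6]
  refine ContinuousLinearMap.opNorm_le_bound _ (by positivity) (fun v => ?_)
  simp only [add_apply, smul_apply,
    ContinuousLinearMap.coe_restrictScalars', ContinuousLinearMap.toSpanSingleton_apply,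
    ContinuousLinearMap.comp_apply, Complex.ofRealCLM_apply, Complex.imCLM_apply, smul_eq_mul]
  refine (norm_add_le _ _).trans ?_
  rw [norm_mul, norm_mul, norm_mul, Complex.norm_real, Complex.norm_real, Real.norm_eq_abs,
    Real.norm_eq_abs, abs_mul]
  have g1 : |χ w.im| * (‖v‖ * ‖deriv D w‖) ≤ e₁ * ‖v‖ := by
    calc |χ w.im| * (‖v‖ * ‖deriv D w‖) ≤ 1 * (‖v‖ * e₁) := by gcongr
      _ = e₁ * ‖v‖ := by ring
  have g2 : ‖D w‖ * (|deriv χ w.im| * |v.im|) ≤ L * e₀ * ‖v‖ := by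
    calc ‖D w‖ * (|deriv χ w.im| * |v.im|) ≤ e₀ * (L * ‖v‖) := by
          have := Complex.abs_im_le_norm v
          gcongr
      _ = L * e₀ * ‖v‖ := by ring
  linarith

variable {n : ℕ} {η₀ : ℝ} {α G : ℂ → ℂ} {η₁ m c η θ k C : ℝ} {T₁ : ℂ → ℂ}

theorem fund_mono (hF : Fund n G η₁ η θ k C T₁) {θ' : ℝ} (h : θ ≤ θ') (h1 : θ' < 1) :
    Fund n G η₁ η θ' k C T₁ := by
  have hη := hF.ηpos
  have hle : θ * η ≤ θ' * η := mul_le_mul_of_nonneg_right h hη.le
  have hle2 : θ * (n * η) ≤ θ' * (n * η) := mul_le_mul_of_nonneg_right h (by positivity)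
  exact
  { ηpos := hF.ηpos
    θpos := hF.θpos.trans_le h
    θ1 := h1
    k0 := hF.k0
    k1 := hF.k1
    small := hF.small
    smooth := hF.smooth.mono (fun w (hw : θ' * η < w.im) => hle.trans_lt hw)
    per := fun w hw => hF.per w (hle.trans_lt hw)
    top := fun w hw => hF.top w (hle2.trans_lt hw)
    bot := fun w hw => hF.bot w (hle.trans_lt hw)
    imp := fun w hw => hF.imp w (hle.trans_lt hw)
    iml := fun w hw => hF.iml w (hle.trans_lt hw)
    nd := fun w hw => hF.nd w (hle.trans_lt hw)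
    dil := fun w hw => hF.dil w (hle.trans_lt hw)
    bdd := fun w hw => hF.bdd w (hle.trans_lt hw) }

/-- the cut-off function -/
theorem cutoff {a b : ℝ} (hab : a < b) : ∃ (χ : ℝ → ℝ) (L : ℝ), ContDiff ℝ ∞ χ ∧ (∀ t, t ≤ a → χ t = 1) ∧
    (∀ t, b ≤ t → χ t = 0) ∧ (∀ t, |χ t| ≤ 1) ∧ ∀ t, t ∈ Icc a b → |deriv χ t| ≤ L := by
  have h0 : 0 < b - a := by linarith
  have hs : ContDiff ℝ ∞ (fun t : ℝ => Real.smoothTransition ((b - t) / (b - a))) := by
    refine Real.smoothTransition.contDiff.comp ?_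
    exact (contDiff_const.sub contDiff_id).div_const _
  have hc : Continuous (deriv (fun t : ℝ => Real.smoothTransition ((b - t) / (b - a)))) :=
    hs.continuous_deriv (by simp)
  obtain ⟨L, hL⟩ := (isCompact_Icc (a := a) (b := b)).exists_bound_of_continuousOn hc.continuousOn
  refine ⟨_, L, hs, ?_, ?_, ?_, ?_⟩
  · intro t ht
    apply Real.smoothTransition.one_of_one_le
    rw [le_div_iff₀ h0]
    linarith
  · intro t ht
    apply Real.smoothTransition.zero_of_nonpos
    apply div_nonpos_of_nonpos_of_nonneg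
    · linarith
    · exact h0.le
  · intro t
    rw [abs_of_nonneg (Real.smoothTransition.nonneg _)]
    exact Real.smoothTransition.le_one _
  · intro t ht
    have := hL t ht
    rwa [Real.norm_eq_abs] at this

theorem im_nmul (n : ℕ) (w : ℂ) : ((n : ℂ) * w).im = n * w.im := HALFaux.im_nmul n w

theorem fderiv_per (hF : Fund n G η₁ η θ k C T₁) {w : ℂ} (hw : θ * η < w.im) :
    fderiv ℝ T₁ (w + 2 * Real.pi) = fderiv ℝ T₁ w := by
  have hUo : IsOpen {w : ℂ | θ * η < w.im} := isOpen_lt continuous_const Complex.continuous_im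
  rw [← fderiv_comp_add_right]
  have h1 : (fun z => T₁ (z + 2 * Real.pi)) =ᶠ[𝓝 w] fun z => T₁ z + 2 * Real.pi := by
    filter_upwards [hUo.mem_nhds hw] with z hz using hF.per z hz
  rw [h1.fderiv_eq, fderiv_add_const]

theorem mem_SH_div (hn0 : (0 : ℝ) < n) {w : ℂ} : w ∈ SH (η₁ / n) ↔ (n : ℂ) * w ∈ SH η₁ := by
  change |w.im| < η₁ / n ↔ |((n : ℂ) * w).im| < η₁
  rw [im_nmul, abs_mul, abs_of_pos hn0, lt_div_iff₀ hn0, mul_comm]

theorem diff_nmul (hn0 : (0 : ℝ) < n) {H : ℂ → ℂ} (hH : DifferentiableOn ℂ H (SH η₁)) :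
    DifferentiableOn ℂ (fun w : ℂ => H (n * w)) (SH (η₁ / n)) := by
  refine hH.comp (differentiableOn_id.const_mul (n : ℂ)) ?_
  intro w hw
  exact (mem_SH_div hn0).1 hw

/-- perturbation of the map on the fundamental domain -/
theorem fund_pert (hn : 2 ≤ n) (hG : InvBr n η₀ α G η₁ m c) (hF : Fund n G η₁ η θ k C T₁)
    (hnθ : 1 < n * θ) : ∃ ε : ℝ, 0 < ε ∧ ∀ (η₀' : ℝ) (α' G' : ℂ → ℂ) (m' c' : ℝ),
      InvBr n η₀' α' G' η₁ m' c' → (∀ w ∈ SH η₁, ‖G' w - G w‖ ≤ ε) →
        ∃ T₁' : ℂ → ℂ, Fund n G' η₁ η θ ((k + 1) / 2) (C + 1) T₁' := by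
  have hηp := hF.ηpos
  have hk0 := hF.k0
  have hk1 := hF.k1
  have hn' : (2 : ℝ) ≤ n := by exact_mod_cast hn
  have hn0 : (0 : ℝ) < n := by linarith
  have hθη : θ * η < η := HALFaux.θη_lt hF
  have hθη0 : 0 < θ * η := HALFaux.θη_pos hF
  have hsm : η < η₁ / n := by
    rw [lt_div_iff₀ hn0, mul_comm]
    exact hF.small
  have hsm2 : η < θ * (n * η) := by nlinarith
  obtain ⟨b, hb⟩ : ∃ b : ℝ, b = (η + min (θ * (n * η)) (η₁ / n)) / 2 := ⟨_, rfl⟩
  have hb1 : η < b := by
    rw [hb]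
    have := lt_min hsm2 hsm
    linarith
  have hb2 : b < θ * (n * η) := by
    rw [hb]
    have := min_le_left (θ * (n * η)) (η₁ / n)
    linarith
  have hb3 : b < η₁ / n := by
    rw [hb]
    have := min_le_right (θ * (n * η)) (η₁ / n)
    linarith
  have hb4 : b < n * η := by
    refine hb2.trans ?_
    have : 0 < n * η := by positivity
    nlinarith [hF.θ1]
  obtain ⟨χ, L, hχ, hχ1, hχ0, hχb, hχL⟩ := cutoff hb1
  have hL0 : 0 ≤ L := (abs_nonneg _).trans (hχL η ⟨le_rfl, hb1.le⟩)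
  have hUo : IsOpen {w : ℂ | θ * η < w.im} := isOpen_lt continuous_const Complex.continuous_im
  have hfd : ContinuousOn (fderiv ℝ T₁) {w : ℂ | θ * η < w.im} :=
    hF.smooth.continuousOn_fderiv_of_isOpen hUo (by simp)
  have hsub : {w : ℂ | η ≤ w.im ∧ w.im ≤ b} ⊆ {w : ℂ | θ * η < w.im} := fun w hw => hθη.trans_le hw.1
  have hdzc : ContinuousOn (fun w => ‖dz T₁ w‖) {w : ℂ | η ≤ w.im ∧ w.im ≤ b} := by
    have h1 : ContinuousOn (dz T₁) {w : ℂ | θ * η < w.im} := by
      unfold dz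
      have e1 : ContinuousOn (fun w => fderiv ℝ T₁ w 1) {w : ℂ | θ * η < w.im} :=
        hfd.clm_apply continuousOn_const
      have e2 : ContinuousOn (fun w => fderiv ℝ T₁ w Complex.I) {w : ℂ | θ * η < w.im} :=
        hfd.clm_apply continuousOn_const
      exact (e1.sub (continuousOn_const.mul e2)).div_const 2
    exact (h1.mono hsub).norm
  obtain ⟨δ₁, hδ₁, hδ1⟩ := per_pos (a := η) (b := b) (f := fun w => ‖dz T₁ w‖) hdzc
    (fun w hw => by
      simp only [dz]
      rw [fderiv_per hF (hθη.trans_le hw.1)])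
    (fun w h1 h2 => norm_pos_iff.2 (hF.nd w (hθη.trans_le h1)))
  obtain ⟨δ₂, hδ₂, hδ2⟩ := per_pos (a := η) (b := b) (f := fun w => η₁ - (T₁ w).im)
    (continuousOn_const.sub (Complex.continuous_im.comp_continuousOn (hF.smooth.continuousOn.mono hsub)))
    (fun w hw => by
      rw [hF.per w (hθη.trans_le hw.1), INVBaux.shift_im])
    (fun w h1 h2 => by
      have := hF.iml w (hθη.trans_le h1) (h2.trans hb4.le)
      linarith)
  obtain ⟨δ₀, hδ₀, hδ0⟩ := HALFaux.T1_lower hn hG hF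
  -- the constants
  obtain ⟨A, hA⟩ : ∃ A : ℝ, A = L + 1 / ((η₁ / n - b) / 2) := ⟨_, rfl⟩
  have hgap : 0 < (η₁ / n - b) / 2 := by linarith
  have hA0 : 0 < A := by rw [hA]; positivity
  obtain ⟨E, hE⟩ : ∃ E : ℝ, E = (1 - k) / 4 * δ₁ := ⟨_, rfl⟩
  have hE0 : 0 < E := by
    rw [hE]
    have : 0 < 1 - k := by linarith
    positivity
  obtain ⟨ε, hε⟩ : ∃ ε : ℝ, ε = min (min 1 (δ₀ / 2)) (min (δ₂ / 2) (E / A)) := ⟨_, rfl⟩
  have hε0 : 0 < ε := by
    rw [hε]
    positivity
  have hε1 : ε ≤ 1 := by rw [hε]; exact (min_le_left _ _).trans (min_le_left _ _)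
  have hε2 : ε ≤ δ₀ / 2 := by rw [hε]; exact (min_le_left _ _).trans (min_le_right _ _)
  have hε3 : ε ≤ δ₂ / 2 := by rw [hε]; exact (min_le_right _ _).trans (min_le_left _ _)
  have hε4 : A * ε ≤ E := by
    have : ε ≤ E / A := by rw [hε]; exact (min_le_right _ _).trans (min_le_right _ _)
    rw [le_div_iff₀ hA0] at this
    linarith
  refine ⟨ε, hε0, ?_⟩
  intro η₀' α' G' m' c' hG' hclose
  obtain ⟨D, hD⟩ : ∃ D : ℂ → ℂ, D = fun w => G' (n * w) - G (n * w) := ⟨_, rfl⟩
  have hDd : DifferentiableOn ℂ D (SH (η₁ / n)) := by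
    rw [hD]
    exact (diff_nmul hn0 hG'.diff).sub (diff_nmul hn0 hG.diff)
  have hDb : ∀ w ∈ SH (η₁ / n), ‖D w‖ ≤ ε := by
    intro w hw
    rw [hD]
    exact hclose _ ((mem_SH_div hn0).1 hw)
  obtain ⟨P, hP⟩ : ∃ P : ℂ → ℂ, P = fun w => ((χ w.im : ℝ) : ℂ) * D w := ⟨_, rfl⟩
  have hP0 : ∀ w : ℂ, b ≤ w.im → P w = 0 := by
    intro w hw
    rw [hP]
    simp only [hχ0 w.im hw, Complex.ofReal_zero, zero_mul]
  have hP1 : ∀ w : ℂ, w.im ≤ η → P w = D w := by
    intro w hw
    rw [hP]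
    simp only [hχ1 w.im hw, Complex.ofReal_one, one_mul]
  have hmemS : ∀ w : ℂ, 0 < w.im → w.im ≤ b → w ∈ SH (η₁ / n) := by
    intro w h0 h1
    change |w.im| < η₁ / n
    rw [abs_of_pos h0]
    linarith
  have hPb : ∀ w : ℂ, 0 < w.im → ‖P w‖ ≤ ε := by
    intro w h0
    rcases le_or_gt b w.im with h | h
    · rw [hP0 w h, norm_zero]
      exact hε0.le
    · rw [hP]
      simp only [norm_mul, Complex.norm_real, Real.norm_eq_abs]
      calc |χ w.im| * ‖D w‖ ≤ 1 * ε := by
            have h1 := hDb w (hmemS w h0 h.le)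
            have h2 := hχb w.im
            gcongr
        _ = ε := one_mul ε
  have hDper : ∀ w : ℂ, 0 < w.im → w.im ≤ b → D (w + 2 * Real.pi) = D w := by
    intro w h0 h1
    have hm := (mem_SH_div hn0).1 (hmemS w h0 h1)
    have e : (n : ℂ) * (w + 2 * Real.pi) = n * w + 2 * Real.pi * n := by ring
    rw [hD]
    simp only [e]
    rw [hG'.per _ hm, hG.per _ hm]
    ring
  have hPper : ∀ w : ℂ, 0 < w.im → P (w + 2 * Real.pi) = P w := by
    intro w h0
    rcases le_or_gt b w.im with h | h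
    · rw [hP0 w h, hP0 _ (by rw [INVBaux.shift_im]; exact h)]
    · rw [hP]
      simp only [INVBaux.shift_im, hDper w h0 h.le]
  -- smoothness
  have hPs : ∀ w : ℂ, 0 < w.im → ContDiffAt ℝ ∞ P w := by
    intro w h0
    rcases le_or_gt w.im b with h | h
    · have hmw := hmemS w h0 h
      have hDa : AnalyticAt ℂ D w := hDd.analyticAt ((HALFaux.isOpen_SH _).mem_nhds hmw)
      have hDs : ContDiffAt ℝ ∞ D w := (hDa.contDiffAt (n := ∞)).restrict_scalars ℝ
      have hχs : ContDiffAt ℝ ∞ (fun w : ℂ => ((χ w.im : ℝ) : ℂ)) w :=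
        (Complex.ofRealCLM.contDiff.comp (hχ.comp Complex.imCLM.contDiff)).contDiffAt
      rw [hP]
      exact hχs.mul hDs
    · have hop : {w : ℂ | b < w.im} ∈ 𝓝 w :=
        (isOpen_lt continuous_const Complex.continuous_im).mem_nhds h
      have he : P =ᶠ[𝓝 w] fun _ => 0 := by
        filter_upwards [hop] with v hv using hP0 v (le_of_lt hv)
      exact contDiffAt_const.congr_of_eventuallyEq he
  obtain ⟨T, hT⟩ : ∃ T : ℂ → ℂ, T = fun w => T₁ w + P w := ⟨_, rfl⟩
  have hTs : ∀ w : ℂ, θ * η < w.im → ContDiffAt ℝ ∞ T w := by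
    intro w hw
    rw [hT]
    exact (hF.smooth.contDiffAt (hUo.mem_nhds hw)).add (hPs w (hθη0.trans hw))
  have hTbot : ∀ w : ℂ, θ * η < w.im → w.im ≤ η → T w = G' (n * w) := by
    intro w hw h1
    rw [hT]
    simp only
    rw [hP1 w h1, hF.bot w hw h1, hD]
    simp only
    ring
  have hmemG : ∀ w : ℂ, 0 < w.im → w.im ≤ η → (n : ℂ) * w ∈ SH η₁ := fun w h0 h1 =>
    (mem_SH_div hn0).1 (hmemS w h0 (h1.trans hb1.le))
  -- the derivatives
  have hder : ∀ w : ℂ, θ * η < w.im → dz T w ≠ 0 ∧ ‖dzb T w‖ ≤ (k + 1) / 2 * ‖dz T w‖ := by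
    intro w hw
    have hw0 : 0 < w.im := hθη0.trans hw
    rcases lt_or_ge w.im η with h | h
    · have hop : {w : ℂ | θ * η < w.im ∧ w.im < η} ∈ 𝓝 w :=
        ((isOpen_lt continuous_const Complex.continuous_im).inter
          (isOpen_lt Complex.continuous_im continuous_const)).mem_nhds ⟨hw, h⟩
      have he : T =ᶠ[𝓝 w] fun w => G' (n * w) := by
        filter_upwards [hop] with v hv using hTbot v hv.1 hv.2.le
      have hm := hmemG w hw0 h.le
      have hGa : AnalyticAt ℂ G' (n * w) := hG'.diff.analyticAt ((HALFaux.isOpen_SH _).mem_nhds hm)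
      have hlin : HasDerivAt (fun v : ℂ => (n : ℂ) * v) (n : ℂ) w := by
        simpa using (hasDerivAt_id w).const_mul (n : ℂ)
      have hd : HasDerivAt (fun w => G' (n * w)) (deriv G' (n * w) * n) w :=
        hGa.differentiableAt.hasDerivAt.comp w hlin
      obtain ⟨d1, d2⟩ := dz_congr he
      obtain ⟨d3, d4⟩ := dz_of_hasDerivAt hd
      rw [d1, d2, d3, d4, norm_zero]
      refine ⟨mul_ne_zero (HALFaux.G_deriv_ne hG' hm) ?_, by positivity⟩
      exact_mod_cast hn0.ne'
    · rcases le_or_gt w.im b with h2 | h2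
      · have hmw := hmemS w hw0 h2
        have hDa : DifferentiableAt ℂ D w := hDd.differentiableAt ((HALFaux.isOpen_SH _).mem_nhds hmw)
        obtain ⟨p1, p2⟩ := fderiv_term (χ := χ) (D := D) (w := w) (L := L) (e₀ := ε)
          (e₁ := ε / ((η₁ / n - b) / 2)) (hχ.differentiable (by simp) _) (hχb _) (hχL _ ⟨h, h2⟩) hDa (hDb w hmw)
          (cauchy hb3 hDd hDb (by rw [abs_of_pos hw0]; exact h2))
        rw [← hP] at p1 p2
        have p3 : L * ε + ε / ((η₁ / n - b) / 2) = A * ε := by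
          rw [hA]
          ring
        rw [p3] at p2
        have p4 := p2.trans hε4
        have p5 := (norm_dz_le P w).trans p4
        have p6 := (norm_dzb_le P w).trans p4
        have p7 : DifferentiableAt ℝ T₁ w :=
          (hF.smooth.contDiffAt (hUo.mem_nhds hw)).differentiableAt (by simp)
        obtain ⟨q1, q2⟩ := dz_add p7 p1
        rw [← hT] at q1 q2
        have p8 := hδ1 w h h2
        have p9 := hF.dil w hw
        have p10 : ‖dz T₁ w‖ - E ≤ ‖dz T w‖ := by
          rw [q1]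
          have := norm_sub_norm_le (dz T₁ w) (-(dz P w))
          rw [norm_neg, sub_neg_eq_add] at this
          linarith
        have p11 : ‖dzb T w‖ ≤ k * ‖dz T₁ w‖ + E := by
          rw [q2]
          exact (norm_add_le _ _).trans (by linarith)
        have p12 : 2 * E ≤ (1 - k) / 2 * ‖dz T₁ w‖ := by
          rw [hE]
          have : (1 - k) / 2 * δ₁ ≤ (1 - k) / 2 * ‖dz T₁ w‖ :=
            mul_le_mul_of_nonneg_left p8 (by linarith)
          linarith
        have p13 : E < δ₁ := by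
          rw [hE]
          nlinarith
        constructor
        · have : 0 < ‖dz T w‖ := by linarith
          exact norm_pos_iff.1 this
        · have p14 : (k + 1) / 2 * (‖dz T₁ w‖ - E) ≤ (k + 1) / 2 * ‖dz T w‖ :=
            mul_le_mul_of_nonneg_left p10 (by linarith)
          have p15 : (k + 1) / 2 * E ≤ E := by nlinarith
          nlinarith
      · have hop : {w : ℂ | b < w.im} ∈ 𝓝 w :=
          (isOpen_lt continuous_const Complex.continuous_im).mem_nhds h2
        have he : T =ᶠ[𝓝 w] T₁ := by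
          filter_upwards [hop] with v hv
          rw [hT]
          simp only
          rw [hP0 v (le_of_lt hv), add_zero]
        obtain ⟨d1, d2⟩ := dz_congr he
        rw [d1, d2]
        refine ⟨hF.nd w hw, (hF.dil w hw).trans ?_⟩
        exact mul_le_mul_of_nonneg_right (by linarith) (norm_nonneg _)
  refine ⟨T, ?_⟩
  exact
  { ηpos := hF.ηpos
    θpos := hF.θpos
    θ1 := hF.θ1
    k0 := by linarith
    k1 := by linarith
    small := hF.small
    smooth := fun w hw => (hTs w hw).contDiffWithinAt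
    per := fun w hw => by
      rw [hT]
      simp only
      rw [hF.per w hw, hPper w (hθη0.trans hw)]
      ring
    top := fun w hw => by
      rw [hT]
      simp only
      rw [hF.top w hw, hP0 w (hb2.trans hw).le, add_zero]
    bot := hTbot
    imp := fun w hw => by
      have h1 := hδ0 w hw
      have h2 := hPb w (hθη0.trans hw)
      have h3 := (abs_le.1 ((Complex.abs_im_le_norm (P w)).trans h2)).1
      rw [hT]
      simp only [Complex.add_im]
      linarith
    iml := fun w hw hw1 => by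
      have hw0 : 0 < w.im := hθη0.trans hw
      rcases le_or_gt w.im η with h | h
      · rw [hTbot w hw h]
        have hm := hmemG w hw0 h
        have h1 := (le_abs_self _).trans (HALFaux.G_im_lt hG' hm)
        have h2 : |((n : ℂ) * w).im| < η₁ := hm
        have h3 : |((n : ℂ) * w).im| / m' ≤ |((n : ℂ) * w).im| := div_le_self (abs_nonneg _) hG'.m1.le
        linarith
      · rcases le_or_gt w.im b with h2 | h2
        · have h3 := hδ2 w h.le h2
          have h4 := hPb w hw0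
          have h5 := (abs_le.1 ((Complex.abs_im_le_norm (P w)).trans h4)).2
          rw [hT]
          simp only [Complex.add_im]
          linarith
        · rw [hT]
          simp only
          rw [hP0 w h2.le, add_zero]
          exact hF.iml w hw hw1
    nd := fun w hw => (hder w hw).1
    dil := fun w hw => (hder w hw).2
    bdd := fun w hw => by
      have h1 := hF.bdd w hw
      have h2 := hPb w (hθη0.trans hw)
      have h3 : T w - w = (T₁ w - w) + P w := by
        rw [hT]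
        ring
      rw [h3]
      exact (norm_add_le _ _).trans (by linarith) }

end UTRaux

end Pool.Agent.H212.ND
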