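import Pool.Agent.H212.ND.StmM
import Pool.Agent.H212.ND.T_UTRa
import Pool.Agent.H212.MB.T_PROP
import Pool.Agent.H212.MB.T_DISC

/-!
# Project ND, JOB UTR: transition maps with a uniform constant
-/

set_option autoImplicit false

open Filter Metric Set Topology MeasureTheory
open scoped ContDiff ComplexConjugate

namespace Pool.Agent.H212.ND

open Pool.Agent.H212.MB

namespace UTRaux

open LIFTaux INVBaux

/-- the lift, up to a constant -/
noncomputable def be (n : ℕ) (a : Fin (n - 1) → ℂ) (w : ℂ) : ℂ := n * w - Complex.I * ∑ i, bt (a i) w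

/-- the lift with the fixed point `x` -/
noncomputable def alf (n : ℕ) (a : Fin (n - 1) → ℂ) (x : ℝ) (w : ℂ) : ℂ := (x - be n a x) + be n a w

variable {n : ℕ}

theorem be_deriv {a : Fin (n - 1) → ℂ} {η : ℝ} (ha : ∀ i, ‖a i‖ * Real.exp η < 1) {w : ℂ} (hw : w ∈ SH η) :
    HasDerivAt (be n a) (n - Complex.I * ∑ i,
        (Complex.I * (a i * Complex.exp (-(Complex.I * w))) / (1 - a i * Complex.exp (-(Complex.I * w))) +
        Complex.I * (conj (a i) * Complex.exp (Complex.I * w)) /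
          (1 - conj (a i) * Complex.exp (Complex.I * w)))) w := by
  have e1 : HasDerivAt (fun w : ℂ => (n : ℂ) * w) (n : ℂ) w := by
    simpa using (hasDerivAt_id w).const_mul (n : ℂ)
  have e2 : HasDerivAt (fun w : ℂ => ∑ i, bt (a i) w) (∑ i,
      (Complex.I * (a i * Complex.exp (-(Complex.I * w))) / (1 - a i * Complex.exp (-(Complex.I * w))) +
      Complex.I * (conj (a i) * Complex.exp (Complex.I * w)) /
        (1 - conj (a i) * Complex.exp (Complex.I * w)))) w :=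
    HasDerivAt.fun_sum (fun i _ => bt_deriv (ha i) hw)
  exact e1.sub (e2.const_mul Complex.I)

theorem be_real {a : Fin (n - 1) → ℂ} (ha : ∀ i, ‖a i‖ < 1) (x : ℝ) : (be n a x).im = 0 := by
  have h1 : (Complex.I * ∑ i, bt (a i) (x : ℂ)).im = 0 := by
    rw [Complex.mul_im, Complex.I_re, Complex.I_im, zero_mul, zero_add, one_mul, Complex.re_sum]
    exact Finset.sum_eq_zero (fun i _ => bt_real (ha i) x)
  have h2 : ((n : ℂ) * (x : ℂ)).im = 0 := by
    have : ((n : ℂ) * (x : ℂ)) = ((n * x : ℝ) : ℂ) := by push_cast; ring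
    rw [this, Complex.ofReal_im]
  unfold be
  rw [Complex.sub_im, h1, h2, sub_zero]

theorem lift_alf (hn : 2 ≤ n) {a : Fin (n - 1) → ℂ} {η : ℝ} (hη : 0 < η)
    (ha : ∀ i, ‖a i‖ * Real.exp η < 1) (x : ℝ) : Lift n η (alf n a x) := by
  have ha1 : ∀ i, ‖a i‖ < 1 := by
    intro i
    have h1 : 1 ≤ Real.exp η := Real.one_le_exp hη.le
    have h2 : ‖a i‖ * 1 ≤ ‖a i‖ * Real.exp η := mul_le_mul_of_nonneg_left h1 (norm_nonneg _)
    linarith [ha i]
  have hd : ∀ w ∈ SH η, HasDerivAt (alf n a x) _ w := fun w hw =>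
    (be_deriv ha hw).const_add ((x : ℂ) - be n a x)
  refine ⟨hη, ?_, ?_, ?_, ?_⟩
  · intro w hw
    exact (hd w hw).differentiableAt.differentiableWithinAt
  · intro w hw
    unfold alf
    have : be n a (w + 2 * Real.pi) = be n a w + 2 * Real.pi * n := by
      unfold be
      simp only [bt_per]
      ring
    rw [this]
    ring
  · intro y
    unfold alf
    rw [Complex.add_im, Complex.sub_im, be_real ha1, be_real ha1, Complex.ofReal_im]
    simp
  · intro y
    have hx : (y : ℂ) ∈ SH η := by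
      simp only [SH, Set.mem_ofPred_eq, Complex.ofReal_im, abs_zero]
      exact hη
    rw [(hd y hx).deriv]
    have h1 : ∀ i, 0 < 1 + 2 * ((conj (a i) * Complex.exp (Complex.I * y)) /
        (1 - conj (a i) * Complex.exp (Complex.I * y))).re := by
      intro i
      exact half_plane (lt2 (ha i) hx)
    have h2 : ((n : ℂ) - Complex.I * ∑ i,
        (Complex.I * (a i * Complex.exp (-(Complex.I * y))) / (1 - a i * Complex.exp (-(Complex.I * y))) +
        Complex.I * (conj (a i) * Complex.exp (Complex.I * y)) /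
          (1 - conj (a i) * Complex.exp (Complex.I * y)))).re =
        1 + ∑ i, (1 + 2 * ((conj (a i) * Complex.exp (Complex.I * y)) /
        (1 - conj (a i) * Complex.exp (Complex.I * y))).re) := by
      rw [sub_eq_add_neg, Complex.add_re, Complex.natCast_re, Finset.mul_sum, ← Finset.sum_neg_distrib,
        Complex.re_sum]
      simp only [bt_re]
      rw [Finset.sum_add_distrib, Finset.sum_const, Finset.card_univ, Fintype.card_fin, nsmul_eq_mul, mul_one]
      have : (n : ℝ) = ((n - 1 : ℕ) : ℝ) + 1 := by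
        have : n = (n - 1) + 1 := by omega
        exact_mod_cast this
      rw [this]
      ring
    rw [h2]
    have h3 : 0 < ∑ i, (1 + 2 * ((conj (a i) * Complex.exp (Complex.I * y)) /
        (1 - conj (a i) * Complex.exp (Complex.I * y))).re) := by
      apply Finset.sum_pos (fun i _ => h1 i)
      exact ⟨⟨0, by omega⟩, Finset.mem_univ _⟩
    linarith

theorem exp_be (hn : 2 ≤ n) (B : Blaschke n) {η : ℝ} (ha : ∀ i, ‖B.a i‖ * Real.exp η < 1) {w : ℂ}
    (hw : w ∈ SH η) : B.c * Complex.exp (Complex.I * be n B.a w) = B.ev (Complex.exp (Complex.I * w)) := by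
  have hcast : (n : ℂ) = ((n - 1 : ℕ) : ℂ) + 1 := by
    have : n = (n - 1) + 1 := by omega
    exact_mod_cast this
  have h1 : Complex.I * be n B.a w = (n : ℂ) * (Complex.I * w) + (∑ i, bt (B.a i) w) := by
    unfold be
    linear_combination -(∑ i, bt (B.a i) w) * Complex.I_mul_I
  rw [h1, Complex.exp_add, Complex.exp_sum]
  have h2 : Complex.exp ((n : ℂ) * (Complex.I * w)) =
      Complex.exp (Complex.I * w) * ∏ _i : Fin (n - 1), Complex.exp (Complex.I * w) := by
    rw [Finset.prod_const, Finset.card_univ, Fintype.card_fin, hcast, add_mul, Complex.exp_add, one_mul,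
      Complex.exp_nat_mul, mul_comm]
  rw [h2]
  have h3 : ∀ i, Complex.exp (bt (B.a i) w) =
      (1 - B.a i * Complex.exp (-(Complex.I * w))) / (1 - conj (B.a i) * Complex.exp (Complex.I * w)) :=
    fun i => exp_bt (ha i) hw
  simp only [h3]
  unfold Blaschke.ev Blaschke.num Blaschke.den
  rw [Finset.prod_div_distrib]
  have h4 : (∏ _i : Fin (n - 1), Complex.exp (Complex.I * w)) *
      ∏ i, (1 - B.a i * Complex.exp (-(Complex.I * w))) = ∏ i, (Complex.exp (Complex.I * w) - B.a i) := by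
    rw [← Finset.prod_mul_distrib]
    apply Finset.prod_congr rfl
    intro i _
    have h5 : Complex.exp (Complex.I * w) * Complex.exp (-(Complex.I * w)) = 1 := by
      rw [← Complex.exp_add, add_neg_cancel, Complex.exp_zero]
    linear_combination -(B.a i) * h5
  rw [← h4]
  ring

theorem liftOf_alf (hn : 2 ≤ n) (B : Blaschke n) {η : ℝ} (hη : 0 < η)
    (ha : ∀ i, ‖B.a i‖ * Real.exp η < 1) {x : ℝ} (hx : Complex.exp (Complex.I * x) = B.b) :
    LiftOf B η (alf n B.a x) x := by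
  have hx0 : (x : ℂ) ∈ SH η := by
    simp only [SH, Set.mem_ofPred_eq, Complex.ofReal_im, abs_zero]
    exact hη
  have hevb : B.ev B.b = B.b := by
    have h := B.fix
    rw [Finset.prod_div_distrib] at h
    unfold Blaschke.ev Blaschke.num Blaschke.den
    rw [mul_div_assoc]
    exact h
  refine ⟨lift_alf hn hη ha x, ?_, ?_, hx⟩
  · intro w hw
    constructor
    · unfold Blaschke.den
      rw [Finset.prod_ne_zero_iff]
      intro i _
      exact Complex.slitPlane_ne_zero (slit (lt2 (ha i) hw))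
    · have h1 := exp_be hn B ha hw
      have h2 := exp_be hn B ha hx0
      rw [hx, hevb] at h2
      have h3 : Complex.I * alf n B.a x w = Complex.I * x - Complex.I * be n B.a x + Complex.I * be n B.a w := by
        unfold alf
        ring
      have hb0 : B.b ≠ 0 := by
        intro h0
        have := B.norm_b
        rw [h0, norm_zero] at this
        exact zero_ne_one this
      have he0 := Complex.exp_ne_zero (Complex.I * be n B.a x)
      rw [h3, Complex.exp_add, Complex.exp_sub, hx, ← h1, div_mul_eq_mul_div, div_eq_iff he0]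
      linear_combination (-Complex.exp (Complex.I * be n B.a w)) * h2
  · unfold alf
    ring

/-- the logarithm is Lipschitz away from `0` -/
theorem log_lip {ρ : ℝ} (hρ : ρ < 1) {u v : ℂ} (hu : ‖u‖ ≤ ρ) (hv : ‖v‖ ≤ ρ) :
    ‖Complex.log (1 - u) - Complex.log (1 - v)‖ ≤ 1 / (1 - ρ) * ‖u - v‖ := by
  have h0 : 0 < 1 - ρ := by linarith
  refine (convex_closedBall (0 : ℂ) ρ).norm_image_sub_le_of_norm_hasDerivWithin_le
    (f := fun u : ℂ => Complex.log (1 - u)) (f' := fun u : ℂ => -1 / (1 - u)) ?_ ?_ ?_ ?_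
  · intro z hz
    rw [mem_closedBall_zero_iff] at hz
    have hs := slit (hz.trans_lt hρ)
    exact (((hasDerivAt_id z).const_sub 1).clog hs).hasDerivWithinAt
  · intro z hz
    rw [mem_closedBall_zero_iff] at hz
    rw [norm_div, norm_neg, norm_one]
    have h1 : 1 - ρ ≤ ‖1 - z‖ := by
      have := norm_sub_norm_le (1 : ℂ) z
      rw [norm_one] at this
      linarith
    exact one_div_le_one_div_of_le h0 h1
  · rwa [mem_closedBall_zero_iff]
  · rwa [mem_closedBall_zero_iff]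

theorem bt_lip {ρ η : ℝ} (hρ : ρ < 1) {a a' w : ℂ} (h : ‖a‖ * Real.exp η ≤ ρ) (h' : ‖a'‖ * Real.exp η ≤ ρ)
    (hw : w ∈ SH η) : ‖bt a w - bt a' w‖ ≤ 2 / (1 - ρ) * Real.exp η * ‖a - a'‖ := by
  have h0 : 0 < 1 - ρ := by linarith
  have hw' : |w.im| < η := hw
  have e1 : Real.exp w.im ≤ Real.exp η := Real.exp_le_exp.2 (abs_lt.1 hw').2.le
  have e2 : Real.exp (-w.im) ≤ Real.exp η := Real.exp_le_exp.2 (by linarith [(abs_lt.1 hw').1])
  have g1 : ∀ a : ℂ, ‖a‖ * Real.exp η ≤ ρ → ‖a * Complex.exp (-(Complex.I * w))‖ ≤ ρ := by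
    intro a h
    rw [norm_mul, norm_exp_neg_I]
    exact (mul_le_mul_of_nonneg_left e1 (norm_nonneg _)).trans h
  have g2 : ∀ a : ℂ, ‖a‖ * Real.exp η ≤ ρ → ‖conj a * Complex.exp (Complex.I * w)‖ ≤ ρ := by
    intro a h
    rw [norm_mul, norm_exp_I, Complex.norm_conj]
    exact (mul_le_mul_of_nonneg_left e2 (norm_nonneg _)).trans h
  have k1 := log_lip hρ (g1 a h) (g1 a' h')
  have k2 := log_lip hρ (g2 a h) (g2 a' h')
  rw [← sub_mul, norm_mul, norm_exp_neg_I] at k1
  rw [← sub_mul, norm_mul, norm_exp_I, ← map_sub, Complex.norm_conj] at k2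
  have k3 : 1 / (1 - ρ) * (‖a - a'‖ * Real.exp w.im) ≤ 1 / (1 - ρ) * (‖a - a'‖ * Real.exp η) := by gcongr
  have k4 : 1 / (1 - ρ) * (‖a - a'‖ * Real.exp (-w.im)) ≤ 1 / (1 - ρ) * (‖a - a'‖ * Real.exp η) := by gcongr
  have k5 : bt a w - bt a' w = (Complex.log (1 - a * Complex.exp (-(Complex.I * w))) -
      Complex.log (1 - a' * Complex.exp (-(Complex.I * w)))) -
      (Complex.log (1 - conj a * Complex.exp (Complex.I * w)) -
      Complex.log (1 - conj a' * Complex.exp (Complex.I * w))) := by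
    unfold bt
    ring
  rw [k5]
  refine (norm_sub_le _ _).trans ?_
  have k6 : 2 / (1 - ρ) * Real.exp η * ‖a - a'‖ = 1 / (1 - ρ) * (‖a - a'‖ * Real.exp η) +
      1 / (1 - ρ) * (‖a - a'‖ * Real.exp η) := by ring
  rw [k6]
  linarith

theorem be_lip {ρ η : ℝ} (hρ : ρ < 1) {a a' : Fin (n - 1) → ℂ} (h : ∀ i, ‖a i‖ * Real.exp η ≤ ρ)
    (h' : ∀ i, ‖a' i‖ * Real.exp η ≤ ρ) {w : ℂ} (hw : w ∈ SH η) :
    ‖be n a w - be n a' w‖ ≤ n * (2 / (1 - ρ) * Real.exp η) * ‖a - a'‖ := by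
  have h0 : 0 < 1 - ρ := by linarith
  have e1 : be n a w - be n a' w = -(Complex.I * ∑ i, (bt (a i) w - bt (a' i) w)) := by
    unfold be
    rw [Finset.sum_sub_distrib]
    ring
  rw [e1, norm_neg, norm_mul, Complex.norm_I, one_mul]
  refine (norm_sum_le _ _).trans ?_
  calc ∑ i, ‖bt (a i) w - bt (a' i) w‖ ≤ ∑ _i : Fin (n - 1), 2 / (1 - ρ) * Real.exp η * ‖a - a'‖ := by
        apply Finset.sum_le_sum
        intro i _
        refine (bt_lip hρ (h i) (h' i) hw).trans ?_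
        have : ‖a i - a' i‖ ≤ ‖a - a'‖ := norm_le_pi_norm (a - a') i
        gcongr
    _ = ((n - 1 : ℕ) : ℝ) * (2 / (1 - ρ) * Real.exp η * ‖a - a'‖) := by
        rw [Finset.sum_const, Finset.card_univ, Fintype.card_fin, nsmul_eq_mul]
    _ ≤ n * (2 / (1 - ρ) * Real.exp η * ‖a - a'‖) := by
        have : ((n - 1 : ℕ) : ℝ) ≤ n := by exact_mod_cast Nat.sub_le n 1
        gcongr
    _ = _ := by ring

/-- the lifts depend continuously on the parameters -/
theorem alf_close {ρ η : ℝ} (hη : 0 < η) (hρ : ρ < 1) {a : Fin (n - 1) → ℂ} (x : ℝ)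
    (h : ∀ i, ‖a i‖ * Real.exp η ≤ ρ) {δ : ℝ} (hδ : 0 < δ) :
    ∀ᶠ q : (Fin (n - 1) → ℂ) × ℝ in 𝓝 (a, x), (∀ i, ‖q.1 i‖ * Real.exp η ≤ ρ) →
      ∀ w ∈ SH η, ‖alf n q.1 q.2 w - alf n a x w‖ ≤ δ := by
  have hxS : ∀ y : ℝ, (y : ℂ) ∈ SH η := fun y => by
    simp only [SH, Set.mem_ofPred_eq, Complex.ofReal_im, abs_zero]
    exact hη
  have hbc : ContinuousAt (be n a) (x : ℂ) :=
    (be_deriv (fun i => (h i).trans_lt hρ) (hxS x)).continuousAt
  have hbc' : ContinuousAt (fun q : (Fin (n - 1) → ℂ) × ℝ => be n a (q.2 : ℂ)) (a, x) := by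
    refine ContinuousAt.comp (g := be n a) (f := fun q : (Fin (n - 1) → ℂ) × ℝ => (q.2 : ℂ)) hbc ?_
    exact (Complex.continuous_ofReal.comp continuous_snd).continuousAt
  have hc : ContinuousAt (fun q : (Fin (n - 1) → ℂ) × ℝ => |q.2 - x| +
      2 * (n * (2 / (1 - ρ) * Real.exp η) * ‖q.1 - a‖) + ‖be n a (q.2 : ℂ) - be n a (x : ℂ)‖) (a, x) := by
    refine ContinuousAt.add ?_ (hbc'.sub continuousAt_const).norm
    fun_prop
  have h0 := hc.eventually_lt_const (u := δ) (by simpa using hδ)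
  filter_upwards [h0] with q hq hqa w hw
  have e1 : alf n q.1 q.2 w - alf n a x w = ((q.2 : ℂ) - x) - (be n q.1 (q.2 : ℂ) - be n a (q.2 : ℂ)) -
      (be n a (q.2 : ℂ) - be n a (x : ℂ)) + (be n q.1 w - be n a w) := by
    unfold alf
    ring
  have e2 := be_lip hρ hqa h (hxS q.2)
  have e3 := be_lip hρ hqa h hw
  have e4 : ‖(q.2 : ℂ) - x‖ = |q.2 - x| := by
    rw [← Complex.ofReal_sub, Complex.norm_real, Real.norm_eq_abs]
  rw [e1]
  refine (norm_add_le _ _).trans ?_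
  have e5 := norm_sub_le (((q.2 : ℂ) - x) - (be n q.1 (q.2 : ℂ) - be n a (q.2 : ℂ)))
    (be n a (q.2 : ℂ) - be n a (x : ℂ))
  have e6 := norm_sub_le ((q.2 : ℂ) - x) (be n q.1 (q.2 : ℂ) - be n a (q.2 : ℂ))
  rw [e4] at e6
  linarith

/-- the inverse branch, with prescribed constants -/
theorem invbr_of {η₀ : ℝ} {α : ℂ → ℂ} {m M η₂ : ℝ} (h : Lift n η₀ α) (hm1 : 1 < m) (hmn : m < n) (hM0 : 0 < M)
    (hη₂ : 0 < η₂) (hη : η₂ < η₀) (hm : ∀ w ∈ CS η₂, m ≤ (deriv α w).re) (hM : ∀ w ∈ CS η₂, ‖deriv α w‖ ≤ M) :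
    ∃ G : ℂ → ℂ, InvBr n η₀ α G (m * η₂) m M⁻¹ ∧ ∀ v ∈ SH (m * η₂), G v ∈ SH η₂ := by
  have honto := onto hm1 hM0 hη₂ hη h hm hM
  let G : ℂ → ℂ := Function.invFunOn α (SH η₂)
  have hG1 : ∀ v ∈ SH (m * η₂), G v ∈ SH η₂ := fun v hv => Function.invFunOn_mem (honto hv)
  have hG2 : ∀ v ∈ SH (m * η₂), α (G v) = v := fun v hv => Function.invFunOn_eq (honto hv)
  have hSC : ∀ w ∈ SH η₂, w ∈ CS η₂ := fun w hw => (show |w.im| < η₂ from hw).le
  have hinj : ∀ w ∈ SH η₂, ∀ w' ∈ SH η₂, α w = α w' → w = w' := by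
    intro w hw w' hw' he
    have h1 := expand' hη h hm (hSC w hw) (hSC w' hw')
    rw [he, sub_self, norm_zero] at h1
    have h2 : ‖w - w'‖ ≤ 0 := by
      by_contra hcon
      push Not at hcon
      nlinarith
    exact sub_eq_zero.1 (norm_le_zero_iff.1 h2)
  have hcontr : ∀ w ∈ SH (m * η₂), ∀ w' ∈ SH (m * η₂), ‖G w - G w'‖ ≤ ‖w - w'‖ / m := by
    intro w hw w' hw'
    have h1 := expand' hη h hm (hSC _ (hG1 w hw)) (hSC _ (hG1 w' hw'))
    rw [hG2 w hw, hG2 w' hw'] at h1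
    rw [le_div_iff₀ (by linarith), mul_comm]
    exact h1
  have hGcont : ∀ w ∈ SH (m * η₂), ContinuousAt G w := by
    intro w hw
    have h1 : LipschitzOnWith (Real.toNNReal m)⁻¹ G (SH (m * η₂)) := by
      refine LipschitzOnWith.of_dist_le_mul fun x hx y hy => ?_
      rw [NNReal.coe_inv, Real.coe_toNNReal _ (by linarith), dist_eq_norm, dist_eq_norm,
        ← div_eq_inv_mul]
      exact hcontr x hx y hy
    exact h1.continuousOn.continuousAt ((INVBaux.isOpen_SH _).mem_nhds hw)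
  have hGd : ∀ w ∈ SH (m * η₂), HasDerivAt G (deriv α (G w))⁻¹ w := by
    intro w hw
    refine HasDerivAt.of_local_left_inverse (hGcont w hw)
      (diffAt h (SH_mono hη.le (hG1 w hw))).hasDerivAt ?_ ?_
    · intro hcon
      have := hm _ (hSC _ (hG1 w hw))
      rw [hcon, Complex.zero_re] at this
      linarith
    · filter_upwards [(INVBaux.isOpen_SH (m * η₂)).mem_nhds hw] with v hv using hG2 v hv
  have hpos : 0 < m * η₂ := by positivity
  have hrealmem : ∀ x : ℝ, (x : ℂ) ∈ SH (m * η₂) := fun x => by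
    show |((x : ℂ)).im| < m * η₂
    simpa using hpos
  have hGreal : ∀ x : ℝ, (G x).im = 0 := by
    intro x
    by_contra hne
    have h1 := im_sign hη h hm (hSC _ (hG1 x (hrealmem x))) hne
    rw [hG2 x (hrealmem x), Complex.ofReal_im, zero_div] at h1
    linarith
  refine ⟨G, ⟨hpos, hm1, hmn, by positivity, ?_, ?_, hG2, ?_, hGreal, hcontr, ?_, ?_⟩, hG1⟩
  · intro w hw
    exact (hGd w hw).differentiableAt.differentiableWithinAt
  · intro w hw
    exact SH_mono hη.le (hG1 w hw)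
  · intro w hw
    have him : (w + 2 * Real.pi * n).im = w.im := by
      have : (w + 2 * Real.pi * n : ℂ) = w + ((2 * Real.pi * n : ℝ) : ℂ) := by push_cast; ring
      rw [this, Complex.add_im, Complex.ofReal_im, add_zero]
    have hw2 : w + 2 * Real.pi * n ∈ SH (m * η₂) := by
      show |(w + 2 * Real.pi * n).im| < m * η₂
      rw [him]
      exact hw
    refine hinj _ (hG1 _ hw2) _ ?_ ?_
    · show |(G w + 2 * Real.pi).im| < η₂
      rw [shift_im]
      exact hG1 w hw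
    · rw [hG2 _ hw2, h.per _ (SH_mono hη.le (hG1 w hw)), hG2 w hw]
  · intro w hw hw0
    have hGw := hG1 w hw
    rcases lt_trichotomy (G w).im 0 with h1 | h1 | h1
    · exfalso
      have h2 := im_sign hη h hm (hSC _ hGw) h1.ne
      rw [hG2 w hw] at h2
      have h3 : w.im / (G w).im ≤ 0 := div_nonpos_of_nonneg_of_nonpos hw0 h1.le
      linarith
    · have h2 : ((G w).re : ℂ) = G w := by
        apply Complex.ext
        · simp
        · simp [h1]
      have h3 : w.im = 0 := by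
        rw [← hG2 w hw, ← h2]
        exact h.real _
      rw [h1, h3, mul_zero]
    · have h2 : ((G w).re : ℂ) ∈ CS η₂ := by
        show |(((G w).re : ℂ)).im| ≤ η₂
        simpa using hη₂.le
      have h3 := lip hη h hM (hSC _ hGw) h2
      have h4 : G w - ((G w).re : ℂ) = (G w).im * Complex.I := by
        apply Complex.ext <;> simp
      rw [h4, norm_mul, Complex.norm_I, mul_one, Complex.norm_real, Real.norm_eq_abs,
        abs_of_pos h1, hG2 w hw] at h3
      have h5 : w.im ≤ ‖w - α ((G w).re)‖ := by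
        have h6 : (w - α ((G w).re)).im = w.im := by
          rw [Complex.sub_im, h.real, sub_zero]
        rw [← h6]
        exact Complex.im_le_norm _
      rw [← div_eq_inv_mul, div_le_iff₀ hM0, mul_comm]
      exact h5.trans h3
  · intro x
    have h1 := hGd x (hrealmem x)
    rw [h1.deriv]
    have h2 : ((G x).re : ℂ) = G x := by
      apply Complex.ext
      · simp
      · simp [hGreal x]
    have h3 : (deriv α (G x)).im = 0 := by
      rw [← h2]
      exact deriv_real h _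
    have h4 := hm _ (hSC _ (hG1 x (hrealmem x)))
    have h5 : deriv α (G x) = ((deriv α (G x)).re : ℂ) := by
      apply Complex.ext
      · simp
      · simp [h3]
    rw [h5, ← Complex.ofReal_inv, Complex.ofReal_re, Complex.ofReal_im]
    refine ⟨inv_pos.2 (by linarith), ?_, rfl⟩
    rw [one_div]
    exact inv_anti₀ (by linarith) h4

theorem isTr_mono {A₁ A₂ : Blaschke n} {k k' : ℝ} {T : ℂ ≃ₜ ℂ} (h : IsTr A₁ A₂ k T) (hk : k ≤ k') :
    IsTr A₁ A₂ k' T :=
  { out := h.out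
    inn := h.inn
    smooth := h.smooth
    nd := h.nd
    dil := fun z hz => (h.dil z hz).trans (mul_le_mul_of_nonneg_right hk (norm_nonneg _))
    ident := h.ident
    semi := h.semi
    mark := h.mark
    lift := h.lift }

/-- the local statement -/
theorem local_tr (hn : 2 ≤ n) {ρ η : ℝ} (hη : 0 < η) (hρ : ρ < 1) {a : Fin (n - 1) → ℂ} (x : ℝ)
    (h : ∀ i, ‖a i‖ * Real.exp η ≤ ρ) : ∃ k : ℝ, 0 ≤ k ∧ k < 1 ∧
      ∀ᶠ q : (Fin (n - 1) → ℂ) × ℝ in 𝓝 (a, x), (∀ i, ‖q.1 i‖ * Real.exp η ≤ ρ) →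
        ∀ B : Blaschke n, B.a = q.1 → Complex.exp (Complex.I * q.2) = B.b →
          ∃ T : ℂ ≃ₜ ℂ, IsTr (zn n) B k T := by
  have hn' : (2 : ℝ) ≤ n := by exact_mod_cast hn
  have hn0 : (0 : ℝ) < n := by linarith
  have hL : Lift n η (alf n a x) := lift_alf hn hη (fun i => (h i).trans_lt hρ) x
  obtain ⟨m, M, η₂, hm1, hmn, hM0, hη₂, hη2, hc⟩ := consts hn hL
  obtain ⟨m', hm'⟩ : ∃ m' : ℝ, m' = (1 + m) / 2 := ⟨_, rfl⟩
  have hm'1 : 1 < m' := by rw [hm']; linarith
  have hm'm : m' < m := by rw [hm']; linarith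
  have hM1 : 0 < M + 1 := by linarith
  obtain ⟨G, hG, hGS⟩ := invbr_of hL hm'1 (hm'm.trans hmn) hM1 hη₂ hη2
    (fun w hw => hm'm.le.trans (hc w hw).1) (fun w hw => (hc w hw).2.trans (by linarith))
  obtain ⟨ηf, θ, k, C, T₁, hF⟩ := t_FUND t_STEP n hn η (alf n a x) G _ _ _ hG
  obtain ⟨θ', hθ'⟩ : ∃ θ' : ℝ, θ' = max θ ((n + 1) / (2 * n)) := ⟨_, rfl⟩
  have hθ'1 : θ' < 1 := by
    rw [hθ']
    refine max_lt hF.θ1 ?_
    rw [div_lt_one (by positivity)]
    linarith
  have hθ'2 : 1 < n * θ' := by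
    have h1 : ((n : ℝ) + 1) / (2 * n) ≤ θ' := by rw [hθ']; exact le_max_right _ _
    have h2 : (n : ℝ) * (((n : ℝ) + 1) / (2 * n)) = (n + 1) / 2 := by
      field_simp
    have h3 : (n : ℝ) * (((n : ℝ) + 1) / (2 * n)) ≤ n * θ' := mul_le_mul_of_nonneg_left h1 hn0.le
    rw [h2] at h3
    linarith
  have hF' := fund_mono hF (θ' := θ') (by rw [hθ']; exact le_max_left _ _) hθ'1
  obtain ⟨ε, hε, hpert⟩ := fund_pert hn hG hF' hθ'2
  obtain ⟨g, hg⟩ : ∃ g : ℝ, g = (η - η₂) / 2 := ⟨_, rfl⟩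
  have hg0 : 0 < g := by rw [hg]; linarith
  obtain ⟨δ, hδ⟩ : ∃ δ : ℝ, δ = min (min ((m - 1) / 2 * g) g) (m' * ε) := ⟨_, rfl⟩
  have hδ0 : 0 < δ := by
    rw [hδ]
    have h1 : 0 < (m - 1) / 2 * g := by
      have : 0 < m - 1 := by linarith
      positivity
    have h2 : 0 < m' * ε := by
      have : 0 < m' := by linarith
      positivity
    exact lt_min (lt_min h1 hg0) h2
  have hδ1 : δ / g ≤ (m - 1) / 2 := by
    rw [div_le_iff₀ hg0, hδ]
    exact (min_le_left _ _).trans (min_le_left _ _)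
  have hδ2 : δ / g ≤ 1 := by
    rw [div_le_iff₀ hg0, hδ, one_mul]
    exact (min_le_left _ _).trans (min_le_right _ _)
  have hδ3 : δ ≤ m' * ε := by
    rw [hδ]
    exact min_le_right _ _
  have hk0 := hF.k0
  have hk1 := hF.k1
  refine ⟨(k + 1) / 2, by linarith, by linarith, ?_⟩
  filter_upwards [alf_close (n := n) hη hρ x h hδ0] with q hq hqa B hBa hBb
  have hcl := hq hqa
  have hqa1 : ∀ i, ‖q.1 i‖ * Real.exp η < 1 := fun i => (hqa i).trans_lt hρ
  have hLq : Lift n η (alf n q.1 q.2) := lift_alf hn hη hqa1 q.2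
  -- the derivatives are close
  have hdc : ∀ w ∈ CS η₂, ‖deriv (alf n q.1 q.2) w - deriv (alf n a x) w‖ ≤ δ / g := by
    intro w hw
    have hwS : w ∈ SH η := lt_of_le_of_lt hw hη2
    have h1 := cauchy (H := fun w => alf n q.1 q.2 w - alf n a x w) hη2 (hLq.diff.sub hL.diff) hcl hw
    have h2 : deriv (fun w => alf n q.1 q.2 w - alf n a x w) w =
        deriv (alf n q.1 q.2) w - deriv (alf n a x) w :=
      deriv_fun_sub (diffAt hLq hwS) (diffAt hL hwS)
    rw [h2, ← hg] at h1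
    exact h1
  have hmq : ∀ w ∈ CS η₂, m' ≤ (deriv (alf n q.1 q.2) w).re := by
    intro w hw
    have h1 := (hdc w hw).trans hδ1
    have h2 := (abs_le.1 ((Complex.abs_re_le_norm _).trans h1)).1
    rw [Complex.sub_re] at h2
    have h3 := (hc w hw).1
    rw [hm']
    linarith
  have hMq : ∀ w ∈ CS η₂, ‖deriv (alf n q.1 q.2) w‖ ≤ M + 1 := by
    intro w hw
    have h1 := (hdc w hw).trans hδ2
    have h2 := norm_sub_norm_le (deriv (alf n q.1 q.2) w) (deriv (alf n a x) w)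
    have h3 := (hc w hw).2
    linarith
  obtain ⟨Gq, hGq, hGqS⟩ := invbr_of hLq hm'1 (hm'm.trans hmn) hM1 hη₂ hη2 hmq hMq
  have hclose : ∀ w ∈ SH (m' * η₂), ‖Gq w - G w‖ ≤ ε := by
    intro w hw
    have hSC : ∀ w ∈ SH η₂, w ∈ CS η₂ := fun w hw => (show |w.im| < η₂ from hw).le
    have h1 := expand' hη2 hLq hmq (hSC _ (hGqS w hw)) (hSC _ (hGS w hw))
    have h2 := hcl (G w) (SH_mono hη2.le (hGS w hw))
    rw [hG.inv w hw, norm_sub_rev] at h2
    rw [hGq.inv w hw] at h1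
    have h3 : m' * ‖Gq w - G w‖ ≤ m' * ε := h1.trans (h2.trans hδ3)
    exact le_of_mul_le_mul_left h3 (by linarith)
  obtain ⟨T₁', hF''⟩ := hpert η (alf n q.1 q.2) Gq m' (M + 1)⁻¹ hGq hclose
  obtain ⟨T, hh, hT⟩ := t_HALF n hn η (alf n q.1 q.2) Gq _ _ _ hGq _ _ _ _ _ hF''
  have hLof : LiftOf B η (alf n q.1 q.2) q.2 := by
    rw [← hBa]
    exact liftOf_alf hn B hη (by rw [hBa]; exact hqa1) hBb
  exact t_DISC t_PROP n hn B η (alf n q.1 q.2) q.2 hLof _ _ T hh hT

end UTRaux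

open UTRaux in
theorem t_UTR : S_UTR := by
  intro n hn r hr
  obtain ⟨r', hr'⟩ : ∃ r' : ℝ, r' = max r 0 := ⟨_, rfl⟩
  have hr'0 : 0 ≤ r' := by rw [hr']; exact le_max_right _ _
  have hr'1 : r' < 1 := by rw [hr']; exact max_lt hr one_pos
  have hrr' : r ≤ r' := by rw [hr']; exact le_max_left _ _
  obtain ⟨ρ, hρ⟩ : ∃ ρ : ℝ, ρ = (1 + r') / 2 := ⟨_, rfl⟩
  have hρ1 : ρ < 1 := by rw [hρ]; linarith
  have hrρ : r' < ρ := by rw [hρ]; linarith
  obtain ⟨η, hη, hηr⟩ : ∃ η : ℝ, 0 < η ∧ r' * Real.exp η ≤ ρ := by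
    have hc : Continuous (fun η : ℝ => r' * Real.exp η) := by fun_prop
    have h1 := hc.tendsto 0
    simp only [Real.exp_zero, mul_one] at h1
    obtain ⟨ε, hε, h2⟩ := Metric.eventually_nhds_iff.1 (h1.eventually_lt_const hrρ)
    refine ⟨ε / 2, by positivity, (h2 ?_).le⟩
    rw [Real.dist_eq, sub_zero, abs_of_pos (by positivity)]
    linarith
  have hbd : ∀ a : Fin (n - 1) → ℂ, a ∈ closedBall (0 : Fin (n - 1) → ℂ) r' →
      ∀ i, ‖a i‖ * Real.exp η ≤ ρ := by
    intro a ha i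
    rw [mem_closedBall_zero_iff] at ha
    have h1 : ‖a i‖ ≤ r' := (norm_le_pi_norm a i).trans ha
    exact (mul_le_mul_of_nonneg_right h1 (Real.exp_pos _).le).trans hηr
  have hK : IsCompact (closedBall (0 : Fin (n - 1) → ℂ) r' ×ˢ Icc (-Real.pi) Real.pi) :=
    (isCompact_closedBall _ _).prod isCompact_Icc
  have key := hK.induction_on (p := fun t => ∃ k : ℝ, 0 ≤ k ∧ k < 1 ∧ ∀ q ∈ t,
    ∀ B : Blaschke n, B.a = q.1 → Complex.exp (Complex.I * q.2) = B.b →
      ∃ T : ℂ ≃ₜ ℂ, IsTr (zn n) B k T)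
    ⟨0, le_rfl, one_pos, fun q hq => absurd hq (Set.notMem_empty q)⟩
    (fun s t hst ⟨k, h0, h1, h2⟩ => ⟨k, h0, h1, fun q hq => h2 q (hst hq)⟩)
    (fun s t ⟨k, h0, h1, h2⟩ ⟨k', h0', h1', h2'⟩ => ⟨max k k', h0.trans (le_max_left _ _), max_lt h1 h1',
      fun q hq B hBa hBb => by
        rcases hq with hq | hq
        · obtain ⟨T, hT⟩ := h2 q hq B hBa hBb
          exact ⟨T, isTr_mono hT (le_max_left _ _)⟩
        · obtain ⟨T, hT⟩ := h2' q hq B hBa hBb
          exact ⟨T, isTr_mono hT (le_max_right _ _)⟩⟩)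
    (fun p hp => by
      obtain ⟨k, h0, h1, h2⟩ := local_tr hn hη hρ1 (a := p.1) p.2 (hbd p.1 hp.1)
      refine ⟨{q | (∀ i, ‖q.1 i‖ * Real.exp η ≤ ρ) → ∀ B : Blaschke n, B.a = q.1 →
        Complex.exp (Complex.I * q.2) = B.b → ∃ T : ℂ ≃ₜ ℂ, IsTr (zn n) B k T} ∩
          (closedBall (0 : Fin (n - 1) → ℂ) r' ×ˢ Icc (-Real.pi) Real.pi), ?_, k, h0, h1, ?_⟩
      · exact inter_mem (mem_nhdsWithin_of_mem_nhds h2) self_mem_nhdsWithin
      · intro q hq
        exact hq.1 (hbd q.1 hq.2.1))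
  obtain ⟨k, h0, h1, h2⟩ := key
  refine ⟨k, h0, h1, fun B hB => ?_⟩
  refine h2 (B.a, Complex.arg B.b) ⟨?_, ?_⟩ B rfl ?_
  · rw [mem_closedBall_zero_iff]
    exact (pi_norm_le_iff_of_nonneg hr'0).2 (fun i => (hB i).trans hrr')
  · exact ⟨(Complex.neg_pi_lt_arg _).le, Complex.arg_le_pi _⟩
  · have h3 := Complex.norm_mul_exp_arg_mul_I B.b
    rw [B.norm_b] at h3
    rw [mul_comm]
    simpa using h3

end Pool.Agent.H212.ND
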