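import Pool.Agent.H212.ND.StmC

/-!
# The map `F` is well defined and bijective
-/

set_option autoImplicit false

open Filter Metric Set Topology Polynomial
open scoped ComplexConjugate

namespace Pool.Agent.H212.ND

open Pool.Agent.H212.MB

namespace WELaux

theorem factor_le {a z : ℂ} (ha : ‖a‖ < 1) (hz : ‖z‖ ≤ 1) : ‖(z - a) / (1 - conj a * z)‖ ≤ 1 := by
  rw [norm_div]
  refine div_le_one_of_le₀ ?_ (norm_nonneg _)
  have h1 : ‖z - a‖ ^ 2 ≤ ‖1 - conj a * z‖ ^ 2 := by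
    have e : ‖1 - conj a * z‖ ^ 2 - ‖z - a‖ ^ 2 = (1 - ‖a‖ ^ 2) * (1 - ‖z‖ ^ 2) := by
      rw [← Complex.normSq_eq_norm_sq, ← Complex.normSq_eq_norm_sq, ← Complex.normSq_eq_norm_sq,
        ← Complex.normSq_eq_norm_sq]
      simp only [Complex.normSq_apply, Complex.sub_re, Complex.sub_im, Complex.mul_re, Complex.mul_im,
        Complex.conj_re, Complex.conj_im, Complex.one_re, Complex.one_im]
      ring
    have h2 : 0 ≤ 1 - ‖a‖ ^ 2 := by nlinarith [norm_nonneg a]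
    have h3 : 0 ≤ 1 - ‖z‖ ^ 2 := by nlinarith [norm_nonneg z]
    nlinarith [mul_nonneg h2 h3]
  exact le_of_sq_le_sq h1 (norm_nonneg _)

theorem ev_eq {n : ℕ} (B : Blaschke n) (z : ℂ) :
    B.ev z = B.c * z * ∏ i, ((z - B.a i) / (1 - conj (B.a i) * z)) := by
  unfold Blaschke.ev Blaschke.num Blaschke.den
  rw [Finset.prod_div_distrib, mul_div_assoc]

theorem ev_le {n : ℕ} (B : Blaschke n) {z : ℂ} (hz : ‖z‖ ≤ 1) : ‖B.ev z‖ ≤ 1 := by
  rw [ev_eq, norm_mul, norm_mul, B.norm_c, one_mul, norm_prod]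
  have h1 : ∏ i, ‖(z - B.a i) / (1 - conj (B.a i) * z)‖ ≤ 1 :=
    Finset.prod_le_one (fun i _ => norm_nonneg _) fun i _ => factor_le (B.norm_a i) hz
  have h2 : 0 ≤ ∏ i, ‖(z - B.a i) / (1 - conj (B.a i) * z)‖ :=
    Finset.prod_nonneg fun i _ => norm_nonneg _
  calc ‖z‖ * ∏ i, ‖(z - B.a i) / (1 - conj (B.a i) * z)‖ ≤ 1 * 1 :=
        mul_le_mul hz h1 h2 zero_le_one
    _ = 1 := one_mul 1

theorem ev_b {n : ℕ} (B : Blaschke n) : B.ev B.b = B.b := by
  rw [ev_eq]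
  exact B.fix

theorem b_mem {n : ℕ} (B : Blaschke n) : B.b ∈ closedBall (0 : ℂ) 1 := by
  rw [mem_closedBall, dist_zero_right, B.norm_b]

/-- the complement of the image of the exterior is invariant -/
theorem inv {n : ℕ} {A B : Blaschke n} {f : RMap n} {φ ψ : ℂ → ℂ} {h : ℝ → ℝ}
    (H : IsMatingData A B f φ ψ h) (y : ℂ) (hy : y ∉ φ '' MB.Ext) :
    f.Q.eval y ≠ 0 ∧ f.ev y ∉ φ '' MB.Ext := by
  have h1 : y ∈ ψ '' closedBall 0 1 := by
    by_contra hc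
    exact hy (H.compl ▸ hc)
  obtain ⟨z, hz, rfl⟩ := h1
  obtain ⟨h2, h3⟩ := H.semiψ z hz
  refine ⟨h2, ?_⟩
  rw [h3, H.compl]
  intro hc
  refine hc ⟨_, ?_, rfl⟩
  rw [mem_closedBall, dist_zero_right] at hz ⊢
  exact ev_le B hz

/-- the fixed point -/
theorem fixpt {n : ℕ} {A B : Blaschke n} {f : RMap n} {φ ψ : ℂ → ℂ} {h : ℝ → ℝ}
    (H : IsMatingData A B f φ ψ h) : f.Q.eval (φ A.b) ≠ 0 ∧ f.ev (φ A.b) = φ A.b := by
  rw [H.mark]
  obtain ⟨h2, h3⟩ := H.semiψ B.b (b_mem B)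
  rw [ev_b] at h3
  exact ⟨h2, h3⟩

theorem CExt_cases {z : ℂ} (hz : z ∈ CExt) : z ∈ MB.Ext ∨ ∃ x : ℝ, z = Complex.exp (x * Complex.I) := by
  have h1 : 1 ≤ ‖z‖ := hz
  rcases h1.lt_or_eq with h | h
  · exact Or.inl h
  · refine Or.inr ⟨Complex.arg z, ?_⟩
    have h2 := Complex.norm_mul_exp_arg_mul_I z
    rw [← h, Complex.ofReal_one, one_mul] at h2
    exact h2.symm

/-- the exterior map is injective on the closed exterior -/
theorem inj {n : ℕ} {A B : Blaschke n} {f : RMap n} {φ ψ : ℂ → ℂ} {h : ℝ → ℝ}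
    (H : IsMatingData A B f φ ψ h) : InjOn φ CExt := by
  have hcirc : ∀ x : ℝ, φ (Complex.exp (x * Complex.I)) ∉ φ '' MB.Ext := by
    intro x
    rw [H.compl, H.glue]
    intro hc
    refine hc ⟨_, ?_, rfl⟩
    rw [mem_closedBall, dist_zero_right, Complex.norm_exp_ofReal_mul_I]
  have hper : ∀ (x : ℝ) (k : ℤ), h (x + k * (2 * Real.pi)) = h x + k * (2 * Real.pi) := by
    intro x k
    induction k using Int.induction_on with
    | zero => simp
    | succ i ih =>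
      have e1 : x + ((i : ℤ) + 1 : ℤ) * (2 * Real.pi) = (x + (i : ℤ) * (2 * Real.pi)) + 2 * Real.pi := by
        push_cast
        ring
      rw [e1, H.perh, ih]
      push_cast
      ring
    | pred i ih =>
      have e1 : x + (-(i : ℤ) : ℤ) * (2 * Real.pi) =
          (x + (-(i : ℤ) - 1 : ℤ) * (2 * Real.pi)) + 2 * Real.pi := by
        push_cast
        ring
      rw [e1, H.perh] at ih
      have e2 : ((-(i : ℤ) - 1 : ℤ) : ℝ) = ((-(i : ℤ) : ℤ) : ℝ) - 1 := by push_cast; ring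
      rw [e2] at ih ⊢
      linarith
  intro z hz w hw hzw
  rcases CExt_cases hz with h1 | ⟨x, rfl⟩
  · rcases CExt_cases hw with h2 | ⟨y, rfl⟩
    · exact H.ext.inj h1 h2 hzw
    · exact absurd ⟨z, h1, hzw⟩ (hcirc y)
  · rcases CExt_cases hw with h2 | ⟨y, rfl⟩
    · exact absurd ⟨w, h2, hzw.symm⟩ (hcirc x)
    · rw [H.glue, H.glue] at hzw
      have m1 : ∀ t : ℝ, Complex.exp (t * Complex.I) ∈ closedBall (0 : ℂ) 1 := by
        intro t
        rw [mem_closedBall, dist_zero_right, Complex.norm_exp_ofReal_mul_I]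
      have h3 := H.injψ (m1 _) (m1 _) hzw
      rw [Complex.exp_eq_exp_iff_exists_int] at h3
      obtain ⟨k, hk⟩ := h3
      have h4 : h x = h y + k * (2 * Real.pi) := by
        have h5 := congrArg Complex.im hk
        simp only [Complex.mul_im, Complex.add_im, Complex.ofReal_re, Complex.ofReal_im, Complex.I_re,
          Complex.I_im, mul_one, mul_zero, zero_mul, add_zero, Complex.intCast_re,
          Complex.intCast_im, Complex.mul_re, Complex.re_ofNat, Complex.im_ofNat, sub_zero] at h5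
        linarith
      rw [← hper] at h4
      have h6 := H.monoh.injective h4
      rw [h6, Complex.exp_eq_exp_iff_exists_int]
      refine ⟨k, ?_⟩
      push_cast
      ring

/-- two exterior maps which agree on `Ext` agree on `CExt` -/
theorem eq_CExt {φ φ' : ℂ → ℂ} (h1 : ContinuousOn φ CExt) (h2 : ContinuousOn φ' CExt)
    (h : EqOn φ φ' MB.Ext) : EqOn φ φ' CExt := by
  have hsub : MB.Ext ⊆ CExt := fun z hz => by
    have h3 : 1 < ‖z‖ := hz
    exact h3.le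
  have hcl : CExt ⊆ closure MB.Ext := by
    intro z hz
    have h1 : 1 ≤ ‖z‖ := hz
    rw [mem_closure_iff_seq_limit]
    refine ⟨fun k : ℕ => ((1 + 1 / ((k : ℝ) + 1) : ℝ) : ℂ) * z, fun k => ?_, ?_⟩
    · show 1 < ‖((1 + 1 / ((k : ℝ) + 1) : ℝ) : ℂ) * z‖
      rw [norm_mul, Complex.norm_real, Real.norm_eq_abs, abs_of_pos (by positivity)]
      have h3 : 0 < 1 / ((k : ℝ) + 1) := by positivity
      nlinarith
    · have h3 : Tendsto (fun k : ℕ => (1 + 1 / ((k : ℝ) + 1) : ℝ)) atTop (𝓝 1) := by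
        have := tendsto_one_div_add_atTop_nhds_zero_nat (𝕜 := ℝ)
        have h4 := this.const_add (1 : ℝ)
        rwa [add_zero] at h4
      have h4 : Tendsto (fun k : ℕ => ((1 + 1 / ((k : ℝ) + 1) : ℝ) : ℂ)) atTop (𝓝 ((1 : ℝ) : ℂ)) :=
        (Complex.continuous_ofReal.tendsto 1).comp h3
      have h5 := h4.mul_const z
      rwa [Complex.ofReal_one, one_mul] at h5
  exact h.of_subset_closure h1 h2 hsub hcl

theorem exists_of_cls {n : ℕ} (h1 : S_EQU) {x y : MPt n} (h : cls x = cls y) : AffConj n x y := by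
  have h2 := Quot.eqvGen_exact h
  rwa [Equivalence.eqvGen_iff (h1 n)] at h2

/-- (a) equivalent marks are equal -/
theorem mark_eq (h1 : S_EQU) (h2 : S_AFF) {n : ℕ} (hn : 2 ≤ n) {A B B' : Blaschke n} {y y' : MPt n}
    (hy : IsMark A B y) (hy' : IsMark A B' y') (h : cls y = cls y') : y = y' := by
  obtain ⟨a, b, ha, hab, hz⟩ := exists_of_cls h1 h
  obtain ⟨φ, ψ, k, H, hp⟩ := hy
  obtain ⟨φ', ψ', k', H', hp'⟩ := hy'
  obtain ⟨e1, e2⟩ := h2 n A y.1.1 y'.1.1 φ φ' a b hn ha H.ext H'.ext H.contφ H'.contφ (inj H')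
    (inv H) (inv H') hz (by rw [← hp, ← hp']; exact hab)
  apply Subtype.ext
  refine Prod.ext e1 ?_
  rw [hp, hp']
  exact e2 (show A.b ∈ CExt by
    show 1 ≤ ‖A.b‖
    rw [A.norm_b])

/-- (b) existence of marks -/
theorem mark_ex {n : ℕ} {A B : Blaschke n} (h : ∃ f, IsMating A B f) : ∃ y : MPt n, IsMark A B y := by
  obtain ⟨f, φ, ψ, k, H⟩ := h
  exact ⟨⟨(f, φ A.b), fixpt H⟩, φ, ψ, k, H, rfl⟩

/-- marks with the same rational map are equal -/
theorem mark_of_map (h5 : MB.S_EXTU) {n : ℕ} (hn : 2 ≤ n) {A B B' : Blaschke n} {y y' : MPt n}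
    (hy : IsMark A B y) (hy' : IsMark A B' y') (h : y.1.1 = y'.1.1) : y = y' := by
  obtain ⟨φ, ψ, k, H, hp⟩ := hy
  obtain ⟨φ', ψ', k', H', hp'⟩ := hy'
  apply Subtype.ext
  refine Prod.ext h ?_
  rw [hp, hp']
  have e1 : EqOn φ φ' MB.Ext := h5 n hn A y.1.1 φ φ' H.ext (by rw [h]; exact H'.ext)
  exact eq_CExt H.contφ H'.contφ e1 (show A.b ∈ CExt by
    show 1 ≤ ‖A.b‖
    rw [A.norm_b])

theorem mark_rel {n : ℕ} {A B : Blaschke n} {x y : MPt n} (hx : IsMark (zn n) B x)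
    (hy : IsMark A B y) : Rel A x.1.1 y.1.1 := by
  obtain ⟨φ, ψ, k, H, _⟩ := hx
  obtain ⟨φ', ψ', k', H', _⟩ := hy
  exact ⟨B, ⟨φ, ψ, k, H⟩, ⟨φ', ψ', k', H'⟩⟩

end WELaux

open WELaux in
theorem t_WEL (h1 : S_EQU) (h2 : S_AFF) (h3 : S_CEN) (h4 : MB.S_REL) (h5 : MB.S_EXTU) : S_WEL := by
  intro n A hn
  obtain ⟨exA, _, _, uf, ug, _⟩ := h4 n hn A
  obtain ⟨exz, _⟩ := h4 n hn (zn n)
  refine ⟨?_, ?_⟩
  · rintro c ⟨B, x, hx, rfl⟩
    refine ⟨x, ?_, rfl⟩
    obtain ⟨φ, ψ, k, H, _⟩ := hx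
    rw [(h3 n hn x.1.1 φ H.ext).1, natDegree_one]
  -- the partner of a class
  have hsame : ∀ (B B' : Blaschke n) (x x' y y' : MPt n), IsMark (zn n) B x → IsMark (zn n) B' x' →
      IsMark A B y → IsMark A B' y' → cls x = cls x' → y = y' := by
    intro B B' x x' y y' hx hx' hy hy' h
    have e1 := mark_eq h1 h2 hn hx hx' h
    subst e1
    exact mark_of_map h5 hn hy hy' (uf _ _ _ (mark_rel hx hy) (mark_rel hx' hy'))
  have hsame' : ∀ (B B' : Blaschke n) (x x' y y' : MPt n), IsMark (zn n) B x → IsMark (zn n) B' x' →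
      IsMark A B y → IsMark A B' y' → cls y = cls y' → x = x' := by
    intro B B' x x' y y' hx hx' hy hy' h
    have e1 := mark_eq h1 h2 hn hy hy' h
    subst e1
    exact mark_of_map h5 hn hx hx' (ug _ _ _ (mark_rel hx hy) (mark_rel hx' hy'))
  have hch : ∀ c : BM (zn n), ∃ (B : Blaschke n) (x y : MPt n), IsMark (zn n) B x ∧ IsMark A B y ∧
      cls x = (c : MM n) := by
    rintro ⟨c, B, x, hx, rfl⟩
    obtain ⟨y, hy⟩ := mark_ex (exA B)
    exact ⟨B, x, y, hx, hy, rfl⟩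
  choose Bc xc yc hxc hyc hcc using hch
  refine ⟨fun c => ⟨cls (yc c), Bc c, yc c, hyc c, rfl⟩, ⟨?_, ?_⟩, ?_⟩
  · intro c c' h
    have h6 : cls (yc c) = cls (yc c') := congrArg Subtype.val h
    have h7 := hsame' _ _ _ _ _ _ (hxc c) (hxc c') (hyc c) (hyc c') h6
    apply Subtype.ext
    rw [← hcc c, ← hcc c', h7]
  · rintro ⟨d, B, y, hy, rfl⟩
    obtain ⟨x, hx⟩ := mark_ex (exz B)
    refine ⟨⟨cls x, B, x, hx, rfl⟩, ?_⟩
    apply Subtype.ext
    show cls (yc ⟨cls x, B, x, hx, rfl⟩) = cls y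
    rw [hsame _ _ _ _ _ _ (hxc ⟨cls x, B, x, hx, rfl⟩) hx (hyc ⟨cls x, B, x, hx, rfl⟩) hy
      (hcc ⟨cls x, B, x, hx, rfl⟩)]
  · intro B x y hx hy c hc
    show cls (yc c) = cls y
    rw [hsame _ _ _ _ _ _ (hxc c) hx (hyc c) hy ((hcc c).trans hc)]

end Pool.Agent.H212.ND
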