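import Pool.Agent.H212.ND.T_LAV
import Pool.Agent.H212.ND.T_STP
import Pool.Agent.H212.ND.T_FCR
import Pool.Agent.H212.MB.All
import Pool.Agent.H212.ND.T_AFF
import Pool.Agent.H212.ND.T_AMN
import Pool.Agent.H212.ND.T_BASN
import Pool.Agent.H212.ND.T_BEA
import Pool.Agent.H212.ND.T_BES
import Pool.Agent.H212.ND.T_BEU
import Pool.Agent.H212.ND.T_CEN
import Pool.Agent.H212.ND.T_CH1
import Pool.Agent.H212.ND.T_CH2
import Pool.Agent.H212.ND.T_CH3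
import Pool.Agent.H212.ND.T_CH4
import Pool.Agent.H212.ND.T_CLO
import Pool.Agent.H212.ND.T_COU
import Pool.Agent.H212.ND.T_CRT
import Pool.Agent.H212.ND.T_CTY
import Pool.Agent.H212.ND.T_ECR
import Pool.Agent.H212.ND.T_END
import Pool.Agent.H212.ND.T_EQU
import Pool.Agent.H212.ND.T_FAM
import Pool.Agent.H212.ND.T_FAT
import Pool.Agent.H212.ND.T_FCA
import Pool.Agent.H212.ND.T_FCC
import Pool.Agent.H212.ND.T_FIN
import Pool.Agent.H212.ND.T_GDF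
import Pool.Agent.H212.ND.T_GEX
import Pool.Agent.H212.ND.T_HAU
import Pool.Agent.H212.ND.T_HOR
import Pool.Agent.H212.ND.T_INB
import Pool.Agent.H212.ND.T_INJ
import Pool.Agent.H212.ND.T_JLC
import Pool.Agent.H212.ND.T_KAP
import Pool.Agent.H212.ND.T_LAM
import Pool.Agent.H212.ND.T_LNK
import Pool.Agent.H212.ND.T_LOC
import Pool.Agent.H212.ND.T_LSS
import Pool.Agent.H212.ND.T_MAI
import Pool.Agent.H212.ND.T_MEM
import Pool.Agent.H212.ND.T_OPE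
import Pool.Agent.H212.ND.T_ORA
import Pool.Agent.H212.ND.T_ORS
import Pool.Agent.H212.ND.T_PIC
import Pool.Agent.H212.ND.T_PSL
import Pool.Agent.H212.ND.T_RDL
import Pool.Agent.H212.ND.T_REF
import Pool.Agent.H212.ND.T_REP
import Pool.Agent.H212.ND.T_STR
import Pool.Agent.H212.ND.T_TIN
import Pool.Agent.H212.ND.T_TNL
import Pool.Agent.H212.ND.T_TRC
import Pool.Agent.H212.ND.T_UTR
import Pool.Agent.H212.ND.T_WEL
import Pool.Agent.H212.ND.T_ZCR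

/-!
# Project ND (MP_395436_an): assembly of all the parts
-/

set_option autoImplicit false

namespace Pool.Agent.H212.ND

open Pool.Agent.H212

theorem hBASN : S_BASN := t_BASN t_CH1
theorem hCH3 : S_CH3 := t_CH3 t_CH2
theorem hCH4 : S_CH4 := t_CH4 t_CH1 t_CH2 hCH3
theorem hJLC : S_JLC := t_JLC t_ECR
theorem hPIC : S_PIC := t_PIC hCH4 hBASN t_INJ hJLC
theorem hBEA : S_BEA := t_BEA t_END t_BES t_BEU
theorem hHOR : S_HOR := t_HOR t_END t_PSL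
theorem hAMN : S_AMN := t_AMN t_KAP t_LAM hBEA hHOR t_LOC
theorem hFCA : S_FCA := t_FCA t_FAT hBASN
theorem hCEN : S_CEN := t_CEN MB.t_BL MB.hQFORM
theorem hINB : S_INB := t_INB MB.t_BL MB.hEXTU
theorem hLNK : S_LNK := t_LNK MB.hEXTU
theorem hCTY : S_CTY := t_CTY t_UTR MB.t_BL MB.t_SIG MB.t_RTOP MB.hQSLIM MB.hLA MB.t_TRALG MB.hSURG MB.hCPT MB.hUNIQ
  MB.t_CIRC MB.hQFORM MB.hREL
theorem hOPE : S_OPE := t_OPE hCTY hCEN hINB MB.hREL MB.hUNIQ MB.t_RTOP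
theorem hCLO : S_CLO := t_CLO hCTY hCEN t_ZCR MB.t_BL MB.hQFORM MB.t_RTOP
theorem hTIN : S_TIN := t_TIN MB.t_LIFT MB.t_BL
theorem hHAU : S_HAU := t_HAU t_EQU MB.t_RTOP
theorem hGDF : S_GDF := t_GDF MB.hQFORM hBASN
theorem hSTR : S_STR := t_STR MB.hEXTU MB.hCPT MB.t_RTOP MB.hQFORM hBASN
theorem hAFF : S_AFF := t_AFF MB.t_BL MB.t_SIG MB.hDET
theorem hWEL : S_WEL := t_WEL t_EQU hAFF hCEN MB.hREL MB.hEXTU
theorem hCOU : S_COU := t_COU t_EQU hHAU hGDF hSTR hAFF hLNK MB.hREL MB.hLIM MB.hEXTU MB.hQFORM MB.t_BL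

theorem hORA : S_ORA := t_ORA t_STP t_ORS
theorem hFCR : S_FCR := t_FCR t_FAT
theorem hFCC : S_FCC := t_FCC hFCA hFCR hBASN
theorem hLAV : S_LAV := t_LAV t_STP t_REP hBASN

/-- the answer, all parts assembled -/
theorem final : Final := by
  have hTRC : S_TRC := t_TRC hORA hBASN
  have hCRT : S_CERT := t_CRT hORA hFCA hBASN
  have hMEM : S_MEM := t_MEM MB.t_RTOP hOPE hCLO hCRT
  have hRDL : S_RDL := t_RDL hMEM hLNK hBASN MB.hREL MB.hCLOS MB.hLIM MB.t_RTOP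
  have hTNL : S_TNL := t_TNL hMEM hLNK hBASN hTRC hLAV MB.t_BL MB.t_SIG MB.t_RTOP MB.hEXTU MB.hCPT
    MB.hLIM MB.hREL MB.hCLOS
  have hMAI : S_MAI := t_MAI hPIC hFCC hRDL hTNL hAMN t_LSS t_REF hTIN MB.hREL
  exact t_FIN t_GEX t_FAM hPIC t_EQU hWEL hCOU hMAI

end Pool.Agent.H212.ND
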