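import Pool.Agent.H212.MB.Defs

/-!
# Project ND (MP_395436_an): definitions

`F : B(z^n) → B(A)` has no continuous extension to the closure of `B(z^n)`, if `n > 2` and `A` is not a rotation of `z ^ n`.

A class of `𝓜` is represented by a rational map `f` with `f ∞ = ∞` (so `q = ∞`), `RMap n` of project MB, with a finite fixed
point `p`, modulo affine conjugacy.
-/

set_option autoImplicit false

open Filter Metric Set Topology Polynomial
open scoped ComplexConjugate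

namespace Pool.Agent.H212.ND

open Pool.Agent.H212.MB

/-! ## The spaces -/

/-- rational maps `f` of degree `n` with `f ∞ = ∞` and a finite fixed point -/
def MPt (n : ℕ) : Type := {x : RMap n × ℂ // x.1.Q.eval x.2 ≠ 0 ∧ x.1.ev x.2 = x.2}

instance (n : ℕ) : TopologicalSpace (MPt n) :=
  inferInstanceAs (TopologicalSpace {x : RMap n × ℂ // x.1.Q.eval x.2 ≠ 0 ∧ x.1.ev x.2 = x.2})

/-- conjugacy by an affine map which respects the marked fixed points -/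
def AffConj (n : ℕ) (x y : MPt n) : Prop := ∃ a b : ℂ, a ≠ 0 ∧ y.1.2 = a * x.1.2 + b ∧
  ∀ z, (y.1.1.Q.eval (a * z + b) = 0 ↔ x.1.1.Q.eval z = 0) ∧
    (x.1.1.Q.eval z ≠ 0 → y.1.1.ev (a * z + b) = a * x.1.1.ev z + b)

/-- the space `𝓜` of the classes of triples `(f, p, q)` (here `q = ∞`), with the quotient topology -/
abbrev MM (n : ℕ) : Type := Quot (AffConj n)

/-- the class of `(f, p)` -/
def cls {n : ℕ} (x : MPt n) : MM n := Quot.mk _ x

/-- `x = (f, p)` is the mating of `A` and `B` with its marked fixed point -/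
def IsMark {n : ℕ} (A B : Blaschke n) (x : MPt n) : Prop :=
  ∃ (φ ψ : ℂ → ℂ) (h : ℝ → ℝ), IsMatingData A B x.1.1 φ ψ h ∧ x.1.2 = φ A.b

/-- the space `𝓑(A)` -/
def BM {n : ℕ} (A : Blaschke n) : Set (MM n) := {c | ∃ (B : Blaschke n) (x : MPt n), IsMark A B x ∧ cls x = c}

/-- the space `𝓟` of the classes of polynomials (with `q = ∞`) -/
def PP (n : ℕ) : Set (MM n) := {c | ∃ x : MPt n, x.1.1.Q.natDegree = 0 ∧ cls x = c}

/-- the answer -/
def Final : Prop := ∀ n : ℕ, 2 < n → ∀ A : Blaschke n, (∃ i, A.a i ≠ 0) →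
  Equivalence (AffConj n) ∧ BM (zn n) ⊆ PP n ∧
  (∃ F : BM (zn n) → BM A, Function.Bijective F ∧ ∀ (B : Blaschke n) (x y : MPt n), IsMark (zn n) B x →
    IsMark A B y → ∀ c : BM (zn n), (c : MM n) = cls x → (F c : MM n) = cls y) ∧
  ¬ ∃ Fb : {c : MM n // c ∈ closure (BM (zn n)) ∧ c ∈ PP n} → MM n, Continuous Fb ∧
    ∀ (B : Blaschke n) (x y : MPt n), IsMark (zn n) B x → IsMark A B y →
      ∀ c : {c : MM n // c ∈ closure (BM (zn n)) ∧ c ∈ PP n}, (c : MM n) = cls x → Fb c = cls y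

/-! ## The parabolic polynomial -/

/-- the polynomials `g` of degree `n ≥ 3` with a parabolic fixed point at `1` which are used; `c`, `conj c` are critical
points and the other critical points are real -/
structure Good (n : ℕ) (g : ℂ[X]) (c₀ : ℝ) (c : ℂ) : Prop where
  n3 : 3 ≤ n
  deg : g.natDegree = n
  real : ∀ i, (g.coeff i).im = 0
  lead : 0 < (g.coeff n).re
  fix : g.eval 1 = 1
  der : g.derivative.eval 1 = 1
  der2 : 0 < (g.derivative.derivative.eval 1).re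
  c0 : 0 < c₀
  c1 : c₀ < 1
  disc : ∀ y : ℂ, ‖y‖ ≤ 1 → y ≠ 1 → ‖g.eval y - c₀‖ < 1 - c₀
  lip : ∀ y : ℂ, ‖y‖ ≤ 1 → ‖g.eval y - 1‖ ≤ ‖y - 1‖
  expd : ∀ y : ℂ, y ≠ 1 → 1 - c₀ ≤ ‖g.eval y - c₀‖ → ‖g.eval y - c₀‖ < ‖g.derivative.eval y‖ * ‖y - c₀‖
  crit : ∀ y : ℂ, g.derivative.eval y = 0 → ‖y‖ < 1 ∧ ‖y - c₀‖ < 1 - c₀ ∧ (y.im = 0 ∨ y = c ∨ y = conj c)
  cc : g.derivative.eval c = 0
  nonreal : ∀ m : ℕ, ((fun z : ℂ => g.eval z)^[m] c).im ≠ 0
  esc : ∀ y : ℝ, 1 < y → y < (g.eval (y : ℂ)).re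

/-- the parabolic basin -/
def Bas (g : ℂ[X]) (c₀ : ℝ) : Set ℂ := {z | ∃ m : ℕ, ‖(fun z : ℂ => g.eval z)^[m] z - c₀‖ < 1 - c₀}

/-- the coefficient of `(1 - y) ^ 2` in `g`: `g (1 - u) = 1 - u + al u ^ 2 - …` -/
noncomputable def al (g : ℂ[X]) : ℂ := g.derivative.derivative.eval 1 / 2

/-- `g (1 - u) = 1 - u + a₂ u ^ 2 - a₃ u ^ 3 + …`, `1 / (1 - g (1 - 1 / v)) = v + al + ga / v + …`, `ga = a₂ ^ 2 - a₃` -/
noncomputable def ga (g : ℂ[X]) : ℂ := al g ^ 2 - g.derivative.derivative.derivative.eval 1 / 6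

/-- the coefficient of the logarithm in the Fatou coordinates, a real number -/
noncomputable def ka (g : ℂ[X]) : ℂ := ga g / al g ^ 2

/-- the perturbed map `p_λ`, `λ = exp (2 π i / P)` -/
noncomputable def pl (g : ℂ[X]) (P : ℂ) (y : ℂ) : ℂ :=
  1 + Complex.exp (2 * Real.pi * Complex.I / P) * (g.eval y - 1)

/-- the perturbed map `p_λ` as a function of `λ` -/
noncomputable def plam (g : ℂ[X]) (lam : ℂ) (y : ℂ) : ℂ := 1 + lam * (g.eval y - 1)

/-- the centre of gravity in the coordinate `y` -/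
noncomputable def bb (n : ℕ) (g : ℂ[X]) : ℂ := -g.coeff (n - 1) / (n * g.coeff n)

/-- the positive root of `a ^ (n - 1) = coefficient of y ^ n` -/
noncomputable def aa (n : ℕ) (g : ℂ[X]) : ℂ := (((g.coeff n).re ^ (1 / ((n : ℝ) - 1)) : ℝ) : ℂ)

/-- the parameter of `p_λ`, `λ = exp (2 π i / P)` -/
noncomputable def ap (n : ℕ) (g : ℂ[X]) (P : ℂ) : ℂ :=
  aa n g * Complex.exp (2 * Real.pi * Complex.I / ((n - 1 : ℂ) * P))

/-- `F a`, `a ≠ 0`, is the monic centred polynomial which is conjugate to `p_λ`, `λ = a ^ (n - 1) / coeff n`, by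
`z ↦ y = z / a + b₀` -/
structure Fam (n : ℕ) (g : ℂ[X]) (F : ℂ → RMap n) : Prop where
  cont : Continuous F
  zero : (F 0).P = X ^ n
  Q : ∀ a, (F a).Q = 1
  cen : ∀ a, (F a).P.coeff (n - 1) = 0
  ev : ∀ a z : ℂ, a ≠ 0 → (F a).P.eval z = a * (plam g (a ^ (n - 1) / g.coeff n) (z / a + bb n g) - bb n g)

end Pool.Agent.H212.ND
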