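import Pool.Agent.H212.ND.StmT

/-!
# Project ND (MP_395436_an): Fatou coordinates, and the abstract part of the argument (in the dynamical plane of `g`)

Convention: `T_s W = W + s`.  `Φ` is the attracting Fatou coordinate on `Bas`, `ψ` the repelling one (entire), normalised by
`Φ (ψ w) - w → 0` as `im w → -∞`.  The Lavaurs map is `z ↦ ψ (Φ z - i S)`.
-/

set_option autoImplicit false

open Filter Metric Set Topology Polynomial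
open scoped ComplexConjugate

namespace Pool.Agent.H212.ND

open Pool.Agent.H212.MB

/-- Fatou coordinates of `g` at the parabolic fixed point `1`; the coordinate near `1` is `v = 1 / (1 - y)`, `y = 1 - 1 / v` -/
structure FC (g : ℂ[X]) (c₀ : ℝ) (Φ ψ : ℂ → ℂ) (R C : ℝ) : Prop where
  Rpos : 0 < R
  Cpos : 0 < C
  dΦ : DifferentiableOn ℂ Φ (Bas g c₀)
  semΦ : ∀ z ∈ Bas g c₀, Φ (g.eval z) = Φ z + 1
  fib : ∀ z ∈ Bas g c₀, ∀ z' ∈ Bas g c₀, Φ z = Φ z' →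
    ∃ m : ℕ, (fun x : ℂ => g.eval x)^[m] z = (fun x : ℂ => g.eval x)^[m] z'
  surj : ∀ W : ℂ, ∃ z ∈ Bas g c₀, Φ z = W
  petal : ∀ W : ℂ, ∃ m : ℕ, ∃ z ∈ Bas g c₀, Φ z = W + m ∧ deriv Φ z ≠ 0
  realΦ : ∀ z ∈ Bas g c₀, Φ (conj z) = conj (Φ z)
  imΦ : ∀ z ∈ Bas g c₀, (Φ z).im = 0 → ∃ m : ℕ, ((fun x : ℂ => g.eval x)^[m] z).im = 0
  asyΦ : ∀ v : ℂ, R < v.re + |v.im| → (1 - v⁻¹) ∈ Bas g c₀ ∧
    ‖Φ (1 - v⁻¹) - (v / al g - ka g * Complex.log v)‖ ≤ C / ‖v‖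
  dψ : Differentiable ℂ ψ
  semψ : ∀ w, ψ (w + 1) = g.eval (ψ w)
  injψ : InjOn ψ {w | w.re < -R}
  limψ : ∀ w, Tendsto (fun m : ℕ => ψ (w - m)) atTop (𝓝 1)
  back : ∀ z : ℕ → ℂ, (∀ m, g.eval (z (m + 1)) = z m) → Tendsto z atTop (𝓝 1) → (∃ m, z m ≠ 1) →
    ∃ w, ∀ m : ℕ, z m = ψ (w - m)
  asyψ : ∀ w : ℂ, R < -w.re + |w.im| → ψ w ≠ 1 ∧ ‖w‖ ≤ C * ‖(1 - ψ w)⁻¹‖ ∧ ‖(1 - ψ w)⁻¹‖ ≤ C * ‖w‖ ∧
    ‖(1 - ψ w)⁻¹ / al g - ka g * Complex.log (-(1 - ψ w)⁻¹) + Complex.I * Real.pi * ka g - w‖ ≤ C / ‖w‖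
  low : ∀ ε : ℝ, 0 < ε → ∃ Y : ℝ, ∀ w : ℂ, w.im < -Y → ψ w ∈ Bas g c₀ ∧ ‖Φ (ψ w) - w‖ ≤ ε
  out : ∃ τ : ℝ, ∀ x : ℝ, ψ (x + τ * Complex.I) ∉ Bas g c₀

/-- the complement of `φ '' {ρ ≤ ‖z‖}`, a neighbourhood of the filled Julia set -/
def Nn (φ : ℂ → ℂ) (ρ : ℝ) : Set ℂ := {y | ∀ z : ℂ, ρ ≤ ‖z‖ → y ≠ φ z}

/-- `L` is the self-conjugacy of `g` which compares the two links -/
structure LS (g : ℂ[X]) (c₀ : ℝ) (φ Φ ψ : ℂ → ℂ) (K0 : ℂ ≃ₜ ℂ) (ρ S Y₁ : ℝ) (L : ℂ ≃ₜ ℂ) : Prop where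
  fix : ∀ y, y ∉ Bas g c₀ → L y = y
  comm : ∀ y, L (g.eval y) = g.eval (L y)
  hol : DifferentiableOn ℂ L {z | z ∈ Bas g c₀ ∧ (Φ z).im < S - Y₁}
  lav : DifferentiableOn ℂ (fun z => K0 (L (ψ (Φ (L.symm z) - Complex.I * S))))
    {z | z ∈ Bas g c₀ ∧ ψ (Φ (L.symm z) - Complex.I * S) ∈ Nn φ ρ}

/-- the maps induced by `L` in the Fatou coordinates -/
structure KL (g : ℂ[X]) (c₀ : ℝ) (Φ ψ : ℂ → ℂ) (S Y₁ : ℝ) (L κ lm : ℂ ≃ₜ ℂ) : Prop where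
  semκ : ∀ z ∈ Bas g c₀, L z ∈ Bas g c₀ ∧ Φ (L z) = κ (Φ z)
  perκ : ∀ W, κ (W + 1) = κ W + 1
  holκ : DifferentiableOn ℂ κ {W | W.im < S - Y₁}
  seml : ∀ w, L (ψ w) = ψ (lm w)
  perl : ∀ w, lm (w + 1) = lm w + 1
  holl : ∃ Y : ℝ, DifferentiableOn ℂ lm {w | w.im < -Y}

/-- JOB END.  The behaviour at the end of the cylinder.  Proof.  `X = exp (-2πi W)`, `W ↦ κ W - W` is `1`-periodic, so it is `u X` with
`u` holomorphic on a punctured disc; `q X = X exp (-2πi u X) = exp (-2πi κ W)` is injective on the punctured disc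
(`q X = q X'` gives `κ W = κ W' + k = κ (W' + k)`).  The image of the annulus `r/4 < |X| < r/2` is open and disjoint from the image of
`0 < |X| < r/4`, so `1/(q - c)` is bounded near `0` for some `c`, so `q` is meromorphic at `0`: `q X = X^k h X`, `h` holomorphic and
not zero near `0`.  So `-2πi u' = q'/q - 1/X = (k - 1)/X + h'/h`; the integral over a circle vanishes (`u` is a primitive), so `k = 1`,
`u' ` is bounded near `0` and `u` has a limit at `0`.  -/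
def S_END : Prop := ∀ (κ : ℂ → ℂ) (b : ℝ), DifferentiableOn ℂ κ {W | W.im < b} → InjOn κ {W | W.im < b} →
  (∀ W : ℂ, W.im < b → κ (W + 1) = κ W + 1) →
    ∃ l : ℂ, ∀ ε : ℝ, 0 < ε → ∃ Y : ℝ, ∀ W : ℂ, W.im < -Y → ‖κ W - W - l‖ ≤ ε

/-- JOB KAP.  `κ`.  Proof.  `L` is a bijection which is the identity off `Bas`, so `L '' Bas = Bas`.  If `Φ z = Φ z'` then
`g^[m] z = g^[m] z'` (`fib`), so `g^[m] (L z) = g^[m] (L z')`, `Φ (L z) = Φ (L z')`.  So `κ` is well defined on `Φ '' Bas = univ`, and the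
same for `L.symm`, which gives the inverse.  Continuous: `Φ` is an open map on `Bas` (`Bas` is connected, `Φ` is not constant),
so a quotient map.  `perκ`: `semΦ`.  `holκ` at `W`: by `petal` there is `z` with `Φ z = W + m`, `Φ' z ≠ 0`, local
holomorphic inverse `σ` of `Φ` at `W + m`; `κ = Φ ∘ L ∘ σ` near `W + m`, `im` is not changed; `κ W' = κ (W' + m) - m`. -/
def S_KAP : Prop := ∀ (n : ℕ) (g : ℂ[X]) (c₀ : ℝ) (c : ℂ) (φ Φ ψ : ℂ → ℂ) (R C ρ S Y₁ : ℝ) (K0 L : ℂ ≃ₜ ℂ),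
  Good n g c₀ c → Pic n g c₀ φ → FC g c₀ Φ ψ R C → LS g c₀ φ Φ ψ K0 ρ S Y₁ L →
    ∃ κ : ℂ ≃ₜ ℂ, (∀ z ∈ Bas g c₀, L z ∈ Bas g c₀ ∧ Φ (L z) = κ (Φ z)) ∧ (∀ W, κ (W + 1) = κ W + 1) ∧
      DifferentiableOn ℂ κ {W | W.im < S - Y₁}

/-- JOB LAM.  `lm`.  Proof.  For `w ∈ ℂ` the points `L (ψ (w - m))` are a backward orbit of `g` (`comm`) which tends to `L 1 = 1`
(`1 ∉ Bas`: `g^[m] 1 = 1`), not constant `1` (`ψ (w - m) ≠ 1` for large `m` by `asyψ`), so by `back` there is `w'` with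
`L (ψ (w - m)) = ψ (w' - m)` for all `m`; `w'` is unique (`injψ`, large `m`).  `lm w = w'`.  `perl` clear.  The inverse is given by
`L.symm`.  Continuity at `w`: choose `m` with `(w' - m).re < -R - 1`; `ψ` is a homeomorphism of
`{re < -R}` onto an open set (injective holomorphic), and `lm (x) - m = (ψ|)⁻¹ (L (ψ (x - m)))` for `x` near `w`: the right side `x''` is
continuous near `w`, with `ψ x'' = L (ψ (x - m)) = ψ (lm x - m)`; to see that `x'' = lm x - m`: both `x''` and `lm x - m` generate backward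
orbits `ψ (x'' - j)` and `ψ (lm x - m - j) = L (ψ (x - m - j))`; near `1` the inverse branch of `g` with fixed point `1` is unique
(`g' 1 = 1`): choose `m` so large that for `x` near `w` all the points `L (ψ (x - m - j))`, `ψ (x'' - j)`, `j ≥ 0`, are in a ball around
`1` on which `g` is injective (`limψ` is locally uniform: `asyψ`); then they agree for all `j`, and `w'` is unique.  `holl`: by `low`
with `ε = 1` there is `Y` with `ψ w ∈ Bas`, `im Φ (ψ w) ≤ im w + 1 < S - Y₁` for `im w < -Y`; `L ∘ ψ` is holomorphic there, and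
`lm = (ψ|)⁻¹ ∘ L ∘ ψ` after a translation by `-m`. -/
def S_LAM : Prop := ∀ (n : ℕ) (g : ℂ[X]) (c₀ : ℝ) (c : ℂ) (φ Φ ψ : ℂ → ℂ) (R C ρ S Y₁ : ℝ) (K0 L : ℂ ≃ₜ ℂ),
  Good n g c₀ c → Pic n g c₀ φ → FC g c₀ Φ ψ R C → LS g c₀ φ Φ ψ K0 ρ S Y₁ L →
    ∃ lm : ℂ ≃ₜ ℂ, (∀ w, L (ψ w) = ψ (lm w)) ∧ (∀ w, lm (w + 1) = lm w + 1) ∧
      ∃ Y : ℝ, DifferentiableOn ℂ lm {w | w.im < -Y}

/-- JOB BES.  The map `β_S = lm ∘ T_(-iS) ∘ κ⁻¹` makes `K0 ∘ ψ ∘ β_S` holomorphic.  Proof.  For `z ∈ Bas`: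
`Φ (L.symm z) = κ.symm (Φ z)`, `L (ψ (κ.symm (Φ z) - iS)) = ψ (lm (κ.symm (Φ z) - iS))`, so `lav` says that
`z ↦ K0 (ψ (β_S (Φ z)))` is holomorphic on the set of the `z ∈ Bas` with `ψ (κ.symm (Φ z) - iS) ∈ Nn φ ρ`, equivalently
`ψ (β_S (Φ z)) ∈ Nn φ ρ` (`L` is the identity off `Bas` and maps `Bas` onto itself, and `Bas ⊆ Nn φ ρ` since `Bas` is disjoint from
`φ '' CExt`, `1 ≤ ρ`).  Let `W` be in the open set of the statement and `Φ z = W`, `z ∈ Bas` (`surj`).  `Φ` is not locally constant (`Bas` connected,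
`semΦ`), so there are points `z' ≠ z` near `z` with `Φ' z' ≠ 0` for all `z' ≠ z` near `z`, and `Φ` maps neighbourhoods of `z` onto
neighbourhoods of `W`: `K0 ∘ ψ ∘ β_S` is holomorphic at all `W' ≠ W` near `W` (local inverses of `Φ`), and continuous at `W`: removable
singularity. -/
def S_BES : Prop := ∀ (n : ℕ) (g : ℂ[X]) (c₀ : ℝ) (c : ℂ) (φ Φ ψ : ℂ → ℂ) (R C ρ S Y₁ : ℝ) (K0 L κ lm : ℂ ≃ₜ ℂ),
  1 < ρ → Good n g c₀ c → Pic n g c₀ φ → FC g c₀ Φ ψ R C → LS g c₀ φ Φ ψ K0 ρ S Y₁ L → KL g c₀ Φ ψ S Y₁ L κ lm →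
    DifferentiableOn ℂ (fun W => K0 (ψ (lm (κ.symm W - Complex.I * S))))
      {W | ψ (lm (κ.symm W - Complex.I * S)) ∈ Nn φ ρ}

/-- JOB BEU.  Uniqueness.  Proof.  `χ = β⁻¹ ∘ β'` commutes with `T₁`.  Let `W ∈ ℂ`; choose `m` with `(β' W - m).re < -R` and
`ψ (β' W - m) ∈ N` (`limψ`, `N` is a neighbourhood of `1`); `W₁ = W - m`, `β' W₁ = β' W - m`.  `K0 ∘ ψ ∘ β'` is holomorphic and injective near
`W₁`, and `K0 ∘ ψ ∘ β` is holomorphic and injective near `χ W₁` (`β (χ W₁) = β' W₁`), so `χ` is holomorphic near `W₁` (local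
inverse of an injective holomorphic function), and so near `W`.  `χ` is entire and injective, so affine (`χ` is not a polynomial of
degree `≥ 2` by injectivity, and not transcendental by Casorati-Weierstrass and the open mapping theorem; maybe in the
library; or use that `χ⁻¹` is entire too, `χ` is proper, so a polynomial), and it commutes with `T₁`. -/
def S_BEU : Prop := ∀ (g : ℂ[X]) (c₀ : ℝ) (Φ ψ : ℂ → ℂ) (R C : ℝ) (N : Set ℂ) (K0 β β' : ℂ ≃ₜ ℂ),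
  FC g c₀ Φ ψ R C → IsOpen N → (1 : ℂ) ∈ N → (∀ W, β (W + 1) = β W + 1) → (∀ W, β' (W + 1) = β' W + 1) →
  DifferentiableOn ℂ (fun W => K0 (ψ (β W))) {W | ψ (β W) ∈ N} →
  DifferentiableOn ℂ (fun W => K0 (ψ (β' W))) {W | ψ (β' W) ∈ N} → ∃ s : ℂ, ∀ W, β' W = β (W + s)

/-- the normalised `β` -/
structure Bet (g : ℂ[X]) (c₀ : ℝ) (φ Φ ψ : ℂ → ℂ) (K0 : ℂ ≃ₜ ℂ) (ρ : ℝ) (β : ℂ ≃ₜ ℂ) : Prop where
  per : ∀ W, β (W + 1) = β W + 1
  asy : ∀ ε : ℝ, 0 < ε → ∃ Y : ℝ, ∀ W : ℂ, W.im < -Y → ‖β W - W‖ ≤ ε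
  hol : ∃ Y : ℝ, DifferentiableOn ℂ β {W | W.im < -Y}
  holK : DifferentiableOn ℂ (fun W => K0 (ψ (β W))) {W | ψ (β W) ∈ Nn φ ρ}

/-- JOB BEA (uses `S_END`, `S_BES`, `S_BEU`).  Normalisation.  Proof.  Let `β_S = lm ∘ T_(-iS) ∘ κ⁻¹`.  `S_END` for `κ` and `lm`:
`κ W - W → k`, `lm w - w → l` as `im → -∞`.  For `im w` very negative (`low`) `κ (Φ (ψ w)) = Φ (L (ψ w)) = Φ (ψ (lm w))`, and `Φ (ψ w) - w → 0`,
so `k = l`.  Hence `β_S W - W → -iS` (`κ⁻¹ W - W → -k`, as `κ` is a homeomorphism close to `T_k` near the lower end: for `im W'` very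
negative the point `W = W' - k` moved a little is the preimage; precisely `κ⁻¹` maps points with very negative imaginary part to such points:
`κ W - W - k` is small for `im W < -Y`, and bounded for `im W ≥ -Y`… use: `{im W < -Y'} ⊆ κ '' {im < -Y}` by Rouché, or by
`S_END` applied to `κ.symm` on `{im W < b'}`, which is contained in `κ '' {im < b}`: the set `κ '' {im < b} `
is open, `1`-periodic, its complement `κ '' {b ≤ im}` is a closed set; `κ` maps the line `im = b` onto a curve in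
a strip (periodicity), and `κ '' {im < b}` is the component of the complement of this curve which contains the points with very negative
imaginary part).  By `S_BEU`, for `S, S₀ ≥ S₁`, `β_S W = β_(S₀) (W + s)`, and comparing at `im W → -∞`: `s - i S₀ = - i S`.  Put
`β W = β_(S₁) (W + i S₁)`.  `hol`: `κ⁻¹`, `lm` are holomorphic near the lower end. (`Nn φ ρ` is open and contains `1`: `1 = φ 1`, `φ` injective on
`CExt`, closed image of `{ρ ≤ ‖z‖}`.) -/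
def S_BEA : Prop := ∀ (n : ℕ) (g : ℂ[X]) (c₀ : ℝ) (c : ℂ) (φ Φ ψ : ℂ → ℂ) (R C ρ S₁ Y₁ : ℝ) (K0 : ℂ ≃ₜ ℂ)
  (L κ lm : ℝ → (ℂ ≃ₜ ℂ)), 1 < ρ → Good n g c₀ c → Pic n g c₀ φ → FC g c₀ Φ ψ R C →
  (∀ S, S₁ ≤ S → LS g c₀ φ Φ ψ K0 ρ S Y₁ (L S) ∧ KL g c₀ Φ ψ S Y₁ (L S) (κ S) (lm S)) →
    ∃ β : ℂ ≃ₜ ℂ, Bet g c₀ φ Φ ψ K0 ρ β ∧
      ∀ S, S₁ ≤ S → ∀ W, lm S (W - Complex.I * S) = β (κ S W - Complex.I * S)

/-- JOB PSL.  The rigidity of the horn map.  Proof.  Let `κ = κ_q`, `0 < q < q₀`.  Koebe distortion for `κ` on `ball 0 (ρ/q)`: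
`κ x = a x (1 + O(q))` and `κ x = a x + b x² + O(a q² )`, `b = O(a q)`, uniformly on `‖x‖ ≤ R₁` (`R₁` larger than all `‖x‖`, `x ∈ X0`).
`κ` permutes `X0` (injective).  (1) `|a| → 1` as `q → 0`: the set of moduli of `X0` (positive) is mapped into itself by
multiplication with `|a|` up to a factor `1 + O(q)`; look at the largest and the smallest modulus.  So for small `q` `κ` preserves the moduli of the
points of `X0`, so `κ x₁ = x₁`, `κ x₂ = x₂`, and `a = 1 + O(q)`.  (2) Let `δ x = κ x - x`, `D = sup_{‖x‖ ≤ R₁} ‖δ x‖ = O(q)`,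
`δ 0 = 0`, `δ x₁ = δ x₂ = 0`.  Suppose `G ≠ Fh` near `0`, let `m ≥ 2` be the first index where the Taylor coefficients differ, by
`d = f_m - g_m ≠ 0`.  From `κ (G (q x)) = Fh (q κ x)`: `G (q x) + δ (G (q x)) = Fh (q x) + q δ x (1 + O(q))`
(`Fh' = 1 + O(q)` near `q x`), and `δ (G (q x)) = δ' 0 q x + O(q² D)` (Cauchy estimates for `δ` on `‖x‖ ≤ R₁`, `‖G (q x)‖ = O(q)`,
`G (q x) = q x + O(q²)`).  So `δ x = δ' 0 x - d q^(m-1) x^m + O(q D) + O(q^m)` uniformly on `‖x‖ ≤ R₁`.  At `x₁`, `x₂`: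
`δ' 0 = d q^(m-1) x_j^(m-1) + O(q D) + O(q^m)`, `j = 1, 2`.  So `D = O(q^(m-1))`, and subtracting
`d (x₁^(m-1) - x₂^(m-1)) = O(q) → 0`, but `‖x₁‖ ≠ ‖x₂‖`: contradiction. -/
def S_PSL : Prop := ∀ (G Fh : ℂ → ℂ) (ρ q₀ : ℝ) (X0 : Finset ℂ) (x₁ x₂ : ℂ), 0 < ρ → 0 < q₀ →
  DifferentiableOn ℂ G (ball 0 ρ) → DifferentiableOn ℂ Fh (ball 0 ρ) → G 0 = 0 → Fh 0 = 0 → deriv G 0 = 1 →
  deriv Fh 0 = 1 → (0 : ℂ) ∉ X0 → x₁ ∈ X0 → x₂ ∈ X0 → ‖x₁‖ ≠ ‖x₂‖ → (∀ x ∈ X0, ‖x‖ = ‖x₁‖ → x = x₁) →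
  (∀ x ∈ X0, ‖x‖ = ‖x₂‖ → x = x₂) →
  (∀ q : ℝ, 0 < q → q < q₀ → ∃ κ : ℂ → ℂ, DifferentiableOn ℂ κ (ball 0 (ρ / q)) ∧ InjOn κ (ball 0 (ρ / q)) ∧
    κ 0 = 0 ∧ (∀ x ∈ X0, κ x ∈ X0) ∧
    ∀ x ∈ ball (0 : ℂ) (ρ / q), ‖(q : ℂ) * κ x‖ < ρ → κ (G (q * x)) = Fh (q * κ x)) →
    ∀ᶠ x in 𝓝 (0 : ℂ), G x = Fh x

/-- JOB HOR (uses `S_END`, `S_PSL`).  The horn maps agree.  Proof.  `h W = Φ (ψ W)`, holomorphic for `im W < -Y₀`, `h W - W → 0`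
(`low`), `hf = h ∘ β`, holomorphic for `im W < -Y₀'`, `hf W - W → 0`.  For `W - iS` low and `κ_S W - iS` low:
`κ_S (h (W - iS)) = Φ (L_S (ψ (W - iS))) = Φ (ψ (lm_S (W - iS))) = h (β (κ_S W - iS)) = hf (κ_S W - iS)`.
With `X = exp (-2πi W)`, `q = exp (-2πS)`, `exp (-2πi (W - iS)) = q X`.  `G X = exp (-2πi h W)`, `Fh X = exp (-2πi hf W)`,
`κ_q X = exp (-2πi κ_S W)` for `X ≠ 0`, `0 ↦ 0`: well defined (periodicity), holomorphic at `0` with the right derivatives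
(`S_END`, `low`, `Bet.asy`), injective on `ball 0 (exp (2π (S - Y₁)))`.  Take `ρ` small.  `X0` = the image of the set of the
critical points of `g` (finite, contained in `Bas` by `crit`, `disc`) under `z ↦ exp (-2πi Φ z)`; `L_S` maps critical points to critical points
(`z` is critical iff `g` is not injective near `z`, `L_S` is a homeomorphism commuting with `g`), and `κ_S (Φ z) = Φ (L_S z)`.
`x₁`, `x₂` from `z = c`, `conj c`: `|exp (-2πi Φ z)| = exp (2π im Φ z)`, `im Φ c ≠ 0` (`imΦ`, `nonreal`), `im Φ (conj c) = - im Φ c`, and the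
other critical points are real (`crit`), with `im Φ = 0` (`realΦ`).  By `S_PSL` `G = Fh` near `0`, so `h W - hf W ∈ ℤ` for `im W` very
negative, and it tends to `0`, so `h W = h (β W)`; `h` is injective on `{im W < -Y₂}` (`h W - W` is `1`-periodic, holomorphic and tends to `0`,
so its derivative tends to `0`; `{im < -Y₂}` is convex).  So `β W = W`. -/
def S_HOR : Prop := ∀ (n : ℕ) (g : ℂ[X]) (c₀ : ℝ) (c : ℂ) (φ Φ ψ : ℂ → ℂ) (R C ρ S₁ Y₁ : ℝ) (K0 β : ℂ ≃ₜ ℂ)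
  (L κ lm : ℝ → (ℂ ≃ₜ ℂ)), 1 < ρ → Good n g c₀ c → Pic n g c₀ φ → FC g c₀ Φ ψ R C →
  (∀ S, S₁ ≤ S → LS g c₀ φ Φ ψ K0 ρ S Y₁ (L S) ∧ KL g c₀ Φ ψ S Y₁ (L S) (κ S) (lm S)) →
  Bet g c₀ φ Φ ψ K0 ρ β → (∀ S, S₁ ≤ S → ∀ W, lm S (W - Complex.I * S) = β (κ S W - Complex.I * S)) →
    ∃ Y : ℝ, ∀ W : ℂ, W.im < -Y → β W = W

/-- the conclusion: near a point `φ ζ₀` of the Julia set `K0` agrees on `Bas` with an injective holomorphic map `Kh` -/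
def Concl (g : ℂ[X]) (c₀ : ℝ) (φ : ℂ → ℂ) (K0 : ℂ ≃ₜ ℂ) : Prop := ∃ (ζ₀ : ℂ) (r : ℝ) (Kh : ℂ → ℂ), ‖ζ₀‖ = 1 ∧ 0 < r ∧
  DifferentiableOn ℂ Kh (ball (φ ζ₀) r) ∧ InjOn Kh (ball (φ ζ₀) r) ∧
  (∀ y ∈ ball (φ ζ₀) r, (y ∉ φ '' MB.Ext → Kh y = K0 y) ∧ (y ∈ φ '' MB.Ext → Kh y ∈ K0 '' (φ '' MB.Ext)))

/-- JOB LOC.  From the end of the cylinder to a point of the Julia set.  Proof.  Let `V = ψ⁻¹ Bas` (open, `T₁`-invariant in both
directions by `Pic.inv`), `V°` its component which contains the connected set `{im W < -Y'}`, `Y'` large (`low`); `V° ± 1 = V°`.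
(1) `β = id` on `V°`: the set `O` of the `W ∈ V°` with `β = id` near `W` is open, not empty, and closed in `V°`: let `W ∈ V°` be a limit
point; `β W = W`.  Replace `W` by `W - m`, `(W - m).re < -R - 1` (everything commutes with `T₁`); near `W` both `K0 ∘ ψ ∘ β` (`ψ (β W) = ψ W ∈ Bas`,
`Bas ⊆ Nn φ ρ`) and `K0 ∘ ψ` are holomorphic, they agree on a nonempty open subset of a small ball around `W`, so on the ball, and `K0`
and `ψ` (on `{re < -R}`) are injective: `β = id` on the ball.  So `β = id` on `closure V°`.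
(2) There is a point `w₀ ∈ frontier V°` with `re w₀ < -R - 1`: `out` gives a horizontal line disjoint from `V`, go up vertically from
a low point.  `w₀ ∉ V` (a component of an open set is closed in it), `z₀ = ψ w₀ ∈ closure Bas \ Bas`, so
`z₀ = φ ζ₀`, `‖ζ₀‖ = 1` (`z₀ = φ z`, `z ∈ CExt` by `Bot.bas`; `z ∈ Ext` is impossible as `φ '' Ext` is open and disjoint from `Bas`).  `β w₀ = w₀`.
(3) Let `B'` be a ball around `w₀` in `{re < -R}`, so small that `β '' B' ⊆ {re < -R}` and `ψ (β W) ∈ Nn φ ρ` on `B'`; `σ` the holomorphic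
inverse of `ψ|{re < -R}` on its open image, `ψ '' B'` is a neighbourhood of `z₀`, contains `ball z₀ ε`; let `δ` be from `Pic.lc`.  For
`y ∈ Bas ∩ ball z₀ δ'` (`δ' ≤ δ`): take a point `y₁ ∈ ψ '' (V° ∩ B') ∩ ball z₀ δ` (exists, `w₀ ∈ frontier V°`) and the connected set
`S ⊆ Bas ∩ ball z₀ ε` with `y, y₁ ∈ S`: `σ '' S` is connected, contained in `V`, meets `V°`, so `σ y ∈ V°` and `β (σ y) = σ y`.  By continuity
`β (σ y) = σ y` also for `y ∈ closure Bas ∩ ball z₀ δ'`, in particular on `φ '' circle` (`Bot.clos`).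
(4) `Kh = K0 ∘ ψ ∘ β ∘ σ` on `ball z₀ r`, `r` small: holomorphic, injective, `= K0` on `(Bas ∪ φ '' circle) ∩ ball z₀ r`, and the
complement of `φ '' Ext` is `Bas ∪ φ '' circle`.  If `y ∈ φ '' Ext ∩ ball z₀ r`, let `y' = ψ (β (σ y))`, in `ball z₀ δ'` for small `r`; if `y' ∉ φ '' Ext`
then `ψ (β (σ y')) = y' = ψ (β (σ y))`, so `y' = y` by injectivity, a contradiction.  So `Kh y = K0 y' ∈ K0 '' (φ '' Ext)`. -/
def S_LOC : Prop := ∀ (n : ℕ) (g : ℂ[X]) (c₀ : ℝ) (c : ℂ) (φ Φ ψ : ℂ → ℂ) (R C ρ : ℝ) (K0 β : ℂ ≃ₜ ℂ), 1 < ρ →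
  Good n g c₀ c → Pic n g c₀ φ → FC g c₀ Φ ψ R C → DifferentiableOn ℂ K0 (Bas g c₀) → Bet g c₀ φ Φ ψ K0 ρ β →
  (∃ Y : ℝ, ∀ W : ℂ, W.im < -Y → β W = W) → Concl g c₀ φ K0

/-- JOB AMN (uses `S_KAP`, `S_LAM`, `S_BEA`, `S_HOR`, `S_LOC`).  Assembly: choose `L S`, `κ S`, `lm S`. -/
def S_AMN : Prop := ∀ (n : ℕ) (g : ℂ[X]) (c₀ : ℝ) (c : ℂ) (φ Φ ψ : ℂ → ℂ) (R C ρ S₁ Y₁ : ℝ) (K0 : ℂ ≃ₜ ℂ), 1 < ρ →
  Good n g c₀ c → Pic n g c₀ φ → FC g c₀ Φ ψ R C → DifferentiableOn ℂ K0 (Bas g c₀) →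
  (∀ S, S₁ ≤ S → ∃ L : ℂ ≃ₜ ℂ, LS g c₀ φ Φ ψ K0 ρ S Y₁ L) → Concl g c₀ φ K0

end Pool.Agent.H212.ND
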