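import Pool.Agent.H212.ND.Defs

/-!
# Project ND (MP_395436_an), first part: the polynomial `g` and the topology of its Julia set

A job `X` proves `theorem t_X : S_X`, or `theorem t_X (h1 : S_Y) … : S_X` from the hypotheses named in its docstring.
-/

set_option autoImplicit false

open Filter Metric Set Topology Polynomial
open scoped ComplexConjugate

namespace Pool.Agent.H212.ND

open Pool.Agent.H212.MB

/-! ## G. Existence -/

/-- JOB GEX.  Existence of `g`.  Proof.  Let `θ = π / n`, `0 < r` small, `K = 1 / (1 + 2 r cos θ + r²)`,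
`g' = K y^(n-3) (y² + 2 r cos θ y + r²)`, `g = p₀ + K (y^n / n + 2 r cos θ y^(n-1) / (n-1) + r² y^(n-2) / (n-2))`, `g(1) = 1`,
`c = r exp (i π (n-1) / n)`, `c₀ = 1/4`, `R = 1 - c₀ = 3/4`.  All coefficients are `≥ 0` (`n ≥ 3`, `cos θ ≥ 1/2`), `g'(1) = 1`;
`1 - p₀` is a weighted mean of `1/n`, `1/(n-1)`, `1/(n-2)` with weights `K, 2 r K cos θ, r² K`, so `1 - p₀ → 1/n` as `r → 0` and
`p₀ ≥ 1/2` for small `r`.  `disc`: `|g y - c₀| ≤ (p₀ - c₀) + (1 - p₀)` with equality only if `y^n = y^(n-1) = 1`, so `y = 1`.  `lip`: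
`|g'| ≤ g'(1) = 1` on the closed disc (convex).  `crit`: the critical points are `c`, `conj c` and `0` (if `n ≥ 4`), all of modulus
`≤ r`.  `esc`: convexity (`g'(1) = 1`, `g'' > 0` on `[1, ∞)`).
`expd`: CLAIM: for small `r ≥ 0` and all `y ≠ 1` with `|g y - c₀| = R` we have `|g' y| |y - c₀| > R`.  Suppose there are `r_k → 0`, and
`y_k ≠ 1` with `|g y_k - c₀| = R`, `|g' y_k| |y_k - c₀| ≤ R`; wlog `y_k → y`.  For `r = 0`: `u = y^n` satisfies
`|u + (n - 1 - n c₀)| = n - n c₀`, so `|u| ≥ 1` with equality only for `u = 1`; `|g' y| |y - c₀| = |y|^(n-1) |y - c₀| ≥ |y| - c₀ ≥ R` with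
equality only for `y = 1`.  So `y_k → 1`.  Let `y = 1 + η`, `a₂ = g''(1)/2`, `a₃ = g'''(1)/6`.  Then
`log (g'(y) (y - c₀) / (g y - c₀)) = 2 a₂ η + (3 a₃ - 2 a₂² - a₂ / R) η² + O(η³)`, and on the curve `|g y - c₀| = R` (take the real
part of `log ((g y - c₀) / R) = (η + a₂ η²) / R - η² / (2 R²) + O(η³)`): `re η = - re ((a₂ - 1/(2R)) η²) + O(|η|³)`, so `re η = O(|η|²)`,
`re η² = - |η|² + O(|η|³)`, `re η = (a₂ - 1/(2R)) |η|² + O(|η|³)`, and the real part of the logarithm is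
`(4 a₂² - 3 a₃) |η|² + O(|η|³)`, uniformly in `r ∈ [0, 1]`; for `r = 0` `4 a₂² - 3 a₃ = n (n-1) / 2 > 0`.  This is a contradiction for large `k`.
(Any other proof of the claim is fine, also with explicit constants, or with another choice of `g`, `c₀`.)
Now `h y = (g y - c₀) / (g' y (y - c₀))` is continuous on `W = {|g y - c₀| ≥ R}`, holomorphic inside (no zeros of the
denominator: `disc` and `crit`), `h → 1/n` at infinity, `|h| < 1` at all points of `{|g - c₀| = R}` except `1`, `|h 1| = 1`.  By the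
maximum principle `|h| ≤ 1` on `W`, and equality at an interior point would make `h` constant on its component `U` of the
interior of `W`; `U` is not bounded or has a frontier point other than `1` (otherwise `U ∪ {1}` would be everything), contradiction.
`nonreal`: `g c - p₀ = K r^n (-1)^(n-1) / (n-1) * (-1/n + exp (2 i θ) / (n-2))` (use `2 r cos θ c = -c² - r²`), not real.  For `‖y‖ ≤ 1`
`|g y - p₀| ≤ 1 - p₀ < p₀ sin (π/n)` for small `r` (since `(1/n) / (1 - 1/n) = 1/(n-1) < 2/n ≤ sin (π/n)`; strict for `n ≥ 3`), so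
`g y ≠ 0`, `|arg (g y)| < π/n`; and if `0 < arg y < π/n`, `‖y‖ ≤ 1`, then `im y^k > 0` for `k = n, n-1` and `im y^(n-2) > 0`, so
`im g y > 0`.  So `im (g^[m] c) ≠ 0` for all `m ≥ 1`, symmetric in the lower half plane; `im c = r sin (π (n-1)/n) ≠ 0`. -/
def S_GEX : Prop := ∀ n : ℕ, 3 ≤ n → ∃ (g : ℂ[X]) (c₀ : ℝ) (c : ℂ), Good n g c₀ c

/-- JOB FAM.  The family.  Proof.  Expand at `b₀ = bb n g`: `g (b₀ + x) = ∑_{j ≤ n} d_j x^j`, `d_n = g.coeff n =: A ≠ 0`, `d_(n-1) = 0`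
(choice of `b₀`).  `P_a = X^n + ∑_{j < n-1} C (d_j / A * a^(n-j)) X^j + C (a (1 - b₀) - a^n / A)`; for `a ≠ 0`
`P_a(z) = a (1 + (a^(n-1)/A) (g (z/a + b₀) - 1) - b₀)`.  Its coefficients are polynomials in `a`; the topology of `RMap n` is induced by
the coefficients. -/
def S_FAM : Prop := ∀ (n : ℕ) (g : ℂ[X]) (c₀ : ℝ) (c : ℂ), Good n g c₀ c → ∃ F : ℂ → RMap n, Fam n g F

/-! ## T. The inverse branch and the Böttcher map -/

/-- the closed right half plane -/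
def HP : Set ℂ := {X | 0 ≤ X.re}

/-- the chart of the complement of the disc `ball c₀ (1 - c₀)` -/
noncomputable def ch (c₀ : ℝ) (X : ℂ) : ℂ := c₀ + (1 - c₀) * Complex.exp X

/-- `Γ` is the inverse of `g` in the chart -/
structure Inv (n : ℕ) (g : ℂ[X]) (c₀ : ℝ) (Γ : ℂ → ℂ) (C : ℝ) : Prop where
  cont : ContinuousOn Γ HP
  diff : DifferentiableOn ℂ Γ {X | 0 < X.re}
  maps : ∀ X ∈ HP, Γ X ∈ HP
  inv : ∀ X ∈ HP, g.eval (ch c₀ (Γ X)) = ch c₀ X
  per : ∀ X ∈ HP, Γ (X + 2 * Real.pi * Complex.I * n) = Γ X + 2 * Real.pi * Complex.I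
  zero : Γ 0 = 0
  inj : InjOn Γ HP
  symm : ∀ X ∈ HP, Γ (conj X) = conj (Γ X)
  all : ∀ X ∈ HP, ∀ y : ℂ, g.eval y = ch c₀ X → ∃ k : ℤ, y = ch c₀ (Γ (X + 2 * Real.pi * Complex.I * k))
  contr : ∀ X ∈ HP, ∀ X' ∈ HP, X ≠ X' → ‖Γ X - Γ X'‖ < ‖X - X'‖
  far : ∀ X ∈ HP, ‖Γ X - X / n‖ ≤ C
  lim : ∃ L : ℂ, ∀ ε : ℝ, 0 < ε → ∃ R : ℝ, ∀ X : ℂ, R ≤ X.re → ‖Γ X - X / n - L‖ ≤ ε

/-- JOB CH1.  The inverse branch in the chart.  Proof.  `R = 1 - c₀`.  The critical values of `g` and `g c₀` are in the open disc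
`ball c₀ R` (`crit`, `disc`), so there is `ε > 0` such that `g` has no critical point in `g⁻¹ V`, `V = {w | R exp (-ε) < ‖w - c₀‖}`, and
`c₀ ∉ g⁻¹ V`.  `g : g⁻¹ V → V` is a proper local homeomorphism, so a covering (a polynomial is proper); the map
`X ↦ ch c₀ X`, `{re X > -ε} → V`, from a simply connected domain lifts to a holomorphic `Y` with `g (Y X) = ch c₀ X`, `Y 0 = 1`, and
`Y X - c₀ ≠ 0` has a logarithm: `Y X = ch c₀ (Γ X)`, `Γ 0 = 0`, `Γ` holomorphic on `{re X > -ε}`.  (Library on lifts through coverings: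
Pool/Graph/R_pool_sql_team_seeded_2aa45f1a/Q227/Cov/Lift.lean.)  `maps`: for `re X ≥ 0` let `y = Y X`: if `‖y - c₀‖ < R` then
`‖y‖ < 1` and `‖g y - c₀‖ < R` by `disc`, a contradiction.  `contr`: `Γ' = (g y - c₀) / (g' y (y - c₀))`, so `‖Γ' X‖ < 1` unless `y = 1`,
by `expd`, and the points with `Y X = 1` are isolated; integrate along the segment.  Far away: `g y = A y^n (1 + o(1))`
gives `n Γ X = X + const + o(1)` modulo `2πi`, so by continuity `Γ X - X/n → L` as `re X → ∞`.  `per`: `D X = Γ (X + 2πi n) - Γ X - 2πi → 0` as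
`re X → ∞`; `y = ch (Γ (X + 2πi n))` and `y' = ch (Γ X)` have `g y = g y'` and `y / y' → 1`, which forces `y = y'` for large `|y|`
(`g y - g y' = (y - y') (n A y^(n-1) + …)`), so `exp D = 1`, `D = 0` there and everywhere (identity theorem).  `far`: by `per` and `lim`.
`all`: the `n` points `ch (Γ (X + 2πi k))`, `0 ≤ k < n`, are preimages of `ch X`, and they are distinct: if
`Γ (X + 2πi k) = Γ (X + 2πi k') + 2πi j` then the set of such `X` is open (unique lifting near `X`, `g` locally injective at the point) and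
closed in the half plane, so it holds for all `X`, and for `re X → ∞` we get `(k - k') / n = j`.  So these are all preimages
(`g - w` has degree `n`).  `inj`: `Γ X = Γ X'` gives `ch X = ch X'`, so `X' = X + 2πi k`, and by the same argument `k / n = 0`.  `symm`: `X ↦ conj (Γ (conj X))` is another lift with the value `0` at `0` (`g` is real). -/
def S_CH1 : Prop := ∀ (n : ℕ) (g : ℂ[X]) (c₀ : ℝ) (c : ℂ), Good n g c₀ c → ∃ (Γ : ℂ → ℂ) (C : ℝ), Inv n g c₀ Γ C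

/-- JOB CH2.  Uniform contraction.  Proof.  By `per`, `lim`, `contr`: for `0 < ε ≤ C₁` there is `δ > 0` with
`‖Γ X - Γ X'‖ ≤ ‖X - X'‖ - δ` if `X, X' ∈ HP`, `ε ≤ ‖X - X'‖ ≤ C₁`: for `re X ≥ R` or `re X' ≥ R` large by `lim`
(`‖Γ X - Γ X'‖ ≤ ‖X - X'‖ / n + small`), otherwise by compactness, after a translation by a multiple of `2πi n` (`per`, also for
negative multiples).  `HP` is invariant, distances do not increase, so after `C₁ / δ + 1` steps they are `≤ ε`. -/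
def S_CH2 : Prop := ∀ (n : ℕ) (g : ℂ[X]) (c₀ : ℝ) (c : ℂ) (Γ : ℂ → ℂ) (C : ℝ), Good n g c₀ c → Inv n g c₀ Γ C →
  ∀ C₁ ε : ℝ, 0 < ε → ∃ M : ℕ, ∀ m : ℕ, M ≤ m → ∀ X ∈ HP, ∀ X' ∈ HP, ‖X - X'‖ ≤ C₁ → ‖Γ^[m] X - Γ^[m] X'‖ ≤ ε

/-- `Φ = lim Γ^[m] (n ^ m X)` -/
structure Lim (n : ℕ) (Γ : ℂ → ℂ) (C : ℝ) (Φ : ℂ → ℂ) : Prop where
  cont : ContinuousOn Φ HP
  diff : DifferentiableOn ℂ Φ {X | 0 < X.re}
  pos : ∀ X : ℂ, 0 < X.re → 0 < (Φ X).re
  maps : ∀ X ∈ HP, Φ X ∈ HP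
  inj : InjOn Φ {X | 0 < X.re}
  eq : ∀ X ∈ HP, Γ (Φ (n * X)) = Φ X
  per : ∀ X ∈ HP, Φ (X + 2 * Real.pi * Complex.I) = Φ X + 2 * Real.pi * Complex.I
  zero : Φ 0 = 0
  symm : ∀ X ∈ HP, Φ (conj X) = conj (Φ X)
  disp : ∀ X ∈ HP, ‖Φ X - X‖ ≤ 2 * C
  lim : ∀ ε : ℝ, 0 < ε → ∃ M : ℕ, ∀ m : ℕ, M ≤ m → ∀ X ∈ HP, ‖Γ^[m] ((n : ℂ) ^ m * X) - Φ X‖ ≤ ε

/-- JOB CH3 (uses `S_CH2`).  The limit.  Proof.  `e_j = sup ‖Γ^[j] (n^j Y) - Y‖` satisfies `e_j ≤ C + e_(j-1) / n`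
(`Z = Γ^[j-1] (n^(j-1) (n Y))` has `‖Z - n Y‖ ≤ e_(j-1)`, and `‖Γ Z - Z / n‖ ≤ C`), so `e_j ≤ 2 C`.  For `m ≤ m'`
`Γ^[m'] (n^m' X) = Γ^[m] (Γ^[m'-m] (n^(m'-m) Y))`, `Y = n^m X`, so `S_CH2` with `C₁ = 2 C` gives a uniform Cauchy sequence.  By `inj`
`Γ^[m] (n^m ·)` is injective and holomorphic on `{re X > 0}` (`Γ` maps the open half plane into itself: open mapping); the limit is not constant (`disp`), so it is injective (Hurwitz; library: Pool/Graph/R_seed8/Helper240/ZFM/Riem.lean) and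
open, so `pos`. -/
def S_CH3 : Prop := ∀ (n : ℕ) (g : ℂ[X]) (c₀ : ℝ) (c : ℂ) (Γ : ℂ → ℂ) (C : ℝ), Good n g c₀ c → Inv n g c₀ Γ C →
  ∃ Φ : ℂ → ℂ, Lim n Γ C Φ

/-- `φ` is the Böttcher map of `g`, in the coordinate `y` -/
structure Bot (n : ℕ) (g : ℂ[X]) (c₀ : ℝ) (φ : ℂ → ℂ) : Prop where
  cont : ContinuousOn φ CExt
  diff : DifferentiableOn ℂ φ MB.Ext
  injE : InjOn φ MB.Ext
  semi : ∀ z ∈ CExt, g.eval (φ z) = φ (z ^ n)
  one : φ 1 = 1
  asym : Tendsto (fun z => φ z - z / aa n g) (cocompact ℂ) (𝓝 (bb n g))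
  bas : (φ '' CExt)ᶜ = Bas g c₀
  disj : ∀ z ∈ MB.Ext, ∀ ζ : ℂ, ‖ζ‖ = 1 → φ z ≠ φ ζ
  clos : ∀ ζ : ℂ, ‖ζ‖ = 1 → φ ζ ∈ closure (Bas g c₀)

/-- JOB CH4 (uses `S_CH1`, `S_CH2`, `S_CH3`).  The Böttcher map.  Proof.  `φ z = ch c₀ (Φ (log z))` for `‖z‖ ≥ 1`, well defined by `per`
(any logarithm; for a global formula use `Complex.log`, and continuity at the cut by `per`; for `‖z‖ < 1` put e.g. `φ z = z / aa n g + bb n g`
to get `asym` along `cocompact`, only large `z` matter).  Injective on `Ext`: `exp (Φ X) = exp (Φ X')` means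
`Φ X' = Φ X + 2πi k = Φ (X + 2πi k)`.  `semi`: `g (ch (Φ X)) = g (ch (Γ (Φ (n X)))) = ch (Φ (n X))`.  `asym`: `φ z / z → L ≠ 0`
(`Φ X - X` is `2πi`-periodic and bounded, so `Φ (log z) - log z` is a bounded holomorphic function of `z ∈ Ext` and has a limit and an
expansion at infinity), `φ z = L z + b + O(1/z)`; compare coefficients in `g (φ z) = φ (z^n)`:
`A L^n = L`, `n A L^(n-1) b + g.coeff (n-1) L^(n-1) = 0`.  `L > 0`: `φ` is real on `(1, ∞)` by `symm`, positive there for large `z`.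
`bas`: a point of `φ '' CExt` has all its images in `ch '' HP`, so it is not in `Bas`.  If `y ∉ Bas`, all `g^[m] y ∈ ch '' HP`, so by `all`
(`m` times) `y = ch (Γ^[m] X_m)`, `X_m ∈ HP`; changing `X_m` by a multiple of `2πi n^m` we may assume `0 ≤ im X_m ≤ 2π n^m` (this
changes `Γ^[m] X_m` by a multiple of `2πi`); `X_m = n^m θ_m`, `θ_m` bounded (`lim`, `disp`), a limit point `θ` of the `θ_m` has `ch (Φ θ) = y`.
`disj`: iterate: `φ (z^(n^m)) → ∞`, `φ (ζ^(n^m))` bounded.  `clos`: `ζ = exp (iθ)`; let `τ_m` be real with `|τ_m - n^m θ| ≤ 1`,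
`τ_m ∉ 2πℤ`; `Γ^[m] (i τ_m) → Φ (iθ)` by `S_CH2`, and `ch (Γ^[m] (i τ_m)) ∈ Bas`: its `m`-th image is
`w = ch (i τ_m)`, `‖w - c₀‖ = 1 - c₀`, `w ≠ 1`, `‖w‖ ≤ 1`, so `g w` is in the open disc (`disc`). -/
def S_CH4 : Prop := ∀ (n : ℕ) (g : ℂ[X]) (c₀ : ℝ) (c : ℂ), Good n g c₀ c → ∃ φ : ℂ → ℂ, Bot n g c₀ φ

/-- JOB BASN (uses `S_CH1`).  The basin.  Proof.  Forward invariance: `B = ball c₀ (1 - c₀)`, `g '' B ⊆ B` by `disc`.  `Bas` is open; it
contains the critical points (`crit`); `g y ∈ Bas ↔ y ∈ Bas`.  `closedBall 0 1 \ {1} ⊆ Bas` (`disc`).  Connected: `V_m = (g^[m])⁻¹ B`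
is increasing, so it suffices that `V_m` is connected.  `V_m` is open, bounded; its frontier is contained in
`(g^[m])⁻¹ (sphere c₀ (1 - c₀)) = ch '' (Γ^[m] '' (i ℝ))` (by `all`, `inv`), which is connected (continuous image of a line), and every
point `p` of this set is not critical for `g^[m]` (the critical values of `g^[m]` are in `B`), so `g^[m]` is a homeomorphism from a
neighbourhood of `p` onto a small ball `D` around `g^[m] p`, and `V_m` is there the preimage of the convex set `D ∩ B ≠ ∅`: so exactly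
one component of `V_m` comes close to `p`, and this component is locally constant in `p`, hence constant.  Every component of `V_m`
(open, bounded, not empty) has a frontier point.  So there is only one component. -/
def S_BASN : Prop := ∀ (n : ℕ) (g : ℂ[X]) (c₀ : ℝ) (c : ℂ), Good n g c₀ c → IsOpen (Bas g c₀) ∧
  IsPreconnected (Bas g c₀) ∧ (∀ y, g.eval y ∈ Bas g c₀ ↔ y ∈ Bas g c₀) ∧
  (∀ y, g.derivative.eval y = 0 → y ∈ Bas g c₀) ∧ (∀ y : ℂ, ‖y‖ ≤ 1 → y ≠ 1 → y ∈ Bas g c₀) ∧ (1 : ℂ) ∉ Bas g c₀ ∧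
  (∀ y : ℝ, 1 ≤ y → (y : ℂ) ∉ Bas g c₀) ∧ (∀ y, y ∈ Bas g c₀ → conj y ∈ Bas g c₀) ∧
  ∀ y ∈ Bas g c₀, Tendsto (fun m => (fun z : ℂ => g.eval z)^[m] y) atTop (𝓝 1)

/-- JOB INJ.  Two external rays which land at the same point separate the plane.  Here `Bs` is an open connected set, disjoint
from `φ '' CExt`, with `φ ζ ∈ closure Bs`.  Proof.  Suppose `φ ζ₁ = φ ζ₂ = x`, `ζ_j = exp (i θ_j)`, `θ₁ < θ₂ < θ₁ + 2π`.  `Z` = the union of the
closed rays `{φ (t ζ_j) | t ≥ 1}`, a closed set.  For `y ∉ Z` let `Λ_j y` be the value at `t = 1` of the continuous logarithm of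
`t ↦ (φ (t ζ_j) - y) / (t ζ_j)`, `t ∈ [1, ∞)`, which tends to `0` as `t → ∞` (the function tends to `φ'(∞) = L`; divide by `L`).  Then
`exp (Λ₁ y - Λ₂ y) = ζ₂ / ζ₁`, and `y ↦ Λ₁ y - Λ₂ y` is locally constant off `Z` (locally uniform convergence at infinity).
(1) It is constant on the connected set `Bs ∪ {φ ζ | ‖ζ‖ = 1, φ ζ ≠ x}` (`Bs` together with some points of its closure; disjoint from
`Z` by `disj`, `hb`).  (2) For `y = φ w`, `w = ρ exp (iθ)`, `ρ > 1`, `θ ∉ {θ₁, θ₂}` mod `2π`: let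
`k(t) = (φ (t ζ_j) - φ w) / (t ζ_j - w)`; if `ρ` is large then `‖k(t)/L - 1‖ ≤ 1/2` for all `t ≥ 1` and tends to `0` uniformly as `ρ → ∞`:
`e(z) = φ z - L z` is bounded on `CExt`, so this is clear if `‖t ζ_j - w‖` is large, otherwise the segment from `w` to `t ζ_j` is in the
region where `e'` is small.  So `Λ_j y = log (k(1)/L) + log (1 - w / ζ_j)` with principal logarithms (`1 - w/(t ζ_j)` does not meet
the negative axis as `θ ≠ θ_j`).  As `ρ → ∞` `log (1 - w/ζ₁) - log (1 - w/ζ₂)` tends to `i` times the difference of the principal arguments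
of `-exp (i (θ - θ_j))`: for `θ₁ < θ < θ₂` it is `i (θ₂ - θ₁ - 2π)`, for `θ₂ < θ < θ₁ + 2π` it is `i (θ₂ - θ₁)`.  Since the difference
is locally constant it has these values on the images of the two open sectors (connected, disjoint from `Z` as `φ` is
injective on `Ext`), and by continuity at the points `φ (exp (iθ)) ≠ x` of the two arcs.  (3) Both arcs contain such points:
otherwise `φ = x` on an arc; then `φ ζ' = g^[m] x` for all `ζ'` in the image of the arc under `z^(n^m)`, all of the circle for large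
`m`, so `φ` is constant on the circle, and by the maximum principle (`φ - const` on `Ext`, `1/φ`, or the Schwarz reflection
principle) we get a contradiction; (simplest: `z ↦ (φ z - x) / z` is holomorphic without zeros on `Ext`, tends to `L` at infinity and to
`0` at the circle: the reciprocal is bounded by… apply the maximum principle to `(φ z - x)/z`).  (1), (2) contradict each other. -/
def S_INJ : Prop := ∀ (n : ℕ) (φ G : ℂ → ℂ) (Bs : Set ℂ) (L b : ℂ), 2 ≤ n → L ≠ 0 → ContinuousOn φ CExt →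
  DifferentiableOn ℂ φ MB.Ext → InjOn φ MB.Ext → (∀ z ∈ CExt, G (φ z) = φ (z ^ n)) →
  Tendsto (fun z => φ z - L * z) (cocompact ℂ) (𝓝 b) → (∀ z ∈ MB.Ext, ∀ ζ : ℂ, ‖ζ‖ = 1 → φ z ≠ φ ζ) →
  IsOpen Bs → IsPreconnected Bs → Bs.Nonempty → (∀ z ∈ CExt, φ z ∉ Bs) → (∀ ζ : ℂ, ‖ζ‖ = 1 → φ ζ ∈ closure Bs) →
    InjOn φ CExt

/-- JOB ECR.  Two separation lemmas for compact sets of the plane.  (a) If `y₁`, `y₂` are in the same component of the complement of
the compact set `F` then `(z - y₁) / (z - y₂)` has a continuous logarithm on `F`.  Proof: the set of the `y` in the component such that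
`(z - y₁)/(z - y)` has a logarithm on `F` is open and closed in it (if `‖y' - y‖ < infDist y F / 2` then `(z - y)/(z - y')` is close to
`1` on `F`).  (b) Conversely: if there is a continuous logarithm then `y₁`, `y₂` are not separated by `F`.  Proof.  Let `U` be the component
of `y₁` in `Fᶜ`, `y₂ ∉ U`; one of the components of `y₁`, `y₂` is bounded, by symmetry let `U` be bounded.  Let `u` be continuous on `F`,
`exp u = (z - y₁)/(z - y₂)`; extend `u` to a continuous function on the plane (Tietze).  `q z = exp (u z) (z - y₂)` on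
`closure U` (`frontier U ⊆ F`), `q z = z - y₁` off `U`: continuous on the plane, without zeros (`y₂ ∉ closure U`, as `Fᶜ` is
open), equal to `z - y₁` outside of a ball: it has a continuous logarithm on the plane (library: `exists_log` in
Pool/Graph/R_pool_sql_team_668148b0/Helper682/JPoly/B3.lean; see also `borsuk` there and in Pool/Graph/R_seed8/H801R2/CX/Borsuk.lean), but
`z - y₁` has no continuous logarithm on a large circle.  (For preconnected: the conclusion is a preconnected set in `Fᶜ` with both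
points.) -/
def S_ECR : Prop := ∀ (F : Set ℂ), IsCompact F → ∀ y₁ y₂ : ℂ, y₁ ∉ F → y₂ ∉ F →
  ((∃ S : Set ℂ, IsPreconnected S ∧ S ⊆ Fᶜ ∧ y₁ ∈ S ∧ y₂ ∈ S) ↔
    ∃ u : ℂ → ℂ, ContinuousOn u F ∧ ∀ z ∈ F, Complex.exp (u z) = (z - y₁) / (z - y₂))

/-- JOB JLC (uses `S_ECR`).  A Jordan curve is locally connected from its sides.  Proof.  Let `J = φ '' circle`, `x = φ ζ₀`.  By
compactness and injectivity there are an open arc `I` around `ζ₀` (with connected complement in the circle, e.g. `I = {ζ | ‖ζ - ζ₀‖ < η}`) with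
`φ '' I ⊆ ball x ε` and `0 < δ < ε` such that `φ (circle \ I)` does not meet `ball x δ`.  Let
`F₁ = J`, `F₂ = φ '' (circle \ I) ∪ (closedBall 0 R \ ball x ε)`, `R` large (`J`, `ball x ε`, in `ball 0 R`; replace by an annulus-like compact
set: points outside of `ball x ε`, in `closedBall 0 R`).  `F₁ ∩ F₂ = φ '' (circle \ I)` (connected).  `y₁`, `y₂` are
joined off `F₁` by hypothesis, and off `F₂` by `ball x δ`.  By (a) there are logarithms `u₁`, `u₂` of `(z - y₁)/(z - y₂)` on `F₁`, `F₂`; on the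
connected set `F₁ ∩ F₂` they differ by a constant in `2πiℤ`, which we subtract: a logarithm on the compact set `F₁ ∪ F₂`.  By (b) there is a
connected set off `F₁ ∪ F₂` with both points; it contains a point of `ball x ε` and is disjoint from
`closedBall 0 R \ ball x ε`, so it is contained in `ball x ε` (connected, `R > ‖x‖ + ε`). -/
def S_JLC : Prop := ∀ φ : ℂ → ℂ, ContinuousOn φ {z | ‖z‖ = 1} → InjOn φ {z | ‖z‖ = 1} → ∀ ζ₀ : ℂ, ‖ζ₀‖ = 1 →
  ∀ ε : ℝ, 0 < ε → ∃ δ : ℝ, 0 < δ ∧ ∀ y₁ ∈ ball (φ ζ₀) δ, ∀ y₂ ∈ ball (φ ζ₀) δ,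
    (∃ S : Set ℂ, IsPreconnected S ∧ Disjoint S (φ '' {z | ‖z‖ = 1}) ∧ y₁ ∈ S ∧ y₂ ∈ S) →
    ∃ S : Set ℂ, IsPreconnected S ∧ Disjoint S (φ '' {z | ‖z‖ = 1}) ∧ S ⊆ ball (φ ζ₀) ε ∧ y₁ ∈ S ∧ y₂ ∈ S

/-- the properties of the Julia set of `g` which are used -/
structure Pic (n : ℕ) (g : ℂ[X]) (c₀ : ℝ) (φ : ℂ → ℂ) : Prop where
  bot : Bot n g c₀ φ
  opn : IsOpen (Bas g c₀)
  conn : IsPreconnected (Bas g c₀)
  inv : ∀ y, g.eval y ∈ Bas g c₀ ↔ y ∈ Bas g c₀
  inj : InjOn φ CExt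
  lc : ∀ ζ₀ : ℂ, ‖ζ₀‖ = 1 → ∀ ε : ℝ, 0 < ε → ∃ δ : ℝ, 0 < δ ∧ ∀ y₁ ∈ Bas g c₀ ∩ ball (φ ζ₀) δ,
    ∀ y₂ ∈ Bas g c₀ ∩ ball (φ ζ₀) δ, ∃ S : Set ℂ, IsPreconnected S ∧ S ⊆ Bas g c₀ ∩ ball (φ ζ₀) ε ∧ y₁ ∈ S ∧ y₂ ∈ S

/-- JOB PIC (uses `S_CH4`, `S_BASN`, `S_INJ`, `S_JLC`).  Proof: put together.  `lc`: the set `S` of `S_JLC` is disjoint from
`J = φ '' circle`, and the complement of `J` is the union of the disjoint open sets `Bas` and `φ '' Ext` (open mapping), so a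
preconnected set which contains the point `y₁ ∈ Bas` is contained in `Bas`. -/
def S_PIC : Prop := ∀ (n : ℕ) (g : ℂ[X]) (c₀ : ℝ) (c : ℂ), Good n g c₀ c → ∃ φ : ℂ → ℂ, Pic n g c₀ φ

end Pool.Agent.H212.ND
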