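import Pool.Agent.H212.ND.StmT
import Pool.Graph.R_seed8.Helper240.ZFM.Riem

/-!
# Job CH3: the limit of the iterated inverse branches (by helper284)
-/

set_option autoImplicit false

open Filter Metric Set Topology Polynomial
open scoped ComplexConjugate

namespace Pool.Agent.H212.ND

open Pool.Agent.H212.MB

namespace CH3aux

/-- the open right half plane -/
def U : Set ℂ := {X | 0 < X.re}

theorem U_HP : U ⊆ HP := fun X (hX : 0 < X.re) => (le_of_lt hX : 0 ≤ X.re)

theorem U_open : IsOpen U := isOpen_lt continuous_const Complex.continuous_re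

theorem HP_closed : IsClosed HP := isClosed_le continuous_const Complex.continuous_re

theorem U_conv : Convex ℝ U := convex_halfSpace_re_gt 0

/-- an injective holomorphic map from the half plane into the closed half plane maps into the open
half plane -/
theorem maps_open {f : ℂ → ℂ} (hd : DifferentiableOn ℂ f U) (hi : InjOn f U)
    (hm : MapsTo f U HP) : MapsTo f U U := by
  have ha : AnalyticOnNhd ℂ f U := hd.analyticOnNhd U_open
  rcases ha.is_constant_or_isOpen U_conv.isPreconnected with ⟨w, hw⟩ | h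
  · exfalso
    have h1 : (1 : ℂ) ∈ U := by
      show (0 : ℝ) < (1 : ℂ).re
      rw [Complex.one_re]
      exact one_pos
    have h2 : (2 : ℂ) ∈ U := by
      show (0 : ℝ) < (2 : ℂ).re
      norm_num
    have h3 := hi h1 h2 ((hw 1 h1).trans (hw 2 h2).symm)
    norm_num at h3
  · have h1 : IsOpen (f '' U) := h U (subset_refl _) U_open
    have h2 : f '' U ⊆ HP := by
      rintro _ ⟨x, hx, rfl⟩
      exact hm hx
    have h3 : f '' U ⊆ interior HP := interior_maximal h2 h1
    have h4 : interior HP = U := Complex.interior_setOfPred_le_re 0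
    rw [h4] at h3
    intro x hx
    exact h3 (mem_image_of_mem f hx)

section

variable {n : ℕ} {g : ℂ[X]} {c₀ : ℝ} {c : ℂ} {Γ : ℂ → ℂ} {C : ℝ}

/-- the approximations -/
def G (n : ℕ) (Γ : ℂ → ℂ) (m : ℕ) (X : ℂ) : ℂ := Γ^[m] ((n : ℂ) ^ m * X)

theorem mul_re (m : ℕ) (X : ℂ) : ((n : ℂ) ^ m * X).re = (n : ℝ) ^ m * X.re := by
  have h : (n : ℂ) ^ m = (((n : ℝ) ^ m : ℝ) : ℂ) := by
    push_cast
    rfl
  rw [h, Complex.re_ofReal_mul]

theorem mul_HP (m : ℕ) {X : ℂ} (hX : X ∈ HP) : (n : ℂ) ^ m * X ∈ HP := by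
  show 0 ≤ ((n : ℂ) ^ m * X).re
  rw [mul_re]
  exact mul_nonneg (by positivity) hX

theorem mul_U (hn : 3 ≤ n) (m : ℕ) {X : ℂ} (hX : X ∈ U) : (n : ℂ) ^ m * X ∈ U := by
  show 0 < ((n : ℂ) ^ m * X).re
  rw [mul_re]
  have h0 : (0 : ℝ) < n := by
    exact_mod_cast (by omega : 0 < n)
  exact mul_pos (by positivity) hX

theorem mulc_HP {X : ℂ} (hX : X ∈ HP) : (n : ℂ) * X ∈ HP := by
  have := mul_HP (n := n) 1 hX
  rwa [pow_one] at this

theorem it_HP (hI : Inv n g c₀ Γ C) (m : ℕ) : MapsTo (Γ^[m]) HP HP :=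
  MapsTo.iterate (fun X hX => hI.maps X hX) m

theorem G_succ (m : ℕ) (X : ℂ) : G n Γ (m + 1) X = Γ (G n Γ m ((n : ℂ) * X)) := by
  unfold G
  rw [Function.iterate_succ_apply', pow_succ, mul_assoc]

theorem G_HP (hI : Inv n g c₀ Γ C) (m : ℕ) {X : ℂ} (hX : X ∈ HP) : G n Γ m X ∈ HP :=
  it_HP hI m (mul_HP m hX)

theorem C_nonneg (hI : Inv n g c₀ Γ C) : 0 ≤ C := by
  have h0 : (0 : ℂ) ∈ HP := le_of_eq Complex.zero_re.symm
  exact (norm_nonneg _).trans (hI.far 0 h0)

theorem disp (hn : 3 ≤ n) (hI : Inv n g c₀ Γ C) (m : ℕ) :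
    ∀ X ∈ HP, ‖G n Γ m X - X‖ ≤ 2 * C := by
  have hC := C_nonneg hI
  induction m with
  | zero =>
    intro X _
    have h : G n Γ 0 X = X := by
      unfold G
      rw [pow_zero, one_mul]
      rfl
    rw [h, sub_self, norm_zero]
    linarith
  | succ m ih =>
    intro X hX
    rw [G_succ]
    have hnX := mulc_HP (n := n) hX
    have h1 := ih _ hnX
    have h2 := hI.far _ (G_HP hI m hnX)
    have hn0 : (n : ℂ) ≠ 0 := by
      exact_mod_cast (by omega : n ≠ 0)
    have h3 : Γ (G n Γ m (n * X)) - X = (Γ (G n Γ m (n * X)) - G n Γ m (n * X) / n) +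
        (G n Γ m (n * X) - n * X) / n := by
      field_simp
      ring
    have h4 : ‖(G n Γ m (n * X) - n * X) / (n : ℂ)‖ ≤ 2 * C / 3 := by
      rw [norm_div, Complex.norm_natCast]
      have h5 : (3 : ℝ) ≤ n := by exact_mod_cast hn
      exact div_le_div₀ (by linarith) h1 (by norm_num) h5
    rw [h3]
    refine (norm_add_le _ _).trans ?_
    linarith

/-- uniform Cauchy property -/
theorem cauchy (hn : 3 ≤ n) (h2 : S_CH2) (hg : Good n g c₀ c) (hI : Inv n g c₀ Γ C) :
    ∀ ε : ℝ, 0 < ε → ∃ M : ℕ, ∀ m : ℕ, M ≤ m → ∀ m' : ℕ, m ≤ m' → ∀ X ∈ HP,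
      ‖G n Γ m' X - G n Γ m X‖ ≤ ε := by
  intro ε hε
  obtain ⟨M, hM⟩ := h2 n g c₀ c Γ C hg hI (2 * C) ε hε
  refine ⟨M, fun m hm m' hm' X hX => ?_⟩
  obtain ⟨k, rfl⟩ := Nat.exists_eq_add_of_le hm'
  have hY := mul_HP (n := n) m hX
  have h3 : G n Γ (m + k) X = Γ^[m] (G n Γ k ((n : ℂ) ^ m * X)) := by
    unfold G
    rw [Function.iterate_add_apply, pow_add, ← mul_assoc, mul_comm ((n : ℂ) ^ k)]
  rw [h3]
  exact hM m hm _ (G_HP hI k hY) _ hY (disp hn hI k _ hY)

theorem G_cont (hI : Inv n g c₀ Γ C) (m : ℕ) : ContinuousOn (G n Γ m) HP := by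
  have h1 : ContinuousOn (Γ^[m]) HP := hI.cont.iterate (fun X hX => hI.maps X hX) m
  exact h1.comp (continuous_const.mul continuous_id).continuousOn (fun X hX => mul_HP m hX)

theorem Γ_U (hI : Inv n g c₀ Γ C) : MapsTo Γ U U :=
  maps_open hI.diff (hI.inj.mono U_HP) (fun X hX => hI.maps X (U_HP hX))

theorem it_diff (hI : Inv n g c₀ Γ C) (m : ℕ) : DifferentiableOn ℂ (Γ^[m]) U := by
  induction m with
  | zero => exact differentiableOn_id
  | succ m ih =>
    rw [Function.iterate_succ]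
    exact ih.comp hI.diff (Γ_U hI)

theorem G_diff (hn : 3 ≤ n) (hI : Inv n g c₀ Γ C) (m : ℕ) : DifferentiableOn ℂ (G n Γ m) U :=
  (it_diff hI m).comp (differentiableOn_id.const_mul _) (fun _ hX => mul_U hn m hX)

theorem it_inj (hI : Inv n g c₀ Γ C) (m : ℕ) : InjOn (Γ^[m]) HP :=
  hI.inj.iterate (fun X hX => hI.maps X hX) m

theorem G_inj (hn : 3 ≤ n) (hI : Inv n g c₀ Γ C) (m : ℕ) : InjOn (G n Γ m) HP := by
  intro X hX Y hY h
  have h1 := it_inj hI m (mul_HP m hX) (mul_HP m hY) h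
  have hn0 : (n : ℂ) ^ m ≠ 0 := pow_ne_zero _ (by exact_mod_cast (by omega : n ≠ 0))
  exact mul_left_cancel₀ hn0 h1

theorem per_HP {X : ℂ} (hX : X ∈ HP) (k : ℂ) (hk : k.im = 0) :
    X + 2 * Real.pi * Complex.I * k ∈ HP := by
  show 0 ≤ (X + 2 * Real.pi * Complex.I * k).re
  have h1 : (2 * (Real.pi : ℂ) * Complex.I * k).re = 0 := by
    have h2 : (2 * (Real.pi : ℂ) * Complex.I * k) = ((2 * Real.pi : ℝ) : ℂ) * (Complex.I * k) := by
      push_cast
      ring
    rw [h2, Complex.re_ofReal_mul, Complex.I_mul_re, hk]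
    ring
  rw [Complex.add_re, h1, add_zero]
  exact hX

theorem perk (hI : Inv n g c₀ Γ C) (k : ℕ) : ∀ X ∈ HP,
    Γ (X + 2 * Real.pi * Complex.I * (n * k)) = Γ X + 2 * Real.pi * Complex.I * k := by
  induction k with
  | zero =>
    intro X _
    rw [Nat.cast_zero, mul_zero, mul_zero, add_zero, add_zero]
  | succ k ih =>
    intro X hX
    have hk : ((n : ℂ) * k).im = 0 := by
      rw [← Nat.cast_mul, Complex.natCast_im]
    have h1 := hI.per _ (per_HP hX _ hk)
    rw [ih X hX] at h1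
    have h2 : X + 2 * Real.pi * Complex.I * (n * ((k + 1 : ℕ) : ℂ)) =
        X + 2 * Real.pi * Complex.I * (n * k) + 2 * Real.pi * Complex.I * n := by
      push_cast
      ring
    rw [h2, h1]
    push_cast
    ring

theorem it_per (hI : Inv n g c₀ Γ C) (m : ℕ) : ∀ X ∈ HP,
    Γ^[m] (X + 2 * Real.pi * Complex.I * (n : ℂ) ^ m) = Γ^[m] X + 2 * Real.pi * Complex.I := by
  induction m with
  | zero =>
    intro X _
    rw [pow_zero, mul_one]
    rfl
  | succ m ih =>
    intro X hX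
    have h1 := perk hI (n ^ m) X hX
    have h2 : X + 2 * Real.pi * Complex.I * (n : ℂ) ^ (m + 1) =
        X + 2 * Real.pi * Complex.I * (n * ((n ^ m : ℕ) : ℂ)) := by
      push_cast
      ring
    rw [Function.iterate_succ_apply, Function.iterate_succ_apply, h2, h1]
    have h3 := ih (Γ X) (hI.maps X hX)
    rw [← h3]
    push_cast
    rfl

theorem G_per (hI : Inv n g c₀ Γ C) (m : ℕ) {X : ℂ} (hX : X ∈ HP) :
    G n Γ m (X + 2 * Real.pi * Complex.I) = G n Γ m X + 2 * Real.pi * Complex.I := by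
  unfold G
  rw [← it_per hI m _ (mul_HP m hX)]
  congr 1
  ring

theorem G_zero (hI : Inv n g c₀ Γ C) (m : ℕ) : G n Γ m 0 = 0 := by
  unfold G
  rw [mul_zero]
  exact Function.iterate_fixed hI.zero m

theorem conj_HP {X : ℂ} (hX : X ∈ HP) : conj X ∈ HP := by
  show 0 ≤ (conj X).re
  rw [Complex.conj_re]
  exact hX

theorem it_symm (hI : Inv n g c₀ Γ C) (m : ℕ) : ∀ X ∈ HP, Γ^[m] (conj X) = conj (Γ^[m] X) := by
  induction m with
  | zero =>
    intro X _
    rfl
  | succ m ih =>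
    intro X hX
    rw [Function.iterate_succ_apply, Function.iterate_succ_apply, hI.symm X hX,
      ih _ (hI.maps X hX)]

theorem G_symm (hI : Inv n g c₀ Γ C) (m : ℕ) {X : ℂ} (hX : X ∈ HP) :
    G n Γ m (conj X) = conj (G n Γ m X) := by
  unfold G
  rw [← it_symm hI m _ (mul_HP m hX), map_mul, map_pow, Complex.conj_natCast]

end

end CH3aux

open CH3aux in
theorem t_CH3 (h : S_CH2) : S_CH3 := by
  intro n g c₀ c Γ C hg hI
  have hn := hg.n3
  have hc := cauchy hn h hg hI
  have hex : ∀ X : ℂ, ∃ y : ℂ, X ∈ HP → Tendsto (fun m => G n Γ m X) atTop (𝓝 y) := by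
    intro X
    by_cases hX : X ∈ HP
    · have h1 : CauchySeq (fun m => G n Γ m X) := by
        rw [Metric.cauchySeq_iff']
        intro ε hε
        obtain ⟨M, hM⟩ := hc (ε / 2) (by linarith)
        refine ⟨M, fun m hm => ?_⟩
        rw [dist_eq_norm]
        have h2 := hM M le_rfl m hm X hX
        linarith
      obtain ⟨y, hy⟩ := cauchySeq_tendsto_of_complete h1
      exact ⟨y, fun _ => hy⟩
    · exact ⟨0, fun h' => absurd h' hX⟩
  choose Φ hΦ using hex
  have hlim : ∀ ε : ℝ, 0 < ε → ∃ M : ℕ, ∀ m : ℕ, M ≤ m → ∀ X ∈ HP, ‖G n Γ m X - Φ X‖ ≤ ε := by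
    intro ε hε
    obtain ⟨M, hM⟩ := hc ε hε
    refine ⟨M, fun m hm X hX => ?_⟩
    have h1 : Tendsto (fun m' => ‖G n Γ m' X - G n Γ m X‖) atTop (𝓝 ‖Φ X - G n Γ m X‖) :=
      ((hΦ X hX).sub_const _).norm
    rw [norm_sub_rev]
    refine le_of_tendsto h1 ?_
    filter_upwards [eventually_ge_atTop m] with m' hm'
    exact hM m hm m' hm' X hX
  have hunif : TendstoUniformlyOn (G n Γ) Φ atTop HP := by
    rw [Metric.tendstoUniformlyOn_iff]
    intro ε hε
    obtain ⟨M, hM⟩ := hlim (ε / 2) (by linarith)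
    filter_upwards [eventually_ge_atTop M] with m hm X hX
    rw [dist_comm, dist_eq_norm]
    have := hM m hm X hX
    linarith
  have hcont : ContinuousOn Φ HP :=
    hunif.continuousOn (Frequently.of_forall fun m => G_cont hI m)
  have hloc : TendstoLocallyUniformlyOn (G n Γ) Φ atTop U :=
    (hunif.mono U_HP).tendstoLocallyUniformlyOn
  have hdiff : DifferentiableOn ℂ Φ U :=
    hloc.differentiableOn (Eventually.of_forall fun m => G_diff hn hI m) U_open
  have hmaps : ∀ X ∈ HP, Φ X ∈ HP := fun X hX =>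
    HP_closed.mem_of_tendsto (hΦ X hX) (Eventually.of_forall fun m => G_HP hI m hX)
  have hdisp : ∀ X ∈ HP, ‖Φ X - X‖ ≤ 2 * C := by
    intro X hX
    have h1 : Tendsto (fun m => ‖G n Γ m X - X‖) atTop (𝓝 ‖Φ X - X‖) :=
      ((hΦ X hX).sub_const _).norm
    exact le_of_tendsto h1 (Eventually.of_forall fun m => disp hn hI m X hX)
  have hC := C_nonneg hI
  have hinj : InjOn Φ U := by
    intro z hz w hw hzw
    by_contra hne
    have hV : IsOpen (U \ {w}) := U_open.sdiff isClosed_singleton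
    have hzV : z ∈ U \ {w} := ⟨hz, hne⟩
    have hw' := U_HP hw
    have htl : TendstoLocallyUniformlyOn (fun m x => G n Γ m x - G n Γ m w)
        (fun x => Φ x - Φ w) atTop (U \ {w}) := by
      refine TendstoUniformlyOn.tendstoLocallyUniformlyOn ?_
      rw [Metric.tendstoUniformlyOn_iff]
      intro ε hε
      obtain ⟨M, hM⟩ := hlim (ε / 4) (by linarith)
      filter_upwards [eventually_ge_atTop M] with m hm X hX
      have h1 := hM m hm X (U_HP hX.1)
      have h2 := hM m hm w hw'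
      rw [dist_comm, dist_eq_norm]
      have h3 : G n Γ m X - G n Γ m w - (Φ X - Φ w) =
          (G n Γ m X - Φ X) - (G n Γ m w - Φ w) := by ring
      rw [h3]
      have h4 := norm_sub_le (G n Γ m X - Φ X) (G n Γ m w - Φ w)
      linarith
    have hev := Pool.Agent.Helper405.Riemann.hurwitz (l := (atTop : Filter ℕ)) hV
      (F := fun m x => G n Γ m x - G n Γ m w) (f := fun x => Φ x - Φ w)
      (fun m => ((G_diff hn hI m).mono sdiff_subset).sub_const _) htl
      (fun m x hx h0 => hx.2 (G_inj hn hI m (U_HP hx.1) hw' (sub_eq_zero.1 h0))) hzV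
      (sub_eq_zero.2 hzw)
    have hana : AnalyticOnNhd ℂ (fun x => Φ x - Φ w) U :=
      (hdiff.sub_const _).analyticOnNhd U_open
    have heq := hana.eqOn_zero_of_preconnected_of_eventuallyEq_zero U_conv.isPreconnected hz hev
    -- `Φ` is constant, but it moves points by a bounded amount
    have hconst : ∀ x ∈ U, Φ x = Φ w := fun x hx => sub_eq_zero.1 (heq hx)
    have h1 : (1 : ℂ) ∈ U := by
      show (0 : ℝ) < (1 : ℂ).re
      rw [Complex.one_re]
      exact one_pos
    have h2 : (((4 * C + 2 : ℝ)) : ℂ) ∈ U := by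
      show (0 : ℝ) < (((4 * C + 2 : ℝ)) : ℂ).re
      rw [Complex.ofReal_re]
      linarith
    have h3 := hdisp _ (U_HP h1)
    have h4 := hdisp _ (U_HP h2)
    rw [hconst _ h1] at h3
    rw [hconst _ h2] at h4
    have h5 : ((((4 * C + 2 : ℝ)) : ℂ) - 1) = (Φ w - 1) - (Φ w - (((4 * C + 2 : ℝ)) : ℂ)) := by
      ring
    have h6 : ‖((((4 * C + 2 : ℝ)) : ℂ) - 1)‖ ≤ 4 * C := by
      rw [h5]
      exact (norm_sub_le _ _).trans (by linarith)
    have h7 : ((((4 * C + 2 : ℝ)) : ℂ) - 1) = (((4 * C + 1 : ℝ)) : ℂ) := by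
      push_cast
      ring
    rw [h7, Complex.norm_real, Real.norm_of_nonneg (by linarith)] at h6
    linarith
  refine ⟨Φ, hcont, hdiff, ?_, hmaps, hinj, ?_, ?_, ?_, ?_, hdisp, hlim⟩
  · intro X hX
    exact maps_open hdiff hinj (fun Y hY => hmaps Y (U_HP hY)) hX
  · intro X hX
    have hnX := mulc_HP (n := n) hX
    have h1 : Tendsto (fun m => G n Γ m ((n : ℂ) * X)) atTop (𝓝[HP] (Φ (n * X))) :=
      tendsto_nhdsWithin_iff.2 ⟨hΦ _ hnX, Eventually.of_forall fun m => G_HP hI m hnX⟩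
    have h2 : Tendsto (fun m => Γ (G n Γ m ((n : ℂ) * X))) atTop (𝓝 (Γ (Φ (n * X)))) :=
      (hI.cont _ (hmaps _ hnX)).tendsto.comp h1
    have h3 : Tendsto (fun m => G n Γ (m + 1) X) atTop (𝓝 (Φ X)) :=
      (hΦ X hX).comp (tendsto_add_atTop_nat 1)
    have h4 : (fun m => G n Γ (m + 1) X) = fun m => Γ (G n Γ m ((n : ℂ) * X)) := by
      funext m
      exact G_succ m X
    rw [h4] at h3
    exact tendsto_nhds_unique h2 h3
  · intro X hX
    have hX' : X + 2 * Real.pi * Complex.I ∈ HP := by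
      have := per_HP hX 1 Complex.one_im
      rwa [mul_one] at this
    have h1 := hΦ _ hX'
    have h2 : (fun m => G n Γ m (X + 2 * Real.pi * Complex.I)) =
        fun m => G n Γ m X + 2 * Real.pi * Complex.I := by
      funext m
      exact G_per hI m hX
    rw [h2] at h1
    exact tendsto_nhds_unique h1 ((hΦ X hX).add_const _)
  · have h0 : (0 : ℂ) ∈ HP := le_of_eq Complex.zero_re.symm
    have h1 := hΦ 0 h0
    have h2 : (fun m => G n Γ m 0) = fun _ => 0 := by
      funext m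
      exact G_zero hI m
    rw [h2] at h1
    exact tendsto_nhds_unique h1 tendsto_const_nhds
  · intro X hX
    have h1 := hΦ _ (conj_HP hX)
    have h2 : (fun m => G n Γ m (conj X)) = fun m => conj (G n Γ m X) := by
      funext m
      exact G_symm hI m hX
    rw [h2] at h1
    exact tendsto_nhds_unique h1 ((Complex.continuous_conj.tendsto _).comp (hΦ X hX))

end Pool.Agent.H212.ND
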