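import Pool.Agent.H212.ND.StmN

/-!
# Job FCR, part a: the map near the parabolic point in the coordinate `y = 1 + 1 / x`
-/

set_option autoImplicit false

open Filter Metric Set Topology Polynomial
open scoped ComplexConjugate

namespace Pool.Agent.H212.ND

namespace FCRaux

/-- Taylor expansion at `1` to third order -/
theorem tay (g : ℂ[X]) (h1 : g.eval 1 = 1) (h2 : g.derivative.eval 1 = 1) :
    ∃ q : ℂ[X], ∀ t : ℂ, g.eval (1 + t) - 1 =
      t * (1 + al g * t + g.derivative.derivative.derivative.eval 1 / 6 * t ^ 2 + t ^ 3 * q.eval t) := by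
  set T := Polynomial.taylor 1 g with hT
  have c0 : T.coeff 0 = 1 := by
    rw [hT, Polynomial.taylor_coeff_zero, h1]
  have c1 : T.coeff 1 = 1 := by
    rw [hT, Polynomial.taylor_coeff_one, h2]
  have c2 : T.coeff 2 = al g := by
    rw [hT, Polynomial.taylor_coeff]
    have h := congrFun (Polynomial.factorial_smul_hasseDeriv (R := ℂ) 2) g
    have h' := congrArg (fun p : ℂ[X] => p.eval 1) h
    simp only [LinearMap.smul_apply, Function.iterate_succ, Function.iterate_zero, Function.comp, id,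
      Nat.factorial, Polynomial.eval_smul] at h'
    unfold al
    rw [← h']
    simp
  have c3 : T.coeff 3 = g.derivative.derivative.derivative.eval 1 / 6 := by
    rw [hT, Polynomial.taylor_coeff]
    have h := congrFun (Polynomial.factorial_smul_hasseDeriv (R := ℂ) 3) g
    have h' := congrArg (fun p : ℂ[X] => p.eval 1) h
    simp only [LinearMap.smul_apply, Function.iterate_succ, Function.iterate_zero, Function.comp, id,
      Nat.factorial, Polynomial.eval_smul] at h'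
    rw [← h']
    simp
  refine ⟨T.divX.divX.divX.divX, fun t => ?_⟩
  have e : g.eval (1 + t) = T.eval t := by
    rw [hT, Polynomial.taylor_eval, add_comm]
  have d0 : T.eval t = T.divX.eval t * t + T.coeff 0 := by
    conv_lhs => rw [← Polynomial.divX_mul_X_add T]
    simp
  have d1 : T.divX.eval t = T.divX.divX.eval t * t + T.coeff 1 := by
    conv_lhs => rw [← Polynomial.divX_mul_X_add T.divX]
    simp [Polynomial.coeff_divX]
  have d2 : T.divX.divX.eval t = T.divX.divX.divX.eval t * t + T.coeff 2 := by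
    conv_lhs => rw [← Polynomial.divX_mul_X_add T.divX.divX]
    simp [Polynomial.coeff_divX]
  have d3 : T.divX.divX.divX.eval t = T.divX.divX.divX.divX.eval t * t + T.coeff 3 := by
    conv_lhs => rw [← Polynomial.divX_mul_X_add T.divX.divX.divX]
    simp [Polynomial.coeff_divX]
  rw [e, d0, d1, d2, d3, c0, c1, c2, c3]
  ring

/-- the data near the fixed point, in the coordinate `y = 1 + 1 / x` -/
structure Loc (g : ℂ[X]) (H : ℂ → ℂ) (R₀ C₀ r₁ : ℝ) : Prop where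
  R0 : 0 < R₀
  C0 : 0 < C₀
  r1 : 0 < r₁
  diff : DifferentiableOn ℂ H {v | R₀ < ‖v‖}
  exp : ∀ v : ℂ, R₀ < ‖v‖ → ‖H v - (v + al g + (-ga g) / v)‖ ≤ C₀ / ‖v‖ ^ 2
  ne : ∀ v : ℂ, R₀ < ‖v‖ → H v ≠ 0
  fwd : ∀ v : ℂ, R₀ < ‖v‖ → g.eval (1 + (H v)⁻¹) = 1 + v⁻¹
  bwd : ∀ t : ℂ, t ≠ 0 → ‖t‖ < r₁ → g.eval (1 + t) ≠ 1 ∧ R₀ < ‖(g.eval (1 + t) - 1)⁻¹‖ ∧
    H ((g.eval (1 + t) - 1)⁻¹) = t⁻¹
  gexp : ∀ x : ℂ, R₀ < ‖x‖ → g.eval (1 + x⁻¹) ≠ 1 ∧
    ‖(g.eval (1 + x⁻¹) - 1)⁻¹ - (x - al g + ga g / x)‖ ≤ C₀ / ‖x‖ ^ 2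
  cj : ∀ v : ℂ, R₀ < ‖v‖ → H (conj v) = conj (H v)

theorem eval_conj {g : ℂ[X]} (hr : ∀ i, (g.coeff i).im = 0) (z : ℂ) :
    g.eval (conj z) = conj (g.eval z) := by
  rw [Polynomial.eval_eq_sum_range, Polynomial.eval_eq_sum_range, map_sum]
  refine Finset.sum_congr rfl fun i _ => ?_
  rw [map_mul, map_pow, Complex.conj_eq_iff_im.2 (hr i)]

/-- expansion of `1 / (g (1 + t) - 1)` -/
theorem expand (g : ℂ[X]) (h1 : g.eval 1 = 1) (h2 : g.derivative.eval 1 = 1) :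
    ∃ r B : ℝ, 0 < r ∧ 0 < B ∧ ∀ t : ℂ, ‖t‖ < r →
      ‖t‖ ≤ 2 * ‖g.eval (1 + t) - 1‖ ∧ ‖g.eval (1 + t) - 1‖ ≤ 2 * ‖t‖ ∧
      (t ≠ 0 → ‖(g.eval (1 + t) - 1)⁻¹ - (t⁻¹ - al g + ga g * t)‖ ≤ B * ‖t‖ ^ 2) := by
  obtain ⟨q, hq⟩ := tay g h1 h2
  set a2 := al g with ha2
  set a3 := g.derivative.derivative.derivative.eval 1 / 6 with ha3
  have hga : ga g = a2 ^ 2 - a3 := rfl
  set d : ℂ → ℂ := fun t => 1 + a2 * t + a3 * t ^ 2 + t ^ 3 * q.eval t with hd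
  set s : ℂ → ℂ := fun t => (q.eval t - a2 * a3 + a2 * ga g) + t * (ga g * a3 - a2 * q.eval t) +
    t ^ 2 * (ga g * q.eval t) with hs
  have cq : Continuous fun t : ℂ => q.eval t := q.continuous
  have cd : Continuous d := by
    rw [hd]; fun_prop
  have cs : Continuous s := by
    rw [hs]; fun_prop
  have d0 : d 0 = 1 := by rw [hd]; simp
  have e1 : ∀ᶠ t in 𝓝 (0 : ℂ), ‖d t - 1‖ < 1 / 2 := by
    have h := (cd.tendsto 0)
    rw [d0] at h
    have := h.eventually (Metric.ball_mem_nhds (1 : ℂ) (show (0:ℝ) < 1 / 2 by norm_num))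
    filter_upwards [this] with t ht
    rwa [dist_eq_norm] at ht
  have e2 : ∀ᶠ t in 𝓝 (0 : ℂ), ‖s t‖ < ‖s 0‖ + 1 := by
    have h := (cs.norm.tendsto 0)
    exact h.eventually (gt_mem_nhds (by linarith))
  obtain ⟨r, hr, hball⟩ := Metric.eventually_nhds_iff_ball.1 (e1.and e2)
  refine ⟨r, 2 * (‖s 0‖ + 1), hr, by positivity, fun t ht => ?_⟩
  obtain ⟨k1, k2⟩ := hball t (by rwa [Metric.mem_ball, dist_zero_right])
  have hp : g.eval (1 + t) - 1 = t * d t := hq t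
  have n1 : 1 / 2 ≤ ‖d t‖ := by
    have := norm_sub_norm_le (1 : ℂ) (1 - d t)
    rw [norm_sub_rev] at k1
    have h3 : (1 : ℂ) - (1 - d t) = d t := by ring
    rw [h3, norm_one] at this
    linarith
  have n2 : ‖d t‖ ≤ 2 := by
    have := norm_add_le (d t - 1) 1
    rw [sub_add_cancel, norm_one] at this
    linarith
  have hd0 : d t ≠ 0 := by
    intro h0
    rw [h0, norm_zero] at n1
    linarith
  rw [hp, norm_mul]
  refine ⟨?_, ?_, ?_⟩
  · nlinarith [norm_nonneg t]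
  · nlinarith [norm_nonneg t]
  · intro ht0
    have e3 : (t * d t)⁻¹ - (t⁻¹ - a2 + ga g * t) = -(t ^ 2 * s t / d t) := by
      have h4 : 1 - d t * (1 - a2 * t + ga g * t ^ 2) = -(t ^ 3 * s t) := by
        simp only [hd, hs]
        rw [hga]
        ring
      have h5 : (t * d t)⁻¹ - (t⁻¹ - a2 + ga g * t) =
          (1 - d t * (1 - a2 * t + ga g * t ^ 2)) / (t * d t) := by
        field_simp
      rw [h5, h4]
      field_simp
    rw [e3, norm_neg, norm_div, norm_mul, norm_pow]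
    rw [div_le_iff₀ (by linarith)]
    have h6 : 0 ≤ ‖t‖ ^ 2 := by positivity
    have h7 : ‖t‖ ^ 2 * ‖s t‖ ≤ ‖t‖ ^ 2 * (‖s 0‖ + 1) := mul_le_mul_of_nonneg_left k2.le h6
    have h8 : 0 ≤ ‖t‖ ^ 2 * (‖s 0‖ + 1) := by positivity
    nlinarith

/-- the local inverse of `t ↦ g (1 + t) - 1` -/
theorem locinv (g : ℂ[X]) (h1 : g.eval 1 = 1) (h2 : g.derivative.eval 1 = 1) :
    ∃ k : ℂ → ℂ, (∀ᶠ s in 𝓝 (0 : ℂ), g.eval (1 + k s) - 1 = s) ∧
      (∀ᶠ t in 𝓝 (0 : ℂ), k (g.eval (1 + t) - 1) = t) ∧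
      (∀ᶠ s in 𝓝 (0 : ℂ), DifferentiableAt ℂ k s) ∧ Tendsto k (𝓝 0) (𝓝 0) := by
  set P : ℂ → ℂ := fun t => g.eval (1 + t) - 1 with hP
  have hP0 : P 0 = 0 := by rw [hP]; simp [h1]
  have hn : (1 : WithTop ℕ∞) ≠ 0 := one_ne_zero
  have hc : ContDiffAt ℂ 1 P 0 := by
    have h3 : ContDiff ℂ 1 (fun z : ℂ => g.eval z) := by
      have := Polynomial.contDiff_aeval (R := ℂ) (𝕜 := ℂ) g 1
      simpa [Polynomial.coe_aeval_eq_eval] using this
    exact ((h3.comp (contDiff_const.add contDiff_id)).sub contDiff_const).contDiffAt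
  have hd : HasFDerivAt P ((ContinuousLinearEquiv.refl ℂ ℂ : ℂ ≃L[ℂ] ℂ) : ℂ →L[ℂ] ℂ) 0 := by
    have h3 : HasDerivAt P 1 0 := by
      have h4 : HasDerivAt (fun z : ℂ => g.eval z) (g.derivative.eval (1 + 0)) (1 + 0) :=
        g.hasDerivAt _
      have h5 : HasDerivAt (fun t : ℂ => 1 + t) 1 0 := (hasDerivAt_id 0).const_add 1
      have h6 := (h4.comp 0 h5).sub_const 1
      rw [add_zero, h2, mul_one] at h6
      exact h6
    have h7 := h3.hasFDerivAt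
    have h8 : ((ContinuousLinearEquiv.refl ℂ ℂ : ℂ ≃L[ℂ] ℂ) : ℂ →L[ℂ] ℂ) =
        ContinuousLinearMap.toSpanSingleton ℂ (1 : ℂ) := by
      ext
      simp
    rw [h8]
    exact h7
  refine ⟨hc.localInverse hd hn, ?_, ?_, ?_, ?_⟩
  · have := (hc.hasStrictFDerivAt' hd hn).eventually_right_inverse
    rw [hP0] at this
    exact this
  · exact (hc.hasStrictFDerivAt' hd hn).eventually_left_inverse
  · have := hc.to_localInverse hd hn
    rw [hP0] at this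
    exact (this.eventually (by simp)).mono fun y hy => hy.differentiableAt (by simp)
  · have h3 := hc.to_localInverse hd hn
    have h4 := hc.localInverse_apply_image hd hn
    rw [hP0] at h3 h4
    have h5 := h3.continuousAt.tendsto
    rw [h4] at h5
    exact h5

theorem loc (g : ℂ[X]) (hr : ∀ i, (g.coeff i).im = 0) (h1 : g.eval 1 = 1)
    (h2 : g.derivative.eval 1 = 1) : ∃ (H : ℂ → ℂ) (R₀ C₀ r₁ : ℝ), Loc g H R₀ C₀ r₁ := by
  obtain ⟨r, B, hr0, hB, hE⟩ := expand g h1 h2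
  obtain ⟨k, k1, k2, k3, k4⟩ := locinv g h1 h2
  have hconj0 : Tendsto (fun s : ℂ => conj (k s)) (𝓝 0) (𝓝 0) := by
    have h := (Complex.continuous_conj.tendsto 0).comp k4
    rw [map_zero] at h
    exact h
  have e3 : ∀ᶠ s in 𝓝 (0 : ℂ), ‖k s‖ < r := by
    have := k4.eventually (Metric.ball_mem_nhds (0 : ℂ) hr0)
    filter_upwards [this] with s hs
    rwa [dist_zero_right] at hs
  have e4 : ∀ᶠ s in 𝓝 (0 : ℂ), k (g.eval (1 + conj (k s)) - 1) = conj (k s) := hconj0.eventually k2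
  obtain ⟨r₀, hr₀, hb⟩ := Metric.eventually_nhds_iff_ball.1 ((k1.and k3).and (e3.and e4))
  have hP : Tendsto (fun t : ℂ => g.eval (1 + t) - 1) (𝓝 0) (𝓝 0) := by
    have hc : Continuous fun t : ℂ => g.eval (1 + t) - 1 :=
      (g.continuous.comp (continuous_const.add continuous_id)).sub continuous_const
    have := hc.tendsto 0
    simpa [h1] using this
  set R₀ : ℝ := 2 + r₀⁻¹ + r⁻¹ with hR₀
  have hR₀pos : 0 < R₀ := by positivity
  have e5 : ∀ᶠ t in 𝓝 (0 : ℂ), ‖g.eval (1 + t) - 1‖ < R₀⁻¹ := by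
    have := hP.eventually (Metric.ball_mem_nhds (0 : ℂ) (inv_pos.2 hR₀pos))
    filter_upwards [this] with s hs
    rwa [dist_zero_right] at hs
  obtain ⟨r₁, hr₁, hb₁⟩ := Metric.eventually_nhds_iff_ball.1 (k2.and e5)
  -- small inverses
  have hinv : ∀ v : ℂ, R₀ < ‖v‖ → v ≠ 0 ∧ ‖v⁻¹‖ < r₀ ∧ ‖v⁻¹‖ < r := by
    intro v hv
    have hv0 : 0 < ‖v‖ := hR₀pos.trans hv
    refine ⟨norm_pos_iff.1 hv0, ?_, ?_⟩
    · rw [norm_inv]
      apply inv_lt_of_inv_lt₀ hr₀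
      have : 0 < r⁻¹ := inv_pos.2 hr0
      linarith
    · rw [norm_inv]
      apply inv_lt_of_inv_lt₀ hr0
      have : 0 < r₀⁻¹ := inv_pos.2 hr₀
      linarith
  have hk : ∀ v : ℂ, R₀ < ‖v‖ → g.eval (1 + k v⁻¹) - 1 = v⁻¹ ∧ DifferentiableAt ℂ k v⁻¹ ∧
      ‖k v⁻¹‖ < r ∧ k (g.eval (1 + conj (k v⁻¹)) - 1) = conj (k v⁻¹) ∧ k v⁻¹ ≠ 0 := by
    intro v hv
    obtain ⟨hv0, hv1, -⟩ := hinv v hv
    obtain ⟨⟨a1, a2⟩, a3, a4⟩ := hb v⁻¹ (by rwa [Metric.mem_ball, dist_zero_right])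
    refine ⟨a1, a2, a3, a4, ?_⟩
    intro h0
    rw [h0, add_zero, h1, sub_self] at a1
    exact hv0 (inv_eq_zero.1 a1.symm)
  set D : ℝ := ‖al g‖ + ‖ga g‖ + B with hD
  have hD0 : 0 < D := by positivity
  refine ⟨fun v => (k v⁻¹)⁻¹, R₀, 4 * B + 2 * ‖ga g‖ * D, r₁, hR₀pos, by positivity, hr₁, ?_, ?_, ?_,
    ?_, ?_, ?_, ?_⟩
  · intro v hv
    obtain ⟨a1, a2, a3, a4, a5⟩ := hk v hv
    obtain ⟨hv0, -, -⟩ := hinv v hv
    have h3 : DifferentiableAt ℂ (fun v : ℂ => k v⁻¹) v :=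
      DifferentiableAt.comp v a2 (differentiableAt_inv hv0)
    exact (h3.inv a5).differentiableWithinAt
  · intro v hv
    obtain ⟨a1, a2, a3, a4, a5⟩ := hk v hv
    obtain ⟨hv0, hv1, hv2⟩ := hinv v hv
    obtain ⟨b1, b2, b3⟩ := hE (k v⁻¹) a3
    have b4 := b3 a5
    rw [a1] at b1 b2 b4
    rw [inv_inv] at b4
    set t := k v⁻¹ with ht
    set x := t⁻¹ with hx
    have hx0 : x ≠ 0 := inv_ne_zero a5
    have htx : t = x⁻¹ := (inv_inv t).symm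
    have htn : ‖t‖ = ‖x‖⁻¹ := by rw [hx, norm_inv, inv_inv]
    have hvpos : 0 < ‖v‖ := norm_pos_iff.2 hv0
    have hxpos : 0 < ‖x‖ := norm_pos_iff.2 hx0
    have c1 : ‖v‖ ≤ 2 * ‖x‖ := by
      rw [htn, norm_inv v] at b1
      have h4 : ‖x‖⁻¹ ≤ 2 * ‖v‖⁻¹ := b1
      have h5 := mul_le_mul_of_nonneg_left h4 (mul_nonneg hxpos.le hvpos.le)
      have h6 : ‖x‖ * ‖v‖ * ‖x‖⁻¹ = ‖v‖ := by field_simp
      have h7 : ‖x‖ * ‖v‖ * (2 * ‖v‖⁻¹) = 2 * ‖x‖ := by field_simp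
      rw [h6, h7] at h5
      exact h5
    have hx1 : 1 ≤ ‖x‖ := by
      have : (2 : ℝ) < ‖v‖ := by
        have h8 : 0 < r₀⁻¹ := inv_pos.2 hr₀
        have h9 : 0 < r⁻¹ := inv_pos.2 hr0
        linarith
      linarith
    have b5 : ‖v - (x - al g + ga g * x⁻¹)‖ ≤ B * (‖x‖⁻¹) ^ 2 := by
      have h4 := b4
      rw [htn, htx] at h4
      exact h4
    have hxi : ‖x‖⁻¹ ≤ 1 := inv_le_one_of_one_le₀ hx1
    have hxi0 : 0 ≤ ‖x‖⁻¹ := by positivity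
    have b6 : ‖x - v‖ ≤ D := by
      have h4 : x - v = -(v - (x - al g + ga g * x⁻¹)) + (al g - ga g * x⁻¹) := by ring
      rw [h4]
      refine (norm_add_le _ _).trans ?_
      rw [norm_neg]
      have h5 : ‖al g - ga g * x⁻¹‖ ≤ ‖al g‖ + ‖ga g‖ * ‖x‖⁻¹ := by
        refine (norm_sub_le _ _).trans ?_
        rw [norm_mul, norm_inv]
      have h6 : ‖ga g‖ * ‖x‖⁻¹ ≤ ‖ga g‖ := mul_le_of_le_one_right (norm_nonneg _) hxi
      have h7 : B * (‖x‖⁻¹) ^ 2 ≤ B := mul_le_of_le_one_right hB.le (pow_le_one₀ hxi0 hxi)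
      rw [hD]
      linarith
    have e : x - (v + al g + (-ga g) / v) =
        -(v - (x - al g + ga g * x⁻¹)) + ga g * (x - v) / (x * v) := by
      field_simp
      ring
    show ‖x - (v + al g + (-ga g) / v)‖ ≤ _
    rw [e]
    refine (norm_add_le _ _).trans ?_
    rw [norm_neg, norm_div, norm_mul, norm_mul]
    have f1 : B * (‖x‖⁻¹) ^ 2 ≤ 4 * B / ‖v‖ ^ 2 := by
      rw [le_div_iff₀ (by positivity)]
      have h4 : ‖v‖ ^ 2 ≤ (2 * ‖x‖) ^ 2 := pow_le_pow_left₀ hvpos.le c1 2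
      have h5 : B * (‖x‖⁻¹) ^ 2 * ‖v‖ ^ 2 ≤ B * (‖x‖⁻¹) ^ 2 * (2 * ‖x‖) ^ 2 :=
        mul_le_mul_of_nonneg_left h4 (by positivity)
      refine h5.trans (le_of_eq ?_)
      field_simp
      norm_num
    have f2 : ‖ga g‖ * ‖x - v‖ / (‖x‖ * ‖v‖) ≤ 2 * ‖ga g‖ * D / ‖v‖ ^ 2 := by
      rw [div_le_div_iff₀ (by positivity) (by positivity)]
      have h4 : ‖ga g‖ * ‖x - v‖ ≤ ‖ga g‖ * D := mul_le_mul_of_nonneg_left b6 (norm_nonneg _)
      have h5 : ‖v‖ ^ 2 ≤ 2 * (‖x‖ * ‖v‖) := by nlinarith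
      have h6 : 0 ≤ ‖ga g‖ * D := by positivity
      calc ‖ga g‖ * ‖x - v‖ * ‖v‖ ^ 2 ≤ ‖ga g‖ * D * ‖v‖ ^ 2 :=
            mul_le_mul_of_nonneg_right h4 (by positivity)
        _ ≤ ‖ga g‖ * D * (2 * (‖x‖ * ‖v‖)) := mul_le_mul_of_nonneg_left h5 h6
        _ = 2 * ‖ga g‖ * D * (‖x‖ * ‖v‖) := by ring
    calc ‖v - (x - al g + ga g * x⁻¹)‖ + ‖ga g‖ * ‖x - v‖ / (‖x‖ * ‖v‖) ≤
          4 * B / ‖v‖ ^ 2 + 2 * ‖ga g‖ * D / ‖v‖ ^ 2 := add_le_add (b5.trans f1) f2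
      _ = (4 * B + 2 * ‖ga g‖ * D) / ‖v‖ ^ 2 := by ring
  · intro v hv
    exact inv_ne_zero (hk v hv).2.2.2.2
  · intro v hv
    show g.eval (1 + (k v⁻¹)⁻¹⁻¹) = 1 + v⁻¹
    rw [inv_inv]
    have := (hk v hv).1
    linear_combination this
  · intro t ht0 ht
    obtain ⟨a1, a2⟩ := hb₁ t (by rwa [Metric.mem_ball, dist_zero_right])
    have hne : g.eval (1 + t) ≠ 1 := by
      intro h0
      rw [h0, sub_self] at a1
      have h3 : k 0 = 0 := by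
        have h4 := k2.self_of_nhds
        rw [add_zero, h1, sub_self] at h4
        exact h4
      rw [h3] at a1
      exact ht0 a1.symm
    refine ⟨hne, ?_, ?_⟩
    · rw [norm_inv]
      exact (lt_inv_comm₀ hR₀pos (norm_pos_iff.2 (sub_ne_zero.2 hne))).2 a2
    · show (k (g.eval (1 + t) - 1)⁻¹⁻¹)⁻¹ = t⁻¹
      rw [inv_inv, a1]
  · intro x hx
    obtain ⟨hx0, hx1, hx2⟩ := hinv x hx
    obtain ⟨b1, b2, b3⟩ := hE x⁻¹ hx2
    have hxi : x⁻¹ ≠ 0 := inv_ne_zero hx0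
    constructor
    · intro h0
      rw [h0, sub_self, norm_zero, mul_zero] at b1
      exact hxi (norm_le_zero_iff.1 b1)
    · have b4 := b3 hxi
      rw [inv_inv, norm_inv] at b4
      refine (le_trans (le_of_eq ?_) b4).trans ?_
      · rw [div_eq_mul_inv]
      · have hxpos : 0 < ‖x‖ := norm_pos_iff.2 hx0
        rw [le_div_iff₀ (by positivity)]
        have h5 : B * (‖x‖⁻¹) ^ 2 * ‖x‖ ^ 2 = B := by field_simp
        rw [h5]
        have : 0 ≤ ‖ga g‖ * D := by positivity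
        linarith
  · intro v hv
    obtain ⟨a1, a2, a3, a4, a5⟩ := hk v hv
    show (k (conj v)⁻¹)⁻¹ = conj ((k v⁻¹)⁻¹)
    have h3 : g.eval (1 + conj (k v⁻¹)) - 1 = (conj v)⁻¹ := by
      have h4 : (1 : ℂ) + conj (k v⁻¹) = conj (1 + k v⁻¹) := by
        rw [map_add, map_one]
      rw [h4, eval_conj hr]
      have h5 : conj (g.eval (1 + k v⁻¹)) - 1 = conj (g.eval (1 + k v⁻¹) - 1) := by
        rw [map_sub, map_one]
      rw [h5, a1, map_inv₀]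
    rw [h3] at a4
    rw [a4, map_inv₀]

end FCRaux

end Pool.Agent.H212.ND
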