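import Pool.Agent.H212.ND.T_FCRa

/-!
# Job FCR, part b: the inverse of the Fatou coordinate and its extension by the dynamics
-/

set_option autoImplicit false

open Filter Metric Set Topology Polynomial
open scoped ComplexConjugate

namespace Pool.Agent.H212.ND

namespace FCRaux

/-- the approximate coordinate -/
noncomputable def UU (a κ : ℝ) (x : ℂ) : ℂ := x / a + κ * Complex.log x

/-- the Fatou coordinate of the inverse map `H`, in the coordinate `y = 1 + 1 / x` -/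
structure Fat (H Φ : ℂ → ℂ) (a κ R R₂ C : ℝ) : Prop where
  apos : 0 < a
  Rpos : 0 < R
  Cpos : 0 < C
  dΦ : DifferentiableOn ℂ Φ (Sec R)
  maps : MapsTo H (Sec R) (Sec R)
  sem : ∀ v ∈ Sec R, Φ (H v) = Φ v + 1
  inj : InjOn Φ (Sec R)
  der : ∀ v ∈ Sec R, deriv Φ v ≠ 0
  asy : ∀ v ∈ Sec R, ‖Φ v - UU a κ v‖ ≤ C / ‖v‖
  surj : ∀ W : ℂ, R₂ < W.re + |W.im| / 2 → ∃ v ∈ Sec R, Φ v = W

theorem isOpen_Sec (R : ℝ) : IsOpen (Sec R) :=
  isOpen_lt continuous_const (Complex.continuous_re.add Complex.continuous_im.abs)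

theorem isOpen_D (R₂ : ℝ) : IsOpen {W : ℂ | R₂ < W.re + |W.im| / 2} :=
  isOpen_lt continuous_const (Complex.continuous_re.add (Complex.continuous_im.abs.div_const 2))

theorem norm_Sec {R : ℝ} {v : ℂ} (hv : v ∈ Sec R) : R / 2 < ‖v‖ := by
  have h1 := Complex.re_le_norm v
  have h2 := Complex.abs_im_le_norm v
  have h3 : R < v.re + |v.im| := hv
  linarith

/-- the inverse of the Fatou coordinate -/
structure Inv (Φ S : ℂ → ℂ) (R R₂ : ℝ) : Prop where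
  mem : ∀ W : ℂ, R₂ < W.re + |W.im| / 2 → S W ∈ Sec R
  app : ∀ W : ℂ, R₂ < W.re + |W.im| / 2 → Φ (S W) = W
  dif : ∀ W : ℂ, R₂ < W.re + |W.im| / 2 → DifferentiableAt ℂ S W

theorem exists_S {H Φ : ℂ → ℂ} {a κ R R₂ C : ℝ} (F : Fat H Φ a κ R R₂ C) :
    ∃ S : ℂ → ℂ, Inv Φ S R R₂ := by
  have h := F.surj
  choose! S hS1 hS2 using h
  refine ⟨S, hS1, hS2, fun W hW => ?_⟩
  have hv := hS1 W hW
  have hst : HasStrictDerivAt Φ (deriv Φ (S W)) (S W) :=
    (F.dΦ.analyticAt ((isOpen_Sec R).mem_nhds hv)).hasStrictDerivAt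
  have hcont : ContinuousAt Φ (S W) := hst.hasDerivAt.continuousAt
  have hev : ∀ᶠ x in 𝓝 (S W), S (Φ x) = x := by
    have h1 : ∀ᶠ x in 𝓝 (S W), x ∈ Sec R := (isOpen_Sec R).mem_nhds hv
    have h2 : ∀ᶠ x in 𝓝 (S W), Φ x ∈ {W : ℂ | R₂ < W.re + |W.im| / 2} := by
      apply hcont.eventually
      rw [hS2 W hW]
      exact (isOpen_D R₂).mem_nhds hW
    filter_upwards [h1, h2] with x hx1 hx2
    exact F.inj (hS1 _ hx2) hx1 (hS2 _ hx2)
  have h3 := hst.to_local_left_inverse (F.der _ hv) hev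
  rw [hS2 W hW] at h3
  exact h3.hasDerivAt.differentiableAt

theorem S_succ {H Φ S : ℂ → ℂ} {a κ R R₂ C : ℝ} (F : Fat H Φ a κ R R₂ C) (I : Inv Φ S R R₂) {W : ℂ}
    (hW : R₂ < W.re + |W.im| / 2) : S (W + 1) = H (S W) := by
  have hW1 : R₂ < (W + 1).re + |(W + 1).im| / 2 := by
    rw [Complex.add_re, Complex.add_im, Complex.one_re, Complex.one_im, add_zero]
    linarith
  apply F.inj (I.mem _ hW1) (F.maps (I.mem _ hW))
  rw [I.app _ hW1, F.sem _ (I.mem _ hW), I.app _ hW]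

/-- the extension by the dynamics -/
noncomputable def Fm (g : ℂ[X]) (S : ℂ → ℂ) (m : ℕ) (w : ℂ) : ℂ :=
  (fun z : ℂ => g.eval z)^[m] (1 + (S (m - w))⁻¹)

/-- the entire function -/
noncomputable def Psi (g : ℂ[X]) (S : ℂ → ℂ) (R₂ : ℝ) (w : ℂ) : ℂ :=
  Fm g S (⌈R₂ + w.re⌉₊ + 1) w

section dyn

variable {g : ℂ[X]} {H Φ S : ℂ → ℂ} {R₀ C₀ r₁ a κ R R₂ C : ℝ}

theorem Fm_succ (L : Loc g H R₀ C₀ r₁) (F : Fat H Φ a κ R R₂ C) (I : Inv Φ S R R₂)
    (hR : R₀ < R / 2) {m : ℕ} {w : ℂ} (hW : R₂ < ((m : ℂ) - w).re + |((m : ℂ) - w).im| / 2) :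
    Fm g S (m + 1) w = Fm g S m w := by
  unfold Fm
  rw [Function.iterate_succ_apply]
  have h1 : (((m + 1 : ℕ) : ℂ) - w) = ((m : ℂ) - w) + 1 := by push_cast; ring
  rw [h1, S_succ F I hW]
  have h2 := L.fwd (S ((m : ℂ) - w)) (hR.trans (norm_Sec (I.mem _ hW)))
  rw [h2]

theorem dom_add {m : ℕ} {w : ℂ} (hW : R₂ < ((m : ℂ) - w).re + |((m : ℂ) - w).im| / 2) (j : ℕ) :
    R₂ < (((m + j : ℕ) : ℂ) - w).re + |(((m + j : ℕ) : ℂ) - w).im| / 2 := by
  have h1 : (((m + j : ℕ) : ℂ) - w).re = ((m : ℂ) - w).re + j := by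
    push_cast
    simp
    ring
  have h2 : (((m + j : ℕ) : ℂ) - w).im = ((m : ℂ) - w).im := by
    push_cast
    simp
  rw [h1, h2]
  have : (0 : ℝ) ≤ j := Nat.cast_nonneg j
  linarith

theorem Fm_add (L : Loc g H R₀ C₀ r₁) (F : Fat H Φ a κ R R₂ C) (I : Inv Φ S R R₂)
    (hR : R₀ < R / 2) {m : ℕ} {w : ℂ} (hW : R₂ < ((m : ℂ) - w).re + |((m : ℂ) - w).im| / 2)
    (j : ℕ) : Fm g S (m + j) w = Fm g S m w := by
  induction j with
  | zero => rfl
  | succ j ih =>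
    rw [← ih, ← add_assoc]
    exact Fm_succ L F I hR (dom_add hW j)

theorem dom_M (w : ℂ) : R₂ < (((⌈R₂ + w.re⌉₊ + 1 : ℕ) : ℂ) - w).re +
    |(((⌈R₂ + w.re⌉₊ + 1 : ℕ) : ℂ) - w).im| / 2 := by
  have h1 : (((⌈R₂ + w.re⌉₊ + 1 : ℕ) : ℂ) - w).re = (⌈R₂ + w.re⌉₊ : ℝ) + 1 - w.re := by
    push_cast
    simp
  rw [h1]
  have h2 := Nat.le_ceil (R₂ + w.re)
  have h3 := abs_nonneg (((⌈R₂ + w.re⌉₊ + 1 : ℕ) : ℂ) - w).im
  linarith

theorem Psi_eq (L : Loc g H R₀ C₀ r₁) (F : Fat H Φ a κ R R₂ C) (I : Inv Φ S R R₂)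
    (hR : R₀ < R / 2) {m : ℕ} {w : ℂ} (hW : R₂ < ((m : ℂ) - w).re + |((m : ℂ) - w).im| / 2) :
    Psi g S R₂ w = Fm g S m w := by
  unfold Psi
  have h1 := Fm_add L F I hR hW (⌈R₂ + w.re⌉₊ + 1)
  have h2 := Fm_add L F I hR (dom_M (R₂ := R₂) w) m
  rw [← h1, ← h2, add_comm m]

theorem Psi_near (L : Loc g H R₀ C₀ r₁) (F : Fat H Φ a κ R R₂ C) (I : Inv Φ S R R₂)
    (hR : R₀ < R / 2) {w : ℂ} (hW : R₂ < (-w).re + |(-w).im| / 2) :
    Psi g S R₂ w = 1 + (S (-w))⁻¹ := by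
  have h1 : R₂ < (((0 : ℕ) : ℂ) - w).re + |(((0 : ℕ) : ℂ) - w).im| / 2 := by
    simpa using hW
  rw [Psi_eq L F I hR h1]
  unfold Fm
  simp

theorem Psi_succ (L : Loc g H R₀ C₀ r₁) (F : Fat H Φ a κ R R₂ C) (I : Inv Φ S R R₂)
    (hR : R₀ < R / 2) (w : ℂ) : Psi g S R₂ (w + 1) = g.eval (Psi g S R₂ w) := by
  have h1 := dom_M (R₂ := R₂) w
  set m := ⌈R₂ + w.re⌉₊ + 1 with hm
  have h2 : (((m + 1 : ℕ) : ℂ) - (w + 1)) = (m : ℂ) - w := by push_cast; ring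
  have h3 : R₂ < (((m + 1 : ℕ) : ℂ) - (w + 1)).re + |(((m + 1 : ℕ) : ℂ) - (w + 1)).im| / 2 := by
    rw [h2]; exact h1
  rw [Psi_eq L F I hR h3, Psi_eq L F I hR h1]
  unfold Fm
  rw [h2, Function.iterate_succ_apply']

theorem iter_diff (g : ℂ[X]) (m : ℕ) : Differentiable ℂ (fun z : ℂ => g.eval z)^[m] := by
  induction m with
  | zero => exact differentiable_id
  | succ m ih =>
    rw [Function.iterate_succ]
    exact ih.comp g.differentiable

theorem Psi_diff (L : Loc g H R₀ C₀ r₁) (F : Fat H Φ a κ R R₂ C) (I : Inv Φ S R R₂)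
    (hR : R₀ < R / 2) : Differentiable ℂ (Psi g S R₂) := by
  intro w₀
  obtain ⟨m, h1⟩ : ∃ m : ℕ, R₂ < ((m : ℂ) - w₀).re + |((m : ℂ) - w₀).im| / 2 :=
    ⟨_, dom_M (R₂ := R₂) w₀⟩
  have hev : Psi g S R₂ =ᶠ[𝓝 w₀] Fm g S m := by
    have hc : Continuous fun w : ℂ => (m : ℂ) - w := continuous_const.sub continuous_id
    have h2 : ∀ᶠ w in 𝓝 w₀, (m : ℂ) - w ∈ {W : ℂ | R₂ < W.re + |W.im| / 2} :=
      hc.continuousAt.eventually ((isOpen_D R₂).mem_nhds h1)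
    filter_upwards [h2] with w hw
    exact Psi_eq L F I hR hw
  refine DifferentiableAt.congr_of_eventuallyEq ?_ hev
  unfold Fm
  have h3 : DifferentiableAt ℂ (fun w : ℂ => S ((m : ℂ) - w)) w₀ :=
    DifferentiableAt.comp w₀ (I.dif _ h1) ((differentiableAt_const _).sub differentiableAt_id)
  have h4 : S ((m : ℂ) - w₀) ≠ 0 := by
    have := norm_Sec (I.mem _ h1)
    intro h0
    rw [h0, norm_zero] at this
    linarith [F.Rpos]
  have h5 : DifferentiableAt ℂ (fun w : ℂ => 1 + (S ((m : ℂ) - w))⁻¹) w₀ :=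
    (differentiableAt_const _).add (h3.inv h4)
  exact DifferentiableAt.comp w₀ (iter_diff g m _) h5

/-- growth of the Fatou coordinate -/
theorem growth (F : Fat H Φ a κ R R₂ C) : ∃ A : ℝ, 1 ≤ A ∧ ∀ v ∈ Sec R, ‖Φ v‖ ≤ A * (‖v‖ + 1) := by
  have ha := F.apos
  have hR := F.Rpos
  have hC := F.Cpos
  have hpi := Real.pi_pos
  refine ⟨1 + a⁻¹ + |κ| * (1 + (2 / R + Real.pi)) + C * (2 / R), ?_, ?_⟩
  · have h1 : 0 ≤ |κ| * (1 + (2 / R + Real.pi)) := by positivity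
    have h2 : 0 ≤ C * (2 / R) := by positivity
    have h3 : 0 < a⁻¹ := by positivity
    linarith
  intro v hv
  have hn := norm_Sec hv
  have hv0 : 0 < ‖v‖ := by linarith
  have hlog : ‖Complex.log v‖ ≤ ‖v‖ + (2 / R + Real.pi) := by
    have h1 : ‖Complex.log v‖ ≤ |(Complex.log v).re| + |(Complex.log v).im| :=
      Complex.norm_le_abs_re_add_abs_im _
    rw [Complex.log_re, Complex.log_im] at h1
    have h2 := Complex.abs_arg_le_pi v
    have h3 : |Real.log ‖v‖| ≤ ‖v‖ + 2 / R := by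
      rw [abs_le]
      constructor
      · have h4 := Real.one_sub_inv_le_log_of_pos hv0
        have h5 : ‖v‖⁻¹ ≤ 2 / R := by
          rw [inv_le_comm₀ hv0 (by positivity)]
          rw [inv_div]
          exact hn.le
        linarith
      · have h4 := Real.log_le_sub_one_of_pos hv0
        have h5 : 0 ≤ 2 / R := by positivity
        linarith
    linarith
  have h1 := F.asy v hv
  have h2 : ‖Φ v‖ ≤ ‖Φ v - UU a κ v‖ + ‖UU a κ v‖ := by
    have := norm_add_le (Φ v - UU a κ v) (UU a κ v)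
    rwa [sub_add_cancel] at this
  have h3 : C / ‖v‖ ≤ C * (2 / R) := by
    rw [div_eq_mul_inv]
    apply mul_le_mul_of_nonneg_left _ hC.le
    rw [inv_le_comm₀ hv0 (by positivity)]
    rw [inv_div]
    exact hn.le
  have h4 : ‖UU a κ v‖ ≤ ‖v‖ * a⁻¹ + |κ| * (‖v‖ + (2 / R + Real.pi)) := by
    unfold UU
    refine (norm_add_le _ _).trans ?_
    rw [norm_div, norm_mul, Complex.norm_real, Complex.norm_real, Real.norm_of_nonneg ha.le,
      Real.norm_eq_abs, div_eq_mul_inv]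
    have := mul_le_mul_of_nonneg_left hlog (abs_nonneg κ)
    linarith
  have h5 : |κ| * (‖v‖ + (2 / R + Real.pi)) ≤ |κ| * (1 + (2 / R + Real.pi)) * (‖v‖ + 1) := by
    rw [mul_assoc]
    apply mul_le_mul_of_nonneg_left _ (abs_nonneg κ)
    have h6 : 0 ≤ 2 / R + Real.pi := by positivity
    nlinarith
  have h7 : C * (2 / R) ≤ C * (2 / R) * (‖v‖ + 1) := by
    have h8 : 0 ≤ C * (2 / R) := by positivity
    nlinarith
  have h9 : ‖v‖ * a⁻¹ ≤ a⁻¹ * (‖v‖ + 1) := by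
    have h10 : 0 < a⁻¹ := by positivity
    nlinarith
  nlinarith

/-- the Fatou coordinate commutes with the conjugation -/
theorem Phi_conj (L : Loc g H R₀ C₀ r₁) (F : Fat H Φ a κ R R₂ C) (hR : R₀ < R / 2) {v : ℂ}
    (hv : v ∈ Sec R) : Φ (conj v) = conj (Φ v) := by
  obtain ⟨A, hA, hgr⟩ := growth F
  have hcj : ∀ x ∈ Sec R, conj x ∈ Sec R := by
    intro x hx
    show R < (conj x).re + |(conj x).im|
    rw [Complex.conj_re, Complex.conj_im, abs_neg]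
    exact hx
  have hiter : ∀ m : ℕ, H^[m] v ∈ Sec R ∧ Φ (H^[m] v) = Φ v + m ∧
      Φ (conj (H^[m] v)) - conj (Φ (H^[m] v)) = Φ (conj v) - conj (Φ v) := by
    intro m
    induction m with
    | zero => exact ⟨hv, by simp, rfl⟩
    | succ m ih =>
      obtain ⟨i1, i2, i3⟩ := ih
      rw [Function.iterate_succ_apply']
      refine ⟨F.maps i1, ?_, ?_⟩
      · rw [F.sem _ i1, i2]
        push_cast
        ring
      · rw [← i3, F.sem _ i1, ← L.cj _ (hR.trans (norm_Sec i1)), F.sem _ (hcj _ i1), map_add,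
          map_one]
        ring
  have hsmall : ∀ x ∈ Sec R, ‖Φ (conj x) - conj (Φ x)‖ ≤ 2 * C / ‖x‖ := by
    intro x hx
    have h1 := F.asy x hx
    have h2 := F.asy _ (hcj x hx)
    have harg : x.arg ≠ Real.pi := by
      intro h0
      rw [Complex.arg_eq_pi_iff] at h0
      have h3 : R < x.re + |x.im| := hx
      rw [h0.2, abs_zero] at h3
      linarith [h0.1, F.Rpos]
    have hU : UU a κ (conj x) = conj (UU a κ x) := by
      unfold UU
      rw [Complex.log_conj x harg, map_add, map_mul, map_div₀, Complex.conj_ofReal,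
        Complex.conj_ofReal]
    have h3 : Φ (conj x) - conj (Φ x) = (Φ (conj x) - UU a κ (conj x)) -
        conj (Φ x - UU a κ x) := by
      rw [hU, map_sub]
      ring
    rw [h3]
    refine (norm_sub_le _ _).trans ?_
    rw [Complex.norm_conj]
    rw [Complex.norm_conj] at h2
    have h4 : 2 * C / ‖x‖ = C / ‖x‖ + C / ‖x‖ := by ring
    rw [h4]
    exact add_le_add h2 h1
  by_contra hne
  have hpos : 0 < ‖Φ (conj v) - conj (Φ v)‖ := norm_pos_iff.2 (sub_ne_zero.2 hne)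
  set ε := ‖Φ (conj v) - conj (Φ v)‖ with hε
  obtain ⟨m, hm⟩ := exists_nat_gt (A * (2 * C / ε + 1) + ‖Φ v‖)
  obtain ⟨i1, i2, i3⟩ := hiter m
  have h1 := hsmall _ i1
  rw [i3, ← hε] at h1
  have h2 := hgr _ i1
  rw [i2] at h2
  have hx0 : 0 < ‖H^[m] v‖ := by
    have := norm_Sec i1
    linarith [F.Rpos]
  rw [le_div_iff₀ hx0] at h1
  have h3 : ‖H^[m] v‖ ≤ 2 * C / ε := by
    rw [le_div_iff₀ hpos]
    linarith
  have h4 : (m : ℝ) ≤ ‖Φ v + m‖ + ‖Φ v‖ := by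
    have h5 := norm_sub_le (Φ v + m) (Φ v)
    rw [add_sub_cancel_left, Complex.norm_natCast] at h5
    exact h5
  have h6 : A * (‖H^[m] v‖ + 1) ≤ A * (2 * C / ε + 1) :=
    mul_le_mul_of_nonneg_left (by linarith) (by linarith)
  linarith

end dyn

end FCRaux

end Pool.Agent.H212.ND
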