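import Pool.Agent.H212.ND.T_FCRb

/-!
# Job FCR, part c: asymptotics in the wide sector
-/

set_option autoImplicit false

open Filter Metric Set Topology Polynomial
open scoped ComplexConjugate

namespace Pool.Agent.H212.ND

namespace FCRaux

theorem arg_close {x x' : ℂ} (hs : 0 < x.im * x'.im) :
    |Complex.arg x - Complex.arg x'| < Real.pi := by
  have h1 := Complex.neg_pi_lt_arg x
  have h2 := Complex.arg_le_pi x
  have h1' := Complex.neg_pi_lt_arg x'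
  have h2' := Complex.arg_le_pi x'
  have hne : Complex.arg x ≠ Real.pi := by
    intro h0
    rw [Complex.arg_eq_pi_iff] at h0
    rw [h0.2, zero_mul] at hs
    exact lt_irrefl _ hs
  have hne' : Complex.arg x' ≠ Real.pi := by
    intro h0
    rw [Complex.arg_eq_pi_iff] at h0
    rw [h0.2, mul_zero] at hs
    exact lt_irrefl _ hs
  have h3 := lt_of_le_of_ne h2 hne
  have h3' := lt_of_le_of_ne h2' hne'
  rcases lt_or_ge x.im 0 with hx | hx
  · have hx' : x'.im < 0 := by nlinarith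
    have h4 := Complex.arg_neg_iff.2 hx
    have h4' := Complex.arg_neg_iff.2 hx'
    rw [abs_lt]
    constructor <;> linarith
  · have hx' : 0 ≤ x'.im := by
      by_contra hcon
      push Not at hcon
      nlinarith
    have h4 := Complex.arg_nonneg_iff.2 hx
    have h4' := Complex.arg_nonneg_iff.2 hx'
    rw [abs_lt]
    constructor <;> linarith

theorem log_step {x x' δ : ℂ} (hx : x ≠ 0) (hδ : 1 + δ ≠ 0) (h : x' = x * (1 + δ))
    (hs : 0 < x.im * x'.im) :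
    Complex.log x' = Complex.log x + Complex.log (1 + δ) := by
  have hx' : x' ≠ 0 := by rw [h]; exact mul_ne_zero hx hδ
  have e : Complex.exp (Complex.log x + Complex.log (1 + δ) - Complex.log x') = 1 := by
    rw [Complex.exp_sub, Complex.exp_add, Complex.exp_log hx, Complex.exp_log hδ,
      Complex.exp_log hx', ← h, div_self hx']
  obtain ⟨n, hn⟩ := Complex.exp_eq_one_iff.1 e
  have him := congrArg Complex.im hn
  simp only [Complex.sub_im, Complex.add_im, Complex.log_im] at him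
  have him2 : ((n : ℂ) * (2 * Real.pi * Complex.I)).im = n * (2 * Real.pi) := by
    simp
  rw [him2] at him
  have h1 := arg_close hs
  have h2 := Complex.abs_arg_le_pi (1 + δ)
  rw [abs_lt] at h1
  rw [abs_le] at h2
  have hpi := Real.pi_pos
  have hn0 : n = 0 := by
    have h3 : (n : ℝ) < 1 := by
      by_contra hcon
      push Not at hcon
      nlinarith [h1.2, h2.2]
    have h4 : (-1 : ℝ) < n := by
      by_contra hcon
      push Not at hcon
      nlinarith [h1.1, h2.1]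
    have h5 : n < 1 := by exact_mod_cast h3
    have h6 : -1 < n := by exact_mod_cast h4
    omega
  rw [hn0, Int.cast_zero, zero_mul] at hn
  exact (sub_eq_zero.1 hn).symm

theorem im_bound {a κ : ℝ} (ha : 0 < a) {x W : ℂ} {E : ℝ} (h : ‖UU a κ x - W‖ ≤ E)
    (hY : 2 * (E + |κ| * Real.pi) ≤ |W.im|) : a * |W.im| / 2 ≤ |x.im| := by
  have h1 : (UU a κ x).im = x.im / a + κ * Complex.arg x := by
    unfold UU
    rw [Complex.add_im, Complex.div_ofReal_im, Complex.im_ofReal_mul, Complex.log_im]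
  have h2 := (Complex.abs_im_le_norm (UU a κ x - W)).trans h
  rw [Complex.sub_im, h1] at h2
  have h3 : |κ * Complex.arg x| ≤ |κ| * Real.pi := by
    rw [abs_mul]
    exact mul_le_mul_of_nonneg_left (Complex.abs_arg_le_pi x) (abs_nonneg κ)
  have h4 : |W.im| ≤ |x.im / a| + |κ * Complex.arg x| + E := by
    have h5 : W.im = x.im / a + κ * Complex.arg x - (x.im / a + κ * Complex.arg x - W.im) := by ring
    have h6 := abs_sub (x.im / a + κ * Complex.arg x) (x.im / a + κ * Complex.arg x - W.im)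
    rw [← h5] at h6
    have h7 := abs_add_le (x.im / a) (κ * Complex.arg x)
    linarith
  rw [abs_div, abs_of_pos ha] at h4
  have h5 : |W.im| / 2 ≤ |x.im| / a := by linarith
  rw [le_div_iff₀ ha] at h5
  linarith

section asy

variable {g : ℂ[X]} {H Φ S : ℂ → ℂ} {R₀ C₀ r₁ a κ R R₂ C : ℝ}

/-- one step of the dynamics -/
theorem step (L : Loc g H R₀ C₀ r₁) (ha : 0 < a) (hal : al g = a) (hga : ga g = κ * a ^ 2) :
    ∃ Y₀ C₂ : ℝ, 0 < Y₀ ∧ 0 < C₂ ∧ ∀ x : ℂ, Y₀ ≤ |x.im| → ∃ x' : ℂ,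
      g.eval (1 + x⁻¹) = 1 + x'⁻¹ ∧ ‖UU a κ x' - UU a κ x + 1‖ ≤ C₂ / ‖x‖ ^ 2 := by
  have hC0 := L.C0
  have hR0 := L.R0
  set D : ℝ := a + |κ| * a ^ 2 + C₀ with hD
  have hD0 : 0 < D := by positivity
  refine ⟨R₀ + 1 + 2 * D, C₀ / a + |κ| * D ^ 2 + |κ| * (|κ| * a ^ 2 + C₀) + 1, by positivity,
    by positivity, fun x hx => ?_⟩
  have hxn : |x.im| ≤ ‖x‖ := Complex.abs_im_le_norm x
  have hx1 : 1 ≤ ‖x‖ := by linarith
  have hxpos : 0 < ‖x‖ := by linarith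
  have hx0 : x ≠ 0 := norm_pos_iff.1 hxpos
  obtain ⟨h1, h2⟩ := L.gexp x (by linarith)
  set x' := (g.eval (1 + x⁻¹) - 1)⁻¹ with hx'
  refine ⟨x', ?_, ?_⟩
  · rw [hx', inv_inv]; ring
  set e := x' - (x - al g + ga g / x) with he
  have hx'e : x' = x - a + κ * a ^ 2 / x + e := by rw [he, hal, hga]; ring
  have hinv : ‖x‖⁻¹ ≤ 1 := inv_le_one_of_one_le₀ hx1
  have hinv0 : 0 ≤ ‖x‖⁻¹ := by positivity
  have he1 : ‖e‖ ≤ C₀ / ‖x‖ ^ 2 := h2
  have hx2 : 1 ≤ ‖x‖ ^ 2 := one_le_pow₀ hx1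
  have he2 : ‖e‖ ≤ C₀ := he1.trans (div_le_self hC0.le hx2)
  have he3 : ‖e‖ ≤ C₀ / ‖x‖ := he1.trans (by
    apply div_le_div_of_nonneg_left hC0.le hxpos
    nlinarith)
  have hkx : ‖(κ : ℂ) * a ^ 2 / x‖ = |κ| * a ^ 2 / ‖x‖ := by
    rw [norm_div, norm_mul, norm_pow, Complex.norm_real, Complex.norm_real, Real.norm_eq_abs,
      Real.norm_of_nonneg ha.le]
  have hkx1 : |κ| * a ^ 2 / ‖x‖ ≤ |κ| * a ^ 2 := div_le_self (by positivity) hx1
  have hfe : ‖(κ : ℂ) * a ^ 2 / x + e‖ ≤ (|κ| * a ^ 2 + C₀) / ‖x‖ := by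
    refine (norm_add_le _ _).trans ?_
    rw [hkx, add_div]
    linarith
  have hdiff : ‖x' - x‖ ≤ D := by
    have h3 : x' - x = -(a : ℂ) + (κ * a ^ 2 / x + e) := by rw [hx'e]; ring
    rw [h3]
    refine (norm_add_le _ _).trans ?_
    rw [norm_neg, Complex.norm_real, Real.norm_of_nonneg ha.le]
    have h4 : (|κ| * a ^ 2 + C₀) / ‖x‖ ≤ |κ| * a ^ 2 + C₀ := div_le_self (by positivity) hx1
    rw [hD]
    linarith
  set δ : ℂ := (x' - x) / x with hδ
  have hδn : ‖δ‖ ≤ D / ‖x‖ := by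
    rw [hδ, norm_div]
    exact div_le_div_of_nonneg_right hdiff hxpos.le
  have hδ2 : ‖δ‖ ≤ 1 / 2 := by
    refine hδn.trans ?_
    rw [div_le_iff₀ hxpos]
    linarith
  have hδ1 : 1 + δ ≠ 0 := by
    intro h0
    have h3 : δ = -1 := by linear_combination h0
    rw [h3, norm_neg, norm_one] at hδ2
    linarith
  have hx'δ : x' = x * (1 + δ) := by
    rw [hδ]
    field_simp
    ring
  have hs : 0 < x.im * x'.im := by
    have h3 := (Complex.abs_im_le_norm (x' - x)).trans hdiff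
    rw [Complex.sub_im, abs_le] at h3
    rcases lt_or_ge x.im 0 with hxi | hxi
    · rw [abs_of_neg hxi] at hx
      have h4 : x'.im < 0 := by linarith [h3.2]
      exact mul_pos_of_neg_of_neg hxi h4
    · rw [abs_of_nonneg hxi] at hx
      have h4 : 0 < x'.im := by linarith [h3.1]
      have h5 : 0 < x.im := by linarith
      exact mul_pos h5 h4
  have hlog := log_step hx0 hδ1 hx'δ hs
  have hmain : UU a κ x' - UU a κ x + 1 = e / a + κ * (Complex.log (1 + δ) - δ) +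
      κ * (κ * a ^ 2 / x + e) / x := by
    unfold UU
    rw [hlog]
    have ha' : (a : ℂ) ≠ 0 := by exact_mod_cast ha.ne'
    have h3 : (κ : ℂ) * δ = κ * (-(a : ℂ) + (κ * a ^ 2 / x + e)) / x := by
      rw [hδ]
      have h4 : x' - x = -(a : ℂ) + (κ * a ^ 2 / x + e) := by rw [hx'e]; ring
      rw [h4]
      ring
    have h5 : x' / a = x / a - 1 + κ * a / x + e / a := by
      rw [hx'e]
      field_simp
    have h6 : (κ : ℂ) * (Complex.log (1 + δ) - δ) = κ * Complex.log (1 + δ) - κ * δ := by ring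
    rw [h5, h6, h3]
    field_simp
    ring
  rw [hmain]
  have hl : ‖Complex.log (1 + δ) - δ‖ ≤ ‖δ‖ ^ 2 := by
    refine (Complex.norm_log_one_add_sub_self_le (by linarith)).trans ?_
    have h3 : (1 - ‖δ‖)⁻¹ ≤ 2 := by
      rw [inv_le_comm₀ (by linarith) (by norm_num)]
      linarith
    have h4 : 0 ≤ ‖δ‖ ^ 2 := by positivity
    nlinarith
  have n1 : ‖e / (a : ℂ)‖ ≤ C₀ / a / ‖x‖ ^ 2 := by
    rw [norm_div, Complex.norm_real, Real.norm_of_nonneg ha.le, div_right_comm]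
    exact div_le_div_of_nonneg_right he1 ha.le
  have n2 : ‖(κ : ℂ) * (Complex.log (1 + δ) - δ)‖ ≤ |κ| * D ^ 2 / ‖x‖ ^ 2 := by
    rw [norm_mul, Complex.norm_real, Real.norm_eq_abs, mul_div_assoc]
    apply mul_le_mul_of_nonneg_left _ (abs_nonneg κ)
    refine hl.trans ?_
    rw [← div_pow]
    exact pow_le_pow_left₀ (norm_nonneg _) hδn 2
  have n3 : ‖(κ : ℂ) * (κ * a ^ 2 / x + e) / x‖ ≤ |κ| * (|κ| * a ^ 2 + C₀) / ‖x‖ ^ 2 := by
    rw [norm_div, norm_mul, Complex.norm_real, Real.norm_eq_abs]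
    have h3 : |κ| * (|κ| * a ^ 2 + C₀) / ‖x‖ ^ 2 = |κ| * ((|κ| * a ^ 2 + C₀) / ‖x‖) / ‖x‖ := by
      field_simp
    rw [h3]
    apply div_le_div_of_nonneg_right _ hxpos.le
    exact mul_le_mul_of_nonneg_left hfe (abs_nonneg κ)
  refine (norm_add_le _ _).trans ?_
  refine (add_le_add (norm_add_le _ _) le_rfl).trans ?_
  have h9 : 0 ≤ 1 / ‖x‖ ^ 2 := by positivity
  calc ‖e / (a : ℂ)‖ + ‖(κ : ℂ) * (Complex.log (1 + δ) - δ)‖ +
        ‖(κ : ℂ) * (κ * a ^ 2 / x + e) / x‖ ≤ C₀ / a / ‖x‖ ^ 2 + |κ| * D ^ 2 / ‖x‖ ^ 2 +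
          |κ| * (|κ| * a ^ 2 + C₀) / ‖x‖ ^ 2 := by linarith
    _ ≤ C₀ / a / ‖x‖ ^ 2 + |κ| * D ^ 2 / ‖x‖ ^ 2 +
          |κ| * (|κ| * a ^ 2 + C₀) / ‖x‖ ^ 2 + 1 / ‖x‖ ^ 2 := by linarith
    _ = (C₀ / a + |κ| * D ^ 2 + |κ| * (|κ| * a ^ 2 + C₀) + 1) / ‖x‖ ^ 2 := by ring

/-- the second region -/
theorem region2 (L : Loc g H R₀ C₀ r₁) (F : Fat H Φ a κ R R₂ C) (I : Inv Φ S R R₂)
    (hR : R₀ < R / 2) (hal : al g = a) (hga : ga g = κ * a ^ 2) :
    ∃ Y₁ c₃ : ℝ, 0 < Y₁ ∧ 0 < c₃ ∧ ∀ (w : ℂ) (m : ℕ), Y₁ ≤ |w.im| → (m : ℝ) ≤ 2 * |w.im| →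
      R₂ < ((m : ℂ) - w).re + |((m : ℂ) - w).im| / 2 →
      ∃ x : ℂ, Psi g S R₂ w = 1 + x⁻¹ ∧ a * |w.im| / 2 ≤ |x.im| ∧
        ‖UU a κ x + w‖ ≤ c₃ / |w.im| := by
  have ha := F.apos
  have hRp := F.Rpos
  have hC := F.Cpos
  have hpi := Real.pi_pos
  obtain ⟨Y₀, C₂, hY₀, hC₂, hstep⟩ := step L ha hal hga
  set E : ℝ := 1 + 2 * C / R with hE
  set A₀ : ℝ := 2 * C / a with hA₀
  set b : ℝ := 4 * C₂ / a ^ 2 with hb
  have hA₀p : 0 < A₀ := by positivity
  have hbp : 0 < b := by positivity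
  have hEp : 1 ≤ E := by
    have : 0 ≤ 2 * C / R := by positivity
    linarith
  have hkp : 0 ≤ |κ| * Real.pi := by positivity
  have hYa : 0 < 2 * Y₀ / a := by positivity
  refine ⟨2 * (E + |κ| * Real.pi) + 2 * Y₀ / a + (A₀ + 2 * b) + 1, A₀ + 2 * b, by positivity,
    by positivity, ?_⟩
  intro w m hY hm hW
  set Y := |w.im| with hYdef
  have hY1 : 1 ≤ Y := by linarith
  have hYE : 2 * (E + |κ| * Real.pi) ≤ Y := by linarith
  have hYY0 : Y₀ ≤ a * Y / 2 := by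
    have h1 : 2 * Y₀ / a ≤ Y := by linarith
    rw [div_le_iff₀ ha] at h1
    linarith
  have hYc : A₀ + 2 * b ≤ Y := by linarith
  set x₀ := S ((m : ℂ) - w) with hx₀
  have hx₀S : x₀ ∈ Sec R := I.mem _ hW
  have hx₀Φ : Φ x₀ = (m : ℂ) - w := I.app _ hW
  have him : ∀ j : ℕ, |((m : ℂ) - j - w).im| = Y := by
    intro j
    have : ((m : ℂ) - j - w).im = -w.im := by simp
    rw [this, abs_neg]
  have hclaim : ∀ j : ℕ, j ≤ m → ∃ x : ℂ,
      (fun z : ℂ => g.eval z)^[j] (1 + x₀⁻¹) = 1 + x⁻¹ ∧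
      ‖UU a κ x - ((m : ℂ) - j - w)‖ ≤ A₀ / Y + j * (b / Y ^ 2) ∧ a * Y / 2 ≤ |x.im| := by
    intro j
    induction j with
    | zero =>
      intro _
      have h1 := F.asy x₀ hx₀S
      have h2 := norm_Sec hx₀S
      have h3 : ‖UU a κ x₀ - ((m : ℂ) - (0 : ℕ) - w)‖ ≤ C / ‖x₀‖ := by
        rw [norm_sub_rev, Nat.cast_zero, sub_zero, ← hx₀Φ]
        exact h1
      have h4 : C / ‖x₀‖ ≤ E := by
        rw [div_le_iff₀ (by linarith)]
        have h5 : C = 2 * C / R * (R / 2) := by field_simp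
        have h6 : 2 * C / R * (R / 2) ≤ 2 * C / R * ‖x₀‖ :=
          mul_le_mul_of_nonneg_left h2.le (by positivity)
        have h7 : 0 ≤ ‖x₀‖ := norm_nonneg _
        rw [hE]
        nlinarith
      have h5 := im_bound ha (h3.trans h4) (by rw [him]; exact hYE)
      rw [him] at h5
      refine ⟨x₀, rfl, ?_, h5⟩
      refine h3.trans ?_
      rw [Nat.cast_zero, zero_mul, add_zero, hA₀]
      have h6 : a * Y / 2 ≤ ‖x₀‖ := h5.trans (Complex.abs_im_le_norm x₀)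
      have h7 : 0 < a * Y / 2 := by positivity
      have h8 : 2 * C / a / Y = C / (a * Y / 2) := by field_simp
      rw [h8]
      exact div_le_div_of_nonneg_left hC.le h7 h6
    | succ j ih =>
      intro hj
      obtain ⟨x, i1, i2, i3⟩ := ih (by omega)
      obtain ⟨x', s1, s2⟩ := hstep x (hYY0.trans i3)
      have hxn : a * Y / 2 ≤ ‖x‖ := i3.trans (Complex.abs_im_le_norm x)
      have haY : 0 < a * Y / 2 := by positivity
      have s3 : C₂ / ‖x‖ ^ 2 ≤ b / Y ^ 2 := by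
        have h1 : b / Y ^ 2 = C₂ / (a * Y / 2) ^ 2 := by
          rw [hb]
          field_simp
          norm_num
        rw [h1]
        exact div_le_div_of_nonneg_left hC₂.le (by positivity)
          (pow_le_pow_left₀ haY.le hxn 2)
      have s4 : ‖UU a κ x' - ((m : ℂ) - (j + 1 : ℕ) - w)‖ ≤
          A₀ / Y + (j + 1 : ℕ) * (b / Y ^ 2) := by
        have h1 : UU a κ x' - ((m : ℂ) - (j + 1 : ℕ) - w) =
            (UU a κ x' - UU a κ x + 1) + (UU a κ x - ((m : ℂ) - j - w)) := by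
          push_cast
          ring
        rw [h1]
        refine (norm_add_le _ _).trans ?_
        push_cast
        linarith
      refine ⟨x', ?_, s4, ?_⟩
      · rw [Function.iterate_succ_apply', i1]
        exact s1
      · have h1 : A₀ / Y + (j + 1 : ℕ) * (b / Y ^ 2) ≤ E := by
          have h2 : ((j + 1 : ℕ) : ℝ) ≤ 2 * Y := by
            have : ((j + 1 : ℕ) : ℝ) ≤ m := by exact_mod_cast hj
            linarith
          have h3 : ((j + 1 : ℕ) : ℝ) * (b / Y ^ 2) ≤ 2 * Y * (b / Y ^ 2) :=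
            mul_le_mul_of_nonneg_right h2 (by positivity)
          have h4 : A₀ / Y + 2 * Y * (b / Y ^ 2) = (A₀ + 2 * b) / Y := by
            field_simp
          have h5 : (A₀ + 2 * b) / Y ≤ 1 := by
            rw [div_le_one (by linarith)]
            exact hYc
          linarith
        have h2 := im_bound ha (s4.trans h1) (by rw [him]; exact hYE)
        rw [him] at h2
        exact h2
  obtain ⟨x, i1, i2, i3⟩ := hclaim m le_rfl
  refine ⟨x, ?_, i3, ?_⟩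
  · rw [Psi_eq L F I hR hW]
    exact i1
  · have h1 : UU a κ x - ((m : ℂ) - m - w) = UU a κ x + w := by ring
    rw [h1] at i2
    refine i2.trans ?_
    have h3 : (m : ℝ) * (b / Y ^ 2) ≤ 2 * Y * (b / Y ^ 2) :=
      mul_le_mul_of_nonneg_right hm (by positivity)
    have h4 : A₀ / Y + 2 * Y * (b / Y ^ 2) = (A₀ + 2 * b) / Y := by
      field_simp
    linarith

/-- comparison of `x` and `w` -/
theorem cmp (ha : 0 < a) (κ E : ℝ) : ∃ A : ℝ, 1 ≤ A ∧ ∀ x w : ℂ, 1 ≤ ‖x‖ → 1 ≤ ‖w‖ →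
    ‖UU a κ x + w‖ ≤ E → ‖w‖ ≤ A * ‖x‖ ∧ ‖x‖ ≤ A * ‖w‖ := by
  have hpi := Real.pi_pos
  set ε : ℝ := 1 / (2 * a * (|κ| + 1)) with hε
  have hk := abs_nonneg κ
  have hεp : 0 < ε := by positivity
  set B : ℝ := |E| + |κ| * (|Real.log ε| + Real.pi) with hB
  have hBp : 0 ≤ B := by positivity
  set A₁ : ℝ := |E| + 1 / a + |κ| * (1 + Real.pi) with hA₁
  have hA₁p : 0 ≤ A₁ := by positivity
  refine ⟨1 + 2 * a * (1 + B) + A₁, ?_, ?_⟩
  · have : 0 ≤ 2 * a * (1 + B) := by positivity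
    linarith
  intro x w hx hw h
  have hxp : 0 < ‖x‖ := by linarith
  have hE : E ≤ |E| := le_abs_self E
  have hlx0 : 0 ≤ Real.log ‖x‖ := Real.log_nonneg hx
  have hlog : ‖Complex.log x‖ ≤ Real.log ‖x‖ + Real.pi := by
    have h1 : ‖Complex.log x‖ ≤ |(Complex.log x).re| + |(Complex.log x).im| :=
      Complex.norm_le_abs_re_add_abs_im _
    rw [Complex.log_re, Complex.log_im, abs_of_nonneg hlx0] at h1
    have h2 := Complex.abs_arg_le_pi x
    linarith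
  have hl1 : Real.log ‖x‖ ≤ ‖x‖ := by
    have := Real.log_le_sub_one_of_pos hxp
    linarith
  have hl2 : Real.log ‖x‖ ≤ ε * ‖x‖ + |Real.log ε| := by
    have h1 := Real.log_le_sub_one_of_pos (show 0 < ε * ‖x‖ by positivity)
    rw [Real.log_mul hεp.ne' hxp.ne'] at h1
    have h2 := neg_abs_le (Real.log ε)
    linarith
  have hUx : ‖UU a κ x‖ ≤ ‖x‖ / a + |κ| * ‖Complex.log x‖ := by
    unfold UU
    refine (norm_add_le _ _).trans ?_
    rw [norm_div, norm_mul, Complex.norm_real, Complex.norm_real, Real.norm_of_nonneg ha.le,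
      Real.norm_eq_abs]
  have hUx2 : ‖x‖ / a ≤ ‖UU a κ x‖ + |κ| * ‖Complex.log x‖ := by
    have h1 := norm_sub_le (UU a κ x) (κ * Complex.log x)
    have h2 : UU a κ x - κ * Complex.log x = x / a := by unfold UU; ring
    rw [h2, norm_div, norm_mul, Complex.norm_real, Complex.norm_real, Real.norm_of_nonneg ha.le,
      Real.norm_eq_abs] at h1
    exact h1
  have hw1 : ‖w‖ ≤ E + ‖UU a κ x‖ := by
    have h1 := norm_sub_le (UU a κ x + w) (UU a κ x)
    rw [add_sub_cancel_left] at h1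
    linarith
  have hw2 : ‖UU a κ x‖ ≤ E + ‖w‖ := by
    have h1 := norm_sub_le (UU a κ x + w) w
    rw [add_sub_cancel_right] at h1
    linarith
  constructor
  · have h1 : ‖w‖ ≤ A₁ * ‖x‖ := by
      have h2 : |κ| * ‖Complex.log x‖ ≤ |κ| * (‖x‖ + Real.pi) :=
        mul_le_mul_of_nonneg_left (by linarith) hk
      have h3 : |κ| * (‖x‖ + Real.pi) ≤ |κ| * (1 + Real.pi) * ‖x‖ := by
        rw [mul_assoc]
        exact mul_le_mul_of_nonneg_left (by nlinarith) hk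
      have h4 : |E| ≤ |E| * ‖x‖ := le_mul_of_one_le_right (abs_nonneg E) hx
      have h5 : ‖x‖ / a = 1 / a * ‖x‖ := by ring
      calc ‖w‖ ≤ |E| + (‖x‖ / a + |κ| * (‖x‖ + Real.pi)) := by linarith
        _ ≤ |E| * ‖x‖ + (1 / a * ‖x‖ + |κ| * (1 + Real.pi) * ‖x‖) := by linarith
        _ = A₁ * ‖x‖ := by rw [hA₁]; ring
    have h6 : 0 ≤ (1 + 2 * a * (1 + B)) * ‖x‖ := by positivity
    nlinarith
  · have h1 : |κ| * ‖Complex.log x‖ ≤ ‖x‖ / (2 * a) + |κ| * (|Real.log ε| + Real.pi) := by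
      have h2 : |κ| * ‖Complex.log x‖ ≤ |κ| * (ε * ‖x‖ + |Real.log ε| + Real.pi) :=
        mul_le_mul_of_nonneg_left (by linarith) hk
      have h3 : |κ| * (ε * ‖x‖) ≤ ‖x‖ / (2 * a) := by
        have h4 : |κ| * (ε * ‖x‖) ≤ (|κ| + 1) * (ε * ‖x‖) :=
          mul_le_mul_of_nonneg_right (by linarith) (by positivity)
        have h5 : (|κ| + 1) * (ε * ‖x‖) = ‖x‖ / (2 * a) := by
          rw [hε]
          field_simp
        linarith
      linarith
    have h2 : ‖x‖ / a = ‖x‖ / (2 * a) + ‖x‖ / (2 * a) := by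
      field_simp
      ring
    have h3 : ‖x‖ / (2 * a) ≤ ‖w‖ + B := by rw [hB]; linarith
    have h4 : ‖w‖ + B ≤ (1 + B) * ‖w‖ := by nlinarith
    have h5 : ‖x‖ ≤ (1 + B) * ‖w‖ * (2 * a) := by
      rw [← div_le_iff₀ (by positivity)]
      linarith
    have h6 : 0 ≤ (1 + A₁) * ‖w‖ := by positivity
    nlinarith

/-- the asymptotics in the wide sector -/
theorem region (L : Loc g H R₀ C₀ r₁) (F : Fat H Φ a κ R R₂ C) (I : Inv Φ S R R₂)
    (hR : R₀ < R / 2) (hal : al g = a) (hga : ga g = κ * a ^ 2) :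
    ∃ R' C' : ℝ, 0 < R' ∧ 0 < C' ∧ ∀ w : ℂ, R' < -w.re + |w.im| →
      ∃ x : ℂ, x ≠ 0 ∧ Psi g S R₂ w = 1 + x⁻¹ ∧ ‖UU a κ x + w‖ ≤ C' / ‖w‖ ∧
        ‖w‖ ≤ C' * ‖x‖ ∧ ‖x‖ ≤ C' * ‖w‖ := by
  have ha := F.apos
  have hRp := F.Rpos
  have hC := F.Cpos
  obtain ⟨A₁, hA₁, hgr⟩ := growth F
  obtain ⟨Y₁, c₃, hY₁, hc₃, hreg⟩ := region2 L F I hR hal hga
  obtain ⟨A₂, hA₂, hcmp⟩ := cmp ha κ (C + c₃ + 1)
  have h2a : 0 < 2 / a := by positivity
  have hR2 := abs_nonneg R₂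
  refine ⟨4 * A₁ + 2 + 2 * |R₂| + Y₁ + 2 / a, A₂ + C * A₂ + 2 * c₃, by positivity, by positivity, ?_⟩
  intro w hw
  have hre := Complex.abs_re_le_norm w
  have him := Complex.abs_im_le_norm w
  have hre' := neg_abs_le w.re
  have hre'' := le_abs_self w.re
  have hwn : 2 * A₁ + 1 ≤ ‖w‖ := by linarith
  have hw1 : 1 ≤ ‖w‖ := by linarith
  have hwp : 0 < ‖w‖ := by linarith
  have hCA : 0 ≤ C * A₂ := by positivity
  have fin : ∀ x : ℂ, 1 ≤ ‖x‖ → ‖UU a κ x + w‖ ≤ C + c₃ + 1 →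
      ‖w‖ ≤ (A₂ + C * A₂ + 2 * c₃) * ‖x‖ ∧ ‖x‖ ≤ (A₂ + C * A₂ + 2 * c₃) * ‖w‖ := by
    intro x hx h
    obtain ⟨h1, h2⟩ := hcmp x w hx hw1 h
    have h3 : A₂ ≤ A₂ + C * A₂ + 2 * c₃ := by linarith
    exact ⟨h1.trans (mul_le_mul_of_nonneg_right h3 (norm_nonneg _)),
      h2.trans (mul_le_mul_of_nonneg_right h3 (norm_nonneg _))⟩
  by_cases hD : R₂ < (-w).re + |(-w).im| / 2
  · -- first region
    have hxS := I.mem _ hD
    have hxΦ := I.app _ hD
    set x := S (-w) with hx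
    have h1 := F.asy x hxS
    have h2 := hgr x hxS
    rw [hxΦ, norm_neg] at h2
    have hx1 : 1 ≤ ‖x‖ := by
      by_contra hcon
      push Not at hcon
      nlinarith
    have hxp : 0 < ‖x‖ := by linarith
    have h3 : ‖UU a κ x + w‖ ≤ C / ‖x‖ := by
      rw [hxΦ] at h1
      have h4 : UU a κ x + w = -(-w - UU a κ x) := by ring
      rw [h4, norm_neg]
      exact h1
    have h4 : C / ‖x‖ ≤ C := div_le_self hC.le hx1
    obtain ⟨h5, h6⟩ := fin x hx1 (by linarith)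
    refine ⟨x, norm_pos_iff.1 hxp, Psi_near L F I hR hD, ?_, h5, h6⟩
    refine h3.trans ?_
    obtain ⟨h7, -⟩ := hcmp x w hx1 hw1 (by linarith)
    rw [div_le_div_iff₀ hxp hwp]
    have h8 : C * ‖w‖ ≤ C * (A₂ * ‖x‖) := mul_le_mul_of_nonneg_left h7 hC.le
    have h9 : 0 ≤ (A₂ + 2 * c₃) * ‖x‖ := by positivity
    nlinarith
  · -- second region
    push Not at hD
    rw [Complex.neg_re, Complex.neg_im, abs_neg] at hD
    have hR2' := le_abs_self R₂
    have hR2'' := neg_abs_le R₂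
    set Y := |w.im| with hY
    have hYbig : 4 * A₁ + 2 + 2 * |R₂| + Y₁ + 2 / a ≤ Y := by linarith
    have hY0 : 0 < Y := by linarith
    set m := ⌈Y⌉₊ with hm
    have hm1 : Y ≤ m := Nat.le_ceil Y
    have hm2 : (m : ℝ) < Y + 1 := Nat.ceil_lt_add_one hY0.le
    have hW : R₂ < ((m : ℂ) - w).re + |((m : ℂ) - w).im| / 2 := by
      have e1 : ((m : ℂ) - w).re = m - w.re := by simp
      have e2 : ((m : ℂ) - w).im = -w.im := by simp
      rw [e1, e2, abs_neg, ← hY]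
      linarith
    obtain ⟨x, i1, i2, i3⟩ := hreg w m (by linarith) (by linarith) hW
    have hxn : 1 ≤ ‖x‖ := by
      refine le_trans ?_ (i2.trans (Complex.abs_im_le_norm x))
      rw [← hY]
      have h1 : 2 / a ≤ Y := by linarith
      rw [div_le_iff₀ ha] at h1
      linarith
    have hwY : ‖w‖ ≤ 2 * Y := by
      have h1 := Complex.norm_le_abs_re_add_abs_im w
      have h2 : |w.re| ≤ Y := by
        rw [abs_le]
        constructor <;> linarith
      linarith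
    have h3 : c₃ / Y ≤ c₃ := div_le_self hc₃.le (by linarith)
    obtain ⟨h5, h6⟩ := fin x hxn (by linarith)
    refine ⟨x, norm_pos_iff.1 (by linarith), i1, ?_, h5, h6⟩
    refine i3.trans ?_
    rw [div_le_div_iff₀ hY0 hwp]
    have h7 : c₃ * ‖w‖ ≤ c₃ * (2 * Y) := mul_le_mul_of_nonneg_left hwY hc₃.le
    have h8 : 0 ≤ (A₂ + C * A₂) * Y := by positivity
    nlinarith

end asy

end FCRaux

end Pool.Agent.H212.ND
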