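import Pool.Agent.H212.ND.StmC
import Pool.Agent.H212.MB.Stm3

/-!
# Project ND, job GDF: the partners of `g` are nondegenerate
-/

set_option autoImplicit false

open Filter Metric Set Topology Polynomial
open scoped ComplexConjugate

namespace Pool.Agent.H212.ND

open Pool.Agent.H212.MB

namespace GDFaux

/-! ### The neighbourhood of the filled Julia set -/

theorem aa_ne {n : ℕ} {g : ℂ[X]} {c₀ : ℝ} {c : ℂ} (hG : Good n g c₀ c) : aa n g ≠ 0 := by
  unfold aa
  have h := Real.rpow_pos_of_pos hG.lead (1 / ((n : ℝ) - 1))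
  exact_mod_cast h.ne'

theorem Nn_open {n : ℕ} {g : ℂ[X]} {c₀ : ℝ} {c : ℂ} {φ : ℂ → ℂ} {ρ : ℝ} (hρ : 1 < ρ)
    (hG : Good n g c₀ c) (hB : Bot n g c₀ φ) : IsOpen (Nn φ ρ) := by
  rw [isOpen_iff_mem_nhds]
  intro y0 hy0
  have ha := aa_ne hG
  have ha' : 0 < ‖aa n g‖ := norm_pos_iff.2 ha
  set M : ℝ := ‖y0‖ + 1 with hM
  have ev1 : ∀ᶠ z in cocompact ℂ, ‖φ z - z / aa n g - bb n g‖ < 1 := by
    have h := hB.asym.eventually (ball_mem_nhds (bb n g) one_pos)
    filter_upwards [h] with z hz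
    rw [← dist_eq_norm]
    exact hz
  have ev2 : ∀ᶠ z in cocompact ℂ, (M + ‖bb n g‖ + 1) * ‖aa n g‖ < ‖z‖ :=
    (tendsto_norm_cocompact_atTop (E := ℂ)).eventually_gt_atTop _
  have ev : ∀ᶠ z in cocompact ℂ, M < ‖φ z‖ := by
    filter_upwards [ev1, ev2] with z h1 h2
    have h3 : M + ‖bb n g‖ + 1 < ‖z / aa n g‖ := by
      rw [norm_div, lt_div_iff₀ ha']
      exact h2
    have h4 : ‖z / aa n g‖ ≤ ‖φ z‖ + ‖φ z - z / aa n g - bb n g‖ + ‖bb n g‖ := by
      have e : z / aa n g = φ z - (φ z - z / aa n g - bb n g) - bb n g := by ring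
      calc ‖z / aa n g‖ = ‖φ z - (φ z - z / aa n g - bb n g) - bb n g‖ := by rw [← e]
        _ ≤ ‖φ z - (φ z - z / aa n g - bb n g)‖ + ‖bb n g‖ := norm_sub_le _ _
        _ ≤ ‖φ z‖ + ‖φ z - z / aa n g - bb n g‖ + ‖bb n g‖ :=
          add_le_add (norm_sub_le _ _) le_rfl
    linarith
  obtain ⟨K, hK, hKs⟩ := Filter.mem_cocompact.1 ev
  have hcl : IsClosed {z : ℂ | ρ ≤ ‖z‖} := isClosed_le continuous_const continuous_norm
  have hc : IsCompact (φ '' (K ∩ {z : ℂ | ρ ≤ ‖z‖})) := by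
    refine (hK.inter_right hcl).image_of_continuousOn (hB.cont.mono ?_)
    rintro z ⟨-, hz⟩
    have hz' : ρ ≤ ‖z‖ := hz
    show 1 ≤ ‖z‖
    linarith
  have hy0' : y0 ∈ (φ '' (K ∩ {z : ℂ | ρ ≤ ‖z‖}))ᶜ := by
    rintro ⟨z, ⟨-, hz⟩, hzy⟩
    exact hy0 z hz hzy.symm
  have hy0'' : y0 ∈ ball (0 : ℂ) M := by
    rw [mem_ball_zero_iff, hM]
    linarith
  filter_upwards [isOpen_ball.mem_nhds hy0'', hc.isClosed.isOpen_compl.mem_nhds hy0'] with
    y h1 h2 z hz hy
  by_cases hzK : z ∈ K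
  · exact h2 ⟨z, ⟨hzK, hz⟩, hy.symm⟩
  · have h3 : M < ‖φ z‖ := hKs hzK
    rw [mem_ball_zero_iff, hy] at h1
    linarith

/-! ### The second fixed point -/

theorem exists_root {n : ℕ} {g : ℂ[X]} {c₀ : ℝ} {c : ℂ} (hG : Good n g c₀ c) :
    ∃ r : ℂ, r ≠ 1 ∧ g.eval r = r := by
  have hn := hG.n3
  set p : ℂ[X] := g - X with hp
  have hdeg : p.natDegree = n := by
    rw [hp, natDegree_sub_eq_left_of_natDegree_lt, hG.deg]
    rw [natDegree_X, hG.deg]
    omega
  have hp0 : p ≠ 0 := by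
    intro h
    rw [h, natDegree_zero] at hdeg
    omega
  have h1 : p.IsRoot 1 := by
    show p.eval 1 = 0
    rw [hp, eval_sub, eval_X, hG.fix, sub_self]
  obtain ⟨p₁, hp₁⟩ := dvd_iff_isRoot.2 h1
  have hd : (derivative p).eval 1 = 0 := by
    rw [hp, derivative_sub, derivative_X, eval_sub, eval_one, hG.der, sub_self]
  have h2 : p₁.IsRoot 1 := by
    show p₁.eval 1 = 0
    rw [hp₁, derivative_mul] at hd
    simpa using hd
  obtain ⟨p₂, hp₂⟩ := dvd_iff_isRoot.2 h2
  have hdd : (derivative (derivative p)).eval 1 = 2 * p₂.eval 1 := by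
    rw [hp₁, hp₂]
    simp only [derivative_mul, derivative_add, derivative_sub, derivative_X, derivative_C,
      eval_add, eval_mul, eval_sub, eval_X, eval_C, sub_zero, one_mul, sub_self, zero_mul,
      add_zero]
    ring
  have hdd' : (derivative (derivative p)).eval 1 ≠ 0 := by
    have h3 : derivative (derivative p) = derivative (derivative g) := by
      rw [hp, derivative_sub, derivative_sub, derivative_X, derivative_one, sub_zero]
    rw [h3]
    intro h
    have h4 := hG.der2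
    rw [h] at h4
    simp at h4
  have h3 : p₂.eval 1 ≠ 0 := by
    intro h
    rw [hdd, h, mul_zero] at hdd'
    exact hdd' rfl
  have hp₁0 : p₁ ≠ 0 := by
    rintro rfl
    exact hp0 (by rw [hp₁, mul_zero])
  have hp₂0 : p₂ ≠ 0 := by
    rintro rfl
    exact hp₁0 (by rw [hp₂, mul_zero])
  have hX : (X - C (1 : ℂ)) ≠ 0 := X_sub_C_ne_zero 1
  have hdeg1 : p.natDegree = 1 + p₁.natDegree := by
    rw [hp₁, natDegree_mul hX hp₁0, natDegree_X_sub_C]
  have hdeg2 : p₁.natDegree = 1 + p₂.natDegree := by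
    rw [hp₂, natDegree_mul hX hp₂0, natDegree_X_sub_C]
  have hdeg3 : p₂.degree ≠ 0 := by
    intro h
    have h4 : p₂.natDegree = 0 := natDegree_eq_zero_iff_degree_le_zero.2 h.le
    omega
  obtain ⟨s, hs⟩ := IsAlgClosed.exists_root p₂ hdeg3
  have hs' : p₂.eval s = 0 := hs
  refine ⟨s, ?_, ?_⟩
  · rintro rfl
    exact h3 hs'
  · have h4 : p.eval s = 0 := by
      rw [hp₁, hp₂, eval_mul, eval_mul, hs', mul_zero, mul_zero]
    rw [hp, eval_sub, eval_X] at h4
    exact sub_eq_zero.1 h4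

/-! ### The coefficient at infinity -/

theorem qcoeff {n : ℕ} (hn : 3 ≤ n) (A : Blaschke n) (φ : ℂ → ℂ) :
    (qpol A φ).coeff (n - 1) ≠ 1 := by
  unfold qpol
  rw [coeff_C_mul]
  have h1 : ∀ i ∈ (Finset.univ : Finset (Fin (n - 1))),
      (if A.a i = 0 then (1 : ℂ[X]) else C (-conj (A.a i)) * (X - C (φ (conj (A.a i))⁻¹))).natDegree
        ≤ 1 := by
    intro i _
    split_ifs with h
    · simp
    · refine (natDegree_C_mul_le _ _).trans ?_
      rw [natDegree_X_sub_C]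
  have h2 := coeff_prod_of_natDegree_le Finset.univ _ 1 h1
  rw [Finset.card_univ, Fintype.card_fin, mul_one] at h2
  rw [h2]
  have h3 : ∀ i : Fin (n - 1),
      (if A.a i = 0 then (1 : ℂ[X]) else C (-conj (A.a i)) * (X - C (φ (conj (A.a i))⁻¹))).coeff 1
        = -conj (A.a i) := by
    intro i
    split_ifs with h
    · rw [h]
      simp [coeff_one]
    · rw [coeff_C_mul, coeff_sub, coeff_X_one, coeff_C]
      simp
  rw [Finset.prod_congr rfl fun i _ => h3 i]
  intro h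
  have h4 := congrArg norm h
  rw [norm_mul, norm_inv, A.norm_c, inv_one, one_mul, norm_prod, norm_one] at h4
  have h5 : ∀ i : Fin (n - 1), ‖-conj (A.a i)‖ = ‖A.a i‖ := by
    intro i
    rw [norm_neg, RCLike.norm_conj]
  rw [Finset.prod_congr rfl fun i _ => h5 i] at h4
  let i0 : Fin (n - 1) := ⟨0, by omega⟩
  rw [← Finset.mul_prod_erase Finset.univ _ (Finset.mem_univ i0)] at h4
  have h6 : ∏ i ∈ Finset.univ.erase i0, ‖A.a i‖ ≤ 1 :=
    Finset.prod_le_one (fun i _ => norm_nonneg _) fun i _ => (A.norm_a i).le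
  have h7 : ‖A.a i0‖ * ∏ i ∈ Finset.univ.erase i0, ‖A.a i‖ ≤ ‖A.a i0‖ :=
    mul_le_of_le_one_right (norm_nonneg _) h6
  have h8 := A.norm_a i0
  linarith

/-! ### Topologically repelling fixed points -/

theorem topo_rep (F G : ℂ → ℂ) (K : ℂ ≃ₜ ℂ) (r : ℂ) (hG : AnalyticAt ℂ G r) (hGr : G r = r)
    (hG' : 1 < ‖deriv G r‖) (hF : AnalyticAt ℂ F (K r))
    (hconj : ∀ᶠ y in 𝓝 r, F (K y) = K (G y)) : deriv F (K r) ≠ 1 := by
  intro h1
  set R : ℂ := K r with hR
  have hFR : F R = R := by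
    have := hconj.self_of_nhds
    rw [hGr] at this
    exact this
  -- the inverse branch of `F`
  have hFd : deriv F R ≠ 0 := by rw [h1]; exact one_ne_zero
  have hFs : HasStrictDerivAt F (deriv F R) R := hF.hasStrictDerivAt
  have hFe := hFs.hasStrictFDerivAt_equiv hFd
  have hFc : ContDiffAt ℂ 1 F R := hF.contDiffAt
  set b : ℂ → ℂ := hFc.localInverse hFe.hasFDerivAt one_ne_zero with hb
  have hbc : ContDiffAt ℂ 1 b (F R) := hFc.to_localInverse hFe.hasFDerivAt one_ne_zero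
  have hbl : ∀ᶠ x in 𝓝 R, b (F x) = x :=
    (hFc.hasStrictFDerivAt' hFe.hasFDerivAt one_ne_zero).eventually_left_inverse
  rw [hFR] at hbc
  have hbR : b R = R := by
    have := hbl.self_of_nhds
    rwa [hFR] at this
  have hbd : ∀ᶠ w in 𝓝 R, DifferentiableAt ℂ b w := by
    have h2 := hbc.eventually (by simp)
    filter_upwards [h2] with w hw
    exact hw.differentiableAt one_ne_zero
  have hbder : HasDerivAt b 1 R := by
    have h2 : HasDerivAt b (deriv b R) R := hbd.self_of_nhds.hasDerivAt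
    have h3 : HasDerivAt b (deriv b R) (F R) := by rw [hFR]; exact h2
    have h4 : HasDerivAt (b ∘ F) (deriv b R * deriv F R) R := h3.comp R hFs.hasDerivAt
    have h5 : HasDerivAt (b ∘ F) 1 R := by
      refine (hasDerivAt_id R).congr_of_eventuallyEq ?_
      filter_upwards [hbl] with x hx
      exact hx
    have h6 := h4.unique h5
    rw [h1, mul_one] at h6
    rw [h6] at h2
    exact h2
  -- the inverse branch of `G`
  have hGd : deriv G r ≠ 0 := by
    intro h
    rw [h, norm_zero] at hG'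
    linarith
  have hGs : HasStrictDerivAt G (deriv G r) r := hG.hasStrictDerivAt
  have hGe := hGs.hasStrictFDerivAt_equiv hGd
  set h : ℂ → ℂ := hGe.localInverse G _ r with hh
  have hhr : ∀ᶠ y in 𝓝 r, G (h y) = y := by
    have := hGe.eventually_right_inverse
    rwa [hGr] at this
  have hh0 : h r = r := by
    have := hGe.localInverse_apply_image
    rwa [hGr] at this
  have hhd : HasDerivAt h (deriv G r)⁻¹ r := by
    have h2 : HasStrictDerivAt h (deriv G r)⁻¹ (G r) := hGs.to_localInverse hGd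
    rw [hGr] at h2
    exact h2.hasDerivAt
  set μ : ℝ := ‖(deriv G r)⁻¹‖ with hμ
  have hμ1 : μ < 1 := by
    rw [hμ, norm_inv]
    exact inv_lt_one_of_one_lt₀ hG'
  have hμ0 : 0 ≤ μ := norm_nonneg _
  set q : ℝ := μ + (1 - μ) / 2 with hq
  have hq1 : q < 1 := by rw [hq]; linarith
  have hq0 : 0 ≤ q := by rw [hq]; linarith
  have hhq : ∀ᶠ y in 𝓝 r, ‖h y - r‖ ≤ q * ‖y - r‖ := by
    have h2 := hhd.isLittleO.def (show (0 : ℝ) < (1 - μ) / 2 by linarith)
    filter_upwards [h2] with y hy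
    rw [hh0] at hy
    have h3 : ‖h y - r‖ ≤ ‖h y - r - (y - r) • (deriv G r)⁻¹‖ + ‖(y - r) • (deriv G r)⁻¹‖ := by
      have e : h y - r = (h y - r - (y - r) • (deriv G r)⁻¹) + (y - r) • (deriv G r)⁻¹ := by ring
      calc ‖h y - r‖ = ‖(h y - r - (y - r) • (deriv G r)⁻¹) + (y - r) • (deriv G r)⁻¹‖ := by
            rw [← e]
        _ ≤ _ := norm_add_le _ _
    have h4 : ‖(y - r) • (deriv G r)⁻¹‖ = ‖y - r‖ * μ := norm_smul _ _
    rw [hq]
    rw [h4] at h3
    linarith
  have hKc : Tendsto K (𝓝 r) (𝓝 R) := K.continuous.continuousAt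
  obtain ⟨ε, hε, hball⟩ := Metric.eventually_nhds_iff_ball.1
    (hconj.and ((hKc.eventually hbl).and (hhr.and (hhq.and (hKc.eventually hbd)))))
  have hmem : ∀ y ∈ ball r ε, h y ∈ ball r ε := by
    intro y hy
    obtain ⟨-, -, -, h2, -⟩ := hball y hy
    rw [mem_ball, dist_eq_norm] at hy ⊢
    have h3 : q * ‖y - r‖ ≤ 1 * ‖y - r‖ := mul_le_mul_of_nonneg_right hq1.le (norm_nonneg _)
    linarith
  have hstep : ∀ y ∈ ball r ε, b (K y) = K (h y) := by
    intro y hy
    obtain ⟨-, -, h3, -, -⟩ := hball y hy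
    obtain ⟨h4, h5, -, -, -⟩ := hball (h y) (hmem y hy)
    rw [h3] at h4
    rw [h4] at h5
    exact h5
  have hiter : ∀ (m : ℕ), ∀ y ∈ ball r ε, h^[m] y ∈ ball r ε ∧ ‖h^[m] y - r‖ ≤ q ^ m * ‖y - r‖ ∧
      b^[m] (K y) = K (h^[m] y) := by
    intro m
    induction m with
    | zero => exact fun y hy => ⟨hy, by simp, rfl⟩
    | succ m ih =>
      intro y hy
      obtain ⟨h2, h3, h4⟩ := ih y hy
      refine ⟨?_, ?_, ?_⟩
      · rw [Function.iterate_succ_apply']
        exact hmem _ h2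
      · rw [Function.iterate_succ_apply', pow_succ']
        obtain ⟨-, -, -, h5, -⟩ := hball _ h2
        calc ‖h (h^[m] y) - r‖ ≤ q * ‖h^[m] y - r‖ := h5
          _ ≤ q * (q ^ m * ‖y - r‖) := mul_le_mul_of_nonneg_left h3 hq0
          _ = q * q ^ m * ‖y - r‖ := by ring
      · rw [Function.iterate_succ_apply', h4, hstep _ h2, Function.iterate_succ_apply']
  set U : Set ℂ := K '' ball r ε with hU
  have hUo : IsOpen U := K.isOpenMap _ isOpen_ball
  have hRU : R ∈ U := ⟨r, mem_ball_self hε, rfl⟩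
  have hbU : MapsTo b U U := by
    rintro _ ⟨y, hy, rfl⟩
    exact ⟨h y, hmem y hy, (hstep y hy).symm⟩
  have hbdU : DifferentiableOn ℂ b U := by
    rintro _ ⟨y, hy, rfl⟩
    exact (hball y hy).2.2.2.2.differentiableWithinAt
  have hitU : ∀ m : ℕ, DifferentiableOn ℂ b^[m] U := by
    intro m
    induction m with
    | zero => exact differentiableOn_id
    | succ m ih =>
      rw [Function.iterate_succ]
      exact ih.comp hbdU hbU
  obtain ⟨δ, hδ, hδU⟩ := Metric.isOpen_iff.1 hUo R hRU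
  have hδ2 : 0 < δ / 2 := half_pos hδ
  have hcl : closedBall R (δ / 2) ⊆ U := (closedBall_subset_ball (by linarith)).trans hδU
  -- uniform convergence of the iterates
  have hη : (0 : ℝ) < δ / 4 := by linarith
  obtain ⟨s, hs, hsK⟩ := Metric.tendsto_nhds_nhds.1 hKc (δ / 4) hη
  obtain ⟨m, hm⟩ := exists_pow_lt_of_lt_one (div_pos hs hε) hq1
  have hsup : ∀ w ∈ U, ‖b^[m] w - R‖ ≤ δ / 4 := by
    rintro _ ⟨y, hy, rfl⟩
    obtain ⟨h2, h3, h4⟩ := hiter m y hy
    rw [h4, ← dist_eq_norm]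
    refine (hsK ?_).le
    rw [dist_eq_norm]
    rw [mem_ball, dist_eq_norm] at hy
    have h5 : q ^ m * ‖y - r‖ ≤ q ^ m * ε :=
      mul_le_mul_of_nonneg_left hy.le (pow_nonneg hq0 m)
    have h6 : q ^ m * ε < s := by
      rw [lt_div_iff₀ hε] at hm
      exact hm
    linarith
  have hder : HasDerivAt (fun w => b^[m] w - R) (1 ^ m) R := (HasDerivAt.iterate R hbder hbR m).sub_const R
  have hdc : DiffContOnCl ℂ (fun w => b^[m] w - R) (ball R (δ / 2)) := by
    refine DifferentiableOn.diffContOnCl ?_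
    refine ((hitU m).mono ?_).sub_const R
    rw [closure_ball R hδ2.ne']
    exact hcl
  have hfin := Complex.norm_deriv_le_of_forall_mem_sphere_norm_le hδ2 hdc
    (C := δ / 4) (fun z hz => hsup z (hcl (sphere_subset_closedBall hz)))
  rw [hder.deriv, one_pow, norm_one] at hfin
  have : δ / 4 / (δ / 2) = 1 / 2 := by
    field_simp
    norm_num
  rw [this] at hfin
  norm_num at hfin

end GDFaux

open GDFaux in
theorem t_GDF (h1 : MB.S_QFORM) (h2 : S_BASN) : S_GDF := by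
  intro n g c₀ c φ A k T f φ' K0 hG hP hT hL
  have hn := hG.n3
  obtain ⟨-, -, -, -, -, -, -, -, hBlim⟩ := h2 n g c₀ c hG
  obtain ⟨hQ, -, -, -⟩ := h1 n (by omega) A f φ' hL.ext
  refine ⟨by rw [hQ]; exact qcoeff hn A φ', ?_⟩
  obtain ⟨r, hr1, hgr⟩ := exists_root hG
  -- fixed points are not in the basin
  have hit : ∀ m : ℕ, (fun z : ℂ => g.eval z)^[m] r = r := fun m =>
    Function.iterate_fixed hgr m
  have hrB : r ∉ Bas g c₀ := by
    intro h
    have h3 := hBlim r h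
    have h4 : (fun m : ℕ => (fun z : ℂ => g.eval z)^[m] r) = fun _ => r := funext hit
    rw [h4] at h3
    exact hr1 (tendsto_nhds_unique tendsto_const_nhds h3)
  have hrc : 1 - c₀ ≤ ‖r - c₀‖ := by
    by_contra hlt
    push Not at hlt
    exact hrB ⟨0, hlt⟩
  have hmult : 1 < ‖g.derivative.eval r‖ := by
    have h3 := hG.expd r hr1 (by rw [hgr]; exact hrc)
    rw [hgr] at h3
    have h4 : 0 < ‖r - c₀‖ := by
      have := hG.c1
      linarith
    by_contra hle
    push Not at hle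
    have h5 : ‖g.derivative.eval r‖ * ‖r - c₀‖ ≤ 1 * ‖r - c₀‖ :=
      mul_le_mul_of_nonneg_right hle h4.le
    linarith
  -- fixed points are not in the image of the exterior
  have hnot : ∀ y : ℂ, g.eval y = y → y ∉ φ '' MB.Ext := by
    rintro y hy ⟨z, hz, rfl⟩
    have hz' : 1 < ‖z‖ := hz
    have h3 := hP.bot.semi z hz'.le
    rw [hy] at h3
    have h4 : z ^ n ∈ MB.Ext := by
      show 1 < ‖z ^ n‖
      rw [norm_pow]
      exact one_lt_pow₀ hz' (by omega)
    have h5 := hP.bot.injE hz h4 h3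
    have h6 : ‖z‖ = ‖z‖ ^ n := by
      rw [← norm_pow, ← h5]
    have h7 : ‖z‖ ^ 1 < ‖z‖ ^ n := pow_lt_pow_right₀ hz' (by omega)
    rw [pow_one] at h7
    linarith
  have hr_not := hnot r hgr
  have h1_not := hnot 1 hG.fix
  obtain ⟨ha1, ha2⟩ := hL.inn r hr_not
  obtain ⟨hb1, hb2⟩ := hL.inn 1 h1_not
  rw [hgr] at ha2
  rw [hG.fix] at hb2
  have hval : ∀ x : ℂ, f.Q.eval x ≠ 0 → f.ev x = x → f.P.eval x = x * f.Q.eval x := by
    intro x hx hfx
    unfold RMap.ev at hfx
    rw [div_eq_iff hx] at hfx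
    exact hfx
  refine ⟨K0 r, K0 1, fun h => hr1 (K0.injective h), hval _ ha1 ha2, hval _ hb1 hb2, ha1, ?_⟩
  -- the conjugacy near `r`
  obtain ⟨ρ, hρ, hsemi⟩ := hT.semi
  have hN : IsOpen (Nn φ ρ) := Nn_open hρ hG hP.bot
  have hrN : r ∈ Nn φ ρ := by
    intro z hz hrz
    refine hr_not ⟨z, ?_, hrz.symm⟩
    show 1 < ‖z‖
    linarith
  have hconj : ∀ᶠ y in 𝓝 r, f.ev (K0 y) = K0 (g.eval y) := by
    filter_upwards [hN.mem_nhds hrN] with y hy
    by_cases hyE : y ∈ φ '' MB.Ext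
    · obtain ⟨z, hz, rfl⟩ := hyE
      have hz' : 1 < ‖z‖ := hz
      have hzρ : ‖z‖ < ρ := by
        by_contra hge
        push Not at hge
        exact hy z hge rfl
      have hzρ' : ρ⁻¹ < ‖z‖ := (inv_lt_one_of_one_lt₀ hρ).trans hz'
      obtain ⟨-, h4, h5⟩ := hsemi z hzρ' hzρ
      have hTz : T z ∈ MB.Ext := (hT.out z).2 hz'
      obtain ⟨-, h6⟩ := hL.ext.semi (T z) hTz h4
      have hzn : z ^ n ∈ MB.Ext := by
        show 1 < ‖z ^ n‖
        rw [norm_pow]
        exact one_lt_pow₀ hz' (by omega)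
      have h7 : (zn n).ev z = z ^ n := by
        unfold Blaschke.ev Blaschke.num Blaschke.den zn
        simp only [map_zero, zero_mul, sub_zero, Finset.prod_const_one, div_one, one_mul,
          Finset.prod_const, Finset.card_univ, Fintype.card_fin]
        rw [← pow_succ']
        congr 1
        omega
      rw [h7] at h5
      rw [hL.out z hz, h6, ← h5, ← hL.out _ hzn, hP.bot.semi z hz'.le]
    · exact (hL.inn y hyE).2
  have hGan : AnalyticAt ℂ (fun z : ℂ => g.eval z) r :=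
    g.differentiable.analyticAt r
  have hGder : deriv (fun z : ℂ => g.eval z) r = g.derivative.eval r := g.deriv
  have hFan : AnalyticAt ℂ f.ev (K0 r) := by
    have h3 : AnalyticAt ℂ (fun z : ℂ => f.P.eval z / f.Q.eval z) (K0 r) :=
      (f.P.differentiable.analyticAt _).div (f.Q.differentiable.analyticAt _) ha1
    exact h3
  exact topo_rep f.ev (fun z : ℂ => g.eval z) K0 r hGan hgr (by rw [hGder]; exact hmult) hFan hconj

end Pool.Agent.H212.ND
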