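import Pool.Agent.H212.ND.StmN

/-!
# Project ND, job LAV: convergence to the Lavaurs map
-/

set_option autoImplicit false

open Filter Metric Set Topology Polynomial
open scoped ComplexConjugate

namespace Pool.Agent.H212.ND

open Pool.Agent.H212.MB

namespace LAVaux

/-! ## Real coefficients -/

theorem im_eval_one {p : ℂ[X]} (h : ∀ i, (p.coeff i).im = 0) : (p.eval 1).im = 0 := by
  rw [Polynomial.eval_eq_sum_range, Complex.im_sum]
  apply Finset.sum_eq_zero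
  intro i _
  rw [one_pow, mul_one, h]

theorem im_derivative {p : ℂ[X]} (h : ∀ i, (p.coeff i).im = 0) :
    ∀ i, (p.derivative.coeff i).im = 0 := by
  intro i
  rw [Polynomial.coeff_derivative, Complex.mul_im, h]
  simp

theorem al_real {n : ℕ} {g : ℂ[X]} {c₀ : ℝ} {c : ℂ} (hg : Good n g c₀ c) :
    ∃ a : ℝ, 0 < a ∧ al g = (a : ℂ) := by
  refine ⟨(g.derivative.derivative.eval 1).re / 2, by linarith [hg.der2], ?_⟩
  have h := im_eval_one (im_derivative (im_derivative hg.real))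
  unfold al
  apply Complex.ext
  · simp
  · simp [h]

theorem ka_real {n : ℕ} {g : ℂ[X]} {c₀ : ℝ} {c : ℂ} (hg : Good n g c₀ c) :
    ∃ κ : ℝ, ka g = (κ : ℂ) := by
  obtain ⟨a, ha, hal⟩ := al_real hg
  have h := im_eval_one (im_derivative (im_derivative (im_derivative hg.real)))
  have h3 : g.derivative.derivative.derivative.eval 1 =
      ((g.derivative.derivative.derivative.eval 1).re : ℂ) := by
    apply Complex.ext
    · simp
    · simp [h]
  refine ⟨(a ^ 2 - (g.derivative.derivative.derivative.eval 1).re / 6) / a ^ 2, ?_⟩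
  unfold ka ga
  rw [hal, h3]
  push_cast
  simp

/-! ## The numbers `P` and `ℓ` -/

/-- the number `P = - k - i S` -/
noncomputable def PS (S : ℝ) (k : ℕ) : ℂ := -(k : ℂ) - Complex.I * S

/-- the number `ℓ = 2 π i / P` -/
noncomputable def ll (S : ℝ) (k : ℕ) : ℂ := 2 * Real.pi * Complex.I / PS S k

theorem PS_re (S : ℝ) (k : ℕ) : (PS S k).re = -k := by simp [PS]

theorem PS_im (S : ℝ) (k : ℕ) : (PS S k).im = -S := by simp [PS]

theorem PS_ne {S : ℝ} (hS : 0 < S) (k : ℕ) : PS S k ≠ 0 := by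
  intro h
  have h1 := congrArg Complex.im h
  rw [PS_im] at h1
  simp at h1
  linarith

theorem ll_ne {S : ℝ} (hS : 0 < S) (k : ℕ) : ll S k ≠ 0 := by
  unfold ll
  have h1 : (2 * Real.pi * Complex.I : ℂ) ≠ 0 := Complex.two_pi_I_ne_zero
  exact div_ne_zero h1 (PS_ne hS k)

theorem le_norm_PS (S : ℝ) (k : ℕ) : (k : ℝ) ≤ ‖PS S k‖ := by
  have h := Complex.abs_re_le_norm (PS S k)
  rw [PS_re, abs_neg, abs_of_nonneg (Nat.cast_nonneg k)] at h
  exact h

theorem norm_ll_le {S : ℝ} {k : ℕ} (hk : 0 < k) : ‖ll S k‖ ≤ 2 * Real.pi / k := by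
  have hk' : (0 : ℝ) < k := by exact_mod_cast hk
  unfold ll
  rw [norm_div]
  have h1 : ‖(2 * Real.pi * Complex.I : ℂ)‖ = 2 * Real.pi := by
    rw [norm_mul, norm_mul, Complex.norm_I, mul_one, Complex.norm_real, Real.norm_eq_abs,
      abs_of_pos Real.pi_pos]
    simp
  rw [h1]
  exact div_le_div_of_nonneg_left (by positivity) hk' (le_norm_PS S k)

theorem ll_eq {S : ℝ} (hS : 0 < S) (k : ℕ) : ll S k =
    ((-(2 * Real.pi * S / ((k : ℝ) ^ 2 + S ^ 2)) : ℝ) : ℂ) +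
      ((-(2 * Real.pi * k / ((k : ℝ) ^ 2 + S ^ 2)) : ℝ) : ℂ) * Complex.I := by
  unfold ll
  rw [div_eq_iff (PS_ne hS k)]
  have hn : (k : ℝ) ^ 2 + S ^ 2 ≠ 0 := by positivity
  have h1 : (2 * Real.pi * Complex.I : ℂ) = ((2 * Real.pi : ℝ) : ℂ) * Complex.I := by push_cast; ring
  rw [h1]
  apply Complex.ext
  · simp only [Complex.mul_re, Complex.add_re, Complex.add_im, Complex.mul_im, Complex.ofReal_re,
      Complex.ofReal_im, Complex.I_re, Complex.I_im, PS_re, PS_im]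
    field_simp
    ring
  · simp only [Complex.mul_re, Complex.add_re, Complex.add_im, Complex.mul_im, Complex.ofReal_re,
      Complex.ofReal_im, Complex.I_re, Complex.I_im, PS_re, PS_im]
    field_simp
    ring

theorem ll_mul_re {S : ℝ} (hS : 0 < S) (k : ℕ) (Z : ℂ) :
    (ll S k * Z).re = 2 * Real.pi * (k * Z.im - S * Z.re) / ((k : ℝ) ^ 2 + S ^ 2) := by
  rw [ll_eq hS]
  simp only [Complex.mul_re, Complex.add_re, Complex.add_im, Complex.mul_im, Complex.ofReal_re,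
      Complex.ofReal_im, Complex.I_re, Complex.I_im]
  ring

theorem ll_mul_im {S : ℝ} (hS : 0 < S) (k : ℕ) (Z : ℂ) :
    (ll S k * Z).im = -(2 * Real.pi * (k * Z.re + S * Z.im) / ((k : ℝ) ^ 2 + S ^ 2)) := by
  rw [ll_eq hS]
  simp only [Complex.mul_re, Complex.add_re, Complex.add_im, Complex.mul_im, Complex.ofReal_re,
      Complex.ofReal_im, Complex.I_re, Complex.I_im]
  ring

/-- `exp (ℓ (Z + Q)) = exp (ℓ Z)`, `Q = - P` -/
theorem exp_sub_PS {S : ℝ} (hS : 0 < S) (k : ℕ) (Z : ℂ) :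
    Complex.exp (ll S k * (Z - PS S k)) = Complex.exp (ll S k * Z) := by
  have h : ll S k * (Z - PS S k) = ll S k * Z - 2 * Real.pi * Complex.I := by
    have h1 : ll S k * PS S k = 2 * Real.pi * Complex.I := div_mul_cancel₀ _ (PS_ne hS k)
    rw [mul_sub, h1]
  rw [h, Complex.exp_sub, Complex.exp_two_pi_mul_I, div_one]

/-- `exp (ℓ (Z - Q)) = exp (ℓ Z)`, `Q = - P` -/
theorem exp_add_PS {S : ℝ} (hS : 0 < S) (k : ℕ) (Z : ℂ) :
    Complex.exp (ll S k * (Z + PS S k)) = Complex.exp (ll S k * Z) := by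
  have h := exp_sub_PS hS k (Z + PS S k)
  rw [add_sub_cancel_right] at h
  exact h.symm

/-! ## The region -/

/-- the conditions on `k` -/
structure KC (S Y : ℝ) (k : ℕ) : Prop where
  h1 : 4 * Real.pi * (Y + S) ≤ k
  h2 : 2 * (S * Y) < k
  h3 : S ≤ k
  h0 : 1 ≤ k

theorem KC.pos {S Y : ℝ} {k : ℕ} (h : KC S Y k) : (1 : ℝ) ≤ k := by exact_mod_cast h.h0

/-- bounds for the real part -/
theorem re_bd {S Y M : ℝ} {k : ℕ} (hS : 0 < S) (_hY : 0 ≤ Y) (hM : 1 ≤ M) (hk : KC S Y k) {Z : ℂ}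
    (hx : M ≤ Z.re) (hx' : Z.re ≤ k - M) (hy : |Z.im| ≤ Y) :
    (ll S k * Z).re ≤ 1 / 2 ∧ -(1 / 2) ≤ (ll S k * Z).re := by
  have hk' := hk.pos
  have hn : 0 < (k : ℝ) ^ 2 + S ^ 2 := by positivity
  rw [ll_mul_re hS]
  obtain ⟨h1, h2⟩ := abs_le.1 hy
  have hpi := Real.pi_pos
  have hx0 : 0 ≤ Z.re := by linarith
  have hbig : 2 * Real.pi * (k * Y + S * k) ≤ 1 / 2 * ((k : ℝ) ^ 2 + S ^ 2) := by
    have h3 := mul_le_mul_of_nonneg_left hk.h1 (by linarith : (0 : ℝ) ≤ k)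
    nlinarith [sq_nonneg S]
  constructor
  · rw [div_le_iff₀ hn]
    have h4 : k * Z.im - S * Z.re ≤ k * Y + S * k := by
      have h5 : (k : ℝ) * Z.im ≤ k * Y := mul_le_mul_of_nonneg_left h2 (by linarith)
      have h6 : 0 ≤ S * Z.re := by positivity
      have h7 : 0 ≤ S * k := by positivity
      linarith
    have h8 := mul_le_mul_of_nonneg_left h4 (by positivity : 0 ≤ 2 * Real.pi)
    linarith
  · rw [le_div_iff₀ hn]
    have h4 : -(k * Y + S * k) ≤ k * Z.im - S * Z.re := by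
      have h5 : (k : ℝ) * (-Y) ≤ k * Z.im := mul_le_mul_of_nonneg_left h1 (by linarith)
      have h6 : S * Z.re ≤ S * k := mul_le_mul_of_nonneg_left (by linarith) hS.le
      linarith
    have h8 := mul_le_mul_of_nonneg_left h4 (by positivity : 0 ≤ 2 * Real.pi)
    linarith

theorem exp_half_le : Real.exp (1 / 2) ≤ 2 := by
  have h1 : Real.exp (1 / 2) ^ 2 = Real.exp 1 := by
    rw [← Real.exp_nat_mul]
    norm_num
  have h2 := Real.exp_one_lt_d9
  have h3 := Real.exp_pos (1 / 2)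
  nlinarith

theorem norm_om_le {S Y M : ℝ} {k : ℕ} (hS : 0 < S) (hY : 0 ≤ Y) (hM : 1 ≤ M) (hk : KC S Y k)
    {Z : ℂ} (hx : M ≤ Z.re) (hx' : Z.re ≤ k - M) (hy : |Z.im| ≤ Y) :
    ‖Complex.exp (ll S k * Z)‖ ≤ 2 := by
  rw [Complex.norm_exp]
  exact (Real.exp_le_exp.2 (re_bd hS hY hM hk hx hx' hy).1).trans exp_half_le

theorem le_norm_om {S Y M : ℝ} {k : ℕ} (hS : 0 < S) (hY : 0 ≤ Y) (hM : 1 ≤ M) (hk : KC S Y k)
    {Z : ℂ} (hx : M ≤ Z.re) (hx' : Z.re ≤ k - M) (hy : |Z.im| ≤ Y) :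
    1 / 2 ≤ ‖Complex.exp (ll S k * Z)‖ := by
  rw [Complex.norm_exp]
  refine le_trans ?_ (Real.exp_le_exp.2 (re_bd hS hY hM hk hx hx' hy).2)
  have h := inv_anti₀ (Real.exp_pos _) exp_half_le
  rw [Real.exp_neg]
  linarith

/-- the argument of `ω` -/
theorem im_bd {S Y M : ℝ} {k : ℕ} (hS : 0 < S) (hM : 1 ≤ M) (hk : KC S Y k)
    {Z : ℂ} (hx : M ≤ Z.re) (hx' : Z.re ≤ k - M) (hy : |Z.im| ≤ Y) :
    Z.re / (2 * k) ≤ 2 * ((k * Z.re + S * Z.im) / ((k : ℝ) ^ 2 + S ^ 2)) ∧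
      (k - Z.re) / (2 * k) ≤ 2 * (1 - (k * Z.re + S * Z.im) / ((k : ℝ) ^ 2 + S ^ 2)) := by
  have hk' := hk.pos
  have hk0 : (0 : ℝ) < k := by linarith
  have hn : 0 < (k : ℝ) ^ 2 + S ^ 2 := by positivity
  obtain ⟨h1, h2⟩ := abs_le.1 hy
  have h3 : S * Z.im ≤ S * Y := mul_le_mul_of_nonneg_left h2 hS.le
  have h4 : -(S * Y) ≤ S * Z.im := by
    have := mul_le_mul_of_nonneg_left h1 hS.le
    linarith
  have h5 := hk.h2
  have hn2 : (k : ℝ) ^ 2 + S ^ 2 ≤ 2 * k ^ 2 := by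
    have := hk.h3
    nlinarith
  have hkx : (k : ℝ) ≤ k * Z.re := by nlinarith
  have hkx' : (k : ℝ) ≤ k * (k - Z.re) := by nlinarith
  constructor
  · rw [← mul_div_assoc, div_le_div_iff₀ (by positivity) hn]
    have h6 : k * Z.re ≤ 2 * (k * Z.re + S * Z.im) := by linarith
    have h7 : Z.re * ((k : ℝ) ^ 2 + S ^ 2) ≤ Z.re * (2 * k ^ 2) :=
      mul_le_mul_of_nonneg_left hn2 (by linarith)
    have h8 := mul_le_mul_of_nonneg_right h6 (by positivity : 0 ≤ 2 * (k : ℝ))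
    linarith
  · have h9 : 2 * (1 - (k * Z.re + S * Z.im) / ((k : ℝ) ^ 2 + S ^ 2)) =
        2 * ((k : ℝ) ^ 2 + S ^ 2 - (k * Z.re + S * Z.im)) / ((k : ℝ) ^ 2 + S ^ 2) := by
      field_simp
    rw [h9, div_le_div_iff₀ (by positivity) hn]
    have h6 : k * (k - Z.re) ≤ 2 * ((k : ℝ) ^ 2 + S ^ 2 - (k * Z.re + S * Z.im)) := by
      nlinarith [sq_nonneg S]
    have h7 : (k - Z.re) * ((k : ℝ) ^ 2 + S ^ 2) ≤ (k - Z.re) * (2 * k ^ 2) :=
      mul_le_mul_of_nonneg_left hn2 (by linarith)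
    have h8 := mul_le_mul_of_nonneg_right h6 (by positivity : 0 ≤ 2 * (k : ℝ))
    linarith

theorem om_slit {S Y M : ℝ} {k : ℕ} (hS : 0 < S) (hM : 1 ≤ M) (hk : KC S Y k)
    {Z : ℂ} (hx : M ≤ Z.re) (hx' : Z.re ≤ k - M) (hy : |Z.im| ≤ Y) :
    1 - Complex.exp (ll S k * Z) ∈ Complex.slitPlane := by
  obtain ⟨h1, h2⟩ := im_bd hS hM hk hx hx' hy
  have hk' := hk.pos
  have hk0 : (0 : ℝ) < k := by linarith
  have h3 : 0 < Z.re / (2 * k) := by
    have : 0 < Z.re := by linarith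
    positivity
  have h4 : 0 < (k - Z.re) / (2 * k) := by
    have : 0 < k - Z.re := by linarith
    positivity
  set q : ℝ := (k * Z.re + S * Z.im) / ((k : ℝ) ^ 2 + S ^ 2) with hq
  have hq0 : 0 < q := by linarith
  have hq1 : q < 1 := by linarith
  have him : (ll S k * Z).im = -(2 * Real.pi * q) := by
    rw [ll_mul_im hS, hq]
    ring
  rw [Complex.mem_slitPlane_iff]
  by_cases hs : Real.sin (2 * Real.pi * q) = 0
  · left
    have h5 : 2 * Real.pi * q = Real.pi := by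
      rw [Real.sin_eq_zero_iff] at hs
      obtain ⟨j, hj⟩ := hs
      have hpi := Real.pi_pos
      have h6 : (j : ℝ) = 2 * q := by
        have : (j : ℝ) * Real.pi = 2 * q * Real.pi := by rw [hj]; ring
        exact mul_right_cancel₀ hpi.ne' this
      have h7 : (0 : ℝ) < j := by rw [h6]; linarith
      have h8 : (j : ℝ) < 2 := by rw [h6]; linarith
      have h9 : j = 1 := by
        have h10 : 0 < j := by exact_mod_cast h7
        have h11 : j < 2 := by exact_mod_cast h8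
        omega
      rw [← hj, h9]
      simp
    rw [Complex.sub_re, Complex.exp_re, him, h5, Real.cos_neg, Real.cos_pi, Complex.one_re]
    have := Real.exp_pos (ll S k * Z).re
    linarith
  · right
    rw [Complex.sub_im, Complex.exp_im, him, Real.sin_neg]
    simp
    exact hs

/-- the lower bound for `1 - ω` -/
theorem le_norm_one_sub {S Y M : ℝ} {k : ℕ} (hS : 0 < S) (hY : 0 ≤ Y) (hM : 1 ≤ M)
    (hk : KC S Y k) {Z : ℂ} (hx : M ≤ Z.re) (hx' : Z.re ≤ k - M) (hy : |Z.im| ≤ Y) {d : ℝ}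
    (hd : d ≤ Z.re) (hd' : d ≤ k - Z.re) :
    d / (2 * k) ≤ ‖1 - Complex.exp (ll S k * Z)‖ := by
  obtain ⟨h1, h2⟩ := im_bd hS hM hk hx hx' hy
  have hk' := hk.pos
  have hk0 : (0 : ℝ) < k := by linarith
  set q : ℝ := (k * Z.re + S * Z.im) / ((k : ℝ) ^ 2 + S ^ 2) with hq
  have h3 : 0 < Z.re / (2 * k) := by
    have : 0 < Z.re := by linarith
    positivity
  have h4 : 0 < (k - Z.re) / (2 * k) := by
    have : 0 < k - Z.re := by linarith
    positivity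
  have hq0 : 0 < q := by linarith
  have hq1 : q < 1 := by linarith
  have hpi := Real.pi_pos
  have h5 : d / (2 * k) ≤ Real.sin (Real.pi * q) := by
    rcases le_total q (1 / 2) with hc | hc
    · have h6 := Real.mul_le_sin (by positivity : 0 ≤ Real.pi * q) (by nlinarith)
      have h7 : 2 / Real.pi * (Real.pi * q) = 2 * q := by field_simp
      have h8 : d / (2 * k) ≤ Z.re / (2 * k) := by gcongr
      linarith
    · have h6 := Real.mul_le_sin (by nlinarith : 0 ≤ Real.pi * (1 - q)) (by nlinarith)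
      have h7 : 2 / Real.pi * (Real.pi * (1 - q)) = 2 * (1 - q) := by field_simp
      have h8 : d / (2 * k) ≤ (k - Z.re) / (2 * k) := by gcongr
      have h9 : Real.sin (Real.pi * (1 - q)) = Real.sin (Real.pi * q) := by
        rw [mul_sub, mul_one, Real.sin_pi_sub]
      linarith
  have him : (ll S k * Z).im = -(2 * (Real.pi * q)) := by
    rw [ll_mul_im hS, hq]
    ring
  set r : ℝ := Real.exp (ll S k * Z).re with hr
  have hr1 : 1 / 2 ≤ r := by
    have := le_norm_om hS hY hM hk hx hx' hy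
    rw [Complex.norm_exp] at this
    exact this
  have h10 : ‖1 - Complex.exp (ll S k * Z)‖ ^ 2 = (1 - r) ^ 2 + 4 * r * Real.sin (Real.pi * q) ^ 2 := by
    rw [← Complex.normSq_eq_norm_sq, Complex.normSq_apply, Complex.sub_re, Complex.sub_im,
      Complex.exp_re, Complex.exp_im, him, Real.cos_neg, Real.sin_neg, Real.cos_two_mul,
      Real.sin_two_mul, ← hr]
    have h11 := Real.sin_sq_add_cos_sq (Real.pi * q)
    simp only [Complex.one_re, Complex.one_im]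
    have h12 : Real.cos (Real.pi * q) ^ 2 = 1 - Real.sin (Real.pi * q) ^ 2 := by linarith
    have h13 : Real.cos (Real.pi * q) ^ 4 = (1 - Real.sin (Real.pi * q) ^ 2) ^ 2 := by
      rw [← h12]; ring
    ring_nf
    rw [h12, h13]
    ring
  have h14 : Real.sin (Real.pi * q) ^ 2 ≤ ‖1 - Complex.exp (ll S k * Z)‖ ^ 2 := by
    rw [h10]
    nlinarith [sq_nonneg (1 - r), sq_nonneg (Real.sin (Real.pi * q))]
  have h15 := abs_le_of_sq_le_sq' h14 (norm_nonneg _)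
  exact h5.trans h15.2

/-- the upper bound for `1 - ω` -/
theorem norm_one_sub_le {a : ℂ} (h : ‖Complex.exp a‖ ≤ 2) : ‖1 - Complex.exp a‖ ≤ 3 * ‖a‖ := by
  rw [norm_sub_rev]
  rcases le_total ‖a‖ 1 with h1 | h1
  · have := Complex.norm_exp_sub_one_le h1
    have h2 := norm_nonneg a
    linarith
  · have := norm_sub_le (Complex.exp a) 1
    rw [norm_one] at this
    linarith

theorem dist_lattice {S : ℝ} {k : ℕ} {Z : ℂ} {d : ℝ} (hd : d ≤ Z.re) (hd' : d ≤ k - Z.re) (j : ℤ) :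
    d ≤ ‖Z - j * PS S k‖ := by
  refine le_trans ?_ (Complex.abs_re_le_norm _)
  have h : (Z - j * PS S k).re = Z.re + j * k := by
    rw [Complex.sub_re, Complex.mul_re, PS_re, PS_im]
    simp
  rw [h]
  rcases le_or_gt 0 j with hj | hj
  · have h1 : (0 : ℝ) ≤ j := by exact_mod_cast hj
    have h2 : (0 : ℝ) ≤ j * k := by positivity
    exact hd.trans ((by linarith : Z.re ≤ Z.re + j * k).trans (le_abs_self _))
  · have h1 : (j : ℝ) ≤ -1 := by exact_mod_cast (by omega : j ≤ -1)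
    have h2 : (j : ℝ) * k ≤ -1 * k := mul_le_mul_of_nonneg_right h1 (Nat.cast_nonneg k)
    refine hd'.trans (le_trans ?_ (neg_le_abs _))
    linarith

end LAVaux

namespace LAVaux

theorem quot_bd {a : ℂ} (ha : a ≠ 0) (h1 : ‖a‖ ≤ 1) :
    ‖((Complex.exp a - 1) / a) ^ 2 - 1‖ ≤ 3 * ‖a‖ := by
  set r := (Complex.exp a - 1) / a - 1 with hr0
  have hr : ‖r‖ ≤ ‖a‖ := by
    have h : r = (Complex.exp a - 1 - a) / a := by
      rw [hr0]
      field_simp
    rw [h, norm_div, div_le_iff₀ (norm_pos_iff.2 ha), ← sq]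
    exact Complex.norm_exp_sub_one_sub_id_le h1
  have h2 : ((Complex.exp a - 1) / a) ^ 2 - 1 = r * (2 + r) := by
    rw [hr0]
    ring
  rw [h2, norm_mul]
  have h3 : ‖2 + r‖ ≤ 3 := by
    refine (norm_add_le _ _).trans ?_
    have : ‖(2 : ℂ)‖ = 2 := by simp
    linarith
  have := mul_le_mul hr h3 (norm_nonneg _) (norm_nonneg _)
  linarith

theorem KP_eq (g : ℂ[X]) (S : ℝ) (k : ℕ) :
    KP g (PS S k) = ka g * ((Complex.exp (ll S k) - 1) / ll S k) ^ 2 := by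
  have h : KP g (PS S k) = ga g * (Complex.exp (ll S k) - 1) ^ 2 / (al g ^ 2 * (ll S k) ^ 2) := rfl
  rw [h, ka, div_pow, div_mul_div_comm]

/-- `κ_P → κ₀` with a rate -/
theorem KP_sub_ka (g : ℂ[X]) {S : ℝ} (hS : 0 < S) {k : ℕ} (hk : 2 * Real.pi ≤ k) :
    ‖KP g (PS S k) - ka g‖ ≤ ‖ka g‖ * (6 * Real.pi / k) := by
  have hpi := Real.pi_pos
  have hk0 : (0 : ℝ) < k := by linarith
  have hk1 : 0 < k := by exact_mod_cast hk0
  have h1 : ‖ll S k‖ ≤ 2 * Real.pi / k := norm_ll_le hk1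
  have h2 : ‖ll S k‖ ≤ 1 := h1.trans (by rw [div_le_one hk0]; exact hk)
  rw [KP_eq]
  have h3 : ka g * ((Complex.exp (ll S k) - 1) / ll S k) ^ 2 - ka g =
      ka g * (((Complex.exp (ll S k) - 1) / ll S k) ^ 2 - 1) := by ring
  rw [h3, norm_mul]
  apply mul_le_mul_of_nonneg_left _ (norm_nonneg _)
  have h4 := quot_bd (ll_ne hS k) h2
  have h5 : 6 * Real.pi / k = 3 * (2 * Real.pi / k) := by ring
  rw [h5]
  linarith

/-- the function with `WW Z = Z - κ_P u` -/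
noncomputable def uu (S : ℝ) (k : ℕ) (Z : ℂ) : ℂ :=
  Complex.log (1 - Complex.exp (ll S k * Z)) + Complex.exp (ll S k * Z)

theorem WW_eq (g : ℂ[X]) (S : ℝ) (k : ℕ) (Z : ℂ) :
    WW g (PS S k) Z = Z - KP g (PS S k) * uu S k Z := rfl

/-- all conditions on `k` -/
structure KD (g : ℂ[X]) (S Y kb : ℝ) (k : ℕ) : Prop where
  kc : KC S Y k
  n1 : ‖KP g (PS S k)‖ ≤ kb
  n2 : |(KP g (PS S k)).im| * (2 * (Real.log (2 * k) + 4)) ≤ 1

theorem tendsto_aux (c : ℝ) :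
    Tendsto (fun k : ℕ => c * (6 * Real.pi / k) * (2 * (Real.log (2 * k) + 4))) atTop (𝓝 0) := by
  have h1 : Tendsto (fun x : ℝ => Real.log x / x) atTop (𝓝 0) := by
    have := Real.isLittleO_log_id_atTop.tendsto_div_nhds_zero
    exact this
  have h2 : Tendsto (fun k : ℕ => (k : ℝ)) atTop atTop := tendsto_natCast_atTop_atTop
  have h3 : Tendsto (fun k : ℕ => Real.log k / k) atTop (𝓝 0) := h1.comp h2
  have h4 : Tendsto (fun k : ℕ => (1 : ℝ) / k) atTop (𝓝 0) := tendsto_one_div_atTop_nhds_zero_nat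
  have h5 : Tendsto (fun k : ℕ => 12 * Real.pi * c * (Real.log k / k) +
      12 * Real.pi * c * (Real.log 2 + 4) * ((1 : ℝ) / k)) atTop (𝓝 0) := by
    have := (h3.const_mul (12 * Real.pi * c)).add (h4.const_mul (12 * Real.pi * c * (Real.log 2 + 4)))
    simpa using this
  refine h5.congr' ?_
  filter_upwards [eventually_gt_atTop 0] with k hk
  have hk' : (k : ℝ) ≠ 0 := by exact_mod_cast hk.ne'
  rw [Real.log_mul two_ne_zero hk']
  field_simp
  ring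

theorem eventually_KD {n : ℕ} {g : ℂ[X]} {c₀ : ℝ} {c : ℂ} (hg : Good n g c₀ c) {S : ℝ} (hS : 0 < S)
    (Y : ℝ) : ∀ᶠ k : ℕ in atTop, KD g S Y (‖ka g‖ + 1) k := by
  obtain ⟨κ, hκ⟩ := ka_real hg
  have hT : Tendsto (fun k : ℕ => (k : ℝ)) atTop atTop := tendsto_natCast_atTop_atTop
  filter_upwards [hT.eventually_ge_atTop (4 * Real.pi * (Y + S)), hT.eventually_gt_atTop (2 * (S * Y)),
    hT.eventually_ge_atTop S, eventually_ge_atTop 1, hT.eventually_ge_atTop (2 * Real.pi),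
    hT.eventually_ge_atTop (‖ka g‖ * (6 * Real.pi)),
    (tendsto_aux ‖ka g‖).eventually (eventually_le_nhds (zero_lt_one))] with k h1 h2 h3 h4 h5 h6 h7
  have hk1 : (1 : ℝ) ≤ k := by exact_mod_cast h4
  have hd := KP_sub_ka g hS h5
  refine ⟨⟨h1, h2, h3, h4⟩, ?_, ?_⟩
  · have h8 : ‖ka g‖ * (6 * Real.pi / k) ≤ 1 := by
      rw [← mul_div_assoc, div_le_one (by linarith)]
      exact h6
    have h9 : ‖KP g (PS S k)‖ ≤ ‖ka g‖ + ‖KP g (PS S k) - ka g‖ := by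
      have := norm_add_le (ka g) (KP g (PS S k) - ka g)
      simpa using this
    linarith
  · refine le_trans ?_ h7
    apply mul_le_mul_of_nonneg_right
    · have h10 : (KP g (PS S k)).im = (KP g (PS S k) - ka g).im := by
        rw [Complex.sub_im, hκ, Complex.ofReal_im, sub_zero]
      rw [h10]
      exact (Complex.abs_im_le_norm _).trans hd
    · have : 0 ≤ Real.log (2 * k) := Real.log_nonneg (by linarith)
      linarith

/-- the region in which the orbit is followed -/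
structure Rg (M Y : ℝ) (k : ℕ) (Z : ℂ) : Prop where
  x : M ≤ Z.re
  x' : Z.re ≤ k - M
  y : |Z.im| ≤ Y

theorem Rg.segment {M Y : ℝ} {k : ℕ} {Z Z' : ℂ} (h : Rg M Y k Z) (h' : Rg M Y k Z') {t : ℝ}
    (ht : 0 ≤ t) (ht' : t ≤ 1) : Rg M Y k (Z + t * (Z' - Z)) := by
  have h1 : (Z + t * (Z' - Z)).re = (1 - t) * Z.re + t * Z'.re := by
    simp
    ring
  have h2 : (Z + t * (Z' - Z)).im = (1 - t) * Z.im + t * Z'.im := by
    simp
    ring
  have ht1 : 0 ≤ 1 - t := by linarith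
  refine ⟨?_, ?_, ?_⟩
  · rw [h1]
    have := mul_le_mul_of_nonneg_left h.x ht1
    have := mul_le_mul_of_nonneg_left h'.x ht
    linarith
  · rw [h1]
    have := mul_le_mul_of_nonneg_left h.x' ht1
    have := mul_le_mul_of_nonneg_left h'.x' ht
    linarith
  · rw [h2]
    obtain ⟨a1, a2⟩ := abs_le.1 h.y
    obtain ⟨b1, b2⟩ := abs_le.1 h'.y
    rw [abs_le]
    have := mul_le_mul_of_nonneg_left a1 ht1
    have := mul_le_mul_of_nonneg_left a2 ht1
    have := mul_le_mul_of_nonneg_left b1 ht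
    have := mul_le_mul_of_nonneg_left b2 ht
    constructor <;> linarith

theorem im_uu {S Y M : ℝ} {k : ℕ} (hS : 0 < S) (hY : 0 ≤ Y) (hM : 1 ≤ M) (hk : KC S Y k) {Z : ℂ}
    (hZ : Rg M Y k Z) : |(uu S k Z).im| ≤ Real.pi + 2 := by
  have h1 := norm_om_le hS hY hM hk hZ.x hZ.x' hZ.y
  have h2 := Complex.abs_im_le_norm (Complex.exp (ll S k * Z))
  have h3 : |(Complex.log (1 - Complex.exp (ll S k * Z))).im| ≤ Real.pi := by
    rw [Complex.log_im]
    exact Complex.abs_arg_le_pi _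
  unfold uu
  rw [Complex.add_im]
  refine (abs_add_le _ _).trans ?_
  linarith

theorem log_bd {S Y M : ℝ} {k : ℕ} (hS : 0 < S) (hY : 0 ≤ Y) (hM : 1 ≤ M) (hk : KC S Y k) {Z : ℂ}
    (hZ : Rg M Y k Z) : 1 / (2 * (k : ℝ)) ≤ ‖1 - Complex.exp (ll S k * Z)‖ ∧
      ‖1 - Complex.exp (ll S k * Z)‖ ≤ 3 := by
  refine ⟨?_, ?_⟩
  · apply le_norm_one_sub hS hY hM hk hZ.x hZ.x' hZ.y
    · linarith [hZ.x]
    · linarith [hZ.x']
  · have h1 := norm_om_le hS hY hM hk hZ.x hZ.x' hZ.y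
    have := norm_sub_le 1 (Complex.exp (ll S k * Z))
    rw [norm_one] at this
    linarith

theorem re_uu {S Y M : ℝ} {k : ℕ} (hS : 0 < S) (hY : 0 ≤ Y) (hM : 1 ≤ M) (hk : KC S Y k) {Z : ℂ}
    (hZ : Rg M Y k Z) : |(uu S k Z).re| ≤ Real.log (2 * k) + 4 := by
  have hk1 := hk.pos
  have h1 := norm_om_le hS hY hM hk hZ.x hZ.x' hZ.y
  have h2 := Complex.abs_re_le_norm (Complex.exp (ll S k * Z))
  obtain ⟨h3, h4⟩ := log_bd hS hY hM hk hZ
  have h5 : |(Complex.log (1 - Complex.exp (ll S k * Z))).re| ≤ Real.log (2 * k) + 2 := by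
    rw [Complex.log_re, abs_le]
    have hp : 0 < ‖1 - Complex.exp (ll S k * Z)‖ := lt_of_lt_of_le (by positivity) h3
    have h6 := Real.log_le_log (by positivity) h3
    have h7 := Real.log_le_log hp h4
    rw [one_div, Real.log_inv] at h6
    have h8 : Real.log 3 ≤ 2 := by
      have := Real.log_le_sub_one_of_pos (by norm_num : (0 : ℝ) < 3)
      linarith
    have h9 : 0 ≤ Real.log (2 * k) := Real.log_nonneg (by linarith)
    constructor <;> linarith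
  unfold uu
  rw [Complex.add_re]
  refine (abs_add_le _ _).trans ?_
  linarith

/-- the imaginary part of the correction is bounded -/
theorem im_corr {g : ℂ[X]} {S Y M kb : ℝ} {k : ℕ} (hS : 0 < S) (hY : 0 ≤ Y) (hM : 1 ≤ M)
    (hk : KD g S Y kb k) {Z Z₀ : ℂ} (hZ : Rg M Y k Z) (hZ₀ : Rg M Y k Z₀) :
    |(KP g (PS S k) * (uu S k Z - uu S k Z₀)).im| ≤ kb * (2 * Real.pi + 4) + 1 := by
  have h1 := im_uu hS hY hM hk.kc hZ
  have h2 := im_uu hS hY hM hk.kc hZ₀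
  have h3 := re_uu hS hY hM hk.kc hZ
  have h4 := re_uu hS hY hM hk.kc hZ₀
  rw [Complex.mul_im]
  refine (abs_add_le _ _).trans ?_
  rw [abs_mul, abs_mul]
  have h5 : |(KP g (PS S k)).re| ≤ kb := (Complex.abs_re_le_norm _).trans hk.n1
  have h6 : |(uu S k Z - uu S k Z₀).im| ≤ 2 * Real.pi + 4 := by
    rw [Complex.sub_im]
    refine (abs_sub _ _).trans ?_
    linarith
  have h7 : |(uu S k Z - uu S k Z₀).re| ≤ 2 * (Real.log (2 * k) + 4) := by
    rw [Complex.sub_re]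
    refine (abs_sub _ _).trans ?_
    linarith
  have h8 := mul_le_mul h5 h6 (abs_nonneg _) ((norm_nonneg _).trans hk.n1)
  have h9 := mul_le_mul_of_nonneg_left h7 (abs_nonneg (KP g (PS S k)).im)
  have h10 := hk.n2
  linarith

/-- the correction has logarithmic growth -/
theorem corr_bd {g : ℂ[X]} {S Y M kb X₀ : ℝ} {k : ℕ} (hS : 0 < S) (hY : 0 ≤ Y) (hM : 1 ≤ M)
    (hk : KD g S Y kb k) {Z Z₀ : ℂ} (hZ : Rg M Y k Z) (hZ₀ : Rg M Y k Z₀) (hX : ‖Z₀‖ ≤ X₀)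
    (hX1 : 1 ≤ X₀) :
    ‖KP g (PS S k) * (uu S k Z - uu S k Z₀)‖ ≤ kb * (Real.log (12 * Real.pi * (k - Z.re + Y + S)) +
      Real.log (12 * Real.pi * X₀) + 2 * Real.pi + 4) := by
  have hk1 := hk.kc.pos
  have hpi := Real.pi_pos
  have hpi3 := Real.pi_gt_three
  rw [norm_mul]
  apply mul_le_mul hk.n1 _ (norm_nonneg _) ((norm_nonneg _).trans hk.n1)
  have h1 := norm_om_le hS hY hM hk.kc hZ.x hZ.x' hZ.y
  have h1' := norm_om_le hS hY hM hk.kc hZ₀.x hZ₀.x' hZ₀.y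
  obtain ⟨h2, -⟩ := log_bd hS hY hM hk.kc hZ
  obtain ⟨h2', -⟩ := log_bd hS hY hM hk.kc hZ₀
  have hs : 1 ≤ k - Z.re := by linarith [hZ.x']
  have h3 : ‖1 - Complex.exp (ll S k * Z)‖ ≤ 6 * Real.pi * (k - Z.re + Y + S) / k := by
    rw [← exp_add_PS hS k Z] at h1 ⊢
    refine (norm_one_sub_le h1).trans ?_
    rw [norm_mul]
    have h4 : ‖Z + PS S k‖ ≤ k - Z.re + Y + S := by
      refine (Complex.norm_le_abs_re_add_abs_im _).trans ?_
      rw [Complex.add_re, Complex.add_im, PS_re, PS_im]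
      have h5 : |Z.re + -(k : ℝ)| = k - Z.re := by
        rw [abs_of_nonpos (by linarith)]
        ring
      have h6 : |Z.im + -S| ≤ Y + S := by
        refine (abs_add_le _ _).trans ?_
        rw [abs_neg, abs_of_pos hS]
        linarith [hZ.y]
      rw [h5]
      linarith
    have h5 := mul_le_mul (norm_ll_le (S := S) (by exact_mod_cast hk.kc.h0 : 0 < k)) h4 (norm_nonneg _)
      (by positivity)
    have h6 : 6 * Real.pi * (k - Z.re + Y + S) / k = 3 * (2 * Real.pi / k * (k - Z.re + Y + S)) := by ring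
    rw [h6]
    linarith
  have h3' : ‖1 - Complex.exp (ll S k * Z₀)‖ ≤ 6 * Real.pi * X₀ / k := by
    refine (norm_one_sub_le h1').trans ?_
    rw [norm_mul]
    have h5 := mul_le_mul (norm_ll_le (S := S) (by exact_mod_cast hk.kc.h0 : 0 < k)) hX (norm_nonneg _)
      (by positivity)
    have h6 : 6 * Real.pi * X₀ / k = 3 * (2 * Real.pi / k * X₀) := by ring
    rw [h6]
    linarith
  have hk0 : (0 : ℝ) < k := by linarith
  have hp : 0 < ‖1 - Complex.exp (ll S k * Z)‖ := lt_of_lt_of_le (by positivity) h2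
  have hp' : 0 < ‖1 - Complex.exp (ll S k * Z₀)‖ := lt_of_lt_of_le (by positivity) h2'
  have hA : 0 ≤ Real.log (12 * Real.pi * (k - Z.re + Y + S)) := by
    apply Real.log_nonneg
    nlinarith
  have hB : 0 ≤ Real.log (12 * Real.pi * X₀) := by
    apply Real.log_nonneg
    nlinarith
  have hsp : 0 < k - Z.re + Y + S := by linarith
  have hXp : 0 < X₀ := by linarith
  have e1 : Real.log ‖1 - Complex.exp (ll S k * Z)‖ - Real.log ‖1 - Complex.exp (ll S k * Z₀)‖ ≤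
      Real.log (12 * Real.pi * (k - Z.re + Y + S)) := by
    have a1 := Real.log_le_log hp h3
    have a2 := Real.log_le_log (by positivity) h2'
    have a3 : Real.log (12 * Real.pi * (k - Z.re + Y + S)) =
        Real.log (6 * Real.pi * (k - Z.re + Y + S) / k) - Real.log (1 / (2 * k)) := by
      rw [← Real.log_div (by positivity) (by positivity)]
      congr 1
      field_simp
      ring
    linarith
  have e2 : Real.log ‖1 - Complex.exp (ll S k * Z₀)‖ - Real.log ‖1 - Complex.exp (ll S k * Z)‖ ≤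
      Real.log (12 * Real.pi * X₀) := by
    have a1 := Real.log_le_log hp' h3'
    have a2 := Real.log_le_log (by positivity) h2
    have a3 : Real.log (12 * Real.pi * X₀) =
        Real.log (6 * Real.pi * X₀ / k) - Real.log (1 / (2 * k)) := by
      rw [← Real.log_div (by positivity) (by positivity)]
      congr 1
      field_simp
      ring
    linarith
  have e3 : ‖Complex.log (1 - Complex.exp (ll S k * Z)) - Complex.log (1 - Complex.exp (ll S k * Z₀))‖ ≤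
      Real.log (12 * Real.pi * (k - Z.re + Y + S)) + Real.log (12 * Real.pi * X₀) + 2 * Real.pi := by
    refine (Complex.norm_le_abs_re_add_abs_im _).trans ?_
    rw [Complex.sub_re, Complex.sub_im, Complex.log_re, Complex.log_re, Complex.log_im, Complex.log_im]
    have b1 : |Real.log ‖1 - Complex.exp (ll S k * Z)‖ - Real.log ‖1 - Complex.exp (ll S k * Z₀)‖| ≤
        Real.log (12 * Real.pi * (k - Z.re + Y + S)) + Real.log (12 * Real.pi * X₀) := by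
      rw [abs_le]
      constructor <;> linarith
    have b2 := abs_sub (1 - Complex.exp (ll S k * Z)).arg (1 - Complex.exp (ll S k * Z₀)).arg
    have b3 := Complex.abs_arg_le_pi (1 - Complex.exp (ll S k * Z))
    have b4 := Complex.abs_arg_le_pi (1 - Complex.exp (ll S k * Z₀))
    linarith
  have e4 : uu S k Z - uu S k Z₀ = (Complex.log (1 - Complex.exp (ll S k * Z)) -
      Complex.log (1 - Complex.exp (ll S k * Z₀))) +
      (Complex.exp (ll S k * Z) - Complex.exp (ll S k * Z₀)) := by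
    unfold uu
    ring
  rw [e4]
  refine (norm_add_le _ _).trans ?_
  have e5 := norm_sub_le (Complex.exp (ll S k * Z)) (Complex.exp (ll S k * Z₀))
  linarith

/-! ## The step -/

/-- the conclusion of `S_STP` for one map -/
def Stp (g : ℂ[X]) (R₁ C₁ S₁ : ℝ) : Prop := ∀ P : ℂ, S₁ ≤ ‖P‖ → ∀ Z : ℂ,
  ‖Complex.exp (2 * Real.pi * Complex.I / P * Z)‖ ≤ 30 →
    (∀ j : ℤ, R₁ ≤ ‖Z - j * P‖) → ∃ Z' : ℂ, VV g P Z ≠ 0 ∧ VV g P Z' ≠ 0 ∧
      pl g P (1 - (VV g P Z)⁻¹) = 1 - (VV g P Z')⁻¹ ∧ ‖Z' - Z - 1‖ ≤ 1 / 4 ∧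
      ∀ d : ℝ, 0 < d → (∀ j : ℤ, d ≤ ‖Z - j * P‖) → ‖Z' - Z - 1‖ ≤ C₁ * (1 / d + 1 / ‖P‖) ∧
        ((∀ t : ℝ, 0 ≤ t → t ≤ 1 → 1 - Complex.exp (2 * Real.pi * Complex.I / P * (Z + t * (Z' - Z))) ∈ Complex.slitPlane) →
          ‖WW g P Z' - WW g P Z - 1‖ ≤ C₁ * (1 / d ^ 2 + 1 / ‖P‖ ^ 2))

/-- the properties of the step function -/
structure Nx (g : ℂ[X]) (R₁ C₁ S : ℝ) (k : ℕ) (nx : ℂ → ℂ) : Prop where
  near : ∀ Z, ‖nx Z - Z - 1‖ ≤ 1 / 4
  ne : ∀ Z, ‖Complex.exp (ll S k * Z)‖ ≤ 30 → (∀ j : ℤ, R₁ ≤ ‖Z - j * PS S k‖) → VV g (PS S k) Z ≠ 0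
  step : ∀ Z, ‖Complex.exp (ll S k * Z)‖ ≤ 30 → (∀ j : ℤ, R₁ ≤ ‖Z - j * PS S k‖) →
    pl g (PS S k) (1 - (VV g (PS S k) Z)⁻¹) = 1 - (VV g (PS S k) (nx Z))⁻¹
  w : ∀ Z, ‖Complex.exp (ll S k * Z)‖ ≤ 30 → (∀ j : ℤ, R₁ ≤ ‖Z - j * PS S k‖) →
    ∀ d : ℝ, 0 < d → (∀ j : ℤ, d ≤ ‖Z - j * PS S k‖) →
    (∀ t : ℝ, 0 ≤ t → t ≤ 1 → 1 - Complex.exp (ll S k * (Z + t * (nx Z - Z))) ∈ Complex.slitPlane) →
      ‖WW g (PS S k) (nx Z) - WW g (PS S k) Z - 1‖ ≤ C₁ * (1 / d ^ 2 + 1 / ‖PS S k‖ ^ 2)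

theorem exists_nx {g : ℂ[X]} {R₁ C₁ S₁ S : ℝ} {k : ℕ} (H : Stp g R₁ C₁ S₁) (hk : S₁ ≤ ‖PS S k‖) :
    ∃ nx, Nx g R₁ C₁ S k nx := by
  have h : ∀ Z : ℂ, ∃ Z' : ℂ, ‖Z' - Z - 1‖ ≤ 1 / 4 ∧
      (‖Complex.exp (ll S k * Z)‖ ≤ 30 → (∀ j : ℤ, R₁ ≤ ‖Z - j * PS S k‖) →
        VV g (PS S k) Z ≠ 0 ∧ pl g (PS S k) (1 - (VV g (PS S k) Z)⁻¹) = 1 - (VV g (PS S k) Z')⁻¹ ∧
        ∀ d : ℝ, 0 < d → (∀ j : ℤ, d ≤ ‖Z - j * PS S k‖) →
        (∀ t : ℝ, 0 ≤ t → t ≤ 1 → 1 - Complex.exp (ll S k * (Z + t * (Z' - Z))) ∈ Complex.slitPlane) →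
          ‖WW g (PS S k) Z' - WW g (PS S k) Z - 1‖ ≤ C₁ * (1 / d ^ 2 + 1 / ‖PS S k‖ ^ 2)) := by
    intro Z
    by_cases hc : ‖Complex.exp (ll S k * Z)‖ ≤ 30 ∧ ∀ j : ℤ, R₁ ≤ ‖Z - j * PS S k‖
    · obtain ⟨Z', h1, -, h2, h3, h4⟩ := H (PS S k) hk Z hc.1 hc.2
      exact ⟨Z', h3, fun _ _ => ⟨h1, h2, fun d hd hd' ht => (h4 d hd hd').2 ht⟩⟩
    · refine ⟨Z + 1, ?_, fun a b => absurd ⟨a, b⟩ hc⟩
      have : Z + 1 - Z - 1 = 0 := by ring
      rw [this, norm_zero]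
      norm_num
  choose nx h1 h2 using h
  exact ⟨nx, h1, fun Z a b => (h2 Z a b).1, fun Z a b => (h2 Z a b).2.1, fun Z a b => (h2 Z a b).2.2⟩

theorem Nx.re_bd {g : ℂ[X]} {R₁ C₁ S : ℝ} {k : ℕ} {nx : ℂ → ℂ} (h : Nx g R₁ C₁ S k nx) (Z : ℂ) :
    Z.re + 3 / 4 ≤ (nx Z).re ∧ (nx Z).re ≤ Z.re + 5 / 4 ∧ |(nx Z).im| ≤ |Z.im| + 1 / 4 := by
  have h1 := h.near Z
  have h2 := (Complex.abs_re_le_norm _).trans h1
  have h3 := (Complex.abs_im_le_norm _).trans h1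
  rw [Complex.sub_re, Complex.sub_re, Complex.one_re, abs_le] at h2
  rw [Complex.sub_im, Complex.sub_im, Complex.one_im, sub_zero] at h3
  refine ⟨by linarith [h2.1], by linarith [h2.2], ?_⟩
  have h4 : (nx Z).im = Z.im + ((nx Z).im - Z.im) := by ring
  rw [h4]
  refine (abs_add_le _ _).trans ?_
  linarith

/-! ## The potential -/

/-- the potential -/
noncomputable def AA (k : ℕ) (x₀ x : ℝ) (i : ℕ) : ℝ :=
  4 / 3 * (1 / (x₀ - 3 / 8) - 1 / (x - 3 / 8)) + 4 / 3 * (1 / (k - x)) + i / (k : ℝ) ^ 2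

theorem tel1 {x x' : ℝ} (hx : 1 ≤ x) (h : x + 3 / 4 ≤ x') :
    1 / x ^ 2 ≤ 4 / 3 * (1 / (x - 3 / 8) - 1 / (x' - 3 / 8)) := by
  have h1 : 0 < x - 3 / 8 := by linarith
  have h2 : 0 < x + 3 / 8 := by linarith
  have h3 : 1 / (x' - 3 / 8) ≤ 1 / (x + 3 / 8) := one_div_le_one_div_of_le h2 (by linarith)
  have h4 : 1 / (x - 3 / 8) - 1 / (x + 3 / 8) = (3 / 4) / (x ^ 2 - 9 / 64) := by
    have h5 : x ^ 2 - 9 / 64 = (x - 3 / 8) * (x + 3 / 8) := by ring
    rw [h5, div_sub_div _ _ h1.ne' h2.ne']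
    ring
  have h6 : 1 / x ^ 2 ≤ 1 / (x ^ 2 - 9 / 64) := one_div_le_one_div_of_le (by nlinarith) (by linarith)
  have h7 : 4 / 3 * ((3 / 4) / (x ^ 2 - 9 / 64)) = 1 / (x ^ 2 - 9 / 64) := by ring
  linarith

theorem tel2 {s s' : ℝ} (hs : 0 < s') (h : s' + 3 / 4 ≤ s) :
    1 / s ^ 2 ≤ 4 / 3 * (1 / s' - 1 / s) := by
  have hs1 : 0 < s := by linarith
  have h1 : 4 / 3 * (1 / s' - 1 / s) = 4 / 3 * (s - s') / (s' * s) := by
    field_simp
  rw [h1, div_le_div_iff₀ (by positivity) (by positivity)]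
  nlinarith [mul_pos hs hs1]

theorem AA_step {k : ℕ} {x₀ x x' d : ℝ} (i : ℕ) (hx : 1 ≤ x) (h : x + 3 / 4 ≤ x') (hk : x' < k)
    (hd : d = min x (k - x)) : AA k x₀ x i + (1 / d ^ 2 + 1 / (k : ℝ) ^ 2) ≤ AA k x₀ x' (i + 1) := by
  have h1 := tel1 hx h
  have h2 := tel2 (s := k - x) (s' := k - x') (by linarith) (by linarith)
  have h3 : 1 / d ^ 2 ≤ 1 / x ^ 2 + 1 / (k - x) ^ 2 := by
    rw [hd]
    rcases min_choice x (k - x) with h | h
    · rw [h]
      have : 0 ≤ 1 / (k - x) ^ 2 := by positivity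
      linarith
    · rw [h]
      have : 0 ≤ 1 / x ^ 2 := by positivity
      linarith
  unfold AA
  push_cast
  rw [add_div]
  linarith

theorem AA_le {k : ℕ} {x₀ x M : ℝ} {i : ℕ} (hM : 9 / 8 ≤ M) (hx₀ : M ≤ x₀) (hx : x₀ ≤ x)
    (hx' : x ≤ k - M) (hi : (i : ℝ) ≤ 4 / 3 * (x - x₀)) (hk : 2 * M ≤ k) : AA k x₀ x i ≤ 5 / M := by
  have hM0 : 0 < M := by linarith
  have hk0 : (0 : ℝ) < k := by linarith
  have h1 : 1 / (x₀ - 3 / 8) ≤ 1 / (2 / 3 * M) := one_div_le_one_div_of_le (by positivity) (by linarith)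
  have h2 : 0 ≤ 1 / (x - 3 / 8) := by
    have : 0 < x - 3 / 8 := by linarith
    positivity
  have h3 : 1 / (k - x) ≤ 1 / M := one_div_le_one_div_of_le hM0 (by linarith)
  have h4 : i / (k : ℝ) ^ 2 ≤ 4 / 3 * (1 / (2 * M)) := by
    have h5 : (i : ℝ) ≤ 4 / 3 * k := by linarith
    have h6 : i / (k : ℝ) ^ 2 ≤ 4 / 3 * k / (k : ℝ) ^ 2 := by gcongr
    have h7 : 4 / 3 * k / (k : ℝ) ^ 2 = 4 / 3 * (1 / k) := by
      field_simp
    have h8 : 1 / (k : ℝ) ≤ 1 / (2 * M) := one_div_le_one_div_of_le (by positivity) hk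
    linarith
  unfold AA
  have e1 : 1 / (2 / 3 * M) = 3 / 2 * (1 / M) := by
    field_simp
  have e2 : 1 / (2 * M) = 1 / 2 * (1 / M) := by
    field_simp
  have e3 : 5 / M = 5 * (1 / M) := by ring
  have e4 : 0 < 1 / M := by positivity
  rw [e3]
  rw [e1] at h1
  rw [e2] at h4
  linarith

/-! ## The orbit -/

/-- the conditions of the main induction -/
structure Cnd (g : ℂ[X]) (R₁ C₁ S M X₀ Y₁ kb : ℝ) (k : ℕ) : Prop where
  hS : 0 < S
  kd : KD g S (Y₁ + 1) kb k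
  M1 : 9 / 8 ≤ M
  MR : R₁ ≤ M
  MC : 5 * C₁ ≤ M
  C0 : 0 < C₁
  X : M ≤ X₀
  Y : Y₁ = X₀ + kb * (2 * Real.pi + 4) + 2
  k2 : 2 * M ≤ k
  kX : X₀ ≤ k - M
  kb0 : 0 ≤ kb

theorem Cnd.Y0 {g : ℂ[X]} {R₁ C₁ S M X₀ Y₁ kb : ℝ} {k : ℕ} (h : Cnd g R₁ C₁ S M X₀ Y₁ kb k) :
    0 ≤ Y₁ + 1 ∧ X₀ ≤ Y₁ := by
  have h1 := h.kb0
  have h2 := Real.pi_pos
  have h3 : 0 ≤ kb * (2 * Real.pi + 4) := by positivity
  have h4 := h.Y
  have h5 := h.X
  have h6 := h.M1
  constructor <;> linarith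

theorem orbit_bd {g : ℂ[X]} {R₁ C₁ S : ℝ} {k : ℕ} {nx : ℂ → ℂ} (h : Nx g R₁ C₁ S k nx) (Z : ℂ) (i : ℕ) :
    Z.re + 3 / 4 * i ≤ (nx^[i] Z).re := by
  induction i with
  | zero => simp
  | succ i ih =>
    rw [Function.iterate_succ_apply']
    have := (h.re_bd (nx^[i] Z)).1
    push_cast
    linarith

theorem core_k {g : ℂ[X]} {R₁ C₁ S M X₀ Y₁ kb : ℝ} {k : ℕ} {nx : ℂ → ℂ}
    (hn : Nx g R₁ C₁ S k nx) (hc : Cnd g R₁ C₁ S M X₀ Y₁ kb k) {Z₀ : ℂ} (h0 : M ≤ Z₀.re)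
    (h0' : ‖Z₀‖ ≤ X₀) : ∀ i : ℕ, (nx^[i] Z₀).re ≤ k - M → |(nx^[i] Z₀).im| ≤ Y₁ ∧
      ‖WW g (PS S k) (nx^[i] Z₀) - WW g (PS S k) Z₀ - i‖ ≤ C₁ * AA k Z₀.re (nx^[i] Z₀).re i ∧
      (pl g (PS S k))^[i] (1 - (VV g (PS S k) Z₀)⁻¹) = 1 - (VV g (PS S k) (nx^[i] Z₀))⁻¹ := by
  obtain ⟨hY0, hXY⟩ := hc.Y0
  have hM1 := hc.M1
  have him0 : |Z₀.im| ≤ X₀ := (Complex.abs_im_le_norm Z₀).trans h0'
  have hre0 : Z₀.re ≤ X₀ := (le_abs_self _).trans ((Complex.abs_re_le_norm Z₀).trans h0')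
  have hR0 : Rg M (Y₁ + 1) k Z₀ := ⟨h0, hre0.trans hc.kX, by linarith⟩
  intro i
  induction i with
  | zero =>
    intro _
    refine ⟨by simpa using him0.trans hXY, ?_, rfl⟩
    have h1 : WW g (PS S k) (nx^[0] Z₀) - WW g (PS S k) Z₀ - ((0 : ℕ) : ℂ) = 0 := by simp
    rw [h1, norm_zero]
    apply mul_nonneg hc.C0.le
    unfold AA
    have h2 : 0 ≤ 4 / 3 * (1 / (k - Z₀.re)) := by
      have : 0 < k - Z₀.re := by linarith [hc.kX]
      positivity
    simpa using h2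
  | succ i ih =>
    intro hi
    have hit : nx^[i + 1] Z₀ = nx (nx^[i] Z₀) := Function.iterate_succ_apply' nx i Z₀
    obtain ⟨a1, a2, a3⟩ := hn.re_bd (nx^[i] Z₀)
    rw [hit] at hi ⊢
    set W := nx^[i] Z₀ with hW
    have hx : W.re ≤ k - M := by linarith
    obtain ⟨b1, b2, b3⟩ := ih hx
    have b4 : Z₀.re + 3 / 4 * i ≤ W.re := orbit_bd hn Z₀ i
    have hi0 : (0 : ℝ) ≤ i := Nat.cast_nonneg i
    have hRW : Rg M (Y₁ + 1) k W := ⟨by linarith, hx, by linarith⟩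
    have hRW' : Rg M (Y₁ + 1) k (nx W) := ⟨by linarith, hi, by linarith⟩
    have hom : ‖Complex.exp (ll S k * W)‖ ≤ 30 :=
      (norm_om_le hc.hS hY0 (by linarith : (1 : ℝ) ≤ M) hc.kd.kc hRW.x hRW.x' hRW.y).trans (by norm_num)
    have hlat : ∀ j : ℤ, R₁ ≤ ‖W - j * PS S k‖ := fun j =>
      dist_lattice (by linarith [hRW.x, hc.MR]) (by linarith [hRW.x', hc.MR]) j
    have hstep := hn.step W hom hlat
    set d := min W.re (k - W.re) with hd
    have hdp : 0 < d := lt_min (by linarith) (by linarith)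
    have hdl : ∀ j : ℤ, d ≤ ‖W - j * PS S k‖ := fun j =>
      dist_lattice (min_le_left _ _) (min_le_right _ _) j
    have hw := hn.w W hom hlat d hdp hdl (fun t ht ht' => by
      have := hRW.segment hRW' ht ht'
      exact om_slit hc.hS (by linarith : (1 : ℝ) ≤ M) hc.kd.kc this.x this.x' this.y)
    have hAs := AA_step (k := k) (x₀ := Z₀.re) (x := W.re) (x' := (nx W).re) i (by linarith) a1
      (by linarith) hd
    have hk1 := hc.kd.kc.pos
    have hP : 1 / ‖PS S k‖ ^ 2 ≤ 1 / (k : ℝ) ^ 2 := by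
      apply one_div_le_one_div_of_le (by positivity)
      exact pow_le_pow_left₀ (by linarith) (le_norm_PS S k) 2
    have hw2 : ‖WW g (PS S k) (nx W) - WW g (PS S k) Z₀ - ((i + 1 : ℕ) : ℂ)‖ ≤
        C₁ * AA k Z₀.re (nx W).re (i + 1) := by
      have e1 : WW g (PS S k) (nx W) - WW g (PS S k) Z₀ - ((i + 1 : ℕ) : ℂ) =
          (WW g (PS S k) (nx W) - WW g (PS S k) W - 1) + (WW g (PS S k) W - WW g (PS S k) Z₀ - i) := by
        push_cast
        ring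
      rw [e1]
      refine (norm_add_le _ _).trans ?_
      have e2 : C₁ * (1 / d ^ 2 + 1 / ‖PS S k‖ ^ 2) ≤ C₁ * (1 / d ^ 2 + 1 / (k : ℝ) ^ 2) :=
        mul_le_mul_of_nonneg_left (by linarith) hc.C0.le
      have e3 := mul_le_mul_of_nonneg_left hAs hc.C0.le
      linarith
    refine ⟨?_, hw2, ?_⟩
    · have hAl : AA k Z₀.re (nx W).re (i + 1) ≤ 5 / M := by
        apply AA_le hM1 h0 (by linarith) hi _ hc.k2
        push_cast
        linarith
      have hCA : C₁ * AA k Z₀.re (nx W).re (i + 1) ≤ 1 := by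
        have e4 := mul_le_mul_of_nonneg_left hAl hc.C0.le
        have e5 : C₁ * (5 / M) ≤ 1 := by
          rw [← mul_div_assoc, div_le_one (by linarith)]
          linarith [hc.MC]
        linarith
      have e6 : (nx W).im = Z₀.im + ((WW g (PS S k) (nx W) - WW g (PS S k) Z₀ - ((i + 1 : ℕ) : ℂ)).im +
          (KP g (PS S k) * (uu S k (nx W) - uu S k Z₀)).im) := by
        rw [WW_eq, WW_eq, mul_sub]
        simp only [Complex.sub_im, Complex.natCast_im]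
        ring
      rw [e6]
      have e7 := im_corr hc.hS hY0 (by linarith : (1 : ℝ) ≤ M) hc.kd hRW' hR0
      have e8 : |(WW g (PS S k) (nx W) - WW g (PS S k) Z₀ - ((i + 1 : ℕ) : ℂ)).im| ≤ 1 :=
        (Complex.abs_im_le_norm _).trans (hw2.trans hCA)
      refine (abs_add_le _ _).trans ?_
      have e9 := abs_add_le (WW g (PS S k) (nx W) - WW g (PS S k) Z₀ - ((i + 1 : ℕ) : ℂ)).im
          (KP g (PS S k) * (uu S k (nx W) - uu S k Z₀)).im
      have := hc.Y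
      linarith
    · rw [Function.iterate_succ_apply', b3, hstep]

/-- the real part of the orbit -/
theorem star {g : ℂ[X]} {R₁ C₁ S M X₀ Y₁ kb : ℝ} {k : ℕ} {nx : ℂ → ℂ}
    (hn : Nx g R₁ C₁ S k nx) (hc : Cnd g R₁ C₁ S M X₀ Y₁ kb k) {Z₀ : ℂ} (h0 : M ≤ Z₀.re)
    (h0' : ‖Z₀‖ ≤ X₀) (i : ℕ) (hi : (nx^[i] Z₀).re ≤ k - M) :
    ‖WW g (PS S k) (nx^[i] Z₀) - WW g (PS S k) Z₀ - i‖ ≤ 5 * C₁ / M ∧
    |(nx^[i] Z₀).re - Z₀.re - i| ≤ 1 + kb * (Real.log (12 * Real.pi * (k - (nx^[i] Z₀).re + (Y₁ + 1) + S)) +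
      Real.log (12 * Real.pi * X₀) + 2 * Real.pi + 4) := by
  obtain ⟨hY0, hXY⟩ := hc.Y0
  have hM1 := hc.M1
  have him0 : |Z₀.im| ≤ X₀ := (Complex.abs_im_le_norm Z₀).trans h0'
  have hre0 : Z₀.re ≤ X₀ := (le_abs_self _).trans ((Complex.abs_re_le_norm Z₀).trans h0')
  have hR0 : Rg M (Y₁ + 1) k Z₀ := ⟨h0, hre0.trans hc.kX, by linarith⟩
  obtain ⟨b1, b2, -⟩ := core_k hn hc h0 h0' i hi
  have b4 : Z₀.re + 3 / 4 * i ≤ (nx^[i] Z₀).re := orbit_bd hn Z₀ i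
  set W := nx^[i] Z₀ with hW
  have hi0 : (0 : ℝ) ≤ i := Nat.cast_nonneg i
  have hRW : Rg M (Y₁ + 1) k W := ⟨by linarith, hi, by linarith⟩
  have hAl : AA k Z₀.re W.re i ≤ 5 / M := AA_le hM1 h0 (by linarith) hi (by linarith) hc.k2
  have h1 : ‖WW g (PS S k) W - WW g (PS S k) Z₀ - i‖ ≤ 5 * C₁ / M := by
    refine b2.trans ?_
    have e4 := mul_le_mul_of_nonneg_left hAl hc.C0.le
    have e5 : C₁ * (5 / M) = 5 * C₁ / M := by ring
    linarith
  refine ⟨h1, ?_⟩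
  have h2 : 5 * C₁ / M ≤ 1 := by
    rw [div_le_one (by linarith)]
    exact hc.MC
  have e6 : W.re - Z₀.re - i = (WW g (PS S k) W - WW g (PS S k) Z₀ - (i : ℂ)).re +
      (KP g (PS S k) * (uu S k W - uu S k Z₀)).re := by
    rw [WW_eq, WW_eq, mul_sub]
    simp only [Complex.sub_re, Complex.natCast_re]
    ring
  rw [e6]
  have e7 := corr_bd hc.hS hY0 (by linarith : (1 : ℝ) ≤ M) hc.kd hRW hR0 h0' (by linarith [hc.X])
  refine (abs_add_le _ _).trans ?_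
  have e8 : |(WW g (PS S k) W - WW g (PS S k) Z₀ - (i : ℂ)).re| ≤ 1 :=
    (Complex.abs_re_le_norm _).trans (h1.trans h2)
  have e9 := (Complex.abs_re_le_norm (KP g (PS S k) * (uu S k W - uu S k Z₀))).trans e7
  linarith

/-- the bound at the first violation -/
noncomputable def B2 (S M X₀ Y₁ kb : ℝ) : ℝ :=
  1 + kb * (Real.log (12 * Real.pi * (M + 5 / 4 + (Y₁ + 1) + S)) +
      Real.log (12 * Real.pi * X₀) + 2 * Real.pi + 4)

theorem stays {g : ℂ[X]} {R₁ C₁ S M X₀ Y₁ kb : ℝ} {k : ℕ} {nx : ℂ → ℂ}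
    (hn : Nx g R₁ C₁ S k nx) (hc : Cnd g R₁ C₁ S M X₀ Y₁ kb k) {Z₀ : ℂ} (h0 : M ≤ Z₀.re)
    (h0' : ‖Z₀‖ ≤ X₀) {m₂ : ℕ} (hm : M + X₀ + B2 S M X₀ Y₁ kb + 1 ≤ m₂) (hk : m₂ ≤ k) :
    ∀ i : ℕ, i ≤ k - m₂ → (nx^[i] Z₀).re ≤ k - M := by
  have hM1 := hc.M1
  have hre0 : Z₀.re ≤ X₀ := (le_abs_self _).trans ((Complex.abs_re_le_norm Z₀).trans h0')
  have hS := hc.hS
  obtain ⟨hY0, hXY⟩ := hc.Y0
  intro i
  induction i with
  | zero =>
    intro _
    exact hre0.trans hc.kX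
  | succ i ih =>
    intro hi
    have h1 := ih (by omega)
    by_contra hcon
    push Not at hcon
    rw [Function.iterate_succ_apply'] at hcon
    obtain ⟨a1, a2, -⟩ := hn.re_bd (nx^[i] Z₀)
    obtain ⟨-, h2⟩ := star hn hc h0 h0' i h1
    set W := nx^[i] Z₀ with hW
    have h3 : Real.log (12 * Real.pi * (k - W.re + (Y₁ + 1) + S)) ≤
        Real.log (12 * Real.pi * (M + 5 / 4 + (Y₁ + 1) + S)) := by
      have hpi := Real.pi_pos
      apply Real.log_le_log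
      · have : 0 < k - W.re + (Y₁ + 1) + S := by linarith
        positivity
      · apply mul_le_mul_of_nonneg_left _ (by positivity)
        linarith
    have h4 : |W.re - Z₀.re - i| ≤ B2 S M X₀ Y₁ kb := by
      refine h2.trans ?_
      unfold B2
      have := mul_le_mul_of_nonneg_left h3 hc.kb0
      linarith
    have h5 := (abs_le.1 h4).2
    have h6 : ((i + 1 : ℕ) : ℝ) ≤ k - m₂ := by
      have h7 : i + 1 + m₂ ≤ k := by omega
      have h8 : ((i + 1 + m₂ : ℕ) : ℝ) ≤ k := by exact_mod_cast h7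
      push_cast at h8 ⊢
      linarith
    push_cast at h6
    linarith

theorem s_bd {kb Y m L s : ℝ} (hkb : 0 < kb) (hs : 0 < s + Y)
    (h : s ≤ m + 1 + kb * (Real.log (12 * Real.pi * (s + Y)) + L)) :
    s ≤ 2 * (m + 1) + Y + 2 * kb * (Real.log (24 * Real.pi * kb) + L) := by
  have hpi := Real.pi_pos
  have ha : 0 < 24 * Real.pi * kb := by positivity
  have ht : 0 < 12 * Real.pi * (s + Y) := by positivity
  have h1 := Real.log_le_sub_one_of_pos (div_pos ht ha)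
  rw [Real.log_div ht.ne' ha.ne'] at h1
  have h2 : 12 * Real.pi * (s + Y) / (24 * Real.pi * kb) = (s + Y) / (2 * kb) := by
    field_simp
    ring
  rw [h2] at h1
  have h3 := mul_le_mul_of_nonneg_left h1 hkb.le
  have h4 : kb * ((s + Y) / (2 * kb) - 1) = (s + Y) / 2 - kb := by
    field_simp
  rw [h4] at h3
  nlinarith

/-- PIECE A: through the gate -/
theorem core {n : ℕ} {g : ℂ[X]} {c₀ : ℝ} {c : ℂ} (hg : Good n g c₀ c) {R₁ C₁ S₁ : ℝ} (hC : 0 < C₁)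
    (H : Stp g R₁ C₁ S₁) {S : ℝ} (hS : 0 < S) {M X₀ : ℝ} (hM1 : 9 / 8 ≤ M) (hMR : R₁ ≤ M)
    (hMC : 5 * C₁ ≤ M) (hX : M ≤ X₀) : ∃ m₀ : ℕ, ∀ m₂ : ℕ, m₀ ≤ m₂ → ∃ B : ℝ, ∀ᶠ k : ℕ in atTop,
      ∀ Z₀ : ℂ, M ≤ Z₀.re → ‖Z₀‖ ≤ X₀ → ∃ Z' : ℂ, Z'.re ≤ -M ∧ ‖Z'‖ ≤ B ∧
        (pl g (PS S k))^[k - m₂] (1 - (VV g (PS S k) Z₀)⁻¹) = 1 - (VV g (PS S k) (Z' - PS S k))⁻¹ ∧
        ‖WW g (PS S k) (Z' - PS S k) - WW g (PS S k) Z₀ - ((k : ℂ) - m₂)‖ ≤ 5 * C₁ / M := by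
  have hpi := Real.pi_pos
  set kb : ℝ := ‖ka g‖ + 1 with hkb
  have hkb0 : 0 < kb := by positivity
  set Y₁ : ℝ := X₀ + kb * (2 * Real.pi + 4) + 2 with hY₁
  have hX0 : 0 < X₀ := by linarith
  have hY₁0 : 0 ≤ Y₁ := by positivity
  refine ⟨⌈M + X₀ + B2 S M X₀ Y₁ kb + 1⌉₊, fun m₂ hm₂ => ?_⟩
  have hm : M + X₀ + B2 S M X₀ Y₁ kb + 1 ≤ m₂ := (Nat.le_ceil _).trans (by exact_mod_cast hm₂)
  set L : ℝ := Real.log (12 * Real.pi * X₀) + 2 * Real.pi + 4 with hL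
  refine ⟨2 * (m₂ + 1) + (Y₁ + 1 + S) + 2 * kb * (Real.log (24 * Real.pi * kb) + L) + (Y₁ + 1 + S), ?_⟩
  have hT : Tendsto (fun k : ℕ => (k : ℝ)) atTop atTop := tendsto_natCast_atTop_atTop
  filter_upwards [eventually_KD hg hS (Y₁ + 1), hT.eventually_ge_atTop (2 * M),
    hT.eventually_ge_atTop (X₀ + M), eventually_ge_atTop m₂, hT.eventually_ge_atTop S₁]
    with k h1 h2 h3 h4 h5
  intro Z₀ h0 h0'
  obtain ⟨nx, hn⟩ := exists_nx (k := k) (S := S) H (h5.trans (le_norm_PS S k))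
  have hc : Cnd g R₁ C₁ S M X₀ Y₁ kb k := ⟨hS, h1, hM1, hMR, hMC, hC, hX, rfl, h2, by linarith, hkb0.le⟩
  obtain ⟨hY0, hXY⟩ := hc.Y0
  have hx := stays hn hc h0 h0' hm h4 (k - m₂) le_rfl
  obtain ⟨b1, -, b3⟩ := core_k hn hc h0 h0' (k - m₂) hx
  obtain ⟨d1, d2⟩ := star hn hc h0 h0' (k - m₂) hx
  set W := nx^[k - m₂] Z₀ with hW
  have hcast : ((k - m₂ : ℕ) : ℝ) = k - m₂ := by
    rw [Nat.cast_sub h4]
  have hcastC : ((k - m₂ : ℕ) : ℂ) = (k : ℂ) - m₂ := by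
    rw [Nat.cast_sub h4]
  rw [hcast] at d2
  rw [hcastC] at d1
  refine ⟨W + PS S k, ?_, ?_, ?_, ?_⟩
  · rw [Complex.add_re, PS_re]
    linarith
  · have e1 : ‖W + PS S k‖ ≤ k - W.re + (Y₁ + 1 + S) := by
      refine (Complex.norm_le_abs_re_add_abs_im _).trans ?_
      rw [Complex.add_re, Complex.add_im, PS_re, PS_im]
      have h5 : |W.re + -(k : ℝ)| = k - W.re := by
        rw [abs_of_nonpos (by linarith)]
        ring
      have h6 : |W.im + -S| ≤ Y₁ + 1 + S := by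
        refine (abs_add_le _ _).trans ?_
        rw [abs_neg, abs_of_pos hS]
        linarith
      rw [h5]
      linarith
    have e2 : k - W.re ≤ m₂ + 1 + kb * (Real.log (12 * Real.pi * (k - W.re + (Y₁ + 1 + S))) + L) := by
      have e3 := (abs_le.1 d2).1
      have e4 : k - W.re + (Y₁ + 1 + S) = k - W.re + (Y₁ + 1) + S := by ring
      rw [e4, hL]
      have : 0 < Z₀.re := by linarith
      linarith
    have e5 := s_bd hkb0 (by linarith) e2
    linarith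
  · rw [add_sub_cancel_right]
    exact b3
  · rw [add_sub_cancel_right]
    exact d1

end LAVaux

namespace LAVaux

/-! ## Limits -/

theorem tendsto_ll (S : ℝ) : Tendsto (fun k : ℕ => ll S k) atTop (𝓝 0) := by
  have h4 : Tendsto (fun k : ℕ => 2 * Real.pi * ((1 : ℝ) / k)) atTop (𝓝 0) := by
    simpa using (tendsto_one_div_atTop_nhds_zero_nat (𝕜 := ℝ)).const_mul (2 * Real.pi)
  apply squeeze_zero_norm' _ h4
  filter_upwards [eventually_gt_atTop 0] with k hk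
  have := norm_ll_le (S := S) hk
  have h5 : 2 * Real.pi * ((1 : ℝ) / k) = 2 * Real.pi / k := by ring
  rw [h5]
  exact this

variable {ι : Type} {f : Filter ι} {k : ι → ℕ} {S : ℝ} {g : ℂ[X]}

theorem tendsto_ll' (S : ℝ) (hk : Tendsto k f atTop) : Tendsto (fun q => ll S (k q)) f (𝓝 0) :=
  (tendsto_ll S).comp hk

theorem tendsto_exp_ll (S : ℝ) (hk : Tendsto k f atTop) :
    Tendsto (fun q => Complex.exp (ll S (k q))) f (𝓝 1) := by
  have h := (Complex.continuous_exp.tendsto 0).comp (tendsto_ll' S hk)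
  rw [Complex.exp_zero] at h
  exact h

theorem tendsto_pl (hk : Tendsto k f atTop) {y : ι → ℂ} {y₀ : ℂ} (hy : Tendsto y f (𝓝 y₀)) :
    Tendsto (fun q => pl g (PS S (k q)) (y q)) f (𝓝 (g.eval y₀)) := by
  have h1 := tendsto_exp_ll S hk
  have h2 : Tendsto (fun q => g.eval (y q)) f (𝓝 (g.eval y₀)) := (g.continuous.tendsto y₀).comp hy
  have h3 := (h1.mul (h2.sub_const 1)).const_add 1
  have h4 : (1 : ℂ) + 1 * (g.eval y₀ - 1) = g.eval y₀ := by ring
  rw [h4] at h3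
  exact h3

theorem tendsto_pl_iter (hk : Tendsto k f atTop) (m : ℕ) {y : ι → ℂ} {y₀ : ℂ}
    (hy : Tendsto y f (𝓝 y₀)) : Tendsto (fun q => (pl g (PS S (k q)))^[m] (y q)) f
      (𝓝 ((fun x : ℂ => g.eval x)^[m] y₀)) := by
  induction m with
  | zero => exact hy
  | succ m ih =>
    simp only [Function.iterate_succ_apply']
    exact tendsto_pl hk ih

theorem tendsto_dslope_exp : Tendsto (dslope Complex.exp 0) (𝓝 0) (𝓝 1) := by
  have h := (continuousAt_dslope_same.2 Complex.differentiableAt_exp : ContinuousAt (dslope Complex.exp 0) 0)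
  have h1 : dslope Complex.exp 0 0 = 1 := by
    rw [dslope_same, Complex.deriv_exp, Complex.exp_zero]
  have h2 := h.tendsto
  rw [h1] at h2
  exact h2

theorem exp_sub_one_eq (a : ℂ) : Complex.exp a - 1 = a * dslope Complex.exp 0 a := by
  have h := sub_smul_dslope Complex.exp 0 a
  rw [Complex.exp_zero, sub_zero, smul_eq_mul] at h
  exact h.symm

theorem tendsto_quot (hS : 0 < S) (hk : Tendsto k f atTop) {Z : ι → ℂ} {Z₀ : ℂ}
    (hZ : Tendsto Z f (𝓝 Z₀)) :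
    Tendsto (fun q => (Complex.exp (ll S (k q) * Z q) - 1) / ll S (k q)) f (𝓝 Z₀) := by
  have h1 : Tendsto (fun q => ll S (k q) * Z q) f (𝓝 0) := by
    simpa using (tendsto_ll' S hk).mul hZ
  have h2 := hZ.mul (tendsto_dslope_exp.comp h1)
  rw [mul_one] at h2
  refine h2.congr (fun q => ?_)
  rw [exp_sub_one_eq, Function.comp_apply]
  have := ll_ne hS (k q)
  field_simp

theorem tendsto_quot1 (hS : 0 < S) (hk : Tendsto k f atTop) :
    Tendsto (fun q => (Complex.exp (ll S (k q)) - 1) / ll S (k q)) f (𝓝 1) := by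
  have h := tendsto_quot hS hk (Z := fun _ => 1) tendsto_const_nhds
  simpa using h

theorem eventually_exp_ne (hS : 0 < S) (hk : Tendsto k f atTop) :
    ∀ᶠ q in f, Complex.exp (ll S (k q)) - 1 ≠ 0 := by
  filter_upwards [(tendsto_quot1 hS hk).eventually_ne one_ne_zero] with q hq
  intro h
  rw [h, zero_div] at hq
  exact hq rfl

theorem tendsto_KP (hS : 0 < S) (hk : Tendsto k f atTop) :
    Tendsto (fun q => KP g (PS S (k q))) f (𝓝 (ka g)) := by
  have h := ((tendsto_quot1 hS hk).pow 2).const_mul (ka g)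
  rw [one_pow, mul_one] at h
  refine h.congr (fun q => ?_)
  rw [KP_eq]

theorem tendsto_dslope_log : Tendsto (dslope Complex.log 1) (𝓝 1) (𝓝 1) := by
  have hd : HasDerivAt Complex.log (1 : ℂ)⁻¹ 1 := Complex.hasDerivAt_log Complex.one_mem_slitPlane
  have h := continuousAt_dslope_same.2 hd.differentiableAt
  have h1 : dslope Complex.log 1 1 = 1 := by
    rw [dslope_same, hd.deriv, inv_one]
  have h2 := h.tendsto
  rw [h1] at h2
  exact h2

theorem log_eq (a : ℂ) : Complex.log (1 - a) = -a * dslope Complex.log 1 (1 - a) := by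
  have h := sub_smul_dslope Complex.log 1 (1 - a)
  rw [Complex.log_one, sub_zero, smul_eq_mul] at h
  rw [← h]
  ring

/-- the start of the orbit -/
noncomputable def Zst (g : ℂ[X]) (S : ℝ) (k : ℕ) (v : ℂ) : ℂ :=
  -(ll S k)⁻¹ * Complex.log (1 - v * (Complex.exp (ll S k) - 1) / al g)

theorem tendsto_small (hS : 0 < S) (hk : Tendsto k f atTop) {v : ι → ℂ} {v₀ : ℂ}
    (hv : Tendsto v f (𝓝 v₀)) :
    Tendsto (fun q => v q * (Complex.exp (ll S (k q)) - 1) / al g) f (𝓝 0) := by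
  have h1 := ((hv.mul ((tendsto_exp_ll S hk).sub_const 1))).div_const (al g)
  simpa using h1

theorem tendsto_Zst (hS : 0 < S) (hk : Tendsto k f atTop) {v : ι → ℂ} {v₀ : ℂ}
    (hv : Tendsto v f (𝓝 v₀)) : Tendsto (fun q => Zst g S (k q) (v q)) f (𝓝 (v₀ / al g)) := by
  have h1 : Tendsto (fun q => 1 - v q * (Complex.exp (ll S (k q)) - 1) / al g) f (𝓝 1) := by
    simpa using (tendsto_small (g := g) hS hk hv).const_sub 1
  have h2 := ((hv.mul (tendsto_quot1 hS hk)).div_const (al g)).mul (tendsto_dslope_log.comp h1)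
  rw [mul_one, mul_one] at h2
  refine h2.congr (fun q => ?_)
  unfold Zst
  rw [log_eq, Function.comp_apply]
  have := ll_ne hS (k q)
  field_simp

theorem VV_Zst (hS : 0 < S) (hal : al g ≠ 0) {k : ℕ} {v : ℂ} (h1 : Complex.exp (ll S k) - 1 ≠ 0)
    (h2 : 1 - v * (Complex.exp (ll S k) - 1) / al g ≠ 0) : VV g (PS S k) (Zst g S k v) = v := by
  have e1 : VV g (PS S k) (Zst g S k v) = al g / (Complex.exp (ll S k) - 1) *
      (1 - Complex.exp (-(ll S k) * Zst g S k v)) := rfl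
  have hl := ll_ne hS k
  have e2 : -(ll S k) * Zst g S k v = Complex.log (1 - v * (Complex.exp (ll S k) - 1) / al g) := by
    unfold Zst
    field_simp
  rw [e1, e2, Complex.exp_log h2]
  field_simp
  ring

theorem tendsto_VV (hS : 0 < S) (hk : Tendsto k f atTop) {Z : ι → ℂ} {Z₀ : ℂ}
    (hZ : Tendsto Z f (𝓝 Z₀)) :
    Tendsto (fun q => VV g (PS S (k q)) (Z q - PS S (k q))) f (𝓝 (al g * Z₀)) := by
  have h1 := (tendsto_quot hS hk hZ.neg).neg
  rw [neg_neg] at h1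
  have h2 := ((tendsto_quot1 hS hk).inv₀ one_ne_zero).const_mul (al g)
  rw [inv_one, mul_one] at h2
  refine (h2.mul h1).congr (fun q => ?_)
  have e1 : VV g (PS S (k q)) (Z q - PS S (k q)) = al g / (Complex.exp (ll S (k q)) - 1) *
      (1 - Complex.exp (-(ll S (k q)) * (Z q - PS S (k q)))) := rfl
  have hl := ll_ne hS (k q)
  have e2 : Complex.exp (-(ll S (k q)) * (Z q - PS S (k q))) = Complex.exp (ll S (k q) * -Z q) := by
    have e3 : -(ll S (k q)) * (Z q - PS S (k q)) = ll S (k q) * (-Z q + PS S (k q)) := by ring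
    rw [e3, exp_add_PS hS]
  rw [e1, e2, inv_div]
  have e4 : al g * (ll S (k q) / (Complex.exp (ll S (k q)) - 1)) *
      -((Complex.exp (ll S (k q) * -Z q) - 1) / ll S (k q)) =
      al g / (Complex.exp (ll S (k q)) - 1) * (1 - Complex.exp (ll S (k q) * -Z q)) *
        (ll S (k q) * (ll S (k q))⁻¹) := by ring
  rw [e4, mul_inv_cancel₀ hl, mul_one]

/-! ## The logarithm -/

theorem tendsto_P0 (hS : 0 < S) :
    Tendsto (fun k : ℕ => ((‖PS S k‖ : ℝ) : ℂ) / PS S k) atTop (𝓝 (-1)) := by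
  rw [tendsto_iff_norm_sub_tendsto_zero]
  have h4 : Tendsto (fun k : ℕ => 2 * S * ((1 : ℝ) / k)) atTop (𝓝 0) := by
    simpa using (tendsto_one_div_atTop_nhds_zero_nat (𝕜 := ℝ)).const_mul (2 * S)
  apply squeeze_zero' (Eventually.of_forall fun k => norm_nonneg _) _ h4
  filter_upwards [eventually_gt_atTop 0] with k hk
  have hk' : (0 : ℝ) < k := by exact_mod_cast hk
  have hP := PS_ne hS k
  have e1 : ((‖PS S k‖ : ℝ) : ℂ) / PS S k - -1 = ((‖PS S k‖ : ℝ) + PS S k : ℂ) / PS S k := by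
    field_simp
    ring
  have h1 := le_norm_PS S k
  have h2 : ‖PS S k‖ ≤ k + S := by
    refine (Complex.norm_le_abs_re_add_abs_im _).trans ?_
    rw [PS_re, PS_im, abs_neg, abs_neg, abs_of_pos hS, abs_of_pos hk']
  have h3 : ‖((‖PS S k‖ : ℝ) + PS S k : ℂ)‖ ≤ 2 * S := by
    refine (Complex.norm_le_abs_re_add_abs_im _).trans ?_
    rw [Complex.add_re, Complex.add_im, PS_re, PS_im, Complex.ofReal_re, Complex.ofReal_im, zero_add,
      abs_neg, abs_of_pos hS, abs_of_nonneg (by linarith)]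
    linarith
  rw [e1, norm_div, mul_one_div]
  exact div_le_div₀ (by positivity) h3 hk' h1

theorem tendsto_P (hS : 0 < S) (hk : Tendsto k f atTop) :
    Tendsto (fun q => ll S (k q) / ((2 * Real.pi / ‖PS S (k q)‖ : ℝ) : ℂ)) f (𝓝 (-Complex.I)) := by
  have h1 := ((tendsto_P0 hS).comp hk).const_mul Complex.I
  rw [mul_neg, mul_one] at h1
  refine h1.congr (fun q => ?_)
  have hP := PS_ne hS (k q)
  have hP' : ((‖PS S (k q)‖ : ℝ) : ℂ) ≠ 0 := by exact_mod_cast (norm_pos_iff.2 hP).ne'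
  have hpi : (Real.pi : ℂ) ≠ 0 := by exact_mod_cast Real.pi_pos.ne'
  unfold ll
  rw [Function.comp_apply]
  push_cast
  field_simp

theorem tendsto_log (hS : 0 < S) (hk : Tendsto k f atTop) {Z : ι → ℂ} {Z₀ : ℂ}
    (hZ : Tendsto Z f (𝓝 Z₀)) (h0 : Z₀.re ≠ 0) :
    Tendsto (fun q => Complex.log (1 - Complex.exp (ll S (k q) * Z q)) -
      (Real.log (2 * Real.pi / ‖PS S (k q)‖) : ℂ)) f (𝓝 (Complex.log (Complex.I * Z₀))) := by
  have h1 : Tendsto (fun q => -(ll S (k q) / ((2 * Real.pi / ‖PS S (k q)‖ : ℝ) : ℂ)) *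
      ((Complex.exp (ll S (k q) * Z q) - 1) / ll S (k q))) f (𝓝 (Complex.I * Z₀)) := by
    have := (tendsto_P hS hk).neg.mul (tendsto_quot hS hk hZ)
    rwa [neg_neg] at this
  have hsl : Complex.I * Z₀ ∈ Complex.slitPlane := by
    rw [Complex.mem_slitPlane_iff]
    right
    simpa using h0
  have h2 := ((continuousAt_clog hsl).tendsto).comp h1
  refine h2.congr' ?_
  have hne : Complex.I * Z₀ ≠ 0 := Complex.slitPlane_ne_zero hsl
  filter_upwards [h1.eventually_ne hne] with q hq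
  have hP : 0 < ‖PS S (k q)‖ := norm_pos_iff.2 (PS_ne hS (k q))
  have hr : 0 < 2 * Real.pi / ‖PS S (k q)‖ := by
    have := Real.pi_pos
    positivity
  have hl := ll_ne hS (k q)
  have hrc : ((2 * Real.pi / ‖PS S (k q)‖ : ℝ) : ℂ) ≠ 0 := by exact_mod_cast hr.ne'
  set r : ℂ := ((2 * Real.pi / ‖PS S (k q)‖ : ℝ) : ℂ) with hr'
  have e1 : 1 - Complex.exp (ll S (k q) * Z q) = r * (-(ll S (k q) / r) *
      ((Complex.exp (ll S (k q) * Z q) - 1) / ll S (k q))) := by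
    field_simp
    ring
  rw [Function.comp_apply, e1, hr', Complex.log_ofReal_mul hr]
  · rw [add_sub_cancel_left]
  · exact hq

theorem log_I_mul {Z : ℂ} (h : 0 < Z.re) :
    Complex.log (Complex.I * Z) = Complex.log Z + Complex.I * Real.pi / 2 := by
  have hZ : Z ≠ 0 := by
    rintro rfl
    simp at h
  have h1 := (Complex.abs_arg_lt_pi_div_two_iff.2 (Or.inl h) : |Z.arg| < Real.pi / 2)
  obtain ⟨h2, h3⟩ := abs_lt.1 h1
  have hpi := Real.pi_pos
  rw [(Complex.log_mul_eq_add_log_iff Complex.I_ne_zero hZ).2, Complex.log_I]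
  · ring
  · rw [Complex.arg_I]
    constructor <;> linarith

theorem log_I_mul' {Z : ℂ} (h : Z.re < 0) :
    Complex.log (Complex.I * Z) = Complex.log (-Z) - Complex.I * Real.pi / 2 := by
  have h0 : 0 < (-Z).re := by
    rw [Complex.neg_re]
    linarith
  have hZ : -Z ≠ 0 := by
    intro h
    rw [h] at h0
    simp at h0
  have h1 := (Complex.abs_arg_lt_pi_div_two_iff.2 (Or.inl h0) : |(-Z).arg| < Real.pi / 2)
  obtain ⟨h2, h3⟩ := abs_lt.1 h1
  have hpi := Real.pi_pos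
  have e : Complex.I * Z = -Complex.I * -Z := by ring
  rw [e, (Complex.log_mul_eq_add_log_iff (neg_ne_zero.2 Complex.I_ne_zero) hZ).2, Complex.log_neg_I]
  · ring
  · rw [Complex.arg_neg_I]
    constructor <;> linarith

/-- the limit of the difference of the approximate Fatou coordinates -/
theorem tendsto_WW (hS : 0 < S) (hk : Tendsto k f atTop) {Z Z' : ι → ℂ} {Z₀ Z₁ : ℂ}
    (hZ : Tendsto Z f (𝓝 Z₀)) (h0 : 0 < Z₀.re) (hZ' : Tendsto Z' f (𝓝 Z₁)) (h1 : Z₁.re < 0) (m : ℕ) :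
    Tendsto (fun q => WW g (PS S (k q)) (Z' q - PS S (k q)) - WW g (PS S (k q)) (Z q) -
      ((k q : ℂ) - m)) f (𝓝 (Z₁ + Complex.I * S - Z₀ + m - ka g * (Complex.log (-Z₁) -
        Complex.log Z₀ - Complex.I * Real.pi))) := by
  have a1 := tendsto_log hS hk hZ h0.ne'
  have a2 := tendsto_log hS hk hZ' h1.ne
  have a3 := tendsto_KP (g := g) hS hk
  have a4 : Tendsto (fun q => Complex.exp (ll S (k q) * Z q)) f (𝓝 1) := by
    have : Tendsto (fun q => ll S (k q) * Z q) f (𝓝 0) := by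
      simpa using (tendsto_ll' S hk).mul hZ
    have h := (Complex.continuous_exp.tendsto 0).comp this
    rw [Complex.exp_zero] at h
    exact h
  have a5 : Tendsto (fun q => Complex.exp (ll S (k q) * Z' q)) f (𝓝 1) := by
    have : Tendsto (fun q => ll S (k q) * Z' q) f (𝓝 0) := by
      simpa using (tendsto_ll' S hk).mul hZ'
    have h := (Complex.continuous_exp.tendsto 0).comp this
    rw [Complex.exp_zero] at h
    exact h
  have a6 := ((hZ'.add_const (Complex.I * S)).sub hZ).add_const (m : ℂ)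
  have a7 := a6.sub (a3.mul ((a2.sub a1).add (a5.sub a4)))
  rw [log_I_mul h0, log_I_mul' h1] at a7
  have e : Z₁ + Complex.I * S - Z₀ + m - ka g * (Complex.log (-Z₁) - Complex.I * Real.pi / 2 -
      (Complex.log Z₀ + Complex.I * Real.pi / 2) + (1 - 1)) = Z₁ + Complex.I * S - Z₀ + m -
      ka g * (Complex.log (-Z₁) - Complex.log Z₀ - Complex.I * Real.pi) := by ring
  rw [e] at a7
  refine a7.congr (fun q => ?_)
  rw [WW_eq, WW_eq]
  unfold uu
  have e2 : Complex.exp (ll S (k q) * (Z' q - PS S (k q))) = Complex.exp (ll S (k q) * Z' q) :=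
    exp_sub_PS hS _ _
  rw [e2]
  have e3 : PS S (k q) = -(k q : ℂ) - Complex.I * S := rfl
  have e4 : Z' q - PS S (k q) = Z' q + k q + Complex.I * S := by
    rw [e3]
    ring
  rw [e4]
  ring

/-! ## The orbit in the basin -/

theorem exists_h {n : ℕ} {g : ℂ[X]} {c₀ : ℝ} {c : ℂ} (hg : Good n g c₀ c) :
    ∃ h : ℂ[X], h.eval 1 = al g ∧ ∀ y, g.eval y = y + (y - 1) ^ 2 * h.eval y := by
  have h1 : (X - C 1) ∣ (g - X) := by
    rw [dvd_iff_isRoot, IsRoot.def]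
    simp [hg.fix]
  obtain ⟨q, hq⟩ := h1
  have h2 : derivative (g - X) = q + (X - C 1) * derivative q := by
    rw [hq]
    simp
  have h3 : q.eval 1 = 0 := by
    have := congrArg (Polynomial.eval 1) h2
    simp [hg.der] at this
    exact this.symm
  have h4 : (X - C 1) ∣ q := by
    rw [dvd_iff_isRoot, IsRoot.def]
    exact h3
  obtain ⟨h, hh⟩ := h4
  have hgx : g = X + (X - C 1) ^ 2 * h := by
    have : g = X + (g - X) := by ring
    rw [this, hq, hh]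
    ring
  refine ⟨h, ?_, ?_⟩
  · unfold al
    have h5 : g.derivative.derivative.eval 1 = 2 * h.eval 1 := by
      rw [hgx, sq]
      simp [Polynomial.derivative_mul]
      left
      norm_num
    rw [h5]
    ring
  · intro y
    have := congrArg (Polynomial.eval y) hgx
    simpa using this

theorem tendsto_re {n : ℕ} {g : ℂ[X]} {c₀ : ℝ} {c : ℂ} (hg : Good n g c₀ c) {y : ℕ → ℂ}
    (hy : ∀ m, y (m + 1) = g.eval (y m)) (hy1 : ∀ m, y m ≠ 1) (hyt : Tendsto y atTop (𝓝 1)) :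
    Tendsto (fun m => ((1 - y m)⁻¹).re) atTop atTop := by
  obtain ⟨a, ha, hal⟩ := al_real hg
  obtain ⟨h, h1, h2⟩ := exists_h hg
  have hd : ∀ m, (1 - y (m + 1))⁻¹ - (1 - y m)⁻¹ =
      h.eval (y m) / (1 - (1 - y m) * h.eval (y m)) := by
    intro m
    have e1 : 1 - y m ≠ 0 := sub_ne_zero.2 (hy1 m).symm
    have e2 : 1 - y (m + 1) ≠ 0 := sub_ne_zero.2 (hy1 (m + 1)).symm
    have e3 : 1 - y (m + 1) = (1 - y m) * (1 - (1 - y m) * h.eval (y m)) := by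
      rw [hy, h2]
      ring
    have e4 : 1 - (1 - y m) * h.eval (y m) ≠ 0 := by
      intro h0
      rw [h0, mul_zero] at e3
      exact e2 e3
    rw [e3]
    field_simp
    ring
  have h3 : Tendsto (fun m => h.eval (y m)) atTop (𝓝 (al g)) := by
    have := (h.continuous.tendsto 1).comp hyt
    rw [h1] at this
    exact this
  have h4 : Tendsto (fun m => (1 - y (m + 1))⁻¹ - (1 - y m)⁻¹) atTop (𝓝 (al g)) := by
    have h5 : Tendsto (fun m => 1 - (1 - y m) * h.eval (y m)) atTop (𝓝 1) := by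
      have := ((hyt.const_sub 1).mul h3).const_sub 1
      simpa using this
    have h6 := h3.div h5 one_ne_zero
    rw [div_one] at h6
    exact h6.congr (fun m => (hd m).symm)
  have h7 : Tendsto (fun m => ((1 - y (m + 1))⁻¹ - (1 - y m)⁻¹).re) atTop (𝓝 a) := by
    have := (Complex.continuous_re.tendsto (al g)).comp h4
    rw [hal, Complex.ofReal_re] at this
    exact this
  have h8 : ∀ᶠ m in atTop, a / 2 < ((1 - y (m + 1))⁻¹ - (1 - y m)⁻¹).re :=
    h7.eventually (eventually_gt_nhds (by linarith))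
  obtain ⟨m₀, hm₀⟩ := eventually_atTop.1 h8
  have h9 : ∀ j : ℕ, ((1 - y m₀)⁻¹).re + a / 2 * j ≤ ((1 - y (m₀ + j))⁻¹).re := by
    intro j
    induction j with
    | zero => simp
    | succ j ih =>
      have := hm₀ (m₀ + j) (by omega)
      rw [Complex.sub_re] at this
      push_cast
      rw [← add_assoc]
      linarith
  have h10 : Tendsto (fun j : ℕ => ((1 - y (m₀ + j))⁻¹).re) atTop atTop := by
    apply tendsto_atTop_mono h9
    apply tendsto_atTop_add_const_left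
    exact (tendsto_natCast_atTop_atTop (R := ℝ)).const_mul_atTop (by linarith)
  have h11 : Tendsto (fun j : ℕ => ((1 - y (j + m₀))⁻¹).re) atTop atTop := by
    refine h10.congr (fun j => ?_)
    rw [add_comm]
  exact (tendsto_add_atTop_iff_nat m₀).1 h11

end LAVaux

namespace LAVaux

theorem iter_semi {g : ℂ[X]} {ψ : ℂ → ℂ} (h : ∀ w, ψ (w + 1) = g.eval (ψ w)) (w : ℂ) (m : ℕ) :
    (fun x : ℂ => g.eval x)^[m] (ψ w) = ψ (w + m) := by
  induction m with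
  | zero => simp
  | succ m ih =>
    rw [Function.iterate_succ_apply', ih, ← h]
    push_cast
    rw [add_assoc]

theorem pointwise {n : ℕ} {g : ℂ[X]} {c₀ : ℝ} {c : ℂ} {Φ ψ : ℂ → ℂ} {R C : ℝ} (h1 : S_STP)
    (h2 : S_REP) (h3 : S_BASN) (hg : Good n g c₀ c) (hF : FC g c₀ Φ ψ R C) {S : ℝ} (hS : 0 < S) {z : ℂ}
    (hz : z ∈ Bas g c₀) :
    Tendsto (fun q : ℕ × ℂ => (pl g (PS S q.1))^[q.1] q.2) (atTop ×ˢ 𝓝 z)
      (𝓝 (ψ (Φ z - Complex.I * S))) := by
  obtain ⟨R₁, C₁, S₁, hR₁, hC₁, hS₁, H⟩ := h1 n g c₀ c hg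
  obtain ⟨R', C', hR', hC', hrep⟩ := h2 n g c₀ c Φ ψ R C hg hF
  obtain ⟨b1, b2, b3, b4, b5, b6, b7, b8, b9⟩ := h3 n g c₀ c hg
  obtain ⟨a, ha, hal⟩ := al_real hg
  have hal0 : al g ≠ 0 := by
    rw [hal]
    exact_mod_cast ha.ne'
  rw [tendsto_iff_ultrafilter]
  intro u hu
  rw [Metric.tendsto_nhds]
  intro ε hε
  have hk : Tendsto (fun q : ℕ × ℂ => q.1) u atTop := tendsto_fst.mono_left hu
  have hz' : Tendsto (fun q : ℕ × ℂ => q.2) u (𝓝 z) := tendsto_snd.mono_left hu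
  -- continuity of ψ
  obtain ⟨δ, hδ, hψ⟩ := Metric.continuous_iff.1 hF.dψ.continuous (Φ z - Complex.I * S) ε hε
  -- the orbit of z
  have hyB : ∀ m : ℕ, (fun x : ℂ => g.eval x)^[m] z ∈ Bas g c₀ := by
    intro m
    induction m with
    | zero => exact hz
    | succ m ih =>
      rw [Function.iterate_succ_apply']
      exact (b3 _).2 ih
  have hy1 : ∀ m : ℕ, (fun x : ℂ => g.eval x)^[m] z ≠ 1 := by
    intro m h
    have := hyB m
    rw [h] at this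
    exact b6 this
  have hΦm : ∀ m : ℕ, Φ ((fun x : ℂ => g.eval x)^[m] z) = Φ z + m := by
    intro m
    induction m with
    | zero => simp
    | succ m ih =>
      rw [Function.iterate_succ_apply', hF.semΦ _ (hyB m), ih]
      push_cast
      ring
  have hre := tendsto_re hg (y := fun m => (fun x : ℂ => g.eval x)^[m] z)
    (fun m => Function.iterate_succ_apply' _ _ _) hy1 (b9 z hz)
  -- the constants
  set M : ℝ := max (max (9 / 8) (max R₁ (5 * C₁))) (max ((R' + 1) / a) (4 * (C' / a + 5 * C₁ + 1) / δ))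
    with hM
  have hM1 : 9 / 8 ≤ M := (le_max_left _ _).trans (le_max_left _ _)
  have hM2 : R₁ ≤ M := ((le_max_left _ _).trans (le_max_right _ _)).trans (le_max_left _ _)
  have hM3 : 5 * C₁ ≤ M := ((le_max_right _ _).trans (le_max_right _ _)).trans (le_max_left _ _)
  have hM4 : (R' + 1) / a ≤ M := (le_max_left _ _).trans (le_max_right _ _)
  have hM5 : 4 * (C' / a + 5 * C₁ + 1) / δ ≤ M := (le_max_right _ _).trans (le_max_right _ _)
  have hM0 : 0 < M := by linarith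
  obtain ⟨M₁, hM₁⟩ := (hre.eventually_ge_atTop (max (a * (M + 1)) (max (|R| + 1) (4 * C / δ + 1)))).exists
  set y₀ : ℂ := (fun x : ℂ => g.eval x)^[M₁] z with hy₀
  set v₀ : ℂ := (1 - y₀)⁻¹ with hv₀
  have hv1 : a * (M + 1) ≤ v₀.re := (le_max_left _ _).trans hM₁
  have hv2 : |R| + 1 ≤ v₀.re := ((le_max_left _ _).trans (le_max_right _ _)).trans hM₁
  have hv3 : 4 * C / δ + 1 ≤ v₀.re := ((le_max_right _ _).trans (le_max_right _ _)).trans hM₁
  have hvn : v₀.re ≤ ‖v₀‖ := (le_abs_self _).trans (Complex.abs_re_le_norm _)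
  have hv0 : v₀ ≠ 0 := inv_ne_zero (sub_ne_zero.2 (hy1 M₁).symm)
  have hy₀v : y₀ = 1 - v₀⁻¹ := by
    rw [hv₀, inv_inv]
    ring
  -- asymptotics of Φ
  obtain ⟨-, hasy⟩ := hF.asyΦ v₀ (by
    have := le_abs_self R
    have := abs_nonneg v₀.im
    linarith)
  rw [← hy₀v, hy₀, hΦm] at hasy
  -- the orbit of the perturbed map
  set y : ℕ × ℂ → ℂ := fun q => (pl g (PS S q.1))^[M₁] q.2 with hydef
  have hyt : Tendsto y u (𝓝 y₀) := tendsto_pl_iter hk M₁ hz'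
  have hvt : Tendsto (fun q => (1 - y q)⁻¹) u (𝓝 v₀) :=
    (hyt.const_sub 1).inv₀ (sub_ne_zero.2 (hy1 M₁).symm)
  have hZt := tendsto_Zst (g := g) hS hk hvt
  set Z₀ : ℂ := v₀ / al g with hZ₀
  have hZ₀re : M + 1 ≤ Z₀.re := by
    rw [hZ₀, hal, Complex.div_ofReal_re, le_div_iff₀ ha]
    linarith
  set X₀ : ℝ := max M (‖Z₀‖ + 1) with hX₀
  obtain ⟨m₀, hm₀⟩ := core hg hC₁ H hS hM1 hM2 hM3 (le_max_left M (‖Z₀‖ + 1))
  set m₂ : ℕ := max m₀ M₁ with hm₂
  obtain ⟨B, hB⟩ := hm₀ m₂ (le_max_left _ _)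
  have ev1 : ∀ᶠ q in (u : Filter (ℕ × ℂ)), M ≤ (Zst g S q.1 ((1 - y q)⁻¹)).re := by
    have := ((Complex.continuous_re.tendsto Z₀).comp hZt).eventually
      (eventually_ge_nhds (by linarith : M < Z₀.re))
    exact this
  have ev2 : ∀ᶠ q in (u : Filter (ℕ × ℂ)), ‖Zst g S q.1 ((1 - y q)⁻¹)‖ ≤ X₀ := by
    have h4 : ‖Z₀‖ < X₀ := lt_of_lt_of_le (by linarith) (le_max_right M (‖Z₀‖ + 1))
    exact (hZt.norm).eventually (eventually_le_nhds h4)
  have ev3 := hk.eventually hB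
  have hex : ∀ q : ℕ × ℂ, ∃ Z' : ℂ, (∃ Z' : ℂ, Z'.re ≤ -M ∧ ‖Z'‖ ≤ B ∧
        (pl g (PS S q.1))^[q.1 - m₂] (1 - (VV g (PS S q.1) (Zst g S q.1 ((1 - y q)⁻¹)))⁻¹) =
          1 - (VV g (PS S q.1) (Z' - PS S q.1))⁻¹ ∧
        ‖WW g (PS S q.1) (Z' - PS S q.1) - WW g (PS S q.1) (Zst g S q.1 ((1 - y q)⁻¹)) -
          ((q.1 : ℂ) - m₂)‖ ≤ 5 * C₁ / M) → (Z'.re ≤ -M ∧ ‖Z'‖ ≤ B ∧
        (pl g (PS S q.1))^[q.1 - m₂] (1 - (VV g (PS S q.1) (Zst g S q.1 ((1 - y q)⁻¹)))⁻¹) =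
          1 - (VV g (PS S q.1) (Z' - PS S q.1))⁻¹ ∧
        ‖WW g (PS S q.1) (Z' - PS S q.1) - WW g (PS S q.1) (Zst g S q.1 ((1 - y q)⁻¹)) -
          ((q.1 : ℂ) - m₂)‖ ≤ 5 * C₁ / M) := by
    intro q
    by_cases hq : ∃ Z' : ℂ, Z'.re ≤ -M ∧ ‖Z'‖ ≤ B ∧
        (pl g (PS S q.1))^[q.1 - m₂] (1 - (VV g (PS S q.1) (Zst g S q.1 ((1 - y q)⁻¹)))⁻¹) =
          1 - (VV g (PS S q.1) (Z' - PS S q.1))⁻¹ ∧
        ‖WW g (PS S q.1) (Z' - PS S q.1) - WW g (PS S q.1) (Zst g S q.1 ((1 - y q)⁻¹)) -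
          ((q.1 : ℂ) - m₂)‖ ≤ 5 * C₁ / M
    · exact ⟨hq.choose, fun _ => hq.choose_spec⟩
    · exact ⟨0, fun h => absurd h hq⟩
  choose Z' hZ' using hex
  have ev4 : ∀ᶠ q in (u : Filter (ℕ × ℂ)), (Z' q).re ≤ -M ∧ ‖Z' q‖ ≤ B ∧
        (pl g (PS S q.1))^[q.1 - m₂] (1 - (VV g (PS S q.1) (Zst g S q.1 ((1 - y q)⁻¹)))⁻¹) =
          1 - (VV g (PS S q.1) (Z' q - PS S q.1))⁻¹ ∧
        ‖WW g (PS S q.1) (Z' q - PS S q.1) - WW g (PS S q.1) (Zst g S q.1 ((1 - y q)⁻¹)) -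
          ((q.1 : ℂ) - m₂)‖ ≤ 5 * C₁ / M := by
    filter_upwards [ev1, ev2, ev3] with q e1 e2 e3
    exact hZ' q (e3 _ e1 e2)
  -- the limit of Z'
  have hcomp : IsCompact (closedBall (0 : ℂ) B ∩ {w : ℂ | w.re ≤ -M}) :=
    (isCompact_closedBall 0 B).inter_right (isClosed_le Complex.continuous_re continuous_const)
  obtain ⟨Z₁, ⟨-, hZ₁⟩, hZ₁t⟩ := hcomp.ultrafilter_le_nhds (u.map Z') (by
    rw [Ultrafilter.coe_map, le_principal_iff, mem_map]
    filter_upwards [ev4] with q hq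
    exact ⟨mem_closedBall_zero_iff.2 hq.2.1, hq.1⟩)
  have hZ₁re : Z₁.re ≤ -M := hZ₁
  have hZ₁t' : Tendsto Z' u (𝓝 Z₁) := hZ₁t
  have hVt := tendsto_VV (g := g) hS hk hZ₁t'
  have hWt := tendsto_WW (g := g) hS hk hZt (by linarith : 0 < Z₀.re) hZ₁t' (by linarith : Z₁.re < 0) m₂
  set D : ℂ := Z₁ + Complex.I * S - Z₀ + m₂ - ka g * (Complex.log (-Z₁) -
        Complex.log Z₀ - Complex.I * Real.pi) with hD
  have hDn : ‖D‖ ≤ 5 * C₁ / M := le_of_tendsto hWt.norm (by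
    filter_upwards [ev4] with q hq
    exact hq.2.2.2)
  -- the repelling coordinate
  have hv're : (al g * Z₁).re < -R' := by
    rw [hal, Complex.re_ofReal_mul]
    have e1 : a * Z₁.re ≤ a * (-M) := mul_le_mul_of_nonneg_left hZ₁re ha.le
    have e2 : R' + 1 ≤ M * a := by
      rw [← div_le_iff₀ ha]
      exact hM4
    linarith
  obtain ⟨w, hw1, hw2⟩ := hrep (al g * Z₁) hv're
  have hZ₁n : M ≤ ‖Z₁‖ := by
    have := Complex.abs_re_le_norm Z₁
    have := neg_abs_le Z₁.re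
    linarith
  have hZ₁0 : -Z₁ ≠ 0 := by
    intro h
    have h5 : Z₁ = 0 := neg_eq_zero.1 h
    rw [h5] at hZ₁re
    simp at hZ₁re
    linarith
  have hZ₀0 : Z₀ ≠ 0 := div_ne_zero hv0 hal0
  have hlog1 : Complex.log (-(al g * Z₁)) = Real.log a + Complex.log (-Z₁) := by
    rw [hal, ← mul_neg, Complex.log_ofReal_mul ha hZ₁0]
  have hlog2 : Complex.log v₀ = Real.log a + Complex.log Z₀ := by
    have e1 : v₀ = (a : ℂ) * Z₀ := by
      rw [hZ₀, hal]
      have : (a : ℂ) ≠ 0 := by exact_mod_cast ha.ne'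
      field_simp
    rw [e1, Complex.log_ofReal_mul ha hZ₀0]
  have hdiv : al g * Z₁ / al g = Z₁ := by
    field_simp
  rw [hlog1, hdiv] at hw2
  rw [hlog2] at hasy
  have hn1 : ‖al g * Z₁‖ = a * ‖Z₁‖ := by
    rw [hal, norm_mul, Complex.norm_real, Real.norm_eq_abs, abs_of_pos ha]
  -- the error
  have hfin : ‖w + ((m₂ - M₁ : ℕ) : ℂ) - (Φ z - Complex.I * S)‖ < δ := by
    have hc1 : ((m₂ - M₁ : ℕ) : ℂ) = (m₂ : ℂ) - M₁ := by
      rw [Nat.cast_sub (le_max_right _ _)]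
    have e1 : w + ((m₂ - M₁ : ℕ) : ℂ) - (Φ z - Complex.I * S) =
        -(Z₁ - ka g * (Real.log a + Complex.log (-Z₁)) + Complex.I * Real.pi * ka g - w) + D -
          (Φ z + M₁ - (Z₀ - ka g * (Real.log a + Complex.log Z₀))) := by
      rw [hc1, hD]
      ring
    rw [e1]
    have e2 : C' / ‖al g * Z₁‖ ≤ C' / a / M := by
      rw [hn1, div_div]
      apply div_le_div_of_nonneg_left hC'.le (by positivity)
      exact mul_le_mul_of_nonneg_left hZ₁n ha.le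
    have e3 : C / ‖v₀‖ ≤ δ / 4 := by
      have hCp := hF.Cpos
      have e4 : 4 * C / δ ≤ ‖v₀‖ := by linarith
      rw [div_le_iff₀ hδ] at e4
      have e5 : 0 < ‖v₀‖ := norm_pos_iff.2 hv0
      rw [div_le_iff₀ e5]
      linarith
    have e6 : C' / a / M + 5 * C₁ / M < δ / 4 := by
      rw [← add_div, div_lt_iff₀ hM0]
      rw [div_le_iff₀ hδ] at hM5
      linarith
    have e7 := norm_sub_le (-(Z₁ - ka g * (Real.log a + Complex.log (-Z₁)) +
      Complex.I * Real.pi * ka g - w) + D) (Φ z + M₁ - (Z₀ - ka g * (Real.log a + Complex.log Z₀)))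
    have e8 := norm_add_le (-(Z₁ - ka g * (Real.log a + Complex.log (-Z₁)) +
      Complex.I * Real.pi * ka g - w)) D
    rw [norm_neg] at e8
    linarith
  -- the end
  have hlim : Tendsto (fun q : ℕ × ℂ => (pl g (PS S q.1))^[q.1] q.2) u
      (𝓝 (ψ (w + ((m₂ - M₁ : ℕ) : ℂ)))) := by
    have hne : al g * Z₁ ≠ 0 := mul_ne_zero hal0 (neg_ne_zero.1 hZ₁0)
    have e1 : Tendsto (fun q : ℕ × ℂ => 1 - (VV g (PS S q.1) (Z' q - PS S q.1))⁻¹) u
        (𝓝 (1 - (al g * Z₁)⁻¹)) := (hVt.inv₀ hne).const_sub 1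
    rw [← hw1] at e1
    have e2 := tendsto_pl_iter (g := g) (S := S) hk (m₂ - M₁) e1
    rw [iter_semi hF.semψ] at e2
    refine e2.congr' ?_
    filter_upwards [ev4, hk.eventually_ge_atTop m₂, eventually_exp_ne hS hk,
      ((tendsto_small (g := g) hS hk hvt).const_sub 1).eventually_ne (by simp : (1 : ℂ) - 0 ≠ 0)] with q hq1 hq2 hq3 hq4
    rw [← hq1.2.2.1, VV_Zst hS hal0 hq3 hq4, inv_inv]
    have e3 : 1 - (1 - y q) = (pl g (PS S q.1))^[M₁] q.2 := by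
      rw [hydef]
      ring
    rw [e3, ← Function.iterate_add_apply, ← Function.iterate_add_apply]
    have e4 : m₂ - M₁ + (q.1 - m₂) + M₁ = q.1 := by
      have : M₁ ≤ m₂ := le_max_right _ _
      omega
    rw [e4]
  have hψ' : dist (ψ (w + ((m₂ - M₁ : ℕ) : ℂ))) (ψ (Φ z - Complex.I * S)) < ε := by
    apply hψ
    rw [dist_eq_norm]
    exact hfin
  exact (hlim.dist tendsto_const_nhds).eventually (eventually_lt_nhds hψ')

end LAVaux

/-- convergence to the Lavaurs map -/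
theorem t_LAV (h1 : S_STP) (h2 : S_REP) (h3 : S_BASN) : S_LAV := by
  intro n g c₀ c Φ ψ R C hg hF S hS
  rw [tendstoLocallyUniformlyOn_iff_forall_tendsto]
  intro z hz
  have hopen : IsOpen (Bas g c₀) := (h3 n g c₀ c hg).1
  have hcont : ContinuousAt (fun z => ψ (Φ z - Complex.I * S)) z := by
    have h4 : ContinuousAt Φ z := (hF.dΦ.differentiableAt (hopen.mem_nhds hz)).continuousAt
    exact hF.dψ.continuous.continuousAt.comp (h4.sub continuousAt_const)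
  have hp := LAVaux.pointwise h1 h2 h3 hg hF hS hz
  have hle : (atTop : Filter ℕ) ×ˢ 𝓝[Bas g c₀] z ≤ atTop ×ˢ 𝓝 z :=
    Filter.prod_mono le_rfl nhdsWithin_le_nhds
  have h5 : Tendsto (fun q : ℕ × ℂ => ψ (Φ q.2 - Complex.I * S)) (atTop ×ˢ 𝓝 z)
      (𝓝 (ψ (Φ z - Complex.I * S))) := hcont.tendsto.comp tendsto_snd
  have h6 := (h5.prodMk_nhds hp).mono_left hle
  exact h6.mono_right (by
    exact nhds_le_uniformity _)

end Pool.Agent.H212.ND
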