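import Pool.Agent.H212.ND.StmM
import Pool.Agent.H212.MB.Stm3
import Pool.Graph.R_seed8.Helper514.IoD

set_option autoImplicit false

open Filter Metric Set Topology Polynomial
open scoped ComplexConjugate

namespace Pool.Agent.H212.ND

open Pool.Agent.H212.MB

namespace OPEaux

/-- the monic polynomial with the lower coefficients `e` -/
noncomputable def qe {m : ℕ} (e : Fin m → ℂ) : ℂ[X] := X ^ m + ∑ j : Fin m, C (e j) * X ^ (j : ℕ)

theorem qe_deg_lt {m : ℕ} (e : Fin m → ℂ) : (∑ j : Fin m, C (e j) * X ^ (j : ℕ) : ℂ[X]).degree < m := by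
  rw [← mem_degreeLT]
  refine Submodule.sum_mem _ fun j _ => ?_
  rw [mem_degreeLT]
  refine lt_of_le_of_lt (degree_C_mul_X_pow_le _ _) ?_
  exact_mod_cast j.2

theorem qe_monic {m : ℕ} (e : Fin m → ℂ) : (qe e).Monic := monic_X_pow_add (qe_deg_lt e)

theorem qe_natDegree {m : ℕ} (e : Fin m → ℂ) : (qe e).natDegree = m := by
  unfold qe
  rw [natDegree_add_eq_left_of_degree_lt, natDegree_X_pow]
  rw [degree_X_pow]
  exact qe_deg_lt e

theorem qe_coeff {m : ℕ} (e : Fin m → ℂ) (j : Fin m) : (qe e).coeff j = e j := by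
  unfold qe
  rw [coeff_add, coeff_X_pow, if_neg (ne_of_lt j.2), zero_add, finsetSum_coeff]
  rw [Finset.sum_eq_single j]
  · simp
  · intro i _ hi
    rw [coeff_C_mul, coeff_X_pow, if_neg, mul_zero]
    exact fun h => hi (Fin.ext h.symm)
  · simp

theorem qe_inj {m : ℕ} {e e' : Fin m → ℂ} (h : qe e = qe e') : e = e' := by
  funext j
  rw [← qe_coeff e j, h, qe_coeff]

theorem qe_of {m : ℕ} {p : ℂ[X]} (hp : p.Monic) (hd : p.natDegree = m) : qe (fun j : Fin m => p.coeff j) = p := by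
  ext k
  rcases lt_trichotomy k m with hk | hk | hk
  · exact qe_coeff (fun j : Fin m => p.coeff j) ⟨k, hk⟩
  · have h1 : (qe (fun j : Fin m => p.coeff j)).coeff m = 1 := by
      have := qe_monic (fun j : Fin m => p.coeff j)
      rw [Monic, leadingCoeff, qe_natDegree] at this
      exact this
    have h2 : p.coeff m = 1 := by
      rw [Monic, leadingCoeff, hd] at hp
      exact hp
    rw [hk, h1, h2]
  · rw [coeff_eq_zero_of_natDegree_lt (by rw [qe_natDegree]; exact hk),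
      coeff_eq_zero_of_natDegree_lt (by rw [hd]; exact hk)]

theorem qe_eval {m : ℕ} (e : Fin m → ℂ) (z : ℂ) : (qe e).eval z = z ^ m + ∑ j : Fin m, e j * z ^ (j : ℕ) := by
  simp [qe, eval_finsetSum]

theorem qe_eval_cont {m : ℕ} : Continuous (fun p : (Fin m → ℂ) × ℂ => (qe p.1).eval p.2) := by
  simp only [qe_eval]
  fun_prop

/-- Cauchy bound -/
theorem root_bound {m : ℕ} (e : Fin m → ℂ) (z : ℂ) (hz : (qe e).eval z = 0) : ‖z‖ ≤ 1 + ∑ j, ‖e j‖ := by
  by_contra hlt
  push Not at hlt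
  have hS : 0 ≤ ∑ j, ‖e j‖ := Finset.sum_nonneg fun _ _ => norm_nonneg _
  have hz1 : 1 < ‖z‖ := by linarith
  rw [qe_eval] at hz
  rcases Nat.eq_zero_or_pos m with hm | hm
  · subst hm
    simp at hz
  · have h1 : z ^ m = -∑ j : Fin m, e j * z ^ (j : ℕ) := by linear_combination hz
    have h2 : ‖z‖ ^ m ≤ ∑ j : Fin m, ‖e j‖ * ‖z‖ ^ (m - 1) := by
      rw [← norm_pow, h1, norm_neg]
      refine (norm_sum_le _ _).trans (Finset.sum_le_sum fun j _ => ?_)
      rw [norm_mul, norm_pow]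
      have : (j : ℕ) ≤ m - 1 := by have := j.2; omega
      gcongr
      exact hz1.le
    rw [← Finset.sum_mul] at h2
    have h3 : ‖z‖ ^ m = ‖z‖ * ‖z‖ ^ (m - 1) := by
      rw [← pow_succ']
      congr 1
      omega
    rw [h3] at h2
    have h4 : (0 : ℝ) < ‖z‖ ^ (m - 1) := pow_pos (by linarith) _
    have := le_of_mul_le_mul_right h2 h4
    linarith

/-- roots are locally bounded away from the circle -/
theorem roots_near {m : ℕ} (e₀ : Fin m → ℂ) (h : ∀ z, (qe e₀).eval z = 0 → ‖z‖ < 1) :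
    ∃ r : ℝ, r < 1 ∧ ∀ᶠ e in 𝓝 e₀, ∀ z, (qe e).eval z = 0 → ‖z‖ ≤ r := by
  obtain ⟨r, hr1, hr⟩ : ∃ r : ℝ, r < 1 ∧ ∀ z, (qe e₀).eval z = 0 → ‖z‖ < r := by
    have hmem : ∀ z, (qe e₀).eval z = 0 → z ∈ (qe e₀).roots.toFinset := by
      intro z hz
      rw [Multiset.mem_toFinset, mem_roots (qe_monic e₀).ne_zero]
      exact hz
    rcases (qe e₀).roots.toFinset.eq_empty_or_nonempty with hs | hs
    · refine ⟨0, by norm_num, fun z hz => ?_⟩
      have := hmem z hz
      rw [hs] at this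
      simp at this
    · obtain ⟨z₀, hz₀, hmax⟩ := Finset.exists_max_image _ (fun z : ℂ => ‖z‖) hs
      rw [Multiset.mem_toFinset, mem_roots (qe_monic e₀).ne_zero] at hz₀
      obtain ⟨r, hr1, hr2⟩ := exists_between (h z₀ hz₀)
      exact ⟨r, hr2, fun z hz => lt_of_le_of_lt (hmax z (hmem z hz)) hr1⟩
  refine ⟨r, hr1, ?_⟩
  set R : ℝ := 2 + ∑ j, ‖e₀ j‖ with hR
  have hK : IsCompact (closedBall (0 : ℂ) R ∩ {z | r ≤ ‖z‖}) :=
    (isCompact_closedBall 0 R).inter_right (isClosed_le continuous_const continuous_norm)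
  have h1 : ∀ᶠ e in 𝓝 e₀, ∀ z ∈ closedBall (0 : ℂ) R ∩ {z | r ≤ ‖z‖}, (qe e).eval z ≠ 0 := by
    refine hK.eventually_forall_of_forall_eventually fun z hz => ?_
    have hne : (qe e₀).eval z ≠ 0 := fun h0 => absurd (hr z h0) (not_lt.mpr hz.2)
    exact qe_eval_cont.continuousAt.eventually_ne hne
  have h2 : ∀ᶠ e in 𝓝 e₀, ∑ j, ‖e j‖ < 1 + ∑ j, ‖e₀ j‖ := by
    have hc : Continuous fun e : Fin m → ℂ => ∑ j, ‖e j‖ := by fun_prop
    exact hc.continuousAt.eventually_lt continuousAt_const (by simp)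
  filter_upwards [h1, h2] with e he1 he2 z hz
  by_contra hlt
  push Not at hlt
  refine he1 z ⟨?_, hlt.le⟩ hz
  rw [mem_closedBall, dist_zero_right]
  have := root_bound e z hz
  rw [hR]
  linarith

/-! ### Blaschke products -/

theorem den_eq {n : ℕ} {B B' : Blaschke n} (h : ∏ i, (X - C (B.a i)) = ∏ i, (X - C (B'.a i))) (z : ℂ) :
    B.den z = B'.den z := by
  have key : ∀ B : Blaschke n, ∀ z : ℂ, z ≠ 0 →
      B.den z = z ^ (n - 1) * conj ((∏ i, (X - C (B.a i))).eval (conj z⁻¹)) := by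
    intro B z hz
    unfold Blaschke.den
    rw [eval_prod, map_prod]
    have : z ^ (n - 1) = ∏ _i : Fin (n - 1), z := by simp
    rw [this, ← Finset.prod_mul_distrib]
    refine Finset.prod_congr rfl fun i _ => ?_
    simp only [eval_sub, eval_X, eval_C, map_sub, Complex.conj_conj]
    field_simp
  rcases eq_or_ne z 0 with hz | hz
  · subst hz
    simp [Blaschke.den]
  · rw [key B z hz, key B' z hz, h]

theorem numprod_eq {n : ℕ} {B B' : Blaschke n} (h : ∏ i, (X - C (B.a i)) = ∏ i, (X - C (B'.a i))) (z : ℂ) :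
    ∏ i, (z - B.a i) = ∏ i, (z - B'.a i) := by
  have := congrArg (eval z) h
  simpa [eval_prod] using this

theorem c_eq {n : ℕ} (B : Blaschke n) (hb : B.b = 1) : B.c * ∏ i, (1 - B.a i) = B.den 1 ∧ B.den 1 ≠ 0 ∧
    ∏ i, (1 - B.a i) ≠ 0 := by
  have hd : B.den 1 ≠ 0 := by
    unfold Blaschke.den
    refine Finset.prod_ne_zero_iff.mpr fun i _ h0 => ?_
    have h1 : conj (B.a i) = 1 := by linear_combination -h0
    have h2 := B.norm_a i
    rw [← Complex.norm_conj, h1] at h2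
    simp at h2
  have hn : ∏ i, (1 - B.a i) ≠ 0 := by
    refine Finset.prod_ne_zero_iff.mpr fun i _ h0 => ?_
    have h1 : B.a i = 1 := by linear_combination -h0
    have h2 := B.norm_a i
    rw [h1] at h2
    simp at h2
  have hf := B.fix
  rw [hb, mul_one, Finset.prod_div_distrib] at hf
  have h3 : B.den 1 = ∏ i, (1 - conj (B.a i) * 1) := rfl
  rw [← h3] at hf
  field_simp at hf
  exact ⟨hf, hd, hn⟩

theorem ev_eq {n : ℕ} {B B' : Blaschke n} (h : ∏ i, (X - C (B.a i)) = ∏ i, (X - C (B'.a i))) (hb : B.b = 1)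
    (hb' : B'.b = 1) (z : ℂ) : B.ev z = B'.ev z := by
  obtain ⟨h1, -, h3⟩ := c_eq B hb
  obtain ⟨h1', -, h3'⟩ := c_eq B' hb'
  have hc : B.c = B'.c := by
    have e1 := numprod_eq h 1
    rw [den_eq h 1, ← h1', e1] at h1
    exact mul_right_cancel₀ h3' h1
  unfold Blaschke.ev Blaschke.num
  rw [hc, numprod_eq h z, den_eq h z]

theorem mating_congr {n : ℕ} {A B B' : Blaschke n} {f : RMap n}
    (h : ∏ i, (X - C (B.a i)) = ∏ i, (X - C (B'.a i))) (hb : B.b = 1)
    (hb' : B'.b = 1) (hf : IsMating A B f) : IsMating A B' f := by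
  obtain ⟨φ, ψ, t, hM⟩ := hf
  refine ⟨φ, ψ, t, ⟨hM.ext, hM.contφ, hM.diffψ, hM.contψ, hM.injψ, ?_, hM.compl, hM.conth, hM.monoh, hM.perh, hM.glue, ?_⟩⟩
  · intro z hz
    rw [← ev_eq h hb hb' z]
    exact hM.semiψ z hz
  · rw [hb', ← hb]
    exact hM.mark

/-- the Blaschke product with given zeros and `b = 1` -/
theorem exists_blaschke {n : ℕ} (a : Fin (n - 1) → ℂ) (ha : ∀ i, ‖a i‖ < 1) :
    ∃ B : Blaschke n, B.a = a ∧ B.b = 1 := by
  have h1 : ∀ i, (1 - a i) ≠ 0 := fun i h0 => by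
    have h1 : a i = 1 := by linear_combination -h0
    have h2 := ha i
    rw [h1] at h2
    simp at h2
  have h2 : ∀ i, (1 - conj (a i)) ≠ 0 := fun i h0 => by
    have h1 : conj (a i) = 1 := by linear_combination -h0
    have h2 := ha i
    rw [← Complex.norm_conj, h1] at h2
    simp at h2
  refine ⟨⟨∏ i, ((1 - conj (a i)) / (1 - a i)), a, 1, ?_, ha, by simp, ?_⟩, rfl, rfl⟩
  · rw [norm_prod]
    refine Finset.prod_eq_one fun i _ => ?_
    rw [norm_div]
    have : ‖1 - conj (a i)‖ = ‖1 - a i‖ := by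
      rw [← Complex.norm_conj]
      simp
    rw [this]
    exact div_self (norm_ne_zero_iff.mpr (h1 i))
  · rw [mul_one, ← Finset.prod_mul_distrib]
    refine Finset.prod_eq_one fun i _ => ?_
    rw [mul_one]
    have := h1 i
    have := h2 i
    field_simp

/-- every monic polynomial of degree `m` is a product of linear factors -/
theorem exists_roots {m : ℕ} (p : ℂ[X]) (hp : p.Monic) (hd : p.natDegree = m) :
    ∃ a : Fin m → ℂ, ∏ i, (X - C (a i)) = p := by
  have hs : p.Splits := IsAlgClosed.splits p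
  have hcard : p.roots.card = m := by
    rw [← hd]
    exact (splits_iff_card_roots.mp hs)
  have hprod : (p.roots.map fun a => X - C a).prod = p := by
    have := hs.eq_prod_roots_of_monic hp
    exact this.symm
  obtain ⟨l, hl⟩ : ∃ l : List ℂ, (l : Multiset ℂ) = p.roots := ⟨p.roots.toList, by simp⟩
  have hlen : l.length = m := by
    rw [← hcard, ← hl]
    simp
  subst hlen
  refine ⟨fun i => l.get i, ?_⟩
  rw [← hprod, ← hl]
  simp only [Multiset.map_coe, Multiset.prod_coe]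
  rw [← List.prod_ofFn]
  congr 1
  apply List.ext_get
  · simp
  · intro k h1 h2
    simp

theorem exists_B {n : ℕ} (e : Fin (n - 1) → ℂ) (he : ∀ z, (qe e).eval z = 0 → ‖z‖ < 1) :
    ∃ B : Blaschke n, ∏ i, (X - C (B.a i)) = qe e ∧ B.b = 1 := by
  obtain ⟨a, ha⟩ := exists_roots (qe e) (qe_monic e) (qe_natDegree e)
  have hlt : ∀ i, ‖a i‖ < 1 := by
    intro i
    apply he
    rw [← ha, eval_prod]
    exact Finset.prod_eq_zero (Finset.mem_univ i) (by simp)
  obtain ⟨B, h1, h2⟩ := exists_blaschke a hlt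
  exact ⟨B, by rw [h1]; exact ha, h2⟩

/-- every element of `BB (zn n)` is a mating with a Blaschke product with `b = 1` -/
theorem rotate {n : ℕ} (B : Blaschke n) (g : RMap n) (h : IsMating (zn n) B g) :
    ∃ B' : Blaschke n, B'.b = 1 ∧ IsMating (zn n) B' g := by
  obtain ⟨φ, ψ, t, hM⟩ := h
  have hb0 : B.b ≠ 0 := by
    intro h0
    have := B.norm_b
    rw [h0] at this
    simp at this
  have hbc : conj B.b * B.b = 1 := by
    rw [← Complex.normSq_eq_conj_mul_self, Complex.normSq_eq_norm_sq, B.norm_b]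
    simp
  have hbi : (B.b)⁻¹ = conj B.b := by
    field_simp
    rw [mul_comm]
    exact hbc.symm
  have hden : ∀ z : ℂ, ‖z‖ ≤ 1 → ∀ i, 1 - conj (B.a i) * z ≠ 0 := by
    intro z hz i h0
    have h1 : conj (B.a i) * z = 1 := by linear_combination -h0
    have h2 : ‖conj (B.a i) * z‖ < 1 := by
      rw [norm_mul, Complex.norm_conj]
      calc ‖B.a i‖ * ‖z‖ ≤ ‖B.a i‖ * 1 := by gcongr
        _ < 1 := by rw [mul_one]; exact B.norm_a i
    rw [h1] at h2
    simp at h2
  have hcan : ∀ i, conj (B.a i / B.b) = conj (B.a i) * B.b := by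
    intro i
    rw [div_eq_mul_inv, hbi, map_mul, Complex.conj_conj]
  have hfix := B.fix
  have hbn : ‖B.b‖ = 1 := B.norm_b
  have hrot : ∀ z : ℂ, (∏ i, ((z - B.a i / B.b) / (1 - conj (B.a i / B.b) * z))) * B.b ^ (n - 1)
      = ∏ i, ((B.b * z - B.a i) / (1 - conj (B.a i) * (B.b * z))) := by
    intro z
    have : B.b ^ (n - 1) = ∏ _i : Fin (n - 1), B.b := by simp
    rw [this, ← Finset.prod_mul_distrib]
    refine Finset.prod_congr rfl fun i _ => ?_
    rw [hcan, div_mul_eq_mul_div]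
    congr 1
    · field_simp
    · ring
  let B' : Blaschke n :=
    { c := B.c * B.b ^ (n - 1)
      a := fun i => B.a i / B.b
      b := 1
      norm_c := by rw [norm_mul, norm_pow, hbn, B.norm_c]; simp
      norm_a := fun i => by rw [norm_div, hbn, div_one]; exact B.norm_a i
      norm_b := by simp
      fix := by
        have h1 := hrot 1
        have h2 : B.c * ∏ i, ((B.b - B.a i) / (1 - conj (B.a i) * B.b)) = 1 := by
          have : B.b * (B.c * ∏ i, ((B.b - B.a i) / (1 - conj (B.a i) * B.b))) = B.b * 1 := by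
            rw [mul_one]
            linear_combination hfix
          exact mul_left_cancel₀ hb0 this
        rw [mul_one] at h1
        rw [mul_one, mul_assoc, mul_comm (B.b ^ (n - 1)), h1]
        exact h2 }
  have hev : ∀ z : ℂ, B.ev (B.b * z) = B.b * B'.ev z := by
    intro z
    have e1 : ∀ (D : Blaschke n) (z : ℂ), D.ev z = D.c * z * ∏ i, ((z - D.a i) / (1 - conj (D.a i) * z)) := by
      intro D z
      unfold Blaschke.ev Blaschke.num Blaschke.den
      rw [Finset.prod_div_distrib, mul_div_assoc]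
    rw [e1, e1, ← hrot z]
    show B.c * (B.b * z) * (_ * B.b ^ (n - 1)) = B.b * (B.c * B.b ^ (n - 1) * z * _)
    ring
  have hcb : MapsTo (fun z : ℂ => B.b * z) (closedBall 0 1) (closedBall 0 1) := by
    intro z hz
    rw [mem_closedBall, dist_zero_right] at hz ⊢
    rw [norm_mul, hbn, one_mul]
    exact hz
  have hbb : MapsTo (fun z : ℂ => B.b * z) (ball 0 1) (ball 0 1) := by
    intro z hz
    rw [mem_ball, dist_zero_right] at hz ⊢
    rw [norm_mul, hbn, one_mul]
    exact hz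
  refine ⟨B', rfl, φ, fun z => ψ (B.b * z), fun x => t x - B.b.arg, ⟨hM.ext, hM.contφ, ?_, ?_, ?_, ?_, ?_, ?_, ?_, ?_, ?_, ?_⟩⟩
  · exact hM.diffψ.comp (by fun_prop) hbb
  · exact hM.contψ.comp (by fun_prop) hcb
  · intro z hz w hw hzw
    exact mul_left_cancel₀ hb0 (hM.injψ (hcb hz) (hcb hw) hzw)
  · intro z hz
    obtain ⟨h1, h2⟩ := hM.semiψ _ (hcb hz)
    refine ⟨h1, ?_⟩
    show g.ev (ψ (B.b * z)) = ψ (B.b * B'.ev z)
    rw [← hev z]
    exact h2
  · rw [hM.compl]
    congr 1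
    ext w
    constructor
    · rintro ⟨z, hz, rfl⟩
      refine ⟨B.b⁻¹ * z, ?_, ?_⟩
      · rw [mem_closedBall, dist_zero_right] at hz ⊢
        rw [norm_mul, norm_inv, hbn, inv_one, one_mul]
        exact hz
      · show ψ (B.b * (B.b⁻¹ * z)) = ψ z
        rw [mul_inv_cancel_left₀ hb0]
    · rintro ⟨z, hz, rfl⟩
      exact ⟨B.b * z, hcb hz, rfl⟩
  · exact hM.conth.sub continuous_const
  · intro x y hxy
    have := hM.monoh hxy
    simpa using this
  · intro x
    have := hM.perh x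
    show t (x + 2 * Real.pi) - _ = t x - _ + _
    rw [this]
    ring
  · intro x
    show _ = ψ (B.b * _)
    rw [hM.glue x]
    congr 1
    have hbe : B.b = Complex.exp (B.b.arg * Complex.I) := by
      have := Complex.norm_mul_exp_arg_mul_I B.b
      rw [hbn] at this
      simpa using this.symm
    conv_rhs => rw [show B.b * Complex.exp (((t x - B.b.arg : ℝ) : ℂ) * Complex.I)
      = Complex.exp (B.b.arg * Complex.I) * Complex.exp (((t x - B.b.arg : ℝ) : ℂ) * Complex.I) by rw [← hbe]]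
    rw [← Complex.exp_add]
    congr 1
    push_cast
    ring
  · show φ (zn n).b = ψ (B.b * 1)
    rw [mul_one]
    exact hM.mark

/-! ### invariance of domain in `ℂ^m` -/

theorem iod {m : ℕ} (E : (Fin m → ℂ) → (Fin m → ℂ)) (e₀ : Fin m → ℂ) (U : Set (Fin m → ℂ)) (hU : U ∈ 𝓝 e₀)
    (hc : ContinuousOn E U) (hi : InjOn E U) : E '' U ∈ 𝓝 (E e₀) := by
  let L : PiLp 2 (fun _ : Fin m => ℂ) ≃L[ℝ] (Fin m → ℂ) := PiLp.continuousLinearEquiv 2 ℝ (fun _ : Fin m => ℂ)
  have : FiniteDimensional ℝ (PiLp 2 (fun _ : Fin m => ℂ)) := L.symm.toLinearEquiv.finiteDimensional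
  have hU' : L ⁻¹' U ∈ 𝓝 (L.symm e₀) := by
    apply L.continuous.continuousAt.preimage_mem_nhds
    rw [L.apply_symm_apply]
    exact hU
  obtain ⟨r, hr, hrU⟩ := Metric.nhds_basis_closedBall.mem_iff.mp hU'
  have key := Pool.Agent.Helper514.IoD.image_mem_nhds (fun v => L.symm (E (L v))) (L.symm e₀) r hr
    (L.symm.continuous.comp_continuousOn (hc.comp L.continuous.continuousOn (fun v hv => hrU hv)))
    (fun v hv w hw hvw => L.injective (hi (hrU hv) (hrU hw) (L.symm.injective hvw)))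
  simp only [L.apply_symm_apply] at key
  have h2 : L.symm ⁻¹' ((fun v => L.symm (E (L v))) '' closedBall (L.symm e₀) r) ∈ 𝓝 (E e₀) :=
    L.symm.continuous.continuousAt.preimage_mem_nhds key
  refine mem_of_superset h2 ?_
  rintro w ⟨v, hv, hvw⟩
  exact ⟨L v, hrU hv, L.symm.injective hvw⟩

/-! ### the map `E` -/

section E

variable {n : ℕ}

/-- the roots are in the open disc -/
def DD (m : ℕ) : Set (Fin m → ℂ) := {e | ∀ z, (qe e).eval z = 0 → ‖z‖ < 1}

/-- the Blaschke product of `e` (`zn n` if `e` is not in `DD`) -/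
noncomputable def Bof (n : ℕ) (e : Fin (n - 1) → ℂ) : Blaschke n := by
  classical
  exact if h : e ∈ DD (n - 1) then (exists_B e h).choose else zn n

theorem Bof_spec (e : Fin (n - 1) → ℂ) (he : e ∈ DD (n - 1)) :
    ∏ i, (X - C ((Bof n e).a i)) = qe e ∧ (Bof n e).b = 1 := by
  unfold Bof
  rw [dif_pos he]
  exact (exists_B e he).choose_spec

theorem Bof_norm (e : Fin (n - 1) → ℂ) (he : e ∈ DD (n - 1)) (i : Fin (n - 1)) :
    (qe e).eval ((Bof n e).a i) = 0 := by
  rw [← (Bof_spec e he).1, eval_prod]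
  exact Finset.prod_eq_zero (Finset.mem_univ i) (by simp)

/-- the mating of `zn n` and `Bof n e` -/
noncomputable def Fof (h4 : MB.S_REL) (hn : 2 ≤ n) (e : Fin (n - 1) → ℂ) : RMap n :=
  ((h4 n hn (zn n)).1 (Bof n e)).choose

theorem Fof_spec (h4 : MB.S_REL) (hn : 2 ≤ n) (e : Fin (n - 1) → ℂ) : IsMating (zn n) (Bof n e) (Fof h4 hn e) :=
  ((h4 n hn (zn n)).1 (Bof n e)).choose_spec

theorem Fof_eq (h4 : MB.S_REL) (h5 : MB.S_UNIQ) (hn : 2 ≤ n) (e : Fin (n - 1) → ℂ) (he : e ∈ DD (n - 1))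
    (B : Blaschke n) (hb : B.b = 1) (hB : ∏ i, (X - C (B.a i)) = qe e) (f : RMap n) (hf : IsMating (zn n) B f) :
    f = Fof h4 hn e := by
  obtain ⟨h1, h2⟩ := Bof_spec e he
  exact h5 n hn (zn n) (Bof n e) f _ (mating_congr (hB.trans h1.symm) hb h2 hf) (Fof_spec h4 hn e)

theorem tendsto_Fof (h1 : S_CTY) (h4 : MB.S_REL) (h5 : MB.S_UNIQ) (hn : 2 ≤ n) (e₀ : Fin (n - 1) → ℂ)
    (he₀ : e₀ ∈ DD (n - 1)) : Tendsto (Fof h4 hn) (𝓝 e₀) (𝓝 (Fof h4 hn e₀)) := by
  rw [tendsto_iff_ultrafilter]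
  intro u hu
  obtain ⟨r, hr1, hr⟩ := roots_near e₀ he₀
  have hru : ∀ᶠ e in (u : Filter (Fin (n - 1) → ℂ)), ∀ z, (qe e).eval z = 0 → ‖z‖ ≤ r := hu hr
  have hD : ∀ᶠ e in (u : Filter (Fin (n - 1) → ℂ)), e ∈ DD (n - 1) := by
    filter_upwards [hru] with e he z hz
    exact lt_of_le_of_lt (he z hz) hr1
  obtain ⟨B₀, F, hF, hlim, ha, hb⟩ := h1 n hn r hr1 (Fin (n - 1) → ℂ) u (Bof n) (Fof h4 hn) (by
    filter_upwards [hru, hD] with e he1 he2
    exact ⟨fun j => he1 _ (Bof_norm e he2 j), Fof_spec h4 hn e⟩)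
  have hb1 : B₀.b = 1 := by
    have h6 : Tendsto (fun i => (Bof n i).b) (u : Filter (Fin (n - 1) → ℂ)) (𝓝 1) := by
      refine tendsto_const_nhds.congr' ?_
      filter_upwards [hD] with e he
      exact (Bof_spec e he).2.symm
    exact tendsto_nhds_unique hb h6
  have hpoly : ∏ i, (X - C (B₀.a i)) = qe e₀ := by
    apply Polynomial.funext
    intro z
    have t1 : Tendsto (fun e => ∏ i, (z - (Bof n e).a i)) (u : Filter (Fin (n - 1) → ℂ)) (𝓝 (∏ i, (z - B₀.a i))) :=
      tendsto_finsetProd _ fun i _ => tendsto_const_nhds.sub (ha i)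
    have t2 : Tendsto (fun e => (qe e).eval z) (u : Filter (Fin (n - 1) → ℂ)) (𝓝 ((qe e₀).eval z)) := by
      have hc : Continuous fun e : Fin (n - 1) → ℂ => (qe e).eval z := by
        simp only [qe_eval]
        fun_prop
      exact (hc.tendsto e₀).mono_left hu
    have t3 : Tendsto (fun e => (qe e).eval z) (u : Filter (Fin (n - 1) → ℂ)) (𝓝 (∏ i, (z - B₀.a i))) := by
      refine t1.congr' ?_
      filter_upwards [hD] with e he
      rw [← (Bof_spec e he).1, eval_prod]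
      simp
    rw [← tendsto_nhds_unique t3 t2, eval_prod]
    simp
  rw [← Fof_eq h4 h5 hn e₀ he₀ B₀ hb1 hpoly F hF]
  exact hlim

/-- two centred monic polynomials with the same coefficients -/
theorem rmap_ext {f g : RMap n} (hn : 2 ≤ n) (hf : f.Q = 1 ∧ f.P.coeff (n - 1) = 0) (hg : g.Q = 1 ∧ g.P.coeff (n - 1) = 0)
    (h : ∀ j < n - 1, f.P.coeff j = g.P.coeff j) : f = g := by
  have hP : f.P = g.P := by
    ext k
    rcases lt_trichotomy k (n - 1) with hk | hk | hk
    · exact h k hk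
    · rw [hk, hf.2, hg.2]
    · rcases Nat.lt_or_ge n k with hk' | hk'
      · rw [coeff_eq_zero_of_natDegree_lt (by rw [f.natDegree]; exact hk'),
          coeff_eq_zero_of_natDegree_lt (by rw [g.natDegree]; exact hk')]
      · have hkn : k = n := by omega
        have e1 := f.monic
        have e2 := g.monic
        rw [Monic, leadingCoeff, f.natDegree] at e1
        rw [Monic, leadingCoeff, g.natDegree] at e2
        rw [hkn, e1, e2]
  obtain ⟨P, Q, a1, a2, a3, a4⟩ := f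
  obtain ⟨P', Q', b1, b2, b3, b4⟩ := g
  obtain rfl : P = P' := hP
  obtain rfl : Q = Q' := hf.1.trans hg.1.symm
  rfl

/-- matings with `zn n` are centred polynomials -/
theorem mating_cen (h2 : S_CEN) (hn : 2 ≤ n) {B : Blaschke n} {f : RMap n} (hf : IsMating (zn n) B f) :
    f.Q = 1 ∧ f.P.coeff (n - 1) = 0 := by
  obtain ⟨φ, ψ, t, hM⟩ := hf
  exact h2 n hn f φ hM.ext

theorem Fof_inj (h2 : S_CEN) (h3 : S_INB) (h4 : MB.S_REL) (hn : 2 ≤ n) {e e' : Fin (n - 1) → ℂ} (he : e ∈ DD (n - 1))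
    (he' : e' ∈ DD (n - 1)) (h : ∀ j < n - 1, (Fof h4 hn e).P.coeff j = (Fof h4 hn e').P.coeff j) : e = e' := by
  have m1 := Fof_spec h4 hn e
  have m2 := Fof_spec h4 hn e'
  have hEq : Fof h4 hn e = Fof h4 hn e' := rmap_ext hn (mating_cen h2 hn m1) (mating_cen h2 hn m2) h
  rw [hEq] at m1
  have := h3 n hn _ _ _ (Bof_spec e he).2 (Bof_spec e' he').2 m1 m2
  rw [(Bof_spec e he).1, (Bof_spec e' he').1] at this
  exact qe_inj this

end E

end OPEaux

open OPEaux in
theorem t_OPE (h1 : S_CTY) (h2 : S_CEN) (h3 : S_INB) (h4 : MB.S_REL) (h5 : MB.S_UNIQ) (h6 : MB.S_RTOP) : S_OPE := by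
  intro n hn g hg
  obtain ⟨B₁, hB₁⟩ := hg
  obtain ⟨B, hb, hB⟩ := rotate B₁ g hB₁
  set p : ℂ[X] := ∏ i, (X - C (B.a i)) with hp
  have hpm : p.Monic := monic_prod_of_monic _ _ fun i _ => monic_X_sub_C _
  have hpd : p.natDegree = n - 1 := by
    rw [hp, natDegree_prod_of_monic _ _ fun i _ => monic_X_sub_C _]
    simp
  set e₀ : Fin (n - 1) → ℂ := fun j => p.coeff j with he₀
  have hq : qe e₀ = p := qe_of hpm hpd
  have he₀D : e₀ ∈ DD (n - 1) := by
    intro z hz
    rw [hq, hp, eval_prod, Finset.prod_eq_zero_iff] at hz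
    obtain ⟨i, -, hi⟩ := hz
    have : z = B.a i := by
      have h7 : z - B.a i = 0 := by simpa using hi
      linear_combination h7
    rw [this]
    exact B.norm_a i
  have hgF : g = Fof h4 hn e₀ := Fof_eq h4 h5 hn e₀ he₀D B hb hq.symm g hB
  obtain ⟨r, hr1, hr⟩ := roots_near e₀ he₀D
  have hDn : DD (n - 1) ∈ 𝓝 e₀ := by
    filter_upwards [hr] with e he z hz
    exact lt_of_le_of_lt (he z hz) hr1
  have hRT := (h6 n).2 (Fin (n - 1) → ℂ)
  have hcont : ContinuousOn (fun (e : Fin (n - 1) → ℂ) (j : Fin (n - 1)) => (Fof h4 hn e).P.coeff j) (DD (n - 1)) := by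
    intro e he
    refine ContinuousAt.continuousWithinAt ?_
    rw [ContinuousAt, tendsto_pi_nhds]
    intro j
    exact ((hRT _ _ _).1.mp (tendsto_Fof h1 h4 h5 hn e he)).1 j
  have hinj : InjOn (fun (e : Fin (n - 1) → ℂ) (j : Fin (n - 1)) => (Fof h4 hn e).P.coeff j) (DD (n - 1)) := by
    intro e he e' he' hee
    exact Fof_inj h2 h3 h4 hn he he' fun j hj => congrFun hee ⟨j, hj⟩
  have himg := iod _ e₀ (DD (n - 1)) hDn hcont hinj
  obtain ⟨ε, hε, hball⟩ := Metric.mem_nhds_iff.mp himg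
  refine ⟨ε, hε, fun g' hQ' hc' hcl => ?_⟩
  have hmem : (fun j : Fin (n - 1) => g'.P.coeff j) ∈ ball (fun j : Fin (n - 1) => (Fof h4 hn e₀).P.coeff j) ε := by
    rw [mem_ball, dist_pi_lt_iff hε]
    intro j
    rw [dist_eq_norm, ← hgF]
    exact hcl j (by have := j.2; omega)
  obtain ⟨e, he, hee⟩ := hball hmem
  have hm := Fof_spec h4 hn e
  have : g' = Fof h4 hn e := by
    refine rmap_ext hn ⟨hQ', hc'⟩ (mating_cen h2 hn hm) fun j hj => ?_
    exact (congrFun hee ⟨j, hj⟩).symm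
  rw [this]
  exact ⟨_, hm⟩

end Pool.Agent.H212.ND
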