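import Pool.Agent.H212.ND.StmM

/-!
# Project ND, job ZCR: zeros of Blaschke products from the critical points

Quantitative proof.  With `g_i = (z - a_i) (1 - conj a_i z)` the critical points of the Blaschke product are the
zeros of `G = ∏ g_i + z ∑ (1 - |a_i|²) ∏_{j ≠ i} g_j`, on the circle
`|G z| = ∏ |z - a_i|² + ∑ (1 - |a_i|²) ∏_{j ≠ i} |z - a_j|²`, and the maximum of `|G|` on the circle is
at most a constant times the minimum.
-/

set_option autoImplicit false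

open Filter Metric Set Topology Polynomial
open scoped ComplexConjugate

namespace Pool.Agent.H212.ND

open Pool.Agent.H212.MB

namespace ZCRaux

section gen

variable {ι : Type} [Fintype ι] [DecidableEq ι] (a : ι → ℂ)

/-- one factor -/
noncomputable def gp (i : ι) : ℂ[X] := (X - C (a i)) * (1 - C (conj (a i)) * X)

/-- the polynomial of the critical points -/
noncomputable def Gp : ℂ[X] :=
  ∏ i, gp a i + X * ∑ i, C (((1 - ‖a i‖ ^ 2 : ℝ)) : ℂ) * ∏ j ∈ Finset.univ.erase i, gp a j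

theorem eval_gp (i : ι) (z : ℂ) : (gp a i).eval z = (z - a i) * (1 - conj (a i) * z) := by
  unfold gp
  simp

theorem eval_Gp (z : ℂ) : (Gp a).eval z = ∏ i, (gp a i).eval z +
    z * ∑ i, (((1 - ‖a i‖ ^ 2 : ℝ)) : ℂ) * ∏ j ∈ Finset.univ.erase i, (gp a j).eval z := by
  unfold Gp
  rw [eval_add, eval_mul, eval_X, eval_prod, eval_finsetSum]
  congr 2
  refine Finset.sum_congr rfl fun i _ => ?_
  rw [eval_mul, eval_C, eval_prod]

theorem natDegree_gp (i : ι) : (gp a i).natDegree ≤ 2 := by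
  unfold gp
  refine natDegree_mul_le.trans ?_
  have h1 : (X - C (a i)).natDegree ≤ 1 := (natDegree_X_sub_C (a i)).le
  have h2 : (1 - C (conj (a i)) * X : ℂ[X]).natDegree ≤ 1 := by
    refine (natDegree_sub_le _ _).trans (max_le ?_ ?_)
    · rw [natDegree_one]
      exact Nat.zero_le _
    · exact (natDegree_C_mul_le _ _).trans natDegree_X_le
  omega

theorem natDegree_Gp : (Gp a).natDegree ≤ 2 * Fintype.card ι := by
  unfold Gp
  refine (natDegree_add_le _ _).trans (max_le ?_ ?_)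
  · refine (natDegree_prod_le _ _).trans ?_
    refine (Finset.sum_le_card_nsmul _ _ 2 fun i _ => natDegree_gp a i).trans ?_
    rw [Finset.card_univ, smul_eq_mul, mul_comm]
  · rw [Finset.mul_sum]
    refine natDegree_sum_le_of_forall_le _ _ fun i _ => ?_
    refine natDegree_mul_le.trans ?_
    refine (Nat.add_le_add natDegree_X_le ((natDegree_C_mul_le _ _).trans
      (natDegree_prod_le _ _))).trans ?_
    refine (Nat.add_le_add_left (Finset.sum_le_card_nsmul _ _ 2 fun j _ =>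
      natDegree_gp a j) 1).trans ?_
    rw [Finset.card_erase_of_mem (Finset.mem_univ i), Finset.card_univ, smul_eq_mul]
    have : 0 < Fintype.card ι := Fintype.card_pos_iff.2 ⟨i⟩
    omega

/-- the value of the modulus on the circle -/
noncomputable def Mc (z : ℂ) : ℝ :=
  ∏ i, ‖z - a i‖ ^ 2 + ∑ i, (1 - ‖a i‖ ^ 2) * ∏ j ∈ Finset.univ.erase i, ‖z - a j‖ ^ 2

theorem gp_circle (i : ι) {z : ℂ} (hz : ‖z‖ = 1) :
    (gp a i).eval z = z * ((‖z - a i‖ ^ 2 : ℝ) : ℂ) := by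
  have h1 : z * conj z = 1 := by
    rw [Complex.mul_conj, Complex.normSq_eq_norm_sq, hz]
    simp
  have h2 : ((‖z - a i‖ ^ 2 : ℝ) : ℂ) = (z - a i) * conj (z - a i) := by
    rw [Complex.mul_conj, Complex.normSq_eq_norm_sq]
  rw [eval_gp, h2, map_sub]
  have h3 : (1 - conj (a i) * z) = z * (conj z - conj (a i)) := by
    rw [mul_sub, h1]
    ring
  rw [h3]
  ring

theorem Gp_circle {z : ℂ} (hz : ‖z‖ = 1) :
    (Gp a).eval z = z ^ Fintype.card ι * ((Mc a z : ℝ) : ℂ) := by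
  have h1 : ∏ i, (gp a i).eval z = z ^ Fintype.card ι * ((∏ i, ‖z - a i‖ ^ 2 : ℝ) : ℂ) := by
    rw [Finset.prod_congr rfl fun i _ => gp_circle a i hz, Finset.prod_mul_distrib,
      Finset.prod_const, Finset.card_univ]
    push_cast
    rfl
  have h2 : z * ∑ i, (((1 - ‖a i‖ ^ 2 : ℝ)) : ℂ) * ∏ j ∈ Finset.univ.erase i, (gp a j).eval z =
      z ^ Fintype.card ι *
        ((∑ i, (1 - ‖a i‖ ^ 2) * ∏ j ∈ Finset.univ.erase i, ‖z - a j‖ ^ 2 : ℝ) : ℂ) := by
    rw [Finset.mul_sum, Complex.ofReal_sum, Finset.mul_sum]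
    refine Finset.sum_congr rfl fun i _ => ?_
    rw [Finset.prod_congr rfl fun j _ => gp_circle a j hz, Finset.prod_mul_distrib,
      Finset.prod_const, Finset.card_erase_of_mem (Finset.mem_univ i), Finset.card_univ]
    have h3 : 0 < Fintype.card ι := Fintype.card_pos_iff.2 ⟨i⟩
    obtain ⟨m, hm⟩ : ∃ m, Fintype.card ι = m + 1 := ⟨Fintype.card ι - 1, by omega⟩
    rw [hm, Nat.add_sub_cancel, pow_succ, Complex.ofReal_mul, Complex.ofReal_prod]
    ring
  rw [eval_Gp, h1, h2, ← mul_add, ← Complex.ofReal_add]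
  rfl

theorem Mc_ge (ha : ∀ i, ‖a i‖ < 1) (z : ℂ) : ∏ i, ‖z - a i‖ ^ 2 ≤ Mc a z := by
  unfold Mc
  have : 0 ≤ ∑ i, (1 - ‖a i‖ ^ 2) * ∏ j ∈ Finset.univ.erase i, ‖z - a j‖ ^ 2 := by
    refine Finset.sum_nonneg fun i _ => mul_nonneg ?_ (Finset.prod_nonneg fun j _ => by positivity)
    have h1 := ha i
    have h2 := norm_nonneg (a i)
    nlinarith
  linarith

theorem norm_Gp_circle (ha : ∀ i, ‖a i‖ < 1) {z : ℂ} (hz : ‖z‖ = 1) :
    ‖(Gp a).eval z‖ = Mc a z := by
  have h0 : 0 ≤ Mc a z := le_trans (Finset.prod_nonneg fun i _ => by positivity) (Mc_ge a ha z)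
  rw [Gp_circle a hz, norm_mul, norm_pow, hz, one_pow, one_mul, Complex.norm_real,
    Real.norm_eq_abs, abs_of_nonneg h0]

theorem Gp_circle_ne (ha : ∀ i, ‖a i‖ < 1) {z : ℂ} (hz : ‖z‖ = 1) : (Gp a).eval z ≠ 0 := by
  rw [← norm_pos_iff, norm_Gp_circle a ha hz]
  refine lt_of_lt_of_le (Finset.prod_pos fun i _ => ?_) (Mc_ge a ha z)
  have h1 : z - a i ≠ 0 := by
    intro h
    have h2 := ha i
    rw [← sub_eq_zero.1 h, hz] at h2
    exact lt_irrefl _ h2
  have := norm_pos_iff.2 h1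
  positivity

/-- symmetry -/
theorem gp_symm (i : ι) {z : ℂ} (hz : z ≠ 0) :
    (gp a i).eval z = z ^ 2 * conj ((gp a i).eval (conj z)⁻¹) := by
  rw [eval_gp, eval_gp]
  simp only [map_mul, map_sub, map_one, map_inv₀, Complex.conj_conj]
  field_simp

theorem Gp_symm {z : ℂ} (hz : z ≠ 0) :
    (Gp a).eval z = z ^ (2 * Fintype.card ι) * conj ((Gp a).eval (conj z)⁻¹) := by
  rw [eval_Gp, eval_Gp, map_add, map_mul, map_inv₀, Complex.conj_conj, map_prod, map_sum, mul_add]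
  congr 1
  · rw [Finset.prod_congr rfl fun i _ => gp_symm a i hz, Finset.prod_mul_distrib,
      Finset.prod_const, Finset.card_univ, ← pow_mul]
  · rw [Finset.mul_sum, Finset.mul_sum, Finset.mul_sum]
    refine Finset.sum_congr rfl fun i _ => ?_
    rw [Finset.prod_congr rfl fun j _ => gp_symm a j hz, Finset.prod_mul_distrib,
      Finset.prod_const, Finset.card_erase_of_mem (Finset.mem_univ i), Finset.card_univ, ← pow_mul,
      map_mul, map_prod, Complex.conj_ofReal]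
    have h3 : 0 < Fintype.card ι := Fintype.card_pos_iff.2 ⟨i⟩
    obtain ⟨m, hm⟩ : ∃ m, Fintype.card ι = m + 1 := ⟨Fintype.card ι - 1, by omega⟩
    rw [hm, Nat.add_sub_cancel]
    have h4 : z ^ (2 * (m + 1)) * z⁻¹ = z * z ^ (2 * m) := by
      rw [show 2 * (m + 1) = 2 * m + 1 + 1 by ring, pow_succ, mul_assoc, mul_inv_cancel₀ hz,
        mul_one, pow_succ]
      ring
    rw [← mul_assoc _ z⁻¹, h4]
    ring

/-- the ratio of the distances to a point far from the circle -/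
theorem ratio {ρ : ℝ} (h0 : 0 < ρ) (h1 : ρ < 1) {z w x : ℂ} (hz : ‖z‖ = 1) (hw : ‖w‖ = 1)
    (hx : ‖x‖ ≤ ρ ∨ ρ⁻¹ ≤ ‖x‖) : ‖z - x‖ ≤ (1 + ρ) / (1 - ρ) * ‖w - x‖ := by
  have h2 : 0 < 1 - ρ := by linarith
  rw [div_mul_eq_mul_div, le_div_iff₀ h2]
  have h3 : ‖z - x‖ ≤ 1 + ‖x‖ := by
    have := norm_sub_le z x
    rwa [hz] at this
  have h0x := norm_nonneg x
  rcases hx with hx | hx
  · have h4 : 1 - ‖x‖ ≤ ‖w - x‖ := by
      have := norm_sub_norm_le w x
      rwa [hw] at this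
    nlinarith
  · have h4 : ‖x‖ - 1 ≤ ‖w - x‖ := by
      have := norm_sub_norm_le x w
      rw [hw, norm_sub_rev] at this
      exact this
    have h5 : 1 ≤ ρ * ‖x‖ := by
      have := mul_le_mul_of_nonneg_left hx h0.le
      rwa [mul_inv_cancel₀ h0.ne'] at this
    have h6 : (1 + ‖x‖) * (1 - ρ) ≤ (1 + ρ) * (‖x‖ - 1) := by nlinarith
    nlinarith

theorem prod_ratio {z w : ℂ} {κ : ℝ} (h0 : 0 ≤ κ) : ∀ s : Multiset ℂ,
    (∀ x ∈ s, ‖z - x‖ ≤ κ * ‖w - x‖) →
    ‖(s.map fun x => z - x).prod‖ ≤ κ ^ (Multiset.card s) * ‖(s.map fun x => w - x).prod‖ := by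
  intro s
  induction s using Multiset.induction_on with
  | empty => intro _; simp
  | cons x s ih =>
    intro h
    rw [Multiset.map_cons, Multiset.prod_cons, Multiset.map_cons, Multiset.prod_cons,
      Multiset.card_cons, norm_mul, norm_mul, pow_succ]
    have h1 := h x (Multiset.mem_cons_self x s)
    have h2 := ih fun y hy => h y (Multiset.mem_cons_of_mem hy)
    calc _ ≤ (κ * ‖w - x‖) * (κ ^ (Multiset.card s) * ‖(s.map fun x => w - x).prod‖) := by
          gcongr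
      _ = _ := by ring

theorem poly_ratio {ρ : ℝ} (h0 : 0 < ρ) (h1 : ρ < 1) (p : ℂ[X])
    (hp : ∀ x : ℂ, p.eval x = 0 → ‖x‖ ≤ ρ ∨ ρ⁻¹ ≤ ‖x‖) {m : ℕ} (hm : p.natDegree ≤ m)
    {z w : ℂ} (hz : ‖z‖ = 1) (hw : ‖w‖ = 1) :
    ‖p.eval z‖ ≤ ((1 + ρ) / (1 - ρ)) ^ m * ‖p.eval w‖ := by
  have h2 : 0 < 1 - ρ := by linarith
  have hκ : 1 ≤ (1 + ρ) / (1 - ρ) := by
    rw [le_div_iff₀ h2]
    linarith
  by_cases hp0 : p = 0
  · rw [hp0]; simp
  rw [(IsAlgClosed.splits p).eval_eq_prod_roots z, (IsAlgClosed.splits p).eval_eq_prod_roots w,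
    norm_mul, norm_mul]
  have h3 := prod_ratio (z := z) (w := w) (κ := (1 + ρ) / (1 - ρ)) (by linarith) p.roots
    fun x hx => ratio h0 h1 hz hw (hp x ((mem_roots hp0).1 hx))
  have h4 : ((1 + ρ) / (1 - ρ)) ^ (Multiset.card p.roots) ≤ ((1 + ρ) / (1 - ρ)) ^ m :=
    pow_le_pow_right₀ hκ ((card_roots' p).trans hm)
  calc ‖p.leadingCoeff‖ * ‖(p.roots.map fun x => z - x).prod‖
      ≤ ‖p.leadingCoeff‖ * (((1 + ρ) / (1 - ρ)) ^ m *
          ‖(p.roots.map fun x => w - x).prod‖) := by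
        gcongr
        exact h3.trans (mul_le_mul_of_nonneg_right h4 (norm_nonneg _))
    _ = _ := by ring

/-- a product of squares of distances with one small factor -/
theorem prod_small {s : Finset ι} {i : ι} (hi : i ∈ s) {z : ℂ} (hz : ‖z‖ = 1) {δ : ℝ}
    (ha : ∀ i, ‖a i‖ < 1) (hδ : ‖z - a i‖ ≤ δ) (hδ1 : δ ≤ 1) :
    ∏ j ∈ s, ‖z - a j‖ ^ 2 ≤ δ * 4 ^ Fintype.card ι := by
  have h0 : 0 ≤ δ := (norm_nonneg _).trans hδ
  rw [← Finset.mul_prod_erase s _ hi]
  have h1 : ∏ j ∈ s.erase i, ‖z - a j‖ ^ 2 ≤ 4 ^ Fintype.card ι := by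
    calc ∏ j ∈ s.erase i, ‖z - a j‖ ^ 2 ≤ ∏ j ∈ s.erase i, (4 : ℝ) := by
          refine Finset.prod_le_prod (fun j _ => by positivity) fun j _ => ?_
          have h2 : ‖z - a j‖ ≤ 2 := by
            have := norm_sub_le z (a j)
            have := ha j
            linarith
          have := norm_nonneg (z - a j)
          nlinarith
      _ = 4 ^ (s.erase i).card := by rw [Finset.prod_const]
      _ ≤ _ := pow_le_pow_right₀ (by norm_num) (Finset.card_le_univ _)
  have h2 : ‖z - a i‖ ^ 2 ≤ δ := by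
    have := norm_nonneg (z - a i)
    nlinarith
  calc _ ≤ δ * 4 ^ Fintype.card ι := by gcongr

theorem Mc_small {i : ι} {z : ℂ} (hz : ‖z‖ = 1) (ha : ∀ i, ‖a i‖ < 1)
    (hδ : ‖z - a i‖ ≤ 1 - ‖a i‖) :
    Mc a z ≤ (1 - ‖a i‖) * (2 * (Fintype.card ι + 1) * 4 ^ Fintype.card ι) := by
  have hi0 := norm_nonneg (a i)
  have hi1 := ha i
  obtain ⟨δ, hδ'⟩ : ∃ δ : ℝ, δ = 1 - ‖a i‖ := ⟨_, rfl⟩
  have h4 : (1 : ℝ) ≤ 4 ^ Fintype.card ι := one_le_pow₀ (by norm_num)
  unfold Mc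
  have h1 := prod_small a (Finset.mem_univ i) hz ha hδ (by linarith)
  have h2 : ∑ k, (1 - ‖a k‖ ^ 2) * ∏ j ∈ Finset.univ.erase k, ‖z - a j‖ ^ 2 ≤
      ∑ k : ι, 2 * (1 - ‖a i‖) * 4 ^ Fintype.card ι := by
    refine Finset.sum_le_sum fun k _ => ?_
    have hk0 := norm_nonneg (a k)
    have hk1 := ha k
    by_cases hki : k = i
    · subst hki
      have h5 : ∏ j ∈ Finset.univ.erase k, ‖z - a j‖ ^ 2 ≤ 4 ^ Fintype.card ι := by
        calc ∏ j ∈ Finset.univ.erase k, ‖z - a j‖ ^ 2 ≤ ∏ j ∈ Finset.univ.erase k, (4 : ℝ) := by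
              refine Finset.prod_le_prod (fun j _ => by positivity) fun j _ => ?_
              have h2 : ‖z - a j‖ ≤ 2 := by
                have := norm_sub_le z (a j)
                have := ha j
                linarith
              have := norm_nonneg (z - a j)
              nlinarith
          _ = 4 ^ (Finset.univ.erase k).card := by rw [Finset.prod_const]
          _ ≤ _ := pow_le_pow_right₀ (by norm_num) (Finset.card_le_univ _)
      have h6 : 1 - ‖a k‖ ^ 2 ≤ 2 * (1 - ‖a k‖) := by nlinarith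
      have h7 : 0 ≤ ∏ j ∈ Finset.univ.erase k, ‖z - a j‖ ^ 2 :=
        Finset.prod_nonneg fun j _ => by positivity
      calc _ ≤ 2 * (1 - ‖a k‖) * ∏ j ∈ Finset.univ.erase k, ‖z - a j‖ ^ 2 :=
            mul_le_mul_of_nonneg_right h6 h7
        _ ≤ _ := by
            refine mul_le_mul_of_nonneg_left h5 ?_
            linarith
    · have h5 := prod_small a (s := Finset.univ.erase k) (i := i)
        (Finset.mem_erase.2 ⟨fun h => hki h.symm, Finset.mem_univ i⟩) hz ha hδ (by linarith)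
      have h7 : 0 ≤ ∏ j ∈ Finset.univ.erase k, ‖z - a j‖ ^ 2 :=
        Finset.prod_nonneg fun j _ => by positivity
      have h6 : 1 - ‖a k‖ ^ 2 ≤ 1 := by nlinarith
      have h8 : 0 ≤ (1 - ‖a i‖) * 4 ^ Fintype.card ι := by
        have : 0 ≤ 1 - ‖a i‖ := by linarith
        positivity
      calc _ ≤ 1 * ∏ j ∈ Finset.univ.erase k, ‖z - a j‖ ^ 2 :=
            mul_le_mul_of_nonneg_right h6 h7
        _ ≤ _ := by linarith
  rw [Finset.sum_const, Finset.card_univ, nsmul_eq_mul] at h2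
  have h8 : 0 ≤ (1 - ‖a i‖) * 4 ^ Fintype.card ι := by
    have : 0 ≤ 1 - ‖a i‖ := by linarith
    positivity
  calc _ ≤ (1 - ‖a i‖) * 4 ^ Fintype.card ι
        + Fintype.card ι * (2 * (1 - ‖a i‖) * 4 ^ Fintype.card ι) := add_le_add h1 h2
    _ ≤ _ := by nlinarith

/-- the maximum of the denominator on the circle is at least one -/
theorem one_le_of_den {T : ℝ} (h : ∀ w : ℂ, ‖w‖ = 1 → ∏ i, ‖w - a i‖ ^ 2 ≤ T) : 1 ≤ T := by
  have h1 : ∀ w : ℂ, ‖w‖ = 1 → ‖(∏ i, (1 - conj (a i) * w)) ^ 2‖ = ∏ i, ‖w - a i‖ ^ 2 := by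
    intro w hw
    rw [norm_pow, norm_prod, ← Finset.prod_pow]
    refine Finset.prod_congr rfl fun i _ => ?_
    congr 1
    have h2 : w * conj w = 1 := by
      rw [Complex.mul_conj, Complex.normSq_eq_norm_sq, hw]
      simp
    have h3 : (1 - conj (a i) * w) = w * conj (w - a i) := by
      rw [map_sub, mul_sub, h2]
      ring
    rw [h3, norm_mul, hw, one_mul, Complex.norm_conj]
  have h2 : DiffContOnCl ℂ (fun w : ℂ => (∏ i, (1 - conj (a i) * w)) ^ 2) (ball 0 1) := by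
    refine Differentiable.diffContOnCl ?_
    refine Differentiable.pow ?_ 2
    refine Differentiable.fun_finsetProd fun i _ => ?_
    fun_prop
  have h3 := Complex.norm_le_of_forall_mem_frontier_norm_le (isBounded_ball) h2 (C := T)
    (fun w hw => by
      rw [frontier_ball 0 one_ne_zero, mem_sphere_zero_iff_norm] at hw
      rw [h1 w hw]
      exact h w hw) (z := 0) (subset_closure (mem_ball_self one_pos))
  simpa using h3

end gen

section bl

variable {n : ℕ} (B : Blaschke n)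

/-- numerator and denominator as polynomials -/
noncomputable def Pp : ℂ[X] := C B.c * X * ∏ i, (X - C (B.a i))

noncomputable def Qp : ℂ[X] := ∏ i, (1 - C (conj (B.a i)) * X)

theorem eval_Pp (z : ℂ) : (Pp B).eval z = B.num z := by
  unfold Pp Blaschke.num
  rw [eval_mul, eval_mul, eval_C, eval_X, eval_prod]
  simp

theorem eval_Qp (z : ℂ) : (Qp B).eval z = B.den z := by
  unfold Qp Blaschke.den
  rw [eval_prod]
  simp

theorem wronsk : derivative (Pp B) * Qp B - Pp B * derivative (Qp B) = C B.c * Gp B.a := by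
  have h1 : derivative (∏ i, (X - C (B.a i))) =
      ∑ i, ∏ j ∈ Finset.univ.erase i, (X - C (B.a j)) := by
    rw [derivative_prod_finset]
    refine Finset.sum_congr rfl fun i _ => ?_
    rw [derivative_sub, derivative_X, derivative_C, sub_zero, mul_one]
  have h2 : derivative (∏ i, (1 - C (conj (B.a i)) * X)) =
      ∑ i, (∏ j ∈ Finset.univ.erase i, (1 - C (conj (B.a j)) * X)) * (-C (conj (B.a i))) := by
    rw [derivative_prod_finset]
    refine Finset.sum_congr rfl fun i _ => ?_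
    rw [derivative_sub, derivative_one, derivative_C_mul, derivative_X, mul_one, zero_sub]
  have h3 : ∀ i, (∏ j ∈ Finset.univ.erase i, (X - C (B.a j))) *
      ∏ j, (1 - C (conj (B.a j)) * X) =
      (∏ j ∈ Finset.univ.erase i, gp B.a j) * (1 - C (conj (B.a i)) * X) := by
    intro i
    rw [← Finset.prod_erase_mul _ _ (Finset.mem_univ i), ← mul_assoc, ← Finset.prod_mul_distrib]
    rfl
  have h4 : ∀ i, (∏ j, (X - C (B.a j))) *
      (∏ j ∈ Finset.univ.erase i, (1 - C (conj (B.a j)) * X)) =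
      (∏ j ∈ Finset.univ.erase i, gp B.a j) * (X - C (B.a i)) := by
    intro i
    rw [← Finset.prod_erase_mul _ _ (Finset.mem_univ i), mul_right_comm,
      ← Finset.prod_mul_distrib]
    rfl
  have h5 : (∏ i, (X - C (B.a i))) * ∏ i, (1 - C (conj (B.a i)) * X) = ∏ i, gp B.a i := by
    rw [← Finset.prod_mul_distrib]
    rfl
  have h6 : ∀ i, ((1 : ℂ[X]) - C (conj (B.a i)) * X) * 1 + C (conj (B.a i)) * (X - C (B.a i)) =
      C (((1 - ‖B.a i‖ ^ 2 : ℝ)) : ℂ) := by
    intro i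
    have h7 : conj (B.a i) * B.a i = ((‖B.a i‖ ^ 2 : ℝ) : ℂ) := by
      rw [mul_comm, Complex.mul_conj, Complex.normSq_eq_norm_sq]
    rw [mul_sub, ← C_mul, h7, Complex.ofReal_sub, C_sub, Complex.ofReal_one, C_1]
    ring
  unfold Pp Qp Gp
  rw [derivative_mul, derivative_mul, derivative_C, derivative_X, h1, h2, zero_mul, zero_add,
    mul_one]
  have h8 : (C B.c * X * ∑ i, ∏ j ∈ Finset.univ.erase i, (X - C (B.a j))) *
      ∏ i, (1 - C (conj (B.a i)) * X) = C B.c * (X * ∑ i,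
        (∏ j ∈ Finset.univ.erase i, gp B.a j) * (1 - C (conj (B.a i)) * X)) := by
    rw [mul_assoc (C B.c), mul_assoc (C B.c), mul_assoc X, Finset.sum_mul]
    refine congrArg (fun S => C B.c * (X * S)) ?_
    exact Finset.sum_congr rfl fun i _ => h3 i
  have h9 : (C B.c * X * ∏ i, (X - C (B.a i))) *
      (∑ i, (∏ j ∈ Finset.univ.erase i, (1 - C (conj (B.a j)) * X)) * (-C (conj (B.a i)))) =
      -(C B.c * (X * ∑ i, (∏ j ∈ Finset.univ.erase i, gp B.a j) *
        (C (conj (B.a i)) * (X - C (B.a i))))) := by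
    rw [mul_assoc (C B.c), mul_assoc (C B.c), mul_assoc X, Finset.mul_sum, ← mul_neg, ← mul_neg,
      ← Finset.sum_neg_distrib]
    refine congrArg (fun S => C B.c * (X * S)) ?_
    refine Finset.sum_congr rfl fun i _ => ?_
    rw [← mul_assoc, h4 i]
    ring
  rw [add_mul, mul_assoc (C B.c), h5, h8, h9, sub_neg_eq_add, add_assoc, ← mul_add, ← mul_add,
    ← mul_add, ← Finset.sum_add_distrib]
  refine congrArg (fun S => C B.c * (∏ i, gp B.a i + X * S)) ?_
  refine Finset.sum_congr rfl fun i _ => ?_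
  rw [← mul_add, ← h6 i, mul_one, mul_comm]

theorem den_ne {z : ℂ} (hz : ‖z‖ < 1) : B.den z ≠ 0 := by
  unfold Blaschke.den
  refine Finset.prod_ne_zero_iff.2 fun i _ h => ?_
  have h1 : conj (B.a i) * z = 1 := (sub_eq_zero.1 h).symm
  have h2 : ‖conj (B.a i) * z‖ < 1 := by
    rw [norm_mul, Complex.norm_conj]
    have := B.norm_a i
    have := norm_nonneg (B.a i)
    have := norm_nonneg z
    nlinarith
  rw [h1, norm_one] at h2
  exact lt_irrefl _ h2

/-- a zero of `Gp` in the disc is a critical point -/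
theorem deriv_ev {z : ℂ} (hz : ‖z‖ < 1) (h : (Gp B.a).eval z = 0) : deriv B.ev z = 0 := by
  have h1 : B.ev = fun w => (Pp B).eval w / (Qp B).eval w := by
    funext w
    rw [eval_Pp, eval_Qp]
    rfl
  have h2 : (Qp B).eval z ≠ 0 := by
    rw [eval_Qp]
    exact den_ne B hz
  have h3 := ((Pp B).hasDerivAt z).div ((Qp B).hasDerivAt z) h2
  have h4 : HasDerivAt B.ev (((derivative (Pp B)).eval z * (Qp B).eval z -
      (Pp B).eval z * (derivative (Qp B)).eval z) / (Qp B).eval z ^ 2) z := by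
    rw [h1]
    exact h3
  rw [h4.deriv, ← eval_mul, ← eval_mul, ← eval_sub, wronsk, eval_mul, h, mul_zero, zero_div]

end bl

end ZCRaux

open ZCRaux in
theorem t_ZCR : S_ZCR := by
  intro n hn r hr
  obtain ⟨ρ, hρ⟩ : ∃ ρ : ℝ, ρ = max r (1 / 2) := ⟨_, rfl⟩
  have hρr : r ≤ ρ := by rw [hρ]; exact le_max_left _ _
  have hρ0 : 0 < ρ := by
    rw [hρ]
    exact lt_of_lt_of_le (by norm_num) (le_max_right _ _)
  have hρ1 : ρ < 1 := by
    rw [hρ]
    exact max_lt hr (by norm_num)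
  obtain ⟨κ, hκ⟩ : ∃ κ : ℝ, κ = ((1 + ρ) / (1 - ρ)) ^ (2 * (n - 1)) *
    (2 * ((n - 1 : ℕ) + 1) * 4 ^ (n - 1)) := ⟨_, rfl⟩
  have hκ1 : 1 ≤ κ := by
    rw [hκ]
    have h1 : 1 ≤ ((1 + ρ) / (1 - ρ)) ^ (2 * (n - 1)) := by
      refine one_le_pow₀ ?_
      rw [le_div_iff₀ (by linarith)]
      linarith
    have h2 : (1 : ℝ) ≤ 4 ^ (n - 1) := one_le_pow₀ (by norm_num)
    have h3 : (1 : ℝ) ≤ 2 * ((n - 1 : ℕ) + 1) := by
      have : (0 : ℝ) ≤ ((n - 1 : ℕ) : ℝ) := Nat.cast_nonneg _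
      linarith
    exact one_le_mul_of_one_le_of_one_le h1 (one_le_mul_of_one_le_of_one_le h3 h2)
  refine ⟨1 - 1 / κ, by
    have : 0 < 1 / κ := by positivity
    linarith, fun B hB i => ?_⟩
  have hroots : ∀ x : ℂ, (Gp B.a).eval x = 0 → ‖x‖ ≤ ρ ∨ ρ⁻¹ ≤ ‖x‖ := by
    intro x hx
    rcases lt_trichotomy ‖x‖ 1 with h | h | h
    · exact Or.inl ((hB x h (deriv_ev B h hx)).trans hρr)
    · exact absurd hx (Gp_circle_ne B.a B.norm_a h)
    · right
      have hx0 : x ≠ 0 := by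
        rintro rfl
        rw [norm_zero] at h
        linarith
      have h1 := Gp_symm B.a hx0
      rw [hx] at h1
      have h2 : (Gp B.a).eval (conj x)⁻¹ = 0 := by
        rcases mul_eq_zero.1 h1.symm with h3 | h3
        · exact absurd h3 (pow_ne_zero _ hx0)
        · simpa using h3
      have h3 : ‖(conj x)⁻¹‖ = ‖x‖⁻¹ := by rw [norm_inv, Complex.norm_conj]
      have h4 : ‖(conj x)⁻¹‖ < 1 := by
        rw [h3]
        exact inv_lt_one_of_one_lt₀ h
      have h5 := (hB _ h4 (deriv_ev B h4 h2)).trans hρr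
      rw [h3] at h5
      exact (inv_le_comm₀ hρ0 (by linarith)).2 h5
  by_cases hai : B.a i = 0
  · rw [hai, norm_zero]
    have : 1 / κ ≤ 1 := by
      rw [div_le_one (by linarith)]
      exact hκ1
    linarith
  have hai0 : 0 < ‖B.a i‖ := norm_pos_iff.2 hai
  obtain ⟨ζ, hζ⟩ : ∃ ζ : ℂ, ζ = B.a i / (‖B.a i‖ : ℂ) := ⟨_, rfl⟩
  have hζ1 : ‖ζ‖ = 1 := by
    rw [hζ, norm_div, Complex.norm_real, norm_norm, div_self hai0.ne']
  have hζa : ‖ζ - B.a i‖ ≤ 1 - ‖B.a i‖ := by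
    have h1 : ζ - B.a i = ζ * ((1 - ‖B.a i‖ : ℝ) : ℂ) := by
      rw [hζ]
      have : (‖B.a i‖ : ℂ) ≠ 0 := by exact_mod_cast hai0.ne'
      field_simp
      push_cast
      ring
    rw [h1, norm_mul, hζ1, one_mul, Complex.norm_real, Real.norm_eq_abs,
      abs_of_pos (by linarith [B.norm_a i])]
  have hM := Mc_small B.a hζ1 B.norm_a hζa
  rw [Fintype.card_fin] at hM
  have hT := one_le_of_den B.a (T := κ * (1 - ‖B.a i‖)) fun w hw => by
    refine (Mc_ge B.a B.norm_a w).trans ?_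
    rw [← norm_Gp_circle B.a B.norm_a hw]
    have hd := natDegree_Gp B.a
    rw [Fintype.card_fin] at hd
    refine (poly_ratio hρ0 hρ1 (Gp B.a) hroots hd hw hζ1).trans ?_
    rw [norm_Gp_circle B.a B.norm_a hζ1, hκ]
    have h1 : 0 ≤ ((1 + ρ) / (1 - ρ)) ^ (2 * (n - 1)) := by
      have : 0 < 1 - ρ := by linarith
      positivity
    calc _ ≤ ((1 + ρ) / (1 - ρ)) ^ (2 * (n - 1)) *
          ((1 - ‖B.a i‖) * (2 * ((n - 1 : ℕ) + 1) * 4 ^ (n - 1))) :=
          mul_le_mul_of_nonneg_left hM h1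
      _ = _ := by ring
  have h6 : 1 / κ ≤ 1 - ‖B.a i‖ := by
    rw [div_le_iff₀ (by linarith)]
    linarith
  linarith

end Pool.Agent.H212.ND
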